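import Pool.Agent.Lib.MP_610fe3_an.HR.SpecZ
import Pool.Agent.Lib.MP_610fe3_an.Cf.Mfd1
import Pool.Agent.Lib.MP_610fe3_an.Gen.Split

/-!
# Module ACT: from the manifold to `Act`
-/

set_option autoImplicit false

open Set Filter Function Bundle
open scoped Topology Manifold ContDiff

namespace Pool.Agent.Lib.MP610fe3.HR

open Cf CH

universe u v w

namespace ACT

/-- A finite or infinite supremum over a subfamily commutes with the image under a linear map. -/
theorem map_iSup₂ {R T W : Type*} [Semiring R] [AddCommMonoid T] [Module R T] [AddCommMonoid W]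
    [Module R W] {J : Type*} (ι : T →ₗ[R] W) (p : J → Prop) (F : J → Submodule R T) :
    (⨆ (j) (_ : p j), F j).map ι = ⨆ (j) (_ : p j), (F j).map ι := by
  rw [Submodule.map_iSup]
  refine iSup_congr fun j => ?_
  rw [Submodule.map_iSup]

section Group

variable {M : Type*} {k : ℕ} (A : (Fin k → ℤ) → M → M)

theorem zero_eq (h0 : Injective (A 0)) (h : ∀ n n' x, A (n + n') x = A n (A n' x)) (x : M) :
    A 0 x = x := by
  apply h0
  rw [← h 0 0 x, add_zero]

theorem neg_eq (h0 : Injective (A 0)) (h : ∀ n n' x, A (n + n') x = A n (A n' x))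
    (n : Fin k → ℤ) (x : M) : A n (A (-n) x) = x := by
  rw [← h n (-n) x, add_neg_cancel, zero_eq A h0 h]

end Group

end ACT

open ACT

theorem specAct : SpecAct.{u, v, w} := by
  intro V _ _ _ N M _ _ _ _ _ _ e hiso he hinj k J _ A χ F hadd hsm hAn
  obtain ⟨E, hE, hEP, hr⟩ := Gen.exists_emb e hiso he hinj
  subst hE
  set ι : ∀ x : M, TangentSpace 𝓘(ℝ, V) x →ₗ[ℝ] EuclideanSpace ℝ (Fin N) := fun x =>
    Gen.dE V E.e x with hι
  have hι' : ∀ x, Injective (ι x) := hinj
  refine ⟨E, fun j x => (F j x).map (ι x), ⟨fun n n' x => hadd n n' x, fun n hn => ?_⟩,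
    fun i x => ?_⟩
  · obtain ⟨s, hs, hS, hU⟩ := Gen.exists_split E he hinj hr (A n) _ _ (hAn n hn)
    have hinv : ∀ x, (A n).symm x = A (-n) x := by
      intro x
      have h1 := neg_eq (fun n => (A n : M → M)) (A 0).injective hadd n x
      have h2 : (A n).symm (A n (A (-n) x)) = A (-n) x := (A n).symm_apply_apply _
      rw [← h2]
      exact congrArg _ h1.symm
    have hsy : ContMDiff 𝓘(ℝ, V) 𝓘(ℝ, V) 2 (A n).toHomeomorph.symm := by
      have h3 : ((A n).toHomeomorph.symm : M → M) = A (-n) := funext fun x => hinv x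
      rw [h3]
      exact hsm (-n)
    refine ⟨s, hs, Cf.specSq V N M E he hinj hEP (A n).toHomeomorph (hsm n) hsy s, fun x => ?_,
      fun x => ?_⟩
    · rw [hS x]
      exact map_iSup₂ (ι x) _ _
    · rw [hU x]
      exact map_iSup₂ (ι x) _ _
  · have h1 : coarse χ (fun j x => (F j x).map (ι x)) i x =
        (⨆ (l) (_ : ∃ c : ℝ, 0 < c ∧ χ l = c • χ i), F l x :
          Submodule ℝ (TangentSpace 𝓘(ℝ, V) x)).map (ι x) := (map_iSup₂ (ι x) _ _).symm
    rw [h1]
    exact (LinearEquiv.finrank_eq (Submodule.equivMapOfInjective (ι x) (hι' x) _)).symm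

end Pool.Agent.Lib.MP610fe3.HR
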