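import Pool.Agent.Lib.MP_610fe3_an.HR.SpecZ

/-!
# Module ARITH: chains of chambers with irrational ratios at the walls with a partner
-/

set_option autoImplicit false

open Set Filter Function
open scoped Topology

namespace Pool.Agent.Lib.MP610fe3.HR

open CH

universe w

namespace ARITHAux

variable {k : ℕ} {J : Type*}

/-- A change of sign. -/
def Chg (χ : J → Fin k → ℝ) (n n' : Fin k → ℤ) (j : J) : Prop :=
  ¬ (ev (χ j) n < 0 ↔ ev (χ j) n' < 0)

/-- The first wall on the way from `n` to `n'`. -/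
theorem first_wall [Fintype J] (χ : J → Fin k → ℝ) {n n' : Fin k → ℤ} (hn : Regular χ n)
    (hn' : Regular χ n') (hne : ∃ j, Chg χ n n' j) :
    ∃ (n₂ : Fin k → ℤ) (j₁ : J) (p q : ℤ), 0 < p ∧ n₂ = p • n + q • n' ∧ Regular χ n₂ ∧
      Chg χ n n' j₁ ∧ ¬ Chg χ n₂ n' j₁ ∧
      (∀ j, Chg χ n n₂ j → Chg χ n n' j ∧ ev (χ j) n * ev (χ j₁) n' = ev (χ j₁) n * ev (χ j) n') ∧
      (∀ j, Chg χ n₂ n' j → Chg χ n n' j) := by
  classical
  set Df := Finset.univ.filter fun j => Chg χ n n' j with hDf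
  have hne' : Df.Nonempty := by
    obtain ⟨j, hj⟩ := hne
    exact ⟨j, by rw [hDf, Finset.mem_filter]; exact ⟨Finset.mem_univ _, hj⟩⟩
  set r : J → ℝ := fun j => -ev (χ j) n / ev (χ j) n' with hr
  obtain ⟨j₁, hj₁, hmin⟩ := Finset.exists_min_image Df r hne'
  have hmem : ∀ j, j ∈ Df ↔ Chg χ n n' j := by
    intro j
    rw [hDf, Finset.mem_filter]
    exact ⟨fun h => h.2, fun h => ⟨Finset.mem_univ _, h⟩⟩
  have hsign : ∀ j ∈ Df, (ev (χ j) n < 0 ∧ 0 < ev (χ j) n') ∨
      (0 < ev (χ j) n ∧ ev (χ j) n' < 0) := by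
    intro j hj
    rw [hmem, Chg] at hj
    rcases lt_or_gt_of_ne (hn j) with h1 | h1 <;> rcases lt_or_gt_of_ne (hn' j) with h2 | h2
    · exact absurd ⟨fun _ => h2, fun _ => h1⟩ hj
    · exact Or.inl ⟨h1, h2⟩
    · exact Or.inr ⟨h1, h2⟩
    · exact absurd ⟨fun h => absurd h h1.le.not_gt, fun h => absurd h h2.le.not_gt⟩ hj
  have hrpos : ∀ j ∈ Df, 0 < r j := by
    intro j hj
    rcases hsign j hj with ⟨h1, h2⟩ | ⟨h1, h2⟩
    · exact div_pos (by linarith) h2
    · exact div_pos_of_neg_of_neg (by linarith) h2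
  obtain ⟨b, hb, hbs⟩ : ∃ b, r j₁ < b ∧ ∀ j, r j₁ < r j → b ≤ r j := by
    have h1 : ∀ᶠ x in 𝓝[>] (r j₁), ∀ j, r j₁ < r j → x ≤ r j := by
      refine eventually_all.2 fun j => ?_
      by_cases h : r j₁ < r j
      · filter_upwards [mem_nhdsWithin_of_mem_nhds (Iio_mem_nhds h)] with x hx _
        exact (show x < r j from hx).le
      · exact Eventually.of_forall fun x h' => absurd h' h
    obtain ⟨x, hx, hx'⟩ := (h1.and self_mem_nhdsWithin).exists
    exact ⟨x, hx', hx⟩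
  obtain ⟨ρ, hρ1, hρ2⟩ := exists_rat_btwn hb
  have hρ0 : (0 : ℝ) < ρ := (hrpos j₁ hj₁).trans hρ1
  have hden : (0 : ℝ) < ρ.den := by exact_mod_cast ρ.den_pos
  set n₂ : Fin k → ℤ := (ρ.den : ℤ) • n + ρ.num • n' with hn₂
  have hev : ∀ j, ev (χ j) n₂ = ρ.den * (ev (χ j) n + ρ * ev (χ j) n') := by
    intro j
    rw [hn₂, ev_add, ev_smul, ev_smul]
    have h1 : (ρ.num : ℝ) = ρ.den * (ρ : ℝ) := by
      have h2 : (ρ : ℝ) = (ρ.num : ℝ) / (ρ.den : ℝ) := by
        exact_mod_cast (Rat.cast_def (K := ℝ) ρ)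
      rw [h2]
      field_simp
    rw [h1]
    push_cast
    ring
  -- the signs at `n₂`
  have hA : ∀ j, j ∉ Df → (ev (χ j) n₂ < 0 ↔ ev (χ j) n < 0) ∧ ev (χ j) n₂ ≠ 0 := by
    intro j hj
    have h1 : ev (χ j) n < 0 ↔ ev (χ j) n' < 0 := by
      by_contra h
      exact hj ((hmem j).2 h)
    rw [hev]
    rcases lt_or_gt_of_ne (hn j) with h2 | h2
    · have h3 := h1.1 h2
      have h4 : ev (χ j) n + ρ * ev (χ j) n' < 0 := by nlinarith
      have h5 := mul_neg_of_pos_of_neg hden h4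
      exact ⟨⟨fun _ => h2, fun _ => h5⟩, h5.ne⟩
    · have h3 : 0 < ev (χ j) n' := by
        rcases lt_or_gt_of_ne (hn' j) with h | h
        · exact absurd (h1.2 h) h2.le.not_gt
        · exact h
      have h4 : 0 < ev (χ j) n + ρ * ev (χ j) n' := by nlinarith
      have h5 := mul_pos hden h4
      exact ⟨⟨fun h => absurd h h5.le.not_gt, fun h => absurd h h2.le.not_gt⟩, h5.ne'⟩
  have hB : ∀ j ∈ Df, r j = r j₁ → (ev (χ j) n₂ < 0 ↔ ev (χ j) n' < 0) ∧ ev (χ j) n₂ ≠ 0 := by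
    intro j hj hrj
    have hlt : r j < ρ := by rw [hrj]; exact hρ1
    rw [hev]
    rcases hsign j hj with ⟨h1, h2⟩ | ⟨h1, h2⟩
    · have h3 : -ev (χ j) n < ρ * ev (χ j) n' := (div_lt_iff₀ h2).1 hlt
      have h5 : 0 < (ρ.den : ℝ) * (ev (χ j) n + ρ * ev (χ j) n') :=
        mul_pos hden (by linarith)
      exact ⟨⟨fun h => absurd h h5.le.not_gt, fun h => absurd h h2.le.not_gt⟩, h5.ne'⟩
    · have h3 : ρ * ev (χ j) n' < -ev (χ j) n := (div_lt_iff_of_neg h2).1 hlt
      have h5 : (ρ.den : ℝ) * (ev (χ j) n + ρ * ev (χ j) n') < 0 :=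
        mul_neg_of_pos_of_neg hden (by linarith)
      exact ⟨⟨fun _ => h2, fun _ => h5⟩, h5.ne⟩
  have hC : ∀ j ∈ Df, r j ≠ r j₁ → (ev (χ j) n₂ < 0 ↔ ev (χ j) n < 0) ∧ ev (χ j) n₂ ≠ 0 := by
    intro j hj hrj
    have hlt : ρ < r j := hρ2.trans_le (hbs j (lt_of_le_of_ne (hmin j hj) (Ne.symm hrj)))
    rw [hev]
    rcases hsign j hj with ⟨h1, h2⟩ | ⟨h1, h2⟩
    · have h3 : ρ * ev (χ j) n' < -ev (χ j) n := (lt_div_iff₀ h2).1 hlt
      have h5 : (ρ.den : ℝ) * (ev (χ j) n + ρ * ev (χ j) n') < 0 :=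
        mul_neg_of_pos_of_neg hden (by linarith)
      exact ⟨⟨fun _ => h1, fun _ => h5⟩, h5.ne⟩
    · have h3 : -ev (χ j) n < ρ * ev (χ j) n' := (lt_div_iff_of_neg h2).1 hlt
      have h5 : 0 < (ρ.den : ℝ) * (ev (χ j) n + ρ * ev (χ j) n') :=
        mul_pos hden (by linarith)
      exact ⟨⟨fun h => absurd h h5.le.not_gt, fun h => absurd h h1.le.not_gt⟩, h5.ne'⟩
  have hreg : Regular χ n₂ := by
    intro j
    by_cases hj : j ∈ Df
    · by_cases hrj : r j = r j₁
      · exact (hB j hj hrj).2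
      · exact (hC j hj hrj).2
    · exact (hA j hj).2
  refine ⟨n₂, j₁, ρ.den, ρ.num, by exact_mod_cast ρ.den_pos, rfl, hreg, (hmem _).1 hj₁,
    fun h => h (hB j₁ hj₁ rfl).1, fun j hj => ?_, fun j hj => ?_⟩
  · have hjD : j ∈ Df := by
      by_contra hjD
      exact hj (hA j hjD).1.symm
    refine ⟨(hmem j).1 hjD, ?_⟩
    have hrj : r j = r j₁ := by
      by_contra hrj
      exact hj (hC j hjD hrj).1.symm
    have h1 : ev (χ j) n' ≠ 0 := hn' j
    have h2 : ev (χ j₁) n' ≠ 0 := hn' j₁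
    have h3 : -ev (χ j) n / ev (χ j) n' = -ev (χ j₁) n / ev (χ j₁) n' := hrj
    rw [div_eq_div_iff h1 h2] at h3
    linarith
  · by_contra hjD
    have hjD' : j ∉ Df := fun h => hjD ((hmem j).1 h)
    have h1 := (hA j hjD').1
    have h2 : ev (χ j) n < 0 ↔ ev (χ j) n' < 0 := by
      by_contra h
      exact hjD h
    exact hj (h1.trans h2)

theorem ev_smul_left (t : ℝ) (c : Fin k → ℝ) (v : Fin k → ℤ) : ev (t • c) v = t * ev c v := by
  simp only [ev, Pi.smul_apply, smul_eq_mul, Finset.mul_sum]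
  refine Finset.sum_congr rfl fun l _ => ?_
  ring

/-- A vector in the same chamber with irrational ratio. -/
theorem exists_irrational [Fintype J] (χ : J → Fin k → ℝ) {n n₂ : Fin k → ℤ} {i : J}
    (hn : ev (χ i) n ≠ 0) (hreg : Regular χ n₂)
    (hab : ∃ a b : Fin k → ℤ, Irrational (ev (χ i) a / ev (χ i) b)) :
    ∃ n₃ : Fin k → ℤ, Regular χ n₃ ∧ (∀ j, ev (χ j) n₃ < 0 ↔ ev (χ j) n₂ < 0) ∧
      Irrational (ev (χ i) n₃ / ev (χ i) n) := by
  classical
  by_cases h0 : Irrational (ev (χ i) n₂ / ev (χ i) n)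
  · exact ⟨n₂, hreg, fun j => Iff.rfl, h0⟩
  obtain ⟨v, hv⟩ : ∃ v : Fin k → ℤ, Irrational (ev (χ i) v / ev (χ i) n) := by
    obtain ⟨a, b, hab⟩ := hab
    by_contra hcon
    push Not at hcon
    have h1 := hcon a
    have h2 := hcon b
    rw [Irrational, not_not] at h1 h2
    obtain ⟨q1, hq1⟩ := h1
    obtain ⟨q2, hq2⟩ := h2
    apply hab
    refine ⟨q1 / q2, ?_⟩
    push_cast
    rw [hq1, hq2]
    field_simp
  obtain ⟨K, hK⟩ : ∃ K : ℕ, ∀ j, |ev (χ j) v| < K * |ev (χ j) n₂| := by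
    have h1 : ∀ j, ∃ K : ℕ, |ev (χ j) v| < K * |ev (χ j) n₂| := by
      intro j
      have h2 : 0 < |ev (χ j) n₂| := abs_pos.2 (hreg j)
      obtain ⟨K, hK⟩ := exists_nat_gt (|ev (χ j) v| / |ev (χ j) n₂|)
      exact ⟨K, (div_lt_iff₀ h2).1 hK⟩
    choose K hK using h1
    refine ⟨Finset.univ.sup K, fun j => (hK j).trans_le ?_⟩
    have h2 : K j ≤ Finset.univ.sup K := Finset.le_sup (Finset.mem_univ j)
    have h3 : (K j : ℝ) ≤ (Finset.univ.sup K : ℕ) := by exact_mod_cast h2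
    exact mul_le_mul_of_nonneg_right h3 (abs_nonneg _)
  have hev : ∀ j, ev (χ j) ((K : ℤ) • n₂ + v) = K * ev (χ j) n₂ + ev (χ j) v := by
    intro j
    rw [ev_add, ev_smul]
    push_cast
    ring
  have hsg : ∀ j, (ev (χ j) n₂ < 0 → ev (χ j) ((K : ℤ) • n₂ + v) < 0) ∧
      (0 < ev (χ j) n₂ → 0 < ev (χ j) ((K : ℤ) • n₂ + v)) := by
    intro j
    have h1 := hK j
    rw [hev]
    constructor
    · intro h2
      rw [abs_of_neg h2] at h1
      have h3 := (abs_lt.1 h1).2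
      linarith
    · intro h2
      rw [abs_of_pos h2] at h1
      have h3 := (abs_lt.1 h1).1
      linarith
  refine ⟨(K : ℤ) • n₂ + v, fun j => ?_, fun j => ?_, ?_⟩
  · rcases lt_or_gt_of_ne (hreg j) with h | h
    · exact ((hsg j).1 h).ne
    · exact ((hsg j).2 h).ne'
  · rcases lt_or_gt_of_ne (hreg j) with h | h
    · exact ⟨fun _ => h, fun _ => (hsg j).1 h⟩
    · exact ⟨fun h' => absurd h' ((hsg j).2 h).le.not_gt, fun h' => absurd h' h.le.not_gt⟩
  · rw [Irrational, not_not] at h0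
    obtain ⟨q, hq⟩ := h0
    rw [hev, add_div, mul_div_assoc, ← hq]
    have h1 : ((K : ℝ) * (q : ℝ)) = ((K * q : ℚ) : ℝ) := by push_cast; ring
    rw [h1]
    exact hv.ratCast_add _

/-- General relative position. -/
def Gen' (χ : J → Fin k → ℝ) (n n' : Fin k → ℤ) : Prop :=
  ∀ i j, ev (χ i) n * ev (χ j) n' = ev (χ j) n * ev (χ i) n' → ∃ c : ℝ, χ j = c • χ i

theorem exists_gen [Fintype J] (χ : J → Fin k → ℝ) {n : Fin k → ℤ} (hn : Regular χ n) :
    ∃ w, Regular χ w ∧ Gen' χ n w := by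
  classical
  set u : J ⊕ {p : J × J // ¬ ∃ c : ℝ, χ p.2 = c • χ p.1} → Fin k → ℝ := fun s => match s with
    | Sum.inl j => χ j
    | Sum.inr p => ev (χ p.1.1) n • χ p.1.2 - ev (χ p.1.2) n • χ p.1.1 with hu
  have hu0 : ∀ s, u s ≠ 0 := by
    rintro (j | ⟨⟨i, j⟩, hij⟩)
    · intro h
      have h' : χ j = 0 := h
      apply hn j
      simp [ev, h']
    · intro h
      have h' : ev (χ i) n • χ j - ev (χ j) n • χ i = 0 := h
      apply hij
      refine ⟨ev (χ j) n / ev (χ i) n, ?_⟩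
      show χ j = (ev (χ j) n / ev (χ i) n) • χ i
      have h3 : ev (χ i) n • χ j = ev (χ j) n • χ i := sub_eq_zero.1 h'
      rw [div_eq_inv_mul, mul_smul, ← h3, smul_smul, inv_mul_cancel₀ (hn i), one_smul]
  obtain ⟨w, hw⟩ := exists_int_vector u hu0
  refine ⟨w, fun j => hw (Sum.inl j), fun i j hij => ?_⟩
  by_contra hS
  apply hw (Sum.inr ⟨(i, j), hS⟩)
  have h1 : ev (ev (χ i) n • χ j - ev (χ j) n • χ i) w
      = ev (χ i) n * ev (χ j) w - ev (χ j) n * ev (χ i) w := by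
    simp only [ev, Pi.sub_apply, Pi.smul_apply, smul_eq_mul, Finset.mul_sum,
      ← Finset.sum_sub_distrib]
    refine Finset.sum_congr rfl fun l _ => ?_
    ring
  show ev (ev (χ i) n • χ j - ev (χ j) n • χ i) w = 0
  rw [h1, hij, sub_self]

/-- One step. -/
def StepZ (χ : J → Fin k → ℝ) (n n' : Fin k → ℤ) : Prop :=
  Step χ n n' ∨ ∃ l l', Cross χ n n' l l'

theorem sign_of_chg {χ : J → Fin k → ℝ} {n n' : Fin k → ℤ} (hn : Regular χ n)
    (hn' : Regular χ n') {j : J} (h : Chg χ n n' j) :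
    (ev (χ j) n < 0 ∧ 0 < ev (χ j) n') ∨ (0 < ev (χ j) n ∧ ev (χ j) n' < 0) := by
  rcases lt_or_gt_of_ne (hn j) with h1 | h1 <;> rcases lt_or_gt_of_ne (hn' j) with h2 | h2
  · exact absurd ⟨fun _ => h2, fun _ => h1⟩ h
  · exact Or.inl ⟨h1, h2⟩
  · exact Or.inr ⟨h1, h2⟩
  · exact absurd ⟨fun h => absurd h h1.le.not_gt, fun h => absurd h h2.le.not_gt⟩ h

theorem exists_chain [Fintype J] (χ : J → Fin k → ℝ)
    (hχ : ∀ i j, ∀ t : ℝ, 0 < t → χ i = -(t • χ j) → ∃ a b : Fin k → ℤ,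
      Irrational (ev (χ i) a / ev (χ i) b)) (d : ℕ) :
    ∀ n n' : Fin k → ℤ, Regular χ n → Regular χ n' → Gen' χ n n' →
      (Finset.univ.filter fun j => ¬ (ev (χ j) n < 0 ↔ ev (χ j) n' < 0)).card = d →
      Relation.ReflTransGen (StepZ χ) n n' := by
  classical
  induction d using Nat.strong_induction_on with
  | _ d ih =>
    intro n n' hn hn' hG hd
    by_cases hne : ∃ j, Chg χ n n' j
    swap
    · push Not at hne
      apply Relation.ReflTransGen.single
      refine Or.inl ⟨hn, hn', Or.inl fun j hj => ?_⟩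
      have h1 := hne j
      rw [Chg, not_not] at h1
      exact h1.1 hj
    obtain ⟨n₂, j₁, p, q, hp, hn₂, hreg, hj₁, hj₁', hfst, hsnd⟩ := first_wall χ hn hn' hne
    -- the functionals that change sign are proportional to `χ j₁`
    have hprop : ∀ j, Chg χ n n₂ j → ∃ c : ℝ, χ j = c • χ j₁ := by
      intro j hj
      obtain ⟨-, h1⟩ := hfst j hj
      exact hG j₁ j h1.symm
    -- the rest
    have hG2 : Gen' χ n₂ n' := by
      intro i j hij
      apply hG
      rw [hn₂, ev_add, ev_smul, ev_smul, ev_add, ev_smul, ev_smul] at hij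
      have hp' : (p : ℝ) ≠ 0 := by exact_mod_cast hp.ne'
      have h1 : (p : ℝ) * (ev (χ i) n * ev (χ j) n') = (p : ℝ) * (ev (χ j) n * ev (χ i) n') := by
        linarith
      exact mul_left_cancel₀ hp' h1
    have hcard : (Finset.univ.filter fun j => ¬ (ev (χ j) n₂ < 0 ↔ ev (χ j) n' < 0)).card
        < d := by
      rw [← hd]
      apply Finset.card_lt_card
      rw [Finset.ssubset_iff_of_subset]
      · refine ⟨j₁, ?_, fun h => ?_⟩
        · rw [Finset.mem_filter]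
          exact ⟨Finset.mem_univ _, hj₁⟩
        · rw [Finset.mem_filter] at h
          exact hj₁' h.2
      · intro j hj
        rw [Finset.mem_filter] at hj ⊢
        exact ⟨Finset.mem_univ _, hsnd j hj.2⟩
    have hrest := ih _ hcard n₂ n' hreg hn' hG2 rfl
    -- the sign of `χ j` at `n` and at `n₂`
    by_cases hpair : ∃ i j, Chg χ n n₂ i ∧ Chg χ n n₂ j ∧ ev (χ i) n < 0 ∧ 0 < ev (χ j) n
    swap
    · -- nested
      refine Relation.ReflTransGen.head (Or.inl ⟨hn, hreg, ?_⟩) hrest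
      by_cases hneg : ∃ i, Chg χ n n₂ i ∧ ev (χ i) n < 0
      · obtain ⟨i, hi, hi'⟩ := hneg
        right
        intro j hj
        by_contra hj'
        have h1 : 0 < ev (χ j) n := lt_of_le_of_ne (not_lt.1 hj') (hn j).symm
        exact hpair ⟨i, j, hi, fun h => hj' (h.2 hj), hi', h1⟩
      · left
        intro j hj
        by_contra hj'
        exact hneg ⟨j, fun h => hj' (h.1 hj), hj⟩
    · obtain ⟨i, j, hi, hj, hi0, hj0⟩ := hpair
      have hi2 : 0 < ev (χ i) n₂ := by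
        rcases sign_of_chg hn hreg hi with h | h
        · exact h.2
        · exact absurd h.1 hi0.le.not_gt
      -- proportional to `χ i`
      have hprop' : ∀ l, Chg χ n n₂ l → ∃ c : ℝ, χ l = c • χ i := by
        intro l hl
        obtain ⟨c, hc⟩ := hprop l hl
        obtain ⟨c', hc'⟩ := hprop i hi
        have hc0 : c' ≠ 0 := by
          rintro rfl
          apply hn i
          rw [hc', zero_smul]
          simp [ev]
        refine ⟨c / c', ?_⟩
        rw [hc, hc', smul_smul, div_mul_cancel₀ _ hc0]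
      obtain ⟨c, hc⟩ := hprop' j hj
      have hc0 : c < 0 := by
        have h1 : ev (χ j) n = c * ev (χ i) n := by rw [hc, ev_smul_left]
        by_contra hcon
        push Not at hcon
        have h2 : c * ev (χ i) n ≤ 0 := mul_nonpos_of_nonneg_of_nonpos hcon hi0.le
        linarith
      have hneg : ∃ t : ℝ, 0 < t ∧ χ j = -(t • χ i) := by
        refine ⟨-c, by linarith, ?_⟩
        rw [neg_smul, neg_neg]
        exact hc
      have hirr : ∃ a b : Fin k → ℤ, Irrational (ev (χ i) a / ev (χ i) b) := by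
        refine hχ i j (-c⁻¹) (by rw [neg_pos]; exact inv_lt_zero.2 hc0) ?_
        rw [neg_smul, neg_neg, hc, smul_smul, inv_mul_cancel₀ hc0.ne, one_smul]
      obtain ⟨n₃, hreg3, hsg, hirr3⟩ := exists_irrational χ (hn i) hreg hirr
      have hi3 : 0 < ev (χ i) n₃ := by
        rcases lt_or_gt_of_ne (hreg3 i) with h | h
        · exact absurd ((hsg i).1 h) hi2.le.not_gt
        · exact h
      have hcross : Cross χ n n₃ i j := by
        refine ⟨⟨hn, hreg3, hneg, hi0, hi3, fun l hl => hprop' l fun h => hl ?_⟩, hirr3⟩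
        rw [h, hsg]
      refine Relation.ReflTransGen.head (Or.inr ⟨i, j, hcross⟩)
        (Relation.ReflTransGen.head (Or.inl ⟨hreg3, hreg, Or.inl fun l hl => ?_⟩) hrest)
      exact (hsg l).1 hl

end ARITHAux

open ARITHAux

/-- **Chains of chambers.** -/
theorem specArith : SpecArith.{w} := by
  classical
  intro k J _ χ hχ n hn
  have := Fintype.ofFinite J
  obtain ⟨w, hw, hG⟩ := exists_gen χ hn
  have hn' : Regular χ (-n) := by
    intro j h
    rw [ev_neg, neg_eq_zero] at h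
    exact hn j h
  have hG' : Gen' χ w (-n) := by
    intro i j hij
    apply hG
    rw [ev_neg, ev_neg] at hij
    linarith
  have h1 := (exists_chain χ hχ _ n w hn hw hG rfl).trans
    (exists_chain χ hχ _ w (-n) hw hn' hG' rfl)
  have key : ∀ v, Relation.ReflTransGen (StepZ χ) n v →
      ∃ (m : ℕ) (c : ℕ → Fin k → ℤ), c 0 = n ∧ c m = v ∧ ∀ i < m, StepZ χ (c i) (c (i + 1)) := by
    intro v hv
    induction hv with
    | refl => exact ⟨0, fun _ => n, rfl, rfl, fun i hi => absurd hi (Nat.not_lt_zero i)⟩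
    | tail _ hstep ih =>
      rename_i b c' _
      obtain ⟨m, c, h0, hm, hc⟩ := ih
      refine ⟨m + 1, fun i => if i ≤ m then c i else c', by simp [h0], by simp, fun i hi => ?_⟩
      rcases Nat.lt_succ_iff_lt_or_eq.1 hi with h | h
      · have h2 : i ≤ m := h.le
        have h3 : i + 1 ≤ m := h
        simp only [h2, h3, if_true]
        exact hc i h
      · subst h
        have h3 : ¬ (i + 1 ≤ i) := by omega
        simp only [le_refl, if_true, h3, if_false]
        rw [hm]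
        exact hstep
  exact key _ h1

end Pool.Agent.Lib.MP610fe3.HR
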