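import Pool.Agent.Lib.MP_610fe3_an.HR.SpecZ2
import Pool.Agent.Lib.MP_610fe3_an.HR.ARITH

/-!
# Module ARITH2: chains of chambers with ratios irrational or `-1` at the walls with a partner
-/

set_option autoImplicit false

open Set Filter Function
open scoped Topology

namespace Pool.Agent.Lib.MP610fe3.HR

open CH ARITHAux

universe w

namespace ARITH2Aux

variable {k : ℕ} {J : Type*}

/-- One step. -/
def StepQ (χ : J → Fin k → ℝ) (n n' : Fin k → ℤ) : Prop :=
  Step χ n n' ∨ ∃ l l', Cross χ n n' l l' ∨ Cross1 χ n n' l l'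

theorem reg_smul {χ : J → Fin k → ℝ} {n : Fin k → ℤ} (h : Regular χ n) {m : ℤ} (hm : 0 < m) :
    Regular χ (m • n) := fun l => by
  rw [ev_smul]
  exact mul_ne_zero (Int.cast_ne_zero.2 hm.ne') (h l)

theorem neg_smul_iff (c : Fin k → ℝ) (n : Fin k → ℤ) {m : ℤ} (hm : 0 < m) :
    ev c (m • n) < 0 ↔ ev c n < 0 := by
  have hm' : (0 : ℝ) < m := Int.cast_pos.2 hm
  rw [ev_smul]
  constructor
  · intro h
    by_contra hb
    push Not at hb
    linarith [mul_nonneg hm'.le hb]
  · exact fun h => mul_neg_of_pos_of_neg hm' h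

/-- From `n` to a positive multiple and back. -/
theorem step_smul {χ : J → Fin k → ℝ} {n : Fin k → ℤ} (h : Regular χ n) {m : ℤ} (hm : 0 < m) :
    Step χ n (m • n) ∧ Step χ (m • n) n :=
  ⟨⟨h, reg_smul h hm, Or.inl fun _ hl => (neg_smul_iff _ _ hm).2 hl⟩,
    ⟨reg_smul h hm, h, Or.inl fun _ hl => (neg_smul_iff _ _ hm).1 hl⟩⟩

/-- A wall step in the class of steps. -/
theorem chain_of_wal {χ : J → Fin k → ℝ} {n n' : Fin k → ℤ} {i j : J} (h : Wal χ n n' i j) :
    Relation.ReflTransGen (StepQ χ) n n' := by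
  by_cases hirr : Irrational (ev (χ i) n' / ev (χ i) n)
  · exact Relation.ReflTransGen.single (Or.inr ⟨i, j, Or.inl ⟨h, hirr⟩⟩)
  rw [Irrational, not_not] at hirr
  obtain ⟨q, hq⟩ := hirr
  have hq0 : (q : ℝ) < 0 := by rw [hq]; exact div_neg_of_pos_of_neg h.gt h.lt
  have hq0' : q < 0 := by exact_mod_cast hq0
  have hnum : q.num < 0 := Rat.num_neg.2 hq0'
  have hden : (0 : ℤ) < q.den := by exact_mod_cast q.den_pos
  have hu : 0 < -q.num := by omega
  have h1 : ev (χ i) n' = q * ev (χ i) n := by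
    rw [hq, div_mul_cancel₀ _ h.lt.ne]
  have h2 : (q : ℝ) * (q.den : ℝ) = q.num := by
    have h3 : (q : ℝ) = (q.num : ℝ) / (q.den : ℝ) := by
      exact_mod_cast (Rat.cast_def (K := ℝ) q)
    have h4 : (q.den : ℝ) ≠ 0 := by
      have := q.den_pos
      positivity
    rw [h3, div_mul_cancel₀ _ h4]
  have hreg := reg_smul h.reg hu
  have hreg' := reg_smul h.reg' hden
  have hw : Cross1 χ ((-q.num) • n) ((q.den : ℤ) • n') i j := by
    refine ⟨⟨hreg, hreg', h.neg, (neg_smul_iff _ _ hu).2 h.lt, ?_, fun l hl => h.only l ?_⟩, ?_⟩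
    · rw [ev_smul]
      exact mul_pos (Int.cast_pos.2 hden) h.gt
    · rwa [neg_smul_iff _ _ hu, neg_smul_iff _ _ hden] at hl
    · rw [ev_smul, ev_smul, h1, ← mul_assoc, mul_comm ((q.den : ℤ) : ℝ) (q : ℝ)]
      push_cast
      rw [h2]
      ring
  have a1 : StepQ χ n ((-q.num) • n) := Or.inl (step_smul h.reg hu).1
  have a2 : StepQ χ ((-q.num) • n) ((q.den : ℤ) • n') := Or.inr ⟨i, j, Or.inr hw⟩
  have a3 : StepQ χ ((q.den : ℤ) • n') n' := Or.inl (step_smul h.reg' hden).2
  exact ((Relation.ReflTransGen.single a1).tail a2).tail a3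

theorem exists_chain [Fintype J] (χ : J → Fin k → ℝ) (d : ℕ) :
    ∀ n n' : Fin k → ℤ, Regular χ n → Regular χ n' → Gen' χ n n' →
      (Finset.univ.filter fun j => ¬ (ev (χ j) n < 0 ↔ ev (χ j) n' < 0)).card = d →
      Relation.ReflTransGen (StepQ χ) n n' := by
  classical
  induction d using Nat.strong_induction_on with
  | _ d ih =>
    intro n n' hn hn' hG hd
    by_cases hne : ∃ j, Chg χ n n' j
    swap
    · push Not at hne
      apply Relation.ReflTransGen.single
      refine Or.inl ⟨hn, hn', Or.inl fun j hj => ?_⟩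
      have h1 := hne j
      rw [Chg, not_not] at h1
      exact h1.1 hj
    obtain ⟨n₂, j₁, p, q, hp, hn₂, hreg, hj₁, hj₁', hfst, hsnd⟩ := first_wall χ hn hn' hne
    -- the functionals that change sign are proportional to `χ j₁`
    have hprop : ∀ j, Chg χ n n₂ j → ∃ c : ℝ, χ j = c • χ j₁ := by
      intro j hj
      obtain ⟨-, h1⟩ := hfst j hj
      exact hG j₁ j h1.symm
    -- the rest
    have hG2 : Gen' χ n₂ n' := by
      intro i j hij
      apply hG
      rw [hn₂, ev_add, ev_smul, ev_smul, ev_add, ev_smul, ev_smul] at hij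
      have hp' : (p : ℝ) ≠ 0 := by exact_mod_cast hp.ne'
      have h1 : (p : ℝ) * (ev (χ i) n * ev (χ j) n') = (p : ℝ) * (ev (χ j) n * ev (χ i) n') := by
        linarith
      exact mul_left_cancel₀ hp' h1
    have hcard : (Finset.univ.filter fun j => ¬ (ev (χ j) n₂ < 0 ↔ ev (χ j) n' < 0)).card
        < d := by
      rw [← hd]
      apply Finset.card_lt_card
      rw [Finset.ssubset_iff_of_subset]
      · refine ⟨j₁, ?_, fun h => ?_⟩
        · rw [Finset.mem_filter]
          exact ⟨Finset.mem_univ _, hj₁⟩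
        · rw [Finset.mem_filter] at h
          exact hj₁' h.2
      · intro j hj
        rw [Finset.mem_filter] at hj ⊢
        exact ⟨Finset.mem_univ _, hsnd j hj.2⟩
    have hrest := ih _ hcard n₂ n' hreg hn' hG2 rfl
    by_cases hpair : ∃ i j, Chg χ n n₂ i ∧ Chg χ n n₂ j ∧ ev (χ i) n < 0 ∧ 0 < ev (χ j) n
    swap
    · -- nested
      refine Relation.ReflTransGen.head (Or.inl ⟨hn, hreg, ?_⟩) hrest
      by_cases hneg : ∃ i, Chg χ n n₂ i ∧ ev (χ i) n < 0
      · obtain ⟨i, hi, hi'⟩ := hneg
        right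
        intro j hj
        by_contra hj'
        have h1 : 0 < ev (χ j) n := lt_of_le_of_ne (not_lt.1 hj') (hn j).symm
        exact hpair ⟨i, j, hi, fun h => hj' (h.2 hj), hi', h1⟩
      · left
        intro j hj
        by_contra hj'
        exact hneg ⟨j, fun h => hj' (h.1 hj), hj⟩
    · obtain ⟨i, j, hi, hj, hi0, hj0⟩ := hpair
      have hi2 : 0 < ev (χ i) n₂ := by
        rcases sign_of_chg hn hreg hi with h | h
        · exact h.2
        · exact absurd h.1 hi0.le.not_gt
      -- proportional to `χ i`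
      have hprop' : ∀ l, Chg χ n n₂ l → ∃ c : ℝ, χ l = c • χ i := by
        intro l hl
        obtain ⟨c, hc⟩ := hprop l hl
        obtain ⟨c', hc'⟩ := hprop i hi
        have hc0 : c' ≠ 0 := by
          rintro rfl
          apply hn i
          rw [hc', zero_smul]
          simp [ev]
        refine ⟨c / c', ?_⟩
        rw [hc, hc', smul_smul, div_mul_cancel₀ _ hc0]
      obtain ⟨c, hc⟩ := hprop' j hj
      have hc0 : c < 0 := by
        have h1 : ev (χ j) n = c * ev (χ i) n := by rw [hc, ev_smul_left]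
        by_contra hcon
        push Not at hcon
        have h2 : c * ev (χ i) n ≤ 0 := mul_nonpos_of_nonneg_of_nonpos hcon hi0.le
        linarith
      have hneg : ∃ t : ℝ, 0 < t ∧ χ j = -(t • χ i) := by
        refine ⟨-c, by linarith, ?_⟩
        rw [neg_smul, neg_neg]
        exact hc
      exact (chain_of_wal ⟨hn, hreg, hneg, hi0, hi2, fun l hl => hprop' l hl⟩).trans hrest

end ARITH2Aux

open ARITH2Aux

/-- **Chains of chambers**, without conditions on the walls. -/
theorem specArith2 : SpecArith2.{w} := by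
  classical
  intro k J _ χ n hn
  have := Fintype.ofFinite J
  obtain ⟨w, hw, hG⟩ := exists_gen χ hn
  have hn' : Regular χ (-n) := by
    intro j h
    rw [ev_neg, neg_eq_zero] at h
    exact hn j h
  have hG' : Gen' χ w (-n) := by
    intro i j hij
    apply hG
    rw [ev_neg, ev_neg] at hij
    linarith
  have h1 := (ARITH2Aux.exists_chain χ _ n w hn hw hG rfl).trans
    (ARITH2Aux.exists_chain χ _ w (-n) hw hn' hG' rfl)
  have key : ∀ v, Relation.ReflTransGen (StepQ χ) n v →
      ∃ (m : ℕ) (c : ℕ → Fin k → ℤ), c 0 = n ∧ c m = v ∧ ∀ i < m, StepQ χ (c i) (c (i + 1)) := by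
    intro v hv
    induction hv with
    | refl => exact ⟨0, fun _ => n, rfl, rfl, fun i hi => absurd hi (Nat.not_lt_zero i)⟩
    | tail _ hstep ih =>
      rename_i b c' _
      obtain ⟨m, c, h0, hm, hc⟩ := ih
      refine ⟨m + 1, fun i => if i ≤ m then c i else c', by simp [h0], by simp, fun i hi => ?_⟩
      rcases Nat.lt_succ_iff_lt_or_eq.1 hi with h | h
      · have h2 : i ≤ m := h.le
        have h3 : i + 1 ≤ m := h
        simp only [h2, h3, if_true]
        exact hc i h
      · subst h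
        have h3 : ¬ (i + 1 ≤ i) := by omega
        simp only [le_refl, if_true, h3, if_false]
        rw [hm]
        exact hstep
  exact key _ h1

end Pool.Agent.Lib.MP610fe3.HR
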