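import Pool.Agent.Lib.MP_610fe3_an.HR.Spec

/-!
# Module BAS: the basin of a closed set saturated by unstable sets is open
-/

set_option autoImplicit false

open Set Filter Function
open scoped Topology

namespace Pool.Agent.Lib.MP610fe3.HR

open Cf CH

universe u

theorem specBas : SpecBas.{u} := by
  intro M _ _ f ε C l h A N hA hS hN hinv
  have hc := h.expConst
  have hc0 := h.br.ε_pos
  have hsh := h.sh
  have hopen : IsOpen {x | ∃ a ∈ A, FwdAsymp f x a} := by
    rw [Metric.isOpen_iff]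
    rintro x ⟨a, ha, hxa⟩
    obtain ⟨δ, hδ, hb⟩ := bracket' hc0 hc hsh hc0
    obtain ⟨m₀, hm₀⟩ := (Metric.tendsto_atTop.1
      (show Tendsto (fun k : ℕ => dist (f^[k] x) (f^[k] a)) atTop (𝓝 0) from hxa))
      (δ / 2) (by positivity)
    have h1 : dist (f^[N * m₀] x) (f^[N * m₀] a) < δ / 2 := by
      have h0 := hm₀ (N * m₀) (Nat.le_mul_of_pos_left m₀ hN)
      rwa [Real.dist_0_eq_abs, abs_of_nonneg dist_nonneg] at h0
    have hcont : ContinuousAt (f^[N * m₀]) x := (f.continuous.iterate _).continuousAt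
    obtain ⟨r, hr, hr2⟩ := Metric.continuousAt_iff.1 hcont (δ / 2) (by positivity)
    refine ⟨r, hr, fun y hy => ?_⟩
    have h2 := hr2 (Metric.mem_ball.1 hy)
    have h3 : dist (f^[N * m₀] a) (f^[N * m₀] y) < δ := by
      have h4 := dist_triangle (f^[N * m₀] a) (f^[N * m₀] x) (f^[N * m₀] y)
      rw [dist_comm (f^[N * m₀] a) (f^[N * m₀] x), dist_comm (f^[N * m₀] x) (f^[N * m₀] y)] at h4
      linarith
    obtain ⟨z, hz1, hz2, -⟩ := hb _ _ h3
    have hfa : f^[N * m₀] a ∈ A := iterate_maps hinv ha m₀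
    have hz : z ∈ A := hS _ hfa z (fa_symm hz1)
    refine ⟨f.symm^[N * m₀] z, symm_iter_mem hinv hz m₀, ?_⟩
    have h4 := fa_symm_iter (N * m₀) hz2
    rw [symm_iter] at h4
    exact fa_symm h4
  refine ⟨hopen, ?_⟩
  rintro q ⟨hq, hqB⟩
  refine hA.closure_subset_iff.2 ?_ (hopen.closure_inter ⟨hq, hqB⟩)
  rintro p ⟨hp, a, ha, hpa⟩
  exact mem_of_fwdAsymp_periodic hN hA hinv ha hp (fa_symm hpa)

end Pool.Agent.Lib.MP610fe3.HR
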