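import Pool.Agent.Lib.MP_610fe3_an.HR.Spec

/-!
# Elementary properties of the double leaves
-/

set_option autoImplicit false

open Set Filter Function
open scoped Topology

namespace Pool.Agent.Lib.MP610fe3.HR

open Cf CH

universe u

namespace DblAux

variable {M : Type u} [MetricSpace M] {f g : M ≃ₜ M}

lemma iter_comm (h : ∀ x, f (g x) = g (f x)) (n m : ℕ) (x : M) :
    f^[n] (g^[m] x) = g^[m] (f^[n] x) := by
  have h1 : Function.Commute (f : M → M) (g : M → M) := fun x => h x
  exact (h1.iterate_iterate n m) x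

lemma iter_c {c : M → M} (hf : ∀ x, c (f x) = f (c x)) (hg : ∀ x, c (g x) = g (c x))
    (n m : ℕ) (x : M) : f^[n] (g^[m] (c x)) = c (f^[n] (g^[m] x)) := by
  have h1 : Function.Commute (f : M → M) c := fun x => (hf x).symm
  have h2 : Function.Commute (g : M → M) c := fun x => (hg x).symm
  have e1 : g^[m] (c x) = c (g^[m] x) := (h2.iterate_left m) x
  have e2 : f^[n] (c (g^[m] x)) = c (f^[n] (g^[m] x)) := (h1.iterate_left n) _
  rw [e1, e2]

lemma of_c [CompactSpace M] {c : M → M} (hc : Continuous c) (hf : ∀ x, c (f x) = f (c x))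
    (hg : ∀ x, c (g x) = g (c x)) {x y : M} (h : Dbl f g x y) : Dbl f g (c x) (c y) := by
  intro ε hε
  have hu := CompactSpace.uniformContinuous_of_continuous hc
  rw [Metric.uniformContinuous_iff] at hu
  obtain ⟨δ, hδ, H⟩ := hu ε hε
  obtain ⟨K, hK⟩ := h (δ / 2) (by positivity)
  refine ⟨K, fun n m hnm => ?_⟩
  rw [iter_c hf hg, iter_c hf hg]
  exact (H (lt_of_le_of_lt (hK n m hnm) (by linarith))).le

end DblAux

open DblAux in
theorem specDbl : SpecDbl.{u} := by
  intro M _ _ f g hfg
  refine ⟨?_, ?_, ?_, ?_, ?_, ?_, ?_, ?_, ?_⟩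
  · intro x ε hε
    exact ⟨0, fun n m _ => by rw [dist_self]; exact hε.le⟩
  · intro x y h ε hε
    obtain ⟨K, hK⟩ := h ε hε
    exact ⟨K, fun n m hnm => by rw [dist_comm]; exact hK n m hnm⟩
  · intro x y z h1 h2 ε hε
    obtain ⟨K, hK⟩ := h1 (ε / 2) (by positivity)
    obtain ⟨K', hK'⟩ := h2 (ε / 2) (by positivity)
    refine ⟨max K K', fun n m hnm => ?_⟩
    have e1 := hK n m (le_trans (le_max_left _ _) hnm)
    have e2 := hK' n m (le_trans (le_max_right _ _) hnm)
    have e3 := dist_triangle (f^[n] (g^[m] x)) (f^[n] (g^[m] y)) (f^[n] (g^[m] z))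
    linarith
  · intro x y h ε hε
    obtain ⟨K, hK⟩ := h ε hε
    refine ⟨K, fun n m hnm => ?_⟩
    rw [← iter_comm hfg, ← iter_comm hfg]
    exact hK m n (by omega)
  · intro x y h
    refine Metric.tendsto_atTop.2 (fun ε hε => ?_)
    obtain ⟨K, hK⟩ := h (ε / 2) (by positivity)
    refine ⟨K, fun n hn => ?_⟩
    have e1 := hK n 0 (by omega)
    simp only [iterate_zero, id_eq] at e1
    rw [Real.dist_0_eq_abs, abs_of_nonneg dist_nonneg]
    linarith
  · intro x y h
    refine Metric.tendsto_atTop.2 (fun ε hε => ?_)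
    obtain ⟨K, hK⟩ := h (ε / 2) (by positivity)
    refine ⟨K, fun n hn => ?_⟩
    have e1 := hK 0 n (by omega)
    simp only [iterate_zero, id_eq] at e1
    rw [Real.dist_0_eq_abs, abs_of_nonneg dist_nonneg]
    linarith
  · intro c hcf hcg x y
    constructor
    · intro h
      have hf' : ∀ x, c.symm (f x) = f (c.symm x) := by
        intro x
        apply c.injective
        rw [c.apply_symm_apply, hcf, c.apply_symm_apply]
      have hg' : ∀ x, c.symm (g x) = g (c.symm x) := by
        intro x
        apply c.injective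
        rw [c.apply_symm_apply, hcg, c.apply_symm_apply]
      have := of_c c.symm.continuous hf' hg' h
      simpa using this
    · exact fun h => of_c c.continuous hcf hcg h
  · intro a b x y ha h
    refine Metric.tendsto_atTop.2 (fun ε hε => ?_)
    obtain ⟨K, hK⟩ := h (ε / 2) (by positivity)
    obtain ⟨N, hN⟩ := eventually_atTop.1 (ha.eventually_ge_atTop K)
    refine ⟨N, fun n hn => ?_⟩
    have e0 := hN n hn
    have e1 := hK (a n) (b n) (by omega)
    rw [Real.dist_0_eq_abs, abs_of_nonneg dist_nonneg]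
    linarith
  · intro F G k hk hF hG x y h ε hε
    obtain ⟨K, hK⟩ := h ε hε
    have hF' : ∀ (n : ℕ) (z : M), F^[n] z = f^[k * n] z := by
      intro n z
      have : (F : M → M) = f^[k] := funext hF
      rw [this, ← iterate_mul]
    have hG' : ∀ (n : ℕ) (z : M), G^[n] z = g^[k * n] z := by
      intro n z
      have : (G : M → M) = g^[k] := funext hG
      rw [this, ← iterate_mul]
    refine ⟨K, fun n m hnm => ?_⟩
    rw [hF', hF', hG', hG']
    refine hK (k * n) (k * m) ?_
    calc K ≤ n + m := hnm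
      _ ≤ k * n + k * m := by nlinarith

end Pool.Agent.Lib.MP610fe3.HR
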