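import Pool.Agent.Lib.MP_610fe3_an.HR.Spec2
import Pool.Agent.Lib.MP_610fe3_an.HR.DBL

/-!
# Module BDRA: the first half of (R4)
-/

set_option autoImplicit false

open Set Filter Function
open scoped Topology

namespace Pool.Agent.Lib.MP610fe3.HR

open Cf CH

universe u v

namespace BDRAAux

variable {M W : Type*} [MetricSpace M] [CompactSpace M] [NormedAddCommGroup W]
  [InnerProductSpace ℝ W] {E : Emb M W} {f h : M ≃ₜ M} {s : Split E f} {t : Split E h}
  {C₀ : ℝ} {γ : M → W → M}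

theorem back (B : Bun s t C₀) (G : Gam s t γ) {z : M} {w : W} (hw : PP s t z w = w) :
    PP s t (f.symm z) (s.Di z w) = s.Di z w ∧ f.symm (γ z w) = γ (f.symm z) (s.Di z w) := by
  have h1 : t.S (f.symm z) (s.Di z w) = s.Di z (t.S z w) :=
    (congrArg (fun L : W →L[ℝ] W => L w) (DiS_commutes s t B.ht B.comm z)).symm
  have h2 : s.S (f.symm z) (s.Di z (t.S z w)) = s.Di z (s.S z (t.S z w)) :=
    (congrArg (fun L : W →L[ℝ] W => L (t.S z w)) (s.DiS z)).symm
  have h3 : PP s t (f.symm z) (s.Di z w) = s.Di z w := by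
    change s.S (f.symm z) (t.S (f.symm z) (s.Di z w)) = s.Di z w
    rw [h1, h2]
    exact congrArg (s.Di z) hw
  refine ⟨h3, ?_⟩
  have h4 := G.eqf (f.symm z) (s.Di z w) h3
  have h5 : s.D (f.symm z) (s.Di z w) = w := by
    have h6 : s.D (f.symm z) (s.Di z w) = E.P z w :=
      congrArg (fun L : W →L[ℝ] W => L w) (s.inv2 z)
    rw [h6]
    conv_lhs => rw [← hw]
    conv_rhs => rw [← hw]
    exact congrArg (fun L : W →L[ℝ] W => L (t.S z w)) (s.PS z)
  rw [f.apply_symm_apply, h5] at h4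
  rw [← h4, f.symm_apply_apply]

theorem back_iter (B : Bun s t C₀) (G : Gam s t γ) (n : ℕ) :
    ∀ {z : M} {w : W}, PP s t z w = w →
      PP s t (f.symm^[n] z) (iterD s.Di f.symm n z w) = iterD s.Di f.symm n z w ∧
      f.symm^[n] (γ z w) = γ (f.symm^[n] z) (iterD s.Di f.symm n z w) := by
  induction n with
  | zero => intro z w hw; exact ⟨by simpa [iterD] using hw, by simp [iterD]⟩
  | succ n ih =>
    intro z w hw
    obtain ⟨h1, h2⟩ := back B G hw
    obtain ⟨h3, h4⟩ := ih h1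
    refine ⟨h3, ?_⟩
    rw [iterate_succ_apply, h2, h4]
    rfl

theorem norm_lower (B : Bun s t C₀) (G : Gam s t γ) : ∃ C l : ℝ, 0 < C ∧ 0 < l ∧ l < 1 ∧
    ∀ (n : ℕ) (z : M) (w : W), PP s t z w = w →
      ‖w‖ ≤ C * l ^ (n + 1) * ‖iterD s.Di f.symm (n + 1) z w‖ := by
  obtain ⟨C, l, hC, hl, hl1, H⟩ := B.hs
  refine ⟨C, l, hC, hl, hl1, fun n z w hw => ?_⟩
  obtain ⟨h1, -⟩ := back_iter B G (n + 1) hw
  set e := iterD s.Di f.symm (n + 1) z w with he
  have hS : s.S (f.symm^[n + 1] z) e = e := by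
    conv_lhs => rw [← h1]
    conv_rhs => rw [← h1]
    exact congrArg (fun L : W →L[ℝ] W => L (t.S (f.symm^[n + 1] z) e)) (s.SS (f.symm^[n + 1] z))
  have h2 := (H (n + 1) (f.symm^[n + 1] z) e).1
  rw [hS] at h2
  have h3 : iterD s.D f (n + 1) (f.symm^[n + 1] z) e = w := by
    have h4 := congrArg (fun L : W →L[ℝ] W => L w) (s.iter_inv2 n z)
    have h5 : iterD s.D f (n + 1) (f.symm^[n + 1] z) e = E.P z w := h4
    rw [h5]
    conv_lhs => rw [← hw]
    conv_rhs => rw [← hw]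
    exact congrArg (fun L : W →L[ℝ] W => L (t.S z w)) (s.PS z)
  rw [h3] at h2
  exact h2

theorem norm_large (B : Bun s t C₀) (G : Gam s t γ) {z : M} {w : W} (hw : PP s t z w = w)
    (hw0 : w ≠ 0) (K : ℝ) : ∃ N : ℕ, ∀ n, N ≤ n → K ≤ ‖iterD s.Di f.symm n z w‖ := by
  obtain ⟨C, l, hC, hl, hl1, H⟩ := norm_lower B G
  have hn : 0 < ‖w‖ := norm_pos_iff.2 hw0
  have ht : Tendsto (fun n : ℕ => C * l ^ n * (|K| + 1)) atTop (𝓝 (C * 0 * (|K| + 1))) :=
    ((tendsto_pow_atTop_nhds_zero_of_lt_one hl.le hl1).const_mul C).mul_const _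
  rw [mul_zero, zero_mul] at ht
  obtain ⟨N, hN⟩ := (ht.eventually (gt_mem_nhds hn)).exists_forall_of_atTop
  refine ⟨N + 1, fun n hn1 => ?_⟩
  obtain ⟨m, rfl⟩ : ∃ m, n = m + 1 := ⟨n - 1, by omega⟩
  have h1 := hN (m + 1) (by omega)
  have h2 := H m z w hw
  by_contra hlt
  push Not at hlt
  have h3 : ‖iterD s.Di f.symm (m + 1) z w‖ ≤ |K| + 1 := by
    have := le_abs_self K
    linarith
  have h4 : C * l ^ (m + 1) * ‖iterD s.Di f.symm (m + 1) z w‖ ≤ C * l ^ (m + 1) * (|K| + 1) :=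
    mul_le_mul_of_nonneg_left h3 (by positivity)
  linarith

omit [CompactSpace M] in
theorem symm_iter (k : ℕ) (x : M) : f^[k] (f.symm^[k] x) = x := by
  have hl : RightInverse f.symm f := fun y => f.apply_symm_apply y
  exact hl.iterate k x

omit [CompactSpace M] in
theorem iter_symm' (k : ℕ) (x : M) : f.symm^[k] (f^[k] x) = x := by
  have hl : LeftInverse f.symm f := fun y => f.symm_apply_apply y
  exact hl.iterate k x

/-- The Cauchy argument. -/
theorem limit {ε C l : ℝ} (hd : Dec f.symm ε C l) {z : M} {i k : ℕ} (hk : 0 < k)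
    (hz : f.symm^[i] z ∈ Wl f.symm ε (f.symm^[k + i] z)) :
    ∃ p₁ : M, f^[k] p₁ = p₁ ∧ Tendsto (fun n : ℕ => f.symm^[k * n] z) atTop (𝓝 p₁) := by
  set y := f.symm^[i] z with hy
  have hyk : f.symm^[k + i] z = f.symm^[k] y := by rw [hy, iterate_add_apply]
  rw [hyk] at hz
  set q : ℕ → M := fun n => f.symm^[k * n] y with hq
  have hstep : ∀ n, q (n + 1) = f.symm^[k] (q n) := fun n => by
    simp only [hq]
    rw [Nat.mul_succ, Nat.add_comm, iterate_add_apply]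
  have hdist : ∀ n, dist (q n) (q (n + 1)) ≤ C * dist y (f.symm^[k] y) * l ^ n := fun n => by
    have h1 := hd.dec _ y hz (k * n)
    have h2 : f.symm^[k * n] (f.symm^[k] y) = q (n + 1) := by
      rw [hstep]
      show f.symm^[k * n] (f.symm^[k] y) = f.symm^[k] (f.symm^[k * n] y)
      rw [← iterate_add_apply (⇑f.symm) (k * n) k y, Nat.add_comm, iterate_add_apply]
    rw [h2] at h1
    have h3 : l ^ (k * n) ≤ l ^ n :=
      pow_le_pow_of_le_one hd.l_pos.le hd.l_lt.le (Nat.le_mul_of_pos_left n hk)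
    have hC : 0 ≤ C := by linarith [hd.one_le]
    calc dist (q n) (q (n + 1)) ≤ C * l ^ (k * n) * dist y (f.symm^[k] y) := h1
      _ ≤ C * l ^ n * dist y (f.symm^[k] y) := by gcongr
      _ = _ := by ring
  have hcau : CauchySeq q := cauchySeq_of_le_geometric l _ hd.l_lt hdist
  obtain ⟨b, hb⟩ := cauchySeq_tendsto_of_complete hcau
  have hfk : f.symm^[k] b = b := by
    have h1 : Tendsto (fun n => q (n + 1)) atTop (𝓝 b) := hb.comp (tendsto_add_atTop_nat 1)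
    have h2 : Tendsto (fun n => f.symm^[k] (q n)) atTop (𝓝 (f.symm^[k] b)) :=
      ((f.symm.continuous.iterate k).tendsto b).comp hb
    have h3 : (fun n => q (n + 1)) = fun n => f.symm^[k] (q n) := funext hstep
    rw [h3] at h1
    exact tendsto_nhds_unique h2 h1
  have hfb : f^[k] b = b := by
    conv_lhs => rw [← hfk]
    exact symm_iter k b
  refine ⟨f^[i] b, ?_, ?_⟩
  · rw [← iterate_add_apply, Nat.add_comm, iterate_add_apply, hfb]
  · have h1 : Tendsto (fun n => f^[i] (q n)) atTop (𝓝 (f^[i] b)) :=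
      ((f.continuous.iterate i).tendsto b).comp hb
    refine h1.congr fun n => ?_
    simp only [hq, hy]
    rw [← iterate_add_apply, Nat.add_comm, iterate_add_apply, symm_iter]

end BDRAAux

open BDRAAux in
/-- **BDRA.** -/
theorem specBdra (hRep : SpecRep.{u, v}) (hPig : SpecPig.{u, v}) : SpecBdra.{u, v} := by
  intro M W _ _ _ _ _ E f g s t C₀ ε C l γ p y A a b P hB hG ha hb hfix hfp hA hsat hfA hpA hpy hyA
  have hcomm : ∀ x, f (g.symm x) = g.symm (f x) := P.symm_right.comm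
  obtain ⟨hrefl, hsym, htr, -, -, -, hinv, -, -⟩ := specDbl M f g.symm hcomm
  -- invariance of `A`
  have hfA1 : ∀ z, f z ∈ A ↔ z ∈ A := fun z => by
    constructor
    · intro hz
      rw [← hfA] at hz
      obtain ⟨x, hx, hxz⟩ := hz
      rwa [← f.injective hxz]
    · intro hz
      rw [← hfA]
      exact ⟨z, hz, rfl⟩
  have hsA : ∀ (n : ℕ) (z : M), f.symm^[n] z ∈ A ↔ z ∈ A := fun n => by
    induction n with
    | zero => intro z; rfl
    | succ n ih =>
      intro z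
      rw [iterate_succ_apply, ih, ← hfA1, f.apply_symm_apply]
  -- the point `u`
  obtain ⟨u, hu, huy⟩ := hG.surj p y hpy
  have hPu : ∀ c : ℝ, PP s t.swap p (c • u) = c • u := fun c => by rw [map_smul, hu]
  have hyp : y ≠ p := fun h => hyA (h ▸ hpA)
  have hu0 : u ≠ 0 := by
    rintro rfl
    rw [hG.zero] at huy
    exact hyp huy.symm
  have hxc : Continuous fun τ : ℝ => γ p (τ • u) := by
    have h1 : (fun τ : ℝ => γ p (τ • u)) = fun τ : ℝ =>
        (fun q : M × W => γ q.1 (PP s t.swap q.1 q.2)) (p, τ • u) := by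
      funext τ
      simp only [hPu]
    rw [h1]
    exact hG.cont.comp (by fun_prop)
  -- the last point in `A`
  have hK : IsCompact (Icc (0 : ℝ) 1 ∩ (fun τ : ℝ => γ p (τ • u)) ⁻¹' A) :=
    isCompact_Icc.inter_right (hA.preimage hxc)
  have hKne : (Icc (0 : ℝ) 1 ∩ (fun τ : ℝ => γ p (τ • u)) ⁻¹' A).Nonempty :=
    ⟨0, ⟨le_refl _, zero_le_one⟩, by
      show γ p ((0 : ℝ) • u) ∈ A
      rw [zero_smul, hG.zero]
      exact hpA⟩
  obtain ⟨α, ⟨⟨hα0, hα1⟩, hαA⟩, hαmax⟩ := hK.exists_isGreatest hKne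
  have hαA' : γ p (α • u) ∈ A := hαA
  have hα1' : α < 1 := by
    rcases hα1.lt_or_eq with h | h
    · exact h
    · exfalso
      rw [h, one_smul, huy] at hαA'
      exact hyA hαA'
  have hout : ∀ τ : ℝ, α < τ → τ ≤ 1 → γ p (τ • u) ∉ A := fun τ h1 h2 h3 =>
    absurd (hαmax ⟨⟨hα0.trans h1.le, h2⟩, h3⟩) (not_le.2 h1)
  set z₀ := γ p (α • u) with hz₀
  have hdz : Dbl f g.symm p z₀ := hG.dbl p _ (hPu α)
  have hzy : Dbl f g.symm z₀ y := htr _ _ _ (hsym _ _ hdz) hpy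
  obtain ⟨e₀, he₀, hey⟩ := hG.surj z₀ y hzy
  have he0 : e₀ ≠ 0 := by
    rintro rfl
    rw [hG.zero] at hey
    rw [hey] at hαA'
    exact hyA hαA'
  have hPe : ∀ c : ℝ, PP s t.swap z₀ (c • e₀) = c • e₀ := fun c => by rw [map_smul, he₀]
  obtain ⟨τ, hτc, hτi, hτ⟩ := hRep M W E f g.symm s t.swap C₀ γ hB hG p z₀ u e₀ hdz hu hu0 he₀
  have hτi := hτi he0
  have hτ0 : τ 0 = α := by
    have h1 := hτ 0
    rw [zero_smul, hG.zero] at h1
    have h2 := hG.inj p _ _ (hPu (τ 0)) (hPu α) (h1.symm.trans hz₀)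
    exact smul_left_injective ℝ hu0 h2
  have hτ1 : τ 1 = 1 := by
    have h1 := hτ 1
    rw [one_smul, hey, ← huy] at h1
    have h2 := hG.inj p _ _ (hPu (τ 1)) hu h1.symm
    have h3 : τ 1 • u = (1 : ℝ) • u := by rw [h2, one_smul]
    exact smul_left_injective ℝ hu0 h3
  have hmono : StrictMono τ := by
    rcases hτc.strictMono_of_inj hτi with h | h
    · exact h
    · exfalso
      have := h (zero_lt_one (α := ℝ))
      rw [hτ0, hτ1] at this
      linarith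
  have hρ : ∀ ρ ∈ Ioc (0 : ℝ) 1, γ z₀ (ρ • e₀) ∉ A := by
    intro ρ hρ
    rw [hτ]
    refine hout _ ?_ ?_
    · rw [← hτ0]
      exact hmono hρ.1
    · rw [← hτ1]
      exact hmono.monotone hρ.2
  -- all points of the leaf are fixed
  have hfixz : ∀ ρ : ℝ, cc f g a b (γ z₀ (ρ • e₀)) = γ z₀ (ρ • e₀) := fun ρ =>
    hfix _ (htr _ _ _ hdz (hG.dbl z₀ _ (hPe ρ)))
  have hcc : ∀ (n : ℕ) (x : M), cc f g a b (f.symm^[n] x) = f.symm^[n] (cc f g a b x) := by
    intro n x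
    have h1 : Function.Commute (f : M → M) f.symm := fun x => by
      show f (f.symm x) = f.symm (f x)
      rw [f.apply_symm_apply, f.symm_apply_apply]
    have h2 : Function.Commute (g : M → M) f.symm := fun x => by
      show g (f.symm x) = f.symm (g x)
      exact (P.symm_left.comm x).symm
    have e1 : g^[b] (f.symm^[n] x) = f.symm^[n] (g^[b] x) := (h2.iterate_iterate b n) x
    have e2 : f^[a] (f.symm^[n] (g^[b] x)) = f.symm^[n] (f^[a] (g^[b] x)) :=
      (h1.iterate_iterate a n) _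
    show f^[a] (g^[b] (f.symm^[n] x)) = f.symm^[n] (f^[a] (g^[b] x))
    rw [e1, e2]
  -- the sequences
  obtain ⟨κ₀, hκ₀, hpig⟩ := hPig M W E f g s t C₀ ε C l γ P hB hG a b ha hb
  obtain ⟨N₀, hN₀⟩ := norm_large hB hG he₀ he0 κ₀
  set ee : ℕ → W := fun i => iterD s.Di f.symm (N₀ + i) z₀ e₀ with hee
  have hee1 : ∀ i, κ₀ ≤ ‖ee i‖ := fun i => hN₀ _ (Nat.le_add_right _ _)
  have hee0 : ∀ i, 0 < ‖ee i‖ := fun i => hκ₀.trans_le (hee1 i)
  have hbi := fun i => back_iter hB hG (N₀ + i) he₀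
  have hscale : ∀ (i : ℕ) (ρ : ℝ), γ (f.symm^[N₀ + i] z₀) (ρ • ((κ₀ / ‖ee i‖) • ee i)) =
      f.symm^[N₀ + i] (γ z₀ ((ρ * (κ₀ / ‖ee i‖)) • e₀)) := by
    intro i ρ
    rw [(back_iter hB hG (N₀ + i) (hPe (ρ * (κ₀ / ‖ee i‖)))).2, map_smul, smul_smul]
  obtain ⟨i, j, -, hij, hW⟩ := hpig κ₀ hκ₀ le_rfl A hA hsat (fun i => f.symm^[N₀ + i] z₀)
    (fun i => (κ₀ / ‖ee i‖) • ee i) (fun i => (hsA _ _).2 hαA')
    (fun i => by rw [map_smul]; exact congrArg _ (hbi i).1)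
    (fun i => by
      rw [norm_smul, Real.norm_of_nonneg (div_nonneg hκ₀.le (hee0 i).le)]
      exact div_mul_cancel₀ _ (hee0 i).ne')
    (fun i ρ hρ' => by
      rw [hscale, hsA]
      refine hρ _ ⟨mul_pos hρ'.1 (div_pos hκ₀ (hee0 i)), ?_⟩
      have h1 : κ₀ / ‖ee i‖ ≤ 1 := (div_le_one (hee0 i)).2 (hee1 i)
      have h2 : 0 ≤ κ₀ / ‖ee i‖ := div_nonneg hκ₀.le (hee0 i).le
      nlinarith [hρ'.1, hρ'.2])
    (fun i ρ _ => by rw [hscale, hcc, hfixz])
    ε P.one.decu.ε_pos 0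
  obtain ⟨k, hk, rfl⟩ : ∃ k, 0 < k ∧ j = k + i := ⟨j - i, by omega, by omega⟩
  have hW' : f.symm^[N₀ + i] z₀ ∈ Wl f.symm ε (f.symm^[k + (N₀ + i)] z₀) := by
    have : N₀ + (k + i) = k + (N₀ + i) := by omega
    rw [← this]
    exact hW
  obtain ⟨p₁, hp1, hp2⟩ := limit P.one.decu hk hW'
  exact ⟨z₀, e₀, p₁, k, hαA', hdz, he₀, he0, hρ, hk, hp1, hp2⟩

end Pool.Agent.Lib.MP610fe3.HR
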