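import Pool.Agent.Lib.MP_610fe3_an.HR.Spec2

/-!
# Walls with a rational ratio: (R4), the second half

The backward orbit of `z₀` converges along multiples of `k` to the periodic point `p₁`.  If the
points of the leaf `X` of `p₁` are fixed by a power of `f^a g^b` then this leaf has small arcs
starting at `p₁` which meet `A` at most in `p₁`.
-/

set_option autoImplicit false

open Set Filter Function
open scoped Topology

namespace Pool.Agent.Lib.MP610fe3.HR

open Cf CH

universe u v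

namespace BDRBAux

section Top

variable {M : Type*} [MetricSpace M] {f g : M ≃ₜ M}

theorem dbl_symm {x y : M} (h : Dbl f g x y) : Dbl f g y x := fun η hη => by
  obtain ⟨K, hK⟩ := h η hη
  exact ⟨K, fun n m hnm => by rw [dist_comm]; exact hK n m hnm⟩

theorem dbl_trans {x y z : M} (h : Dbl f g x y) (h' : Dbl f g y z) : Dbl f g x z := fun η hη => by
  obtain ⟨K, hK⟩ := h (η / 2) (by positivity)
  obtain ⟨K', hK'⟩ := h' (η / 2) (by positivity)
  refine ⟨max K K', fun n m hnm => ?_⟩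
  have h1 := hK n m ((le_max_left _ _).trans hnm)
  have h2 := hK' n m ((le_max_right _ _).trans hnm)
  exact (dist_triangle _ _ _).trans (by linarith)

/-- Points of local stable sets are forward asymptotic. -/
theorem fwd_of_wl {a : M ≃ₜ M} {ε C l : ℝ} (h : Dec a ε C l)
    {x z : M} (hz : z ∈ Wl a ε x) : FwdAsymp a x z := by
  have h1 : Tendsto (fun n : ℕ => C * l ^ n * dist z x) atTop (𝓝 (C * 0 * dist z x)) :=
    ((tendsto_pow_atTop_nhds_zero_of_lt_one h.l_pos.le h.l_lt).const_mul C).mul_const _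
  rw [mul_zero, zero_mul] at h1
  refine squeeze_zero (fun _ => dist_nonneg) (fun n => ?_) h1
  rw [dist_comm]
  exact h.dec x z hz n

theorem symm_mem {A : Set M} (hA : f '' A = A) (n : ℕ) (x : M) : f.symm^[n] x ∈ A ↔ x ∈ A := by
  induction n generalizing x with
  | zero => exact Iff.rfl
  | succ n ih =>
    rw [iterate_succ_apply, ih]
    constructor
    · intro h
      rw [← hA]
      exact ⟨_, h, f.apply_symm_apply x⟩
    · intro h
      rw [← hA] at h
      obtain ⟨y, hy, hyx⟩ := h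
      rwa [← hyx, f.symm_apply_apply]

theorem symm_it (n : ℕ) (x : M) : f.symm^[n] (f^[n] x) = x := by
  have hl : LeftInverse f.symm f := fun y => f.symm_apply_apply y
  exact hl.iterate n x

theorem iter_fix {p : M} (h : f p = p) (n : ℕ) : f^[n] p = p := by
  induction n with
  | zero => rfl
  | succ n ih => rw [iterate_succ_apply, h, ih]

end Top

section Abstract

variable {M W : Type*} [MetricSpace M] [NormedAddCommGroup W] [NormedSpace ℝ W]
  {E : Emb M W} {f g : M ≃ₜ M} {s : Split E f} {t : Split E g}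

theorem exists_smul (L : W →L[ℝ] W) (hL : Module.finrank ℝ L.range = 1) {v w : W} (hv : L v = v)
    (hv0 : v ≠ 0) (hw : L w = w) : ∃ r : ℝ, r • v = w := by
  have h := (finrank_eq_one_iff_of_nonzero' (⟨v, v, hv⟩ : L.range)
    (fun h => hv0 (congrArg Subtype.val h))).1 hL ⟨w, w, hw⟩
  obtain ⟨r, hr⟩ := h
  exact ⟨r, congrArg Subtype.val hr⟩

theorem S_of_PP {x : M} {w : W} (h : PP s t x w = w) : s.S x w = w := by
  conv_rhs => rw [← h]
  conv_lhs => rw [← h]
  exact s.SS_apply x _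

variable [CompactSpace M]

theorem DPP (ht : t.Hyperbolic) (hc : ∀ x, f (g x) = g (f x)) {x : M} {w : W}
    (h : PP s t x w = w) : PP s t (f x) (s.D x w) = s.D x w := by
  have h1 := congrArg (fun L => L w) (DS_commutes s t ht hc x).1
  simp only [ContinuousLinearMap.comp_apply] at h1
  change s.S (f x) (t.S (f x) (s.D x w)) = s.D x w
  rw [← h1, ← s.DS_apply]
  exact congrArg (s.D x) h

/-- The parametrization is equivariant under the iterates of `f`. -/
theorem gam_iter (ht : t.Hyperbolic) (hc : ∀ x, f (g x) = g (f x)) {γ : M → W → M}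
    (hG : Gam s t γ) (n : ℕ) : ∀ (x : M) (w : W), PP s t x w = w →
      f^[n] (γ x w) = γ (f^[n] x) (iterD s.D f n x w) ∧
      PP s t (f^[n] x) (iterD s.D f n x w) = iterD s.D f n x w := by
  induction n with
  | zero => intro x w hw; exact ⟨rfl, hw⟩
  | succ n ih =>
    intro x w hw
    obtain ⟨h1, h2⟩ := ih (f x) (s.D x w) (DPP ht hc hw)
    refine ⟨?_, h2⟩
    rw [iterate_succ_apply, hG.eqf x w hw, h1]
    rfl

theorem continuous_PP (hs : s.Hyperbolic) (ht : t.Hyperbolic) : Continuous (PP s t) :=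
  (s.contS hs).clm_comp (t.contS ht)

omit [CompactSpace M] in
/-- The parametrization is continuous on the bundle. -/
theorem gam_tendsto {γ : M → W → M} (hG : Gam s t γ) {x : ℕ → M} {w : ℕ → W} {x₀ : M} {w₀ : W}
    (hw : ∀ n, PP s t (x n) (w n) = w n) (hw₀ : PP s t x₀ w₀ = w₀)
    (hx : Tendsto x atTop (𝓝 x₀)) (hw' : Tendsto w atTop (𝓝 w₀)) :
    Tendsto (fun n => γ (x n) (w n)) atTop (𝓝 (γ x₀ w₀)) := by
  have h1 := (hG.cont.tendsto (x₀, w₀)).comp (hx.prodMk_nhds hw')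
  simp only [hw₀] at h1
  refine h1.congr fun n => ?_
  simp only [Function.comp_apply, hw]

end Abstract

end BDRBAux

open BDRBAux

theorem specBdrb (hDbl : SpecDbl.{u}) (hFix : SpecFix.{u}) : SpecBdrb.{u, v} := by
  intro M W _ _ _ _ _ E f g s t C₀ ε C l γ p A a b z₀ e₀ p₁ k hP hB hG ha hb hcX hfp hAc hAs hfA
    hz₀ hpz he₀ he₀0 hout hk hp₁ hlim
  have hc : ∀ x, f (g.symm x) = g.symm (f x) := hB.comm
  obtain ⟨-, -, -, -, -, -, hinv, -, -⟩ := hDbl M f g.symm hc
  have hinvf : ∀ x y, Dbl f g.symm (f x) (f y) ↔ Dbl f g.symm x y := hinv f (fun _ => rfl)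
    (fun x => hc x)
  have hinvn : ∀ (n : ℕ) x y, Dbl f g.symm (f^[n] x) (f^[n] y) ↔ Dbl f g.symm x y := by
    intro n
    induction n with
    | zero => intro x y; exact Iff.rfl
    | succ n ih =>
      intro x y
      rw [iterate_succ_apply, iterate_succ_apply, ih, hinvf]
  set z : ℕ → M := fun n => f.symm^[k * n] z₀ with hz
  have hfz : ∀ n, f^[k * n] (z n) = z₀ := fun n => iterate_symm_iterate f _ _
  have hzA : ∀ n, z n ∈ A := fun n => (symm_mem hfA _ _).2 hz₀
  refine ⟨hAc.mem_of_tendsto hlim (Eventually.of_forall hzA), fun m hm hcm δ hδ => ?_⟩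
  -- the leaf of `p`
  have hpzn : ∀ n, Dbl f g.symm p (z n) := fun n => by
    rw [← hinvn (k * n), hfz, iter_fix hfp]
    exact hpz
  -- the vectors
  have hex : ∀ n, ∃ w, PP s t.swap (z n) w = w ∧ γ (z n) w = f.symm^[k * n] (γ z₀ e₀) := by
    intro n
    apply hG.surj
    rw [← hinvn (k * n), hfz, iterate_symm_iterate]
    exact hG.dbl z₀ e₀ he₀
  choose ê hê hγê using hex
  have hDê : ∀ n, iterD s.D f (k * n) (z n) (ê n) = e₀ := by
    intro n
    obtain ⟨h1, h2⟩ := gam_iter hB.ht hc hG (k * n) (z n) (ê n) (hê n)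
    rw [hγê, iterate_symm_iterate, hfz] at h1
    rw [hfz] at h2
    exact (hG.inj z₀ _ _ he₀ h2 h1).symm
  have hscale : ∀ n (σ : ℝ), f^[k * n] (γ (z n) (σ • ê n)) = γ z₀ (σ • e₀) := by
    intro n σ
    obtain ⟨h1, -⟩ := gam_iter hB.ht hc hG (k * n) (z n) (σ • ê n) (by rw [map_smul, hê])
    rw [h1, hfz, map_smul, hDê]
  have hout' : ∀ n, ∀ σ ∈ Ioc (0 : ℝ) 1, γ (z n) (σ • ê n) ∉ A := by
    intro n σ hσ hmem
    refine hout σ hσ ?_
    rw [← hscale n σ]
    refine (symm_mem hfA (k * n) _).1 ?_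
    rw [symm_it]
    exact hmem
  -- growth
  obtain ⟨Ch, lh, hCh, hlh, hlh1, hH⟩ := hB.hs
  have hgrow : ∀ n, ‖e₀‖ ≤ Ch * lh ^ (k * n) * ‖ê n‖ := by
    intro n
    have h1 := (hH (k * n) (z n) (ê n)).1
    rwa [S_of_PP (hê n), hDê] at h1
  have he₀pos : 0 < ‖e₀‖ := norm_pos_iff.2 he₀0
  have hêpos : ∀ n, 0 < ‖ê n‖ := by
    intro n
    by_contra h
    have h0 : ‖ê n‖ = 0 := le_antisymm (not_lt.1 h) (norm_nonneg _)
    have := hgrow n
    rw [h0, mul_zero] at this
    linarith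
  -- the scale
  obtain ⟨ε₁, hε₁, hprop⟩ := hG.proper
  obtain ⟨r₁, hr₁, hsm₁⟩ := hG.small (ε₁ / 2) (by positivity)
  obtain ⟨r₂, hr₂, hsm₂⟩ := hG.small δ hδ
  set κ : ℝ := min r₁ r₂ with hκ
  have hκ0 : 0 < κ := lt_min hr₁ hr₂
  have hev : ∀ᶠ n in atTop, κ ≤ ‖ê n‖ := by
    have h1 : Tendsto (fun n : ℕ => κ * (Ch * lh ^ (k * n))) atTop (𝓝 (κ * (Ch * 0))) := by
      refine Tendsto.const_mul _ (Tendsto.const_mul _ ?_)
      exact (tendsto_pow_atTop_nhds_zero_of_lt_one hlh.le hlh1).comp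
        (tendsto_id.const_mul_atTop' hk)
    rw [mul_zero, mul_zero] at h1
    filter_upwards [h1.eventually (gt_mem_nhds he₀pos)] with n hn
    have h2 : 0 < Ch * lh ^ (k * n) := by positivity
    have h3 := hgrow n
    have h4 : (Ch * lh ^ (k * n)) * κ ≤ (Ch * lh ^ (k * n)) * ‖ê n‖ := by linarith
    exact le_of_mul_le_mul_left h4 h2
  set e : ℕ → W := fun n => (κ / ‖ê n‖) • ê n with he
  have heκ : ∀ n, ‖e n‖ = κ := fun n => by
    rw [he]
    simp only [norm_smul, Real.norm_eq_abs]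
    rw [abs_of_pos (div_pos hκ0 (hêpos n)), div_mul_cancel₀ _ (hêpos n).ne']
  have heP : ∀ n, PP s t.swap (z n) (e n) = e n := fun n => by
    simp only [he, map_smul, hê]
  have : ProperSpace W := FiniteDimensional.proper_real W
  obtain ⟨e', he'mem, φ, hφ, hφlim⟩ := (isCompact_sphere (0 : W) κ).tendsto_subseq
    (x := e) (fun n => by rw [mem_sphere_zero_iff_norm]; exact heκ n)
  have he'κ : ‖e'‖ = κ := by rwa [mem_sphere_zero_iff_norm] at he'mem
  have he'0 : e' ≠ 0 := fun h => by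
    rw [h, norm_zero] at he'κ
    linarith
  have hzφ : Tendsto (fun n => z (φ n)) atTop (𝓝 p₁) := hlim.comp hφ.tendsto_atTop
  have hPc : Continuous (PP s t.swap) := continuous_PP ⟨Ch, lh, hCh, hlh, hlh1, hH⟩ hB.ht
  have he'P : PP s t.swap p₁ e' = e' := by
    have h0 : Tendsto (fun n => PP s t.swap (z (φ n))) atTop (𝓝 (PP s t.swap p₁)) :=
      (hPc.tendsto p₁).comp hzφ
    have h1 : Tendsto (fun n => PP s t.swap (z (φ n)) (e (φ n))) atTop
        (𝓝 (PP s t.swap p₁ e')) :=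
      ((isBoundedBilinearMap_apply (𝕜 := ℝ) (E := W) (F := W)).continuous.tendsto
        (PP s t.swap p₁, e')).comp (h0.prodMk_nhds hφlim)
    refine tendsto_nhds_unique h1 (hφlim.congr fun n => ?_)
    exact (heP (φ n)).symm
  have hPe' : ∀ c : ℝ, PP s t.swap p₁ (c • e') = c • e' := fun c => by rw [map_smul, he'P]
  refine ⟨fun r => γ p₁ ((r / 2) • e'), ?_, ?_, ?_, ?_, ?_⟩
  · have h1 : (fun r : ℝ => γ p₁ ((r / 2) • e')) = fun r =>
        (fun q : M × W => γ q.1 (PP s t.swap q.1 q.2)) (p₁, (r / 2) • e') := by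
      funext r
      simp only [hPe']
    rw [h1]
    exact (hG.cont.comp (by fun_prop)).continuousOn
  · intro r _ r' _ hrr
    have h1 := hG.inj p₁ _ _ (hPe' _) (hPe' _) hrr
    have h2 := smul_left_injective ℝ he'0 h1
    linarith
  · simp only [zero_div, zero_smul]
    exact hG.zero p₁
  · intro r hr
    refine ⟨hsm₂ p₁ _ (hPe' _) ?_, hG.dbl p₁ _ (hPe' _)⟩
    rw [norm_smul, he'κ, Real.norm_eq_abs, abs_of_nonneg (by linarith [hr.1])]
    have h1 : κ ≤ r₂ := min_le_right _ _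
    nlinarith [hr.1, hr.2]
  · -- the main claim
    intro r hr hx'A
    set ρ : ℝ := r / 2 with hρ
    have hρ0 : 0 < ρ := by rw [hρ]; linarith [hr.1]
    have hρ1 : ρ < 1 := by rw [hρ]; linarith [hr.2]
    set x' : M := γ p₁ (ρ • e') with hx'
    have hx'A' : x' ∈ A := hx'A
    obtain ⟨hF1, -, ⟨η, hη, hF3⟩, -⟩ := hFix M f g ε C l hP (m * a) (m * b) (Nat.mul_pos hm ha)
      (Nat.mul_pos hm hb)
    obtain ⟨-, -, -, hF4⟩ := hFix M f g ε C l hP a b ha hb
    have hcx' : cc f g (m * a) (m * b) x' = x' := hcm x' (hG.dbl p₁ _ (hPe' _))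
    set η' : ℝ := min η (min ε (ε₁ / 2)) with hη'
    have hεpos : 0 < ε := hP.one.br.ε_pos
    have hη'0 : 0 < η' := lt_min hη (lt_min hεpos (by positivity))
    obtain ⟨δ', hδ', hbr⟩ := hP.one.br.exist η' hη'0
    have hxlim : Tendsto (fun n => γ (z (φ n)) (ρ • e (φ n))) atTop (𝓝 x') :=
      gam_tendsto hG (fun n => by rw [map_smul, heP]) (hPe' _) hzφ (hφlim.const_smul ρ)
    have hxd : ∀ᶠ n in atTop, dist (γ (z (φ n)) (ρ • e (φ n))) x' < δ' :=
      (tendsto_iff_dist_tendsto_zero.1 hxlim).eventually (gt_mem_nhds hδ')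
    obtain ⟨N, hN⟩ := (hxd.and (hφ.tendsto_atTop.eventually hev)).exists_forall_of_atTop
    -- the subsequence
    set i : ℕ → ℕ := fun n => φ (n + N) with hi
    set x : ℕ → M := fun n => γ (z (i n)) (ρ • e (i n)) with hx
    have hPρ : ∀ n, PP s t.swap (z (i n)) (ρ • e (i n)) = ρ • e (i n) := fun n => by
      rw [map_smul, heP]
    have hxlim' : Tendsto x atTop (𝓝 x') := hxlim.comp (tendsto_add_atTop_nat N)
    have hzi : Tendsto (fun n => z (i n)) atTop (𝓝 p₁) := hzφ.comp (tendsto_add_atTop_nat N)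
    have hei : Tendsto (fun n => e (i n)) atTop (𝓝 e') := hφlim.comp (tendsto_add_atTop_nat N)
    have hbr' : ∀ n, ∃ q, q ∈ Wl f η' (x n) ∧ q ∈ Wl f.symm η' x' := fun n =>
      hbr _ _ (hN (n + N) (Nat.le_add_left _ _)).1
    choose q hq1 hq2 using hbr'
    have hq1ε : ∀ n, q n ∈ Wl f ε (x n) := fun n =>
      Wl_mono ((min_le_right _ _).trans (min_le_left _ _)) (hq1 n)
    have hq2ε : ∀ n, q n ∈ Wl f.symm ε x' := fun n =>
      Wl_mono ((min_le_right _ _).trans (min_le_left _ _)) (hq2 n)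
    have hqA : ∀ n, q n ∈ A := fun n => hAs x' hx'A' (q n) (fwd_of_wl hP.one.decu (hq2ε n))
    have hpx : ∀ n, Dbl f g.symm p (x n) := fun n =>
      dbl_trans (hpzn (i n)) (hG.dbl _ _ (hPρ n))
    have hcx : ∀ n, cc f g (m * a) (m * b) (x n) = x n := fun n => hF4 _ (hcX _ (hpx n)) m
    have hcq : ∀ n, cc f g (m * a) (m * b) (q n) = q n := fun n =>
      hF3 (x n) x' (q n) (hcx n) hcx' (Wl_mono (min_le_left _ _) (hq1 n))
        (Wl_mono (min_le_left _ _) (hq2 n))
    have hxq : ∀ n, Dbl f g.symm (x n) (q n) := fun n =>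
      hF1 _ _ (hcx n) (hcq n) (fwd_of_wl hP.one.decs (hq1ε n))
    have hπ : ∀ n, ∃ π : ℝ, γ (z (i n)) (π • e (i n)) = q n := by
      intro n
      obtain ⟨w, hw, hwq⟩ := hG.surj (z (i n)) (q n) (dbl_trans (hG.dbl _ _ (hPρ n)) (hxq n))
      obtain ⟨π, hπ⟩ := exists_smul _ (hB.rank (z (i n))) (heP (i n))
        (norm_pos_iff.1 (by rw [heκ]; exact hκ0)) hw
      exact ⟨π, by rw [hπ, hwq]⟩
    choose π hπ using hπ
    have hPπ : ∀ n, PP s t.swap (z (i n)) (π n • e (i n)) = π n • e (i n) := fun n => by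
      rw [map_smul, heP]
    have hπb : ∀ n, π n ∈ Icc (-(1 / κ)) (1 / κ) := by
      intro n
      have h1 : x n ∈ Wl f (ε₁ / 2) (z (i n)) := by
        refine hsm₁ _ _ (hPρ n) ?_
        rw [norm_smul, heκ, Real.norm_eq_abs, abs_of_pos hρ0]
        have : κ ≤ r₁ := min_le_left _ _
        nlinarith
      have h2 : q n ∈ Wl f (ε₁ / 2) (x n) :=
        Wl_mono ((min_le_right _ _).trans (min_le_right _ _)) (hq1 n)
      have h3 : γ (z (i n)) (π n • e (i n)) ∈ Wl f ε₁ (z (i n)) := by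
        have := Wl_trans h1 h2
        rw [hπ]
        rwa [add_halves] at this
      have h4 := hprop _ _ (hPπ n) h3
      rw [norm_smul, heκ, Real.norm_eq_abs] at h4
      have h5 : |π n| ≤ 1 / κ := by rwa [le_div_iff₀ hκ0]
      exact abs_le.1 h5
    have hπout : ∀ n, π n ∉ Ioc (0 : ℝ) 1 := by
      intro n hn
      have h1 : κ ≤ ‖ê (i n)‖ := (hN (n + N) (Nat.le_add_left _ _)).2
      have h2 : π n • e (i n) = (π n * (κ / ‖ê (i n)‖)) • ê (i n) := by
        simp only [he, smul_smul]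
      refine hout' (i n) (π n * (κ / ‖ê (i n)‖)) ⟨?_, ?_⟩ ?_
      · exact mul_pos hn.1 (div_pos hκ0 (hêpos _))
      · have h3 : κ / ‖ê (i n)‖ ≤ 1 := (div_le_one (hêpos _)).2 h1
        have h4 : 0 ≤ κ / ‖ê (i n)‖ := (div_pos hκ0 (hêpos _)).le
        calc π n * (κ / ‖ê (i n)‖) ≤ 1 * 1 := mul_le_mul hn.2 h3 h4 zero_le_one
          _ = 1 := one_mul 1
      · rw [← h2, hπ]
        exact hqA n
    have hqlim : Tendsto q atTop (𝓝 x') := by
      rw [tendsto_iff_dist_tendsto_zero]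
      have h1 := (tendsto_iff_dist_tendsto_zero.1 hxlim').const_mul C
      rw [mul_zero] at h1
      exact squeeze_zero (fun _ => dist_nonneg)
        (fun n => hP.one.br.right _ _ _ (hq1ε n) (hq2ε n)) h1
    obtain ⟨π₀, -, ψ, hψ, hψlim⟩ := (isCompact_Icc (a := -(1 / κ)) (b := 1 / κ)).tendsto_subseq
      (x := π) hπb
    have h1 : Tendsto (fun n => γ (z (i (ψ n))) (π (ψ n) • e (i (ψ n)))) atTop
        (𝓝 (γ p₁ (π₀ • e'))) :=
      gam_tendsto hG (fun n => hPπ (ψ n)) (hPe' _) (hzi.comp hψ.tendsto_atTop)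
        (hψlim.smul (hei.comp hψ.tendsto_atTop))
    have h2 : Tendsto (fun n => γ (z (i (ψ n))) (π (ψ n) • e (i (ψ n)))) atTop (𝓝 x') := by
      refine (hqlim.comp hψ.tendsto_atTop).congr fun n => ?_
      exact (hπ (ψ n)).symm
    have h3 : γ p₁ (π₀ • e') = γ p₁ (ρ • e') := tendsto_nhds_unique h1 h2
    have h4 : π₀ = ρ := smul_left_injective ℝ he'0 (hG.inj p₁ _ _ (hPe' _) (hPe' _) h3)
    rw [h4] at hψlim
    obtain ⟨n, hn⟩ := (hψlim.eventually (Ioo_mem_nhds hρ0 hρ1)).exists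
    exact hπout (ψ n) ⟨hn.1, hn.2.le⟩

end Pool.Agent.Lib.MP610fe3.HR
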