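import Pool.Agent.Lib.MP_610fe3_an.HR.SpecZ

/-!
# Module CHN: the abstract theorem on actions of `ℤ^k` from the wall lemma

Along the chain of chambers from `n` to `-n` the minimal closed sets which are saturated by
unstable sets stay the same: at a step with nested bundles by `sat_of_minimal`, at a wall with a
partner by the wall lemma.
-/

set_option autoImplicit false

open Set Filter Function
open scoped Topology

namespace Pool.Agent.Lib.MP610fe3.HR

open Cf CH

universe u v w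

namespace CHNAux

section Arith

variable {k : ℕ} {J : Type*} {χ : J → Fin k → ℝ} {n n' : Fin k → ℤ} {i j : J}

theorem ev_mul (c : ℝ) (a : Fin k → ℝ) (m : Fin k → ℤ) : ev (c • a) m = c * ev a m := by
  simp only [ev, Pi.smul_apply, smul_eq_mul, Finset.mul_sum]
  exact Finset.sum_congr rfl fun l _ => by ring

theorem ev_neg_smul (c : ℝ) (a : Fin k → ℝ) (m : Fin k → ℤ) :
    ev (-(c • a)) m = -(c * ev a m) := by
  rw [← neg_smul, ev_mul]
  ring

theorem Wal.symm (h : Wal χ n n' i j) : Wal χ n' n j i := by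
  obtain ⟨t, ht, hχ⟩ := h.neg
  have hχ' : χ i = -(t⁻¹ • χ j) := by
    rw [hχ, smul_neg, neg_neg, smul_smul, inv_mul_cancel₀ ht.ne', one_smul]
  have hev : ∀ m, ev (χ j) m = -(t * ev (χ i) m) := fun m => by rw [hχ, ev_neg_smul]
  refine ⟨h.reg', h.reg, ⟨t⁻¹, inv_pos.2 ht, hχ'⟩, ?_, ?_, fun l hl => ?_⟩
  · rw [hev]
    have := mul_pos ht h.gt
    linarith
  · rw [hev]
    have := mul_neg_of_pos_of_neg ht h.lt
    linarith
  · obtain ⟨c, hc⟩ := h.only l fun h' => hl h'.symm
    refine ⟨-(c * t⁻¹), ?_⟩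
    rw [hc, hχ']
    simp only [smul_neg, neg_smul, smul_smul]

theorem Cross.symm (h : Cross χ n n' i j) : Cross χ n' n j i := by
  obtain ⟨t, ht, hχ⟩ := h.neg
  have hev : ∀ m, ev (χ j) m = -(t * ev (χ i) m) := fun m => by rw [hχ, ev_neg_smul]
  refine ⟨Wal.symm h.toWal, ?_⟩
  have h1 : ev (χ j) n / ev (χ j) n' = (ev (χ i) n' / ev (χ i) n)⁻¹ := by
    rw [hev, hev, neg_div_neg_eq, mul_div_mul_left _ _ ht.ne', inv_div]
  rw [h1]
  exact irrational_inv_iff.2 h.irr

end Arith

section Top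

variable {X : Type*} [MetricSpace X] [CompactSpace X] {a b : X ≃ₜ X}

theorem minimal_of (h1 : ∀ K, Minimal (· ∈ Sset a) K → Sat b K)
    (h2 : ∀ K, Minimal (· ∈ Sset b) K → Sat a K) {K : Set X} (hK : Minimal (· ∈ Sset a) K) :
    Minimal (· ∈ Sset b) K := by
  have h3 : K ∈ Sset b := ⟨hK.1.1, hK.1.2.1, h1 K hK⟩
  obtain ⟨L, hLK, hL⟩ := exists_minimal h3
  have h4 : L ∈ Sset a := ⟨hL.1.1, hL.1.2.1, h2 L hL⟩
  have h5 : K ⊆ L := hK.2 h4 hLK
  rwa [Subset.antisymm hLK h5] at hL

theorem sats_of_link {c : ℝ} (hc0 : 0 < c) (hc : ExpConst a c) (hsh : Shadowing a)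
    (hL : Link a b) :
    (∀ K, Minimal (· ∈ Sset a) K → Sat b K) ∧ (∀ K, Minimal (· ∈ Sset b) K → Sat a K) :=
  ⟨fun _ hK => sat_of_minimal hc0 hc hsh hL hK,
    fun _ hK x hx y hxy => hK.1.2.2 x hx y (hL.c x y hxy)⟩

end Top

section Act

variable {M : Type u} {W : Type v} [MetricSpace M] [CompactSpace M]
  [NormedAddCommGroup W] [InnerProductSpace ℝ W] [FiniteDimensional ℝ W] {E : Emb M W} {k : ℕ}
  {J : Type w} {A : (Fin k → ℤ) → M ≃ₜ M} {χ : J → Fin k → ℝ} {F : J → M → Submodule ℝ W}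

omit [CompactSpace M] [FiniteDimensional ℝ W] in
theorem comm (H : Act E A χ F) (n n' : Fin k → ℤ) (x : M) : A n (A n' x) = A n' (A n x) := by
  rw [← H.add, ← H.add, add_comm]

omit [CompactSpace M] [FiniteDimensional ℝ W] in
theorem zero (H : Act E A χ F) (x : M) : A 0 x = x := by
  have h2 := H.add 0 0 x
  rw [add_zero] at h2
  exact ((A 0).injective h2).symm

omit [CompactSpace M] [FiniteDimensional ℝ W] in
theorem neg (H : Act E A χ F) (n : Fin k → ℤ) : A (-n) = (A n).symm := by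
  ext x
  apply (A n).injective
  rw [(A n).apply_symm_apply, ← H.add, add_neg_cancel, zero H]

omit [FiniteDimensional ℝ W] in
/-- Nested unstable bundles. -/
theorem link_of_below (H : Act E A χ F) {n n' : Fin k → ℤ} (hn : Regular χ n)
    (hn' : Regular χ n') (hB : Below χ n' n) : Link (A n).symm (A n').symm := by
  obtain ⟨s, hs, -, -, hsU⟩ := H.split n hn
  obtain ⟨t, ht, -, -, htU⟩ := H.split n' hn'
  have hc : ∀ x, (A n).symm ((A n').symm x) = (A n').symm ((A n).symm x) := fun x => by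
    rw [← neg H, ← neg H]
    exact comm H _ _ x
  refine link_of_comm hc fun x y hxy => nested_of_range s.swap t.swap hs.swap ht.swap hc
    (fun x => ?_) hxy
  rw [Split.swap_S, Split.swap_S, hsU, htU]
  refine iSup_le fun l => iSup_le fun hl => le_iSup_of_le l (le_iSup_of_le ?_ le_rfl)
  rcases lt_or_gt_of_ne (hn' l) with h | h
  · exact absurd (hB l h) hl.le.not_gt
  · exact h

omit [FiniteDimensional ℝ W] in
theorem exists_exp (H : Act E A χ F) {n : Fin k → ℤ} (hn : Regular χ n) :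
    (∃ c, 0 < c ∧ ExpConst (A n) c) ∧ Shadowing (A n) ∧
      (∃ c, 0 < c ∧ ExpConst (A n).symm c) ∧ Shadowing (A n).symm := by
  obtain ⟨s, hs, -⟩ := H.split n hn
  exact ⟨s.expansive hs, s.shadowing hs, s.swap.expansive hs.swap, s.swap.shadowing hs.swap⟩

omit [FiniteDimensional ℝ W] in
theorem sats_of_step (H : Act E A χ F) {n n' : Fin k → ℤ} (h : Step χ n n') :
    (∀ K, Minimal (· ∈ Sset (A n).symm) K → Sat (A n').symm K) ∧
      (∀ K, Minimal (· ∈ Sset (A n').symm) K → Sat (A n).symm K) := by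
  obtain ⟨hn, hn', hB | hB⟩ := h
  · obtain ⟨-, -, ⟨c, hc0, hc⟩, hsh⟩ := exists_exp H hn'
    exact (sats_of_link hc0 hc hsh (link_of_below H hn' hn hB)).symm
  · obtain ⟨-, -, ⟨c, hc0, hc⟩, hsh⟩ := exists_exp H hn
    exact sats_of_link hc0 hc hsh (link_of_below H hn hn' hB)

/-- The wall lemma at a wall with a partner. -/
theorem sat_of_cross [Finite J] (hEig : SpecEig.{u, v, w}) (hWall : SpecWall.{u, v})
    (hPair : SpecPair.{u, v}) (H : Act E A χ F) {n n' : Fin k → ℤ} {i j : J}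
    (h : Cross χ n n' i j) (hi : ∀ x, Module.finrank ℝ (coarse χ F i x) = 1)
    (hj : ∀ x, Module.finrank ℝ (coarse χ F j x) = 1) :
    ∀ K, Minimal (· ∈ Sset (A n).symm) K → Sat (A n').symm K := by
  obtain ⟨s, hs, -⟩ := H.split n h.reg
  obtain ⟨t, ht, -⟩ := H.split n' h.reg'
  obtain ⟨ε, C, l, hP⟩ := hPair M W E (A n) (A n') s t hs ht (comm H n n')
  refine hWall M W E (A n) (A n') ε C l (-(ev (χ i) n' / ev (χ i) n)) hP ?_ ?_ ?_
  · exact h.irr.neg
  · have := div_neg_of_pos_of_neg h.gt h.lt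
    linarith
  · exact hEig M W E k J A χ F H n n' i j h.toWal hi hj

end Act

end CHNAux

open CHNAux

/-- **The abstract theorem.** -/
theorem specChain (hArith : SpecArith.{w}) (hEig : SpecEig.{u, v, w}) (hWall : SpecWall.{u, v})
    (hPair : SpecPair.{u, v}) : SpecChain.{u, v, w} := by
  intro M W _ _ _ _ _ _ E k J _ A χ F H hpart n hn
  obtain ⟨m, c, h0, hm, hc⟩ := hArith k J χ (fun i j t ht hij => (hpart i j t ht hij).2) n hn
  -- both directions at every step
  have hstep : ∀ i < m,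
      (∀ K, Minimal (· ∈ Sset (A (c i)).symm) K → Sat (A (c (i + 1))).symm K) ∧
      (∀ K, Minimal (· ∈ Sset (A (c (i + 1))).symm) K → Sat (A (c i)).symm K) := by
    intro i hi
    rcases hc i hi with h | ⟨l, l', h⟩
    · exact sats_of_step H h
    · obtain ⟨t, ht, hχ⟩ := h.neg
      obtain ⟨t', ht', hχ'⟩ := (Cross.symm h).neg
      have h1 := (hpart l' l t ht hχ).1
      have h2 := (hpart l l' t' ht' hχ').1
      exact ⟨sat_of_cross hEig hWall hPair H h h2 h1,
        sat_of_cross hEig hWall hPair H (Cross.symm h) h1 h2⟩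
  have hind : ∀ i ≤ m, ∀ K, Minimal (· ∈ Sset (A (c i)).symm) K ↔
      Minimal (· ∈ Sset (A n).symm) K := by
    intro i
    induction i with
    | zero => intro _ K; rw [h0]
    | succ i ih =>
      intro hi K
      have hs := hstep i (by omega)
      rw [← ih (by omega) K]
      exact ⟨fun h => minimal_of hs.2 hs.1 h, fun h => minimal_of hs.1 hs.2 h⟩
  have hlast : ∀ K, Minimal (· ∈ Sset (A n)) K → Minimal (· ∈ Sset (A n).symm) K := by
    intro K hK
    apply (hind m le_rfl K).1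
    rw [hm, neg H, Homeomorph.symm_symm]
    exact hK
  obtain ⟨⟨e, he0, he⟩, hsh, -, -⟩ := exists_exp H hn
  have huniv : ∀ K, Minimal (· ∈ Sset (A n)) K → K = univ := by
    intro K hK
    exact IsClopen.eq_univ
      ⟨hK.1.1, isOpen_of_sat he0 he hsh hK.1.2.2 (hlast K hK).1.2.2⟩ hK.1.2.1
  refine topTransitive_of_shadowing hsh (chainTransitive_of_univ he0 he hsh fun K hK => ?_)
  obtain ⟨L, hLK, hL⟩ := exists_minimal hK
  rw [huniv L hL] at hLK
  exact univ_subset_iff.1 hLK

end Pool.Agent.Lib.MP610fe3.HR
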