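import Pool.Agent.Lib.MP_610fe3_an.HR.Spec

/-!
# Module MIN: periodic points are dense in a minimal closed set saturated by unstable sets
-/

set_option autoImplicit false

open Set Filter Function
open scoped Topology

namespace Pool.Agent.Lib.MP610fe3.HR

open Cf CH

universe u v

namespace MINAux

variable {M : Type*} [MetricSpace M] {f : M ≃ₜ M} {ε C l : ℝ}

/-- Points of a local stable set are forward asymptotic to the centre. -/
theorem fa_of_wl (h : Dec f ε C l) {x z : M} (hz : z ∈ Wl f ε x) : FwdAsymp f z x := by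
  have h1 : Tendsto (fun n : ℕ => C * l ^ n * dist z x) atTop (𝓝 (C * 0 * dist z x)) :=
    ((tendsto_pow_atTop_nhds_zero_of_lt_one h.l_pos.le h.l_lt).const_mul C).mul_const _
  rw [mul_zero, zero_mul] at h1
  exact squeeze_zero (fun _ => dist_nonneg) (fun n => h.dec x z hz n) h1

/-- The closure of a set saturated by unstable sets is saturated by unstable sets. -/
theorem sat_closure (h : Loc f ε C l) {U : Set M} (hU : Sat f.symm U) :
    Sat f.symm (closure U) := by
  intro w hw w' hww'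
  rw [Metric.mem_closure_iff]
  intro r hr
  obtain ⟨δ, hδ, hbr⟩ := h.br.exist ε h.br.ε_pos
  -- the time
  have h1 : Tendsto (fun n : ℕ => C * l ^ n * ε) atTop (𝓝 (C * 0 * ε)) :=
    ((tendsto_pow_atTop_nhds_zero_of_lt_one h.decs.l_pos.le h.decs.l_lt).const_mul C).mul_const _
  rw [mul_zero, zero_mul] at h1
  obtain ⟨n₁, hn₁⟩ := (Metric.tendsto_atTop.1 h1) r hr
  obtain ⟨n₂, hn₂⟩ := (Metric.tendsto_atTop.1 hww') (δ / 2) (by positivity)
  set n := max n₁ n₂ with hn
  have h2 := hn₁ n (le_max_left _ _)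
  have h3 := hn₂ n (le_max_right _ _)
  rw [Real.dist_0_eq_abs] at h2 h3
  rw [abs_of_nonneg dist_nonneg] at h3
  have h2' := (le_abs_self _).trans_lt h2
  -- the approximating point
  obtain ⟨r', hr', hc⟩ := Metric.continuous_iff.1 (f.symm.continuous.iterate n) w (δ / 2)
    (by positivity)
  obtain ⟨y, hy, hwy⟩ := Metric.mem_closure_iff.1 hw r' hr'
  have h4 := hc y (by rwa [dist_comm])
  have h5 : dist (f.symm^[n] w') (f.symm^[n] y) < δ := by
    have h6 := dist_triangle (f.symm^[n] w') (f.symm^[n] w) (f.symm^[n] y)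
    rw [dist_comm (f.symm^[n] w') (f.symm^[n] w), dist_comm (f.symm^[n] w) (f.symm^[n] y)] at h6
    linarith
  obtain ⟨z, hz1, hz2⟩ := hbr _ _ h5
  have h6 : FwdAsymp f.symm z (f.symm^[n] y) := fa_of_wl h.decu hz2
  have h7 : FwdAsymp f.symm (f^[n] z) y := by
    have h8 := fa_symm_iter (f := f.symm) n h6
    rw [Homeomorph.symm_symm, iter_symm] at h8
    exact h8
  refine ⟨f^[n] z, hU y hy _ (fa_symm h7), ?_⟩
  have h8 := h.decs.dec _ z hz1 n
  rw [iter_symm] at h8
  have h9 : dist z (f.symm^[n] w') ≤ ε := by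
    have := hz1 0
    rwa [iterate_zero, id, id] at this
  have h10 : 0 ≤ C * l ^ n := mul_nonneg (by linarith [h.decs.one_le]) (pow_nonneg h.decs.l_pos.le n)
  calc dist w' (f^[n] z) = dist (f^[n] z) w' := dist_comm _ _
    _ ≤ C * l ^ n * dist z (f.symm^[n] w') := h8
    _ ≤ C * l ^ n * ε := mul_le_mul_of_nonneg_left h9 h10
    _ < r := h2'

/-- In a minimal closed set saturated by unstable sets every unstable set is dense. -/
theorem subset_closure_wu (h : Loc f ε C l) {A : Set M} (hA : Minimal (· ∈ Sset f.symm) A) {q : M}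
    (hq : q ∈ A) : A ⊆ closure {w | FwdAsymp f.symm w q} := by
  refine hA.2 ⟨isClosed_closure, ⟨q, subset_closure ?_⟩, sat_closure h ?_⟩ ?_
  · show FwdAsymp f.symm q q
    have : (fun k : ℕ => dist (f.symm^[k] q) (f.symm^[k] q)) = fun _ => 0 := by
      funext k; exact dist_self _
    show Tendsto (fun k : ℕ => dist (f.symm^[k] q) (f.symm^[k] q)) atTop (𝓝 0)
    rw [this]
    exact tendsto_const_nhds
  · intro x hx y hxy
    exact fa_trans (fa_symm hxy) hx
  · refine closure_minimal (fun w hw => ?_) hA.1.1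
    exact hA.1.2.2 q hq w (fa_symm hw)

/-- A homeomorphism commuting with `f` preserves the unstable sets. -/
theorem fa_map [CompactSpace M] {c : M ≃ₜ M} (hc : ∀ x, c (f x) = f (c x)) {x y : M}
    (h : FwdAsymp f.symm x y) : FwdAsymp f.symm (c x) (c y) := by
  have hc' : ∀ x, c (f.symm x) = f.symm (c x) := fun x => by
    apply f.injective
    rw [f.apply_symm_apply, ← hc, f.apply_symm_apply]
  have hcn : ∀ n x, c (f.symm^[n] x) = f.symm^[n] (c x) := fun n x =>
    ((show Function.Commute (c : M → M) f.symm from hc').iterate_right n) x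
  show Tendsto (fun k : ℕ => dist (f.symm^[k] (c x)) (f.symm^[k] (c y))) atTop (𝓝 0)
  rw [Metric.tendsto_atTop]
  intro r hr
  obtain ⟨δ, hδ, hu⟩ := Metric.uniformContinuous_iff.1
    (CompactSpace.uniformContinuous_of_continuous c.continuous) r hr
  obtain ⟨m, hm⟩ := (Metric.tendsto_atTop.1 h) δ hδ
  refine ⟨m, fun k hk => ?_⟩
  have h1 := hm k hk
  rw [Real.dist_0_eq_abs, abs_of_nonneg dist_nonneg] at h1 ⊢
  rw [← hcn, ← hcn]
  exact hu h1

theorem image_subset [CompactSpace M] {A : Set M} (hA : Minimal (· ∈ Sset f.symm) A) {c : M ≃ₜ M}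
    (hc : ∀ x, c (f x) = f (c x)) {p : M} (hp : p ∈ A) (hcp : c p = p) : A ⊆ c ⁻¹' A := by
  have h1 : A ∩ c ⁻¹' A ∈ Sset f.symm := by
    refine ⟨hA.1.1.inter (hA.1.1.preimage c.continuous), ⟨p, hp, ?_⟩, ?_⟩
    · show c p ∈ A
      rw [hcp]; exact hp
    · intro x hx y hxy
      exact ⟨hA.1.2.2 x hx.1 y hxy, hA.1.2.2 _ hx.2 _ (fa_map hc hxy)⟩
  exact fun x hx => (hA.2 h1 inter_subset_left hx).2

end MINAux

open MINAux

/-- **Module MIN.** -/
theorem specMin (hBas : SpecBas.{u}) : SpecMin.{u} := by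
  intro M _ _ f ε C l h A hA
  have hc : ExpConst f ε := h.expConst
  have hc0 : 0 < ε := h.br.ε_pos
  obtain ⟨N, hN, hinv'⟩ := minimal_inv hc0 hc.symm h.shu hA
  have hinv : f^[N] '' A = A := by
    have := symm_image hinv'
    rwa [Homeomorph.symm_symm] at this
  obtain ⟨hB1, hB2⟩ := hBas M f ε C l h A N hA.1.1 hA.1.2.2 hN hinv
  refine ⟨fun y hy r hr => ?_, fun c hcc p hp hcp => ?_⟩
  · -- periodic points
    obtain ⟨q, hqO, hyq⟩ := exists_fwdAsymp hc0 hc h.sh y
    have hqA : q ∈ A := hB2 ⟨hqO, y, hy, fa_symm hyq⟩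
    have h1 : Reach f y q := reach_of_fwdAsymp hqO hyq
    have h2 : Reach f q y := by
      apply reach_of_approx f.continuous
      intro r hr
      obtain ⟨w, hw, hd⟩ := Metric.mem_closure_iff.1 (subset_closure_wu h hA hqA hy) r hr
      rw [dist_comm] at hd
      exact ⟨q, w, by rwa [dist_self], hd, reach_of_bwdAsymp hqO hw⟩
    have h3 : y ∈ closure (periodicPts f) := mem_closure_of_reach hc0 hc h.sh (h1.trans h2)
    have h4 : y ∈ {x | ∃ a ∈ A, FwdAsymp f x a} := by
      refine ⟨y, hy, ?_⟩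
      have : (fun k : ℕ => dist (f^[k] y) (f^[k] y)) = fun _ => 0 := by
        funext k; exact dist_self _
      show Tendsto (fun k : ℕ => dist (f^[k] y) (f^[k] y)) atTop (𝓝 0)
      rw [this]
      exact tendsto_const_nhds
    obtain ⟨r', hr', hb⟩ := Metric.isOpen_iff.1 hB1 y h4
    obtain ⟨p, hp, hd⟩ := Metric.mem_closure_iff.1 h3 (min r r') (lt_min hr hr')
    rw [dist_comm] at hd
    refine ⟨p, hB2 ⟨subset_closure hp, hb ?_⟩, hp, hd.trans_le (min_le_left _ _)⟩
    rw [Metric.mem_ball]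
    exact hd.trans_le (min_le_right _ _)
  · have hcc' : ∀ x, c.symm (f x) = f (c.symm x) := fun x => by
      apply c.injective
      rw [c.apply_symm_apply, hcc, c.apply_symm_apply]
    have hcp' : c.symm p = p := by
      apply c.injective
      rw [c.apply_symm_apply, hcp]
    have h1 := image_subset hA hcc hp hcp
    have h2 := image_subset hA hcc' hp hcp'
    apply Subset.antisymm
    · rintro _ ⟨x, hx, rfl⟩
      exact h1 hx
    · intro x hx
      exact ⟨c.symm x, h2 hx, c.apply_symm_apply x⟩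

end Pool.Agent.Lib.MP610fe3.HR
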