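import Pool.Agent.Lib.MP_610fe3_an.HR.CHNG
import Pool.Agent.Lib.MP_610fe3_an.HR.MIN
import Pool.Agent.Lib.MP_610fe3_an.HR.BAS

/-!
# Module CHN1: the abstract chain in one direction

Along the chain `g 0, ..., g m = (g 0)⁻¹` every minimal closed set which is saturated by the
unstable sets of `g i` is saturated by those of `g (i + 1)`; nothing is assumed in the other
direction. Then a minimal set `K` of `g 0` contains a nonempty closed set `L` which is saturated
by the stable sets of `g 0`, and this forces `K` to be saturated by stable sets.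
-/

set_option autoImplicit false

open Set Filter Function
open scoped Topology

namespace Pool.Agent.Lib.MP610fe3.HR

open Cf CH

universe u

/-- CHN1. The abstract chain, in one direction only. -/
def SpecChn1 : Prop :=
  ∀ (M : Type u) [MetricSpace M] [CompactSpace M] [ConnectedSpace M] (m : ℕ) (g : ℕ → M ≃ₜ M)
    (ε C l : ℝ), Loc (g 0) ε C l → (∀ x, g m (g 0 x) = x) →
    (∀ i < m, ∀ K, Minimal (· ∈ Sset (g i).symm) K → Sat (g (i + 1)).symm K) →
    TopTransitive (g 0)

namespace CHN1Aux

open MINAux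

variable {M : Type u} [MetricSpace M] [CompactSpace M] {f : M ≃ₜ M} {ε C l : ℝ}

theorem fa_refl {X : Type*} [MetricSpace X] (a : X ≃ₜ X) (x : X) : FwdAsymp a x x := by
  have : (fun k : ℕ => dist (a^[k] x) (a^[k] x)) = fun _ => 0 := by
    funext k; exact dist_self _
  show Tendsto (fun k : ℕ => dist (a^[k] x) (a^[k] x)) atTop (𝓝 0)
  rw [this]
  exact tendsto_const_nhds

omit [CompactSpace M] in
/-- The closure of a set saturated by stable sets is saturated by stable sets. -/
theorem sat_closure' (h : Loc f ε C l) {U : Set M} (hU : Sat f U) : Sat f (closure U) := by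
  have h1 := sat_closure h.symm (U := U) (by rwa [Homeomorph.symm_symm])
  rwa [Homeomorph.symm_symm] at h1

/-- A minimal closed set saturated by unstable sets, which contains a nonempty set saturated by
stable sets, is saturated by stable sets. -/
theorem sat_of_subset (hMin : SpecMin.{u}) (h : Loc f ε C l) {K L : Set M}
    (hK : Minimal (· ∈ Sset f.symm) K) (hL : Sat f L) (hne : L.Nonempty) (hLK : L ⊆ K) :
    Sat f K := by
  have hc : ExpConst f ε := h.expConst
  have hc0 : 0 < ε := h.br.ε_pos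
  obtain ⟨N, hN, hinv'⟩ := minimal_inv hc0 hc.symm h.shu hK
  have hinv : f^[N] '' K = K := by
    have := symm_image hinv'
    rwa [Homeomorph.symm_symm] at this
  obtain ⟨p, hp⟩ := hne
  -- the stable set of a periodic point of `K` is in `K`
  have key : ∀ y ∈ K, y ∈ periodicPts f → ∀ x, FwdAsymp f x y → x ∈ K := by
    rintro y hy ⟨k, hk, hky⟩ x hx
    have hky' : f^[k] y = y := hky
    obtain ⟨δ, hδ, hbr⟩ := h.br.exist ε hc0
    obtain ⟨w, hw, hd⟩ := Metric.mem_closure_iff.1 (subset_closure_wu h hK hy (hLK hp)) δ hδ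
    obtain ⟨z, hz1, hz2⟩ := hbr _ _ hd
    have hz3 : FwdAsymp f z p := fa_of_wl h.decs hz1
    have hz4 : FwdAsymp f.symm z w := fa_of_wl h.decu hz2
    have hz5 : FwdAsymp f.symm z y := fa_trans hz4 hw
    have hzL : z ∈ L := hL p hp z (fa_symm hz3)
    set S : Set M := {x | ∃ n : ℕ, FwdAsymp f x (f.symm^[N * (k * n)] z)} with hS
    have hSK : S ⊆ K := by
      rintro x ⟨n, hn⟩
      have h1 := fa_iter (N * (k * n)) hn
      rw [iter_symm] at h1
      have h2 : f^[N * (k * n)] x ∈ K := hLK (hL z hzL _ (fa_symm h1))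
      have h3 := symm_iter_mem hinv h2 (k * n)
      rwa [symm_iter] at h3
    have hSsat : Sat f S := by
      rintro x ⟨n, hn⟩ x' hxx'
      exact ⟨n, fa_trans (fa_symm hxx') hn⟩
    have hyS : y ∈ closure S := by
      rw [Metric.mem_closure_iff]
      intro r hr
      obtain ⟨n₀, hn₀⟩ := (Metric.tendsto_atTop.1 (show Tendsto (fun j : ℕ =>
        dist (f.symm^[j] z) (f.symm^[j] y)) atTop (𝓝 0) from hz5)) r hr
      have hn : n₀ ≤ N * (k * n₀) := by
        rw [← mul_assoc]
        exact Nat.le_mul_of_pos_left n₀ (Nat.mul_pos hN hk)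
      have h1 := hn₀ _ hn
      rw [Real.dist_0_eq_abs, abs_of_nonneg dist_nonneg] at h1
      have hyn : f.symm^[N * (k * n₀)] y = y := by
        have h2 := symm_iter f (N * (k * n₀)) y
        have h3 : f^[N * (k * n₀)] y = y := by
          rw [mul_left_comm, iterate_mul]
          exact Function.iterate_fixed hky' _
        rwa [h3] at h2
      rw [hyn] at h1
      exact ⟨_, ⟨n₀, fa_refl f _⟩, by rwa [dist_comm]⟩
    exact closure_minimal hSK hK.1.1 (sat_closure' h hSsat y hyS x (fa_symm hx))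
  set T : Set M := {x | ∃ y ∈ K, y ∈ periodicPts f ∧ FwdAsymp f x y} with hT
  have hTK : T ⊆ K := fun x ⟨y, hy, hy', hxy⟩ => key y hy hy' x hxy
  have hTsat : Sat f T := fun x ⟨y, hy, hy', hxy⟩ x' hxx' =>
    ⟨y, hy, hy', fa_trans (fa_symm hxx') hxy⟩
  have hKT : K = closure T := by
    apply Subset.antisymm
    · intro y hy
      rw [Metric.mem_closure_iff]
      intro r hr
      obtain ⟨q, hqK, hq, hd⟩ := (hMin M f ε C l h K hK).1 y hy r hr
      exact ⟨q, ⟨q, hqK, hq, fa_refl f q⟩, by rwa [dist_comm]⟩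
    · exact closure_minimal hTK hK.1.1
  rw [hKT]
  exact sat_closure' h hTsat

/-- Along the chain every minimal set of `g 0` contains a minimal set of `g i`. -/
theorem exists_minimal_chain {X : Type*} [MetricSpace X] [CompactSpace X] {m : ℕ} {g : ℕ → X ≃ₜ X}
    (hstep : ∀ i < m, ∀ K, Minimal (· ∈ Sset (g i).symm) K → Sat (g (i + 1)).symm K)
    {K : Set X} (hK : Minimal (· ∈ Sset (g 0).symm) K) :
    ∀ i ≤ m, ∃ L ⊆ K, Minimal (· ∈ Sset (g i).symm) L := by
  intro i
  induction i with
  | zero => intro _; exact ⟨K, Subset.rfl, hK⟩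
  | succ i ih =>
    intro hi
    obtain ⟨L, hLK, hL⟩ := ih (by omega)
    obtain ⟨L', hL'L, hL'⟩ := exists_minimal (a := (g (i + 1)).symm)
      (K := L) ⟨hL.1.1, hL.1.2.1, hstep i (by omega) L hL⟩
    exact ⟨L', hL'L.trans hLK, hL'⟩

end CHN1Aux

open CHN1Aux CHNGAux

/-- **Module CHN1.** -/
theorem specChn1 (hMin : SpecMin.{u}) : SpecChn1.{u} := by
  intro M _ _ _ m g ε C l h hm hstep
  have hgm : g m = (g 0).symm := by
    ext x
    have h := hm ((g 0).symm x)
    rwa [(g 0).apply_symm_apply] at h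
  have hc0 : 0 < ε := h.br.ε_pos
  have hc := h.expConst
  have huniv : ∀ K, Minimal (· ∈ Sset (g 0).symm) K → K = univ := by
    intro K hK
    obtain ⟨L, hLK, hL⟩ := exists_minimal_chain hstep hK m le_rfl
    rw [hgm, Homeomorph.symm_symm] at hL
    have hsat : Sat (g 0) K := sat_of_subset hMin h hK hL.1.2.2 hL.1.2.1 hLK
    exact IsClopen.eq_univ ⟨hK.1.1, isOpen_of_sat hc0 hc h.sh hsat hK.1.2.2⟩ hK.1.2.1
  refine transitive_of_symm
    (topTransitive_of_shadowing h.shu (chainTransitive_of_univ hc0 hc.symm h.shu fun K hK => ?_))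
  obtain ⟨L, hLK, hL⟩ := exists_minimal hK
  rw [huniv L hL] at hLK
  exact univ_subset_iff.1 hLK

end Pool.Agent.Lib.MP610fe3.HR
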