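import Pool.Agent.Lib.MP_610fe3_an.HR.SpecZ2
import Pool.Agent.Lib.MP_610fe3_an.HR.CHN

/-!
# Module CHN2: the abstract theorem without conditions on the walls
-/

set_option autoImplicit false

open Set Filter Function
open scoped Topology

namespace Pool.Agent.Lib.MP610fe3.HR

open Cf CH CHNAux

universe u v w

namespace CHN2Aux

theorem Cross1.symm {k : ℕ} {J : Type*} {χ : J → Fin k → ℝ} {n n' : Fin k → ℤ} {i j : J}
    (h : Cross1 χ n n' i j) : Cross1 χ n' n j i := by
  obtain ⟨t, ht, hχ⟩ := h.neg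
  have hev : ∀ m, ev (χ j) m = -(t * ev (χ i) m) := fun m => by rw [hχ, CHNAux.ev_neg_smul]
  refine ⟨Wal.symm h.toWal, ?_⟩
  rw [hev, hev, h.opp]
  ring

variable {M : Type u} {W : Type v} [MetricSpace M] [CompactSpace M]
  [NormedAddCommGroup W] [InnerProductSpace ℝ W] [FiniteDimensional ℝ W] {E : Emb M W} {k : ℕ}
  {J : Type w} {A : (Fin k → ℤ) → M ≃ₜ M} {χ : J → Fin k → ℝ} {F : J → M → Submodule ℝ W}

/-- The wall lemma for the ratio `-1`. -/
theorem sat_of_cross1 [Finite J] (hEig : SpecEig.{u, v, w}) (hWall : SpecWall1.{u, v})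
    (hPair : SpecPair.{u, v}) (H : Act E A χ F) {n n' : Fin k → ℤ} {i j : J}
    (h : Cross1 χ n n' i j) (hi : ∀ x, Module.finrank ℝ (coarse χ F i x) = 1)
    (hj : ∀ x, Module.finrank ℝ (coarse χ F j x) = 1) :
    ∀ K, Minimal (· ∈ Sset (A n).symm) K → Sat (A n').symm K := by
  obtain ⟨s, hs, -⟩ := H.split n h.reg
  obtain ⟨t, ht, -⟩ := H.split n' h.reg'
  obtain ⟨ε, C, l, hP⟩ := hPair M W E (A n) (A n') s t hs ht (comm H n n')
  refine hWall M W E (A n) (A n') ε C l hP fun p hp => ?_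
  have h1 := hEig M W E k J A χ F H n n' i j h.toWal hi hj p hp
  have h2 : -(ev (χ i) n' / ev (χ i) n) = 1 := by
    rw [h.opp, neg_div, div_self h.lt.ne, neg_neg]
  rwa [h2] at h1

end CHN2Aux

open CHN2Aux

/-- **The abstract theorem.** -/
theorem specChain2 (hArith : SpecArith2.{w}) (hEig : SpecEig.{u, v, w}) (hWall : SpecWall.{u, v})
    (hWall1 : SpecWall1.{u, v}) (hPair : SpecPair.{u, v}) : SpecChain2.{u, v, w} := by
  intro M W _ _ _ _ _ _ E k J _ A χ F H hpart n hn
  obtain ⟨m, c, h0, hm, hc⟩ := hArith k J χ n hn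
  -- both directions at every step
  have hstep : ∀ i < m,
      (∀ K, Minimal (· ∈ Sset (A (c i)).symm) K → Sat (A (c (i + 1))).symm K) ∧
      (∀ K, Minimal (· ∈ Sset (A (c (i + 1))).symm) K → Sat (A (c i)).symm K) := by
    intro i hi
    rcases hc i hi with h | ⟨l, l', h | h⟩
    · exact sats_of_step H h
    · obtain ⟨t, ht, hχ⟩ := h.neg
      obtain ⟨t', ht', hχ'⟩ := (Cross.symm h).neg
      have h1 := hpart l' l t ht hχ
      have h2 := hpart l l' t' ht' hχ'
      exact ⟨sat_of_cross hEig hWall hPair H h h2 h1,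
        sat_of_cross hEig hWall hPair H (Cross.symm h) h1 h2⟩
    · obtain ⟨t, ht, hχ⟩ := h.neg
      obtain ⟨t', ht', hχ'⟩ := (Cross1.symm h).neg
      have h1 := hpart l' l t ht hχ
      have h2 := hpart l l' t' ht' hχ'
      exact ⟨sat_of_cross1 hEig hWall1 hPair H h h2 h1,
        sat_of_cross1 hEig hWall1 hPair H (Cross1.symm h) h1 h2⟩
  have hind : ∀ i ≤ m, ∀ K, Minimal (· ∈ Sset (A (c i)).symm) K ↔
      Minimal (· ∈ Sset (A n).symm) K := by
    intro i
    induction i with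
    | zero => intro _ K; rw [h0]
    | succ i ih =>
      intro hi K
      have hs := hstep i (by omega)
      rw [← ih (by omega) K]
      exact ⟨fun h => minimal_of hs.2 hs.1 h, fun h => minimal_of hs.1 hs.2 h⟩
  have hlast : ∀ K, Minimal (· ∈ Sset (A n)) K → Minimal (· ∈ Sset (A n).symm) K := by
    intro K hK
    apply (hind m le_rfl K).1
    rw [hm, neg H, Homeomorph.symm_symm]
    exact hK
  obtain ⟨⟨e, he0, he⟩, hsh, -, -⟩ := exists_exp H hn
  have huniv : ∀ K, Minimal (· ∈ Sset (A n)) K → K = univ := by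
    intro K hK
    exact IsClopen.eq_univ
      ⟨hK.1.1, isOpen_of_sat he0 he hsh hK.1.2.2 (hlast K hK).1.2.2⟩ hK.1.2.1
  refine topTransitive_of_shadowing hsh (chainTransitive_of_univ he0 he hsh fun K hK => ?_)
  obtain ⟨L, hLK, hL⟩ := exists_minimal hK
  rw [huniv L hL] at hLK
  exact univ_subset_iff.1 hLK

end Pool.Agent.Lib.MP610fe3.HR
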