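import Pool.Agent.Lib.MP_610fe3_an.HR.Spec3
import Pool.Agent.Lib.MP_610fe3_an.HR.CHN

/-!
# Module CHNG: the abstract chain of commuting Anosov diffeomorphisms

Along the chain `g 0, ..., g m = (g 0)⁻¹` the minimal closed sets which are saturated by unstable
sets stay the same. Hence the minimal sets of `g 0` are saturated by stable and by unstable sets,
so they are open, and the whole space is the only closed nonempty set which is saturated by the
unstable sets of some `g i`.
-/

set_option autoImplicit false

open Set Filter Function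
open scoped Topology

namespace Pool.Agent.Lib.MP610fe3.HR

open Cf CH CHNAux

universe u v w

namespace CHNGAux

variable {X : Type*} [MetricSpace X] [CompactSpace X]

/-- The minimal closed saturated sets are the same along a chain. -/
theorem minimal_chain {m : ℕ} {g : ℕ → X ≃ₜ X}
    (hstep : ∀ i < m, (∀ K, Minimal (· ∈ Sset (g i).symm) K → Sat (g (i + 1)).symm K) ∧
      (∀ K, Minimal (· ∈ Sset (g (i + 1)).symm) K → Sat (g i).symm K)) :
    ∀ i ≤ m, ∀ K, Minimal (· ∈ Sset (g i).symm) K ↔ Minimal (· ∈ Sset (g 0).symm) K := by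
  intro i
  induction i with
  | zero => intro _ K; exact Iff.rfl
  | succ i ih =>
    intro hi K
    have hs := hstep i (by omega)
    rw [← ih (by omega) K]
    exact ⟨fun h => minimal_of hs.2 hs.1 h, fun h => minimal_of hs.1 hs.2 h⟩

omit [CompactSpace X] in
theorem transitive_of_symm {f : X ≃ₜ X} (h : TopTransitive f.symm) : TopTransitive f := by
  have h1 : ∀ (k : ℕ) (y : X), f^[k] (f.symm^[k] y) = y := by
    intro k
    induction k with
    | zero => intro y; rfl
    | succ n ih =>
      intro y
      rw [iterate_succ_apply, iterate_succ_apply', f.apply_symm_apply, ih]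
  intro U V hU hV hUne hVne
  obtain ⟨k, z, ⟨y, hy, rfl⟩, hz⟩ := h V U hV hU hVne hUne
  refine ⟨k, f^[k] (f.symm^[k] y), ⟨f.symm^[k] y, hz, rfl⟩, ?_⟩
  rw [h1]
  exact hy

end CHNGAux

open CHNGAux

/-- **The abstract chain.** -/
theorem specChng : SpecChng.{u, v} := by
  intro M W _ _ _ _ _ _ E m g hs hm hstep
  have hgm : g m = (g 0).symm := by
    ext x
    have h := hm ((g 0).symm x)
    rwa [(g 0).apply_symm_apply] at h
  have hind := minimal_chain hstep
  obtain ⟨s0, hs0⟩ := hs 0 (Nat.zero_le m)
  obtain ⟨e, he0, he⟩ := s0.expansive hs0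
  have hsh := s0.shadowing hs0
  have huniv : ∀ K, Minimal (· ∈ Sset (g 0).symm) K → K = univ := by
    intro K hK
    have hK' := (hind m le_rfl K).2 hK
    rw [hgm, Homeomorph.symm_symm] at hK'
    exact IsClopen.eq_univ
      ⟨hK.1.1, isOpen_of_sat he0 he hsh hK'.1.2.2 hK.1.2.2⟩ hK.1.2.1
  intro i hi
  obtain ⟨s, hsi⟩ := hs i hi
  obtain ⟨c, hc0, hc⟩ := s.swap.expansive hsi.swap
  have hshi := s.swap.shadowing hsi.swap
  refine transitive_of_symm
    (topTransitive_of_shadowing hshi (chainTransitive_of_univ hc0 hc hshi fun K hK => ?_))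
  obtain ⟨L, hLK, hL⟩ := exists_minimal hK
  rw [huniv L ((hind i hi L).1 hL)] at hLK
  exact univ_subset_iff.1 hLK

end Pool.Agent.Lib.MP610fe3.HR
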