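import Pool.Agent.Lib.MP_610fe3_an.HR.Spec

/-!
# Module COC: the cocycle of `f` on the line bundle
-/

set_option autoImplicit false

open Set Filter Function
open scoped Topology

namespace Pool.Agent.Lib.MP610fe3.HR

open Cf CH

universe u v

namespace COCAux

variable {W : Type*} [NormedAddCommGroup W] [InnerProductSpace ℝ W]

/-- The form `⟪P v, P w⟫`. -/
noncomputable def BB (P : W →L[ℝ] W) : W →L[ℝ] W →L[ℝ] ℝ :=
  ((((innerSL ℝ : W →L[ℝ] W →L[ℝ] ℝ)) ∘L P).flip ∘L P).flip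

theorem BB_apply (P : W →L[ℝ] W) (v w : W) : BB P v w = inner ℝ (P v) (P w) := rfl

theorem BB_cont {M : Type*} [TopologicalSpace M] {P : M → W →L[ℝ] W} (hP : Continuous P) :
    Continuous fun x => BB (P x) := by
  have h1 : Continuous fun x => ((innerSL ℝ : W →L[ℝ] W →L[ℝ] ℝ)) ∘L P x :=
    continuous_const.clm_comp hP
  have h2 : Continuous fun x => (((innerSL ℝ : W →L[ℝ] W →L[ℝ] ℝ)) ∘L P x).flip :=
    (ContinuousLinearMap.flipₗᵢ ℝ W W ℝ).continuous.comp h1
  have h3 := h2.clm_comp hP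
  exact (ContinuousLinearMap.flipₗᵢ ℝ W W ℝ).continuous.comp h3

end COCAux

open COCAux

/-- **COC.** The cocycle of `f` on the line bundle. -/
theorem specCoc : SpecCoc.{u, v} := by
  intro M W _ _ _ _ _ E f g s t C₀ hB
  obtain ⟨hc, hs, ht, sqs, sqt, hrank⟩ := hB
  have hcomm : ∀ x w, s.S x (t.S x w) = t.S x (s.S x w) := fun x w =>
    congrArg (fun L => L w) (SS_commute s t hs ht hc x)
  have hPP : ∀ x w, PP s t x (PP s t x w) = PP s t x w := by
    intro x w
    change s.S x (t.S x (s.S x (t.S x w))) = s.S x (t.S x w)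
    rw [← hcomm x (t.S x w)]
    have h1 : t.S x (t.S x w) = t.S x w := congrArg (fun L => L w) (t.SS x)
    have h2 : s.S x (s.S x (t.S x w)) = s.S x (t.S x w) :=
      congrArg (fun L => L (t.S x w)) (s.SS x)
    rw [h1, h2]
  have hScont : Continuous (PP s t) :=
    (s.continuous_S hs).clm_comp (t.continuous_S ht)
  have hDP : ∀ x w, s.D x (PP s t x w) = PP s t (f x) (s.D x w) := by
    intro x w
    change s.D x (s.S x (t.S x w)) = s.S (f x) (t.S (f x) (s.D x w))
    have h1 : s.D x (s.S x (t.S x w)) = s.S (f x) (s.D x (t.S x w)) :=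
      congrArg (fun L => L (t.S x w)) (s.DS x)
    have h2 : s.D x (t.S x w) = t.S (f x) (s.D x w) :=
      congrArg (fun L => L w) (DS_commutes s t ht hc x).1
    rw [h1, h2]
  have hEP : ∀ x w, E.P x (PP s t x w) = PP s t x w := by
    intro x w
    exact congrArg (fun L => L (t.S x w)) (s.PS x)
  have inv1 : ∀ x w, s.Di (f x) (s.D x (PP s t x w)) = PP s t x w := by
    intro x w
    have h1 : s.Di (f x) (s.D x (PP s t x w)) = E.P x (PP s t x w) :=
      congrArg (fun L => L (PP s t x w)) (s.inv1 x)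
    rw [h1, hEP]
  have inv2 : ∀ x w, s.D (f.symm x) (s.Di x (PP s t x w)) = PP s t x w := by
    intro x w
    have h1 : s.D (f.symm x) (s.Di x (PP s t x w)) = E.P x (PP s t x w) :=
      congrArg (fun L => L (PP s t x w)) (s.inv2 x)
    rw [h1, hEP]
  -- the line
  have hline : ∀ x, ∃ e : W, e ≠ 0 ∧ PP s t x e = e ∧ ∀ v, ∃ r : ℝ, PP s t x v = r • e := by
    intro x
    obtain ⟨e, he0, he⟩ := finrank_eq_one_iff'.1 (hrank x)
    obtain ⟨e', he'⟩ := e.2
    refine ⟨e, fun h => he0 (Subtype.ext h), ?_, fun v => ?_⟩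
    · change PP s t x e' = (e : W) at he'
      rw [← he', hPP]
    · obtain ⟨r, hr⟩ := he ⟨PP s t x v, ⟨v, rfl⟩⟩
      exact ⟨r, (congrArg Subtype.val hr).symm⟩
  have hconf : ∀ x, ∃ a : ℝ, 0 < a ∧ ∀ v w,
      BB (PP s t (f x)) (s.D x v) (s.D x w) = a ^ 2 * BB (PP s t x) v w := by
    intro x
    obtain ⟨e, he0, hPe, he⟩ := hline x
    have hDe : s.D x e ≠ 0 := by
      intro h0
      have h1 := inv1 x e
      rw [hPe, h0, map_zero] at h1
      exact he0 h1.symm
    have hn : 0 < ‖e‖ := norm_pos_iff.2 he0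
    refine ⟨‖s.D x e‖ / ‖e‖, div_pos (norm_pos_iff.2 hDe) hn, fun v w => ?_⟩
    obtain ⟨a, ha⟩ := he v
    obtain ⟨b, hb⟩ := he w
    rw [BB_apply, BB_apply, ← hDP, ← hDP, ha, hb, map_smul, map_smul, inner_smul_left,
      inner_smul_right, inner_smul_left, inner_smul_right, real_inner_self_eq_norm_sq,
      real_inner_self_eq_norm_sq]
    simp only [conj_trivial]
    field_simp
  choose a ha0 ha using hconf
  -- bounds
  obtain ⟨K₁, hK₁, H₁⟩ := exists_norm_bound hScont
  obtain ⟨K₂, hK₂, H₂⟩ := exists_norm_bound s.hDi.cont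
  set K := max K₁ (max K₂ C₀) with hK
  have k1 : K₁ ≤ K := le_max_left _ _
  have k2 : K₂ ≤ K := (le_max_left _ _).trans (le_max_right _ _)
  have k3 : C₀ ≤ K := (le_max_right _ _).trans (le_max_right _ _)
  have hK1 : 1 ≤ K := hK₁.trans k1
  refine ⟨⟨s.D, s.Di, PP s t, fun x => BB (PP s t x), a, K, hK1, s.hD.cont, s.hDi.cont, hScont,
    BB_cont hScont, hPP, hDP, inv1, inv2, ?_, ?_, ?_, ?_, ?_, ?_, ?_, ?_, ha0, ha⟩, rfl, rfl, rfl⟩
  · intro x
    obtain ⟨e, he0, hPe, -⟩ := hline x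
    exact ⟨e, by rw [hPe]; exact he0⟩
  · intro x v w
    rw [BB_apply, BB_apply, real_inner_comm]
  · intro x v w
    rw [BB_apply, BB_apply, hPP]
  · intro x w
    rw [BB_apply, real_inner_self_eq_norm_sq]
    exact le_mul_of_one_le_left (sq_nonneg _) (one_le_pow₀ hK1)
  · intro x w
    rw [BB_apply, real_inner_self_eq_norm_sq, ← mul_pow]
    exact pow_le_pow_left₀ (norm_nonneg _) ((PP s t x).le_of_opNorm_le ((H₁ x).trans k1) w) 2
  · intro x w
    exact (PP s t x).le_of_opNorm_le ((H₁ x).trans k1) w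
  · intro x w
    exact (s.Di x).le_of_opNorm_le ((H₂ x).trans k2) w
  · intro x z w
    refine (s.D z - s.D x).le_of_opNorm_le ((sqs.lipD x z).trans ?_) w
    exact mul_le_mul_of_nonneg_right k3 dist_nonneg

end Pool.Agent.Lib.MP610fe3.HR
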