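import Pool.Agent.Lib.MP_610fe3_an.HR.Spec

/-!
# Commutation of the bracket with the leaves `Y` (6.6)
-/

set_option autoImplicit false

open Set Filter Function
open scoped Topology

namespace Pool.Agent.Lib.MP610fe3.HR

open Cf CH

universe u

namespace COMMAux

section Plane

variable {M : Type*} [MetricSpace M] {f g : M ≃ₜ M} {θ : ℝ} {p : M} {H : ℝ → ℝ → M}

theorem f_iter (h : Plane f g θ p H) (n : ℕ) (τ r : ℝ) : f^[n] (H τ r) = H (τ + n) r := by
  induction n with
  | zero => simp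
  | succ n ih =>
    rw [iterate_succ_apply', ih, h.eqf]
    congr 1
    push_cast
    ring

theorem f_symm (h : Plane f g θ p H) (τ r : ℝ) : f.symm (H τ r) = H (τ - 1) r := by
  rw [Homeomorph.symm_apply_eq, h.eqf]
  congr 1
  ring

theorem g_symm (h : Plane f g θ p H) (τ r : ℝ) : g.symm (H τ r) = H (τ + θ) r := by
  rw [Homeomorph.symm_apply_eq, h.eqg]
  congr 1
  ring

theorem f_symm_iter (h : Plane f g θ p H) (n : ℕ) (τ r : ℝ) :
    f.symm^[n] (H τ r) = H (τ - n) r := by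
  induction n with
  | zero => simp
  | succ n ih =>
    rw [iterate_succ_apply', ih, f_symm h]
    congr 1
    push_cast
    ring

theorem g_symm_iter (h : Plane f g θ p H) (n : ℕ) (τ r : ℝ) :
    g.symm^[n] (H τ r) = H (τ + n * θ) r := by
  induction n with
  | zero => simp
  | succ n ih =>
    rw [iterate_succ_apply', ih, g_symm h]
    congr 1
    push_cast
    ring

/-- The element `f^(-a) g^(-b)`. -/
def cc (f g : M ≃ₜ M) (a b : ℕ) (x : M) : M := f.symm^[a] (g.symm^[b] x)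

theorem cc_H (h : Plane f g θ p H) (a b : ℕ) (τ r : ℝ) :
    cc f g a b (H τ r) = H (τ - (a - b * θ)) r := by
  unfold cc
  rw [g_symm_iter h, f_symm_iter h]
  congr 1
  ring

theorem cc_cont (f g : M ≃ₜ M) (a b : ℕ) : Continuous (cc f g a b) :=
  (f.symm.continuous.iterate a).comp (g.symm.continuous.iterate b)

theorem cc_f (hfg : ∀ x, f (g x) = g (f x)) (a b k : ℕ) (x : M) :
    f^[k] (cc f g a b x) = cc f g a b (f^[k] x) := by
  have h1 : Function.Commute (f : M → M) (f.symm : M → M) := fun y => by simp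
  have h2 : Function.Commute (f : M → M) (g.symm : M → M) := fun y => by
    rw [Homeomorph.eq_symm_apply, ← hfg, Homeomorph.apply_symm_apply]
  unfold cc
  rw [(h1.iterate_iterate k a).eq, (h2.iterate_iterate k b).eq]

theorem cc_fs (hfg : ∀ x, f (g x) = g (f x)) (a b k : ℕ) (x : M) :
    f.symm^[k] (cc f g a b x) = cc f g a b (f.symm^[k] x) := by
  have h1 : Function.Commute (f.symm : M → M) (f.symm : M → M) := Function.Commute.refl _
  have h2 : Function.Commute (f.symm : M → M) (g.symm : M → M) := fun y => by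
    rw [Homeomorph.eq_symm_apply, ← comm_symm hfg, Homeomorph.apply_symm_apply]
  unfold cc
  rw [(h1.iterate_iterate k a).eq, (h2.iterate_iterate k b).eq]

end Plane

section Approx

/-- Good approximations by large pairs. -/
theorem exists_pair {θ : ℝ} (hθ : 0 < θ) (K : ℕ) {e : ℝ} (he : 0 < e) :
    ∃ a b : ℕ, K ≤ a + b ∧ |(a : ℝ) - b * θ| < e := by
  obtain ⟨n, hn⟩ := exists_nat_gt (1 / e)
  have hn0 : 0 < n + 1 := Nat.succ_pos n
  obtain ⟨j, k, hk, -, hjk⟩ := Real.exists_int_int_abs_mul_sub_le (((K : ℝ) + 1) * θ) hn0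
  have hsm : (1 : ℝ) / (((n + 1 : ℕ) : ℝ) + 1) < e := by
    rw [div_lt_iff₀ (by positivity)]
    rw [div_lt_iff₀ he] at hn
    push_cast
    nlinarith
  have hlt := hjk.trans_lt hsm
  obtain ⟨k', rfl⟩ := Int.eq_ofNat_of_zero_le hk.le
  have hk' : 0 < k' := by exact_mod_cast hk
  refine ⟨j.natAbs, k' * (K + 1), ?_, ?_⟩
  · have : K + 1 ≤ k' * (K + 1) := Nat.le_mul_of_pos_left _ hk'
    omega
  · push_cast
    push_cast at hlt
    rw [abs_sub_comm] at hlt
    have habs : ((j.natAbs : ℕ) : ℝ) = |(j : ℝ)| := by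
      rw [← Int.cast_abs, Int.abs_eq_natAbs, Int.cast_natCast]
    rw [habs]
    by_cases hj : 0 ≤ j
    · have h1 : |(j : ℝ)| = j := abs_of_nonneg (by exact_mod_cast hj)
      rw [h1, mul_assoc]
      exact hlt
    · have h1 : |(j : ℝ)| = -j := abs_of_neg (by exact_mod_cast (not_le.1 hj))
      rw [h1]
      have h2 : (j : ℝ) < 0 := by exact_mod_cast (not_le.1 hj)
      have h3 : (0 : ℝ) ≤ (k' : ℝ) * (((K : ℝ) + 1) * θ) := by positivity
      rw [abs_lt] at hlt ⊢
      constructor <;> nlinarith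

end Approx

section Step

variable {M : Type*} [MetricSpace M] [CompactSpace M] {f g : M ≃ₜ M} {ε C l θ : ℝ} {p : M}
  {H : ℝ → ℝ → M}

/-- Uniform tails. -/
theorem exists_tail {C l ρ B : ℝ} (hl : 0 < l) (hl1 : l < 1) (hρ : 0 < ρ) :
    ∃ K : ℕ, ∀ k ≥ K, C * l ^ k * B < ρ := by
  have h : Tendsto (fun k : ℕ => C * l ^ k * B) atTop (𝓝 (C * 0 * B)) :=
    ((tendsto_pow_atTop_nhds_zero_of_lt_one hl.le hl1).const_mul C).mul_const B
  rw [mul_zero, zero_mul] at h
  exact eventually_atTop.1 (h.eventually (gt_mem_nhds hρ))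

/-- The local product structure is kept along the segment. -/
theorem propagate (hP : Pair f g ε C l) (hH : Plane f g θ p H) {δ η : ℝ}
    (hbr : ∀ x y, dist x y < δ → ∃ z, z ∈ Wl f (ε / 8) x ∧ z ∈ Wl f.symm (ε / 8) y)
    (hη : η ≤ ε) {τ τ' : ℝ} {q : ℝ → M}
    (hq : ContinuousOn q (Icc 0 1))
    (hql : ∀ r ∈ Icc (0 : ℝ) 1, q r ∈ Wl f η (H τ' r) ∧ q r ∈ Wl f.symm η (H τ 0))
    (hq0 : q 0 = H τ 0) (a b : ℕ)
    (hclose : ∀ r ∈ Icc (0 : ℝ) 1, dist (cc f g a b (H τ' r)) (cc f g a b (H τ 0)) < δ)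
    (hstart : cc f g a b (H τ 0) ∈ Wl f (ε / 2) (cc f g a b (H τ' 0))) :
    ∀ r ∈ Icc (0 : ℝ) 1, cc f g a b (q r) ∈ Wl f (ε / 2) (cc f g a b (H τ' r)) ∧
      cc f g a b (q r) ∈ Wl f.symm (ε / 2) (cc f g a b (H τ 0)) := by
  have hε : 0 < ε := hP.one.br.ε_pos
  have hC := hP.one.decs.one_le
  have hl := hP.one.decs.l_pos
  have hl1 := hP.one.decs.l_lt
  set c : M → M := cc f g a b with hc
  have hcc : Continuous c := cc_cont f g a b
  have hcu : UniformContinuous c := CompactSpace.uniformContinuous_of_continuous hcc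
  -- upgrade from `ε / 2` to `ε / 8`
  have hup : ∀ r ∈ Icc (0 : ℝ) 1, c (q r) ∈ Wl f (ε / 2) (c (H τ' r)) →
      c (q r) ∈ Wl f.symm (ε / 2) (c (H τ 0)) →
      c (q r) ∈ Wl f (ε / 8) (c (H τ' r)) ∧ c (q r) ∈ Wl f.symm (ε / 8) (c (H τ 0)) := by
    intro r hr h1 h2
    obtain ⟨z, hz1, hz2⟩ := hbr _ _ (hclose r hr)
    have he : c (q r) = z := hP.one.br.unique (c (H τ' r)) (c (H τ 0)) _ _
      (fun k => (h1 k).trans (by linarith)) (fun k => (h2 k).trans (by linarith))
      (fun k => (hz1 k).trans (by linarith)) (fun k => (hz2 k).trans (by linarith))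
    rw [he]
    exact ⟨hz1, hz2⟩
  -- uniform tails
  obtain ⟨ρ, hρ, hcρ⟩ := Metric.uniformContinuous_iff.1 hcu (ε / 2) (by positivity)
  obtain ⟨K, hK⟩ := exists_tail (C := C) (B := ε) hl hl1 hρ
  have htail1 : ∀ k ≥ K, ∀ r ∈ Icc (0 : ℝ) 1, dist (f^[k] (c (q r))) (f^[k] (c (H τ' r))) ≤
      ε / 2 := by
    intro k hk r hr
    rw [hc, cc_f hP.comm, cc_f hP.comm]
    refine (hcρ ?_).le
    have h1 := hP.one.decs.dec (H τ' r) (q r) (fun i => ((hql r hr).1 i).trans hη) k
    have h2 : dist (q r) (H τ' r) ≤ ε := ((hql r hr).1 0).trans hη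
    have h3 : 0 ≤ C * l ^ k := by positivity
    exact (h1.trans (mul_le_mul_of_nonneg_left h2 h3)).trans_lt (hK k hk)
  have htail2 : ∀ k ≥ K, ∀ r ∈ Icc (0 : ℝ) 1,
      dist (f.symm^[k] (c (q r))) (f.symm^[k] (c (H τ 0))) ≤ ε / 2 := by
    intro k hk r hr
    rw [hc, cc_fs hP.comm, cc_fs hP.comm]
    refine (hcρ ?_).le
    have h1 := hP.one.decu.dec (H τ 0) (q r) (fun i => ((hql r hr).2 i).trans hη) k
    have h2 : dist (q r) (H τ 0) ≤ ε := ((hql r hr).2 0).trans hη
    have h3 : 0 ≤ C * l ^ k := by positivity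
    exact (h1.trans (mul_le_mul_of_nonneg_left h2 h3)).trans_lt (hK k hk)
  -- continuity of the distances
  have hHr : ∀ s : ℝ, Continuous (fun r => H s r) := fun s =>
    hH.cont.comp (Continuous.prodMk continuous_const continuous_id)
  have hD1 : ∀ k : ℕ, ContinuousOn
      (fun r => dist (f^[k] (c (q r))) (f^[k] (c (H τ' r)))) (Icc 0 1) := fun k =>
    continuous_dist.comp_continuousOn
      ((((f.continuous.iterate k).comp hcc).comp_continuousOn hq).prodMk
      (((f.continuous.iterate k).comp hcc).comp (hHr τ')).continuousOn)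
  have hD2 : ∀ k : ℕ, ContinuousOn
      (fun r => dist (f.symm^[k] (c (q r))) (f.symm^[k] (c (H τ 0)))) (Icc 0 1) := fun k =>
    continuous_dist.comp_continuousOn
      ((((f.symm.continuous.iterate k).comp hcc).comp_continuousOn hq).prodMk
      continuousOn_const)
  set s : Set ℝ := {r | c (q r) ∈ Wl f (ε / 2) (c (H τ' r)) ∧
    c (q r) ∈ Wl f.symm (ε / 2) (c (H τ 0))} with hs
  have hclosed : IsClosed (s ∩ Icc 0 1) := by
    have heq : s ∩ Icc 0 1 =
        (⋂ k : ℕ, Icc 0 1 ∩ (fun r => dist (f^[k] (c (q r))) (f^[k] (c (H τ' r)))) ⁻¹'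
          Iic (ε / 2)) ∩
        (⋂ k : ℕ, Icc 0 1 ∩ (fun r => dist (f.symm^[k] (c (q r))) (f.symm^[k] (c (H τ 0)))) ⁻¹'
          Iic (ε / 2)) := by
      ext r
      constructor
      · rintro ⟨⟨h1, h2⟩, h3⟩
        exact ⟨mem_iInter.2 fun k => ⟨h3, h1 k⟩, mem_iInter.2 fun k => ⟨h3, h2 k⟩⟩
      · rintro ⟨h1, h2⟩
        rw [mem_iInter] at h1 h2
        exact ⟨⟨fun k => (h1 k).2, fun k => (h2 k).2⟩, (h1 0).1⟩
    rw [heq]
    exact (isClosed_iInter fun k => (hD1 k).preimage_isClosed_of_isClosed isClosed_Icc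
      isClosed_Iic).inter (isClosed_iInter fun k =>
      (hD2 k).preimage_isClosed_of_isClosed isClosed_Icc isClosed_Iic)
  have h0 : (0 : ℝ) ∈ s := by
    refine ⟨?_, ?_⟩
    · rw [hq0]; exact hstart
    · rw [hq0]
      intro k
      rw [dist_self]
      positivity
  have hsub : Icc (0 : ℝ) 1 ⊆ s := by
    refine hclosed.Icc_subset_of_forall_mem_nhdsWithin h0 ?_
    rintro x ⟨hxs, hx⟩
    have hxI : x ∈ Icc (0 : ℝ) 1 := ⟨hx.1, hx.2.le⟩
    have hx8 := hup x hxI hxs.1 hxs.2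
    have hnhds : Icc (0 : ℝ) 1 ∈ 𝓝[>] x := by
      refine mem_of_superset (Ioo_mem_nhdsGT hx.2) fun y hy => ?_
      exact ⟨hx.1.trans hy.1.le, hy.2.le⟩
    have hle : 𝓝[>] x ≤ 𝓝[Icc 0 1] x := by
      rw [nhdsWithin, nhdsWithin]
      refine le_inf inf_le_left ?_
      rw [le_principal_iff]
      exact hnhds
    have hev1 : ∀ k < K, ∀ᶠ r in 𝓝[>] x,
        dist (f^[k] (c (q r))) (f^[k] (c (H τ' r))) ≤ ε / 2 := by
      intro k _
      have h1 := (hD1 k x hxI).mono_left hle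
      have h2 : dist (f^[k] (c (q x))) (f^[k] (c (H τ' x))) < ε / 2 :=
        (hx8.1 k).trans_lt (by linarith)
      filter_upwards [h1.eventually (gt_mem_nhds h2)] with r hr
      exact hr.le
    have hev2 : ∀ k < K, ∀ᶠ r in 𝓝[>] x,
        dist (f.symm^[k] (c (q r))) (f.symm^[k] (c (H τ 0))) ≤ ε / 2 := by
      intro k _
      have h1 := (hD2 k x hxI).mono_left hle
      have h2 : dist (f.symm^[k] (c (q x))) (f.symm^[k] (c (H τ 0))) < ε / 2 :=
        (hx8.2 k).trans_lt (by linarith)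
      filter_upwards [h1.eventually (gt_mem_nhds h2)] with r hr
      exact hr.le
    have hall1 := (eventually_all_finset (Finset.range K)).2
      (fun k hk => hev1 k (Finset.mem_range.1 hk))
    have hall2 := (eventually_all_finset (Finset.range K)).2
      (fun k hk => hev2 k (Finset.mem_range.1 hk))
    filter_upwards [hall1, hall2, hnhds] with r h1 h2 hr
    refine ⟨fun k => ?_, fun k => ?_⟩
    · rcases lt_or_ge k K with hk | hk
      · exact h1 k (Finset.mem_range.2 hk)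
      · exact htail1 k hk r hr
    · rcases lt_or_ge k K with hk | hk
      · exact h2 k (Finset.mem_range.2 hk)
      · exact htail2 k hk r hr
  exact fun r hr => hsub hr

/-- For small shifts everything moves little. -/
theorem exists_shift (hH : Plane f g θ p H) (τ τ' : ℝ) {η : ℝ} (hη : 0 < η) :
    ∃ e₀ : ℝ, 0 < e₀ ∧ ∀ e : ℝ, |e| < e₀ →
      (∀ r ∈ Icc (0 : ℝ) 1, dist (H (τ' - e) r) (H τ' r) < η) ∧
      dist (H (τ - e) 0) (H τ 0) < η ∧
      ∀ k : ℕ, dist (H (τ - e + k) 0) (H (τ + k) 0) < η ∧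
        dist (H (τ' - e + k) 0) (H (τ' + k) 0) < η := by
  -- the curve `H τ 0` moves little, uniformly for all later times
  have hx : ∀ σ : ℝ, ∃ e₀ : ℝ, 0 < e₀ ∧ ∀ e : ℝ, |e| < e₀ → ∀ k : ℕ,
      dist (H (σ - e + k) 0) (H (σ + k) 0) < η := by
    intro σ
    have hxc : Continuous (fun s : ℝ => H s 0) :=
      hH.cont.comp (Continuous.prodMk continuous_id continuous_const)
    obtain ⟨T, hT⟩ := eventually_atTop.1
      (hH.lim.eventually (Metric.ball_mem_nhds p (half_pos hη)))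
    obtain ⟨N, hN⟩ := exists_nat_gt (T - σ + 1)
    have hfin : ∀ k : ℕ, ∃ e₀ : ℝ, 0 < e₀ ∧ ∀ e : ℝ, |e| < e₀ →
        dist (H (σ - e + k) 0) (H (σ + k) 0) < η := by
      intro k
      obtain ⟨d, hd, hdd⟩ := Metric.continuous_iff.1 hxc (σ + k) η hη
      refine ⟨d, hd, fun e he => hdd _ ?_⟩
      rw [Real.dist_eq]
      have : σ - e + k - (σ + k) = -e := by ring
      rw [this, abs_neg]
      exact he
    choose e₀ he₀ hee using hfin
    have hmin : ∃ d : ℝ, 0 < d ∧ d ≤ 1 ∧ ∀ k < N, d ≤ e₀ k := by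
      clear hN
      induction N with
      | zero => exact ⟨1, one_pos, le_refl _, fun k hk => absurd hk (Nat.not_lt_zero k)⟩
      | succ N ih =>
        obtain ⟨d, hd, hd1, hdk⟩ := ih
        refine ⟨min d (e₀ N), lt_min hd (he₀ N), (min_le_left _ _).trans hd1, fun k hk => ?_⟩
        rcases Nat.lt_succ_iff_lt_or_eq.1 hk with h | h
        · exact (min_le_left _ _).trans (hdk k h)
        · rw [h]; exact min_le_right _ _
    obtain ⟨d, hd, hd1, hdk⟩ := hmin
    refine ⟨d, hd, fun e he k => ?_⟩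
    rcases lt_or_ge k N with hk | hk
    · exact hee k e (he.trans_le (hdk k hk))
    · have hkN : (N : ℝ) ≤ k := by exact_mod_cast hk
      have he' := abs_lt.1 (he.trans_le hd1)
      have h1 := hT (σ - e + k) (by linarith [he'.1, he'.2])
      have h2 := hT (σ + k) (by linarith)
      have h3 := dist_triangle_right (H (σ - e + k) 0) (H (σ + k) 0) p
      linarith
  have hy : ∃ e₀ : ℝ, 0 < e₀ ∧ ∀ e : ℝ, |e| < e₀ →
      ∀ r ∈ Icc (0 : ℝ) 1, dist (H (τ' - e) r) (H τ' r) < η := by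
    have hcomp : IsCompact (Icc (τ' - 1) (τ' + 1) ×ˢ Icc (0 : ℝ) 1) :=
      isCompact_Icc.prod isCompact_Icc
    have huc := hcomp.uniformContinuousOn_of_continuous hH.cont.continuousOn
    obtain ⟨d, hd, hdd⟩ := Metric.uniformContinuousOn_iff.1 huc η hη
    refine ⟨min d 1, lt_min hd one_pos, fun e he r hr => ?_⟩
    have he1 := abs_lt.1 (he.trans_le (min_le_right _ _))
    have he2 := he.trans_le (min_le_left _ _)
    have h1 : ((τ' - e, r) : ℝ × ℝ) ∈ Icc (τ' - 1) (τ' + 1) ×ˢ Icc (0 : ℝ) 1 :=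
      ⟨⟨by show τ' - 1 ≤ τ' - e; linarith [he1.2], by show τ' - e ≤ τ' + 1; linarith [he1.1]⟩, hr⟩
    have h2 : ((τ', r) : ℝ × ℝ) ∈ Icc (τ' - 1) (τ' + 1) ×ˢ Icc (0 : ℝ) 1 :=
      ⟨⟨by show τ' - 1 ≤ τ'; linarith, by show τ' ≤ τ' + 1; linarith⟩, hr⟩
    refine hdd _ h1 _ h2 ?_
    rw [Prod.dist_eq, dist_self]
    refine max_lt ?_ hd
    rw [Real.dist_eq]
    have : τ' - e - τ' = -e := by ring
    show |τ' - e - τ'| < d
    rw [this, abs_neg]
    exact he2
  obtain ⟨e₁, he₁, H1⟩ := hx τ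
  obtain ⟨e₂, he₂, H2⟩ := hx τ'
  obtain ⟨e₃, he₃, H3⟩ := hy
  refine ⟨min e₁ (min e₂ e₃), lt_min he₁ (lt_min he₂ he₃), fun e he => ?_⟩
  have h1 := he.trans_le (min_le_left _ _)
  have h2 := he.trans_le ((min_le_right _ _).trans (min_le_left _ _))
  have h3 := he.trans_le ((min_le_right _ _).trans (min_le_right _ _))
  refine ⟨H3 e h3, ?_, fun k => ⟨H1 e h1 k, H2 e h2 k⟩⟩
  have := H1 e h1 0
  simpa using this

end Step

end COMMAux

open COMMAux

theorem specComm (hPr : SpecProd.{u}) : SpecComm.{u} := by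
  intro M _ _ f g ε C l θ p H hP _ hθ hH
  have hε : 0 < ε := hP.one.br.ε_pos
  obtain ⟨δ, hδ, hbr⟩ := hP.one.br.exist (ε / 8) (by positivity)
  set η : ℝ := min (ε / 8) (δ / 8) with hηd
  have hη : 0 < η := lt_min (by positivity) (by positivity)
  have hη1 : η ≤ ε / 8 := min_le_left _ _
  have hη2 : η ≤ δ / 8 := min_le_right _ _
  refine ⟨η, hη, fun τ τ' q hq hql hq0 r hr => ?_⟩
  have hηε : η ≤ ε := by linarith
  -- small shifts
  obtain ⟨e₀, he₀, hsh⟩ := exists_shift hH τ τ' hη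
  have hmain : ∀ a b : ℕ, |(a : ℝ) - b * θ| < e₀ →
      cc f g a b (q r) ∈ Wl f (ε / 2) (cc f g a b (H τ' r)) ∧
      cc f g a b (q r) ∈ Wl f.symm (ε / 2) (cc f g a b (H τ 0)) := by
    intro a b hab
    obtain ⟨s1, s2, s3⟩ := hsh _ hab
    refine propagate hP hH hbr hηε hq hql hq0 a b ?_ ?_ r hr
    · intro r' hr'
      rw [cc_H hH, cc_H hH]
      have h1 := s1 r' hr'
      have h3 : dist (q r') (H τ' r') ≤ η := (hql r' hr').1 0
      have h4 : dist (q r') (H τ 0) ≤ η := (hql r' hr').2 0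
      have h5 := dist_triangle (H (τ' - (a - b * θ)) r') (H τ' r') (H (τ - (a - b * θ)) 0)
      have h6 := dist_triangle (H τ' r') (H τ 0) (H (τ - (a - b * θ)) 0)
      have h7 := dist_triangle_left (H τ' r') (H τ 0) (q r')
      rw [dist_comm (H τ 0)] at h6
      linarith
    · intro k
      rw [cc_f hP.comm, cc_f hP.comm, f_iter hH, f_iter hH, cc_H hH, cc_H hH]
      have h1 := (s3 k).1
      have h2 := (s3 k).2
      have h3 : dist (f^[k] (q 0)) (f^[k] (H τ' 0)) ≤ η := (hql 0 ⟨le_refl _, zero_le_one⟩).1 k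
      rw [hq0, f_iter hH, f_iter hH] at h3
      have e1 : τ + k - (a - b * θ) = τ - (a - b * θ) + k := by ring
      have e2 : τ' + k - (a - b * θ) = τ' - (a - b * θ) + k := by ring
      rw [e1, e2]
      have h4 := dist_triangle (H (τ - (a - b * θ) + k) 0) (H (τ + k) 0)
        (H (τ' - (a - b * θ) + k) 0)
      have h5 := dist_triangle (H (τ + k) 0) (H (τ' + k) 0) (H (τ' - (a - b * θ) + k) 0)
      rw [dist_comm (H (τ' + k) 0)] at h5
      linarith
  -- the point of the leaf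
  have hfa : FwdAsymp f.symm (H τ 0) (q r) := by
    apply hP.one.expConst.symm.fwdAsymp
    intro k
    rw [dist_comm]
    exact ((hql r hr).2 k).trans hηε
  obtain ⟨v, hv1, hv2⟩ := (hPr M f.symm g ε C l hP.symm_left).1 (H τ 0) (q r) hfa
  obtain ⟨r'', hr''⟩ := hH.surj τ v hv1
  -- approximations
  have hpair : ∀ m : ℕ, ∃ ab : ℕ × ℕ, m ≤ ab.1 + ab.2 ∧
      |(ab.1 : ℝ) - ab.2 * θ| < min e₀ (1 / ((m : ℝ) + 1)) := by
    intro m
    obtain ⟨a, b, h1, h2⟩ := exists_pair hθ m (e := min e₀ (1 / ((m : ℝ) + 1)))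
      (lt_min he₀ (by positivity))
    exact ⟨(a, b), h1, h2⟩
  choose ab hab1 hab2 using hpair
  have he0 : Tendsto (fun m => ((ab m).1 : ℝ) - (ab m).2 * θ) atTop (𝓝 0) := by
    rw [tendsto_zero_iff_abs_tendsto_zero]
    refine squeeze_zero (fun m => abs_nonneg _) (fun m => ?_)
      (tendsto_one_div_add_atTop_nhds_zero_nat (𝕜 := ℝ))
    exact (hab2 m).le.trans (min_le_right _ _)
  have hshift : ∀ σ ρ : ℝ, Tendsto (fun m => cc f g (ab m).1 (ab m).2 (H σ ρ)) atTop
      (𝓝 (H σ ρ)) := by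
    intro σ ρ
    have h1 : Tendsto (fun m => H (σ - (((ab m).1 : ℝ) - (ab m).2 * θ)) ρ) atTop
        (𝓝 (H (σ - 0) ρ)) := by
      have h2 : Continuous (fun s : ℝ => H s ρ) :=
        hH.cont.comp (Continuous.prodMk continuous_id continuous_const)
      exact (h2.tendsto (σ - 0)).comp (tendsto_const_nhds.sub he0)
    rw [sub_zero] at h1
    refine h1.congr fun m => ?_
    rw [cc_H hH]
  have hdist : Tendsto (fun m => dist (cc f g (ab m).1 (ab m).2 (q r))
      (cc f g (ab m).1 (ab m).2 v)) atTop (𝓝 0) := by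
    rw [Metric.tendsto_atTop]
    intro ρ hρ
    obtain ⟨K, hK⟩ := hv2 (ρ / 2) (by positivity)
    refine ⟨K, fun m hm => ?_⟩
    rw [Real.dist_0_eq_abs, abs_of_nonneg dist_nonneg, dist_comm]
    exact (hK (ab m).1 (ab m).2 (hm.trans (hab1 m))).trans_lt (by linarith)
  have hlimv : Tendsto (fun m => cc f g (ab m).1 (ab m).2 (q r)) atTop (𝓝 v) := by
    have h1 : Tendsto (fun m => cc f g (ab m).1 (ab m).2 v) atTop (𝓝 v) := by
      rw [← hr'']
      exact hshift τ r''
    rw [tendsto_iff_dist_tendsto_zero] at h1 ⊢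
    have h2 := hdist.add h1
    rw [add_zero] at h2
    exact squeeze_zero (fun _ => dist_nonneg) (fun m => dist_triangle _ _ _) h2
  have hvq : v = q r := by
    refine hP.one.br.unique (H τ' r) (H τ 0) v (q r) ?_ ?_
      (fun k => ((hql r hr).1 k).trans hηε) (fun k => ((hql r hr).2 k).trans hηε)
    · intro k
      have h1 := (((f.continuous.iterate k).tendsto v).comp hlimv).dist
        (((f.continuous.iterate k).tendsto (H τ' r)).comp (hshift τ' r))
      have h2 : dist (f^[k] v) (f^[k] (H τ' r)) ≤ ε / 2 := by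
        refine le_of_tendsto' h1 fun m => ?_
        exact (hmain _ _ ((hab2 m).trans_le (min_le_left _ _))).1 k
      linarith
    · intro k
      have h1 := (((f.symm.continuous.iterate k).tendsto v).comp hlimv).dist
        (((f.symm.continuous.iterate k).tendsto (H τ 0)).comp (hshift τ 0))
      have h2 : dist (f.symm^[k] v) (f.symm^[k] (H τ 0)) ≤ ε / 2 := by
        refine le_of_tendsto' h1 fun m => ?_
        exact (hmain _ _ ((hab2 m).trans_le (min_le_left _ _))).2 k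
      linarith
  rw [← hvq]
  exact hv1

end Pool.Agent.Lib.MP610fe3.HR
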