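import Pool.Agent.Lib.MP_610fe3_an.HR.Spec
import Pool.Agent.Lib.MP_610fe3_an.Cf.H1Wl

/-!
# Module PROD: the product structure of the double leaves (helper29)

(3.1), (3.2), (3.3) and its converse.
-/

set_option autoImplicit false

open Set Filter Function
open scoped Topology

namespace Pool.Agent.Lib.MP610fe3.HR

open Cf CH

universe u

namespace PRODAux

variable {M : Type u} [MetricSpace M] {f g : M ≃ₜ M} {ε C l : ℝ}

theorem comm_iter (hc : ∀ x, f (g x) = g (f x)) (n m : ℕ) (x : M) :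
    f^[n] (g^[m] x) = g^[m] (f^[n] x) := by
  have h : Function.Commute (f : M → M) (g : M → M) := fun x => hc x
  exact (h.iterate_iterate n m).eq x

theorem dbl_symm {x y : M} (h : Dbl f g x y) : Dbl f g y x := fun η hη => by
  obtain ⟨K, hK⟩ := h η hη
  exact ⟨K, fun n m hnm => by rw [dist_comm]; exact hK n m hnm⟩

theorem dbl_trans {x y z : M} (h : Dbl f g x y) (h' : Dbl f g y z) : Dbl f g x z := fun η hη => by
  obtain ⟨K, hK⟩ := h (η / 2) (by positivity)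
  obtain ⟨K', hK'⟩ := h' (η / 2) (by positivity)
  refine ⟨K + K', fun n m hnm => ?_⟩
  have h1 := hK n m (by omega)
  have h2 := hK' n m (by omega)
  have h3 := dist_triangle (f^[n] (g^[m] x)) (f^[n] (g^[m] y)) (f^[n] (g^[m] z))
  linarith

theorem dbl_fwd {x y : M} (h : Dbl f g x y) : FwdAsymp f x y := by
  refine Metric.tendsto_atTop.2 fun η hη => ?_
  obtain ⟨K, hK⟩ := h (η / 2) (by positivity)
  refine ⟨K, fun n hn => ?_⟩
  have h1 := hK n 0 (by omega)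
  rw [Real.dist_eq, sub_zero, abs_of_nonneg dist_nonneg]
  simp only [iterate_zero, id_eq] at h1
  linarith

theorem dbl_of_image [CompactSpace M] (hc : ∀ x, f (g x) = g (f x)) {x y : M}
    (h : Dbl f g (f x) (f y)) : Dbl f g x y := fun η hη => by
  obtain ⟨η', hη', hu⟩ := Metric.uniformContinuous_iff.1
    (CompactSpace.uniformContinuous_of_continuous f.symm.continuous) η hη
  obtain ⟨K, hK⟩ := h (η' / 2) (by positivity)
  refine ⟨K, fun n m hnm => ?_⟩
  have h1 := hK n m hnm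
  have e : ∀ w : M, f^[n] (g^[m] (f w)) = f (f^[n] (g^[m] w)) := by
    intro w
    have e1 : g^[m] (f w) = f (g^[m] w) := (comm_iter hc 1 m w).symm
    rw [e1, ← iterate_succ_apply, iterate_succ_apply']
  rw [e, e] at h1
  have h2 := hu (a := f (f^[n] (g^[m] x))) (b := f (f^[n] (g^[m] y))) (by linarith)
  rw [f.symm_apply_apply, f.symm_apply_apply] at h2
  exact h2.le

theorem dbl_of_image_iter [CompactSpace M] (hc : ∀ x, f (g x) = g (f x)) (k : ℕ) {x y : M}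
    (h : Dbl f g (f^[k] x) (f^[k] y)) : Dbl f g x y := by
  induction k generalizing x y with
  | zero => exact h
  | succ k ih =>
    rw [iterate_succ_apply, iterate_succ_apply] at h
    exact dbl_of_image hc (ih h)

theorem dbl_of (hc : ∀ x, f (g x) = g (f x)) (hd : Dec g ε C l) {x z : M}
    (h : ∀ k, f^[k] z ∈ Wl g ε (f^[k] x)) {u : ℕ → ℝ}
    (hb : ∀ k, dist (f^[k] z) (f^[k] x) ≤ u k) (hu : Tendsto u atTop (𝓝 0)) : Dbl f g x z := by
  obtain ⟨B, hB⟩ := hu.bddAbove_range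
  have hB' : ∀ k, u k ≤ B := fun k => hB ⟨k, rfl⟩
  have hC0 : 0 ≤ C := by linarith [hd.one_le]
  have hu0 : ∀ k, 0 ≤ u k := fun k => dist_nonneg.trans (hb k)
  have hB0 : 0 ≤ B := (hu0 0).trans (hB' 0)
  have hl0 := hd.l_pos.le
  have hl1 := hd.l_lt.le
  intro η hη
  have t1 : Tendsto (fun k => C * u k) atTop (𝓝 0) := by
    have := hu.const_mul C
    rwa [mul_zero] at this
  have t2 : Tendsto (fun k : ℕ => C * B * l ^ k) atTop (𝓝 0) := by
    have := (tendsto_pow_atTop_nhds_zero_of_lt_one hl0 hd.l_lt).const_mul (C * B)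
    rwa [mul_zero] at this
  obtain ⟨K₁, hK₁⟩ := eventually_atTop.1 (t1.eventually (gt_mem_nhds hη))
  obtain ⟨K₂, hK₂⟩ := eventually_atTop.1 (t2.eventually (gt_mem_nhds hη))
  refine ⟨K₁ + K₂, fun n m hnm => ?_⟩
  rw [comm_iter hc, comm_iter hc, dist_comm]
  have h1 : dist (g^[m] (f^[n] z)) (g^[m] (f^[n] x)) ≤ C * l ^ m * u n :=
    (hd.dec _ _ (h n) m).trans (mul_le_mul_of_nonneg_left (hb n) (by positivity))
  refine h1.trans ?_
  rcases le_or_gt K₁ n with hn | hn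
  · refine le_trans ?_ (hK₁ n hn).le
    have h2 : l ^ m ≤ 1 := pow_le_one₀ hl0 hl1
    calc C * l ^ m * u n = C * u n * l ^ m := by ring
      _ ≤ C * u n * 1 := mul_le_mul_of_nonneg_left h2 (mul_nonneg hC0 (hu0 n))
      _ = C * u n := by ring
  · refine le_trans ?_ (hK₂ m (by omega)).le
    calc C * l ^ m * u n ≤ C * l ^ m * B := mul_le_mul_of_nonneg_left (hB' n) (by positivity)
      _ = C * B * l ^ m := by ring

/-- The bracket construction: all brackets of `f^k x`, `f^k y` are on one orbit. -/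
theorem core (hc : ∀ x, f (g x) = g (f x)) (hg : Br g ε C) {ε₁ δ : ℝ} (h1 : ε₁ ≤ ε)
    (hu : ∀ a b, dist a b ≤ ε₁ → dist (f a) (f b) ≤ ε)
    (hδ : ∀ x y, dist x y < δ → ∃ z, z ∈ Wl g ε₁ x ∧ z ∈ Wl g.symm ε₁ y) {x y : M}
    (hxy : ∀ k, dist (f^[k] x) (f^[k] y) < δ) :
    ∃ z, ∀ k, f^[k] z ∈ Wl g ε₁ (f^[k] x) ∧ f^[k] z ∈ Wl g.symm ε₁ (f^[k] y) := by
  choose Z hZ1 hZ2 using fun k => hδ _ _ (hxy k)
  have hcs : ∀ x, f (g.symm x) = g.symm (f x) := fun x => (comm_symm (fun x => (hc x).symm) x).symm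
  have hstep : ∀ k, f (Z k) = Z (k + 1) := by
    intro k
    refine hg.unique (f^[k + 1] x) (f^[k + 1] y) _ _ ?_ ?_ (H1.wl_mono (hZ1 (k + 1)) h1)
      (H1.wl_mono (hZ2 (k + 1)) h1)
    · intro n
      have e : ∀ w : M, g^[n] (f w) = f (g^[n] w) := fun w => (comm_iter hc 1 n w).symm
      rw [iterate_succ_apply', e, e]
      exact hu _ _ (hZ1 k n)
    · intro n
      have e : ∀ w : M, g.symm^[n] (f w) = f (g.symm^[n] w) :=
        fun w => (comm_iter hcs 1 n w).symm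
      rw [iterate_succ_apply', e, e]
      exact hu _ _ (hZ2 k n)
  have hall : ∀ k, f^[k] (Z 0) = Z k := by
    intro k
    induction k with
    | zero => rfl
    | succ k ih => rw [iterate_succ_apply', ih, hstep]
  exact ⟨Z 0, fun k => by rw [hall k]; exact ⟨hZ1 k, hZ2 k⟩⟩

/-- (3.1) from `k = 0`, at a given scale. -/
theorem exists_core [CompactSpace M] (h : Pair f g ε C l) {ε' : ℝ} (hε' : 0 < ε') :
    ∃ δ : ℝ, 0 < δ ∧ ∀ x y, FwdAsymp f x y → (∀ k, dist (f^[k] x) (f^[k] y) < δ) →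
      ∃ z, (∀ k, f^[k] z ∈ Wl g ε' (f^[k] x) ∧ f^[k] z ∈ Wl g ε (f^[k] x) ∧
        f^[k] z ∈ Wl g.symm ε (f^[k] y)) ∧ Dbl f g x z ∧ Dbl f g.symm z y := by
  have hε := h.two.br.ε_pos
  obtain ⟨ε₀, hε₀, hu⟩ := Metric.uniformContinuous_iff.1
    (CompactSpace.uniformContinuous_of_continuous f.continuous) ε hε
  set ε₁ : ℝ := min (ε₀ / 2) (min ε ε') with hε₁
  have hε₁pos : 0 < ε₁ := lt_min (by positivity) (lt_min hε hε')
  have h1 : ε₁ ≤ ε := (min_le_right _ _).trans (min_le_left _ _)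
  have h2 : ε₁ ≤ ε' := (min_le_right _ _).trans (min_le_right _ _)
  have h3 : ε₁ ≤ ε₀ / 2 := min_le_left _ _
  obtain ⟨δ, hδ, hbr⟩ := h.two.br.exist ε₁ hε₁pos
  refine ⟨δ, hδ, fun x y hxy hclose => ?_⟩
  obtain ⟨z, hz⟩ := core h.comm h.two.br h1
    (fun a b hab => (hu (a := a) (b := b) (by linarith)).le) hbr hclose
  have hz1 : ∀ k, f^[k] z ∈ Wl g ε (f^[k] x) := fun k => H1.wl_mono (hz k).1 h1
  have hz2 : ∀ k, f^[k] z ∈ Wl g.symm ε (f^[k] y) := fun k => H1.wl_mono (hz k).2 h1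
  have hu0 : Tendsto (fun k => C * dist (f^[k] x) (f^[k] y)) atTop (𝓝 0) := by
    have := (show Tendsto (fun k : ℕ => dist (f^[k] x) (f^[k] y)) atTop (𝓝 0) from hxy).const_mul C
    rwa [mul_zero] at this
  refine ⟨z, fun k => ⟨H1.wl_mono (hz k).1 h2, hz1 k, hz2 k⟩, ?_, ?_⟩
  · exact dbl_of h.comm h.two.decs hz1 (fun k => h.two.br.left _ _ _ (hz1 k) (hz2 k)) hu0
  · exact dbl_symm (dbl_of h.symm_right.comm h.two.decu hz2
      (fun k => h.two.br.right _ _ _ (hz1 k) (hz2 k)) hu0)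

theorem prod1 [CompactSpace M] (h : Pair f g ε C l) {x y : M} (hxy : FwdAsymp f x y) :
    ∃ z, Dbl f g x z ∧ Dbl f g.symm z y := by
  obtain ⟨δ, hδ, H⟩ := exists_core h one_pos
  obtain ⟨k₀, hk₀⟩ := eventually_atTop.1 ((show Tendsto (fun k : ℕ => dist (f^[k] x) (f^[k] y))
    atTop (𝓝 0) from hxy).eventually (gt_mem_nhds hδ))
  obtain ⟨z, -, h1, h2⟩ := H (f^[k₀] x) (f^[k₀] y) (fa_iter k₀ hxy) (fun k => by
    rw [← iterate_add_apply, ← iterate_add_apply]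
    exact hk₀ _ (by omega))
  refine ⟨f.symm^[k₀] z, ?_, ?_⟩
  · refine dbl_of_image_iter h.comm k₀ ?_
    rw [iter_symm]; exact h1
  · refine dbl_of_image_iter h.symm_right.comm k₀ ?_
    rw [iter_symm]; exact h2

theorem prod2 (h : Pair f g ε C l) {x y : M} (h1 : Dbl f g x y) (h2 : Dbl f g.symm x y) :
    x = y := by
  have hε := h.two.br.ε_pos
  obtain ⟨K, hK⟩ := h1 ε hε
  obtain ⟨K', hK'⟩ := h2 ε hε
  have e : f^[K + K'] x = f^[K + K'] y := by
    refine h.two.expConst _ _ (fun m => ?_) (fun m => ?_)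
    · rw [← comm_iter h.comm, ← comm_iter h.comm]
      exact hK _ _ (by omega)
    · rw [← comm_iter h.symm_right.comm, ← comm_iter h.symm_right.comm]
      exact hK' _ _ (by omega)
  exact (f.injective.iterate (K + K')) e

theorem prod3 [CompactSpace M] (h : Pair f g ε C l) {ε' : ℝ} (hε' : 0 < ε') :
    ∃ δ : ℝ, 0 < δ ∧ ∀ x y, Dbl f g x y → y ∈ Wl f δ x → y ∈ Wl g ε' x := by
  obtain ⟨δ, hδ, H⟩ := exists_core h hε'
  refine ⟨δ / 2, by positivity, fun x y hd hw => ?_⟩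
  obtain ⟨z, hz, h1, h2⟩ := H x y (dbl_fwd hd) (fun k => by
    have := hw k
    rw [dist_comm]; linarith)
  have e : z = y := prod2 h (dbl_trans (dbl_symm h1) hd) h2
  rw [← e]
  exact (hz 0).1

theorem prod4 [CompactSpace M] (h : Pair f g ε C l) :
    ∃ δ : ℝ, 0 < δ ∧ ∀ x y, y ∈ Wl f δ x → y ∈ Wl g δ x →
      Dbl f g x y ∧ ∀ n m : ℕ, dist (f^[n] (g^[m] y)) (f^[n] (g^[m] x)) ≤
        C ^ 2 * l ^ (n + m) * dist y x := by
  have hε := h.two.br.ε_pos
  have hC1 := h.one.br.one_le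
  have hl0 := h.one.decs.l_pos
  have hl1 := h.one.decs.l_lt
  obtain ⟨δ, hδ, H⟩ := exists_core h one_pos
  refine ⟨min (δ / 2) ε, lt_min (by positivity) hε, fun x y hf hg => ?_⟩
  have hf' : y ∈ Wl f ε x := H1.wl_mono hf (min_le_right _ _)
  have hg' : y ∈ Wl g ε x := H1.wl_mono hg (min_le_right _ _)
  have hdec := h.one.decs.dec x y hf'
  have hfa : FwdAsymp f x y := by
    have t : Tendsto (fun n : ℕ => C * l ^ n * dist y x) atTop (𝓝 0) := by
      have := ((tendsto_pow_atTop_nhds_zero_of_lt_one hl0.le hl1).const_mul C).mul_const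
        (dist y x)
      rwa [mul_zero, zero_mul] at this
    exact squeeze_zero (fun _ => dist_nonneg) (fun n => by rw [dist_comm]; exact hdec n) t
  obtain ⟨z, hz, h1, -⟩ := H x y hfa (fun k => by
    have h1 := hf k
    have h2 : min (δ / 2) ε ≤ δ / 2 := min_le_left _ _
    rw [dist_comm]; linarith)
  have e : z = y := h.two.br.unique x y z y (hz 0).2.1 (hz 0).2.2 hg'
    (H1.wl_self hε.le y)
  subst e
  refine ⟨h1, fun n m => ?_⟩
  rw [comm_iter h.comm, comm_iter h.comm]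
  have h3 := h.two.decs.dec _ _ (hz n).2.1 m
  refine h3.trans ?_
  calc C * l ^ m * dist (f^[n] z) (f^[n] x) ≤ C * l ^ m * (C * l ^ n * dist z x) :=
        mul_le_mul_of_nonneg_left (hdec n) (by positivity)
    _ = C ^ 2 * l ^ (n + m) * dist z x := by rw [pow_add]; ring

theorem prod5 [CompactSpace M] (h : Pair f g ε C l) :
    ∃ δ : ℝ, 0 < δ ∧ ∀ ε' ≤ δ, IsClosed {p : M × M | p.2 ∈ Lf f g ε' p.1} := by
  obtain ⟨δ₄, hδ₄, H4⟩ := prod4 h
  obtain ⟨δ₃, hδ₃, H3⟩ := prod3 h hδ₄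
  refine ⟨min δ₃ δ₄, lt_min hδ₃ hδ₄, fun ε' hε' => ?_⟩
  have e : {p : M × M | p.2 ∈ Lf f g ε' p.1} =
      {p : M × M | p.2 ∈ Wl f ε' p.1} ∩ {p : M × M | p.2 ∈ Wl g δ₄ p.1} := by
    ext p
    constructor
    · rintro ⟨h1, h2⟩
      exact ⟨h1, H3 _ _ h2 (H1.wl_mono h1 (hε'.trans (min_le_left _ _)))⟩
    · rintro ⟨h1, h2⟩
      exact ⟨h1, (H4 _ _ (H1.wl_mono h1 (hε'.trans (min_le_right _ _))) h2).1⟩
  rw [e]
  exact (H1.isClosed_wl f ε').inter (H1.isClosed_wl g δ₄)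

end PRODAux

theorem specProd : SpecProd.{u} := fun _ _ _ _ _ _ _ _ h =>
  ⟨fun _ _ hxy => PRODAux.prod1 h hxy, fun _ _ h1 h2 => PRODAux.prod2 h h1 h2,
    fun _ hε' => PRODAux.prod3 h hε', PRODAux.prod4 h, PRODAux.prod5 h⟩

end Pool.Agent.Lib.MP610fe3.HR
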