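import Pool.Agent.Lib.MP_610fe3_an.HR.Spec
import Pool.Agent.Lib.MP_610fe3_an.Cf.Basic

/-!
# TRANS: the transport between nearby leaves and the Lebesgue number, (6.7)
-/

set_option autoImplicit false

open Set Filter Function
open scoped Topology

namespace Pool.Agent.Lib.MP610fe3.HR

open Cf CH

universe u

namespace TRANSAux

/-- A function with a closed graph and values in a compact set is continuous. -/
theorem contOn_of_graph {X Y : Type*} [TopologicalSpace X] [TopologicalSpace Y] [T2Space Y]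
    {S : Set X} {K : Set Y} (hK : IsCompact K) {φ : X → Y} {G : Set (X × Y)} (hG : IsClosed G)
    (hm : ∀ x ∈ S, φ x ∈ K ∧ (x, φ x) ∈ G)
    (hu : ∀ x ∈ S, ∀ y ∈ K, (x, y) ∈ G → y = φ x) : ContinuousOn φ S := by
  intro x hx
  refine hK.tendsto_nhds_of_unique_mapClusterPt ?_ fun y hy hc => hu x hx y hy ?_
  · filter_upwards [self_mem_nhdsWithin] with z hz using (hm z hz).1
  · obtain ⟨U, hU, hUy⟩ := mapClusterPt_iff_ultrafilter.1 hc
    have h1 : Tendsto (fun z : X => z) U (𝓝 x) :=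
      (tendsto_id (x := (U : Filter X))).mono_right (hU.trans nhdsWithin_le_nhds)
    refine hG.mem_of_tendsto (h1.prodMk_nhds hUy) ?_
    have h2 : ∀ᶠ z in (U : Filter X), z ∈ S := hU self_mem_nhdsWithin
    filter_upwards [h2] with z hz using (hm z hz).2

variable {M : Type u} [MetricSpace M] {f g : M ≃ₜ M} {θ : ℝ} {p : M} {H : ℝ → ℝ → M}

theorem asymp_of_wl {ε C l : ℝ} (hd : Dec f ε C l) {x z : M} (hz : z ∈ Wl f ε x) :
    FwdAsymp f z x := by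
  have h1 : Tendsto (fun n : ℕ => C * l ^ n * dist z x) atTop (𝓝 0) := by
    have := ((tendsto_pow_atTop_nhds_zero_of_lt_one hd.l_pos.le hd.l_lt).const_mul C).mul_const
      (dist z x)
    simpa using this
  exact squeeze_zero (fun _ => dist_nonneg) (fun n => hd.dec x z hz n) h1

theorem iter_H (pl : Plane f g θ p H) (k : ℕ) (τ r : ℝ) : f^[k] (H τ r) = H (τ + k) r := by
  induction k generalizing τ with
  | zero => simp
  | succ k ih =>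
    rw [iterate_succ_apply, pl.eqf, ih]
    congr 1
    push_cast
    ring

theorem cont_left (pl : Plane f g θ p H) (r : ℝ) : Continuous fun τ => H τ r :=
  pl.cont.comp (continuous_id.prodMk continuous_const)

theorem cont_right (pl : Plane f g θ p H) (τ : ℝ) : Continuous fun r => H τ r :=
  pl.cont.comp (continuous_const.prodMk continuous_id)

/-- The base curve is uniformly continuous on half lines. -/
theorem base_unif (pl : Plane f g θ p H) (τ₀ σ : ℝ) (hσ : 0 < σ) :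
    ∃ δ : ℝ, 0 < δ ∧ ∀ τ, τ₀ ≤ τ → ∀ τ', τ₀ ≤ τ' → |τ - τ'| ≤ δ → dist (H τ 0) (H τ' 0) ≤ σ := by
  have h1 : Continuous fun τ : ℝ => H (‖τ‖ + τ₀) 0 :=
    (cont_left pl 0).comp (continuous_norm.add continuous_const)
  have h2 : Tendsto (fun τ : ℝ => H (‖τ‖ + τ₀) 0) (cocompact ℝ) (𝓝 p) :=
    pl.lim.comp (tendsto_atTop_add_const_right _ τ₀ tendsto_norm_cocompact_atTop)
  have h3 := h1.uniformContinuous_of_tendsto_cocompact h2
  obtain ⟨δ, hδ, hd⟩ := Metric.uniformContinuous_iff.1 h3 σ hσ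
  refine ⟨δ / 2, by positivity, fun τ hτ τ' hτ' h => ?_⟩
  have h4 := hd (a := τ - τ₀) (b := τ' - τ₀) (by
    rw [Real.dist_eq]
    have : τ - τ₀ - (τ' - τ₀) = τ - τ' := by ring
    rw [this]
    linarith)
  have e1 : ‖τ - τ₀‖ + τ₀ = τ := by
    rw [Real.norm_eq_abs, abs_of_nonneg (by linarith)]; ring
  have e2 : ‖τ' - τ₀‖ + τ₀ = τ' := by
    rw [Real.norm_eq_abs, abs_of_nonneg (by linarith)]; ring
  simp only [e1, e2] at h4
  exact h4.le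

theorem base_wl (pl : Plane f g θ p H) (τ₀ σ : ℝ) (hσ : 0 < σ) :
    ∃ δ : ℝ, 0 < δ ∧ ∀ τ, τ₀ ≤ τ → ∀ τ', τ₀ ≤ τ' → |τ - τ'| ≤ δ → H τ 0 ∈ Wl f σ (H τ' 0) := by
  obtain ⟨δ, hδ, hd⟩ := base_unif pl τ₀ σ hσ
  refine ⟨δ, hδ, fun τ hτ τ' hτ' h k => ?_⟩
  rw [iter_H pl, iter_H pl]
  have hk : (0 : ℝ) ≤ k := Nat.cast_nonneg k
  refine hd _ (by linarith) _ (by linarith) ?_
  have : τ + k - (τ' + k) = τ - τ' := by ring
  rw [this]
  exact h

theorem closed_wl (a : M ≃ₜ M) (σ : ℝ) {X : Type*} [TopologicalSpace X] {u v : X → M}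
    (hu : Continuous u) (hv : Continuous v) : IsClosed {x | u x ∈ Wl a σ (v x)} :=
  (isClosed_Wl_prod a σ).preimage (hv.prodMk hu)

/-- The point of the leaf at height `1` does not jump. -/
theorem top_near {ε C : ℝ} (hb : Br f ε C) (pl : Plane f g θ p H) (σ τ₀ τ₁ r₀ : ℝ)
    (hσε : σ ≤ ε) (hs : ∀ τ ∈ Icc τ₀ τ₁, H τ 1 ∈ Wl f.symm σ (H τ 0)) :
    ∃ δ : ℝ, 0 < δ ∧ ∀ τ ∈ Icc τ₀ τ₁, ∀ τ' ∈ Icc τ₀ τ₁, |τ - τ'| ≤ δ → ∀ ρ ∈ Icc (-r₀) 0,
      H τ ρ ∈ Wl f σ (H τ' 1) → H τ ρ ∈ Wl f.symm σ (H τ 0) → False := by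
  set K : Set (ℝ × ℝ × ℝ) := (Icc τ₀ τ₁ ×ˢ Icc τ₀ τ₁ ×ˢ Icc (-r₀) 0) ∩
    ({t | H t.1 t.2.2 ∈ Wl f σ (H t.2.1 1)} ∩ {t | H t.1 t.2.2 ∈ Wl f.symm σ (H t.1 0)}) with hKd
  have c1 : Continuous fun t : ℝ × ℝ × ℝ => H t.1 t.2.2 :=
    pl.cont.comp (continuous_fst.prodMk (continuous_snd.comp continuous_snd))
  have c2 : Continuous fun t : ℝ × ℝ × ℝ => H t.2.1 1 :=
    pl.cont.comp ((continuous_fst.comp continuous_snd).prodMk continuous_const)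
  have c3 : Continuous fun t : ℝ × ℝ × ℝ => H t.1 0 :=
    pl.cont.comp (continuous_fst.prodMk continuous_const)
  have hK : IsCompact K :=
    (isCompact_Icc.prod (isCompact_Icc.prod isCompact_Icc)).inter_right
      ((closed_wl f σ c1 c2).inter (closed_wl f.symm σ c1 c3))
  rcases K.eq_empty_or_nonempty with he | hne
  · refine ⟨1, one_pos, fun τ hτ τ' hτ' _ ρ hρ h1 h2 => ?_⟩
    have : ((τ, τ', ρ) : ℝ × ℝ × ℝ) ∈ K := ⟨⟨hτ, hτ', hρ⟩, h1, h2⟩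
    rw [he] at this
    exact this
  · have c4 : Continuous fun t : ℝ × ℝ × ℝ => |t.1 - t.2.1| := by fun_prop
    obtain ⟨t, htK, ht⟩ := hK.exists_isMinOn hne c4.continuousOn
    have hpos : 0 < |t.1 - t.2.1| := by
      rw [abs_pos]
      intro h0
      have e : t.2.1 = t.1 := by linarith
      obtain ⟨⟨h1, -, h3⟩, h4, h5⟩ := htK
      simp only [mem_ofPred_eq] at h4 h5
      rw [e] at h4
      have h6 := hb.unique (H t.1 1) (H t.1 0) (H t.1 t.2.2) (H t.1 1)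
        (Wl_mono hσε h4) (Wl_mono hσε h5) (mem_Wl_self hb.ε_pos.le) (Wl_mono hσε (hs _ h1))
      have h7 := pl.inj _ _ _ h6
      have h8 := h3.2
      linarith
    refine ⟨|t.1 - t.2.1| / 2, by positivity, fun τ hτ τ' hτ' hd ρ hρ h1 h2 => ?_⟩
    have h3 : ((τ, τ', ρ) : ℝ × ℝ × ℝ) ∈ K := ⟨⟨hτ, hτ', hρ⟩, h1, h2⟩
    have h4 : |t.1 - t.2.1| ≤ |τ - τ'| := ht h3
    linarith

end TRANSAux

open TRANSAux

theorem specTrans (hC : SpecComm.{u}) : SpecTrans.{u} := by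
  intro M _ _ f g ε C l θ p H R hP hirr hθ hcut η hη
  have pl := hcut.plane
  have hb := hP.one.br
  have hε := hb.ε_pos
  obtain ⟨ηc, hηc, hcomm⟩ := hC M f g ε C l θ p H hP hirr hθ pl
  obtain ⟨εp, hεp, hprop⟩ := pl.proper
  obtain ⟨σ, hσ, s1, s2, s3, s4⟩ : ∃ σ : ℝ, 0 < σ ∧ σ ≤ η ∧ σ ≤ ηc ∧ σ ≤ εp ∧ 2 * σ ≤ ε := by
    refine ⟨min (min η ηc) (min εp (ε / 2)), by positivity, ?_, ?_, ?_, ?_⟩
    · exact (min_le_left _ _).trans (min_le_left _ _)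
    · exact (min_le_left _ _).trans (min_le_right _ _)
    · exact (min_le_right _ _).trans (min_le_left _ _)
    · have : min (min η ηc) (min εp (ε / 2)) ≤ ε / 2 := (min_le_right _ _).trans (min_le_right _ _)
      linarith
  have s5 : σ ≤ ε := by linarith
  obtain ⟨δb, hδb, hbr⟩ := hb.exist σ hσ
  obtain ⟨T, hT⟩ := pl.small (min σ (δb / 4)) 1 (by positivity)
  set τ₀ : ℝ := T - 1 with hτ₀
  have hsm : ∀ τ ∈ Icc τ₀ (τ₀ + 1), ∀ r ∈ Icc (0 : ℝ) 1,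
      H τ r ∈ Wl f.symm σ (H τ 0) ∧ dist (H τ r) (H τ 0) ≤ δb / 4 := by
    intro τ hτ r hr
    have h1 := hT τ (by have := hτ.2; rw [hτ₀] at this; linarith) r
      (by rw [abs_of_nonneg hr.1]; exact hr.2)
    exact ⟨Wl_mono (min_le_left _ _) h1, (Wl_dist h1).trans (min_le_right _ _)⟩
  obtain ⟨δ₁, hδ₁, hw⟩ := base_wl pl τ₀ (min σ (δb / 4)) (by positivity)
  obtain ⟨r₀, hr₀⟩ := hprop τ₀ (τ₀ + 1)
  obtain ⟨δ₂, hδ₂, htop⟩ := top_near hb pl σ τ₀ (τ₀ + 1) r₀ s5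
    (fun τ hτ => (hsm τ hτ 1 ⟨zero_le_one, le_rfl⟩).1)
  refine ⟨τ₀, min δ₁ δ₂, lt_min hδ₁ hδ₂, fun τ hτ r hr => Wl_mono s1 (hsm τ hτ r hr).1, ?_⟩
  intro τ hτ τ' hτ' hd
  have hd1 : |τ - τ'| ≤ δ₁ := hd.trans (min_le_left _ _)
  have hd2 : |τ - τ'| ≤ δ₂ := hd.trans (min_le_right _ _)
  have hbase : H τ 0 ∈ Wl f (min σ (δb / 4)) (H τ' 0) := hw τ hτ.1 τ' hτ'.1 hd1
  -- the brackets
  have hex : ∀ r : ℝ, ∃ z, r ∈ Icc (0 : ℝ) 1 → z ∈ Wl f σ (H τ' r) ∧ z ∈ Wl f.symm σ (H τ 0) := by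
    intro r
    by_cases hr : r ∈ Icc (0 : ℝ) 1
    · obtain ⟨z, hz⟩ := hbr (H τ' r) (H τ 0) (by
        have h1 := (hsm τ' hτ' r hr).2
        have h2 : dist (H τ' 0) (H τ 0) ≤ δb / 4 := by
          rw [dist_comm]
          exact (Wl_dist hbase).trans (min_le_right _ _)
        have h3 := dist_triangle (H τ' r) (H τ' 0) (H τ 0)
        linarith)
      exact ⟨z, fun _ => hz⟩
    · exact ⟨H τ 0, fun h => absurd h hr⟩
  choose q hq using hex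
  have hqu : ∀ r ∈ Icc (0 : ℝ) 1, ∀ z, z ∈ Wl f σ (H τ' r) → z ∈ Wl f.symm σ (H τ 0) → z = q r :=
    fun r hr z h1 h2 => hb.unique (H τ' r) (H τ 0) z (q r) (Wl_mono s5 h1) (Wl_mono s5 h2)
      (Wl_mono s5 (hq r hr).1) (Wl_mono s5 (hq r hr).2)
  have hqc : ContinuousOn q (Icc 0 1) := by
    refine contOn_of_graph isCompact_univ
      (G := {t : ℝ × M | t.2 ∈ Wl f σ (H τ' t.1)} ∩ {t : ℝ × M | t.2 ∈ Wl f.symm σ (H τ 0)})
      ((closed_wl f σ continuous_snd ((cont_right pl τ').comp continuous_fst)).inter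
        (closed_wl f.symm σ continuous_snd continuous_const))
      (fun r hr => ⟨mem_univ _, (hq r hr).1, (hq r hr).2⟩)
      (fun r hr z _ hz => hqu r hr z hz.1 hz.2)
  have h01 : (0 : ℝ) ∈ Icc (0 : ℝ) 1 := ⟨le_rfl, zero_le_one⟩
  have h11 : (1 : ℝ) ∈ Icc (0 : ℝ) 1 := ⟨zero_le_one, le_rfl⟩
  have hq0 : q 0 = H τ 0 :=
    (hqu 0 h01 (H τ 0) (Wl_mono (min_le_left _ _) hbase) (mem_Wl_self hσ.le)).symm
  have hleaf := hcomm τ τ' q hqc (fun r hr => ⟨Wl_mono s2 (hq r hr).1, Wl_mono s2 (hq r hr).2⟩) hq0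
  -- the heights
  have hex2 : ∀ r : ℝ, ∃ s, r ∈ Icc (0 : ℝ) 1 → H τ s = q r := by
    intro r
    by_cases hr : r ∈ Icc (0 : ℝ) 1
    · obtain ⟨s, hs⟩ := pl.surj τ (q r) (hleaf r hr)
      exact ⟨s, fun _ => hs⟩
    · exact ⟨0, fun h => absurd h hr⟩
  choose ρ hρ using hex2
  have hρb : ∀ r ∈ Icc (0 : ℝ) 1, ρ r ∈ Icc (-r₀) r₀ := by
    intro r hr
    have h1 := hr₀ τ hτ (ρ r) (by rw [hρ r hr]; exact Wl_mono s3 (hq r hr).2)
    exact abs_le.1 h1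
  have hρc : ContinuousOn ρ (Icc 0 1) := by
    refine contOn_of_graph (isCompact_Icc (a := -r₀) (b := r₀))
      (G := {t : ℝ × ℝ | H τ t.2 ∈ Wl f σ (H τ' t.1)} ∩ {t : ℝ × ℝ | H τ t.2 ∈ Wl f.symm σ (H τ 0)})
      ((closed_wl f σ ((cont_right pl τ).comp continuous_snd)
        ((cont_right pl τ').comp continuous_fst)).inter
        (closed_wl f.symm σ ((cont_right pl τ).comp continuous_snd) continuous_const))
      (fun r hr => ⟨hρb r hr, by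
        change H τ (ρ r) ∈ Wl f σ (H τ' r)
        rw [hρ r hr]; exact (hq r hr).1, by
        change H τ (ρ r) ∈ Wl f.symm σ (H τ 0)
        rw [hρ r hr]; exact (hq r hr).2⟩)
      (fun r hr s _ hs => pl.inj τ _ _ ((hqu r hr (H τ s) hs.1 hs.2).trans (hρ r hr).symm))
  have hρ0 : ρ 0 = 0 := pl.inj τ _ _ ((hρ 0 h01).trans hq0)
  have hzero : ∀ r ∈ Icc (0 : ℝ) 1, ρ r = 0 → r = 0 := by
    intro r hr h
    have e1 : q r = H τ 0 := by rw [← hρ r hr, h]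
    have h1 : H τ' r ∈ Wl f (σ + σ) (H τ' 0) := by
      refine Wl_trans ?_ (Wl_comm (e1 ▸ (hq r hr).1))
      exact Wl_mono (min_le_left _ _) hbase
    have h2 := hb.unique (H τ' 0) (H τ' 0) (H τ' r) (H τ' 0) (Wl_mono (by linarith) h1)
      (Wl_mono s5 (hsm τ' hτ' r hr).1) (mem_Wl_self hε.le) (mem_Wl_self hε.le)
    exact pl.inj τ' _ _ h2
  have hpos1 : 0 < ρ 1 := by
    by_contra hn
    refine htop τ hτ τ' hτ' hd2 (ρ 1) ⟨(hρb 1 h11).1, not_lt.1 hn⟩ ?_ ?_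
    · rw [hρ 1 h11]; exact (hq 1 h11).1
    · rw [hρ 1 h11]; exact (hq 1 h11).2
  have hlow : ∀ r ∈ Icc (0 : ℝ) 1, 0 ≤ ρ r := by
    intro r hr
    by_contra hn
    push Not at hn
    obtain ⟨s, hs, hs0⟩ := intermediate_value_Icc hr.2
      (hρc.mono (Icc_subset_Icc_left hr.1)) ⟨hn.le, hpos1.le⟩
    have h1 := hzero s ⟨hr.1.trans hs.1, hs.2⟩ hs0
    have h2 : r = 0 := le_antisymm (h1 ▸ hs.1) hr.1
    rw [h2, hρ0] at hn
    exact lt_irrefl _ hn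
  have hR : ∀ r ∈ Icc (0 : ℝ) 1, ρ r = 1 → r = 1 := by
    intro r hr h
    by_contra hne
    have hlt : r < 1 := lt_of_le_of_ne hr.2 hne
    refine hcut.below τ' r (by rw [abs_of_nonneg hr.1]; exact hlt) ?_
    refine hcut.sat (H τ 1) (hcut.top τ) _ ?_
    have e1 : q r = H τ 1 := by rw [← hρ r hr, h]
    have h1 : H τ 1 ∈ Wl f ε (H τ' r) := Wl_mono s5 (e1 ▸ (hq r hr).1)
    exact asymp_of_wl hP.one.decs h1
  have hup : ∀ r ∈ Icc (0 : ℝ) 1, ρ r ≤ 1 := by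
    intro r hr
    by_contra hn
    push Not at hn
    obtain ⟨s, hs, hs1⟩ := intermediate_value_Icc hr.1
      (hρc.mono (Icc_subset_Icc_right hr.2)) ⟨by rw [hρ0]; exact zero_le_one, hn.le⟩
    have h1 := hR s ⟨hs.1, hs.2.trans hr.2⟩ hs1
    have h2 : s = r := le_antisymm hs.2 (by rw [h1]; exact hr.2)
    rw [h2] at hs1
    rw [hs1] at hn
    exact lt_irrefl _ hn
  intro r hr
  refine ⟨ρ r, ⟨hlow r hr, hup r hr⟩, ?_⟩
  rw [hρ r hr]
  exact Wl_mono s1 (hq r hr).1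

end Pool.Agent.Lib.MP610fe3.HR
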