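import Pool.Agent.Lib.MP_610fe3_an.HR.Spec2
import Pool.Agent.Lib.MP_610fe3_an.HR.PROD
import Pool.Agent.Lib.MP_610fe3_an.HR.TRANS

/-!
# Modules COMMR and POW
-/

set_option autoImplicit false

open Set Filter Function
open scoped Topology

namespace Pool.Agent.Lib.MP610fe3.HR

open Cf CH

universe u

namespace COMMRAux

variable {M : Type u} [MetricSpace M] {f g : M ≃ₜ M} {θ : ℝ} {p : M} {H : ℝ → ℝ → M}

theorem iter_g (pl : Plane f g θ p H) (k : ℕ) (τ r : ℝ) : g^[k] (H τ r) = H (τ - k * θ) r := by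
  induction k generalizing τ with
  | zero => simp
  | succ k ih =>
    rw [iterate_succ_apply, pl.eqg, ih]
    congr 1
    push_cast
    ring

theorem cc_plane (pl : Plane f g θ p H) {a b : ℕ} (hab : θ * b = a) (τ r : ℝ) :
    cc f g a b (H τ r) = H τ r := by
  simp only [cc]
  rw [iter_g pl, TRANSAux.iter_H pl]
  congr 1
  rw [← hab]
  ring

end COMMRAux

open COMMRAux in
theorem specCommr (hFix : SpecFix.{u}) : SpecCommr.{u} := by
  intro M _ _ f g ε C l θ p H a b P ha hb hab pl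
  obtain ⟨-, h2, ⟨η, hη, h3⟩, -⟩ := hFix M f g ε C l P a b ha hb
  have hc := cc_plane pl hab
  refine ⟨min η ε, lt_min hη P.one.br.ε_pos, fun τ τ' q _ hq2 _ r hr => ?_⟩
  obtain ⟨e1, e2⟩ := hq2 r hr
  have e3 := h3 _ _ _ (hc τ' r) (hc τ 0) (Wl_mono (min_le_left _ _) e1)
    (Wl_mono (min_le_left _ _) e2)
  have e4 : FwdAsymp f.symm (q r) (H τ 0) :=
    TRANSAux.asymp_of_wl P.one.decu (Wl_mono (min_le_right _ _) e2)
  exact PRODAux.dbl_symm (h2 _ _ e3 (hc τ 0) e4)

namespace POWAux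

variable {M : Type u} [MetricSpace M] [CompactSpace M]

/-- Uniform continuity of finitely many maps. -/
theorem unif {φ : ℕ → M → M} (hφ : ∀ i, Continuous (φ i)) (k : ℕ) {η : ℝ} (hη : 0 < η) :
    ∃ δ : ℝ, 0 < δ ∧ ∀ i < k, ∀ x y, dist x y ≤ δ → dist (φ i x) (φ i y) ≤ η := by
  induction k with
  | zero => exact ⟨1, one_pos, fun i hi => absurd hi (Nat.not_lt_zero i)⟩
  | succ k ih =>
    obtain ⟨δ, hδ, h⟩ := ih
    obtain ⟨δ', hδ', h'⟩ := Metric.uniformContinuous_iff.1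
      (CompactSpace.uniformContinuous_of_continuous (hφ k)) η hη
    refine ⟨min δ (δ' / 2), by positivity, fun i hi x y hxy => ?_⟩
    rcases Nat.lt_succ_iff_lt_or_eq.1 hi with h1 | rfl
    · exact h i h1 x y (hxy.trans (min_le_left _ _))
    · have h2 := hxy.trans (min_le_right _ _)
      exact (h' (a := x) (b := y) (by linarith)).le

end POWAux

open POWAux in
theorem specPow : SpecPow.{u} := by
  intro M _ _ f g F G k hfg hk hF hG
  have hF' : ∀ (n : ℕ) (z : M), F^[n] z = f^[k * n] z := by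
    intro n z
    have : (F : M → M) = f^[k] := funext hF
    rw [this, ← iterate_mul]
  have hG' : ∀ (n : ℕ) (z : M), G^[n] z = g^[k * n] z := by
    intro n z
    have : (G : M → M) = g^[k] := funext hG
    rw [this, ← iterate_mul]
  have hcf : ∀ i, Continuous (f^[i]) := fun i => f.continuous.iterate i
  have hcg : ∀ i, Continuous (g^[i]) := fun i => g.continuous.iterate i
  refine ⟨fun x y h ε hε => ?_, fun δ hδ => ?_⟩
  · obtain ⟨δ₁, hδ₁, h1⟩ := unif hcf k hε
    obtain ⟨δ₂, hδ₂, h2⟩ := unif hcg k hδ₁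
    obtain ⟨K, hK⟩ := h δ₂ hδ₂
    refine ⟨k * K + 2 * k, fun n m hnm => ?_⟩
    have e : ∀ z, f^[n] (g^[m] z) = f^[n % k] (g^[m % k] (F^[n / k] (G^[m / k] z))) := by
      intro z
      rw [hF', hG', ← PRODAux.comm_iter hfg (k * (n / k)) (m % k), ← iterate_add_apply,
        ← iterate_add_apply, Nat.mod_add_div, Nat.mod_add_div]
    rw [e, e]
    refine h1 _ (Nat.mod_lt _ hk) _ _ (h2 _ (Nat.mod_lt _ hk) _ _ (hK _ _ ?_))
    have e1 := Nat.div_add_mod n k
    have e2 := Nat.div_add_mod m k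
    have e3 := Nat.mod_lt n hk
    have e4 := Nat.mod_lt m hk
    have e5 : k * K < k * (n / k + m / k) := by
      rw [mul_add]
      omega
    exact (Nat.lt_of_mul_lt_mul_left e5).le
  · obtain ⟨δ₁, hδ₁, h1⟩ := unif hcf k hδ
    refine ⟨δ₁, hδ₁, fun x y h n => ?_⟩
    have e : ∀ z, f^[n] z = f^[n % k] (F^[n / k] z) := by
      intro z
      rw [hF', ← iterate_add_apply, Nat.mod_add_div]
    rw [e, e]
    exact h1 _ (Nat.mod_lt _ hk) _ _ (h _)

end Pool.Agent.Lib.MP610fe3.HR
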