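import Pool.Agent.Lib.MP_610fe3_an.HR.Spec2
import Pool.Agent.Lib.MP_610fe3_an.Cf.Basic

/-!
# CUTQ (R8): the first point of `A` above the half leaf is a continuous function
-/

set_option autoImplicit false

open Set Filter Function
open scoped Topology

namespace Pool.Agent.Lib.MP610fe3.HR

open Cf CH

universe u v

namespace CUTQAux

section

variable {M : Type u} [MetricSpace M] {f g : M ≃ₜ M} {θ : ℝ} {p : M} {K : ℝ → ℝ → M}

theorem f_K (pl : Plane f.symm g.symm θ p K) (τ r : ℝ) : f (K τ r) = K (τ - 1) r := by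
  have h := pl.eqf (τ - 1) r
  rw [sub_add_cancel] at h
  rw [← h, Homeomorph.apply_symm_apply]

theorem g_K (pl : Plane f.symm g.symm θ p K) (τ r : ℝ) : g (K τ r) = K (τ + θ) r := by
  have h := pl.eqg (τ + θ) r
  rw [add_sub_cancel_right] at h
  rw [← h, Homeomorph.apply_symm_apply]

theorem f_iter (pl : Plane f.symm g.symm θ p K) (n : ℕ) (τ r : ℝ) :
    f^[n] (K τ r) = K (τ - n) r := by
  induction n with
  | zero => simp
  | succ n ih =>
    rw [iterate_succ_apply', ih, f_K pl]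
    congr 1
    push_cast
    ring

theorem g_iter (pl : Plane f.symm g.symm θ p K) (n : ℕ) (τ r : ℝ) :
    g^[n] (K τ r) = K (τ + n * θ) r := by
  induction n with
  | zero => simp
  | succ n ih =>
    rw [iterate_succ_apply', ih, g_K pl]
    congr 1
    push_cast
    ring

theorem cc_K (pl : Plane f.symm g.symm θ p K) {a b : ℕ} (hab : θ * b = a) (τ r : ℝ) :
    HR.cc f g a b (K τ r) = K τ r := by
  unfold HR.cc
  rw [g_iter pl, f_iter pl]
  congr 1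
  rw [mul_comm] at hab
  rw [hab]
  ring

theorem cont_left (pl : Plane f.symm g.symm θ p K) (r : ℝ) : Continuous fun τ => K τ r :=
  pl.cont.comp (continuous_id.prodMk continuous_const)

theorem fwd_of_wl {a : M ≃ₜ M} {ε C l : ℝ} (h : Dec a ε C l)
    {x z : M} (hz : z ∈ Wl a ε x) : FwdAsymp a x z := by
  have h1 : Tendsto (fun n : ℕ => C * l ^ n * dist z x) atTop (𝓝 (C * 0 * dist z x)) :=
    ((tendsto_pow_atTop_nhds_zero_of_lt_one h.l_pos.le h.l_lt).const_mul C).mul_const _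
  rw [mul_zero, zero_mul] at h1
  refine squeeze_zero (fun _ => dist_nonneg) (fun n => ?_) h1
  rw [dist_comm]
  exact h.dec x z hz n

/-- A compact set of pairs which has no point above `τ` has no point above the points near
`τ`. -/
theorem off_proj {Z : Set (ℝ × ℝ)} (hZ : IsCompact Z) {τ : ℝ} (h : ∀ ρ, (τ, ρ) ∉ Z) :
    ∀ᶠ τ' in 𝓝 τ, ∀ ρ, (τ', ρ) ∉ Z := by
  have h1 : IsClosed (Prod.fst '' Z) := (hZ.image continuous_fst).isClosed
  have h2 : τ ∉ Prod.fst '' Z := by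
    rintro ⟨⟨x, ρ⟩, hx, rfl⟩
    exact h ρ hx
  filter_upwards [h1.isOpen_compl.mem_nhds h2] with τ' hτ' ρ hρ
  exact hτ' ⟨(τ', ρ), hρ, rfl⟩

theorem near (τ : ℝ) : ∀ᶠ τ' in 𝓝 τ, τ' ∈ Icc (τ - 1) (τ + 1) :=
  Icc_mem_nhds (by linarith) (by linarith)

/-- Near a point of `A` on the leaf of `τ` there are points of `A` on the leaves of the `τ'` near
`τ`. -/
theorem upper [CompactSpace M] (hD : SpecDbl.{u}) (hFix : SpecFix.{u}) {ε C l : ℝ} {A : Set M}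
    {a b : ℕ} (hP : Pair f g ε C l) (pl : Plane f.symm g.symm θ p K) (ha : 0 < a) (hb : 0 < b)
    (hab : θ * b = a) (hS : Sat f.symm A) {τ r c : ℝ} (hr : 0 < r) (hrc : r < c)
    (hrA : K τ r ∈ A) : ∀ᶠ τ' in 𝓝 τ, ∃ ρ ∈ Ioo (0 : ℝ) c, K τ' ρ ∈ A := by
  have br := hP.one.br
  have hε := br.ε_pos
  obtain ⟨F1, -, ⟨η, hη, F3⟩, -⟩ := hFix M f g ε C l hP a b ha hb
  obtain ⟨-, -, Dtr, -, -, -, -, -, -⟩ := hD M f g.symm hP.symm_right.comm
  obtain ⟨ε₁, hε₁, hprop⟩ := pl.proper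
  obtain ⟨T, hT⟩ := pl.small (ε₁ / 2) r (by positivity)
  obtain ⟨N, hN⟩ := exists_nat_gt (τ + 1 - T)
  obtain ⟨r₀, hr₀⟩ := hprop (τ - 1 - N) (τ + 1 - N)
  set σ : ℝ := min (min η (ε₁ / 2)) ε with hσd
  have hσ : 0 < σ := lt_min (lt_min hη (by positivity)) hε
  have s1 : σ ≤ η := (min_le_left _ _).trans (min_le_left _ _)
  have s2 : σ ≤ ε₁ / 2 := (min_le_left _ _).trans (min_le_right _ _)
  have s3 : σ ≤ ε := min_le_right _ _
  obtain ⟨δ, hδ, hbr⟩ := br.exist σ hσ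
  -- the compact set of bad pairs
  set Z : Set (ℝ × ℝ) := (Icc (τ - 1) (τ + 1) ×ˢ Icc (-r₀) r₀) ∩
    (({t | K t.1 t.2 ∈ Wl f σ (K t.1 r)} ∩ {t | K t.1 t.2 ∈ Wl f.symm σ (K τ r)}) ∩
      {t | t.2 ≤ 0 ∨ c ≤ t.2}) with hZd
  have c1 : Continuous fun t : ℝ × ℝ => K t.1 t.2 := pl.cont
  have c2 : Continuous fun t : ℝ × ℝ => K t.1 r :=
    pl.cont.comp (continuous_fst.prodMk continuous_const)
  have cl1 : IsClosed {t : ℝ × ℝ | K t.1 t.2 ∈ Wl f σ (K t.1 r)} :=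
    (isClosed_Wl_prod f σ).preimage (c2.prodMk c1)
  have cl2 : IsClosed {t : ℝ × ℝ | K t.1 t.2 ∈ Wl f.symm σ (K τ r)} :=
    (isClosed_Wl_prod f.symm σ).preimage (continuous_const.prodMk c1)
  have cl3 : IsClosed {t : ℝ × ℝ | t.2 ≤ 0 ∨ c ≤ t.2} :=
    (isClosed_le continuous_snd continuous_const).union
      (isClosed_le continuous_const continuous_snd)
  have hZ : IsCompact Z :=
    (isCompact_Icc.prod isCompact_Icc).inter_right ((cl1.inter cl2).inter cl3)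
  have hZτ : ∀ ρ, (τ, ρ) ∉ Z := by
    rintro ρ ⟨-, ⟨h1, h2⟩, h3⟩
    simp only [mem_ofPred_eq] at h1 h2 h3
    have h4 : K τ ρ = K τ r := br.unique (K τ r) (K τ r) _ _ (Wl_mono s3 h1) (Wl_mono s3 h2)
      (mem_Wl_self hε.le) (mem_Wl_self hε.le)
    have h5 : ρ = r := pl.inj _ _ _ h4
    rcases h3 with h3 | h3
    · linarith
    · linarith
  have hcl : ∀ᶠ τ' in 𝓝 τ, dist (K τ' r) (K τ r) < δ :=
    Metric.tendsto_nhds.1 ((cont_left pl r).tendsto τ) δ hδ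
  filter_upwards [off_proj hZ hZτ, near τ, hcl] with τ' h1 h2 h3
  obtain ⟨q, hq1, hq2⟩ := hbr _ _ h3
  have hqA : q ∈ A := hS _ hrA _ (fwd_of_wl hP.one.decu (Wl_mono s3 hq2))
  have hqc : HR.cc f g a b q = q :=
    F3 _ _ _ (cc_K pl hab τ' r) (cc_K pl hab τ r) (Wl_mono s1 hq1) (Wl_mono s1 hq2)
  have hqd : Dbl f g.symm (K τ' r) q :=
    F1 _ _ (cc_K pl hab τ' r) hqc (fwd_of_wl hP.one.decs (Wl_mono s3 hq1))
  have hqd' : Dbl f g.symm (K τ' 0) q := Dtr _ _ _ (pl.leaf τ' r) hqd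
  obtain ⟨ρ, hρ⟩ := pl.surj τ' q hqd'
  have hbd : |ρ| ≤ r₀ := by
    have h4 : K (τ' - N) r ∈ Wl f (ε₁ / 2) (K (τ' - N) 0) :=
      hT (τ' - N) (by linarith [h2.2]) r (by rw [abs_of_pos hr])
    have h5 : K (τ' - N) ρ ∈ Wl f σ (K (τ' - N) r) := by
      have h6 := Wl_iter hq1 N
      rw [← hρ, f_iter pl, f_iter pl] at h6
      exact h6
    refine hr₀ (τ' - N) ⟨by linarith [h2.1], by linarith [h2.2]⟩ ρ ?_
    exact Wl_mono (by linarith) (Wl_trans h4 h5)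
  have hρ2 := abs_le.1 hbd
  have h7 : ¬ (ρ ≤ 0 ∨ c ≤ ρ) := by
    intro h8
    refine h1 ρ ⟨⟨h2, hρ2⟩, ⟨?_, ?_⟩, h8⟩
    · show K τ' ρ ∈ Wl f σ (K τ' r)
      rw [hρ]
      exact hq1
    · show K τ' ρ ∈ Wl f.symm σ (K τ r)
      rw [hρ]
      exact hq2
  push Not at h7
  exact ⟨ρ, h7, by rw [hρ]; exact hqA⟩

/-- The lower bound for the first point. -/
theorem lower {A : Set M} (pl : Plane f.symm g.symm θ p K) (hA : IsClosed A) {τ ρ₀ c : ℝ}
    (h : ∀ ρ ∈ Icc ρ₀ c, K τ ρ ∉ A) : ∀ᶠ τ' in 𝓝 τ, ∀ ρ ∈ Icc ρ₀ c, K τ' ρ ∉ A := by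
  set Z : Set (ℝ × ℝ) := (Icc (τ - 1) (τ + 1) ×ˢ Icc ρ₀ c) ∩ {t | K t.1 t.2 ∈ A} with hZd
  have hZ : IsCompact Z :=
    (isCompact_Icc.prod isCompact_Icc).inter_right (hA.preimage pl.cont)
  have hZτ : ∀ ρ, (τ, ρ) ∉ Z := by
    rintro ρ ⟨h1, h2⟩
    exact h ρ h1.2 h2
  filter_upwards [off_proj hZ hZτ, near τ] with τ' h1 h2 ρ hρ hK
  exact h1 ρ ⟨⟨h2, hρ⟩, hK⟩

end

section

variable {M : Type u} [MetricSpace M] [CompactSpace M] {f g : M ≃ₜ M} {θ : ℝ} {p : M}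
  {K : ℝ → ℝ → M}

/-- The main step. -/
theorem main (hD : SpecDbl.{u}) (hFix : SpecFix.{u}) {ε C l : ℝ} {A : Set M}
    {a b : ℕ} {ρ₀ : ℝ} (hP : Pair f g ε C l) (pl : Plane f.symm g.symm θ p K) (ha : 0 < a)
    (hb : 0 < b) (hab : θ * b = a) (hA : IsClosed A) (hS : Sat f.symm A) (hfA : f '' A = A)
    (hgA : g '' A = A) (hρ₀ : 0 < ρ₀) (hlow : ∀ τ, ∀ ρ ∈ Ioo 0 ρ₀, K τ ρ ∉ A)
    (hex : ∀ τ, ∃ ρ : ℝ, 0 < ρ ∧ K τ ρ ∈ A) :
    ∃ H : ℝ → ℝ → M, Cut2 f.symm g.symm θ p H A := by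
  -- the set of heights and its least element
  set S : ℝ → Set ℝ := fun τ => {ρ | ρ₀ ≤ ρ ∧ K τ ρ ∈ A} with hSd
  have hSc : ∀ τ, IsClosed (S τ) := by
    intro τ
    have c1 : Continuous fun ρ : ℝ => K τ ρ :=
      pl.cont.comp (continuous_const.prodMk continuous_id)
    exact (isClosed_le continuous_const continuous_id).inter (hA.preimage c1)
  have hSn : ∀ τ, (S τ).Nonempty := by
    intro τ
    obtain ⟨ρ, h1, h2⟩ := hex τ
    refine ⟨ρ, ?_, h2⟩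
    by_contra h3
    exact hlow τ ρ ⟨h1, not_le.1 h3⟩ h2
  have hSb : ∀ τ, BddBelow (S τ) := fun τ => ⟨ρ₀, fun ρ hρ => hρ.1⟩
  set α : ℝ → ℝ := fun τ => sInf (S τ) with hα
  have hαS : ∀ τ, ρ₀ ≤ α τ ∧ K τ (α τ) ∈ A := fun τ => (hSc τ).csInf_mem (hSn τ) (hSb τ)
  have hα0 : ∀ τ, 0 < α τ := fun τ => hρ₀.trans_le (hαS τ).1
  have hαmin : ∀ τ ρ, 0 < ρ → K τ ρ ∈ A → α τ ≤ ρ := by
    intro τ ρ h1 h2
    refine csInf_le (hSb τ) ⟨?_, h2⟩
    by_contra h3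
    exact hlow τ ρ ⟨h1, not_le.1 h3⟩ h2
  -- invariance
  have hf1 : ∀ x, f.symm x ∈ A ↔ x ∈ A := by
    intro x
    constructor
    · intro h
      rw [← hfA]
      exact ⟨f.symm x, h, f.apply_symm_apply x⟩
    · intro h
      rw [← hfA] at h
      obtain ⟨y, hy, rfl⟩ := h
      rw [Homeomorph.symm_apply_apply]
      exact hy
  have hg1 : ∀ x, g.symm x ∈ A ↔ x ∈ A := by
    intro x
    constructor
    · intro h
      rw [← hgA]
      exact ⟨g.symm x, h, g.apply_symm_apply x⟩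
    · intro h
      rw [← hgA] at h
      obtain ⟨y, hy, rfl⟩ := h
      rw [Homeomorph.symm_apply_apply]
      exact hy
  have hαf : ∀ τ, α (τ + 1) = α τ := by
    intro τ
    have : S (τ + 1) = S τ := by
      ext ρ
      simp only [hSd, mem_ofPred_eq]
      rw [← pl.eqf, hf1]
    simp only [hα, this]
  have hαg : ∀ τ, α (τ - θ) = α τ := by
    intro τ
    have : S (τ - θ) = S τ := by
      ext ρ
      simp only [hSd, mem_ofPred_eq]
      rw [← pl.eqg, hg1]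
    simp only [hα, this]
  -- continuity
  have hαc : Continuous α := by
    rw [continuous_iff_continuousAt]
    intro τ
    refine tendsto_order.2 ⟨fun c hc => ?_, fun c hc => ?_⟩
    · have h1 : ∀ ρ ∈ Icc ρ₀ c, K τ ρ ∉ A := by
        intro ρ hρ h2
        have h3 := hαmin τ ρ (hρ₀.trans_le hρ.1) h2
        linarith [hρ.2]
      filter_upwards [lower pl hA h1] with τ' h2
      by_contra h3
      exact h2 (α τ') ⟨(hαS τ').1, not_lt.1 h3⟩ (hαS τ').2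
    · filter_upwards [upper hD hFix hP pl ha hb hab hS (hα0 τ) hc (hαS τ).2] with τ' h2
      obtain ⟨ρ, hρ, hρA⟩ := h2
      exact (hαmin τ' ρ hρ.1 hρA).trans_lt hρ.2
  -- boundedness
  have hαb : ∃ B : ℝ, 0 < B ∧ ∀ τ, α τ ≤ B := by
    obtain ⟨B, hB⟩ := (isCompact_Icc (a := (0 : ℝ)) (b := 1)).bddAbove_image hαc.continuousOn
    have hper : Function.Periodic α 1 := hαf
    refine ⟨max B 1, by positivity, fun τ => ?_⟩
    obtain ⟨s, hs, hs'⟩ := hper.exists_mem_Ico₀ one_pos τ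
    rw [hs']
    exact (hB ⟨s, ⟨hs.1, hs.2.le⟩, rfl⟩).trans (le_max_left _ _)
  obtain ⟨B, hB0, hB⟩ := hαb
  refine ⟨fun τ r => K τ (α τ * r), ⟨?_, hA, hS, fun τ => ?_, fun τ r hr h => ?_⟩⟩
  · refine ⟨?_, fun τ r => ?_, fun τ r => ?_, fun τ => ?_, ?_, fun τ r => ?_, fun τ y h => ?_,
      fun τ r r' h => ?_, fun e r₀ he => ?_, ?_⟩
    · exact pl.cont.comp (continuous_fst.prodMk ((hαc.comp continuous_fst).mul continuous_snd))
    · show f.symm (K τ (α τ * r)) = K (τ + 1) (α (τ + 1) * r)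
      rw [pl.eqf, hαf]
    · show g.symm (K τ (α τ * r)) = K (τ - θ) (α (τ - θ) * r)
      rw [pl.eqg, hαg]
    · show Dbl f.symm g.symm.symm p (K τ (α τ * 0))
      rw [mul_zero]
      exact pl.base τ
    · show Tendsto (fun τ => K τ (α τ * 0)) atTop (𝓝 p)
      simp only [mul_zero]
      exact pl.lim
    · show Dbl f.symm.symm g.symm (K τ (α τ * 0)) (K τ (α τ * r))
      rw [mul_zero]
      exact pl.leaf τ _
    · have h' : Dbl f.symm.symm g.symm (K τ 0) y := by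
        have h2 : Dbl f.symm.symm g.symm (K τ (α τ * 0)) y := h
        rw [mul_zero] at h2
        exact h2
      obtain ⟨ρ, hρ⟩ := pl.surj τ y h'
      refine ⟨ρ / α τ, ?_⟩
      show K τ (α τ * (ρ / α τ)) = y
      rw [mul_div_cancel₀ _ (hα0 τ).ne']
      exact hρ
    · have h2 : K τ (α τ * r) = K τ (α τ * r') := h
      exact mul_left_cancel₀ (hα0 τ).ne' (pl.inj _ _ _ h2)
    · obtain ⟨T, hT⟩ := pl.small e (B * r₀) he
      refine ⟨T, fun τ hτ r hr => ?_⟩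
      show K τ (α τ * r) ∈ Wl f.symm.symm e (K τ (α τ * 0))
      rw [mul_zero]
      refine hT τ hτ _ ?_
      rw [abs_mul, abs_of_pos (hα0 τ)]
      exact mul_le_mul (hB τ) hr (abs_nonneg r) hB0.le
    · obtain ⟨e, he, hpr⟩ := pl.proper
      refine ⟨e, he, fun τ₁ τ₂ => ?_⟩
      obtain ⟨r₀, hr₀⟩ := hpr τ₁ τ₂
      refine ⟨r₀ / ρ₀, fun τ hτ r hr => ?_⟩
      have h2 : K τ (α τ * r) ∈ Wl f.symm.symm e (K τ (α τ * 0)) := hr
      rw [mul_zero] at h2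
      have h3 := hr₀ τ hτ _ h2
      rw [abs_mul, abs_of_pos (hα0 τ)] at h3
      rw [le_div_iff₀ hρ₀, mul_comm]
      exact (mul_le_mul_of_nonneg_right (hαS τ).1 (abs_nonneg r)).trans h3
  · show K τ (α τ * 1) ∈ A
    rw [mul_one]
    exact (hαS τ).2
  · have h2 : K τ (α τ * r) ∈ A := h
    have h3 := hαmin τ _ (mul_pos (hα0 τ) hr.1) h2
    have h4 : α τ * r < α τ * 1 := mul_lt_mul_of_pos_left hr.2 (hα0 τ)
    rw [mul_one] at h4
    linarith

end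

end CUTQAux

theorem specCutq (hD : SpecDbl.{u}) (hFix : SpecFix.{u}) : SpecCutq.{u, v} := by
  intro M W _ _ _ _ _ E f g s t C₀ ε C l θ γ p A a b y v ρ₀ hP _ _ ha hb hab hFan hA hS hfA hgA
    hρ₀ hlow hex
  exact CUTQAux.main hD hFix hP hFan.plane ha hb hab hA hS hfA hgA hρ₀ hlow hex

end Pool.Agent.Lib.MP610fe3.HR
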