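import Pool.Agent.Lib.MP_610fe3_an.HR.Spec3

/-!
# Module DIMC: the dimension of the intersection of the stable bundles of commuting maps

The projections `s.S x` and `t.S x` commute (`SS_commute`), so `Q x = t.S x ∘L s.S x` is an
idempotent with range `(s.S x).range ⊓ (t.S x).range`. Its trace is a continuous function with
values in the natural numbers, hence constant on a connected space.
-/

set_option autoImplicit false

open Set Filter Function

namespace Pool.Agent.Lib.MP610fe3.HR

open Cf CH

universe u v w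

namespace DIMCAux

/-- The range of the product of two commuting idempotents. -/
theorem range_comp_idem {W : Type*} [NormedAddCommGroup W] [NormedSpace ℝ W] (P Q : W →L[ℝ] W)
    (hP : P ∘L P = P) (hQ : Q ∘L Q = Q) (hc : P ∘L Q = Q ∘L P) :
    (Q ∘L P).range = (P.range ⊓ Q.range : Submodule ℝ W) := by
  ext x
  constructor
  · rintro ⟨y, rfl⟩
    refine ⟨⟨Q y, ?_⟩, ⟨P y, rfl⟩⟩
    exact congrArg (fun T : W →L[ℝ] W => T y) hc
  · rintro ⟨⟨y, hy⟩, ⟨z, hz⟩⟩
    refine ⟨x, ?_⟩
    have h1 : P x = x := by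
      rw [← hy]
      exact congrArg (fun T : W →L[ℝ] W => T y) hP
    have h2 : Q x = x := by
      rw [← hz]
      exact congrArg (fun T : W →L[ℝ] W => T z) hQ
    show Q (P x) = x
    rw [h1, h2]

/-- The product of two commuting idempotents is idempotent. -/
theorem comp_idem {W : Type*} [NormedAddCommGroup W] [NormedSpace ℝ W] (P Q : W →L[ℝ] W)
    (hP : P ∘L P = P) (hQ : Q ∘L Q = Q) (hc : P ∘L Q = Q ∘L P) :
    (Q ∘L P) ∘L (Q ∘L P) = Q ∘L P := by
  calc (Q ∘L P) ∘L (Q ∘L P) = Q ∘L ((P ∘L Q) ∘L P) := by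
        simp only [ContinuousLinearMap.comp_assoc]
    _ = Q ∘L ((Q ∘L P) ∘L P) := by rw [hc]
    _ = (Q ∘L Q) ∘L (P ∘L P) := by simp only [ContinuousLinearMap.comp_assoc]
    _ = Q ∘L P := by rw [hP, hQ]

/-- The rank of a continuous family of idempotents over a preconnected space is constant. -/
theorem finrank_range_const {M W : Type*} [TopologicalSpace M] [PreconnectedSpace M]
    [NormedAddCommGroup W] [NormedSpace ℝ W] [FiniteDimensional ℝ W] (Q : M → W →L[ℝ] W)
    (hcont : Continuous Q) (hid : ∀ x, Q x ∘L Q x = Q x) (x y : M) :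
    Module.finrank ℝ (Q x).range = Module.finrank ℝ (Q y).range := by
  have htr : ∀ x, LinearMap.trace ℝ W (Q x : W →ₗ[ℝ] W) = (Module.finrank ℝ (Q x).range : ℝ) := by
    intro x
    have hproj : LinearMap.IsProj (Q x).range (Q x : W →ₗ[ℝ] W) :=
      ⟨fun w => ⟨w, rfl⟩, by
        rintro _ ⟨w, rfl⟩
        exact congrArg (fun L : W →L[ℝ] W => L w) (hid x)⟩
    exact hproj.trace
  have hct : Continuous (fun x => LinearMap.trace ℝ W (Q x : W →ₗ[ℝ] W)) := by
    have h1 : Continuous (fun L : W →L[ℝ] W => LinearMap.trace ℝ W (L : W →ₗ[ℝ] W)) := by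
      have h2 : Continuous ((LinearMap.trace ℝ W).comp
        (ContinuousLinearMap.coeLM ℝ : (W →L[ℝ] W) →ₗ[ℝ] (W →ₗ[ℝ] W))) :=
        LinearMap.continuous_of_finiteDimensional _
      exact h2
    exact h1.comp hcont
  have hct2 : Continuous (fun x => (Module.finrank ℝ (Q x).range : ℝ)) := by
    have : (fun x => (Module.finrank ℝ (Q x).range : ℝ)) =
        fun x => LinearMap.trace ℝ W (Q x : W →ₗ[ℝ] W) := by
      funext x
      exact (htr x).symm
    rw [this]
    exact hct
  have hct3 : Continuous (fun x => Module.finrank ℝ (Q x).range) :=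
    Nat.isClosedEmbedding_coe_real.isEmbedding.continuous_iff.2 hct2
  exact PreconnectedSpace.constant inferInstance hct3

end DIMCAux

open DIMCAux

theorem specDimc : SpecDimc.{u, v} := by
  intro M W _ _ _ _ _ _ E f g s t hs ht hc x y
  have hcomm := SS_commute s t hs ht hc
  have key := finrank_range_const (fun x => t.S x ∘L s.S x)
    ((t.continuous_S ht).clm_comp (s.continuous_S hs))
    (fun x => comp_idem (s.S x) (t.S x) (s.SS x) (t.SS x) (hcomm x)) x y
  have hx := range_comp_idem (s.S x) (t.S x) (s.SS x) (t.SS x) (hcomm x)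
  have hy := range_comp_idem (s.S y) (t.S y) (s.SS y) (t.SS y) (hcomm y)
  rw [← hx, ← hy]
  exact key

end Pool.Agent.Lib.MP610fe3.HR
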