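import Pool.Agent.Lib.MP_610fe3_an.Cf.Coc
import Pool.Agent.Lib.MP_610fe3_an.CH.Nest
import Pool.Agent.Lib.MP_610fe3_an.TC.Chn

/-!
# Higher rank actions with one dimensional symplectic pairs: definitions

`f`, `g` are commuting homeomorphisms (later with hyperbolic splittings `s`, `t`).  `Dbl f g` is the
relation of the double stable leaves: `Dbl f g` (the leaves `C`), `Dbl f g.symm` (`X`),
`Dbl f.symm g` (`Y`), `Dbl f.symm g.symm` (`D`).  The stable leaves of `f` are `C × X`, its unstable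
leaves are `D × Y`, the stable leaves of `g` are `C × Y`, its unstable leaves `D × X`.
-/

set_option autoImplicit false

open Set Filter Function
open scoped Topology

namespace Pool.Agent.Lib.MP610fe3.HR

open Cf CH

/-- Double stable leaves: the distance of `f^n g^m x` and `f^n g^m y` tends to `0` when
`n + m` tends to infinity, `n, m ≥ 0`. -/
def Dbl {M : Type*} [MetricSpace M] (f g : M ≃ₜ M) (x y : M) : Prop :=
  ∀ ε : ℝ, 0 < ε → ∃ K : ℕ, ∀ n m : ℕ, K ≤ n + m →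
    dist (f^[n] (g^[m] x)) (f^[n] (g^[m] y)) ≤ ε

/-- Local double stable leaves. -/
def Lf {M : Type*} [MetricSpace M] (f g : M ≃ₜ M) (ε : ℝ) (x : M) : Set M :=
  {z | z ∈ Wl f ε x ∧ Dbl f g x z}

/-- Everything about one homeomorphism at one scale. -/
structure Loc {M : Type*} [MetricSpace M] (f : M ≃ₜ M) (ε C l : ℝ) : Prop where
  decs : Dec f ε C l
  decu : Dec f.symm ε C l
  br : Br f ε C
  sh : Shadowing f
  shu : Shadowing f.symm

/-- Two commuting homeomorphisms at a common scale. -/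
structure Pair {M : Type*} [MetricSpace M] (f g : M ≃ₜ M) (ε C l : ℝ) : Prop where
  comm : ∀ x, f (g x) = g (f x)
  one : Loc f ε C l
  two : Loc g ε C l

section Symm

variable {M : Type*} [MetricSpace M] {f g : M ≃ₜ M} {ε C l : ℝ}

theorem Br.symm' (h : Br f ε C) : Br f.symm ε C where
  ε_pos := h.ε_pos
  one_le := h.one_le
  exist := fun ε' hε' => by
    obtain ⟨δ, hδ, H⟩ := h.exist ε' hε'
    refine ⟨δ, hδ, fun x y hxy => ?_⟩
    obtain ⟨z, h1, h2⟩ := H y x (by rwa [dist_comm])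
    exact ⟨z, h2, h1⟩
  unique := fun x y z z' h1 h2 h3 h4 => h.unique y x z z' h2 h1 h4 h3
  left := fun x y z h1 h2 => by
    rw [dist_comm x y]
    exact h.right y x z h2 h1
  right := fun x y z h1 h2 => by
    rw [dist_comm x y]
    exact h.left y x z h2 h1

theorem Loc.symm (h : Loc f ε C l) : Loc f.symm ε C l :=
  ⟨h.decu, h.decs, Br.symm' h.br, h.shu, h.sh⟩

theorem Loc.expConst (h : Loc f ε C l) : ExpConst f ε := fun x y h1 h2 =>
  h.br.unique y y x y (fun k => h1 k) (fun k => h2 k)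
    (fun k => by rw [dist_self]; exact h.br.ε_pos.le) (fun k => by rw [dist_self]; exact h.br.ε_pos.le)

theorem Pair.swap (h : Pair f g ε C l) : Pair g f ε C l :=
  ⟨fun x => (h.comm x).symm, h.two, h.one⟩

theorem Pair.symm_left (h : Pair f g ε C l) : Pair f.symm g ε C l :=
  ⟨fun x => comm_symm h.comm x, h.one.symm, h.two⟩

theorem Pair.symm_right (h : Pair f g ε C l) : Pair f g.symm ε C l :=
  h.swap.symm_left.swap

theorem Pair.symm_both (h : Pair f g ε C l) : Pair f.symm g.symm ε C l :=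
  h.symm_left.symm_right

end Symm

section Abstract

variable {M W : Type*} [MetricSpace M] [NormedAddCommGroup W] [NormedSpace ℝ W]
  {E : Emb M W} {f g : M ≃ₜ M}

/-- The projections onto the intersection of the stable bundles. -/
def PP (s : Split E f) (t : Split E g) (x : M) : W →L[ℝ] W := s.S x ∘L t.S x

/-- Two commuting hyperbolic homeomorphisms of class `C^2` whose stable bundles intersect in a line
bundle. -/
structure Bun (s : Split E f) (t : Split E g) (C₀ : ℝ) : Prop where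
  comm : ∀ x, f (g x) = g (f x)
  hs : s.Hyperbolic
  ht : t.Hyperbolic
  sqs : Sq s C₀
  sqt : Sq t C₀
  rank : ∀ x, Module.finrank ℝ (PP s t x).range = 1

/-- `k` is the cocycle of `f` on the line bundle. -/
structure IsCoc (s : Split E f) (t : Split E g) (k : Coc W f) : Prop where
  S : k.S = PP s t
  D : k.D = s.D
  Di : k.Di = s.Di

/-- Growth estimates for pairs in local double leaves. -/
structure Grw (E : Emb M W) (g : M ≃ₜ M) (k : Coc W f) (ε C l : ℝ) : Prop where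
  ε_pos : 0 < ε
  one_le : 1 ≤ C
  l_pos : 0 < l
  l_lt : l < 1
  an_le : ∀ n x, k.an n x ≤ C * l ^ n
  upper : ∀ x, ∀ z ∈ Lf f g ε x, ∀ n, dist (f^[n] z) (f^[n] x) ≤ C * k.an n x * dist z x
  lower : ∀ x, ∀ z ∈ Lf f g ε x, ∀ n, k.an n x * dist z x ≤ C * dist (f^[n] z) (f^[n] x)
  cone : ∀ x, ∀ z ∈ Lf f g ε x, ‖E.e z - E.e x - k.S x (E.e z - E.e x)‖ ≤ C * dist z x ^ 2

/-- The linearization of the local double leaves. -/
structure Flt (E : Emb M W) (g : M ≃ₜ M) (k : Coc W f) (ε C : ℝ) (ψ : M → M → W)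
    (Q : M → M → W →L[ℝ] W) (q : M → M → ℝ) : Prop where
  ε_pos : 0 < ε
  one_le : 1 ≤ C
  mem : ∀ x, ∀ z ∈ Lf f g ε x, k.S x (ψ x z) = ψ x z
  approx : ∀ x, ∀ z ∈ Lf f g ε x, ‖ψ x z - (E.e z - E.e x)‖ ≤ C * dist z x ^ 2
  upper : ∀ x, ∀ z ∈ Lf f g ε x, ‖ψ x z‖ ≤ 2 * dist z x
  lower : ∀ x, ∀ z ∈ Lf f g ε x, dist z x ≤ 2 * ‖ψ x z‖
  equiv : ∀ x, ∀ z ∈ Lf f g ε x, ψ (f x) (f z) = k.D x (ψ x z)
  inj : ∀ x, ∀ z ∈ Lf f g ε x, ∀ z' ∈ Lf f g ε x, ψ x z = ψ x z' → z = z'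
  cont : ContinuousOn (fun p : M × M => ψ p.1 p.2) {p | p.2 ∈ Lf f g ε p.1}
  trans : ∀ x, ∀ z ∈ Lf f g ε x, ∀ z' ∈ Lf f g ε x, z' ∈ Lf f g ε z →
    ψ z z' = Q x z (ψ x z' - ψ x z)
  Q_self : ∀ x, Q x x = k.S x
  Q_S : ∀ x, ∀ z ∈ Lf f g ε x, Q x z ∘L k.S x = Q x z
  S_Q : ∀ x, ∀ z ∈ Lf f g ε x, k.S z ∘L Q x z = Q x z
  Q_conf : ∀ x, ∀ z ∈ Lf f g ε x, ∀ v w, k.B z (Q x z v) (Q x z w) = q x z ^ 2 * k.B x v w
  Q_cont : ContinuousOn (fun p : M × M => Q p.1 p.2) {p | p.2 ∈ Lf f g ε p.1}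
  q_pos : ∀ x, ∀ z ∈ Lf f g ε x, 0 < q x z

/-- Global parametrization of the double leaves by the fibres of the line bundle. -/
structure Gam (s : Split E f) (t : Split E g) (γ : M → W → M) : Prop where
  cont : Continuous (fun p : M × W => γ p.1 (PP s t p.1 p.2))
  dbl : ∀ x w, PP s t x w = w → Dbl f g x (γ x w)
  surj : ∀ x y, Dbl f g x y → ∃ w, PP s t x w = w ∧ γ x w = y
  inj : ∀ x w w', PP s t x w = w → PP s t x w' = w' → γ x w = γ x w' → w = w'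
  zero : ∀ x, γ x 0 = x
  eqf : ∀ x w, PP s t x w = w → f (γ x w) = γ (f x) (s.D x w)
  eqg : ∀ x w, PP s t x w = w → g (γ x w) = γ (g x) (t.D x w)
  small : ∀ ε : ℝ, 0 < ε → ∃ r : ℝ, 0 < r ∧ ∀ x w, PP s t x w = w → ‖w‖ ≤ r →
    γ x w ∈ Wl f ε x
  proper : ∃ ε : ℝ, 0 < ε ∧ ∀ x w, PP s t x w = w → γ x w ∈ Wl f ε x → ‖w‖ ≤ 1

/-- The derivatives of `f` and `g` at the common fixed point `p` on the two line bundles. -/
def Eig (s : Split E f) (t : Split E g) (θ : ℝ) (p : M) : Prop :=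
  ∃ a b : ℝ, 0 < a ∧ 0 < b ∧
    (∀ w, s.D p (PP s t.swap p w) = Real.exp (-a) • PP s t.swap p w) ∧
    (∀ w, t.D p (PP s t.swap p w) = Real.exp (a * θ) • PP s t.swap p w) ∧
    (∀ w, s.D p (PP s.swap t p w) = Real.exp b • PP s.swap t p w) ∧
    (∀ w, t.D p (PP s.swap t p w) = Real.exp (-(b * θ)) • PP s.swap t p w)

/-- The periodic point `p` is fixed by `f^k` and `g^k`, with the eigenvalues of `Eig`. -/
def Good (E : Emb M W) (f g : M ≃ₜ M) (θ : ℝ) (p : M) : Prop :=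
  ∃ (k : ℕ) (F G : M ≃ₜ M) (S : Split E F) (T : Split E G) (C₀ : ℝ), 0 < k ∧
    (∀ z, F z = f^[k] z) ∧ (∀ z, G z = g^[k] z) ∧ F p = p ∧ G p = p ∧
    Bun S T.swap C₀ ∧ Bun S.swap T C₀ ∧ Eig S T θ p

end Abstract

/-- The leaves `Y` through one half of the leaf `X` of the common fixed point `p`. -/
structure Plane {M : Type*} [MetricSpace M] (f g : M ≃ₜ M) (θ : ℝ) (p : M) (H : ℝ → ℝ → M) :
    Prop where
  cont : Continuous (fun q : ℝ × ℝ => H q.1 q.2)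
  eqf : ∀ τ r, f (H τ r) = H (τ + 1) r
  eqg : ∀ τ r, g (H τ r) = H (τ - θ) r
  base : ∀ τ, Dbl f g.symm p (H τ 0)
  lim : Tendsto (fun τ => H τ 0) atTop (𝓝 p)
  leaf : ∀ τ r, Dbl f.symm g (H τ 0) (H τ r)
  surj : ∀ τ y, Dbl f.symm g (H τ 0) y → ∃ r, H τ r = y
  inj : ∀ τ r r', H τ r = H τ r' → r = r'
  small : ∀ ε r₀ : ℝ, 0 < ε → ∃ T : ℝ, ∀ τ ≤ T, ∀ r, |r| ≤ r₀ → H τ r ∈ Wl f.symm ε (H τ 0)
  proper : ∃ ε : ℝ, 0 < ε ∧ ∀ τ₁ τ₂ : ℝ, ∃ r₀ : ℝ, ∀ τ ∈ Icc τ₁ τ₂, ∀ r,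
    H τ r ∈ Wl f.symm ε (H τ 0) → |r| ≤ r₀

/-- The plane together with a closed set `R` saturated by stable sets of `f`, at the height `1`. -/
structure Cut {M : Type*} [MetricSpace M] (f g : M ≃ₜ M) (θ : ℝ) (p : M) (H : ℝ → ℝ → M)
    (R : Set M) : Prop where
  plane : Plane f g θ p H
  closed : IsClosed R
  sat : Sat f R
  top : ∀ τ, H τ 1 ∈ R
  below : ∀ τ r, |r| < 1 → H τ r ∉ R

end Pool.Agent.Lib.MP610fe3.HR
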