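import Pool.Agent.Lib.MP_610fe3_an.HR.SpecZ

/-!
# Module EIG: eigenvalues at the periodic points
-/

set_option autoImplicit false
set_option linter.unusedSectionVars false

open Set Filter Function
open scoped Topology

namespace Pool.Agent.Lib.MP610fe3.HR

open Cf CH

universe u v w

namespace EIGAux

section Functionals

variable {k : ℕ} {J : Type*} {χ : J → Fin k → ℝ} {n n' : Fin k → ℤ} {i j : J}

theorem mul_neg_iff_of_pos {a b : ℝ} (ha : 0 < a) : a * b < 0 ↔ b < 0 := by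
  constructor
  · intro h
    by_contra hb
    push Not at hb
    linarith [mul_nonneg ha.le hb]
  · intro h
    exact mul_neg_of_pos_of_neg ha h

theorem reg_smul (h : Regular χ n) {m : ℤ} (hm : m ≠ 0) : Regular χ (m • n) := fun l => by
  rw [ev_smul]
  exact mul_ne_zero (Int.cast_ne_zero.2 hm) (h l)

theorem ev_neg_smul (t : ℝ) (c : Fin k → ℝ) (n : Fin k → ℤ) :
    ev (-(t • c)) n = -(t * ev c n) := by
  simp only [ev, Finset.mul_sum, ← Finset.sum_neg_distrib]
  refine Finset.sum_congr rfl fun i _ => ?_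
  rw [Pi.neg_apply, Pi.smul_apply, smul_eq_mul]
  ring

theorem wal_smul (h : Wal χ n n' i j) {m : ℤ} (hm : 0 < m) :
    Wal χ (m • n) (m • n') i j where
  reg := reg_smul h.reg hm.ne'
  reg' := reg_smul h.reg' hm.ne'
  neg := h.neg
  lt := by
    rw [ev_smul]
    exact mul_neg_of_pos_of_neg (Int.cast_pos.2 hm) h.lt
  gt := by
    rw [ev_smul]
    exact mul_pos (Int.cast_pos.2 hm) h.gt
  only := fun l hl => by
    apply h.only l
    rwa [ev_smul, ev_smul, mul_neg_iff_of_pos (Int.cast_pos.2 hm),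
      mul_neg_iff_of_pos (Int.cast_pos.2 hm)] at hl

theorem reg_comb {m m' : ℕ}
    (h : ∀ l, (m : ℝ) * ev (χ l) n + (m' : ℝ) * ev (χ l) n' ≠ 0) :
    Regular χ ((m : ℤ) • n + (m' : ℤ) • n') := fun l => by
  rw [ev_add, ev_smul, ev_smul]
  push_cast
  exact h l

theorem ev_comb (c : Fin k → ℝ) (m m' : ℕ) :
    ev c ((m : ℤ) • n + (m' : ℤ) • n') = m * ev c n + m' * ev c n' := by
  rw [ev_add, ev_smul, ev_smul]
  push_cast
  rfl

end Functionals

section Action

variable {M W : Type*} [MetricSpace M] [NormedAddCommGroup W] [NormedSpace ℝ W] {k : ℕ}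
  {J : Type*} {E : Emb M W} {A : (Fin k → ℤ) → M ≃ₜ M} {χ : J → Fin k → ℝ}
  {F : J → M → Submodule ℝ W}

theorem act_zero (hA : Act E A χ F) (x : M) : A 0 x = x := by
  have h := hA.add 0 0 x
  rw [add_zero] at h
  exact ((A 0).injective h).symm

theorem act_comm (hA : Act E A χ F) (n n' : Fin k → ℤ) (x : M) : A n (A n' x) = A n' (A n x) := by
  rw [← hA.add, ← hA.add, add_comm]

theorem act_nsmul (hA : Act E A χ F) (n : Fin k → ℤ) (m : ℕ) (x : M) :
    A ((m : ℤ) • n) x = (A n)^[m] x := by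
  induction m with
  | zero =>
    have h : ((0 : ℕ) : ℤ) • n = 0 := by simp
    rw [h, act_zero hA]
    rfl
  | succ m ih =>
    have h : ((m + 1 : ℕ) : ℤ) • n = n + (m : ℤ) • n := by
      push_cast
      rw [add_smul, one_smul, add_comm]
    rw [iterate_succ_apply', ← ih, ← hA.add, h]

theorem comm_symm_right {f g : M ≃ₜ M} (h : ∀ x, f (g x) = g (f x)) (x : M) :
    f (g.symm x) = g.symm (f x) := by
  apply g.injective
  rw [← h, g.apply_symm_apply, g.apply_symm_apply]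

theorem comm_symm_left {f g : M ≃ₜ M} (h : ∀ x, f (g x) = g (f x)) (x : M) :
    f.symm (g x) = g (f.symm x) := by
  apply f.injective
  rw [h, f.apply_symm_apply, f.apply_symm_apply]

theorem sq_mono {f : M ≃ₜ M} {s : Split E f} {C C' : ℝ} (h : Sq s C) (hC : C ≤ C') :
    Sq s C' where
  fwd := fun x z => (h.fwd x z).trans (by gcongr)
  bwd := fun x z => (h.bwd x z).trans (by gcongr)
  tan := fun x z => (h.tan x z).trans (by gcongr)
  lipD := fun x z => (h.lipD x z).trans (by gcongr)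
  lipDi := fun x z => (h.lipDi x z).trans (by gcongr)

theorem inv_left [CompactSpace M] {f g a : M ≃ₜ M} (s : Split E f) (t : Split E g)
    (hs : s.Hyperbolic) (ht : t.Hyperbolic) (r : Split E a) (haf : ∀ x, a (f x) = f (a x))
    (hag : ∀ x, a (g x) = g (a x)) {p : M} (hp : a p = p) {L : Submodule ℝ W}
    (hL : (PP s t.swap p).range = L) {w : W} (hw : w ∈ L) : r.D p w ∈ L := by
  rw [← hL] at hw ⊢
  obtain ⟨v, rfl⟩ := hw
  refine ⟨r.D p v, ?_⟩
  have h1 := congrArg (fun T => T (t.U p v)) (DS_commutes r s hs haf p).1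
  have h2 := congrArg (fun T => T v) (DS_commutes r t ht hag p).2
  simp only [ContinuousLinearMap.comp_apply, hp] at h1 h2
  change s.S p (t.U p (r.D p v)) = r.D p (s.S p (t.U p v))
  rw [h1, h2]

theorem inv_right [CompactSpace M] {f g a : M ≃ₜ M} (s : Split E f) (t : Split E g)
    (hs : s.Hyperbolic) (ht : t.Hyperbolic) (r : Split E a) (haf : ∀ x, a (f x) = f (a x))
    (hag : ∀ x, a (g x) = g (a x)) {p : M} (hp : a p = p) {L : Submodule ℝ W}
    (hL : (PP s.swap t p).range = L) {w : W} (hw : w ∈ L) : r.D p w ∈ L := by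
  rw [← hL] at hw ⊢
  obtain ⟨v, rfl⟩ := hw
  refine ⟨r.D p v, ?_⟩
  have h1 := congrArg (fun T => T (t.S p v)) (DS_commutes r s hs haf p).2
  have h2 := congrArg (fun T => T v) (DS_commutes r t ht hag p).1
  simp only [ContinuousLinearMap.comp_apply, hp] at h1 h2
  change s.U p (t.S p (r.D p v)) = r.D p (s.U p (t.S p v))
  rw [h1, h2]

end Action

end EIGAux

open EIGAux

theorem specEig (hL : SpecLin.{w}) (hR : SpecRng.{u, v, w}) (hS : SpecSca.{u, v, w}) :
    SpecEig.{u, v, w} := by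
  intro M W _ _ _ _ _ E k J _ A χ F hA n n' i j hc h1i h1j p hp
  -- common period
  obtain ⟨s₀, hs₀, -⟩ := hA.split n hc.reg
  obtain ⟨c, hc0, hexp⟩ := s₀.expansive hs₀
  have hp' : p ∈ periodicPts (A n') := periodic_subset hc0 hexp (act_comm hA n n') hp
  obtain ⟨a, ha, hpa⟩ := hp
  obtain ⟨b, hb, hpb⟩ := hp'
  have ha' : 0 < a := ha
  have hb' : 0 < b := hb
  have hK : 0 < a * b := Nat.mul_pos ha' hb'
  have hKz : (0 : ℤ) < ((a * b : ℕ) : ℤ) := by exact_mod_cast hK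
  set n₁ : Fin k → ℤ := ((a * b : ℕ) : ℤ) • n with hn₁
  set n₁' : Fin k → ℤ := ((a * b : ℕ) : ℤ) • n' with hn₁'
  have hp1 : A n₁ p = p := by
    rw [hn₁, act_nsmul hA]
    exact hpa.mul_const b
  have hp1' : A n₁' p = p := by
    rw [hn₁', act_nsmul hA]
    exact hpb.const_mul a
  have hc₁ : Wal χ n₁ n₁' i j := wal_smul hc hKz
  have hc₂ : Wal χ ((2 : ℤ) • n₁) ((2 : ℤ) • n₁') i j := wal_smul hc₁ two_pos
  obtain ⟨S, hShyp, ⟨CS, hSsq⟩, hSs, hSu⟩ := hA.split _ hc₂.reg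
  obtain ⟨T, hThyp, ⟨CT, hTsq⟩, hTs, hTu⟩ := hA.split _ hc₂.reg'
  have hcomm := act_comm hA ((2 : ℤ) • n₁) ((2 : ℤ) • n₁')
  obtain ⟨rngi, rngj⟩ := hR M W E k J χ F _ _ S T _ _ hShyp hThyp hcomm hc₂.reg hc₂.reg'
    hSs hSu hTs hTu i j hc₂
  have invi : ∀ N, A N p = p → ∀ s : Split E (A N), ∀ w ∈ coarse χ F i p,
      s.D p w ∈ coarse χ F i p := fun N hN s w hw =>
    inv_left S T hShyp hThyp s (act_comm hA _ _) (act_comm hA _ _) hN (rngi p) hw
  have invj : ∀ N, A N p = p → ∀ s : Split E (A N), ∀ w ∈ coarse χ F j p,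
      s.D p w ∈ coarse χ F j p := fun N hN s w hw =>
    inv_right S T hShyp hThyp s (act_comm hA _ _) (act_comm hA _ _) hN (rngj p) hw
  obtain ⟨α, β, hα, hβ, hsg⟩ := hS M W E k J A χ F hA n₁ n₁' i p hc₁.reg hc₁.reg' (h1i p)
    hp1 hp1' invi
  obtain ⟨α', β', hα', hβ', hsg'⟩ := hS M W E k J A χ F hA n₁ n₁' j p hc₁.reg hc₁.reg' (h1j p)
    hp1 hp1' invj
  obtain ⟨t, ht, hneg⟩ := hc₁.neg
  have hevj : ∀ N, ev (χ j) N = -(t * ev (χ i) N) := fun N => by rw [hneg, ev_neg_smul]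
  obtain ⟨c₁, hc₁0, e1, e2⟩ := hL J (fun l => ev (χ l) n₁) (fun l => ev (χ l) n₁')
    (ev (χ i) n₁) (ev (χ i) n₁') α β hc₁.lt hc₁.gt hc₁.reg hc₁.reg'
    (fun m m' hreg h => (hsg m m' (reg_comb hreg)).1 (by rw [ev_comb]; exact h))
    (fun m m' hreg h => (hsg m m' (reg_comb hreg)).2 (by rw [ev_comb]; exact h))
  have hjlt : ev (χ j) n₁' < 0 := by
    rw [hevj]
    linarith [mul_pos ht hc₁.gt]
  have hjgt : 0 < ev (χ j) n₁ := by
    rw [hevj]
    linarith [mul_neg_of_pos_of_neg ht hc₁.lt]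
  obtain ⟨c₂, hc₂0, e3, e4⟩ := hL J (fun l => ev (χ l) n₁') (fun l => ev (χ l) n₁)
    (ev (χ j) n₁') (ev (χ j) n₁) β' α' hjlt hjgt hc₁.reg' hc₁.reg
    (fun m m' hreg h => by
      have hreg' : ∀ l, (m' : ℝ) * ev (χ l) n₁ + (m : ℝ) * ev (χ l) n₁' ≠ 0 := fun l => by
        rw [add_comm]; exact hreg l
      have h1 := (hsg' m' m (reg_comb hreg')).1 (by rw [ev_comb, add_comm]; exact h)
      linarith)
    (fun m m' hreg h => by
      have hreg' : ∀ l, (m' : ℝ) * ev (χ l) n₁ + (m : ℝ) * ev (χ l) n₁' ≠ 0 := fun l => by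
        rw [add_comm]; exact hreg l
      have h1 := (hsg' m' m (reg_comb hreg')).2 (by rw [ev_comb, add_comm]; exact h)
      linarith)
  have hF : ∀ N z, A ((2 : ℤ) • (((a * b : ℕ) : ℤ) • N)) z = (A N)^[2 * (a * b)] z := by
    intro N z
    rw [← act_nsmul hA, smul_smul]
    push_cast
    rfl
  have hfix : ∀ N, A N p = p → A ((2 : ℤ) • N) p = p := by
    intro N hN
    have h := act_nsmul hA N 2 p
    have h2 : ((2 : ℕ) : ℤ) = 2 := rfl
    rw [h2] at h
    rw [h]
    exact (show IsFixedPt (A N) p from hN).iterate 2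
  have hi0 : ev (χ i) n₁ ≠ 0 := hc₁.reg i
  have hθ : -(ev (χ i) n' / ev (χ i) n) = -(ev (χ i) n₁' / ev (χ i) n₁) := by
    rw [hn₁, hn₁', ev_smul, ev_smul, mul_div_mul_left _ _ (Int.cast_ne_zero.2 hKz.ne')]
  refine ⟨2 * (a * b), A ((2 : ℤ) • n₁), A ((2 : ℤ) • n₁'), S, T, max CS CT, by omega,
    hF n, hF n', hfix _ hp1, hfix _ hp1', ?_, ?_, ?_⟩
  · exact {
      comm := comm_symm_right hcomm
      hs := hShyp
      ht := hThyp.swap
      sqs := sq_mono hSsq (le_max_left _ _)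
      sqt := (sq_mono hTsq (le_max_right _ _)).swap
      rank := fun x => by rw [rngi x]; exact h1i x }
  · exact {
      comm := comm_symm_left hcomm
      hs := hShyp.swap
      ht := hThyp
      sqs := (sq_mono hSsq (le_max_left _ _)).swap
      sqt := sq_mono hTsq (le_max_right _ _)
      rank := fun x => by rw [rngj x]; exact h1j x }
  · rw [hθ]
    have memi : ∀ w, PP S T.swap p w ∈ coarse χ F i p := fun w => by
      rw [← rngi p]; exact ⟨w, rfl⟩
    have memj : ∀ w, PP S.swap T p w ∈ coarse χ F j p := fun w => by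
      rw [← rngj p]; exact ⟨w, rfl⟩
    refine ⟨-α, α', ?_, ?_, fun w => ?_, fun w => ?_, fun w => ?_, fun w => ?_⟩
    · rw [e1]
      linarith [mul_neg_of_pos_of_neg hc₁0 hc₁.lt]
    · rw [e4]
      exact mul_pos hc₂0 hjgt
    · rw [neg_neg]
      exact hα S _ (memi w)
    · have e : -α * -(ev (χ i) n₁' / ev (χ i) n₁) = β := by
        rw [e1, e2]
        field_simp
      rw [e]
      exact hβ T _ (memi w)
    · exact hα' S _ (memj w)
    · have e : -(α' * -(ev (χ i) n₁' / ev (χ i) n₁)) = β' := by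
        rw [e3, e4, hevj, hevj]
        field_simp
      rw [e]
      exact hβ' T _ (memj w)

end Pool.Agent.Lib.MP610fe3.HR
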