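import Pool.Agent.Lib.MP_610fe3_an.HR.Spec
import Mathlib.Topology.Instances.AddCircle.DenseSubgroup
import Mathlib.NumberTheory.DiophantineApproximation.Basic

/-!
# Module EXIT: the plane leaves the basin

Proof of `SpecExit`, (6.3), (6.4), (6.5).
-/

set_option autoImplicit false

open Set Filter Function
open scoped Topology

namespace Pool.Agent.Lib.MP610fe3.HR

open Cf CH

universe u

namespace EXITAux

/-- The group of translations which preserve a set of reals. -/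
def trans (T : Set ℝ) : AddSubgroup ℝ where
  carrier := {s | ∀ τ, τ ∈ T ↔ τ + s ∈ T}
  zero_mem' := fun τ => by rw [add_zero]
  add_mem' := fun {a b} ha hb τ => by
    rw [← add_assoc]
    exact (ha τ).trans (hb (τ + a))
  neg_mem' := fun {a} ha τ => by
    have h1 := ha (τ + -a)
    rw [show τ + -a + a = τ by ring] at h1
    exact h1.symm

/-- A closed set invariant under a dense group of translations is empty or everything. -/
theorem all_of_closed {θ : ℝ} (hθ : Irrational θ) {T : Set ℝ} (hT : IsClosed T)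
    (h1 : ∀ τ, τ ∈ T ↔ τ + 1 ∈ T) (h2 : ∀ τ, τ ∈ T ↔ τ - θ ∈ T) {τ₀ : ℝ} (h0 : τ₀ ∈ T) (τ : ℝ) :
    τ ∈ T := by
  have hd : Dense (AddSubgroup.closure ({θ, 1} : Set ℝ) : Set ℝ) := by
    rw [dense_addSubgroupClosure_pair_iff, div_one]
    exact hθ
  have hle : AddSubgroup.closure ({θ, 1} : Set ℝ) ≤ trans T := by
    rw [AddSubgroup.closure_le]
    rintro s (rfl | hs)
    · have h3 : -s ∈ trans T := fun τ => by
        rw [← sub_eq_add_neg]
        exact h2 τ
      have h4 := (trans T).neg_mem h3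
      rw [neg_neg] at h4
      exact h4
    · rw [mem_singleton_iff] at hs
      subst hs
      exact h1
  rw [← hT.closure_eq]
  rw [Metric.mem_closure_iff]
  intro ε hε
  obtain ⟨s, hs, hds⟩ := Metric.mem_closure_iff.1 (hd (τ - τ₀)) ε hε
  refine ⟨τ₀ + s, (hle hs τ₀).1 h0, ?_⟩
  rw [Real.dist_eq] at hds ⊢
  rwa [show τ - (τ₀ + s) = τ - τ₀ - s by ring]

/-- Small combinations of `1` and `θ` with large nonnegative coefficients. -/
theorem exists_uv {θ : ℝ} (h0 : 0 < θ) (m : ℕ) :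
    ∃ u v : ℕ, m ≤ v ∧ |(u : ℝ) - v * θ| ≤ 1 / (m + 1) := by
  obtain ⟨k, hk0, -, hk⟩ := Real.exists_nat_abs_mul_sub_round_le θ
    (n := (m + 1) ^ 2) (by positivity)
  set j : ℤ := round ((k : ℝ) * θ) with hj
  have hkpos : (0 : ℝ) < k := by exact_mod_cast hk0
  have hk1 : (0 : ℝ) < (k : ℝ) * θ := by positivity
  have hm : (0 : ℝ) < (m : ℝ) + 1 := by positivity
  have hb : 1 / ((((m + 1) ^ 2 : ℕ) : ℝ) + 1) ≤ 1 / ((m : ℝ) + 1) ^ 2 := by
    apply one_div_le_one_div_of_le (by positivity)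
    push_cast
    linarith
  have hk2 := hk.trans hb
  have hb1 : 1 / ((m : ℝ) + 1) ^ 2 ≤ 1 := by
    rw [div_le_one (by positivity)]
    have : (0 : ℝ) ≤ m := Nat.cast_nonneg m
    nlinarith
  have hj0 : 0 ≤ j := by
    by_contra hneg
    push Not at hneg
    have h3 : j ≤ -1 := by omega
    have h4 : (j : ℝ) ≤ -1 := by exact_mod_cast h3
    have h5 := (abs_le.1 (hk2.trans hb1)).2
    linarith
  obtain ⟨i, hi⟩ := Int.eq_ofNat_of_zero_le hj0
  rw [hi] at hk2
  refine ⟨(m + 1) * i, (m + 1) * k, ?_, ?_⟩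
  · calc m ≤ m + 1 := Nat.le_succ m
      _ = (m + 1) * 1 := (mul_one _).symm
      _ ≤ (m + 1) * k := Nat.mul_le_mul_left _ hk0
  · push_cast at hk2 ⊢
    rw [show ((m : ℝ) + 1) * i - (m + 1) * k * θ = -((m + 1) * (k * θ - i)) by ring, abs_neg,
      abs_mul, abs_of_pos hm]
    calc ((m : ℝ) + 1) * |(k : ℝ) * θ - i| ≤ (m + 1) * (1 / (m + 1) ^ 2) := by gcongr
      _ = 1 / (m + 1) := by field_simp

section Plane

variable {M : Type u} [MetricSpace M] {f g : M ≃ₜ M} {θ : ℝ} {p : M} {H : ℝ → ℝ → M}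

theorem act_g (hP : Plane f g θ p H) (m : ℕ) (τ r : ℝ) : g^[m] (H τ r) = H (τ - m * θ) r := by
  induction m with
  | zero => simp
  | succ m ih =>
    rw [iterate_succ_apply', ih, hP.eqg]
    congr 1
    push_cast
    ring

theorem act_f (hP : Plane f g θ p H) (n : ℕ) (τ r : ℝ) : f^[n] (H τ r) = H (τ + n) r := by
  induction n with
  | zero => simp
  | succ n ih =>
    rw [iterate_succ_apply', ih, hP.eqf]
    congr 1
    push_cast
    ring

theorem act (hP : Plane f g θ p H) (n m : ℕ) (τ r : ℝ) :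
    f^[n] (g^[m] (H τ r)) = H (τ + (n - m * θ)) r := by
  rw [act_g hP, act_f hP]
  congr 1
  ring

theorem cont_left (hP : Plane f g θ p H) (r : ℝ) : Continuous (fun τ => H τ r) :=
  hP.cont.comp (continuous_id.prodMk continuous_const)

theorem cont_right (hP : Plane f g θ p H) (τ : ℝ) : Continuous (fun r => H τ r) :=
  hP.cont.comp (continuous_const.prodMk continuous_id)

theorem iff_of_image {c : M ≃ₜ M} {A : Set M} (hA : c '' A = A) (x : M) : x ∈ A ↔ c x ∈ A := by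
  constructor
  · intro hx
    rw [← hA]
    exact ⟨x, hx, rfl⟩
  · intro hx
    rw [← hA] at hx
    obtain ⟨y, hy, hyx⟩ := hx
    rwa [← c.injective hyx]

/-- A closed set invariant under `f` and `g` contains the whole curve `H (·) r` or nothing of it. -/
theorem all_or_none (hP : Plane f g θ p H) (hθ : Irrational θ) {K : Set M} (hK : IsClosed K)
    (hf : ∀ x, x ∈ K ↔ f x ∈ K) (hg : ∀ x, x ∈ K ↔ g x ∈ K) {r τ₀ : ℝ} (h0 : H τ₀ r ∈ K)
    (τ : ℝ) : H τ r ∈ K := by
  refine all_of_closed (T := {τ | H τ r ∈ K}) hθ (hK.preimage (cont_left hP r)) (fun τ => ?_)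
    (fun τ => ?_) h0 τ
  · show H τ r ∈ K ↔ H (τ + 1) r ∈ K
    rw [← hP.eqf]
    exact hf _
  · show H τ r ∈ K ↔ H (τ - θ) r ∈ K
    rw [← hP.eqg]
    exact hg _

end Plane

end EXITAux

open EXITAux

theorem specExit (hD : SpecDbl.{u}) (hPr : SpecProd.{u}) (hBs : SpecBas.{u}) : SpecExit.{u} := by
  intro M _ _ f g ε C l θ p H A hpair hθ hθ0 hA hsat hfA hgA hpA hP h00
  obtain ⟨-, hsymm, -, hsw, hff, -⟩ := hD M f g hpair.comm
  obtain ⟨-, -, -, -, hff', -⟩ := hD M f g.symm hpair.symm_right.comm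
  obtain ⟨-, -, -, hsw2, -⟩ := hD M g f.symm hpair.symm_left.swap.comm
  obtain ⟨-, hsymm3, -, -, hff3, -⟩ := hD M f.symm g hpair.symm_left.comm
  obtain ⟨-, -, -, hsw4, -⟩ := hD M g f hpair.swap.comm
  obtain ⟨hprod, -⟩ := hPr M g f ε C l hpair.swap
  set B : Set M := {x | ∃ a ∈ A, FwdAsymp f x a} with hB
  obtain ⟨hBo, hBA⟩ := hBs M f ε C l hpair.one A 1 hA hsat Nat.one_pos (by
    rw [iterate_one]; exact hfA)
  have hcl : IsClosed Bᶜ := hBo.isClosed_compl
  have hRs : Sat f Bᶜ := by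
    intro x hx y hxy hy
    obtain ⟨a, ha, hya⟩ := hy
    exact hx ⟨a, ha, fa_trans hxy hya⟩
  -- invariance of `B`
  have hBf : ∀ x, x ∈ B ↔ f x ∈ B := by
    intro x
    constructor
    · rintro ⟨a, ha, hxa⟩
      have h1 := fa_iter 1 hxa
      exact ⟨f a, (iff_of_image hfA a).1 ha, h1⟩
    · rintro ⟨a, ha, hxa⟩
      refine ⟨f.symm a, (iff_of_image hfA _).2 (by rwa [f.apply_symm_apply]), ?_⟩
      apply fa_of_comm (g := f) (fun _ => rfl)
      rwa [f.apply_symm_apply]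
  have hBg : ∀ x, x ∈ B ↔ g x ∈ B := by
    have hgf : ∀ x, f (g.symm x) = g.symm (f x) := hpair.symm_right.comm
    intro x
    constructor
    · rintro ⟨a, ha, hxa⟩
      refine ⟨g a, (iff_of_image hgA a).1 ha, ?_⟩
      apply fa_of_comm hgf
      rwa [g.symm_apply_apply, g.symm_apply_apply]
    · rintro ⟨a, ha, hxa⟩
      refine ⟨g.symm a, (iff_of_image hgA _).2 (by rwa [g.apply_symm_apply]), ?_⟩
      apply fa_of_comm hpair.comm
      rwa [g.apply_symm_apply]
  have hRf : ∀ x, x ∈ Bᶜ ↔ f x ∈ Bᶜ := fun x => not_congr (hBf x)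
  have hRg : ∀ x, x ∈ Bᶜ ↔ g x ∈ Bᶜ := fun x => not_congr (hBg x)
  -- (6.3)
  have h63 : ∀ τ, H τ 0 ∉ A := fun τ hτ =>
    h00 (all_or_none hP hθ hA (iff_of_image hfA) (iff_of_image hgA) hτ 0)
  -- (6.4)
  have h64 : ∃ r, H 0 r ∈ Bᶜ := by
    obtain ⟨q, hq, hxq⟩ := exists_fwdAsymp hpair.two.br.ε_pos hpair.two.expConst hpair.two.sh
      (H 0 0)
    have hqf : q ∈ Om f := by
      rw [Om_eq hpair.one.br.ε_pos hpair.one.expConst hpair.two.br.ε_pos hpair.two.expConst
        hpair.comm]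
      exact hq
    by_cases hqA : q ∈ A
    · exfalso
      obtain ⟨z, hz1, hz2⟩ := hprod _ _ hxq
      have hz3 : FwdAsymp f.symm z q := hff3 _ _ (hsw2 _ _ hz2)
      have hzA : z ∈ A := hsat q hqA z (fa_symm hz3)
      have hz4 : Dbl f g (H 0 0) z := hsw4 _ _ hz1
      have hmemc : ∀ n m : ℕ, f^[n] (g^[m] z) ∈ A := by
        have hit : ∀ (c : M ≃ₜ M), c '' A = A → ∀ (n : ℕ) (y : M), y ∈ A → c^[n] y ∈ A := by
          intro c hc n
          induction n with
          | zero => exact fun y hy => hy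
          | succ n ih =>
            intro y hy
            rw [iterate_succ_apply]
            exact ih _ ((iff_of_image hc y).1 hy)
        exact fun n m => hit f hfA n _ (hit g hgA m _ hzA)
      choose u v huv1 huv2 using exists_uv hθ0
      have hlim1 : Tendsto (fun m : ℕ => (0 : ℝ) + ((u m : ℝ) - v m * θ)) atTop (𝓝 0) := by
        have h1 : Tendsto (fun m : ℕ => (u m : ℝ) - v m * θ) atTop (𝓝 0) :=
          squeeze_zero_norm (fun m => by rw [Real.norm_eq_abs]; exact huv2 m)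
            tendsto_one_div_add_atTop_nhds_zero_nat
        have h2 := h1.const_add (0 : ℝ)
        rwa [add_zero] at h2
      have hlim2 : Tendsto (fun m : ℕ => f^[u m] (g^[v m] (H 0 0))) atTop (𝓝 (H 0 0)) := by
        have h1 := ((cont_left hP 0).tendsto 0).comp hlim1
        refine h1.congr fun m => ?_
        rw [act hP]
        rfl
      have hlim3 : Tendsto (fun m : ℕ => dist (f^[u m] (g^[v m] (H 0 0)))
          (f^[u m] (g^[v m] z))) atTop (𝓝 0) := by
        rw [Metric.tendsto_atTop]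
        intro e he
        obtain ⟨K, hK⟩ := hz4 (e / 2) (by positivity)
        refine ⟨K, fun m hm => ?_⟩
        rw [Real.dist_0_eq_abs, abs_of_nonneg dist_nonneg]
        have h1 := hK (u m) (v m) (by have := huv1 m; omega)
        linarith
      have hlim4 : Tendsto (fun m : ℕ => f^[u m] (g^[v m] z)) atTop (𝓝 (H 0 0)) :=
        hlim2.congr_dist hlim3
      exact h00 (hA.mem_of_tendsto hlim4 (Eventually.of_forall fun m => hmemc _ _))
    · have hqR : q ∈ Bᶜ := fun hqB => hqA (hBA ⟨hqf, hqB⟩)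
      obtain ⟨z, hz1, hz2⟩ := hprod _ _ (fa_symm hxq)
      have hzR : z ∈ Bᶜ := hRs q hqR z (hff _ _ (hsw4 _ _ hz1))
      obtain ⟨r, hr⟩ := hP.surj 0 z (hsymm3 _ _ (hsw2 _ _ hz2))
      exact ⟨r, by rwa [hr]⟩
  -- (6.5)
  have hcl0 : IsClosed {r | H 0 r ∈ Bᶜ} := hcl.preimage (cont_right hP 0)
  obtain ⟨r₁, hr₁, hmin⟩ := hcl0.exists_infDist_eq_dist h64 (0 : ℝ)
  have hmin' : ∀ r, H 0 r ∈ Bᶜ → |r₁| ≤ |r| := by
    intro r hr
    have h1 := Metric.infDist_le_dist_of_mem (x := (0 : ℝ)) (show r ∈ {r | H 0 r ∈ Bᶜ} from hr)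
    rw [hmin, Real.dist_eq, Real.dist_eq, zero_sub, zero_sub, abs_neg, abs_neg] at h1
    exact h1
  have hx0 : H 0 0 ∈ B := ⟨p, hpA, fa_symm (hff' _ _ (hP.base 0))⟩
  have hr₁0 : r₁ ≠ 0 := by
    rintro rfl
    exact hr₁ hx0
  have hr₁p : 0 < |r₁| := abs_pos.2 hr₁0
  refine ⟨fun τ r => H τ (r₁ * r), Bᶜ, ?_, hcl, hRs, ?_, ?_⟩
  · refine ⟨?_, fun τ r => hP.eqf _ _, fun τ r => hP.eqg _ _, fun τ => ?_, ?_, fun τ r => ?_,
      fun τ y hy => ?_, fun τ r r' h => ?_, fun e r₀ he => ?_, ?_⟩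
    · exact hP.cont.comp (continuous_fst.prodMk (continuous_const.mul continuous_snd))
    · simp only [mul_zero]
      exact hP.base τ
    · simp only [mul_zero]
      exact hP.lim
    · simp only [mul_zero]
      exact hP.leaf _ _
    · simp only [mul_zero] at hy
      obtain ⟨r, hr⟩ := hP.surj τ y hy
      refine ⟨r / r₁, ?_⟩
      rw [mul_div_cancel₀ _ hr₁0]
      exact hr
    · exact mul_left_cancel₀ hr₁0 (hP.inj _ _ _ h)
    · obtain ⟨T, hT⟩ := hP.small e (|r₁| * r₀) he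
      refine ⟨T, fun τ hτ r hr => ?_⟩
      simp only [mul_zero]
      refine hT τ hτ _ ?_
      rw [abs_mul]
      gcongr
    · obtain ⟨e, he, h⟩ := hP.proper
      refine ⟨e, he, fun τ₁ τ₂ => ?_⟩
      obtain ⟨r₀, hr₀⟩ := h τ₁ τ₂
      refine ⟨r₀ / |r₁|, fun τ hτ r hr => ?_⟩
      simp only [mul_zero] at hr
      have h1 := hr₀ τ hτ _ hr
      rw [abs_mul] at h1
      rw [le_div_iff₀ hr₁p, mul_comm]
      exact h1
  · intro τ
    simp only [mul_one]
    exact all_or_none hP hθ hcl hRf hRg hr₁ τ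
  · intro τ r hr hR
    have h1 : H 0 (r₁ * r) ∈ Bᶜ := all_or_none hP hθ hcl hRf hRg hR 0
    have h2 := hmin' _ h1
    rw [abs_mul] at h2
    have h3 : |r₁| * |r| < |r₁| * 1 := mul_lt_mul_of_pos_left hr hr₁p
    linarith

end Pool.Agent.Lib.MP610fe3.HR
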