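import Pool.Agent.Lib.MP_610fe3_an.HR.F1Spec

/-!
# ARC: a segment of a leaf `X` in a small ball is short
-/

set_option autoImplicit false

open Set Filter Function
open scoped Topology

namespace Pool.Agent.Lib.MP610fe3.HR

open Cf CH

universe u v

namespace F1ARCAux

variable {M : Type u} {W : Type v} [MetricSpace M] [CompactSpace M] [NormedAddCommGroup W]
  [InnerProductSpace ℝ W] [FiniteDimensional ℝ W] {E : Emb M W} {f g : M ≃ₜ M}
  {s : Split E f} {t : Split E g} {C₀ : ℝ} {γ : M → W → M}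

omit [FiniteDimensional ℝ W] in
theorem contPPa (hb : Bun s t C₀) : Continuous fun q : M × W => PP s t q.1 q.2 :=
  (((s.contS hb.hs).clm_comp (t.contS hb.ht)).comp continuous_fst).clm_apply continuous_snd

/-- unit vectors move the points by a definite amount -/
theorem exists_far (hb : Bun s t C₀) (hγ : Gam s t γ) : ∃ ε' : ℝ, 0 < ε' ∧
    ∀ x w, PP s t x w = w → ‖w‖ = 1 → ε' < dist (γ x w) x := by
  let K : Set (M × W) := {q | PP s t q.1 q.2 = q.2} ∩ {q | ‖q.2‖ = 1}
  have hK : IsCompact K := by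
    have h1 : IsCompact ((univ : Set M) ×ˢ Metric.closedBall (0 : W) 1) :=
      isCompact_univ.prod (isCompact_closedBall 0 1)
    refine h1.of_isClosed_subset ?_ ?_
    · exact (isClosed_eq (contPPa hb) continuous_snd).inter
        (isClosed_eq continuous_snd.norm continuous_const)
    · rintro q ⟨-, h3⟩
      have h4 : ‖q.2‖ = 1 := h3
      exact ⟨mem_univ _, by simp [h4]⟩
  rcases K.eq_empty_or_nonempty with he | hne
  · refine ⟨1, one_pos, fun x w hw h => ?_⟩
    have : ((x, w) : M × W) ∈ K := ⟨hw, h⟩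
    rw [he] at this
    exact this.elim
  · have hc : ContinuousOn (fun q : M × W => dist (γ q.1 q.2) q.1) K := by
      have h1 : Continuous fun q : M × W => dist (γ q.1 (PP s t q.1 q.2)) q.1 :=
        hγ.cont.dist continuous_fst
      refine h1.continuousOn.congr fun q hq => ?_
      have : PP s t q.1 q.2 = q.2 := hq.1
      dsimp only
      rw [this]
    obtain ⟨q, hq, hmin⟩ := hK.exists_isMinOn hne hc
    have hpos : 0 < dist (γ q.1 q.2) q.1 := by
      rw [dist_pos]
      intro h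
      have h1 : γ q.1 q.2 = γ q.1 0 := by rw [hγ.zero, h]
      have h2 := hγ.inj q.1 q.2 0 hq.1 (map_zero _) h1
      have h3 : ‖q.2‖ = 1 := hq.2
      rw [h2, norm_zero] at h3
      exact zero_ne_one h3
    refine ⟨dist (γ q.1 q.2) q.1 / 2, half_pos hpos, fun x w hw h => ?_⟩
    have h1 : ((x, w) : M × W) ∈ K := ⟨hw, h⟩
    have h2 : dist (γ q.1 q.2) q.1 ≤ dist (γ x w) x := hmin h1
    linarith

/-- a unit vector of the line -/
theorem exists_unit (hb : Bun s t C₀) (x : M) : ∃ u, PP s t x u = u ∧ ‖u‖ = 1 := by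
  obtain ⟨⟨y, w, rfl⟩, hy0, -⟩ := finrank_eq_one_iff'.1 (hb.rank x)
  have hy : PP s t x w ≠ 0 := fun h => hy0 (Subtype.ext h)
  have hid : PP s t x (PP s t x w) = PP s t x w := by
    have hcomm : ∀ w, s.S x (t.S x w) = t.S x (s.S x w) := fun w =>
      congrArg (fun L => L w) (SS_commute s t hb.hs hb.ht hb.comm x)
    change s.S x (t.S x (s.S x (t.S x w))) = s.S x (t.S x w)
    rw [← hcomm (t.S x w)]
    have h1 : t.S x (t.S x w) = t.S x w := congrArg (fun L => L w) (t.SS x)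
    have h2 : s.S x (s.S x (t.S x w)) = s.S x (t.S x w) :=
      congrArg (fun L => L (t.S x w)) (s.SS x)
    rw [h1, h2]
  refine ⟨‖PP s t x w‖⁻¹ • PP s t x w, by rw [map_smul, hid], ?_⟩
  rw [norm_smul, norm_inv, norm_norm, inv_mul_cancel₀ (norm_ne_zero_iff.2 hy)]

end F1ARCAux

open F1ARCAux

/-- **ARC**: a segment of a leaf `X` in a small ball is short. -/
theorem specArc (hR : SpecRep.{u, v}) : SpecArc.{u, v} := by
  intro M W _ _ _ _ _ E f g s t C₀ γ hb hγ
  obtain ⟨ε', hε', hfar⟩ := exists_far hb hγ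
  refine ⟨ε', hε', fun x w α β hw hα hαβ hβ hsm => ?_⟩
  have hw' : ∀ r : ℝ, PP s t.swap x (r • w) = r • w := fun r => by rw [map_smul, hw]
  obtain ⟨u, hu, hu1⟩ := exists_unit hb (γ x (α • w))
  have hu0 : u ≠ 0 := fun h => by rw [h, norm_zero] at hu1; exact zero_ne_one hu1
  have hu' : ∀ r : ℝ, PP s t.swap (γ x (α • w)) (r • u) = r • u := fun r => by rw [map_smul, hu]
  have hD : Dbl f g.symm (γ x (α • w)) x := fun ε hε => by
    obtain ⟨K, hK⟩ := hγ.dbl x _ (hw' α) ε hε
    exact ⟨K, fun n m h => by rw [dist_comm]; exact hK n m h⟩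
  obtain ⟨τ, hτc, -, hτ⟩ := hR M W E f g.symm s t.swap C₀ γ hb hγ (γ x (α • w)) x u w hD hu hu0 hw
  have h0 : τ α = 0 := by
    have h1 : γ (γ x (α • w)) (τ α • u) = γ (γ x (α • w)) 0 := by rw [← hτ α, hγ.zero]
    have h2 := hγ.inj _ _ _ (hu' _) (map_zero _) h1
    rcases smul_eq_zero.1 h2 with h3 | h3
    · exact h3
    · exact absurd h3 hu0
  have hn : ∀ r : ℝ, ‖τ r • u‖ = |τ r| := fun r => by
    rw [norm_smul, hu1, mul_one, Real.norm_eq_abs]
  have hle : |τ β| ≤ 1 := by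
    by_contra hc
    push Not at hc
    have hcont : ContinuousOn (fun r => |τ r|) (Icc α β) := hτc.abs.continuousOn
    have h1 : (1 : ℝ) ∈ Icc (|τ α|) (|τ β|) := ⟨by rw [h0, abs_zero]; exact zero_le_one, hc.le⟩
    obtain ⟨ρ, hρ, hρ1⟩ := intermediate_value_Icc hαβ hcont h1
    have h2 := hfar (γ x (α • w)) (τ ρ • u) (hu' _) ((hn ρ).trans hρ1)
    rw [← hτ ρ] at h2
    exact absurd (hsm ρ hρ) (not_le.2 h2)
  exact ⟨τ β • u, hu' _, (hn β).le.trans hle, (hτ β).symm⟩

end Pool.Agent.Lib.MP610fe3.HR
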