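import Pool.Agent.Lib.MP_610fe3_an.HR.Spec4
import Pool.Agent.Lib.MP_610fe3_an.TopD
import Pool.Agent.Lib.MP_610fe3_an.TM.TransAux

/-!
# Module TRC: transitivity passes to a commuting Anosov diffeomorphism
-/

set_option autoImplicit false

open Set Filter Function Bundle
open scoped Topology Manifold ContDiff

namespace Pool.Agent.Lib.MP610fe3.HR

open Cf CH

universe u v

namespace TRCAux

/-- For homeomorphisms. -/
theorem transitive_of_comm {X : Type*} [MetricSpace X] [CompactSpace X] [ConnectedSpace X]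
    {a b : X ≃ₜ X} (ha : Expansive a) (ha' : Shadowing a) (hb : Expansive b) (hb' : Shadowing b)
    (hc : ∀ x, a (b x) = b (a x)) (h : TopTransitive a) : TopTransitive b := by
  obtain ⟨c, hc0, hc1⟩ := ha
  obtain ⟨c', hc0', hc1'⟩ := hb
  have hOa : Om a = univ := eq_univ_of_forall fun y =>
    mem_closure_of_reach hc0 hc1 ha' (TM.chainTransitive_of_topTransitive h y y)
  have hOb : Om b = univ := by
    rw [← hOa]
    exact (Om_eq hc0 hc1 hc0' hc1' hc).symm
  exact topTransitive_of_shadowing hb' (chainTransitive_of_Om ⟨c', hc0', hc1'⟩ hb' hOb)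

variable {V : Type*} [NormedAddCommGroup V] [NormedSpace ℝ V] [FiniteDimensional ℝ V] {N : ℕ}
  {M : Type*} [MetricSpace M] [CompactSpace M]
  [ChartedSpace V M] [IsManifold 𝓘(ℝ, V) ∞ M]
  [RiemannianBundle (fun x : M => TangentSpace 𝓘(ℝ, V) x)]
  [IsContinuousRiemannianBundle V (fun x : M => TangentSpace 𝓘(ℝ, V) x)]
  (e : M → EuclideanSpace ℝ (Fin N)) (hiso : Isometry e) (he : ContMDiff 𝓘(ℝ, V) (𝓡 N) ∞ e)
  (hinj : ∀ x, Injective (mfderiv 𝓘(ℝ, V) (𝓡 N) e x))

include hiso he hinj in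
theorem exp_shadow (f : M ≃ₘ^1⟮𝓘(ℝ, V), 𝓘(ℝ, V)⟯ M)
    (Es Eu : ∀ x : M, Submodule ℝ (TangentSpace 𝓘(ℝ, V) x))
    (hA : Gen.IsAnosovSplitting f Es Eu) :
    Expansive f.toHomeomorph ∧ Shadowing f.toHomeomorph := by
  obtain ⟨E, hE, -, hr⟩ := Gen.exists_emb e hiso he hinj
  subst hE
  obtain ⟨s, hs, -, -⟩ := Gen.exists_split E he hinj hr f Es Eu hA
  exact ⟨s.expansive hs, s.shadowing hs⟩

end TRCAux

open TRCAux

theorem specTrc : SpecTrc.{u, v} := by
  intro V _ _ _ M _ _ _ _ _ _ _ _ f g Es Eu Es' Eu' hA hA' hc hf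
  obtain ⟨N, e, he, hemb, hinj⟩ := exists_embedding_euclidean_of_compact (I := 𝓘(ℝ, V)) (M := M)
  let _ : MetricSpace M := hemb.isEmbedding.comapMetricSpace e
  have hiso : Isometry e := hemb.isEmbedding.to_isometry
  obtain ⟨h1, h2⟩ := exp_shadow e hiso he hinj f Es Eu hA
  obtain ⟨h3, h4⟩ := exp_shadow e hiso he hinj g Es' Eu' hA'
  exact transitive_of_comm h1 h2 h3 h4 hc hf

end Pool.Agent.Lib.MP610fe3.HR
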