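import Pool.Agent.Lib.MP_610fe3_an.HR.F1Spec
import Pool.Agent.Lib.MP_610fe3_an.HR.CHN1
import Pool.Agent.Lib.MP_610fe3_an.HR.ARITHM
import Pool.Agent.Lib.MP_610fe3_an.HR.TRC
import Pool.Agent.Lib.MP_610fe3_an.CH.Cor

/-!
# Module CHAIN: the theorem on actions from the one-sided wall lemma
-/

set_option autoImplicit false

open Set Filter Function Bundle
open scoped Topology Manifold ContDiff

namespace Pool.Agent.Lib.MP610fe3.HR

open Cf CH CHNAux

universe u v w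

/-- CHAIN. The abstract theorem: one regular element `n₀` such that the coarse bundles contained in
its stable bundle, which have a negatively proportional partner, are line bundles. -/
def SpecChainf : Prop :=
  ∀ (M : Type u) (W : Type v) [MetricSpace M] [CompactSpace M] [ConnectedSpace M]
    [NormedAddCommGroup W] [InnerProductSpace ℝ W] [FiniteDimensional ℝ W] (E : Emb M W) (k : ℕ)
    (J : Type w) [Finite J] (A : (Fin k → ℤ) → M ≃ₜ M) (χ : J → Fin k → ℝ)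
    (F : J → M → Submodule ℝ W), Act E A χ F → ∀ n₀ : Fin k → ℤ, Regular χ n₀ →
    (∀ i j, ∀ t : ℝ, 0 < t → χ i = -(t • χ j) → ev (χ i) n₀ < 0 →
      ∀ x, Module.finrank ℝ (coarse χ F i x) = 1) →
    ∀ n : Fin k → ℤ, Regular χ n → TopTransitive (A n)

namespace F1CHAINAux

variable {M : Type u} {W : Type v} [MetricSpace M] [CompactSpace M] [ConnectedSpace M]
  [NormedAddCommGroup W] [InnerProductSpace ℝ W] [FiniteDimensional ℝ W] {E : Emb M W} {k : ℕ}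
  {J : Type w} {A : (Fin k → ℤ) → M ≃ₜ M} {χ : J → Fin k → ℝ} {F : J → M → Submodule ℝ W}

/-- The wall lemma: near the wall and in the same chamber there is `n''`. -/
theorem sat_of_wal [Finite J] (hNear : SpecNear.{u, v, w}) (hWall : SpecWallf.{u, v})
    (H : Act E A χ F) {n n' : Fin k → ℤ} {i j : J}
    (h : Wal χ n n' i j) (hi : ∀ x, Module.finrank ℝ (coarse χ F i x) = 1) :
    ∀ K, Minimal (· ∈ Sset (A n).symm) K → Sat (A n').symm K := by
  intro K hK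
  obtain ⟨n'', s, t, hw, hsg, ⟨C₀, hB⟩, δ, C₁, B, Q, L, lg, N, hNw⟩ :=
    hNear M W E k J A χ F H n n' i j h hi
  have hstep : Step χ n n'' := ⟨h.reg, hw.reg, Or.inl fun l hl => (hsg l).2 hl⟩
  have hs := sats_of_step H hstep
  exact hWall M W E (A n'') (A n') s t C₀ δ C₁ B Q L lg N hB hNw K (minimal_of hs.1 hs.2 hK)

end F1CHAINAux

open F1CHAINAux

/-- **The abstract theorem.** -/
theorem specChainf (hNear : SpecNear.{u, v, w}) (hWall : SpecWallf.{u, v})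
    (hArith : SpecArithm.{w}) (hChn : SpecChn1.{u}) (hPair : SpecPair.{u, v}) :
    SpecChainf.{u, v, w} := by
  intro M W _ _ _ _ _ _ E k J _ A χ F H n₀ hn₀ hpart
  obtain ⟨m, c, h0, hm, hc⟩ := hArith k J χ n₀ hn₀
  have hstep : ∀ i < m, ∀ K, Minimal (· ∈ Sset (A (c i)).symm) K → Sat (A (c (i + 1))).symm K := by
    intro i hi
    rcases hc i hi with h | ⟨l, l', h, hl⟩
    · exact (sats_of_step H h).1
    · refine sat_of_wal hNear hWall H h fun x => ?_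
      obtain ⟨t, ht, hχ⟩ := h.neg
      refine hpart l l' t⁻¹ (inv_pos.2 ht) ?_ hl x
      rw [hχ, smul_neg, neg_neg, smul_smul, inv_mul_cancel₀ ht.ne', one_smul]
  obtain ⟨s, hs, -⟩ := H.split n₀ hn₀
  obtain ⟨ε, C, l, hP⟩ := hPair M W E (A n₀) (A n₀) s s hs hs (comm H n₀ n₀)
  have hT : TopTransitive (A n₀) := by
    have h1 := hChn M m (fun i => A (c i)) ε C l (by rw [h0]; exact hP.one)
      (fun x => by
        show A (c m) (A (c 0) x) = x
        rw [h0, hm, ← H.add, neg_add_cancel, zero H]) hstep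
    simpa only [h0] using h1
  intro n hn
  obtain ⟨a1, a2, -, -⟩ := exists_exp H hn₀
  obtain ⟨b1, b2, -, -⟩ := exists_exp H hn
  exact TRCAux.transitive_of_comm a1 a2 b1 b2 (comm H n₀ n) hT

/-- **The theorem on the manifold.** -/
theorem main_f1 (hChain : SpecChainf.{u, 0, w}) (hAct : SpecAct.{u, v, w})
    {V : Type v} [NormedAddCommGroup V] [NormedSpace ℝ V] [FiniteDimensional ℝ V]
    {M : Type u} [TopologicalSpace M] [CompactSpace M] [T2Space M] [ConnectedSpace M]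
    [ChartedSpace V M] [IsManifold 𝓘(ℝ, V) ∞ M]
    [RiemannianBundle (fun x : M => TangentSpace 𝓘(ℝ, V) x)]
    [IsContinuousRiemannianBundle V (fun x : M => TangentSpace 𝓘(ℝ, V) x)]
    {k : ℕ} (A : (Fin k → ℤ) → M ≃ₘ^1⟮𝓘(ℝ, V), 𝓘(ℝ, V)⟯ M)
    (hadd : ∀ n n' x, A (n + n') x = A n (A n' x)) {J : Type w} [Finite J] (χ : J → Fin k → ℝ)
    (F : J → ∀ x : M, Submodule ℝ (TangentSpace 𝓘(ℝ, V) x))
    (hA : ∀ n : Fin k → ℤ, (∀ j, ∑ i, χ j i * (n i : ℝ) ≠ 0) → Gen.IsAnosovSplitting (A n)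
      (fun x => ⨆ (j) (_ : ∑ i, χ j i * (n i : ℝ) < 0), F j x)
      (fun x => ⨆ (j) (_ : 0 < ∑ i, χ j i * (n i : ℝ)), F j x))
    (n₀ : Fin k → ℤ) (hn₀ : ∀ j, ∑ i, χ j i * (n₀ i : ℝ) ≠ 0)
    (hpair : ∀ i j, ∀ t : ℝ, 0 < t → χ i = -(t • χ j) → ∑ a, χ i a * (n₀ a : ℝ) < 0 →
      (∀ n, ContMDiff 𝓘(ℝ, V) 𝓘(ℝ, V) 2 (A n)) ∧
      ∀ x, Module.finrank ℝ (⨆ (l) (_ : ∃ c : ℝ, 0 < c ∧ χ l = c • χ i), F l x :
        Submodule ℝ (TangentSpace 𝓘(ℝ, V) x)) = 1)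
    (n : Fin k → ℤ) (hn : ∀ j, ∑ i, χ j i * (n i : ℝ) ≠ 0) : TopTransitive (A n) := by
  classical
  by_cases htns : ∀ i j, ∀ t : ℝ, 0 < t → χ i ≠ -(t • χ j)
  · exact main_weyl A hadd χ F hA htns n hn
  push Not at htns
  obtain ⟨i₀, j₀, t₀, ht₀, hij₀⟩ := htns
  have hC2 : ∀ n, ContMDiff 𝓘(ℝ, V) 𝓘(ℝ, V) 2 (A n) := by
    by_cases h : ∑ a, χ i₀ a * (n₀ a : ℝ) < 0
    · exact (hpair i₀ j₀ t₀ ht₀ hij₀ h).1
    · have h1 : ev (χ i₀) n₀ = -(t₀ * ev (χ j₀) n₀) := by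
        conv_lhs => rw [hij₀]
        rw [ev_neg_smul]
      have h2 : ¬ ev (χ i₀) n₀ < 0 := h
      have h3 : ev (χ i₀) n₀ ≠ 0 := hn₀ i₀
      have h4 : 0 < ev (χ i₀) n₀ := lt_of_le_of_ne (not_lt.1 h2) h3.symm
      have h5 : ev (χ j₀) n₀ < 0 := by
        by_contra h6
        push Not at h6
        have := mul_nonneg ht₀.le h6
        linarith
      refine (hpair j₀ i₀ t₀⁻¹ (inv_pos.2 ht₀) ?_ h5).1
      rw [hij₀, smul_neg, neg_neg, smul_smul, inv_mul_cancel₀ ht₀.ne', one_smul]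
  obtain ⟨N, e, he, hemb, hinj⟩ := exists_embedding_euclidean_of_compact (I := 𝓘(ℝ, V)) (M := M)
  let _ : MetricSpace M := hemb.isEmbedding.comapMetricSpace e
  have hiso : Isometry e := hemb.isEmbedding.to_isometry
  obtain ⟨E, F', hAct', hrank⟩ := hAct V N M e hiso he hinj k J A χ F hadd hC2 hA
  refine hChain M (EuclideanSpace ℝ (Fin N)) E k J (fun n => (A n).toHomeomorph) χ F' hAct'
    n₀ hn₀ (fun i j t ht hij hi x => ?_) n hn
  rw [hrank]
  exact (hpair i j t ht hij hi).2 x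

end Pool.Agent.Lib.MP610fe3.HR
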