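import Pool.Agent.Lib.MP_610fe3_an.HR.Spec2

/-!
# REP: change of the base point in a leaf

`γ z (ρ • e) = γ x (τ ρ • u)` for `z` in the leaf of `x`, with `τ` continuous and injective.
-/

set_option autoImplicit false

open Set Filter Function
open scoped Topology

namespace Pool.Agent.Lib.MP610fe3.HR

open Cf CH

universe u v

namespace REPAux

/-- a map with a closed graph into a compact set is continuous -/
theorem contOn_of_graph {X Y : Type*} [TopologicalSpace X] [TopologicalSpace Y] [T2Space Y]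
    {S : Set X} {K : Set Y} (hK : IsCompact K) {φ : X → Y} {G : Set (X × Y)} (hG : IsClosed G)
    (hm : ∀ x ∈ S, φ x ∈ K ∧ (x, φ x) ∈ G)
    (hu : ∀ x ∈ S, ∀ y ∈ K, (x, y) ∈ G → y = φ x) : ContinuousOn φ S := by
  intro x hx
  refine hK.tendsto_nhds_of_unique_mapClusterPt ?_ fun y hy hc => hu x hx y hy ?_
  · filter_upwards [self_mem_nhdsWithin] with z hz using (hm z hz).1
  · obtain ⟨U, hU, hUy⟩ := mapClusterPt_iff_ultrafilter.1 hc
    have h1 : Tendsto (fun z : X => z) U (𝓝 x) :=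
      (tendsto_id (x := (U : Filter X))).mono_right (hU.trans nhdsWithin_le_nhds)
    refine hG.mem_of_tendsto (h1.prodMk_nhds hUy) ?_
    have h2 : ∀ᶠ z in (U : Filter X), z ∈ S := hU self_mem_nhdsWithin
    filter_upwards [h2] with z hz using (hm z hz).2

/-- vectors of a line -/
theorem exists_smul {W : Type*} [NormedAddCommGroup W] [NormedSpace ℝ W] (L : W →L[ℝ] W)
    (hL : Module.finrank ℝ L.range = 1) {v w : W} (hv : L v = v)
    (hv0 : v ≠ 0) (hw : L w = w) : ∃ r : ℝ, r • v = w := by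
  have h := (finrank_eq_one_iff_of_nonzero' (⟨v, v, hv⟩ : L.range)
    (fun h => hv0 (congrArg Subtype.val h))).1 hL ⟨w, w, hw⟩
  obtain ⟨r, hr⟩ := h
  exact ⟨r, congrArg Subtype.val hr⟩

variable {M W : Type*} [MetricSpace M] [NormedAddCommGroup W] [NormedSpace ℝ W]
  {E : Emb M W} {f g : M ≃ₜ M} {s : Split E f} {t : Split E g} {γ : M → W → M}

/-- the iterates of the parametrization -/
theorem gam_iter {k : Coc W f} (hk : IsCoc s t k) (hG : Gam s t γ) {x : M} {w : W}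
    (hw : PP s t x w = w) (n : ℕ) :
    PP s t (f^[n] x) (k.A n x w) = k.A n x w ∧ f^[n] (γ x w) = γ (f^[n] x) (k.A n x w) := by
  induction n with
  | zero => exact ⟨hw, rfl⟩
  | succ n ih =>
    have h1 : k.A (n + 1) x w = s.D (f^[n] x) (k.A n x w) := by rw [k.A_succ, hk.D]
    have h2 := k.DS (f^[n] x) (k.A n x w)
    rw [hk.S, hk.D, ih.1] at h2
    refine ⟨?_, ?_⟩
    · rw [h1, iterate_succ_apply']
      exact h2.symm
    · rw [iterate_succ_apply', ih.2, hG.eqf _ _ ih.1, h1, iterate_succ_apply']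

theorem cont_ray (hG : Gam s t γ) {x : M} {w : W} (hw : PP s t x w = w) :
    Continuous fun ρ : ℝ => γ x (ρ • w) := by
  have h1 : (fun ρ : ℝ => γ x (ρ • w)) = fun ρ : ℝ =>
      (fun p : M × W => γ p.1 (PP s t p.1 p.2)) (x, ρ • w) := by
    funext ρ
    simp only [map_smul, hw]
  rw [h1]
  exact hG.cont.comp (continuous_const.prodMk (continuous_id.smul continuous_const))

/-- the change of the base point is locally bounded -/
theorem rep_bdd {k : Coc W f} (hk : IsCoc s t k) (hs : s.Hyperbolic) (hG : Gam s t γ) {x z : M}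
    {u e : W} (hxz : Dbl f g x z) (hu : PP s t x u = u) (hu0 : u ≠ 0) (he : PP s t z e = e)
    (R : ℝ) : ∃ B : ℝ, ∀ ρ r : ℝ, |ρ| ≤ R → γ z (ρ • e) = γ x (r • u) → |r| ≤ B := by
  obtain ⟨ε, hε, hpr⟩ := hG.proper
  obtain ⟨δ, hδ, hsm⟩ := hG.small (ε / 2) (half_pos hε)
  obtain ⟨C, l, hC, hl, hl1, hhyp⟩ := hs
  obtain ⟨K, hK⟩ := hxz (ε / 2) (half_pos hε)
  -- the vectors `A n z (ρ • e)` are small
  have hSe : s.S z e = e := by
    conv_lhs => rw [← he]
    conv_rhs => rw [← he]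
    exact congrArg (fun L : W →L[ℝ] W => L (t.S z e)) (s.SS z)
  have hdec : ∀ n, ‖k.A n z e‖ ≤ C * l ^ n * ‖e‖ := fun n => by
    have h1 := (hhyp n z e).1
    rw [hSe] at h1
    rw [Coc.A, hk.D]
    exact h1
  have ht : Tendsto (fun n : ℕ => (|R| + 1) * (C * l ^ n * ‖e‖)) atTop
      (𝓝 ((|R| + 1) * (C * 0 * ‖e‖))) :=
    (((tendsto_pow_atTop_nhds_zero_of_lt_one hl.le hl1).const_mul C).mul_const _).const_mul _
  rw [mul_zero, zero_mul, mul_zero] at ht
  obtain ⟨N, hNK, hN⟩ := ((eventually_ge_atTop K).and (ht.eventually (gt_mem_nhds hδ))).exists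
  have hAu : 0 < ‖k.A N x u‖ := by
    rw [norm_pos_iff]
    intro h0
    have h1 := k.I_A N x u
    rw [hk.S, hu, h0, map_zero] at h1
    exact hu0 h1.symm
  refine ⟨‖k.A N x u‖⁻¹, fun ρ r hρ hr => ?_⟩
  have he' : PP s t z (ρ • e) = ρ • e := by rw [map_smul, he]
  have hu' : PP s t x (r • u) = r • u := by rw [map_smul, hu]
  obtain ⟨h1, h2⟩ := gam_iter hk hG he' N
  obtain ⟨h3, h4⟩ := gam_iter hk hG hu' N
  have h5 : ‖k.A N z (ρ • e)‖ ≤ δ := by
    rw [map_smul, norm_smul, Real.norm_eq_abs]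
    have h6 : |ρ| ≤ |R| + 1 := hρ.trans ((le_abs_self R).trans (by linarith))
    calc |ρ| * ‖k.A N z e‖ ≤ (|R| + 1) * (C * l ^ N * ‖e‖) := by
          gcongr
          exact hdec N
      _ ≤ δ := le_of_lt hN
  have h6 := hsm _ _ h1 h5
  rw [← h2, hr] at h6
  have h7 : γ (f^[N] x) (k.A N x (r • u)) ∈ Wl f ε (f^[N] x) := by
    rw [← h4]
    intro j
    have h8 := h6 j
    have h9 := hK (j + N) 0 (by omega)
    simp only [iterate_zero, id_eq] at h9
    rw [iterate_add_apply, iterate_add_apply] at h9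
    calc dist (f^[j] (f^[N] (γ x (r • u)))) (f^[j] (f^[N] x))
        ≤ dist (f^[j] (f^[N] (γ x (r • u)))) (f^[j] (f^[N] z)) +
          dist (f^[j] (f^[N] z)) (f^[j] (f^[N] x)) := dist_triangle _ _ _
      _ ≤ ε / 2 + ε / 2 := by
          rw [dist_comm (f^[j] (f^[N] z))]
          exact add_le_add h8 h9
      _ = ε := by ring
  have h8 := hpr _ _ h3 h7
  rw [map_smul, norm_smul, Real.norm_eq_abs] at h8
  rw [← one_div, le_div_iff₀ hAu]
  exact h8

end REPAux

open REPAux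

/-- **REP**: change of the base point in a leaf. -/
theorem specRep (hD : SpecDbl.{u}) (hC : SpecCoc.{u, v}) : SpecRep.{u, v} := by
  intro M W _ _ _ _ _ E f g s t C₀ γ hB hG x z u e hxz hu hu0 he
  obtain ⟨k, hk⟩ := hC M W E f g s t C₀ hB
  obtain ⟨-, -, htr, -⟩ := hD M f g hB.comm
  have he' : ∀ ρ : ℝ, PP s t z (ρ • e) = ρ • e := fun ρ => by rw [map_smul, he]
  have hu' : ∀ r : ℝ, PP s t x (r • u) = r • u := fun r => by rw [map_smul, hu]
  have hex : ∀ ρ : ℝ, ∃ r : ℝ, γ z (ρ • e) = γ x (r • u) := fun ρ => by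
    obtain ⟨w, hw, hwy⟩ := hG.surj x _ (htr _ _ _ hxz (hG.dbl z _ (he' ρ)))
    obtain ⟨r, hr⟩ := exists_smul (PP s t x) (hB.rank x) hu hu0 hw
    exact ⟨r, by rw [hr, hwy]⟩
  choose τ hτ using hex
  have huniq : ∀ r r' : ℝ, γ x (r • u) = γ x (r' • u) → r = r' := fun r r' h =>
    smul_left_injective ℝ hu0 (hG.inj x _ _ (hu' r) (hu' r') h)
  refine ⟨τ, ?_, fun he0 ρ ρ' h => ?_, hτ⟩
  · rw [continuous_iff_continuousAt]
    intro ρ
    obtain ⟨B, hBd⟩ := rep_bdd hk hB.hs hG hxz hu hu0 he (|ρ| + 1)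
    have h1 : ContinuousOn τ (Icc (-(|ρ| + 1)) (|ρ| + 1)) := by
      refine contOn_of_graph (K := Icc (-B) B) isCompact_Icc
        (G := {q : ℝ × ℝ | γ z (q.1 • e) = γ x (q.2 • u)}) ?_ ?_ ?_
      · exact isClosed_eq ((cont_ray hG he).comp continuous_fst)
          ((cont_ray hG hu).comp continuous_snd)
      · intro a ha
        exact ⟨abs_le.1 (hBd a (τ a) (abs_le.2 ha) (hτ a)), hτ a⟩
      · intro a _ y _ hy
        have hy' : γ z (a • e) = γ x (y • u) := hy
        exact huniq _ _ (hy'.symm.trans (hτ a))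
    refine h1.continuousAt (Icc_mem_nhds ?_ ?_)
    · have := neg_abs_le ρ
      linarith
    · have := le_abs_self ρ
      linarith
  · have h1 : γ z (ρ • e) = γ z (ρ' • e) := by rw [hτ ρ, hτ ρ', h]
    exact smul_left_injective ℝ he0 (hG.inj z _ _ (he' ρ) (he' ρ') h1)

end Pool.Agent.Lib.MP610fe3.HR
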