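import Pool.Agent.Lib.MP_610fe3_an.HR.F1Spec
import Pool.Agent.Lib.MP_610fe3_an.HR.REP
import Pool.Agent.Lib.MP_610fe3_an.HR.COC

/-!
# CMP: composition of two displacements in a leaf
-/

set_option autoImplicit false

open Set Filter Function
open scoped Topology

namespace Pool.Agent.Lib.MP610fe3.HR

open Cf CH

universe u v

namespace F1CMPAux

variable {M W : Type*} [MetricSpace M] [NormedAddCommGroup W] [NormedSpace ℝ W]
  {E : Emb M W} {f g : M ≃ₜ M} {s : Split E f} {t : Split E g}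

theorem I_le (k : Coc W f) (n : ℕ) (x : M) (w : W) : ‖k.I n x w‖ ≤ k.K ^ n * ‖w‖ := by
  induction n generalizing w with
  | zero => simp
  | succ n ih =>
    rw [Coc.I_succ]
    calc ‖k.I n x (k.Di (f^[n + 1] x) w)‖ ≤ k.K ^ n * ‖k.Di (f^[n + 1] x) w‖ := ih _
      _ ≤ k.K ^ n * (k.K * ‖w‖) :=
          mul_le_mul_of_nonneg_left (k.Di_le _ _) (pow_nonneg k.K_pos.le _)
      _ = k.K ^ (n + 1) * ‖w‖ := by ring

theorem S_of_PP {x : M} {w : W} (hw : PP s t x w = w) : s.S x w = w := by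
  conv_lhs => rw [← hw]
  conv_rhs => rw [← hw]
  exact congrArg (fun L : W →L[ℝ] W => L (t.S x w)) (s.SS x)

end F1CMPAux

open REPAux F1CMPAux

/-- **CMP**: composition of two displacements. -/
theorem specCmp : SpecCmp.{u, v} := by
  intro M W _ _ _ _ _ E f g s t C₀ γ hB hG K
  obtain ⟨k, hk⟩ := specCoc M W E f g.symm s t.swap C₀ hB
  obtain ⟨ε, hε, hpr⟩ := hG.proper
  obtain ⟨r, hr, hsm⟩ := hG.small (ε / 2) (half_pos hε)
  obtain ⟨C, l, hC, hl, hl1, hhyp⟩ := hB.hs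
  have hdec : ∀ n x w, PP s t.swap x w = w → ‖k.A n x w‖ ≤ C * l ^ n * ‖w‖ := fun n x w hw => by
    have h1 := (hhyp n x w).1
    rw [S_of_PP hw] at h1
    rw [Coc.A, hk.D]
    exact h1
  have ht : Tendsto (fun n : ℕ => C * l ^ n * (|K| + 1)) atTop (𝓝 (C * 0 * (|K| + 1))) :=
    ((tendsto_pow_atTop_nhds_zero_of_lt_one hl.le hl1).const_mul C).mul_const _
  rw [mul_zero, zero_mul] at ht
  obtain ⟨N, hN⟩ := (ht.eventually (gt_mem_nhds hr)).exists
  have hK0 := abs_nonneg K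
  have hKle := le_abs_self K
  refine ⟨k.K ^ N, fun x u v u' hu huK hv hv1 hu' h => ?_⟩
  obtain ⟨a1, a2⟩ := gam_iter hk hG hu N
  obtain ⟨b1, b2⟩ := gam_iter hk hG hv N
  obtain ⟨c1, c2⟩ := gam_iter hk hG hu' N
  have hlN : 0 < C * l ^ N := mul_pos hC (pow_pos hl N)
  have h1 : ‖k.A N x u‖ ≤ r := (hdec N x u hu).trans
    ((mul_le_mul_of_nonneg_left (by linarith) hlN.le).trans hN.le)
  have h2 : ‖k.A N (γ x u) v‖ ≤ r := (hdec N _ v hv).trans
    ((mul_le_mul_of_nonneg_left (by linarith) hlN.le).trans hN.le)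
  have h3 := hsm _ _ a1 h1
  have h4 := hsm _ _ b1 h2
  rw [← a2] at h3
  rw [← b2, ← h] at h4
  have h5 : γ (f^[N] x) (k.A N x u') ∈ Wl f ε (f^[N] x) := by
    rw [← c2]
    intro j
    calc dist (f^[j] (f^[N] (γ x u'))) (f^[j] (f^[N] x))
        ≤ dist (f^[j] (f^[N] (γ x u'))) (f^[j] (f^[N] (γ x u))) +
          dist (f^[j] (f^[N] (γ x u))) (f^[j] (f^[N] x)) := dist_triangle _ _ _
      _ ≤ ε / 2 + ε / 2 := add_le_add (h4 j) (h3 j)
      _ = ε := by ring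
  have h6 := hpr _ _ c1 h5
  have h7 := k.I_A N x u'
  rw [hk.S, hu'] at h7
  calc ‖u'‖ = ‖k.I N x (k.A N x u')‖ := by rw [h7]
    _ ≤ k.K ^ N * ‖k.A N x u'‖ := I_le k N x _
    _ ≤ k.K ^ N * 1 := mul_le_mul_of_nonneg_left h6 (pow_nonneg k.K_pos.le _)
    _ = k.K ^ N := mul_one _

end Pool.Agent.Lib.MP610fe3.HR
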