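import Pool.Agent.Lib.MP_610fe3_an.HR.Spec
import Pool.Agent.Lib.MP_610fe3_an.Cf.Br
import Pool.Agent.Lib.MP_610fe3_an.Cf.Dec

/-!
# Module PAIR: a common scale for two commuting hyperbolic homeomorphisms
-/

set_option autoImplicit false

open Set Filter Function
open scoped Topology

namespace Pool.Agent.Lib.MP610fe3.HR

open Cf CH

universe u v

namespace PAIRAux

theorem mono {M : Type u} [MetricSpace M] {f : M ≃ₜ M} {ε C l ε' C' l' : ℝ} (h : Loc f ε C l)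
    (hε : 0 < ε') (h1 : ε' ≤ ε) (h2 : C ≤ C') (h3 : l ≤ l') (h4 : l' < 1) : Loc f ε' C' l' :=
  ⟨h.decs.mono hε h1 h2 h3 h4, h.decu.mono hε h1 h2 h3 h4, h.br.mono hε h1 h2, h.sh, h.shu⟩

theorem exists_loc {M : Type u} {W : Type v} [MetricSpace M] [CompactSpace M]
    [NormedAddCommGroup W] [NormedSpace ℝ W] {E : Emb M W} {f : M ≃ₜ M} (s : Split E f)
    (hs : s.Hyperbolic) : ∃ ε C l : ℝ, Loc f ε C l := by
  obtain ⟨ε₁, C₁, l₁, h1⟩ := exists_dec s hs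
  obtain ⟨ε₂, C₂, l₂, h2⟩ := exists_dec s.swap hs.swap
  obtain ⟨ε₃, C₃, h3⟩ := br.{u, v} M W E f s hs
  have hε : 0 < min ε₁ (min ε₂ ε₃) := lt_min h1.ε_pos (lt_min h2.ε_pos h3.ε_pos)
  have hl : max l₁ l₂ < 1 := max_lt h1.l_lt h2.l_lt
  exact ⟨min ε₁ (min ε₂ ε₃), max C₁ (max C₂ C₃), max l₁ l₂,
    h1.mono hε (min_le_left _ _) (le_max_left _ _) (le_max_left _ _) hl,
    h2.mono hε ((min_le_right _ _).trans (min_le_left _ _))
      ((le_max_left _ _).trans (le_max_right _ _)) (le_max_right _ _) hl,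
    h3.mono hε ((min_le_right _ _).trans (min_le_right _ _))
      ((le_max_right _ _).trans (le_max_right _ _)),
    s.shadowing hs, s.swap.shadowing hs.swap⟩

end PAIRAux

open PAIRAux in
theorem specPair : SpecPair.{u, v} := by
  intro M W _ _ _ _ _ E f g s t hs ht hfg
  obtain ⟨ε₁, C₁, l₁, h1⟩ := exists_loc s hs
  obtain ⟨ε₂, C₂, l₂, h2⟩ := exists_loc t ht
  have hε : 0 < min ε₁ ε₂ := lt_min h1.br.ε_pos h2.br.ε_pos
  have hl : max l₁ l₂ < 1 := max_lt h1.decs.l_lt h2.decs.l_lt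
  exact ⟨min ε₁ ε₂, max C₁ C₂, max l₁ l₂, hfg,
    mono h1 hε (min_le_left _ _) (le_max_left _ _) (le_max_left _ _) hl,
    mono h2 hε (min_le_right _ _) (le_max_right _ _) (le_max_right _ _) hl⟩

end Pool.Agent.Lib.MP610fe3.HR
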