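import Pool.Agent.Lib.MP_610fe3_an.HR.F1Spec
import Pool.Agent.Lib.MP_610fe3_an.HR.PROD
import Pool.Agent.Lib.MP_610fe3_an.HR.PAIR
import Pool.Agent.Lib.MP_610fe3_an.HR.COC
import Pool.Agent.Lib.MP_610fe3_an.Cf.Len2

/-!
# Module CRT: from the derivatives to the metric, for the intersection of two stable bundles
-/

set_option autoImplicit false

open Set Filter Function
open scoped Topology

namespace Pool.Agent.Lib.MP610fe3.HR

open Cf CH Cf.Len2

universe u v

namespace F1CRTAux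

variable {M W : Type*} [MetricSpace M] [CompactSpace M] [NormedAddCommGroup W]
  [NormedSpace ℝ W] {E : Emb M W} {f g : M ≃ₜ M}

theorem cone2 (s : Split E f) (t : Split E g) (hs : s.Hyperbolic) (ht : t.Hyperbolic) {η : ℝ}
    (hη : 0 < η) : ∃ ε : ℝ, 0 < ε ∧ ∀ x, ∀ z ∈ Wl f ε x, z ∈ Wl g ε x →
      ‖E.e z - E.e x - PP s t x (E.e z - E.e x)‖ ≤ η * dist z x := by
  obtain ⟨K, hK1, hK⟩ := s.exists_bdd
  have hK0 : 0 < K := by linarith
  obtain ⟨ε₁, hε₁, h1⟩ := exists_cone s hs (η := η / 2) (by positivity)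
  obtain ⟨ε₂, hε₂, h2⟩ := exists_cone t ht (η := η / 2 / K) (by positivity)
  refine ⟨min ε₁ ε₂, lt_min hε₁ hε₂, fun x z hz hz' => ?_⟩
  have h3 := h1 x z (Wl_mono (min_le_left _ _) hz)
  have h4 := h2 x z (Wl_mono (min_le_right _ _) hz')
  have h5 : E.e z - E.e x - PP s t x (E.e z - E.e x) =
      (E.e z - E.e x - s.S x (E.e z - E.e x)) +
        s.S x (E.e z - E.e x - t.S x (E.e z - E.e x)) := by
    rw [map_sub (s.S x) (E.e z - E.e x)]
    change E.e z - E.e x - s.S x (t.S x (E.e z - E.e x)) = _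
    abel
  rw [h5]
  refine (norm_add_le _ _).trans ?_
  have h6 : ‖s.S x (E.e z - E.e x - t.S x (E.e z - E.e x))‖ ≤ K * (η / 2 / K * dist z x) :=
    ((s.S x).le_opNorm _).trans (mul_le_mul (hK x).1 h4 (norm_nonneg _) hK0.le)
  have h7 : K * (η / 2 / K * dist z x) = η / 2 * dist z x := by field_simp
  linarith

end F1CRTAux

open F1CRTAux in
/-- **CRT.** -/
theorem specCrt : SpecCrt.{u, v} := by
  intro M W _ _ _ _ _ E f g s t C θ Q hs ht hfg hθ hθQ hQ1 H
  have hQ : 0 < Q := hθ.trans hθQ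
  obtain ⟨ε₀, C₀, l₀, hP⟩ := specPair M W E f g s t hs ht hfg
  obtain ⟨δ₄, hδ₄, H4⟩ := (specProd M f g ε₀ C₀ l₀ hP).2.2.2.1
  have hC₀ : 1 ≤ C₀ := hP.one.br.one_le
  have hl0 := hP.one.decs.l_pos
  have hl1 := hP.one.decs.l_lt
  have hcomm : ∀ x w, s.S x (t.S x w) = t.S x (s.S x w) := fun x w =>
    congrArg (fun L => L w) (SS_commute s t hs ht hfg x)
  have hPP : ∀ x w, PP s t x (PP s t x w) = PP s t x w := by
    intro x w
    change s.S x (t.S x (s.S x (t.S x w))) = s.S x (t.S x w)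
    rw [← hcomm x (t.S x w)]
    have h1 : t.S x (t.S x w) = t.S x w := congrArg (fun L => L w) (t.SS x)
    have h2 : s.S x (s.S x (t.S x w)) = s.S x (t.S x w) :=
      congrArg (fun L => L (t.S x w)) (s.SS x)
    rw [h1, h2]
  obtain ⟨K, hK1, hK⟩ := s.exists_bdd
  obtain ⟨K', hK1', hK'⟩ := t.exists_bdd
  have hK0 : 0 < K := by linarith
  have hK0' : 0 < K' := by linarith
  have hPPn : ∀ x w, ‖PP s t x w‖ ≤ K * K' * ‖w‖ := by
    intro x w
    calc ‖PP s t x w‖ ≤ ‖s.S x‖ * ‖t.S x w‖ := (s.S x).le_opNorm _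
      _ ≤ K * (K' * ‖w‖) := by
          refine mul_le_mul (hK x).1 ?_ (norm_nonneg _) hK0.le
          exact ((t.S x).le_opNorm _).trans
            (mul_le_mul_of_nonneg_right (hK' x).1 (norm_nonneg _))
      _ = K * K' * ‖w‖ := by ring
  set C' : ℝ := |C| * (K * K') with hC'
  have hC'0 : 0 ≤ C' := by positivity
  have H' : ∀ (m : ℕ) x w, ‖iterD s.D f m x (PP s t x w)‖ ≤ C' * θ ^ m * ‖w‖ := by
    intro m x w
    refine (H m x _ (hPP x w)).trans ?_
    have h1 := hPPn x w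
    have h2 : C * θ ^ m ≤ |C| * θ ^ m := mul_le_mul_of_nonneg_right (le_abs_self C) (by positivity)
    calc C * θ ^ m * ‖PP s t x w‖ ≤ |C| * θ ^ m * ‖PP s t x w‖ :=
          mul_le_mul_of_nonneg_right h2 (norm_nonneg _)
      _ ≤ |C| * θ ^ m * (K * K' * ‖w‖) := mul_le_mul_of_nonneg_left h1 (by positivity)
      _ = C' * θ ^ m * ‖w‖ := by rw [hC']; ring
  -- the time step
  obtain ⟨N, hN1, hNpos⟩ : ∃ N : ℕ, C' * (θ / Q) ^ N < 1 / 2 ∧ 1 ≤ N := by
    have h := (tendsto_pow_atTop_nhds_zero_of_lt_one (r := θ / Q) (by positivity)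
      ((div_lt_one hQ).2 hθQ)).const_mul C'
    rw [mul_zero] at h
    exact ((h.eventually (gt_mem_nhds (show (0 : ℝ) < 1 / 2 by norm_num))).and
      (eventually_ge_atTop 1)).exists
  have hQN : 0 < Q ^ N := by positivity
  have hN : C' * θ ^ N ≤ Q ^ N / 2 := by
    have h1 : C' * θ ^ N = C' * (θ / Q) ^ N * Q ^ N := by
      rw [div_pow]
      field_simp
    rw [h1]
    nlinarith
  obtain ⟨B, hB⟩ : ∃ B : ℝ, 0 < B ∧ ∀ x, ‖iterD s.D f N x‖ ≤ B := by
    have hc : Continuous fun x => ‖iterD s.D f N x‖ :=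
      (continuous_iterD s.hD.cont f.continuous N).norm
    obtain ⟨B, hB⟩ := (isCompact_range hc).bddAbove
    exact ⟨max B 1, by positivity, fun x => (hB ⟨x, rfl⟩).trans (le_max_left _ _)⟩
  obtain ⟨hB0, hB⟩ := hB
  obtain ⟨r, hr, happ⟩ := hasD_iter_approx s N (Q ^ N / 4) (by positivity)
  obtain ⟨ε₂, hε₂, hcone⟩ := cone2 s t hs ht (η := Q ^ N / 4 / B) (by positivity)
  obtain ⟨L, r', hL1, hr', hlip⟩ := s.hD.exists_lip
  set ε : ℝ := min (min (r / 2) (r' / 2)) ε₂ with hε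
  have hε0 : 0 < ε := by positivity
  have hεr : ε < r := lt_of_le_of_lt ((min_le_left _ _).trans (min_le_left _ _)) (by linarith)
  have hεr' : ε < r' := lt_of_le_of_lt ((min_le_left _ _).trans (min_le_right _ _)) (by linarith)
  have hstep : ∀ x, ∀ z ∈ Wl f ε x, z ∈ Wl g ε x →
      dist (f^[N] z) (f^[N] x) ≤ Q ^ N * dist z x := by
    intro x z hz hz'
    have h1 := happ x z ((hz 0).trans_lt hεr)
    have h2 := hcone x z (Wl_mono (min_le_right _ _) hz) (Wl_mono (min_le_right _ _) hz')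
    have h3 := H' N x (E.e z - E.e x)
    have h4 : iterD s.D f N x (E.e z - E.e x) = iterD s.D f N x (PP s t x (E.e z - E.e x)) +
        iterD s.D f N x (E.e z - E.e x - PP s t x (E.e z - E.e x)) := by
      rw [← map_add]
      congr 1
      abel
    have h5 : ‖iterD s.D f N x (E.e z - E.e x - PP s t x (E.e z - E.e x))‖ ≤
        Q ^ N / 4 * dist z x := by
      refine ((iterD s.D f N x).le_opNorm _).trans ?_
      calc ‖iterD s.D f N x‖ * ‖E.e z - E.e x - PP s t x (E.e z - E.e x)‖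
          ≤ B * (Q ^ N / 4 / B * dist z x) := by
            have := hB x
            gcongr
        _ = Q ^ N / 4 * dist z x := by field_simp
    have h6 : ‖E.e z - E.e x‖ = dist z x := (E.dist_eq z x).symm
    rw [h6] at h3
    have h7 : ‖iterD s.D f N x (E.e z - E.e x)‖ ≤ Q ^ N / 2 * dist z x + Q ^ N / 4 * dist z x := by
      rw [h4]
      refine (norm_add_le _ _).trans (add_le_add ?_ h5)
      exact h3.trans (mul_le_mul_of_nonneg_right hN dist_nonneg)
    rw [E.dist_eq (f^[N] z) (f^[N] x)]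
    have h8 : E.e (f^[N] z) - E.e (f^[N] x) =
        (E.e (f^[N] z) - E.e (f^[N] x) - iterD s.D f N x (E.e z - E.e x)) +
        iterD s.D f N x (E.e z - E.e x) := by abel
    rw [h8]
    refine (norm_add_le _ _).trans ?_
    linarith
  have hq : ∀ (q : ℕ) (x z : M), (∀ n, f^[n] z ∈ Wl f ε (f^[n] x) ∧ f^[n] z ∈ Wl g ε (f^[n] x)) →
      dist (f^[N * q] z) (f^[N * q] x) ≤ Q ^ (N * q) * dist z x := by
    intro q
    induction q with
    | zero => intro x z _; simp
    | succ q ih =>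
      intro x z hz
      have h1 := hstep _ _ (hz (N * q)).1 (hz (N * q)).2
      rw [← iterate_add_apply, ← iterate_add_apply] at h1
      have h2 : N + N * q = N * (q + 1) := by ring
      rw [h2] at h1
      calc _ ≤ Q ^ N * dist (f^[N * q] z) (f^[N * q] x) := h1
        _ ≤ Q ^ N * (Q ^ (N * q) * dist z x) := by
            gcongr
            exact ih x z hz
        _ = Q ^ (N * (q + 1)) * dist z x := by ring
  refine ⟨min δ₄ (ε / C₀ ^ 2), L ^ N / Q ^ N, by positivity, ?_, fun x z hz hz' n => ?_⟩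
  · rw [one_le_div hQN]
    exact (pow_le_one₀ hQ.le hQ1).trans (one_le_pow₀ hL1)
  have hz4 := H4 x z (Wl_mono (min_le_left _ _) hz) (Wl_mono (min_le_left _ _) hz')
  have hdist : dist z x ≤ ε / C₀ ^ 2 := (hz 0).trans (min_le_right _ _)
  have hall : ∀ n m : ℕ, dist (f^[n] (g^[m] z)) (f^[n] (g^[m] x)) ≤ ε := by
    intro n m
    refine (hz4.2 n m).trans ?_
    have h1 : l₀ ^ (n + m) ≤ 1 := pow_le_one₀ hl0.le hl1.le
    calc C₀ ^ 2 * l₀ ^ (n + m) * dist z x ≤ C₀ ^ 2 * 1 * (ε / C₀ ^ 2) := by gcongr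
      _ = ε := by field_simp
  have hw : ∀ n, f^[n] z ∈ Wl f ε (f^[n] x) ∧ f^[n] z ∈ Wl g ε (f^[n] x) := by
    intro n
    constructor
    · intro k
      rw [← iterate_add_apply, ← iterate_add_apply]
      exact hall (k + n) 0
    · intro k
      rw [← PRODAux.comm_iter hfg, ← PRODAux.comm_iter hfg]
      exact hall n k
  have hz2 : ∀ k, dist (f^[k] z) (f^[k] x) < r' := fun k => ((hw k).1 0).trans_lt hεr'
  have hLip : ∀ i j, dist (f^[i + j] z) (f^[i + j] x) ≤ L ^ j * dist (f^[i] z) (f^[i] x) := by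
    intro i j
    induction j with
    | zero => simp
    | succ j ih =>
      have h2 := hlip (f^[i + j] z) (f^[i + j] x) (hz2 _)
      rw [← add_assoc, iterate_succ_apply', iterate_succ_apply']
      calc _ ≤ L * dist (f^[i + j] z) (f^[i + j] x) := h2
        _ ≤ L * (L ^ j * dist (f^[i] z) (f^[i] x)) := by gcongr
        _ = L ^ (j + 1) * dist (f^[i] z) (f^[i] x) := by ring
  set q := n / N with hqdef
  set j := n % N with hj
  have hkq : N * q + j = n := Nat.div_add_mod n N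
  have hjN : j < N := Nat.mod_lt _ hNpos
  have h1 := hLip (N * q) j
  rw [hkq] at h1
  have h2 := hq q x z hw
  have hLj : L ^ j ≤ L ^ N := pow_le_pow_right₀ hL1 hjN.le
  have hlq : Q ^ (N * q) ≤ Q ^ n / Q ^ N := by
    rw [le_div_iff₀ hQN, ← pow_add]
    exact pow_le_pow_of_le_one hQ.le hQ1 (by omega)
  have hL0 : 0 ≤ L ^ j := by positivity
  calc dist (f^[n] z) (f^[n] x) ≤ L ^ j * dist (f^[N * q] z) (f^[N * q] x) := h1
    _ ≤ L ^ N * (Q ^ n / Q ^ N * dist z x) := by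
        refine mul_le_mul hLj (h2.trans ?_) dist_nonneg (by positivity)
        exact mul_le_mul_of_nonneg_right hlq dist_nonneg
    _ = L ^ N / Q ^ N * Q ^ n * dist z x := by ring

end Pool.Agent.Lib.MP610fe3.HR
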