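import Pool.Agent.Lib.MP_610fe3_an.HR.F1Spec
import Pool.Agent.Lib.MP_610fe3_an.HR.PROD

/-!
# Module CU of hive F1: local joint integrability near the wall (helper81)
-/

set_option autoImplicit false

open Set Filter Function
open scoped Topology

namespace Pool.Agent.Lib.MP610fe3.HR

open Cf CH

universe u v

namespace F1CUAux

variable {M : Type u} [MetricSpace M]

/-- Subdivision of `[0, 1]` in `N` equal pieces. -/
theorem subdiv {φ : ℝ → M} {N : ℕ} (hN : 0 < N) {D : ℝ}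
    (h : ∀ ρ ∈ Icc (0 : ℝ) 1, ∀ ρ' ∈ Icc (0 : ℝ) 1, |ρ' - ρ| * N ≤ 1 →
      dist (φ ρ) (φ ρ') ≤ D) : dist (φ 0) (φ 1) ≤ N * D := by
  have hN' : (0 : ℝ) < N := by exact_mod_cast hN
  have hmem : ∀ k : ℕ, k ≤ N → (k / N : ℝ) ∈ Icc (0 : ℝ) 1 := fun k hk =>
    ⟨by positivity, by rw [div_le_one hN']; exact_mod_cast hk⟩
  have key : ∀ k : ℕ, k ≤ N → dist (φ 0) (φ (k / N : ℝ)) ≤ k * D := by
    intro k
    induction k with
    | zero => intro _; simp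
    | succ k ih =>
      intro hk
      have h1 := ih (by omega)
      have h2 := h _ (hmem k (by omega)) _ (hmem (k + 1) hk) (by
        have e : ((k + 1 : ℕ) : ℝ) / N - (k : ℝ) / N = 1 / N := by
          push_cast; ring
        rw [e, abs_of_pos (by positivity), one_div, inv_mul_cancel₀ hN'.ne'])
      have h3 := dist_triangle (φ 0) (φ (k / N : ℝ)) (φ ((k + 1 : ℕ) / N : ℝ))
      push_cast at *
      linarith
  have := key N le_rfl
  rwa [div_self hN'.ne'] at this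

/-- The limit of the sums. -/
theorem eq_of_bound {x y : M} {B R C₂ C₃ : ℝ} {m₀ : ℕ} (hB : 1 ≤ B) (hR0 : 0 ≤ R)
    (hBR : B * R < 1)
    (h : ∀ m : ℕ, m₀ ≤ m → ∃ N : ℝ, N ≤ C₂ * B ^ m + 2 ∧ dist x y ≤ N * (C₃ * R ^ m))
    (hC₃ : 0 ≤ C₃) : x = y := by
  have hR1 : R < 1 := by nlinarith
  have t1 : Tendsto (fun m : ℕ => C₂ * C₃ * (B * R) ^ m + 2 * C₃ * R ^ m) atTop (𝓝 0) := by
    have h1 := (tendsto_pow_atTop_nhds_zero_of_lt_one (by positivity) hBR).const_mul (C₂ * C₃)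
    have h2 := (tendsto_pow_atTop_nhds_zero_of_lt_one hR0 hR1).const_mul (2 * C₃)
    have := h1.add h2
    simpa using this
  have h0 : dist x y ≤ 0 := by
    refine ge_of_tendsto t1 (eventually_atTop.2 ⟨m₀, fun m hm => ?_⟩)
    obtain ⟨N, hN, hd⟩ := h m hm
    refine hd.trans ((mul_le_mul_of_nonneg_right hN (by positivity)).trans (le_of_eq ?_))
    rw [mul_pow]; ring
  exact dist_le_zero.1 h0

end F1CUAux

open F1CUAux PRODAux in
theorem specCu (hL31 : SpecL31.{u}) (hLip : SpecLip.{u, v}) (hDefc : SpecDefc.{u, v})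
    (hHolc : SpecHolc.{u}) : SpecCu.{u, v} := by
  intro M W _ _ _ _ _ E f g s t C₀ δ C₁ B Q L lg ε C l J hbun hp hn
  obtain ⟨eD, CD, heD, hCD, HD⟩ := hDefc M W E f g s t C₀ δ C₁ B Q L lg ε C l J hbun hp hn
  obtain ⟨eH, CH', heH, hCH, HH⟩ := hHolc M f g ε C l δ C₁ L lg hp hn.L_one hn.decg hn.decg' hn.lip
  obtain ⟨δ₁, hδ₁, HP⟩ := hL31 M f g ε C l hp (eH / 2) (by positivity)
  have hε := hp.one.br.ε_pos
  -- the middle scale
  set η : ℝ := min (min ε (eH / 2)) (min (δ₁ / 2) (eD / 2)) with hη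
  have hη0 : 0 < η := by
    refine lt_min (lt_min hε (by positivity)) (lt_min (by positivity) (by positivity))
  have hη1 : η ≤ ε := (min_le_left _ _).trans (min_le_left _ _)
  have hη2 : η ≤ eH / 2 := (min_le_left _ _).trans (min_le_right _ _)
  have hη3 : η ≤ δ₁ / 2 := (min_le_right _ _).trans (min_le_left _ _)
  have hη4 : η ≤ eD / 2 := (min_le_right _ _).trans (min_le_right _ _)
  obtain ⟨δb, hδb, Hb⟩ := hp.one.br.exist η hη0
  obtain ⟨δL, L₀, hδL, hL₀, HL⟩ := hLip M W E f g s t C₀ hbun (min eD (δb / 3))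
    (lt_min heD (by positivity))
  refine ⟨min δL (min (δb / 3) η), lt_min hδL (lt_min (by positivity) hη0), ?_⟩
  intro a z z' q hz hz' hq hqz
  have e1 : min δL (min (δb / 3) η) ≤ δL := min_le_left _ _
  have e2 : min δL (min (δb / 3) η) ≤ δb / 3 := (min_le_right _ _).trans (min_le_left _ _)
  have e3 : min δL (min (δb / 3) η) ≤ η := (min_le_right _ _).trans (min_le_right _ _)
  obtain ⟨c, hc0, hc1, hc⟩ := HL a z ⟨H1.wl_mono hz.1 e1, hz.2⟩
  have : Nonempty M := ⟨a⟩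
  have m1 : (1 : ℝ) ∈ Icc (0 : ℝ) 1 := ⟨zero_le_one, le_rfl⟩
  have m0 : (0 : ℝ) ∈ Icc (0 : ℝ) 1 := ⟨le_rfl, zero_le_one⟩
  -- the brackets
  have hbr : ∀ ρ ∈ Icc (0 : ℝ) 1, ∃ w, w ∈ Wl f η z' ∧ w ∈ Wl f.symm η (c ρ) := by
    intro ρ hρ
    refine Hb _ _ ?_
    have h1 : dist z' z ≤ δb / 3 := (H1.wl_dist hz').trans e2
    have h2 : dist z (c ρ) ≤ δb / 3 := by
      rw [← hc1]
      exact (H1.wl_dist (hc ρ hρ 1 m1).1.1).trans (min_le_right _ _)
    have h3 := dist_triangle z' z (c ρ)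
    linarith
  choose! p hp1 hp2 using hbr
  have hpz : p 1 = z' := by
    refine hp.one.br.unique z' z _ _ (H1.wl_mono (hp1 1 m1) hη1) ?_ (H1.wl_self hε.le z')
      (H1.wl_mono hz' (e3.trans hη1))
    have := hp2 1 m1
    rw [hc1] at this
    exact H1.wl_mono this hη1
  have hpq : p 0 = q := by
    refine hp.one.br.unique z' a _ _ (H1.wl_mono (hp1 0 m0) hη1) ?_
      (H1.wl_mono hqz (e3.trans hη1)) (H1.wl_mono hq (e3.trans hη1))
    have := hp2 0 m0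
    rw [hc0] at this
    exact H1.wl_mono this hη1
  -- the projections to the leaf `C` of `z'`
  have hfi : ∀ ρ ∈ Icc (0 : ℝ) 1, ∃ w, Dbl f g z' w ∧ Dbl f g.symm w (p ρ) ∧
      w ∈ Wl f (eH / 2) z' ∧ w ∈ Wl f (eH / 2) (p ρ) := by
    intro ρ hρ
    obtain ⟨w, h1, h2, h3, h4, -, -⟩ := HP z' (p ρ) (H1.wl_mono (hp1 ρ hρ) (by linarith))
    exact ⟨w, h1, h2, h3, h4⟩
  choose! φ hφ1 hφ2 hφ3 hφ4 using hfi
  -- the main estimate
  set R : ℝ := lg ^ J with hR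
  have hR0 : 0 < R := pow_pos hn.lg_pos J
  have hB1 := hn.B_one
  have hBpos : 0 < B := by linarith
  have hL1 := hn.L_one
  have hQL0 : 0 ≤ Q * L ^ J := mul_nonneg hn.Q_pos.le (by positivity)
  obtain ⟨m₀, hm₀⟩ : ∃ m₀ : ℕ, ∀ m, m₀ ≤ m → CD * (Q * L ^ J) ^ m ≤ eH * R ^ m := by
    have hr : Q * L ^ J / R < 1 := by
      rw [div_lt_one hR0]; exact hn.QJ
    have t := (tendsto_pow_atTop_nhds_zero_of_lt_one (div_nonneg hQL0 hR0.le) hr).const_mul CD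
    rw [mul_zero] at t
    obtain ⟨m₀, hm₀⟩ := eventually_atTop.1 (t.eventually (gt_mem_nhds heH))
    refine ⟨m₀, fun m hm => ?_⟩
    have h1 := (hm₀ m hm).le
    rw [div_pow, ← mul_div_assoc, div_le_iff₀ (by positivity)] at h1
    exact h1
  have hest : ∀ m : ℕ, m₀ ≤ m → ∀ ρ ∈ Icc (0 : ℝ) 1, ∀ ρ' ∈ Icc (0 : ℝ) 1,
      CD * B ^ m * (L₀ * |ρ' - ρ|) ≤ eD → dist (φ ρ) (φ ρ') ≤ CH' * R ^ m := by
    intro m hm ρ hρ ρ' hρ' hd
    obtain ⟨hc1', hc2'⟩ := hc ρ hρ ρ' hρ'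
    have hpp : p ρ' ∈ Wl f (η + η) (p ρ) :=
      H1.wl_trans (hp1 ρ' hρ') (H1.wl_symm (hp1 ρ hρ))
    obtain ⟨v, v1, v2, v3, -, -, -⟩ := HP (p ρ) (p ρ') (H1.wl_mono hpp (by linarith))
    have hv : dist v (p ρ) ≤ CD * Q ^ m := by
      refine HD m (c ρ) (c ρ') (p ρ) (p ρ') v ⟨H1.wl_mono hc1'.1 (min_le_left _ _), hc1'.2⟩ ?_
        (H1.wl_mono (hp2 ρ hρ) (by linarith)) (H1.wl_mono (hp2 ρ' hρ') (by linarith))
        (H1.wl_mono hpp (by linarith)) v1 v2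
      exact (mul_le_mul_of_nonneg_left hc2' (by positivity)).trans hd
    have h5 := HH (J * m) (p ρ) v (φ ρ) (φ ρ') (H1.wl_mono v3 (by linarith))
      (H1.wl_mono (hφ4 ρ hρ) (by linarith)) ?_ v1 (dbl_symm (hφ2 ρ hρ))
      (dbl_trans v2 (dbl_symm (hφ2 ρ' hρ'))) (dbl_trans (dbl_symm (hφ1 ρ hρ)) (hφ1 ρ' hρ')) ?_
    · rw [pow_mul] at h5
      exact h5
    · refine H1.wl_mono (H1.wl_trans (hφ3 ρ' hρ') (H1.wl_symm (hp1 ρ hρ))) (by linarith)
    · rw [pow_mul, pow_mul, ← hR, dist_comm]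
      refine (mul_le_mul_of_nonneg_right hv (by positivity)).trans ?_
      have := hm₀ m hm
      rw [mul_pow] at this
      calc CD * Q ^ m * (L ^ J) ^ m = CD * (Q ^ m * (L ^ J) ^ m) := by ring
        _ ≤ eH * R ^ m := this
  have hfin : φ 0 = φ 1 := by
    refine eq_of_bound (B := B) (R := R) (C₂ := CD * L₀ / eD) (C₃ := CH') (m₀ := m₀) hB1 hR0.le
      hn.BJ (fun m hm => ?_) hCH.le
    set N : ℕ := ⌈CD * L₀ / eD * B ^ m⌉₊ + 1 with hN
    have hx0 : 0 ≤ CD * L₀ / eD * B ^ m := by positivity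
    have hN1 : CD * L₀ / eD * B ^ m ≤ N := by
      rw [hN]; push_cast
      exact (Nat.le_ceil _).trans (by linarith)
    have hN2 : (N : ℝ) ≤ CD * L₀ / eD * B ^ m + 2 := by
      rw [hN]; push_cast
      have := Nat.ceil_lt_add_one hx0
      linarith
    have hNpos : (0 : ℝ) < N := by rw [hN]; push_cast; positivity
    refine ⟨N, hN2, subdiv (by omega) (fun ρ hρ ρ' hρ' hd => hest m hm ρ hρ ρ' hρ' ?_)⟩
    have h1 : CD * L₀ * B ^ m ≤ eD * N := by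
      have : CD * L₀ / eD * B ^ m = CD * L₀ * B ^ m / eD := by ring
      rw [this, div_le_iff₀ heD] at hN1
      linarith
    calc CD * B ^ m * (L₀ * |ρ' - ρ|) = CD * L₀ * B ^ m * |ρ' - ρ| := by ring
      _ ≤ eD * N * |ρ' - ρ| := mul_le_mul_of_nonneg_right h1 (abs_nonneg _)
      _ = eD * (|ρ' - ρ| * N) := by ring
      _ ≤ eD * 1 := mul_le_mul_of_nonneg_left hd heD.le
      _ = eD := mul_one _
  have hf1 : z' = φ 1 := by
    refine prod2 hp (hφ1 1 m1) (dbl_symm ?_)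
    have := hφ2 1 m1
    rwa [hpz] at this
  have hlast := hφ2 0 m0
  rw [hfin, ← hf1, hpq] at hlast
  exact dbl_symm hlast

end Pool.Agent.Lib.MP610fe3.HR
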