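import Pool.Agent.Lib.MP_610fe3_an.HR.F1Spec
import Pool.Agent.Lib.MP_610fe3_an.HR.PROD
import Pool.Agent.Lib.MP_610fe3_an.HR.DBL

/-!
# Module DEFC of the hive F1: the defect in the direction `C` of a thin rectangle (helper15)
-/

set_option autoImplicit false

open Set Filter Function Bundle
open scoped Topology Manifold ContDiff

namespace Pool.Agent.Lib.MP610fe3.HR

open Cf CH

universe u v

namespace F1DEFCAux

variable {M : Type u} [MetricSpace M] {f : M ≃ₜ M}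

/-- `f^k f^-m z = f^-(m-k) z` for `k ≤ m`. -/
theorem iter_symm_of_le {k m : ℕ} (h : k ≤ m) (z : M) :
    f^[k] (f.symm^[m] z) = f.symm^[m - k] z := by
  obtain ⟨j, rfl⟩ := Nat.exists_eq_add_of_le h
  rw [Nat.add_sub_cancel_left, iterate_add_apply, H1.iter_symm_iter]

/-- `f^k f^-m z = f^(k-m) z` for `m ≤ k`. -/
theorem iter_symm_of_ge {k m : ℕ} (h : m ≤ k) (z : M) :
    f^[k] (f.symm^[m] z) = f^[k - m] z := by
  obtain ⟨j, rfl⟩ := Nat.exists_eq_add_of_le h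
  rw [Nat.add_sub_cancel_left, add_comm, iterate_add_apply, H1.iter_symm_iter]

theorem dbl_iter [CompactSpace M] {g : M ≃ₜ M} (hc : ∀ x, f (g x) = g (f x)) (m : ℕ) {x y : M}
    (h : Dbl f g x y) : Dbl f g (f^[m] x) (f^[m] y) := by
  induction m with
  | zero => exact h
  | succ m ih =>
    rw [iterate_succ_apply', iterate_succ_apply']
    exact ((specDbl M f g hc).2.2.2.2.2.2.1 f (fun _ => rfl) hc _ _).2 ih

/-- The rectangle is small at the time `-m`. -/
theorem wl_past {η e : ℝ} {m : ℕ} {x y x' y' : M} (hη : 3 * e ≤ η) (he : 0 ≤ e)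
    (h1 : f.symm^[m] y ∈ Wl f e (f.symm^[m] x)) (h2 : x' ∈ Wl f.symm e x)
    (h3 : y' ∈ Wl f.symm e y) (h4 : y' ∈ Wl f e x') :
    f.symm^[m] y' ∈ Wl f η (f.symm^[m] x') := by
  intro k
  rcases le_total k m with hk | hk
  · have a1 := h1 k
    rw [iter_symm_of_le hk, iter_symm_of_le hk] at a1
    rw [iter_symm_of_le hk, iter_symm_of_le hk]
    have a2 := h2 (m - k)
    have a3 := h3 (m - k)
    have b1 := dist_triangle (f.symm^[m - k] y') (f.symm^[m - k] y) (f.symm^[m - k] x')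
    have b2 := dist_triangle (f.symm^[m - k] y) (f.symm^[m - k] x) (f.symm^[m - k] x')
    rw [dist_comm (f.symm^[m - k] x) (f.symm^[m - k] x')] at b2
    linarith
  · rw [iter_symm_of_ge hk, iter_symm_of_ge hk]
    exact (h4 (k - m)).trans (by linarith)

end F1DEFCAux

open F1DEFCAux in
theorem specDefc (hG : SpecGrx.{u, v}) (hL : SpecL31.{u}) : SpecDefc.{u, v} := by
  intro M W _ _ _ _ _ E f g s t C₀ δ C₁ B Q L lg ε C l J hB hP hN
  obtain ⟨δ₁, hδ₁, H1'⟩ := hL M f g ε C l hP δ hN.δ_pos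
  obtain ⟨e₁, C₂, he₁, hC₂, H2⟩ := hG M W E f g s t C₀ δ C₁ B Q L lg J hB hN (δ₁ / 3) (by positivity)
  have hC₁ : 0 < C₁ := by linarith [hN.C_one]
  have hB0 : 0 < B := by linarith [hN.B_one]
  have hQ := hN.Q_pos
  refine ⟨min e₁ (δ₁ / 3), max C₂ (C₁ * δ), lt_min he₁ (by positivity),
    lt_of_lt_of_le hC₂ (le_max_left _ _), ?_⟩
  intro m x y x' y' v hy hd hx' hy' hxy hv hv'
  have m1 : min e₁ (δ₁ / 3) ≤ e₁ := min_le_left _ _
  have m2 : min e₁ (δ₁ / 3) ≤ δ₁ / 3 := min_le_right _ _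
  have hy1 : y ∈ Lf f g.symm e₁ x := ⟨H1.wl_mono hy.1 m1, hy.2⟩
  have hd1 : C₂ * B ^ m * dist y x ≤ e₁ := by
    refine le_trans ?_ (hd.trans m1)
    exact mul_le_mul_of_nonneg_right
      (mul_le_mul_of_nonneg_right (le_max_left _ _) (by positivity)) dist_nonneg
  have a1 := H2 m x y hy1 hd1
  have a2 : f.symm^[m] y' ∈ Wl f δ₁ (f.symm^[m] x') :=
    wl_past (by linarith) (by positivity) a1 (H1.wl_mono hx' m2) (H1.wl_mono hy' m2)
      (H1.wl_mono hxy m2)
  obtain ⟨v', b1, b2, b3, -, b5, -⟩ := H1' _ _ a2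
  have c1 := hN.cdec _ _ b3 b5 m
  rw [H1.iter_symm_iter] at c1
  -- `f^m v' = v`
  have e1 : Dbl f g x' (f^[m] v') := by
    have := dbl_iter hP.comm m b1
    rwa [H1.iter_symm_iter] at this
  have e2 : Dbl f g.symm (f^[m] v') y' := by
    have := dbl_iter hP.symm_right.comm m b2
    rwa [H1.iter_symm_iter] at this
  have e3 : v = f^[m] v' := PRODAux.prod2 hP (PRODAux.dbl_trans (PRODAux.dbl_symm hv) e1)
    (PRODAux.dbl_trans hv' (PRODAux.dbl_symm e2))
  rw [e3]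
  have c2 : dist v' (f.symm^[m] x') ≤ δ := b3 0
  calc dist (f^[m] v') x' ≤ C₁ * Q ^ m * dist v' (f.symm^[m] x') := c1
    _ ≤ C₁ * Q ^ m * δ := mul_le_mul_of_nonneg_left c2 (by positivity)
    _ = C₁ * δ * Q ^ m := by ring
    _ ≤ max C₂ (C₁ * δ) * Q ^ m :=
      mul_le_mul_of_nonneg_right (le_max_right _ _) (by positivity)

end Pool.Agent.Lib.MP610fe3.HR
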