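import Pool.Agent.Lib.MP_610fe3_an.HR.F1Spec
import Pool.Agent.Lib.MP_610fe3_an.HR.BAS
import Pool.Agent.Lib.MP_610fe3_an.HR.MIN
import Pool.Agent.Lib.MP_610fe3_an.HR.PROD
import Pool.Agent.Lib.MP_610fe3_an.HR.DBL

/-!
# Module GAEX: an attractor of `f` is a basic set of `g`

`f` and `g` are commuting hyperbolic homeomorphisms, `A` is a minimal closed set saturated by the
unstable sets of `f`. No dimension and no linearization is involved.

* `mem_of_asymp`: a point of the basin of `A` which is in the unstable set and in the stable set of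
  points of `A` for `g` is in `A`.
* `exists_exit`: if the leaf `C` of `m` does not meet `A`, then the leaf `Y` of `m` leaves the
  basin.
-/

set_option autoImplicit false

open Set Filter Function
open scoped Topology

namespace Pool.Agent.Lib.MP610fe3.HR

open Cf CH

universe u

namespace F1GAEXAux

open MINAux

section Gen

variable {M : Type*} [MetricSpace M] [CompactSpace M] {f g c : M ≃ₜ M}

/-- A homeomorphism commuting with `g` preserves the chains of `g`. -/
theorem reach_map (hc : ∀ x, c (g x) = g (c x)) {x y : M} (h : Reach g x y) :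
    Reach g (c x) (c y) := by
  intro r hr
  obtain ⟨δ, hδ, hu⟩ := Metric.uniformContinuous_iff.1
    (CompactSpace.uniformContinuous_of_continuous c.continuous) r hr
  obtain ⟨m, s, hm, h0, hl, hs⟩ := h δ hδ
  refine ⟨m, fun i => c (s i), hm, congrArg c h0, congrArg c hl, fun i hi => ?_⟩
  rw [← hc]
  exact hu (hs i hi)

theorem reach_iter (hc : ∀ x, c (g x) = g (c x)) {x y : M} (h : Reach g x y) (n : ℕ) :
    Reach g (c^[n] x) (c^[n] y) := by
  induction n with
  | zero => exact h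
  | succ n ih =>
    rw [iterate_succ_apply', iterate_succ_apply']
    exact reach_map hc ih

omit [CompactSpace M] in
theorem fa_refl (a : M ≃ₜ M) (x : M) : FwdAsymp a x x := by
  have : (fun k : ℕ => dist (a^[k] x) (a^[k] x)) = fun _ => 0 := by
    funext k; exact dist_self _
  show Tendsto (fun k : ℕ => dist (a^[k] x) (a^[k] x)) atTop (𝓝 0)
  rw [this]
  exact tendsto_const_nhds

/-- Images of saturated sets. -/
theorem sset_image (hc : ∀ x, c (f x) = f (c x)) {A : Set M} (hA : A ∈ Sset f.symm) :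
    c '' A ∈ Sset f.symm := by
  refine ⟨(c.isClosed_image).2 hA.1, hA.2.1.image _, ?_⟩
  rintro _ ⟨x, hx, rfl⟩ y hxy
  have hc' : ∀ z, c.symm (f z) = f (c.symm z) := fun z => by
    apply c.injective
    rw [c.apply_symm_apply, hc, c.apply_symm_apply]
  have h1 := fa_map hc' hxy
  rw [c.symm_apply_apply] at h1
  exact ⟨c.symm y, hA.2.2 x hx _ h1, c.apply_symm_apply y⟩

theorem minimal_image (hc : ∀ x, c (f x) = f (c x)) {A : Set M}
    (hA : Minimal (· ∈ Sset f.symm) A) : Minimal (· ∈ Sset f.symm) (c '' A) := by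
  refine ⟨sset_image hc hA.1, fun B hB hBA => ?_⟩
  have hc' : ∀ z, c.symm (f z) = f (c.symm z) := fun z => by
    apply c.injective
    rw [c.apply_symm_apply, hc, c.apply_symm_apply]
  have h1 : c.symm '' B ∈ Sset f.symm := sset_image hc' hB
  have h2 : c.symm '' B ⊆ A := by
    rintro _ ⟨x, hx, rfl⟩
    obtain ⟨z, hz, hzx⟩ := hBA hx
    rw [← hzx, c.symm_apply_apply]
    exact hz
  have h3 := hA.2 h1 h2
  rintro _ ⟨x, hx, rfl⟩
  obtain ⟨z, hz, hzx⟩ := h3 hx
  rw [← hzx, c.apply_symm_apply]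
  exact hz

theorem minimal_iter {A : Set M} (hA : Minimal (· ∈ Sset f.symm) A) (i : ℕ) :
    Minimal (· ∈ Sset f.symm) (f^[i] '' A) := by
  induction i with
  | zero =>
    rw [iterate_zero, image_id]
    exact hA
  | succ i ih =>
    have h1 := minimal_image (c := f) (fun x => rfl) ih
    rwa [← image_comp, ← iterate_succ'] at h1

omit [CompactSpace M] in
/-- Two minimal sets with a common point are equal. -/
theorem eq_of_mem {A B : Set M} (hA : Minimal (· ∈ Sset f.symm) A)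
    (hB : Minimal (· ∈ Sset f.symm) B) {p : M} (h1 : p ∈ A) (h2 : p ∈ B) : A = B := by
  have h3 : A ∩ B ∈ Sset f.symm := ⟨hA.1.1.inter hB.1.1, ⟨p, h1, h2⟩, fun x hx y hxy =>
    ⟨hA.1.2.2 x hx.1 y hxy, hB.1.2.2 x hx.2 y hxy⟩⟩
  exact Subset.antisymm (fun x hx => (hA.2 h3 inter_subset_left hx).2)
    (fun x hx => (hB.2 h3 inter_subset_right hx).1)

omit [CompactSpace M] in
theorem iter_inv {A : Set M} {N : ℕ} (h : f^[N] '' A = A) (i : ℕ) :
    f^[N] '' (f^[i] '' A) = f^[i] '' A := by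
  rw [← image_comp, ← iterate_add, add_comm, iterate_add, image_comp, h]

omit [CompactSpace M] in
theorem inv_mul {A : Set M} {N : ℕ} (h : f^[N] '' A = A) (k : ℕ) : f^[N * k] '' A = A := by
  induction k with
  | zero => rw [mul_zero, iterate_zero, image_id]
  | succ k ih => rw [mul_add, mul_one, iterate_add, image_comp, h, ih]

/-- Images of a minimal set containing asymptotic points are equal. -/
theorem eq_of_asymp {A B : Set M} (hA : Minimal (· ∈ Sset f.symm) A)
    (hB : Minimal (· ∈ Sset f.symm) B) {N : ℕ} (hN : 0 < N) (hA' : f^[N] '' A = A)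
    (hB' : f^[N] '' B = B) {a b : M} (ha : a ∈ A) (hb : b ∈ B) (hab : FwdAsymp f a b) :
    A = B := by
  have h1 : ∀ n : ℕ, f^[N * n] a ∈ A := fun n => iterate_maps hA' ha n
  have h2 : ∀ n : ℕ, f^[N * n] b ∈ B := fun n => iterate_maps hB' hb n
  obtain ⟨q, hqA, φ, hφ, hφq⟩ := hA.1.1.isCompact.tendsto_subseq h1
  have h3 : Tendsto (fun n => dist (f^[N * φ n] a) (f^[N * φ n] b)) atTop (𝓝 0) := by
    have h4 : Tendsto (fun n => N * φ n) atTop atTop :=
      tendsto_atTop_mono (fun n => (hφ.id_le n).trans (Nat.le_mul_of_pos_left _ hN)) tendsto_id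
    exact (show Tendsto (fun k : ℕ => dist (f^[k] a) (f^[k] b)) atTop (𝓝 0) from hab).comp h4
  have h4 : Tendsto (fun n => f^[N * φ n] b) atTop (𝓝 q) := by
    rw [tendsto_iff_dist_tendsto_zero] at hφq ⊢
    have h5 := h3.add hφq
    rw [add_zero] at h5
    refine squeeze_zero (fun _ => dist_nonneg) (fun n => ?_) h5
    have := dist_triangle (f^[N * φ n] b) (f^[N * φ n] a) q
    rw [dist_comm (f^[N * φ n] b) (f^[N * φ n] a)] at this
    exact this
  have hqB : q ∈ B := hB.1.1.mem_of_tendsto h4 (Eventually.of_forall fun n => h2 _)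
  exact eq_of_mem hA hB hqA hqB

end Gen

section Pair

variable {M : Type u} [MetricSpace M] [CompactSpace M] {f g : M ≃ₜ M} {ε C l : ℝ}

/-- The points of `A` are in one chain class of `g`. -/
theorem reach_of_minimal (hMin : SpecMin.{u}) (P : Pair f g ε C l) {A : Set M}
    (hA : Minimal (· ∈ Sset f.symm) A) :
    A ⊆ Om g ∧ ∀ a ∈ A, ∀ a' ∈ A, Reach g a a' := by
  have hc0 : 0 < ε := P.one.br.ε_pos
  have hcf := P.one.expConst
  have hcg := P.two.expConst
  have hOm : Om f = Om g := Om_eq hc0 hcf hc0 hcg P.comm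
  have hdense := (hMin M f ε C l P.one A hA).1
  have hAO : A ⊆ Om g := by
    intro y hy
    rw [← hOm]
    refine Metric.mem_closure_iff.2 fun r hr => ?_
    obtain ⟨p, -, hp, hd⟩ := hdense y hy r hr
    exact ⟨p, hp, by rwa [dist_comm]⟩
  obtain ⟨δ, hδ, hreach⟩ := exists_reach hc0 hcg P.two.sh
  obtain ⟨y₀, hy₀⟩ := hA.1.2.1
  obtain ⟨p, hpA, ⟨k, hk, hkp⟩, -⟩ := hdense y₀ hy₀ 1 one_pos
  have hkp' : f^[k] p = p := hkp
  have hpn : ∀ n, f^[k * n] p = p := by
    intro n
    rw [iterate_mul]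
    exact Function.iterate_fixed hkp' n
  have key : ∀ z ∈ A, Reach g z p ∧ Reach g p z := by
    intro z hz
    obtain ⟨w, hw, hd⟩ := Metric.mem_closure_iff.1 (subset_closure_wu P.one hA hpA hz) δ hδ
    have hwA : w ∈ A := hA.1.2.2 p hpA w (fa_symm hw)
    obtain ⟨n₀, hn₀⟩ := (Metric.tendsto_atTop.1
      (show Tendsto (fun j : ℕ => dist (f.symm^[j] w) (f.symm^[j] p)) atTop (𝓝 0) from hw)) δ hδ
    have hn : n₀ ≤ k * n₀ := Nat.le_mul_of_pos_left n₀ hk
    have h1 := hn₀ (k * n₀) hn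
    rw [Real.dist_0_eq_abs, abs_of_nonneg dist_nonneg] at h1
    have hpback : f.symm^[k * n₀] p = p := by
      have h2 := symm_iter f (k * n₀) p
      rwa [hpn] at h2
    rw [hpback] at h1
    have hwOm : w ∈ Om g := hAO hwA
    have hw' : f.symm^[k * n₀] w ∈ Om g := by
      rw [← hOm] at hwOm ⊢
      exact symm_iterate_mem_Om hwOm _
    have h3 := reach_iter (c := f) P.comm (hreach _ hw' p (hAO hpA) h1) (k * n₀)
    have h4 := reach_iter (c := f) P.comm
      (hreach p (hAO hpA) _ hw' (by rwa [dist_comm])) (k * n₀)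
    rw [iter_symm, hpn] at h3 h4
    exact ⟨(hreach z (hAO hz) w hwOm hd).trans h3,
      h4.trans (hreach w hwOm z (hAO hz) (by rwa [dist_comm]))⟩
  exact ⟨hAO, fun a ha a' ha' => (key a ha).1.trans (key a' ha').2⟩

theorem inv_of_minimal (P : Pair f g ε C l) {A : Set M} (hA : Minimal (· ∈ Sset f.symm) A) :
    ∃ N, 0 < N ∧ f^[N] '' A = A := by
  obtain ⟨N, hN, hinv'⟩ := minimal_inv P.one.br.ε_pos P.one.expConst.symm P.one.shu hA
  have := symm_image hinv'
  rw [Homeomorph.symm_symm] at this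
  exact ⟨N, hN, this⟩

theorem mem_of_asymp (hBas : SpecBas.{u}) (hMin : SpecMin.{u}) (P : Pair f g ε C l) {A : Set M}
    (hA : Minimal (· ∈ Sset f.symm) A) {a a' x : M} (ha : a ∈ A) (ha' : a' ∈ A)
    (h1 : FwdAsymp g.symm x a) (h2 : FwdAsymp g x a') (h3 : ∃ b ∈ A, FwdAsymp f x b) :
    x ∈ A := by
  have hc0 : 0 < ε := P.one.br.ε_pos
  have hcf := P.one.expConst
  have hcg := P.two.expConst
  have hOm : Om f = Om g := Om_eq hc0 hcf hc0 hcg P.comm
  obtain ⟨hAO, hR⟩ := reach_of_minimal hMin P hA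
  have h4 : Reach g x x := (reach_of_fwdAsymp (hAO ha') h2).trans
    ((hR a' ha' a ha).trans (reach_of_bwdAsymp (hAO ha) h1))
  have h5 : x ∈ Om f := by
    rw [hOm]
    exact mem_closure_of_reach hc0 hcg P.two.sh h4
  obtain ⟨N, hN, hinv⟩ := inv_of_minimal P hA
  exact (hBas M f ε C l P.one A N hA.1.1 hA.1.2.2 hN hinv).2 ⟨h5, h3⟩

theorem exists_exit (hDbl : SpecDbl.{u}) (hProd : SpecProd.{u}) (hBas : SpecBas.{u})
    (P : Pair f g ε C l) {A : Set M} {N : ℕ} (hcl : IsClosed A) (hsat : Sat f.symm A)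
    (hN : 0 < N) (hinv : f^[N] '' A = A) {m : M} (hm : ∀ z ∈ A, ¬ Dbl f g m z) :
    ∃ r, Dbl f.symm g m r ∧ ∀ b ∈ A, ¬ FwdAsymp f r b := by
  have hc0 : 0 < ε := P.one.br.ε_pos
  have hcf := P.one.expConst
  have hcg := P.two.expConst
  have hOm : Om f = Om g := Om_eq hc0 hcf hc0 hcg P.comm
  have hB := (hBas M f ε C l P.one A N hcl hsat hN hinv).2
  obtain ⟨q, hq, hmq⟩ := exists_fwdAsymp hc0 hcg P.two.sh m
  have hqf : q ∈ Om f := by rw [hOm]; exact hq
  have hcomm : ∀ x, g (f x) = f (g x) := fun x => (P.comm x).symm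
  have hcomm' : ∀ x, g (f.symm x) = f.symm (g x) := fun x => (P.symm_left.comm x).symm
  by_cases hqA : q ∈ A
  · exfalso
    obtain ⟨z, hz1, hz2⟩ := (hProd M g f ε C l P.swap).1 m q hmq
    have h1 : Dbl f g m z := (hDbl M g f hcomm).2.2.2.1 m z hz1
    have h2 := (hDbl M g f.symm hcomm').2.2.2.2.2.1 z q hz2
    exact hm z (hsat q hqA z (fa_symm h2)) h1
  · obtain ⟨z, hz1, hz2⟩ := (hProd M g f.symm ε C l P.symm_left.swap).1 m q hmq
    have h1 : Dbl f.symm g m z := (hDbl M g f.symm hcomm').2.2.2.1 m z hz1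
    rw [Homeomorph.symm_symm] at hz2
    have h2 := (hDbl M g f hcomm).2.2.2.2.2.1 z q hz2
    refine ⟨z, h1, fun b hb hzb => hqA (hB ⟨hqf, b, hb, ?_⟩)⟩
    exact fa_trans (fa_symm h2) hzb

end Pair

end F1GAEXAux

open F1GAEXAux MINAux

/-- **Module GAEX.** -/
theorem specGaex (hDbl : SpecDbl.{u}) (hProd : SpecProd.{u}) (hBas : SpecBas.{u})
    (hMin : SpecMin.{u}) : SpecGaex.{u} := by
  intro M _ _ f g ε C l P A hA
  obtain ⟨N, hN, hinv⟩ := inv_of_minimal P hA
  have hmin : ∀ i, Minimal (· ∈ Sset f.symm) (f^[i] '' A) := minimal_iter hA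
  have hcomm := P.comm
  have hcomm' : ∀ x, f (g.symm x) = g.symm (f x) := P.symm_right.comm
  have hD := hDbl M f g hcomm
  have hD' := hDbl M f g.symm hcomm'
  set A' : Set M := ⋃ i ∈ Finset.range N, f^[i] '' A with hA'
  have hmem : ∀ x, x ∈ A' ↔ ∃ i < N, x ∈ f^[i] '' A := by
    intro x
    simp only [hA', mem_iUnion, Finset.mem_range, exists_prop]
  have hcl : IsClosed A' := by
    refine (Finset.range N).finite_toSet.isClosed_biUnion fun i _ => (hmin i).1.1
  have hsat : Sat f.symm A' := by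
    intro x hx y hxy
    obtain ⟨i, hi, hxi⟩ := (hmem x).1 hx
    exact (hmem y).2 ⟨i, hi, (hmin i).1.2.2 x hxi y hxy⟩
  have hinv1 : f '' A' = A' := by
    apply Subset.antisymm
    · rintro _ ⟨x, hx, rfl⟩
      obtain ⟨i, hi, z, hz, rfl⟩ := (hmem x).1 hx
      rw [← iterate_succ_apply' (f : M → M)]
      by_cases h : i + 1 < N
      · exact (hmem _).2 ⟨i + 1, h, z, hz, rfl⟩
      · have h1 : i.succ = N := by omega
        refine (hmem _).2 ⟨0, hN, ?_⟩
        rw [iterate_zero, image_id, h1, ← hinv]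
        exact ⟨z, hz, rfl⟩
    · intro x hx
      obtain ⟨i, hi, hxi⟩ := (hmem x).1 hx
      rcases Nat.eq_zero_or_pos i with h0 | h0
      · rw [h0, iterate_zero, image_id, ← hinv] at hxi
        obtain ⟨z, hz, rfl⟩ := hxi
        refine ⟨f^[N - 1] z, (hmem _).2 ⟨N - 1, by omega, z, hz, rfl⟩, ?_⟩
        rw [← iterate_succ_apply' (f : M → M), Nat.succ_eq_add_one, Nat.sub_add_cancel hN]
      · obtain ⟨z, hz, rfl⟩ := hxi
        refine ⟨f^[i - 1] z, (hmem _).2 ⟨i - 1, by omega, z, hz, rfl⟩, ?_⟩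
        rw [← iterate_succ_apply' (f : M → M), Nat.succ_eq_add_one, Nat.sub_add_cancel h0]
  refine ⟨A', ⟨hcl, hsat, hinv1, ?_, ?_⟩, ?_, ?_⟩
  · -- (S2)
    intro a ha a' ha' y hy hya'
    obtain ⟨i, hi, hai⟩ := (hmem a).1 ha
    obtain ⟨j, hj, haj⟩ := (hmem a').1 ha'
    have h1 : FwdAsymp f a y := hD'.2.2.2.2.1 a y hy
    have h2 : FwdAsymp g.symm a y := hD'.2.2.2.2.2.1 a y hy
    have h3 : FwdAsymp f y a' := hD.2.2.2.2.1 y a' hya'
    have h4 : FwdAsymp g y a' := hD.2.2.2.2.2.1 y a' hya'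
    have h5 := eq_of_asymp (hmin i) (hmin j) hN (iter_inv hinv i) (iter_inv hinv j) hai haj
      (fa_trans h1 h3)
    rw [← h5] at haj
    exact (hmem y).2 ⟨i, hi, mem_of_asymp hBas hMin P (hmin i) hai haj (fa_symm h2) h4
      ⟨a', haj, h3⟩⟩
  · -- (S3)
    intro m hm
    exact exists_exit hDbl hProd hBas P hcl hsat one_pos (by rwa [iterate_one]) hm
  · intro x hx
    exact (hmem x).2 ⟨0, hN, by rwa [iterate_zero, image_id]⟩
  · rintro p hp - y hy hyA'
    obtain ⟨j, hj, hyj⟩ := (hmem y).1 hyA'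
    have h1 : FwdAsymp f p y := hD'.2.2.2.2.1 p y hy
    have h2 := eq_of_asymp hA (hmin j) hN hinv (iter_inv hinv j) hp hyj h1
    rwa [← h2] at hyj

end Pool.Agent.Lib.MP610fe3.HR
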