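import Pool.Agent.Lib.MP_610fe3_an.HR.F1Spec

/-!
# F1GRX: growth of the leaves `X` in the past
-/

set_option autoImplicit false

open Set Filter Function
open scoped Topology

namespace Pool.Agent.Lib.MP610fe3.HR

open Cf CH

universe u v

namespace F1GRXAux

theorem iter_succ_symm {M : Type*} [MetricSpace M] (f : M ≃ₜ M) (n : ℕ) (x : M) :
    f^[n + 1] (f.symm x) = f^[n] x := by
  rw [iterate_succ_apply, f.apply_symm_apply]

end F1GRXAux

open F1GRXAux

/-- **GRX**: growth of the leaves `X` in the past. -/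
theorem specGrx (hD : SpecDbl.{u}) (hC : SpecCoc.{u, v}) (hG : SpecGrw.{u, v}) :
    SpecGrx.{u, v} := by
  intro M W _ _ _ _ _ E f g s t C₀ δ C₁ B Q L lg J hB hN ε' hε'
  obtain ⟨k, hk⟩ := hC M W E f g.symm s t.swap C₀ hB
  obtain ⟨ε, C, l, hgr⟩ := hG M W E f g.symm s t.swap C₀ k hB hk
  obtain ⟨-, -, -, -, -, -, hinv, -⟩ := hD M f g.symm hB.comm
  have hK := k.K_pos
  have hC1 : 0 < C := one_pos.trans_le hgr.one_le
  have hC₁ : 0 < C₁ := one_pos.trans_le hN.C_one
  have hB0 : 0 < B := one_pos.trans_le hN.B_one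
  -- lower bound of the cocycle
  have han : ∀ (n : ℕ) (x : M), 1 ≤ k.K ^ 2 * k.an n x * (C₁ * B ^ n) := by
    intro n x
    obtain ⟨w, hw⟩ := k.S_ne (f^[n] x)
    have h0 : 0 < ‖k.S (f^[n] x) w‖ := norm_pos_iff.2 hw
    have h1 := k.I_lower n x w
    have h2 : ‖k.I n x (k.S (f^[n] x) w)‖ ≤ C₁ * B ^ n * ‖k.S (f^[n] x) w‖ := by
      have h3 := hN.xgr n (f^[n] x) (k.S (f^[n] x) w) (by
        have := k.SS (f^[n] x) w
        rwa [hk.S] at this ⊢)
      rw [Coc.I, hk.Di]
      exact h3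
    have han := k.an_pos n x
    have h3 : 1 * ‖k.S (f^[n] x) w‖ ≤
        k.K ^ 2 * k.an n x * (C₁ * B ^ n) * ‖k.S (f^[n] x) w‖ := by
      calc 1 * ‖k.S (f^[n] x) w‖ = ‖k.S (f^[n] x) w‖ := one_mul _
        _ ≤ k.K ^ 2 * k.an n x * ‖k.I n x (k.S (f^[n] x) w)‖ := h1
        _ ≤ k.K ^ 2 * k.an n x * (C₁ * B ^ n * ‖k.S (f^[n] x) w‖) := by gcongr
        _ = _ := by ring
    exact le_of_mul_le_mul_right h3 h0
  -- scales
  obtain ⟨η₀, hη₀, hη⟩ := Metric.uniformContinuous_iff.1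
    (CompactSpace.uniformContinuous_of_continuous f.symm.continuous) (min ε ε')
    (lt_min hgr.ε_pos hε')
  set η : ℝ := min (η₀ / 2) (min ε ε') with hηdef
  have hηpos : 0 < η := lt_min (half_pos hη₀) (lt_min hgr.ε_pos hε')
  refine ⟨η, k.K ^ 2 * C₁ * C, hηpos, by positivity, ?_⟩
  intro m x z hz hm
  have key : ∀ j ≤ m, dist (f.symm^[j] z) (f.symm^[j] x) ≤ η ∧
      f.symm^[j] z ∈ Wl f (min ε ε') (f.symm^[j] x) ∧
      Dbl f g.symm (f.symm^[j] x) (f.symm^[j] z) := by
    intro j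
    induction j with
    | zero =>
      intro _
      refine ⟨hz.1 0, fun i => (hz.1 i).trans (min_le_right _ _), hz.2⟩
    | succ j ih =>
      intro hj
      obtain ⟨h1, h2, h3⟩ := ih (by omega)
      have h4 : Dbl f g.symm (f.symm^[j + 1] x) (f.symm^[j + 1] z) := by
        rw [iterate_succ_apply', iterate_succ_apply']
        exact (hinv f.symm (fun y => by rw [f.apply_symm_apply, f.symm_apply_apply])
          (fun y => (comm_symm hB.comm y).symm.symm) _ _).2 h3
      have h5 : f.symm^[j + 1] z ∈ Wl f (min ε ε') (f.symm^[j + 1] x) := by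
        intro i
        cases i with
        | zero =>
          rw [iterate_succ_apply', iterate_succ_apply']
          exact (hη (lt_of_le_of_lt (h1.trans (min_le_left _ _)) (half_lt_self hη₀))).le
        | succ i =>
          rw [iterate_succ_apply' f.symm, iterate_succ_apply' f.symm, iter_succ_symm, iter_succ_symm]
          exact h2 i
      refine ⟨?_, h5, h4⟩
      have h6 : f.symm^[j + 1] z ∈ Lf f g.symm ε (f.symm^[j + 1] x) :=
        ⟨fun i => (h5 i).trans (min_le_left _ _), h4⟩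
      have h7 := hgr.lower _ _ h6 (j + 1)
      rw [iter_symm, iter_symm] at h7
      have h8 := han (j + 1) (f.symm^[j + 1] x)
      have h9 := k.an_pos (j + 1) (f.symm^[j + 1] x)
      have hBm : B ^ (j + 1) ≤ B ^ m := pow_le_pow_right₀ hN.B_one hj
      calc dist (f.symm^[j + 1] z) (f.symm^[j + 1] x)
          = 1 * dist (f.symm^[j + 1] z) (f.symm^[j + 1] x) := (one_mul _).symm
        _ ≤ (k.K ^ 2 * k.an (j + 1) (f.symm^[j + 1] x) * (C₁ * B ^ (j + 1))) *
            dist (f.symm^[j + 1] z) (f.symm^[j + 1] x) := by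
            gcongr
        _ = k.K ^ 2 * C₁ * B ^ (j + 1) * (k.an (j + 1) (f.symm^[j + 1] x) *
            dist (f.symm^[j + 1] z) (f.symm^[j + 1] x)) := by ring
        _ ≤ k.K ^ 2 * C₁ * B ^ (j + 1) * (C * dist z x) := by gcongr
        _ ≤ k.K ^ 2 * C₁ * B ^ m * (C * dist z x) := by gcongr
        _ = k.K ^ 2 * C₁ * C * B ^ m * dist z x := by ring
        _ ≤ η := hm
  obtain ⟨-, h1, -⟩ := key m le_rfl
  exact fun i => (h1 i).trans (min_le_right _ _)

end Pool.Agent.Lib.MP610fe3.HR
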