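import Pool.Agent.Lib.MP_610fe3_an.HR.F1Spec
import Pool.Agent.Lib.MP_610fe3_an.HR.PROD

/-!
# HOLC: Hoelder holonomy along `X` between leaves `C` (MP_610fe3_an, hive F1)
-/

set_option autoImplicit false

open Set Filter Function
open scoped Topology

namespace Pool.Agent.Lib.MP610fe3.HR

open Cf CH

universe u

namespace F1HOLCAux

/-- iterates of a Lipschitz map -/
theorem lip_iter {M : Type*} [MetricSpace M] {h : M → M} {L : ℝ} (hL : 1 ≤ L)
    (hl : ∀ x y, dist (h x) (h y) ≤ L * dist x y) (n : ℕ) (x y : M) :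
    dist (h^[n] x) (h^[n] y) ≤ L ^ n * dist x y := by
  induction n with
  | zero => simp
  | succ n ih =>
    rw [iterate_succ_apply', iterate_succ_apply', pow_succ']
    calc dist (h (h^[n] x)) (h (h^[n] y)) ≤ L * dist (h^[n] x) (h^[n] y) := hl _ _
      _ ≤ L * (L ^ n * dist x y) := mul_le_mul_of_nonneg_left ih (by linarith)
      _ = L * L ^ n * dist x y := by ring

end F1HOLCAux

open F1HOLCAux

theorem specHolc : SpecHolc.{u} := by
  intro M _ _ f g ε C l δ C₁ L lg hP hL hd hd' hlip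
  have hδ := hd.ε_pos
  have hlg := hd.l_pos
  have hlg1 := hd.l_lt
  have hC1 := hd.one_le
  obtain ⟨δ₁, hδ₁, P1⟩ := PRODAux.prod3 hP (ε' := δ / 4) (by positivity)
  obtain ⟨δ₂, hδ₂, P2⟩ := PRODAux.prod3 hP.symm_right (ε' := δ / 4) (by positivity)
  obtain ⟨e, he0, heδ, he1, he2⟩ : ∃ e : ℝ, 0 < e ∧ e ≤ δ / 2 ∧ 2 * e ≤ δ₁ ∧ 2 * e ≤ δ₂ := by
    refine ⟨min (δ / 2) (min (δ₁ / 2) (δ₂ / 2)), by positivity, min_le_left _ _, ?_, ?_⟩
    · have : min (δ / 2) (min (δ₁ / 2) (δ₂ / 2)) ≤ δ₁ / 2 :=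
        (min_le_right _ _).trans (min_le_left _ _)
      linarith
    · have : min (δ / 2) (min (δ₁ / 2) (δ₂ / 2)) ≤ δ₂ / 2 :=
        (min_le_right _ _).trans (min_le_right _ _)
      linarith
  refine ⟨e, C₁ * δ, he0, by positivity, ?_⟩
  intro n x y x₁ y₁ hyx hx₁ hy₁ _ dx dy d₁ hdist
  have w1 : x₁ ∈ Wl g.symm (δ / 4) x :=
    P2 _ _ dx (H1.wl_mono hx₁ (by linarith))
  have w2 : y₁ ∈ Wl g.symm (δ / 4) y := by
    refine P2 _ _ dy ?_
    have := H1.wl_trans hy₁ (H1.wl_symm hyx)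
    exact H1.wl_mono this (by linarith)
  have w3 : y₁ ∈ Wl g (δ / 4) x₁ := by
    refine P1 _ _ d₁ ?_
    have := H1.wl_trans hy₁ (H1.wl_symm hx₁)
    exact H1.wl_mono this (by linarith)
  have hclose : ∀ k ≤ n, dist (g.symm^[k] y₁) (g.symm^[k] x₁) ≤ δ := by
    intro k hk
    have a1 : dist (g.symm^[k] x₁) (g.symm^[k] x) ≤ δ / 4 := w1 k
    have a2 : dist (g.symm^[k] y₁) (g.symm^[k] y) ≤ δ / 4 := w2 k
    have a3 : dist (g.symm^[k] x) (g.symm^[k] y) ≤ e := by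
      refine (lip_iter hL hlip k x y).trans ?_
      have b1 : L ^ k ≤ L ^ n := pow_le_pow_right₀ hL hk
      have b2 : lg ^ n ≤ 1 := pow_le_one₀ hlg.le hlg1.le
      calc L ^ k * dist x y ≤ L ^ n * dist x y := mul_le_mul_of_nonneg_right b1 dist_nonneg
        _ = dist x y * L ^ n := by ring
        _ ≤ e * lg ^ n := hdist
        _ ≤ e * 1 := mul_le_mul_of_nonneg_left b2 he0.le
        _ = e := mul_one e
    have a4 := dist_triangle (g.symm^[k] y₁) (g.symm^[k] y) (g.symm^[k] x₁)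
    have a5 := dist_triangle (g.symm^[k] y) (g.symm^[k] x) (g.symm^[k] x₁)
    rw [dist_comm (g.symm^[k] y) (g.symm^[k] x), dist_comm (g.symm^[k] x) (g.symm^[k] x₁)] at a5
    linarith
  have w4 : y₁ ∈ Wl g.symm.symm δ x₁ := H1.wl_mono w3 (by linarith)
  have w5 : g.symm^[n] y₁ ∈ Wl g.symm.symm δ (g.symm^[n] x₁) := H1.wl_back_iter w4 hclose
  have w6 : g.symm^[n] y₁ ∈ Wl g δ (g.symm^[n] x₁) := w5
  have h1 := hd.dec _ _ w6 n
  rw [H1.iter_symm_iter, H1.iter_symm_iter] at h1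
  have h2 : dist (g.symm^[n] y₁) (g.symm^[n] x₁) ≤ δ := hclose n le_rfl
  rw [dist_comm]
  calc dist y₁ x₁ ≤ C₁ * lg ^ n * dist (g.symm^[n] y₁) (g.symm^[n] x₁) := h1
    _ ≤ C₁ * lg ^ n * δ := mul_le_mul_of_nonneg_left h2 (by positivity)
    _ = C₁ * δ * lg ^ n := by ring

end Pool.Agent.Lib.MP610fe3.HR
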