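import Pool.Agent.Lib.MP_610fe3_an.HR.F1Spec
import Pool.Agent.Lib.MP_610fe3_an.HR.PROD

/-!
# Module L31 (hive F1): local form of (3.1)
-/

set_option autoImplicit false

open Set Filter Function
open scoped Topology

namespace Pool.Agent.Lib.MP610fe3.HR

open Cf CH

universe u

theorem specL31 : SpecL31.{u} := by
  intro M _ _ f g ε C l h ε' hε'
  have hε := h.one.br.ε_pos
  have hC1 := h.one.br.one_le
  have hC0 : 0 < C := by linarith
  have hl0 := h.one.decs.l_pos.le
  have hl1 := h.one.decs.l_lt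
  obtain ⟨δ₀, hδ₀, H⟩ := PRODAux.exists_core h hε'
  obtain ⟨δ, hδe⟩ : ∃ δ, δ = min (δ₀ / 2) (min ε (ε' / (C * C))) := ⟨_, rfl⟩
  have hδ : 0 < δ := by
    rw [hδe]
    exact lt_min (by positivity) (lt_min hε (by positivity))
  have h1 : δ ≤ δ₀ / 2 := by rw [hδe]; exact min_le_left _ _
  have h2 : δ ≤ ε := by rw [hδe]; exact (min_le_right _ _).trans (min_le_left _ _)
  have h3 : δ ≤ ε' / (C * C) := by rw [hδe]; exact (min_le_right _ _).trans (min_le_right _ _)
  have h4 : C * (C * δ) ≤ ε' := by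
    have := (le_div_iff₀ (by positivity : 0 < C * C)).1 h3
    linarith
  have h5 : C * δ ≤ ε' := by
    have : 1 * (C * δ) ≤ C * (C * δ) := mul_le_mul_of_nonneg_right hC1 (by positivity)
    linarith
  refine ⟨δ, hδ, fun x y hy => ?_⟩
  have hy' : y ∈ Wl f ε x := H1.wl_mono hy h2
  have hfa : FwdAsymp f x y := by
    have t : Tendsto (fun n : ℕ => C * l ^ n * dist y x) atTop (𝓝 0) := by
      have := ((tendsto_pow_atTop_nhds_zero_of_lt_one hl0 hl1).const_mul C).mul_const
        (dist y x)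
      rwa [mul_zero, zero_mul] at this
    exact squeeze_zero (fun _ => dist_nonneg)
      (fun n => by rw [dist_comm]; exact h.one.decs.dec x y hy' n) t
  have hk : ∀ k, dist (f^[k] x) (f^[k] y) ≤ δ := fun k => by rw [dist_comm]; exact hy k
  obtain ⟨z, hz, hz1, hz2⟩ := H x y hfa (fun k => by have := hk k; linarith)
  have hl : ∀ k, dist (f^[k] z) (f^[k] x) ≤ C * δ := fun k =>
    (h.two.br.left _ _ _ (hz k).2.1 (hz k).2.2).trans (mul_le_mul_of_nonneg_left (hk k) hC0.le)
  have hr : ∀ k, dist (f^[k] z) (f^[k] y) ≤ C * δ := fun k =>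
    (h.two.br.right _ _ _ (hz k).2.1 (hz k).2.2).trans (mul_le_mul_of_nonneg_left (hk k) hC0.le)
  refine ⟨z, hz1, hz2, fun k => (hl k).trans h5, fun k => (hr k).trans h5, (hz 0).1, fun k => ?_⟩
  have h6 : z ∈ Wl g.symm ε y := (hz 0).2.2
  have h7 := h.two.decu.dec y z h6 k
  refine h7.trans ?_
  have h8 : C * l ^ k ≤ C := by
    have := pow_le_one₀ (n := k) hl0 hl1.le
    calc C * l ^ k ≤ C * 1 := mul_le_mul_of_nonneg_left this hC0.le
      _ = C := mul_one C
  have h9 : dist z y ≤ C * δ := hr 0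
  calc C * l ^ k * dist z y ≤ C * (C * δ) := mul_le_mul h8 h9 dist_nonneg hC0.le
    _ ≤ ε' := h4

end Pool.Agent.Lib.MP610fe3.HR
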