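import Pool.Agent.Lib.MP_610fe3_an.HR.F1Spec
import Pool.Agent.Lib.MP_610fe3_an.HR.REP

/-!
# LIMS: uniformly convergent curves in leaves have bounded norm
-/

set_option autoImplicit false

open Set Filter Function
open scoped Topology

namespace Pool.Agent.Lib.MP610fe3.HR

open Cf CH

universe u v

open REPAux

/-- **LIMS**: the vectors of a uniformly Cauchy sequence of segments do not tend to infinity. -/
theorem specLims (hA : SpecArc.{u, v}) (hC : SpecCmp.{u, v}) : SpecLims.{u, v} := by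
  intro M W _ _ _ _ _ E f g s t C₀ γ hB hG x w T hw hT hcau htop
  obtain ⟨ε', hε', arc⟩ := hA M W E f g s t C₀ γ hB hG
  choose K' cmp using hC M W E f g s t C₀ γ hB hG
  rw [Metric.uniformCauchySeqOn_iff] at hcau
  obtain ⟨j₀, hj₀⟩ := hcau (ε' / 3) (by positivity)
  have hcont : ContinuousOn (fun ρ => γ (x j₀) (T j₀ ρ • w j₀)) (Icc 0 1) :=
    (cont_ray hG (hw j₀)).comp_continuousOn (hT j₀).cont
  have huc := isCompact_Icc.uniformContinuousOn_of_continuous hcont
  rw [Metric.uniformContinuousOn_iff] at huc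
  obtain ⟨δ, hδ, hu⟩ := huc (ε' / 3) (by positivity)
  obtain ⟨N, hN⟩ := exists_nat_gt (1 / δ)
  have hN0 : (0 : ℝ) < N := lt_trans (by positivity) hN
  have hNδ : 1 / (N : ℝ) < δ := by
    rw [div_lt_iff₀ hN0]
    rw [div_lt_iff₀ hδ] at hN
    linarith
  have key : ∀ j, j₀ ≤ j → ∀ i : ℕ, i ≤ N → ‖T j ((i : ℝ) / N) • w j‖ ≤ K'^[i] 0 := by
    intro j hj i
    induction i with
    | zero =>
      intro _
      simp [(hT j).zero]
    | succ i ih =>
      intro hi
      have ih' := ih (by omega)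
      have ha0 : (0 : ℝ) ≤ (i : ℝ) / N := by positivity
      have hab : (i : ℝ) / N ≤ ((i + 1 : ℕ) : ℝ) / N := by
        apply div_le_div_of_nonneg_right _ hN0.le
        push_cast
        linarith
      have hb1 : ((i + 1 : ℕ) : ℝ) / N ≤ 1 := by
        rw [div_le_one hN0]
        exact_mod_cast hi
      have hlen : ((i + 1 : ℕ) : ℝ) / N - (i : ℝ) / N < δ := by
        have e : ((i + 1 : ℕ) : ℝ) / N - (i : ℝ) / N = 1 / N := by
          push_cast
          ring
        rw [e]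
        exact hNδ
      have hmaM : (i : ℝ) / N ∈ Icc (0 : ℝ) 1 := ⟨ha0, hab.trans hb1⟩
      have hmbM : ((i + 1 : ℕ) : ℝ) / N ∈ Icc (0 : ℝ) 1 := ⟨ha0.trans hab, hb1⟩
      have hmono := (hT j).mono.monotoneOn
      have h0 : 0 ≤ T j ((i : ℝ) / N) := by
        have h := hmono (left_mem_Icc.2 zero_le_one) hmaM ha0
        rwa [(hT j).zero] at h
      have h1 : T j (((i + 1 : ℕ) : ℝ) / N) ≤ 1 := by
        have h := hmono hmbM (right_mem_Icc.2 zero_le_one) hb1
        rwa [(hT j).one] at h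
      have h2 : T j ((i : ℝ) / N) ≤ T j (((i + 1 : ℕ) : ℝ) / N) := hmono hmaM hmbM hab
      have hsub : Icc ((i : ℝ) / N) (((i + 1 : ℕ) : ℝ) / N) ⊆ Icc (0 : ℝ) 1 :=
        Icc_subset_Icc ha0 hb1
      obtain ⟨v, hv1, hv2, hv3⟩ := arc (x j) (w j) (T j ((i : ℝ) / N))
          (T j (((i + 1 : ℕ) : ℝ) / N)) (hw j) h0 h2 h1 (fun ρ hρ => by
        obtain ⟨σ, hσ, rfl⟩ := intermediate_value_Icc hab ((hT j).cont.mono hsub) hρ
        have hσM := hsub hσ
        have d1 := hj₀ j hj j₀ le_rfl σ hσM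
        have d2 := hj₀ j₀ le_rfl j hj ((i : ℝ) / N) hmaM
        have d3 := hu σ hσM ((i : ℝ) / N) hmaM (by
          rw [Real.dist_eq, abs_of_nonneg (sub_nonneg.2 hσ.1)]
          linarith [hσ.2])
        calc dist (γ (x j) (T j σ • w j)) (γ (x j) (T j ((i : ℝ) / N) • w j))
            ≤ dist (γ (x j) (T j σ • w j)) (γ (x j₀) (T j₀ σ • w j₀)) +
              dist (γ (x j₀) (T j₀ σ • w j₀)) (γ (x j₀) (T j₀ ((i : ℝ) / N) • w j₀)) +
              dist (γ (x j₀) (T j₀ ((i : ℝ) / N) • w j₀))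
                (γ (x j) (T j ((i : ℝ) / N) • w j)) := dist_triangle4 _ _ _ _
          _ ≤ ε' / 3 + ε' / 3 + ε' / 3 := by linarith
          _ = ε' := by ring)
      rw [iterate_succ_apply']
      have hsm : ∀ r : ℝ, PP s t.swap (x j) (r • w j) = r • w j := fun r => by
        rw [map_smul, hw j]
      exact cmp _ (x j) _ v _ (hsm _) ih' hv1 hv2 (hsm _) hv3.symm
  obtain ⟨j, hj1, hj2⟩ := ((eventually_ge_atTop j₀).and
    (htop.eventually (eventually_gt_atTop (K'^[N] 0)))).exists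
  have h3 := key j hj1 N le_rfl
  rw [div_self hN0.ne', (hT j).one, one_smul] at h3
  linarith

end Pool.Agent.Lib.MP610fe3.HR
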