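import Pool.Agent.Lib.MP_610fe3_an.HR.Spec
import Pool.Agent.Lib.MP_610fe3_an.Cf.CocMk
import Pool.Agent.Lib.MP_610fe3_an.Cf.Dec
import Pool.Agent.Lib.MP_610fe3_an.Commute

/-!
# Module FLT: the linearization of the double leaves (helper28)
-/

set_option autoImplicit false

open Set Filter Function
open scoped Topology

namespace Pool.Agent.Lib.MP610fe3.HR

open Cf CH

universe u v

namespace FLTAux

/-! ### Double leaves -/

section Top

variable {M : Type*} [MetricSpace M] {f g : M ≃ₜ M} {ε : ℝ}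

theorem comm_iter (hc : ∀ x, f (g x) = g (f x)) (n : ℕ) (x : M) :
    f^[n] (g x) = g (f^[n] x) := by
  induction n generalizing x with
  | zero => rfl
  | succ n ih => rw [iterate_succ_apply, hc, ih, iterate_succ_apply]

theorem Dbl.symm' {x y : M} (h : Dbl f g x y) : Dbl f g y x := fun ε hε => by
  obtain ⟨K, hK⟩ := h ε hε
  exact ⟨K, fun n m hnm => by rw [dist_comm]; exact hK n m hnm⟩

theorem Dbl.trans' {x y z : M} (h : Dbl f g x y) (h' : Dbl f g y z) : Dbl f g x z :=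
  fun ε hε => by
  obtain ⟨K, hK⟩ := h (ε / 2) (half_pos hε)
  obtain ⟨K', hK'⟩ := h' (ε / 2) (half_pos hε)
  refine ⟨max K K', fun n m hnm => ?_⟩
  have h1 := hK n m ((le_max_left _ _).trans hnm)
  have h2 := hK' n m ((le_max_right _ _).trans hnm)
  have h3 := dist_triangle (f^[n] (g^[m] x)) (f^[n] (g^[m] y)) (f^[n] (g^[m] z))
  linarith

theorem Dbl.map' (hc : ∀ x, f (g x) = g (f x)) {x y : M} (h : Dbl f g x y) :
    Dbl f g (f x) (f y) := fun ε hε => by
  obtain ⟨K, hK⟩ := h ε hε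
  refine ⟨K, fun n m hnm => ?_⟩
  have hc' : ∀ m z, g^[m] (f z) = f (g^[m] z) := fun m z =>
    comm_iter (f := g) (g := f) (fun x => (hc x).symm) m z
  have h1 := hK (n + 1) m (by omega)
  rwa [iterate_succ_apply, iterate_succ_apply, ← hc', ← hc'] at h1

theorem Lf_symm {x z : M} (h : z ∈ Lf f g ε x) : x ∈ Lf f g ε z :=
  ⟨Coc.Wl_symm h.1, Dbl.symm' h.2⟩

theorem Lf_map (hc : ∀ x, f (g x) = g (f x)) {x z : M} (h : z ∈ Lf f g ε x) :
    f z ∈ Lf f g ε (f x) := ⟨Coc.Wl_map h.1, Dbl.map' hc h.2⟩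

theorem Lf_iter (hc : ∀ x, f (g x) = g (f x)) {x z : M} (h : z ∈ Lf f g ε x) (n : ℕ) :
    f^[n] z ∈ Lf f g ε (f^[n] x) := by
  induction n with
  | zero => exact h
  | succ n ih =>
    rw [iterate_succ_apply', iterate_succ_apply']
    exact Lf_map hc ih

theorem Lf_mono {ε' : ℝ} (h : ε' ≤ ε) (x : M) : Lf f g ε' x ⊆ Lf f g ε x :=
  fun _ hz => ⟨Coc.Wl_mono h x hz.1, hz.2⟩

theorem Lf_trans {ε' : ℝ} {x y z : M} (h : y ∈ Lf f g ε x) (h' : z ∈ Lf f g ε' y) :
    z ∈ Lf f g (ε + ε') x := ⟨Coc.Wl_trans h.1 h'.1, Dbl.trans' h.2 h'.2⟩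

end Top

/-! ### The linearization -/

variable {M W : Type*} [MetricSpace M] [NormedAddCommGroup W] [NormedSpace ℝ W]
  {E : Emb M W} {f g : M ≃ₜ M} {k : Coc W f} {K : ℝ}

/-- one constant for all -/
structure Hyp (E : Emb M W) (k : Coc W f) (K : ℝ) : Prop where
  hK : k.K ≤ K
  fwd : ∀ x z, ‖E.e (f z) - E.e (f x) - k.D x (E.e z - E.e x)‖ ≤ K * dist z x ^ 2

theorem Hyp.K_pos (h : Hyp E k K) : 0 < K := k.K_pos.trans_le h.hK

theorem Hyp.I_upper (h : Hyp E k K) (n : ℕ) (x : M) (w : W) :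
    k.an n x * ‖k.I n x (k.S (f^[n] x) w)‖ ≤ K ^ 2 * ‖k.S (f^[n] x) w‖ := by
  have h1 := k.I_upper n x w
  have h2 := k.K_pos
  have h3 := h.hK
  refine h1.trans ?_
  gcongr

theorem Hyp.S_le (h : Hyp E k K) (x : M) (w : W) : ‖k.S x w‖ ≤ K * ‖w‖ :=
  (k.S_le x w).trans (mul_le_mul_of_nonneg_right h.hK (norm_nonneg _))

theorem Hyp.an_le_succ (h : Hyp E k K) (n : ℕ) (x : M) :
    k.an n x ≤ K ^ 3 * k.an (n + 1) x := by
  have h1 := k.an_le_succ n x
  have h2 := k.K_pos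
  have h3 := h.hK
  have h4 := k.an_pos (n + 1) x
  refine h1.trans ?_
  gcongr

variable (E k)

/-- approximations of the linearization -/
noncomputable def t (n : ℕ) (x z : M) : W :=
  k.I n x (k.S (f^[n] x) (E.e (f^[n] z) - E.e (f^[n] x)))

/-- the linearization -/
noncomputable def psi (x z : M) : W := lim' (fun n => t E k n x z)

variable {E k}

variable {ε C l : ℝ}

theorem t_incr (h : Hyp E k K) (hg : Grw E g k ε C l) {x z : M} (hz : z ∈ Lf f g ε x) (n : ℕ) :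
    ‖t E k (n + 1) x z - t E k n x z‖ ≤ (K ^ 7 * C ^ 3 * dist z x ^ 2) * l ^ n := by
  have hK := h.K_pos
  have hC : 0 < C := one_pos.trans_le hg.one_le
  have hl := hg.l_pos
  set v := E.e (f^[n] z) - E.e (f^[n] x) with hv
  set v' := E.e (f^[n + 1] z) - E.e (f^[n + 1] x) with hv'
  have e1 : t E k (n + 1) x z - t E k n x z
      = k.I (n + 1) x (k.S (f^[n + 1] x) (v' - k.D (f^[n] x) v)) := by
    rw [map_sub, map_sub, k.I_succ_S]
    rfl
  have h1 := h.I_upper (n + 1) x (v' - k.D (f^[n] x) v)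
  rw [← e1] at h1
  have h2 := h.S_le (f^[n + 1] x) (v' - k.D (f^[n] x) v)
  have h3 : ‖v' - k.D (f^[n] x) v‖ ≤ K * dist (f^[n] z) (f^[n] x) ^ 2 := by
    have := h.fwd (f^[n] x) (f^[n] z)
    rw [← iterate_succ_apply' (⇑f), ← iterate_succ_apply' (⇑f)] at this
    exact this
  have h4 := hg.upper x z hz n
  have h5 := h.an_le_succ n x
  have ha := k.an_pos n x
  have ha1 := k.an_pos (n + 1) x
  have h6 : k.an n x ≤ C * l ^ n := hg.an_le n x
  have h4' : dist (f^[n] z) (f^[n] x) ≤ C * k.an n x * dist z x := h4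
  have hln : 0 < l ^ n := pow_pos hl n
  have h7 : k.an n x * ‖t E k (n + 1) x z - t E k n x z‖
      ≤ k.an n x * ((K ^ 7 * C ^ 3 * dist z x ^ 2) * l ^ n) := by
    calc k.an n x * ‖t E k (n + 1) x z - t E k n x z‖
        ≤ (K ^ 3 * k.an (n + 1) x) * ‖t E k (n + 1) x z - t E k n x z‖ := by gcongr
      _ = K ^ 3 * (k.an (n + 1) x * ‖t E k (n + 1) x z - t E k n x z‖) := by ring
      _ ≤ K ^ 3 * (K ^ 2 * (K * (K * (C * k.an n x * dist z x) ^ 2))) := by
          refine mul_le_mul_of_nonneg_left (h1.trans ?_) (by positivity)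
          refine mul_le_mul_of_nonneg_left (h2.trans ?_) (by positivity)
          refine mul_le_mul_of_nonneg_left (h3.trans ?_) (by positivity)
          gcongr
      _ = K ^ 7 * C ^ 2 * dist z x ^ 2 * k.an n x * k.an n x := by ring
      _ ≤ K ^ 7 * C ^ 2 * dist z x ^ 2 * (C * l ^ n) * k.an n x := by gcongr
      _ = _ := by ring
  exact le_of_mul_le_mul_left h7 ha

theorem psi_tendsto [CompleteSpace W] (h : Hyp E k K) (hg : Grw E g k ε C l) {x z : M}
    (hz : z ∈ Lf f g ε x) : Tendsto (fun n => t E k n x z) atTop (𝓝 (psi E k x z)) :=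
  lim'_tendsto hg.l_pos.le hg.l_lt (t_incr h hg hz)

theorem psi_sub_le (h : Hyp E k K) (hg : Grw E g k ε C l) {x z : M} (hz : z ∈ Lf f g ε x) :
    ‖psi E k x z - (E.e z - E.e x)‖ ≤ (K ^ 7 * C ^ 3 * (1 - l)⁻¹ + C) * dist z x ^ 2 := by
  have h1 : ‖psi E k x z - t E k 0 x z‖ ≤ K ^ 7 * C ^ 3 * dist z x ^ 2 * (1 - l)⁻¹ :=
    lim'_sub_le hg.l_pos.le hg.l_lt (t_incr h hg hz)
  have h2 := hg.cone x z hz
  have h3 : t E k 0 x z = k.S x (E.e z - E.e x) := rfl
  rw [h3] at h1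
  calc ‖psi E k x z - (E.e z - E.e x)‖
      = ‖(psi E k x z - k.S x (E.e z - E.e x))
          - (E.e z - E.e x - k.S x (E.e z - E.e x))‖ := by congr 1; abel
    _ ≤ K ^ 7 * C ^ 3 * dist z x ^ 2 * (1 - l)⁻¹ + C * dist z x ^ 2 :=
        (norm_sub_le _ _).trans (add_le_add h1 h2)
    _ = _ := by ring

theorem psi_mem [CompleteSpace W] (h : Hyp E k K) (hg : Grw E g k ε C l) {x z : M}
    (hz : z ∈ Lf f g ε x) : k.S x (psi E k x z) = psi E k x z := by
  have h1 := psi_tendsto h hg hz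
  have h2 := ((k.S x).continuous.tendsto _).comp h1
  refine tendsto_nhds_unique h2 (h1.congr fun n => ?_)
  exact (k.S_I n x _).symm

theorem psi_equiv [CompleteSpace W] (h : Hyp E k K) (hg : Grw E g k ε C l)
    (hc : ∀ x, f (g x) = g (f x)) {x z : M} (hz : z ∈ Lf f g ε x) :
    psi E k (f x) (f z) = k.D x (psi E k x z) := by
  have h1 := psi_tendsto h hg (Lf_map hc hz)
  have h2 := ((k.D x).continuous.tendsto _).comp
    ((psi_tendsto h hg hz).comp (tendsto_add_atTop_nat 1))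
  refine tendsto_nhds_unique h1 (h2.congr fun n => ?_)
  change k.D x (k.I (n + 1) x (k.S (f^[n + 1] x) (E.e (f^[n + 1] z) - E.e (f^[n + 1] x))))
    = k.I n (f x) (k.S (f^[n] (f x)) (E.e (f^[n] (f z)) - E.e (f^[n] (f x))))
  rw [k.I_succ', iterate_succ_apply, iterate_succ_apply, ← k.S_I n (f x)]
  have h3 := k.inv2 (f x) (k.I n (f x) (k.S (f^[n] (f x))
    (E.e (f^[n] (f z)) - E.e (f^[n] (f x)))))
  rw [f.symm_apply_apply] at h3
  exact h3

theorem t_cont (n : ℕ) : Continuous (fun p : M × M => t E k n p.1 p.2) := by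
  unfold t
  have he : Continuous E.e := E.isom.continuous
  have hf : Continuous (f^[n]) := f.continuous.iterate n
  refine ((k.I_cont n).comp continuous_fst).clm_apply ?_
  refine ((k.S_cont.comp hf).comp continuous_fst).clm_apply ?_
  exact ((he.comp hf).comp continuous_snd).sub ((he.comp hf).comp continuous_fst)

theorem psi_cont [CompleteSpace W] (h : Hyp E k K) (hg : Grw E g k ε C l) :
    ContinuousOn (fun p : M × M => psi E k p.1 p.2) {p | p.2 ∈ Lf f g ε p.1} := by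
  have hK := h.K_pos
  have hC : 0 < C := one_pos.trans_le hg.one_le
  refine lim'_continuousOn (K := K ^ 7 * C ^ 3 * ε ^ 2) hg.l_pos.le hg.l_lt
    (fun n => (t_cont n).continuousOn) (fun n p hp => (t_incr h hg hp n).trans ?_)
  have h1 : dist p.2 p.1 ≤ ε := hp.1 0
  have hl := hg.l_pos
  gcongr

theorem psi_trans [CompleteSpace W] (h : Hyp E k K) (hg : Grw E g k ε C l)
    (hc : ∀ x, f (g x) = g (f x)) {C₂ l₂ : ℝ} (hd : Dec f ε C₂ l₂)
    (hS : k.Small ε) {x z z' : M} (hz : z ∈ Lf f g ε x) (hz' : z' ∈ Lf f g ε x)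
    (hzz : z' ∈ Lf f g ε z) :
    psi E k z z' = k.Q x z (psi E k x z' - psi E k x z) := by
  have hK := h.K_pos
  have hC : 0 < C := one_pos.trans_le hg.one_le
  have hl := hg.l_pos
  have hε := hg.ε_pos
  have hR := k.R_one_le hd
  have h1 := psi_tendsto h hg hz
  have h2 := psi_tendsto h hg hz'
  have h3 := psi_tendsto h hg hzz
  have h4 := k.Q_tendsto hd hS hz.1
  have h5 := tendsto_clm_apply h4 (h2.sub h1)
  refine tendsto_nhds_unique h3 ?_
  have h6 : Tendsto (fun n => t E k n z z' - k.T n x z (t E k n x z' - t E k n x z)) atTop (𝓝 0) := by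
    have h7 : Tendsto (fun n : ℕ => (2 * K ^ 3 * C ^ 4 * ε ^ 2 * k.R ε C₂ l₂) * l ^ n) atTop
        (𝓝 0) := by
      have := (tendsto_pow_atTop_nhds_zero_of_lt_one hg.l_pos.le hg.l_lt).const_mul
        (2 * K ^ 3 * C ^ 4 * ε ^ 2 * k.R ε C₂ l₂)
      simpa using this
    refine squeeze_zero_norm (fun n => ?_) h7
    have hS_x : k.S x (t E k n x z' - t E k n x z) = t E k n x z' - t E k n x z := by
      rw [map_sub]
      have e1 : k.S x (t E k n x z') = t E k n x z' := k.S_I n x _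
      have e2 : k.S x (t E k n x z) = t E k n x z := k.S_I n x _
      rw [e1, e2]
    have hA : k.A n x (t E k n x z' - t E k n x z)
        = k.S (f^[n] x) (E.e (f^[n] z') - E.e (f^[n] z)) := by
      rw [map_sub]
      have e1 : k.A n x (t E k n x z') = k.S (f^[n] x) (E.e (f^[n] z') - E.e (f^[n] x)) :=
        k.A_I n x _
      have e2 : k.A n x (t E k n x z) = k.S (f^[n] x) (E.e (f^[n] z) - E.e (f^[n] x)) :=
        k.A_I n x _
      rw [e1, e2, ← map_sub]
      congr 1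
      abel
    set y := (E.e (f^[n] z') - E.e (f^[n] z))
      - k.S (f^[n] x) (E.e (f^[n] z') - E.e (f^[n] z)) with hy
    have e3 : t E k n z z' - k.T n x z (t E k n x z' - t E k n x z) = k.I n z (k.S (f^[n] z) y) := by
      have e6 : t E k n z z' = k.I n z (k.S (f^[n] z) (E.e (f^[n] z') - E.e (f^[n] z))) := rfl
      rw [k.T_apply, hS_x, hA, e6, ← map_sub, ← map_sub]
    rw [e3]
    have ha := k.an_pos n z
    have hax := k.an_pos n x
    have hyn : ‖y‖ ≤ 2 * C * (C * k.an n x * ε) ^ 2 := by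
      have c1 := hg.cone (f^[n] x) (f^[n] z') (Lf_iter hc hz' n)
      have c2 := hg.cone (f^[n] x) (f^[n] z) (Lf_iter hc hz n)
      have d1 : dist (f^[n] z') (f^[n] x) ≤ C * k.an n x * ε := by
        have h0 : dist z' x ≤ ε := hz'.1 0
        refine (hg.upper x z' hz' n).trans ?_
        gcongr
      have d2 : dist (f^[n] z) (f^[n] x) ≤ C * k.an n x * ε := by
        have h0 : dist z x ≤ ε := hz.1 0
        refine (hg.upper x z hz n).trans ?_
        gcongr
      have e4 : y = (E.e (f^[n] z') - E.e (f^[n] x)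
            - k.S (f^[n] x) (E.e (f^[n] z') - E.e (f^[n] x)))
          - (E.e (f^[n] z) - E.e (f^[n] x)
            - k.S (f^[n] x) (E.e (f^[n] z) - E.e (f^[n] x))) := by
        rw [hy, map_sub, map_sub, map_sub]
        abel
      rw [e4]
      calc _ ≤ C * dist (f^[n] z') (f^[n] x) ^ 2 + C * dist (f^[n] z) (f^[n] x) ^ 2 :=
            (norm_sub_le _ _).trans (add_le_add c1 c2)
        _ ≤ C * (C * k.an n x * ε) ^ 2 + C * (C * k.an n x * ε) ^ 2 := by gcongr
        _ = _ := by ring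
    have h8 := h.I_upper n z y
    have h9 := h.S_le (f^[n] z) y
    have h10 := k.ratio hd hS hz.1 n
    have h11 : k.an n x ≤ C * l ^ n := hg.an_le n x
    have hln : 0 < l ^ n := pow_pos hl n
    have h12 : k.an n z * ‖k.I n z (k.S (f^[n] z) y)‖
        ≤ k.an n z * ((2 * K ^ 3 * C ^ 4 * ε ^ 2 * k.R ε C₂ l₂) * l ^ n) := by
      calc _ ≤ K ^ 2 * (K * (2 * C * (C * k.an n x * ε) ^ 2)) := by
            refine h8.trans (mul_le_mul_of_nonneg_left (h9.trans ?_) (by positivity))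
            exact mul_le_mul_of_nonneg_left hyn hK.le
        _ = 2 * K ^ 3 * C ^ 3 * ε ^ 2 * k.an n x * k.an n x := by ring
        _ ≤ 2 * K ^ 3 * C ^ 3 * ε ^ 2 * (C * l ^ n) * (k.R ε C₂ l₂ * k.an n z) := by
            gcongr
        _ = _ := by ring
    exact le_of_mul_le_mul_left h12 ha
  have h13 := h6.add h5
  rw [zero_add] at h13
  refine h13.congr fun n => ?_
  abel


/-! ### Equivariance under the second homeomorphism -/

section G

variable [CompactSpace M] {s : Split E f} {t' : Split E g}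

theorem DP (hs : s.Hyperbolic) (hc : ∀ x, f (g x) = g (f x)) (x : M) (w : W) :
    t'.D x (PP s t' x w) = PP s t' (g x) (t'.D x w) := by
  have h1 := congrArg (fun L => L (t'.S x w)) (DS_commutes t' s hs (fun x => (hc x).symm) x).1
  have h2 := congrArg (fun L => L w) (t'.DS x)
  simp only [ContinuousLinearMap.comp_apply] at h1 h2
  change t'.D x (s.S x (t'.S x w)) = s.S (g x) (t'.S (g x) (t'.D x w))
  rw [h1, h2]

theorem DI (hk : IsCoc s t' k) (hc : ∀ x, f (g x) = g (f x)) (n : ℕ) (x : M) (w : W) :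
    t'.D x (k.I n x w) = k.I n (g x) (t'.D (f^[n] x) w) := by
  have hc' : ∀ x, f.symm (g x) = g (f.symm x) := fun x => by
    apply f.injective
    rw [f.apply_symm_apply, hc, f.apply_symm_apply]
  have h1 := congrArg (fun L => L w) (comm_iterD f.symm.continuous g.continuous s.hDi t'.hD hc' n
    (f^[n] x))
  have h2 : f.symm^[n] (f^[n] x) = x := by
    have hl : LeftInverse f.symm f := fun y => f.symm_apply_apply y
    exact hl.iterate n x
  simp only [ContinuousLinearMap.comp_apply] at h1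
  rw [h2] at h1
  unfold Coc.I
  rw [hk.Di, comm_iter hc, h1]

theorem DA (hk : IsCoc s t' k) (hc : ∀ x, f (g x) = g (f x)) (n : ℕ) (x : M) (w : W) :
    t'.D (f^[n] x) (k.A n x w) = k.A n (g x) (t'.D x w) := by
  have h1 := congrArg (fun L => L w) (comm_iterD f.continuous g.continuous s.hD t'.hD hc n x)
  simp only [ContinuousLinearMap.comp_apply] at h1
  unfold Coc.A
  rw [hk.D, h1]

theorem ratio_g (hs : s.Hyperbolic) (hk : IsCoc s t' k) (hc : ∀ x, f (g x) = g (f x)) :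
    ∃ R : ℝ, 1 ≤ R ∧ ∀ n x, k.an n x ≤ R * k.an n (g x) := by
  obtain ⟨K₁, hK₁, H₁⟩ := exists_norm_bound t'.hD.cont
  obtain ⟨K₂, hK₂, H₂⟩ := exists_norm_bound t'.hDi.cont
  have hK := k.K_pos
  refine ⟨k.K ^ 4 * K₁ * K₂, ?_, fun n x => ?_⟩
  · have h1 : 1 ≤ k.K ^ 4 := one_le_pow₀ k.one_le
    calc (1 : ℝ) = 1 * 1 * 1 := by norm_num
      _ ≤ k.K ^ 4 * K₁ * K₂ := by gcongr
  obtain ⟨w, hw⟩ := k.S_ne x
  have h0 : 0 < ‖k.S x w‖ := norm_pos_iff.2 hw
  have h1 := k.A_lower n x w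
  set u := k.A n x (k.S x w) with hu
  have hPu : E.P (f^[n] x) u = u := by
    have h2 := k.S_A n x w
    rw [← hu, hk.S] at h2
    rw [h2]
    have h3 := congrArg (fun L => L (t'.S (f^[n] x) (k.A n x w))) (s.PS (f^[n] x))
    exact h3
  have hinv : t'.Di (g (f^[n] x)) (t'.D (f^[n] x) u) = u := by
    have h3 := congrArg (fun L => L u) (t'.inv1 (f^[n] x))
    simp only [ContinuousLinearMap.comp_apply] at h3
    rw [h3, hPu]
  have h4 : ‖u‖ ≤ K₂ * ‖t'.D (f^[n] x) u‖ := by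
    calc ‖u‖ = ‖t'.Di (g (f^[n] x)) (t'.D (f^[n] x) u)‖ := by rw [hinv]
      _ ≤ _ := (t'.Di _).le_of_opNorm_le (H₂ _) _
  have h5 : t'.D (f^[n] x) u = k.A n (g x) (k.S (g x) (t'.D x w)) := by
    rw [hu, DA hk hc, hk.S, DP hs hc]
  have h6 := k.A_upper n (g x) (t'.D x w)
  have h7 : ‖k.S (g x) (t'.D x w)‖ ≤ K₁ * ‖k.S x w‖ := by
    have h8 : k.S (g x) (t'.D x w) = t'.D x (k.S x w) := by
      rw [hk.S, DP hs hc]
    rw [h8]
    exact (t'.D x).le_of_opNorm_le (H₁ x) _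
  have ha := k.an_pos n (g x)
  have h9 : k.an n x * ‖k.S x w‖ ≤ (k.K ^ 4 * K₁ * K₂ * k.an n (g x)) * ‖k.S x w‖ := by
    calc k.an n x * ‖k.S x w‖ ≤ k.K ^ 2 * ‖u‖ := h1
      _ ≤ k.K ^ 2 * (K₂ * (k.K ^ 2 * k.an n (g x) * (K₁ * ‖k.S x w‖))) := by
          refine mul_le_mul_of_nonneg_left (h4.trans ?_) (by positivity)
          refine mul_le_mul_of_nonneg_left ?_ (by linarith)
          rw [h5]
          exact h6.trans (mul_le_mul_of_nonneg_left h7 (by positivity))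
      _ = _ := by ring
  exact le_of_mul_le_mul_right h9 h0

theorem psi_equiv_g [CompleteSpace W] (h : Hyp E k K) (hg : Grw E g k ε C l)
    (hs : s.Hyperbolic) (hk : IsCoc s t' k) (hc : ∀ x, f (g x) = g (f x))
    (hsq : ∀ x z, ‖E.e (g z) - E.e (g x) - t'.D x (E.e z - E.e x)‖ ≤ K * dist z x ^ 2)
    {x z : M} (hz : z ∈ Lf f g ε x) (hgz : g z ∈ Lf f g ε (g x)) :
    psi E k (g x) (g z) = t'.D x (psi E k x z) := by
  have hK := h.K_pos
  have hC : 0 < C := one_pos.trans_le hg.one_le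
  have hl := hg.l_pos
  have hε := hg.ε_pos
  obtain ⟨R, hR, hRn⟩ := ratio_g hs hk hc
  have h1 := psi_tendsto h hg hgz
  have h2 := ((t'.D x).continuous.tendsto _).comp (psi_tendsto h hg hz)
  refine tendsto_nhds_unique h1 ?_
  have h3 : Tendsto (fun n => t E k n (g x) (g z) - t'.D x (t E k n x z)) atTop (𝓝 0) := by
    have h7 : Tendsto (fun n : ℕ => (K ^ 4 * C ^ 3 * ε ^ 2 * R) * l ^ n) atTop (𝓝 0) := by
      have := (tendsto_pow_atTop_nhds_zero_of_lt_one hg.l_pos.le hg.l_lt).const_mul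
        (K ^ 4 * C ^ 3 * ε ^ 2 * R)
      simpa using this
    refine squeeze_zero_norm (fun n => ?_) h7
    set y := E.e (g (f^[n] z)) - E.e (g (f^[n] x))
      - t'.D (f^[n] x) (E.e (f^[n] z) - E.e (f^[n] x)) with hy
    have e1 : t E k n (g x) (g z) - t'.D x (t E k n x z)
        = k.I n (g x) (k.S (f^[n] (g x)) y) := by
      have e2 : t'.D x (t E k n x z) = k.I n (g x) (k.S (f^[n] (g x))
          (t'.D (f^[n] x) (E.e (f^[n] z) - E.e (f^[n] x)))) := by
        rw [t, DI hk hc, hk.S, DP hs hc, comm_iter hc]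
      rw [e2, t, hy, ← map_sub, ← map_sub, comm_iter hc, comm_iter hc]
    rw [e1]
    have hyn : ‖y‖ ≤ K * (C * k.an n x * ε) ^ 2 := by
      refine (hsq (f^[n] x) (f^[n] z)).trans ?_
      have d2 : dist (f^[n] z) (f^[n] x) ≤ C * k.an n x * ε := by
        have h0 : dist z x ≤ ε := hz.1 0
        have := k.an_pos n x
        refine (hg.upper x z hz n).trans ?_
        gcongr
      gcongr
    have ha := k.an_pos n (g x)
    have hax := k.an_pos n x
    have h8 := h.I_upper n (g x) y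
    have h9 := h.S_le (f^[n] (g x)) y
    have h10 := hRn n x
    have h11 : k.an n x ≤ C * l ^ n := hg.an_le n x
    have hln : 0 < l ^ n := pow_pos hl n
    have h12 : k.an n (g x) * ‖k.I n (g x) (k.S (f^[n] (g x)) y)‖
        ≤ k.an n (g x) * ((K ^ 4 * C ^ 3 * ε ^ 2 * R) * l ^ n) := by
      calc _ ≤ K ^ 2 * (K * (K * (C * k.an n x * ε) ^ 2)) := by
            refine h8.trans (mul_le_mul_of_nonneg_left (h9.trans ?_) (by positivity))
            exact mul_le_mul_of_nonneg_left hyn hK.le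
        _ = K ^ 4 * C ^ 2 * ε ^ 2 * k.an n x * k.an n x := by ring
        _ ≤ K ^ 4 * C ^ 2 * ε ^ 2 * (C * l ^ n) * (R * k.an n (g x)) := by
            gcongr
        _ = _ := by ring
    exact le_of_mul_le_mul_left h12 ha
  have h13 := h3.add h2
  rw [zero_add] at h13
  refine h13.congr fun n => ?_
  simp only [Function.comp_apply]
  abel

end G

theorem grw_mono {ε' : ℝ} (h : Grw E g k ε C l) (h0 : 0 < ε') (h1 : ε' ≤ ε) :
    Grw E g k ε' C l :=
  ⟨h0, h.one_le, h.l_pos, h.l_lt, h.an_le, fun x z hz => h.upper x z (Lf_mono h1 x hz),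
    fun x z hz => h.lower x z (Lf_mono h1 x hz),
    fun x z hz => h.cone x z (Lf_mono h1 x hz)⟩

theorem main [CompactSpace M] [CompleteSpace W] {s : Split E f} {t' : Split E g} {C₀ : ℝ}
    (hb : Bun s t' C₀) (hk : IsCoc s t' k) (hg : Grw E g k ε C l) :
    ∃ (ε' C' : ℝ) (ψ : M → M → W) (Q : M → M → W →L[ℝ] W) (q : M → M → ℝ),
      Flt E g k ε' C' ψ Q q ∧ ∀ x, ∀ z ∈ Lf f g ε' x, g z ∈ Lf f g ε' (g x) →
        ψ (g x) (g z) = t'.D x (ψ x z) := by
  have hc := hb.comm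
  obtain ⟨K, hKdef⟩ : ∃ K, K = max k.K C₀ := ⟨_, rfl⟩
  have hkK : k.K ≤ K := hKdef ▸ le_max_left _ _
  have hCK : C₀ ≤ K := hKdef ▸ le_max_right _ _
  have h : Hyp E k K := by
    refine ⟨hkK, fun x z => ?_⟩
    have h1 := hb.sqs.fwd x z
    rw [hk.D]
    exact h1.trans (mul_le_mul_of_nonneg_right hCK (sq_nonneg _))
  have hsq : ∀ x z, ‖E.e (g z) - E.e (g x) - t'.D x (E.e z - E.e x)‖ ≤ K * dist z x ^ 2 :=
    fun x z => (hb.sqt.fwd x z).trans (mul_le_mul_of_nonneg_right hCK (sq_nonneg _))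
  obtain ⟨ε₀, hε₀, hsm⟩ := k.exists_small
  obtain ⟨ε₂, C₂, l₂, hdec⟩ := exists_dec s hb.hs
  have hK := h.K_pos
  have hC : 0 < C := one_pos.trans_le hg.one_le
  have hl1 : 0 < 1 - l := sub_pos.2 hg.l_lt
  set C₁ := K ^ 7 * C ^ 3 * (1 - l)⁻¹ + C with hC₁
  have hC₁pos : 0 < C₁ := by positivity
  have hC₁one : 1 ≤ C₁ := by
    have : 0 < K ^ 7 * C ^ 3 * (1 - l)⁻¹ := by positivity
    have := hg.one_le
    linarith
  set ε₁ := min (min ε ε₂) (min ε₀ (1 / (2 * C₁))) with hε₁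
  have hε₁pos : 0 < ε₁ := lt_min (lt_min hg.ε_pos hdec.ε_pos) (lt_min hε₀ (by positivity))
  have hg1 : Grw E g k ε₁ C l := grw_mono hg hε₁pos ((min_le_left _ _).trans (min_le_left _ _))
  have hd1 : Dec f ε₁ C₂ l₂ :=
    Coc.dec_mono hdec hε₁pos ((min_le_left _ _).trans (min_le_right _ _))
  have hS : k.Small ε₁ := hsm _ ((min_le_right _ _).trans (min_le_left _ _))
  have hsmall : C₁ * ε₁ ≤ 1 / 2 := by
    have : ε₁ ≤ 1 / (2 * C₁) := (min_le_right _ _).trans (min_le_right _ _)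
    calc C₁ * ε₁ ≤ C₁ * (1 / (2 * C₁)) := by gcongr
      _ = 1 / 2 := by field_simp
  set ε' := ε₁ / 2 with hε'
  have hε'pos : 0 < ε' := half_pos hε₁pos
  have hle : ε' ≤ ε₁ := half_le_self hε₁pos.le
  have hmem : ∀ {x z : M}, z ∈ Lf f g ε' x → z ∈ Lf f g ε₁ x := fun hz => Lf_mono hle _ hz
  have happ : ∀ x, ∀ z ∈ Lf f g ε₁ x,
      ‖psi E k x z - (E.e z - E.e x)‖ ≤ C₁ * dist z x ^ 2 :=
    fun x z hz => psi_sub_le h hg1 hz
  have happ2 : ∀ x, ∀ z ∈ Lf f g ε₁ x,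
      ‖psi E k x z - (E.e z - E.e x)‖ ≤ 1 / 2 * dist z x := fun x z hz => by
    refine (happ x z hz).trans ?_
    have h0 : dist z x ≤ ε₁ := hz.1 0
    calc C₁ * dist z x ^ 2 = (C₁ * dist z x) * dist z x := by ring
      _ ≤ (C₁ * ε₁) * dist z x := by gcongr
      _ ≤ 1 / 2 * dist z x := by gcongr
  have hlow : ∀ x, ∀ z ∈ Lf f g ε₁ x, dist z x ≤ 2 * ‖psi E k x z‖ := fun x z hz => by
    have h1 := happ2 x z hz
    have h2 : dist z x ≤ ‖psi E k x z‖ + ‖psi E k x z - (E.e z - E.e x)‖ := by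
      rw [E.dist_eq]
      calc ‖E.e z - E.e x‖
          = ‖psi E k x z - (psi E k x z - (E.e z - E.e x))‖ := by congr 1; abel
        _ ≤ _ := norm_sub_le _ _
    linarith
  have hup : ∀ x, ∀ z ∈ Lf f g ε₁ x, ‖psi E k x z‖ ≤ 2 * dist z x := fun x z hz => by
    have h1 := happ2 x z hz
    have h2 : ‖psi E k x z‖ ≤ ‖psi E k x z - (E.e z - E.e x)‖ + dist z x := by
      rw [E.dist_eq]
      calc ‖psi E k x z‖
          = ‖(psi E k x z - (E.e z - E.e x)) + (E.e z - E.e x)‖ := by congr 1; abel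
        _ ≤ _ := norm_add_le _ _
    have h3 : 0 ≤ dist z x := dist_nonneg
    linarith
  have hsub : {p : M × M | p.2 ∈ Lf f g ε' p.1} ⊆ {p : M × M | p.2 ∈ Lf f g ε₁ p.1} :=
    fun p hp => hmem hp
  have hsub2 : {p : M × M | p.2 ∈ Lf f g ε' p.1} ⊆ {p : M × M | p.2 ∈ Wl f ε₁ p.1} :=
    fun p hp => (hmem hp).1
  refine ⟨ε', C₁, psi E k, k.Q, k.q, ?_, fun x z hz hgz =>
    psi_equiv_g h hg1 hb.hs hk hc hsq (hmem hz) (hmem hgz)⟩
  refine ⟨hε'pos, hC₁one, fun x z hz => psi_mem h hg1 (hmem hz),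
    fun x z hz => happ x z (hmem hz), fun x z hz => hup x z (hmem hz),
    fun x z hz => hlow x z (hmem hz), fun x z hz => psi_equiv h hg1 hc (hmem hz), ?_,
    (psi_cont h hg1).mono hsub, ?_, fun x => k.Q_self hd1 hS x, ?_, ?_, ?_,
    (k.Q_cont hd1 hS).mono hsub2, fun x z hz => k.q_pos hd1 hS (hmem hz).1⟩
  · intro x z hz z' hz' heq
    have hzz : z' ∈ Lf f g ε₁ z := by
      have := Lf_trans (Lf_symm hz) hz'
      rwa [hε', add_halves] at this
    have h1 := psi_trans h hg1 hc hd1 hS (hmem hz) (hmem hz') hzz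
    rw [heq, sub_self, map_zero] at h1
    have h2 := hlow z z' hzz
    rw [h1, norm_zero, mul_zero] at h2
    exact (dist_le_zero.1 h2).symm
  · intro x z hz z' hz' hzz
    exact psi_trans h hg1 hc hd1 hS (hmem hz) (hmem hz') (hmem hzz)
  · intro x z hz
    ext w
    exact k.Q_S_apply hd1 hS (hmem hz).1 w
  · intro x z hz
    ext w
    exact k.S_Q_apply hd1 hS (hmem hz).1 w
  · intro x z hz v w
    exact k.Q_conf hd1 hS (hmem hz).1 v w

end FLTAux

theorem specFlt : SpecFlt.{u, v} := by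
  intro M W _ _ _ _ _ E f g s t C₀ k ε C l hb hk hg
  have : CompleteSpace W := FiniteDimensional.complete ℝ W
  exact FLTAux.main hb hk hg

end Pool.Agent.Lib.MP610fe3.HR
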