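import Pool.Agent.Lib.MP_610fe3_an.HR.Spec
import Pool.Agent.Lib.MP_610fe3_an.Cf.Grow

/-!
# Module GRW: growth of pairs in local double leaves
-/

set_option autoImplicit false
set_option linter.unusedSectionVars false

open Set Filter Function
open scoped Topology

namespace Pool.Agent.Lib.MP610fe3.HR

open Cf CH

universe u v

namespace GRWAux

section Seminorm

variable {M W : Type*} [MetricSpace M] [NormedAddCommGroup W] [NormedSpace ℝ W]
  {f : M ≃ₜ M} (k : Coc W f)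

/-- the seminorm of the cocycle -/
noncomputable def gg (x : M) (w : W) : ℝ := Real.sqrt (k.B x w w)

theorem B_nonneg (x : M) (w : W) : 0 ≤ k.B x w w := by
  have h := k.lower x w
  have hK := k.K_pos
  by_contra hn
  push Not at hn
  nlinarith [sq_nonneg ‖k.S x w‖, mul_neg_of_pos_of_neg (show 0 < k.K ^ 2 by positivity) hn]

theorem gg_nonneg (x : M) (w : W) : 0 ≤ gg k x w := Real.sqrt_nonneg _

theorem gg_sq (x : M) (w : W) : gg k x w ^ 2 = k.B x w w := Real.sq_sqrt (B_nonneg k x w)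

theorem norm_S_le (x : M) (w : W) : ‖k.S x w‖ ≤ k.K * gg k x w := by
  have h := k.lower x w
  rw [← gg_sq, ← mul_pow] at h
  exact (pow_le_pow_iff_left₀ (norm_nonneg _)
    (mul_nonneg k.K_pos.le (gg_nonneg k x w)) two_ne_zero).1 h

theorem gg_le (x : M) (w : W) : gg k x w ≤ k.K * ‖w‖ := by
  have h := k.upper x w
  rw [← gg_sq, ← mul_pow] at h
  exact (pow_le_pow_iff_left₀ (gg_nonneg k x w)
    (mul_nonneg k.K_pos.le (norm_nonneg w)) two_ne_zero).1 h

theorem B_add (x : M) (v w : W) :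
    k.B x (v + w) (v + w) = k.B x v v + 2 * k.B x v w + k.B x w w := by
  rw [map_add, map_add, add_apply, add_apply, k.symm x w v]
  ring

theorem cauchy (x : M) (v w : W) : |k.B x v w| ≤ gg k x v * gg k x w := by
  have key : ∀ t : ℝ, 0 ≤ k.B x w w * (t * t) + (2 * k.B x v w) * t + k.B x v v := by
    intro t
    have h := B_nonneg k x (v + t • w)
    rw [B_add] at h
    have h1 : k.B x v (t • w) = t * k.B x v w := by simp
    have h2 : k.B x (t • w) (t • w) = t * (t * k.B x w w) := by simp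
    rw [h1, h2] at h
    linarith
  have hd := discrim_le_zero key
  have h3 : k.B x v w ^ 2 ≤ (gg k x v * gg k x w) ^ 2 := by
    rw [mul_pow, gg_sq, gg_sq]
    unfold discrim at hd
    nlinarith
  exact abs_le_of_sq_le_sq h3 (mul_nonneg (gg_nonneg k x v) (gg_nonneg k x w))

theorem gg_add_le (x : M) (v w : W) : gg k x (v + w) ≤ gg k x v + gg k x w := by
  have h0 := gg_nonneg k x v
  have h1 := gg_nonneg k x w
  refine Real.sqrt_le_iff.2 ⟨add_nonneg h0 h1, ?_⟩
  rw [B_add]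
  have h2 := (abs_le.1 (cauchy k x v w)).2
  rw [← gg_sq k x v, ← gg_sq k x w]
  nlinarith

theorem gg_neg (x : M) (w : W) : gg k x (-w) = gg k x w := by
  unfold gg
  congr 1
  simp

theorem le_gg_add (x : M) (v w : W) : gg k x v - gg k x w ≤ gg k x (v + w) := by
  have h := gg_add_le k x (v + w) (-w)
  rw [gg_neg, add_neg_cancel_right] at h
  linarith

theorem gg_map (x : M) (w : W) : gg k (f x) (k.D x w) = k.a x * gg k x w := by
  unfold gg
  rw [k.conf, Real.sqrt_mul (sq_nonneg _), Real.sqrt_sq (k.a_pos x).le]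

end Seminorm

section Leaves

variable {M : Type*} [MetricSpace M] {f g : M ≃ₜ M}

theorem comm_iter (hc : ∀ x, f (g x) = g (f x)) (m k : ℕ) (x : M) :
    g^[m] (f^[k] x) = f^[k] (g^[m] x) := by
  have h : Function.Commute (g : M → M) (f : M → M) := fun y => (hc y).symm
  exact (h.iterate_iterate m k) x

theorem Dbl_iter (hc : ∀ x, f (g x) = g (f x)) {x y : M} (h : Dbl f g x y) (k : ℕ) :
    Dbl f g (f^[k] x) (f^[k] y) := by
  intro ε hε
  obtain ⟨K, hK⟩ := h ε hε
  refine ⟨K, fun n m hnm => ?_⟩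
  rw [comm_iter hc, comm_iter hc, ← iterate_add_apply, ← iterate_add_apply]
  exact hK (n + k) m (by omega)

theorem Lf_iter (hc : ∀ x, f (g x) = g (f x)) {ε : ℝ} {x z : M} (h : z ∈ Lf f g ε x) (k : ℕ) :
    f^[k] z ∈ Lf f g ε (f^[k] x) :=
  ⟨Wl_iter h.1 k, Dbl_iter hc h.2 k⟩

end Leaves

section Main

variable {M : Type u} {W : Type v} [MetricSpace M] [CompactSpace M] [NormedAddCommGroup W]
  [InnerProductSpace ℝ W] [FiniteDimensional ℝ W] {E : Emb M W} {f g : M ≃ₜ M}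
  {s : Split E f} {t : Split E g} {C₀ : ℝ} {k : Coc W f}

/-- the cone estimate -/
theorem exists_cone_leaf (hPr : SpecProd.{u}) (hb : Bun s t C₀) (hk : IsCoc s t k)
    {ε₀ C₁ l₁ : ℝ} (hp : Pair f g ε₀ C₁ l₁) :
    ∃ ε C : ℝ, 0 < ε ∧ ε ≤ ε₀ ∧ 1 ≤ C ∧ ∀ x, ∀ z ∈ Lf f g ε x,
      ‖E.e z - E.e x - k.S x (E.e z - E.e x)‖ ≤ C * dist z x ^ 2 := by
  obtain ⟨Cs, hCs, hs⟩ := exists_cone_sq s hb.hs hb.sqs hp.one.decs
  obtain ⟨Ct, hCt, ht⟩ := exists_cone_sq t hb.ht hb.sqt hp.two.decs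
  obtain ⟨K, hK1, hK⟩ := s.exists_bdd
  obtain ⟨-, -, h3, -⟩ := hPr M f g ε₀ C₁ l₁ hp
  obtain ⟨δ, hδ, h3⟩ := h3 ε₀ hp.one.decs.ε_pos
  refine ⟨min ε₀ δ, Cs + K * Ct, lt_min hp.one.decs.ε_pos hδ, min_le_left _ _, ?_,
    fun x z hz => ?_⟩
  · have : 0 ≤ K * Ct := by positivity
    linarith
  have h1 := hs x z (Wl_mono (min_le_left _ _) hz.1)
  have h2 := ht x z (h3 x z hz.2 (Wl_mono (min_le_right _ _) hz.1))
  have e : E.e z - E.e x - k.S x (E.e z - E.e x)
      = (E.e z - E.e x - s.S x (E.e z - E.e x))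
        + s.S x (E.e z - E.e x - t.S x (E.e z - E.e x)) := by
    rw [hk.S]
    simp only [PP, ContinuousLinearMap.comp_apply, map_sub]
    abel
  rw [e]
  have h4 := (s.S x).le_of_opNorm_le (hK x).1 (E.e z - E.e x - t.S x (E.e z - E.e x))
  have hd : 0 ≤ dist z x ^ 2 := sq_nonneg _
  calc _ ≤ _ := norm_add_le _ _
    _ ≤ Cs * dist z x ^ 2 + K * (Ct * dist z x ^ 2) := by
        refine add_le_add h1 (h4.trans ?_)
        exact mul_le_mul_of_nonneg_left h2 (by linarith)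
    _ = _ := by ring

theorem exists_an_le (hb : Bun s t C₀) (hk : IsCoc s t k) :
    ∃ C l : ℝ, 0 < C ∧ 0 < l ∧ l < 1 ∧ ∀ n x, k.an n x ≤ C * l ^ n := by
  obtain ⟨C, l, hC, hl, hl1, H⟩ := hb.hs
  have hK := k.K_pos
  refine ⟨k.K ^ 2 * C, l, by positivity, hl, hl1, fun n x => ?_⟩
  obtain ⟨w, hw⟩ := k.S_ne x
  have h0 : 0 < ‖k.S x w‖ := norm_pos_iff.2 hw
  have h1 := k.A_lower n x w
  have h2 : k.A n x (k.S x w) = iterD s.D f n x (s.S x (k.S x w)) := by
    have e1 : s.S x (k.S x w) = k.S x w := by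
      rw [hk.S]
      exact s.SS_apply x _
    rw [e1]
    unfold Coc.A
    rw [hk.D]
  rw [h2] at h1
  have h3 := (H n x (k.S x w)).1
  have h4 : k.an n x * ‖k.S x w‖ ≤ k.K ^ 2 * C * l ^ n * ‖k.S x w‖ := by
    refine h1.trans ?_
    calc k.K ^ 2 * ‖iterD s.D f n x (s.S x (k.S x w))‖
        ≤ k.K ^ 2 * (C * l ^ n * ‖k.S x w‖) := by gcongr
      _ = _ := by ring
  exact le_of_mul_le_mul_right h4 h0

theorem exists_grw (hPr : SpecProd.{u}) (hb : Bun s t C₀) (hk : IsCoc s t k)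
    {ε₀ C₁ l₁ : ℝ} (hp : Pair f g ε₀ C₁ l₁) : ∃ ε C l : ℝ, Grw E g k ε C l := by
  obtain ⟨ε₁, Cc, hε₁, hε₁₀, hCc, hcone⟩ := exists_cone_leaf hPr hb hk hp
  obtain ⟨C₂, l₂, hC₂, hl₂, hl₂1, han⟩ := exists_an_le hb hk
  have hd := hp.one.decs
  have hC1 := hd.one_le
  have hl := hd.l_pos
  have hl1 := hd.l_lt
  set K : ℝ := k.K with hKdef
  have hK1 : 1 ≤ K := k.one_le
  have hK : 0 < K := k.K_pos
  have hb1 : ∀ x w, ‖k.S x w‖ ≤ K * gg k x w := norm_S_le k
  have hb2 : ∀ x w, gg k x w ≤ K * ‖w‖ := gg_le k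
  set A : ℝ := |C₀| + 1 with hA
  have hA0 : 0 < A := by positivity
  have hinv : 0 < (1 - l₁)⁻¹ := inv_pos.2 (by linarith)
  set b : ℝ := 2 * K ^ 2 * A * K ^ 3 * C₁ with hbdef
  have hb0 : 0 < b := by positivity
  set ε : ℝ := min ε₁ (min (1 / (2 * Cc * C₁)) (1 / (2 * b * (1 - l₁)⁻¹))) with hε
  have hε0 : 0 < ε := lt_min hε₁ (lt_min (by positivity) (by positivity))
  have hεε₁ : ε ≤ ε₁ := min_le_left _ _
  have hεε₀ : ε ≤ ε₀ := hεε₁.trans hε₁₀
  have hε1 : Cc * C₁ * ε ≤ 1 / 2 := by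
    have h1 : ε ≤ 1 / (2 * Cc * C₁) := (min_le_right _ _).trans (min_le_left _ _)
    calc Cc * C₁ * ε ≤ Cc * C₁ * (1 / (2 * Cc * C₁)) := by gcongr
      _ = 1 / 2 := by field_simp
  have hε2 : b * (1 - l₁)⁻¹ * ε ≤ 1 / 2 := by
    have h1 : ε ≤ 1 / (2 * b * (1 - l₁)⁻¹) := (min_le_right _ _).trans (min_le_right _ _)
    calc b * (1 - l₁)⁻¹ * ε ≤ b * (1 - l₁)⁻¹ * (1 / (2 * b * (1 - l₁)⁻¹)) := by gcongr
      _ = 1 / 2 := by
        have : (1 - l₁) ≠ 0 := by linarith
        field_simp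
  have hmono : ∀ x, ∀ z ∈ Lf f g ε x, z ∈ Lf f g ε₁ x := fun x z hz =>
    ⟨Wl_mono hεε₁ hz.1, hz.2⟩
  -- comparison of norms
  have hcmp : ∀ x, ∀ z ∈ Lf f g ε x, dist z x ≤ 2 * K * gg k x (E.e z - E.e x) ∧
      gg k x (E.e z - E.e x) ≤ K * dist z x := by
    intro x z hz
    have h1 := hcone x z (hmono x z hz)
    have h2 := hb1 x (E.e z - E.e x)
    have h3 := hb2 x (E.e z - E.e x)
    rw [← E.dist_eq] at h3
    refine ⟨?_, h3⟩
    have hd0 : 0 ≤ dist z x := dist_nonneg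
    have h4 : dist z x ≤ ε := Wl_dist hz.1
    have h5 : dist z x ≤ ‖k.S x (E.e z - E.e x)‖ + Cc * dist z x ^ 2 := by
      rw [E.dist_eq z x] at h1 ⊢
      have h6 : E.e z - E.e x = k.S x (E.e z - E.e x)
        + (E.e z - E.e x - k.S x (E.e z - E.e x)) := by abel
      calc ‖E.e z - E.e x‖ ≤ ‖k.S x (E.e z - E.e x)‖
            + ‖E.e z - E.e x - k.S x (E.e z - E.e x)‖ := by
            conv_lhs => rw [h6]
            exact norm_add_le _ _
        _ ≤ _ := by linarith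
    have h6 : Cc * dist z x ^ 2 ≤ 1 / 2 * dist z x := by
      have h7 : Cc * dist z x ≤ 1 / 2 := by
        calc Cc * dist z x ≤ Cc * ε := by gcongr
          _ ≤ Cc * ε * C₁ := le_mul_of_one_le_right (by positivity) hC1
          _ = Cc * C₁ * ε := by ring
          _ ≤ 1 / 2 := hε1
      calc Cc * dist z x ^ 2 = Cc * dist z x * dist z x := by ring
        _ ≤ 1 / 2 * dist z x := by gcongr
    nlinarith
  -- growth
  have hgr : ∀ x, ∀ z ∈ Lf f g ε x, ∀ n,
      k.an n x * gg k x (E.e z - E.e x) ≤ 2 * gg k (f^[n] x) (E.e (f^[n] z) - E.e (f^[n] x)) ∧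
      gg k (f^[n] x) (E.e (f^[n] z) - E.e (f^[n] x))
        ≤ 2 * (k.an n x * gg k x (E.e z - E.e x)) := by
    intro x z hz n
    have hdε : dist z x ≤ ε := Wl_dist hz.1
    have hd0 : 0 ≤ dist z x := dist_nonneg
    have key := real_growth (g := fun j => gg k (f^[j] x) (E.e (f^[j] z) - E.e (f^[j] x)))
      (a := fun j => k.a (f^[j] x)) (β := fun j => b * ε * l₁ ^ j)
      (fun j => gg_nonneg k _ _) (fun j => (k.a_pos _).le) (fun j => by positivity)
      (fun j => ?_) (fun m => ?_) n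
    · exact key
    · -- one step
      have hzk := Lf_iter hb.comm hz j
      set xk := f^[j] x with hxk
      set zk := f^[j] z with hzk'
      simp only [iterate_succ_apply']
      rw [← hxk, ← hzk']
      have h1 := hb.sqs.fwd xk zk
      rw [← hk.D] at h1
      set w := E.e zk - E.e xk with hw
      set r := E.e (f zk) - E.e (f xk) - k.D xk w with hr
      have h2 : E.e (f zk) - E.e (f xk) = k.D xk w + r := by rw [hr]; abel
      rw [h2]
      have h3 : |gg k (f xk) (k.D xk w + r) - k.a xk * gg k xk w| ≤ gg k (f xk) r := by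
        rw [← gg_map, abs_le]
        constructor
        · linarith [le_gg_add k (f xk) (k.D xk w) r]
        · linarith [gg_add_le k (f xk) (k.D xk w) r]
      refine h3.trans ?_
      have h4 : gg k (f xk) r ≤ K * (A * dist zk xk ^ 2) := by
        refine (hb2 (f xk) r).trans ?_
        refine mul_le_mul_of_nonneg_left (h1.trans ?_) (by linarith)
        have : C₀ ≤ A := by rw [hA]; linarith [le_abs_self C₀]
        gcongr
      refine h4.trans ?_
      have h5 := (hcmp xk zk hzk).1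
      have h6 : dist zk xk ≤ C₁ * l₁ ^ j * ε := by
        refine (hd.dec x z (Wl_mono hεε₀ hz.1) j).trans ?_
        gcongr
      have h7 : 1 ≤ K ^ 3 * k.a xk := k.a_lower xk
      have hg0 := gg_nonneg k xk w
      have hdk : 0 ≤ dist zk xk := dist_nonneg
      calc K * (A * dist zk xk ^ 2) = K * A * dist zk xk * dist zk xk := by ring
        _ ≤ K * A * (C₁ * l₁ ^ j * ε) * (2 * K * gg k xk w) := by gcongr
        _ = (K * A * (C₁ * l₁ ^ j * ε) * (2 * K * gg k xk w)) * 1 := by ring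
        _ ≤ (K * A * (C₁ * l₁ ^ j * ε) * (2 * K * gg k xk w)) * (K ^ 3 * k.a xk) := by gcongr
        _ = k.a xk * gg k xk w * (b * ε * l₁ ^ j) := by rw [hbdef]; ring
    · rw [← Finset.mul_sum]
      calc b * ε * ∑ j ∈ Finset.range m, l₁ ^ j ≤ b * ε * (1 - l₁)⁻¹ :=
            mul_le_mul_of_nonneg_left (geom_sum_le_inv hl.le hl1 m) (by positivity)
        _ = b * (1 - l₁)⁻¹ * ε := by ring
        _ ≤ 1 / 2 := hε2
  refine ⟨ε, max (4 * K ^ 2) (max Cc C₂), l₂, hε0, ?_, hl₂, hl₂1, ?_, ?_, ?_, ?_⟩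
  · exact hCc.trans ((le_max_left _ _).trans (le_max_right _ _))
  · intro n x
    refine (han n x).trans ?_
    gcongr
    exact (le_max_right _ _).trans (le_max_right _ _)
  · intro x z hz n
    have h1 := (hcmp _ _ (Lf_iter hb.comm hz n)).1
    have h2 := (hgr x z hz n).2
    have h3 := (hcmp x z hz).2
    have h4 := k.an_pos n x
    have hd0 : 0 ≤ dist z x := dist_nonneg
    calc dist (f^[n] z) (f^[n] x)
        ≤ 2 * K * gg k (f^[n] x) (E.e (f^[n] z) - E.e (f^[n] x)) := h1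
      _ ≤ 2 * K * (2 * (k.an n x * gg k x (E.e z - E.e x))) := by gcongr
      _ ≤ 2 * K * (2 * (k.an n x * (K * dist z x))) := by gcongr
      _ = 4 * K ^ 2 * k.an n x * dist z x := by ring
      _ ≤ _ := by
          gcongr
          exact le_max_left _ _
  · intro x z hz n
    have h1 := (hcmp _ _ (Lf_iter hb.comm hz n)).2
    have h2 := (hgr x z hz n).1
    have h3 := (hcmp x z hz).1
    have h4 := k.an_pos n x
    have hd0 : 0 ≤ dist (f^[n] z) (f^[n] x) := dist_nonneg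
    calc k.an n x * dist z x ≤ k.an n x * (2 * K * gg k x (E.e z - E.e x)) := by gcongr
      _ = 2 * K * (k.an n x * gg k x (E.e z - E.e x)) := by ring
      _ ≤ 2 * K * (2 * gg k (f^[n] x) (E.e (f^[n] z) - E.e (f^[n] x))) := by gcongr
      _ ≤ 2 * K * (2 * (K * dist (f^[n] z) (f^[n] x))) := by gcongr
      _ = 4 * K ^ 2 * dist (f^[n] z) (f^[n] x) := by ring
      _ ≤ _ := by
          gcongr
          exact le_max_left _ _
  · intro x z hz
    refine (hcone x z (hmono x z hz)).trans ?_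
    gcongr
    exact (le_max_left _ _).trans (le_max_right _ _)

end Main

end GRWAux

theorem specGrw (hPr : SpecProd.{u}) (hPa : SpecPair.{u, v}) : SpecGrw.{u, v} := by
  intro M W _ _ _ _ _ E f g s t C₀ k hb hk
  obtain ⟨ε, C, l, hp⟩ := hPa M W E f g s t hb.hs hb.ht hb.comm
  exact GRWAux.exists_grw hPr hb hk hp

end Pool.Agent.Lib.MP610fe3.HR
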