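import Pool.Agent.Lib.MP_610fe3_an.HR.Spec
import Pool.Agent.Lib.MP_610fe3_an.Cf.Br

/-!
# Module SRJ: the linearization of the double leaves is onto small balls
-/

set_option autoImplicit false

open Set Filter Function
open scoped Topology

namespace Pool.Agent.Lib.MP610fe3.HR

open Cf CH

universe u v

namespace SRJAux

section Bracket

variable {M : Type u} [MetricSpace M] [CompactSpace M] {f g : M ≃ₜ M}

omit [CompactSpace M] in
theorem iter_comm (h : ∀ x, f (g x) = g (f x)) (k : ℕ) (x : M) : g^[k] (f x) = f (g^[k] x) := by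
  induction k with
  | zero => rfl
  | succ k ih => rw [iterate_succ_apply', iterate_succ_apply', ih, h]

omit [CompactSpace M] in
theorem symm_comm (h : ∀ x, f (g x) = g (f x)) (x : M) : f (g.symm x) = g.symm (f x) := by
  apply g.injective
  rw [g.apply_symm_apply, ← h, g.apply_symm_apply]

theorem exists_unif (f : M ≃ₜ M) {ε : ℝ} (hε : 0 < ε) :
    ∃ ρ : ℝ, 0 < ρ ∧ ∀ a b : M, dist a b ≤ ρ → dist (f a) (f b) ≤ ε := by
  have hu : UniformContinuous f := CompactSpace.uniformContinuous_of_continuous f.continuous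
  obtain ⟨δ, hδ, H⟩ := Metric.uniformContinuous_iff.1 hu ε hε
  exact ⟨δ / 2, by positivity, fun a b hab => (H (by linarith)).le⟩

/-- The bracket of `g` between a point and a point of its local stable set for `f` is on the double
leaf. -/
theorem exists_lf (hP : SpecProd.{u}) {ε C l : ℝ} (h : Pair f g ε C l) {ε' : ℝ} (hε' : 0 < ε') :
    ∃ δ : ℝ, 0 < δ ∧ ∀ x, ∀ y ∈ Wl f δ x, ∃ z ∈ Lf f g ε' x, z ∈ Wl g ε' x ∧
      z ∈ Wl g.symm ε' y ∧ dist z x ≤ C * dist x y ∧ dist z y ≤ C * dist x y := by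
  obtain ⟨-, -, -, ⟨δ₁, hδ₁, hd⟩, -⟩ := hP M f g ε C l h
  have hB := h.two.br
  have hε := hB.ε_pos
  have hC0 : 0 < C := by linarith [hB.one_le]
  obtain ⟨ρ₁, hρ₁, hu⟩ := exists_unif f hε
  set ρ : ℝ := min (min ρ₁ ε) (min ε' δ₁) with hρ
  have hρpos : 0 < ρ := lt_min (lt_min hρ₁ hε) (lt_min hε' hδ₁)
  have hρ1 : ρ ≤ ρ₁ := (min_le_left _ _).trans (min_le_left _ _)
  have hρε : ρ ≤ ε := (min_le_left _ _).trans (min_le_right _ _)
  have hρε' : ρ ≤ ε' := (min_le_right _ _).trans (min_le_left _ _)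
  have hρδ : ρ ≤ δ₁ := (min_le_right _ _).trans (min_le_right _ _)
  obtain ⟨δ₂, hδ₂, hex⟩ := hB.exist ρ hρpos
  set δ : ℝ := min (δ₂ / 2) (ρ / C) with hδ
  have hδpos : 0 < δ := lt_min (by positivity) (by positivity)
  have hδ2 : δ < δ₂ := (min_le_left _ _).trans_lt (by linarith)
  have hCδ : C * δ ≤ ρ := by
    have : δ ≤ ρ / C := min_le_right _ _
    rw [le_div_iff₀ hC0] at this
    linarith
  refine ⟨δ, hδpos, fun x y hy => ?_⟩
  have hyn : ∀ n, dist (f^[n] x) (f^[n] y) ≤ δ := fun n => by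
    rw [dist_comm]; exact hy n
  obtain ⟨z, hzx, hzy⟩ := hex x y ((hyn 0).trans_lt hδ2)
  have key : ∀ n, f^[n] z ∈ Wl g ρ (f^[n] x) ∧ f^[n] z ∈ Wl g.symm ρ (f^[n] y) := by
    intro n
    induction n with
    | zero => exact ⟨hzx, hzy⟩
    | succ n ih =>
      obtain ⟨z', h1, h2⟩ := hex (f^[n + 1] x) (f^[n + 1] y) ((hyn (n + 1)).trans_lt hδ2)
      have e : f^[n + 1] z = z' := by
        refine hB.unique (f^[n + 1] x) (f^[n + 1] y) _ _ (fun k => ?_) (fun k => ?_)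
          (Cf.Wl_mono hρε h1) (Cf.Wl_mono hρε h2)
        · rw [iterate_succ_apply', iterate_succ_apply', iter_comm h.comm, iter_comm h.comm]
          exact hu _ _ ((ih.1 k).trans hρ1)
        · have hc : ∀ x, f (g.symm x) = g.symm (f x) := symm_comm h.comm
          rw [iterate_succ_apply', iterate_succ_apply', iter_comm hc, iter_comm hc]
          exact hu _ _ ((ih.2 k).trans hρ1)
      rw [e]
      exact ⟨h1, h2⟩
  have hW : z ∈ Wl f ρ x := fun n => by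
    have h1 := hB.left _ _ _ (Cf.Wl_mono hρε (key n).1) (Cf.Wl_mono hρε (key n).2)
    calc dist (f^[n] z) (f^[n] x) ≤ C * dist (f^[n] x) (f^[n] y) := h1
      _ ≤ C * δ := mul_le_mul_of_nonneg_left (hyn n) hC0.le
      _ ≤ ρ := hCδ
  have hD := (hd x z (Cf.Wl_mono hρδ hW) (Cf.Wl_mono hρδ hzx)).1
  exact ⟨z, ⟨Cf.Wl_mono hρε' hW, hD⟩, Cf.Wl_mono hρε' hzx, Cf.Wl_mono hρε' hzy,
    hB.left _ _ _ (Cf.Wl_mono hρε hzx) (Cf.Wl_mono hρε hzy),
    hB.right _ _ _ (Cf.Wl_mono hρε hzx) (Cf.Wl_mono hρε hzy)⟩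

end Bracket

section Step

variable {M : Type u} {W : Type v} [MetricSpace M] [CompactSpace M] [NormedAddCommGroup W]
  [NormedSpace ℝ W] {E : Emb M W} {f g : M ≃ₜ M} {s : Split E f} {t : Split E g}

omit [CompactSpace M] in
theorem PP_apply (x : M) (w : W) : PP s t x w = s.S x (t.S x w) := rfl

theorem step (hP : SpecProd.{u}) {k : Coc W f} {ε C ε₀ C₀ l₀ : ℝ} {ψ : M → M → W}
    {Q : M → M → W →L[ℝ] W} {q : M → M → ℝ} (hs : s.Hyperbolic) (ht : t.Hyperbolic)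
    (hF : Flt E g k ε C ψ Q q) (h : Pair f g ε₀ C₀ l₀)
    {θ ε' : ℝ} (hθ : 0 < θ) (hε' : 0 < ε') :
    ∃ r : ℝ, 0 < r ∧ ∀ x w, PP s t x w = w → ‖w‖ ≤ r →
      ∃ z ∈ Lf f g ε' x, ‖ψ x z - w‖ ≤ θ * ‖w‖ := by
  obtain ⟨K₁, hK₁, hKs⟩ := s.exists_bdd
  obtain ⟨K₂, hK₂, hKt⟩ := t.exists_bdd
  set K : ℝ := max K₁ K₂ with hKdef
  have hK1 : 1 ≤ K := hK₁.trans (le_max_left _ _)
  have hSs : ∀ x w, ‖s.S x w‖ ≤ K * ‖w‖ := fun x w =>
    ((s.S x).le_of_opNorm_le (hKs x).1 w).trans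
      (mul_le_mul_of_nonneg_right (le_max_left _ _) (norm_nonneg _))
  have hSt : ∀ x w, ‖t.S x w‖ ≤ K * ‖w‖ := fun x w =>
    ((t.S x).le_of_opNorm_le (hKt x).1 w).trans
      (mul_le_mul_of_nonneg_right (le_max_right _ _) (norm_nonneg _))
  have hB := h.one.br
  have hC1 := hF.one_le
  have hC0 : 0 < C := by linarith
  set B : ℝ := C₀ with hBdef
  have hB1 : 1 ≤ B := hB.one_le
  have hB0 : 0 < B := by linarith
  have hK0 : 0 < K := by linarith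
  set T₁ : ℝ := K + 2 * B * K + 4 * B with hT₁
  have hT₁pos : 0 < T₁ := by positivity
  set T : ℝ := 2 * B ^ 2 + K * (2 * B ^ 2) + K * (K * (2 * B ^ 2) + 2 * B ^ 2 + K * T₁) with hT
  have hTpos : 0 < T := by positivity
  set η : ℝ := min 1 (θ / (2 * T)) with hη
  have hηpos : 0 < η := lt_min one_pos (by positivity)
  have hη1 : η ≤ 1 := min_le_left _ _
  have hηT : η * T ≤ θ / 2 := by
    have : η ≤ θ / (2 * T) := min_le_right _ _
    calc η * T ≤ θ / (2 * T) * T := mul_le_mul_of_nonneg_right this hTpos.le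
      _ = θ / 2 := by field_simp
  obtain ⟨ε₁, hε₁, h₁⟩ := br_cone s hs hηpos
  obtain ⟨ε₂, hε₂, h₂⟩ := br_cone s.swap hs.swap hηpos
  obtain ⟨ε₃, hε₃, h₃⟩ := br_cone t ht hηpos
  obtain ⟨ε₄, hε₄, h₄⟩ := br_cone t.swap ht.swap hηpos
  obtain ⟨r₁, hr₁, m₁⟩ := s.exists_mixed hs hηpos
  obtain ⟨r₂, hr₂, m₂⟩ := t.exists_mixed ht hηpos
  obtain ⟨r₃, hr₃, m₃⟩ := E.exists_pt η hηpos
  set ε₅ : ℝ := min (min ε' ε) (min ε₁ (min ε₃ ε₄)) with hε₅
  have hε₅pos : 0 < ε₅ := lt_min (lt_min hε' hF.ε_pos) (lt_min hε₁ (lt_min hε₃ hε₄))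
  have a1 : ε₅ ≤ ε' := (min_le_left _ _).trans (min_le_left _ _)
  have a2 : ε₅ ≤ ε := (min_le_left _ _).trans (min_le_right _ _)
  have a3 : ε₅ ≤ ε₁ := (min_le_right _ _).trans (min_le_left _ _)
  have a4 : ε₅ ≤ ε₃ := (min_le_right _ _).trans ((min_le_right _ _).trans (min_le_left _ _))
  have a5 : ε₅ ≤ ε₄ := (min_le_right _ _).trans ((min_le_right _ _).trans (min_le_right _ _))
  obtain ⟨δ₁, hδ₁, hlf⟩ := exists_lf hP h hε₅pos
  set ε₆ : ℝ := min (min δ₁ ε₀) (min ε₁ ε₂) with hε₆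
  have hε₆pos : 0 < ε₆ := lt_min (lt_min hδ₁ hB.ε_pos) (lt_min hε₁ hε₂)
  have b1 : ε₆ ≤ δ₁ := (min_le_left _ _).trans (min_le_left _ _)
  have b2 : ε₆ ≤ ε₀ := (min_le_left _ _).trans (min_le_right _ _)
  have b3 : ε₆ ≤ ε₁ := (min_le_right _ _).trans (min_le_left _ _)
  have b4 : ε₆ ≤ ε₂ := (min_le_right _ _).trans (min_le_right _ _)
  obtain ⟨δ₂, hδ₂, h₅⟩ := hB.exist ε₆ hε₆pos
  set r : ℝ := min (min (r₁ / 4) (min (r₂ / (4 * B)) (r₃ / 2)))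
    (min (δ₂ / 4) (θ / (2 * (C * (4 * B ^ 4))))) with hr
  have hrpos : 0 < r := by
    refine lt_min (lt_min (by positivity) (lt_min (by positivity) (by positivity)))
      (lt_min (by positivity) (by positivity))
  have hr1 : r ≤ r₁ / 4 := (min_le_left _ _).trans (min_le_left _ _)
  have hr2 : r ≤ r₂ / (4 * B) := (min_le_left _ _).trans ((min_le_right _ _).trans (min_le_left _ _))
  have hr3 : r ≤ r₃ / 2 := (min_le_left _ _).trans ((min_le_right _ _).trans (min_le_right _ _))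
  have hrδ : r ≤ δ₂ / 4 := (min_le_right _ _).trans (min_le_left _ _)
  have hr2' : 4 * B * r ≤ r₂ := by
    rw [le_div_iff₀ (by positivity)] at hr2
    linarith
  have hrθ : C * (4 * B ^ 4) * r ≤ θ / 2 := by
    have : r ≤ θ / (2 * (C * (4 * B ^ 4))) := (min_le_right _ _).trans (min_le_right _ _)
    calc C * (4 * B ^ 4) * r ≤ C * (4 * B ^ 4) * (θ / (2 * (C * (4 * B ^ 4)))) :=
          mul_le_mul_of_nonneg_left this (by positivity)
      _ = θ / 2 := by field_simp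
  refine ⟨r, hrpos, fun x w hPw hw => ?_⟩
  have hSw : s.S x w = w := by
    rw [← hPw, PP_apply, s.SS_apply]
  have hEw : E.P x w = w := by
    rw [← hSw, s.PS_apply]
  have hn : 0 ≤ ‖w‖ := norm_nonneg _
  obtain ⟨z₀, hz₀⟩ := m₃ x w (by linarith)
  rw [hEw] at hz₀
  have hd₀ : dist z₀ x ≤ 2 * ‖w‖ := by
    rw [E.dist_eq]
    calc ‖E.e z₀ - E.e x‖ = ‖(E.e z₀ - E.e x - w) + w‖ := by rw [sub_add_cancel]
      _ ≤ η * ‖w‖ + ‖w‖ := (norm_add_le _ _).trans (add_le_add hz₀ le_rfl)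
      _ ≤ 2 * ‖w‖ := by nlinarith
  have hd₀' : dist x z₀ ≤ 2 * ‖w‖ := by rw [dist_comm]; exact hd₀
  obtain ⟨z₁, hz₁x, hz₁0⟩ := h₅ x z₀ (by linarith)
  have e1 : dist z₁ x ≤ 2 * B * ‖w‖ := by
    refine (hB.left x z₀ z₁ (Cf.Wl_mono b2 hz₁x) (Cf.Wl_mono b2 hz₁0)).trans ?_
    calc B * dist x z₀ ≤ B * (2 * ‖w‖) := mul_le_mul_of_nonneg_left hd₀' hB0.le
      _ = _ := by ring
  have e2 : dist z₁ z₀ ≤ 2 * B * ‖w‖ := by
    refine (hB.right x z₀ z₁ (Cf.Wl_mono b2 hz₁x) (Cf.Wl_mono b2 hz₁0)).trans ?_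
    calc B * dist x z₀ ≤ B * (2 * ‖w‖) := mul_le_mul_of_nonneg_left hd₀' hB0.le
      _ = _ := by ring
  have e1' : dist x z₁ ≤ 2 * B * ‖w‖ := by rw [dist_comm]; exact e1
  obtain ⟨z, hzL, hzg, hzu, hzx, hzz⟩ := hlf x z₁ (Cf.Wl_mono b1 hz₁x)
  refine ⟨z, ⟨Cf.Wl_mono a1 hzL.1, hzL.2⟩, ?_⟩
  have e3 : dist z x ≤ 2 * B ^ 2 * ‖w‖ := by
    refine hzx.trans ?_
    calc B * dist x z₁ ≤ B * (2 * B * ‖w‖) := mul_le_mul_of_nonneg_left e1' hB0.le
      _ = _ := by ring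
  have e4 : dist z z₁ ≤ 2 * B ^ 2 * ‖w‖ := by
    refine hzz.trans ?_
    calc B * dist x z₁ ≤ B * (2 * B * ‖w‖) := mul_le_mul_of_nonneg_left e1' hB0.le
      _ = _ := by ring
  -- first bracket
  have c1 := h₁ x z₁ (Cf.Wl_mono b3 hz₁x)
  have c2 := h₂ z₀ z₁ (Cf.Wl_mono b4 hz₁0)
  simp only [Split.swap_S] at c2
  have c3 := (m₁ x z₀ (by linarith)).2 (E.e z₁ - E.e z₀)
  set v₁ := E.e z₁ - E.e x with hv₁
  set t₁ := E.e z₁ - E.e z₀ with ht₁
  have htd : ‖t₁‖ = dist z₁ z₀ := (E.dist_eq z₁ z₀).symm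
  have hvt : E.e z₀ - E.e x = v₁ - t₁ := by rw [hv₁, ht₁]; abel
  rw [hvt] at hz₀
  have d1 : ‖v₁ - s.S x v₁‖ ≤ η * (2 * B * ‖w‖) :=
    c1.trans (mul_le_mul_of_nonneg_left e1 hηpos.le)
  have d2 : ‖s.S x (t₁ - s.U z₀ t₁)‖ ≤ K * (η * (2 * B * ‖w‖)) :=
    (hSs x _).trans
      (mul_le_mul_of_nonneg_left (c2.trans (mul_le_mul_of_nonneg_left e2 hηpos.le)) hK0.le)
  have d3 : ‖s.S x (s.U z₀ t₁)‖ ≤ η * (2 * B * ‖w‖) := by
    refine c3.trans (mul_le_mul_of_nonneg_left ?_ hηpos.le)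
    rw [htd]; exact e2
  have d4 : ‖s.S x (v₁ - t₁ - w)‖ ≤ K * (η * ‖w‖) :=
    (hSs x _).trans (mul_le_mul_of_nonneg_left hz₀ hK0.le)
  have key₁ : v₁ - w = (v₁ - s.S x v₁)
      + (s.S x (v₁ - t₁ - w) + s.S x (t₁ - s.U z₀ t₁) + s.S x (s.U z₀ t₁)) := by
    have k1 : s.S x (v₁ - t₁ - w) + s.S x (t₁ - s.U z₀ t₁) + s.S x (s.U z₀ t₁)
        = s.S x v₁ - w := by
      rw [← map_add, ← map_add]
      have : v₁ - t₁ - w + (t₁ - s.U z₀ t₁) + s.U z₀ t₁ = v₁ - w := by abel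
      rw [this, map_sub, hSw]
    rw [k1]; abel
  have q1 : ‖v₁ - w‖ ≤ η * T₁ * ‖w‖ := by
    rw [key₁]
    calc _ ≤ η * (2 * B * ‖w‖) + (K * (η * ‖w‖) + K * (η * (2 * B * ‖w‖)) + η * (2 * B * ‖w‖)) := by
          refine (norm_add_le _ _).trans (add_le_add d1 ?_)
          exact (norm_add_le _ _).trans (add_le_add ((norm_add_le _ _).trans (add_le_add d4 d2)) d3)
      _ = η * T₁ * ‖w‖ := by rw [hT₁]; ring
  -- second bracket
  have c4 := h₁ x z (Cf.Wl_mono a3 hzL.1)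
  have c5 := h₃ x z (Cf.Wl_mono a4 hzg)
  have c6 := h₄ z₁ z (Cf.Wl_mono a5 hzu)
  simp only [Split.swap_S] at c6
  have hz₁r : dist z₁ x < r₂ := by
    refine e1.trans_lt ?_
    calc 2 * B * ‖w‖ ≤ 2 * B * r := mul_le_mul_of_nonneg_left hw (by positivity)
      _ < 4 * B * r := by nlinarith
      _ ≤ r₂ := hr2'
  have c7 := (m₂ x z₁ hz₁r).2 (E.e z - E.e z₁)
  have c8 := hF.approx x z ⟨Cf.Wl_mono a2 hzL.1, hzL.2⟩
  set v := E.e z - E.e x with hv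
  set t₂ := E.e z - E.e z₁ with ht₂
  have hvv : v = t₂ + v₁ := by rw [hv, ht₂, hv₁]; abel
  have htd2 : ‖t₂‖ = dist z z₁ := (E.dist_eq z z₁).symm
  have f1 : ‖v - s.S x v‖ ≤ η * (2 * B ^ 2 * ‖w‖) :=
    c4.trans (mul_le_mul_of_nonneg_left e3 hηpos.le)
  have f2 : ‖s.S x (v - t.S x v)‖ ≤ K * (η * (2 * B ^ 2 * ‖w‖)) :=
    (hSs x _).trans
      (mul_le_mul_of_nonneg_left (c5.trans (mul_le_mul_of_nonneg_left e3 hηpos.le)) hK0.le)
  have f3 : ‖t.S x (t₂ - t.U z₁ t₂)‖ ≤ K * (η * (2 * B ^ 2 * ‖w‖)) :=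
    (hSt x _).trans
      (mul_le_mul_of_nonneg_left (c6.trans (mul_le_mul_of_nonneg_left e4 hηpos.le)) hK0.le)
  have f4 : ‖t.S x (t.U z₁ t₂)‖ ≤ η * (2 * B ^ 2 * ‖w‖) := by
    refine c7.trans (mul_le_mul_of_nonneg_left ?_ hηpos.le)
    rw [htd2]; exact e4
  have f5 : ‖t.S x (v₁ - w)‖ ≤ K * (η * T₁ * ‖w‖) :=
    (hSt x _).trans (mul_le_mul_of_nonneg_left q1 hK0.le)
  have f6 : ‖s.S x (t.S x (t₂ - t.U z₁ t₂) + t.S x (t.U z₁ t₂) + t.S x (v₁ - w))‖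
      ≤ K * (K * (η * (2 * B ^ 2 * ‖w‖)) + η * (2 * B ^ 2 * ‖w‖) + K * (η * T₁ * ‖w‖)) := by
    refine (hSs x _).trans (mul_le_mul_of_nonneg_left ?_ hK0.le)
    exact (norm_add_le _ _).trans (add_le_add ((norm_add_le _ _).trans (add_le_add f3 f4)) f5)
  have f7 : ‖ψ x z - v‖ ≤ θ / 2 * ‖w‖ := by
    refine c8.trans ?_
    have hd0 : 0 ≤ dist z x := dist_nonneg
    calc C * dist z x ^ 2 ≤ C * (2 * B ^ 2 * ‖w‖) ^ 2 := by gcongr
      _ = (C * (4 * B ^ 4) * ‖w‖) * ‖w‖ := by ring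
      _ ≤ (C * (4 * B ^ 4) * r) * ‖w‖ := by gcongr
      _ ≤ θ / 2 * ‖w‖ := mul_le_mul_of_nonneg_right hrθ hn
  have key : ψ x z - w = (ψ x z - v) + ((v - s.S x v) + s.S x (v - t.S x v)
      + s.S x (t.S x (t₂ - t.U z₁ t₂) + t.S x (t.U z₁ t₂) + t.S x (v₁ - w))) := by
    have k1 : t.S x (t₂ - t.U z₁ t₂) + t.S x (t.U z₁ t₂) + t.S x (v₁ - w)
        = t.S x v - t.S x w := by
      rw [← map_add, ← map_add]
      have : t₂ - t.U z₁ t₂ + t.U z₁ t₂ + (v₁ - w) = v - w := by rw [hvv]; abel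
      rw [this, map_sub]
    have k2 : s.S x (t.S x v - t.S x w) = s.S x (t.S x v) - w := by
      rw [(s.S x).map_sub (t.S x v) (t.S x w)]
      exact congrArg (fun u => s.S x (t.S x v) - u) hPw
    rw [k1, k2, (s.S x).map_sub v (t.S x v)]
    abel
  rw [key]
  calc _ ≤ θ / 2 * ‖w‖ + (η * (2 * B ^ 2 * ‖w‖) + K * (η * (2 * B ^ 2 * ‖w‖))
        + K * (K * (η * (2 * B ^ 2 * ‖w‖)) + η * (2 * B ^ 2 * ‖w‖) + K * (η * T₁ * ‖w‖))) := by
        refine (norm_add_le _ _).trans (add_le_add f7 ?_)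
        exact (norm_add_le _ _).trans (add_le_add ((norm_add_le _ _).trans (add_le_add f1 f2)) f6)
    _ = θ / 2 * ‖w‖ + (η * T) * ‖w‖ := by rw [hT]; ring
    _ ≤ θ / 2 * ‖w‖ + θ / 2 * ‖w‖ := by gcongr
    _ = θ * ‖w‖ := by ring

end Step

section G

variable {M W : Type*} [MetricSpace M] [NormedAddCommGroup W] [NormedSpace ℝ W]
  {f : M ≃ₜ M} (k : Coc W f)

/-- the norm on the line bundle -/
noncomputable def gg (x : M) (w : W) : ℝ := Real.sqrt (k.B x w w)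

theorem B_nonneg (x : M) (w : W) : 0 ≤ k.B x w w := by
  have h1 := k.lower x w
  have h2 := k.K_pos
  have h3 : 0 ≤ k.K ^ 2 * k.B x w w := (sq_nonneg _).trans h1
  exact nonneg_of_mul_nonneg_right h3 (by positivity)

theorem norm_le (x : M) (w : W) : ‖k.S x w‖ ≤ k.K * gg k x w := by
  have h1 := k.lower x w
  have h2 := k.K_pos
  have h3 : (k.K * gg k x w) ^ 2 = k.K ^ 2 * k.B x w w := by
    rw [mul_pow, gg, Real.sq_sqrt (B_nonneg k x w)]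
  rw [← h3] at h1
  exact (pow_le_pow_iff_left₀ (norm_nonneg _)
    (mul_nonneg h2.le (Real.sqrt_nonneg _)) two_ne_zero).1 h1

theorem gg_le (x : M) (w : W) : gg k x w ≤ k.K * ‖w‖ := by
  have h1 := k.upper x w
  have h2 := k.K_pos
  have h3 : gg k x w ^ 2 = k.B x w w := by
    rw [gg, Real.sq_sqrt (B_nonneg k x w)]
  have h4 : gg k x w ^ 2 ≤ (k.K * ‖w‖) ^ 2 := by rw [h3, mul_pow]; exact h1
  exact (pow_le_pow_iff_left₀ (Real.sqrt_nonneg _)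
    (mul_nonneg h2.le (norm_nonneg _)) two_ne_zero).1 h4

end G

end SRJAux

open SRJAux in
/-- Module SRJ. -/
theorem specSrj (hD : SpecDbl.{u}) (hP : SpecProd.{u}) (hPa : SpecPair.{u, v}) :
    SpecSrj.{u, v} := by
  intro M W _ _ _ _ _ E f g s t C₀ k ε C l ε₂ C₂ ψ Q q hb hk hG hF ε' hε'
  obtain ⟨ε₀, C₁, l₀, hpair⟩ := hPa M W E f g s t hb.hs hb.ht hb.comm
  obtain ⟨hrefl, hsymm, htrans, -⟩ := hD M f g hb.comm
  obtain ⟨-, -, -, -, ⟨δ₀, hδ₀, hclosed⟩⟩ := hP M f g ε₀ C₁ l₀ hpair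
  set K : ℝ := k.K with hKdef
  have hK1 : 1 ≤ K := k.one_le
  have hK0 : 0 < K := by linarith
  have hC1 := hG.one_le
  have hC0 : 0 < C := by linarith
  have hε := hF.ε_pos
  set ε₁ : ℝ := min (min ε' ε) (min ε₂ δ₀) with hε₁
  have hε₁pos : 0 < ε₁ := lt_min (lt_min hε' hG.ε_pos) (lt_min hε hδ₀)
  have a1 : ε₁ ≤ ε' := (min_le_left _ _).trans (min_le_left _ _)
  have a2 : ε₁ ≤ ε := (min_le_left _ _).trans (min_le_right _ _)
  have a3 : ε₁ ≤ ε₂ := (min_le_right _ _).trans (min_le_left _ _)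
  have a4 : ε₁ ≤ δ₀ := (min_le_right _ _).trans (min_le_right _ _)
  have mono : ∀ {a b : ℝ}, a ≤ b → ∀ {x z : M}, z ∈ Lf f g a x → z ∈ Lf f g b x :=
    fun hab _ _ hz => ⟨Cf.Wl_mono hab hz.1, hz.2⟩
  obtain ⟨r₀, hr₀, hstep⟩ := step (θ := 1 / (2 * K ^ 4)) (ε' := ε₁ / 2) hP hb.hs hb.ht hF hpair
    (by positivity) (by positivity)
  -- bound for `Q`
  have hcl := hclosed ε₁ a4
  obtain ⟨KQ, hKQ⟩ := hcl.isCompact.exists_bound_of_continuousOn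
    (hF.Q_cont.mono (fun p hp => mono a3 hp))
  set K' : ℝ := max KQ 1 with hK'
  have hK'1 : 1 ≤ K' := le_max_right _ _
  have hQ : ∀ x, ∀ z ∈ Lf f g ε₁ x, ‖Q x z‖ ≤ K' := fun x z hz =>
    (hKQ (x, z) hz).trans (le_max_left _ _)
  set r : ℝ := min (r₀ / K') (ε₁ / (8 * C ^ 2)) with hr
  have hrpos : 0 < r := lt_min (by positivity) (by positivity)
  have hr1 : K' * r ≤ r₀ := by
    have : r ≤ r₀ / K' := min_le_left _ _
    rw [le_div_iff₀ (by linarith)] at this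
    linarith
  have hr2 : 4 * C ^ 2 * r ≤ ε₁ / 2 := by
    have : r ≤ ε₁ / (8 * C ^ 2) := min_le_right _ _
    rw [le_div_iff₀ (by positivity)] at this
    linarith
  refine ⟨r, hrpos, fun x w hPw hw => ?_⟩
  have hSw : k.S x w = w := by rw [hk.S]; exact hPw
  have hxx : x ∈ Lf f g ε₁ x := ⟨Cf.mem_Wl_self hε₁pos.le, hrefl x⟩
  have hself : ψ x x = 0 := by
    have := hF.upper x x (mono a3 hxx)
    rw [dist_self, mul_zero] at this
    exact norm_le_zero_iff.1 this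
  -- minimize
  have hcont : ContinuousOn (fun z => ‖ψ x z - w‖) (Lf f g ε₁ x) := by
    refine ContinuousOn.norm (ContinuousOn.sub ?_ continuousOn_const)
    have h1 : ContinuousOn (fun z : M => (x, z)) (Lf f g ε₁ x) := by fun_prop
    exact hF.cont.comp h1 (fun z hz => mono a3 hz)
  have hclx : IsClosed (Lf f g ε₁ x) := hcl.preimage (f := fun z : M => (x, z)) (by fun_prop)
  obtain ⟨z, hz, hmin⟩ := hclx.isCompact.exists_isMinOn ⟨x, hxx⟩ hcont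
  have hmin' : ∀ z' ∈ Lf f g ε₁ x, ‖ψ x z - w‖ ≤ ‖ψ x z' - w‖ := fun z' hz' => hmin hz'
  refine ⟨z, mono a1 hz, ?_⟩
  by_contra hne
  have hzε := mono a3 hz
  have hm : 0 < ‖ψ x z - w‖ := norm_pos_iff.2 (sub_ne_zero.2 hne)
  have hmw : ‖ψ x z - w‖ ≤ ‖w‖ := by
    have := hmin' x hxx
    rwa [hself, zero_sub, norm_neg] at this
  have hψ : ‖ψ x z‖ ≤ 2 * ‖w‖ := by
    calc ‖ψ x z‖ = ‖(ψ x z - w) + w‖ := by rw [sub_add_cancel]
      _ ≤ ‖w‖ + ‖w‖ := (norm_add_le _ _).trans (add_le_add hmw le_rfl)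
      _ = _ := by ring
  have hdz : dist z x ≤ 4 * r := by
    have := hF.lower x z hzε
    linarith
  -- `z` is well inside
  have hz2 : z ∈ Lf f g (ε₁ / 2) x := by
    refine ⟨fun n => ?_, hz.2⟩
    have h1 := hG.upper x z (mono a2 hz) n
    have h2 := hG.an_le n x
    have h3 : l ^ n ≤ 1 := pow_le_one₀ hG.l_pos.le hG.l_lt.le
    have h4 : k.an n x ≤ C := h2.trans (by nlinarith)
    have hd0 : 0 ≤ dist z x := dist_nonneg
    calc dist (f^[n] z) (f^[n] x) ≤ C * k.an n x * dist z x := h1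
      _ ≤ C * C * (4 * r) := by
          have := (k.an_pos n x).le
          gcongr
      _ = 4 * C ^ 2 * r := by ring
      _ ≤ ε₁ / 2 := hr2
  -- the new vector
  set w' : W := Q x z (w - ψ x z) with hw'
  have hSw' : k.S z w' = w' := congrArg (fun L => L (w - ψ x z)) (hF.S_Q x z hzε)
  have hPw' : PP s t z w' = w' := by rw [← hk.S]; exact hSw'
  have hnw' : ‖w'‖ ≤ r₀ := by
    calc ‖w'‖ ≤ K' * ‖w - ψ x z‖ := (Q x z).le_of_opNorm_le (hQ x z hz) _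
      _ ≤ K' * r := by
          rw [norm_sub_rev]
          exact mul_le_mul_of_nonneg_left (hmw.trans hw) (by linarith)
      _ ≤ r₀ := hr1
  obtain ⟨z', hz', hstep'⟩ := hstep z w' hPw' hnw'
  have hz'x : z' ∈ Lf f g ε₁ x := by
    refine ⟨?_, htrans _ _ _ hz.2 hz'.2⟩
    have := Cf.Wl_trans hz2.1 hz'.1
    rwa [add_halves] at this
  have htr := hF.trans x z hzε z' (mono a3 hz'x)
    (mono ((half_le_self hε₁pos.le).trans a3) hz')
  have hmin2 := hmin' z' hz'x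
  -- conformality
  have hqpos := hF.q_pos x z hzε
  have hgQ : ∀ v, gg k z (Q x z v) = q x z * gg k x v := by
    intro v
    unfold gg
    rw [hF.Q_conf x z hzε, Real.sqrt_mul (sq_nonneg _), Real.sqrt_sq hqpos.le]
  have hQd : ψ z z' - w' = Q x z (ψ x z' - w) := by
    rw [htr, hw', ← map_sub]; congr 1; abel
  have hSd : k.S x (ψ x z' - w) = ψ x z' - w := by
    rw [map_sub, hF.mem x z' (mono a3 hz'x), hSw]
  have hSm : k.S x (w - ψ x z) = w - ψ x z := by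
    rw [map_sub, hF.mem x z hzε, hSw]
  have g1 : ‖ψ x z' - w‖ ≤ K * gg k x (ψ x z' - w) := by
    have := norm_le k x (ψ x z' - w)
    rwa [hSd] at this
  have g2 : q x z * gg k x (ψ x z' - w) ≤ K * (1 / (2 * K ^ 4) * ‖w'‖) := by
    rw [← hgQ, ← hQd]
    exact (gg_le k z _).trans (mul_le_mul_of_nonneg_left hstep' hK0.le)
  have g3 : ‖w'‖ ≤ K * (q x z * (K * ‖ψ x z - w‖)) := by
    have h1 := norm_le k z w'
    rw [hSw', hw', hgQ] at h1
    refine h1.trans (mul_le_mul_of_nonneg_left (mul_le_mul_of_nonneg_left ?_ hqpos.le) hK0.le)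
    rw [norm_sub_rev]
    exact gg_le k x _
  have g4 : q x z * gg k x (ψ x z' - w) ≤ q x z * (‖ψ x z - w‖ / (2 * K)) := by
    refine g2.trans ?_
    calc K * (1 / (2 * K ^ 4) * ‖w'‖)
        ≤ K * (1 / (2 * K ^ 4) * (K * (q x z * (K * ‖ψ x z - w‖)))) := by gcongr
      _ = q x z * (‖ψ x z - w‖ / (2 * K)) := by field_simp
  have g5 : gg k x (ψ x z' - w) ≤ ‖ψ x z - w‖ / (2 * K) := le_of_mul_le_mul_left g4 hqpos
  have g6 : ‖ψ x z' - w‖ ≤ ‖ψ x z - w‖ / 2 := by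
    refine g1.trans ?_
    calc K * gg k x (ψ x z' - w) ≤ K * (‖ψ x z - w‖ / (2 * K)) :=
          mul_le_mul_of_nonneg_left g5 hK0.le
      _ = ‖ψ x z - w‖ / 2 := by field_simp
  linarith

end Pool.Agent.Lib.MP610fe3.HR
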