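import Pool.Agent.Lib.MP_610fe3_an.HR.F1Spec
import Pool.Agent.Lib.MP_610fe3_an.HR.DBL
import Pool.Agent.Lib.MP_610fe3_an.HR.PROD
import Pool.Agent.Lib.MP_610fe3_an.HR.PAIR
import Pool.Agent.Lib.MP_610fe3_an.HR.COC
import Pool.Agent.Lib.MP_610fe3_an.HR.GRW
import Pool.Agent.Lib.MP_610fe3_an.HR.FLT
import Pool.Agent.Lib.MP_610fe3_an.HR.SRJ

/-!
# Module LIP (hive F1): small pieces of the leaves `X` are Lipschitz curves
-/

set_option autoImplicit false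

open Set Filter Function
open scoped Topology

namespace Pool.Agent.Lib.MP610fe3.HR

open Cf CH

universe u v

/-- **LIP.** -/
theorem specLip : SpecLip.{u, v} := by
  intro M W _ _ _ _ _ E f g s t C₀ hB ε' hε'
  obtain ⟨k, hk⟩ := specCoc M W E f g.symm s t.swap C₀ hB
  obtain ⟨ε, C, l, hG⟩ := specGrw specProd specPair M W E f g.symm s t.swap C₀ k hB hk
  obtain ⟨ε₂, C₂, ψ, Q, q, hF, -⟩ := specFlt M W E f g.symm s t.swap C₀ k ε C l hB hk hG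
  obtain ⟨ε₀, C₁, l₀, hpair⟩ := specPair M W E f g.symm s t.swap hB.hs hB.ht hB.comm
  obtain ⟨hrefl, hsymm, htrans, -⟩ := specDbl M f g.symm hB.comm
  obtain ⟨-, -, -, -, ⟨δ₀, hδ₀, hclosed⟩⟩ := specProd M f g.symm ε₀ C₁ l₀ hpair
  set ε₁ : ℝ := min (min (ε' / 2) (ε₂ / 2)) δ₀ with hε₁
  have hε₂ := hF.ε_pos
  have hε₁pos : 0 < ε₁ := lt_min (lt_min (by positivity) (by positivity)) hδ₀
  have a1 : ε₁ ≤ ε' / 2 := (min_le_left _ _).trans (min_le_left _ _)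
  have a2 : ε₁ ≤ ε₂ / 2 := (min_le_left _ _).trans (min_le_right _ _)
  have a3 : ε₁ ≤ δ₀ := min_le_right _ _
  have a2' : ε₁ ≤ ε₂ := by linarith
  have mono : ∀ {a b : ℝ}, a ≤ b → ∀ {x z : M}, z ∈ Lf f g.symm a x → z ∈ Lf f g.symm b x :=
    fun hab _ _ hz => ⟨Cf.Wl_mono hab hz.1, hz.2⟩
  obtain ⟨r, hr, hsrj⟩ := specSrj specDbl specProd specPair M W E f g.symm s t.swap C₀ k ε C l ε₂
    C₂ ψ Q q hB hk hG hF ε₁ hε₁pos
  -- bound for `Q`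
  have hcl := hclosed ε₁ a3
  obtain ⟨KQ, hKQ⟩ := hcl.isCompact.exists_bound_of_continuousOn
    (hF.Q_cont.mono (fun p hp => mono a2' hp))
  set K' : ℝ := max KQ 1 with hK'
  have hK'1 : 1 ≤ K' := le_max_right _ _
  have hQ : ∀ x, ∀ z ∈ Lf f g.symm ε₁ x, ‖Q x z‖ ≤ K' := fun x z hz =>
    (hKQ (x, z) hz).trans (le_max_left _ _)
  set δ : ℝ := min ε₁ (r / 2) with hδ
  have hδpos : 0 < δ := lt_min hε₁pos (by positivity)
  have b1 : δ ≤ ε₁ := min_le_left _ _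
  have b2 : 2 * δ ≤ r := by
    have : δ ≤ r / 2 := min_le_right _ _
    linarith
  refine ⟨δ, 4 * K' * δ, hδpos, by positivity, fun a z hz => ?_⟩
  have hz1 := mono b1 hz
  have hz2 := mono a2' hz1
  have hdz : dist z a ≤ δ := hz.1 0
  have hψz : ‖ψ a z‖ ≤ 2 * δ := by
    have := hF.upper a z hz2
    linarith
  have hself : ψ a a = 0 := by
    have h1 : a ∈ Lf f g.symm ε₂ a := ⟨Cf.mem_Wl_self hε₂.le, hrefl a⟩
    have := hF.upper a a h1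
    rw [dist_self, mul_zero] at this
    exact norm_le_zero_iff.1 this
  have hex : ∀ ρ : ℝ, ∃ y : M, ρ ∈ Icc (0 : ℝ) 1 → y ∈ Lf f g.symm ε₁ a ∧ ψ a y = ρ • ψ a z := by
    intro ρ
    by_cases hρ : ρ ∈ Icc (0 : ℝ) 1
    · have h1 : PP s t.swap a (ρ • ψ a z) = ρ • ψ a z := by
        rw [map_smul, ← hk.S, hF.mem a z hz2]
      have h2 : ‖ρ • ψ a z‖ ≤ r := by
        rw [norm_smul, Real.norm_of_nonneg hρ.1]
        calc ρ * ‖ψ a z‖ ≤ 1 * ‖ψ a z‖ := mul_le_mul_of_nonneg_right hρ.2 (norm_nonneg _)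
          _ ≤ r := by linarith
      obtain ⟨y, hy, hy'⟩ := hsrj a _ h1 h2
      exact ⟨y, fun _ => ⟨hy, hy'⟩⟩
    · exact ⟨a, fun h => absurd h hρ⟩
  choose c hc using hex
  have h0 : (0 : ℝ) ∈ Icc (0 : ℝ) 1 := ⟨le_rfl, zero_le_one⟩
  have h1 : (1 : ℝ) ∈ Icc (0 : ℝ) 1 := ⟨zero_le_one, le_rfl⟩
  refine ⟨c, ?_, ?_, fun ρ hρ ρ' hρ' => ?_⟩
  · refine hF.inj a (c 0) (mono a2' (hc 0 h0).1) a ⟨Cf.mem_Wl_self hε₂.le, hrefl a⟩ ?_
    rw [(hc 0 h0).2, hself, zero_smul]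
  · refine hF.inj a (c 1) (mono a2' (hc 1 h1).1) z hz2 ?_
    rw [(hc 1 h1).2, one_smul]
  · obtain ⟨hy, hψy⟩ := hc ρ hρ
    obtain ⟨hy', hψy'⟩ := hc ρ' hρ'
    have hd : Dbl f g.symm (c ρ) (c ρ') := htrans _ _ _ (hsymm _ _ hy.2) hy'.2
    have hw : ∀ n, dist (f^[n] (c ρ')) (f^[n] (c ρ)) ≤ 2 * ε₁ := fun n => by
      have e1 := hy.1 n
      have e2 := hy'.1 n
      have e3 := dist_triangle_right (f^[n] (c ρ')) (f^[n] (c ρ)) (f^[n] a)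
      linarith
    have hL' : c ρ' ∈ Lf f g.symm ε' (c ρ) := ⟨fun n => (hw n).trans (by linarith), hd⟩
    have hL₂ : c ρ' ∈ Lf f g.symm ε₂ (c ρ) := ⟨fun n => (hw n).trans (by linarith), hd⟩
    refine ⟨hL', ?_⟩
    have e1 := hF.lower (c ρ) (c ρ') hL₂
    have e2 := hF.trans a (c ρ) (mono a2' hy) (c ρ') (mono a2' hy') hL₂
    have e3 : ψ a (c ρ') - ψ a (c ρ) = (ρ' - ρ) • ψ a z := by
      rw [hψy, hψy', sub_smul]
    rw [e3] at e2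
    have e4 : ‖ψ (c ρ) (c ρ')‖ ≤ K' * (|ρ' - ρ| * (2 * δ)) := by
      rw [e2]
      refine ((Q a (c ρ)).le_of_opNorm_le (hQ a (c ρ) hy) _).trans ?_
      rw [norm_smul, Real.norm_eq_abs]
      have : |ρ' - ρ| * ‖ψ a z‖ ≤ |ρ' - ρ| * (2 * δ) :=
        mul_le_mul_of_nonneg_left hψz (abs_nonneg _)
      exact mul_le_mul_of_nonneg_left this (by linarith)
    calc dist (c ρ') (c ρ) ≤ 2 * ‖ψ (c ρ) (c ρ')‖ := e1
      _ ≤ 2 * (K' * (|ρ' - ρ| * (2 * δ))) := by linarith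
      _ = 4 * K' * δ * |ρ' - ρ| := by ring

end Pool.Agent.Lib.MP610fe3.HR
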