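import Pool.Agent.Lib.MP_610fe3_an.HR.F1Spec

/-!
# Module NARI: integer vectors near the wall
-/

set_option autoImplicit false

open Set Filter Function
open scoped Topology

namespace Pool.Agent.Lib.MP610fe3.HR

open CH

universe w

theorem specNari : SpecNari.{w} := by
  intro k J χ n n' i j hW
  set a := ev (χ i) n with ha
  set b := ev (χ i) n' with hb
  have ha0 : a < 0 := hW.lt
  have hb0 : 0 < b := hW.gt
  obtain ⟨q₀, hq₀⟩ := exists_nat_ge (-a / b)
  refine ⟨q₀ + 1, fun q hq => ?_⟩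
  have hq1 : (q₀ : ℝ) + 1 ≤ q := by exact_mod_cast hq
  have hq0 : (0 : ℝ) ≤ q₀ := Nat.cast_nonneg _
  have hqb : -a ≤ q * b := by
    have h1 : -a ≤ q₀ * b := (div_le_iff₀ hb0).1 hq₀
    nlinarith
  have hna : 0 < -a := by linarith
  set x := (q : ℝ) * b / (-a) with hx
  have hx1 : 1 ≤ x := (one_le_div hna).2 hqb
  have hx0 : 0 ≤ x := by linarith
  set m := ⌊x⌋₊ with hm
  have hm1 : 1 ≤ m := by
    rw [hm, Nat.one_le_floor_iff]
    exact hx1
  have hm1' : (1 : ℝ) ≤ m := by exact_mod_cast hm1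
  have hmx : (m : ℝ) ≤ x := Nat.floor_le hx0
  have hmx' : x < (m : ℝ) + 1 := Nat.lt_floor_add_one x
  have hxa : x * (-a) = q * b := div_mul_cancel₀ _ hna.ne'
  -- the value of `χ i`
  have hval : ev (χ i) (((m + 1 : ℕ) : ℤ) • n + (q : ℤ) • n') = ((m : ℝ) + 1) * a + q * b := by
    rw [ev_add, ev_smul, ev_smul]
    push_cast
    rfl
  have hneg : ((m : ℝ) + 1) * a + q * b < 0 := by nlinarith
  have hge : a ≤ ((m : ℝ) + 1) * a + q * b := by nlinarith
  have hval2 : ∀ c : Fin k → ℝ, ev c ((2 : ℤ) • n - (((m + 1 : ℕ) : ℤ) • n + (q : ℤ) • n')) =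
      2 * ev c n - (((m : ℝ) + 1) * ev c n + q * ev c n') := by
    intro c
    rw [sub_eq_add_neg, ev_add, ev_neg, ev_add, ev_smul, ev_smul, ev_smul]
    push_cast
    ring
  have hvalc : ∀ c : Fin k → ℝ, ev c (((m + 1 : ℕ) : ℤ) • n + (q : ℤ) • n') =
      ((m : ℝ) + 1) * ev c n + q * ev c n' := by
    intro c
    rw [ev_add, ev_smul, ev_smul]
    push_cast
    rfl
  have hsm : ∀ (c : ℝ) (v : Fin k → ℤ), ev (c • χ i) v = c * ev (χ i) v := by
    intro c v
    simp only [ev, Finset.mul_sum, Pi.smul_apply, smul_eq_mul, mul_assoc]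
  -- the signs
  have hkey : ∀ l, (ev (χ l) (((m + 1 : ℕ) : ℤ) • n + (q : ℤ) • n') < 0 ↔ ev (χ l) n < 0) ∧
      ev (χ l) (((m + 1 : ℕ) : ℤ) • n + (q : ℤ) • n') ≠ 0 ∧
      ev (χ l) ((2 : ℤ) • n - (((m + 1 : ℕ) : ℤ) • n + (q : ℤ) • n')) ≠ 0 := by
    intro l
    by_cases hl : ev (χ l) n < 0 ↔ ev (χ l) n' < 0
    · rw [hvalc, hval2]
      have hqq : (1 : ℝ) ≤ q := by linarith
      rcases lt_or_gt_of_ne (hW.reg l) with h1 | h1
      · have h2 := hl.1 h1
        have h3 : ((m : ℝ) + 1) * ev (χ l) n + q * ev (χ l) n' < 0 := by nlinarith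
        refine ⟨⟨fun _ => h1, fun _ => h3⟩, h3.ne, ?_⟩
        have h4 : 0 < 2 * ev (χ l) n - (((m : ℝ) + 1) * ev (χ l) n + q * ev (χ l) n') := by
          nlinarith
        exact h4.ne'
      · have h2 : 0 < ev (χ l) n' := by
          rcases lt_or_gt_of_ne (hW.reg' l) with h | h
          · exact absurd (hl.2 h) h1.le.not_gt
          · exact h
        have h3 : 0 < ((m : ℝ) + 1) * ev (χ l) n + q * ev (χ l) n' := by nlinarith
        refine ⟨⟨fun h => absurd h h3.le.not_gt, fun h => absurd h h1.le.not_gt⟩, h3.ne', ?_⟩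
        have h4 : 2 * ev (χ l) n - (((m : ℝ) + 1) * ev (χ l) n + q * ev (χ l) n') < 0 := by
          nlinarith
        exact h4.ne
    · obtain ⟨c, hc⟩ := hW.only l hl
      have hc0 : c ≠ 0 := by
        rintro rfl
        apply hW.reg l
        rw [hc, hsm, zero_mul]
      rw [hc, hsm, hsm, hsm, hval, hval2]
      have h5 : 2 * a - (((m : ℝ) + 1) * a + q * b) < 0 := by linarith
      refine ⟨?_, mul_ne_zero hc0 hneg.ne, mul_ne_zero hc0 h5.ne⟩
      rcases lt_or_gt_of_ne hc0 with h | h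
      · exact ⟨fun h' => absurd h' (mul_pos_of_neg_of_neg h hneg).le.not_gt,
          fun h' => absurd h' (mul_pos_of_neg_of_neg h ha0).le.not_gt⟩
      · exact ⟨fun _ => mul_neg_of_pos_of_neg h ha0, fun _ => mul_neg_of_pos_of_neg h hneg⟩
  refine ⟨m + 1, by omega, ?_, fun l => (hkey l).1, fun l => (hkey l).2.2, ?_⟩
  · refine ⟨fun l => (hkey l).2.1, hW.reg', hW.neg, ?_, hW.gt, fun l hl => ?_⟩
    · rw [hval]
      exact hneg
    · exact hW.only l fun h => hl ((hkey l).1.trans h)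
  · rw [hval2]
    change 2 * a - (((m : ℝ) + 1) * a + q * b) < 0
    linarith

end Pool.Agent.Lib.MP610fe3.HR
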