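import Pool.Agent.Lib.MP_610fe3_an.HR.SpecZ

/-!
# Module RNG: the ranges of the products of projections of two regular elements
-/

set_option autoImplicit false

open Set Filter Function

namespace Pool.Agent.Lib.MP610fe3.HR

open Cf CH

universe u v w

namespace RNGAux

theorem map_eq_self {W : Type*} [NormedAddCommGroup W] [NormedSpace ℝ W] (P : W →L[ℝ] W)
    (hP : P ∘L P = P) {F : Submodule ℝ W} (hF : F ≤ P.range) : F.map (P : W →ₗ[ℝ] W) = F := by
  have key : ∀ x ∈ F, P x = x := by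
    intro x hx
    obtain ⟨y, rfl⟩ := hF hx
    exact congrArg (fun T : W →L[ℝ] W => T y) hP
  ext x
  constructor
  · rintro ⟨y, hy, rfl⟩
    have h := key y hy
    have h2 : (P : W →ₗ[ℝ] W) y = y := h
    rw [h2]
    exact hy
  · intro hx
    exact ⟨x, hx, key x hx⟩

theorem map_eq_bot {W : Type*} [NormedAddCommGroup W] [NormedSpace ℝ W] (P P' : W →L[ℝ] W)
    (hP : P ∘L P' = 0) {F : Submodule ℝ W} (hF : F ≤ P'.range) :
    F.map (P : W →ₗ[ℝ] W) = ⊥ := by
  rw [eq_bot_iff]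
  rintro _ ⟨y, hy, rfl⟩
  obtain ⟨z, rfl⟩ := hF hy
  exact congrArg (fun T : W →L[ℝ] W => T z) hP

theorem range_comp_eq {W : Type*} [NormedAddCommGroup W] [NormedSpace ℝ W] {J : Type*}
    (P P' R : W →L[ℝ] W) (hPP : P ∘L P = P) (hPP' : P ∘L P' = 0) (F : J → Submodule ℝ W)
    (A A' B C : J → Prop) (hAA' : ∀ j, A j ∨ A' j) (hA : ∀ j, A j → F j ≤ P.range)
    (hA' : ∀ j, A' j → F j ≤ P'.range) (hR : R.range = ⨆ (j) (_ : B j), F j)
    (hC : ∀ j, C j ↔ A j ∧ B j) :
    (P ∘L R).range = ⨆ (j) (_ : C j), F j := by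
  have h1 : (P ∘L R).range = R.range.map (P : W →ₗ[ℝ] W) := by
    ext x
    constructor
    · rintro ⟨y, rfl⟩
      exact ⟨R y, ⟨y, rfl⟩, rfl⟩
    · rintro ⟨_, ⟨y, rfl⟩, rfl⟩
      exact ⟨y, rfl⟩
  rw [h1, hR, Submodule.map_iSup]
  simp only [Submodule.map_iSup]
  refine le_antisymm (iSup₂_le fun j hj => ?_) (iSup₂_le fun j hj => ?_)
  · rcases hAA' j with h | h
    · rw [map_eq_self P hPP (hA j h)]
      exact le_iSup₂_of_le j ((hC j).2 ⟨h, hj⟩) le_rfl
    · rw [map_eq_bot P P' hPP' (hA' j h)]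
      exact bot_le
  · have h := (hC j).1 hj
    refine le_iSup₂_of_le j h.2 ?_
    rw [map_eq_self P hPP (hA j h.1)]

theorem ev_smul_left {k : ℕ} (c : ℝ) (χ : Fin k → ℝ) (n : Fin k → ℤ) :
    ev (c • χ) n = c * ev χ n := by
  unfold ev
  rw [Finset.mul_sum]
  refine Finset.sum_congr rfl fun i _ => ?_
  rw [Pi.smul_apply, smul_eq_mul, mul_assoc]

end RNGAux

open RNGAux

theorem specRng : SpecRng.{u, v, w} := by
  intro M W _ _ _ _ _ E k J _ χ F f g s t n n' _ _ _ hn hn' hsS hsU htS htU i j hc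
  have reg : ∀ l, ev (χ l) n < 0 ∨ 0 < ev (χ l) n := fun l => lt_or_gt_of_ne (hn l)
  constructor
  · intro x
    refine range_comp_eq (s.S x) (s.U x) (t.U x) (s.SS x) (s.SU x) (fun l => F l x)
      (fun l => ev (χ l) n < 0) (fun l => 0 < ev (χ l) n) (fun l => 0 < ev (χ l) n')
      (fun l => ∃ c : ℝ, 0 < c ∧ χ l = c • χ i) reg ?_ ?_ (htU x) ?_
    · intro l hl
      rw [hsS x]
      exact le_iSup₂_of_le l hl le_rfl
    · intro l hl
      rw [hsU x]
      exact le_iSup₂_of_le l hl le_rfl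
    · intro l
      constructor
      · rintro ⟨c, hc0, hcl⟩
        rw [hcl, ev_smul_left, ev_smul_left]
        exact ⟨mul_neg_of_pos_of_neg hc0 hc.lt, mul_pos hc0 hc.gt⟩
      · rintro ⟨h1, h2⟩
        obtain ⟨c, hcl⟩ := hc.only l (fun h => absurd (h.1 h1) (not_lt.2 h2.le))
        refine ⟨c, ?_, hcl⟩
        rw [hcl, ev_smul_left] at h1
        by_contra hneg
        exact absurd h1 (not_lt.2 (mul_nonneg_of_nonpos_of_nonpos (not_lt.1 hneg) hc.lt.le))
  · intro x
    obtain ⟨a, ha, hji⟩ := hc.neg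
    refine range_comp_eq (s.U x) (s.S x) (t.S x) (s.UU x) (s.US x) (fun l => F l x)
      (fun l => 0 < ev (χ l) n) (fun l => ev (χ l) n < 0) (fun l => ev (χ l) n' < 0)
      (fun l => ∃ c : ℝ, 0 < c ∧ χ l = c • χ j) (fun l => (reg l).symm) ?_ ?_ (htS x) ?_
    · intro l hl
      rw [hsU x]
      exact le_iSup₂_of_le l hl le_rfl
    · intro l hl
      rw [hsS x]
      exact le_iSup₂_of_le l hl le_rfl
    · have hji' : χ j = (-a) • χ i := by rw [hji, neg_smul]
      intro l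
      constructor
      · rintro ⟨c, hc0, hcl⟩
        rw [hcl, hji', smul_smul, ev_smul_left, ev_smul_left]
        have hca : c * -a < 0 := by nlinarith
        exact ⟨mul_pos_of_neg_of_neg hca hc.lt, mul_neg_of_neg_of_pos hca hc.gt⟩
      · rintro ⟨h1, h2⟩
        obtain ⟨c, hcl⟩ := hc.only l (fun h => absurd (h.2 h2) (not_lt.2 h1.le))
        have hc0 : c < 0 := by
          rw [hcl, ev_smul_left] at h1
          by_contra hneg
          exact absurd h1 (not_lt.2 (mul_nonpos_of_nonneg_of_nonpos (not_lt.1 hneg) hc.lt.le))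
        refine ⟨-c / a, div_pos (neg_pos.2 hc0) ha, ?_⟩
        rw [hcl, hji', smul_smul]
        congr 1
        field_simp

end Pool.Agent.Lib.MP610fe3.HR
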