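import Pool.Agent.Lib.MP_610fe3_an.HR.F1Spec
import Pool.Agent.Lib.MP_610fe3_an.HR.RNG
import Pool.Agent.Lib.MP_610fe3_an.HR.EIG

/-!
# Module NEAR: assembly of the rates
-/

set_option autoImplicit false

open Set Filter Function
open scoped Topology

namespace Pool.Agent.Lib.MP610fe3.HR

open Cf CH

universe u v w

namespace F1NEARAux

variable {M W : Type*} [MetricSpace M] [CompactSpace M] [NormedAddCommGroup W]
  [NormedSpace ℝ W] {E : Emb M W}

/-- Differentiable maps of compact spaces are Lipschitz maps. -/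
theorem exists_lip_all {h : M → M} {D : M → W →L[ℝ] W} (H : HasD E h D) :
    ∃ L : ℝ, 1 ≤ L ∧ ∀ x y, dist (h x) (h y) ≤ L * dist x y := by
  obtain ⟨L, r, hL1, hr, hlip⟩ := H.exists_lip
  set d : ℝ := Metric.diam (univ : Set M) with hd
  have hd0 : 0 ≤ d := Metric.diam_nonneg
  have hdd : ∀ x y : M, dist x y ≤ d := fun x y =>
    Metric.dist_le_diam_of_mem (Metric.isBounded_of_compactSpace) (mem_univ x) (mem_univ y)
  refine ⟨max L (d / r), hL1.trans (le_max_left _ _), fun x y => ?_⟩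
  rcases lt_or_ge (dist x y) r with h1 | h1
  · exact (hlip x y h1).trans (mul_le_mul_of_nonneg_right (le_max_left _ _) dist_nonneg)
  · calc dist (h x) (h y) ≤ d := hdd _ _
      _ = d / r * r := by field_simp
      _ ≤ max L (d / r) * dist x y :=
          mul_le_mul (le_max_right _ _) h1 hr.le (by positivity)

end F1NEARAux

open F1NEARAux in
/-- **NEAR.** -/
theorem specNear (h1 : SpecNari.{w}) (h2 : SpecCrt.{u, v}) (h3 : SpecRtx.{u, v, w})
    (h4 : SpecRtc.{u, v, w}) : SpecNear.{u, v, w} := by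
  intro M W _ _ _ _ _ E k J _ A χ F hA n n' i j hW hfin
  obtain ⟨q₀, hq₀⟩ := h1 k J χ n n' i j hW
  obtain ⟨t, ht, ⟨Ct, hSt⟩, htS, htU⟩ := hA.split n' hW.reg'
  obtain ⟨ε₁, C₁, l₁, hd₁⟩ := exists_dec t ht
  obtain ⟨ε₂, C₂, l₂, hd₂⟩ := exists_dec t.swap ht.swap
  set lg : ℝ := max l₁ l₂ with hlg
  have hlg0 : 0 < lg := lt_max_of_lt_left hd₁.l_pos
  have hlg1 : lg < 1 := max_lt hd₁.l_lt hd₂.l_lt
  obtain ⟨L, hL1, hL⟩ := exists_lip_all t.hDi
  obtain ⟨B, hB1, hB⟩ := h3 M W E k J A χ F hA n n' i j hW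
  obtain ⟨N, hN⟩ : ∃ N : ℕ, B * lg ^ N < 1 := by
    have h := (tendsto_pow_atTop_nhds_zero_of_lt_one hlg0.le hlg1).const_mul B
    rw [mul_zero] at h
    exact (h.eventually (gt_mem_nhds one_pos)).exists
  set Q : ℝ := min (1 / 2) (lg ^ N / (2 * L ^ N)) with hQ
  have hLN : 0 < L ^ N := by positivity
  have hQ0 : 0 < Q := lt_min (by norm_num) (by positivity)
  have hQ1 : Q < 1 := (min_le_left _ _).trans_lt (by norm_num)
  have hQL : Q * L ^ N < lg ^ N := by
    have h5 : Q * L ^ N ≤ lg ^ N / (2 * L ^ N) * L ^ N :=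
      mul_le_mul_of_nonneg_right (min_le_right _ _) hLN.le
    have h6 : lg ^ N / (2 * L ^ N) * L ^ N = lg ^ N / 2 := by field_simp
    have h7 : 0 < lg ^ N := by positivity
    linarith
  obtain ⟨C₃, l, hl0, hl1, hR⟩ := h4 M W E k J A χ F hA n n' hW.reg hW.reg'
  obtain ⟨q, hq1, hq2⟩ : ∃ q : ℕ, q₀ ≤ q ∧ l ^ q < Q := by
    have h := tendsto_pow_atTop_nhds_zero_of_lt_one hl0.le hl1
    exact ((eventually_ge_atTop q₀).and (h.eventually (gt_mem_nhds hQ0))).exists
  obtain ⟨p, hp1, hW', hsign, hreg, hneg⟩ := hq₀ q hq1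
  set n'' : Fin k → ℤ := (p : ℤ) • n + (q : ℤ) • n' with hn''
  obtain ⟨s, hs, ⟨Cs, hSs⟩, hsS, hsU⟩ := hA.split n'' hW'.reg
  have hcomm : ∀ x, A n'' (A n' x) = A n' (A n'' x) := by
    intro x
    rw [← hA.add, ← hA.add, add_comm]
  have hrng := (specRng M W E k J χ F (A n'') (A n') s t n'' n' hs ht hcomm hW'.reg hW'.reg'
    hsS hsU htS htU i j hW').1
  have hθ : l ^ (p + q) < Q := by
    refine lt_of_le_of_lt ?_ hq2
    exact pow_le_pow_of_le_one hl0.le hl1.le (by omega)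
  obtain ⟨C₄, hC₄⟩ := hB n'' s t hs ht hrng hW' hreg hneg
  obtain ⟨δ₅, C₅, hδ₅, hC₅, h5⟩ := h2 M W E (A n'') (A n') s t C₃ (l ^ (p + q)) Q hs ht hcomm
    (by positivity) hθ hQ1.le (fun m x w hw => hR p q hW'.reg hsign s t hsS htS hs ht m x w hw)
  refine ⟨n'', s, t, hW', hsign, ⟨max Cs Ct, ?_⟩, min δ₅ (min ε₁ ε₂),
    max (max C₁ C₂) (max C₄ C₅), B, Q, L, lg, N, ?_⟩
  · exact {
      comm := fun x => EIGAux.comm_symm_right hcomm x
      hs := hs
      ht := ht.swap
      sqs := EIGAux.sq_mono hSs (le_max_left _ _)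
      sqt := (EIGAux.sq_mono hSt (le_max_right _ _)).swap
      rank := fun x => by rw [hrng x]; exact hfin x }
  · have hδ : 0 < min δ₅ (min ε₁ ε₂) := lt_min hδ₅ (lt_min hd₁.ε_pos hd₂.ε_pos)
    exact {
      δ_pos := hδ
      C_one := hC₅.trans ((le_max_right _ _).trans (le_max_right _ _))
      B_one := hB1
      Q_pos := hQ0
      Q_lt := hQ1
      L_one := hL1
      lg_pos := hlg0
      lg_lt := hlg1
      BJ := hN
      QJ := hQL
      lip := hL
      decg := hd₁.mono hδ ((min_le_right _ _).trans (min_le_left _ _))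
        ((le_max_left _ _).trans (le_max_left _ _)) (le_max_left _ _) hlg1
      decg' := hd₂.mono hδ ((min_le_right _ _).trans (min_le_right _ _))
        ((le_max_right _ _).trans (le_max_left _ _)) (le_max_right _ _) hlg1
      xgr := fun m x w hw => by
        refine (hC₄ m x w hw).trans ?_
        have h6 : C₄ ≤ max (max C₁ C₂) (max C₄ C₅) := (le_max_left _ _).trans (le_max_right _ _)
        gcongr
      cdec := fun x z hz hz' m => by
        refine (h5 x z (Wl_mono (min_le_left _ _) hz) (Wl_mono (min_le_left _ _) hz') m).trans ?_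
        have h6 : C₅ ≤ max (max C₁ C₂) (max C₄ C₅) := (le_max_right _ _).trans (le_max_right _ _)
        gcongr }

end Pool.Agent.Lib.MP610fe3.HR
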