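import Pool.Agent.Lib.MP_610fe3_an.HR.F1STRT

/-!
# NOFR: there are no free segments
-/

set_option autoImplicit false

open Set Filter Function
open scoped Topology

namespace Pool.Agent.Lib.MP610fe3.HR

open Cf CH

universe u v

namespace F1NOFRAux

open F1STRTAux

theorem tau_id : Tau (fun ρ => ρ) :=
  ⟨continuousOn_id, strictMonoOn_id, rfl, rfl⟩

theorem tau_maps {τ : ℝ → ℝ} (h : Tau τ) : MapsTo τ (Icc 0 1) (Icc 0 1) := by
  intro ρ hρ
  have h0 : (0 : ℝ) ∈ Icc (0 : ℝ) 1 := ⟨le_rfl, zero_le_one⟩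
  have h1 : (1 : ℝ) ∈ Icc (0 : ℝ) 1 := ⟨zero_le_one, le_rfl⟩
  have a := h.mono.monotoneOn h0 hρ hρ.1
  have b := h.mono.monotoneOn hρ h1 hρ.2
  rw [h.zero] at a
  rw [h.one] at b
  exact ⟨a, b⟩

theorem tau_comp {τ σ : ℝ → ℝ} (h : Tau τ) (h' : Tau σ) : Tau (fun ρ => τ (σ ρ)) where
  cont := h.cont.comp h'.cont (tau_maps h')
  mono := fun a ha b hb hab => h.mono (tau_maps h' ha) (tau_maps h' hb) (h'.mono ha hb hab)
  zero := by simp only [h'.zero, h.zero]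
  one := by simp only [h'.one, h.one]

/-- Sums of a geometric series. -/
theorem dist_geom {X : Type*} [MetricSpace X] {v : ℕ → X} {K l : ℝ} (hl1 : l < 1)
    (h : ∀ j, dist (v (j + 1)) (v j) ≤ K * l ^ j) (N d : ℕ) :
    dist (v (N + d)) (v N) ≤ K * (l ^ N - l ^ (N + d)) / (1 - l) := by
  have h1 : 0 < 1 - l := by linarith
  induction d with
  | zero => simp
  | succ d ih =>
    have e : K * (l ^ N - l ^ (N + (d + 1))) / (1 - l)
        = K * (l ^ N - l ^ (N + d)) / (1 - l) + K * l ^ (N + d) := by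
      field_simp
      ring
    rw [e, ← Nat.add_assoc]
    calc dist (v (N + d + 1)) (v N) ≤ dist (v (N + d + 1)) (v (N + d)) + dist (v (N + d)) (v N) :=
          dist_triangle _ _ _
      _ ≤ K * l ^ (N + d) + K * (l ^ N - l ^ (N + d)) / (1 - l) := add_le_add (h _) ih
      _ = _ := add_comm _ _

theorem unifCauchy {X : Type*} [MetricSpace X] {F : ℕ → ℝ → X} {K l : ℝ} {S : Set ℝ}
    (hl : 0 < l) (hl1 : l < 1)
    (hK : 0 ≤ K) (h : ∀ ρ ∈ S, ∀ j, dist (F (j + 1) ρ) (F j ρ) ≤ K * l ^ j) :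
    UniformCauchySeqOn F atTop S := by
  rw [Metric.uniformCauchySeqOn_iff]
  intro ε hε
  have h1 : 0 < 1 - l := by linarith
  have ht : Tendsto (fun n : ℕ => K / (1 - l) * l ^ n) atTop (𝓝 (K / (1 - l) * 0)) :=
    (tendsto_pow_atTop_nhds_zero_of_lt_one hl.le hl1).const_mul _
  rw [mul_zero] at ht
  obtain ⟨N, hN⟩ := (ht.eventually (gt_mem_nhds (half_pos hε))).exists
  have key : ∀ m ≥ N, ∀ ρ ∈ S, dist (F m ρ) (F N ρ) < ε / 2 := by
    intro m hm ρ hρ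
    obtain ⟨d, rfl⟩ := Nat.exists_eq_add_of_le hm
    refine lt_of_le_of_lt (dist_geom (v := fun j => F j ρ) hl1 (h ρ hρ) N d) ?_
    refine lt_of_le_of_lt ?_ hN
    rw [div_mul_eq_mul_div]
    refine div_le_div_of_nonneg_right (mul_le_mul_of_nonneg_left ?_ hK) h1.le
    have : 0 < l ^ (N + d) := by positivity
    linarith
  refine ⟨N, fun m hm n hn ρ hρ => ?_⟩
  calc dist (F m ρ) (F n ρ) ≤ dist (F m ρ) (F N ρ) + dist (F n ρ) (F N ρ) :=
        dist_triangle_right _ _ _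
    _ < ε / 2 + ε / 2 := add_lt_add (key m hm ρ hρ) (key n hn ρ hρ)
    _ = ε := by ring

end F1NOFRAux

open F1STRTAux F1NOFRAux

/-- **NOFR**: there are no free segments. -/
theorem specNofr (hSt : SpecStage.{u, v}) (hLi : SpecLims.{u, v}) (hC : SpecCoc.{u, v}) :
    SpecNofr.{u, v} := by
  intro M W _ _ _ _ _ E f g s t C₀ ε C l e γ A hB hP hG hCU hGA he hR a u hu hfre
  obtain ⟨k, hk⟩ := hC M W E f g.symm s t.swap C₀ hB
  obtain ⟨κ, C₂, hκ, hκ1, hst⟩ := hSt M W E f g s t C₀ ε C l e γ A hB hP hG hCU hGA he hR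
  have hl : 0 < l := hP.one.decs.l_pos
  have hl1 : l < 1 := hP.one.decs.l_lt
  choose! a' u' τ' k' hst1 hst2 hst3 hst4 hst5 hst6 using hst
  -- the sequence
  obtain ⟨q, hq0, hqs⟩ : ∃ q : ℕ → M × W, q 0 = (a, u) ∧
      ∀ j, q (j + 1) = (a' (q j).1 (q j).2, u' (q j).1 (q j).2) :=
    ⟨fun j => Nat.rec (a, u) (fun _ r => (a' r.1 r.2, u' r.1 r.2)) j, rfl, fun j => rfl⟩
  have hinv : ∀ j, Fre s t.swap γ A (q j).1 (q j).2 ∧ κ ≤ ‖(q j).2‖ ∧ ‖(q j).2‖ ≤ 1 := by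
    intro j
    induction j with
    | zero =>
      rw [hq0]
      exact ⟨hfre, by rw [hu]; exact hκ1, hu.le⟩
    | succ j ih =>
      rw [hqs]
      exact ⟨hst2 _ _ ih.1 ih.2.1 ih.2.2, hst3 _ _ ih.1 ih.2.1 ih.2.2,
        hst4 _ _ ih.1 ih.2.1 ih.2.2⟩
  obtain ⟨T, hT0, hTs⟩ : ∃ T : ℕ → ℝ → ℝ, T 0 = (fun ρ => ρ) ∧
      ∀ j, T (j + 1) = fun ρ => τ' (q j).1 (q j).2 (T j ρ) :=
    ⟨fun j => Nat.rec (fun ρ => ρ) (fun j r ρ => τ' (q j).1 (q j).2 (r ρ)) j, rfl, fun j => rfl⟩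
  have hT : ∀ j, Tau (T j) := by
    intro j
    induction j with
    | zero => rw [hT0]; exact tau_id
    | succ j ih =>
      rw [hTs]
      exact tau_comp (hst5 _ _ (hinv j).1 (hinv j).2.1 (hinv j).2.2) ih
  obtain ⟨N, hN0, hNs⟩ : ∃ N : ℕ → ℕ, N 0 = 0 ∧ ∀ j, N (j + 1) = N j + k' (q j).1 (q j).2 :=
    ⟨fun j => Nat.rec 0 (fun j r => r + k' (q j).1 (q j).2) j, rfl, fun j => rfl⟩
  have hN : ∀ j, j ≤ N j := by
    intro j
    induction j with
    | zero => exact Nat.zero_le _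
    | succ j ih =>
      rw [hNs]
      have := hst1 _ _ (hinv j).1 (hinv j).2.1 (hinv j).2.2
      omega
  -- the pulled back segments
  have hpull := fun j => pull_iter hk hG (N j) (hinv j).1.2.1
  refine hLi M W E f g s t C₀ γ hB hG (fun j => f.symm^[N j] (q j).1)
    (fun j => iterD s.Di f.symm (N j) (q j).1 (q j).2) T (fun j => (hpull j).1) hT ?_ ?_
  · have hC2 : ∀ ρ ∈ Icc (0 : ℝ) 1, ∀ j,
        dist (γ (f.symm^[N (j + 1)] (q (j + 1)).1)
          (T (j + 1) ρ • iterD s.Di f.symm (N (j + 1)) (q (j + 1)).1 (q (j + 1)).2))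
          (γ (f.symm^[N j] (q j).1) (T j ρ • iterD s.Di f.symm (N j) (q j).1 (q j).2))
          ≤ C₂ * l ^ N j := by
      intro ρ hρ j
      rw [← (hpull (j + 1)).2.2, ← (hpull j).2.2]
      have h1 := hst6 _ _ (hinv j).1 (hinv j).2.1 (hinv j).2.2 (T j ρ) (tau_maps (hT j) hρ) (N j)
      rw [hNs, hTs, hqs]
      exact h1
    have hC0 : 0 ≤ C₂ := by
      have h1 := dist_nonneg.trans (hC2 0 ⟨le_rfl, zero_le_one⟩ 0)
      rw [hN0, pow_zero, mul_one] at h1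
      exact h1
    refine unifCauchy hl hl1 hC0 fun ρ hρ j => (hC2 ρ hρ j).trans ?_
    exact mul_le_mul_of_nonneg_left (pow_le_pow_of_le_one hl.le hl1.le (hN j)) hC0
  · obtain ⟨C', l', hC', hl', hl1', H⟩ := norm_iterD (t := t.swap) hB.hs
    have h1 : ∀ j, κ ≤ C' * l' ^ j * ‖iterD s.Di f.symm (N j) (q j).1 (q j).2‖ := by
      intro j
      have h2 := H (N j) _ _ (hpull j).1
      rw [(hpull j).2.1] at h2
      refine ((hinv j).2.1.trans h2).trans ?_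
      exact mul_le_mul_of_nonneg_right (mul_le_mul_of_nonneg_left
        (pow_le_pow_of_le_one hl'.le hl1'.le (hN j)) hC'.le) (norm_nonneg _)
    have h3 : Tendsto (fun j : ℕ => κ / C' * (l'⁻¹) ^ j) atTop atTop :=
      (tendsto_pow_atTop_atTop_of_one_lt (one_lt_inv₀ hl' |>.2 hl1')).const_mul_atTop
        (div_pos hκ hC')
    refine tendsto_atTop_mono (fun j => ?_) h3
    have h4 := h1 j
    have h5 : 0 < l' ^ j := by positivity
    rw [inv_pow, ← div_eq_mul_inv, div_div, div_le_iff₀ (by positivity)]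
    linarith

end Pool.Agent.Lib.MP610fe3.HR
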