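import Pool.Agent.Lib.MP_610fe3_an.HR.F1Spec
import Pool.Agent.Lib.MP_610fe3_an.TD.Mfd

/-!
# Module RCH (hive F1): bounded chains of small unstable links
-/

set_option autoImplicit false

open Set Filter Function Bundle
open scoped Topology Manifold ContDiff

namespace Pool.Agent.Lib.MP610fe3.HR

open Cf CH

universe u v

theorem specRch : SpecRch.{u, v} := by
  intro M W _ _ _ _ _ _ E f s hs
  obtain ⟨e, C, a, e₁, he₁, -, h0, -⟩ := TD.exists_base s hs
  refine ⟨e₁, he₁, fun r hr m => ?_⟩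
  obtain ⟨K, hK⟩ := h0 r hr m
  refine ⟨K, fun p q hq => ?_⟩
  obtain ⟨k, hk, c, hc0, hck, hc⟩ := hK p q (by rw [N3.Sp_eq_Wl]; exact hq)
  refine ⟨k, hk, c, ?_, ?_, fun i hi => ?_⟩
  · rw [hc0, TM.ev_nat]
  · rw [hck, TM.ev_nat]
  · have h := (hc i hi).2
    rw [N3.Sp_eq_Wl] at h
    exact h

end Pool.Agent.Lib.MP610fe3.HR
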