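import Pool.Agent.Lib.MP_610fe3_an.HR.SpecZ

/-!
# Module SCA: the scalars on an invariant coarse line bundle at a common fixed point
-/

set_option autoImplicit false

open Set Filter Function
open scoped Topology

namespace Pool.Agent.Lib.MP610fe3.HR

open Cf CH

universe u v w

namespace SCAAux

theorem ev_smul_left {k : ℕ} (c : ℝ) (χ : Fin k → ℝ) (N : Fin k → ℤ) :
    ev (c • χ) N = c * ev χ N := by
  simp only [ev, Finset.mul_sum]
  refine Finset.sum_congr rfl fun i _ => ?_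
  rw [Pi.smul_apply, smul_eq_mul, mul_assoc]

theorem ev_zero_right {k : ℕ} (χ : Fin k → ℝ) : ev χ 0 = 0 := by
  simp [ev]

section

variable {M W : Type*} [MetricSpace M] [NormedAddCommGroup W] [NormedSpace ℝ W]

/-- The derivative of the identity. -/
theorem hasD_id (E : Emb M W) (h : M → M) (hh : ∀ x, h x = x) : HasD E h E.P where
  cont := E.contP
  right := fun x => E.idem x
  left := fun x => by rw [hh]; exact E.idem x
  approx := fun η hη => by
    obtain ⟨r, hr, H⟩ := E.tangent η hη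
    refine ⟨r, hr, fun x z hz => ?_⟩
    rw [hh, hh]
    exact H x z hz

variable {k : ℕ} {J : Type*} {E : Emb M W} {A : (Fin k → ℤ) → M ≃ₜ M} {χ : J → Fin k → ℝ}
  {F : J → M → Submodule ℝ W}

theorem coarse_le_neg {i : J} {N : Fin k → ℤ} (h : ev (χ i) N < 0) (x : M) :
    coarse χ F i x ≤ ⨆ (j) (_ : ev (χ j) N < 0), F j x := by
  refine iSup₂_le fun l hl => ?_
  obtain ⟨c, hc, hcl⟩ := hl
  refine le_iSup₂_of_le l ?_ le_rfl
  rw [hcl, ev_smul_left]
  exact mul_neg_of_pos_of_neg hc h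

theorem coarse_le_pos {i : J} {N : Fin k → ℤ} (h : 0 < ev (χ i) N) (x : M) :
    coarse χ F i x ≤ ⨆ (j) (_ : 0 < ev (χ j) N), F j x := by
  refine iSup₂_le fun l hl => ?_
  obtain ⟨c, hc, hcl⟩ := hl
  refine le_iSup₂_of_le l ?_ le_rfl
  rw [hcl, ev_smul_left]
  exact mul_pos hc h

theorem S_fix {f : M ≃ₜ M} (s : Split E f) {x : M} {w : W} (h : w ∈ (s.S x).range) :
    s.S x w = w := by
  obtain ⟨v, rfl⟩ := h
  exact congrArg (fun L => L v) (s.SS x)

theorem U_fix {f : M ≃ₜ M} (s : Split E f) {x : M} {w : W} (h : w ∈ (s.U x).range) :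
    s.U x w = w := by
  obtain ⟨v, rfl⟩ := h
  exact congrArg (fun L => L v) (s.UU x)

theorem P_fix_S {f : M ≃ₜ M} (s : Split E f) {x : M} {w : W} (h : s.S x w = w) :
    E.P x w = w := by
  have h1 := congrArg (fun L => L w) (s.PS x)
  simp only [ContinuousLinearMap.comp_apply] at h1
  rwa [h] at h1

theorem P_fix_U {f : M ≃ₜ M} (s : Split E f) {x : M} {w : W} (h : s.U x w = w) :
    E.P x w = w := by
  have h1 := congrArg (fun L => L w) (s.PU x)
  simp only [ContinuousLinearMap.comp_apply] at h1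
  rwa [h] at h1

/-- The scalar of the derivative of `A N` at the fixed point `p` on the line of `w`. -/
def Sc (E : Emb M W) (A : (Fin k → ℤ) → M ≃ₜ M) (p : M) (w : W) (N : Fin k → ℤ) (c : ℝ) : Prop :=
  A N p = p ∧ ∃ D : M → W →L[ℝ] W, HasD E (A N) D ∧ D p w = c • w

theorem Sc.add [CompactSpace M] (hA : ∀ n n' x, A (n + n') x = A n (A n' x)) {p : M} {w : W}
    {N N' : Fin k → ℤ} {c c' : ℝ} (h : Sc E A p w N c) (h' : Sc E A p w N' c') :
    Sc E A p w (N + N') (c * c') := by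
  obtain ⟨hp, D, hD, hw⟩ := h
  obtain ⟨hp', D', hD', hw'⟩ := h'
  refine ⟨by rw [hA, hp', hp], fun x => D (A N' x) ∘L D' x, ?_, ?_⟩
  · have h1 := HasD.comp (A N').continuous hD' hD
    have h2 : (A (N + N') : M → M) = A N ∘ A N' := funext fun x => hA N N' x
    rw [h2]
    exact h1
  · rw [ContinuousLinearMap.comp_apply, hw', map_smul, hp', hw, smul_smul, mul_comm c c']

theorem Sc.nsmul [CompactSpace M] (hA : ∀ n n' x, A (n + n') x = A n (A n' x)) {p : M} {w : W}
    (hP : E.P p w = w) {N : Fin k → ℤ} {c : ℝ} (h : Sc E A p w N c) (m : ℕ) :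
    Sc E A p w ((m : ℤ) • N) (c ^ m) := by
  induction m with
  | zero =>
    have h0 : ∀ x, A ((((0 : ℕ) : ℤ)) • N) x = x := by
      intro x
      have h1 := hA 0 0 x
      rw [add_zero] at h1
      have h2 := (A 0).injective h1
      rw [Nat.cast_zero, zero_smul]
      exact h2.symm
    exact ⟨h0 p, E.P, hasD_id E _ h0, by rw [hP, pow_zero, one_smul]⟩
  | succ m ih =>
    have h1 := ih.add hA h
    have h2 : ((m : ℤ) • N + N) = (((m + 1 : ℕ) : ℤ)) • N := by
      push_cast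
      rw [add_smul, one_smul]
    rw [h2, ← pow_succ] at h1
    exact h1

theorem Sc.split {p : M} {w : W} {N : Fin k → ℤ} {c : ℝ} (h : Sc E A p w N c)
    (s : Split E (A N)) : s.D p w = c • w := by
  obtain ⟨-, D, hD, hw⟩ := h
  rw [s.hD.unique hD p, hw]

theorem iterD_fix {f : M → M} {D : M → W →L[ℝ] W} {p : M} {w : W} {c : ℝ} (hp : f p = p)
    (h : D p w = c • w) (m : ℕ) : iterD D f m p w = c ^ m • w := by
  induction m with
  | zero => simp [iterD]
  | succ m ih =>
    rw [show iterD D f (m + 1) p = iterD D f m (f p) ∘L D p from rfl,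
      ContinuousLinearMap.comp_apply, h, hp, map_smul, ih, smul_smul, pow_succ, mul_comm]

theorem abs_lt_one_of {c C l : ℝ} (hC : 0 < C) (hl : 0 < l) (hl1 : l < 1)
    (h : ∀ m : ℕ, |c| ^ m ≤ C * l ^ m) : |c| < 1 := by
  by_contra hcon
  push Not at hcon
  obtain ⟨m, hm⟩ := exists_pow_lt_of_lt_one (one_div_pos.2 hC) hl1
  have h1 := h m
  have h2 : (1 : ℝ) ≤ |c| ^ m := one_le_pow₀ hcon
  have h3 : C * l ^ m < 1 := by
    rw [lt_div_iff₀ hC] at hm
    linarith [mul_comm C (l ^ m)]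
  linarith

end

end SCAAux

open SCAAux in
theorem specSca : SpecSca.{u, v, w} := by
  intro M W _ _ _ _ _ E k J _ A χ F hAct n n' i p hn hn' hfr hp hp' hinv
  -- the line
  obtain ⟨w₀, hw₀ne, hspan⟩ := finrank_eq_one_iff'.1 hfr
  obtain ⟨w, hwL⟩ := w₀
  have hw0 : w ≠ 0 := fun h => hw₀ne (Subtype.ext h)
  have hline : ∀ v ∈ coarse χ F i p, ∃ c : ℝ, v = c • w := by
    intro v hv
    obtain ⟨c, hc⟩ := hspan ⟨v, hv⟩
    exact ⟨c, (congrArg Subtype.val hc).symm⟩
  have hwn : 0 < ‖w‖ := norm_pos_iff.2 hw0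
  -- splittings at regular elements
  have hneg : ∀ N : Fin k → ℤ, ev (χ i) N < 0 → ∀ s : Split E (A N),
      (∀ x, (s.S x).range = ⨆ (j) (_ : ev (χ j) N < 0), F j x) → s.S p w = w := by
    intro N hN s hs
    apply S_fix s
    rw [hs p]
    exact coarse_le_neg hN p hwL
  have hpos : ∀ N : Fin k → ℤ, 0 < ev (χ i) N → ∀ s : Split E (A N),
      (∀ x, (s.U x).range = ⨆ (j) (_ : 0 < ev (χ j) N), F j x) → s.U p w = w := by
    intro N hN s hs
    apply U_fix s
    rw [hs p]
    exact coarse_le_pos hN p hwL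
  -- `P p w = w`
  have hP : E.P p w = w := by
    obtain ⟨s, -, -, h1, h2⟩ := hAct.split n hn
    rcases lt_or_gt_of_ne (hn i) with h | h
    · exact P_fix_S s (hneg n h s h1)
    · exact P_fix_U s (hpos n h s h2)
  -- the scalars
  have hsc : ∀ N : Fin k → ℤ, Regular χ N → A N p = p → ∃ c : ℝ, c ≠ 0 ∧ Sc E A p w N c := by
    intro N hN hfix
    obtain ⟨s, -, -, -, -⟩ := hAct.split N hN
    obtain ⟨c, hc⟩ := hline _ (hinv N hfix s w hwL)
    refine ⟨c, ?_, hfix, s.D, s.hD, hc⟩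
    rintro rfl
    rw [zero_smul] at hc
    have h1 := congrArg (fun L => L w) (s.inv1 p)
    simp only [ContinuousLinearMap.comp_apply] at h1
    rw [hc, map_zero, hP] at h1
    exact hw0 h1.symm
  obtain ⟨a, ha0, ha⟩ := hsc n hn hp
  obtain ⟨b, hb0, hb⟩ := hsc n' hn' hp'
  -- the signs
  have hlt : ∀ (N : Fin k → ℤ) (c : ℝ), Regular χ N → Sc E A p w N c → c ≠ 0 →
      ev (χ i) N < 0 → |c| < 1 := by
    intro N c hN hc hc0 hev
    obtain ⟨s, ⟨C, l, hC, hl, hl1, hest⟩, -, h1, -⟩ := hAct.split N hN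
    refine abs_lt_one_of hC hl hl1 fun m => ?_
    have h2 := (hest m p w).1
    rw [hneg N hev s h1, iterD_fix hc.1 (hc.split s), norm_smul, norm_pow,
      Real.norm_eq_abs] at h2
    exact le_of_mul_le_mul_right h2 hwn
  have hgt : ∀ (N : Fin k → ℤ) (c : ℝ), Regular χ N → Sc E A p w N c → c ≠ 0 →
      0 < ev (χ i) N → 1 < |c| := by
    intro N c hN hc hc0 hev
    obtain ⟨s, ⟨C, l, hC, hl, hl1, hest⟩, -, -, h1⟩ := hAct.split N hN
    have hDi : s.Di p w = c⁻¹ • w := by
      have h2 := congrArg (fun L => L w) (s.inv1 p)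
      simp only [ContinuousLinearMap.comp_apply] at h2
      rw [hc.1, hc.split s, hP, map_smul] at h2
      rw [← h2, smul_smul, inv_mul_cancel₀ hc0, one_smul, h2]
    have hfix : (A N).symm p = p := by
      rw [Homeomorph.symm_apply_eq]
      exact hc.1.symm
    have h3 : |c⁻¹| < 1 := by
      refine abs_lt_one_of hC hl hl1 fun m => ?_
      have h2 := (hest m p w).2
      rw [hpos N hev s h1, iterD_fix hfix hDi, norm_smul, norm_pow, Real.norm_eq_abs] at h2
      exact le_of_mul_le_mul_right h2 hwn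
    rw [abs_inv] at h3
    have h4 : 0 < |c| := abs_pos.2 hc0
    by_contra hcon
    push Not at hcon
    have h5 := (one_le_inv₀ h4).2 hcon
    linarith
  have hlog : ∀ m m' : ℕ, (m : ℝ) * Real.log (a ^ 2) + m' * Real.log (b ^ 2)
      = Real.log ((a ^ m * b ^ m') ^ 2) := by
    intro m m'
    rw [Real.log_pow, Real.log_pow, Real.log_pow, Real.log_mul (pow_ne_zero _ ha0)
      (pow_ne_zero _ hb0), Real.log_pow, Real.log_pow]
    push_cast
    ring
  have hab : ∀ m m' : ℕ, Sc E A p w ((m : ℤ) • n + (m' : ℤ) • n') (a ^ m * b ^ m') := fun m m' =>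
    (ha.nsmul hAct.add hP m).add hAct.add (hb.nsmul hAct.add hP m')
  have hmul : ∀ (N : Fin k → ℤ) (c : ℝ), c ≠ 0 → Sc E A p w N c →
      ∀ s : Split E (A ((2 : ℤ) • N)), ∀ v ∈ coarse χ F i p,
        s.D p v = Real.exp (Real.log (c ^ 2)) • v := by
    intro N c hc0 hc s v hv
    obtain ⟨d, rfl⟩ := hline v hv
    have h1 : Sc E A p w ((2 : ℤ) • N) (c ^ 2) := by
      have := hc.nsmul hAct.add hP 2
      exact_mod_cast this
    rw [Real.exp_log (by positivity), map_smul, h1.split s, smul_comm]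
  refine ⟨Real.log (a ^ 2), Real.log (b ^ 2), hmul n a ha0 ha, hmul n' b hb0 hb, ?_⟩
  intro m m' hreg
  have hc0 : a ^ m * b ^ m' ≠ 0 := mul_ne_zero (pow_ne_zero _ ha0) (pow_ne_zero _ hb0)
  constructor
  · intro hev
    rw [hlog]
    have h1 := hlt _ _ hreg (hab m m') hc0 hev
    apply Real.log_neg
    · positivity
    · rw [← sq_abs]
      have h0 := abs_nonneg (a ^ m * b ^ m')
      nlinarith
  · intro hev
    rw [hlog]
    have h1 := hgt _ _ hreg (hab m m') hc0 hev
    apply Real.log_pos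
    rw [← sq_abs]
    nlinarith

end Pool.Agent.Lib.MP610fe3.HR
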