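import Pool.Agent.Lib.MP_610fe3_an.HR.F1Spec
import Pool.Agent.Lib.MP_610fe3_an.HR.SCA

/-!
# Contraction of the intersection of the stable bundles (hive F1, module RTC)
-/

set_option autoImplicit false

open Set Filter Function
open scoped Topology

namespace Pool.Agent.Lib.MP610fe3.HR

open Cf CH

universe u v w

namespace F1RTAux

variable {M W : Type*} [MetricSpace M] [NormedAddCommGroup W] [NormedSpace ℝ W] {E : Emb M W}

/-- The derivative of an iterate, also for the exponent zero. -/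
theorem hasD_iter [CompactSpace M] {f : M → M} {D : M → W →L[ℝ] W} (hf : Continuous f)
    (H : HasD E f D) (m : ℕ) : HasD E (f^[m]) (fun x => iterD D f m x ∘L E.P x) := by
  cases m with
  | zero =>
    have h : (fun x => iterD D f 0 x ∘L E.P x) = E.P := by
      funext x
      exact ContinuousLinearMap.id_comp _
    rw [h]
    exact SCAAux.hasD_id E _ fun x => rfl
  | succ m =>
    have h1 := HasD.iter hf H m
    have h : (fun x => iterD D f (m + 1) x ∘L E.P x) = iterD D f (m + 1) := by
      funext x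
      exact h1.right x
    rw [h]
    exact h1

/-- The derivatives of two equal products of iterates. -/
theorem iterD_eq [CompactSpace M] {f g h : M → M} {Df Dg Dh : M → W →L[ℝ] W}
    (hf : Continuous f) (hg : Continuous g) (hh : Continuous h) (Hf : HasD E f Df)
    (Hg : HasD E g Dg) (Hh : HasD E h Dh) {a b c : ℕ}
    (heq : ∀ x, f^[a] x = g^[b] (h^[c] x)) (x : M) (w : W) (hw : E.P x w = w) :
    iterD Df f a x w = iterD Dg g b (h^[c] x) (iterD Dh h c x w) := by
  have h1 := hasD_iter hf Hf a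
  have h2 := HasD.comp (hh.iterate c) (hasD_iter hh Hh c) (hasD_iter hg Hg b)
  have e : f^[a] = g^[b] ∘ h^[c] := funext heq
  rw [e] at h1
  have h3 := congrArg (fun L : W →L[ℝ] W => L w) (h1.unique h2 x)
  simp only [ContinuousLinearMap.comp_apply] at h3
  rw [hw] at h3
  have h4 := congrArg (fun L : W →L[ℝ] W => L w) ((hasD_iter hh Hh c).left x)
  simp only [ContinuousLinearMap.comp_apply] at h4
  rw [hw] at h4
  rw [h3, h4]

section act

variable {k : ℕ} {A : (Fin k → ℤ) → M ≃ₜ M}

theorem act_zero (hA : ∀ n n' x, A (n + n') x = A n (A n' x)) (x : M) : A 0 x = x := by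
  have h1 := hA 0 0 x
  rw [add_zero] at h1
  exact ((A 0).injective h1).symm

theorem act_iter (hA : ∀ n n' x, A (n + n') x = A n (A n' x)) (n : Fin k → ℤ) (m : ℕ) (x : M) :
    (A n)^[m] x = A ((m : ℤ) • n) x := by
  induction m with
  | zero => rw [Nat.cast_zero, zero_smul, act_zero hA]; rfl
  | succ m ih =>
    rw [iterate_succ_apply', ih, ← hA]
    congr 2
    push_cast
    rw [add_smul, one_smul, add_comm]

theorem act_symm (hA : ∀ n n' x, A (n + n') x = A n (A n' x)) (n : Fin k → ℤ) (x : M) :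
    (A n).symm x = A (-n) x := by
  rw [Homeomorph.symm_apply_eq, ← hA, add_neg_cancel, act_zero hA]

theorem act_iter_symm (hA : ∀ n n' x, A (n + n') x = A n (A n' x)) (n : Fin k → ℤ) (m : ℕ)
    (x : M) : (A n).symm^[m] x = A (-((m : ℤ) • n)) x := by
  have h1 : ((A n).symm : M → M) = A (-n) := funext (act_symm hA n)
  rw [h1, act_iter hA, smul_neg]

theorem act_comm (hA : ∀ n n' x, A (n + n') x = A n (A n' x)) (n n' : Fin k → ℤ) (x : M) :
    A n (A n' x) = A n' (A n x) := by
  rw [← hA, ← hA, add_comm]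

end act

theorem P_fix_PP {f g : M ≃ₜ M} (s : Split E f) (t : Split E g) {x : M} {w : W}
    (h : PP s t x w = w) : E.P x w = w := by
  have h1 := congrArg (fun L : W →L[ℝ] W => L (t.S x w)) (s.PS x)
  simp only [ContinuousLinearMap.comp_apply] at h1
  have h2 : s.S x (t.S x w) = w := h
  rwa [h2] at h1

theorem S_of_PP {f g : M ≃ₜ M} (s : Split E f) (t : Split E g) {x : M} {w : W}
    (h : PP s t x w = w) : s.S x w = w := by
  have h1 := congrArg (fun L : W →L[ℝ] W => L (t.S x w)) (s.SS x)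
  simp only [ContinuousLinearMap.comp_apply] at h1
  have h2 : s.S x (t.S x w) = w := h
  rwa [h2] at h1

theorem S_of_PP' [CompactSpace M] {f g : M ≃ₜ M} (s : Split E f) (t : Split E g)
    (hs : s.Hyperbolic) (ht : t.Hyperbolic) (hc : ∀ x, f (g x) = g (f x)) {x : M} {w : W}
    (h : PP s t x w = w) : t.S x w = w := by
  have h0 : PP t s x w = w := by
    have e := SS_commute s t hs ht hc x
    have e1 : PP t s x = PP s t x := by
      unfold PP
      rw [e]
    rw [e1]
    exact h
  exact S_of_PP t s h0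

end F1RTAux

open F1RTAux

theorem specRtc : SpecRtc.{u, v, w} := by
  intro M W _ _ _ _ _ E k J _ A χ F hAct n n' hn hn'
  obtain ⟨s₁, ⟨C, l₁, hC, hl₁, hl₁', hest₁⟩, -, hS₁, -⟩ := hAct.split n hn
  obtain ⟨t₁, ⟨C', l₂, hC', hl₂, hl₂', hest₂⟩, -, hT₁, -⟩ := hAct.split n' hn'
  have hs₁ : s₁.Hyperbolic := ⟨C, l₁, hC, hl₁, hl₁', hest₁⟩
  have hl : 0 < max l₁ l₂ := lt_max_of_lt_left hl₁
  refine ⟨C * C', max l₁ l₂, hl, max_lt hl₁' hl₂', ?_⟩
  intro p q hreg hsign s t hsS htS hs ht m x w hw
  have hcomm : ∀ a b x, A a (A b x) = A b (A a x) := act_comm hAct.add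
  have hP := P_fix_PP s t hw
  -- the vector is in both stable spaces
  have h1 : s₁.S x w = w := by
    apply SCAAux.S_fix
    rw [hS₁]
    have h2 : w ∈ (s.S x).range := ⟨w, S_of_PP s t hw⟩
    rw [hsS] at h2
    have e : (⨆ (a) (_ : ev (χ a) ((p : ℤ) • n + (q : ℤ) • n') < 0), F a x)
        = ⨆ (a) (_ : ev (χ a) n < 0), F a x := by
      refine iSup_congr fun a => ?_
      rw [iSup_congr_Prop (hsign a) fun _ => rfl]
    rwa [e] at h2
  have h2 : t₁.S x w = w := by
    apply SCAAux.S_fix
    rw [hT₁]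
    have h2 : w ∈ (t.S x).range := ⟨w, S_of_PP' s t hs ht (hcomm _ _) hw⟩
    rwa [htS] at h2
  -- the derivative
  have heq : ∀ x, (A ((p : ℤ) • n + (q : ℤ) • n'))^[m] x
      = (A n)^[m * p] ((A n')^[m * q] x) := by
    intro x
    rw [act_iter hAct.add, act_iter hAct.add, act_iter hAct.add, ← hAct.add]
    congr 2
    push_cast
    rw [smul_add, smul_smul, smul_smul]
  rw [iterD_eq (A _).continuous (A n).continuous (A n').continuous s.hD s₁.hD t₁.hD heq x w hP]
  have h3 := congrArg (fun L : W →L[ℝ] W => L w)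
    (iterDS_commutes t₁ s₁ hs₁ (hcomm n' n) (m * q) x)
  simp only [ContinuousLinearMap.comp_apply] at h3
  rw [h1] at h3
  have h4 := (hest₁ (m * p) ((A n')^[m * q] x) (iterD t₁.D (A n') (m * q) x w)).1
  rw [← h3] at h4
  have h5 := (hest₂ (m * q) x w).1
  rw [h2] at h5
  calc _ ≤ C * l₁ ^ (m * p) * (C' * l₂ ^ (m * q) * ‖w‖) :=
        h4.trans (mul_le_mul_of_nonneg_left h5 (by positivity))
    _ ≤ C * (max l₁ l₂) ^ (m * p) * (C' * (max l₁ l₂) ^ (m * q) * ‖w‖) := by
        gcongr
        · exact le_max_left _ _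
        · exact le_max_right _ _
    _ = C * C' * (max l₁ l₂ ^ (p + q)) ^ m * ‖w‖ := by
        rw [← pow_mul, show (p + q) * m = m * p + m * q by ring, pow_add]
        ring

end Pool.Agent.Lib.MP610fe3.HR
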