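import Pool.Agent.Lib.MP_610fe3_an.HR.F1RTC

/-!
# Growth on the coarse bundle in the past (hive F1, module RTX)
-/

set_option autoImplicit false

open Set Filter Function
open scoped Topology

namespace Pool.Agent.Lib.MP610fe3.HR

open Cf CH F1RTAux

universe u v w

namespace F1RTXAux

variable {M W : Type*} [MetricSpace M] [NormedAddCommGroup W] [NormedSpace ℝ W] {E : Emb M W}

omit [MetricSpace M] in
theorem iterD_bound {f : M → M} {D : M → W →L[ℝ] W} {K : ℝ} (hK0 : 0 ≤ K)
    (hK : ∀ x, ‖D x‖ ≤ K) (m : ℕ) : ∀ x w, ‖iterD D f m x w‖ ≤ K ^ m * ‖w‖ := by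
  induction m with
  | zero => intro x w; simp [iterD]
  | succ m ih =>
    intro x w
    rw [show iterD D f (m + 1) x = iterD D f m (f x) ∘L D x from rfl,
      ContinuousLinearMap.comp_apply]
    refine (ih _ _).trans ?_
    rw [pow_succ, mul_assoc]
    exact mul_le_mul_of_nonneg_left ((D x).le_of_opNorm_le (hK x) w) (pow_nonneg hK0 m)

end F1RTXAux

open F1RTXAux

theorem specRtx : SpecRtx.{u, v, w} := by
  intro M W _ _ _ _ _ E k J _ A χ F hAct n n' i j hwal
  obtain ⟨s₁, hs₁, -, -, -⟩ := hAct.split n hwal.reg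
  obtain ⟨K, hK1, hK⟩ := exists_norm_bound s₁.hDi.cont
  have hcomm : ∀ a b x, A a (A b x) = A b (A a x) := act_comm hAct.add
  refine ⟨K ^ 2, one_le_pow₀ hK1, ?_⟩
  intro n'' s t hs ht hcoarse _ hreg hneg
  obtain ⟨r, ⟨C, l, hC, hl, hl', hest⟩, -, hR, -⟩ := hAct.split ((2 : ℤ) • n - n'') hreg
  refine ⟨C, ?_⟩
  intro m x w hw
  have hP := P_fix_PP s t.swap hw
  -- the derivative
  have heq : ∀ x, (A n'').symm^[m] x
      = (A ((2 : ℤ) • n - n''))^[m] ((A n).symm^[2 * m] x) := by
    intro x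
    rw [act_iter_symm hAct.add, act_iter_symm hAct.add, act_iter hAct.add, ← hAct.add]
    congr 2
    push_cast
    rw [smul_sub, smul_smul, mul_comm (m : ℤ) 2]
    abel
  rw [iterD_eq (A n'').symm.continuous (A _).continuous (A n).symm.continuous s.hDi r.hD
    s₁.hDi heq x w hP]
  set y := (A n).symm^[2 * m] x with hy
  set v := iterD s₁.Di (A n).symm (2 * m) x w with hv
  -- the coarse bundle is invariant
  have hv1 : s.S y v = v := by
    have h3 := congrArg (fun L : W →L[ℝ] W => L w)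
      (iterDiS_commutes s₁ s hs (hcomm n n'') (2 * m) x)
    simp only [ContinuousLinearMap.comp_apply] at h3
    rw [S_of_PP s t.swap hw] at h3
    exact h3.symm
  have hc' : ∀ x, A n'' ((A n').symm x) = (A n').symm (A n'' x) := by
    intro x
    rw [act_symm hAct.add, act_symm hAct.add]
    exact hcomm _ _ x
  have hc'' : ∀ x, A n ((A n').symm x) = (A n').symm (A n x) := by
    intro x
    rw [act_symm hAct.add, act_symm hAct.add]
    exact hcomm _ _ x
  have hv2 : t.swap.S y v = v := by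
    have h3 := congrArg (fun L : W →L[ℝ] W => L w)
      (iterDiS_commutes s₁ t.swap ht.swap hc'' (2 * m) x)
    simp only [ContinuousLinearMap.comp_apply] at h3
    rw [S_of_PP' s t.swap hs ht.swap hc' hw] at h3
    exact h3.symm
  have hv3 : v ∈ (PP s t.swap y).range := by
    refine ⟨v, ?_⟩
    show s.S y (t.swap.S y v) = v
    rw [hv2, hv1]
  rw [hcoarse] at hv3
  have hv4 : r.S y v = v := by
    apply SCAAux.S_fix
    rw [hR]
    exact SCAAux.coarse_le_neg hneg y hv3
  have h4 := (hest m y v).1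
  rw [hv4] at h4
  have h5 : ‖v‖ ≤ K ^ (2 * m) * ‖w‖ := iterD_bound (by linarith) hK (2 * m) x w
  have h6 : l ^ m ≤ 1 := pow_le_one₀ hl.le hl'.le
  calc _ ≤ C * l ^ m * ‖v‖ := h4
    _ ≤ C * 1 * (K ^ (2 * m) * ‖w‖) := by
        have hK0 : 0 ≤ K := by linarith
        gcongr
    _ = C * (K ^ 2) ^ m * ‖w‖ := by
        rw [← pow_mul]
        ring

end Pool.Agent.Lib.MP610fe3.HR
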