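import Pool.Agent.Lib.MP_610fe3_an.HR.F1Spec
import Pool.Agent.Lib.MP_610fe3_an.HR.REP
import Pool.Agent.Lib.MP_610fe3_an.Cf.H1Wl

/-!
# STAGE: one stage of the argument for free segments (MP_610fe3_an, hive F1)
-/

set_option autoImplicit false

open Set Filter Function
open scoped Topology

namespace Pool.Agent.Lib.MP610fe3.HR

open Cf CH

universe u v

namespace F1STAGEAux

theorem tau_id : Tau (fun ρ : ℝ => ρ) where
  cont := continuousOn_id
  mono := fun _ _ _ _ h => h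
  zero := rfl
  one := rfl

theorem tau_mem {τ : ℝ → ℝ} (h : Tau τ) {ρ : ℝ} (hρ : ρ ∈ Icc (0 : ℝ) 1) :
    τ ρ ∈ Icc (0 : ℝ) 1 := by
  constructor
  · have := h.mono.monotoneOn (left_mem_Icc.2 zero_le_one) hρ hρ.1
    rwa [h.zero] at this
  · have := h.mono.monotoneOn hρ (right_mem_Icc.2 zero_le_one) hρ.2
    rwa [h.one] at this

theorem tau_surj {τ : ℝ → ℝ} (h : Tau τ) {ρ : ℝ} (hρ : ρ ∈ Icc (0 : ℝ) 1) :
    ∃ σ ∈ Icc (0 : ℝ) 1, τ σ = ρ := by
  have h1 := intermediate_value_Icc (zero_le_one : (0 : ℝ) ≤ 1) h.cont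
  rw [h.zero, h.one] at h1
  exact h1 hρ

theorem tau_comp {τ σ : ℝ → ℝ} (hτ : Tau τ) (hσ : Tau σ) : Tau (fun ρ => τ (σ ρ)) where
  cont := hτ.cont.comp hσ.cont fun _ hρ => tau_mem hσ hρ
  mono := fun _ hx _ hy hxy => hτ.mono (tau_mem hσ hx) (tau_mem hσ hy) (hσ.mono hx hy hxy)
  zero := by rw [hσ.zero, hτ.zero]
  one := by rw [hσ.one, hτ.one]

variable {M W : Type*} [MetricSpace M] [NormedAddCommGroup W] [NormedSpace ℝ W]
  {E : Emb M W} {f g : M ≃ₜ M}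

theorem fa_of_wl {ε C l : ℝ} (h : Dec f ε C l) {x z : M} (hz : z ∈ Wl f ε x) :
    FwdAsymp f x z := by
  have t : Tendsto (fun n : ℕ => C * l ^ n * dist z x) atTop (𝓝 0) := by
    have := ((tendsto_pow_atTop_nhds_zero_of_lt_one h.l_pos.le h.l_lt).const_mul C).mul_const
      (dist z x)
    rwa [mul_zero, zero_mul] at this
  exact squeeze_zero (fun _ => dist_nonneg) (fun n => by rw [dist_comm]; exact h.dec x z hz n) t

theorem fa_symm {a : M → M} {x z : M} (h : FwdAsymp a x z) : FwdAsymp a z x := by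
  have h1 : (fun k : ℕ => dist (a^[k] z) (a^[k] x)) = fun k : ℕ => dist (a^[k] x) (a^[k] z) :=
    funext fun k => dist_comm _ _
  rw [FwdAsymp, h1]
  exact h

theorem iter_mem {A : Set M} (h : f '' A = A) (n : ℕ) {x : M} : f^[n] x ∈ A ↔ x ∈ A := by
  induction n generalizing x with
  | zero => exact Iff.rfl
  | succ n ih =>
    rw [iterate_succ_apply, ih]
    constructor
    · intro h1
      rw [← h] at h1
      obtain ⟨y, hy, he⟩ := h1
      rwa [← f.injective he]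
    · intro h1
      rw [← h]
      exact ⟨x, h1, rfl⟩

theorem fre_ne {s : Split E f} {t : Split E g} {γ : M → W → M} {A : Set M} {a : M} {u : W}
    (hG : Gam s t γ) (h : Fre s t γ A a u) : u ≠ 0 := by
  intro h0
  have h1 := h.2.2 1 (right_mem_Ioc.2 one_pos)
  rw [h0, smul_zero, hG.zero] at h1
  exact h1 h.1

/-- a segment whose points are joined by small unstable links to the points of a free segment -/
theorem fre_move {s : Split E f} {t : Split E g} {γ : M → W → M} {A : Set M} {a a' : M}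
    {u u' : W} {ε C l : ℝ} {τ : ℝ → ℝ} (hd : Dec f.symm ε C l) (hA : Sat f.symm A)
    (hG : Gam s t γ) (h : Fre s t γ A a u) (hτ : Tau τ) (hu' : PP s t a' u' = u')
    (hw : ∀ ρ ∈ Icc (0 : ℝ) 1, γ a' (τ ρ • u') ∈ Wl f.symm ε (γ a (ρ • u))) :
    Fre s t γ A a' u' := by
  refine ⟨?_, hu', fun ρ' hρ' hmem => ?_⟩
  · have h1 := hw 0 (left_mem_Icc.2 zero_le_one)
    rw [hτ.zero, zero_smul, zero_smul, hG.zero, hG.zero] at h1
    exact hA _ h.1 _ (fa_of_wl hd h1)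
  · obtain ⟨ρ, hρ, e⟩ := tau_surj hτ ⟨hρ'.1.le, hρ'.2⟩
    have hρ0 : 0 < ρ := by
      rcases hρ.1.eq_or_lt with h1 | h1
      · rw [← h1, hτ.zero] at e
        rw [← e] at hρ'
        exact absurd hρ'.1 (lt_irrefl _)
      · exact h1
    have h1 := hw ρ hρ
    rw [e] at h1
    exact h.2.2 ρ ⟨hρ0, hρ.2⟩ (hA _ hmem _ (F1STAGEAux.fa_symm (fa_of_wl hd h1)))

end F1STAGEAux

open F1STAGEAux

theorem specStage (hC : SpecCoc.{u, v}) (hSt : SpecStep.{u, v}) (hU : SpecUni.{u, v})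
    (hD : SpecDbl.{u}) : SpecStage.{u, v} := by
  intro M W _ _ _ _ _ E f g s t C₀ ε C l e γ A hB hP hG hCU hGA he hR
  obtain ⟨k, hk⟩ := hC M W E f g.symm s t.swap C₀ hB
  have hK1 := k.one_le
  have hK0 : 0 < k.K := by linarith
  obtain ⟨κ, hκ⟩ : ∃ κ : ℝ, κ = 1 / (2 * k.K) := ⟨_, rfl⟩
  have hκ0 : 0 < κ := by rw [hκ]; positivity
  have hκ1 : κ ≤ 1 := by
    rw [hκ, div_le_one (by positivity)]
    linarith
  have hε := hP.one.decu.ε_pos
  have hCp : 0 ≤ C := by linarith [hP.one.decu.one_le]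
  have hl0 := hP.one.decu.l_pos
  obtain ⟨δ, hδ, hstep⟩ := hSt M W E f g s t C₀ ε C l γ hB hP hG hCU 3 ε (by norm_num) hε
  obtain ⟨K, huni⟩ := hU M W E f g s t C₀ ε C l e γ A hB hP hG hGA he hR κ δ hκ0 hδ
  refine ⟨κ, K * (C * ε), hκ0, hκ1, fun a u hF hu1 hu2 => ?_⟩
  obtain ⟨j, hjK, c, hc0, hc, hcA⟩ := huni a u hF hu1 hu2
  -- the induction along the chain
  have hmain : ∀ i ≤ j,
      (∃ (a' : M) (u' : W) (σ : ℝ → ℝ), Fre s t.swap γ A a' u' ∧ ‖u'‖ ≤ 2 ∧ Tau σ ∧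
        γ a' (σ (1 / 2) • u') = c i ∧ ∀ ρ ∈ Icc (0 : ℝ) 1, ∀ n : ℕ,
          dist (f.symm^[n] (γ a' (σ ρ • u'))) (f.symm^[n] (γ a (ρ • u))) ≤
            i * (C * ε) * l ^ n) ∨
      (∃ (a' : M) (u' : W) (σ : ℝ → ℝ), Fre s t.swap γ A a' u' ∧ 2 < ‖u'‖ ∧ Tau σ ∧
        ∀ ρ ∈ Icc (0 : ℝ) 1, ∀ n : ℕ,
          dist (f.symm^[n] (γ a' (σ ρ • u'))) (f.symm^[n] (γ a (ρ • u))) ≤
            K * (C * ε) * l ^ n) := by
    intro i
    induction i with
    | zero =>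
      intro _
      left
      refine ⟨a, u, fun ρ => ρ, hF, by linarith, tau_id, hc0.symm, fun ρ _ n => ?_⟩
      rw [dist_self]
      simp
    | succ i ih =>
      intro hi
      rcases ih (by omega) with ⟨a₁, u₁, σ, hF₁, hn₁, hσ, hcσ, hdist⟩ | h
      · have hne := fre_ne hG hF₁
        have hhalf : σ (1 / 2) ∈ Icc (0 : ℝ) 1 := tau_mem hσ ⟨by norm_num, by norm_num⟩
        have hci := hc i (by omega)
        rw [← hcσ] at hci
        obtain ⟨a', u', τ, hu', hn', hτ, hcτ, hw⟩ :=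
          hstep a₁ u₁ (σ (1 / 2)) (c (i + 1)) hF₁.2.1 hne (by linarith) hhalf hci
        have hF' : Fre s t.swap γ A a' u' :=
          fre_move hP.one.decu hGA.sat hG hF₁ hτ hu' hw
        have hdist' : ∀ ρ ∈ Icc (0 : ℝ) 1, ∀ n : ℕ,
            dist (f.symm^[n] (γ a' (τ (σ ρ) • u'))) (f.symm^[n] (γ a (ρ • u))) ≤
              ((i : ℝ) + 1) * (C * ε) * l ^ n := by
          intro ρ hρ n
          have h1 := hw (σ ρ) (tau_mem hσ hρ)
          have h2 := hP.one.decu.dec _ _ h1 n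
          have h3 : dist (γ a' (τ (σ ρ) • u')) (γ a₁ (σ ρ • u₁)) ≤ ε := h1 0
          have h4 := hdist ρ hρ n
          have h5 := dist_triangle (f.symm^[n] (γ a' (τ (σ ρ) • u')))
            (f.symm^[n] (γ a₁ (σ ρ • u₁))) (f.symm^[n] (γ a (ρ • u)))
          have h6 : C * l ^ n * dist (γ a' (τ (σ ρ) • u')) (γ a₁ (σ ρ • u₁)) ≤
              C * l ^ n * ε := mul_le_mul_of_nonneg_left h3 (by positivity)
          have h7 : ((i : ℝ) + 1) * (C * ε) * l ^ n = i * (C * ε) * l ^ n + C * l ^ n * ε := by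
            ring
          linarith
        rcases le_or_gt ‖u'‖ 2 with hn | hn
        · left
          refine ⟨a', u', fun ρ => τ (σ ρ), hF', hn, tau_comp hτ hσ, hcτ, fun ρ hρ n => ?_⟩
          have := hdist' ρ hρ n
          push_cast
          exact this
        · right
          refine ⟨a', u', fun ρ => τ (σ ρ), hF', hn, tau_comp hτ hσ, fun ρ hρ n => ?_⟩
          refine (hdist' ρ hρ n).trans ?_
          have hiK : (i : ℝ) + 1 ≤ K := by
            have : i + 1 ≤ K := hi.trans hjK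
            exact_mod_cast this
          have h8 : 0 ≤ C * ε := by positivity
          have h9 : 0 ≤ l ^ n := by positivity
          exact mul_le_mul_of_nonneg_right (mul_le_mul_of_nonneg_right hiK h8) h9
      · exact Or.inr h
  -- the norm exceeds `2`
  have hstop : ∃ (a' : M) (u' : W) (σ : ℝ → ℝ), Fre s t.swap γ A a' u' ∧ 2 < ‖u'‖ ∧ Tau σ ∧
        ∀ ρ ∈ Icc (0 : ℝ) 1, ∀ n : ℕ,
          dist (f.symm^[n] (γ a' (σ ρ • u'))) (f.symm^[n] (γ a (ρ • u))) ≤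
            K * (C * ε) * l ^ n := by
    rcases hmain j le_rfl with ⟨a₁, u₁, σ, hF₁, hn₁, hσ, hcσ, -⟩ | h
    · exfalso
      have hv : PP s t.swap a₁ (σ (1 / 2) • u₁) = σ (1 / 2) • u₁ := by
        rw [map_smul, hF₁.2.1]
      have h1 := hG.dbl _ _ hv
      rw [hcσ] at h1
      have hcomm : ∀ x, f (g.symm x) = g.symm (f x) := hP.symm_right.comm
      obtain ⟨-, -, -, -, hfa, -⟩ := hD M f g.symm hcomm
      exact hcA a₁ hF₁.1 (F1STAGEAux.fa_symm (hfa _ _ h1))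
    · exact h
  obtain ⟨a₁, u₁, σ, hF₁, hn₁, hσ, hdist⟩ := hstop
  -- apply `f^m`
  have hS : s.S a₁ u₁ = u₁ := by
    conv_lhs => rw [← hF₁.2.1]
    conv_rhs => rw [← hF₁.2.1]
    exact congrArg (fun L : W →L[ℝ] W => L (t.swap.S a₁ u₁)) (s.SS a₁)
  have hex : ∃ m : ℕ, ‖k.A m a₁ u₁‖ ≤ 1 := by
    obtain ⟨C', l', hC', hl', hl1', hhyp⟩ := hB.hs
    have ht : Tendsto (fun n : ℕ => C' * l' ^ n * ‖u₁‖) atTop (𝓝 (C' * 0 * ‖u₁‖)) :=
      ((tendsto_pow_atTop_nhds_zero_of_lt_one hl'.le hl1').const_mul C').mul_const _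
    rw [mul_zero, zero_mul] at ht
    obtain ⟨m, hm⟩ := (ht.eventually (gt_mem_nhds one_pos)).exists
    refine ⟨m, ?_⟩
    have h1 := (hhyp m a₁ u₁).1
    rw [hS] at h1
    rw [Coc.A, hk.D]
    exact h1.trans hm.le
  classical
  obtain ⟨m, hm1, hm2⟩ : ∃ m : ℕ, ‖k.A (m + 1) a₁ u₁‖ ≤ 1 ∧ 1 < ‖k.A m a₁ u₁‖ := by
    have h1 := Nat.find_spec hex
    have h2 : Nat.find hex ≠ 0 := by
      intro h0
      rw [h0] at h1
      have h3 : k.A 0 a₁ u₁ = u₁ := rfl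
      rw [h3] at h1
      linarith
    obtain ⟨m, hm⟩ := Nat.exists_eq_succ_of_ne_zero h2
    refine ⟨m, ?_, ?_⟩
    · rw [hm] at h1
      exact h1
    · have := Nat.find_min hex (m := m) (by omega)
      exact lt_of_not_ge this
  obtain ⟨p1, p2⟩ := REPAux.gam_iter hk hG hF₁.2.1 (m + 1)
  obtain ⟨p3, -⟩ := REPAux.gam_iter hk hG hF₁.2.1 m
  refine ⟨f^[m + 1] a₁, k.A (m + 1) a₁ u₁, σ, m + 1, Nat.succ_pos m, ⟨?_, p1, ?_⟩, ?_, hm1, hσ, ?_⟩
  · exact (iter_mem hGA.inv (m + 1)).2 hF₁.1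
  · intro ρ hρ hmem
    have hv : PP s t.swap a₁ (ρ • u₁) = ρ • u₁ := by rw [map_smul, hF₁.2.1]
    have h1 := (REPAux.gam_iter hk hG hv (m + 1)).2
    rw [map_smul] at h1
    rw [← h1] at hmem
    exact hF₁.2.2 ρ hρ ((iter_mem hGA.inv (m + 1)).1 hmem)
  · -- the norm is at least `κ`
    have h1 : k.A (m + 1) a₁ u₁ = k.D (f^[m] a₁) (k.A m a₁ u₁) := by rw [k.A_succ]
    have h2 := k.inv1 (f^[m] a₁) (k.A m a₁ u₁)
    rw [hk.S, p3, ← h1] at h2
    have h3 := k.Di_le (f (f^[m] a₁)) (k.A (m + 1) a₁ u₁)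
    rw [h2] at h3
    rw [hκ, div_le_iff₀ (by positivity)]
    nlinarith
  · intro ρ hρ n
    have hv : PP s t.swap a₁ (σ ρ • u₁) = σ ρ • u₁ := by rw [map_smul, hF₁.2.1]
    have h1 := (REPAux.gam_iter hk hG hv (m + 1)).2
    rw [map_smul] at h1
    rw [← h1, iterate_add_apply, H1.symm_iter_iter]
    exact hdist ρ hρ n

end Pool.Agent.Lib.MP610fe3.HR
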