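import Pool.Agent.Lib.MP_610fe3_an.HR.F1Spec
import Pool.Agent.Lib.MP_610fe3_an.HR.REP

/-!
# F1STEP: carry a segment of a leaf `X` along an unstable link
-/

set_option autoImplicit false

open Set Filter Function
open scoped Topology

namespace Pool.Agent.Lib.MP610fe3.HR

open Cf CH

universe u v

namespace F1STEPAux

section Wl

variable {M : Type*} [MetricSpace M] {f : M ≃ₜ M} {ε ε' : ℝ} {x y z : M}

theorem wl_mono (h : ε ≤ ε') (hy : y ∈ Wl f ε x) : y ∈ Wl f ε' x := fun k => (hy k).trans h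

theorem wl_symm (hy : y ∈ Wl f ε x) : x ∈ Wl f ε y := fun k => by
  rw [dist_comm]; exact hy k

theorem wl_trans (hy : y ∈ Wl f ε x) (hz : z ∈ Wl f ε' y) : z ∈ Wl f (ε + ε') x := fun k => by
  rw [add_comm]
  exact (dist_triangle _ (f^[k] y) _).trans (add_le_add (hz k) (hy k))

theorem wl_dist (hy : y ∈ Wl f ε x) : dist y x ≤ ε := hy 0

theorem isClosed_wl {X : Type*} [TopologicalSpace X] (f : M ≃ₜ M) (η : ℝ) {x y : X → M}
    (hx : Continuous x) (hy : Continuous y) : IsClosed {p | y p ∈ Wl f η (x p)} := by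
  have h1 : {p | y p ∈ Wl f η (x p)} = ⋂ k : ℕ, {p | dist (f^[k] (y p)) (f^[k] (x p)) ≤ η} := by
    ext p
    simp only [mem_ofPred_eq, mem_iInter]
    rfl
  rw [h1]
  exact isClosed_iInter fun k => isClosed_le
    (((f.continuous.iterate k).comp hy).dist ((f.continuous.iterate k).comp hx))
    continuous_const

end Wl

variable {M W : Type*} [MetricSpace M] [NormedAddCommGroup W] [NormedSpace ℝ W]
  {E : Emb M W} {f h : M ≃ₜ M} {s : Split E f} {t : Split E h} {γ : M → W → M}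

theorem cont_gam (hG : Gam s t γ) {X : Type*} [TopologicalSpace X] {x : X → M} {w : X → W}
    (hx : Continuous x) (hw : Continuous w) : Continuous fun p => γ (x p) (PP s t (x p) (w p)) :=
  hG.cont.comp (hx.prodMk hw)

/-- The argument at the small scale. -/
theorem small [FiniteDimensional ℝ W] (hG : Gam s t γ)
    (hrank : ∀ x, Module.finrank ℝ (PP s t x).range = 1)
    (hsy : ∀ x y, Dbl f h x y → Dbl f h y x)
    (htr : ∀ x y z, Dbl f h x y → Dbl f h y z → Dbl f h x z)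
    {ε e₁ e₂ η η₁ δb : ℝ} (hexp : ExpConst f ε)
    (huniq : ∀ x y z z', z ∈ Wl f ε x → z ∈ Wl f.symm ε y → z' ∈ Wl f ε x →
      z' ∈ Wl f.symm ε y → z = z')
    (hCU : ∀ a z z' q, z ∈ Lf f h e₁ a → z' ∈ Wl f.symm e₁ z → q ∈ Wl f.symm e₁ a →
      q ∈ Wl f e₁ z' → Dbl f h q z')
    (hpr : ∀ x w, PP s t x w = w → γ x w ∈ Wl f e₂ x → ‖w‖ ≤ 1)
    (hbr : ∀ x y, dist x y < δb → ∃ z, z ∈ Wl f η x ∧ z ∈ Wl f.symm η y)
    (hη₁ : 0 < η₁) (h1η : 2 * η₁ ≤ η) (h1b : 3 * η₁ < δb) (h2ε : 2 * η ≤ ε) (h2e₁ : 2 * η ≤ e₁)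
    (h2e₂ : 2 * η ≤ e₂) {a : M} {u : W} (hu : PP s t a u = u) (hu0 : u ≠ 0)
    (hsm : ∀ ρ ∈ Icc (0 : ℝ) 1, γ a (ρ • u) ∈ Wl f η₁ a) {r : ℝ} (hr : r ∈ Icc (0 : ℝ) 1)
    {m : M} (hm : m ∈ Wl f.symm η₁ (γ a (r • u))) :
    ∃ (q : ℝ → M) (v : W) (τ : ℝ → ℝ), Tau τ ∧ PP s t (q 0) v = v ∧ ‖v‖ ≤ 1 ∧ q r = m ∧
      ∀ ρ ∈ Icc (0 : ℝ) 1, q ρ ∈ Wl f.symm η (γ a (ρ • u)) ∧ q ρ ∈ Wl f η m ∧
        γ (q 0) (τ ρ • v) = q ρ := by
  have hηpos : 0 < η := by linarith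
  have h01 : (0 : ℝ) ∈ Icc (0 : ℝ) 1 := ⟨le_rfl, zero_le_one⟩
  have h11 : (1 : ℝ) ∈ Icc (0 : ℝ) 1 := ⟨zero_le_one, le_rfl⟩
  have hu' : ∀ ρ : ℝ, PP s t a (ρ • u) = ρ • u := fun ρ => by rw [map_smul, hu]
  -- distances
  have hzz : ∀ ρ ∈ Icc (0 : ℝ) 1, ∀ ρ' ∈ Icc (0 : ℝ) 1,
      γ a (ρ • u) ∈ Wl f (2 * η₁) (γ a (ρ' • u)) := by
    intro ρ hρ ρ' hρ'
    rw [two_mul]
    exact wl_trans (wl_symm (hsm ρ' hρ')) (hsm ρ hρ)
  have hq : ∀ ρ : ℝ, ∃ q, ρ ∈ Icc (0 : ℝ) 1 → q ∈ Wl f.symm η (γ a (ρ • u)) ∧ q ∈ Wl f η m := by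
    intro ρ
    by_cases hρ : ρ ∈ Icc (0 : ℝ) 1
    · have h1 : dist m (γ a (ρ • u)) < δb := by
        have h2 := dist_triangle m (γ a (r • u)) (γ a (ρ • u))
        have h3 := wl_dist hm
        have h4 := wl_dist (hzz r hr ρ hρ)
        linarith
      obtain ⟨q, hq1, hq2⟩ := hbr m (γ a (ρ • u)) h1
      exact ⟨q, fun _ => ⟨hq2, hq1⟩⟩
    · exact ⟨m, fun h => absurd h hρ⟩
  choose q hq using hq
  have hqr : q r = m := by
    refine huniq m (γ a (r • u)) (q r) m (wl_mono (by linarith) (hq r hr).2)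
      (wl_mono (by linarith) (hq r hr).1) (fun k => ?_) (wl_mono (by linarith) hm)
    rw [dist_self]
    linarith
  -- all the points are in one leaf
  have hdm : ∀ ρ ∈ Icc (0 : ℝ) 1, Dbl f h (q ρ) m := by
    intro ρ hρ
    refine hCU (γ a (ρ • u)) (γ a (r • u)) m (q ρ) ⟨wl_mono (by linarith) (hzz r hr ρ hρ), ?_⟩
      (wl_mono (by linarith) hm) (wl_mono (by linarith) (hq ρ hρ).1)
      (wl_mono (by linarith) (hq ρ hρ).2)
    exact htr _ _ _ (hsy _ _ (hG.dbl a _ (hu' ρ))) (hG.dbl a _ (hu' r))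
  have hv : ∀ ρ : ℝ, ∃ w, ρ ∈ Icc (0 : ℝ) 1 → PP s t (q 0) w = w ∧ γ (q 0) w = q ρ := by
    intro ρ
    by_cases hρ : ρ ∈ Icc (0 : ℝ) 1
    · obtain ⟨w, hw⟩ := hG.surj (q 0) (q ρ) (htr _ _ _ (hdm 0 h01) (hsy _ _ (hdm ρ hρ)))
      exact ⟨w, fun _ => hw⟩
    · exact ⟨0, fun h => absurd h hρ⟩
  choose v hv using hv
  have hqq : ∀ ρ ∈ Icc (0 : ℝ) 1, q ρ ∈ Wl f e₂ (q 0) := by
    intro ρ hρ
    refine wl_mono h2e₂ ?_
    rw [two_mul]
    exact wl_trans (wl_symm (hq 0 h01).2) (hq ρ hρ).2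
  have hv1 : ∀ ρ ∈ Icc (0 : ℝ) 1, ‖v ρ‖ ≤ 1 := by
    intro ρ hρ
    apply hpr (q 0) (v ρ) (hv ρ hρ).1
    rw [(hv ρ hρ).2]
    exact hqq ρ hρ
  have hv0 : v 0 = 0 := by
    apply hG.inj (q 0) _ _ (hv 0 h01).1 (map_zero _)
    rw [(hv 0 h01).2, hG.zero]
  -- injectivity
  have hvinj : ∀ ρ ∈ Icc (0 : ℝ) 1, ∀ ρ' ∈ Icc (0 : ℝ) 1, v ρ = v ρ' → ρ = ρ' := by
    intro ρ hρ ρ' hρ' hvv
    have h1 : q ρ = q ρ' := by rw [← (hv ρ hρ).2, ← (hv ρ' hρ').2, hvv]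
    have h2 : γ a (ρ • u) = γ a (ρ' • u) := by
      apply hexp
      · exact wl_mono (by linarith) (hzz ρ hρ ρ' hρ')
      · have h3 := (hq ρ hρ).1
        rw [h1] at h3
        have h4 := wl_trans (hq ρ' hρ').1 (wl_symm h3)
        exact wl_mono (by linarith) h4
    exact smul_left_injective ℝ hu0 (hG.inj a _ _ (hu' ρ) (hu' ρ') h2)
  -- continuity
  have : ProperSpace W := FiniteDimensional.proper_real W
  have hvc : ContinuousOn v (Icc 0 1) := by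
    refine REPAux.contOn_of_graph (K := Metric.closedBall (0 : W) 1)
      (isCompact_closedBall (0 : W) 1)
      (G := {p : ℝ × W | PP s t (q 0) p.2 = p.2} ∩
        ({p : ℝ × W | γ (q 0) (PP s t (q 0) p.2) ∈ Wl f.symm η (γ a (PP s t a (p.1 • u)))} ∩
        {p : ℝ × W | γ (q 0) (PP s t (q 0) p.2) ∈ Wl f η m})) ?_ ?_ ?_
    · refine IsClosed.inter ?_ (IsClosed.inter ?_ ?_)
      · exact isClosed_eq ((PP s t (q 0)).continuous.comp continuous_snd) continuous_snd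
      · exact isClosed_wl f.symm η
          (cont_gam hG continuous_const (continuous_fst.smul continuous_const))
          (cont_gam hG continuous_const continuous_snd)
      · exact isClosed_wl f η continuous_const (cont_gam hG continuous_const continuous_snd)
    · intro ρ hρ
      refine ⟨mem_closedBall_zero_iff.2 (hv1 ρ hρ), (hv ρ hρ).1, ?_, ?_⟩
      · show γ (q 0) (PP s t (q 0) (v ρ)) ∈ Wl f.symm η (γ a (PP s t a (ρ • u)))
        rw [(hv ρ hρ).1, (hv ρ hρ).2, hu' ρ]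
        exact (hq ρ hρ).1
      · show γ (q 0) (PP s t (q 0) (v ρ)) ∈ Wl f η m
        rw [(hv ρ hρ).1, (hv ρ hρ).2]
        exact (hq ρ hρ).2
    · intro ρ hρ w _ hw
      obtain ⟨hw1, hw2, hw3⟩ := hw
      have hw1' : PP s t (q 0) w = w := hw1
      have hw2' : γ (q 0) (PP s t (q 0) w) ∈ Wl f.symm η (γ a (PP s t a (ρ • u))) := hw2
      have hw3' : γ (q 0) (PP s t (q 0) w) ∈ Wl f η m := hw3
      rw [hw1', hu' ρ] at hw2'
      rw [hw1'] at hw3'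
      apply hG.inj (q 0) _ _ hw1' (hv ρ hρ).1
      rw [(hv ρ hρ).2]
      exact huniq m (γ a (ρ • u)) _ _ (wl_mono (by linarith) hw3')
        (wl_mono (by linarith) hw2') (wl_mono (by linarith) (hq ρ hρ).2)
        (wl_mono (by linarith) (hq ρ hρ).1)
  -- the reparametrization
  have hv10 : v 1 ≠ 0 := by
    intro h0
    have := hvinj 1 h11 0 h01 (by rw [h0, hv0])
    exact one_ne_zero this
  have hn : ‖v 1‖ ≠ 0 := norm_ne_zero_iff.2 hv10
  obtain ⟨φ, -, hφ⟩ := exists_dual_vector ℝ (v 1) hn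
  have hφ' : φ (v 1) = ‖v 1‖ := hφ
  have hτv : ∀ ρ ∈ Icc (0 : ℝ) 1, (φ (v ρ) / ‖v 1‖) • v 1 = v ρ := by
    intro ρ hρ
    obtain ⟨c, hc⟩ := REPAux.exists_smul (PP s t (q 0)) (hrank (q 0)) (hv 1 h11).1 hv10
      (hv ρ hρ).1
    rw [← hc, map_smul, smul_eq_mul, hφ', mul_div_assoc, div_self hn, mul_one]
  refine ⟨q, v 1, fun ρ => φ (v ρ) / ‖v 1‖, ⟨?_, ?_, ?_, ?_⟩, (hv 1 h11).1, hv1 1 h11, hqr, ?_⟩
  · exact (φ.continuous.comp_continuousOn hvc).div_const _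
  · refine ContinuousOn.strictMonoOn_of_injOn_Icc zero_le_one ?_
      ((φ.continuous.comp_continuousOn hvc).div_const _) ?_
    · show φ (v 0) / ‖v 1‖ ≤ φ (v 1) / ‖v 1‖
      rw [hv0, map_zero, zero_div, hφ', div_self hn]
      exact zero_le_one
    · intro ρ hρ ρ' hρ' hh
      apply hvinj ρ hρ ρ' hρ'
      have hh' : φ (v ρ) / ‖v 1‖ = φ (v ρ') / ‖v 1‖ := hh
      rw [← hτv ρ hρ, ← hτv ρ' hρ', hh']
  · show φ (v 0) / ‖v 1‖ = 0
    rw [hv0, map_zero, zero_div]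
  · show φ (v 1) / ‖v 1‖ = 1
    rw [hφ', div_self hn]
  · intro ρ hρ
    refine ⟨(hq ρ hρ).1, (hq ρ hρ).2, ?_⟩
    show γ (q 0) ((φ (v ρ) / ‖v 1‖) • v 1) = q ρ
    rw [hτv ρ hρ, (hv ρ hρ).2]

/-- The compactness argument for the norm. -/
theorem norm_bd [CompactSpace M] [FiniteDimensional ℝ W] (hG : Gam s t γ)
    (hPc : Continuous (PP s t)) {ε η : ℝ}
    (huniq : ∀ x y z z', z ∈ Wl f ε x → z ∈ Wl f.symm ε y → z' ∈ Wl f ε x →
      z' ∈ Wl f.symm ε y → z = z') (hη : 0 ≤ η) (hηε : η ≤ ε) (n : ℕ) (Λ R : ℝ)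
    (hsm : ∀ a u, PP s t a u = u → ‖u‖ ≤ Λ → ∀ ρ ∈ Icc (0 : ℝ) 1, ∀ ρ' ∈ Icc (0 : ℝ) 1,
      f^[n] (γ a (ρ • u)) ∈ Wl f η (f^[n] (γ a (ρ' • u)))) :
    ∃ δ : ℝ, 0 < δ ∧ ∀ a u r m a' u', PP s t a u = u → ‖u‖ ≤ Λ → r ∈ Icc (0 : ℝ) 1 →
      dist m (γ a (r • u)) ≤ δ → PP s t a' u' = u' → ‖u'‖ ≤ R →
      f^[n] a' ∈ Wl f.symm η (f^[n] a) → f^[n] a' ∈ Wl f η (f^[n] m) →
      f^[n] (γ a' u') ∈ Wl f.symm η (f^[n] (γ a u)) → f^[n] (γ a' u') ∈ Wl f η (f^[n] m) →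
      ‖u'‖ ≤ ‖u‖ + 1 := by
  by_contra hcon
  push Not at hcon
  have hseq : ∀ j : ℕ, ∃ p : M × W × ℝ × M × M × W, PP s t p.1 p.2.1 = p.2.1 ∧ ‖p.2.1‖ ≤ Λ ∧
      p.2.2.1 ∈ Icc (0 : ℝ) 1 ∧
      dist p.2.2.2.1 (γ p.1 (p.2.2.1 • p.2.1)) ≤ 1 / ((j : ℝ) + 1) ∧
      PP s t p.2.2.2.2.1 p.2.2.2.2.2 = p.2.2.2.2.2 ∧ ‖p.2.2.2.2.2‖ ≤ R ∧
      f^[n] p.2.2.2.2.1 ∈ Wl f.symm η (f^[n] p.1) ∧
      f^[n] p.2.2.2.2.1 ∈ Wl f η (f^[n] p.2.2.2.1) ∧
      f^[n] (γ p.2.2.2.2.1 p.2.2.2.2.2) ∈ Wl f.symm η (f^[n] (γ p.1 p.2.1)) ∧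
      f^[n] (γ p.2.2.2.2.1 p.2.2.2.2.2) ∈ Wl f η (f^[n] p.2.2.2.1) ∧
      ‖p.2.1‖ + 1 ≤ ‖p.2.2.2.2.2‖ := by
    intro j
    obtain ⟨a, u, r, m, a', u', h1, h2, h3, h4, h5, h6, h7, h8, h9, h10, h11⟩ :=
      hcon (1 / ((j : ℝ) + 1)) (by positivity)
    exact ⟨(a, u, r, m, a', u'), h1, h2, h3, h4, h5, h6, h7, h8, h9, h10, h11.le⟩
  choose p hp using hseq
  have : ProperSpace W := FiniteDimensional.proper_real W
  have hcomp : IsCompact ((univ : Set M) ×ˢ (Metric.closedBall (0 : W) Λ ×ˢ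
      (Icc (0 : ℝ) 1 ×ˢ ((univ : Set M) ×ˢ ((univ : Set M) ×ˢ Metric.closedBall (0 : W) R))))) :=
    isCompact_univ.prod ((isCompact_closedBall _ _).prod (isCompact_Icc.prod
      (isCompact_univ.prod (isCompact_univ.prod (isCompact_closedBall _ _)))))
  obtain ⟨P, -, φ, hφ, hlim⟩ := hcomp.tendsto_subseq (x := p) fun j => by
    obtain ⟨h1, h2, h3, h4, h5, h6, h7, h8, h9, h10, h11⟩ := hp j
    exact ⟨mem_univ _, mem_closedBall_zero_iff.2 h2, h3, mem_univ _, mem_univ _,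
      mem_closedBall_zero_iff.2 h6⟩
  have hcl : ∀ S : Set (M × W × ℝ × M × M × W), IsClosed S → (∀ j, p j ∈ S) → P ∈ S :=
    fun S hS hpS => hS.mem_of_tendsto hlim (Eventually.of_forall fun j => hpS (φ j))
  -- continuity of the coordinates
  have c1 : Continuous fun p : M × W × ℝ × M × M × W => p.1 := continuous_fst
  have c2 : Continuous fun p : M × W × ℝ × M × M × W => p.2.1 :=
    continuous_fst.comp continuous_snd
  have c3 : Continuous fun p : M × W × ℝ × M × M × W => p.2.2.1 :=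
    continuous_fst.comp (continuous_snd.comp continuous_snd)
  have c4 : Continuous fun p : M × W × ℝ × M × M × W => p.2.2.2.1 :=
    continuous_fst.comp (continuous_snd.comp (continuous_snd.comp continuous_snd))
  have c5 : Continuous fun p : M × W × ℝ × M × M × W => p.2.2.2.2.1 :=
    continuous_fst.comp (continuous_snd.comp (continuous_snd.comp
      (continuous_snd.comp continuous_snd)))
  have c6 : Continuous fun p : M × W × ℝ × M × M × W => p.2.2.2.2.2 :=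
    continuous_snd.comp (continuous_snd.comp (continuous_snd.comp
      (continuous_snd.comp continuous_snd)))
  have cn : Continuous (f^[n]) := f.continuous.iterate n
  have g1 : PP s t P.1 P.2.1 = P.2.1 :=
    hcl _ (isClosed_eq ((hPc.comp c1).clm_apply c2) c2) fun j => (hp j).1
  have g2 : ‖P.2.1‖ ≤ Λ :=
    hcl _ (isClosed_le c2.norm continuous_const) fun j => (hp j).2.1
  have g3 : P.2.2.1 ∈ Icc (0 : ℝ) 1 :=
    hcl _ (isClosed_Icc.preimage c3) fun j => (hp j).2.2.1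
  have g5 : PP s t P.2.2.2.2.1 P.2.2.2.2.2 = P.2.2.2.2.2 :=
    hcl _ (isClosed_eq ((hPc.comp c5).clm_apply c6) c6) fun j => (hp j).2.2.2.2.1
  have g7 : f^[n] P.2.2.2.2.1 ∈ Wl f.symm η (f^[n] P.1) :=
    hcl _ (isClosed_wl f.symm η (cn.comp c1) (cn.comp c5)) fun j => (hp j).2.2.2.2.2.2.1
  have g8 : f^[n] P.2.2.2.2.1 ∈ Wl f η (f^[n] P.2.2.2.1) :=
    hcl _ (isClosed_wl f η (cn.comp c4) (cn.comp c5)) fun j => (hp j).2.2.2.2.2.2.2.1
  have g9 : f^[n] (γ P.2.2.2.2.1 (PP s t P.2.2.2.2.1 P.2.2.2.2.2)) ∈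
      Wl f.symm η (f^[n] (γ P.1 (PP s t P.1 P.2.1))) :=
    hcl {p | f^[n] (γ p.2.2.2.2.1 (PP s t p.2.2.2.2.1 p.2.2.2.2.2)) ∈
      Wl f.symm η (f^[n] (γ p.1 (PP s t p.1 p.2.1)))}
      (isClosed_wl f.symm η (cn.comp (cont_gam hG c1 c2)) (cn.comp (cont_gam hG c5 c6)))
      fun j => by
        obtain ⟨h1, h2, h3, h4, h5, h6, h7, h8, h9, h10, h11⟩ := hp j
        show f^[n] (γ (p j).2.2.2.2.1 (PP s t (p j).2.2.2.2.1 (p j).2.2.2.2.2)) ∈
          Wl f.symm η (f^[n] (γ (p j).1 (PP s t (p j).1 (p j).2.1)))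
        rw [h1, h5]
        exact h9
  have g10 : f^[n] (γ P.2.2.2.2.1 (PP s t P.2.2.2.2.1 P.2.2.2.2.2)) ∈
      Wl f η (f^[n] P.2.2.2.1) :=
    hcl {p | f^[n] (γ p.2.2.2.2.1 (PP s t p.2.2.2.2.1 p.2.2.2.2.2)) ∈
      Wl f η (f^[n] p.2.2.2.1)}
      (isClosed_wl f η (cn.comp c4) (cn.comp (cont_gam hG c5 c6)))
      fun j => by
        obtain ⟨h1, h2, h3, h4, h5, h6, h7, h8, h9, h10, h11⟩ := hp j
        show f^[n] (γ (p j).2.2.2.2.1 (PP s t (p j).2.2.2.2.1 (p j).2.2.2.2.2)) ∈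
          Wl f η (f^[n] (p j).2.2.2.1)
        rw [h5]
        exact h10
  have g11 : ‖P.2.1‖ + 1 ≤ ‖P.2.2.2.2.2‖ :=
    hcl _ (isClosed_le (c2.norm.add continuous_const) c6.norm)
      fun j => (hp j).2.2.2.2.2.2.2.2.2.2
  -- the point `m`
  have g4 : P.2.2.2.1 = γ P.1 (P.2.2.1 • P.2.1) := by
    have hc : Continuous fun p : M × W × ℝ × M × M × W =>
        dist p.2.2.2.1 (γ p.1 (PP s t p.1 (p.2.2.1 • p.2.1))) :=
      c4.dist (cont_gam hG c1 (c3.smul c2))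
    have h1 := (hc.tendsto P).comp hlim
    have h2 : Tendsto (fun j : ℕ => 1 / (((φ j : ℕ) : ℝ) + 1)) atTop (𝓝 0) :=
      tendsto_one_div_add_atTop_nhds_zero_nat.comp hφ.tendsto_atTop
    have h3 : dist P.2.2.2.1 (γ P.1 (PP s t P.1 (P.2.2.1 • P.2.1))) ≤ 0 := by
      refine le_of_tendsto_of_tendsto' h1 h2 fun j => ?_
      obtain ⟨h1, h2, h3, h4, -⟩ := hp (φ j)
      show dist (p (φ j)).2.2.2.1 (γ (p (φ j)).1 (PP s t (p (φ j)).1
        ((p (φ j)).2.2.1 • (p (φ j)).2.1))) ≤ _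
      rw [map_smul, h1]
      exact h4
    have h4 := dist_le_zero.1 h3
    rw [map_smul, g1] at h4
    exact h4
  have h00 : (0 : ℝ) ∈ Icc (0 : ℝ) 1 := ⟨le_rfl, zero_le_one⟩
  have h11 : (1 : ℝ) ∈ Icc (0 : ℝ) 1 := ⟨zero_le_one, le_rfl⟩
  have hself : ∀ x : M, x ∈ Wl f.symm ε x := fun x k => by
    rw [dist_self]; exact hη.trans hηε
  rw [g1, g5] at g9
  rw [g5] at g10
  rw [g4] at g8 g10
  have e1 : P.2.2.2.2.1 = P.1 := by
    apply (f.injective.iterate n)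
    refine huniq (f^[n] (γ P.1 (P.2.2.1 • P.2.1))) (f^[n] P.1) _ _ (wl_mono hηε g8)
      (wl_mono hηε g7) ?_ (hself _)
    have h1 := hsm P.1 P.2.1 g1 g2 0 h00 P.2.2.1 g3
    rw [zero_smul, hG.zero] at h1
    exact wl_mono hηε h1
  have e2 : γ P.2.2.2.2.1 P.2.2.2.2.2 = γ P.1 P.2.1 := by
    apply (f.injective.iterate n)
    refine huniq (f^[n] (γ P.1 (P.2.2.1 • P.2.1))) (f^[n] (γ P.1 P.2.1)) _ _
      (wl_mono hηε g10) (wl_mono hηε g9) ?_ (hself _)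
    have h1 := hsm P.1 P.2.1 g1 g2 1 h11 P.2.2.1 g3
    rw [one_smul] at h1
    exact wl_mono hηε h1
  have e3 : P.2.2.2.2.2 = P.2.1 := by
    rw [e1] at e2 g5
    exact hG.inj _ _ _ g5 g1 e2
  rw [e3] at g11
  linarith

theorem I_le {k : Coc W f} (n : ℕ) (x : M) (w : W) : ‖k.I n x w‖ ≤ k.K ^ n * ‖w‖ := by
  induction n generalizing w with
  | zero => simp
  | succ n ih =>
    rw [k.I_succ]
    calc ‖k.I n x (k.Di (f^[n + 1] x) w)‖ ≤ k.K ^ n * ‖k.Di (f^[n + 1] x) w‖ := ih _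
      _ ≤ k.K ^ n * (k.K * ‖w‖) := by
          have := k.Di_le (f^[n + 1] x) w
          have := k.K_pos
          gcongr
      _ = _ := by ring

end F1STEPAux

open F1STEPAux

/-- **STEP**: carry a segment of a leaf `X` along an unstable link. -/
theorem specStep (hD : SpecDbl.{u}) (hC : SpecCoc.{u, v}) : SpecStep.{u, v} := by
  intro M W _ _ _ _ _ E f g s t C₀ ε C l γ hB hPair hG hCU Λ ε' hΛ hε'
  obtain ⟨k, hk⟩ := hC M W E f g.symm s t.swap C₀ hB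
  obtain ⟨-, hsy, htr, -⟩ := hD M f g.symm hB.comm
  obtain ⟨e₁, he₁, hCU⟩ := hCU
  obtain ⟨e₂, he₂, hpr⟩ := hG.proper
  have hε : 0 < ε := hPair.one.br.ε_pos
  -- the scales
  set η : ℝ := min (min e₁ e₂) (min ε ε') / 4 with hηdef
  have hη0 : 0 < min (min e₁ e₂) (min ε ε') := lt_min (lt_min he₁ he₂) (lt_min hε hε')
  have hηpos : 0 < η := by positivity
  have hηe₁ : 2 * η ≤ e₁ := by
    have := (min_le_left (min e₁ e₂) (min ε ε')).trans (min_le_left _ _)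
    linarith
  have hηe₂ : 2 * η ≤ e₂ := by
    have := (min_le_left (min e₁ e₂) (min ε ε')).trans (min_le_right _ _)
    linarith
  have hηε : 2 * η ≤ ε := by
    have := (min_le_right (min e₁ e₂) (min ε ε')).trans (min_le_left _ _)
    linarith
  have hηε' : η ≤ ε' := by
    have := (min_le_right (min e₁ e₂) (min ε ε')).trans (min_le_right _ _)
    linarith
  obtain ⟨δb, hδb, hbr⟩ := hPair.one.br.exist η hηpos
  set η₁ : ℝ := min η δb / 4 with hη₁def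
  have hη₁ : 0 < η₁ := by
    have := lt_min hηpos hδb
    positivity
  have h1η : 2 * η₁ ≤ η := by
    have := min_le_left η δb
    linarith
  have h1b : 3 * η₁ < δb := by
    have := min_le_right η δb
    linarith
  obtain ⟨r₀, hr₀, hsmall⟩ := hG.small η₁ hη₁
  obtain ⟨Ch, lh, hCh, hlh, hlh1, hyp⟩ := hB.hs
  -- the number of iterates
  have ht : Tendsto (fun n : ℕ => Ch * lh ^ n * Λ) atTop (𝓝 (Ch * 0 * Λ)) :=
    ((tendsto_pow_atTop_nhds_zero_of_lt_one hlh.le hlh1).const_mul Ch).mul_const _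
  rw [mul_zero, zero_mul] at ht
  obtain ⟨n, hn⟩ := (ht.eventually (gt_mem_nhds hr₀)).exists
  have hdec : ∀ a u, PP s t.swap a u = u → ‖k.A n a u‖ ≤ Ch * lh ^ n * ‖u‖ := by
    intro a u hu
    have hSu : s.S a u = u := by
      conv_lhs => rw [← hu]
      conv_rhs => rw [← hu]
      exact congrArg (fun L : W →L[ℝ] W => L (t.swap.S a u)) (s.SS a)
    have h1 := (hyp n a u).1
    rw [hSu] at h1
    rw [Coc.A, hk.D]
    exact h1
  have hsm : ∀ a u, PP s t.swap a u = u → ‖u‖ ≤ Λ → ∀ ρ ∈ Icc (0 : ℝ) 1,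
      γ (f^[n] a) (ρ • k.A n a u) ∈ Wl f η₁ (f^[n] a) := by
    intro a u hu hul ρ hρ
    have h1 := (REPAux.gam_iter hk hG hu n).1
    apply hsmall
    · rw [map_smul, h1]
    · rw [norm_smul, Real.norm_eq_abs, abs_of_nonneg hρ.1]
      have h2 := hdec a u hu
      calc ρ * ‖k.A n a u‖ ≤ 1 * (Ch * lh ^ n * ‖u‖) :=
            mul_le_mul hρ.2 h2 (norm_nonneg _) zero_le_one
        _ ≤ Ch * lh ^ n * Λ := by
            rw [one_mul]
            gcongr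
        _ ≤ r₀ := hn.le
  have hiter : ∀ a u, PP s t.swap a u = u → ∀ ρ : ℝ,
      f^[n] (γ a (ρ • u)) = γ (f^[n] a) (ρ • k.A n a u) := by
    intro a u hu ρ
    have h1 := (REPAux.gam_iter hk hG (w := ρ • u) (x := a) (by rw [map_smul, hu]) n).2
    rw [h1, map_smul]
  -- uniform continuity of the iterates
  have huc : ∃ δu : ℝ, 0 < δu ∧ ∀ j ≤ n, ∀ x y : M, dist x y < δu →
      dist (f^[j] x) (f^[j] y) ≤ η₁ := by
    have h1 : ∀ N : ℕ, ∃ δu : ℝ, 0 < δu ∧ ∀ j ≤ N, ∀ x y : M, dist x y < δu →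
        dist (f^[j] x) (f^[j] y) ≤ η₁ := by
      intro N
      induction N with
      | zero =>
        refine ⟨η₁, hη₁, fun j hj x y hxy => ?_⟩
        rw [Nat.le_zero.1 hj]
        exact hxy.le
      | succ N ih =>
        obtain ⟨δ₁, hδ₁, H₁⟩ := ih
        obtain ⟨δ₂, hδ₂, H₂⟩ := Metric.uniformContinuous_iff.1
          (CompactSpace.uniformContinuous_of_continuous (f.continuous.iterate (N + 1))) η₁ hη₁
        refine ⟨min δ₁ δ₂, lt_min hδ₁ hδ₂, fun j hj x y hxy => ?_⟩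
        rcases Nat.lt_or_ge j (N + 1) with hj' | hj'
        · exact H₁ j (by omega) x y (lt_of_lt_of_le hxy (min_le_left _ _))
        · have : j = N + 1 := by omega
          rw [this]
          exact (H₂ (lt_of_lt_of_le hxy (min_le_right _ _))).le
    exact h1 n
  obtain ⟨δu, hδu, huc⟩ := huc
  -- the norm
  have hPc : Continuous (PP s t.swap) := by
    have := k.S_cont
    rwa [hk.S] at this
  obtain ⟨δ₁, hδ₁, hnorm⟩ := norm_bd (ε := ε) (η := η) hG hPc hPair.one.br.unique hηpos.le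
    (by linarith) n Λ (k.K ^ n) (by
      intro a u hu hul ρ hρ ρ' hρ'
      rw [hiter a u hu, hiter a u hu]
      refine wl_mono h1η ?_
      rw [two_mul]
      exact wl_trans (wl_symm (hsm a u hu hul ρ' hρ')) (hsm a u hu hul ρ hρ))
  refine ⟨min (min η₁ (δu / 2)) δ₁, lt_min (lt_min hη₁ (half_pos hδu)) hδ₁, ?_⟩
  intro a u r m' hu hu0 hul hr hm'
  have hAu := (REPAux.gam_iter hk hG hu n).1
  have hAu0 : k.A n a u ≠ 0 := by
    intro h0
    have h1 := k.I_A n a u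
    rw [hk.S, hu, h0, map_zero] at h1
    exact hu0 h1.symm
  -- the image of `m'`
  have hm : f^[n] m' ∈ Wl f.symm η₁ (γ (f^[n] a) (r • k.A n a u)) := by
    rw [← hiter a u hu r]
    intro i
    rcases Nat.lt_or_ge n i with hi | hi
    · obtain ⟨c, rfl⟩ : ∃ c, i = c + n := ⟨i - n, by omega⟩
      rw [iterate_add_apply, iterate_add_apply, symm_iter, symm_iter]
      exact (hm' c).trans ((min_le_left _ _).trans (min_le_left _ _))
    · obtain ⟨c, hc⟩ : ∃ c, n = i + c := ⟨n - i, by omega⟩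
      have h1 : ∀ y : M, f.symm^[i] (f^[n] y) = f^[c] y := by
        intro y
        rw [hc, iterate_add_apply, symm_iter]
      rw [h1, h1]
      apply huc c (by omega)
      have h2 : dist m' (γ a (r • u)) ≤ δu / 2 :=
        (hm' 0).trans ((min_le_left _ _).trans (min_le_right _ _))
      linarith
  obtain ⟨q, v, τ, hτ, hv, hv1, hqr, hq⟩ := small hG hB.rank hsy htr hPair.one.expConst
    hPair.one.br.unique hCU hpr hbr hη₁ h1η h1b hηε hηe₁ hηe₂ hAu hAu0 (hsm a u hu hul) hr hm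
  -- back
  have hfa : f^[n] (f.symm^[n] (q 0)) = q 0 := iter_symm f n (q 0)
  have hSv : k.S (f^[n] (f.symm^[n] (q 0))) v = v := by rw [hfa, hk.S, hv]
  have hu'1 : PP s t.swap (f.symm^[n] (q 0)) (k.I n (f.symm^[n] (q 0)) v) =
      k.I n (f.symm^[n] (q 0)) v := by
    have h1 := k.S_I n (f.symm^[n] (q 0)) v
    rw [hSv, hk.S] at h1
    exact h1
  have hAv : k.A n (f.symm^[n] (q 0)) (k.I n (f.symm^[n] (q 0)) v) = v := by
    have h1 := k.A_I n (f.symm^[n] (q 0)) v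
    rw [hSv] at h1
    exact h1
  have hback : ∀ c : ℝ, f^[n] (γ (f.symm^[n] (q 0)) (c • k.I n (f.symm^[n] (q 0)) v)) =
      γ (q 0) (c • v) := by
    intro c
    rw [hiter _ _ hu'1, hAv, hfa]
  have h01 : (0 : ℝ) ∈ Icc (0 : ℝ) 1 := ⟨le_rfl, zero_le_one⟩
  have h11 : (1 : ℝ) ∈ Icc (0 : ℝ) 1 := ⟨zero_le_one, le_rfl⟩
  refine ⟨f.symm^[n] (q 0), k.I n (f.symm^[n] (q 0)) v, τ, hu'1, ?_, hτ, ?_, ?_⟩
  · -- the norm
    apply hnorm a u r m' (f.symm^[n] (q 0)) (k.I n (f.symm^[n] (q 0)) v) hu hul hr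
      ((hm' 0).trans (min_le_right _ _)) hu'1
    · calc ‖k.I n (f.symm^[n] (q 0)) v‖ ≤ k.K ^ n * ‖v‖ := I_le n _ v
        _ ≤ k.K ^ n * 1 := by
            have := k.K_pos
            gcongr
        _ = k.K ^ n := mul_one _
    · rw [hfa]
      have h1 := (hq 0 h01).1
      rw [zero_smul, hG.zero] at h1
      exact h1
    · rw [hfa]
      exact (hq 0 h01).2.1
    · have h1 := hback 1
      rw [one_smul, one_smul] at h1
      have h2 := (hq 1 h11).2.2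
      rw [hτ.one, one_smul] at h2
      have h3 := (hq 1 h11).1
      have h4 := hiter a u hu 1
      rw [one_smul] at h4
      rw [h1, h2, h4]
      exact h3
    · have h1 := hback 1
      rw [one_smul, one_smul] at h1
      have h2 := (hq 1 h11).2.2
      rw [hτ.one, one_smul] at h2
      rw [h1, h2]
      exact (hq 1 h11).2.1
  · apply (f.injective.iterate n)
    rw [hback, (hq r hr).2.2, hqr]
  · intro ρ hρ i
    have h1 : γ (f.symm^[n] (q 0)) (τ ρ • k.I n (f.symm^[n] (q 0)) v) = f.symm^[n] (q ρ) := by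
      apply (f.injective.iterate n)
      rw [hback, (hq ρ hρ).2.2, iter_symm]
    have h2 : γ a (ρ • u) = f.symm^[n] (γ (f^[n] a) (ρ • k.A n a u)) := by
      rw [← hiter a u hu, symm_iter]
    rw [h1, h2, ← iterate_add_apply, ← iterate_add_apply]
    exact ((hq ρ hρ).1 (i + n)).trans hηε'

end Pool.Agent.Lib.MP610fe3.HR
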