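import Pool.Agent.Lib.MP_610fe3_an.HR.Spec

/-!
# The plane through a common fixed point

(5.2): `x τ = γX p (exp (-a τ) • u)`, `H τ r = γY (x τ) (r • v τ)`.
-/

set_option autoImplicit false

open Set Filter Function
open scoped Topology

namespace Pool.Agent.Lib.MP610fe3.HR

open Cf CH

universe u v

namespace PLANEAux

variable {M W : Type*} [MetricSpace M] [NormedAddCommGroup W] [NormedSpace ℝ W]

omit [NormedSpace ℝ W] in
/-- a vector field with `‖v (τ - n)‖ ≤ C l ^ n ‖v τ‖` tends to zero at minus infinity -/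
theorem norm_small {v : ℝ → W} (hv : Continuous v) {C l : ℝ} (hC : 0 < C) (hl : 0 < l)
    (hl1 : l < 1) (h : ∀ (n : ℕ) (τ : ℝ), ‖v (τ - n)‖ ≤ C * l ^ n * ‖v τ‖) {δ : ℝ} (hδ : 0 < δ) :
    ∃ T : ℝ, ∀ τ ≤ T, ‖v τ‖ ≤ δ := by
  obtain ⟨B, hB⟩ := (isCompact_Icc (a := (0 : ℝ)) (b := 1)).exists_bound_of_continuousOn
    hv.continuousOn
  have hB1 : 0 < |B| + 1 := by positivity
  have ht : Tendsto (fun n : ℕ => C * l ^ n * (|B| + 1)) atTop (𝓝 (C * 0 * (|B| + 1))) :=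
    ((tendsto_pow_atTop_nhds_zero_of_lt_one hl.le hl1).const_mul C).mul_const _
  rw [mul_zero, zero_mul] at ht
  obtain ⟨N, hN⟩ := (ht.eventually (gt_mem_nhds hδ)).exists
  refine ⟨-(N : ℝ), fun τ hτ => ?_⟩
  have h1 : -τ ≤ (⌈-τ⌉₊ : ℝ) := Nat.le_ceil _
  have hN0 : (0 : ℝ) ≤ N := N.cast_nonneg
  have h2 : (⌈-τ⌉₊ : ℝ) < -τ + 1 := Nat.ceil_lt_add_one (by linarith)
  have h3 : N ≤ ⌈-τ⌉₊ := by
    have : (N : ℝ) ≤ (⌈-τ⌉₊ : ℝ) := by linarith
    exact_mod_cast this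
  have h4 : τ + (⌈-τ⌉₊ : ℝ) ∈ Icc (0 : ℝ) 1 := ⟨by linarith, by linarith⟩
  have h5 := h ⌈-τ⌉₊ (τ + (⌈-τ⌉₊ : ℝ))
  rw [add_sub_cancel_right] at h5
  have h6 : ‖v (τ + (⌈-τ⌉₊ : ℝ))‖ ≤ |B| + 1 := by
    have := hB _ h4
    have h7 := le_abs_self B
    linarith
  calc ‖v τ‖ ≤ C * l ^ ⌈-τ⌉₊ * ‖v (τ + (⌈-τ⌉₊ : ℝ))‖ := h5
    _ ≤ C * l ^ N * (|B| + 1) := by
        have h8 : l ^ ⌈-τ⌉₊ ≤ l ^ N := pow_le_pow_of_le_one hl.le hl1.le h3
        gcongr
    _ ≤ δ := hN.le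

variable {E : Emb M W} {f g : M ≃ₜ M}

theorem iter_back (s : Split E f) {x : ℝ → M} {v : ℝ → W} (hfx : ∀ τ, f (x τ) = x (τ + 1))
    (hDi : ∀ τ, s.Di (x (τ + 1)) (v (τ + 1)) = v τ) (n : ℕ) :
    ∀ τ : ℝ, iterD s.Di f.symm n (x τ) (v τ) = v (τ - n) := by
  induction n with
  | zero => intro τ; simp [iterD]
  | succ n ih =>
      intro τ
      have h1 : f.symm (x τ) = x (τ - 1) := by
        have := hfx (τ - 1)
        rw [sub_add_cancel] at this
        rw [← this, f.symm_apply_apply]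
      have h2 : s.Di (x τ) (v τ) = v (τ - 1) := by
        have := hDi (τ - 1)
        rwa [sub_add_cancel] at this
      show iterD s.Di f.symm n (f.symm (x τ)) (s.Di (x τ) (v τ)) = _
      rw [h1, h2, ih (τ - 1)]
      congr 1
      push_cast
      ring

/-- vectors of a line -/
theorem exists_smul (L : W →L[ℝ] W) (hL : Module.finrank ℝ L.range = 1) {v w : W} (hv : L v = v)
    (hv0 : v ≠ 0) (hw : L w = w) : ∃ r : ℝ, r • v = w := by
  have h := (finrank_eq_one_iff_of_nonzero' (⟨v, v, hv⟩ : L.range)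
    (fun h => hv0 (congrArg Subtype.val h))).1 hL ⟨w, w, hw⟩
  obtain ⟨r, hr⟩ := h
  exact ⟨r, congrArg Subtype.val hr⟩

end PLANEAux

open PLANEAux

theorem specPlane (hG : SpecGam.{u, v}) (hV : SpecVec.{u, v}) :
    SpecPlane.{u, v} := by
  intro M W _ _ _ _ _ E f g s t C₀ θ p y hX hY hfp hgp hEig hpy hyp
  obtain ⟨a, b, ha, hb, hsX, htX, hsY, htY⟩ := hEig
  obtain ⟨γX, GX⟩ := hG M W E f g.symm s t.swap C₀ hX
  obtain ⟨γY, GY⟩ := hG M W E f.symm g s.swap t C₀ hY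
  obtain ⟨u, hu, huy⟩ := GX.surj p y hpy
  have hgp' : g.symm p = p := by
    conv_lhs => rw [← hgp]
    exact g.symm_apply_apply p
  have hPu : ∀ c : ℝ, PP s t.swap p (c • u) = c • u := fun c => by rw [map_smul, hu]
  have hsu : s.D p u = Real.exp (-a) • u := by
    have := hsX u
    rwa [hu] at this
  have htu : t.D p u = Real.exp (a * θ) • u := by
    have := htX u
    rwa [hu] at this
  have hPPu : E.P p u = u := by
    rw [← hu]
    exact congrArg (fun L : W →L[ℝ] W => L (t.swap.S p u)) (s.PS p)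
  have hti : t.Di p u = Real.exp (-(a * θ)) • u := by
    have h1 : t.Di (g p) (t.D p u) = E.P p u :=
      congrArg (fun L : W →L[ℝ] W => L u) (t.inv1 p)
    rw [hgp, htu, map_smul, hPPu] at h1
    rw [Real.exp_neg]
    rw [← h1, smul_smul, inv_mul_cancel₀ (Real.exp_pos _).ne', one_smul]
    rw [h1]
  -- the points `x τ`
  set x : ℝ → M := fun τ => γX p (Real.exp (-(a * τ)) • u) with hx
  have hxc : Continuous x := by
    have h1 : x = fun τ => (fun q : M × W => γX q.1 (PP s t.swap q.1 q.2))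
        (p, Real.exp (-(a * τ)) • u) := by
      funext τ
      simp only [hx, hPu]
    rw [h1]
    exact GX.cont.comp (by fun_prop)
  have hfx : ∀ τ, f (x τ) = x (τ + 1) := fun τ => by
    simp only [hx]
    rw [GX.eqf p _ (hPu _), hfp, map_smul, hsu, smul_smul, ← Real.exp_add]
    congr 3
    ring
  have hgsx : ∀ τ, g.symm (x τ) = x (τ + θ) := fun τ => by
    simp only [hx]
    rw [GX.eqg p _ (hPu _), hgp', map_smul, Split.swap_D, hti, smul_smul, ← Real.exp_add]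
    congr 3
    ring
  have hgx : ∀ τ, g (x τ) = x (τ - θ) := fun τ => by
    have := hgsx (τ - θ)
    rw [sub_add_cancel] at this
    rw [← this, g.apply_symm_apply]
  have hxlim : Tendsto x atTop (𝓝 p) := by
    have h1 : x = fun τ => (fun q : M × W => γX q.1 (PP s t.swap q.1 q.2))
        (p, Real.exp (-(a * τ)) • u) := by
      funext τ
      simp only [hx, hPu]
    have h2 : Tendsto (fun τ : ℝ => Real.exp (-(a * τ))) atTop (𝓝 0) :=
      Real.tendsto_exp_neg_atTop_nhds_zero.comp (tendsto_id.const_mul_atTop ha)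
    have h3 : Tendsto (fun τ : ℝ => (p, Real.exp (-(a * τ)) • u)) atTop (𝓝 (p, (0 : ℝ) • u)) :=
      tendsto_const_nhds.prodMk_nhds (h2.smul_const u)
    have h4 := (GX.cont.tendsto (p, (0 : ℝ) • u)).comp h3
    rw [h1]
    have h5 : γX p (PP s t.swap p ((0 : ℝ) • u)) = p := by
      rw [zero_smul, map_zero, GX.zero]
    have h6 : Tendsto ((fun q : M × W => γX q.1 (PP s t.swap q.1 q.2)) ∘
        fun τ : ℝ => (p, Real.exp (-(a * τ)) • u)) atTop (𝓝 (γX p (PP s t.swap p ((0 : ℝ) • u)))) :=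
      h4
    rw [h5] at h6
    exact h6
  -- the vectors
  obtain ⟨v, hvc, hPv, hv0, hsv, htv⟩ := hV M W E f g s t C₀ θ b p x hY hfp hgp hxc hfx hgx hxlim
    hsY htY
  have hPrv : ∀ τ (r : ℝ), PP s.swap t (x τ) (r • v τ) = r • v τ := fun τ r => by
    rw [map_smul, hPv]
  have hEv : ∀ τ, E.P (x τ) (v τ) = v τ := fun τ => by
    conv_lhs => rw [← hPv τ]
    conv_rhs => rw [← hPv τ]
    exact congrArg (fun L : W →L[ℝ] W => L (t.S (x τ) (v τ))) (s.swap.PS (x τ))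
  have hUv : ∀ τ, s.U (x τ) (v τ) = v τ := fun τ => by
    conv_lhs => rw [← hPv τ]
    conv_rhs => rw [← hPv τ]
    exact congrArg (fun L : W →L[ℝ] W => L (t.S (x τ) (v τ))) (s.UU (x τ))
  have hDiv : ∀ τ, s.Di (x (τ + 1)) (v (τ + 1)) = v τ := fun τ => by
    rw [← hsv τ, ← hfx τ]
    have h1 : s.Di (f (x τ)) (s.D (x τ) (v τ)) = E.P (x τ) (v τ) :=
      congrArg (fun L : W →L[ℝ] W => L (v τ)) (s.inv1 (x τ))
    rw [h1, hEv]
  have hit := iter_back s hfx hDiv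
  obtain ⟨C, l, hC, hl, hl1, hhyp⟩ := hX.hs
  have hdec : ∀ (n : ℕ) (τ : ℝ), ‖v (τ - n)‖ ≤ C * l ^ n * ‖v τ‖ := fun n τ => by
    have h1 := (hhyp n (x τ) (v τ)).2
    rwa [hUv, hit n τ] at h1
  refine ⟨fun τ r => γY (x τ) (r • v τ), ⟨?_, ?_, ?_, ?_, ?_, ?_, ?_, ?_, ?_, ?_⟩, ?_⟩
  · -- continuity
    have h1 : (fun q : ℝ × ℝ => γY (x q.1) (q.2 • v q.1)) = fun q : ℝ × ℝ =>
        (fun q : M × W => γY q.1 (PP s.swap t q.1 q.2)) (x q.1, q.2 • v q.1) := by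
      funext q
      simp only [hPrv]
    show Continuous (fun q : ℝ × ℝ => γY (x q.1) (q.2 • v q.1))
    rw [h1]
    exact GY.cont.comp ((hxc.comp continuous_fst).prodMk
      (continuous_snd.smul (hvc.comp continuous_fst)))
  · -- the map `f`
    intro τ r
    have h1 := GY.eqf (x (τ + 1)) (r • v (τ + 1)) (hPrv _ _)
    have h2 : f.symm (x (τ + 1)) = x τ := by rw [← hfx τ, f.symm_apply_apply]
    rw [map_smul, Split.swap_D, hDiv, h2] at h1
    show f (γY (x τ) (r • v τ)) = γY (x (τ + 1)) (r • v (τ + 1))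
    rw [← h1, f.apply_symm_apply]
  · -- the map `g`
    intro τ r
    show g (γY (x τ) (r • v τ)) = γY (x (τ - θ)) (r • v (τ - θ))
    rw [GY.eqg (x τ) _ (hPrv _ _), hgx, map_smul, htv]
  · intro τ
    show Dbl f g.symm p (γY (x τ) ((0 : ℝ) • v τ))
    rw [zero_smul, GY.zero]
    exact GX.dbl p _ (hPu _)
  · show Tendsto (fun τ => γY (x τ) ((0 : ℝ) • v τ)) atTop (𝓝 p)
    simp only [zero_smul, GY.zero]
    exact hxlim
  · intro τ r
    show Dbl f.symm g (γY (x τ) ((0 : ℝ) • v τ)) (γY (x τ) (r • v τ))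
    rw [zero_smul, GY.zero]
    exact GY.dbl (x τ) _ (hPrv _ _)
  · intro τ z hz
    have hz' : Dbl f.symm g (x τ) z := by
      have h1 : Dbl f.symm g (γY (x τ) ((0 : ℝ) • v τ)) z := hz
      rwa [zero_smul, GY.zero] at h1
    obtain ⟨w, hw, hwz⟩ := GY.surj (x τ) z hz'
    obtain ⟨r, hr⟩ := exists_smul (PP s.swap t (x τ)) (hY.rank (x τ)) (hPv τ) (hv0 τ) hw
    exact ⟨r, by show γY (x τ) (r • v τ) = z; rw [hr, hwz]⟩
  · intro τ r r' h
    have h1 := GY.inj (x τ) _ _ (hPrv τ r) (hPrv τ r') h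
    exact smul_left_injective ℝ (hv0 τ) h1
  · intro ε r₀ hε
    obtain ⟨δ, hδ, hs⟩ := GY.small ε hε
    obtain ⟨T, hT⟩ := norm_small hvc hC hl hl1 hdec (δ := δ / (|r₀| + 1)) (by positivity)
    refine ⟨T, fun τ hτ r hr => ?_⟩
    show γY (x τ) (r • v τ) ∈ Wl f.symm ε (γY (x τ) ((0 : ℝ) • v τ))
    rw [zero_smul, GY.zero]
    refine hs (x τ) _ (hPrv _ _) ?_
    rw [norm_smul, Real.norm_eq_abs]
    have h1 := hT τ hτ
    have h2 : 0 < |r₀| + 1 := by positivity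
    rw [le_div_iff₀ h2] at h1
    have h3 : |r| ≤ |r₀| + 1 := by
      have := le_abs_self r₀
      linarith
    calc |r| * ‖v τ‖ ≤ (|r₀| + 1) * ‖v τ‖ := by gcongr
      _ = ‖v τ‖ * (|r₀| + 1) := mul_comm _ _
      _ ≤ δ := h1
  · obtain ⟨ε, hε, hp⟩ := GY.proper
    refine ⟨ε, hε, fun τ₁ τ₂ => ?_⟩
    rcases (Icc τ₁ τ₂).eq_empty_or_nonempty with he | hne
    · exact ⟨0, fun τ hτ => by rw [he] at hτ; exact hτ.elim⟩
    obtain ⟨τ₀, _, hτ₀⟩ := isCompact_Icc.exists_isMinOn hne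
      (f := fun τ => ‖v τ‖) hvc.norm.continuousOn
    have hc : 0 < ‖v τ₀‖ := norm_pos_iff.2 (hv0 τ₀)
    refine ⟨‖v τ₀‖⁻¹, fun τ hτ r hr => ?_⟩
    have h1 : γY (x τ) (r • v τ) ∈ Wl f.symm ε (γY (x τ) ((0 : ℝ) • v τ)) := hr
    rw [zero_smul, GY.zero] at h1
    have h2 := hp (x τ) _ (hPrv _ _) h1
    rw [norm_smul, Real.norm_eq_abs] at h2
    have h3 : ‖v τ₀‖ ≤ ‖v τ‖ := hτ₀ hτ
    rw [← one_div, le_div_iff₀ hc]
    calc |r| * ‖v τ₀‖ ≤ |r| * ‖v τ‖ := by gcongr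
      _ ≤ 1 := h2
  · show γY (x 0) ((0 : ℝ) • v 0) = y
    rw [zero_smul, GY.zero]
    simp only [hx, mul_zero, neg_zero, Real.exp_zero, one_smul]
    exact huy

end Pool.Agent.Lib.MP610fe3.HR
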