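import Pool.Agent.Lib.MP_610fe3_an.HR.Spec2
import Pool.Agent.Lib.MP_610fe3_an.HR.TRANS
import Pool.Agent.Lib.MP_610fe3_an.HR.PLANE

/-!
# PIG: the pigeonhole lemma, (R3)
-/

set_option autoImplicit false

open Set Filter Function
open scoped Topology

namespace Pool.Agent.Lib.MP610fe3.HR

open Cf CH

universe u v

namespace PIGAux

variable {M : Type u} {W : Type v} [MetricSpace M] [CompactSpace M] [NormedAddCommGroup W]
  [InnerProductSpace ℝ W] [FiniteDimensional ℝ W] {E : Emb M W} {f g : M ≃ₜ M}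
  {s : Split E f} {t : Split E g} {C₀ : ℝ} {γ : M → W → M}

theorem contPP (hb : Bun s t C₀) : Continuous (PP s t) :=
  (s.contS hb.hs).clm_comp (t.contS hb.ht)

theorem contPPa (hb : Bun s t C₀) : Continuous fun q : M × W => PP s t q.1 q.2 :=
  ((contPP hb).comp continuous_fst).clm_apply continuous_snd

omit [CompactSpace M] [FiniteDimensional ℝ W] in
/-- continuity of `γ` along vectors of the line bundle -/
theorem cont_along (hγ : Gam s t γ) {X : Type*} [TopologicalSpace X] {u : X → M} {w : X → W}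
    (hu : Continuous u) (hw : Continuous w) (h : ∀ x, PP s t (u x) (w x) = w x) :
    Continuous fun x => γ (u x) (w x) := by
  have h1 : Continuous fun x => γ (u x) (PP s t (u x) (w x)) := hγ.cont.comp (hu.prodMk hw)
  refine h1.congr fun x => ?_
  rw [h x]

theorem compactK (hb : Bun s t C₀) (r : ℝ) :
    IsCompact {q : M × W | ‖q.2‖ ≤ r ∧ PP s t q.1 q.2 = q.2} := by
  have h1 : IsCompact ((univ : Set M) ×ˢ Metric.closedBall (0 : W) r) :=
    isCompact_univ.prod (isCompact_closedBall 0 r)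
  refine (h1.inter_right (isClosed_eq (contPPa hb) continuous_snd)).of_isClosed_subset ?_ ?_
  · exact (isClosed_le (continuous_snd.norm) continuous_const).inter
      (isClosed_eq (contPPa hb) continuous_snd)
  · rintro q ⟨h2, h3⟩
    exact ⟨⟨mem_univ _, by simpa using h2⟩, h3⟩

/-- small stable distance means a small vector -/
theorem small_vec (hb : Bun s t C₀) (hγ : Gam s t γ) {r : ℝ} (hr : 0 < r) :
    ∃ σ : ℝ, 0 < σ ∧ ∀ x w, PP s t x w = w → γ x w ∈ Wl f σ x → ‖w‖ ≤ r := by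
  obtain ⟨εp, hεp, hprop⟩ := hγ.proper
  let K : Set (M × W) := {q | ‖q.2‖ ≤ 1 ∧ PP s t q.1 q.2 = q.2} ∩ {q | r ≤ ‖q.2‖}
  have hK : IsCompact K :=
    (compactK hb 1).inter_right (isClosed_le continuous_const continuous_snd.norm)
  rcases K.eq_empty_or_nonempty with he | hne
  · refine ⟨εp, hεp, fun x w hw h => ?_⟩
    by_contra hc
    push Not at hc
    have : ((x, w) : M × W) ∈ K := ⟨⟨hprop x w hw h, hw⟩, hc.le⟩
    rw [he] at this
    exact this
  · have hc : ContinuousOn (fun q : M × W => dist (γ q.1 q.2) q.1) K := by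
      have h1 : Continuous fun q : M × W => dist (γ q.1 (PP s t q.1 q.2)) q.1 :=
        hγ.cont.dist continuous_fst
      refine h1.continuousOn.congr fun q hq => ?_
      have := hq.1.2
      dsimp only
      rw [this]
    obtain ⟨q, hq, hmin⟩ := hK.exists_isMinOn hne hc
    have hpos : 0 < dist (γ q.1 q.2) q.1 := by
      rw [dist_pos]
      intro h
      have h1 : γ q.1 q.2 = γ q.1 0 := by rw [hγ.zero, h]
      have h2 := hγ.inj q.1 q.2 0 hq.1.2 (map_zero _) h1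
      have h3 : r ≤ ‖q.2‖ := hq.2
      rw [h2, norm_zero] at h3
      linarith
    refine ⟨min εp (dist (γ q.1 q.2) q.1 / 2), by positivity, fun x w hw h => ?_⟩
    by_contra hc
    push Not at hc
    have h1 : ((x, w) : M × W) ∈ K := ⟨⟨hprop x w hw (Wl_mono (min_le_left _ _) h), hw⟩, hc.le⟩
    have h2 : dist (γ q.1 q.2) q.1 ≤ dist (γ x w) x := hmin h1
    have h3 : dist (γ x w) x ≤ dist (γ q.1 q.2) q.1 / 2 :=
      (Wl_dist h).trans (min_le_right _ _)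
    linarith

/-- points on the negative side are far from the end point -/
theorem far (hb : Bun s t C₀) (hγ : Gam s t γ) {κ B : ℝ} (hκ : 0 < κ) (hB : 0 ≤ B) :
    ∃ σ : ℝ, 0 < σ ∧ ∀ x e, PP s t x e = e → ‖e‖ = κ → ∀ ρ ∈ Icc (-B) 0,
      σ ≤ dist (γ x (ρ • e)) (γ x e) := by
  let K : Set ((M × W) × ℝ) := ({q | ‖q.2‖ ≤ κ ∧ PP s t q.1 q.2 = q.2} ×ˢ Icc (-B) 0) ∩
    {q | ‖q.1.2‖ = κ}
  have hK : IsCompact K := ((compactK hb κ).prod isCompact_Icc).inter_right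
    (isClosed_eq (continuous_snd.comp continuous_fst).norm continuous_const)
  rcases K.eq_empty_or_nonempty with he | hne
  · refine ⟨1, one_pos, fun x e hx hκ' ρ hρ => ?_⟩
    have : (((x, e), ρ) : (M × W) × ℝ) ∈ K := ⟨⟨⟨hκ'.le, hx⟩, hρ⟩, hκ'⟩
    rw [he] at this
    exact this.elim
  · have hc : ContinuousOn (fun q : (M × W) × ℝ =>
        dist (γ q.1.1 (q.2 • q.1.2)) (γ q.1.1 q.1.2)) K := by
      have h1 : Continuous fun q : (M × W) × ℝ =>
          dist (γ q.1.1 (PP s t q.1.1 (q.2 • q.1.2))) (γ q.1.1 (PP s t q.1.1 q.1.2)) := by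
        refine Continuous.dist ?_ ?_
        · exact hγ.cont.comp ((continuous_fst.comp continuous_fst).prodMk
            (continuous_snd.smul (continuous_snd.comp continuous_fst)))
        · exact hγ.cont.comp ((continuous_fst.comp continuous_fst).prodMk
            (continuous_snd.comp continuous_fst))
      refine h1.continuousOn.congr fun q hq => ?_
      have h2 : PP s t q.1.1 q.1.2 = q.1.2 := hq.1.1.2
      dsimp only
      rw [map_smul, h2]
    obtain ⟨q, hq, hmin⟩ := hK.exists_isMinOn hne hc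
    have hq2 : PP s t q.1.1 q.1.2 = q.1.2 := hq.1.1.2
    have hpos : 0 < dist (γ q.1.1 (q.2 • q.1.2)) (γ q.1.1 q.1.2) := by
      rw [dist_pos]
      intro h
      have h1 := hγ.inj q.1.1 (q.2 • q.1.2) q.1.2 (by rw [map_smul, hq2]) hq2 h
      have h2 : (q.2 - 1) • q.1.2 = 0 := by rw [sub_smul, one_smul, h1, sub_self]
      have h3 : q.2 ≤ 0 := hq.1.2.2
      have h4 : ‖q.1.2‖ = κ := hq.2
      rcases smul_eq_zero.1 h2 with h5 | h5
      · linarith
      · rw [h5, norm_zero] at h4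
        linarith
    refine ⟨_, hpos, fun x e hx hκ' ρ hρ => ?_⟩
    exact hmin (show (((x, e), ρ) : (M × W) × ℝ) ∈ K from ⟨⟨⟨hκ'.le, hx⟩, hρ⟩, hκ'⟩)

/-- uniform continuity -/
theorem close (hγ : Gam s t γ) {κ δ : ℝ} (hδ : 0 < δ) :
    ∃ δ' : ℝ, 0 < δ' ∧ ∀ x e x' e', PP s t x e = e → PP s t x' e' = e' → ‖e‖ ≤ κ → ‖e'‖ ≤ κ →
      dist x x' < δ' → dist e e' < δ' → ∀ ρ ∈ Icc (-1 : ℝ) 1,
      dist (γ x (ρ • e)) (γ x' (ρ • e')) < δ := by
  have h1 : IsCompact ((univ : Set M) ×ˢ Metric.closedBall (0 : W) κ) :=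
    isCompact_univ.prod (isCompact_closedBall 0 κ)
  have h2 := h1.uniformContinuousOn_of_continuous hγ.cont.continuousOn
  rw [Metric.uniformContinuousOn_iff] at h2
  obtain ⟨δ', hδ', H⟩ := h2 δ hδ
  refine ⟨δ', hδ', fun x e x' e' hx hx' he he' h3 h4 ρ hρ => ?_⟩
  have hρ' : |ρ| ≤ 1 := abs_le.2 hρ
  have hn : ∀ w : W, ‖w‖ ≤ κ → ρ • w ∈ Metric.closedBall (0 : W) κ := by
    intro w hw
    rw [mem_closedBall_zero_iff, norm_smul, Real.norm_eq_abs]
    nlinarith [norm_nonneg w]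
  have h5 := H (x, ρ • e) ⟨mem_univ _, hn e he⟩ (x', ρ • e') ⟨mem_univ _, hn e' he'⟩ (by
    rw [Prod.dist_eq, max_lt_iff]
    refine ⟨h3, ?_⟩
    dsimp only
    rw [dist_eq_norm, ← smul_sub, norm_smul, Real.norm_eq_abs]
    rw [dist_eq_norm] at h4
    nlinarith [norm_nonneg (e - e')])
  dsimp only at h5
  rwa [map_smul, map_smul, hx, hx'] at h5

end PIGAux

open PIGAux TRANSAux

theorem specPig (hD : SpecDbl.{u}) (hF : SpecFix.{u}) : SpecPig.{u, v} := by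
  intro M W _ _ _ _ _ E f g s t C₀ ε C l γ hP hbun hγ m n hm hn
  have hb := hP.one.br
  have hε := hb.ε_pos
  obtain ⟨-, dsymm, dtrans, -⟩ := hD M f g.symm fun x => by
    have := hP.symm_right.comm x
    exact this
  obtain ⟨fix1, -, ⟨η, hη, fix3⟩, -⟩ := hF M f g ε C l hP m n hm hn
  obtain ⟨εp, hεp, hprop⟩ := hγ.proper
  obtain ⟨ε₁, hε₁, hε₁a, hε₁b⟩ : ∃ ε₁ : ℝ, 0 < ε₁ ∧ ε₁ ≤ ε / 4 ∧ ε₁ ≤ εp / 2 :=
    ⟨min (ε / 4) (εp / 2), by positivity, min_le_left _ _, min_le_right _ _⟩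
  obtain ⟨κ₀, hκ₀, hsmall⟩ := hγ.small ε₁ hε₁
  refine ⟨κ₀, hκ₀, fun κ hκ hκκ A hA hsat z e hz hPe he hout hfix ε' hε' N => ?_⟩
  obtain ⟨σκ, hσκ, hσκ'⟩ := small_vec hbun hγ hκ
  obtain ⟨σC, hσC, hσC'⟩ := far hbun hγ hκ (B := 1 / κ) (by positivity)
  obtain ⟨σ, hσ, s1, s2, s3, s4, s5, s6⟩ : ∃ σ : ℝ, 0 < σ ∧ σ ≤ η ∧ σ ≤ ε' ∧ σ ≤ ε / 4 ∧
      σ ≤ εp / 2 ∧ σ ≤ σκ ∧ σ ≤ σC / 2 := by
    refine ⟨min (min (min η ε') (min (ε / 4) (εp / 2))) (min σκ (σC / 2)), by positivity,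
      ?_, ?_, ?_, ?_, ?_, ?_⟩
    · exact (min_le_left _ _).trans ((min_le_left _ _).trans (min_le_left _ _))
    · exact (min_le_left _ _).trans ((min_le_left _ _).trans (min_le_right _ _))
    · exact (min_le_left _ _).trans ((min_le_right _ _).trans (min_le_left _ _))
    · exact (min_le_left _ _).trans ((min_le_right _ _).trans (min_le_right _ _))
    · exact (min_le_right _ _).trans (min_le_left _ _)
    · exact (min_le_right _ _).trans (min_le_right _ _)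
  obtain ⟨δb, hδb, hbr⟩ := hb.exist σ hσ
  obtain ⟨δ', hδ', hclose⟩ := close hγ (κ := κ) hδb
  -- two close indices
  obtain ⟨i, j, hNi, hij, hzij, heij⟩ : ∃ i j : ℕ, N ≤ i ∧ i < j ∧ dist (z i) (z j) < δ' ∧
      dist (e i) (e j) < δ' := by
    have hK : IsCompact ((univ : Set M) ×ˢ Metric.closedBall (0 : W) κ) :=
      isCompact_univ.prod (isCompact_closedBall 0 κ)
    obtain ⟨a, -, φ, hφ, hlim⟩ := hK.tendsto_subseq (x := fun i => ((z i, e i) : M × W))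
      (fun i => ⟨mem_univ _, by rw [mem_closedBall_zero_iff]; exact (he i).le⟩)
    rw [Metric.tendsto_atTop] at hlim
    obtain ⟨n₀, hn₀⟩ := hlim (δ' / 2) (by positivity)
    have h1 := hn₀ (max n₀ N) (le_max_left _ _)
    have h2 := hn₀ (max n₀ N + 1) ((le_max_left _ _).trans (Nat.le_succ _))
    have h3 := dist_triangle_right ((z (φ (max n₀ N)), e (φ (max n₀ N))) : M × W)
      (z (φ (max n₀ N + 1)), e (φ (max n₀ N + 1))) a
    have h4 : dist ((z (φ (max n₀ N)), e (φ (max n₀ N))) : M × W)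
      (z (φ (max n₀ N + 1)), e (φ (max n₀ N + 1))) < δ' := by
      simp only [comp_apply] at h1 h2
      linarith
    rw [Prod.dist_eq, max_lt_iff] at h4
    exact ⟨φ (max n₀ N), φ (max n₀ N + 1), (le_max_right _ _).trans (hφ.id_le _),
      hφ (Nat.lt_succ_self _), h4.1, h4.2⟩
  refine ⟨i, j, hNi, hij, ?_⟩
  have hei : e i ≠ 0 := by
    intro h
    have := he i
    rw [h, norm_zero] at this
    linarith
  have hej : e j ≠ 0 := by
    intro h
    have := he j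
    rw [h, norm_zero] at this
    linarith
  have hPi : ∀ ρ : ℝ, PP s t.swap (z i) (ρ • e i) = ρ • e i := fun ρ => by
    rw [map_smul, hPe i]
  have hPj : ∀ ρ : ℝ, PP s t.swap (z j) (ρ • e j) = ρ • e j := fun ρ => by
    rw [map_smul, hPe j]
  have hz0 : ∀ k, γ (z k) ((0 : ℝ) • e k) = z k := fun k => by rw [zero_smul, hγ.zero]
  have hcz : ∀ k, cc f g m n (z k) = z k := fun k => by
    have h1 := hfix k 0 (by constructor <;> norm_num)
    rwa [hz0 k] at h1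
  -- the bracket of `z i` and `z j`
  obtain ⟨α, hα1, hα2⟩ := hbr (z i) (z j) (by
    have h1 := hclose (z i) (e i) (z j) (e j) (hPe i) (hPe j) (he i).le (he j).le hzij heij 0
      (by constructor <;> norm_num)
    rwa [hz0 i, hz0 j] at h1)
  have hcα : cc f g m n α = α := fix3 (z i) (z j) α (hcz i) (hcz j) (Wl_mono s1 hα1)
    (Wl_mono s1 hα2)
  have hαA : α ∈ A := hsat (z j) (hz j) α
    (fa_symm (asymp_of_wl hP.one.decu (Wl_mono (by linarith) hα2)))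
  have hDα : Dbl f g.symm (z i) α := fix1 (z i) α (hcz i) hcα
    (fa_symm (asymp_of_wl hP.one.decs (Wl_mono (by linarith) hα1)))
  obtain ⟨w, hw, hwα⟩ := hγ.surj (z i) α hDα
  obtain ⟨ρ', hρ'⟩ := PLANEAux.exists_smul (PP s t.swap (z i)) (hbun.rank (z i)) (hPe i) hei hw
  have hwn : ‖w‖ ≤ κ := hσκ' (z i) w hw (by rw [hwα]; exact Wl_mono s5 hα1)
  have hρ1 : |ρ'| ≤ 1 := by
    rw [← hρ', norm_smul, he i, Real.norm_eq_abs] at hwn
    nlinarith
  have hρα : γ (z i) (ρ' • e i) = α := by rw [hρ', hwα]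
  have hρ0 : ρ' ≤ 0 := by
    by_contra hc
    push Not at hc
    exact hout i ρ' ⟨hc, (abs_le.1 hρ1).2⟩ (by rw [hρα]; exact hαA)
  rcases hρ0.eq_or_lt with hρ00 | hρneg
  · rw [hρ00, hz0 i] at hρα
    rw [hρα]
    exact Wl_mono s2 hα2
  exfalso
  have hρm : -1 ≤ ρ' := (abs_le.1 hρ1).1
  -- points of the two arcs
  have ha1 : ∀ ρ ∈ Icc (-1 : ℝ) 1, γ (z i) (ρ • e i) ∈ Wl f ε₁ (z i) := by
    intro ρ hρ
    refine hsmall _ _ (hPi ρ) ?_
    rw [norm_smul, he i, Real.norm_eq_abs]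
    have := abs_le.2 hρ
    nlinarith
  have hb1 : ∀ ρ ∈ Icc (-1 : ℝ) 1, γ (z j) (ρ • e j) ∈ Wl f ε₁ (z j) := by
    intro ρ hρ
    refine hsmall _ _ (hPj ρ) ?_
    rw [norm_smul, he j, Real.norm_eq_abs]
    have := abs_le.2 hρ
    nlinarith
  have hex : ∀ ρ ∈ Icc (-1 : ℝ) 1, ∃ x : ℝ,
      γ (z j) (x • e j) ∈ Wl f σ (γ (z j) (ρ • e j)) ∧
      γ (z j) (x • e j) ∈ Wl f.symm σ (γ (z i) (ρ • e i)) := by
    intro ρ hρ
    obtain ⟨q, hq1, hq2⟩ := hbr (γ (z j) (ρ • e j)) (γ (z i) (ρ • e i)) (by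
      rw [dist_comm]
      exact hclose (z i) (e i) (z j) (e j) (hPe i) (hPe j) (he i).le (he j).le hzij heij ρ hρ)
    have hcq : cc f g m n q = q := fix3 _ _ q (hfix j ρ hρ) (hfix i ρ hρ) (Wl_mono s1 hq1)
      (Wl_mono s1 hq2)
    have hDq : Dbl f g.symm (γ (z j) (ρ • e j)) q := fix1 _ q (hfix j ρ hρ) hcq
      (fa_symm (asymp_of_wl hP.one.decs (Wl_mono (by linarith) hq1)))
    obtain ⟨w', hw', hwq⟩ := hγ.surj (z j) q (dtrans _ _ _ (hγ.dbl (z j) _ (hPj ρ)) hDq)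
    obtain ⟨x, hx⟩ := PLANEAux.exists_smul (PP s t.swap (z j)) (hbun.rank (z j)) (hPe j) hej hw'
    refine ⟨x, ?_, ?_⟩
    · rw [hx, hwq]; exact hq1
    · rw [hx, hwq]; exact hq2
  have huniq : ∀ ρ : ℝ, ∀ x y : ℝ,
      γ (z j) (x • e j) ∈ Wl f ε (γ (z j) (ρ • e j)) →
      γ (z j) (x • e j) ∈ Wl f.symm ε (γ (z i) (ρ • e i)) →
      γ (z j) (y • e j) ∈ Wl f ε (γ (z j) (ρ • e j)) →
      γ (z j) (y • e j) ∈ Wl f.symm ε (γ (z i) (ρ • e i)) → x = y := by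
    intro ρ x y h1 h2 h3 h4
    have h5 := hb.unique _ _ _ _ h1 h2 h3 h4
    have h6 := hγ.inj (z j) _ _ (hPj x) (hPj y) h5
    exact smul_left_injective ℝ hej h6
  have hbd : ∀ ρ ∈ Icc (-1 : ℝ) 1, ∀ x : ℝ,
      γ (z j) (x • e j) ∈ Wl f σ (γ (z j) (ρ • e j)) → |x| ≤ 1 / κ := by
    intro ρ hρ x hx
    have h1 := Wl_trans (hb1 ρ hρ) hx
    have h2 := hprop (z j) _ (hPj x) (Wl_mono (by linarith) h1)
    rw [norm_smul, he j, Real.norm_eq_abs] at h2
    rwa [le_div_iff₀ hκ]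
  choose! π hπ1 hπ2 using hex
  have hsub : Icc ρ' 1 ⊆ Icc (-1 : ℝ) 1 := Icc_subset_Icc hρm le_rfl
  have hcont : ContinuousOn π (Icc ρ' 1) := by
    have c1 : Continuous fun q : ℝ × ℝ => γ (z j) (q.2 • e j) :=
      cont_along hγ continuous_const (continuous_snd.smul continuous_const) fun q => hPj q.2
    have c2 : Continuous fun q : ℝ × ℝ => γ (z j) (q.1 • e j) :=
      cont_along hγ continuous_const (continuous_fst.smul continuous_const) fun q => hPj q.1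
    have c3 : Continuous fun q : ℝ × ℝ => γ (z i) (q.1 • e i) :=
      cont_along hγ continuous_const (continuous_fst.smul continuous_const) fun q => hPi q.1
    refine contOn_of_graph (K := Icc (-(1 / κ)) (1 / κ)) isCompact_Icc
      (G := {q : ℝ × ℝ | γ (z j) (q.2 • e j) ∈ Wl f σ (γ (z j) (q.1 • e j))} ∩
        {q : ℝ × ℝ | γ (z j) (q.2 • e j) ∈ Wl f.symm σ (γ (z i) (q.1 • e i))})
      ((closed_wl f σ c1 c2).inter (closed_wl f.symm σ c1 c3)) ?_ ?_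
    · intro ρ hρ
      exact ⟨abs_le.1 (hbd ρ (hsub hρ) _ (hπ1 ρ (hsub hρ))), hπ1 ρ (hsub hρ), hπ2 ρ (hsub hρ)⟩
    · rintro ρ hρ x - ⟨h1, h2⟩
      exact huniq ρ x (π ρ) (Wl_mono (by linarith) h1) (Wl_mono (by linarith) h2)
        (Wl_mono (by linarith) (hπ1 ρ (hsub hρ))) (Wl_mono (by linarith) (hπ2 ρ (hsub hρ)))
  have hinj : InjOn π (Icc ρ' 1) := by
    intro ρ₁ h₁ ρ₂ h₂ h12
    have q1 := hπ2 ρ₁ (hsub h₁)
    have q2 := hπ2 ρ₂ (hsub h₂)
    rw [h12] at q1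
    have h3 : γ (z i) (ρ₁ • e i) ∈ Wl f.symm (σ + σ) (γ (z i) (ρ₂ • e i)) :=
      Wl_trans q2 (Wl_comm q1)
    have h4 : γ (z i) (ρ₁ • e i) ∈ Wl f (ε₁ + ε₁) (γ (z i) (ρ₂ • e i)) :=
      Wl_trans (Wl_comm (ha1 ρ₂ (hsub h₂))) (ha1 ρ₁ (hsub h₁))
    have h5 := hb.unique _ _ _ _ (Wl_mono (by linarith) h4) (Wl_mono (by linarith) h3)
      (mem_Wl_self hε.le) (mem_Wl_self hε.le)
    have h6 := hγ.inj (z i) _ _ (hPi ρ₁) (hPi ρ₂) h5
    exact smul_left_injective ℝ hei h6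
  have hρ'mem : ρ' ∈ Icc ρ' 1 := ⟨le_rfl, by linarith⟩
  have h1mem : (1 : ℝ) ∈ Icc ρ' 1 := ⟨by linarith, le_rfl⟩
  have h0mem : (0 : ℝ) ∈ Icc ρ' 1 := ⟨hρneg.le, zero_le_one⟩
  have hπρ' : π ρ' = 0 := by
    refine huniq ρ' (π ρ') 0 (Wl_mono (by linarith) (hπ1 ρ' (hsub hρ'mem)))
      (Wl_mono (by linarith) (hπ2 ρ' (hsub hρ'mem))) ?_ ?_
    · rw [hz0 j]
      exact Wl_mono (by linarith) (Wl_comm (hb1 ρ' (hsub hρ'mem)))
    · rw [hz0 j, hρα]
      exact Wl_mono (by linarith) (Wl_comm hα2)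
  have hπ1pos : 0 < π 1 := by
    by_contra hc
    push Not at hc
    have h1 := abs_le.1 (hbd 1 (hsub h1mem) _ (hπ1 1 (hsub h1mem)))
    have h2 := hσC' (z j) (e j) (hPe j) (he j) (π 1) ⟨h1.1, hc⟩
    have h3 := Wl_dist (hπ1 1 (hsub h1mem))
    rw [one_smul] at h3
    linarith
  have hmono := hcont.strictMonoOn_of_injOn_Icc (by linarith : ρ' ≤ 1)
    (by rw [hπρ']; exact hπ1pos.le) hinj
  have hπ0 : 0 < π 0 := by
    have := hmono hρ'mem h0mem hρneg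
    rwa [hπρ'] at this
  have hπ01 : π 0 ≤ 1 := by
    have h1 := hπ1 0 (hsub h0mem)
    rw [hz0 j] at h1
    have h2 := hσκ' (z j) _ (hPj (π 0)) (Wl_mono s5 h1)
    rw [norm_smul, he j, Real.norm_eq_abs, abs_of_pos hπ0] at h2
    nlinarith
  refine hout j (π 0) ⟨hπ0, hπ01⟩ (hsat (z i) (hz i) _ ?_)
  have h1 := hπ2 0 (hsub h0mem)
  rw [hz0 i] at h1
  exact fa_symm (asymp_of_wl hP.one.decu (Wl_mono (by linarith) h1))

end Pool.Agent.Lib.MP610fe3.HR
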