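import Pool.Agent.Lib.MP_610fe3_an.HR.F1Spec

/-!
# Module WALLF: the wall lemma near the wall
-/

set_option autoImplicit false

open Set Filter Function
open scoped Topology

namespace Pool.Agent.Lib.MP610fe3.HR

open Cf CH

universe u v

/-- **The wall lemma near the wall.** -/
theorem specWallf (hCu : SpecCu.{u, v}) (hNofr : SpecNofr.{u, v}) (hStrt : SpecStrt.{u, v})
    (hGaex : SpecGaex.{u}) (hRch : SpecRch.{u, v}) (hGam : SpecGam.{u, v})
    (hPair : SpecPair.{u, v}) (hPerx : SpecPerx.{u}) : SpecWallf.{u, v} := by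
  intro M W _ _ _ _ _ _ E f g s t C₀ δ C₁ B Q L lg J hB hNw A hA
  have hfg : ∀ x, f (g x) = g (f x) := by
    intro x
    apply g.symm.injective
    rw [g.symm_apply_apply, ← hB.comm (g x), g.symm_apply_apply]
  obtain ⟨ε, C, l, P⟩ := hPair M W E f g s t hB.hs hB.ht.swap hfg
  obtain ⟨γ, hγ⟩ := hGam M W E f g.symm s t.swap C₀ hB
  have hU : CUp f g := hCu M W E f g s t C₀ δ C₁ B Q L lg ε C l J hB P hNw
  obtain ⟨e, he, hR⟩ := hRch M W E f s hB.hs
  obtain ⟨A', hGA, hsub, hper⟩ := hGaex M f g ε C l P A hA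
  refine hPerx M f g ε C l P A hA fun p hp hpp y hy => hper p hp hpp y hy ?_
  by_contra hyA
  obtain ⟨a, u, hu, hF⟩ := hStrt M W E f g s t C₀ γ A' hB hγ hGA.closed hGA.inv p (hsub hp) y hy
    hyA
  exact hNofr M W E f g s t C₀ ε C l e γ A' hB P hγ hU hGA he hR a u hu hF

end Pool.Agent.Lib.MP610fe3.HR
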