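import Pool.Agent.Lib.MP_610fe3_an.HR.Main2
import Pool.Agent.Lib.MP_610fe3_an.HR.F1ARC
import Pool.Agent.Lib.MP_610fe3_an.HR.F1CHAIN
import Pool.Agent.Lib.MP_610fe3_an.HR.F1CMP
import Pool.Agent.Lib.MP_610fe3_an.HR.F1CRT
import Pool.Agent.Lib.MP_610fe3_an.HR.F1CU
import Pool.Agent.Lib.MP_610fe3_an.HR.F1DEFC
import Pool.Agent.Lib.MP_610fe3_an.HR.F1GAEX
import Pool.Agent.Lib.MP_610fe3_an.HR.F1GRX
import Pool.Agent.Lib.MP_610fe3_an.HR.F1HOLC
import Pool.Agent.Lib.MP_610fe3_an.HR.F1L31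
import Pool.Agent.Lib.MP_610fe3_an.HR.F1LIMS
import Pool.Agent.Lib.MP_610fe3_an.HR.F1LIP
import Pool.Agent.Lib.MP_610fe3_an.HR.F1NARI
import Pool.Agent.Lib.MP_610fe3_an.HR.F1NEAR
import Pool.Agent.Lib.MP_610fe3_an.HR.F1NOFR
import Pool.Agent.Lib.MP_610fe3_an.HR.F1RCH
import Pool.Agent.Lib.MP_610fe3_an.HR.F1RTC
import Pool.Agent.Lib.MP_610fe3_an.HR.F1RTX
import Pool.Agent.Lib.MP_610fe3_an.HR.F1STAGE
import Pool.Agent.Lib.MP_610fe3_an.HR.F1STEP
import Pool.Agent.Lib.MP_610fe3_an.HR.F1STRT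
import Pool.Agent.Lib.MP_610fe3_an.HR.F1UNI
import Pool.Agent.Lib.MP_610fe3_an.HR.F1WALLF

/-!
# Actions of `ℤ^k`, pairs with one member of dimension one: assembly of the modules
-/

set_option autoImplicit false

open Set Filter Function Bundle
open scoped Topology Manifold ContDiff

namespace Pool.Agent.Lib.MP610fe3.HR

open CH

universe u v w

theorem near : SpecNear.{u, v, w} := specNear specNari specCrt specRtx specRtc

/-- The one-sided wall lemma. -/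
theorem wallf : SpecWallf.{u, v} :=
  specWallf (specCu specL31 specLip (specDefc (specGrx specDbl specCoc specGrw') specL31) specHolc)
    (specNofr (specStage specCoc (specStep specDbl specCoc) (specUni specL31 specCmp specDbl)
      specDbl) (specLims (specArc (specRep specDbl specCoc)) specCmp) specCoc)
    (specStrt specCoc (specRep specDbl specCoc) specDbl)
    (specGaex specDbl specProd specBas specMin') specRch specGam' specPair
    (specPerx specDbl specProd specMin')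

theorem chainf : SpecChainf.{u, v, w} :=
  specChainf near wallf specArithm (specChn1 specMin') specPair

variable {V : Type v} [NormedAddCommGroup V] [NormedSpace ℝ V] [FiniteDimensional ℝ V]
  {M : Type u} [TopologicalSpace M] [CompactSpace M] [T2Space M] [ConnectedSpace M]
  [ChartedSpace V M] [IsManifold 𝓘(ℝ, V) ∞ M]
  [RiemannianBundle (fun x : M => TangentSpace 𝓘(ℝ, V) x)]
  [IsContinuousRiemannianBundle V (fun x : M => TangentSpace 𝓘(ℝ, V) x)]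

/-- **Theorem F1.** -/
theorem mainf {k : ℕ} (A : (Fin k → ℤ) → M ≃ₘ^1⟮𝓘(ℝ, V), 𝓘(ℝ, V)⟯ M)
    (hadd : ∀ n n' x, A (n + n') x = A n (A n' x)) {J : Type w} [Finite J] (χ : J → Fin k → ℝ)
    (F : J → ∀ x : M, Submodule ℝ (TangentSpace 𝓘(ℝ, V) x))
    (hA : ∀ n : Fin k → ℤ, (∀ j, ∑ i, χ j i * (n i : ℝ) ≠ 0) → Gen.IsAnosovSplitting (A n)
      (fun x => ⨆ (j) (_ : ∑ i, χ j i * (n i : ℝ) < 0), F j x)
      (fun x => ⨆ (j) (_ : 0 < ∑ i, χ j i * (n i : ℝ)), F j x))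
    (n₀ : Fin k → ℤ) (hn₀ : ∀ j, ∑ i, χ j i * (n₀ i : ℝ) ≠ 0)
    (hpair : ∀ i j, ∀ t : ℝ, 0 < t → χ i = -(t • χ j) → ∑ a, χ i a * (n₀ a : ℝ) < 0 →
      (∀ n, ContMDiff 𝓘(ℝ, V) 𝓘(ℝ, V) 2 (A n)) ∧
      ∀ x, Module.finrank ℝ (⨆ (l) (_ : ∃ c : ℝ, 0 < c ∧ χ l = c • χ i), F l x :
        Submodule ℝ (TangentSpace 𝓘(ℝ, V) x)) = 1)
    (n : Fin k → ℤ) (hn : ∀ j, ∑ i, χ j i * (n i : ℝ) ≠ 0) : TopTransitive (A n) :=
  main_f1 chainf specAct A hadd χ F hA n₀ hn₀ hpair n hn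

end Pool.Agent.Lib.MP610fe3.HR
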