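import Pool.Agent.Lib.MP_610fe3_an.HR.F1Spec

/-!
# STRT: start of a free segment
-/

set_option autoImplicit false

open Set Filter Function
open scoped Topology

namespace Pool.Agent.Lib.MP610fe3.HR

open Cf CH

universe u v

namespace F1STRTAux

variable {M W : Type*} [MetricSpace M] [NormedAddCommGroup W] [NormedSpace ℝ W]
  {E : Emb M W} {f g : M ≃ₜ M} {s : Split E f} {t : Split E g} {γ : M → W → M}

theorem S_of_PP {x : M} {w : W} (hw : PP s t x w = w) : s.S x w = w := by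
  conv_lhs => rw [← hw]
  conv_rhs => rw [← hw]
  exact congrArg (fun L : W →L[ℝ] W => L (t.S x w)) (s.SS x)

/-- one step backwards -/
theorem pull {k : Coc W f} (hk : IsCoc s t k) (hG : Gam s t γ) {x : M} {w : W}
    (hw : PP s t x w = w) :
    PP s t (f.symm x) (s.Di x w) = s.Di x w ∧ s.D (f.symm x) (s.Di x w) = w ∧
      ∀ ρ : ℝ, f.symm (γ x (ρ • w)) = γ (f.symm x) (ρ • s.Di x w) := by
  have h1 := k.DiS x w
  rw [hk.S, hk.Di, hw] at h1
  have h2 := k.inv2 x w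
  rw [hk.S, hk.Di, hk.D, hw] at h2
  refine ⟨h1, h2, fun ρ => ?_⟩
  rw [Homeomorph.symm_apply_eq, hG.eqf _ _ (by rw [map_smul, h1]), map_smul, h2,
    f.apply_symm_apply]

/-- several steps backwards -/
theorem pull_iter {k : Coc W f} (hk : IsCoc s t k) (hG : Gam s t γ) (n : ℕ) :
    ∀ {x : M} {w : W}, PP s t x w = w →
      PP s t (f.symm^[n] x) (iterD s.Di f.symm n x w) = iterD s.Di f.symm n x w ∧
      iterD s.D f n (f.symm^[n] x) (iterD s.Di f.symm n x w) = w ∧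
      ∀ ρ : ℝ, f.symm^[n] (γ x (ρ • w)) = γ (f.symm^[n] x) (ρ • iterD s.Di f.symm n x w) := by
  induction n with
  | zero => intro x w hw; exact ⟨hw, rfl, fun ρ => rfl⟩
  | succ n ih =>
    intro x w hw
    obtain ⟨h1, h2, h3⟩ := pull hk hG hw
    obtain ⟨i1, i2, i3⟩ := ih h1
    refine ⟨i1, ?_, fun ρ => ?_⟩
    · have h4 := k.A_succ n (f.symm^[n] (f.symm x)) (iterD s.Di f.symm n (f.symm x) (s.Di x w))
      rw [Coc.A, Coc.A, hk.D, i2] at h4
      have h5 : f^[n] (f.symm^[n] (f.symm x)) = f.symm x :=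
        (show LeftInverse f f.symm from fun y => f.apply_symm_apply y).iterate n (f.symm x)
      rw [h5, h2] at h4
      exact h4
    · rw [iterate_succ_apply, h3, i3]
      rfl

/-- Contraction of vectors of the line bundle. -/
theorem norm_iterD (hs : s.Hyperbolic) : ∃ C l : ℝ, 0 < C ∧ 0 < l ∧ l < 1 ∧
    ∀ (n : ℕ) (x : M) (w : W), PP s t x w = w → ‖iterD s.D f n x w‖ ≤ C * l ^ n * ‖w‖ := by
  obtain ⟨C, l, hC, hl, hl1, H⟩ := hs
  refine ⟨C, l, hC, hl, hl1, fun n x w hw => ?_⟩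
  have h := (H n x w).1
  rwa [S_of_PP hw] at h

theorem symm_mem {A : Set M} (hA : f '' A = A) {a : M} (h : a ∈ A) : f.symm a ∈ A := by
  rw [← hA] at h
  obtain ⟨b, hb, rfl⟩ := h
  rwa [f.symm_apply_apply]

theorem fwd_mem {A : Set M} (hA : f '' A = A) {a : M} (h : f.symm a ∈ A) : a ∈ A := by
  rw [← hA]
  exact ⟨f.symm a, h, f.apply_symm_apply a⟩

theorem fre_pull {k : Coc W f} (hk : IsCoc s t k) (hG : Gam s t γ) {A : Set M}
    (hA : f '' A = A) {a : M} {u : W} (h : Fre s t γ A a u) :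
    Fre s t γ A (f.symm a) (s.Di a u) := by
  obtain ⟨h1, h2, h3⟩ := h
  obtain ⟨p1, p2, p3⟩ := pull hk hG h2
  refine ⟨symm_mem hA h1, p1, fun ρ hρ hmem => h3 ρ hρ ?_⟩
  rw [← p3] at hmem
  exact fwd_mem hA hmem

theorem fre_iter {k : Coc W f} (hk : IsCoc s t k) (hG : Gam s t γ) {A : Set M}
    (hA : f '' A = A) {a : M} {u : W} (h : Fre s t γ A a u) (n : ℕ) :
    ∃ a' u', Fre s t γ A a' u' ∧ iterD s.D f n a' u' = u := by
  induction n with
  | zero => exact ⟨a, u, h, rfl⟩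
  | succ n ih =>
    obtain ⟨a', u', h1, h2⟩ := ih
    refine ⟨f.symm a', s.Di a' u', fre_pull hk hG hA h1, ?_⟩
    have h3 : iterD s.D f (n + 1) (f.symm a') (s.Di a' u')
        = iterD s.D f n (f (f.symm a')) (s.D (f.symm a') (s.Di a' u')) := rfl
    rw [h3, f.apply_symm_apply, (pull hk hG h1.2.1).2.1, h2]

/-- Normalization. -/
theorem fre_unit {k : Coc W f} (hk : IsCoc s t k) (hs : s.Hyperbolic) (hG : Gam s t γ)
    {A : Set M} (hA : f '' A = A) {a : M} {u : W} (h : Fre s t γ A a u) (hu : u ≠ 0) :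
    ∃ a' u', ‖u'‖ = 1 ∧ Fre s t γ A a' u' := by
  obtain ⟨C, l, hC, hl, hl1, H⟩ := norm_iterD (t := t) hs
  have ht : Tendsto (fun n : ℕ => C * l ^ n) atTop (𝓝 (C * 0)) :=
    (tendsto_pow_atTop_nhds_zero_of_lt_one hl.le hl1).const_mul C
  rw [mul_zero] at ht
  obtain ⟨n, hn⟩ := (ht.eventually (gt_mem_nhds (norm_pos_iff.2 hu))).exists
  obtain ⟨a', u', h1, h2⟩ := fre_iter hk hG hA h n
  have h3 := H n a' u' h1.2.1
  rw [h2] at h3
  have h4 : 1 ≤ ‖u'‖ := by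
    by_contra hcon
    push Not at hcon
    have h5 : C * l ^ n * ‖u'‖ ≤ C * l ^ n * 1 :=
      mul_le_mul_of_nonneg_left hcon.le (by positivity)
    linarith
  have h0 : 0 < ‖u'‖ := by linarith
  refine ⟨a', ‖u'‖⁻¹ • u', ?_, h1.1, ?_, fun ρ hρ => ?_⟩
  · rw [norm_smul, norm_inv, norm_norm, inv_mul_cancel₀ h0.ne']
  · rw [map_smul, h1.2.1]
  · rw [smul_smul]
    refine h1.2.2 _ ⟨mul_pos hρ.1 (inv_pos.2 h0), ?_⟩
    calc ρ * ‖u'‖⁻¹ ≤ 1 * 1 := by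
          gcongr
          · exact hρ.2
          · exact inv_le_one_of_one_le₀ h4
      _ = 1 := one_mul 1

end F1STRTAux

open F1STRTAux

/-- **STRT**: start of a free segment. -/
theorem specStrt (hC : SpecCoc.{u, v}) (hR : SpecRep.{u, v}) (hD : SpecDbl.{u}) :
    SpecStrt.{u, v} := by
  intro M W _ _ _ _ _ E f g s t C₀ γ A hB hG hAc hA p hp y hy hyA
  obtain ⟨k, hk⟩ := hC M W E f g.symm s t.swap C₀ hB
  obtain ⟨-, hsym, -, -⟩ := hD M f g.symm hB.comm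
  obtain ⟨w, hw, rfl⟩ := hG.surj p y hy
  have hw' : ∀ ρ : ℝ, PP s t.swap p (ρ • w) = ρ • w := fun ρ => by rw [map_smul, hw]
  have hcont : Continuous fun ρ : ℝ => γ p (ρ • w) := by
    have h1 : (fun ρ : ℝ => γ p (ρ • w)) = fun ρ : ℝ =>
        (fun q : M × W => γ q.1 (PP s t.swap q.1 q.2)) (p, ρ • w) := by
      funext ρ
      simp only [hw']
    rw [h1]
    exact hG.cont.comp (continuous_const.prodMk (continuous_id.smul continuous_const))
  -- the last point in `A`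
  have hSc : IsCompact (Icc (0 : ℝ) 1 ∩ (fun ρ : ℝ => γ p (ρ • w)) ⁻¹' A) :=
    isCompact_Icc.inter_right (hAc.preimage hcont)
  have hS0 : (0 : ℝ) ∈ Icc (0 : ℝ) 1 ∩ (fun ρ : ℝ => γ p (ρ • w)) ⁻¹' A := by
    refine ⟨⟨le_rfl, zero_le_one⟩, ?_⟩
    show γ p ((0 : ℝ) • w) ∈ A
    rw [zero_smul, hG.zero]
    exact hp
  obtain ⟨ρ₀, ⟨⟨h00, h01⟩, hρA⟩, hmax⟩ := hSc.exists_isGreatest ⟨0, hS0⟩
  have hρA' : γ p (ρ₀ • w) ∈ A := hρA
  have hne : ρ₀ ≠ 1 := by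
    rintro rfl
    rw [one_smul] at hρA'
    exact hyA hρA'
  have hlt : ρ₀ < 1 := lt_of_le_of_ne h01 hne
  have hafter : ∀ ρ, ρ₀ < ρ → ρ ≤ 1 → γ p (ρ • w) ∉ A := by
    intro ρ h1 h2 h3
    have := hmax ⟨⟨h00.trans h1.le, h2⟩, h3⟩
    linarith
  obtain ⟨a, ha⟩ : ∃ a, a = γ p (ρ₀ • w) := ⟨_, rfl⟩
  rw [← ha] at hρA'
  -- a nonzero vector at `a`
  obtain ⟨u₀, hu₀, hu₀ne⟩ : ∃ u₀, PP s t.swap a u₀ = u₀ ∧ u₀ ≠ 0 := by
    obtain ⟨w', hw'⟩ := k.S_ne a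
    have h1 := k.SS a w'
    rw [hk.S] at h1 hw'
    exact ⟨_, h1, hw'⟩
  have hpa : Dbl f g.symm a p := by
    refine hsym _ _ ?_
    rw [ha]
    exact hG.dbl p _ (hw' ρ₀)
  have hwne : w ≠ 0 := by
    rintro rfl
    rw [hG.zero] at hyA
    exact hyA hp
  obtain ⟨τ, hτc, hτi, hτ⟩ := hR M W E f g.symm s t.swap C₀ γ hB hG a p u₀ w hpa hu₀ hu₀ne hw
  have hτi := hτi hwne
  have hu₀' : ∀ ρ : ℝ, PP s t.swap a (ρ • u₀) = ρ • u₀ := fun ρ => by rw [map_smul, hu₀]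
  have hτ0 : τ ρ₀ = 0 := by
    have h1 : γ a (τ ρ₀ • u₀) = γ a 0 := by rw [← hτ, ← ha, hG.zero]
    have h2 := hG.inj a _ _ (hu₀' _) (map_zero _) h1
    exact (smul_eq_zero.1 h2).resolve_right hu₀ne
  have hτ1 : τ 1 ≠ 0 := by
    intro h
    exact hne (hτi (hτ0.trans h.symm))
  have hfre : Fre s t.swap γ A a (τ 1 • u₀) := by
    refine ⟨hρA', hu₀' _, fun σ hσ => ?_⟩
    rw [smul_smul]
    have h1 : σ * τ 1 ∈ uIcc (τ ρ₀) (τ 1) := by
      rw [hτ0, mem_uIcc]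
      rcases lt_or_gt_of_ne hτ1 with h | h
      · right
        constructor
        · nlinarith [hσ.1, hσ.2]
        · nlinarith [hσ.1, hσ.2]
      · left
        constructor
        · nlinarith [hσ.1, hσ.2]
        · nlinarith [hσ.1, hσ.2]
    obtain ⟨ρ, hρ, hρτ⟩ := intermediate_value_uIcc hτc.continuousOn h1
    rw [uIcc_of_le h01] at hρ
    rw [← hρτ, ← hτ]
    refine hafter ρ (lt_of_le_of_ne hρ.1 ?_) hρ.2
    rintro rfl
    rw [hτ0] at hρτ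
    exact (mul_ne_zero hσ.1.ne' hτ1) hρτ.symm
  obtain ⟨a', u', h1, h2⟩ := fre_unit hk hB.hs hG hA hfre (smul_ne_zero hτ1 hu₀ne)
  exact ⟨a', u', h1, h2⟩

end Pool.Agent.Lib.MP610fe3.HR
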