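import Pool.Agent.Lib.MP_610fe3_an.HR.Spec3

/-!
# Pairs (1, arbitrary): definitions and statements of the modules (hive F1)

Paper proof: `/team-store/MP_610fe3_an_ONED_h76.md`. A module `XXX` proves
`theorem specXxx (h : SpecYyy) .. : SpecXxx` in its own file `HR/F1XXX.lean` (namespace
`Pool.Agent.Lib.MP610fe3.HR`, auxiliary lemmas in the sub-namespace `F1XXXAux`).

`f` is near the wall, `X` = leaves of `Dbl f g.symm` (lines, parametrized by `γ`), `C` = leaves of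
`Dbl f g`, `W^s(f) = C × X`; nothing is known about the unstable bundle of `f`.
-/

set_option autoImplicit false

open Set Filter Function Bundle
open scoped Topology Manifold ContDiff

namespace Pool.Agent.Lib.MP610fe3.HR

open Cf CH

universe u v w

section Defs

variable {M : Type*} [MetricSpace M]

/-- Increasing reparametrizations of `[0, 1]`. -/
structure Tau (τ : ℝ → ℝ) : Prop where
  cont : ContinuousOn τ (Icc 0 1)
  mono : StrictMonoOn τ (Icc 0 1)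
  zero : τ 0 = 0
  one : τ 1 = 1

/-- Points of small unstable plaques, and their images, are joined by boundedly many small
unstable links. -/
def Rch (f : M ≃ₜ M) (e : ℝ) : Prop :=
  ∀ r : ℝ, 0 < r → ∀ m : ℕ, ∃ K : ℕ, ∀ p q, q ∈ Wl f.symm e p → ∃ k ≤ K, ∃ c : ℕ → M,
    c 0 = f^[m] p ∧ c k = f^[m] q ∧ ∀ i < k, c (i + 1) ∈ Wl f.symm r (c i)

/-- Local joint integrability of the leaves `X` and of the unstable leaves of `f`. -/
def CUp (f g : M ≃ₜ M) : Prop :=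
  ∃ ε : ℝ, 0 < ε ∧ ∀ a z z' q, z ∈ Lf f g.symm ε a → z' ∈ Wl f.symm ε z → q ∈ Wl f.symm ε a →
    q ∈ Wl f ε z' → Dbl f g.symm q z'

/-- The closed invariant set `A` with the properties (S2), (S3). -/
structure GA (f g : M ≃ₜ M) (A : Set M) : Prop where
  closed : IsClosed A
  sat : Sat f.symm A
  inv : f '' A = A
  s2 : ∀ a ∈ A, ∀ a' ∈ A, ∀ y, Dbl f g.symm a y → Dbl f g y a' → y ∈ A
  s3 : ∀ m, (∀ a ∈ A, ¬ Dbl f g m a) → ∃ r, Dbl f.symm g m r ∧ ∀ a ∈ A, ¬ FwdAsymp f r a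

variable {W : Type*} [NormedAddCommGroup W] [NormedSpace ℝ W] {E : Emb M W} {f g : M ≃ₜ M}

/-- The segment `γ a ([0, 1] u)` starts in `A` and is outside `A` otherwise. -/
def Fre (s : Split E f) (t : Split E g) (γ : M → W → M) (A : Set M) (a : M) (u : W) : Prop :=
  a ∈ A ∧ PP s t a u = u ∧ ∀ ρ ∈ Ioc (0 : ℝ) 1, γ a (ρ • u) ∉ A

/-- `f` is near the wall: `f⁻¹` expands the leaves `X` with the rate `B`, `f` contracts the leaves
`C` with a much smaller rate `Q`. The constants `L`, `lg` belong to `g`. -/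
structure Nw (s : Split E f) (t : Split E g) (δ C₁ B Q L lg : ℝ) (J : ℕ) : Prop where
  δ_pos : 0 < δ
  C_one : 1 ≤ C₁
  B_one : 1 ≤ B
  Q_pos : 0 < Q
  Q_lt : Q < 1
  L_one : 1 ≤ L
  lg_pos : 0 < lg
  lg_lt : lg < 1
  BJ : B * lg ^ J < 1
  QJ : Q * L ^ J < lg ^ J
  lip : ∀ x y, dist (g.symm x) (g.symm y) ≤ L * dist x y
  decg : Dec g δ C₁ lg
  decg' : Dec g.symm δ C₁ lg
  xgr : ∀ (m : ℕ) x w, PP s t.swap x w = w → ‖iterD s.Di f.symm m x w‖ ≤ C₁ * B ^ m * ‖w‖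
  cdec : ∀ x z, z ∈ Wl f δ x → z ∈ Wl g δ x → ∀ m : ℕ,
    dist (f^[m] z) (f^[m] x) ≤ C₁ * Q ^ m * dist z x

end Defs

/-! ### Joint integrability (near the wall) -/

/-- L31. Local form of (3.1): see `PRODAux.exists_core`, `dbl_of`. The point `z` is the bracket for
`g` of `x` and `y`; `f^k z` is the bracket of `f^k x` and `f^k y` (uniqueness), so it is close to
both for all `k ≥ 0`. By (3.2) it is the only point with the first two properties. -/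
def SpecL31 : Prop :=
  ∀ (M : Type u) [MetricSpace M] [CompactSpace M] (f g : M ≃ₜ M) (ε C l : ℝ), Pair f g ε C l →
    ∀ ε' : ℝ, 0 < ε' → ∃ δ : ℝ, 0 < δ ∧ ∀ x y, y ∈ Wl f δ x → ∃ z, Dbl f g x z ∧
      Dbl f g.symm z y ∧ z ∈ Wl f ε' x ∧ z ∈ Wl f ε' y ∧ z ∈ Wl g ε' x ∧ z ∈ Wl g.symm ε' y

/-- LIP. Small pieces of the leaves `X` are Lipschitz curves. From COC, GRW, FLT, SRJ (for
`t.swap`): `c ρ` is the point of `Lf f g.symm ε a` with `ψ a (c ρ) = ρ • ψ a z` (SRJ, `Flt.inj`,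
closeness of all the points by `Flt.lower`, `GRW.upper`), and
`dist (c ρ) (c ρ') ≤ 2 ‖ψ (c ρ) (c ρ')‖ ≤ 2 ‖Q‖ ‖ψ a (c ρ') - ψ a (c ρ)‖` by `Flt.trans`; `Q` is
bounded by `Q_cont` and compactness. -/
def SpecLip : Prop :=
  ∀ (M : Type u) (W : Type v) [MetricSpace M] [CompactSpace M] [NormedAddCommGroup W]
    [InnerProductSpace ℝ W] [FiniteDimensional ℝ W] (E : Emb M W) (f g : M ≃ₜ M)
    (s : Split E f) (t : Split E g) (C₀ : ℝ), Bun s t.swap C₀ →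
    ∀ ε' : ℝ, 0 < ε' → ∃ δ L₀ : ℝ, 0 < δ ∧ 0 < L₀ ∧ ∀ a, ∀ z ∈ Lf f g.symm δ a,
      ∃ c : ℝ → M, c 0 = a ∧ c 1 = z ∧ ∀ ρ ∈ Icc (0 : ℝ) 1, ∀ ρ' ∈ Icc (0 : ℝ) 1,
        c ρ' ∈ Lf f g.symm ε' (c ρ) ∧ dist (c ρ') (c ρ) ≤ L₀ * |ρ' - ρ|

/-- GRX. Growth of the leaves `X` in the past. From COC, GRW for `(s, t.swap)`: with
`x' = f^-j x`, `z' = f^-j z`, `Grw.lower` gives `k.an j x' * dist z' x' ≤ C dist z x` if
`z' ∈ Lf f g.symm ε x'`, and `k.an j x' ≥ 1 / (C B^j)` by `xgr` (rank one: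
`iterD s.Di f.symm j x (iterD s.D f j x' w) = w`). Induction on `j`: if the distances at the times
`-j`, .., `0` are at most `ε'` then the next one is small by uniform continuity, hence
`z' ∈ Wl f ε' x'` again (`Wl` asks all the later distances to be small). -/
def SpecGrx : Prop :=
  ∀ (M : Type u) (W : Type v) [MetricSpace M] [CompactSpace M] [NormedAddCommGroup W]
    [InnerProductSpace ℝ W] [FiniteDimensional ℝ W] (E : Emb M W) (f g : M ≃ₜ M)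
    (s : Split E f) (t : Split E g) (C₀ δ C₁ B Q L lg : ℝ) (J : ℕ), Bun s t.swap C₀ →
    Nw s t δ C₁ B Q L lg J → ∀ ε' : ℝ, 0 < ε' → ∃ e C₂ : ℝ, 0 < e ∧ 0 < C₂ ∧
      ∀ (m : ℕ) x, ∀ z ∈ Lf f g.symm e x, C₂ * B ^ m * dist z x ≤ e →
        f.symm^[m] z ∈ Wl f ε' (f.symm^[m] x)

/-- DEFC. The defect in the direction `C` of a thin rectangle. At the time `-m` (GRX for all
`j ≤ m`; the unstable sides are contracted) `f^-m y' ∈ Wl f η (f^-m x')`, L31 gives `v'` with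
`Dbl f g (f^-m x') v'`, `Dbl f g.symm v' (f^-m y')`, so `v' = f^-m v` by (3.2) (PROD, second part,
DBL), and `cdec` gives `dist v x' ≤ C₁ Q^m dist v' (f^-m x')` (L31 gives that `v'` is in `Wl f` and
`Wl g` of `f^-m x'`). -/
def SpecDefc : Prop :=
  ∀ (M : Type u) (W : Type v) [MetricSpace M] [CompactSpace M] [NormedAddCommGroup W]
    [InnerProductSpace ℝ W] [FiniteDimensional ℝ W] (E : Emb M W) (f g : M ≃ₜ M)
    (s : Split E f) (t : Split E g) (C₀ δ C₁ B Q L lg ε C l : ℝ) (J : ℕ), Bun s t.swap C₀ →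
    Pair f g ε C l → Nw s t δ C₁ B Q L lg J → ∃ e C₂ : ℝ, 0 < e ∧ 0 < C₂ ∧
      ∀ (m : ℕ) x y x' y' v, y ∈ Lf f g.symm e x → C₂ * B ^ m * dist y x ≤ e →
        x' ∈ Wl f.symm e x → y' ∈ Wl f.symm e y → y' ∈ Wl f e x' → Dbl f g x' v →
        Dbl f g.symm v y' → dist v x' ≤ C₂ * Q ^ m

/-- HOLC. The holonomy along `X` between leaves `C` is Hoelder, with constants of `g` only. All the
points are close to `x`, so `x₁ ∈ Wl g.symm η x`, `y₁ ∈ Wl g.symm η y`, `y ∈ Wl g η x`,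
`y₁ ∈ Wl g η x₁` (PROD, third part, for `(f, g.symm)` and `(f, g)`). For `j ≤ n`:
`dist (g^-j x₁) (g^-j y₁) ≤ C lg^j η + L^j dist x y + C lg^j η`, and `L^j dist x y ≤ e lg^j`. So
`g^-n y₁ ∈ Wl g δ (g^-n x₁)` and `dist x₁ y₁ ≤ C lg^n dist (g^-n x₁) (g^-n y₁)`. -/
def SpecHolc : Prop :=
  ∀ (M : Type u) [MetricSpace M] [CompactSpace M] (f g : M ≃ₜ M) (ε C l δ C₁ L lg : ℝ),
    Pair f g ε C l → 1 ≤ L → Dec g δ C₁ lg → Dec g.symm δ C₁ lg →
    (∀ x y, dist (g.symm x) (g.symm y) ≤ L * dist x y) → ∃ e C₂ : ℝ, 0 < e ∧ 0 < C₂ ∧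
      ∀ (n : ℕ) x y x₁ y₁, y ∈ Wl f e x → x₁ ∈ Wl f e x → y₁ ∈ Wl f e x → Dbl f g x y →
        Dbl f g.symm x x₁ → Dbl f g.symm y y₁ → Dbl f g x₁ y₁ → dist x y * L ^ n ≤ e * lg ^ n →
        dist x₁ y₁ ≤ C₂ * lg ^ n

/-- CU. From L31, LIP, DEFC, HOLC, PROD, DBL. Let `c` be the curve of LIP from `a` to `z`,
`z'_ρ ∈ Wl f.symm η (c ρ) ∩ Wl f η z'` (brackets, so `z'_1 = z'`, `z'_0 = q`), `φ ρ` the point with
`Dbl f g z' (φ ρ)`, `Dbl f g.symm (φ ρ) z'_ρ` (L31). For `|ρ - ρ'|` of the order `B^-m`: the point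
`v` with `Dbl f g z'_ρ v`, `Dbl f g.symm v z'_ρ'` has `dist v z'_ρ ≤ C₂ Q^m` (DEFC), and
`Dbl f g.symm v (φ ρ')`; HOLC with `x = z'_ρ`, `y = v`, `x₁ = φ ρ`, `y₁ = φ ρ'`, `n = J * m` (`m`
large, by `QJ`): `dist (φ ρ) (φ ρ') ≤ C₂ (lg^J)^m`. Sum over about `B^m` pieces and use `BJ`:
`φ 0 = φ 1 = z'`. So `Dbl f g.symm z' q`. -/
def SpecCu : Prop :=
  ∀ (M : Type u) (W : Type v) [MetricSpace M] [CompactSpace M] [NormedAddCommGroup W]
    [InnerProductSpace ℝ W] [FiniteDimensional ℝ W] (E : Emb M W) (f g : M ≃ₜ M)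
    (s : Split E f) (t : Split E g) (C₀ δ C₁ B Q L lg ε C l : ℝ) (J : ℕ), Bun s t.swap C₀ →
    Pair f g ε C l → Nw s t δ C₁ B Q L lg J → CUp f g

/-! ### The stage argument -/

/-- STEP. Carry a segment of a leaf `X` along an unstable link. Choose `k₀` such that `f^k₀` makes
the segments of norm at most `Λ` small (`s.Hyperbolic`), `a₀ = f^k₀ a`, `u₀ = Df^k₀ u`,
`z_ρ = γ a₀ (ρ • u₀)`, `m₀ = f^k₀ m'`, `q_ρ ∈ Wl f.symm η z_ρ ∩ Wl f η m₀`. `CUp` (with `z_ρ`, `z_r`,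
`m₀`, `q_ρ` for `a`, `z`, `z'`, `q`): `q_ρ` is in the leaf `X` of `m₀`, so `q_ρ = γ q_0 (v ρ)`, `v`
continuous (`REPAux.contOn_of_graph`; `v` is bounded by `Gam.proper`) and injective, so
`v ρ = τ ρ • v 1`; `q_r = m₀`. Take `a' = f^-k₀ q_0`, `u' = Df^-k₀ (v 1)`. The norm: `‖u'‖` is
bounded by a constant of `Λ`, and if `δ → 0` then `a'`, `γ a' u'` are close to `a`, `γ a u`; use
compactness and `Gam.inj`. -/
def SpecStep : Prop :=
  ∀ (M : Type u) (W : Type v) [MetricSpace M] [CompactSpace M] [NormedAddCommGroup W]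
    [InnerProductSpace ℝ W] [FiniteDimensional ℝ W] (E : Emb M W) (f g : M ≃ₜ M)
    (s : Split E f) (t : Split E g) (C₀ ε C l : ℝ) (γ : M → W → M), Bun s t.swap C₀ →
    Pair f g ε C l → Gam s t.swap γ → CUp f g → ∀ Λ ε' : ℝ, 0 < Λ → 0 < ε' →
    ∃ δ : ℝ, 0 < δ ∧ ∀ a u r m', PP s t.swap a u = u → u ≠ 0 → ‖u‖ ≤ Λ → r ∈ Icc (0 : ℝ) 1 →
      m' ∈ Wl f.symm δ (γ a (r • u)) → ∃ a' u' τ, PP s t.swap a' u' = u' ∧ ‖u'‖ ≤ ‖u‖ + 1 ∧
        Tau τ ∧ γ a' (τ r • u') = m' ∧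
        ∀ ρ ∈ Icc (0 : ℝ) 1, γ a' (τ ρ • u') ∈ Wl f.symm ε' (γ a (ρ • u))

/-- UNI. (S4). By contradiction and compactness: `(a_j, u_j) → (a, u)`, `m_j = γ a_j (u_j / 2)`,
`m = γ a (u / 2)`. If `m` is in the leaf `C` of a point of `A` then `m ∈ A` (s2), the bracket `w_j`
of `m_j`, `m` (`w_j ∈ Wl f η m_j ∩ Wl f.symm η m`) is in `A`, and by L31 there is `y_j` with
`Dbl f g w_j y_j`, `Dbl f g.symm y_j m_j`, in `A` by s2 (with `a_j`), close to `m_j` in `Wl f η m_j`;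
so `y_j = γ a_j (ρ_j • u_j)` with `ρ_j → 1/2` (`Gam.cont`, `inj`, line fibres, norms bounded as in
CMP): contradiction. So s3 gives `r` outside the basin with `FwdAsymp f.symm m r`; for large `n`
`f^-n r` is close to `f^-n m`; for large `j` the bracket `r_j ∈ Wl f η (f^-n r) ∩
Wl f.symm η (f^-n m_j)` is outside the basin (it is asymptotic to `f^-n r`), and `Rch` joins `m_j` to
`f^n r_j`. -/
def SpecUni : Prop :=
  ∀ (M : Type u) (W : Type v) [MetricSpace M] [CompactSpace M] [NormedAddCommGroup W]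
    [InnerProductSpace ℝ W] [FiniteDimensional ℝ W] (E : Emb M W) (f g : M ≃ₜ M)
    (s : Split E f) (t : Split E g) (C₀ ε C l e : ℝ) (γ : M → W → M) (A : Set M),
    Bun s t.swap C₀ → Pair f g ε C l → Gam s t.swap γ → GA f g A → 0 < e → Rch f e →
    ∀ κ δ : ℝ, 0 < κ → 0 < δ → ∃ K : ℕ, ∀ a u, Fre s t.swap γ A a u → κ ≤ ‖u‖ → ‖u‖ ≤ 1 →
      ∃ k ≤ K, ∃ c : ℕ → M, c 0 = γ a ((1 / 2 : ℝ) • u) ∧
        (∀ i < k, c (i + 1) ∈ Wl f.symm δ (c i)) ∧ ∀ b ∈ A, ¬ FwdAsymp f (c k) b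

/-- STAGE. From STEP, UNI, DBL. `κ = 1 / (2 K₁)` where `‖s.Di x‖ ≤ K₁`. Apply STEP with `Λ = 3` along
the chain `c` of UNI (with the `δ` of STEP), always with `γ a_i (r_i • u_i) = c i`,
`r_(i+1) = τ r_i`, as long as `‖u_i‖ ≤ 2`: segments `Fre` stay `Fre` (`A` is saturated by unstable
sets, `τ` is onto `[0, 1]`). If `‖u_i‖ ≤ 2` for all `i ≤ k` then `c k` is in the leaf `X` of
`a_k ∈ A`, so in the basin: contradiction. So for some `i ≤ k`: `2 < ‖u_i‖ ≤ 3`. Then apply `f^k'`,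
`k' ≥ 1` least such that `‖Df^k' u_i‖ ≤ 1` (`s.Hyperbolic`; then it is at least `κ`). The last
clause: each link gives `C l^n ε'`, `Pair.one.decu`. -/
def SpecStage : Prop :=
  ∀ (M : Type u) (W : Type v) [MetricSpace M] [CompactSpace M] [NormedAddCommGroup W]
    [InnerProductSpace ℝ W] [FiniteDimensional ℝ W] (E : Emb M W) (f g : M ≃ₜ M)
    (s : Split E f) (t : Split E g) (C₀ ε C l e : ℝ) (γ : M → W → M) (A : Set M),
    Bun s t.swap C₀ → Pair f g ε C l → Gam s t.swap γ → CUp f g → GA f g A → 0 < e → Rch f e →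
    ∃ κ C₂ : ℝ, 0 < κ ∧ κ ≤ 1 ∧ ∀ a u, Fre s t.swap γ A a u → κ ≤ ‖u‖ → ‖u‖ ≤ 1 →
      ∃ (a' : M) (u' : W) (τ : ℝ → ℝ) (k : ℕ), 0 < k ∧ Fre s t.swap γ A a' u' ∧ κ ≤ ‖u'‖ ∧
        ‖u'‖ ≤ 1 ∧ Tau τ ∧ ∀ ρ ∈ Icc (0 : ℝ) 1, ∀ n : ℕ,
          dist (f.symm^[n + k] (γ a' (τ ρ • u'))) (f.symm^[n] (γ a (ρ • u))) ≤ C₂ * l ^ n

/-- ARC. A segment of a leaf `X` in a small ball is short. Write `γ x (ρ • w) = γ y (v ρ)` for
`y = γ x (α • w)`: `v` is continuous (see REP), `v α = 0`, and `dist y (γ y v) > ε'` for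
`‖v‖ = 1` (compactness, `Gam.inj`, `Gam.zero`), so `‖v ρ‖` never reaches `1`. -/
def SpecArc : Prop :=
  ∀ (M : Type u) (W : Type v) [MetricSpace M] [CompactSpace M] [NormedAddCommGroup W]
    [InnerProductSpace ℝ W] [FiniteDimensional ℝ W] (E : Emb M W) (f g : M ≃ₜ M)
    (s : Split E f) (t : Split E g) (C₀ : ℝ) (γ : M → W → M), Bun s t.swap C₀ →
    Gam s t.swap γ → ∃ ε' : ℝ, 0 < ε' ∧ ∀ x w (α β : ℝ), PP s t.swap x w = w → 0 ≤ α → α ≤ β →
      β ≤ 1 → (∀ ρ ∈ Icc α β, dist (γ x (ρ • w)) (γ x (α • w)) ≤ ε') →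
      ∃ v, PP s t.swap (γ x (α • w)) v = v ∧ ‖v‖ ≤ 1 ∧ γ (γ x (α • w)) v = γ x (β • w)

/-- CMP. Composition of two displacements. Choose `n` such that `f^n` makes vectors of norm at most
`max K 1` small (`s.Hyperbolic`, `Gam.small`); then `f^n` of the last point is in `Wl f ε (f^n x)`
and `‖Df^n u'‖ ≤ 1` by `Gam.proper`. -/
def SpecCmp : Prop :=
  ∀ (M : Type u) (W : Type v) [MetricSpace M] [CompactSpace M] [NormedAddCommGroup W]
    [InnerProductSpace ℝ W] [FiniteDimensional ℝ W] (E : Emb M W) (f g : M ≃ₜ M)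
    (s : Split E f) (t : Split E g) (C₀ : ℝ) (γ : M → W → M), Bun s t.swap C₀ →
    Gam s t.swap γ → ∀ K : ℝ, ∃ K' : ℝ, ∀ x u v u', PP s t.swap x u = u → ‖u‖ ≤ K →
      PP s t.swap (γ x u) v = v → ‖v‖ ≤ 1 → PP s t.swap x u' = u' → γ x u' = γ (γ x u) v →
      ‖u'‖ ≤ K'

/-- LIM. From ARC, CMP. Uniformly convergent (Cauchy) sequences of continuous functions on `[0, 1]`
are equicontinuous: there is `N` such that on each of `N` equal pieces all the curves of the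
sequence move by at most `ε'` of ARC. So `γ (x j) (w j)` is reached from `x j` in `N` displacements of
norm at most `1`: `‖w j‖` is bounded by CMP (and `Gam.inj`). -/
def SpecLims : Prop :=
  ∀ (M : Type u) (W : Type v) [MetricSpace M] [CompactSpace M] [NormedAddCommGroup W]
    [InnerProductSpace ℝ W] [FiniteDimensional ℝ W] (E : Emb M W) (f g : M ≃ₜ M)
    (s : Split E f) (t : Split E g) (C₀ : ℝ) (γ : M → W → M), Bun s t.swap C₀ →
    Gam s t.swap γ → ∀ (x : ℕ → M) (w : ℕ → W) (T : ℕ → ℝ → ℝ),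
      (∀ j, PP s t.swap (x j) (w j) = w j) → (∀ j, Tau (T j)) →
      UniformCauchySeqOn (fun j ρ => γ (x j) (T j ρ • w j)) atTop (Icc 0 1) →
      ¬ Tendsto (fun j => ‖w j‖) atTop atTop

/-- NOFR. From STAGE, LIM. There are no free segments: by STAGE a sequence `(a_j, u_j, τ_j, k_j)`,
`n_j = k_0 + .. + k_(j-1) ≥ j`, `T_j = τ_(j-1) ∘ .. ∘ τ_0`,
`x_j = f^-n_j a_j`, `w_j = Df^-n_j u_j`, `γ x_j (T_j ρ • w_j) = f^-n_j (γ a_j (T_j ρ • u_j))`
(`Gam.eqf`), distances of consecutive curves at most `C₂ l^n_j`; `‖w_j‖ → ∞` since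
`‖Df^n_j w_j‖ = ‖u_j‖ ≥ κ` and `f` contracts. -/
def SpecNofr : Prop :=
  ∀ (M : Type u) (W : Type v) [MetricSpace M] [CompactSpace M] [NormedAddCommGroup W]
    [InnerProductSpace ℝ W] [FiniteDimensional ℝ W] (E : Emb M W) (f g : M ≃ₜ M)
    (s : Split E f) (t : Split E g) (C₀ ε C l e : ℝ) (γ : M → W → M) (A : Set M),
    Bun s t.swap C₀ → Pair f g ε C l → Gam s t.swap γ → CUp f g → GA f g A → 0 < e → Rch f e →
    ∀ a u, ‖u‖ = 1 → ¬ Fre s t.swap γ A a u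

/-- STRT. A free segment from a point of a leaf `X` outside `A`. `y = γ p w`, `ρ₀` the last
`ρ ∈ [0, 1]` with `γ p (ρ • w) ∈ A`, `a = γ p (ρ₀ • w)`, `γ p (ρ • w) = γ a (v ρ)`, `v ρ = τ ρ • v 1`
(REP or its proof): `(a, v 1)` is free. Then apply `f^-n` (`f '' A = A`) to make the norm at least
`1`, and shorten the segment. -/
def SpecStrt : Prop :=
  ∀ (M : Type u) (W : Type v) [MetricSpace M] [CompactSpace M] [NormedAddCommGroup W]
    [InnerProductSpace ℝ W] [FiniteDimensional ℝ W] (E : Emb M W) (f g : M ≃ₜ M)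
    (s : Split E f) (t : Split E g) (C₀ : ℝ) (γ : M → W → M) (A : Set M),
    Bun s t.swap C₀ → Gam s t.swap γ → IsClosed A → f '' A = A → ∀ p ∈ A, ∀ y,
    Dbl f g.symm p y → y ∉ A → ∃ a u, ‖u‖ = 1 ∧ Fre s t.swap γ A a u

/-- GAEX (helper76). The union of the images `f^i A` of a minimal set. -/
def SpecGaex : Prop :=
  ∀ (M : Type u) [MetricSpace M] [CompactSpace M] (f g : M ≃ₜ M) (ε C l : ℝ), Pair f g ε C l →
    ∀ A : Set M, Minimal (· ∈ Sset f.symm) A → ∃ A' : Set M, GA f g A' ∧ A ⊆ A' ∧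
      ∀ p ∈ A, p ∈ periodicPts f → ∀ y, Dbl f g.symm p y → y ∈ A' → y ∈ A

/-- RCH. From `TD.exists_base` (`Reaches₀ f e₁`, `Sp_eq_Wl`, `ev`). -/
def SpecRch : Prop :=
  ∀ (M : Type u) (W : Type v) [MetricSpace M] [CompactSpace M] [ConnectedSpace M]
    [NormedAddCommGroup W] [InnerProductSpace ℝ W] [FiniteDimensional ℝ W] (E : Emb M W)
    (f : M ≃ₜ M) (s : Split E f), s.Hyperbolic → ∃ e : ℝ, 0 < e ∧ Rch f e

/-- WALLF. The wall lemma. From CU, NOFR, STRT, GAEX, RCH, GAM, PAIR, PERX. -/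
def SpecWallf : Prop :=
  ∀ (M : Type u) (W : Type v) [MetricSpace M] [CompactSpace M] [ConnectedSpace M]
    [NormedAddCommGroup W] [InnerProductSpace ℝ W] [FiniteDimensional ℝ W] (E : Emb M W)
    (f g : M ≃ₜ M) (s : Split E f) (t : Split E g) (C₀ δ C₁ B Q L lg : ℝ) (J : ℕ),
    Bun s t.swap C₀ → Nw s t δ C₁ B Q L lg J →
    ∀ A : Set M, Minimal (· ∈ Sset f.symm) A → Sat g.symm A

/-! ### Elements near the wall -/

/-- NARI. Integer vectors near the wall: `p` is the least natural number with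
`p * ev (χ i) n + q * ev (χ i) n' < 0`; for large `q` it is at least `2`. The signs of all `χ l`
at `n'' = p n + q n'` are those at `n` (if `χ l` has the same sign at `n` and `n'` this is clear,
otherwise `χ l = c • χ i`), and `2 n - n''` is regular, `ev (χ i) (2 n - n'') < 0`. -/
def SpecNari : Prop :=
  ∀ (k : ℕ) (J : Type w) (χ : J → Fin k → ℝ) (n n' : Fin k → ℤ) (i j : J), Wal χ n n' i j →
    ∃ q₀ : ℕ, ∀ q : ℕ, q₀ ≤ q → ∃ p : ℕ, 1 ≤ p ∧ Wal χ ((p : ℤ) • n + (q : ℤ) • n') n' i j ∧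
      (∀ l, ev (χ l) ((p : ℤ) • n + (q : ℤ) • n') < 0 ↔ ev (χ l) n < 0) ∧
      Regular χ ((2 : ℤ) • n - ((p : ℤ) • n + (q : ℤ) • n')) ∧
      ev (χ i) ((2 : ℤ) • n - ((p : ℤ) • n + (q : ℤ) • n')) < 0

/-- CRT. From the derivatives to the metric: for `z ∈ Wl f δ x ∩ Wl g δ x` the vector `z - x` is
tangent to the range of `PP s t` up to a small relative error (`Cf.exists_cone` for `s` and `t`,
`1 - P Q = (1 - P) + P (1 - Q)`); choose `N` with `C θ^N ≤ Q^N / 2`, use `HasD` for `f^N` and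
iterate (see the proof of `Cf.exists_dec`; `f` and `g` commute, so `f^i z` is in `Wl g δ' (f^i x)` for
`i < N` by uniform continuity, and in `Wl f δ`). The set `Wl f δ ∩ Wl g δ` is mapped into itself up to
the scale: use PROD, fourth part (`dist (f^n g^m z) (f^n g^m x) ≤ C² l^(n+m) dist z x`), for
`Pair f g`. -/
def SpecCrt : Prop :=
  ∀ (M : Type u) (W : Type v) [MetricSpace M] [CompactSpace M] [NormedAddCommGroup W]
    [InnerProductSpace ℝ W] [FiniteDimensional ℝ W] (E : Emb M W) (f g : M ≃ₜ M)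
    (s : Split E f) (t : Split E g) (C θ Q : ℝ), s.Hyperbolic → t.Hyperbolic →
    (∀ x, f (g x) = g (f x)) → 0 < θ → θ < Q → Q ≤ 1 →
    (∀ (m : ℕ) x w, PP s t x w = w → ‖iterD s.D f m x w‖ ≤ C * θ ^ m * ‖w‖) →
    ∃ δ C₁ : ℝ, 0 < δ ∧ 1 ≤ C₁ ∧ ∀ x z, z ∈ Wl f δ x → z ∈ Wl g δ x → ∀ m : ℕ,
      dist (f^[m] z) (f^[m] x) ≤ C₁ * Q ^ m * dist z x

/-- RTX. Growth on the coarse bundle of `χ i` in the past, bounded independently of `n''`. With
`n'' = p n + q n'`, `h = 2 n - n''` regular with `ev (χ i) h < 0`: the derivative of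
`A (-(m n'')) = A (m h) ∘ A (-(2 m) n)` on the coarse bundle is at most
`C l^m * K^(2m)`, `K` a bound of the derivative of `A (-n)`, independent of `h` (uniqueness of the
derivatives: `HasD.unique`, `HasD.comp`; the coarse bundle is invariant: RNG). -/
def SpecRtx : Prop :=
  ∀ (M : Type u) (W : Type v) [MetricSpace M] [CompactSpace M] [NormedAddCommGroup W]
    [InnerProductSpace ℝ W] [FiniteDimensional ℝ W] (E : Emb M W) (k : ℕ) (J : Type w) [Finite J]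
    (A : (Fin k → ℤ) → M ≃ₜ M) (χ : J → Fin k → ℝ) (F : J → M → Submodule ℝ W), Act E A χ F →
    ∀ (n n' : Fin k → ℤ) (i j : J), Wal χ n n' i j → ∃ B : ℝ, 1 ≤ B ∧
      ∀ (n'' : Fin k → ℤ) (s : Split E (A n'')) (t : Split E (A n')), s.Hyperbolic →
        t.Hyperbolic → (∀ x, (PP s t.swap x).range = coarse χ F i x) → Wal χ n'' n' i j →
        Regular χ ((2 : ℤ) • n - n'') → ev (χ i) ((2 : ℤ) • n - n'') < 0 →
        ∃ C₁ : ℝ, ∀ (m : ℕ) x w, PP s t.swap x w = w →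
          ‖iterD s.Di (A n'').symm m x w‖ ≤ C₁ * B ^ m * ‖w‖

/-- RTC. Contraction of the intersection of the stable bundles by `A (p n + q n')`: with `C`, `l`
from the hyperbolicity of `A n` and `A n'`, at most `C² l^((p + q) m)`. The range of `PP s t x` is
contained in the stable spaces of `A n` (same signs as `n''`) and of `A n'`. -/
def SpecRtc : Prop :=
  ∀ (M : Type u) (W : Type v) [MetricSpace M] [CompactSpace M] [NormedAddCommGroup W]
    [InnerProductSpace ℝ W] [FiniteDimensional ℝ W] (E : Emb M W) (k : ℕ) (J : Type w) [Finite J]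
    (A : (Fin k → ℤ) → M ≃ₜ M) (χ : J → Fin k → ℝ) (F : J → M → Submodule ℝ W), Act E A χ F →
    ∀ (n n' : Fin k → ℤ), Regular χ n → Regular χ n' → ∃ C₁ l : ℝ, 0 < l ∧ l < 1 ∧
      ∀ (p q : ℕ), Regular χ ((p : ℤ) • n + (q : ℤ) • n') →
        (∀ a, ev (χ a) ((p : ℤ) • n + (q : ℤ) • n') < 0 ↔ ev (χ a) n < 0) →
        ∀ (s : Split E (A ((p : ℤ) • n + (q : ℤ) • n'))) (t : Split E (A n')),
        (∀ x, (s.S x).range = ⨆ (a) (_ : ev (χ a) ((p : ℤ) • n + (q : ℤ) • n') < 0), F a x) →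
        (∀ x, (t.S x).range = ⨆ (a) (_ : ev (χ a) n' < 0), F a x) →
        s.Hyperbolic → t.Hyperbolic →
        ∀ (m : ℕ) x w, PP s t x w = w →
          ‖iterD s.D (A ((p : ℤ) • n + (q : ℤ) • n')) m x w‖ ≤ C₁ * (l ^ (p + q)) ^ m * ‖w‖

/-- NEAR. From NARI, CRT, RTX, RTC, RNG. First `t`, `lg`, `L` (`Cf.exists_dec` for `t` and
`t.swap`; Lipschitz constant of `g.symm` by `HasD.exists_lip` and compactness), then `B` (RTX), `J`
with `B * lg ^ J < 1`, then `q` so large that `l ^ (p + q) < θ₁ < Q`, `Q * L ^ J < lg ^ J`. -/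
def SpecNear : Prop :=
  ∀ (M : Type u) (W : Type v) [MetricSpace M] [CompactSpace M] [NormedAddCommGroup W]
    [InnerProductSpace ℝ W] [FiniteDimensional ℝ W] (E : Emb M W) (k : ℕ) (J : Type w) [Finite J]
    (A : (Fin k → ℤ) → M ≃ₜ M) (χ : J → Fin k → ℝ) (F : J → M → Submodule ℝ W), Act E A χ F →
    ∀ (n n' : Fin k → ℤ) (i j : J), Wal χ n n' i j →
      (∀ x, Module.finrank ℝ (coarse χ F i x) = 1) →
      ∃ (n'' : Fin k → ℤ) (s : Split E (A n'')) (t : Split E (A n')), Wal χ n'' n' i j ∧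
        (∀ l, ev (χ l) n'' < 0 ↔ ev (χ l) n < 0) ∧ (∃ C₀ : ℝ, Bun s t.swap C₀) ∧
        ∃ (δ C₁ B Q L lg : ℝ) (N : ℕ), Nw s t δ C₁ B Q L lg N

end Pool.Agent.Lib.MP610fe3.HR
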