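import Pool.Agent.Lib.MP_610fe3_an.HR.F1CHAIN
import Pool.Agent.Lib.MP_610fe3_an.HR.ARITH2

/-!
# Module F2CHAIN: the theorem on actions from the wall lemma in both directions
-/

set_option autoImplicit false

open Set Filter Function Bundle
open scoped Topology Manifold ContDiff

namespace Pool.Agent.Lib.MP610fe3.HR

open Cf CH CHNAux

universe u v w

/-- WALY. The wall lemma when the bundle which is expanded before the wall is a line bundle. -/
def SpecWaly : Prop :=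
  ∀ (M : Type u) (W : Type v) [MetricSpace M] [CompactSpace M] [ConnectedSpace M]
    [NormedAddCommGroup W] [InnerProductSpace ℝ W] [FiniteDimensional ℝ W] (E : Emb M W) (k : ℕ)
    (J : Type w) [Finite J] (A : (Fin k → ℤ) → M ≃ₜ M) (χ : J → Fin k → ℝ)
    (F : J → M → Submodule ℝ W), Act E A χ F →
    ∀ (n n' : Fin k → ℤ) (i j : J), Wal χ n n' i j →
      (∀ x, Module.finrank ℝ (coarse χ F j x) = 1) →
      ∀ K, Minimal (· ∈ Sset (A n).symm) K → Sat (A n').symm K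

/-- F2CHAIN. The abstract theorem: of two coarse bundles with negatively proportional functionals
one is a line bundle. -/
def SpecChaing : Prop :=
  ∀ (M : Type u) (W : Type v) [MetricSpace M] [CompactSpace M] [ConnectedSpace M]
    [NormedAddCommGroup W] [InnerProductSpace ℝ W] [FiniteDimensional ℝ W] (E : Emb M W) (k : ℕ)
    (J : Type w) [Finite J] (A : (Fin k → ℤ) → M ≃ₜ M) (χ : J → Fin k → ℝ)
    (F : J → M → Submodule ℝ W), Act E A χ F →
    (∀ i j, ∀ t : ℝ, 0 < t → χ i = -(t • χ j) →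
      (∀ x, Module.finrank ℝ (coarse χ F i x) = 1) ∨
      ∀ x, Module.finrank ℝ (coarse χ F j x) = 1) →
    ∀ n : Fin k → ℤ, Regular χ n → TopTransitive (A n)

/-- **The abstract theorem.** -/
theorem specChaing (hNear : SpecNear.{u, v, w}) (hWall : SpecWallf.{u, v})
    (hWaly : SpecWaly.{u, v, w}) (hArith : SpecArithm.{w}) (hChn : SpecChn1.{u})
    (hPair : SpecPair.{u, v}) : SpecChaing.{u, v, w} := by
  intro M W _ _ _ _ _ _ E k J _ A χ F H hpart n hn
  obtain ⟨m, c, h0, hm, hc⟩ := hArith k J χ n hn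
  have hstep : ∀ i < m, ∀ K, Minimal (· ∈ Sset (A (c i)).symm) K → Sat (A (c (i + 1))).symm K := by
    intro i hi
    rcases hc i hi with h | ⟨l, l', h, -⟩
    · exact (sats_of_step H h).1
    · obtain ⟨t, ht, hχ⟩ := h.neg
      rcases hpart l' l t ht hχ with h1 | h1
      · exact hWaly M W E k J A χ F H _ _ l l' h h1
      · exact F1CHAINAux.sat_of_wal hNear hWall H h h1
  obtain ⟨s, hs, -⟩ := H.split n hn
  obtain ⟨ε, C, l, hP⟩ := hPair M W E (A n) (A n) s s hs hs (comm H n n)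
  have h1 := hChn M m (fun i => A (c i)) ε C l (by rw [h0]; exact hP.one)
    (fun x => by
      show A (c m) (A (c 0) x) = x
      rw [h0, hm, ← H.add, neg_add_cancel, zero H]) hstep
  simpa only [h0] using h1

/-- **The theorem on the manifold.** -/
theorem main_f2 (hChain : SpecChaing.{u, 0, w}) (hAct : SpecAct.{u, v, w})
    {V : Type v} [NormedAddCommGroup V] [NormedSpace ℝ V] [FiniteDimensional ℝ V]
    {M : Type u} [TopologicalSpace M] [CompactSpace M] [T2Space M] [ConnectedSpace M]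
    [ChartedSpace V M] [IsManifold 𝓘(ℝ, V) ∞ M]
    [RiemannianBundle (fun x : M => TangentSpace 𝓘(ℝ, V) x)]
    [IsContinuousRiemannianBundle V (fun x : M => TangentSpace 𝓘(ℝ, V) x)]
    {k : ℕ} (A : (Fin k → ℤ) → M ≃ₘ^1⟮𝓘(ℝ, V), 𝓘(ℝ, V)⟯ M)
    (hadd : ∀ n n' x, A (n + n') x = A n (A n' x)) {J : Type w} [Finite J] (χ : J → Fin k → ℝ)
    (F : J → ∀ x : M, Submodule ℝ (TangentSpace 𝓘(ℝ, V) x))
    (hA : ∀ n : Fin k → ℤ, (∀ j, ∑ i, χ j i * (n i : ℝ) ≠ 0) → Gen.IsAnosovSplitting (A n)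
      (fun x => ⨆ (j) (_ : ∑ i, χ j i * (n i : ℝ) < 0), F j x)
      (fun x => ⨆ (j) (_ : 0 < ∑ i, χ j i * (n i : ℝ)), F j x))
    (hpair : ∀ i j, ∀ t : ℝ, 0 < t → χ i = -(t • χ j) →
      (∀ n, ContMDiff 𝓘(ℝ, V) 𝓘(ℝ, V) 2 (A n)) ∧
      ((∀ x, Module.finrank ℝ (⨆ (l) (_ : ∃ c : ℝ, 0 < c ∧ χ l = c • χ i), F l x :
        Submodule ℝ (TangentSpace 𝓘(ℝ, V) x)) = 1) ∨
      ∀ x, Module.finrank ℝ (⨆ (l) (_ : ∃ c : ℝ, 0 < c ∧ χ l = c • χ j), F l x :
        Submodule ℝ (TangentSpace 𝓘(ℝ, V) x)) = 1))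
    (n : Fin k → ℤ) (hn : ∀ j, ∑ i, χ j i * (n i : ℝ) ≠ 0) : TopTransitive (A n) := by
  classical
  by_cases htns : ∀ i j, ∀ t : ℝ, 0 < t → χ i ≠ -(t • χ j)
  · exact main_weyl A hadd χ F hA htns n hn
  push Not at htns
  obtain ⟨i₀, j₀, t₀, ht₀, hij₀⟩ := htns
  have hC2 := (hpair i₀ j₀ t₀ ht₀ hij₀).1
  obtain ⟨N, e, he, hemb, hinj⟩ := exists_embedding_euclidean_of_compact (I := 𝓘(ℝ, V)) (M := M)
  let _ : MetricSpace M := hemb.isEmbedding.comapMetricSpace e
  have hiso : Isometry e := hemb.isEmbedding.to_isometry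
  obtain ⟨E, F', hAct', hrank⟩ := hAct V N M e hiso he hinj k J A χ F hadd hC2 hA
  refine hChain M (EuclideanSpace ℝ (Fin N)) E k J (fun n => (A n).toHomeomorph) χ F' hAct'
    (fun i j t ht hij => ?_) n hn
  refine (hpair i j t ht hij).2.imp (fun h x => ?_) fun h x => ?_
  · rw [hrank]; exact h x
  · rw [hrank]; exact h x

end Pool.Agent.Lib.MP610fe3.HR
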