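import Pool.Agent.Lib.MP_610fe3_an.HR.F2Spec
import Pool.Agent.Lib.MP_610fe3_an.HR.F2CHAIN

/-!
# Module CHG: the theorem on actions (hive F2)
-/

set_option autoImplicit false

open Set Filter Function Bundle
open scoped Topology Manifold ContDiff

namespace Pool.Agent.Lib.MP610fe3.HR

open Cf CH

universe u v w

/-- **The abstract theorem**, from `F2CHAIN.lean`. -/
theorem specChg (hNear : SpecNear.{u, v, w}) (hWall : SpecWallf.{u, v})
    (hSatg : SpecSatg.{u, v, w}) (hArith : SpecArithm.{w}) (hChn : SpecChn1.{u})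
    (hPair : SpecPair.{u, v}) : SpecChg.{u, v, w} :=
  specChaing hNear hWall hSatg hArith hChn hPair

end Pool.Agent.Lib.MP610fe3.HR
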