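import Pool.Agent.Lib.MP_610fe3_an.HR.F2Spec

/-!
# Module GBEX: GAEX for the inverses
-/

set_option autoImplicit false

open Set Filter Function
open scoped Topology

namespace Pool.Agent.Lib.MP610fe3.HR

open Cf CH

universe u

namespace F2GBEXAux

theorem periodic_symm {M : Type*} {f : M ≃ M} {p : M} (h : p ∈ periodicPts f) :
    p ∈ periodicPts f.symm := by
  obtain ⟨n, hn, hp⟩ := h
  refine ⟨n, hn, ?_⟩
  have h1 : f.symm^[n] (f^[n] p) = p := (Function.LeftInverse.iterate f.symm_apply_apply n) p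
  have h2 : f^[n] p = p := hp
  rw [h2] at h1
  exact h1

end F2GBEXAux

/-- **Module GBEX.** -/
theorem specGbex (hGaex : SpecGaex.{u}) : SpecGbex.{u} := by
  intro M _ _ f g ε C l P A hA
  obtain ⟨A', hG, hsub, hper⟩ := hGaex M f.symm g.symm ε C l P.symm_both A hA
  refine ⟨A', ⟨hG.closed, hG.sat, ?_, hG.s2, hG.s3⟩, hsub, fun p hp hpp y hy hyA => ?_⟩
  · have h := hG.inv
    rw [← h, ← image_comp]
    have : (f : M → M) ∘ f.symm = id := funext fun x => f.apply_symm_apply x
    rw [this, image_id, h]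
  · exact hper p hp (F2GBEXAux.periodic_symm (f := f.toEquiv) hpp) y hy hyA

end Pool.Agent.Lib.MP610fe3.HR
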