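import Pool.Agent.Lib.MP_610fe3_an.HR.F2Spec
import Pool.Agent.Lib.MP_610fe3_an.HR.F1NOFR

/-!
# NOI: there is no infinite sequence of stages
-/

set_option autoImplicit false

open Set Filter Function
open scoped Topology

namespace Pool.Agent.Lib.MP610fe3.HR

open Cf CH

universe u v

open F1STRTAux F1NOFRAux

/-- **NOI**: there is no infinite sequence of stages. -/
theorem specNoi (hLi : SpecLims.{u, v}) (hC : SpecCoc.{u, v}) : SpecNoi.{u, v} := by
  intro M W _ _ _ _ _ E f g s t C₀ ε C l κ C₂ γ Pr hB hP hG hκ hPr hst a u hfre hua hub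
  obtain ⟨k, hk⟩ := hC M W E f g.symm s t.swap C₀ hB
  have hl : 0 < l := hP.one.decs.l_pos
  have hl1 : l < 1 := hP.one.decs.l_lt
  choose! a' u' τ' k' hst1 hst2 hst3 hst4 hst5 hst6 using hst
  -- the sequence
  obtain ⟨q, hq0, hqs⟩ : ∃ q : ℕ → M × W, q 0 = (a, u) ∧
      ∀ j, q (j + 1) = (a' (q j).1 (q j).2, u' (q j).1 (q j).2) :=
    ⟨fun j => Nat.rec (a, u) (fun _ r => (a' r.1 r.2, u' r.1 r.2)) j, rfl, fun j => rfl⟩
  have hinv : ∀ j, Pr (q j).1 (q j).2 ∧ κ ≤ ‖(q j).2‖ ∧ ‖(q j).2‖ ≤ 1 := by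
    intro j
    induction j with
    | zero =>
      rw [hq0]
      exact ⟨hfre, hua, hub⟩
    | succ j ih =>
      rw [hqs]
      exact ⟨hst2 _ _ ih.1 ih.2.1 ih.2.2, hst3 _ _ ih.1 ih.2.1 ih.2.2,
        hst4 _ _ ih.1 ih.2.1 ih.2.2⟩
  obtain ⟨T, hT0, hTs⟩ : ∃ T : ℕ → ℝ → ℝ, T 0 = (fun ρ => ρ) ∧
      ∀ j, T (j + 1) = fun ρ => τ' (q j).1 (q j).2 (T j ρ) :=
    ⟨fun j => Nat.rec (fun ρ => ρ) (fun j r ρ => τ' (q j).1 (q j).2 (r ρ)) j, rfl, fun j => rfl⟩
  have hT : ∀ j, Tau (T j) := by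
    intro j
    induction j with
    | zero => rw [hT0]; exact tau_id
    | succ j ih =>
      rw [hTs]
      exact tau_comp (hst5 _ _ (hinv j).1 (hinv j).2.1 (hinv j).2.2) ih
  obtain ⟨N, hN0, hNs⟩ : ∃ N : ℕ → ℕ, N 0 = 0 ∧ ∀ j, N (j + 1) = N j + k' (q j).1 (q j).2 :=
    ⟨fun j => Nat.rec 0 (fun j r => r + k' (q j).1 (q j).2) j, rfl, fun j => rfl⟩
  have hN : ∀ j, j ≤ N j := by
    intro j
    induction j with
    | zero => exact Nat.zero_le _
    | succ j ih =>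
      rw [hNs]
      have := hst1 _ _ (hinv j).1 (hinv j).2.1 (hinv j).2.2
      omega
  -- the pulled back segments
  have hpull := fun j => pull_iter hk hG (N j) (hPr _ _ (hinv j).1)
  refine hLi M W E f g s t C₀ γ hB hG (fun j => f.symm^[N j] (q j).1)
    (fun j => iterD s.Di f.symm (N j) (q j).1 (q j).2) T (fun j => (hpull j).1) hT ?_ ?_
  · have hC2 : ∀ ρ ∈ Icc (0 : ℝ) 1, ∀ j,
        dist (γ (f.symm^[N (j + 1)] (q (j + 1)).1)
          (T (j + 1) ρ • iterD s.Di f.symm (N (j + 1)) (q (j + 1)).1 (q (j + 1)).2))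
          (γ (f.symm^[N j] (q j).1) (T j ρ • iterD s.Di f.symm (N j) (q j).1 (q j).2))
          ≤ C₂ * l ^ N j := by
      intro ρ hρ j
      rw [← (hpull (j + 1)).2.2, ← (hpull j).2.2]
      have h1 := hst6 _ _ (hinv j).1 (hinv j).2.1 (hinv j).2.2 (T j ρ) (tau_maps (hT j) hρ) (N j)
      rw [hNs, hTs, hqs]
      exact h1
    have hC0 : 0 ≤ C₂ := by
      have h1 := dist_nonneg.trans (hC2 0 ⟨le_rfl, zero_le_one⟩ 0)
      rw [hN0, pow_zero, mul_one] at h1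
      exact h1
    refine unifCauchy hl hl1 hC0 fun ρ hρ j => (hC2 ρ hρ j).trans ?_
    exact mul_le_mul_of_nonneg_left (pow_le_pow_of_le_one hl.le hl1.le (hN j)) hC0
  · obtain ⟨C', l', hC', hl', hl1', H⟩ := norm_iterD (t := t.swap) hB.hs
    have h1 : ∀ j, κ ≤ C' * l' ^ j * ‖iterD s.Di f.symm (N j) (q j).1 (q j).2‖ := by
      intro j
      have h2 := H (N j) _ _ (hpull j).1
      rw [(hpull j).2.1] at h2
      refine ((hinv j).2.1.trans h2).trans ?_
      exact mul_le_mul_of_nonneg_right (mul_le_mul_of_nonneg_left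
        (pow_le_pow_of_le_one hl'.le hl1'.le (hN j)) hC'.le) (norm_nonneg _)
    have h3 : Tendsto (fun j : ℕ => κ / C' * (l'⁻¹) ^ j) atTop atTop :=
      (tendsto_pow_atTop_atTop_of_one_lt (one_lt_inv₀ hl' |>.2 hl1')).const_mul_atTop
        (div_pos hκ hC')
    refine tendsto_atTop_mono (fun j => ?_) h3
    have h4 := h1 j
    have h5 : 0 < l' ^ j := by positivity
    rw [inv_pow, ← div_eq_mul_inv, div_div, div_le_iff₀ (by positivity)]
    linarith

end Pool.Agent.Lib.MP610fe3.HR
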