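import Pool.Agent.Lib.MP_610fe3_an.HR.F2Spec
import Pool.Agent.Lib.MP_610fe3_an.HR.F1L31
import Pool.Agent.Lib.MP_610fe3_an.HR.PAIR

/-!
# Module SAMD (hive F2): elements of the same chamber have the same relations `Dbl`

`wl_of_wl`: if the stable bundles of two commuting hyperbolic homeomorphisms agree then small stable
plaques of the first one are small stable plaques of the second one.
-/

set_option autoImplicit false

open Set Filter Function
open scoped Topology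

namespace Pool.Agent.Lib.MP610fe3.HR

open Cf CH

universe u v w

namespace F2SAMDAux

variable {M : Type u} {W : Type v} [MetricSpace M] [CompactSpace M] [NormedAddCommGroup W]
  [InnerProductSpace ℝ W] [FiniteDimensional ℝ W] {E : Emb M W} {f g : M ≃ₜ M}

/-- A point in a small stable plaque of `f` and in a small unstable plaque of `g` is the centre, if the
stable bundles of `f` and `g` agree. -/
theorem eq_of_wl (s : Split E f) (t : Split E g) (hs : s.Hyperbolic) (ht : t.Hyperbolic)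
    (hr : ∀ x, (s.S x).range = (t.S x).range) : ∃ ε : ℝ, 0 < ε ∧ ∀ x z, z ∈ Wl f ε x →
      z ∈ Wl g.symm ε x → z = x := by
  obtain ⟨K, hK1, hK⟩ := t.exists_bdd
  have hK0 : 0 < K := by linarith
  obtain ⟨η, hηe⟩ : ∃ η, η = 1 / (2 * (1 + 2 * K)) := ⟨_, rfl⟩
  have hη : 0 < η := by rw [hηe]; positivity
  have hη2 : (1 + 2 * K) * η = 1 / 2 := by rw [hηe]; field_simp
  obtain ⟨ε₁, hε₁, h1⟩ := exists_cone s hs hη
  obtain ⟨ε₂, hε₂, h2⟩ := exists_cone t.swap ht.swap hη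
  refine ⟨min ε₁ ε₂, lt_min hε₁ hε₂, fun x z hz hz' => ?_⟩
  have h3 := h1 x z (Wl_mono (min_le_left _ _) hz)
  have h4 : ‖E.e z - E.e x - t.U x (E.e z - E.e x)‖ ≤ η * dist z x :=
    h2 x z (Wl_mono (min_le_right _ _) hz')
  have hd : ‖E.e z - E.e x‖ = dist z x := (E.dist_eq z x).symm
  generalize E.e z - E.e x = v at h3 h4 hd
  -- `t.S` fixes the range of `s.S`
  have h5 : t.S x (s.S x v) = s.S x v := by
    have h6 : s.S x v ∈ (s.S x).range := ⟨v, rfl⟩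
    rw [hr x] at h6
    obtain ⟨w, hw⟩ := h6
    rw [← hw]
    exact congrArg (fun L : W →L[ℝ] W => L w) (t.SS x)
  have h6 : t.S x (t.U x v) = 0 := congrArg (fun L : W →L[ℝ] W => L v) (t.SU x)
  have h7 : v = (v - s.S x v) + t.S x (v - t.U x v) - t.S x (v - s.S x v) := by
    rw [map_sub, map_sub, h5, h6]
    abel
  have h8 : ‖t.S x (v - t.U x v)‖ ≤ K * (η * dist z x) :=
    ((t.S x).le_opNorm _).trans (mul_le_mul (hK x).1 h4 (norm_nonneg _) hK0.le)
  have h9 : ‖t.S x (v - s.S x v)‖ ≤ K * (η * dist z x) :=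
    ((t.S x).le_opNorm _).trans (mul_le_mul (hK x).1 h3 (norm_nonneg _) hK0.le)
  have h10 : ‖v‖ ≤ 1 / 2 * dist z x := by
    rw [← hη2]
    have h11 : ‖v‖ ≤ ‖v - s.S x v‖ + ‖t.S x (v - t.U x v)‖ + ‖t.S x (v - s.S x v)‖ := by
      conv_lhs => rw [h7]
      exact (norm_sub_le _ _).trans (add_le_add (norm_add_le _ _) le_rfl)
    nlinarith
  have h12 : dist z x ≤ 0 := by
    rw [hd] at h10
    linarith
  exact dist_le_zero.1 h12

/-- Small stable plaques of `f` are small stable plaques of `g`. -/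
theorem wl_of_wl (h31 : SpecL31.{u}) (s : Split E f) (t : Split E g) (hs : s.Hyperbolic)
    (ht : t.Hyperbolic) (hfg : ∀ x, f (g x) = g (f x))
    (hr : ∀ x, (s.S x).range = (t.S x).range) {ε' : ℝ} (hε' : 0 < ε') :
    ∃ δ : ℝ, 0 < δ ∧ ∀ x, ∀ y ∈ Wl f δ x, y ∈ Wl g ε' x := by
  obtain ⟨ε₀, C₀, l₀, hP⟩ := specPair M W E f g s t hs ht hfg
  obtain ⟨ε₁, hε₁, h1⟩ := eq_of_wl s t hs ht hr
  obtain ⟨δ, hδ, H⟩ := h31 M f g ε₀ C₀ l₀ hP (min ε' ε₁) (lt_min hε' hε₁)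
  refine ⟨δ, hδ, fun x y hy => ?_⟩
  obtain ⟨z, -, -, -, h2, h3, h4⟩ := H x y hy
  have e : z = y := h1 y z (Wl_mono (min_le_right _ _) h2) (Wl_mono (min_le_right _ _) h4)
  rw [← e]
  exact Wl_mono (min_le_left _ _) h3

end F2SAMDAux

open F2SAMDAux in
/-- **SAMD.** -/
theorem specSamd (h31 : SpecL31.{u}) (hprod : SpecProd.{u}) (hpair : SpecPair.{u, v}) :
    SpecSamd.{u, v, w} := by
  intro M W _ _ _ _ _ E k J _ A χ F hA n n₁ n₂ hn hn₁ hn₂ hsgn x y hxy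
  obtain ⟨s, hs, -, -, -⟩ := hA.split n hn
  obtain ⟨s₁, hs₁, -, hr₁, -⟩ := hA.split n₁ hn₁
  obtain ⟨s₂, hs₂, -, hr₂, -⟩ := hA.split n₂ hn₂
  have hcomm : ∀ a b : Fin k → ℤ, ∀ z, A a (A b z) = A b (A a z) := fun a b z => by
    rw [← hA.add, add_comm, hA.add]
  have hr : ∀ z, (s₁.S z).range = (s₂.S z).range := fun z => by
    rw [hr₁ z, hr₂ z]
    exact iSup_congr fun j => by simp only [hsgn j]
  obtain ⟨ε, C, l, hP⟩ := hpair M W E (A n) (A n₂) s s₂ hs hs₂ (hcomm n n₂)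
  obtain ⟨δ₄, hδ₄, H4⟩ := (hprod M (A n) (A n₂) ε C l hP).2.2.2.1
  obtain ⟨δ, hδ, H⟩ := wl_of_wl h31 s₁ s₂ hs₁ hs₂ (hcomm n₁ n₂) hr hδ₄
  obtain ⟨N, hN⟩ := hxy (min δ δ₄) (lt_min hδ hδ₄)
  have h1 : (A n)^[N] y ∈ Wl (A n) δ₄ ((A n)^[N] x) := fun m => by
    rw [← iterate_add_apply, ← iterate_add_apply, dist_comm]
    exact (hN (m + N) 0 (by omega)).trans (min_le_right _ _)
  have h2 : (A n)^[N] y ∈ Wl (A n₁) δ ((A n)^[N] x) := fun m => by
    rw [← PRODAux.comm_iter (hcomm n n₁), ← PRODAux.comm_iter (hcomm n n₁), dist_comm]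
    exact (hN N m (by omega)).trans (min_le_left _ _)
  have h3 := (H4 _ _ h1 (H _ _ h2)).1
  exact PRODAux.dbl_of_image_iter (hcomm n n₂) N h3

end Pool.Agent.Lib.MP610fe3.HR
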