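import Pool.Agent.Lib.MP_610fe3_an.HR.F2Spec
import Pool.Agent.Lib.MP_610fe3_an.HR.RNG
import Pool.Agent.Lib.MP_610fe3_an.HR.EIG
import Pool.Agent.Lib.MP_610fe3_an.HR.CHN

/-!
# Module SATG: the wall with a line bundle on the other side
-/

set_option autoImplicit false

open Set Filter Function
open scoped Topology

namespace Pool.Agent.Lib.MP610fe3.HR

open Cf CH CHNAux

universe u v w

namespace F2SATGAux

/-- `CUp` depends on its second argument only by the relation `Dbl`. -/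
theorem cUp_congr {M : Type*} [MetricSpace M] {f g g' : M ≃ₜ M} (h : CUp f g)
    (h1 : ∀ x y, Dbl f g.symm x y → Dbl f g'.symm x y)
    (h2 : ∀ x y, Dbl f g'.symm x y → Dbl f g.symm x y) : CUp f g' := by
  obtain ⟨ε, hε, H⟩ := h
  exact ⟨ε, hε, fun a z z' q hz hz' hq hq' => h1 _ _ (H a z z' q ⟨hz.1, h2 _ _ hz.2⟩ hz' hq hq')⟩

/-- Near the wall, in the same chamber, with joint integrability. -/
theorem exists_cup {M : Type u} {W : Type v} [MetricSpace M] [CompactSpace M]
    [NormedAddCommGroup W] [InnerProductSpace ℝ W] [FiniteDimensional ℝ W] {E : Emb M W} {k : ℕ}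
    {J : Type w} [Finite J] {A : (Fin k → ℤ) → M ≃ₜ M} {χ : J → Fin k → ℝ}
    {F : J → M → Submodule ℝ W} (hNear : SpecNear.{u, v, w}) (hCu : SpecCu.{u, v})
    (hPair : SpecPair.{u, v}) (H : Act E A χ F) {n n' : Fin k → ℤ} {i j : J}
    (h : Wal χ n n' i j) (hi : ∀ x, Module.finrank ℝ (coarse χ F i x) = 1) :
    ∃ n'' : Fin k → ℤ, Wal χ n'' n' i j ∧ (∀ l, ev (χ l) n'' < 0 ↔ ev (χ l) n < 0) ∧
      CUp (A n'') (A n') := by
  obtain ⟨n'', s, t, hw, hsg, ⟨C₀, hB⟩, δ, C₁, B, Q, L, lg, N, hNw⟩ :=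
    hNear M W E k J A χ F H n n' i j h hi
  obtain ⟨ε, C, l, P⟩ := hPair M W E (A n'') (A n') s t hB.hs hB.ht.swap (comm H n'' n')
  exact ⟨n'', hw, hsg, hCu M W E (A n'') (A n') s t C₀ δ C₁ B Q L lg ε C l N hB P hNw⟩

end F2SATGAux

open F2SATGAux

/-- **SATG.** -/
theorem specSatg (hNear : SpecNear.{u, v, w}) (hCu : SpecCu.{u, v}) (hSamd : SpecSamd.{u, v, w})
    (hWallt : SpecWallt.{u, v}) (hPair : SpecPair.{u, v}) : SpecSatg.{u, v, w} := by
  intro M W _ _ _ _ _ _ E k J _ A χ F H n n' i j h hj K hK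
  have hneg : ∀ (l : J) (m : Fin k → ℤ), ev (χ l) (-m) = -ev (χ l) m := fun l m => ev_neg _ _
  have hregn : ∀ {m : Fin k → ℤ}, Regular χ m → Regular χ (-m) := fun {m} hm l => by
    rw [hneg]
    exact neg_ne_zero.2 (hm l)
  have hs := Wal.symm h
  -- the wall from `-n` to `-n'`
  have h1 : Wal χ (-n) (-n') j i := by
    refine ⟨hregn h.reg, hregn h.reg', hs.neg, ?_, ?_, fun l hl => ?_⟩
    · rw [hneg]
      have := hs.gt
      linarith
    · rw [hneg]
      have := hs.lt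
      linarith
    · refine hs.only l fun h' => hl ?_
      rw [hneg, hneg]
      have e1 := h.reg l
      have e2 := h.reg' l
      constructor
      · intro a
        by_contra b
        have b1 : ev (χ l) n' < 0 := lt_of_le_of_ne (by linarith) e2
        have := h'.1 b1
        linarith
      · intro a
        by_contra b
        have b1 : ev (χ l) n < 0 := lt_of_le_of_ne (by linarith) e1
        have := h'.2 b1
        linarith
  obtain ⟨n₁, hw₁, hsg₁, hC₁⟩ := exists_cup hNear hCu hPair H h1 hj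
  obtain ⟨m₁, hw₂, hsg₂, hC₂⟩ := exists_cup hNear hCu hPair H hs hj
  have hgs : (A (-m₁)).symm = A m₁ := by rw [neg H, Homeomorph.symm_symm]
  have hfs : (A n₁).symm = A (-n₁) := (neg H n₁).symm
  have hns : (A (-n')).symm = A n' := by rw [neg H, Homeomorph.symm_symm]
  -- the signs
  have sg1 : ∀ l, ev (χ l) n₁ < 0 ↔ 0 < ev (χ l) n := fun l => by
    rw [hsg₁, hneg, neg_lt_zero]
  have sg2 : ∀ l, ev (χ l) m₁ < 0 ↔ ev (χ l) n' < 0 := hsg₂
  -- joint integrability for the pair `(f, g)`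
  have hU1 : CUp (A n₁) (A (-m₁)) := by
    refine cUp_congr hC₁ (fun x y hxy => ?_) (fun x y hxy => ?_)
    · rw [hgs]
      rw [hns] at hxy
      exact hSamd M W E k J A χ F H n₁ n' m₁ hw₁.reg h.reg' hw₂.reg (fun l => (sg2 l).symm) x y hxy
    · rw [hgs] at hxy
      rw [hns]
      exact hSamd M W E k J A χ F H n₁ m₁ n' hw₁.reg hw₂.reg h.reg' (fun l => sg2 l) x y hxy
  have sg3 : ∀ l, ev (χ l) n₁ < 0 ↔ ev (χ l) (-n) < 0 := hsg₁
  have hU2 : CUp (A (-m₁)).symm (A n₁).symm := by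
    rw [hgs]
    refine cUp_congr hC₂ (fun x y hxy => ?_) (fun x y hxy => ?_)
    · rw [Homeomorph.symm_symm]
      rw [← neg H] at hxy
      exact hSamd M W E k J A χ F H m₁ (-n) n₁ hw₂.reg (hregn h.reg) hw₁.reg
        (fun l => (sg3 l).symm) x y hxy
    · rw [Homeomorph.symm_symm] at hxy
      rw [← neg H]
      exact hSamd M W E k J A χ F H m₁ n₁ (-n) hw₂.reg hw₁.reg (hregn h.reg) sg3 x y hxy
  -- the wall from `n₁` to `-m₁`
  have h2 : Wal χ n₁ (-m₁) j i := by
    refine ⟨hw₁.reg, hregn hw₂.reg, hs.neg, hw₁.lt, ?_, fun l hl => ?_⟩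
    · rw [hneg]
      have := hw₂.lt
      linarith
    · refine hs.only l fun h' => hl ?_
      rw [hneg, sg1]
      have e1 := h.reg l
      have e2 := h.reg' l
      have e3 := hw₂.reg l
      constructor
      · intro a
        by_contra b
        have b1 : ev (χ l) m₁ < 0 := lt_of_le_of_ne (by linarith) e3
        have := h'.1 ((sg2 l).1 b1)
        linarith
      · intro a
        by_contra b
        have b1 : ev (χ l) n < 0 := lt_of_le_of_ne (by linarith) e1
        have := (sg2 l).2 (h'.2 b1)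
        linarith
  obtain ⟨s, hsh, ⟨Cs, hSs⟩, hsS, hsU⟩ := H.split n₁ hw₁.reg
  obtain ⟨t, hth, ⟨Ct, hSt⟩, htS, htU⟩ := H.split (-m₁) (hregn hw₂.reg)
  have hrng := (specRng M W E k J χ F (A n₁) (A (-m₁)) s t n₁ (-m₁) hsh hth (comm H n₁ (-m₁))
    hw₁.reg (hregn hw₂.reg) hsS hsU htS htU j i h2).1
  have hB : Bun s t.swap (max Cs Ct) := {
    comm := fun x => EIGAux.comm_symm_right (comm H n₁ (-m₁)) x
    hs := hsh
    ht := hth.swap
    sqs := EIGAux.sq_mono hSs (le_max_left _ _)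
    sqt := (EIGAux.sq_mono hSt (le_max_right _ _)).swap
    rank := fun x => by rw [hrng x]; exact hj x }
  -- the minimal set
  have hstep : Step χ n (-n₁) := by
    refine ⟨h.reg, hregn hw₁.reg, Or.inl fun l hl => ?_⟩
    rw [hneg]
    have e1 := hw₁.reg l
    have e2 : ¬ ev (χ l) n₁ < 0 := fun h' => by
      have := (sg1 l).1 h'
      linarith
    have e3 : 0 < ev (χ l) n₁ := lt_of_le_of_ne (not_lt.1 e2) e1.symm
    linarith
  have hss := sats_of_step H hstep
  have hK1 := minimal_of hss.1 hss.2 hK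
  rw [neg H, Homeomorph.symm_symm] at hK1
  have hK2 : Sat (A (-m₁)) K :=
    hWallt M W E (A n₁) (A (-m₁)) s t (max Cs Ct) hB hU1 hU2 K hK1
  have hlink := link_of_below H h.reg' hw₂.reg (fun l hl => (sg2 l).1 hl)
  intro x hx y hxy
  refine hK2 x hx y ?_
  rw [neg H]
  exact hlink.c x y hxy

end Pool.Agent.Lib.MP610fe3.HR
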