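import Pool.Agent.Lib.MP_610fe3_an.HR.F2Spec
import Pool.Agent.Lib.MP_610fe3_an.HR.F1STAGE

/-!
# STGB: one stage of the argument for free segments, second form (MP_610fe3_an, hive F2)
-/

set_option autoImplicit false

open Set Filter Function
open scoped Topology

namespace Pool.Agent.Lib.MP610fe3.HR

open Cf CH

universe u v

namespace F2STGBAux

open F1STAGEAux

theorem fa_trans {X : Type*} [MetricSpace X] {a : X → X} {x y z : X} (h : FwdAsymp a x y)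
    (h' : FwdAsymp a y z) : FwdAsymp a x z := by
  have h1 : Tendsto (fun k : ℕ => dist (a^[k] x) (a^[k] y) + dist (a^[k] y) (a^[k] z)) atTop
      (𝓝 0) := by
    have := Tendsto.add h h'
    rwa [add_zero] at this
  exact squeeze_zero (fun _ => dist_nonneg) (fun _ => dist_triangle _ _ _) h1

theorem fa_self {X : Type*} [MetricSpace X] (a : X → X) (x : X) : FwdAsymp a x x := by
  have h1 : (fun k : ℕ => dist (a^[k] x) (a^[k] x)) = fun _ => 0 := funext fun k => dist_self _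
  rw [FwdAsymp, h1]
  exact tendsto_const_nhds

variable {M W : Type*} [MetricSpace M] [NormedAddCommGroup W] [NormedSpace ℝ W]
  {E : Emb M W} {f g : M ≃ₜ M}

/-- `RB` is saturated by unstable sets. -/
theorem rb_sat {A : Set M} {x y : M} (h : x ∈ RB f A) (hxy : FwdAsymp f.symm x y) :
    y ∈ RB f A := fun a ha hy => h a ha (fa_trans hxy hy)

theorem symm_iter_apply (n : ℕ) (x : M) : f.symm^[n] (f x) = f (f.symm^[n] x) := by
  induction n generalizing x with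
  | zero => rfl
  | succ n ih =>
    rw [iterate_succ_apply', ih, iterate_succ_apply', f.symm_apply_apply, f.apply_symm_apply]

theorem fa_apply {x y : M} : FwdAsymp f.symm (f x) (f y) ↔ FwdAsymp f.symm x y := by
  rw [FwdAsymp, FwdAsymp, ← tendsto_add_atTop_iff_nat 1]
  have h1 : (fun n : ℕ => dist (f.symm^[n + 1] (f x)) (f.symm^[n + 1] (f y))) =
      fun n : ℕ => dist (f.symm^[n] x) (f.symm^[n] y) := by
    funext n
    rw [iterate_succ_apply, iterate_succ_apply, f.symm_apply_apply, f.symm_apply_apply]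
  rw [h1]

/-- `RB` is invariant. -/
theorem rb_map {A : Set M} (hA : f '' A = A) {x : M} (h : x ∈ RB f A) : f x ∈ RB f A := by
  intro a ha hfa
  rw [← hA] at ha
  obtain ⟨b, hb, rfl⟩ := ha
  exact h b hb (fa_apply.1 hfa)

theorem rb_iter {A : Set M} (hA : f '' A = A) {x : M} (h : x ∈ RB f A) (n : ℕ) :
    f^[n] x ∈ RB f A := by
  induction n with
  | zero => exact h
  | succ n ih =>
    rw [iterate_succ_apply']
    exact rb_map hA ih

theorem rb_not_mem {A : Set M} {x : M} (h : x ∈ RB f A) : x ∉ A := fun hx =>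
  h x hx (fa_self _ _)

end F2STGBAux

open F1STAGEAux F2STGBAux

theorem specStgb (hC : SpecCoc.{u, v}) (hD : SpecDbl.{u}) (hSt : SpecStpx.{u, v})
    (hU : SpecUnb.{u, v}) (hY : SpecYch.{u, v}) : SpecStgb.{u, v} := by
  intro M W _ _ _ _ _ _ E f g s t C₀ ε C l γ A hB hP hG hCU hXY hGB
  obtain ⟨k, hk⟩ := hC M W E f g.symm s t.swap C₀ hB
  have hK1 := k.one_le
  have hK0 : 0 < k.K := by linarith
  obtain ⟨κ, hκ⟩ : ∃ κ : ℝ, κ = 1 / (2 * k.K) := ⟨_, rfl⟩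
  have hκ0 : 0 < κ := by rw [hκ]; positivity
  have hκ1 : κ ≤ 1 := by
    rw [hκ, div_le_one (by positivity)]
    linarith
  have hε := hP.one.decu.ε_pos
  have hCp : 0 ≤ C := by linarith [hP.one.decu.one_le]
  have hl0 := hP.one.decu.l_pos
  -- the relation of the leaves `Y`
  have hcommY : ∀ x, f.symm (g x) = g (f.symm x) := hP.symm_left.comm
  obtain ⟨-, hYs, hYt, -, hYf, -, hYi, -⟩ := hD M f.symm g hcommY
  have hYinv : ∀ x y, Dbl f.symm g (f x) (f y) ↔ Dbl f.symm g x y := by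
    intro x y
    refine hYi f (fun x => ?_) (fun x => hP.comm x) x y
    rw [f.symm_apply_apply, f.apply_symm_apply]
  have hUY : ∀ x, x ∈ UY f g A → f x ∈ UY f g A := by
    rintro x ⟨a, ha, hxa⟩
    refine ⟨f a, ?_, (hYinv x a).2 hxa⟩
    rw [← hGB.inv]
    exact ⟨a, ha, rfl⟩
  have hUYn : ∀ (n : ℕ) x, x ∈ UY f g A → f^[n] x ∈ UY f g A := by
    intro n
    induction n with
    | zero => exact fun x hx => hx
    | succ n ih =>
      intro x hx
      rw [iterate_succ_apply']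
      exact hUY _ (ih x hx)
  have hUYm : ∀ x y, x ∈ UY f g A → Dbl f.symm g x y → y ∈ UY f g A := by
    rintro x y ⟨a, ha, hxa⟩ hxy
    exact ⟨a, ha, hYt y x a (hYs x y hxy) hxa⟩
  have hdisj : ∀ x, x ∈ UY f g A → x ∉ RB f A := by
    rintro x ⟨a, ha, hxa⟩ hx
    exact hx a ha (hYf x a hxa)
  -- moving a free segment
  have hmove : ∀ (a₁ a' : M) (u₁ u' : W) (τ : ℝ → ℝ), FU g s t.swap γ A a₁ u₁ → Tau τ →
      PP s t.swap a' u' = u' → (∀ ρ ∈ Icc (0 : ℝ) 1,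
        γ a' (τ ρ • u') ∈ Wl f.symm ε (γ a₁ (ρ • u₁)) ∧
        Dbl f.symm g (γ a₁ (ρ • u₁)) (γ a' (τ ρ • u'))) → FU g s t.swap γ A a' u' := by
    intro a₁ a' u₁ u' τ hF hτ hu' hw
    have h0 : a' ∈ RB f A := by
      have h1 := (hw 0 (left_mem_Icc.2 zero_le_one)).1
      rw [hτ.zero, zero_smul, zero_smul, hG.zero, hG.zero] at h1
      exact rb_sat hF.1 (fa_of_wl hP.one.decu h1)
    have hin : ∀ ρ ∈ Ioo (0 : ℝ) 1, γ a' (τ ρ • u') ∈ UY f g A := fun ρ hρ =>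
      hUYm _ _ (hF.2.2.2 ρ hρ) (hw ρ (Ioo_subset_Icc_self hρ)).2
    refine ⟨h0, hu', fun hz => ?_, fun ρ' hρ' => ?_⟩
    · have h1 := hin (1 / 2) ⟨by norm_num, by norm_num⟩
      rw [hz, smul_zero, hG.zero] at h1
      exact hdisj _ h1 h0
    · obtain ⟨ρ, hρ, e⟩ := tau_surj hτ ⟨hρ'.1.le, hρ'.2.le⟩
      have hρ0 : 0 < ρ := by
        rcases hρ.1.eq_or_lt with h1 | h1
        · rw [← h1, hτ.zero] at e
          rw [← e] at hρ'
          exact absurd hρ'.1 (lt_irrefl _)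
        · exact h1
      have hρ1 : ρ < 1 := by
        rcases hρ.2.eq_or_lt with h1 | h1
        · rw [h1, hτ.one] at e
          rw [← e] at hρ'
          exact absurd hρ'.2 (lt_irrefl _)
        · exact h1
      have h1 := hin ρ ⟨hρ0, hρ1⟩
      rwa [e] at h1
  obtain ⟨δ, hδ, hstep⟩ := hSt M W E f g s t C₀ ε C l γ hB hP hG hCU hXY 3 ε (by norm_num) hε
  obtain ⟨e, he, hych⟩ := hY M W E f g s ε C l hB.hs hP
  obtain ⟨N, hunb⟩ := hU M W E f g s t C₀ ε C l γ A hB hP hG hGB κ e hκ0 he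
  obtain ⟨K, hK⟩ := hych N δ hδ
  refine ⟨κ, K * (C * ε), hκ0, hκ1, fun a u hF hu1 hu2 => ?_⟩
  obtain ⟨b, hbA, hb⟩ := hunb a u hF.2.1 hu1 hu2 hF.2.2.2
  obtain ⟨j, hjK, c, hc0, hcj, hc⟩ := hK _ _ hb
  have hc0' : c 0 = γ a ((1 / 2 : ℝ) • u) := by
    rw [hc0]
    exact H1.iter_symm_iter f N _
  have hcA : c j ∈ A := by
    rw [hcj]
    exact (iter_mem hGB.inv N).2 hbA
  -- the induction along the chain
  have hmain : ∀ i ≤ j,
      (∃ (a' : M) (u' : W) (σ : ℝ → ℝ), FU g s t.swap γ A a' u' ∧ ‖u'‖ ≤ 2 ∧ Tau σ ∧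
        γ a' (σ (1 / 2) • u') = c i ∧ ∀ ρ ∈ Icc (0 : ℝ) 1, ∀ n : ℕ,
          dist (f.symm^[n] (γ a' (σ ρ • u'))) (f.symm^[n] (γ a (ρ • u))) ≤
            i * (C * ε) * l ^ n) ∨
      (∃ (a' : M) (u' : W) (σ : ℝ → ℝ), FU g s t.swap γ A a' u' ∧ 2 < ‖u'‖ ∧ Tau σ ∧
        ∀ ρ ∈ Icc (0 : ℝ) 1, ∀ n : ℕ,
          dist (f.symm^[n] (γ a' (σ ρ • u'))) (f.symm^[n] (γ a (ρ • u))) ≤
            K * (C * ε) * l ^ n) := by
    intro i
    induction i with
    | zero =>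
      intro _
      left
      refine ⟨a, u, fun ρ => ρ, hF, by linarith, tau_id, hc0'.symm, fun ρ _ n => ?_⟩
      rw [dist_self]
      simp
    | succ i ih =>
      intro hi
      rcases ih (by omega) with ⟨a₁, u₁, σ, hF₁, hn₁, hσ, hcσ, hdist⟩ | h
      · have hhalf : σ (1 / 2) ∈ Icc (0 : ℝ) 1 := tau_mem hσ ⟨by norm_num, by norm_num⟩
        have hci := hc i (by omega)
        rw [← hcσ] at hci
        obtain ⟨a', u', τ, hu', hn', hτ, hcτ, hw⟩ :=
          hstep a₁ u₁ (σ (1 / 2)) (c (i + 1)) hF₁.2.1 hF₁.2.2.1 (by linarith) hhalf hci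
        have hF' : FU g s t.swap γ A a' u' := hmove a₁ a' u₁ u' τ hF₁ hτ hu' hw
        have hdist' : ∀ ρ ∈ Icc (0 : ℝ) 1, ∀ n : ℕ,
            dist (f.symm^[n] (γ a' (τ (σ ρ) • u'))) (f.symm^[n] (γ a (ρ • u))) ≤
              ((i : ℝ) + 1) * (C * ε) * l ^ n := by
          intro ρ hρ n
          have h1 := (hw (σ ρ) (tau_mem hσ hρ)).1
          have h2 := hP.one.decu.dec _ _ h1 n
          have h3 : dist (γ a' (τ (σ ρ) • u')) (γ a₁ (σ ρ • u₁)) ≤ ε := h1 0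
          have h4 := hdist ρ hρ n
          have h5 := dist_triangle (f.symm^[n] (γ a' (τ (σ ρ) • u')))
            (f.symm^[n] (γ a₁ (σ ρ • u₁))) (f.symm^[n] (γ a (ρ • u)))
          have h6 : C * l ^ n * dist (γ a' (τ (σ ρ) • u')) (γ a₁ (σ ρ • u₁)) ≤
              C * l ^ n * ε := mul_le_mul_of_nonneg_left h3 (by positivity)
          have h7 : ((i : ℝ) + 1) * (C * ε) * l ^ n = i * (C * ε) * l ^ n + C * l ^ n * ε := by
            ring
          linarith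
        rcases le_or_gt ‖u'‖ 2 with hn | hn
        · left
          refine ⟨a', u', fun ρ => τ (σ ρ), hF', hn, tau_comp hτ hσ, hcτ, fun ρ hρ n => ?_⟩
          have := hdist' ρ hρ n
          push_cast
          exact this
        · right
          refine ⟨a', u', fun ρ => τ (σ ρ), hF', hn, tau_comp hτ hσ, fun ρ hρ n => ?_⟩
          refine (hdist' ρ hρ n).trans ?_
          have hiK : (i : ℝ) + 1 ≤ K := by
            have : i + 1 ≤ K := hi.trans hjK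
            exact_mod_cast this
          have h8 : 0 ≤ C * ε := by positivity
          have h9 : 0 ≤ l ^ n := by positivity
          exact mul_le_mul_of_nonneg_right (mul_le_mul_of_nonneg_right hiK h8) h9
      · exact Or.inr h
  -- the norm exceeds `2`
  have hstop : ∃ (a' : M) (u' : W) (σ : ℝ → ℝ), FU g s t.swap γ A a' u' ∧ 2 < ‖u'‖ ∧ Tau σ ∧
        ∀ ρ ∈ Icc (0 : ℝ) 1, ∀ n : ℕ,
          dist (f.symm^[n] (γ a' (σ ρ • u'))) (f.symm^[n] (γ a (ρ • u))) ≤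
            K * (C * ε) * l ^ n := by
    rcases hmain j le_rfl with ⟨a₁, u₁, σ, hF₁, hn₁, hσ, hcσ, -⟩ | h
    · exfalso
      have hv : PP s t.swap a₁ (σ (1 / 2) • u₁) = σ (1 / 2) • u₁ := by
        rw [map_smul, hF₁.2.1]
      have h1 := hG.dbl _ _ hv
      rw [hcσ] at h1
      have hcomm : ∀ x, f (g.symm x) = g.symm (f x) := hP.symm_right.comm
      obtain ⟨-, -, -, -, hfa, -⟩ := hD M f g.symm hcomm
      exact rb_not_mem hF₁.1 (hGB.sat _ hcA _ (F1STAGEAux.fa_symm (hfa _ _ h1)))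
    · exact h
  obtain ⟨a₁, u₁, σ, hF₁, hn₁, hσ, hdist⟩ := hstop
  -- apply `f^m`
  have hS : s.S a₁ u₁ = u₁ := by
    conv_lhs => rw [← hF₁.2.1]
    conv_rhs => rw [← hF₁.2.1]
    exact congrArg (fun L : W →L[ℝ] W => L (t.swap.S a₁ u₁)) (s.SS a₁)
  have hex : ∃ m : ℕ, ‖k.A m a₁ u₁‖ ≤ 1 := by
    obtain ⟨C', l', hC', hl', hl1', hhyp⟩ := hB.hs
    have ht : Tendsto (fun n : ℕ => C' * l' ^ n * ‖u₁‖) atTop (𝓝 (C' * 0 * ‖u₁‖)) :=
      ((tendsto_pow_atTop_nhds_zero_of_lt_one hl'.le hl1').const_mul C').mul_const _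
    rw [mul_zero, zero_mul] at ht
    obtain ⟨m, hm⟩ := (ht.eventually (gt_mem_nhds one_pos)).exists
    refine ⟨m, ?_⟩
    have h1 := (hhyp m a₁ u₁).1
    rw [hS] at h1
    rw [Coc.A, hk.D]
    exact h1.trans hm.le
  classical
  obtain ⟨m, hm1, hm2⟩ : ∃ m : ℕ, ‖k.A (m + 1) a₁ u₁‖ ≤ 1 ∧ 1 < ‖k.A m a₁ u₁‖ := by
    have h1 := Nat.find_spec hex
    have h2 : Nat.find hex ≠ 0 := by
      intro h0
      rw [h0] at h1
      have h3 : k.A 0 a₁ u₁ = u₁ := rfl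
      rw [h3] at h1
      linarith
    obtain ⟨m, hm⟩ := Nat.exists_eq_succ_of_ne_zero h2
    refine ⟨m, ?_, ?_⟩
    · rw [hm] at h1
      exact h1
    · have := Nat.find_min hex (m := m) (by omega)
      exact lt_of_not_ge this
  obtain ⟨p1, p2⟩ := REPAux.gam_iter hk hG hF₁.2.1 (m + 1)
  obtain ⟨p3, -⟩ := REPAux.gam_iter hk hG hF₁.2.1 m
  have hlow : κ ≤ ‖k.A (m + 1) a₁ u₁‖ := by
    have h1 : k.A (m + 1) a₁ u₁ = k.D (f^[m] a₁) (k.A m a₁ u₁) := by rw [k.A_succ]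
    have h2 := k.inv1 (f^[m] a₁) (k.A m a₁ u₁)
    rw [hk.S, p3, ← h1] at h2
    have h3 := k.Di_le (f (f^[m] a₁)) (k.A (m + 1) a₁ u₁)
    rw [h2] at h3
    rw [hκ, div_le_iff₀ (by positivity)]
    nlinarith
  refine ⟨f^[m + 1] a₁, k.A (m + 1) a₁ u₁, σ, m + 1, Nat.succ_pos m, ⟨?_, p1, ?_, ?_⟩, hlow, hm1,
    hσ, ?_⟩
  · exact rb_iter hGB.inv hF₁.1 (m + 1)
  · intro h0
    rw [h0, norm_zero] at hlow
    linarith
  · intro ρ hρ
    have hv : PP s t.swap a₁ (ρ • u₁) = ρ • u₁ := by rw [map_smul, hF₁.2.1]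
    have h1 := (REPAux.gam_iter hk hG hv (m + 1)).2
    rw [map_smul] at h1
    rw [← h1]
    exact hUYn (m + 1) _ (hF₁.2.2.2 ρ hρ)
  · intro ρ hρ n
    have hv : PP s t.swap a₁ (σ ρ • u₁) = σ ρ • u₁ := by rw [map_smul, hF₁.2.1]
    have h1 := (REPAux.gam_iter hk hG hv (m + 1)).2
    rw [map_smul] at h1
    rw [← h1, iterate_add_apply, H1.symm_iter_iter]
    exact hdist ρ hρ n

end Pool.Agent.Lib.MP610fe3.HR
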