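import Pool.Agent.Lib.MP_610fe3_an.HR.F2Spec
import Pool.Agent.Lib.MP_610fe3_an.HR.F1STEP

/-!
# STPX: carry a segment of a leaf `X` along a small link of a leaf `Y`
-/

set_option autoImplicit false

open Set Filter Function
open scoped Topology

namespace Pool.Agent.Lib.MP610fe3.HR

open Cf CH

universe u v

namespace F2STPXAux

open F1STEPAux

section Top

variable {M : Type*} [MetricSpace M]

/-- Double leaves are invariant under the iterates of a commuting homeomorphism. -/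
theorem dbl_iter {f g c : M ≃ₜ M} (h : ∀ x y, Dbl f g (c x) (c y) ↔ Dbl f g x y) (k : ℕ)
    (x y : M) : Dbl f g (c^[k] x) (c^[k] y) ↔ Dbl f g x y := by
  induction k with
  | zero => exact Iff.rfl
  | succ k ih => rw [iterate_succ_apply', iterate_succ_apply', h, ih]

/-- Small unstable plaques stay small under a fixed number of iterates. -/
theorem wl_iter [CompactSpace M] (f : M ≃ₜ M) (n : ℕ) {η : ℝ} (hη : 0 < η) :
    ∃ δ : ℝ, 0 < δ ∧ ∀ x y, y ∈ Wl f.symm δ x → f^[n] y ∈ Wl f.symm η (f^[n] x) := by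
  have h1 : ∀ N : ℕ, ∃ δu : ℝ, 0 < δu ∧ ∀ j ≤ N, ∀ x y : M, dist x y < δu →
      dist (f^[j] x) (f^[j] y) ≤ η := by
    intro N
    induction N with
    | zero =>
      refine ⟨η, hη, fun j hj x y hxy => ?_⟩
      rw [Nat.le_zero.1 hj]
      exact hxy.le
    | succ N ih =>
      obtain ⟨δ₁, hδ₁, H₁⟩ := ih
      obtain ⟨δ₂, hδ₂, H₂⟩ := Metric.uniformContinuous_iff.1
        (CompactSpace.uniformContinuous_of_continuous (f.continuous.iterate (N + 1))) η hη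
      refine ⟨min δ₁ δ₂, lt_min hδ₁ hδ₂, fun j hj x y hxy => ?_⟩
      rcases Nat.lt_or_ge j (N + 1) with hj' | hj'
      · exact H₁ j (by omega) x y (lt_of_lt_of_le hxy (min_le_left _ _))
      · have : j = N + 1 := by omega
        rw [this]
        exact (H₂ (lt_of_lt_of_le hxy (min_le_right _ _))).le
  obtain ⟨δu, hδu, huc⟩ := h1 n
  refine ⟨min η (δu / 2), lt_min hη (half_pos hδu), fun x y hy i => ?_⟩
  rcases Nat.lt_or_ge n i with hi | hi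
  · obtain ⟨c, rfl⟩ : ∃ c, i = c + n := ⟨i - n, by omega⟩
    rw [iterate_add_apply, iterate_add_apply, symm_iter, symm_iter]
    exact (hy c).trans (min_le_left _ _)
  · obtain ⟨c, hc⟩ : ∃ c, n = i + c := ⟨n - i, by omega⟩
    have h1 : ∀ y : M, f.symm^[i] (f^[n] y) = f^[c] y := by
      intro y
      rw [hc, iterate_add_apply, symm_iter]
    rw [h1, h1]
    apply huc c (by omega)
    have h2 : dist y x ≤ δu / 2 := (hy 0).trans (min_le_right _ _)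
    linarith

end Top

/-- A fixed number of iterates makes the segments of bounded norm small. -/
theorem small_iter {M W : Type*} [MetricSpace M] [NormedAddCommGroup W] [NormedSpace ℝ W]
    {E : Emb M W} {f h : M ≃ₜ M} {s : Split E f} {t : Split E h} {γ : M → W → M}
    {k : Coc W f} (hk : IsCoc s t k) (hs : s.Hyperbolic) (hG : Gam s t γ) (Λ : ℝ) {η : ℝ}
    (hη : 0 < η) : ∃ n : ℕ, ∀ a u, PP s t a u = u → ‖u‖ ≤ Λ → ∀ ρ ∈ Icc (0 : ℝ) 1,
      f^[n] (γ a (ρ • u)) ∈ Wl f η (f^[n] a) := by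
  obtain ⟨r₀, hr₀, hsmall⟩ := hG.small η hη
  obtain ⟨Ch, lh, hCh, hlh, hlh1, hyp⟩ := hs
  have ht : Tendsto (fun n : ℕ => Ch * lh ^ n * Λ) atTop (𝓝 (Ch * 0 * Λ)) :=
    ((tendsto_pow_atTop_nhds_zero_of_lt_one hlh.le hlh1).const_mul Ch).mul_const _
  rw [mul_zero, zero_mul] at ht
  obtain ⟨n, hn⟩ := (ht.eventually (gt_mem_nhds hr₀)).exists
  refine ⟨n, fun a u hu hul ρ hρ => ?_⟩
  have h1 := (REPAux.gam_iter hk hG hu n).1
  have h2 := (REPAux.gam_iter hk hG (w := ρ • u) (x := a) (by rw [map_smul, hu]) n).2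
  rw [h2, map_smul]
  have hdec : ‖k.A n a u‖ ≤ Ch * lh ^ n * ‖u‖ := by
    have hSu : s.S a u = u := by
      conv_lhs => rw [← hu]
      conv_rhs => rw [← hu]
      exact congrArg (fun L : W →L[ℝ] W => L (t.S a u)) (s.SS a)
    have h1 := (hyp n a u).1
    rw [hSu] at h1
    rw [Coc.A, hk.D]
    exact h1
  apply hsmall
  · rw [map_smul, h1]
  · rw [norm_smul, Real.norm_eq_abs, abs_of_nonneg hρ.1]
    calc ρ * ‖k.A n a u‖ ≤ 1 * (Ch * lh ^ n * ‖u‖) :=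
          mul_le_mul hρ.2 hdec (norm_nonneg _) zero_le_one
      _ ≤ Ch * lh ^ n * Λ := by
          rw [one_mul]
          gcongr
      _ ≤ r₀ := hn.le

end F2STPXAux

open F1STEPAux F2STPXAux

/-- **STPX**: carry a segment of a leaf `X` along a small link of a leaf `Y`. -/
theorem specStpx (hSt : SpecStep.{u, v}) (hD : SpecDbl.{u}) (hC : SpecCoc.{u, v}) :
    SpecStpx.{u, v} := by
  intro M W _ _ _ _ _ E f g s t C₀ ε C l γ hB hPair hG hCU hXY Λ ε' hΛ hε'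
  obtain ⟨k, hk⟩ := hC M W E f g.symm s t.swap C₀ hB
  obtain ⟨-, hsyX, htrX, -, -, -, hinvX, -⟩ := hD M f g.symm hB.comm
  obtain ⟨-, -, -, -, -, -, hinvY, -⟩ := hD M f.symm g hPair.symm_left.comm
  have hcX : ∀ x y, Dbl f g.symm (f x) (f y) ↔ Dbl f g.symm x y :=
    hinvX f (fun x => rfl) (fun x => hB.comm x)
  have hcY : ∀ x y, Dbl f.symm g (f x) (f y) ↔ Dbl f.symm g x y :=
    hinvY f (fun x => by rw [f.apply_symm_apply, f.symm_apply_apply]) (fun x => hPair.comm x)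
  obtain ⟨e, he, hXY⟩ := hXY
  obtain ⟨n, hn⟩ := small_iter hk hB.hs hG (Λ + 1) (half_pos he)
  obtain ⟨δ₁, hδ₁, hw⟩ := wl_iter f n he
  obtain ⟨δ, hδ, H⟩ := hSt M W E f g s t C₀ ε C l γ hB hPair hG hCU Λ (min ε' δ₁) hΛ
    (lt_min hε' hδ₁)
  have hsm : ∀ a u, PP s t.swap a u = u → ‖u‖ ≤ Λ + 1 → ∀ ρ ∈ Icc (0 : ℝ) 1,
      ∀ ρ' ∈ Icc (0 : ℝ) 1, f^[n] (γ a (ρ • u)) ∈ Wl f e (f^[n] (γ a (ρ' • u))) := by
    intro a u hu hul ρ hρ ρ' hρ'
    have h1 := wl_trans (wl_symm (hn a u hu hul ρ' hρ')) (hn a u hu hul ρ hρ)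
    rwa [add_halves] at h1
  refine ⟨min δ δ₁, lt_min hδ hδ₁, fun a u r m' hu hu0 hul hr hm' => ?_⟩
  obtain ⟨a', u', τ, hu', hul', hτ, hr', hρ⟩ := H a u r m' hu hu0 hul hr
    (wl_mono (min_le_left _ _) hm'.1)
  refine ⟨a', u', τ, hu', hul', hτ, hr', fun ρ hρI => ⟨wl_mono (min_le_left _ _) (hρ ρ hρI), ?_⟩⟩
  have h0 : (0 : ℝ) ∈ Icc (0 : ℝ) 1 := ⟨le_rfl, zero_le_one⟩
  have h1 : (1 : ℝ) ∈ Icc (0 : ℝ) 1 := ⟨zero_le_one, le_rfl⟩
  have hτm : ∀ σ ∈ Icc (0 : ℝ) 1, τ σ ∈ Icc (0 : ℝ) 1 := by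
    intro σ hσ
    have ha := hτ.mono.monotoneOn h0 hσ hσ.1
    have hb := hτ.mono.monotoneOn hσ h1 hσ.2
    rw [hτ.zero] at ha
    rw [hτ.one] at hb
    exact ⟨ha, hb⟩
  have hus : ∀ c : ℝ, PP s t.swap a (c • u) = c • u := fun c => by rw [map_smul, hu]
  have key := hXY (f^[n] (γ a (ρ • u))) (f^[n] (γ a (r • u))) (f^[n] m')
    (f^[n] (γ a' (τ ρ • u'))) ?_ ?_ ?_ ?_
  · exact (dbl_iter hcY n _ _).1 key.2
  · refine ⟨hsm a u hu (by linarith) r hr ρ hρI, ?_⟩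
    rw [dbl_iter hcX]
    exact htrX _ _ _ (hsyX _ _ (hG.dbl a _ (hus ρ))) (hG.dbl a _ (hus r))
  · refine ⟨hw _ _ (wl_mono (min_le_right _ _) hm'.1), ?_⟩
    rw [dbl_iter hcY]
    exact hm'.2
  · exact hw _ _ (wl_mono (min_le_right _ _) (hρ ρ hρI))
  · rw [← hr']
    exact hsm a' u' hu' (hul'.trans (by linarith)) (τ ρ) (hτm ρ hρI) (τ r) (hτm r hr)

end Pool.Agent.Lib.MP610fe3.HR
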