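import Pool.Agent.Lib.MP_610fe3_an.HR.F2Spec
import Pool.Agent.Lib.MP_610fe3_an.HR.F1STRT

/-!
# Module STRB of hive F2: start of a free segment (helper25)
-/

set_option autoImplicit false

open Set Filter Function
open scoped Topology

namespace Pool.Agent.Lib.MP610fe3.HR

open Cf CH

universe u v

namespace F2STRBAux

variable {M W : Type*} [MetricSpace M] [NormedAddCommGroup W] [NormedSpace ℝ W]
  {E : Emb M W} {f g : M ≃ₜ M} {s : Split E f} {t : Split E g} {γ : M → W → M}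

theorem fw_step {h : M → M} {x y : M} (hxy : FwdAsymp h (h x) (h y)) : FwdAsymp h x y := by
  unfold FwdAsymp at *
  rw [← tendsto_add_atTop_iff_nat 1]
  exact hxy

/-- `RB` is mapped into itself by `f.symm`. -/
theorem rb_symm {A : Set M} (hA : f '' A = A) {a : M} (h : a ∈ RB f A) : f.symm a ∈ RB f A := by
  intro a' ha' hcon
  refine h (f a') ?_ (fw_step ?_)
  · rw [← hA]
    exact mem_image_of_mem _ ha'
  · rw [f.symm_apply_apply]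
    exact hcon

theorem uy_rb {A : Set M} (hD : ∀ x y, Dbl f.symm g x y → FwdAsymp f.symm x y) {m : M}
    (h : m ∈ UY f g A) (h' : m ∈ RB f A) : False := by
  obtain ⟨a, ha, hma⟩ := h
  exact h' a ha (hD _ _ hma)

theorem uy_symm {A : Set M} (hA : f '' A = A)
    (hD : ∀ x y, Dbl f.symm g (f.symm x) (f.symm y) ↔ Dbl f.symm g x y) {m : M}
    (h : m ∈ UY f g A) : f.symm m ∈ UY f g A := by
  obtain ⟨a, ha, hma⟩ := h
  exact ⟨f.symm a, F1STRTAux.symm_mem hA ha, (hD _ _).2 hma⟩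

theorem fu_pull {k : Coc W f} (hk : IsCoc s t.swap k) (hG : Gam s t.swap γ) {A : Set M}
    (hA : f '' A = A) (hD : ∀ x y, Dbl f.symm g (f.symm x) (f.symm y) ↔ Dbl f.symm g x y)
    {a : M} {u : W} (h : FU g s t.swap γ A a u) : FU g s t.swap γ A (f.symm a) (s.Di a u) := by
  obtain ⟨h1, h2, h3, h4⟩ := h
  obtain ⟨p1, p2, p3⟩ := F1STRTAux.pull hk hG h2
  refine ⟨rb_symm hA h1, p1, ?_, fun ρ hρ => ?_⟩
  · intro h0
    rw [h0, map_zero] at p2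
    exact h3 p2.symm
  · rw [← p3]
    exact uy_symm hA hD (h4 ρ hρ)

theorem fu_iter {k : Coc W f} (hk : IsCoc s t.swap k) (hG : Gam s t.swap γ) {A : Set M}
    (hA : f '' A = A) (hD : ∀ x y, Dbl f.symm g (f.symm x) (f.symm y) ↔ Dbl f.symm g x y)
    {a : M} {u : W} (h : FU g s t.swap γ A a u) (n : ℕ) :
    ∃ a' u', FU g s t.swap γ A a' u' ∧ iterD s.D f n a' u' = u := by
  induction n with
  | zero => exact ⟨a, u, h, rfl⟩
  | succ n ih =>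
    obtain ⟨a', u', h1, h2⟩ := ih
    refine ⟨f.symm a', s.Di a' u', fu_pull hk hG hA hD h1, ?_⟩
    have h3 : iterD s.D f (n + 1) (f.symm a') (s.Di a' u')
        = iterD s.D f n (f (f.symm a')) (s.D (f.symm a') (s.Di a' u')) := rfl
    rw [h3, f.apply_symm_apply, (F1STRTAux.pull hk hG h1.2.1).2.1, h2]

/-- Normalization. -/
theorem fu_unit {k : Coc W f} (hk : IsCoc s t.swap k) (hs : s.Hyperbolic) (hG : Gam s t.swap γ)
    {A : Set M} (hA : f '' A = A)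
    (hD : ∀ x y, Dbl f.symm g (f.symm x) (f.symm y) ↔ Dbl f.symm g x y) {a : M} {u : W}
    (h : FU g s t.swap γ A a u) : ∃ a' u', ‖u'‖ = 1 ∧ FU g s t.swap γ A a' u' := by
  have hu : u ≠ 0 := h.2.2.1
  obtain ⟨C, l, hC, hl, hl1, H⟩ := F1STRTAux.norm_iterD (t := t.swap) hs
  have ht : Tendsto (fun n : ℕ => C * l ^ n) atTop (𝓝 (C * 0)) :=
    (tendsto_pow_atTop_nhds_zero_of_lt_one hl.le hl1).const_mul C
  rw [mul_zero] at ht
  obtain ⟨n, hn⟩ := (ht.eventually (gt_mem_nhds (norm_pos_iff.2 hu))).exists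
  obtain ⟨a', u', h1, h2⟩ := fu_iter hk hG hA hD h n
  have h3 := H n a' u' h1.2.1
  rw [h2] at h3
  have h4 : 1 ≤ ‖u'‖ := by
    by_contra hcon
    push Not at hcon
    have h5 : C * l ^ n * ‖u'‖ ≤ C * l ^ n * 1 :=
      mul_le_mul_of_nonneg_left hcon.le (by positivity)
    linarith
  have h0 : 0 < ‖u'‖ := by linarith
  have hn1 : ‖‖u'‖⁻¹ • u'‖ = 1 := by
    rw [norm_smul, norm_inv, norm_norm, inv_mul_cancel₀ h0.ne']
  refine ⟨a', ‖u'‖⁻¹ • u', hn1, h1.1, ?_, ?_, fun ρ hρ => ?_⟩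
  · rw [map_smul, h1.2.1]
  · intro h
    rw [h, norm_zero] at hn1
    exact zero_ne_one hn1
  · rw [smul_smul]
    refine h1.2.2.2 _ ⟨mul_pos hρ.1 (inv_pos.2 h0), ?_⟩
    calc ρ * ‖u'‖⁻¹ ≤ ρ * 1 := by
          gcongr
          · exact hρ.1.le
          · exact inv_le_one_of_one_le₀ h4
      _ = ρ := mul_one ρ
      _ < 1 := hρ.2

end F2STRBAux

open F2STRBAux

/-- **STRB**: start of a free segment. -/
theorem specStrb (hUop : SpecUop.{u}) (hUcl : SpecUcl.{u}) (hC : SpecCoc.{u, v})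
    (hR : SpecRep.{u, v}) (hD : SpecDbl.{u}) : SpecStrb.{u, v} := by
  intro M W _ _ _ _ _ E f g s t C₀ ε C l γ A hB hP hG hX hA p hp y hy hyA
  obtain ⟨k, hk⟩ := hC M W E f g.symm s t.swap C₀ hB
  obtain ⟨-, hsym, -, -⟩ := hD M f g.symm hB.comm
  obtain ⟨-, hsymY, -, -, hfwY, -, hinvY, -⟩ := hD M f.symm g hP.symm_left.comm
  have hinv : ∀ x y, Dbl f.symm g (f.symm x) (f.symm y) ↔ Dbl f.symm g x y :=
    hinvY f.symm (fun _ => rfl) hP.symm_left.comm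
  have hyU : y ∈ UY f g A := ⟨p, hp, hsymY _ _ hy⟩
  obtain ⟨r, hyr, hrB⟩ := hA.s3 y fun a ha hya => hyA (hA.s2 p hp a ha y hy hya)
  obtain ⟨w, hw, rfl⟩ := hG.surj y r hyr
  have hrB' : γ y w ∈ RB f A := hrB
  have hw' : ∀ ρ : ℝ, PP s t.swap y (ρ • w) = ρ • w := fun ρ => by rw [map_smul, hw]
  have hwne : w ≠ 0 := by
    rintro rfl
    rw [hG.zero] at hrB'
    exact uy_rb hfwY hyU hrB'
  -- change of the base point
  have hbase : ∀ ρ₀ : ℝ, ∃ (u₀ : W) (τ : ℝ → ℝ), PP s t.swap (γ y (ρ₀ • w)) u₀ = u₀ ∧ u₀ ≠ 0 ∧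
      Continuous τ ∧ Injective τ ∧ τ ρ₀ = 0 ∧
      ∀ ρ : ℝ, γ y (ρ • w) = γ (γ y (ρ₀ • w)) (τ ρ • u₀) := by
    intro ρ₀
    obtain ⟨u₀, hu₀, hu₀ne⟩ : ∃ u₀, PP s t.swap (γ y (ρ₀ • w)) u₀ = u₀ ∧ u₀ ≠ 0 := by
      obtain ⟨w', hw'⟩ := k.S_ne (γ y (ρ₀ • w))
      have h1 := k.SS (γ y (ρ₀ • w)) w'
      rw [hk.S] at h1 hw'
      exact ⟨_, h1, hw'⟩
    obtain ⟨τ, hτc, hτi, hτ⟩ := hR M W E f g.symm s t.swap C₀ γ hB hG (γ y (ρ₀ • w)) y u₀ w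
      (hsym _ _ (hG.dbl y _ (hw' ρ₀))) hu₀ hu₀ne hw
    refine ⟨u₀, τ, hu₀, hu₀ne, hτc, hτi hwne, ?_, hτ⟩
    have h1 : γ (γ y (ρ₀ • w)) (τ ρ₀ • u₀) = γ (γ y (ρ₀ • w)) 0 := by rw [← hτ, hG.zero]
    have h2 := hG.inj _ _ _ (by rw [map_smul, hu₀]) (map_zero _) h1
    exact (smul_eq_zero.1 h2).resolve_right hu₀ne
  -- the set of parameters of points of `UY` is open
  have hop : IsOpen {ρ : ℝ | γ y (ρ • w) ∈ UY f g A} := by
    rw [isOpen_iff_mem_nhds]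
    intro ρ₀ hρ₀
    obtain ⟨δ, hδ, H⟩ := hUop M f g ε C l hP hX A hA _ hρ₀
    obtain ⟨u₀, τ, hu₀, -, hτc, -, hτ0, hτ⟩ := hbase ρ₀
    obtain ⟨r₀, hr₀, hsm⟩ := hG.small δ hδ
    have hcont : Continuous fun ρ : ℝ => ‖τ ρ • u₀‖ := (hτc.smul continuous_const).norm
    have hlt : ‖τ ρ₀ • u₀‖ < r₀ := by rw [hτ0, zero_smul, norm_zero]; exact hr₀
    filter_upwards [hcont.continuousAt.eventually (gt_mem_nhds hlt)] with ρ hρ
    have hfix : PP s t.swap (γ y (ρ₀ • w)) (τ ρ • u₀) = τ ρ • u₀ := by rw [map_smul, hu₀]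
    show γ y (ρ • w) ∈ UY f g A
    rw [hτ]
    exact H _ ⟨hsm _ _ hfix hρ.le, hG.dbl _ _ hfix⟩
  have hcontγ : Continuous fun ρ : ℝ => γ y (ρ • w) := by
    have h1 : (fun ρ : ℝ => γ y (ρ • w)) = fun ρ : ℝ =>
        (fun q : M × W => γ q.1 (PP s t.swap q.1 q.2)) (y, ρ • w) := by
      funext ρ
      simp only [hw']
    rw [h1]
    exact hG.cont.comp (continuous_const.prodMk (continuous_id.smul continuous_const))
  -- the first parameter outside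
  have hSc : IsCompact (Icc (0 : ℝ) 1 ∩ {ρ : ℝ | γ y (ρ • w) ∈ UY f g A}ᶜ) :=
    isCompact_Icc.inter_right hop.isClosed_compl
  have hS1 : (1 : ℝ) ∈ Icc (0 : ℝ) 1 ∩ {ρ : ℝ | γ y (ρ • w) ∈ UY f g A}ᶜ := by
    refine ⟨⟨zero_le_one, le_rfl⟩, fun h => ?_⟩
    have h' : γ y ((1 : ℝ) • w) ∈ UY f g A := h
    rw [one_smul] at h'
    exact uy_rb hfwY h' hrB'
  obtain ⟨ρ₀, ⟨⟨h00, h01⟩, hρU⟩, hmin⟩ := hSc.exists_isLeast ⟨1, hS1⟩
  have hρU' : γ y (ρ₀ • w) ∉ UY f g A := hρU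
  have hne : ρ₀ ≠ 0 := by
    rintro rfl
    rw [zero_smul, hG.zero] at hρU'
    exact hρU' hyU
  have hpos : 0 < ρ₀ := lt_of_le_of_ne h00 (Ne.symm hne)
  have hbefore : ∀ ρ, 0 ≤ ρ → ρ < ρ₀ → γ y (ρ • w) ∈ UY f g A := by
    intro ρ h1 h2
    by_contra h3
    have := hmin ⟨⟨h1, h2.le.trans h01⟩, h3⟩
    linarith
  have hRB : γ y (ρ₀ • w) ∈ RB f A := by
    by_contra hcon
    refine hρU' (hUcl M f g ε C l hP A hA _ ?_ hcon)
    have h1 : ρ₀ ∈ closure (Ico 0 ρ₀) := by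
      rw [closure_Ico hpos.ne]
      exact ⟨h00, le_rfl⟩
    exact map_mem_closure (f := fun ρ : ℝ => γ y (ρ • w)) hcontγ h1
      fun ρ hρ => hbefore ρ hρ.1 hρ.2
  obtain ⟨u₀, τ, hu₀, hu₀ne, hτc, hτi, hτ0, hτ⟩ := hbase ρ₀
  have hτ1 : τ 0 ≠ 0 := by
    intro h
    exact hne (hτi (hτ0.trans h.symm))
  have hfree : FU g s t.swap γ A (γ y (ρ₀ • w)) (τ 0 • u₀) := by
    refine ⟨hRB, by rw [map_smul, hu₀], smul_ne_zero hτ1 hu₀ne, fun σ hσ => ?_⟩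
    rw [smul_smul]
    have h1 : σ * τ 0 ∈ uIcc (τ 0) (τ ρ₀) := by
      rw [hτ0, mem_uIcc]
      rcases lt_or_gt_of_ne hτ1 with h | h
      · left
        constructor
        · nlinarith [hσ.1, hσ.2]
        · nlinarith [hσ.1, hσ.2]
      · right
        constructor
        · nlinarith [hσ.1, hσ.2]
        · nlinarith [hσ.1, hσ.2]
    obtain ⟨ρ, hρ, hρτ⟩ := intermediate_value_uIcc hτc.continuousOn h1
    rw [uIcc_of_le h00] at hρ
    rw [← hρτ, ← hτ]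
    refine hbefore ρ hρ.1 (lt_of_le_of_ne hρ.2 ?_)
    rintro rfl
    rw [hτ0] at hρτ
    exact (mul_ne_zero hσ.1.ne' hτ1) hρτ.symm
  exact fu_unit hk hB.hs hG hA.inv hinv hfree

end Pool.Agent.Lib.MP610fe3.HR
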