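import Pool.Agent.Lib.MP_610fe3_an.HR.F2Spec

/-!
# Module UC (hive F2): points of `UY` close to a point of the basin of `A` in the past
-/

set_option autoImplicit false

open Set Filter Function
open scoped Topology

namespace Pool.Agent.Lib.MP610fe3.HR

open Cf CH

universe u

namespace F2UCAux

theorem fa_of_wl {M : Type*} [MetricSpace M] {f : M ≃ₜ M} {ε C l : ℝ} (h : Dec f ε C l) {x z : M}
    (hz : z ∈ Wl f ε x) : FwdAsymp f z x := by
  have h1 : Tendsto (fun n : ℕ => C * l ^ n * dist z x) atTop (𝓝 (C * 0 * dist z x)) :=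
    ((tendsto_pow_atTop_nhds_zero_of_lt_one h.l_pos.le h.l_lt).const_mul C).mul_const _
  rw [mul_zero, zero_mul] at h1
  exact squeeze_zero (fun _ => dist_nonneg) (fun n => h.dec x z hz n) h1

theorem wl_mono {M : Type*} [MetricSpace M] {f : M ≃ₜ M} {ε ε' : ℝ} (h : ε ≤ ε') {x z : M}
    (hz : z ∈ Wl f ε x) : z ∈ Wl f ε' x := fun k => (hz k).trans h

theorem wl_symm {M : Type*} [MetricSpace M] {f : M ≃ₜ M} {ε : ℝ} {x z : M}
    (hz : z ∈ Wl f ε x) : x ∈ Wl f ε z := fun k => by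
  rw [dist_comm]
  exact hz k

theorem dbl_iter (hD : SpecDbl.{u}) {M : Type u} [MetricSpace M] [CompactSpace M] {f g : M ≃ₜ M}
    (h : ∀ x, f (g x) = g (f x)) (N : ℕ) {m a : M} (hm : Dbl f.symm g m a) :
    Dbl f.symm g (f.symm^[N] m) (f.symm^[N] a) := by
  have hc : ∀ x, f.symm (g x) = g (f.symm x) := fun x => comm_symm h x
  obtain ⟨-, -, -, -, -, -, hi, -⟩ := hD M f.symm g hc
  induction N with
  | zero => exact hm
  | succ N ih =>
    rw [iterate_succ_apply', iterate_succ_apply']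
    exact (hi f.symm (fun _ => rfl) hc _ _).2 ih

theorem mem_iter {M : Type*} [MetricSpace M] {f : M ≃ₜ M} {A : Set M} (h : f '' A = A) (N : ℕ)
    {a : M} (ha : a ∈ A) : f.symm^[N] a ∈ A := by
  induction N with
  | zero => exact ha
  | succ N ih =>
    rw [iterate_succ_apply']
    rw [← h] at ih
    obtain ⟨b, hb, hb'⟩ := ih
    rw [← hb', f.symm_apply_apply]
    exact hb

end F2UCAux

open F2UCAux

theorem specUc (hL31 : SpecL31.{u}) (hD : SpecDbl.{u}) : SpecUc.{u} := by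
  intro M _ _ f g ε C l h A hA e he x hx
  simp only [RB, mem_setOf_eq] at hx
  push Not at hx
  obtain ⟨a', ha', hxa⟩ := hx
  obtain ⟨δ, hδ, hL⟩ := hL31 M f.symm g.symm ε C l h.symm_both e he
  obtain ⟨δ₂, hδ₂, hB⟩ := h.one.br.exist (min δ ε) (lt_min hδ h.one.br.ε_pos)
  have hev : ∀ᶠ n in atTop, dist (f.symm^[n] x) (f.symm^[n] a') < δ₂ / 2 :=
    hxa.eventually (gt_mem_nhds (half_pos hδ₂))
  obtain ⟨N, hN⟩ := hev.exists
  have hcont : ContinuousAt (f.symm^[N]) x := (f.symm.continuous.iterate N).continuousAt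
  obtain ⟨r, hr, hrN⟩ := Metric.continuousAt_iff.1 hcont (δ₂ / 2) (half_pos hδ₂)
  refine ⟨N, r, hr, fun m hm hmx => ?_⟩
  obtain ⟨a, ha, hma⟩ := hm
  have hd : dist (f.symm^[N] a') (f.symm^[N] m) < δ₂ := by
    have h1 := dist_triangle_right (f.symm^[N] a') (f.symm^[N] m) (f.symm^[N] x)
    have h2 : dist (f.symm^[N] a') (f.symm^[N] x) < δ₂ / 2 := by rw [dist_comm]; exact hN
    have h3 := hrN hmx
    linarith
  obtain ⟨b, hb1, hb2⟩ := hB _ _ hd
  have hbA : b ∈ A := hA.sat _ (mem_iter hA.inv N ha') b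
    (fa_of_wl h.one.decs (wl_symm (wl_mono (min_le_right _ _) hb1)))
  obtain ⟨z, hz1, hz2, -, hz4, -, -⟩ := hL b (f.symm^[N] m)
    (wl_symm (wl_mono (min_le_left _ _) hb2))
  obtain ⟨-, hs1, ht1, -⟩ := hD M f.symm g (fun x => comm_symm h.comm x)
  obtain ⟨-, hs2, -⟩ := hD M f.symm g.symm h.symm_both.comm
  have h5 : Dbl f.symm g (f.symm^[N] m) z := hs1 _ _ hz2
  refine ⟨z, hA.s2 _ (mem_iter hA.inv N ha) b hbA z ?_ (hs2 _ _ hz1), hz4, h5⟩
  exact ht1 _ _ _ (hs1 _ _ (dbl_iter hD h.comm N hma)) h5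

end Pool.Agent.Lib.MP610fe3.HR
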