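import Pool.Agent.Lib.MP_610fe3_an.HR.F2Spec
import Pool.Agent.Lib.MP_610fe3_an.HR.PROD
import Pool.Agent.Lib.MP_610fe3_an.HR.DBL

/-!
# Module UCS of hive F2: `UY` is saturated by the leaves `C` (helper25)
-/

set_option autoImplicit false

open Set Filter Function
open scoped Topology

namespace Pool.Agent.Lib.MP610fe3.HR

open Cf CH

universe u

namespace F2UCSAux

variable {X : Type*} [MetricSpace X] {h : X → X} {x y z : X}

theorem fw_symm (hxy : FwdAsymp h x y) : FwdAsymp h y x := by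
  unfold FwdAsymp at *
  simpa only [dist_comm] using hxy

theorem fw_trans (hxy : FwdAsymp h x y) (hyz : FwdAsymp h y z) : FwdAsymp h x z := by
  unfold FwdAsymp at *
  have h1 := hxy.add hyz
  rw [add_zero] at h1
  exact squeeze_zero (fun _ => dist_nonneg) (fun k => dist_triangle _ _ _) h1

end F2UCSAux

open F2UCSAux

/-- **UCS**. -/
theorem specUcs (hP : SpecProd.{u}) (hD : SpecDbl.{u}) : SpecUcs.{u} := by
  intro M _ _ f g ε C l hp A hA m w hm hmw
  obtain ⟨a, ha, hma⟩ := hm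
  obtain ⟨-, -, -, -, -, hfg, -⟩ := hD M f g hp.comm
  obtain ⟨-, -, -, -, -, hgf, -⟩ := hD M g f hp.swap.comm
  obtain ⟨-, -, -, -, -, hsg, -⟩ := hD M f.symm g hp.symm_left.comm
  obtain ⟨-, hs, -, hc, -⟩ := hD M g f.symm hp.symm_left.swap.comm
  have h1 : FwdAsymp g a w := fw_trans (fw_symm (hsg _ _ hma)) (hfg _ _ hmw)
  obtain ⟨z, hz1, hz2⟩ := (hP M g f ε C l hp.swap).1 a w h1
  have hz : z ∈ A := hA a ha z (hgf _ _ hz1)
  exact ⟨z, hz, hc _ _ (hs _ _ hz2)⟩

end Pool.Agent.Lib.MP610fe3.HR
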