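import Pool.Agent.Lib.MP_610fe3_an.HR.F2Spec
import Pool.Agent.Lib.MP_610fe3_an.HR.F1UNI

/-!
# Module UNB: the middle of a segment with interior in the leaves `Y` of `A` is uniformly close to `A`
-/

set_option autoImplicit false

open Set Filter Function
open scoped Topology

namespace Pool.Agent.Lib.MP610fe3.HR

open Cf CH

universe u v

namespace F2UNBAux

open F1UNIAux

theorem wl_iter {M : Type*} [MetricSpace M] {f : M ≃ₜ M} {e : ℝ} (k : ℕ) {x z : M}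
    (h : z ∈ Wl f e x) : f^[k] z ∈ Wl f e (f^[k] x) := fun n => by
  rw [← iterate_add_apply, ← iterate_add_apply]
  exact h (n + k)

theorem lf_iter (hD : SpecDbl.{u}) {M : Type u} [MetricSpace M] [CompactSpace M] {f g : M ≃ₜ M}
    (hc : ∀ x, f (g x) = g (f x)) {e : ℝ} (k : ℕ) {x z : M} (h : z ∈ Lf f g e x) :
    f^[k] z ∈ Lf f g e (f^[k] x) := by
  refine ⟨wl_iter k h.1, ?_⟩
  induction k with
  | zero => exact h.2
  | succ k ih =>
    rw [iterate_succ_apply', iterate_succ_apply']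
    exact ((hD M f g hc).2.2.2.2.2.2.1 f (fun _ => rfl) hc _ _).2 ih

theorem mem_symm_iter {M : Type*} [MetricSpace M] {f : M ≃ₜ M} {A : Set M} (h : f '' A = A)
    (n : ℕ) {x : M} (hx : x ∈ A) : f.symm^[n] x ∈ A := by
  induction n with
  | zero => exact hx
  | succ n ih =>
    rw [iterate_succ_apply']
    rw [← h] at ih
    obtain ⟨y, hy, hyx⟩ := ih
    rw [← hyx, f.symm_apply_apply]
    exact hy

variable {M : Type u} {W : Type v} [MetricSpace M] [CompactSpace M] [NormedAddCommGroup W]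
  [InnerProductSpace ℝ W] [FiniteDimensional ℝ W] {E : Emb M W} {f g : M ≃ₜ M}
  {s : Split E f} {t : Split E g} {C₀ : ℝ} {γ : M → W → M}

/-- A point of the leaf of `a` close to the middle of the segment is on the segment. -/
theorem near_half' (hCmp : SpecCmp.{u, v}) (hD : SpecDbl.{u}) (hb : Bun s t.swap C₀)
    (hG : Gam s t.swap γ) {κ : ℝ} (hκ : 0 < κ) : ∃ η : ℝ, 0 < η ∧ ∀ a u y,
      PP s t.swap a u = u → κ ≤ ‖u‖ → ‖u‖ ≤ 1 → Dbl f g.symm a y →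
      y ∈ Wl f η (γ a ((1 / 2 : ℝ) • u)) → ∃ ρ ∈ Ioo (0 : ℝ) 1, γ a (ρ • u) = y := by
  by_contra hcon
  push Not at hcon
  obtain ⟨-, hsym, htr, -⟩ := hD M f g.symm (fun x => (hb.comm x))
  obtain ⟨εp, hεp, hprop⟩ := hG.proper
  obtain ⟨K', hK'⟩ := hCmp M W E f g s t C₀ γ hb hG 1
  have hhalf : ∀ a u, PP s t.swap a u = u →
      PP s t.swap a ((1 / 2 : ℝ) • u) = (1 / 2 : ℝ) • u := fun a u h => by rw [map_smul, h]
  have hseq : ∀ n : ℕ, ∃ q : M × W × W, PP s t.swap q.1 q.2.1 = q.2.1 ∧ κ ≤ ‖q.2.1‖ ∧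
      ‖q.2.1‖ ≤ 1 ∧ PP s t.swap q.1 q.2.2 = q.2.2 ∧ ‖q.2.2‖ ≤ K' ∧
      dist (γ q.1 q.2.2) (γ q.1 ((1 / 2 : ℝ) • q.2.1)) ≤ 1 / ((n : ℝ) + 1) ∧
      ∀ ρ ∈ Ioo (0 : ℝ) 1, γ q.1 (ρ • q.2.1) ≠ γ q.1 q.2.2 := by
    intro n
    have hn : (0 : ℝ) < 1 / ((n : ℝ) + 1) := by positivity
    obtain ⟨a, u, y, h1, h2, h3, h4, h5, h6⟩ := hcon (min εp (1 / ((n : ℝ) + 1)))
      (lt_min hεp hn)
    obtain ⟨w, hw, hwy⟩ := hG.surj a y h4
    have h7 : Dbl f g.symm (γ a ((1 / 2 : ℝ) • u)) y :=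
      htr _ _ _ (hsym _ _ (hG.dbl a _ (hhalf a u h1))) h4
    obtain ⟨v, hv, hvy⟩ := hG.surj _ y h7
    have h8 : ‖v‖ ≤ 1 := hprop _ v hv (by rw [hvy]; exact wl_mono (min_le_left _ _) h5)
    have h9 : ‖w‖ ≤ K' := by
      refine hK' a ((1 / 2 : ℝ) • u) v w (hhalf a u h1) ?_ hv h8 hw (by rw [hwy, hvy])
      rw [norm_smul, Real.norm_eq_abs, abs_of_pos (by norm_num : (0 : ℝ) < 1 / 2)]
      linarith [norm_nonneg u]
    refine ⟨(a, u, w), h1, h2, h3, hw, h9, ?_, ?_⟩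
    · simp only
      rw [hwy]
      exact (h5 0).trans (min_le_right _ _)
    · intro ρ hρ
      simp only
      rw [hwy]
      exact h6 ρ hρ
  choose q hq1 hq2 hq3 hq4 hq5 hq6 hq7 using hseq
  have hcpt : IsCompact ((univ : Set M) ×ˢ (Metric.closedBall (0 : W) 1 ×ˢ
      Metric.closedBall (0 : W) K')) :=
    isCompact_univ.prod ((isCompact_closedBall 0 1).prod (isCompact_closedBall 0 K'))
  obtain ⟨z, -, φ, hφ, hz⟩ := hcpt.tendsto_subseq (x := q) (fun n =>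
    ⟨mem_univ _, by simpa using hq3 n, by simpa using hq5 n⟩)
  have ta : Tendsto (fun n => (q (φ n)).1) atTop (𝓝 z.1) :=
    (continuous_fst.tendsto z).comp hz
  have tu : Tendsto (fun n => (q (φ n)).2.1) atTop (𝓝 z.2.1) :=
    ((continuous_fst.comp continuous_snd).tendsto z).comp hz
  have tw : Tendsto (fun n => (q (φ n)).2.2) atTop (𝓝 z.2.2) :=
    ((continuous_snd.comp continuous_snd).tendsto z).comp hz
  have hPc := PIGAux.contPPa hb
  have zu : PP s t.swap z.1 z.2.1 = z.2.1 := by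
    refine tendsto_nhds_unique (((hPc.tendsto (z.1, z.2.1)).comp (ta.prodMk_nhds tu)).congr ?_) tu
    intro n
    exact hq1 (φ n)
  have zw : PP s t.swap z.1 z.2.2 = z.2.2 := by
    refine tendsto_nhds_unique (((hPc.tendsto (z.1, z.2.2)).comp (ta.prodMk_nhds tw)).congr ?_) tw
    intro n
    exact hq4 (φ n)
  have tγw : Tendsto (fun n => γ (q (φ n)).1 (q (φ n)).2.2) atTop (𝓝 (γ z.1 z.2.2)) := by
    have h := (hG.cont.tendsto (z.1, z.2.2)).comp (ta.prodMk_nhds tw)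
    simp only at h
    rw [zw] at h
    refine h.congr fun n => ?_
    simp only [comp_apply]
    rw [hq4 (φ n)]
  have tγu : Tendsto (fun n => γ (q (φ n)).1 ((1 / 2 : ℝ) • (q (φ n)).2.1)) atTop
      (𝓝 (γ z.1 ((1 / 2 : ℝ) • z.2.1))) := by
    have h := (hG.cont.tendsto (z.1, (1 / 2 : ℝ) • z.2.1)).comp
      (ta.prodMk_nhds (tu.const_smul (1 / 2 : ℝ)))
    simp only at h
    rw [hhalf _ _ zu] at h
    refine h.congr fun n => ?_
    simp only [comp_apply]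
    rw [hhalf _ _ (hq1 (φ n))]
  have tinv : Tendsto (fun n : ℕ => 1 / (((φ n : ℕ) : ℝ) + 1)) atTop (𝓝 0) :=
    tendsto_one_div_add_atTop_nhds_zero_nat.comp hφ.tendsto_atTop
  have td : Tendsto (fun n => dist (γ (q (φ n)).1 (q (φ n)).2.2)
      (γ (q (φ n)).1 ((1 / 2 : ℝ) • (q (φ n)).2.1))) atTop (𝓝 0) :=
    squeeze_zero (fun _ => dist_nonneg) (fun n => hq6 (φ n)) tinv
  have heq : γ z.1 z.2.2 = γ z.1 ((1 / 2 : ℝ) • z.2.1) :=
    dist_eq_zero.1 (tendsto_nhds_unique (tγw.dist tγu) td)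
  have hzz : z.2.2 = (1 / 2 : ℝ) • z.2.1 := hG.inj _ _ _ zw (hhalf _ _ zu) heq
  have tn : Tendsto (fun n => ‖(q (φ n)).2.2 - (1 / 2 : ℝ) • (q (φ n)).2.1‖) atTop (𝓝 0) := by
    have h := (tw.sub (tu.const_smul (1 / 2 : ℝ))).norm
    rwa [hzz, sub_self, norm_zero] at h
  obtain ⟨n, hn⟩ := (tn.eventually (gt_mem_nhds (half_pos hκ))).exists
  have hu0 : (q (φ n)).2.1 ≠ 0 := by
    intro h
    have := hq2 (φ n)
    rw [h, norm_zero] at this
    linarith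
  obtain ⟨ρ, hρ⟩ := REPAux.exists_smul (PP s t.swap (q (φ n)).1) (hb.rank _) (hq1 (φ n)) hu0
    (hq4 (φ n))
  have h1 : |ρ - 1 / 2| * κ < κ / 2 := by
    refine lt_of_le_of_lt ?_ hn
    rw [← hρ, ← sub_smul, norm_smul, Real.norm_eq_abs]
    exact mul_le_mul_of_nonneg_left (hq2 (φ n)) (abs_nonneg _)
  have h2 : |ρ - 1 / 2| < 1 / 2 := by
    by_contra hc
    push Not at hc
    nlinarith
  rw [abs_lt] at h2
  exact hq7 (φ n) ρ ⟨by linarith, by linarith⟩ (by rw [hρ])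

end F2UNBAux

open F1UNIAux F2UNBAux

theorem specUnb (hL31 : SpecL31.{u}) (hCmp : SpecCmp.{u, v}) (hD : SpecDbl.{u})
    (hUc : SpecUc.{u}) (hUcs : SpecUcs.{u}) : SpecUnb.{u, v} := by
  intro M W _ _ _ _ _ E f g s t C₀ ε C l γ A hb P hG hA κ e hκ he
  by_contra hcon
  push Not at hcon
  choose a u hPP hκu hu1 hUY hno using hcon
  have hdb := hD M f g P.comm
  have hdx := hD M f g.symm (fun x => P.symm_right.comm x)
  have hdy := hD M f.symm g (fun x => P.symm_left.comm x)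
  have hhalf : ∀ x w, PP s t.swap x w = w →
      PP s t.swap x ((1 / 2 : ℝ) • w) = (1 / 2 : ℝ) • w := fun x w h => by rw [map_smul, h]
  have hcpt : IsCompact ((univ : Set M) ×ˢ Metric.closedBall (0 : W) 1) :=
    isCompact_univ.prod (isCompact_closedBall 0 1)
  obtain ⟨z, -, φ, hφ, hz⟩ := hcpt.tendsto_subseq (x := fun n => (a n, u n)) (fun n =>
    ⟨mem_univ _, by simpa using hu1 n⟩)
  have ta : Tendsto (fun n => a (φ n)) atTop (𝓝 z.1) := (continuous_fst.tendsto z).comp hz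
  have tu : Tendsto (fun n => u (φ n)) atTop (𝓝 z.2) := (continuous_snd.tendsto z).comp hz
  have hPc := PIGAux.contPPa hb
  have zu : PP s t.swap z.1 z.2 = z.2 := by
    refine tendsto_nhds_unique (((hPc.tendsto (z.1, z.2)).comp (ta.prodMk_nhds tu)).congr ?_) tu
    intro n
    exact hPP (φ n)
  have tm : Tendsto (fun n => γ (a (φ n)) ((1 / 2 : ℝ) • u (φ n))) atTop
      (𝓝 (γ z.1 ((1 / 2 : ℝ) • z.2))) := by
    have h := (hG.cont.tendsto (z.1, (1 / 2 : ℝ) • z.2)).comp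
      (ta.prodMk_nhds (tu.const_smul (1 / 2 : ℝ)))
    simp only at h
    rw [hhalf _ _ zu] at h
    refine h.congr fun n => ?_
    simp only [comp_apply]
    rw [hhalf _ _ (hPP (φ n))]
  by_cases hm : γ z.1 ((1 / 2 : ℝ) • z.2) ∈ RB f A
  · -- the limit point is outside the basin
    obtain ⟨η, hη, hnear⟩ := near_half' hCmp hD hb hG hκ
    obtain ⟨δ₁, hδ₁, hloc⟩ := hL31 M f g ε C l P η hη
    obtain ⟨δ₂, hδ₂, hbr⟩ := P.one.br.exist (min δ₁ ε) (lt_min hδ₁ P.one.br.ε_pos)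
    obtain ⟨n, hn⟩ := (Metric.tendsto_nhds.1 tm δ₂ hδ₂).exists
    obtain ⟨w, hw1, hw2⟩ := hbr _ _ hn
    have hwR : w ∈ RB f A := fun b hbA hbf => hm b hbA
      (fa_trans (fa_symm (fa_of_wl P.one.decu (wl_mono (min_le_right _ _) hw2))) hbf)
    obtain ⟨y, hy1, hy2, -, hy4, -⟩ := hloc w _ (wl_symm (wl_mono (min_le_left _ _) hw1))
    have hay : Dbl f g.symm (a (φ n)) y :=
      hdx.2.2.1 _ _ _ (hG.dbl _ _ (hhalf _ _ (hPP (φ n)))) (hdx.2.1 _ _ hy2)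
    obtain ⟨ρ, hρ, hρy⟩ := hnear _ _ y (hPP (φ n)) (hκu (φ n)) (hu1 (φ n)) hay hy4
    have hyU : y ∈ UY f g A := by
      rw [← hρy]
      exact hUY (φ n) ρ hρ
    obtain ⟨b, hbA, hbw⟩ := hUcs M f g ε C l P A hA.sat y w hyU (hdb.2.1 _ _ hy1)
    exact hwR b hbA (hdy.2.2.2.2.1 _ _ hbw)
  · -- the limit point is in the basin
    obtain ⟨N, r, hr, hN⟩ := hUc M f g ε C l P A hA e he _ hm
    obtain ⟨j, hj1, hj2⟩ := ((Metric.tendsto_nhds.1 tm r hr).and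
      (hφ.tendsto_atTop.eventually_ge_atTop N)).exists
    obtain ⟨b, hbA, hb'⟩ := hN _ (hUY (φ j) (1 / 2) ⟨by norm_num, by norm_num⟩) hj1
    obtain ⟨k, hk⟩ := Nat.exists_eq_add_of_le' hj2
    refine hno (φ j) (f.symm^[k] b) (mem_symm_iter hA.inv k hbA) ?_
    have h3 := lf_iter hD (fun x => P.symm_left.comm x) k hb'
    rw [← iterate_add_apply, ← hk] at h3
    exact h3

end Pool.Agent.Lib.MP610fe3.HR
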