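import Pool.Agent.Lib.MP_610fe3_an.HR.F2Spec

/-!
# UOP: the union of the leaves `Y` of the points of `A` is open along the leaves `X`
-/

set_option autoImplicit false

open Set Filter Function
open scoped Topology

namespace Pool.Agent.Lib.MP610fe3.HR

open Cf CH

universe u

namespace F2UOPAux

variable {M : Type*} [MetricSpace M]

theorem dbl_iter {F G c : M ≃ₜ M} (h : ∀ x y, Dbl F G (c x) (c y) ↔ Dbl F G x y) (n : ℕ) :
    ∀ x y, Dbl F G (c^[n] x) (c^[n] y) ↔ Dbl F G x y := by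
  induction n with
  | zero => exact fun x y => Iff.rfl
  | succ n ih =>
    intro x y
    rw [iterate_succ_apply, iterate_succ_apply, ih, h]

theorem mem_iter {F : M → M} {A : Set M} (h : ∀ x ∈ A, F x ∈ A) (n : ℕ) :
    ∀ x ∈ A, F^[n] x ∈ A := by
  induction n with
  | zero => exact fun x hx => hx
  | succ n ih =>
    intro x hx
    rw [iterate_succ_apply]
    exact ih _ (h x hx)

theorem back {f : M ≃ₜ M} (n : ℕ) (x : M) : f.symm^[n] (f^[n] x) = x :=
  (show LeftInverse f.symm f from f.symm_apply_apply).iterate n x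

theorem forth {f : M ≃ₜ M} (n : ℕ) (x : M) : f^[n] (f.symm^[n] x) = x :=
  (show LeftInverse f f.symm from f.apply_symm_apply).iterate n x

end F2UOPAux

open F2UOPAux in
theorem specUop (hD : SpecDbl.{u}) : SpecUop.{u} := by
  intro M _ _ f g ε C l hP hXY A hA m hm
  obtain ⟨ε₀, hε₀, HX⟩ := hXY
  obtain ⟨a, haA, hma⟩ := hm
  obtain ⟨-, -, -, -, hfwY, -, hinvY, -⟩ := hD M f.symm g hP.symm_left.comm
  obtain ⟨-, hsymX, -, -, hfwX, -, hinvX, -⟩ := hD M f g.symm hP.symm_right.comm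
  have hiY := dbl_iter (hinvY f.symm (fun _ => rfl) hP.symm_left.comm)
  have hiX := dbl_iter (hinvX f.symm (fun x => by rw [f.symm_apply_apply, f.apply_symm_apply])
    hP.symm_both.comm)
  obtain ⟨δB, hδB, HB⟩ := hP.one.br.exist ε₀ hε₀
  set η : ℝ := min ε₀ (δB / 2) with hη
  have hη0 : 0 < η := lt_min hε₀ (by linarith)
  have hη1 : η ≤ ε₀ := min_le_left _ _
  have hη2 : η ≤ δB / 2 := min_le_right _ _
  -- the time
  obtain ⟨n, hn⟩ := Filter.eventually_atTop.mp
    ((hfwY m a hma).eventually (gt_mem_nhds hη0))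
  -- the neighbourhood
  have hev : ∀ᶠ m' in 𝓝 m, ∀ j ∈ Finset.range (n + 1),
      dist (f.symm^[j] m') (f.symm^[j] m) < η := by
    rw [Filter.eventually_all_finset]
    intro j _
    exact (Metric.tendsto_nhds.mp (f.symm.continuous.iterate j).continuousAt.tendsto) η hη0
  obtain ⟨δ', hδ', Hδ⟩ := Metric.eventually_nhds_iff.mp hev
  refine ⟨min (δ' / 2) ε₀, lt_min (by linarith) hε₀, ?_⟩
  rintro m' ⟨hW, hDX⟩
  have hd : dist m' m < δ' := by
    have h0 := hW 0
    have h1 : dist m' m ≤ min (δ' / 2) ε₀ := h0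
    exact lt_of_le_of_lt (h1.trans (min_le_left _ _)) (by linarith)
  have hj : ∀ j, j ≤ n → dist (f.symm^[j] m') (f.symm^[j] m) < η := fun j hj =>
    Hδ hd j (Finset.mem_range.mpr (Nat.lt_succ_of_le hj))
  -- the points at time `-n`
  have hz : f.symm^[n] m ∈ Lf f g.symm ε₀ (f.symm^[n] m') := by
    refine ⟨fun k => ?_, (hiX n m' m).mpr (hsymX m m' hDX)⟩
    rcases le_total k n with hk | hk
    · obtain ⟨j, rfl⟩ := Nat.exists_eq_add_of_le hk
      have e : ∀ x, f^[k] (f.symm^[k + j] x) = f.symm^[j] x := fun x => by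
        rw [iterate_add_apply, forth]
      rw [e, e, dist_comm]
      exact ((hj j (by omega)).le).trans hη1
    · obtain ⟨j, rfl⟩ := Nat.exists_eq_add_of_le hk
      have e : ∀ x, f^[n + j] (f.symm^[n] x) = f^[j] x := fun x => by
        rw [add_comm n j, iterate_add_apply, forth]
      rw [e, e, dist_comm]
      exact (hW j).trans (min_le_right _ _)
  have hz' : f.symm^[n] a ∈ Lf f.symm g ε₀ (f.symm^[n] m) := by
    refine ⟨fun k => ?_, (hiY n m a).mpr hma⟩
    rw [← iterate_add_apply, ← iterate_add_apply, dist_comm]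
    exact (hn (k + n) (by omega)).le.trans hη1
  obtain ⟨q, hq1, hq2⟩ := HB (f.symm^[n] a) (f.symm^[n] m') (by
    have h1 := hn n le_rfl
    have h2 := hj n le_rfl
    calc dist (f.symm^[n] a) (f.symm^[n] m') ≤ dist (f.symm^[n] a) (f.symm^[n] m) +
          dist (f.symm^[n] m) (f.symm^[n] m') := dist_triangle _ _ _
      _ < δB / 2 + δB / 2 := by
          rw [dist_comm (f.symm^[n] a), dist_comm (f.symm^[n] m) (f.symm^[n] m')]
          exact add_lt_add (lt_of_lt_of_le h1 hη2) (lt_of_lt_of_le h2 hη2)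
      _ = δB := by ring)
  obtain ⟨d1, d2⟩ := HX _ _ _ q hz hz' hq2 hq1
  have hfA : ∀ x ∈ A, f x ∈ A := fun x hx => by
    rw [← hA.inv]
    exact mem_image_of_mem _ hx
  have hbA : ∀ x ∈ A, f.symm x ∈ A := fun x hx => by
    rw [← hA.inv] at hx
    obtain ⟨b, hb, rfl⟩ := hx
    rwa [f.symm_apply_apply]
  have hqA : q ∈ A := hA.sat _ (mem_iter hbA n a haA) q (hfwX _ _ (hsymX _ _ d1))
  refine ⟨f^[n] q, mem_iter hfA n q hqA, (hiY n m' (f^[n] q)).mp ?_⟩
  rw [back]
  exact d2

end Pool.Agent.Lib.MP610fe3.HR
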