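import Pool.Agent.Lib.MP_610fe3_an.HR.F2Spec

/-!
# Module WALLT: the wall lemma for the other direction
-/

set_option autoImplicit false

open Set Filter Function
open scoped Topology

namespace Pool.Agent.Lib.MP610fe3.HR

open Cf CH

universe u v

/-- **The wall lemma, other direction.** -/
theorem specWallt (hXyc : SpecXyc.{u}) (hGbex : SpecGbex.{u}) (hStgb : SpecStgb.{u, v})
    (hNoi : SpecNoi.{u, v}) (hStrb : SpecStrb.{u, v}) (hGam : SpecGam.{u, v})
    (hPair : SpecPair.{u, v}) (hPerx : SpecPerx.{u}) : SpecWallt.{u, v} := by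
  intro M W _ _ _ _ _ _ E f g s t C₀ hB hU hU' A hA
  have hfg : ∀ x, f (g x) = g (f x) := by
    intro x
    apply g.symm.injective
    rw [g.symm_apply_apply, ← hB.comm (g x), g.symm_apply_apply]
  obtain ⟨ε, C, l, P⟩ := hPair M W E f g s t hB.hs hB.ht.swap hfg
  obtain ⟨γ, hγ⟩ := hGam M W E f g.symm s t.swap C₀ hB
  have hX : XYc f g := hXyc M f g ε C l P hU hU'
  obtain ⟨A', hGB, hsub, hper⟩ := hGbex M f g ε C l P A hA
  obtain ⟨κ, C₂, hκ, hκ1, hst⟩ := hStgb M W E f g s t C₀ ε C l γ A' hB P hγ hU hX hGB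
  have hno : ∀ a u, FU g s t.swap γ A' a u → κ ≤ ‖u‖ → ‖u‖ ≤ 1 → False :=
    hNoi M W E f g s t C₀ ε C l κ C₂ γ (fun a u => FU g s t.swap γ A' a u) hB P hγ hκ
      (fun a u h => h.2.1) hst
  have hmain : ∀ p ∈ A, p ∈ periodicPts f → ∀ y, Dbl f.symm g p y → y ∈ A := by
    intro p hp hpp y hy
    refine hper p hp hpp y hy ?_
    by_contra hyA
    obtain ⟨a, u, hu, hF⟩ := hStrb M W E f g s t C₀ ε C l γ A' hB P hγ hX hGB p (hsub hp) y hy hyA
    exact hno a u hF (by rw [hu]; exact hκ1) hu.le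
  refine hPerx M f.symm g.symm ε C l P.symm_both A hA fun p hp hpp y hy => hmain p hp ?_ y hy
  obtain ⟨n, hn, hp'⟩ := hpp
  refine ⟨n, hn, ?_⟩
  have h1 : f^[n] (f.symm^[n] p) = p := iter_symm f n p
  have h2 : f.symm^[n] p = p := hp'
  rw [h2] at h1
  exact h1

end Pool.Agent.Lib.MP610fe3.HR
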