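import Pool.Agent.Lib.MP_610fe3_an.HR.F2Spec
import Pool.Agent.Lib.MP_610fe3_an.HR.F1L31
import Pool.Agent.Lib.MP_610fe3_an.HR.DBL

/-!
# Module XYC (hive F2): small rectangles with sides in the leaves `X` and `Y` close up
-/

set_option autoImplicit false

open Set Filter Function
open scoped Topology

namespace Pool.Agent.Lib.MP610fe3.HR

open Cf CH

universe u

theorem specXyc : SpecXyc.{u} := by
  intro M _ _ f g ε C l h hfg hgf
  have hε := h.one.br.ε_pos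
  obtain ⟨ε₁, hε₁, Q1⟩ := hfg
  obtain ⟨ε₂, hε₂, Q2⟩ := hgf
  -- scales
  obtain ⟨η₀, hη₀e⟩ : ∃ η, η = min ε₂ (ε / 2) := ⟨_, rfl⟩
  have hη₀ : 0 < η₀ := by rw [hη₀e]; exact lt_min hε₂ (by linarith)
  have hη₀2 : η₀ ≤ ε₂ := by rw [hη₀e]; exact min_le_left _ _
  have hη₀3 : η₀ ≤ ε / 2 := by rw [hη₀e]; exact min_le_right _ _
  -- third part of PROD
  obtain ⟨δ₁, hδ₁, P1⟩ := (specProd M f g.symm ε C l h.symm_right).2.2.1 η₀ hη₀
  obtain ⟨δ₂, hδ₂, P2⟩ := (specProd M f.symm g ε C l h.symm_left).2.2.1 η₀ hη₀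
  obtain ⟨δ₃, hδ₃, P3⟩ := (specProd M g.symm f ε C l h.swap.symm_left).2.2.1 η₀ hη₀
  obtain ⟨δ₄, hδ₄, P4⟩ := specL31 M g f ε C l h.swap η₀ hη₀
  obtain ⟨η, hηe⟩ : ∃ η, η = min (min η₀ δ₃) δ₄ := ⟨_, rfl⟩
  have hη : 0 < η := by rw [hηe]; exact lt_min (lt_min hη₀ hδ₃) hδ₄
  have hη1 : η ≤ η₀ := by rw [hηe]; exact (min_le_left _ _).trans (min_le_left _ _)
  have hη2 : η ≤ δ₃ := by rw [hηe]; exact (min_le_left _ _).trans (min_le_right _ _)
  have hη3 : η ≤ δ₄ := by rw [hηe]; exact min_le_right _ _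
  obtain ⟨δ₅, hδ₅, P5⟩ := h.two.br.exist η hη
  obtain ⟨e, hee⟩ : ∃ e, e = min (min (min ε₁ δ₁) (min δ₂ (ε / 2))) (δ₅ / 3) := ⟨_, rfl⟩
  have he : 0 < e := by
    rw [hee]
    exact lt_min (lt_min (lt_min hε₁ hδ₁) (lt_min hδ₂ (by linarith))) (by linarith)
  have he1 : e ≤ ε₁ := by
    rw [hee]; exact ((min_le_left _ _).trans (min_le_left _ _)).trans (min_le_left _ _)
  have he2 : e ≤ δ₁ := by
    rw [hee]; exact ((min_le_left _ _).trans (min_le_left _ _)).trans (min_le_right _ _)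
  have he3 : e ≤ δ₂ := by
    rw [hee]; exact ((min_le_left _ _).trans (min_le_right _ _)).trans (min_le_left _ _)
  have he4 : e ≤ ε / 2 := by
    rw [hee]; exact ((min_le_left _ _).trans (min_le_right _ _)).trans (min_le_right _ _)
  have he5 : e ≤ δ₅ / 3 := by rw [hee]; exact min_le_right _ _
  refine ⟨e, he, fun a z z' q hz hz' hqa hqz => ?_⟩
  have hX : Dbl f g.symm q z' :=
    Q1 a z z' q ⟨H1.wl_mono hz.1 he1, hz.2⟩ (H1.wl_mono hz'.1 he1) (H1.wl_mono hqa he1)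
      (H1.wl_mono hqz he1)
  refine ⟨hX, ?_⟩
  have hza : z ∈ Wl g.symm η₀ a := P1 a z hz.2 (H1.wl_mono hz.1 he2)
  have hz'z : z' ∈ Wl g η₀ z := P2 z z' hz'.2 (H1.wl_mono hz'.1 he3)
  have hd : dist a z' < δ₅ := by
    have h1 : dist z a ≤ e := hz.1 0
    have h2 : dist z' z ≤ e := hz'.1 0
    have h3 := dist_triangle a z z'
    rw [dist_comm a z, dist_comm z z'] at h3
    linarith
  obtain ⟨q', hq'1, hq'2⟩ := P5 a z' hd
  have DB1 := specDbl M f g.symm h.symm_right.comm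
  have hgs : Dbl g.symm f a z := DB1.2.2.2.1 _ _ hz.2
  have hq'z : Dbl g.symm f q' z' :=
    Q2 a z z' q' ⟨H1.wl_mono hza hη₀2, hgs⟩ (H1.wl_mono hz'z hη₀2)
      (H1.wl_mono hq'1 (hη1.trans hη₀2)) (H1.wl_mono hq'2 (hη1.trans hη₀2))
  have hz'q' : z' ∈ Wl f η₀ q' :=
    P3 q' z' hq'z (H1.wl_mono (H1.wl_symm hq'2) hη2)
  obtain ⟨d, -, hd2, -, -, hd5, hd6⟩ := P4 q' a (H1.wl_mono (H1.wl_symm hq'1) hη3)
  have hqq' : q ∈ Wl f ε q' := H1.wl_mono (H1.wl_trans hqz hz'q') (by linarith)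
  have hqd : q = d := h.one.br.unique q' a q d hqq' (H1.wl_mono hqa (by linarith))
    (H1.wl_mono hd5 (by linarith)) (H1.wl_mono hd6 (by linarith))
  rw [hqd]
  have DB2 := specDbl M g f.symm h.swap.symm_right.comm
  exact DB2.2.2.2.1 _ _ (DB2.2.1 _ _ hd2)

end Pool.Agent.Lib.MP610fe3.HR
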