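import Pool.Agent.Lib.MP_610fe3_an.HR.F2Spec
import Pool.Agent.Lib.MP_610fe3_an.HR.F1L31
import Pool.Agent.Lib.MP_610fe3_an.HR.DBL
import Pool.Agent.Lib.MP_610fe3_an.H6E.Charts
import Pool.Agent.Lib.MP_610fe3_an.Cf.Main4

/-!
# Module YCH (hive F2): bounded chains of small links in the leaves `Y`
-/

set_option autoImplicit false

open Set Filter Function
open scoped Topology

namespace Pool.Agent.Lib.MP610fe3.HR

open Cf CH

universe u v

namespace F2YCHAux

theorem wl_symm {M : Type*} [MetricSpace M] {f : M ≃ₜ M} {ε : ℝ} {x z : M}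
    (hz : z ∈ Wl f ε x) : x ∈ Wl f ε z := fun k => by
  rw [dist_comm]
  exact hz k

/-- Uniform continuity of the projection to the leaf `Y` along the leaves `D`. -/
theorem proj_unif {M : Type u} [MetricSpace M] [CompactSpace M] {f g : M ≃ₜ M} {ε C l e : ℝ}
    (h : Pair f g ε C l)
    (h1 : IsClosed {p : M × M | p.2 ∈ Lf f g e p.1})
    (h2 : IsClosed {p : M × M | p.2 ∈ Lf f g.symm e p.1}) {d : ℝ} (hd : 0 < d) :
    ∃ η : ℝ, 0 < η ∧ ∀ p z y z' y', y ∈ Lf f g e z → y ∈ Lf f g.symm e p →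
      y' ∈ Lf f g e z' → y' ∈ Lf f g.symm e p → dist z z' < η → dist y y' < d := by
  obtain ⟨-, hu, -⟩ := specProd M f g ε C l h
  obtain ⟨-, s1, t1, -⟩ := specDbl M f g h.comm
  obtain ⟨-, s2, t2, -⟩ := specDbl M f g.symm h.symm_right.comm
  let T : Set (M × M × M × M × M) := {q | q.2.2.1 ∈ Lf f g e q.2.1 ∧
    q.2.2.1 ∈ Lf f g.symm e q.1 ∧ q.2.2.2.2 ∈ Lf f g e q.2.2.2.1 ∧
    q.2.2.2.2 ∈ Lf f g.symm e q.1 ∧ d ≤ dist q.2.2.1 q.2.2.2.2}
  have hT : IsClosed T := by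
    have c1 : IsClosed {q : M × M × M × M × M | q.2.2.1 ∈ Lf f g e q.2.1} :=
      h1.preimage (f := fun q : M × M × M × M × M => (q.2.1, q.2.2.1)) (by fun_prop)
    have c2 : IsClosed {q : M × M × M × M × M | q.2.2.1 ∈ Lf f g.symm e q.1} :=
      h2.preimage (f := fun q : M × M × M × M × M => (q.1, q.2.2.1)) (by fun_prop)
    have c3 : IsClosed {q : M × M × M × M × M | q.2.2.2.2 ∈ Lf f g e q.2.2.2.1} :=
      h1.preimage (f := fun q : M × M × M × M × M => (q.2.2.2.1, q.2.2.2.2)) (by fun_prop)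
    have c4 : IsClosed {q : M × M × M × M × M | q.2.2.2.2 ∈ Lf f g.symm e q.1} :=
      h2.preimage (f := fun q : M × M × M × M × M => (q.1, q.2.2.2.2)) (by fun_prop)
    have c5 : IsClosed {q : M × M × M × M × M | d ≤ dist q.2.2.1 q.2.2.2.2} :=
      isClosed_le continuous_const (by fun_prop)
    exact c1.inter (c2.inter (c3.inter (c4.inter c5)))
  rcases T.eq_empty_or_nonempty with hE | hE
  · refine ⟨1, one_pos, fun p z y z' y' a1 a2 a3 a4 _ => ?_⟩
    by_contra hc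
    have : (p, z, y, z', y') ∈ T := ⟨a1, a2, a3, a4, not_lt.1 hc⟩
    rw [hE] at this
    exact this
  · obtain ⟨q, hq, hmin⟩ := hT.isCompact.exists_isMinOn hE
      (f := fun q : M × M × M × M × M => dist q.2.1 q.2.2.2.1) (by fun_prop)
    refine ⟨dist q.2.1 q.2.2.2.1, ?_, fun p z y z' y' a1 a2 a3 a4 a5 => ?_⟩
    · obtain ⟨b1, b2, b3, b4, b5⟩ := hq
      refine dist_pos.2 fun heq => ?_
      have e1 : Dbl f g q.2.2.1 q.2.2.2.2 := by
        refine t1 _ _ _ (s1 _ _ b1.2) ?_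
        rw [heq]
        exact b3.2
      have e2 : Dbl f g.symm q.2.2.1 q.2.2.2.2 := t2 _ _ _ (s2 _ _ b2.2) b4.2
      have e3 := hu _ _ e1 e2
      rw [e3, dist_self] at b5
      linarith
    · by_contra hc
      have hm : (p, z, y, z', y') ∈ T := ⟨a1, a2, a3, a4, not_lt.1 hc⟩
      have := hmin hm
      simp only at this
      exact absurd a5 (not_lt.2 this)

/-- Close points of the same small leaf stay in small leaves under `f^[N]`. -/
theorem push {M : Type u} [MetricSpace M] [CompactSpace M] {f g : M ≃ₜ M} {ε C l : ℝ}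
    (h : Pair f g ε C l) (N : ℕ) {r : ℝ} (hr : 0 < r) : ∃ d : ℝ, 0 < d ∧ ∀ y y',
      y' ∈ Wl f.symm ε y → Dbl f.symm g y y' → dist y' y < d →
        f^[N] y' ∈ Lf f.symm g r (f^[N] y) := by
  have hC := h.one.br.one_le
  have hC0 : 0 < C := by linarith
  have hcont : ∀ j : ℕ, ∃ d : ℝ, 0 < d ∧ ∀ y y' : M, dist y' y < d →
      dist (f^[j] y') (f^[j] y) < r := by
    intro j
    have hu := CompactSpace.uniformContinuous_of_continuous (f.continuous.iterate j)
    rw [Metric.uniformContinuous_iff] at hu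
    obtain ⟨d, hd, H⟩ := hu r hr
    exact ⟨d, hd, fun y y' hy => H hy⟩
  choose D hD0 hD using hcont
  have hmin : ∃ d : ℝ, 0 < d ∧ ∀ j ≤ N, d ≤ D j := by
    have hne : (Finset.range (N + 1)).Nonempty := ⟨0, by simp⟩
    refine ⟨(Finset.range (N + 1)).inf' hne D, ?_, fun j hj => ?_⟩
    · rw [Finset.lt_inf'_iff]
      exact fun j _ => hD0 j
    · exact Finset.inf'_le _ (Finset.mem_range.2 (by omega))
  obtain ⟨d, hd, hdD⟩ := hmin
  obtain ⟨-, -, -, -, -, -, hinv, -⟩ := specDbl M f.symm g h.symm_left.comm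
  refine ⟨min d (r / C), lt_min hd (by positivity), fun y y' h1 h2 h3 => ⟨fun k => ?_, ?_⟩⟩
  · rcases le_total k N with hk | hk
    · rw [Cf.symm_iterate_iterate_of_le f hk, Cf.symm_iterate_iterate_of_le f hk]
      exact (hD _ _ _ (lt_of_lt_of_le h3 ((min_le_left _ _).trans (hdD _ (Nat.sub_le _ _))))).le
    · obtain ⟨j, rfl⟩ := Nat.exists_eq_add_of_le hk
      rw [add_comm N j, iterate_add_apply, iterate_add_apply, Cf.symm_iterate_iterate,
        Cf.symm_iterate_iterate]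
      refine (h.one.decu.dec _ _ h1 j).trans ?_
      have h4 : l ^ j ≤ 1 := pow_le_one₀ h.one.decs.l_pos.le h.one.decs.l_lt.le
      have h5 : dist y' y ≤ r / C := (h3.trans_le (min_le_right _ _)).le
      have h6 : C * l ^ j ≤ C := by nlinarith
      calc C * l ^ j * dist y' y ≤ C * (r / C) :=
            mul_le_mul h6 h5 dist_nonneg hC0.le
        _ = r := by field_simp
  · have hcf : ∀ x, (f.symm : M → M) (f x) = f (f.symm x) := fun x => by
      rw [f.symm_apply_apply, f.apply_symm_apply]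
    have key : ∀ n : ℕ, Dbl f.symm g (f^[n] y) (f^[n] y') := by
      intro n
      induction n with
      | zero => exact h2
      | succ n ih =>
        rw [iterate_succ_apply', iterate_succ_apply']
        exact (hinv f (fun x => (hcf x).symm) (fun x => h.comm x) _ _).2 ih
    exact key N

end F2YCHAux

open F2YCHAux in
theorem specYch : SpecYch.{u, v} := by
  intro M W _ _ _ _ _ _ E f g s ε C l hs h
  have hε := h.one.br.ε_pos
  obtain ⟨du, hdu⟩ := Cf.exists_rank s.swap hs.swap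
  obtain ⟨ρ, Λ, φ, hφ'⟩ := H6.exists_uplaq s.swap hs.swap (u := du) hdu
  have hφ : H6.UPlaq f du ρ Λ φ := hφ'
  have hΛ := hφ.one_le
  have hρ := hφ.ρ_pos
  have hB := h.symm_both
  have hA := h.symm_left
  obtain ⟨-, -, -, -, d₁, hd₁, hc₁⟩ := specProd M f.symm g.symm ε C l hB
  obtain ⟨-, -, -, -, d₂, hd₂, hc₂⟩ := specProd M f.symm g ε C l hA
  obtain ⟨-, hu, -⟩ := specProd M f.symm g.symm ε C l hB
  obtain ⟨-, s1, t1, -⟩ := specDbl M f.symm g.symm hB.comm
  obtain ⟨-, s2, t2, -⟩ := specDbl M f.symm g hA.comm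
  obtain ⟨e', he'⟩ : ∃ e', e' = min (min d₁ d₂) (ε / 2) := ⟨_, rfl⟩
  have he0 : 0 < e' := by rw [he']; exact lt_min (lt_min hd₁ hd₂) (by positivity)
  have he1 : e' ≤ d₁ := by rw [he']; exact (min_le_left _ _).trans (min_le_left _ _)
  have he2 : e' ≤ d₂ := by rw [he']; exact (min_le_left _ _).trans (min_le_right _ _)
  have he3 : e' ≤ ε / 2 := by rw [he']; exact min_le_right _ _
  obtain ⟨δ, hδ, hL⟩ := specL31 M f.symm g.symm ε C l hB e' he0
  obtain ⟨r₀, hr₀, hr₀ρ, hmem⟩ := hφ.mem δ hδ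
  obtain ⟨e, he, honto⟩ := hφ.onto r₀ hr₀
  refine ⟨e, he, fun N r hr => ?_⟩
  obtain ⟨d, hd, hpush⟩ := push h N hr
  obtain ⟨η, hη, hproj⟩ := proj_unif hB (hc₁ e' he1) (by
    have := hc₂ e' he2
    exact this) hd
  obtain ⟨K, hK⟩ := exists_nat_gt (Λ * r₀ / η)
  have hK0 : 0 < K := by
    have h0 : 0 < Λ * r₀ / η := by positivity
    exact_mod_cast h0.trans hK
  have hKr : (0 : ℝ) < K := by exact_mod_cast hK0
  refine ⟨K, fun p q hq => ⟨K, le_rfl, ?_⟩⟩
  obtain ⟨a, ha, hq'⟩ := honto p q hq.1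
  rw [mem_closedBall_zero_iff] at ha
  have hta : ∀ t ∈ Icc (0 : ℝ) 1, ‖t • a‖ ≤ r₀ := by
    intro t ht
    rw [norm_smul, Real.norm_eq_abs, abs_of_nonneg ht.1]
    have := norm_nonneg a
    nlinarith [ht.2]
  have hy : ∀ t : ℝ, ∃ y : M, t ∈ Icc (0 : ℝ) 1 → y ∈ Lf f.symm g.symm e' (φ p (t • a)) ∧
      y ∈ Lf f.symm g e' p := by
    intro t
    by_cases ht : t ∈ Icc (0 : ℝ) 1
    · have hz := hmem p (t • a) (by rw [mem_closedBall_zero_iff]; exact hta t ht)
      obtain ⟨y, hy1, hy2, hy3, hy4, -⟩ := hL (φ p (t • a)) p (wl_symm hz)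
      exact ⟨y, fun _ => ⟨⟨hy3, hy1⟩, hy4, s2 _ _ hy2⟩⟩
    · exact ⟨p, fun h => absurd h ht⟩
  choose y hy using hy
  have h0 : (0 : ℝ) ∈ Icc (0 : ℝ) 1 := ⟨le_rfl, zero_le_one⟩
  have h1 : (1 : ℝ) ∈ Icc (0 : ℝ) 1 := ⟨zero_le_one, le_rfl⟩
  have hy0 : y 0 = p := by
    have h2 := (hy 0 h0).1.2
    rw [zero_smul, hφ.zero] at h2
    exact (hu p (y 0) h2 (hy 0 h0).2.2).symm
  have hy1 : y 1 = q := by
    have h2 := (hy 1 h1).1.2
    rw [one_smul, hq'] at h2
    exact (hu q (y 1) h2 (t2 _ _ _ (s2 _ _ hq.2) (hy 1 h1).2.2)).symm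
  have hic : ∀ i ≤ K, ((i : ℝ) / K) ∈ Icc (0 : ℝ) 1 := fun i hi =>
    ⟨by positivity, by rw [div_le_one hKr]; exact_mod_cast hi⟩
  refine ⟨fun i => f^[N] (y ((i : ℝ) / K)), ?_, ?_, fun i hi => ?_⟩
  · simp only [Nat.cast_zero, zero_div, hy0]
  · simp only [div_self hKr.ne', hy1]
  · have a1 := hy _ (hic i hi.le)
    have a2 := hy _ (hic (i + 1) hi)
    refine hpush _ _ (fun k => ?_) (t2 _ _ _ (s2 _ _ a1.2.2) a2.2.2) ?_
    · have b1 := a1.2.1 k
      have b2 := a2.2.1 k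
      have b3 := dist_triangle_right (f.symm^[k] (y (((i + 1 : ℕ) : ℝ) / K)))
        (f.symm^[k] (y ((i : ℝ) / K))) (f.symm^[k] p)
      linarith
    · refine hproj p _ _ _ _ a2.1 a2.2 a1.1 a1.2 ?_
      have m1 : (((i + 1 : ℕ) : ℝ) / K) • a ∈ Metric.closedBall
          (0 : EuclideanSpace ℝ (Fin du)) ρ := by
        rw [mem_closedBall_zero_iff]
        exact (hta _ (hic (i + 1) hi)).trans hr₀ρ
      have m2 : ((i : ℝ) / K) • a ∈ Metric.closedBall (0 : EuclideanSpace ℝ (Fin du)) ρ := by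
        rw [mem_closedBall_zero_iff]
        exact (hta _ (hic i hi.le)).trans hr₀ρ
      refine (hφ.upper p _ m1 _ m2).trans_lt ?_
      rw [dist_eq_norm, ← sub_smul, norm_smul]
      have e1 : (((i + 1 : ℕ) : ℝ) / K) - ((i : ℝ) / K) = 1 / K := by
        push_cast
        ring
      rw [e1, Real.norm_eq_abs, abs_of_pos (by positivity)]
      have e2 : Λ * (1 / (K : ℝ) * ‖a‖) ≤ Λ * r₀ / K := by
        rw [div_mul_eq_mul_div, one_mul, mul_div_assoc]
        gcongr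
      refine e2.trans_lt ?_
      rw [div_lt_iff₀ hKr]
      rw [div_lt_iff₀ hη] at hK
      linarith

end Pool.Agent.Lib.MP610fe3.HR
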