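import Pool.Agent.Lib.MP_610fe3_an.HR.F1Main
import Pool.Agent.Lib.MP_610fe3_an.HR.F2CHG
import Pool.Agent.Lib.MP_610fe3_an.HR.F2GBEX
import Pool.Agent.Lib.MP_610fe3_an.HR.F2NOI
import Pool.Agent.Lib.MP_610fe3_an.HR.F2SAMD
import Pool.Agent.Lib.MP_610fe3_an.HR.F2SATG
import Pool.Agent.Lib.MP_610fe3_an.HR.F2STGB
import Pool.Agent.Lib.MP_610fe3_an.HR.F2STPX
import Pool.Agent.Lib.MP_610fe3_an.HR.F2STRB
import Pool.Agent.Lib.MP_610fe3_an.HR.F2UC
import Pool.Agent.Lib.MP_610fe3_an.HR.F2UCL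
import Pool.Agent.Lib.MP_610fe3_an.HR.F2UCS
import Pool.Agent.Lib.MP_610fe3_an.HR.F2UNB
import Pool.Agent.Lib.MP_610fe3_an.HR.F2UOP
import Pool.Agent.Lib.MP_610fe3_an.HR.F2WALLT
import Pool.Agent.Lib.MP_610fe3_an.HR.F2XYC
import Pool.Agent.Lib.MP_610fe3_an.HR.F2YCH

/-!
# Actions of `ℤ^k`, pairs which contain a line bundle: assembly of the modules
-/

set_option autoImplicit false

open Set Filter Function Bundle
open scoped Topology Manifold ContDiff

namespace Pool.Agent.Lib.MP610fe3.HR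

open CH

universe u v w

theorem samd : SpecSamd.{u, v, w} := specSamd specL31 specProd specPair

theorem gbex : SpecGbex.{u} := specGbex (specGaex specDbl specProd specBas specMin')

theorem cuSpec : SpecCu.{u, v} :=
  specCu specL31 specLip (specDefc (specGrx specDbl specCoc specGrw') specL31) specHolc

theorem stpx : SpecStpx.{u, v} := specStpx (specStep specDbl specCoc) specDbl specCoc

theorem lims : SpecLims.{u, v} := specLims (specArc (specRep specDbl specCoc)) specCmp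

theorem uc : SpecUc.{u} := specUc specL31 specDbl

theorem unb : SpecUnb.{u, v} := specUnb specL31 specCmp specDbl uc (specUcs specProd specDbl)

theorem strb : SpecStrb.{u, v} :=
  specStrb (specUop specDbl) (specUcl uc specProd) specCoc (specRep specDbl specCoc) specDbl

/-- The wall lemma with the line bundle on the other side. -/
theorem wallt : SpecWallt.{u, v} :=
  specWallt specXyc gbex (specStgb specCoc specDbl stpx unb specYch) (specNoi lims specCoc) strb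
    specGam' specPair (specPerx specDbl specProd specMin')

theorem satg : SpecSatg.{u, v, w} := specSatg near cuSpec samd wallt specPair

theorem chg : SpecChg.{u, v, w} :=
  specChg near wallf satg specArithm (specChn1 specMin') specPair

variable {V : Type v} [NormedAddCommGroup V] [NormedSpace ℝ V] [FiniteDimensional ℝ V]
  {M : Type u} [TopologicalSpace M] [CompactSpace M] [T2Space M] [ConnectedSpace M]
  [ChartedSpace V M] [IsManifold 𝓘(ℝ, V) ∞ M]
  [RiemannianBundle (fun x : M => TangentSpace 𝓘(ℝ, V) x)]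
  [IsContinuousRiemannianBundle V (fun x : M => TangentSpace 𝓘(ℝ, V) x)]

/-- **Theorem F2.** -/
theorem maing {k : ℕ} (A : (Fin k → ℤ) → M ≃ₘ^1⟮𝓘(ℝ, V), 𝓘(ℝ, V)⟯ M)
    (hadd : ∀ n n' x, A (n + n') x = A n (A n' x)) {J : Type w} [Finite J] (χ : J → Fin k → ℝ)
    (F : J → ∀ x : M, Submodule ℝ (TangentSpace 𝓘(ℝ, V) x))
    (hA : ∀ n : Fin k → ℤ, (∀ j, ∑ i, χ j i * (n i : ℝ) ≠ 0) → Gen.IsAnosovSplitting (A n)
      (fun x => ⨆ (j) (_ : ∑ i, χ j i * (n i : ℝ) < 0), F j x)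
      (fun x => ⨆ (j) (_ : 0 < ∑ i, χ j i * (n i : ℝ)), F j x))
    (hpair : ∀ i j, ∀ t : ℝ, 0 < t → χ i = -(t • χ j) →
      (∀ n, ContMDiff 𝓘(ℝ, V) 𝓘(ℝ, V) 2 (A n)) ∧
      ((∀ x, Module.finrank ℝ (⨆ (l) (_ : ∃ c : ℝ, 0 < c ∧ χ l = c • χ i), F l x :
        Submodule ℝ (TangentSpace 𝓘(ℝ, V) x)) = 1) ∨
      ∀ x, Module.finrank ℝ (⨆ (l) (_ : ∃ c : ℝ, 0 < c ∧ χ l = c • χ j), F l x :
        Submodule ℝ (TangentSpace 𝓘(ℝ, V) x)) = 1))
    (n : Fin k → ℤ) (hn : ∀ j, ∑ i, χ j i * (n i : ℝ) ≠ 0) : TopTransitive (A n) :=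
  main_f2 chg specAct A hadd χ F hA hpair n hn

end Pool.Agent.Lib.MP610fe3.HR
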