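import Pool.Agent.Lib.MP_610fe3_an.HR.F1Spec

/-!
# Pairs with one line bundle, the other direction: statements of the modules (hive F2)

Paper proof: `/team-store/MP_610fe3_an_F2_h76.md`. A module `XXX` proves
`theorem specXxx (h : SpecYyy) .. : SpecXxx` in its own file `HR/F2XXX.lean` (namespace
`Pool.Agent.Lib.MP610fe3.HR`, auxiliary lemmas in the sub-namespace `F2XXXAux`).

Conventions (those of `F1Spec`; the `f`, `g` of the paper are `f.symm`, `g.symm` here): `X` = leaves of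
`Dbl f g.symm` (LINES, parametrized by `γ`), `Y` = leaves of `Dbl f.symm g` (ANY dimension), `C` = leaves
of `Dbl f g`, `D` = leaves of `Dbl f.symm g.symm`; `W^s(f) = C × X`, `W^u(f) = D × Y`,
`W^s(g) = C × Y`, `W^u(g) = D × X`. The set `A` is saturated by the STABLE sets of `f`, and we want that it
is saturated by `Y`. Segments of leaves `X` are carried along small links of leaves `Y`.
-/

set_option autoImplicit false

open Set Filter Function Bundle
open scoped Topology Manifold ContDiff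

namespace Pool.Agent.Lib.MP610fe3.HR

open Cf CH

universe u v w

section Defs

variable {M : Type*} [MetricSpace M]

/-- The closed invariant set `A`, saturated by the stable sets of `f`. -/
structure GB (f g : M ≃ₜ M) (A : Set M) : Prop where
  closed : IsClosed A
  sat : Sat f A
  inv : f '' A = A
  s2 : ∀ a ∈ A, ∀ a' ∈ A, ∀ y, Dbl f.symm g a y → Dbl f.symm g.symm y a' → y ∈ A
  s3 : ∀ m, (∀ a ∈ A, ¬ Dbl f.symm g.symm m a) → ∃ r, Dbl f g.symm m r ∧
    ∀ a ∈ A, ¬ FwdAsymp f.symm r a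

/-- The union of the leaves `Y` of the points of `A`. -/
def UY (f g : M ≃ₜ M) (A : Set M) : Set M := {m | ∃ a ∈ A, Dbl f.symm g m a}

/-- The points which are not asymptotic to `A` in the past: a closed set saturated by the unstable
sets of `f`, disjoint from `UY f g A`. -/
def RB (f : M ≃ₜ M) (A : Set M) : Set M := {x | ∀ a ∈ A, ¬ FwdAsymp f.symm x a}

/-- Small rectangles with sides in leaves `X` and `Y` close up. -/
def XYc (f g : M ≃ₜ M) : Prop :=
  ∃ ε : ℝ, 0 < ε ∧ ∀ a z z' q, z ∈ Lf f g.symm ε a → z' ∈ Lf f.symm g ε z →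
    q ∈ Wl f.symm ε a → q ∈ Wl f ε z' → Dbl f g.symm q z' ∧ Dbl f.symm g a q

variable {W : Type*} [NormedAddCommGroup W] [NormedSpace ℝ W] {E : Emb M W} {f : M ≃ₜ M}

/-- The segment `γ a ([0, 1] u)` starts outside the basin, its interior is in `UY f g A`. -/
def FU (g : M ≃ₜ M) (s : Split E f) (t : Split E g.symm) (γ : M → W → M) (A : Set M) (a : M)
    (u : W) : Prop :=
  a ∈ RB f A ∧ PP s t a u = u ∧ u ≠ 0 ∧ ∀ ρ ∈ Ioo (0 : ℝ) 1, γ a (ρ • u) ∈ UY f g A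

end Defs

/-! ### Topological modules -/

/-- XYC. Paper (0). `Dbl f g.symm q z'` is `CUp f g`. Let `q'` be the bracket for `g` of `a`, `z'`
(`q' ∈ Wl g η a`, `q' ∈ Wl g.symm η z'`); `z ∈ Wl g.symm η a`, `z' ∈ Wl g η z` by PROD, third part
(for `(f, g.symm)`, `(f.symm, g)`), so `CUp g.symm f.symm` gives `Dbl g.symm f q' z'`. L31 for the pair
`(g, f)`, at `q'`, `a`: `d` with `Dbl g f q' d`, `Dbl g f.symm d a`, `d ∈ Wl f η q'`,
`d ∈ Wl f.symm η a`. Now `q`, `d` are both in small `Wl f` of `q'` (`q`, `q'` are in the leaf `X` of `z'`)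
and in small `Wl f.symm` of `a`: `q = d` (`Br.unique`). -/
def SpecXyc : Prop :=
  ∀ (M : Type u) [MetricSpace M] [CompactSpace M] (f g : M ≃ₜ M) (ε C l : ℝ), Pair f g ε C l →
    CUp f g → CUp g.symm f.symm → XYc f g

/-- UCS. Paper (1): `UY` is saturated by `C`. PROD, first part, for `(g, f)`: `FwdAsymp g a w` gives `z`
with `Dbl g f a z`, `Dbl g f.symm z w`; `z ∈ A`. -/
def SpecUcs : Prop :=
  ∀ (M : Type u) [MetricSpace M] [CompactSpace M] (f g : M ≃ₜ M) (ε C l : ℝ), Pair f g ε C l →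
    ∀ A : Set M, Sat f A → ∀ m w, m ∈ UY f g A → Dbl f g m w → w ∈ UY f g A

/-- UC. Paper (2). `x ∉ RB f A`: `FwdAsymp f.symm x a'`, `a' ∈ A`. Choose `N` such that `f^-N a'` is
close to `f^-N x`; for `m` close to `x` the bracket `b` of `f^-N a'` (`b ∈ Wl f η`, so `b ∈ A`) and
`f^-N m` (`b ∈ Wl f.symm η`). L31 for `(f.symm, g.symm)` at `b`, `f^-N m`: `z` with
`Dbl f.symm g.symm b z`, `Dbl f.symm g z (f^-N m)`, `z ∈ Wl f.symm ε' (f^-N m)`; `s2` with the point of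
`A` in the leaf `Y` of `f^-N m` and with `b`: `z ∈ A`. -/
def SpecUc : Prop :=
  ∀ (M : Type u) [MetricSpace M] [CompactSpace M] (f g : M ≃ₜ M) (ε C l : ℝ), Pair f g ε C l →
    ∀ A : Set M, GB f g A → ∀ e : ℝ, 0 < e → ∀ x, x ∉ RB f A → ∃ (N : ℕ) (r : ℝ), 0 < r ∧
      ∀ m ∈ UY f g A, dist m x < r → ∃ a ∈ A, a ∈ Lf f.symm g e (f.symm^[N] m)

/-- UCL. Paper (3), from UC and PROD, fifth part (for `(f.symm, g)`). -/
def SpecUcl : Prop :=
  ∀ (M : Type u) [MetricSpace M] [CompactSpace M] (f g : M ≃ₜ M) (ε C l : ℝ), Pair f g ε C l →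
    ∀ A : Set M, GB f g A → ∀ x, x ∈ closure (UY f g A) → x ∉ RB f A → x ∈ UY f g A

/-- UOP. Paper (4). `m ∈ UY`: `a ∈ A`, `Dbl f.symm g m a`. Choose `n` with
`f^-n a ∈ Lf f.symm g ε' (f^-n m)`; for `m'` in a small `Lf f g.symm` of `m` the bracket `q` of
`f^-n m'` (`q ∈ Wl f.symm ε`) and `f^-n a` (`q ∈ Wl f ε`). `XYc` (for the points `f^-n m'`, `f^-n m`,
`f^-n a`, `q`): `q` is in the leaf `X` of `f^-n a`, so `q ∈ A`, and in the leaf `Y` of `f^-n m'`. -/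
def SpecUop : Prop :=
  ∀ (M : Type u) [MetricSpace M] [CompactSpace M] (f g : M ≃ₜ M) (ε C l : ℝ), Pair f g ε C l →
    XYc f g → ∀ A : Set M, GB f g A → ∀ m ∈ UY f g A, ∃ δ : ℝ, 0 < δ ∧
      ∀ m' ∈ Lf f g.symm δ m, m' ∈ UY f g A

/-- GBEX. From GAEX for the pair `(f.symm, g.symm)`. -/
def SpecGbex : Prop :=
  ∀ (M : Type u) [MetricSpace M] [CompactSpace M] (f g : M ≃ₜ M) (ε C l : ℝ), Pair f g ε C l →
    ∀ A : Set M, Minimal (· ∈ Sset f) A → ∃ A' : Set M, GB f g A' ∧ A ⊆ A' ∧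
      ∀ p ∈ A, p ∈ periodicPts f → ∀ y, Dbl f.symm g p y → y ∈ A' → y ∈ A

/-- YCH. Paper (6). Chains of small links in the leaves `Y`. Let `φ` be the parametrization
`UPlaq` of the plaques of `f.symm` (`H6.exists_uplaq s.swap`, `exists_rank`, see `H6N/Side.lean`):
`q = φ p a`, the points `z_i = φ p ((i / n) • a)` are in a small plaque of `p`, consecutive ones are
close. L31 for `(f.symm, g.symm)` at `z_i`, `p`: `y_i` with `Dbl f.symm g.symm z_i y_i`,
`Dbl f.symm g y_i p` (unique by PROD, second part, so `y_0 = p`, `y_n = q`); consecutive `y_i` are close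
(uniform continuity of the projection: compactness, PROD fifth part, uniqueness), hence joined by small
links. Then apply `f^[N]`. -/
def SpecYch : Prop :=
  ∀ (M : Type u) (W : Type v) [MetricSpace M] [CompactSpace M] [ConnectedSpace M]
    [NormedAddCommGroup W] [InnerProductSpace ℝ W] [FiniteDimensional ℝ W] (E : Emb M W)
    (f g : M ≃ₜ M) (s : Split E f) (ε C l : ℝ), s.Hyperbolic → Pair f g ε C l →
    ∃ e : ℝ, 0 < e ∧ ∀ (N : ℕ) (r : ℝ), 0 < r → ∃ K : ℕ, ∀ p q, q ∈ Lf f.symm g e p →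
      ∃ k ≤ K, ∃ c : ℕ → M, c 0 = f^[N] p ∧ c k = f^[N] q ∧
        ∀ i < k, c (i + 1) ∈ Lf f.symm g r (c i)

/-! ### Modules with segments of the leaves `X` -/

/-- UNB. Paper (5). By contradiction: `(a_j, u_j)` violating the conclusion with `N = j`,
`m_j = γ a_j (u_j / 2) → m`. If `m ∉ RB`: UC (and `Lf f.symm g e` is mapped into itself by `f.symm`, `A`
is invariant). If `m ∈ RB`: the bracket `w_j ∈ Wl f.symm η m`, `w_j ∈ Wl f η m_j` is in `RB`; L31 for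
`(f, g)` at `w_j`, `m_j`: `y_j` with `Dbl f g w_j y_j`, `Dbl f g.symm y_j m_j`, close to `m_j`; so
`y_j = γ a_j (ρ_j • u_j)` with `ρ_j ∈ (0, 1)` (`F1UNIAux.near_half`), `y_j ∈ UY`, so `w_j ∈ UY` by UCS:
contradiction (`UY` and `RB` are disjoint). -/
def SpecUnb : Prop :=
  ∀ (M : Type u) (W : Type v) [MetricSpace M] [CompactSpace M] [NormedAddCommGroup W]
    [InnerProductSpace ℝ W] [FiniteDimensional ℝ W] (E : Emb M W) (f g : M ≃ₜ M)
    (s : Split E f) (t : Split E g) (C₀ ε C l : ℝ) (γ : M → W → M) (A : Set M),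
    Bun s t.swap C₀ → Pair f g ε C l → Gam s t.swap γ → GB f g A →
    ∀ κ e : ℝ, 0 < κ → 0 < e → ∃ N : ℕ, ∀ a u, PP s t.swap a u = u → κ ≤ ‖u‖ → ‖u‖ ≤ 1 →
      (∀ ρ ∈ Ioo (0 : ℝ) 1, γ a (ρ • u) ∈ UY f g A) →
      ∃ b ∈ A, b ∈ Lf f.symm g e (f.symm^[N] (γ a ((1 / 2 : ℝ) • u)))

/-- STPX. Paper (7). STEP, and the carried points are in the leaves `Y`: choose `k` such that
`f^[k]` makes the segments of norm at most `Λ + 1` small, then `ε'` and `δ` small depending on `k`, and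
apply `XYc` to the points `f^[k]` of `γ a (ρ • u)`, `γ a (r • u)`, `m'`, `γ a' (τ ρ • u')`. -/
def SpecStpx : Prop :=
  ∀ (M : Type u) (W : Type v) [MetricSpace M] [CompactSpace M] [NormedAddCommGroup W]
    [InnerProductSpace ℝ W] [FiniteDimensional ℝ W] (E : Emb M W) (f g : M ≃ₜ M)
    (s : Split E f) (t : Split E g) (C₀ ε C l : ℝ) (γ : M → W → M), Bun s t.swap C₀ →
    Pair f g ε C l → Gam s t.swap γ → CUp f g → XYc f g → ∀ Λ ε' : ℝ, 0 < Λ → 0 < ε' →
    ∃ δ : ℝ, 0 < δ ∧ ∀ a u r m', PP s t.swap a u = u → u ≠ 0 → ‖u‖ ≤ Λ → r ∈ Icc (0 : ℝ) 1 →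
      m' ∈ Lf f.symm g δ (γ a (r • u)) → ∃ a' u' τ, PP s t.swap a' u' = u' ∧ ‖u'‖ ≤ ‖u‖ + 1 ∧
        Tau τ ∧ γ a' (τ r • u') = m' ∧ ∀ ρ ∈ Icc (0 : ℝ) 1,
          γ a' (τ ρ • u') ∈ Wl f.symm ε' (γ a (ρ • u)) ∧
          Dbl f.symm g (γ a (ρ • u)) (γ a' (τ ρ • u'))

/-- STGB. Paper (8): adapt `F1STAGE.lean` (`FU` instead of `Fre`, STPX instead of STEP; the chain
comes from UNB and YCH, its last point `b` is in `A`). If the norms stay at most `2`, then
`b = γ a_k (..)` with `a_k ∈ RB`, `Dbl f g.symm a_k b`, so `a_k ∈ A` (`Sat f A`): contradiction. The points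
`γ a' (τ ρ • u')`, `ρ ∈ (0, 1)`, stay in `UY` by the last clause of STPX; `RB` is saturated by
unstable sets. -/
def SpecStgb : Prop :=
  ∀ (M : Type u) (W : Type v) [MetricSpace M] [CompactSpace M] [ConnectedSpace M]
    [NormedAddCommGroup W] [InnerProductSpace ℝ W] [FiniteDimensional ℝ W] (E : Emb M W)
    (f g : M ≃ₜ M) (s : Split E f) (t : Split E g) (C₀ ε C l : ℝ) (γ : M → W → M) (A : Set M),
    Bun s t.swap C₀ → Pair f g ε C l → Gam s t.swap γ → CUp f g → XYc f g → GB f g A →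
    ∃ κ C₂ : ℝ, 0 < κ ∧ κ ≤ 1 ∧ ∀ a u, FU g s t.swap γ A a u → κ ≤ ‖u‖ → ‖u‖ ≤ 1 →
      ∃ (a' : M) (u' : W) (τ : ℝ → ℝ) (k : ℕ), 0 < k ∧ FU g s t.swap γ A a' u' ∧ κ ≤ ‖u'‖ ∧
        ‖u'‖ ≤ 1 ∧ Tau τ ∧ ∀ ρ ∈ Icc (0 : ℝ) 1, ∀ n : ℕ,
          dist (f.symm^[n + k] (γ a' (τ ρ • u'))) (f.symm^[n] (γ a (ρ • u))) ≤ C₂ * l ^ n

/-- NOI. No infinite sequence of stages: `F1NOFR.lean` with a general property `Pr` instead of
`Fre`. -/
def SpecNoi : Prop :=
  ∀ (M : Type u) (W : Type v) [MetricSpace M] [CompactSpace M] [NormedAddCommGroup W]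
    [InnerProductSpace ℝ W] [FiniteDimensional ℝ W] (E : Emb M W) (f g : M ≃ₜ M)
    (s : Split E f) (t : Split E g) (C₀ ε C l κ C₂ : ℝ) (γ : M → W → M) (Pr : M → W → Prop),
    Bun s t.swap C₀ → Pair f g ε C l → Gam s t.swap γ → 0 < κ →
    (∀ a u, Pr a u → PP s t.swap a u = u) →
    (∀ a u, Pr a u → κ ≤ ‖u‖ → ‖u‖ ≤ 1 → ∃ (a' : M) (u' : W) (τ : ℝ → ℝ) (k : ℕ), 0 < k ∧
      Pr a' u' ∧ κ ≤ ‖u'‖ ∧ ‖u'‖ ≤ 1 ∧ Tau τ ∧ ∀ ρ ∈ Icc (0 : ℝ) 1, ∀ n : ℕ,
        dist (f.symm^[n + k] (γ a' (τ ρ • u'))) (f.symm^[n] (γ a (ρ • u))) ≤ C₂ * l ^ n) →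
    ∀ a u, Pr a u → κ ≤ ‖u‖ → ‖u‖ ≤ 1 → False

/-- STRB. Start, paper (9). `p ∈ A`, `m = y ∉ A` in the leaf `Y` of `p`, so `m ∈ UY`. By `s2` the leaf
`D` of `m` does not meet `A`, by `s3` there is `r ∈ RB` with `Dbl f g.symm m r`, `r = γ m w`. Let `ρ₀` be
the supremum of the `ρ ∈ [0, 1]` with `γ m ([0, ρ] • w) ⊆ UY`; by UOP, UCL `γ m (ρ₀ • w) ∈ RB`. Base the
segment at `a = γ m (ρ₀ • w)` (REP, as in `F1STRT.lean`): `(a, e)` with `γ a e = m`. Then apply `f^-n`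
to make the norm at least `1`, and shorten the segment. -/
def SpecStrb : Prop :=
  ∀ (M : Type u) (W : Type v) [MetricSpace M] [CompactSpace M] [NormedAddCommGroup W]
    [InnerProductSpace ℝ W] [FiniteDimensional ℝ W] (E : Emb M W) (f g : M ≃ₜ M)
    (s : Split E f) (t : Split E g) (C₀ ε C l : ℝ) (γ : M → W → M) (A : Set M),
    Bun s t.swap C₀ → Pair f g ε C l → Gam s t.swap γ → XYc f g → GB f g A → ∀ p ∈ A, ∀ y,
    Dbl f.symm g p y → y ∉ A → ∃ a u, ‖u‖ = 1 ∧ FU g s t.swap γ A a u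

/-- WALLT. The wall lemma, from XYC, GBEX, STGB, NOI, STRB, GAM, PAIR, PERX (for
`(f.symm, g.symm)`). -/
def SpecWallt : Prop :=
  ∀ (M : Type u) (W : Type v) [MetricSpace M] [CompactSpace M] [ConnectedSpace M]
    [NormedAddCommGroup W] [InnerProductSpace ℝ W] [FiniteDimensional ℝ W] (E : Emb M W)
    (f g : M ≃ₜ M) (s : Split E f) (t : Split E g) (C₀ : ℝ), Bun s t.swap C₀ → CUp f g →
    CUp g.symm f.symm → ∀ A : Set M, Minimal (· ∈ Sset f) A → Sat g A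

/-! ### Actions -/

/-- SAMD. Elements of the same chamber have the same relations `Dbl`. If `Dbl f g x y`, then
`f^N y` is in `Wl f δ` and in `Wl g δ` of `f^N x` for large `N`. Let `s₁`, `s₂` be the splittings of
`A n₁`, `A n₂`: the same ranges, so the same projections. PROD for the pair `(A n₁, A n₂)`: for `b` in
`Wl (A n₁) δ a` L31 gives `z` with `Dbl (A n₁) (A n₂) a z`, `Dbl (A n₁) (A n₂).symm z b`, close to both;
`z - b` has a small stable and a small unstable part (`Cf.exists_cone` for `s₁` and for `s₂.swap`), so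
`z = b`, and `b ∈ Wl (A n₂) ε a`. So `f^N y ∈ Wl (A n₂) ε (f^N x)`; PROD, fourth part, for
`(A n, A n₂)`. -/
def SpecSamd : Prop :=
  ∀ (M : Type u) (W : Type v) [MetricSpace M] [CompactSpace M] [NormedAddCommGroup W]
    [InnerProductSpace ℝ W] [FiniteDimensional ℝ W] (E : Emb M W) (k : ℕ) (J : Type w) [Finite J]
    (A : (Fin k → ℤ) → M ≃ₜ M) (χ : J → Fin k → ℝ) (F : J → M → Submodule ℝ W), Act E A χ F →
    ∀ (n n₁ n₂ : Fin k → ℤ), Regular χ n → Regular χ n₁ → Regular χ n₂ →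
      (∀ l, ev (χ l) n₁ < 0 ↔ ev (χ l) n₂ < 0) → ∀ x y, Dbl (A n) (A n₁) x y → Dbl (A n) (A n₂) x y

/-- SATG. The wall with a line bundle on the other side. From NEAR, CU, SAMD, WALLT, RNG. Let
`Wal χ n n' i j`, the coarse bundle of `j` is a line bundle. NEAR for `Wal χ (-n) (-n') j i`: `n₁` with
`CUp (A n₁) (A (-n'))`; NEAR for `Wal χ n' n j i`: `m₁` with `CUp (A m₁) (A n)`. Put `f = A n₁`,
`g = (A m₁).symm = A (-m₁)`: `CUp f g` and `CUp g.symm f.symm` by SAMD (`CUp` depends on its second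
argument only by the relation `Dbl`). Same chamber: `sats_of_step`, `minimal_of`. -/
def SpecSatg : Prop :=
  ∀ (M : Type u) (W : Type v) [MetricSpace M] [CompactSpace M] [ConnectedSpace M]
    [NormedAddCommGroup W] [InnerProductSpace ℝ W] [FiniteDimensional ℝ W] (E : Emb M W) (k : ℕ)
    (J : Type w) [Finite J] (A : (Fin k → ℤ) → M ≃ₜ M) (χ : J → Fin k → ℝ)
    (F : J → M → Submodule ℝ W), Act E A χ F → ∀ (n n' : Fin k → ℤ) (i j : J), Wal χ n n' i j →
    (∀ x, Module.finrank ℝ (coarse χ F j x) = 1) →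
    ∀ K, Minimal (· ∈ Sset (A n).symm) K → Sat (A n').symm K

/-- CHG. The abstract theorem: every negatively proportional pair contains a line bundle. From SATG,
`F1CHAINAux.sat_of_wal`, ARITHM, CHN1, PAIR (as in `F1CHAIN.lean`). -/
def SpecChg : Prop :=
  ∀ (M : Type u) (W : Type v) [MetricSpace M] [CompactSpace M] [ConnectedSpace M]
    [NormedAddCommGroup W] [InnerProductSpace ℝ W] [FiniteDimensional ℝ W] (E : Emb M W) (k : ℕ)
    (J : Type w) [Finite J] (A : (Fin k → ℤ) → M ≃ₜ M) (χ : J → Fin k → ℝ)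
    (F : J → M → Submodule ℝ W), Act E A χ F →
    (∀ i j, ∀ t : ℝ, 0 < t → χ i = -(t • χ j) →
      (∀ x, Module.finrank ℝ (coarse χ F i x) = 1) ∨
      (∀ x, Module.finrank ℝ (coarse χ F j x) = 1)) →
    ∀ n : Fin k → ℤ, Regular χ n → TopTransitive (A n)

end Pool.Agent.Lib.MP610fe3.HR
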