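import Pool.Agent.Lib.MP_610fe3_an.HR.F2Spec
import Pool.Agent.Lib.MP_610fe3_an.HR.PROD

/-!
# Module UCL of hive F2: `UY` is closed outside `RB` (helper25)
-/

set_option autoImplicit false

open Set Filter Function
open scoped Topology

namespace Pool.Agent.Lib.MP610fe3.HR

open Cf CH

universe u

namespace F2UCLAux

variable {X : Type*} [MetricSpace X] {f : X ≃ₜ X} {A : Set X}

theorem iter_symm (n : ℕ) (x : X) : f.symm^[n] (f^[n] x) = x :=
  (show LeftInverse f.symm f from fun y => f.symm_apply_apply y).iterate n x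

theorem fwd_iter (hA : f '' A = A) {a : X} (ha : a ∈ A) (n : ℕ) : f^[n] a ∈ A := by
  induction n with
  | zero => exact ha
  | succ n ih =>
    rw [iterate_succ_apply']
    rw [← hA]
    exact mem_image_of_mem _ ih

end F2UCLAux

open F2UCLAux

/-- **UCL**. -/
theorem specUcl (hU : SpecUc.{u}) (hP : SpecProd.{u}) : SpecUcl.{u} := by
  intro M _ _ f g ε C l hp A hA x hx hxR
  obtain ⟨-, -, -, -, δ, hδ, hcl⟩ := hP M f.symm g ε C l hp.symm_left
  obtain ⟨N, r, hr, H⟩ := hU M f g ε C l hp A hA δ hδ x hxR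
  have hK : IsClosed {p : M × M | p.2 ∈ Lf f.symm g δ p.1 ∧ p.2 ∈ A} :=
    (hcl δ le_rfl).inter (hA.closed.preimage continuous_snd)
  have hPc : IsClosed (Prod.fst '' {p : M × M | p.2 ∈ Lf f.symm g δ p.1 ∧ p.2 ∈ A}) :=
    (hK.isCompact.image continuous_fst).isClosed
  have hPre : IsClosed ((f.symm^[N]) ⁻¹'
      (Prod.fst '' {p : M × M | p.2 ∈ Lf f.symm g δ p.1 ∧ p.2 ∈ A})) :=
    hPc.preimage (f.symm.continuous.iterate N)
  have hsub : UY f g A ∩ Metric.ball x r ⊆ (f.symm^[N]) ⁻¹'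
      (Prod.fst '' {p : M × M | p.2 ∈ Lf f.symm g δ p.1 ∧ p.2 ∈ A}) := by
    rintro m ⟨hm, hmr⟩
    obtain ⟨a, ha, hal⟩ := H m hm hmr
    exact ⟨(f.symm^[N] m, a), ⟨hal, ha⟩, rfl⟩
  have hx' : x ∈ closure (UY f g A ∩ Metric.ball x r) := by
    rw [inter_comm]
    exact Metric.isOpen_ball.inter_closure ⟨Metric.mem_ball_self hr, hx⟩
  obtain ⟨p, ⟨hp1, hp2⟩, hp3⟩ := hPre.closure_subset_iff.2 hsub hx'
  refine ⟨f^[N] p.2, fwd_iter hA.inv hp2 N, ?_⟩
  refine PRODAux.dbl_of_image_iter hp.symm_left.comm N ?_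
  rw [F2UCLAux.iter_symm, ← hp3]
  exact hp1.2

end Pool.Agent.Lib.MP610fe3.HR
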