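import Pool.Agent.Lib.MP_610fe3_an.HR.F3Spec
import Pool.Agent.Lib.MP_610fe3_an.HR.CHN

/-!
# Module ACTL: actions of class `C^1`, steps between nested chambers
-/

set_option autoImplicit false

open Set Filter Function
open scoped Topology

namespace Pool.Agent.Lib.MP610fe3.HR

open Cf CH CHNAux

universe u v w

namespace F3ACTLAux

variable {M : Type u} {W : Type v} [MetricSpace M] [CompactSpace M]
  [NormedAddCommGroup W] [InnerProductSpace ℝ W] [FiniteDimensional ℝ W] {E : Emb M W} {k : ℕ}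
  {J : Type w} {A : (Fin k → ℤ) → M ≃ₜ M} {χ : J → Fin k → ℝ} {F : J → M → Submodule ℝ W}

omit [CompactSpace M] [FiniteDimensional ℝ W] in
theorem comm (H : Act1 E A χ F) (n n' : Fin k → ℤ) (x : M) : A n (A n' x) = A n' (A n x) := by
  rw [← H.add, ← H.add, add_comm]

omit [CompactSpace M] [FiniteDimensional ℝ W] in
theorem zero (H : Act1 E A χ F) (x : M) : A 0 x = x := by
  have h2 := H.add 0 0 x
  rw [add_zero] at h2
  exact ((A 0).injective h2).symm

omit [CompactSpace M] [FiniteDimensional ℝ W] in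
theorem neg (H : Act1 E A χ F) (n : Fin k → ℤ) : A (-n) = (A n).symm := by
  ext x
  apply (A n).injective
  rw [(A n).apply_symm_apply, ← H.add, add_neg_cancel, zero H]

omit [FiniteDimensional ℝ W] in
/-- Nested unstable bundles. -/
theorem link_of_below (H : Act1 E A χ F) {n n' : Fin k → ℤ} (hn : Regular χ n)
    (hn' : Regular χ n') (hB : Below χ n' n) : Link (A n).symm (A n').symm := by
  obtain ⟨s, hs, -, hsU⟩ := H.split n hn
  obtain ⟨t, ht, -, htU⟩ := H.split n' hn'
  have hc : ∀ x, (A n).symm ((A n').symm x) = (A n').symm ((A n).symm x) := fun x => by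
    rw [← neg H, ← neg H]
    exact comm H _ _ x
  refine link_of_comm hc fun x y hxy => nested_of_range s.swap t.swap hs.swap ht.swap hc
    (fun x => ?_) hxy
  rw [Split.swap_S, Split.swap_S, hsU, htU]
  refine iSup_le fun l => iSup_le fun hl => le_iSup_of_le l (le_iSup_of_le ?_ le_rfl)
  rcases lt_or_gt_of_ne (hn' l) with h | h
  · exact absurd (hB l h) hl.le.not_gt
  · exact h

omit [FiniteDimensional ℝ W] in
theorem exists_exp (H : Act1 E A χ F) {n : Fin k → ℤ} (hn : Regular χ n) :
    (∃ c, 0 < c ∧ ExpConst (A n) c) ∧ Shadowing (A n) ∧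
      (∃ c, 0 < c ∧ ExpConst (A n).symm c) ∧ Shadowing (A n).symm := by
  obtain ⟨s, hs, -⟩ := H.split n hn
  exact ⟨s.expansive hs, s.shadowing hs, s.swap.expansive hs.swap, s.swap.shadowing hs.swap⟩

omit [FiniteDimensional ℝ W] in
theorem sats_of_step (H : Act1 E A χ F) {n n' : Fin k → ℤ} (h : Step χ n n') :
    (∀ K, Minimal (· ∈ Sset (A n).symm) K → Sat (A n').symm K) ∧
      (∀ K, Minimal (· ∈ Sset (A n').symm) K → Sat (A n).symm K) := by
  obtain ⟨hn, hn', hB | hB⟩ := h
  · obtain ⟨-, -, ⟨c, hc0, hc⟩, hsh⟩ := exists_exp H hn'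
    exact (sats_of_link hc0 hc hsh (link_of_below H hn' hn hB)).symm
  · obtain ⟨-, -, ⟨c, hc0, hc⟩, hsh⟩ := exists_exp H hn
    exact sats_of_link hc0 hc hsh (link_of_below H hn hn' hB)

end F3ACTLAux

open F3ACTLAux in
/-- **ACTL.** -/
theorem specActl : SpecActl.{u, v, w} := by
  intro M W _ _ _ _ _ E k J _ A χ F H
  exact ⟨comm H, zero H, neg H, fun n n' h => sats_of_step H h⟩

end Pool.Agent.Lib.MP610fe3.HR
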