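import Pool.Agent.Lib.MP_610fe3_an.HR.F3RSpec
import Pool.Agent.Lib.MP_610fe3_an.HR.F3ACTP

/-!
# Module ACTR: from the manifold to `Act1`, with the rates of one element
-/

set_option autoImplicit false

open Set Filter Function Bundle
open scoped Topology Manifold ContDiff

namespace Pool.Agent.Lib.MP610fe3.HR

open Cf CH

universe u v w

open ACT F3ACTPAux

/-- **Module ACTR.** -/
theorem specActr : SpecActr.{u, v, w} := by
  intro V _ _ _ N M _ _ _ _ _ _ e hiso he hinj k J _ A χ F hadd hAn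
  obtain ⟨E, hE, hEP, hr⟩ := Gen.exists_emb e hiso he hinj
  subst hE
  set ι : ∀ x : M, TangentSpace 𝓘(ℝ, V) x →ₗ[ℝ] EuclideanSpace ℝ (Fin N) := fun x =>
    Gen.dE V E.e x with hι
  have hι' : ∀ x, Injective (ι x) := hinj
  have h1 : ∀ i x, coarse χ (fun j x => (F j x).map (ι x)) i x =
      (⨆ (l) (_ : ∃ c : ℝ, 0 < c ∧ χ l = c • χ i), F l x :
        Submodule ℝ (TangentSpace 𝓘(ℝ, V) x)).map (ι x) := fun i x => (map_iSup₂ (ι x) _ _).symm
  obtain ⟨c₀, C₁, hc₀, hC₁, hn⟩ := Gen.exists_norm_bounds E.e he hinj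
  have hn' : ∀ x (v : TangentSpace 𝓘(ℝ, V) x), c₀ * ‖v‖ ≤ ‖Gen.dE V E.e x v‖ ∧
      ‖Gen.dE V E.e x v‖ ≤ C₁ * ‖v‖ := by
    intro x v
    have h2 := hn x v
    rw [norm_tangentSpace_vectorSpace] at h2
    exact h2
  have hsplit : ∀ n, Regular χ n → ∃ s : Split E (A n).toHomeomorph, s.Hyperbolic ∧
      (∀ x, (s.S x).range = ⨆ (j) (_ : ev (χ j) n < 0), (F j x).map (ι x)) ∧
      (∀ x, (s.U x).range = ⨆ (j) (_ : 0 < ev (χ j) n), (F j x).map (ι x)) := by
    intro n hn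
    obtain ⟨s, hs, hS, hU⟩ := Gen.exists_split E he hinj hr (A n) _ _ (hAn n hn)
    refine ⟨s, hs, fun x => ?_, fun x => ?_⟩
    · rw [hS x]
      exact map_iSup₂ (ι x) _ _
    · rw [hU x]
      exact map_iSup₂ (ι x) _ _
  refine ⟨E, fun j x => (F j x).map (ι x), ⟨fun n n' x => hadd n n' x, hsplit⟩, fun hsm => ?_,
    fun i x => ?_, fun i n s b hR S hS e' he' => ?_,
    fun i n s b hR S hS p hp e' he' => ?_⟩
  · refine ⟨fun n n' x => hadd n n' x, fun n hn => ?_⟩
    obtain ⟨s, hs, hS, hU⟩ := hsplit n hn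
    have hinv : ∀ x, (A n).symm x = A (-n) x := by
      intro x
      have h1 := neg_eq (fun n => (A n : M → M)) (A 0).injective hadd n x
      have h2 : (A n).symm (A n (A (-n) x)) = A (-n) x := (A n).symm_apply_apply _
      rw [← h2]
      exact congrArg _ h1.symm
    have hsy : ContMDiff 𝓘(ℝ, V) 𝓘(ℝ, V) 2 (A n).toHomeomorph.symm := by
      have h3 : ((A n).toHomeomorph.symm : M → M) = A (-n) := funext fun x => hinv x
      rw [h3]
      exact hsm (-n)
    exact ⟨s, hs, Cf.specSq V N M E he hinj hEP (A n).toHomeomorph (hsm n) hsy s, hS, hU⟩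
  · rw [h1]
    exact (LinearEquiv.finrank_eq (Submodule.equivMapOfInjective (ι x) (hι' x) _)).symm
  · obtain ⟨hR1, hR2⟩ := hR
    obtain ⟨Ca, ha⟩ := hR1 e' he'
    obtain ⟨Cb, hb⟩ := hR2 e' he'
    refine ⟨max (C₁ * |Ca| * (1 / c₀)) (C₁ * |Cb| * (1 / c₀)), fun m x w hw => ?_⟩
    rw [h1] at hw
    constructor
    · refine (bound_pt he hinj hEP hc₀ hC₁ hn' (A n).contMDiff S.hD m x _ (ha m x) w hw).trans ?_
      exact mul_le_mul_of_nonneg_right (mul_le_mul_of_nonneg_right (le_max_left _ _)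
        (Real.exp_pos _).le) (norm_nonneg _)
    · refine (bound_pt he hinj hEP hc₀ hC₁ hn' (A n).symm.contMDiff S.hDi m x _ (hb m x) w
        hw).trans ?_
      exact mul_le_mul_of_nonneg_right (mul_le_mul_of_nonneg_right (le_max_right _ _)
        (Real.exp_pos _).le) (norm_nonneg _)
  · obtain ⟨hR1, hR2⟩ := hR p hp
    obtain ⟨Ca, ha⟩ := hR1 e' he'
    obtain ⟨Cb, hb⟩ := hR2 e' he'
    refine ⟨max (C₁ * |Ca| * (1 / c₀)) (C₁ * |Cb| * (1 / c₀)), fun m w hw => ?_⟩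
    rw [h1] at hw
    constructor
    · refine (bound_pt he hinj hEP hc₀ hC₁ hn' (A n).contMDiff S.hD m p _ (ha m) w hw).trans ?_
      exact mul_le_mul_of_nonneg_right (mul_le_mul_of_nonneg_right (le_max_left _ _)
        (Real.exp_pos _).le) (norm_nonneg _)
    · refine (bound_pt he hinj hEP hc₀ hC₁ hn' (A n).symm.contMDiff S.hDi m p _ (hb m) w
        hw).trans ?_
      exact mul_le_mul_of_nonneg_right (mul_le_mul_of_nonneg_right (le_max_right _ _)
        (Real.exp_pos _).le) (norm_nonneg _)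

end Pool.Agent.Lib.MP610fe3.HR
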