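import Pool.Agent.Lib.MP_610fe3_an.HR.F3Spec
import Pool.Agent.Lib.MP_610fe3_an.HR.F3ACTL
import Pool.Agent.Lib.MP_610fe3_an.HR.F2CHAIN

/-!
# Module CHP: line bundles or pinched pairs, the chain of chambers
-/

set_option autoImplicit false

open Set Filter Function
open scoped Topology

namespace Pool.Agent.Lib.MP610fe3.HR

open Cf CH

universe u v w

namespace F3CHPAux

/-- Transitivity from the wall lemma at all walls, class `C^1`. -/
theorem top_of_walls (hActl : SpecActl.{u, v, w}) (hArith : SpecArithm.{w})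
    (hChn : SpecChn1.{u}) (hPair : SpecPair.{u, v}) {M : Type u} {W : Type v} [MetricSpace M]
    [CompactSpace M] [ConnectedSpace M] [NormedAddCommGroup W] [InnerProductSpace ℝ W]
    [FiniteDimensional ℝ W] {E : Emb M W} {k : ℕ} {J : Type w} [Finite J]
    {A : (Fin k → ℤ) → M ≃ₜ M} {χ : J → Fin k → ℝ} {F : J → M → Submodule ℝ W}
    (H : Act1 E A χ F)
    (hw : ∀ (n n' : Fin k → ℤ) (i j : J), Wal χ n n' i j →
      ∀ K, Minimal (· ∈ Sset (A n).symm) K → Sat (A n').symm K)
    {n : Fin k → ℤ} (hn : Regular χ n) : TopTransitive (A n) := by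
  obtain ⟨hcomm, hzero, -, hst⟩ := hActl M W E k J A χ F H
  obtain ⟨m, c, h0, hm, hc⟩ := hArith k J χ n hn
  have hstep : ∀ i < m, ∀ K, Minimal (· ∈ Sset (A (c i)).symm) K → Sat (A (c (i + 1))).symm K := by
    intro i hi
    rcases hc i hi with h | ⟨l, l', h, -⟩
    · exact (hst _ _ h).1
    · exact hw _ _ l l' h
  obtain ⟨s, hs, -⟩ := H.split n hn
  obtain ⟨ε, C, l, hP⟩ := hPair M W E (A n) (A n) s s hs hs (hcomm n n)
  have h1 := hChn M m (fun i => A (c i)) ε C l (by rw [h0]; exact hP.one)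
    (fun x => by
      show A (c m) (A (c 0) x) = x
      rw [h0, hm, ← H.add, neg_add_cancel, hzero]) hstep
  simpa only [h0] using h1

theorem pinch_symm {s b s' b' : ℝ} (h : Pinch s b s' b') : Pinch s' b' s b := by
  obtain ⟨h1, h2, h3, h4, h5⟩ := h
  exact ⟨h3, h4, h1, h2, by linarith [mul_comm (b' - s') (b - s), mul_comm s s']⟩

end F3CHPAux

open F3CHPAux

/-- **The abstract theorem.** -/
theorem specChp (hNear : SpecNear.{u, v, w}) (hWall : SpecWallf.{u, v})
    (hSatg : SpecSatg.{u, v, w}) (hSatp : SpecSatp.{u, v, w}) (hActl : SpecActl.{u, v, w})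
    (hArith : SpecArithm.{w}) (hChn : SpecChn1.{u}) (hPair : SpecPair.{u, v}) :
    SpecChp.{u, v, w} := by
  intro M W _ _ _ _ _ _ E k J _ A χ F H hpart n hn
  refine top_of_walls hActl hArith hChn hPair H (fun n n' i j h => ?_) hn
  obtain ⟨t, ht, hχ⟩ := h.neg
  rcases hpart j i t ht hχ with ⟨HA, h1 | h1⟩ | ⟨s, b, s', b', hp, h1, h2⟩
  · exact hSatg M W E k J A χ F HA n n' i j h h1
  · exact F1CHAINAux.sat_of_wal hNear hWall HA h h1
  · exact hSatp M W E k J A χ F H n n' i j h s' b' s b (pinch_symm hp) h2 h1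

end Pool.Agent.Lib.MP610fe3.HR
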