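import Pool.Agent.Lib.MP_610fe3_an.HR.F3RSpec
import Pool.Agent.Lib.MP_610fe3_an.HR.F3CHP

/-!
# Module CHR: line bundles or pinched pairs (rates at one regular element), the chain of chambers
-/

set_option autoImplicit false

open Set Filter Function
open scoped Topology

namespace Pool.Agent.Lib.MP610fe3.HR

open Cf CH CHNAux F3CHPAux

universe u v w

namespace F3CHRAux

/-- `Pinch` is homogeneous in `(s, b)` and in `(s', b')`. -/
theorem pinch_scale {s b s' b' c c' : ℝ} (h : Pinch s b s' b') (hc : 0 < c) (hc' : 0 < c') :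
    Pinch (s / c) (b / c) (s' / c') (b' / c') := by
  obtain ⟨h1, h2, h3, h4, h5⟩ := h
  refine ⟨by positivity, div_le_div_of_nonneg_right h2 hc.le, by positivity,
    div_le_div_of_nonneg_right h4 hc'.le, ?_⟩
  rw [← sub_div, ← sub_div, div_mul_div_comm, div_mul_div_comm]
  exact div_lt_div_of_pos_right h5 (mul_pos hc hc')

end F3CHRAux

open F3CHRAux

/-- **The abstract theorem.** -/
theorem specChr (hNear : SpecNear.{u, v, w}) (hWall : SpecWallf.{u, v})
    (hSatg : SpecSatg.{u, v, w}) (hSatp : SpecSatp.{u, v, w}) (hRtpa : SpecRtpa.{u, v, w})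
    (hRtl : SpecRtl.{u, v, w}) (hActl : SpecActl.{u, v, w}) (hArith : SpecArithm.{w})
    (hChn : SpecChn1.{u}) (hPair : SpecPair.{u, v}) : SpecChr.{u, v, w} := by
  intro M W _ _ _ _ _ _ E k J _ A χ F H hpart n hn
  refine top_of_walls hActl hArith hChn hPair H (fun n n' i j h => ?_) hn
  obtain ⟨t, ht, hχ⟩ := h.neg
  have key : ∀ (n₁ n₂ : Fin k → ℤ) (s b s' b' : ℝ), Regular χ n₁ → ev (χ j) n₁ < 0 →
      Regular χ n₂ → ev (χ i) n₂ < 0 → Pinch s b s' b' → RtAt E A χ F j n₁ s b →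
      RtAt E A χ F i n₂ s' b' →
      ∀ K, Minimal (· ∈ Sset (A n).symm) K → Sat (A n').symm K := by
    intro n₁ n₂ s b s' b' r1 l1 r2 l2 hp h1 h2
    exact hSatp M W E k J A χ F H n n' i j h _ _ _ _
      (pinch_symm (pinch_scale hp (neg_pos.2 l1) (neg_pos.2 l2)))
      (hRtl M W E k J A χ F H n n' i j h n₂ r2 l2 s' b' h2)
      (hRtl M W E k J A χ F H n' n j i (Wal.symm h) n₁ r1 l1 s b h1)
  rcases hpart j i t ht hχ with ⟨HA, h1 | h1 | ⟨n₁, n₂, s, b, s', b', r1, l1, r2, l2, hp, h1, h2⟩⟩ |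
    ⟨n₁, n₂, s, b, s', b', r1, l1, r2, l2, hp, h1, h2⟩
  · exact hSatg M W E k J A χ F HA n n' i j h h1
  · exact F1CHAINAux.sat_of_wal hNear hWall HA h h1
  · exact key n₁ n₂ s b s' b' r1 l1 r2 l2 hp
      (hRtpa M W E k J A χ F HA n' n j i (Wal.symm h) n₁ r1 s b h1)
      (hRtpa M W E k J A χ F HA n n' i j h n₂ r2 s' b' h2)
  · exact key n₁ n₂ s b s' b' r1 l1 r2 l2 hp h1 h2

end Pool.Agent.Lib.MP610fe3.HR
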