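import Pool.Agent.Lib.MP_610fe3_an.HR.VSpec
import Pool.Agent.Lib.MP_610fe3_an.HR.F1CHAIN

/-!
# Module DIM: the dimension lemma (hive VOL)
-/

set_option autoImplicit false

open Set Filter Function Bundle
open scoped Topology Manifold ContDiff

namespace Pool.Agent.Lib.MP610fe3.HR

open Cf CH

universe u v w

namespace VDIMAux

variable {k : ℕ} {J : Type*}

theorem ev_smul_left (t : ℝ) (c : Fin k → ℝ) (v : Fin k → ℤ) : ev (t • c) v = t * ev c v := by
  simp only [ev, Finset.mul_sum, Pi.smul_apply, smul_eq_mul, mul_assoc]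

theorem ev_neg_left (c : Fin k → ℝ) (v : Fin k → ℤ) : ev (-c) v = -ev c v := by
  simp only [ev, Pi.neg_apply, neg_mul, Finset.sum_neg_distrib]

theorem rel_symm {a b : Fin k → ℝ} (h : ∃ c : ℝ, 0 < c ∧ b = c • a) :
    ∃ c : ℝ, 0 < c ∧ a = c • b := by
  obtain ⟨c, hc, rfl⟩ := h
  exact ⟨c⁻¹, inv_pos.2 hc, by rw [smul_smul, inv_mul_cancel₀ hc.ne', one_smul]⟩

theorem one_le_co {T : Type*} [AddCommGroup T] [Module ℝ T] [FiniteDimensional ℝ T]
    (χ : J → Fin k → ℝ) (F : J → Submodule ℝ T) (i : J) (h : F i ≠ ⊥) :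
    1 ≤ Module.finrank ℝ (co χ F i) := by
  have h1 : F i ≤ co χ F i := le_iSup₂_of_le i ⟨1, one_pos, (one_smul ℝ _).symm⟩ le_rfl
  rw [Nat.one_le_iff_ne_zero]
  intro h0
  rw [Submodule.finrank_eq_zero] at h0
  rw [h0, le_bot_iff] at h1
  exact h h1

end VDIMAux

open VDIMAux

/-- **The dimension lemma.** -/
theorem specDim (hRegv : SpecRegv.{w}) (hInd : SpecInd.{v, w}) (hCrk : SpecCrk.{u, 0, w})
    (hNov : SpecNov.{u, 0, w}) (hLow : SpecLow.{u, v}) (hAct : SpecAct.{u, v, w}) :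
    SpecDim.{u, v, w} := by
  intro V _ _ _ M _ _ _ _ _ _ _ _ k A J _ χ F hadd hC2 hA hχ hF hdim i j l t ht hij hl
  by_contra hcon
  push Not at hcon
  obtain ⟨⟨x₁, hx₁⟩, ⟨x₂, hx₂⟩⟩ := hcon
  classical
  have hfd : ∀ x : M, FiniteDimensional ℝ (TangentSpace 𝓘(ℝ, V) x) := fun x =>
    inferInstanceAs (FiniteDimensional ℝ V)
  obtain ⟨N, e, he, hemb, hinj⟩ := exists_embedding_euclidean_of_compact (I := 𝓘(ℝ, V)) (M := M)
  let _ : MetricSpace M := hemb.isEmbedding.comapMetricSpace e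
  have hiso : Isometry e := hemb.isEmbedding.to_isometry
  obtain ⟨E, F', hAct', hrank⟩ := hAct V N M e hiso he hinj k J A χ F hadd hC2 hA
  obtain ⟨a, ha⟩ := hCrk M (EuclideanSpace ℝ (Fin N)) E k J (fun n => (A n).toHomeomorph) χ F'
    hAct' hχ i
  obtain ⟨b, hb⟩ := hCrk M (EuclideanSpace ℝ (Fin N)) E k J (fun n => (A n).toHomeomorph) χ F'
    hAct' hχ j
  have ha' : ∀ x, Module.finrank ℝ (co χ (fun m => F m x) i) = a := fun x => by
    rw [← ha x, hrank]; rfl
  have hb' : ∀ x, Module.finrank ℝ (co χ (fun m => F m x) j) = b := fun x => by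
    rw [← hb x, hrank]; rfl
  have h1 : ∀ m x, 1 ≤ Module.finrank ℝ (co χ (fun m => F m x) m) := fun m x =>
    one_le_co χ (fun m => F m x) m (hF m x)
  have ha2 : 2 ≤ a := by
    have h2 := h1 i x₁
    rw [ha'] at h2 hx₁
    omega
  have hb2 : 2 ≤ b := by
    have h2 := h1 j x₂
    rw [hb'] at h2 hx₂
    omega
  have hi0 := hχ i
  -- the relations
  have hji : χ j = -(t⁻¹ • χ i) := by
    rw [hij, smul_neg, smul_smul, inv_mul_cancel₀ ht.ne', one_smul, neg_neg]
  have n_ij : ¬ ∃ c : ℝ, 0 < c ∧ χ j = c • χ i := by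
    rintro ⟨c, hc, h⟩
    rw [hji, ← neg_smul] at h
    have h2 : (-t⁻¹ - c) • χ i = 0 := by rw [sub_smul, h, sub_self]
    rcases smul_eq_zero.1 h2 with h3 | h3
    · have := inv_pos.2 ht
      linarith
    · exact hi0 h3
  have n_il : ¬ ∃ c : ℝ, 0 < c ∧ χ l = c • χ i := fun ⟨c, _, h⟩ => hl c h
  have n_jl : ¬ ∃ c : ℝ, 0 < c ∧ χ l = c • χ j := by
    rintro ⟨c, -, h⟩
    apply hl (-(c * t⁻¹))
    rw [h, hji, smul_neg, smul_smul, neg_smul]
  have key : ∀ x (s : Finset J), (∀ i ∈ s, ∀ l ∈ s, i ≠ l → ¬ ∃ c : ℝ, 0 < c ∧ χ l = c • χ i) →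
      ∑ m ∈ s, Module.finrank ℝ (co χ (fun m => F m x) m) ≤ Module.finrank ℝ V := fun x s hs =>
    hInd k J (TangentSpace 𝓘(ℝ, V) x) χ (fun m => F m x) hχ (fun n hn => (hA n hn).isCompl x) s hs
  have hne : ∀ {p q : J}, (¬ ∃ c : ℝ, 0 < c ∧ χ q = c • χ p) → p ≠ q := by
    rintro p q h rfl
    exact h ⟨1, one_pos, (one_smul ℝ _).symm⟩
  -- three classes
  have h3 : Module.finrank ℝ V = 5 ∧ a = 2 ∧ b = 2 := by
    have h4 := key x₁ {i, j, l} (by
      intro p hp q hq hpq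
      simp only [Finset.mem_insert, Finset.mem_singleton] at hp hq
      rcases hp with rfl | rfl | rfl <;> rcases hq with rfl | rfl | rfl <;>
        first
        | exact absurd rfl hpq
        | assumption
        | exact fun h => n_ij (rel_symm h)
        | exact fun h => n_il (rel_symm h)
        | exact fun h => n_jl (rel_symm h))
    rw [Finset.sum_insert, Finset.sum_insert, Finset.sum_singleton, ha', hb'] at h4
    · have h5 := h1 l x₁
      omega
    · simpa using hne n_jl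
    · simp only [Finset.mem_insert, Finset.mem_singleton, not_or]
      exact ⟨hne n_ij, hne n_il⟩
  obtain ⟨hd5, rfl, rfl⟩ := h3
  -- no other class
  have hdich : ∀ m, (∃ c : ℝ, χ m = c • χ i) ∨ ∃ c : ℝ, 0 < c ∧ χ m = c • χ l := by
    intro m
    by_contra hm
    push Not at hm
    obtain ⟨hm1, hm2⟩ := hm
    have n_im : ¬ ∃ c : ℝ, 0 < c ∧ χ m = c • χ i := fun ⟨c, _, h⟩ => hm1 c h
    have n_lm : ¬ ∃ c : ℝ, 0 < c ∧ χ m = c • χ l := fun ⟨c, hc, h⟩ => hm2 c hc h
    have n_jm : ¬ ∃ c : ℝ, 0 < c ∧ χ m = c • χ j := by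
      rintro ⟨c, -, h⟩
      apply hm1 (-(c * t⁻¹))
      rw [h, hji, smul_neg, smul_smul, neg_smul]
    have h4 := key x₁ {i, j, l, m} (by
      intro p hp q hq hpq
      simp only [Finset.mem_insert, Finset.mem_singleton] at hp hq
      rcases hp with rfl | rfl | rfl | rfl <;> rcases hq with rfl | rfl | rfl | rfl <;>
        first
        | exact absurd rfl hpq
        | assumption
        | exact fun h => n_ij (rel_symm h)
        | exact fun h => n_il (rel_symm h)
        | exact fun h => n_jl (rel_symm h)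
        | exact fun h => n_im (rel_symm h)
        | exact fun h => n_jm (rel_symm h)
        | exact fun h => n_lm (rel_symm h))
    rw [Finset.sum_insert, Finset.sum_insert, Finset.sum_insert, Finset.sum_singleton, ha',
      hb'] at h4
    · have h5 := h1 l x₁
      have h6 := h1 m x₁
      omega
    · simpa using hne n_lm
    · simp only [Finset.mem_insert, Finset.mem_singleton, not_or]
      exact ⟨hne n_jl, hne n_jm⟩
    · simp only [Finset.mem_insert, Finset.mem_singleton, not_or]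
      exact ⟨hne n_ij, hne n_il, hne n_im⟩
  -- the two elements
  obtain ⟨n, hn, hn1, hn2⟩ := hRegv k J χ (χ i) (-χ l) hχ hi0 (neg_ne_zero.2 (hχ l)) (by
    rintro ⟨c, -, h⟩
    apply hl (-c)
    rw [neg_smul, ← h, neg_neg])
  obtain ⟨n', hn', hn1', hn2'⟩ := hRegv k J χ (χ l) (χ i) hχ (hχ l) hi0
    (fun h => n_il (rel_symm h))
  rw [ev_neg_left] at hn2
  have hn3 : ev (χ l) n < 0 := by linarith
  have hneg : ∀ m, (∃ c : ℝ, 0 < c ∧ χ m = c • χ l) → ev (χ m) n < 0 ∧ ev (χ m) n' < 0 := by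
    rintro m ⟨c, hc, h⟩
    rw [h, ev_smul_left, ev_smul_left]
    exact ⟨mul_neg_of_pos_of_neg hc hn3, mul_neg_of_pos_of_neg hc hn1'⟩
  have hW : Wal χ n n' i j := by
    refine ⟨hn, hn', ⟨t⁻¹, inv_pos.2 ht, hji⟩, hn1, hn2', fun m hm => ?_⟩
    rcases hdich m with h | h
    · exact h
    · exact absurd (iff_of_true (hneg m h).1 (hneg m h).2) hm
  refine hNov M (EuclideanSpace ℝ (Fin N)) E k J (fun n => (A n).toHomeomorph) χ F' 4 hAct' ?_
    n n' i j hW (fun m => ?_) fun x => by rw [ha, hb]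
  · have h4 := hLow V N M e hiso he hinj
    rwa [hd5] at h4
  · rcases hdich m with ⟨c, h⟩ | h
    · have hc0 : c ≠ 0 := by
        rintro rfl
        exact hχ m (by rw [h, zero_smul])
      rw [h, ev_smul_left, ev_smul_left]
      rcases lt_or_gt_of_ne hc0 with h5 | h5
      · exact Or.inr (mul_neg_of_neg_of_pos h5 hn2')
      · exact Or.inl (mul_neg_of_pos_of_neg h5 hn1)
    · exact Or.inl (hneg m h).1

end Pool.Agent.Lib.MP610fe3.HR
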