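import Pool.Agent.Lib.MP_610fe3_an.HR.VSpec

/-!
# Module REGV (hive VOL): regular integer vectors with prescribed signs of two functionals
-/

set_option autoImplicit false

open Set Filter Function
open scoped Topology

namespace Pool.Agent.Lib.MP610fe3.HR

open Cf CH

universe w

namespace VREGVAux

variable {k : ℕ}

/-- A real vector with prescribed signs of two functionals. -/
theorem exists_real (a b : Fin k → ℝ) (ha : a ≠ 0) (hb : b ≠ 0)
    (h : ¬ ∃ c : ℝ, 0 < c ∧ b = c • a) :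
    ∃ v : Fin k → ℝ, ∑ i, a i * v i < 0 ∧ 0 < ∑ i, b i * v i := by
  have pos : ∀ x : Fin k → ℝ, x ≠ 0 → 0 < ∑ i, x i * x i := by
    intro x hx
    obtain ⟨i, hi⟩ := Function.ne_iff.1 hx
    exact Finset.sum_pos' (fun j _ => mul_self_nonneg _) ⟨i, Finset.mem_univ _, mul_self_pos.2 hi⟩
  have hα := pos a ha
  have hβ := pos b hb
  obtain ⟨α, hαe⟩ : ∃ α, α = ∑ i, a i * a i := ⟨_, rfl⟩
  obtain ⟨β, hβe⟩ : ∃ β, β = ∑ i, b i * b i := ⟨_, rfl⟩
  obtain ⟨γ, hγe⟩ : ∃ γ, γ = ∑ i, a i * b i := ⟨_, rfl⟩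
  have hγe' : γ = ∑ i, b i * a i := by
    rw [hγe]; exact Finset.sum_congr rfl fun i _ => mul_comm _ _
  rw [← hαe] at hα
  rw [← hβe] at hβ
  have key : ∀ s t : ℝ, ∑ i, a i * (s * b i - t * a i) = s * γ - t * α ∧
      ∑ i, b i * (s * b i - t * a i) = s * β - t * γ := by
    intro s t
    constructor
    · rw [hγe, hαe, Finset.mul_sum, Finset.mul_sum, ← Finset.sum_sub_distrib]
      exact Finset.sum_congr rfl fun i _ => by ring
    · rw [hγe', hβe, Finset.mul_sum, Finset.mul_sum, ← Finset.sum_sub_distrib]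
      exact Finset.sum_congr rfl fun i _ => by ring
  by_cases h0 : γ ≤ 0
  · refine ⟨fun i => 1 * b i - 1 * a i, ?_, ?_⟩
    · rw [(key 1 1).1]; linarith
    · rw [(key 1 1).2]; linarith
  · have hγ : 0 < γ := not_le.1 h0
    have hlt : γ * γ < α * β := by
      by_contra hc
      have hc' : α * β ≤ γ * γ := not_lt.1 hc
      apply h
      refine ⟨γ / α, div_pos hγ hα, ?_⟩
      have hs : ∑ i, (α * b i - γ * a i) * (α * b i - γ * a i) = α * (α * β - γ * γ) := by
        have e1 : ∀ i, (α * b i - γ * a i) * (α * b i - γ * a i) =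
            α * α * (b i * b i) - 2 * (α * γ) * (a i * b i) + γ * γ * (a i * a i) := fun i => by
          ring
        rw [Finset.sum_congr rfl fun i _ => e1 i, Finset.sum_add_distrib, Finset.sum_sub_distrib,
          ← Finset.mul_sum, ← Finset.mul_sum, ← Finset.mul_sum, ← hαe, ← hβe, ← hγe]
        ring
      have hs0 : ∑ i, (α * b i - γ * a i) * (α * b i - γ * a i) = 0 := by
        refine le_antisymm ?_ (Finset.sum_nonneg fun i _ => mul_self_nonneg _)
        rw [hs]
        exact mul_nonpos_of_nonneg_of_nonpos hα.le (by linarith)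
      have hz := (Finset.sum_eq_zero_iff_of_nonneg (fun i _ => mul_self_nonneg _)).1 hs0
      funext i
      have h1 := mul_self_eq_zero.1 (hz i (Finset.mem_univ _))
      rw [Pi.smul_apply, smul_eq_mul, div_mul_eq_mul_div, eq_div_iff hα.ne']
      linarith
    refine ⟨fun i => (α + γ) * b i - (β + γ) * a i, ?_, ?_⟩
    · rw [(key (α + γ) (β + γ)).1]; nlinarith
    · rw [(key (α + γ) (β + γ)).2]; nlinarith

/-- An integer vector with prescribed signs of two functionals. -/
theorem exists_int (a b : Fin k → ℝ) (v : Fin k → ℝ) (h1 : ∑ i, a i * v i < 0)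
    (h2 : 0 < ∑ i, b i * v i) : ∃ m : Fin k → ℤ, ev a m < 0 ∧ 0 < ev b m := by
  have key : ∀ (c : Fin k → ℝ) (N : ℕ),
      |ev c (fun i => ⌊(N : ℝ) * v i⌋) - N * ∑ i, c i * v i| ≤ ∑ i, |c i| := by
    intro c N
    have e : ev c (fun i => ⌊(N : ℝ) * v i⌋) - N * ∑ i, c i * v i =
        ∑ i, c i * ((⌊(N : ℝ) * v i⌋ : ℝ) - N * v i) := by
      rw [ev, Finset.mul_sum, ← Finset.sum_sub_distrib]
      exact Finset.sum_congr rfl fun i _ => by ring
    rw [e]
    refine (Finset.abs_sum_le_sum_abs _ _).trans (Finset.sum_le_sum fun i _ => ?_)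
    rw [abs_mul]
    have h3 : |(⌊(N : ℝ) * v i⌋ : ℝ) - N * v i| ≤ 1 := by
      rw [abs_le]
      constructor
      · have := Int.lt_floor_add_one ((N : ℝ) * v i); linarith
      · have := Int.floor_le ((N : ℝ) * v i); linarith
    calc |c i| * |(⌊(N : ℝ) * v i⌋ : ℝ) - N * v i| ≤ |c i| * 1 :=
          mul_le_mul_of_nonneg_left h3 (abs_nonneg _)
      _ = |c i| := mul_one _
  obtain ⟨N1, hN1⟩ := exists_nat_gt ((∑ i, |a i|) / (-∑ i, a i * v i))
  obtain ⟨N2, hN2⟩ := exists_nat_gt ((∑ i, |b i|) / (∑ i, b i * v i))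
  have g1 : ∑ i, |a i| < (max N1 N2 : ℕ) * (-∑ i, a i * v i) := by
    rw [div_lt_iff₀ (by linarith)] at hN1
    refine hN1.trans_le (mul_le_mul_of_nonneg_right ?_ (by linarith))
    exact_mod_cast le_max_left _ _
  have g2 : ∑ i, |b i| < (max N1 N2 : ℕ) * (∑ i, b i * v i) := by
    rw [div_lt_iff₀ h2] at hN2
    refine hN2.trans_le (mul_le_mul_of_nonneg_right ?_ h2.le)
    exact_mod_cast le_max_right _ _
  refine ⟨fun i => ⌊((max N1 N2 : ℕ) : ℝ) * v i⌋, ?_, ?_⟩
  · have := (abs_le.1 (key a (max N1 N2))).2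
    linarith
  · have := (abs_le.1 (key b (max N1 N2))).1
    linarith

/-- An integer vector at which no one of finitely many functionals vanishes. -/
theorem exists_moment (J : Type w) [Finite J] (χ : J → Fin k → ℝ) (h : ∀ j, χ j ≠ 0) :
    ∃ w : Fin k → ℤ, ∀ j, ev (χ j) w ≠ 0 := by
  classical
  have hp : ∀ j, (∑ i, Polynomial.C (χ j i) * Polynomial.X ^ (i : ℕ)) ≠ 0 := by
    intro j hc
    apply h j
    funext i
    have := congrArg (fun p => Polynomial.coeff p (i : ℕ)) hc
    simp only [Polynomial.finsetSum_coeff, Polynomial.coeff_C_mul, Polynomial.coeff_X_pow,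
      Polynomial.coeff_zero] at this
    rw [Finset.sum_eq_single i] at this
    · simpa using this
    · intro b _ hb
      rw [if_neg, mul_zero]
      intro hbi
      exact hb (Fin.ext hbi.symm)
    · intro hi
      exact absurd (Finset.mem_univ i) hi
  have hev : ∀ᶠ x : ℝ in atTop, ∀ j,
      ¬ (∑ i, Polynomial.C (χ j i) * Polynomial.X ^ (i : ℕ)).IsRoot x :=
    eventually_all.2 fun j => Polynomial.eventually_atTop_not_isRoot _ (hp j)
  obtain ⟨n, hn⟩ := (tendsto_natCast_atTop_atTop.eventually hev).exists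
  refine ⟨fun i => (n : ℤ) ^ (i : ℕ), fun j hj => hn j ?_⟩
  rw [Polynomial.IsRoot.def, Polynomial.eval_finsetSum]
  rw [ev] at hj
  rw [← hj]
  refine Finset.sum_congr rfl fun i _ => ?_
  simp

end VREGVAux

theorem specRegv : SpecRegv.{w} := by
  intro k J _ χ a b hχ ha hb hab
  obtain ⟨v, hv1, hv2⟩ := VREGVAux.exists_real a b ha hb hab
  obtain ⟨m, hm1, hm2⟩ := VREGVAux.exists_int a b v hv1 hv2
  obtain ⟨w, hw⟩ := VREGVAux.exists_moment J χ hχ
  have hlin : ∀ (c : Fin k → ℝ) (M : ℕ),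
      ev c (fun i => (M : ℤ) * m i + w i) = M * ev c m + ev c w := by
    intro c M
    simp only [ev]
    rw [Finset.mul_sum, ← Finset.sum_add_distrib]
    refine Finset.sum_congr rfl fun i _ => ?_
    push_cast
    ring
  have hbig : ∀ s : ℝ, 0 < s → ∀ r : ℝ, ∀ᶠ M : ℕ in atTop, r < M * s := by
    intro s hs r
    filter_upwards [tendsto_natCast_atTop_atTop.eventually (eventually_gt_atTop (r / s))] with M hM
    rwa [div_lt_iff₀ hs] at hM
  have hreg : ∀ᶠ M : ℕ in atTop, ∀ j, M * ev (χ j) m + ev (χ j) w ≠ 0 := by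
    refine eventually_all.2 fun j => ?_
    rcases lt_trichotomy (ev (χ j) m) 0 with h0 | h0 | h0
    · filter_upwards [hbig (-ev (χ j) m) (by linarith) (ev (χ j) w)] with M hM
      intro hc
      linarith
    · filter_upwards with M
      rw [h0, mul_zero, zero_add]
      exact hw j
    · filter_upwards [hbig (ev (χ j) m) h0 (-ev (χ j) w)] with M hM
      intro hc
      linarith
  obtain ⟨M, hM1, hM2, hM3⟩ := (hreg.and ((hbig (-ev a m) (by linarith) (ev a w)).and
    (hbig (ev b m) hm2 (-ev b w)))).exists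
  refine ⟨fun i => (M : ℤ) * m i + w i, fun j => ?_, ?_, ?_⟩
  · rw [hlin]; exact hM1 j
  · rw [hlin]; linarith
  · rw [hlin]; linarith

end Pool.Agent.Lib.MP610fe3.HR
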