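import Pool.Agent.Lib.MP_610fe3_an.HR.VSpec
import Pool.Agent.Lib.MP_610fe3_an.HR.VDIM
import Pool.Agent.Lib.MP_610fe3_an.HR.VREGV

/-!
# Module DIMR: the rank and the dimensions of a pair of coarse bundles

Let `r ≥ 2` be the dimension of the span of the functionals. If `χ i` is a negative multiple of
`χ j`, then `r + dim E_i + dim E_j ≤ dim M`: otherwise the functionals of representatives of the
coarse classes, except `j`, are linearly independent, and there is a wall of `χ i` at which all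
other functionals are negative, which is excluded by volume (NOV).
-/

set_option autoImplicit false

open Set Filter Function Bundle
open scoped Topology Manifold ContDiff

namespace Pool.Agent.Lib.MP610fe3.HR

open Cf CH

universe u v w

/-- DIMR. -/
def SpecDimr : Prop :=
  ∀ (V : Type v) [NormedAddCommGroup V] [NormedSpace ℝ V] [FiniteDimensional ℝ V] (M : Type u)
    [TopologicalSpace M] [CompactSpace M] [T2Space M] [ConnectedSpace M]
    [ChartedSpace V M] [IsManifold 𝓘(ℝ, V) ∞ M]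
    [RiemannianBundle (fun x : M => TangentSpace 𝓘(ℝ, V) x)]
    [IsContinuousRiemannianBundle V (fun x : M => TangentSpace 𝓘(ℝ, V) x)]
    (k : ℕ) (A : (Fin k → ℤ) → M ≃ₘ^1⟮𝓘(ℝ, V), 𝓘(ℝ, V)⟯ M) (J : Type w) [Finite J]
    (χ : J → Fin k → ℝ) (F : J → ∀ x : M, Submodule ℝ (TangentSpace 𝓘(ℝ, V) x)),
    (∀ n n' x, A (n + n') x = A n (A n' x)) → (∀ n, ContMDiff 𝓘(ℝ, V) 𝓘(ℝ, V) 2 (A n)) →
    (∀ n, Regular χ n → Gen.IsAnosovSplitting (A n) (fun x => ⨆ (j) (_ : ev (χ j) n < 0), F j x)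
      (fun x => ⨆ (j) (_ : 0 < ev (χ j) n), F j x)) →
    (∀ j, χ j ≠ 0) → (∀ j x, F j x ≠ ⊥) → 2 ≤ Module.finrank ℝ (Submodule.span ℝ (range χ)) →
    ∀ (i j : J) (t : ℝ), 0 < t → χ i = -(t • χ j) → ∃ a b : ℕ,
      (∀ x, Module.finrank ℝ (co χ (fun m => F m x) i) = a) ∧
      (∀ x, Module.finrank ℝ (co χ (fun m => F m x) j) = b) ∧
      Module.finrank ℝ (Submodule.span ℝ (range χ)) + a + b ≤ Module.finrank ℝ V

namespace F3DIMRAux

/-- Linearly independent functionals take prescribed values. -/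
theorem exists_real {k : ℕ} {ι : Type*} [Fintype ι] (b : ι → Fin k → ℝ)
    (hb : LinearIndependent ℝ b) (c : ι → ℝ) :
    ∃ v : Fin k → ℝ, ∀ l, ∑ a, b l a * v a = c l := by
  classical
  let L : (Fin k → ℝ) →ₗ[ℝ] (ι → ℝ) :=
    { toFun := fun v l => ∑ a, b l a * v a
      map_add' := fun v w => by
        funext l
        simp only [Pi.add_apply, mul_add, Finset.sum_add_distrib]
      map_smul' := fun r v => by
        funext l
        simp only [Pi.smul_apply, smul_eq_mul, RingHom.id_apply, Finset.mul_sum]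
        exact Finset.sum_congr rfl fun a _ => by ring }
  have hL : ∀ v l, L v l = ∑ a, b l a * v a := fun v l => rfl
  by_contra hcon
  have hlt : LinearMap.range L < ⊤ := by
    rw [lt_top_iff_ne_top]
    intro h
    apply hcon
    have h1 : c ∈ LinearMap.range L := by rw [h]; trivial
    obtain ⟨v, hv⟩ := h1
    exact ⟨v, fun l => by rw [← hL, hv]⟩
  obtain ⟨f, hf, hle⟩ := Submodule.exists_le_ker_of_lt_top _ hlt
  have hf1 : ∀ w : ι → ℝ, f w = ∑ l, w l * f (Pi.single l 1) := by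
    intro w
    conv_lhs => rw [pi_eq_sum_univ' w]
    simp only [map_sum, map_smul, smul_eq_mul]
  have hrel : ∑ l, f (Pi.single l 1) • b l = 0 := by
    funext a
    have h1 : f (L (Pi.single a 1)) = 0 := hle ⟨_, rfl⟩
    rw [hf1] at h1
    simp only [hL, Finset.sum_apply, Pi.smul_apply, smul_eq_mul, Pi.zero_apply]
    rw [← h1]
    refine Finset.sum_congr rfl fun l _ => ?_
    have h2 : ∑ a', b l a' * (Pi.single a (1 : ℝ) : Fin k → ℝ) a' = b l a := by
      rw [Finset.sum_eq_single a]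
      · simp
      · intro a' _ h
        simp [Pi.single_eq_of_ne h]
      · intro h
        exact absurd (Finset.mem_univ _) h
    rw [hL, h2]
    ring
  have h0 := (Fintype.linearIndependent_iff.1 hb) _ hrel
  apply hf
  ext l
  simpa using h0 l

/-- Linearly independent functionals have prescribed signs at an integer vector. -/
theorem exists_int {k : ℕ} {ι : Type*} [Fintype ι] (b : ι → Fin k → ℝ)
    (hb : LinearIndependent ℝ b) (c : ι → ℝ) (hc : ∀ l, c l ≠ 0) :
    ∃ n : Fin k → ℤ, ∀ l, 0 < c l * ev (b l) n := by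
  obtain ⟨v, hv⟩ := exists_real b hb c
  have key : ∀ (l : ι) (N : ℕ),
      |ev (b l) (fun i => ⌊(N : ℝ) * v i⌋) - N * c l| ≤ ∑ i, |b l i| := by
    intro l N
    have e : ev (b l) (fun i => ⌊(N : ℝ) * v i⌋) - N * c l =
        ∑ i, b l i * ((⌊(N : ℝ) * v i⌋ : ℝ) - N * v i) := by
      rw [ev, ← hv l, Finset.mul_sum, ← Finset.sum_sub_distrib]
      exact Finset.sum_congr rfl fun i _ => by ring
    rw [e]
    refine (Finset.abs_sum_le_sum_abs _ _).trans (Finset.sum_le_sum fun i _ => ?_)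
    rw [abs_mul]
    have h3 : |(⌊(N : ℝ) * v i⌋ : ℝ) - N * v i| ≤ 1 := by
      rw [abs_le]
      constructor
      · have := Int.lt_floor_add_one ((N : ℝ) * v i); linarith
      · have := Int.floor_le ((N : ℝ) * v i); linarith
    calc |b l i| * |(⌊(N : ℝ) * v i⌋ : ℝ) - N * v i| ≤ |b l i| * 1 :=
          mul_le_mul_of_nonneg_left h3 (abs_nonneg _)
      _ = |b l i| := mul_one _
  have hev : ∀ l, ∀ᶠ N : ℕ in atTop, 0 < c l * ev (b l) (fun i => ⌊(N : ℝ) * v i⌋) := by
    intro l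
    have hcl : 0 < |c l| := abs_pos.2 (hc l)
    obtain ⟨N₀, hN₀⟩ := exists_nat_gt ((∑ i, |b l i|) / |c l|)
    rw [div_lt_iff₀ hcl] at hN₀
    filter_upwards [eventually_ge_atTop N₀] with N hN
    have hN' : (N₀ : ℝ) ≤ N := by exact_mod_cast hN
    have h1 : ∑ i, |b l i| < N * |c l| := hN₀.trans_le (mul_le_mul_of_nonneg_right hN' hcl.le)
    have h2 := key l N
    have h3 : c l * ev (b l) (fun i => ⌊(N : ℝ) * v i⌋) =
        N * (c l * c l) + c l * (ev (b l) (fun i => ⌊(N : ℝ) * v i⌋) - N * c l) := by ring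
    have h4 : |c l * (ev (b l) (fun i => ⌊(N : ℝ) * v i⌋) - N * c l)| ≤
        |c l| * ∑ i, |b l i| := by
      rw [abs_mul]
      exact mul_le_mul_of_nonneg_left h2 (abs_nonneg _)
    have h5 := (abs_le.1 h4).1
    have h6 : |c l| * ∑ i, |b l i| < |c l| * (N * |c l|) := mul_lt_mul_of_pos_left h1 hcl
    have h7 : |c l| * (N * |c l|) = N * (c l * c l) := by
      rw [← abs_mul_abs_self (c l)]
      ring
    rw [h3]
    linarith
  have hall : ∀ᶠ N : ℕ in atTop, ∀ l, 0 < c l * ev (b l) (fun i => ⌊(N : ℝ) * v i⌋) :=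
    eventually_all.2 hev
  obtain ⟨N, hN⟩ := hall.exists
  exact ⟨_, hN⟩

/-- Representatives of the coarse classes. -/
theorem exists_rep {k : ℕ} {J : Type*} [Finite J] (χ : J → Fin k → ℝ) (i j : J)
    (h1 : ¬ ∃ c : ℝ, 0 < c ∧ χ j = c • χ i) (h2 : ¬ ∃ c : ℝ, 0 < c ∧ χ i = c • χ j) :
    ∃ s : Finset J, i ∈ s ∧ j ∈ s ∧
      (∀ p ∈ s, ∀ q ∈ s, p ≠ q → ¬ ∃ c : ℝ, 0 < c ∧ χ q = c • χ p) ∧
      ∀ m, ∃ l ∈ s, ∃ c : ℝ, 0 < c ∧ χ m = c • χ l := by
  classical
  have := Fintype.ofFinite J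
  let P : Finset J → Prop := fun s => i ∈ s ∧ j ∈ s ∧
    ∀ p ∈ s, ∀ q ∈ s, p ≠ q → ¬ ∃ c : ℝ, 0 < c ∧ χ q = c • χ p
  have hP : P {i, j} := by
    refine ⟨by simp, by simp, fun p hp q hq hpq => ?_⟩
    simp only [Finset.mem_insert, Finset.mem_singleton] at hp hq
    rcases hp with rfl | rfl <;> rcases hq with rfl | rfl
    · exact absurd rfl hpq
    · exact h1
    · exact h2
    · exact absurd rfl hpq
  obtain ⟨s, hs, hmax⟩ := (Finset.univ.filter P : Finset (Finset J)).exists_max_image Finset.card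
    ⟨{i, j}, by simpa using hP⟩
  rw [Finset.mem_filter] at hs
  obtain ⟨-, hi, hj, hs⟩ := hs
  refine ⟨s, hi, hj, hs, fun m => ?_⟩
  by_contra hm
  push Not at hm
  have hms : m ∉ s := fun h => hm m h 1 one_pos (one_smul ℝ _).symm
  have hP' : P (insert m s) := by
    refine ⟨Finset.mem_insert_of_mem hi, Finset.mem_insert_of_mem hj, fun p hp q hq hpq => ?_⟩
    rcases Finset.mem_insert.1 hp with hp' | hp' <;> rcases Finset.mem_insert.1 hq with hq' | hq'
    · exact absurd (hp'.trans hq'.symm) hpq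
    · intro h
      obtain ⟨c, hc, h⟩ := VDIMAux.rel_symm h
      rw [hp'] at h
      exact hm q hq' c hc h
    · rintro ⟨c, hc, h⟩
      rw [hq'] at h
      exact hm p hp' c hc h
    · exact hs p hp' q hq' hpq
  have h3 := hmax (insert m s) (by simpa using hP')
  rw [Finset.card_insert_of_notMem hms] at h3
  omega

end F3DIMRAux

open F3DIMRAux VDIMAux

/-- **DIMR.** -/
theorem specDimr (hInd : SpecInd.{v, w}) (hCrk : SpecCrk.{u, 0, w})
    (hNov : SpecNov.{u, 0, w}) (hLow : SpecLow.{u, v}) (hAct : SpecAct.{u, v, w}) :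
    SpecDimr.{u, v, w} := by
  intro V _ _ _ M _ _ _ _ _ _ _ _ k A J _ χ F hadd hC2 hA hχ hF hr i j t ht hij
  obtain ⟨x₀⟩ : Nonempty M := inferInstance
  classical
  have hfd : ∀ x : M, FiniteDimensional ℝ (TangentSpace 𝓘(ℝ, V) x) := fun x =>
    inferInstanceAs (FiniteDimensional ℝ V)
  obtain ⟨N, e, he, hemb, hinj⟩ := exists_embedding_euclidean_of_compact (I := 𝓘(ℝ, V)) (M := M)
  let _ : MetricSpace M := hemb.isEmbedding.comapMetricSpace e
  have hiso : Isometry e := hemb.isEmbedding.to_isometry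
  obtain ⟨E, F', hAct', hrank⟩ := hAct V N M e hiso he hinj k J A χ F hadd hC2 hA
  obtain ⟨a, ha⟩ := hCrk M (EuclideanSpace ℝ (Fin N)) E k J (fun n => (A n).toHomeomorph) χ F'
    hAct' hχ i
  obtain ⟨b, hb⟩ := hCrk M (EuclideanSpace ℝ (Fin N)) E k J (fun n => (A n).toHomeomorph) χ F'
    hAct' hχ j
  have ha' : ∀ x, Module.finrank ℝ (co χ (fun m => F m x) i) = a := fun x => by
    rw [← ha x, hrank]; rfl
  have hb' : ∀ x, Module.finrank ℝ (co χ (fun m => F m x) j) = b := fun x => by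
    rw [← hb x, hrank]; rfl
  refine ⟨a, b, ha', hb', ?_⟩
  by_contra hcon
  rw [not_le] at hcon
  have h1 : ∀ m x, 1 ≤ Module.finrank ℝ (co χ (fun m => F m x) m) := fun m x =>
    one_le_co χ (fun m => F m x) m (hF m x)
  have hi0 := hχ i
  -- the relations
  have hji : χ j = -(t⁻¹ • χ i) := by
    rw [hij, smul_neg, smul_smul, inv_mul_cancel₀ ht.ne', one_smul, neg_neg]
  have n_ij : ¬ ∃ c : ℝ, 0 < c ∧ χ j = c • χ i := by
    rintro ⟨c, hc, h⟩
    rw [hji, ← neg_smul] at h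
    have h2 : (-t⁻¹ - c) • χ i = 0 := by rw [sub_smul, h, sub_self]
    rcases smul_eq_zero.1 h2 with h3 | h3
    · have := inv_pos.2 ht
      linarith
    · exact hi0 h3
  have hne : i ≠ j := by
    rintro rfl
    exact n_ij ⟨1, one_pos, (one_smul ℝ _).symm⟩
  obtain ⟨s, hi, hj, hs, hrep⟩ := exists_rep χ i j n_ij fun h => n_ij (rel_symm h)
  -- the dimensions
  have h2 : a + b + (s.card - 2) ≤ Module.finrank ℝ V := by
    have h3 := hInd k J (TangentSpace 𝓘(ℝ, V) x₀) χ (fun m => F m x₀) hχ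
      (fun n hn => (hA n hn).isCompl x₀) s hs
    have h4 : ∑ m ∈ s, Module.finrank ℝ (co χ (fun m => F m x₀) m) =
        a + (b + ∑ m ∈ (s.erase i).erase j, Module.finrank ℝ (co χ (fun m => F m x₀) m)) := by
      rw [← Finset.add_sum_erase s _ hi, ← Finset.add_sum_erase (s.erase i) _
        (Finset.mem_erase.2 ⟨hne.symm, hj⟩), ha', hb']
    have h5 : ((s.erase i).erase j).card = s.card - 2 := by
      rw [Finset.card_erase_of_mem (Finset.mem_erase.2 ⟨hne.symm, hj⟩),
        Finset.card_erase_of_mem hi]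
      omega
    have h6 : ((s.erase i).erase j).card ≤
        ∑ m ∈ (s.erase i).erase j, Module.finrank ℝ (co χ (fun m => F m x₀) m) := by
      have := Finset.card_nsmul_le_sum ((s.erase i).erase j)
        (fun m => Module.finrank ℝ (co χ (fun m => F m x₀) m)) 1 fun m _ => h1 m x₀
      simpa using this
    have h7 : ∑ m ∈ s, Module.finrank ℝ (co χ (fun m => F m x₀) m) ≤ Module.finrank ℝ V := h3
    omega
  -- the span
  let ι : Type _ := {l // l ∈ s.erase j}
  let β : ι → Fin k → ℝ := fun l => χ l.1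
  have hcard : Fintype.card ι = s.card - 1 := by
    rw [Fintype.card_coe, Finset.card_erase_of_mem hj]
  have hspan : Submodule.span ℝ (range χ) ≤ Submodule.span ℝ (range β) := by
    rw [Submodule.span_le]
    rintro _ ⟨m, rfl⟩
    obtain ⟨l, hl, c, hc, h⟩ := hrep m
    rw [SetLike.mem_coe, h]
    refine Submodule.smul_mem _ _ ?_
    by_cases hlj : l = j
    · rw [hlj, hji]
      refine Submodule.neg_mem _ (Submodule.smul_mem _ _ (Submodule.subset_span ?_))
      exact ⟨⟨i, Finset.mem_erase.2 ⟨hne, hi⟩⟩, rfl⟩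
    · exact Submodule.subset_span ⟨⟨l, Finset.mem_erase.2 ⟨hlj, hl⟩⟩, rfl⟩
  have hr1 : Module.finrank ℝ (Submodule.span ℝ (range χ)) ≤
      Module.finrank ℝ (Submodule.span ℝ (range β)) := Submodule.finrank_mono hspan
  have hr2 : Module.finrank ℝ (Submodule.span ℝ (range β)) ≤ Fintype.card ι :=
    finrank_range_le_card β
  have hli : LinearIndependent ℝ β := by
    rw [linearIndependent_iff_card_eq_finrank_span]
    refine le_antisymm ?_ hr2
    change _ ≤ Module.finrank ℝ (Submodule.span ℝ (range β))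
    omega
  -- the two elements
  obtain ⟨n, hn⟩ := exists_int β hli (fun _ => -1) (fun _ => by norm_num)
  obtain ⟨n', hn'⟩ := exists_int β hli (fun l => if l.1 = i then 1 else -1)
    (fun l => by split_ifs <;> norm_num)
  have e1 : ev (χ i) n < 0 := by
    have := hn ⟨i, Finset.mem_erase.2 ⟨hne, hi⟩⟩
    change 0 < -1 * ev (χ i) n at this
    linarith
  have e2 : 0 < ev (χ i) n' := by
    have := hn' ⟨i, Finset.mem_erase.2 ⟨hne, hi⟩⟩
    simp only [if_true, one_mul] at this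
    exact this
  have hdich : ∀ m, (∃ c : ℝ, χ m = c • χ i) ∨ (ev (χ m) n < 0 ∧ ev (χ m) n' < 0) := by
    intro m
    obtain ⟨l, hl, c, hc, h⟩ := hrep m
    by_cases hli' : l = i
    · exact Or.inl ⟨c, by rw [h, hli']⟩
    by_cases hlj : l = j
    · refine Or.inl ⟨-(c * t⁻¹), ?_⟩
      rw [h, hlj, hji, smul_neg, smul_smul, neg_smul]
    right
    have h3 := hn ⟨l, Finset.mem_erase.2 ⟨hlj, hl⟩⟩
    have h4 := hn' ⟨l, Finset.mem_erase.2 ⟨hlj, hl⟩⟩
    simp only [if_neg hli'] at h4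
    change 0 < -1 * ev (χ l) n at h3
    change 0 < -1 * ev (χ l) n' at h4
    rw [h, ev_smul_left, ev_smul_left]
    exact ⟨mul_neg_of_pos_of_neg hc (by linarith), mul_neg_of_pos_of_neg hc (by linarith)⟩
  have hsign : ∀ m, (∃ c : ℝ, χ m = c • χ i) →
      (ev (χ m) n < 0 ∧ 0 < ev (χ m) n') ∨ (0 < ev (χ m) n ∧ ev (χ m) n' < 0) := by
    rintro m ⟨c, h⟩
    have hc0 : c ≠ 0 := by
      rintro rfl
      exact hχ m (by rw [h, zero_smul])
    rw [h, ev_smul_left, ev_smul_left]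
    rcases lt_or_gt_of_ne hc0 with h5 | h5
    · exact Or.inr ⟨mul_pos_of_neg_of_neg h5 e1, mul_neg_of_neg_of_pos h5 e2⟩
    · exact Or.inl ⟨mul_neg_of_pos_of_neg h5 e1, mul_pos h5 e2⟩
  have hreg : Regular χ n := fun m => by
    rcases hdich m with h | h
    · rcases hsign m h with h | h
      · exact h.1.ne
      · exact h.1.ne'
    · exact h.1.ne
  have hreg' : Regular χ n' := fun m => by
    rcases hdich m with h | h
    · rcases hsign m h with h | h
      · exact h.2.ne'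
      · exact h.2.ne
    · exact h.2.ne
  have hW : Wal χ n n' i j := by
    refine ⟨hreg, hreg', ⟨t⁻¹, inv_pos.2 ht, hji⟩, e1, e2, fun m hm => ?_⟩
    rcases hdich m with h | h
    · exact h
    · exact absurd (iff_of_true h.1 h.2) hm
  obtain ⟨D, hD⟩ : ∃ D, Module.finrank ℝ V = D + 1 := ⟨Module.finrank ℝ V - 1, by omega⟩
  refine hNov M (EuclideanSpace ℝ (Fin N)) E k J (fun n => (A n).toHomeomorph) χ F' D hAct' ?_
    n n' i j hW (fun m => ?_) fun x => by rw [ha, hb]; omega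
  · have h4 := hLow V N M e hiso he hinj
    rwa [hD] at h4
  · rcases hdich m with h | h
    · rcases hsign m h with h | h
      · exact Or.inl h.1
      · exact Or.inr h.2
    · exact Or.inl h.1

/-- If the rank is at least two and at least `dim M - 3`, every pair contains a line bundle. -/
theorem line_of_rank (h : SpecDimr.{u, v, w}) {V : Type v} [NormedAddCommGroup V]
    [NormedSpace ℝ V] [FiniteDimensional ℝ V] {M : Type u}
    [TopologicalSpace M] [CompactSpace M] [T2Space M] [ConnectedSpace M]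
    [ChartedSpace V M] [IsManifold 𝓘(ℝ, V) ∞ M]
    [RiemannianBundle (fun x : M => TangentSpace 𝓘(ℝ, V) x)]
    [IsContinuousRiemannianBundle V (fun x : M => TangentSpace 𝓘(ℝ, V) x)]
    {k : ℕ} (A : (Fin k → ℤ) → M ≃ₘ^1⟮𝓘(ℝ, V), 𝓘(ℝ, V)⟯ M) {J : Type w} [Finite J]
    (χ : J → Fin k → ℝ) (F : J → ∀ x : M, Submodule ℝ (TangentSpace 𝓘(ℝ, V) x))
    (hadd : ∀ n n' x, A (n + n') x = A n (A n' x))
    (hC2 : ∀ n, ContMDiff 𝓘(ℝ, V) 𝓘(ℝ, V) 2 (A n))
    (hA : ∀ n, Regular χ n → Gen.IsAnosovSplitting (A n)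
      (fun x => ⨆ (j) (_ : ev (χ j) n < 0), F j x) (fun x => ⨆ (j) (_ : 0 < ev (χ j) n), F j x))
    (hχ : ∀ j, χ j ≠ 0) (hF : ∀ j x, F j x ≠ ⊥)
    (hr : 2 ≤ Module.finrank ℝ (Submodule.span ℝ (range χ)))
    (hd : Module.finrank ℝ V ≤ Module.finrank ℝ (Submodule.span ℝ (range χ)) + 3)
    (i j : J) (t : ℝ) (ht : 0 < t) (hij : χ i = -(t • χ j)) :
    (∀ x, Module.finrank ℝ (co χ (fun a => F a x) i) = 1) ∨
      (∀ x, Module.finrank ℝ (co χ (fun a => F a x) j) = 1) := by
  obtain ⟨x₀⟩ : Nonempty M := inferInstance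
  have hfd : ∀ x : M, FiniteDimensional ℝ (TangentSpace 𝓘(ℝ, V) x) := fun x =>
    inferInstanceAs (FiniteDimensional ℝ V)
  obtain ⟨a, b, ha, hb, hab⟩ := h V M k A J χ F hadd hC2 hA hχ hF hr i j t ht hij
  have h1 := one_le_co χ (fun m => F m x₀) i (hF i x₀)
  have h2 := one_le_co χ (fun m => F m x₀) j (hF j x₀)
  rw [ha] at h1
  rw [hb] at h2
  by_cases h3 : a = 1
  · exact Or.inl fun x => (ha x).trans h3
  · exact Or.inr fun x => (hb x).trans (by omega)

end Pool.Agent.Lib.MP610fe3.HR
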