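import Pool.Agent.Lib.MP_610fe3_an.HR.F3Spec
import Pool.Agent.Lib.MP_610fe3_an.HR.F1CRT
import Pool.Agent.Lib.MP_610fe3_an.HR.DBL

/-!
# Module EXPX: growth of the leaves `X` in the past, from the derivatives
-/

set_option autoImplicit false

open Set Filter Function
open scoped Topology

namespace Pool.Agent.Lib.MP610fe3.HR

open Cf CH Cf.Len2

universe u v

namespace F3EXPXAux

variable {M : Type*} [MetricSpace M]

theorem fwd_bwd (f : M ≃ₜ M) (k : ℕ) (y : M) : f^[k] (f.symm^[k] y) = y :=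
  Function.LeftInverse.iterate (show LeftInverse f f.symm from f.apply_symm_apply) k y

theorem mem_wl {f : M ≃ₜ M} {e : ℝ} {x z : M} (hz : z ∈ Wl f e x) (j : ℕ)
    (h : ∀ i ≤ j, dist (f.symm^[i] z) (f.symm^[i] x) ≤ e) :
    f.symm^[j] z ∈ Wl f e (f.symm^[j] x) := by
  intro k
  rcases le_total k j with hk | hk
  · obtain ⟨i, rfl⟩ : ∃ i, j = k + i := ⟨j - k, by omega⟩
    rw [iterate_add_apply, iterate_add_apply, fwd_bwd, fwd_bwd]
    exact h i (by omega)
  · obtain ⟨i, rfl⟩ : ∃ i, k = i + j := ⟨k - j, by omega⟩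
    rw [iterate_add_apply, iterate_add_apply, fwd_bwd, fwd_bwd]
    exact hz i

end F3EXPXAux

open F3EXPXAux F1CRTAux in
/-- **EXPX.** -/
theorem specExpx : SpecExpx.{u, v} := by
  intro M W _ _ _ _ _ E f g s t C b b₁ hs ht hfg hb hbb H ε' hε'
  have hfg' : ∀ x, f (g.symm x) = g.symm (f x) := by
    intro x
    apply g.injective
    rw [← hfg, g.apply_symm_apply, g.apply_symm_apply]
  obtain ⟨ε₀, C₀, l₀, hP⟩ := specPair M W E f g.symm s t.swap hs ht.swap hfg'
  obtain ⟨-, -, -, -, -, -, hinv, -⟩ := specDbl M f g.symm hfg'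
  set θ : ℝ := Real.exp b with hθ
  set Q : ℝ := Real.exp b₁ with hQdef
  have hθ0 : 0 < θ := Real.exp_pos _
  have hQ : 0 < Q := Real.exp_pos _
  have hθQ : θ < Q := Real.exp_lt_exp.2 hbb
  have hQ1 : 1 ≤ Q := Real.one_le_exp (hb.trans hbb.le)
  have hexpθ : ∀ m : ℕ, Real.exp (b * m) = θ ^ m := fun m => by
    rw [mul_comm, Real.exp_nat_mul]
  have hexpQ : ∀ m : ℕ, Real.exp (b₁ * m) = Q ^ m := fun m => by
    rw [mul_comm, Real.exp_nat_mul]
  have hcomm : ∀ x w, s.S x (t.swap.S x w) = t.swap.S x (s.S x w) := fun x w =>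
    congrArg (fun L => L w) (SS_commute s t.swap hs ht.swap hfg' x)
  have hPP : ∀ x w, PP s t.swap x (PP s t.swap x w) = PP s t.swap x w := by
    intro x w
    change s.S x (t.swap.S x (s.S x (t.swap.S x w))) = s.S x (t.swap.S x w)
    rw [← hcomm x (t.swap.S x w)]
    have h1 : t.swap.S x (t.swap.S x w) = t.swap.S x w := congrArg (fun L => L w) (t.swap.SS x)
    have h2 : s.S x (s.S x (t.swap.S x w)) = s.S x (t.swap.S x w) :=
      congrArg (fun L => L (t.swap.S x w)) (s.SS x)
    rw [h1, h2]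
  obtain ⟨K, hK1, hK⟩ := s.exists_bdd
  obtain ⟨K', hK1', hK'⟩ := t.swap.exists_bdd
  have hK0 : 0 < K := by linarith
  have hK0' : 0 < K' := by linarith
  have hPPn : ∀ x w, ‖PP s t.swap x w‖ ≤ K * K' * ‖w‖ := by
    intro x w
    calc ‖PP s t.swap x w‖ ≤ ‖s.S x‖ * ‖t.swap.S x w‖ := (s.S x).le_opNorm _
      _ ≤ K * (K' * ‖w‖) := by
          refine mul_le_mul (hK x).1 ?_ (norm_nonneg _) hK0.le
          exact ((t.swap.S x).le_opNorm _).trans
            (mul_le_mul_of_nonneg_right (hK' x).1 (norm_nonneg _))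
      _ = K * K' * ‖w‖ := by ring
  set C' : ℝ := |C| * (K * K') with hC'
  have hC'0 : 0 ≤ C' := by positivity
  have H' : ∀ (m : ℕ) x w, ‖iterD s.Di f.symm m x (PP s t.swap x w)‖ ≤ C' * θ ^ m * ‖w‖ := by
    intro m x w
    have h0 := H m x _ (hPP x w)
    rw [hexpθ] at h0
    refine h0.trans ?_
    have h1 := hPPn x w
    have h2 : C * θ ^ m ≤ |C| * θ ^ m := mul_le_mul_of_nonneg_right (le_abs_self C) (by positivity)
    calc C * θ ^ m * ‖PP s t.swap x w‖ ≤ |C| * θ ^ m * ‖PP s t.swap x w‖ :=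
          mul_le_mul_of_nonneg_right h2 (norm_nonneg _)
      _ ≤ |C| * θ ^ m * (K * K' * ‖w‖) := mul_le_mul_of_nonneg_left h1 (by positivity)
      _ = C' * θ ^ m * ‖w‖ := by rw [hC']; ring
  -- the time step
  obtain ⟨N, hN1, hNpos⟩ : ∃ N : ℕ, C' * (θ / Q) ^ N < 1 / 2 ∧ 1 ≤ N := by
    have h := (tendsto_pow_atTop_nhds_zero_of_lt_one (r := θ / Q) (by positivity)
      ((div_lt_one hQ).2 hθQ)).const_mul C'
    rw [mul_zero] at h
    exact ((h.eventually (gt_mem_nhds (show (0 : ℝ) < 1 / 2 by norm_num))).and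
      (eventually_ge_atTop 1)).exists
  have hQN : 0 < Q ^ N := by positivity
  have hN : C' * θ ^ N ≤ Q ^ N / 2 := by
    have h1 : C' * θ ^ N = C' * (θ / Q) ^ N * Q ^ N := by
      rw [div_pow]
      field_simp
    rw [h1]
    nlinarith
  obtain ⟨B, hB⟩ : ∃ B : ℝ, 0 < B ∧ ∀ x, ‖iterD s.Di f.symm N x‖ ≤ B := by
    have hc : Continuous fun x => ‖iterD s.Di f.symm N x‖ :=
      (continuous_iterD s.hDi.cont f.symm.continuous N).norm
    obtain ⟨B, hB⟩ := (isCompact_range hc).bddAbove
    exact ⟨max B 1, by positivity, fun x => (hB ⟨x, rfl⟩).trans (le_max_left _ _)⟩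
  obtain ⟨hB0, hB⟩ := hB
  obtain ⟨r, hr, happ⟩ := hasD_iter_approx s.swap N (Q ^ N / 4) (by positivity)
  obtain ⟨ε₂, hε₂, hcone⟩ := cone2 s t.swap hs ht.swap (η := Q ^ N / 4 / B) (by positivity)
  obtain ⟨L, r', hL1, hr', hlip⟩ := s.hDi.exists_lip
  set ε : ℝ := min (min (r / 2) (r' / 2)) ε₂ with hε
  have hε0 : 0 < ε := by positivity
  have hεr : ε < r := lt_of_le_of_lt ((min_le_left _ _).trans (min_le_left _ _)) (by linarith)
  have hεr' : ε < r' := lt_of_le_of_lt ((min_le_left _ _).trans (min_le_right _ _)) (by linarith)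
  have hstep : ∀ x, ∀ z ∈ Wl f ε x, z ∈ Wl g.symm ε x →
      dist (f.symm^[N] z) (f.symm^[N] x) ≤ Q ^ N * dist z x := by
    intro x z hz hz'
    have h1 : ‖E.e (f.symm^[N] z) - E.e (f.symm^[N] x) - iterD s.Di f.symm N x (E.e z - E.e x)‖ ≤
        Q ^ N / 4 * dist z x := happ x z ((hz 0).trans_lt hεr)
    have h2 := hcone x z (Wl_mono (min_le_right _ _) hz) (Wl_mono (min_le_right _ _) hz')
    have h3 := H' N x (E.e z - E.e x)
    have h4 : iterD s.Di f.symm N x (E.e z - E.e x) =
        iterD s.Di f.symm N x (PP s t.swap x (E.e z - E.e x)) +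
        iterD s.Di f.symm N x (E.e z - E.e x - PP s t.swap x (E.e z - E.e x)) := by
      rw [← map_add]
      congr 1
      abel
    have h5 : ‖iterD s.Di f.symm N x (E.e z - E.e x - PP s t.swap x (E.e z - E.e x))‖ ≤
        Q ^ N / 4 * dist z x := by
      refine ((iterD s.Di f.symm N x).le_opNorm _).trans ?_
      calc ‖iterD s.Di f.symm N x‖ * ‖E.e z - E.e x - PP s t.swap x (E.e z - E.e x)‖
          ≤ B * (Q ^ N / 4 / B * dist z x) := by
            have := hB x
            gcongr
        _ = Q ^ N / 4 * dist z x := by field_simp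
    have h6 : ‖E.e z - E.e x‖ = dist z x := (E.dist_eq z x).symm
    rw [h6] at h3
    have h7 : ‖iterD s.Di f.symm N x (E.e z - E.e x)‖ ≤
        Q ^ N / 2 * dist z x + Q ^ N / 4 * dist z x := by
      rw [h4]
      refine (norm_add_le _ _).trans (add_le_add ?_ h5)
      exact h3.trans (mul_le_mul_of_nonneg_right hN dist_nonneg)
    rw [E.dist_eq (f.symm^[N] z) (f.symm^[N] x)]
    have h8 : E.e (f.symm^[N] z) - E.e (f.symm^[N] x) =
        (E.e (f.symm^[N] z) - E.e (f.symm^[N] x) - iterD s.Di f.symm N x (E.e z - E.e x)) +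
        iterD s.Di f.symm N x (E.e z - E.e x) := by abel
    rw [h8]
    refine (norm_add_le _ _).trans ?_
    linarith
  obtain ⟨δ, hδ, hprod⟩ := (specProd M f g.symm ε₀ C₀ l₀ hP).2.2.1 ε hε0
  set e : ℝ := min (min ε δ) ε' with he
  have he0 : 0 < e := by positivity
  have heε : e ≤ ε := (min_le_left _ _).trans (min_le_left _ _)
  have heδ : e ≤ δ := (min_le_left _ _).trans (min_le_right _ _)
  have heε' : e ≤ ε' := min_le_right _ _
  refine ⟨e, L ^ N, he0, one_le_pow₀ hL1, fun m x z hz hm => ?_⟩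
  rw [hexpQ] at hm
  rw [hexpQ]
  have hdbl : ∀ j : ℕ, Dbl f g.symm (f.symm^[j] x) (f.symm^[j] z) := by
    intro j
    induction j with
    | zero => exact hz.2
    | succ j ih =>
      rw [iterate_succ_apply', iterate_succ_apply']
      exact (hinv f.symm (fun y => by rw [f.apply_symm_apply, f.symm_apply_apply])
        (fun y => (comm_symm hfg' y).symm.symm) _ _).2 ih
  have hL0 : 0 < L := by linarith
  have hmono : ∀ i ≤ m, L ^ N * Q ^ i * dist z x ≤ e := by
    intro i hi
    refine le_trans ?_ hm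
    have : Q ^ i ≤ Q ^ m := pow_le_pow_right₀ hQ1 hi
    have h0 : 0 ≤ dist z x := dist_nonneg
    gcongr
  have key : ∀ j ≤ m, dist (f.symm^[j] z) (f.symm^[j] x) ≤ L ^ N * Q ^ j * dist z x := by
    intro j
    induction j using Nat.strong_induction_on with
    | _ j ih =>
      intro hj
      have hsmall : ∀ i < j, dist (f.symm^[i] z) (f.symm^[i] x) ≤ e := fun i hi =>
        (ih i hi (by omega)).trans (hmono i (by omega))
      have hwl : ∀ i < j, f.symm^[i] z ∈ Wl f e (f.symm^[i] x) := fun i hi =>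
        mem_wl hz.1 i (fun i' hi' => hsmall i' (by omega))
      have hst : ∀ i < j, dist (f.symm^[N + i] z) (f.symm^[N + i] x) ≤
          Q ^ N * dist (f.symm^[i] z) (f.symm^[i] x) := by
        intro i hi
        rw [iterate_add_apply, iterate_add_apply]
        exact hstep _ _ (Wl_mono heε (hwl i hi))
          (hprod _ _ (hdbl i) (Wl_mono heδ (hwl i hi)))
      have hl : ∀ i < j, dist (f.symm^[i + 1] z) (f.symm^[i + 1] x) ≤
          L * dist (f.symm^[i] z) (f.symm^[i] x) := by
        intro i hi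
        rw [iterate_succ_apply', iterate_succ_apply']
        exact hlip _ _ ((hsmall i hi).trans_lt (heε.trans_lt hεr'))
      have hq : ∀ q' : ℕ, N * q' ≤ j → dist (f.symm^[N * q'] z) (f.symm^[N * q'] x) ≤
          Q ^ (N * q') * dist z x := by
        intro q'
        induction q' with
        | zero => intro _; simp
        | succ q' ihq =>
          intro hq'
          have h1 : N * (q' + 1) = N + N * q' := by ring
          rw [h1] at hq' ⊢
          calc dist (f.symm^[N + N * q'] z) (f.symm^[N + N * q'] x)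
              ≤ Q ^ N * dist (f.symm^[N * q'] z) (f.symm^[N * q'] x) := hst _ (by omega)
            _ ≤ Q ^ N * (Q ^ (N * q') * dist z x) :=
                mul_le_mul_of_nonneg_left (ihq (by omega)) hQN.le
            _ = Q ^ (N + N * q') * dist z x := by rw [pow_add]; ring
      have hi : ∀ i : ℕ, N * (j / N) + i ≤ j →
          dist (f.symm^[N * (j / N) + i] z) (f.symm^[N * (j / N) + i] x) ≤
          L ^ i * dist (f.symm^[N * (j / N)] z) (f.symm^[N * (j / N)] x) := by
        intro i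
        induction i with
        | zero => intro _; simp
        | succ i ihi =>
          intro hi'
          have h5 : N * (j / N) + i < j := by omega
          calc dist (f.symm^[N * (j / N) + (i + 1)] z) (f.symm^[N * (j / N) + (i + 1)] x)
              ≤ L * dist (f.symm^[N * (j / N) + i] z) (f.symm^[N * (j / N) + i] x) :=
                hl (N * (j / N) + i) h5
            _ ≤ L * (L ^ i * dist (f.symm^[N * (j / N)] z) (f.symm^[N * (j / N)] x)) :=
                mul_le_mul_of_nonneg_left (ihi (by omega)) hL0.le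
            _ = L ^ (i + 1) * dist (f.symm^[N * (j / N)] z) (f.symm^[N * (j / N)] x) := by
                rw [pow_succ]; ring
      have hkq : N * (j / N) + j % N = j := Nat.div_add_mod j N
      have hjN : j % N < N := Nat.mod_lt _ hNpos
      have h1 := hi (j % N) hkq.le
      rw [hkq] at h1
      have h2 := hq (j / N) (by omega)
      have h3 : L ^ (j % N) ≤ L ^ N := pow_le_pow_right₀ hL1 hjN.le
      have h4 : Q ^ (N * (j / N)) ≤ Q ^ j := pow_le_pow_right₀ hQ1 (by omega)
      have h0 : 0 ≤ dist z x := dist_nonneg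
      calc dist (f.symm^[j] z) (f.symm^[j] x)
          ≤ L ^ (j % N) * dist (f.symm^[N * (j / N)] z) (f.symm^[N * (j / N)] x) := h1
        _ ≤ L ^ N * (Q ^ j * dist z x) := by
            refine mul_le_mul h3 (h2.trans ?_) dist_nonneg (by positivity)
            gcongr
        _ = L ^ N * Q ^ j * dist z x := by ring
  refine ⟨Wl_mono heε' (mem_wl hz.1 m fun i hi => (key i hi).trans (hmono i hi)), key m le_rfl⟩

end Pool.Agent.Lib.MP610fe3.HR
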