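import Pool.Agent.Lib.MP_610fe3_an.HR.F3RSpec
import Pool.Agent.Lib.MP_610fe3_an.HR.F3DIMR

/-!
# Module MAINR: the theorem on the manifold, rates at one regular element
-/

set_option autoImplicit false

open Set Filter Function Bundle
open scoped Topology Manifold ContDiff

namespace Pool.Agent.Lib.MP610fe3.HR

open Cf CH

universe u v w

/-- **The theorem on the manifold.** -/
theorem main_r (hChain : SpecChr.{u, 0, w}) (hAct : SpecActr.{u, v, w}) (hDim : SpecDimr.{u, v, w})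
    {V : Type v} [NormedAddCommGroup V] [NormedSpace ℝ V] [FiniteDimensional ℝ V]
    {M : Type u} [TopologicalSpace M] [CompactSpace M] [T2Space M] [ConnectedSpace M]
    [ChartedSpace V M] [IsManifold 𝓘(ℝ, V) ∞ M]
    [RiemannianBundle (fun x : M => TangentSpace 𝓘(ℝ, V) x)]
    [IsContinuousRiemannianBundle V (fun x : M => TangentSpace 𝓘(ℝ, V) x)]
    {k : ℕ} (A : (Fin k → ℤ) → M ≃ₘ^1⟮𝓘(ℝ, V), 𝓘(ℝ, V)⟯ M)
    (hadd : ∀ n n' x, A (n + n') x = A n (A n' x)) {J : Type w} [Finite J] (χ : J → Fin k → ℝ)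
    (F : J → ∀ x : M, Submodule ℝ (TangentSpace 𝓘(ℝ, V) x))
    (hA : ∀ n : Fin k → ℤ, (∀ j, ∑ i, χ j i * (n i : ℝ) ≠ 0) → Gen.IsAnosovSplitting (A n)
      (fun x => ⨆ (j) (_ : ∑ i, χ j i * (n i : ℝ) < 0), F j x)
      (fun x => ⨆ (j) (_ : 0 < ∑ i, χ j i * (n i : ℝ)), F j x))
    (hpair : ∀ i j, ∀ t : ℝ, 0 < t → χ i = -(t • χ j) →
      ((∀ n, ContMDiff 𝓘(ℝ, V) 𝓘(ℝ, V) 2 (A n)) ∧
      ((∀ x, Module.finrank ℝ (⨆ (l) (_ : ∃ c : ℝ, 0 < c ∧ χ l = c • χ i), F l x :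
        Submodule ℝ (TangentSpace 𝓘(ℝ, V) x)) = 1) ∨
      (∀ x, Module.finrank ℝ (⨆ (l) (_ : ∃ c : ℝ, 0 < c ∧ χ l = c • χ j), F l x :
        Submodule ℝ (TangentSpace 𝓘(ℝ, V) x)) = 1) ∨
      ((∀ l x, F l x ≠ ⊥) ∧ 2 ≤ Module.finrank ℝ (Submodule.span ℝ (range χ)) ∧
        Module.finrank ℝ V ≤ Module.finrank ℝ (Submodule.span ℝ (range χ)) + 3) ∨
      ∃ (n n' : Fin k → ℤ) (s b s' b' : ℝ), Regular χ n ∧ ev (χ i) n < 0 ∧ Regular χ n' ∧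
        ev (χ j) n' < 0 ∧ Pinch s b s' b' ∧
        PExpIn (A n) (fun x => ⨆ (l) (_ : ∃ c : ℝ, 0 < c ∧ χ l = c • χ i), F l x) s b ∧
        PExpIn (A n') (fun x => ⨆ (l) (_ : ∃ c : ℝ, 0 < c ∧ χ l = c • χ j), F l x) s' b')) ∨
      ∃ (n n' : Fin k → ℤ) (s b s' b' : ℝ), Regular χ n ∧ ev (χ i) n < 0 ∧ Regular χ n' ∧
        ev (χ j) n' < 0 ∧ Pinch s b s' b' ∧
        ExpIn (A n) (fun x => ⨆ (l) (_ : ∃ c : ℝ, 0 < c ∧ χ l = c • χ i), F l x) s b ∧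
        ExpIn (A n') (fun x => ⨆ (l) (_ : ∃ c : ℝ, 0 < c ∧ χ l = c • χ j), F l x) s' b')
    (n : Fin k → ℤ) (hn : ∀ j, ∑ i, χ j i * (n i : ℝ) ≠ 0) : TopTransitive (A n) := by
  classical
  have hχ : ∀ j, χ j ≠ 0 := by
    intro j h0
    apply hn j
    simp [h0]
  -- the dimension lemma, before the metric is introduced
  have hpair' : ∀ i j, ∀ t : ℝ, 0 < t → χ i = -(t • χ j) →
      ((∀ n, ContMDiff 𝓘(ℝ, V) 𝓘(ℝ, V) 2 (A n)) ∧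
      ((∀ x, Module.finrank ℝ (⨆ (l) (_ : ∃ c : ℝ, 0 < c ∧ χ l = c • χ i), F l x :
        Submodule ℝ (TangentSpace 𝓘(ℝ, V) x)) = 1) ∨
      (∀ x, Module.finrank ℝ (⨆ (l) (_ : ∃ c : ℝ, 0 < c ∧ χ l = c • χ j), F l x :
        Submodule ℝ (TangentSpace 𝓘(ℝ, V) x)) = 1) ∨
      ∃ (n n' : Fin k → ℤ) (s b s' b' : ℝ), Regular χ n ∧ ev (χ i) n < 0 ∧ Regular χ n' ∧
        ev (χ j) n' < 0 ∧ Pinch s b s' b' ∧
        PExpIn (A n) (fun x => ⨆ (l) (_ : ∃ c : ℝ, 0 < c ∧ χ l = c • χ i), F l x) s b ∧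
        PExpIn (A n') (fun x => ⨆ (l) (_ : ∃ c : ℝ, 0 < c ∧ χ l = c • χ j), F l x) s' b')) ∨
      ∃ (n n' : Fin k → ℤ) (s b s' b' : ℝ), Regular χ n ∧ ev (χ i) n < 0 ∧ Regular χ n' ∧
        ev (χ j) n' < 0 ∧ Pinch s b s' b' ∧
        ExpIn (A n) (fun x => ⨆ (l) (_ : ∃ c : ℝ, 0 < c ∧ χ l = c • χ i), F l x) s b ∧
        ExpIn (A n') (fun x => ⨆ (l) (_ : ∃ c : ℝ, 0 < c ∧ χ l = c • χ j), F l x) s' b' := by
    intro i j t ht hij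
    rcases hpair i j t ht hij with ⟨hC2, h | h | ⟨hF, hr, hd⟩ | h⟩ | h
    · exact Or.inl ⟨hC2, Or.inl h⟩
    · exact Or.inl ⟨hC2, Or.inr (Or.inl h)⟩
    · rcases line_of_rank hDim A χ F hadd hC2 hA hχ hF hr hd i j t ht hij with h | h
      · exact Or.inl ⟨hC2, Or.inl h⟩
      · exact Or.inl ⟨hC2, Or.inr (Or.inl h)⟩
    · exact Or.inl ⟨hC2, Or.inr (Or.inr h)⟩
    · exact Or.inr h
  obtain ⟨N, e, he, hemb, hinj⟩ := exists_embedding_euclidean_of_compact (I := 𝓘(ℝ, V)) (M := M)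
  let _ : MetricSpace M := hemb.isEmbedding.comapMetricSpace e
  have hiso : Isometry e := hemb.isEmbedding.to_isometry
  obtain ⟨E, F', hAct1, hAct2, hrank, hRt, hRtq⟩ := hAct V N M e hiso he hinj k J A χ F hadd hA
  refine hChain M (EuclideanSpace ℝ (Fin N)) E k J (fun n => (A n).toHomeomorph) χ F' hAct1
    (fun i j t ht hij => ?_) n hn
  rcases hpair' i j t ht hij with ⟨hC2, h | h | ⟨p, q, s, b, s', b', g1, g2, g3, g4, h1, h2, h3⟩⟩ |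
    ⟨p, q, s, b, s', b', g1, g2, g3, g4, h1, h2, h3⟩
  · exact Or.inl ⟨hAct2 hC2, Or.inl fun x => by rw [hrank]; exact h x⟩
  · exact Or.inl ⟨hAct2 hC2, Or.inr (Or.inl fun x => by rw [hrank]; exact h x)⟩
  · exact Or.inl ⟨hAct2 hC2, Or.inr (Or.inr ⟨p, q, s, b, s', b', g1, g2, g3, g4, h1,
      hRtq i p s b h2, hRtq j q s' b' h3⟩)⟩
  · exact Or.inr ⟨p, q, s, b, s', b', g1, g2, g3, g4, h1, hRt i p s b h2, hRt j q s' b' h3⟩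

end Pool.Agent.Lib.MP610fe3.HR
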