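import Pool.Agent.Lib.MP_610fe3_an.HR.F3Spec

/-!
# Module NUM: the numbers of the transport argument
-/

set_option autoImplicit false

open Set Filter Function
open scoped Topology

namespace Pool.Agent.Lib.MP610fe3.HR

theorem specNum : SpecNum := by
  rintro s b s' b' ⟨hs, hsb, hs', hsb', h⟩
  obtain ⟨θ, hθ, h1, h2⟩ : ∃ θ : ℝ, 0 ≤ θ ∧ b * θ < s * (1 + θ) ∧ b' < s' * (1 + θ) := by
    rcases hsb.eq_or_lt with rfl | hlt
    · refine ⟨b' / s', div_nonneg (by linarith) hs'.le, ?_, ?_⟩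
      · nlinarith
      · have : s' * (1 + b' / s') = s' + b' := by field_simp
        linarith
    · have hb : 0 < b - s := by linarith
      have key : (b' - s') / s' < s / (b - s) := by
        rw [div_lt_div_iff₀ hs' hb]
        linarith
      obtain ⟨θ, ht1, ht2⟩ := exists_between key
      have h0 : 0 ≤ (b' - s') / s' := div_nonneg (by linarith) hs'.le
      refine ⟨θ, by linarith, ?_, ?_⟩
      · rw [lt_div_iff₀ hb] at ht2
        linarith
      · rw [div_lt_iff₀ hs'] at ht1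
        linarith
  have c1 : ContinuousAt (fun η : ℝ => (s - η) * (1 + θ) * (1 - η * (b + η)) - (b + η) * θ) 0 := by
    fun_prop
  have c2 : ContinuousAt (fun η : ℝ => (s' - η) * (1 + θ) * (1 - η * (b' + η)) - (b' + η)) 0 := by
    fun_prop
  have c3 : ContinuousAt (fun η : ℝ => 1 - η * (b + η)) 0 := by fun_prop
  have c4 : ContinuousAt (fun η : ℝ => 1 - η * (b' + η)) 0 := by fun_prop
  have e1 := c1.eventually (lt_mem_nhds (show (0 : ℝ) < (s - 0) * (1 + θ) * (1 - 0 * (b + 0)) - (b + 0) * θ by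
    ring_nf; linarith))
  have e2 := c2.eventually (lt_mem_nhds (show (0 : ℝ) < (s' - 0) * (1 + θ) * (1 - 0 * (b' + 0)) - (b' + 0) by
    ring_nf; linarith))
  have e3 := c3.eventually (lt_mem_nhds (show (0 : ℝ) < 1 - 0 * (b + 0) by norm_num))
  have e4 := c4.eventually (lt_mem_nhds (show (0 : ℝ) < 1 - 0 * (b' + 0) by norm_num))
  have e5 : ∀ᶠ η : ℝ in 𝓝 0, η < s := gt_mem_nhds hs
  have e6 : ∀ᶠ η : ℝ in 𝓝 0, η < s' := gt_mem_nhds hs'
  have e7 : ∀ᶠ η : ℝ in 𝓝[>] 0, 0 < η := self_mem_nhdsWithin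
  obtain ⟨η, ⟨⟨⟨⟨⟨a1, a2⟩, a3⟩, a4⟩, a5⟩, a6⟩, a7⟩ :=
    (((((((e1.and e2).and e3).and e4).and e5).and e6).filter_mono nhdsWithin_le_nhds).and e7).exists
  refine ⟨θ, η, 1 / η, hθ, a7, a5, a6, ?_, ?_, ?_, ?_⟩
  · rw [lt_div_iff₀ a7]
    linarith
  · rw [lt_div_iff₀ a7]
    linarith
  · have h3 : (s - η) * (1 + θ) * (1 / η - (b + η)) = ((s - η) * (1 + θ) * (1 - η * (b + η))) / η := by
      field_simp
    have h4 : (b + η) * (1 / η) * θ = ((b + η) * θ) / η := by field_simp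
    rw [h3, h4]
    exact div_lt_div_of_pos_right (by linarith) a7
  · have h3 : (s' - η) * (1 + θ) * (1 / η - (b' + η)) = ((s' - η) * (1 + θ) * (1 - η * (b' + η))) / η := by
      field_simp
    have h4 : (b' + η) * (1 / η) = (b' + η) / η := by field_simp
    rw [h3, h4]
    exact div_lt_div_of_pos_right (by linarith) a7

end Pool.Agent.Lib.MP610fe3.HR
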