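import Pool.Agent.Lib.MP_610fe3_an.HR.F3Spec
import Pool.Agent.Lib.MP_610fe3_an.HR.RNG
import Pool.Agent.Lib.MP_610fe3_an.HR.F1RTC
import Pool.Agent.Lib.MP_610fe3_an.H6.Sharp

/-!
# Module RATX: the rates of an element near the wall (hive F3)
-/

set_option autoImplicit false

open Set Filter Function
open scoped Topology

namespace Pool.Agent.Lib.MP610fe3.HR

open Cf CH H6 F1RTAux

universe u v w

namespace F3RATXAux

theorem ev_smul_right {k : ℕ} (c : ℤ) (a : Fin k → ℝ) (n : Fin k → ℤ) :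
    ev a (c • n) = c * ev a n := by
  simp only [ev, Finset.mul_sum, Pi.smul_apply, smul_eq_mul]
  refine Finset.sum_congr rfl fun i _ => ?_
  push_cast
  ring

theorem ev_sub_right {k : ℕ} (a : Fin k → ℝ) (n n' : Fin k → ℤ) :
    ev a (n - n') = ev a n - ev a n' := by
  simp only [ev, ← Finset.sum_sub_distrib, Pi.sub_apply]
  refine Finset.sum_congr rfl fun i _ => ?_
  push_cast
  ring

variable {M W : Type*} [MetricSpace M] [CompactSpace M] [NormedAddCommGroup W]
  [NormedSpace ℝ W] {E : Emb M W} {f g : M ≃ₜ M}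

theorem SS_apply' (s : Split E f) (x : M) (w : W) : s.S x (s.S x w) = s.S x w :=
  congrArg (fun L : W →L[ℝ] W => L w) (s.SS x)

/-- The product of commuting projections is a projection. -/
theorem PP_PP (s : Split E f) (t : Split E g) (hs : s.Hyperbolic) (ht : t.Hyperbolic)
    (hc : ∀ x, f (g x) = g (f x)) (x : M) (w : W) : PP s t x (PP s t x w) = PP s t x w := by
  have e : ∀ v, s.S x (t.S x v) = t.S x (s.S x v) := fun v =>
    congrArg (fun L : W →L[ℝ] W => L v) (SS_commute s t hs ht hc x)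
  show s.S x (t.S x (s.S x (t.S x w))) = s.S x (t.S x w)
  rw [← e (t.S x w), SS_apply', SS_apply']

theorem PP_add (s : Split E f) (t : Split E g) (x : M) (w : W) :
    PP s t x (s.S x w) + PP s t.swap x (s.S x w) = s.S x w := by
  show s.S x (t.S x (s.S x w)) + s.S x (t.U x (s.S x w)) = s.S x w
  rw [← map_add]
  have h1 := congrArg (fun L : W →L[ℝ] W => L (s.S x w)) (t.add x)
  have h2 : t.S x (s.S x w) + t.U x (s.S x w) = E.P x (s.S x w) := h1
  have h3 : E.P x (s.S x w) = s.S x w := congrArg (fun L : W →L[ℝ] W => L w) (s.PS x)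
  rw [h2, h3, SS_apply']

end F3RATXAux

open F3RATXAux

/-- **RATX**: the rates of an element near the wall. -/
theorem specRatx (h1 : SpecRtcp.{u, v, w}) (h2 : SpecCrt.{u, v}) (h3 : SpecExpx.{u, v}) :
    SpecRatx.{u, v, w} := by
  intro M W _ _ _ _ _ E k J _ A χ F hAct n n' i j hwal s b η K hRt hη hηs hsb hK
  obtain ⟨C₁, l, hl, hl1, hR⟩ := h1 M W E k J A χ F hAct n n' hwal.reg hwal.reg'
  have hlt := hwal.lt
  have hs0 : 0 < s := hη.trans hηs
  have hK0 : 0 < K := by linarith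
  obtain ⟨q₀, hq₀⟩ : ∃ q : ℕ, l ^ q < Real.exp (-(K * (-2 * ev (χ i) n))) :=
    ((tendsto_pow_atTop_nhds_zero_of_lt_one hl.le hl1).eventually
      (gt_mem_nhds (Real.exp_pos _))).exists
  refine ⟨q₀, fun q hq p hp1 hW' hsign hneg => ?_⟩
  obtain ⟨n'', hn''⟩ : ∃ n'', n'' = (p : ℤ) • n + (q : ℤ) • n' := ⟨_, rfl⟩
  have hR' := hR p q
  rw [← hn''] at hW' hsign hneg hR' ⊢
  obtain ⟨κ, hκ⟩ : ∃ κ, κ = -ev (χ i) n'' := ⟨_, rfl⟩
  have hκ0 : 0 < κ := by
    have := hW'.lt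
    rw [hκ]; linarith
  have hev : ev (χ i) n'' = -κ := by rw [hκ]; ring
  rw [← hκ]
  rw [ev_sub_right, ev_smul_right, hev] at hneg
  push_cast at hneg
  have hκle : κ < -2 * ev (χ i) n := by linarith
  have hcomm : ∀ a b x, A a (A b x) = A b (A a x) := act_comm hAct.add
  obtain ⟨S, hS, hSS, hSU⟩ := hAct.split n'' hW'.reg
  obtain ⟨t, ht, htS, htU⟩ := hAct.split n' hwal.reg'
  have hc : ∀ x, A n'' (A n' x) = A n' (A n'' x) := hcomm _ _
  have hc' : ∀ x, A n'' ((A n').symm x) = (A n').symm (A n'' x) := by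
    intro x
    rw [act_symm hAct.add, act_symm hAct.add]
    exact hcomm _ _ x
  have hrng := (specRng M W E k J χ F (A n'') (A n') S t n'' n' hS ht hc hW'.reg hwal.reg'
    hSS hSU htS htU i j hW').1
  -- the rate of the intersection of the stable bundles
  have hθ0 : 0 < l ^ (p + q) := by positivity
  have hθ : l ^ (p + q) < Real.exp (-(K * κ)) := by
    have e1 : l ^ (p + q) ≤ l ^ q₀ := pow_le_pow_of_le_one hl.le hl1.le (by omega)
    have e2 : Real.exp (-(K * (-2 * ev (χ i) n))) ≤ Real.exp (-(K * κ)) := by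
      apply Real.exp_le_exp.2
      have := mul_le_mul_of_nonneg_left hκle.le hK0.le
      linarith
    linarith
  have hcon : ∀ (m : ℕ) x w, PP S t x w = w →
      ‖iterD S.D (A n'') m x w‖ ≤ C₁ * (l ^ (p + q)) ^ m * ‖w‖ :=
    fun m x w hw => hR' hW'.reg hsign S t hSS htS hS ht m x w hw
  obtain ⟨C₂, hC₂⟩ := hRt n'' hW'.reg hW'.lt S hS (η / 2 * κ) (by positivity)
  have hcoa : ∀ x w, PP S t.swap x w = w → w ∈ coarse χ F i x := by
    intro x w hw
    rw [← hrng x]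
    exact ⟨w, hw⟩
  refine ⟨?_, ?_, ?_⟩
  · -- Scn
    have hr0 : 0 < (s - η) * κ := mul_pos (by linarith) hκ0
    obtain ⟨K₁, hK₁1, hK₁⟩ := S.exists_bdd
    obtain ⟨K₂, hK₂1, hK₂⟩ := t.exists_bdd
    have hK₁0 : 0 ≤ K₁ := by linarith
    have hK₂0 : 0 ≤ K₂ := by linarith
    refine exists_dec_rate S hS (C₀ := (|C₁| + |C₂|) * (K₁ * (K₂ * K₁)))
      (m := Real.exp (-((s - η / 2) * κ))) (l := Real.exp (-((s - η) * κ))) (Real.exp_pos _)
      (Real.exp_lt_exp.2 ?_) (by rw [Real.exp_lt_one_iff]; linarith) ?_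
    · have : (s - η) * κ < (s - η / 2) * κ := mul_lt_mul_of_pos_right (by linarith) hκ0
      linarith
    · intro m x w
      have hb1 : ∀ v, ‖S.S x v‖ ≤ K₁ * ‖v‖ := fun v => (S.S x).le_of_opNorm_le (hK₁ x).1 v
      have hb2 : ∀ v, ‖t.S x v‖ ≤ K₂ * ‖v‖ := fun v => (t.S x).le_of_opNorm_le (hK₂ x).1 v
      have hb3 : ∀ v, ‖t.U x v‖ ≤ K₂ * ‖v‖ := fun v => (t.U x).le_of_opNorm_le (hK₂ x).2 v
      have hn1 : ‖PP S t x (S.S x w)‖ ≤ K₁ * (K₂ * K₁) * ‖w‖ := by
        calc ‖PP S t x (S.S x w)‖ ≤ K₁ * ‖t.S x (S.S x w)‖ := hb1 _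
          _ ≤ K₁ * (K₂ * ‖S.S x w‖) := mul_le_mul_of_nonneg_left (hb2 _) hK₁0
          _ ≤ K₁ * (K₂ * (K₁ * ‖w‖)) :=
            mul_le_mul_of_nonneg_left (mul_le_mul_of_nonneg_left (hb1 _) hK₂0) hK₁0
          _ = K₁ * (K₂ * K₁) * ‖w‖ := by ring
      have hn2 : ‖PP S t.swap x (S.S x w)‖ ≤ K₁ * (K₂ * K₁) * ‖w‖ := by
        calc ‖PP S t.swap x (S.S x w)‖ ≤ K₁ * ‖t.U x (S.S x w)‖ := hb1 _
          _ ≤ K₁ * (K₂ * ‖S.S x w‖) := mul_le_mul_of_nonneg_left (hb3 _) hK₁0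
          _ ≤ K₁ * (K₂ * (K₁ * ‖w‖)) :=
            mul_le_mul_of_nonneg_left (mul_le_mul_of_nonneg_left (hb1 _) hK₂0) hK₁0
          _ = K₁ * (K₂ * K₁) * ‖w‖ := by ring
      have h5 := hcon m x _ (PP_PP S t hS ht hc x (S.S x w))
      have h6 := (hC₂ m x _ (hcoa x _ (PP_PP S t.swap hS ht.swap hc' x (S.S x w)))).1
      have hE : Real.exp ((s * ev (χ i) n'' + η / 2 * κ) * m) =
          Real.exp (-((s - η / 2) * κ)) ^ m := by
        rw [hev, ← Real.exp_nat_mul]
        congr 1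
        ring
      rw [hE] at h6
      have h7 : (l ^ (p + q)) ^ m ≤ Real.exp (-((s - η / 2) * κ)) ^ m := by
        refine pow_le_pow_left₀ hθ0.le (hθ.le.trans (Real.exp_le_exp.2 ?_)) m
        have : (s - η / 2) * κ ≤ K * κ := mul_le_mul_of_nonneg_right (by linarith) hκ0.le
        linarith
      have hX : 0 ≤ Real.exp (-((s - η / 2) * κ)) ^ m := by positivity
      generalize Real.exp (-((s - η / 2) * κ)) ^ m = X at h6 h7 hX ⊢
      have hY : 0 ≤ K₁ * (K₂ * K₁) * ‖w‖ := by positivity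
      conv_lhs => rw [← PP_add S t x w, map_add]
      calc _ ≤ ‖iterD S.D (A n'') m x (PP S t x (S.S x w))‖ +
            ‖iterD S.D (A n'') m x (PP S t.swap x (S.S x w))‖ := norm_add_le _ _
        _ ≤ |C₁| * X * (K₁ * (K₂ * K₁) * ‖w‖) + |C₂| * X * (K₁ * (K₂ * K₁) * ‖w‖) := by
            refine add_le_add (h5.trans ?_) (h6.trans ?_)
            · have e1 : C₁ * (l ^ (p + q)) ^ m ≤ |C₁| * X :=
                (mul_le_mul_of_nonneg_right (le_abs_self C₁) (by positivity)).trans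
                  (mul_le_mul_of_nonneg_left h7 (abs_nonneg _))
              exact mul_le_mul e1 hn1 (norm_nonneg _) (by positivity)
            · have e1 : C₂ * X ≤ |C₂| * X := mul_le_mul_of_nonneg_right (le_abs_self C₂) hX
              exact mul_le_mul e1 hn2 (norm_nonneg _) (by positivity)
        _ = _ := by ring
  · -- Cdc
    obtain ⟨δ, C, hδ, hC, h⟩ := h2 M W E (A n'') (A n') S t C₁ (l ^ (p + q))
      (Real.exp (-(K * κ))) hS ht hc hθ0 hθ (by
        rw [Real.exp_le_one_iff]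
        have := mul_pos hK0 hκ0
        linarith) hcon
    refine ⟨δ, C, hδ, by linarith, fun x z hz hz' m => ?_⟩
    have e : Real.exp (-(K * κ * m)) = Real.exp (-(K * κ)) ^ m := by
      rw [← Real.exp_nat_mul]
      congr 1
      ring
    rw [e]
    exact h x z hz hz' m
  · -- Xgr
    refine h3 M W E (A n'') (A n') S t C₂ (b * κ + η / 2 * κ) ((b + η) * κ) hS ht hc ?_ ?_ ?_
    · have := mul_nonneg (hs0.le.trans hsb) hκ0.le
      positivity
    · have : 0 < η * κ := mul_pos hη hκ0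
      nlinarith
    · intro m x w hw
      have h5 := (hC₂ m x w (hcoa x w hw)).2
      have e : -(b * ev (χ i) n'') + η / 2 * κ = b * κ + η / 2 * κ := by rw [hev]; ring
      rw [e] at h5
      exact h5

end Pool.Agent.Lib.MP610fe3.HR
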