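import Pool.Agent.Lib.MP_610fe3_an.HR.F3QSpec
import Pool.Agent.Lib.MP_610fe3_an.HR.F1RTX
import Pool.Agent.Lib.MP_610fe3_an.HR.F3ACTL
import Pool.Agent.Lib.MP_610fe3_an.HR.EIG

/-!
# Module RTL: the rates at one regular element determine the rates at all regular elements

Let `A n₁` have rates between `s` and `b` on the coarse bundle of `i`, `ev (χ i) n₁ < 0`. Let `n` be
regular, `r = ev (χ i) n / ev (χ i) n₁ > 0`. If `p / a < r` is close to `r` then `h = a n - p n₁` is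
regular with `ev (χ i) h < 0`, and `A (a n) = A h ∘ A (p n₁)`, where `A h` contracts the coarse bundle:
the rate of `A n` is at most `p / a` times that of `A n₁`. For the inverse take `p / a > r`.
-/

set_option autoImplicit false

open Set Filter Function
open scoped Topology

namespace Pool.Agent.Lib.MP610fe3.HR

open Cf CH F1RTAux F1RTXAux

universe u v w

/-- The rates of `A n` on the coarse bundle of `χ i` are between `s` and `b`. -/
def RtAt {M : Type*} [MetricSpace M] {W : Type*} [NormedAddCommGroup W] [NormedSpace ℝ W]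
    {k : ℕ} {J : Type*} (E : Emb M W) (A : (Fin k → ℤ) → M ≃ₜ M)
    (χ : J → Fin k → ℝ) (F : J → M → Submodule ℝ W) (i : J) (n : Fin k → ℤ) (s b : ℝ) : Prop :=
  ∀ S : Split E (A n), S.Hyperbolic → ∀ e : ℝ, 0 < e →
    ∃ C : ℝ, ∀ (m : ℕ) (x : M), ∀ w ∈ coarse χ F i x,
      ‖iterD S.D (A n) m x w‖ ≤ C * Real.exp ((-s + e) * m) * ‖w‖ ∧
      ‖iterD S.Di (A n).symm m x w‖ ≤ C * Real.exp ((b + e) * m) * ‖w‖

/-- RTL. -/
def SpecRtl : Prop :=
  ∀ (M : Type u) (W : Type v) [MetricSpace M] [CompactSpace M] [NormedAddCommGroup W]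
    [InnerProductSpace ℝ W] [FiniteDimensional ℝ W] (E : Emb M W) (k : ℕ) (J : Type w) [Finite J]
    (A : (Fin k → ℤ) → M ≃ₜ M) (χ : J → Fin k → ℝ) (F : J → M → Submodule ℝ W), Act1 E A χ F →
    ∀ (n₀ n' : Fin k → ℤ) (i j : J), Wal χ n₀ n' i j → ∀ n₁, Regular χ n₁ → ev (χ i) n₁ < 0 →
      ∀ s b : ℝ, RtAt E A χ F i n₁ s b →
        Rt E A χ F i (s / -ev (χ i) n₁) (b / -ev (χ i) n₁)

namespace F3RTLAux

section Core

variable {M W : Type*} [MetricSpace M] [CompactSpace M] [NormedAddCommGroup W]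
  [InnerProductSpace ℝ W] [FiniteDimensional ℝ W] {E : Emb M W}

/-- The derivative maps the coarse bundle into itself. -/
theorem iter_mem {f₀ g₀ g : M ≃ₜ M} (s₀ : Split E f₀) (t₀ : Split E g₀) (hs : s₀.Hyperbolic)
    (ht : t₀.Hyperbolic) (h0 : ∀ x, f₀ (g₀ x) = g₀ (f₀ x)) (σ : Split E g)
    (h1 : ∀ x, g (f₀ x) = f₀ (g x)) (h2 : ∀ x, g (g₀ x) = g₀ (g x)) {X : M → Submodule ℝ W}
    (hX : ∀ x, (PP s₀ t₀.swap x).range = X x) (m : ℕ) {x : M} {w : W} (hw : w ∈ X x) :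
    iterD σ.D g m x w ∈ X (g^[m] x) := by
  have h0' : ∀ x, f₀ (g₀.symm x) = g₀.symm (f₀ x) := fun x => EIGAux.comm_symm_right h0 x
  have h2' : ∀ x, g (g₀.symm x) = g₀.symm (g x) := fun x => EIGAux.comm_symm_right h2 x
  have hPP : PP s₀ t₀.swap x w = w := by
    rw [← hX] at hw
    obtain ⟨u, rfl⟩ := hw
    have hc := SS_commute s₀ t₀.swap hs ht.swap h0' x
    have e1 : ∀ u, s₀.S x (t₀.swap.S x u) = t₀.swap.S x (s₀.S x u) := fun u =>
      congrArg (fun L : W →L[ℝ] W => L u) hc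
    change s₀.S x (t₀.swap.S x (s₀.S x (t₀.swap.S x u))) = s₀.S x (t₀.swap.S x u)
    rw [← e1 (t₀.swap.S x u)]
    have e2 : t₀.swap.S x (t₀.swap.S x u) = t₀.swap.S x u :=
      congrArg (fun L : W →L[ℝ] W => L u) (t₀.swap.SS x)
    have e3 : s₀.S x (s₀.S x (t₀.swap.S x u)) = s₀.S x (t₀.swap.S x u) :=
      congrArg (fun L : W →L[ℝ] W => L (t₀.swap.S x u)) (s₀.SS x)
    rw [e2, e3]
  rw [← hX]
  refine ⟨iterD σ.D g m x w, ?_⟩
  have e1 := congrArg (fun L : W →L[ℝ] W => L w) (iterDS_commutes σ s₀ hs h1 m x)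
  have e2 := congrArg (fun L : W →L[ℝ] W => L w) (iterDS_commutes σ t₀.swap ht.swap h2' m x)
  simp only [ContinuousLinearMap.comp_apply] at e1 e2
  rw [S_of_PP s₀ t₀.swap hPP] at e1
  rw [S_of_PP' s₀ t₀.swap hs ht.swap h0' hPP] at e2
  change s₀.S (g^[m] x) (t₀.swap.S (g^[m] x) (iterD σ.D g m x w)) = _
  rw [← e2, ← e1]

/-- The growth of `f` if `f^a = h g^p` and `h` contracts. -/
theorem core {f₀ g₀ f g h : M ≃ₜ M} (s₀ : Split E f₀) (t₀ : Split E g₀) (hs : s₀.Hyperbolic)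
    (ht : t₀.Hyperbolic) (h0 : ∀ x, f₀ (g₀ x) = g₀ (f₀ x)) (σ : Split E g)
    (h1 : ∀ x, g (f₀ x) = f₀ (g x)) (h2 : ∀ x, g (g₀ x) = g₀ (g x)) {X : M → Submodule ℝ W}
    (hX : ∀ x, (PP s₀ t₀.swap x).range = X x) (r : Split E h) (hr : r.Hyperbolic)
    (hXr : ∀ x, X x ≤ (r.S x).range) {Df : M → W →L[ℝ] W} (hDf : HasD E f Df) {a p : ℕ}
    (ha : 0 < a) (heq : ∀ (m : ℕ) x, f^[a * m] x = h^[m] (g^[p * m] x)) {C ρ : ℝ}
    (H : ∀ (m : ℕ) (x : M), ∀ w ∈ X x, ‖iterD σ.D g m x w‖ ≤ C * Real.exp (ρ * m) * ‖w‖) :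
    ∃ C' : ℝ, ∀ (m : ℕ) (x : M), ∀ w ∈ X x,
      ‖iterD Df f m x w‖ ≤ C' * Real.exp (ρ * (p / a) * m) * ‖w‖ := by
  obtain ⟨C₁, l, hC₁, hl, hl1, hest⟩ := hr
  obtain ⟨K, hK1, hK⟩ := exists_norm_bound hDf.cont
  have hK0 : 0 ≤ K := by linarith
  have haR : (0 : ℝ) < a := by exact_mod_cast ha
  have h0' : ∀ x, f₀ (g₀.symm x) = g₀.symm (f₀ x) := fun x => EIGAux.comm_symm_right h0 x
  have hPx : ∀ x, ∀ w ∈ X x, E.P x w = w := by
    intro x w hw
    rw [← hX] at hw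
    obtain ⟨u, rfl⟩ := hw
    exact congrArg (fun L : W →L[ℝ] W => L (t₀.swap.S x u)) (s₀.PS x)
  have hblock : ∀ (q : ℕ) (x : M), ∀ w ∈ X x,
      ‖iterD Df f (a * q) x w‖ ≤ C₁ * |C| * Real.exp (ρ * (p * q)) * ‖w‖ := by
    intro q x w hw
    rw [iterD_eq f.continuous h.continuous g.continuous hDf r.hD σ.hD (heq q) x w (hPx x w hw)]
    have hmem := iter_mem s₀ t₀ hs ht h0 σ h1 h2 hX (p * q) hw
    obtain ⟨u, hu⟩ := hXr _ hmem
    have e1 : r.S (g^[p * q] x) (iterD σ.D g (p * q) x w) = iterD σ.D g (p * q) x w :=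
      SCAAux.S_fix r (hXr _ hmem)
    have e2 := (hest q (g^[p * q] x) (iterD σ.D g (p * q) x w)).1
    rw [e1] at e2
    have e3 := H (p * q) x w hw
    have e4 : l ^ q ≤ 1 := pow_le_one₀ hl.le hl1.le
    have e5 : C * Real.exp (ρ * (p * q : ℕ)) * ‖w‖ ≤ |C| * Real.exp (ρ * (p * q)) * ‖w‖ := by
      push_cast
      gcongr
      exact le_abs_self C
    calc _ ≤ C₁ * l ^ q * ‖iterD σ.D g (p * q) x w‖ := e2
      _ ≤ C₁ * 1 * (|C| * Real.exp (ρ * (p * q)) * ‖w‖) := by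
          gcongr
          exact e3.trans e5
      _ = C₁ * |C| * Real.exp (ρ * (p * q)) * ‖w‖ := by ring
  refine ⟨K ^ a * (C₁ * |C|) * Real.exp (|ρ| * p), fun m x w hw => ?_⟩
  obtain ⟨q, t, hqt, ht⟩ : ∃ q t : ℕ, m = t + a * q ∧ t < a :=
    ⟨m / a, m % a, by rw [Nat.mod_add_div], Nat.mod_lt _ ha⟩
  rw [hqt, iterD_add, ContinuousLinearMap.comp_apply]
  have e1 := iterD_bound (f := (f : M → M)) hK0 hK t (f^[a * q] x) (iterD Df f (a * q) x w)
  have e2 := hblock q x w hw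
  have e3 : K ^ t ≤ K ^ a := pow_le_pow_right₀ hK1 ht.le
  have e4 : Real.exp (ρ * (p * q)) ≤
      Real.exp (|ρ| * p) * Real.exp (ρ * (p / a) * (t + a * q : ℕ)) := by
    rw [← Real.exp_add]
    apply Real.exp_le_exp.2
    push_cast
    have e5 : ρ * (p / a) * (t + a * q) = ρ * (p * (t / a)) + ρ * (p * q) := by
      field_simp
    rw [e5]
    have htR : (t : ℝ) / a ≤ 1 := by
      rw [div_le_one haR]
      exact_mod_cast ht.le
    have ht0 : 0 ≤ (t : ℝ) / a := by positivity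
    have e6 : |ρ * (p * (t / a))| ≤ |ρ| * p := by
      rw [abs_mul, abs_of_nonneg (by positivity : (0 : ℝ) ≤ p * (t / a))]
      have : (p : ℝ) * (t / a) ≤ p := by
        have hp : (0 : ℝ) ≤ p := Nat.cast_nonneg p
        nlinarith
      exact mul_le_mul_of_nonneg_left this (abs_nonneg ρ)
    have := (abs_le.1 e6).1
    linarith
  calc _ ≤ K ^ t * ‖iterD Df f (a * q) x w‖ := e1
    _ ≤ K ^ a * (C₁ * |C| * Real.exp (ρ * (p * q)) * ‖w‖) := by gcongr
    _ ≤ K ^ a * (C₁ * |C| * (Real.exp (|ρ| * p) *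
        Real.exp (ρ * (p / a) * (t + a * q : ℕ))) * ‖w‖) := by gcongr
    _ = _ := by ring

end Core

/-- Rational numbers close to `r`, on the left or on the right, outside a finite set of ratios. -/
theorem exists_frac {J : Type*} [Finite J] (x y : J → ℝ) (hy : ∀ l, y l ≠ 0) (r δ : ℝ)
    (hr : 0 < r) (hδ : 0 < δ) :
    (∃ a p : ℕ, 0 < a ∧ r - δ < (p : ℝ) / a ∧ (p : ℝ) / a < r ∧ ∀ l, a * x l - p * y l ≠ 0) ∧
    (∃ a p : ℕ, 0 < a ∧ r < (p : ℝ) / a ∧ (p : ℝ) / a < r + δ ∧ ∀ l, a * x l - p * y l ≠ 0) := by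
  have key : ∀ q : ℚ, 0 < q → (∀ l, (q : ℝ) ≠ x l / y l) → ∃ a p : ℕ, 0 < a ∧
      (p : ℝ) / a = q ∧ ∀ l, a * x l - p * y l ≠ 0 := by
    intro q hq h
    have hnum : 0 < q.num := Rat.num_pos.2 hq
    have h1 : ((q.num.toNat : ℕ) : ℝ) / (q.den : ℝ) = q := by
      have h2 : ((q.num.toNat : ℕ) : ℤ) = q.num := Int.toNat_of_nonneg hnum.le
      have h3 : ((q.num.toNat : ℕ) : ℝ) = ((q.num : ℤ) : ℝ) := by
        have h4 := congrArg (fun k : ℤ => (k : ℝ)) h2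
        simpa only [Int.cast_natCast] using h4
      rw [h3, Rat.cast_def q]
    have hden : (0 : ℝ) < q.den := by exact_mod_cast q.den_pos
    refine ⟨q.den, q.num.toNat, q.den_pos, h1, fun l hl => h l ?_⟩
    rw [← h1, div_eq_div_iff hden.ne' (hy l)]
    linarith
  have hev : ∀ l, ∀ᶠ q in 𝓝[≠] r, q ≠ x l / y l := by
    intro l
    by_cases h : x l / y l = r
    · filter_upwards [self_mem_nhdsWithin] with q hq
      rw [h]
      exact hq
    · exact (eventually_ne_nhds (Ne.symm h)).filter_mono nhdsWithin_le_nhds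
  have hall : ∀ᶠ q in 𝓝[≠] r, ∀ l, q ≠ x l / y l := eventually_all.2 hev
  rw [eventually_nhdsWithin_iff, Metric.eventually_nhds_iff] at hall
  obtain ⟨η, hη, H⟩ := hall
  constructor
  · obtain ⟨q, hq1, hq2⟩ := exists_rat_btwn (show max 0 (max (r - δ) (r - η)) < r from
      max_lt hr (max_lt (by linarith) (by linarith)))
    have g1 : (0 : ℝ) < q := (le_max_left _ _).trans_lt hq1
    have g2 : r - δ < q := ((le_max_left _ _).trans (le_max_right _ _)).trans_lt hq1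
    have g3 : r - η < q := ((le_max_right _ _).trans (le_max_right _ _)).trans_lt hq1
    obtain ⟨a, p, ha, hap, hl⟩ := key q (by exact_mod_cast g1) fun l =>
      H (by rw [Real.dist_eq, abs_lt]; constructor <;> linarith) (by
        rw [mem_compl_iff, mem_singleton_iff]; exact hq2.ne) l
    exact ⟨a, p, ha, by rw [hap]; exact g2, by rw [hap]; exact hq2, hl⟩
  · obtain ⟨q, hq1, hq2⟩ := exists_rat_btwn (show r < min (r + δ) (r + η) from
      lt_min (by linarith) (by linarith))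
    have g1 : (0 : ℝ) < q := hr.trans hq1
    have g2 : (q : ℝ) < r + δ := hq2.trans_le (min_le_left _ _)
    have g3 : (q : ℝ) < r + η := hq2.trans_le (min_le_right _ _)
    obtain ⟨a, p, ha, hap, hl⟩ := key q (by exact_mod_cast g1) fun l =>
      H (by rw [Real.dist_eq, abs_lt]; constructor <;> linarith) (by
        rw [mem_compl_iff, mem_singleton_iff]; exact hq1.ne') l
    exact ⟨a, p, ha, by rw [hap]; exact hq1, by rw [hap]; exact g2, hl⟩

theorem ev_comb {k : ℕ} (c : Fin k → ℝ) (a p : ℕ) (n n₁ : Fin k → ℤ) :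
    ev c ((a : ℤ) • n - (p : ℤ) • n₁) = a * ev c n - p * ev c n₁ := by
  simp only [ev, Finset.mul_sum, ← Finset.sum_sub_distrib]
  refine Finset.sum_congr rfl fun l _ => ?_
  simp only [Pi.sub_apply, Pi.smul_apply, smul_eq_mul]
  push_cast
  ring

end F3RTLAux

open F3RTLAux

/-- **RTL.** -/
theorem specRtl (hRng : SpecRng.{u, v, w}) : SpecRtl.{u, v, w} := by
  intro M W _ _ _ _ _ E k J _ A χ F hAct n₀ n' i j hwal n₁ hn₁ hi₁ s b H n hn hi S hS e he
  obtain ⟨s₀, hs₀, hs₀S, hs₀U⟩ := hAct.split n₀ hwal.reg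
  obtain ⟨t₀, ht₀, ht₀S, ht₀U⟩ := hAct.split n' hwal.reg'
  obtain ⟨S₁, hS₁, -⟩ := hAct.split n₁ hn₁
  have hcomm : ∀ a b x, A a (A b x) = A b (A a x) := act_comm hAct.add
  have hX := (hRng M W E k J χ F (A n₀) (A n') s₀ t₀ n₀ n' hs₀ ht₀ (hcomm n₀ n') hwal.reg
    hwal.reg' hs₀S hs₀U ht₀S ht₀U i j hwal).1
  set y := ev (χ i) n₁ with hy
  set z := ev (χ i) n with hz
  obtain ⟨r, hr⟩ : ∃ r, r = z / y := ⟨_, rfl⟩
  have hr0 : 0 < r := by rw [hr]; exact div_pos_of_neg_of_neg hi hi₁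
  have hzr : z = r * y := by rw [hr, div_mul_cancel₀ _ hi₁.ne]
  have hy0 : y ≠ 0 := hi₁.ne
  have t1 : s / -y * z = -(s * r) := by
    rw [hzr, div_neg]
    field_simp
  have t2 : b / -y * z = -(b * r) := by
    rw [hzr, div_neg]
    field_simp
  rw [t1, t2, neg_neg]
  -- the constants
  obtain ⟨e₁, he₁⟩ : ∃ e₁, e₁ = e / (2 * (r + 1)) := ⟨_, rfl⟩
  have he₁0 : 0 < e₁ := by rw [he₁]; positivity
  have he₁r : e₁ * (r + 1) = e / 2 := by rw [he₁]; field_simp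
  obtain ⟨δ, hδ⟩ : ∃ δ, δ = min 1 (e / (2 * (|s| + |b| + 1))) := ⟨_, rfl⟩
  have hδ0 : 0 < δ := by rw [hδ]; positivity
  have hδ1 : δ ≤ 1 := by rw [hδ]; exact min_le_left _ _
  have hδ2 : (|s| + |b| + 1) * δ ≤ e / 2 := by
    have h1 : δ ≤ e / (2 * (|s| + |b| + 1)) := by rw [hδ]; exact min_le_right _ _
    have h2 : 0 < |s| + |b| + 1 := by positivity
    calc (|s| + |b| + 1) * δ ≤ (|s| + |b| + 1) * (e / (2 * (|s| + |b| + 1))) := by gcongr
      _ = e / 2 := by field_simp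
  obtain ⟨C, hC⟩ := H S₁ hS₁ e₁ he₁0
  obtain ⟨⟨a, p, ha, hap1, hap2, hap⟩, ⟨a', p', ha', hap1', hap2', hap'⟩⟩ :=
    exists_frac (fun l => ev (χ l) n) (fun l => ev (χ l) n₁) hn₁ r δ hr0 hδ0
  have haR : (0 : ℝ) < a := by exact_mod_cast ha
  have haR' : (0 : ℝ) < a' := by exact_mod_cast ha'
  -- the first element
  have hreg : Regular χ ((a : ℤ) • n - (p : ℤ) • n₁) := fun l => by rw [ev_comb]; exact hap l
  have hneg : ev (χ i) ((a : ℤ) • n - (p : ℤ) • n₁) < 0 := by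
    rw [ev_comb, ← hz, ← hy, hzr]
    rw [div_lt_iff₀ haR] at hap2
    nlinarith
  obtain ⟨R, hR, hRS, -⟩ := hAct.split _ hreg
  obtain ⟨C₁, hC₁⟩ := core s₀ t₀ hs₀ ht₀ (hcomm n₀ n') S₁ (hcomm n₁ n₀) (hcomm n₁ n') hX R hR
    (fun x => by rw [hRS]; exact SCAAux.coarse_le_neg hneg x) S.hD ha (fun m x => by
      rw [act_iter hAct.add, act_iter hAct.add, act_iter hAct.add, ← hAct.add]
      congr 2
      push_cast
      rw [smul_sub, smul_smul, smul_smul, mul_comm (m : ℤ) a, mul_comm (m : ℤ) p]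
      abel) (fun m x w hw => (hC m x w hw).1)
  -- the second element
  have hreg' : Regular χ ((p' : ℤ) • n₁ - (a' : ℤ) • n) := fun l => by
    rw [ev_comb]
    intro h
    exact hap' l (by linarith)
  have hneg' : ev (χ i) ((p' : ℤ) • n₁ - (a' : ℤ) • n) < 0 := by
    rw [ev_comb, ← hz, ← hy, hzr]
    rw [lt_div_iff₀ haR'] at hap1'
    nlinarith
  obtain ⟨R', hR', hRS', -⟩ := hAct.split _ hreg'
  have cs : ∀ a b x, (A a).symm (A b x) = A b ((A a).symm x) := fun a b x => by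
    rw [act_symm hAct.add, act_symm hAct.add]
    exact hcomm _ _ x
  obtain ⟨C₂, hC₂⟩ := core s₀ t₀ hs₀ ht₀ (hcomm n₀ n') S₁.swap (cs n₁ n₀) (cs n₁ n') hX R' hR'
    (fun x => by rw [hRS']; exact SCAAux.coarse_le_neg hneg' x) S.hDi ha' (fun m x => by
      rw [act_iter_symm hAct.add, act_iter_symm hAct.add, act_iter hAct.add, ← hAct.add]
      congr 2
      push_cast
      rw [smul_sub, smul_smul, smul_smul, mul_comm (m : ℤ) a', mul_comm (m : ℤ) p']
      abel) (fun m x w hw => (hC m x w hw).2)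
  refine ⟨max (max C₁ C₂) 0, fun m x w hw => ⟨?_, ?_⟩⟩
  · refine (hC₁ m x w hw).trans ?_
    have h1 : (-s + e₁) * (p / a) ≤ -(s * r) + e := by
      have g1 : |s * (r - p / a)| ≤ |s| * δ := by
        rw [abs_mul]
        refine mul_le_mul_of_nonneg_left ?_ (abs_nonneg s)
        rw [abs_le]
        constructor <;> linarith
      have g2 := (abs_le.1 g1).2
      have g3 : e₁ * (p / a) ≤ e₁ * (r + 1) := mul_le_mul_of_nonneg_left (by linarith) he₁0.le
      have g4 : 0 ≤ |b| * δ := by positivity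
      nlinarith
    have h2 : Real.exp ((-s + e₁) * (p / a) * m) ≤ Real.exp ((-(s * r) + e) * m) :=
      Real.exp_le_exp.2 (mul_le_mul_of_nonneg_right h1 (Nat.cast_nonneg m))
    have h3 : C₁ ≤ max (max C₁ C₂) 0 := (le_max_left _ _).trans (le_max_left _ _)
    have h4 : (0 : ℝ) ≤ max (max C₁ C₂) 0 := le_max_right _ _
    gcongr
  · refine (hC₂ m x w hw).trans ?_
    have h1 : (b + e₁) * (p' / a') ≤ b * r + e := by
      have g1 : |b * (p' / a' - r)| ≤ |b| * δ := by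
        rw [abs_mul]
        refine mul_le_mul_of_nonneg_left ?_ (abs_nonneg b)
        rw [abs_le]
        constructor <;> linarith
      have g2 := (abs_le.1 g1).2
      have g3 : e₁ * (p' / a') ≤ e₁ * (r + 1) := mul_le_mul_of_nonneg_left (by linarith) he₁0.le
      have g4 : 0 ≤ |s| * δ := by positivity
      nlinarith
    have h2 : Real.exp ((b + e₁) * (p' / a') * m) ≤ Real.exp ((b * r + e) * m) :=
      Real.exp_le_exp.2 (mul_le_mul_of_nonneg_right h1 (Nat.cast_nonneg m))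
    have h3 : C₂ ≤ max (max C₁ C₂) 0 := (le_max_right _ _).trans (le_max_left _ _)
    have h4 : (0 : ℝ) ≤ max (max C₁ C₂) 0 := le_max_right _ _
    gcongr

end Pool.Agent.Lib.MP610fe3.HR
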