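import Pool.Agent.Lib.MP_610fe3_an.HR.F3QSpec
import Pool.Agent.Lib.MP_610fe3_an.HR.RNG
import Pool.Agent.Lib.MP_610fe3_an.Commute

/-!
# Module RTP: the rates at the periodic points determine the rates at all points (hive F3)
-/

set_option autoImplicit false

open Set Filter Function
open scoped Topology

namespace Pool.Agent.Lib.MP610fe3.HR

open Cf CH

universe u v w

namespace F3RTPAux

variable {M : Type u} {W : Type v} [MetricSpace M] [CompactSpace M] [NormedAddCommGroup W]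
  [NormedSpace ℝ W] {E : Emb M W} {f g : M ≃ₜ M}

/-- Differentiable maps of compact spaces are Lipschitz maps. -/
theorem exists_lip_all {h : M → M} {D : M → W →L[ℝ] W} (H : HasD E h D) :
    ∃ L : ℝ, 1 ≤ L ∧ ∀ x y, dist (h x) (h y) ≤ L * dist x y := by
  obtain ⟨L, r, hL1, hr, hlip⟩ := H.exists_lip
  set d : ℝ := Metric.diam (univ : Set M) with hd
  have hd0 : 0 ≤ d := Metric.diam_nonneg
  have hdd : ∀ x y : M, dist x y ≤ d := fun x y =>
    Metric.dist_le_diam_of_mem (Metric.isBounded_of_compactSpace) (mem_univ x) (mem_univ y)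
  refine ⟨max L (d / r), hL1.trans (le_max_left _ _), fun x y => ?_⟩
  rcases lt_or_ge (dist x y) r with h1 | h1
  · exact (hlip x y h1).trans (mul_le_mul_of_nonneg_right (le_max_left _ _) dist_nonneg)
  · calc dist (h x) (h y) ≤ d := hdd _ _
      _ = d / r * r := by field_simp
      _ ≤ max L (d / r) * dist x y :=
          mul_le_mul (le_max_right _ _) h1 hr.le (by positivity)

/-- A smaller Hölder exponent. -/
theorem holder_of_le {T : M → W →L[ℝ] W} {C β β' : ℝ} (hC : 0 ≤ C)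
    (h : ∀ x y, ‖T x - T y‖ ≤ C * dist x y ^ β) (hβ' : 0 < β') (hle : β' ≤ β) :
    ∃ C' : ℝ, 0 ≤ C' ∧ ∀ x y, ‖T x - T y‖ ≤ C' * dist x y ^ β' := by
  set d : ℝ := Metric.diam (univ : Set M) with hd
  have hd0 : 0 ≤ d := Metric.diam_nonneg
  have hdd : ∀ x y : M, dist x y ≤ d := fun x y =>
    Metric.dist_le_diam_of_mem (Metric.isBounded_of_compactSpace) (mem_univ x) (mem_univ y)
  refine ⟨C * d ^ (β - β'), by positivity, fun x y => (h x y).trans ?_⟩
  rcases (dist_nonneg (x := x) (y := y)).eq_or_lt with h0 | h0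
  · rw [← h0, Real.zero_rpow hβ'.ne', Real.zero_rpow (hβ'.trans_le hle).ne']
    simp
  · rw [mul_assoc]
    refine mul_le_mul_of_nonneg_left ?_ hC
    calc dist x y ^ β = dist x y ^ (β - β') * dist x y ^ β' := by
          rw [← Real.rpow_add h0, sub_add_cancel]
      _ ≤ d ^ (β - β') * dist x y ^ β' := by
          refine mul_le_mul_of_nonneg_right ?_ (by positivity)
          exact Real.rpow_le_rpow h0.le (hdd x y) (sub_nonneg.2 hle)

/-- The Lipschitz constants of a splitting of class `C^2`. -/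
theorem exists_hol (hHol : PR.SpecHol.{u, v}) (s : Split E f) (hs : s.Hyperbolic)
    {C₀ : ℝ} (hq : Sq s C₀) : ∃ C β : ℝ, 0 < β ∧ β ≤ 1 ∧ 0 ≤ C ∧
      ∀ x y, ‖s.S x - s.S y‖ ≤ C * dist x y ^ β ∧ ‖s.U x - s.U y‖ ≤ C * dist x y ^ β := by
  obtain ⟨L₁, hL₁, h1⟩ := exists_lip_all s.hD
  obtain ⟨L₂, hL₂, h2⟩ := exists_lip_all s.hDi
  obtain ⟨K₁, hK₁, k1⟩ := exists_norm_bound s.hD.cont
  obtain ⟨K₂, hK₂, k2⟩ := exists_norm_bound s.hDi.cont
  have hP : ∀ x y, ‖E.P x - E.P y‖ ≤ (|C₀| * L₁ * K₁ + K₂ * |C₀|) * dist x y := by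
    intro x y
    rw [← s.inv1 x, ← s.inv1 y]
    have e : s.Di (f x) ∘L s.D x - s.Di (f y) ∘L s.D y =
        (s.Di (f x) - s.Di (f y)) ∘L s.D x + s.Di (f y) ∘L (s.D x - s.D y) := by
      ext w
      simp
    rw [e]
    calc ‖(s.Di (f x) - s.Di (f y)) ∘L s.D x + s.Di (f y) ∘L (s.D x - s.D y)‖
        ≤ ‖s.Di (f x) - s.Di (f y)‖ * ‖s.D x‖ + ‖s.Di (f y)‖ * ‖s.D x - s.D y‖ :=
          (norm_add_le _ _).trans (add_le_add (ContinuousLinearMap.opNorm_comp_le _ _)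
            (ContinuousLinearMap.opNorm_comp_le _ _))
      _ ≤ (|C₀| * (L₁ * dist x y)) * K₁ + K₂ * (|C₀| * dist x y) := by
          have a1 : ‖s.Di (f x) - s.Di (f y)‖ ≤ |C₀| * (L₁ * dist x y) :=
            (hq.lipDi (f y) (f x)).trans (by
              calc C₀ * dist (f x) (f y) ≤ |C₀| * dist (f x) (f y) :=
                    mul_le_mul_of_nonneg_right (le_abs_self _) dist_nonneg
                _ ≤ _ := mul_le_mul_of_nonneg_left (h1 x y) (abs_nonneg _))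
          have a2 : ‖s.D x - s.D y‖ ≤ |C₀| * dist x y :=
            (hq.lipD y x).trans (mul_le_mul_of_nonneg_right (le_abs_self _) dist_nonneg)
          refine add_le_add (mul_le_mul a1 (k1 x) (norm_nonneg _) (by positivity))
            (mul_le_mul (k2 _) a2 (norm_nonneg _) (by linarith))
      _ = _ := by ring
  set L : ℝ := |C₀| + (|C₀| * L₁ * K₁ + K₂ * |C₀|) + L₁ + L₂ with hL
  have hp : 0 ≤ |C₀| * L₁ * K₁ + K₂ * |C₀| := by positivity
  have hc := abs_nonneg C₀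
  have hle : ∀ {a : ℝ} {x y : M}, a ≤ L → a * dist x y ≤ L * dist x y := fun h =>
    mul_le_mul_of_nonneg_right h dist_nonneg
  obtain ⟨C, β, hβ, hβ1, hC, H⟩ := hHol s hs L
    (fun x y => (hq.lipD y x).trans (hle (by linarith [le_abs_self C₀])))
    (fun x y => (hq.lipDi y x).trans (hle (by linarith [le_abs_self C₀])))
    (fun x y => (hP x y).trans (hle (by linarith)))
    (fun x y => (h1 x y).trans (hle (by linarith)))
    (fun x y => (h2 x y).trans (hle (by linarith)))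
  exact ⟨C, β, hβ, hβ1, hC, H⟩

theorem PP_idem (s : Split E f) (t : Split E g) (hs : s.Hyperbolic) (ht : t.Hyperbolic)
    (hc : ∀ x, f (g x) = g (f x)) (x : M) : PP s t x ∘L PP s t x = PP s t x := by
  ext w
  have e : ∀ v, s.S x (t.S x v) = t.S x (s.S x v) := fun v =>
    congrArg (fun L : W →L[ℝ] W => L v) (SS_commute s t hs ht hc x)
  have e1 : ∀ v, s.S x (s.S x v) = s.S x v := fun v =>
    congrArg (fun L : W →L[ℝ] W => L v) (s.SS x)
  have e2 : ∀ v, t.S x (t.S x v) = t.S x v := fun v =>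
    congrArg (fun L : W →L[ℝ] W => L v) (t.SS x)
  show s.S x (t.S x (s.S x (t.S x w))) = s.S x (t.S x w)
  rw [← e (t.S x w), e1, e2]

/-- The derivative commutes with the field `PP`. -/
theorem D_PP {h : M ≃ₜ M} (S : Split E h) (s : Split E f) (t : Split E g) (hs : s.Hyperbolic)
    (ht : t.Hyperbolic) (hf : ∀ x, h (f x) = f (h x)) (hg : ∀ x, h (g x) = g (h x)) (x : M) :
    S.D x ∘L PP s t x = PP s t (h x) ∘L S.D x := by
  unfold PP
  rw [← ContinuousLinearMap.comp_assoc, (DS_commutes S s hs hf x).1,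
    ContinuousLinearMap.comp_assoc, (DS_commutes S t ht hg x).1, ContinuousLinearMap.comp_assoc]

/-- The product of Hölder continuous bounded fields. -/
theorem PP_hol (s : Split E f) (t : Split E g) {C β : ℝ} (hC : 0 ≤ C)
    (hs : ∀ x y, ‖s.S x - s.S y‖ ≤ C * dist x y ^ β)
    (ht : ∀ x y, ‖t.S x - t.S y‖ ≤ C * dist x y ^ β) :
    ∃ K C' : ℝ, 0 ≤ K ∧ 0 ≤ C' ∧ (∀ x, ‖PP s t x‖ ≤ K) ∧
      ∀ x y, ‖PP s t x - PP s t y‖ ≤ C' * dist x y ^ β := by
  obtain ⟨K₁, hK₁, k1⟩ := s.exists_bdd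
  obtain ⟨K₂, hK₂, k2⟩ := t.exists_bdd
  refine ⟨K₁ * K₂, K₁ * C + C * K₂, by positivity, by positivity, fun x => ?_, fun x y => ?_⟩
  · exact (ContinuousLinearMap.opNorm_comp_le _ _).trans
      (mul_le_mul (k1 x).1 (k2 x).1 (norm_nonneg _) (by linarith))
  · have e : PP s t x - PP s t y = s.S x ∘L (t.S x - t.S y) + (s.S x - s.S y) ∘L t.S y := by
      ext w
      simp [PP]
    have hd : 0 ≤ dist x y ^ β := by positivity
    rw [e]
    calc ‖s.S x ∘L (t.S x - t.S y) + (s.S x - s.S y) ∘L t.S y‖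
        ≤ ‖s.S x‖ * ‖t.S x - t.S y‖ + ‖s.S x - s.S y‖ * ‖t.S y‖ :=
          (norm_add_le _ _).trans (add_le_add (ContinuousLinearMap.opNorm_comp_le _ _)
            (ContinuousLinearMap.opNorm_comp_le _ _))
      _ ≤ K₁ * (C * dist x y ^ β) + (C * dist x y ^ β) * K₂ :=
          add_le_add (mul_le_mul (k1 x).1 (ht x y) (norm_nonneg _) (by linarith))
            (mul_le_mul (hs x y) (k2 y).1 (norm_nonneg _) (by positivity))
      _ = _ := by ring

end F3RTPAux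

open F3RTPAux

/-- **RTP.** -/
theorem specRtp (hHol : PR.SpecHol.{u, v}) (hRat : PR.SpecRat.{u, v}) (hRng : SpecRng.{u, v, w}) :
    SpecRtp.{u, v, w} := by
  intro M W _ _ _ _ _ E k J _ A χ F hAct n₀ n' i j hwal s b hq n hn hlt S hS
  have hcomm : ∀ n n' x, A n (A n' x) = A n' (A n x) := fun n n' x => by
    rw [← hAct.add, ← hAct.add, add_comm]
  obtain ⟨s₁, hs₁, ⟨C₁, hq₁⟩, hs₁S, hs₁U⟩ := hAct.split n₀ hwal.reg
  obtain ⟨t₁, ht₁, ⟨C₂, hq₂⟩, ht₁S, ht₁U⟩ := hAct.split n' hwal.reg'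
  obtain ⟨s₀, hs₀, ⟨C₀, hq₀⟩, -⟩ := hAct.split n hn
  have hc := hcomm n₀ n'
  have hrng := (hRng M W E k J χ F (A n₀) (A n') s₁ t₁ n₀ n' hs₁ ht₁ hc hwal.reg hwal.reg'
    hs₁S hs₁U ht₁S ht₁U i j hwal).1
  -- the Hölder constants
  obtain ⟨D₁, β₁, hβ₁, hβ₁1, hD₁, H₁⟩ := exists_hol hHol s₁ hs₁ hq₁
  obtain ⟨D₂, β₂, hβ₂, hβ₂1, hD₂, H₂⟩ := exists_hol hHol t₁ ht₁ hq₂
  have hβ : 0 < min β₁ β₂ := lt_min hβ₁ hβ₂
  have hβ1 : min β₁ β₂ ≤ 1 := (min_le_left _ _).trans hβ₁1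
  obtain ⟨D₁', hD₁', H₁'⟩ := holder_of_le hD₁ (fun x y => (H₁ x y).1) hβ (min_le_left _ _)
  obtain ⟨D₂', hD₂', H₂'⟩ := holder_of_le hD₂ (fun x y => (H₂ x y).2) hβ (min_le_right _ _)
  have hd : ∀ x y : M, 0 ≤ dist x y ^ min β₁ β₂ := fun x y => by positivity
  obtain ⟨K, C₃, hK0, hC₃, hK, hR⟩ := PP_hol s₁ t₁.swap (C := max D₁' D₂')
    (hD₁'.trans (le_max_left _ _))
    (fun x y => (H₁' x y).trans (mul_le_mul_of_nonneg_right (le_max_left _ _) (hd x y)))
    (fun x y => (H₂' x y).trans (mul_le_mul_of_nonneg_right (le_max_right _ _) (hd x y)))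
  obtain ⟨D₄, hD₄, H₄⟩ := holder_of_le (T := S.D) (C := |C₀|) (β := 1) (abs_nonneg C₀)
    (fun x y => by
      rw [S.hD.unique s₀.hD x, S.hD.unique s₀.hD y, Real.rpow_one]
      exact (hq₀.lipD y x).trans (mul_le_mul_of_nonneg_right (le_abs_self _) dist_nonneg))
    hβ hβ1
  obtain ⟨D₅, hD₅, H₅⟩ := holder_of_le (T := S.Di) (C := |C₀|) (β := 1) (abs_nonneg C₀)
    (fun x y => by
      rw [S.hDi.unique s₀.hDi x, S.hDi.unique s₀.hDi y, Real.rpow_one]
      exact (hq₀.lipDi y x).trans (mul_le_mul_of_nonneg_right (le_abs_self _) dist_nonneg))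
    hβ hβ1
  set C : ℝ := max C₃ (max D₄ D₅) with hC
  have c3 : C₃ ≤ C := le_max_left _ _
  have c4 : D₄ ≤ C := (le_max_left _ _).trans (le_max_right _ _)
  have c5 : D₅ ≤ C := (le_max_right _ _).trans (le_max_right _ _)
  have hidem : ∀ x, PP s₁ t₁.swap x ∘L PP s₁ t₁.swap x = PP s₁ t₁.swap x :=
    PP_idem s₁ t₁.swap hs₁ ht₁.swap (fun x => (comm_symm (fun y => (hc y).symm) x).symm)
  have hmem : ∀ x w, PP s₁ t₁.swap x w ∈ coarse χ F i x := fun x w => by
    rw [← hrng]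
    exact ⟨w, rfl⟩
  have hfix : ∀ x, ∀ w ∈ coarse χ F i x, PP s₁ t₁.swap x w = w := fun x w hw => by
    rw [← hrng] at hw
    obtain ⟨v, rfl⟩ := hw
    exact congrArg (fun L : W →L[ℝ] W => L v) (hidem x)
  have hcs : ∀ m x, (A n).symm (A m x) = A m ((A n).symm x) := fun m x =>
    comm_symm (hcomm n m) x
  have hcs' : ∀ m x, A n ((A m).symm x) = (A m).symm (A n x) := fun m x =>
    (comm_symm (fun y => (hcomm n m y).symm) x).symm
  have hcs'' : ∀ m x, (A n).symm ((A m).symm x) = (A m).symm ((A n).symm x) := fun m x =>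
    comm_symm (hcs' m) x
  -- forward
  have hfwd := hRat S hS (PP s₁ t₁.swap) K C (min β₁ β₂) hidem
    (D_PP S s₁ t₁.swap hs₁ ht₁.swap (hcomm n n₀) (hcs' n')) hK hβ hβ1
    (fun x y => (H₄ x y).trans (mul_le_mul_of_nonneg_right c4 (hd x y)))
    (fun x y => (hR x y).trans (mul_le_mul_of_nonneg_right c3 (hd x y)))
    (s * ev (χ i) n) (fun p q hq0 hp ε hε => by
      obtain ⟨C', hC'⟩ := hq n hn hlt S hS p ⟨q, hq0, hp⟩ ε hε
      refine ⟨|C'| * K, fun m w => ?_⟩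
      refine (hC' m _ (hmem p w)).1.trans ?_
      calc C' * Real.exp ((s * ev (χ i) n + ε) * m) * ‖PP s₁ t₁.swap p w‖
          ≤ |C'| * Real.exp ((s * ev (χ i) n + ε) * m) * (K * ‖w‖) := by
            gcongr
            · exact le_abs_self _
            · exact (PP s₁ t₁.swap p).le_of_opNorm_le (hK p) w
        _ = _ := by ring)
  -- backward
  have hbwd := hRat S.swap hS.swap (PP s₁ t₁.swap) K C (min β₁ β₂) hidem
    (D_PP S.swap s₁ t₁.swap hs₁ ht₁.swap (hcs n₀) (hcs'' n')) hK hβ hβ1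
    (fun x y => (H₅ x y).trans (mul_le_mul_of_nonneg_right c5 (hd x y)))
    (fun x y => (hR x y).trans (mul_le_mul_of_nonneg_right c3 (hd x y)))
    (-(b * ev (χ i) n)) (fun p q hq0 hp ε hε => by
      have hp' : (A n)^[q] p = p := by
        have h1 := (Function.LeftInverse.iterate (g := (A n)) (f := (A n).symm)
          (fun x => (A n).apply_symm_apply x) q) p
        rwa [hp] at h1
      obtain ⟨C', hC'⟩ := hq n hn hlt S hS p ⟨q, hq0, hp'⟩ ε hε
      refine ⟨|C'| * K, fun m w => ?_⟩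
      refine (hC' m _ (hmem p w)).2.trans ?_
      calc C' * Real.exp ((-(b * ev (χ i) n) + ε) * m) * ‖PP s₁ t₁.swap p w‖
          ≤ |C'| * Real.exp ((-(b * ev (χ i) n) + ε) * m) * (K * ‖w‖) := by
            gcongr
            · exact le_abs_self _
            · exact (PP s₁ t₁.swap p).le_of_opNorm_le (hK p) w
        _ = _ := by ring)
  intro e he
  obtain ⟨B₁, hB₁⟩ := hfwd e he
  obtain ⟨B₂, hB₂⟩ := hbwd e he
  refine ⟨max B₁ B₂, fun m x w hw => ⟨?_, ?_⟩⟩
  · have h1 := hB₁ m x w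
    rw [hfix x w hw] at h1
    refine h1.trans ?_
    gcongr
    exact le_max_left _ _
  · have h1 := hB₂ m x w
    rw [hfix x w hw] at h1
    refine h1.trans ?_
    gcongr
    exact le_max_right _ _

end Pool.Agent.Lib.MP610fe3.HR
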