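import Pool.Agent.Lib.MP_610fe3_an.HR.F3RSpec
import Pool.Agent.Lib.MP_610fe3_an.HR.F3RTP

/-!
# Module RTPA: the rates at the periodic points of one regular element (hive F3)
-/

set_option autoImplicit false

open Set Filter Function
open scoped Topology

namespace Pool.Agent.Lib.MP610fe3.HR

open Cf CH F3RTPAux

universe u v w

/-- **RTPA.** -/
theorem specRtpa (hHol : PR.SpecHol.{u, v}) (hRat : PR.SpecRat.{u, v})
    (hRng : SpecRng.{u, v, w}) : SpecRtpa.{u, v, w} := by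
  intro M W _ _ _ _ _ E k J _ A χ F hAct n₀ n' i j hwal n hn s b hq S hS
  have hcomm : ∀ n n' x, A n (A n' x) = A n' (A n x) := fun n n' x => by
    rw [← hAct.add, ← hAct.add, add_comm]
  obtain ⟨s₁, hs₁, ⟨C₁, hq₁⟩, hs₁S, hs₁U⟩ := hAct.split n₀ hwal.reg
  obtain ⟨t₁, ht₁, ⟨C₂, hq₂⟩, ht₁S, ht₁U⟩ := hAct.split n' hwal.reg'
  obtain ⟨s₀, hs₀, ⟨C₀, hq₀⟩, -⟩ := hAct.split n hn
  have hc := hcomm n₀ n'
  have hrng := (hRng M W E k J χ F (A n₀) (A n') s₁ t₁ n₀ n' hs₁ ht₁ hc hwal.reg hwal.reg'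
    hs₁S hs₁U ht₁S ht₁U i j hwal).1
  -- the Hölder constants
  obtain ⟨D₁, β₁, hβ₁, hβ₁1, hD₁, H₁⟩ := exists_hol hHol s₁ hs₁ hq₁
  obtain ⟨D₂, β₂, hβ₂, hβ₂1, hD₂, H₂⟩ := exists_hol hHol t₁ ht₁ hq₂
  have hβ : 0 < min β₁ β₂ := lt_min hβ₁ hβ₂
  have hβ1 : min β₁ β₂ ≤ 1 := (min_le_left _ _).trans hβ₁1
  obtain ⟨D₁', hD₁', H₁'⟩ := holder_of_le hD₁ (fun x y => (H₁ x y).1) hβ (min_le_left _ _)
  obtain ⟨D₂', hD₂', H₂'⟩ := holder_of_le hD₂ (fun x y => (H₂ x y).2) hβ (min_le_right _ _)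
  have hd : ∀ x y : M, 0 ≤ dist x y ^ min β₁ β₂ := fun x y => by positivity
  obtain ⟨K, C₃, hK0, hC₃, hK, hR⟩ := PP_hol s₁ t₁.swap (C := max D₁' D₂')
    (hD₁'.trans (le_max_left _ _))
    (fun x y => (H₁' x y).trans (mul_le_mul_of_nonneg_right (le_max_left _ _) (hd x y)))
    (fun x y => (H₂' x y).trans (mul_le_mul_of_nonneg_right (le_max_right _ _) (hd x y)))
  obtain ⟨D₄, hD₄, H₄⟩ := holder_of_le (T := S.D) (C := |C₀|) (β := 1) (abs_nonneg C₀)
    (fun x y => by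
      rw [S.hD.unique s₀.hD x, S.hD.unique s₀.hD y, Real.rpow_one]
      exact (hq₀.lipD y x).trans (mul_le_mul_of_nonneg_right (le_abs_self _) dist_nonneg))
    hβ hβ1
  obtain ⟨D₅, hD₅, H₅⟩ := holder_of_le (T := S.Di) (C := |C₀|) (β := 1) (abs_nonneg C₀)
    (fun x y => by
      rw [S.hDi.unique s₀.hDi x, S.hDi.unique s₀.hDi y, Real.rpow_one]
      exact (hq₀.lipDi y x).trans (mul_le_mul_of_nonneg_right (le_abs_self _) dist_nonneg))
    hβ hβ1
  set C : ℝ := max C₃ (max D₄ D₅) with hC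
  have c3 : C₃ ≤ C := le_max_left _ _
  have c4 : D₄ ≤ C := (le_max_left _ _).trans (le_max_right _ _)
  have c5 : D₅ ≤ C := (le_max_right _ _).trans (le_max_right _ _)
  have hidem : ∀ x, PP s₁ t₁.swap x ∘L PP s₁ t₁.swap x = PP s₁ t₁.swap x :=
    PP_idem s₁ t₁.swap hs₁ ht₁.swap (fun x => (comm_symm (fun y => (hc y).symm) x).symm)
  have hmem : ∀ x w, PP s₁ t₁.swap x w ∈ coarse χ F i x := fun x w => by
    rw [← hrng]
    exact ⟨w, rfl⟩
  have hfix : ∀ x, ∀ w ∈ coarse χ F i x, PP s₁ t₁.swap x w = w := fun x w hw => by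
    rw [← hrng] at hw
    obtain ⟨v, rfl⟩ := hw
    exact congrArg (fun L : W →L[ℝ] W => L v) (hidem x)
  have hcs : ∀ m x, (A n).symm (A m x) = A m ((A n).symm x) := fun m x =>
    comm_symm (hcomm n m) x
  have hcs' : ∀ m x, A n ((A m).symm x) = (A m).symm (A n x) := fun m x =>
    (comm_symm (fun y => (hcomm n m y).symm) x).symm
  have hcs'' : ∀ m x, (A n).symm ((A m).symm x) = (A m).symm ((A n).symm x) := fun m x =>
    comm_symm (hcs' m) x
  -- forward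
  have hfwd := hRat S hS (PP s₁ t₁.swap) K C (min β₁ β₂) hidem
    (D_PP S s₁ t₁.swap hs₁ ht₁.swap (hcomm n n₀) (hcs' n')) hK hβ hβ1
    (fun x y => (H₄ x y).trans (mul_le_mul_of_nonneg_right c4 (hd x y)))
    (fun x y => (hR x y).trans (mul_le_mul_of_nonneg_right c3 (hd x y)))
    (-s) (fun p q hq0 hp ε hε => by
      obtain ⟨C', hC'⟩ := hq S hS p ⟨q, hq0, hp⟩ ε hε
      refine ⟨|C'| * K, fun m w => ?_⟩
      refine (hC' m _ (hmem p w)).1.trans ?_
      calc C' * Real.exp ((-s + ε) * m) * ‖PP s₁ t₁.swap p w‖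
          ≤ |C'| * Real.exp ((-s + ε) * m) * (K * ‖w‖) := by
            gcongr
            · exact le_abs_self _
            · exact (PP s₁ t₁.swap p).le_of_opNorm_le (hK p) w
        _ = _ := by ring)
  -- backward
  have hbwd := hRat S.swap hS.swap (PP s₁ t₁.swap) K C (min β₁ β₂) hidem
    (D_PP S.swap s₁ t₁.swap hs₁ ht₁.swap (hcs n₀) (hcs'' n')) hK hβ hβ1
    (fun x y => (H₅ x y).trans (mul_le_mul_of_nonneg_right c5 (hd x y)))
    (fun x y => (hR x y).trans (mul_le_mul_of_nonneg_right c3 (hd x y)))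
    b (fun p q hq0 hp ε hε => by
      have hp' : (A n)^[q] p = p := by
        have h1 := (Function.LeftInverse.iterate (g := (A n)) (f := (A n).symm)
          (fun x => (A n).apply_symm_apply x) q) p
        rwa [hp] at h1
      obtain ⟨C', hC'⟩ := hq S hS p ⟨q, hq0, hp'⟩ ε hε
      refine ⟨|C'| * K, fun m w => ?_⟩
      refine (hC' m _ (hmem p w)).2.trans ?_
      calc C' * Real.exp ((b + ε) * m) * ‖PP s₁ t₁.swap p w‖
          ≤ |C'| * Real.exp ((b + ε) * m) * (K * ‖w‖) := by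
            gcongr
            · exact le_abs_self _
            · exact (PP s₁ t₁.swap p).le_of_opNorm_le (hK p) w
        _ = _ := by ring)
  intro e he
  obtain ⟨B₁, hB₁⟩ := hfwd e he
  obtain ⟨B₂, hB₂⟩ := hbwd e he
  refine ⟨max B₁ B₂, fun m x w hw => ⟨?_, ?_⟩⟩
  · have h1 := hB₁ m x w
    rw [hfix x w hw] at h1
    refine h1.trans ?_
    gcongr
    exact le_max_left _ _
  · have h1 := hB₂ m x w
    rw [hfix x w hw] at h1
    refine h1.trans ?_
    gcongr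
    exact le_max_right _ _

end Pool.Agent.Lib.MP610fe3.HR
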