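import Pool.Agent.Lib.MP_610fe3_an.HR.F3Spec
import Pool.Agent.Lib.MP_610fe3_an.HR.CHN

/-!
# Module SATP: the wall with a pinched pair
-/

set_option autoImplicit false

open Set Filter Function
open scoped Topology

namespace Pool.Agent.Lib.MP610fe3.HR

open Cf CH CHNAux

universe u v w

namespace F3SATPAux

/-- The opposite wall. -/
theorem wal_neg {k : ℕ} {J : Type*} {χ : J → Fin k → ℝ} {n n' : Fin k → ℤ} {i j : J}
    (h : Wal χ n n' i j) : Wal χ (-n) (-n') j i := by
  have hs := Wal.symm h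
  have hneg : ∀ (l : J) (m : Fin k → ℤ), ev (χ l) (-m) = -ev (χ l) m := fun l m => ev_neg _ _
  have hregn : ∀ {m : Fin k → ℤ}, Regular χ m → Regular χ (-m) := fun {m} hm l => by
    rw [hneg]
    exact neg_ne_zero.2 (hm l)
  refine ⟨hregn h.reg, hregn h.reg', hs.neg, ?_, ?_, fun l hl => ?_⟩
  · rw [hneg]
    have := hs.gt
    linarith
  · rw [hneg]
    have := hs.lt
    linarith
  · refine hs.only l fun h' => hl ?_
    rw [hneg, hneg]
    have e1 := h.reg l
    have e2 := h.reg' l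
    constructor
    · intro a
      by_contra b
      have b1 : ev (χ l) n' < 0 := lt_of_le_of_ne (by linarith) e2
      have := h'.1 b1
      linarith
    · intro a
      by_contra b
      have b1 : ev (χ l) n < 0 := lt_of_le_of_ne (by linarith) e1
      have := h'.2 b1
      linarith

/-- `σ` from the rates: `b c ≤ σ (c - b)` with equality. -/
theorem sigma_eq {b K κ : ℝ} (hK : b < K) :
    b * κ * (K * κ) ≤ b * K / (K - b) * κ * (K * κ - b * κ) := by
  have h1 : 0 < K - b := by linarith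
  have h2 : b * K / (K - b) * κ * (K * κ - b * κ) = b * κ * (K * κ) := by
    have h3 : K * κ - b * κ = (K - b) * κ := by ring
    rw [h3]
    field_simp
  exact h2.ge

end F3SATPAux

open F3SATPAux in
/-- **SATP.** -/
theorem specSatp (hNari : SpecNari.{w}) (hRatx : SpecRatx.{u, v, w}) (hNum : SpecNum)
    (hWalp : SpecWalp.{u, v}) (hPair : SpecPair.{u, v}) (hActl : SpecActl.{u, v, w}) :
    SpecSatp.{u, v, w} := by
  intro M W _ _ _ _ _ _ E k J _ A χ F H n n' i j h s b s' b' hP hRi hRj Z hZ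
  obtain ⟨hcomm, hzero, hneg, hstep⟩ := hActl M W E k J A χ F H
  obtain ⟨θ, η, K, hθ, hη, hηs, hηs', hbK, hbK', hI1, hI2⟩ := hNum s b s' b' hP
  obtain ⟨hs0, hsb, hs0', hsb', -⟩ := hP
  have h1 : Wal χ (-n) (-n') j i := wal_neg h
  obtain ⟨q₀, hq₀⟩ := hNari k J χ n n' i j h
  obtain ⟨q₁, hq₁⟩ := hRatx M W E k J A χ F H n n' i j h s b η K hRi hη hηs hsb hbK
  obtain ⟨q₂, hq₂⟩ := hRatx M W E k J A χ F H (-n) (-n') j i h1 s' b' η K hRj hη hηs' hsb' hbK'
  set q : ℕ := max q₀ (max q₁ q₂) with hq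
  have hqa : q₀ ≤ q := le_max_left _ _
  have hqb : q₁ ≤ q := (le_max_left _ _).trans (le_max_right _ _)
  have hqc : q₂ ≤ q := (le_max_right _ _).trans (le_max_right _ _)
  obtain ⟨p, hp1, hW, hsg, hreg, hlt⟩ := hq₀ q hqa
  obtain ⟨a1, a2, a3⟩ := hq₁ q hqb p hp1 hW hsg hlt
  have hnn : (p : ℤ) • (-n) + (q : ℤ) • (-n') = -((p : ℤ) • n + (q : ℤ) • n') := by
    rw [smul_neg, smul_neg, neg_add]
  have hB := hq₂ q hqc p hp1
  rw [hnn] at hB
  set m : Fin k → ℤ := (p : ℤ) • n + (q : ℤ) • n' with hm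
  have hWm := wal_neg hW
  obtain ⟨t, ht, hχ⟩ := h.neg
  have hevj : ∀ x, ev (χ j) x = -(t * ev (χ i) x) := fun x => by rw [hχ, ev_neg_smul]
  have hnev : ∀ (l : J) (x : Fin k → ℤ), ev (χ l) (-x) = -ev (χ l) x := fun l x => ev_neg _ _
  obtain ⟨b1, b2, b3⟩ := hB hWm (fun l => by
      rw [hnev, hnev]
      have e1 := h.reg l
      have e2 := hW.reg l
      constructor
      · intro a
        by_contra c
        have c1 : ev (χ l) n < 0 := lt_of_le_of_ne (by linarith) e1
        have := (hsg l).2 c1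
        linarith
      · intro a
        by_contra c
        have c1 : ev (χ l) m < 0 := lt_of_le_of_ne (by linarith) e2
        have := (hsg l).1 c1
        linarith) (by
      have e : (2 : ℤ) • (-n) - -m = -((2 : ℤ) • n - m) := by
        rw [smul_neg]
        abel
      rw [e, hnev, hevj]
      have := mul_neg_of_pos_of_neg ht hlt
      linarith)
  rw [hneg] at b1 b2 b3
  rw [hneg] at b2 b3
  set κ : ℝ := -ev (χ i) m with hκ
  set κ' : ℝ := -ev (χ j) (-m) with hκ'
  have hκ0 : 0 < κ := by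
    have := hW.lt
    rw [hκ]
    linarith
  have hκκ : κ' = t * κ := by
    rw [hκ', hκ, hnev, hevj]
    ring
  have hκ0' : 0 < κ' := by
    rw [hκκ]
    exact mul_pos ht hκ0
  obtain ⟨S, hS, -⟩ := H.split m hW.reg
  obtain ⟨T, hT, -⟩ := H.split n' h.reg'
  obtain ⟨ε, C, l, hPr⟩ := hPair M W E (A m) (A n') S T hS hT (hcomm m n')
  have hd : 0 < K - (b + η) := by linarith
  have hd' : 0 < K - (b' + η) := by linarith
  have hfin := hWalp M W E (A m) (A n') S ε C l ((s - η) * κ) ((s' - η) * κ') (K * κ) (K * κ')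
    ((b + η) * κ) ((b' + η) * κ') θ ((b + η) * K / (K - (b + η)) * κ)
    ((b' + η) * K / (K - (b' + η)) * κ') hS hPr (mul_pos (by linarith) hκ0)
    (mul_pos (by linarith) hκ0') a1 b1 a2 b2 a3 b3 (mul_pos (by linarith) hκ0)
    (mul_lt_mul_of_pos_right hbK hκ0) (mul_pos (by linarith) hκ0')
    (mul_lt_mul_of_pos_right hbK' hκ0') hθ (sigma_eq hbK) (sigma_eq hbK')
    (by
      have e : (b' + η) * K / (K - (b' + η)) < (s' - η) * (1 + θ) := (div_lt_iff₀ hd').2 hI2
      calc (b' + η) * K / (K - (b' + η)) * κ' < (s' - η) * (1 + θ) * κ' :=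
            mul_lt_mul_of_pos_right e hκ0'
        _ = (s' - η) * κ' * (1 + θ) := by ring)
    (by
      have e : (b + η) * K * θ / (K - (b + η)) < (s - η) * (1 + θ) := (div_lt_iff₀ hd).2 hI1
      calc (b + η) * K / (K - (b + η)) * κ * θ = (b + η) * K * θ / (K - (b + η)) * κ := by ring
        _ < (s - η) * (1 + θ) * κ := mul_lt_mul_of_pos_right e hκ0
        _ = (s - η) * κ * (1 + θ) := by ring)
  have hst : Step χ n m := ⟨h.reg, hW.reg, Or.inl fun l hl => (hsg l).2 hl⟩
  have hss := hstep n m hst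
  exact hfin Z (minimal_of hss.1 hss.2 hZ)

end Pool.Agent.Lib.MP610fe3.HR
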