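import Pool.Agent.Lib.MP_610fe3_an.HR.F3Spec

/-!
# Module TRN: transport of a chain of unstable links along a chain of stable links
-/

set_option autoImplicit false

open Set Filter Function
open scoped Topology

namespace Pool.Agent.Lib.MP610fe3.HR

open Cf CH

universe u v

namespace F3TRNAux

section

variable {M : Type u} [MetricSpace M] {f : M ≃ₜ M}

theorem symm_iter_iter (f : M ≃ₜ M) (n k : ℕ) (x : M) :
    f.symm^[n + k] (f^[k] x) = f.symm^[n] x := by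
  rw [iterate_add_apply]
  congr 1
  induction k with
  | zero => rfl
  | succ k ih => rw [iterate_succ_apply, iterate_succ_apply', f.symm_apply_apply, ih]

theorem back_le (f : M ≃ₜ M) {k T : ℕ} (h : k ≤ T) (x : M) :
    f.symm^[k] (f^[T] x) = f^[T - k] x := by
  obtain ⟨j, rfl⟩ := Nat.exists_eq_add_of_le h
  rw [iterate_add_apply, Nat.add_sub_cancel_left]
  have := symm_iter_iter f 0 k (f^[j] x)
  simpa using this

theorem back_ge (f : M ≃ₜ M) {k T : ℕ} (h : T ≤ k) (x : M) :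
    f.symm^[k] (f^[T] x) = f.symm^[k - T] x := by
  obtain ⟨j, rfl⟩ := Nat.exists_eq_add_of_le h
  rw [Nat.add_sub_cancel_left, add_comm]
  exact symm_iter_iter f j T x

theorem fa_of_wl {ε C l : ℝ} (h : Dec f ε C l) {x z : M} (hz : z ∈ Wl f ε x) :
    FwdAsymp f x z := by
  have h1 : Tendsto (fun k : ℕ => C * l ^ k * dist z x) atTop (𝓝 0) := by
    have := ((tendsto_pow_atTop_nhds_zero_of_lt_one h.l_pos.le h.l_lt).const_mul C).mul_const
      (dist z x)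
    simpa using this
  refine squeeze_zero (fun _ => dist_nonneg) (fun k => ?_) h1
  rw [dist_comm]
  exact h.dec x z hz k

theorem wl_mono {r r' : ℝ} (h : r ≤ r') {x z : M} (hz : z ∈ Wl f r x) : z ∈ Wl f r' x :=
  fun k => (hz k).trans h

theorem wl_self {r : ℝ} (h : 0 ≤ r) (x : M) : x ∈ Wl f r x := fun k => by
  rw [dist_self]
  exact h

/-- Distances along a chain. -/
theorem dist_chain {v : ℕ → M} {N : ℕ} {d : ℝ} (h : ∀ l < N, dist (v (l + 1)) (v l) ≤ d) :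
    ∀ l ≤ N, dist (v l) (v 0) ≤ l * d := by
  intro l
  induction l with
  | zero => intro _; simp
  | succ l ih =>
    intro hl
    have h1 := ih (by omega)
    have h2 := h l (by omega)
    have h3 := dist_triangle (v (l + 1)) (v l) (v 0)
    push_cast
    linarith

/-- The state at a stage of the transport. -/
structure Inv (f : M ≃ₜ M) (R : Set M) (T N : ℕ) (e₁ d : ℝ) (y : M) (v : ℕ → M) : Prop where
  a : v 0 = y
  b : ∀ l < N, f^[T] (v (l + 1)) ∈ Wl f.symm e₁ (f^[T] (v l))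
  c : ∀ l < N, dist (f^[T] (v (l + 1))) (f^[T] (v l)) ≤ d
  d : f^[T] (v N) ∈ R

/-- One step of the transport. -/
theorem step {ε C es Cs ls eu Cu lu e₁ ε' δ r₂ r₁ : ℝ} {R : Set M} {T N : ℕ} {d : ℝ}
    (hbr : Br f ε C) (hs : Dec f es Cs ls) (hu : Dec f.symm eu Cu lu) (he₁u : e₁ ≤ eu)
    (hε'0 : 0 ≤ ε') (hε's : ε' ≤ es) (hε'ε : ε' ≤ ε) (h2 : 2 * ε' + Cu * (2 * r₁) ≤ e₁)
    (hr₁ : 0 ≤ r₁)
    (hδ : ∀ x y, dist x y < δ → ∃ z, z ∈ Wl f ε' x ∧ z ∈ Wl f.symm ε' y) (hr₂ : r₂ ≤ ε)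
    (hR : Sat f R) (hd : d ≤ 2 * r₁)
    (hN : N * (Cu * lu ^ T * (2 * r₁)) + r₂ < δ) {y y' : M} (hy : y' ∈ Wl f r₂ y) {v : ℕ → M}
    (hv : Inv f R T N e₁ d y v) :
    ∃ v', Inv f R T N e₁ (d + 2 * (Cs * ls ^ T * ε')) y' v' := by
  have hCu : 0 ≤ Cu := zero_le_one.trans hu.one_le
  have hCs : 0 ≤ Cs := zero_le_one.trans hs.one_le
  -- backward distances of the old points
  have hback : ∀ l < N, ∀ k : ℕ, dist (f.symm^[k] (f^[T] (v (l + 1))))
      (f.symm^[k] (f^[T] (v l))) ≤ Cu * lu ^ k * (2 * r₁) := fun l hl k =>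
    (hu.dec _ _ (wl_mono he₁u (hv.b l hl)) k).trans
      (mul_le_mul_of_nonneg_left ((hv.c l hl).trans hd)
        (mul_nonneg hCu (pow_nonneg hu.l_pos.le k)))
  have hdist : ∀ l ≤ N, dist (v l) y' < δ := by
    intro l hl
    have h3 : ∀ l < N, dist (v (l + 1)) (v l) ≤ Cu * lu ^ T * (2 * r₁) := fun l hl => by
      have := hback l hl T
      rwa [back_le f le_rfl, back_le f le_rfl, Nat.sub_self] at this
    have h4 := dist_chain h3 l hl
    have h5 : (l : ℝ) * (Cu * lu ^ T * (2 * r₁)) ≤ N * (Cu * lu ^ T * (2 * r₁)) :=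
      mul_le_mul_of_nonneg_right (by exact_mod_cast hl)
        (mul_nonneg (mul_nonneg hCu (pow_nonneg hu.l_pos.le T)) (by linarith))
    have h6 := dist_triangle (v l) (v 0) y'
    have h7 : dist (v 0) y' ≤ r₂ := by
      rw [hv.a, dist_comm]
      simpa using hy 0
    linarith
  have hex : ∀ l : ℕ, ∃ z, l ≤ N → z ∈ Wl f ε' (v l) ∧ z ∈ Wl f.symm ε' y' := fun l => by
    by_cases hl : l ≤ N
    · obtain ⟨z, h3, h4⟩ := hδ _ _ (hdist l hl)
      exact ⟨z, fun _ => ⟨h3, h4⟩⟩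
    · exact ⟨v l, fun h => absurd h hl⟩
  choose v' hv' using hex
  have hclose : ∀ l ≤ N, dist (f^[T] (v' l)) (f^[T] (v l)) ≤ Cs * ls ^ T * ε' := fun l hl => by
    have h3 := hs.dec _ _ (wl_mono hε's (hv' l hl).1) T
    refine h3.trans (mul_le_mul_of_nonneg_left ?_ (mul_nonneg hCs (pow_nonneg hs.l_pos.le T)))
    simpa using (hv' l hl).1 0
  refine ⟨v', ?_, fun l hl => ?_, fun l hl => ?_, ?_⟩
  · refine hbr.unique y y' (v' 0) y' ?_ (wl_mono hε'ε (hv' 0 (Nat.zero_le N)).2)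
      (wl_mono hr₂ hy) (wl_self hbr.ε_pos.le y')
    have := wl_mono hε'ε (hv' 0 (Nat.zero_le N)).1
    rwa [hv.a] at this
  · intro k
    rcases le_or_gt k T with hk | hk
    · rw [back_le f hk, back_le f hk]
      have h3 := hback l hl k
      rw [back_le f hk, back_le f hk] at h3
      have h4 := (hv' l (by omega)).1 (T - k)
      have h5 := (hv' (l + 1) (by omega)).1 (T - k)
      have h6 : Cu * lu ^ k * (2 * r₁) ≤ Cu * (2 * r₁) := by
        have : lu ^ k ≤ 1 := pow_le_one₀ hu.l_pos.le hu.l_lt.le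
        have h7 : Cu * lu ^ k ≤ Cu * 1 := mul_le_mul_of_nonneg_left this hCu
        rw [mul_one] at h7
        exact mul_le_mul_of_nonneg_right h7 (by linarith)
      have h7 := dist_triangle4 (f^[T - k] (v' (l + 1))) (f^[T - k] (v (l + 1)))
        (f^[T - k] (v l)) (f^[T - k] (v' l))
      have h8 : dist (f^[T - k] (v l)) (f^[T - k] (v' l)) ≤ ε' := by
        rw [dist_comm]
        exact h4
      linarith
    · rw [back_ge f hk.le, back_ge f hk.le]
      have h4 := (hv' l (by omega)).2 (k - T)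
      have h5 := (hv' (l + 1) (by omega)).2 (k - T)
      have h6 := dist_triangle (f.symm^[k - T] (v' (l + 1))) (f.symm^[k - T] y')
        (f.symm^[k - T] (v' l))
      have h8 : dist (f.symm^[k - T] y') (f.symm^[k - T] (v' l)) ≤ ε' := by
        rw [dist_comm]
        exact h4
      have h9 : 0 ≤ Cu * (2 * r₁) := mul_nonneg hCu (by linarith)
      linarith
  · have h4 := hclose l (by omega)
    have h5 := hclose (l + 1) (by omega)
    have h6 := hv.c l hl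
    have h7 := dist_triangle4 (f^[T] (v' (l + 1))) (f^[T] (v (l + 1)))
      (f^[T] (v l)) (f^[T] (v' l))
    have h8 : dist (f^[T] (v l)) (f^[T] (v' l)) ≤ Cs * ls ^ T * ε' := by
      rw [dist_comm]
      exact h4
    linarith
  · exact hR _ hv.d _ (fa_iter T (fa_of_wl hs (wl_mono hε's (hv' N le_rfl).1)))

/-- All the stages of the transport. -/
theorem stages {ε C es Cs ls eu Cu lu e₁ ε' δ r₂ r₁ : ℝ} {R : Set M} {T N S : ℕ}
    (hbr : Br f ε C) (hs : Dec f es Cs ls) (hu : Dec f.symm eu Cu lu) (he₁u : e₁ ≤ eu)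
    (hε'0 : 0 ≤ ε') (hε's : ε' ≤ es) (hε'ε : ε' ≤ ε) (h2 : 2 * ε' + Cu * (2 * r₁) ≤ e₁)
    (hr₁ : 0 ≤ r₁)
    (hδ : ∀ x y, dist x y < δ → ∃ z, z ∈ Wl f ε' x ∧ z ∈ Wl f.symm ε' y) (hr₂ : r₂ ≤ ε)
    (hR : Sat f R) (hS : S * (2 * (Cs * ls ^ T * ε')) ≤ r₁)
    (hN : N * (Cu * lu ^ T * (2 * r₁)) + r₂ < δ) {y : ℕ → M}
    (hy : ∀ i < S, y (i + 1) ∈ Wl f r₂ (y i)) {v : ℕ → M}
    (hv : Inv f R T N e₁ r₁ (y 0) v) :
    ∀ i ≤ S, ∃ v', Inv f R T N e₁ (r₁ + i * (2 * (Cs * ls ^ T * ε'))) (y i) v' := by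
  have hω : 0 ≤ 2 * (Cs * ls ^ T * ε') := by
    have : 0 ≤ Cs := zero_le_one.trans hs.one_le
    have : 0 ≤ ls ^ T := pow_nonneg hs.l_pos.le T
    positivity
  intro i
  induction i with
  | zero =>
    intro _
    exact ⟨v, by simpa using hv⟩
  | succ i ih =>
    intro hi
    obtain ⟨v', hv'⟩ := ih (by omega)
    have hd : r₁ + i * (2 * (Cs * ls ^ T * ε')) ≤ 2 * r₁ := by
      have h3 : (i : ℝ) * (2 * (Cs * ls ^ T * ε')) ≤ S * (2 * (Cs * ls ^ T * ε')) :=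
        mul_le_mul_of_nonneg_right (by exact_mod_cast (by omega : i ≤ S)) hω
      linarith
    obtain ⟨v'', hv''⟩ := step hbr hs hu he₁u hε'0 hε's hε'ε h2 hr₁ hδ hr₂ hR hd hN
      (hy i (by omega)) hv'
    refine ⟨v'', ?_⟩
    have : r₁ + ((i + 1 : ℕ) : ℝ) * (2 * (Cs * ls ^ T * ε')) =
        r₁ + i * (2 * (Cs * ls ^ T * ε')) + 2 * (Cs * ls ^ T * ε') := by
      push_cast
      ring
    rwa [this]

end

/-- A negative exponential is eventually small. -/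
theorem eventually_small {κ : ℝ} (hκ : κ < 0) (a b : ℝ) {η : ℝ} (hη : 0 < η) :
    ∀ᶠ n : ℕ in atTop, a * Real.exp (κ * n + b) < η := by
  have h1 : Tendsto (fun n : ℕ => κ * (n : ℝ) + b) atTop atBot :=
    tendsto_atBot_add_const_right _ _
      ((tendsto_natCast_atTop_atTop (R := ℝ)).const_mul_atTop_of_neg hκ)
  have h2 : Tendsto (fun n : ℕ => a * Real.exp (κ * n + b)) atTop (𝓝 (a * 0)) :=
    (Real.tendsto_exp_atBot.comp h1).const_mul a
  rw [mul_zero] at h2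
  exact h2.eventually (gt_mem_nhds hη)

end F3TRNAux

open F3TRNAux in
/-- **TRN.** -/
theorem specTrn : SpecTrn.{u} := by
  intro M _ _ f ε C l s s' θ σ β A R p q m hL hs0 hs'0 hScn hScn' hθ hσ h1 h2 hA hR hAR hp hq
    hun hst
  obtain ⟨es, Cs, hs⟩ := hScn
  obtain ⟨eu, Cu, hu⟩ := hScn'
  have hCu : 0 < Cu := zero_lt_one.trans_le hu.one_le
  have hCs : 0 < Cs := zero_lt_one.trans_le hs.one_le
  obtain ⟨e₁, he₁, he₁ε, he₁s, he₁u⟩ : ∃ e₁ : ℝ, 0 < e₁ ∧ e₁ ≤ ε ∧ e₁ ≤ es ∧ e₁ ≤ eu :=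
    ⟨min ε (min es eu), lt_min hL.br.ε_pos (lt_min hs.ε_pos hu.ε_pos), min_le_left _ _,
      (min_le_right _ _).trans (min_le_left _ _), (min_le_right _ _).trans (min_le_right _ _)⟩
  obtain ⟨r₁, hr₁, hr₁e⟩ : ∃ r₁ : ℝ, 0 < r₁ ∧ Cu * (2 * r₁) = e₁ / 2 :=
    ⟨e₁ / (4 * Cu), by positivity, by field_simp; ring⟩
  have hr₁le : r₁ ≤ e₁ := by
    have : 1 * (2 * r₁) ≤ Cu * (2 * r₁) := mul_le_mul_of_nonneg_right hu.one_le (by linarith)
    linarith
  obtain ⟨δ, hδ0, hδ⟩ := hL.br.exist (e₁ / 4) (by linarith)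
  obtain ⟨r₂, hr₂, hr₂ε, hr₂δ⟩ : ∃ r₂ : ℝ, 0 < r₂ ∧ r₂ ≤ ε ∧ r₂ ≤ δ / 2 :=
    ⟨min ε (δ / 2), lt_min hL.br.ε_pos (by linarith), min_le_left _ _, min_le_right _ _⟩
  obtain ⟨Λ₁, H1⟩ := hun r₁ hr₁
  obtain ⟨Λ₂, H2⟩ := hst r₂ hr₂
  have hκ1 : β - s' * (1 + θ) < 0 := by linarith
  have hκ2 : σ * θ - s * (1 + θ) < 0 := by linarith
  obtain ⟨n, hn1, hn2⟩ := ((eventually_small hκ1 (|Λ₁| * (Cu * (2 * r₁))) 0
    (show 0 < δ / 2 by linarith)).and (eventually_small hκ2 (|Λ₂| * (2 * (Cs * (e₁ / 4))))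
      |σ - s| hr₁)).exists
  have hn0 : (0 : ℝ) ≤ n := n.cast_nonneg
  set τ : ℕ := ⌈θ * n⌉₊ with hτ
  have hτ1 : θ * n ≤ τ := Nat.le_ceil _
  have hτ2 : (τ : ℝ) < θ * n + 1 := Nat.ceil_lt_add_one (by positivity)
  obtain ⟨N, x, hN, hx0, hxN, hx⟩ := H1 n
  obtain ⟨S, y, hS, hy0, hyS, hy⟩ := H2 τ
  -- the exponents
  have hE1 : β * n - s' * (n + τ) ≤ (β - s' * (1 + θ)) * n + 0 := by
    have := mul_le_mul_of_nonneg_left hτ1 hs'0.le
    linarith
  have hE2 : σ * τ - s * (n + τ) ≤ (σ * θ - s * (1 + θ)) * n + |σ - s| := by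
    have h3 : (σ - s) * (τ - θ * n) ≤ |σ - s| * 1 := by
      refine (le_abs_self _).trans ?_
      rw [abs_mul]
      refine mul_le_mul_of_nonneg_left ?_ (abs_nonneg _)
      rw [abs_of_nonneg (by linarith)]
      linarith
    linarith
  have hNT : N * (Cu * Real.exp (-s') ^ (n + τ) * (2 * r₁)) + r₂ < δ := by
    have h3 : (N : ℝ) ≤ |Λ₁| * Real.exp (β * n) :=
      hN.trans (mul_le_mul_of_nonneg_right (le_abs_self _) (Real.exp_pos _).le)
    have h4 : Real.exp (-s') ^ (n + τ) = Real.exp (-(s' * (n + τ))) := by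
      rw [← Real.exp_nat_mul]
      congr 1
      push_cast
      ring
    have h5 : (N : ℝ) * (Cu * Real.exp (-s') ^ (n + τ) * (2 * r₁)) ≤
        |Λ₁| * Real.exp (β * n) * (Cu * Real.exp (-(s' * (n + τ))) * (2 * r₁)) := by
      rw [h4]
      exact mul_le_mul_of_nonneg_right h3 (by positivity)
    have h6 : |Λ₁| * Real.exp (β * n) * (Cu * Real.exp (-(s' * (n + τ))) * (2 * r₁)) =
        |Λ₁| * (Cu * (2 * r₁)) * Real.exp (β * n - s' * (n + τ)) := by
      rw [sub_eq_add_neg, Real.exp_add]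
      ring
    have h7 : |Λ₁| * (Cu * (2 * r₁)) * Real.exp (β * n - s' * (n + τ)) ≤
        |Λ₁| * (Cu * (2 * r₁)) * Real.exp ((β - s' * (1 + θ)) * n + 0) :=
      mul_le_mul_of_nonneg_left (Real.exp_le_exp.2 hE1) (by positivity)
    linarith
  have hST : S * (2 * (Cs * Real.exp (-s) ^ (n + τ) * (e₁ / 4))) ≤ r₁ := by
    have h3 : (S : ℝ) ≤ |Λ₂| * Real.exp (σ * τ) :=
      hS.trans (mul_le_mul_of_nonneg_right (le_abs_self _) (Real.exp_pos _).le)
    have h4 : Real.exp (-s) ^ (n + τ) = Real.exp (-(s * (n + τ))) := by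
      rw [← Real.exp_nat_mul]
      congr 1
      push_cast
      ring
    have h5 : (S : ℝ) * (2 * (Cs * Real.exp (-s) ^ (n + τ) * (e₁ / 4))) ≤
        |Λ₂| * Real.exp (σ * τ) * (2 * (Cs * Real.exp (-(s * (n + τ))) * (e₁ / 4))) := by
      rw [h4]
      exact mul_le_mul_of_nonneg_right h3 (by positivity)
    have h6 : |Λ₂| * Real.exp (σ * τ) * (2 * (Cs * Real.exp (-(s * (n + τ))) * (e₁ / 4))) =
        |Λ₂| * (2 * (Cs * (e₁ / 4))) * Real.exp (σ * τ - s * (n + τ)) := by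
      rw [sub_eq_add_neg, Real.exp_add]
      ring
    have h7 : |Λ₂| * (2 * (Cs * (e₁ / 4))) * Real.exp (σ * τ - s * (n + τ)) ≤
        |Λ₂| * (2 * (Cs * (e₁ / 4))) * Real.exp ((σ * θ - s * (1 + θ)) * n + |σ - s|) :=
      mul_le_mul_of_nonneg_left (Real.exp_le_exp.2 hE2) (by positivity)
    linarith
  -- the start
  have hT : ∀ z : M, f^[n + τ] (f.symm^[n + τ] z) = z := fun z => by
    have := symm_iter_iter f.symm 0 (n + τ) z
    simpa using this
  have hv0 : Inv f R (n + τ) N e₁ r₁ (y 0) (fun l => f.symm^[n + τ] (x l)) := by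
    refine ⟨?_, fun l hl => ?_, fun l hl => ?_, ?_⟩
    · show f.symm^[n + τ] (x 0) = y 0
      rw [hx0, hy0, add_comm]
      exact symm_iter_iter f τ n m
    · rw [hT, hT]
      exact wl_mono hr₁le (hx l hl)
    · rw [hT, hT]
      simpa using hx l hl 0
    · show f^[n + τ] (f.symm^[n + τ] (x N)) ∈ R
      rw [hT, hxN]
      exact hq n
  obtain ⟨v, hv⟩ := stages hL.br hs hu he₁u (by linarith) (by linarith) (by linarith)
    (by rw [hr₁e]; linarith) hr₁.le hδ hr₂ε hR hST hNT hy hv0 S le_rfl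
  have hend : ∀ l ≤ N, f^[n + τ] (v l) ∈ A := by
    intro l
    induction l with
    | zero =>
      intro _
      rw [hv.a, hyS]
      have := symm_iter_iter f.symm n τ p
      rw [show f^[n + τ] (f.symm^[τ] p) = f^[n] p from this]
      exact hp n
    | succ l ih =>
      intro hl
      exact hA _ (ih (by omega)) _ (fa_of_wl hu (wl_mono he₁u (hv.b l (by omega))))
  exact hAR _ (hend N le_rfl) hv.d

end Pool.Agent.Lib.MP610fe3.HR
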