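import Pool.Agent.Lib.MP_610fe3_an.HR.F3Spec
import Pool.Agent.Lib.MP_610fe3_an.HR.DBL
import Pool.Agent.Lib.MP_610fe3_an.HR.PROD

/-!
# Module WALP: the wall lemma for pinched pairs
-/

set_option autoImplicit false

open Set Filter Function
open scoped Topology

namespace Pool.Agent.Lib.MP610fe3.HR

open Cf CH

universe u v

namespace F3WALPAux

variable {M : Type u} [MetricSpace M]

theorem symm_iter_iter (f : M ≃ₜ M) (n k : ℕ) (x : M) :
    f.symm^[n + k] (f^[k] x) = f.symm^[n] x := by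
  rw [iterate_add_apply]
  congr 1
  induction k with
  | zero => rfl
  | succ k ih => rw [iterate_succ_apply, iterate_succ_apply', f.symm_apply_apply, ih]

theorem iter_symm_iter (f : M ≃ₜ M) (n k : ℕ) (x : M) :
    f^[n + k] (f.symm^[k] x) = f^[n] x :=
  symm_iter_iter f.symm n k x

/-- Double leaves are invariant. -/
theorem dbl_iter [CompactSpace M] {f g : M ≃ₜ M} (hc : ∀ x, f (g x) = g (f x)) (k : ℕ) {x y : M}
    (h : Dbl f g x y) : Dbl f g (f^[k] x) (f^[k] y) := by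
  induction k with
  | zero => exact h
  | succ k ih =>
    rw [iterate_succ_apply', iterate_succ_apply']
    exact (DblAux.of_c f.continuous (fun _ => rfl) hc) ih

/-- Two points of a double leaf are close after some time. -/
theorem exists_lf [CompactSpace M] {f g : M ≃ₜ M} (hc : ∀ x, f (g x) = g (f x)) {x y : M}
    (h : Dbl f g x y) {e : ℝ} (he : 0 < e) : ∃ k : ℕ, f^[k] y ∈ Lf f g e (f^[k] x) := by
  have h1 : FwdAsymp f x y := PRODAux.dbl_fwd h
  obtain ⟨k, hk⟩ := Metric.tendsto_atTop.1 h1 e he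
  refine ⟨k, fun j => ?_, dbl_iter hc k h⟩
  have h2 := hk (j + k) (by omega)
  rw [Real.dist_0_eq_abs, abs_of_nonneg dist_nonneg] at h2
  rw [← iterate_add_apply, ← iterate_add_apply, dist_comm]
  exact h2.le

theorem fa_iter {f : M ≃ₜ M} {x y : M} (n : ℕ) (h : FwdAsymp f (f^[n] x) y) :
    ∀ z, f^[n] z = y → FwdAsymp f x z := by
  intro z hz
  have h1 : Tendsto (fun k : ℕ => dist (f^[k] (f^[n] x)) (f^[k] y)) atTop (𝓝 0) := h
  have h2 : Tendsto (fun k : ℕ => dist (f^[k + n] x) (f^[k + n] z)) atTop (𝓝 0) := by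
    refine h1.congr fun k => ?_
    rw [← hz, iterate_add_apply, iterate_add_apply]
  exact (tendsto_add_atTop_iff_nat (f := fun k : ℕ => dist (f^[k] x) (f^[k] z)) n).1 h2

end F3WALPAux

open F3WALPAux in
/-- **WALP.** -/
theorem specWalp (hXcnt : SpecXcnt.{u, v}) (hTrn : SpecTrn.{u}) (hGaex : SpecGaex.{u})
    (hPerx : SpecPerx.{u}) : SpecWalp.{u, v} := by
  intro M W _ _ _ _ _ _ E f g S ε C l s s' c d b b' θ σ β hS hP hs hs' hScn hScn' hCf hCf' hXf
    hXf' hb hbc hb' hbd hθ hσ hβ h1 h2 A hA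
  refine hPerx M f g ε C l hP A hA fun p hpA hper m hpm => ?_
  by_contra hm
  obtain ⟨A', hG, hAA', hret⟩ := hGaex M f g ε C l hP A hA
  have hpA' : p ∈ A' := hAA' hpA
  have hm' : m ∉ A' := fun h => hm (hret p hpA hper m hpm h)
  have hleaf : ∀ a ∈ A', ¬ Dbl f g m a := fun a ha h => hm' (hG.s2 p hpA' a ha m hpm h)
  obtain ⟨q, hmq, hq⟩ := hG.s3 m hleaf
  -- images
  have hinvn : ∀ n : ℕ, ∀ x ∈ A', f^[n] x ∈ A' := by
    intro n
    induction n with
    | zero => exact fun x hx => hx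
    | succ n ih =>
      intro x hx
      rw [iterate_succ_apply']
      have h3 : f (f^[n] x) ∈ f '' A' := ⟨_, ih x hx, rfl⟩
      rwa [hG.inv] at h3
  have hpre : ∀ n : ℕ, ∀ x ∈ A', ∃ y ∈ A', f^[n] y = x := by
    intro n
    induction n with
    | zero => exact fun x hx => ⟨x, hx, rfl⟩
    | succ n ih =>
      intro x hx
      rw [← hG.inv] at hx
      obtain ⟨y, hy, hyx⟩ := hx
      obtain ⟨z, hz, hzy⟩ := ih y hy
      exact ⟨z, hz, by rw [iterate_succ_apply', hzy, hyx]⟩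
  -- the constants
  have hσ0 : 0 ≤ σ := by
    by_contra hneg
    have h3 : σ * (c - b) < 0 := mul_neg_of_neg_of_pos (not_le.1 hneg) (by linarith)
    have h4 : 0 < b * c := mul_pos hb (by linarith)
    linarith
  obtain ⟨e₁, he₁, H₁⟩ := hXcnt M W E f g S ε C l c b σ hS hP hCf hXf hb hbc hσ
  obtain ⟨e₂, he₂, H₂⟩ := hXcnt M W E f.symm g.symm S.swap ε C l d b' β hS.swap hP.symm_both hCf'
    hXf' hb' hbd hβ
  have hcs : ∀ x, f (g.symm x) = g.symm (f x) := hP.symm_right.comm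
  obtain ⟨k₁, hk₁⟩ := exists_lf hcs (PRODAux.dbl_symm hpm) he₁
  obtain ⟨k₂, hk₂⟩ := exists_lf hP.symm_left.comm hmq he₂
  refine hTrn M f ε C l s s' θ σ β A' {x | ∀ a ∈ A', ¬ FwdAsymp f x a} p q m hP.one hs hs' hScn
    hScn' hθ hσ0 h1 h2 hG.sat ?_ ?_ ?_ ?_ ?_ ?_
  · -- saturated
    intro x hx y hxy a ha hya
    refine hx a ha ?_
    have h3 : Tendsto (fun k : ℕ => dist (f^[k] x) (f^[k] y)) atTop (𝓝 0) := hxy
    have h4 : Tendsto (fun k : ℕ => dist (f^[k] y) (f^[k] a)) atTop (𝓝 0) := hya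
    have h5 := h3.add h4
    rw [add_zero] at h5
    exact squeeze_zero (fun _ => dist_nonneg) (fun _ => dist_triangle _ _ _) h5
  · intro x hx hx'
    refine hx' x hx ?_
    have h3 : (fun k : ℕ => dist (f^[k] x) (f^[k] x)) = fun _ => 0 := by
      funext k
      exact dist_self _
    unfold FwdAsymp
    rw [h3]
    exact tendsto_const_nhds
  · exact fun n => hinvn n p hpA'
  · intro n a ha hqa
    obtain ⟨z, hz, hza⟩ := hpre n a ha
    exact hq z hz (fa_iter n hqa z hza)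
  · -- the unstable chain
    intro r hr
    obtain ⟨Λ, H⟩ := H₂ r hr
    refine ⟨Λ * Real.exp (β * k₂), fun n => ?_⟩
    obtain ⟨K, w, hK, hw0, hwK, hw⟩ := H (n + k₂) (f.symm^[k₂] m) (f.symm^[k₂] q) hk₂
    refine ⟨K, w, ?_, ?_, ?_, hw⟩
    · have h3 : Real.exp (β * ((n + k₂ : ℕ) : ℝ)) = Real.exp (β * k₂) * Real.exp (β * n) := by
        rw [← Real.exp_add]
        congr 1
        push_cast
        ring
      rw [h3, ← mul_assoc] at hK
      exact hK
    · rw [hw0]
      exact iter_symm_iter f n k₂ m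
    · rw [hwK]
      exact iter_symm_iter f n k₂ q
  · -- the stable chain
    intro r hr
    obtain ⟨Λ, H⟩ := H₁ r hr
    refine ⟨Λ * Real.exp (σ * k₁), fun n => ?_⟩
    obtain ⟨K, w, hK, hw0, hwK, hw⟩ := H (n + k₁) (f^[k₁] m) (f^[k₁] p) hk₁
    refine ⟨K, w, ?_, ?_, ?_, hw⟩
    · have h3 : Real.exp (σ * ((n + k₁ : ℕ) : ℝ)) = Real.exp (σ * k₁) * Real.exp (σ * n) := by
        rw [← Real.exp_add]
        congr 1
        push_cast
        ring
      rw [h3, ← mul_assoc] at hK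
      exact hK
    · rw [hw0]
      exact symm_iter_iter f n k₁ m
    · rw [hwK]
      exact symm_iter_iter f n k₁ p

end Pool.Agent.Lib.MP610fe3.HR
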