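import Pool.Agent.Lib.MP_610fe3_an.HR.F3Spec
import Pool.Agent.Lib.MP_610fe3_an.HR.F1L31
import Pool.Agent.Lib.MP_610fe3_an.HR.DBL
import Pool.Agent.Lib.MP_610fe3_an.H6E.Charts
import Pool.Agent.Lib.MP_610fe3_an.Cf.Main4

/-!
# Module XCH (hive F3): small leaves `X` are crossed by about `1 / ρ` short links
-/

set_option autoImplicit false

open Set Filter Function
open scoped Topology

namespace Pool.Agent.Lib.MP610fe3.HR

open Cf CH

universe u v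

namespace F3XCHAux

/-- The number of steps. -/
theorem num {b c ρ : ℝ} (hb : 0 < b) (hbc : b < c) (hρ : 0 < ρ) (h1 : ρ ≤ 1) :
    ∃ k : ℕ, Real.exp (-(c * k)) ≤ ρ ∧
      Real.exp (b * k) * ρ ≤ Real.exp b * ρ ^ (1 - b / c) := by
  have hc : 0 < c := hb.trans hbc
  have hlog : Real.log ρ ≤ 0 := Real.log_nonpos hρ.le h1
  have h0 : 0 ≤ -Real.log ρ / c := div_nonneg (by linarith) hc.le
  have hk1 := Nat.le_ceil (-Real.log ρ / c)
  have hk2 := Nat.ceil_lt_add_one h0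
  obtain ⟨k, hk⟩ : ∃ k, k = ⌈-Real.log ρ / c⌉₊ := ⟨_, rfl⟩
  rw [← hk] at hk1 hk2
  refine ⟨k, ?_, ?_⟩
  · rw [div_le_iff₀ hc] at hk1
    calc Real.exp (-(c * k)) ≤ Real.exp (Real.log ρ) := Real.exp_le_exp.2 (by linarith)
      _ = ρ := Real.exp_log hρ
  · rw [Real.rpow_def_of_pos hρ, ← Real.exp_add]
    calc Real.exp (b * k) * ρ = Real.exp (b * k) * Real.exp (Real.log ρ) := by
          rw [Real.exp_log hρ]
      _ = Real.exp (b * k + Real.log ρ) := (Real.exp_add _ _).symm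
      _ ≤ _ := by
          refine Real.exp_le_exp.2 ?_
          have h2 : b * k ≤ b * (-Real.log ρ / c + 1) := mul_le_mul_of_nonneg_left hk2.le hb.le
          have h3 : b * (-Real.log ρ / c + 1) = b - b / c * Real.log ρ := by
            field_simp
            ring
          nlinarith

/-- The exponent `τ > 0`: small `ρ` have a small power. -/
theorem small {τ A e : ℝ} (hτ : 0 < τ) (hA : 0 < A) (he : 0 < e) :
    ∃ ρ₀ : ℝ, 0 < ρ₀ ∧ ρ₀ ≤ 1 ∧ ∀ ρ : ℝ, 0 < ρ → ρ ≤ ρ₀ → A * ρ ^ τ ≤ e := by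
  have hp : 0 < (e / A) ^ (τ⁻¹) := Real.rpow_pos_of_pos (by positivity) _
  refine ⟨min 1 ((e / A) ^ (τ⁻¹)), lt_min one_pos hp, min_le_left _ _, fun ρ h0 h1 => ?_⟩
  have h2 : ρ ^ τ ≤ ((e / A) ^ (τ⁻¹)) ^ τ :=
    Real.rpow_le_rpow h0.le (h1.trans (min_le_right _ _)) hτ.le
  rw [Real.rpow_inv_rpow (by positivity) hτ.ne'] at h2
  rw [le_div_iff₀ hA] at h2
  linarith

theorem wl_symm {M : Type*} [MetricSpace M] {f : M ≃ₜ M} {ε : ℝ} {x z : M}
    (hz : z ∈ Wl f ε x) : x ∈ Wl f ε z := fun k => by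
  rw [dist_comm]
  exact hz k

theorem wl_mono {M : Type*} [MetricSpace M] {f : M ≃ₜ M} {ε ε' : ℝ} {x z : M} (h : ε ≤ ε')
    (hz : z ∈ Wl f ε x) : z ∈ Wl f ε' x := fun k => (hz k).trans h

theorem wl_trans {M : Type*} [MetricSpace M] {f : M ≃ₜ M} {ε ε' : ℝ} {x y z : M}
    (h1 : y ∈ Wl f ε x) (h2 : z ∈ Wl f ε' x) : z ∈ Wl f (ε + ε') y := fun k => by
  have h3 := h1 k
  have h4 := h2 k
  have h5 := dist_triangle_right (f^[k] z) (f^[k] y) (f^[k] x)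
  linarith

theorem wl_iter {M : Type*} [MetricSpace M] {f : M ≃ₜ M} {ε : ℝ} {x z : M} (n : ℕ)
    (hz : z ∈ Wl f ε x) : f^[n] z ∈ Wl f ε (f^[n] x) := fun k => by
  rw [← iterate_add_apply, ← iterate_add_apply]
  exact hz _

theorem dbl_iter {M : Type u} [MetricSpace M] [CompactSpace M] {f g : M ≃ₜ M}
    (h : ∀ x, f (g x) = g (f x)) {x y : M} (hxy : Dbl f g x y) (n : ℕ) :
    Dbl f g (f^[n] x) (f^[n] y) := by
  obtain ⟨-, -, -, -, -, -, hinv, -⟩ := specDbl M f g h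
  induction n with
  | zero => exact hxy
  | succ n ih =>
    rw [iterate_succ_apply', iterate_succ_apply']
    exact (hinv f (fun x => rfl) (fun x => h x) _ _).2 ih

end F3XCHAux

open F3XCHAux in
theorem specXch : SpecXch.{u, v} := by
  intro M W _ _ _ _ _ _ E f g s ε C l c b hs h hCd hX hb hbc ε' hε'
  have hε := h.one.br.ε_pos
  have hC1 := h.one.br.one_le
  have hC0 : 0 < C := by linarith
  obtain ⟨du, hdu⟩ := Cf.exists_rank s hs
  obtain ⟨ρ₁, Λ₁, φ, hφ⟩ := H6.exists_uplaq s hs (u := du) hdu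
  have hΛ := hφ.one_le
  have hρ := hφ.ρ_pos
  obtain ⟨δc, Cc, hδc, hCc, hcd⟩ := hCd
  obtain ⟨e₁, C₁, he₁, hC₁, hx⟩ := hX ε' hε'
  obtain ⟨-, hu, -⟩ := specProd M f g ε C l h
  obtain ⟨-, s1, t1, -⟩ := specDbl M f g h.comm
  obtain ⟨-, s2, t2, -⟩ := specDbl M f g.symm h.symm_right.comm
  obtain ⟨η, hη'⟩ : ∃ η, η = min δc (e₁ / 2) := ⟨_, rfl⟩
  have hη : 0 < η := by rw [hη']; exact lt_min hδc (by positivity)
  have hη1 : η ≤ δc := by rw [hη']; exact min_le_left _ _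
  have hη2 : η ≤ e₁ / 2 := by rw [hη']; exact min_le_right _ _
  obtain ⟨δ, hδ, hL⟩ := specL31 M f g ε C l h η hη
  obtain ⟨r₀, hr₀, hr₀ρ, hmem⟩ := hφ.mem (min δ (ε / 2)) (lt_min hδ (by positivity))
  obtain ⟨e, he, honto⟩ := hφ.onto r₀ hr₀
  have hτ : 0 < 1 - b / c := by
    have : b / c < 1 := (div_lt_one (hb.trans hbc)).2 hbc
    linarith
  obtain ⟨C', hC'⟩ : ∃ C', C' = 2 * (Cc * η) + C * (Λ₁ * r₀) := ⟨_, rfl⟩
  have hC'0 : 0 < C' := by rw [hC']; positivity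
  obtain ⟨Λ', hΛ'⟩ : ∃ Λ', Λ' = C₁ * Real.exp b * C' := ⟨_, rfl⟩
  have hC₁0 : 0 < C₁ := by linarith
  have hΛ'0 : 0 < Λ' := by rw [hΛ']; positivity
  obtain ⟨ρ₀, hρ₀, hρ₀1, hsm⟩ := small hτ hΛ'0 he₁
  -- the chain for small `ρ`
  have key : ∀ ρ : ℝ, 0 < ρ → ρ ≤ ρ₀ → ∀ x, ∀ z ∈ Lf f g.symm e x,
      ∃ (K : ℕ) (q : ℕ → M), (K : ℝ) ≤ 2 / ρ ∧ q 0 = x ∧ q K = z ∧ ∀ i < K,
        q (i + 1) ∈ Lf f g.symm ε' (q i) ∧
          dist (q (i + 1)) (q i) ≤ Λ' * ρ ^ (1 - b / c) := by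
    intro ρ hρ0 hρ1 x z hz
    have hρ11 : ρ ≤ 1 := hρ1.trans hρ₀1
    obtain ⟨k, hk1, hk2⟩ := num hb hbc hρ0 hρ11
    obtain ⟨a, ha, hz'⟩ := honto x z hz.1
    rw [mem_closedBall_zero_iff] at ha
    have hta : ∀ t ∈ Icc (0 : ℝ) 1, ‖t • a‖ ≤ r₀ := by
      intro t ht
      rw [norm_smul, Real.norm_eq_abs, abs_of_nonneg ht.1]
      have := norm_nonneg a
      nlinarith [ht.2]
    have hw : ∀ t ∈ Icc (0 : ℝ) 1, φ x (t • a) ∈ Wl f (min δ (ε / 2)) x := by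
      intro t ht
      exact hmem x (t • a) (by rw [mem_closedBall_zero_iff]; exact hta t ht)
    have hy : ∀ t : ℝ, ∃ y : M, t ∈ Icc (0 : ℝ) 1 → Dbl f g (φ x (t • a)) y ∧
        Dbl f g.symm y x ∧ y ∈ Wl f η (φ x (t • a)) ∧ y ∈ Wl f η x ∧
        y ∈ Wl g η (φ x (t • a)) := by
      intro t
      by_cases ht : t ∈ Icc (0 : ℝ) 1
      · obtain ⟨y, hy1, hy2, hy3, hy4, hy5, -⟩ := hL (φ x (t • a)) x
          (wl_symm (wl_mono (min_le_left _ _) (hw t ht)))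
        exact ⟨y, fun _ => ⟨hy1, hy2, hy3, hy4, hy5⟩⟩
      · exact ⟨x, fun h => absurd h ht⟩
    choose y hy using hy
    have h0 : (0 : ℝ) ∈ Icc (0 : ℝ) 1 := ⟨le_rfl, zero_le_one⟩
    have h1 : (1 : ℝ) ∈ Icc (0 : ℝ) 1 := ⟨zero_le_one, le_rfl⟩
    have hy0 : y 0 = x := by
      have h2 := (hy 0 h0).1
      rw [zero_smul, hφ.zero] at h2
      exact (hu x (y 0) h2 (s2 _ _ (hy 0 h0).2.1)).symm
    have hy1 : y 1 = z := by
      have h2 := (hy 1 h1).1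
      rw [one_smul, hz'] at h2
      exact (hu z (y 1) h2 (t2 _ _ _ (s2 _ _ hz.2) (s2 _ _ (hy 1 h1).2.1))).symm
    -- the number of points
    obtain ⟨N, hN⟩ : ∃ N : ℕ, N = ⌈1 / ρ⌉₊ := ⟨_, rfl⟩
    have hN1 : 1 / ρ ≤ N := by rw [hN]; exact Nat.le_ceil _
    have hN2 : (N : ℝ) < 1 / ρ + 1 := by rw [hN]; exact Nat.ceil_lt_add_one (by positivity)
    have hρinv : 1 ≤ 1 / ρ := by rw [le_div_iff₀ hρ0]; linarith
    have hNr : (0 : ℝ) < N := by linarith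
    have hN3 : (N : ℝ) ≤ 2 / ρ := by
      have : (2 : ℝ) / ρ = 1 / ρ + 1 / ρ := by ring
      rw [this]
      linarith
    have hNρ : 1 / (N : ℝ) ≤ ρ := by
      rw [div_le_iff₀ hNr]
      rw [div_le_iff₀ hρ0] at hN1
      linarith
    have hic : ∀ i ≤ N, ((i : ℝ) / N) ∈ Icc (0 : ℝ) 1 := fun i hi =>
      ⟨by positivity, by rw [div_le_one hNr]; exact_mod_cast hi⟩
    refine ⟨N, fun i => y ((i : ℝ) / N), hN3, ?_, ?_, fun i hi => ?_⟩
    · simp only [Nat.cast_zero, zero_div, hy0]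
    · simp only [div_self hNr.ne', hy1]
    · obtain ⟨a1, a2, a3, a4, a5⟩ := hy _ (hic i hi.le)
      obtain ⟨b1, b2, b3, b4, b5⟩ := hy _ (hic (i + 1) hi)
      have w1 := hw _ (hic i hi.le)
      have w2 := hw _ (hic (i + 1) hi)
      obtain ⟨p, hp⟩ : ∃ p, p = y ((i : ℝ) / N) := ⟨_, rfl⟩
      obtain ⟨p', hp'⟩ : ∃ p', p' = y (((i + 1 : ℕ) : ℝ) / N) := ⟨_, rfl⟩
      obtain ⟨w, hwd⟩ : ∃ w, w = φ x (((i : ℝ) / N) • a) := ⟨_, rfl⟩
      obtain ⟨w', hwd'⟩ : ∃ w', w' = φ x ((((i + 1 : ℕ) : ℝ) / N) • a) := ⟨_, rfl⟩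
      -- the plaque
      have hd1 : dist w' w ≤ Λ₁ * r₀ * ρ := by
        have m1 : (((i + 1 : ℕ) : ℝ) / N) • a ∈ Metric.closedBall
            (0 : EuclideanSpace ℝ (Fin du)) ρ₁ := by
          rw [mem_closedBall_zero_iff]
          exact (hta _ (hic (i + 1) hi)).trans hr₀ρ
        have m2 : ((i : ℝ) / N) • a ∈ Metric.closedBall (0 : EuclideanSpace ℝ (Fin du)) ρ₁ := by
          rw [mem_closedBall_zero_iff]
          exact (hta _ (hic i hi.le)).trans hr₀ρ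
        rw [hwd, hwd']
        refine (hφ.upper x _ m1 _ m2).trans ?_
        rw [dist_eq_norm, ← sub_smul, norm_smul]
        have e1 : (((i + 1 : ℕ) : ℝ) / N) - ((i : ℝ) / N) = 1 / N := by
          push_cast
          ring
        rw [e1, Real.norm_eq_abs, abs_of_pos (by positivity)]
        have e2 : 1 / (N : ℝ) * ‖a‖ ≤ ρ * r₀ :=
          mul_le_mul hNρ ha (norm_nonneg a) hρ0.le
        nlinarith
      rw [← hp, ← hwd] at a1 a3 a5
      rw [← hp] at a2 a4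
      rw [← hp', ← hwd'] at b1 b3 b5
      rw [← hp'] at b2 b4
      rw [← hwd] at w1
      rw [← hwd'] at w2
      have hfar : dist (f^[k] w') (f^[k] w) ≤ C * (Λ₁ * r₀) * ρ := by
        have w3 : w' ∈ Wl f ε w := by
          have := wl_trans (wl_mono (min_le_right _ _) w1) (wl_mono (min_le_right _ _) w2)
          rwa [add_halves] at this
        have h4 : l ^ k ≤ 1 := pow_le_one₀ h.one.decs.l_pos.le h.one.decs.l_lt.le
        have h6 : C * l ^ k ≤ C := by nlinarith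
        calc dist (f^[k] w') (f^[k] w) ≤ C * l ^ k * dist w' w := h.one.decs.dec _ _ w3 k
          _ ≤ C * (Λ₁ * r₀ * ρ) := mul_le_mul h6 hd1 dist_nonneg hC0.le
          _ = _ := by ring
      have hCl : ∀ v v' : M, v' ∈ Wl f η v → v' ∈ Wl g η v →
          dist (f^[k] v') (f^[k] v) ≤ Cc * η * ρ := by
        intro v v' hv1 hv2
        have hd : dist v' v ≤ η := hv1 0
        calc dist (f^[k] v') (f^[k] v) ≤ Cc * Real.exp (-(c * k)) * dist v' v :=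
              hcd v v' (wl_mono hη1 hv1) (wl_mono hη1 hv2) k
          _ ≤ Cc * ρ * η := by
              refine mul_le_mul ?_ hd dist_nonneg (by positivity)
              exact mul_le_mul_of_nonneg_left hk1 hCc.le
          _ = _ := by ring
      have hdk : dist (f^[k] p') (f^[k] p) ≤ C' * ρ := by
        have d1 := hCl _ _ a3 a5
        have d2 := hCl _ _ b3 b5
        have d3 := dist_triangle (f^[k] p') (f^[k] w') (f^[k] p)
        have d4 := dist_triangle (f^[k] w') (f^[k] w) (f^[k] p)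
        rw [dist_comm (f^[k] w) (f^[k] p)] at d4
        rw [hC']
        nlinarith
      have hDbl : Dbl f g.symm p p' := t2 _ _ _ a2 (s2 _ _ b2)
      have hLf : f^[k] p' ∈ Lf f g.symm e₁ (f^[k] p) := by
        refine ⟨wl_iter k ?_, dbl_iter h.symm_right.comm hDbl k⟩
        exact wl_mono (by linarith) (wl_trans a4 b4)
      have hbig : C₁ * Real.exp (b * k) * dist (f^[k] p') (f^[k] p) ≤
          Λ' * ρ ^ (1 - b / c) := by
        calc C₁ * Real.exp (b * k) * dist (f^[k] p') (f^[k] p)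
            ≤ C₁ * Real.exp (b * k) * (C' * ρ) :=
              mul_le_mul_of_nonneg_left hdk (by positivity)
          _ = C₁ * C' * (Real.exp (b * k) * ρ) := by ring
          _ ≤ C₁ * C' * (Real.exp b * ρ ^ (1 - b / c)) :=
              mul_le_mul_of_nonneg_left hk2 (by positivity)
          _ = _ := by rw [hΛ']; ring
      have hfin := hx k (f^[k] p) (f^[k] p') hLf (hbig.trans (hsm ρ hρ0 hρ1))
      rw [Cf.symm_iterate_iterate, Cf.symm_iterate_iterate] at hfin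
      beta_reduce
      rw [← hp, ← hp']
      exact ⟨⟨hfin.1, hDbl⟩, hfin.2.trans hbig⟩
  refine ⟨e, max (2 / ρ₀) Λ', he, lt_max_of_lt_right hΛ'0, fun ρ hρm x z hz => ?_⟩
  obtain ⟨K, q, hK, hq0, hqK, hq⟩ := key (min ρ ρ₀) (lt_min hρm.1 hρ₀) (min_le_right _ _) x z hz
  refine ⟨K, q, hK.trans ?_, hq0, hqK, fun i hi => ⟨(hq i hi).1, (hq i hi).2.trans ?_⟩⟩
  · rcases le_total ρ ρ₀ with hle | hle
    · rw [min_eq_left hle]
      refine div_le_div_of_nonneg_right ?_ hρm.1.le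
      refine le_trans ?_ (le_max_left _ _)
      rw [le_div_iff₀ hρ₀]
      linarith
    · rw [min_eq_right hle]
      refine (le_max_left (2 / ρ₀) Λ').trans ?_
      rw [le_div_iff₀ hρm.1]
      have : 0 < max (2 / ρ₀) Λ' := lt_max_of_lt_right hΛ'0
      nlinarith [hρm.2]
  · have h1 : min ρ ρ₀ ^ (1 - b / c) ≤ ρ ^ (1 - b / c) :=
      Real.rpow_le_rpow (lt_min hρm.1 hρ₀).le (min_le_left _ _) hτ.le
    have h2 : 0 ≤ ρ ^ (1 - b / c) := Real.rpow_nonneg hρm.1.le _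
    calc Λ' * min ρ ρ₀ ^ (1 - b / c) ≤ Λ' * ρ ^ (1 - b / c) :=
          mul_le_mul_of_nonneg_left h1 hΛ'0.le
      _ ≤ _ := mul_le_mul_of_nonneg_right (le_max_right _ _) h2

end Pool.Agent.Lib.MP610fe3.HR
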