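import Pool.Agent.Lib.MP_610fe3_an.HR.F3Spec

/-!
# Module XCNT (hive F3): small leaves `X`, iterated backward, are crossed by few small links
-/

set_option autoImplicit false

open Set Filter Function
open scoped Topology

namespace Pool.Agent.Lib.MP610fe3.HR

open Cf CH

universe u v

namespace F3XCNTAux

/-- A small number whose power is small. -/
theorem exists_small {a d : ℝ} (ha : 0 < a) (hd : 0 < d) :
    ∃ ρ : ℝ, 0 < ρ ∧ ρ ≤ 1 ∧ ρ ^ a ≤ d := by
  refine ⟨min 1 (d ^ (1 / a)), lt_min one_pos (Real.rpow_pos_of_pos hd _), min_le_left _ _, ?_⟩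
  have h0 : 0 ≤ min 1 (d ^ (1 / a)) := (lt_min one_pos (Real.rpow_pos_of_pos hd _)).le
  calc (min 1 (d ^ (1 / a))) ^ a ≤ (d ^ (1 / a)) ^ a :=
        Real.rpow_le_rpow h0 (min_le_right _ _) ha.le
    _ = d := by
        rw [← Real.rpow_mul hd.le, one_div, inv_mul_cancel₀ ha.ne', Real.rpow_one]

end F3XCNTAux

theorem specXcnt (hX : SpecXch.{u, v}) : SpecXcnt.{u, v} := by
  intro M W _ _ _ _ _ _ E f g s ε C l c b σ hs hP hc hb hb0 hbc hσ
  obtain ⟨e, Λ, he, hΛ, H⟩ := hX M W E f g s ε C l c b hs hP hc hb hb0 hbc ε hP.one.decs.ε_pos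
  refine ⟨e, he, fun r hr => ?_⟩
  obtain ⟨e₁, C₁, he₁, hC₁, H₁⟩ := hb r hr
  have hc0 : 0 < c := hb0.trans hbc
  have hcb : 0 < c - b := sub_pos.2 hbc
  have ha : 0 < 1 - b / c := by
    rw [sub_pos, div_lt_one hc0]
    exact hbc
  have hC : 1 ≤ C := hP.one.decs.one_le
  have hC0 : 0 < C := one_pos.trans_le hC
  have hC₁0 : 0 < C₁ := one_pos.trans_le hC₁
  obtain ⟨ρ₁, hρ0, hρ1, hρ⟩ := F3XCNTAux.exists_small ha
    (show 0 < e₁ / (C * C₁ * Λ) by positivity)
  refine ⟨Λ / ρ₁, fun T x z hz => ?_⟩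
  have hbcσ : b * c / (c - b) ≤ σ := by
    rw [div_le_iff₀ hcb]
    exact hσ
  have hA0 : 0 ≤ b * c / (c - b) := by positivity
  have hE1 : Real.exp (-(b * c / (c - b) * T)) ≤ 1 := by
    rw [Real.exp_le_one_iff]
    have : (0 : ℝ) ≤ T := T.cast_nonneg
    have := mul_nonneg hA0 this
    linarith
  have hr0 : 0 < ρ₁ * Real.exp (-(b * c / (c - b) * T)) := by positivity
  have hr1 : ρ₁ * Real.exp (-(b * c / (c - b) * T)) ≤ 1 :=
    mul_le_one₀ hρ1 (Real.exp_pos _).le hE1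
  obtain ⟨K, q, hK, hq0, hqK, hq⟩ := H _ ⟨hr0, hr1⟩ x z hz
  have hpow : (ρ₁ * Real.exp (-(b * c / (c - b) * T))) ^ (1 - b / c) =
      ρ₁ ^ (1 - b / c) * Real.exp (-(b * T)) := by
    rw [Real.mul_rpow hρ0.le (Real.exp_pos _).le, ← Real.exp_mul]
    congr 2
    field_simp
  have hd : ∀ i < K, dist (q (i + 1)) (q i) ≤ e₁ / (C * C₁) * Real.exp (-(b * T)) := by
    intro i hi
    refine (hq i hi).2.trans ?_
    rw [hpow]
    calc Λ * (ρ₁ ^ (1 - b / c) * Real.exp (-(b * T)))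
        ≤ Λ * (e₁ / (C * C₁ * Λ) * Real.exp (-(b * T))) := by
          gcongr
      _ = e₁ / (C * C₁) * Real.exp (-(b * T)) := by
          field_simp
  refine ⟨K, fun i => f.symm^[T] (q i), ?_, ?_, ?_, fun i hi => ?_⟩
  · refine hK.trans ?_
    rw [div_mul_eq_div_div, div_eq_mul_inv (Λ / ρ₁), ← Real.exp_neg, neg_neg]
    have h0 : (0 : ℝ) ≤ T := T.cast_nonneg
    have h1 : b * c / (c - b) * T ≤ σ * T := mul_le_mul_of_nonneg_right hbcσ h0
    exact mul_le_mul_of_nonneg_left (Real.exp_le_exp.2 h1) (by positivity)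
  · show f.symm^[T] (q 0) = _
    rw [hq0]
  · show f.symm^[T] (q K) = _
    rw [hqK]
  · have hdi := hd i hi
    have hE : Real.exp (-(b * T)) ≤ 1 := by
      rw [Real.exp_le_one_iff]
      have : (0 : ℝ) ≤ T := T.cast_nonneg
      have := mul_nonneg hb0.le this
      linarith
    obtain ⟨hw, hdbl⟩ := (hq i hi).1
    have hlf : q (i + 1) ∈ Lf f g.symm e₁ (q i) := by
      refine ⟨fun k => ?_, hdbl⟩
      refine (hP.one.decs.dec _ _ hw k).trans ?_
      have hlk : l ^ k ≤ 1 := pow_le_one₀ hP.one.decs.l_pos.le hP.one.decs.l_lt.le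
      calc C * l ^ k * dist (q (i + 1)) (q i)
          ≤ C * 1 * (e₁ / (C * C₁) * 1) := by
            gcongr
            exact hdi.trans (by gcongr)
        _ = e₁ / C₁ := by field_simp
        _ ≤ e₁ := div_le_self he₁.le hC₁
    refine (H₁ T (q i) (q (i + 1)) hlf ?_).1
    calc C₁ * Real.exp (b * T) * dist (q (i + 1)) (q i)
        ≤ C₁ * Real.exp (b * T) * (e₁ / (C * C₁) * Real.exp (-(b * T))) := by gcongr
      _ = e₁ / C * (Real.exp (b * T) * Real.exp (-(b * T))) := by field_simp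
      _ = e₁ / C := by rw [← Real.exp_add, add_neg_cancel, Real.exp_zero, mul_one]
      _ ≤ e₁ := div_le_self he₁.le hC

end Pool.Agent.Lib.MP610fe3.HR
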