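import Pool.Agent.Lib.MP_610fe3_an.HR.VMain
import Pool.Agent.Lib.MP_610fe3_an.PR.All
import Pool.Agent.Lib.MP_610fe3_an.HR.F3ACTL
import Pool.Agent.Lib.MP_610fe3_an.HR.F3ACTR
import Pool.Agent.Lib.MP_610fe3_an.HR.F3CHR
import Pool.Agent.Lib.MP_610fe3_an.HR.F3DIMR
import Pool.Agent.Lib.MP_610fe3_an.HR.F3EXPX
import Pool.Agent.Lib.MP_610fe3_an.HR.F3MAINR
import Pool.Agent.Lib.MP_610fe3_an.HR.F3NUM
import Pool.Agent.Lib.MP_610fe3_an.HR.F3RATX
import Pool.Agent.Lib.MP_610fe3_an.HR.F3RTCP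
import Pool.Agent.Lib.MP_610fe3_an.HR.F3RTL
import Pool.Agent.Lib.MP_610fe3_an.HR.F3RTPA
import Pool.Agent.Lib.MP_610fe3_an.HR.F3SATP
import Pool.Agent.Lib.MP_610fe3_an.HR.F3TRN
import Pool.Agent.Lib.MP_610fe3_an.HR.F3WALP
import Pool.Agent.Lib.MP_610fe3_an.HR.F3XCH
import Pool.Agent.Lib.MP_610fe3_an.HR.F3XCNT

/-!
# Actions of `ℤ^k`, pinched pairs or pairs which contain a line bundle: assembly of the modules
-/

set_option autoImplicit false

open Set Filter Function Bundle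
open scoped Topology Manifold ContDiff

namespace Pool.Agent.Lib.MP610fe3.HR

open CH

universe u v w

/-- The dimension lemma. -/
theorem dimr : SpecDimr.{u, v, w} :=
  specDimr (specInd specRegv) (specCrk specRegv)
    (specNov specVrt specCov specBox specRng) specLow specAct

/-- The wall lemma for a pinched pair. -/
theorem walp : SpecWalp.{u, v} :=
  specWalp (specXcnt specXch) specTrn (specGaex specDbl specProd specBas specMin')
    (specPerx specDbl specProd specMin')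

theorem satp : SpecSatp.{u, v, w} :=
  specSatp specNari (specRatx specRtcp specCrt specExpx) specNum walp specPair specActl

/-- The rates at the periodic points. -/
theorem rtpa : SpecRtpa.{u, 0, w} := by
  have kal : PR.SpecKal.{u, 0} :=
    PR.specKal PR.specForms PR.specRank PR.specChoice
      (PR.specScale (PR.specSimple_of PR.specGood PR.specDom PR.specPert PR.specCone))
  exact specRtpa @PR.specHol (PR.specRat kal PR.specClo) specRng

theorem chr : SpecChr.{u, 0, w} :=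
  specChr near wallf satg satp rtpa (specRtl specRng) specActl specArithm (specChn1 specMin')
    specPair

variable {V : Type v} [NormedAddCommGroup V] [NormedSpace ℝ V] [FiniteDimensional ℝ V]
  {M : Type u} [TopologicalSpace M] [CompactSpace M] [T2Space M] [ConnectedSpace M]
  [ChartedSpace V M] [IsManifold 𝓘(ℝ, V) ∞ M]
  [RiemannianBundle (fun x : M => TangentSpace 𝓘(ℝ, V) x)]
  [IsContinuousRiemannianBundle V (fun x : M => TangentSpace 𝓘(ℝ, V) x)]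

/-- **Theorem F3.** -/
theorem mainr {k : ℕ} (A : (Fin k → ℤ) → M ≃ₘ^1⟮𝓘(ℝ, V), 𝓘(ℝ, V)⟯ M)
    (hadd : ∀ n n' x, A (n + n') x = A n (A n' x)) {J : Type w} [Finite J] (χ : J → Fin k → ℝ)
    (F : J → ∀ x : M, Submodule ℝ (TangentSpace 𝓘(ℝ, V) x))
    (hA : ∀ n : Fin k → ℤ, (∀ j, ∑ i, χ j i * (n i : ℝ) ≠ 0) → Gen.IsAnosovSplitting (A n)
      (fun x => ⨆ (j) (_ : ∑ i, χ j i * (n i : ℝ) < 0), F j x)
      (fun x => ⨆ (j) (_ : 0 < ∑ i, χ j i * (n i : ℝ)), F j x))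
    (hpair : ∀ i j, ∀ t : ℝ, 0 < t → χ i = -(t • χ j) →
      ((∀ n, ContMDiff 𝓘(ℝ, V) 𝓘(ℝ, V) 2 (A n)) ∧
      ((∀ x, Module.finrank ℝ (⨆ (l) (_ : ∃ c : ℝ, 0 < c ∧ χ l = c • χ i), F l x :
        Submodule ℝ (TangentSpace 𝓘(ℝ, V) x)) = 1) ∨
      (∀ x, Module.finrank ℝ (⨆ (l) (_ : ∃ c : ℝ, 0 < c ∧ χ l = c • χ j), F l x :
        Submodule ℝ (TangentSpace 𝓘(ℝ, V) x)) = 1) ∨
      ((∀ l x, F l x ≠ ⊥) ∧ 2 ≤ Module.finrank ℝ (Submodule.span ℝ (range χ)) ∧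
        Module.finrank ℝ V ≤ Module.finrank ℝ (Submodule.span ℝ (range χ)) + 3) ∨
      ∃ (n n' : Fin k → ℤ) (s b s' b' : ℝ), Regular χ n ∧ ev (χ i) n < 0 ∧ Regular χ n' ∧
        ev (χ j) n' < 0 ∧ Pinch s b s' b' ∧
        PExpIn (A n) (fun x => ⨆ (l) (_ : ∃ c : ℝ, 0 < c ∧ χ l = c • χ i), F l x) s b ∧
        PExpIn (A n') (fun x => ⨆ (l) (_ : ∃ c : ℝ, 0 < c ∧ χ l = c • χ j), F l x) s' b')) ∨
      ∃ (n n' : Fin k → ℤ) (s b s' b' : ℝ), Regular χ n ∧ ev (χ i) n < 0 ∧ Regular χ n' ∧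
        ev (χ j) n' < 0 ∧ Pinch s b s' b' ∧
        ExpIn (A n) (fun x => ⨆ (l) (_ : ∃ c : ℝ, 0 < c ∧ χ l = c • χ i), F l x) s b ∧
        ExpIn (A n') (fun x => ⨆ (l) (_ : ∃ c : ℝ, 0 < c ∧ χ l = c • χ j), F l x) s' b')
    (n : Fin k → ℤ) (hn : ∀ j, ∑ i, χ j i * (n i : ℝ) ≠ 0) : TopTransitive (A n) :=
  main_r chr specActr dimr A hadd χ F hA hpair n hn

end Pool.Agent.Lib.MP610fe3.HR
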