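import Pool.Agent.Lib.MP_610fe3_an.HR.F3Spec
import Pool.Agent.Lib.MP_610fe3_an.PR.Spec

/-!
# Pinched pairs, rates at the periodic points only: statements of the modules (hive F3, part 2)

A module `XXX` proves `theorem specXxx (h : SpecYyy) .. : SpecXxx` in its own file `HR/F3XXX.lean`
(namespace `Pool.Agent.Lib.MP610fe3.HR`, auxiliary lemmas in the sub-namespace `F3XXXAux`).
-/

set_option autoImplicit false

open Set Filter Function Bundle
open scoped Topology Manifold ContDiff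

namespace Pool.Agent.Lib.MP610fe3.HR

open Cf CH

universe u v w

/-- The rates of the action on the coarse bundle of `χ i`, at the periodic points of the regular
elements, are between `s |χ i|` and `b |χ i|`. -/
def Rtq {M : Type*} [MetricSpace M] {W : Type*} [NormedAddCommGroup W] [NormedSpace ℝ W]
    {k : ℕ} {J : Type*} (E : Emb M W) (A : (Fin k → ℤ) → M ≃ₜ M)
    (χ : J → Fin k → ℝ) (F : J → M → Submodule ℝ W) (i : J) (s b : ℝ) : Prop :=
  ∀ n, Regular χ n → ev (χ i) n < 0 → ∀ S : Split E (A n), S.Hyperbolic →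
    ∀ p ∈ periodicPts (A n), ∀ e : ℝ, 0 < e →
    ∃ C : ℝ, ∀ (m : ℕ), ∀ w ∈ coarse χ F i p,
      ‖iterD S.D (A n) m p w‖ ≤ C * Real.exp ((s * ev (χ i) n + e) * m) * ‖w‖ ∧
      ‖iterD S.Di (A n).symm m p w‖ ≤ C * Real.exp ((-(b * ev (χ i) n) + e) * m) * ‖w‖

/-- RTP. From the periodic points to all points. Let `R x = PP s₁ t₁.swap x` for splittings `s₁` of
`A n₀`, `t₁` of `A n'` (RNG: the range is the coarse bundle). It commutes with the derivatives of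
every `A n` (`Commute.lean`: `D_commutes` and its corollaries) and is Hölder continuous: `PR.specHol`
for `s₁`, `t₁` (with `Sq`: `D`, `Di` are Lipschitz, `P x = Di (f x) ∘L D x`, and `f` is Lipschitz, by
`Sq.fwd` and compactness). A hyperbolic splitting `S` of `A n` has the same `D`, `Di` as the one of
`Act.split` (`HasD.unique`), so they are Lipschitz. Apply `SpecRat` to `S`, `R` and to `S.swap`, `R`
(`w ∈ coarse χ F i x` gives `R x w = w`). -/
def SpecRtp : Prop :=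
  ∀ (M : Type u) (W : Type v) [MetricSpace M] [CompactSpace M] [NormedAddCommGroup W]
    [InnerProductSpace ℝ W] [FiniteDimensional ℝ W] (E : Emb M W) (k : ℕ) (J : Type w) [Finite J]
    (A : (Fin k → ℤ) → M ≃ₜ M) (χ : J → Fin k → ℝ) (F : J → M → Submodule ℝ W), Act E A χ F →
    ∀ (n₀ n' : Fin k → ℤ) (i j : J), Wal χ n₀ n' i j → ∀ s b : ℝ, Rtq E A χ F i s b →
      Rt E A χ F i s b

/-- CHQ. As CHP, with one more alternative (RTP at the wall `Wal χ n n' i j`, and at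
`Wal χ n' n j i`, `CHNAux.Wal.symm`, then SATP). -/
def SpecChq : Prop :=
  ∀ (M : Type u) (W : Type v) [MetricSpace M] [CompactSpace M] [ConnectedSpace M]
    [NormedAddCommGroup W] [InnerProductSpace ℝ W] [FiniteDimensional ℝ W] (E : Emb M W) (k : ℕ)
    (J : Type w) [Finite J] (A : (Fin k → ℤ) → M ≃ₜ M) (χ : J → Fin k → ℝ)
    (F : J → M → Submodule ℝ W), Act1 E A χ F →
    (∀ i j, ∀ t : ℝ, 0 < t → χ i = -(t • χ j) →
      (Act E A χ F ∧ ((∀ x, Module.finrank ℝ (coarse χ F i x) = 1) ∨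
        (∀ x, Module.finrank ℝ (coarse χ F j x) = 1) ∨
        ∃ s b s' b' : ℝ, Pinch s b s' b' ∧ Rtq E A χ F i s b ∧ Rtq E A χ F j s' b')) ∨
      ∃ s b s' b' : ℝ, Pinch s b s' b' ∧ Rt E A χ F i s b ∧ Rt E A χ F j s' b') →
    ∀ n : Fin k → ℤ, Regular χ n → TopTransitive (A n)

section Mfd

variable {V : Type*} [NormedAddCommGroup V] [NormedSpace ℝ V]
  {M : Type*} [TopologicalSpace M] [ChartedSpace V M]
  [RiemannianBundle (fun x : M => TangentSpace 𝓘(ℝ, V) x)]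

/-- The derivatives of the iterates of `f` at the point `p` are bounded by `C exp ((r + e) m)` on
the subspace `F`, for every `e > 0`: the exponents of `f` on `F` are at most `r`. -/
def ExpLeAt (f : M → M) (p : M) (F : Submodule ℝ (TangentSpace 𝓘(ℝ, V) p)) (r : ℝ) : Prop :=
  ∀ e : ℝ, 0 < e → ∃ C : ℝ, ∀ (m : ℕ), ∀ v ∈ F,
    ‖mfderiv 𝓘(ℝ, V) 𝓘(ℝ, V) (f^[m]) p v‖ ≤ C * Real.exp ((r + e) * m) * ‖v‖

/-- The exponents of the action on the bundle `G`, at the periodic points of the regular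
elements `n` with `χ i n < 0`, are between `b (χ i n)` and `s (χ i n)`. -/
def PRates {k : ℕ} {J : Type*} (A : (Fin k → ℤ) → M ≃ₘ^1⟮𝓘(ℝ, V), 𝓘(ℝ, V)⟯ M)
    (χ : J → Fin k → ℝ) (G : ∀ x : M, Submodule ℝ (TangentSpace 𝓘(ℝ, V) x)) (i : J)
    (s b : ℝ) : Prop :=
  ∀ n : Fin k → ℤ, (∀ j, ∑ a, χ j a * (n a : ℝ) ≠ 0) → ∑ a, χ i a * (n a : ℝ) < 0 →
    ∀ p ∈ periodicPts (A n), ExpLeAt (A n) p (G p) (s * ∑ a, χ i a * (n a : ℝ)) ∧
      ExpLeAt (A n).symm p (G p) (-(b * ∑ a, χ i a * (n a : ℝ)))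

end Mfd

/-- ACTQ. ACTP with one more clause (the same proof at one point). -/
def SpecActq : Prop :=
  ∀ (V : Type v) [NormedAddCommGroup V] [NormedSpace ℝ V] [FiniteDimensional ℝ V] (N : ℕ)
    (M : Type u) [MetricSpace M] [CompactSpace M] [ChartedSpace V M] [IsManifold 𝓘(ℝ, V) ∞ M]
    [RiemannianBundle (fun x : M => TangentSpace 𝓘(ℝ, V) x)]
    [IsContinuousRiemannianBundle V (fun x : M => TangentSpace 𝓘(ℝ, V) x)]
    (e : M → EuclideanSpace ℝ (Fin N)), Isometry e → ContMDiff 𝓘(ℝ, V) (𝓡 N) ∞ e →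
    (∀ x, Injective (mfderiv 𝓘(ℝ, V) (𝓡 N) e x)) →
    ∀ (k : ℕ) (J : Type w) [Finite J] (A : (Fin k → ℤ) → M ≃ₘ^1⟮𝓘(ℝ, V), 𝓘(ℝ, V)⟯ M)
      (χ : J → Fin k → ℝ) (F : J → ∀ x : M, Submodule ℝ (TangentSpace 𝓘(ℝ, V) x)),
    (∀ n n' x, A (n + n') x = A n (A n' x)) →
    (∀ n, Regular χ n → Gen.IsAnosovSplitting (A n) (fun x => ⨆ (j) (_ : ev (χ j) n < 0), F j x)
      (fun x => ⨆ (j) (_ : 0 < ev (χ j) n), F j x)) →
    ∃ (E : Emb M (EuclideanSpace ℝ (Fin N))) (F' : J → M → Submodule ℝ (EuclideanSpace ℝ (Fin N))),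
      Act1 E (fun n => (A n).toHomeomorph) χ F' ∧
      ((∀ n, ContMDiff 𝓘(ℝ, V) 𝓘(ℝ, V) 2 (A n)) → Act E (fun n => (A n).toHomeomorph) χ F') ∧
      (∀ i x, Module.finrank ℝ (coarse χ F' i x) =
        Module.finrank ℝ (⨆ (l) (_ : ∃ c : ℝ, 0 < c ∧ χ l = c • χ i), F l x :
          Submodule ℝ (TangentSpace 𝓘(ℝ, V) x))) ∧
      (∀ (i : J) (s b : ℝ),
        Rates A χ (fun x => ⨆ (l) (_ : ∃ c : ℝ, 0 < c ∧ χ l = c • χ i), F l x) i s b →
        Rt E (fun n => (A n).toHomeomorph) χ F' i s b) ∧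
      ∀ (i : J) (s b : ℝ),
        PRates A χ (fun x => ⨆ (l) (_ : ∃ c : ℝ, 0 < c ∧ χ l = c • χ i), F l x) i s b →
        Rtq E (fun n => (A n).toHomeomorph) χ F' i s b

end Pool.Agent.Lib.MP610fe3.HR
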