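import Pool.Agent.Lib.MP_610fe3_an.HR.F3RTL

/-!
# Pinched pairs, rates at one regular element: statements of the modules (hive F3, part 3)

A module `XXX` proves `theorem specXxx (h : SpecYyy) .. : SpecXxx` in its own file `HR/F3XXX.lean`
(namespace `Pool.Agent.Lib.MP610fe3.HR`). `RtAt E A χ F i n s b` (`F3RTL.lean`): the rates of `A n`
on the coarse bundle of `χ i` are between `s` and `b` (for `ev (χ i) n < 0`).
-/

set_option autoImplicit false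

open Set Filter Function Bundle
open scoped Topology Manifold ContDiff

namespace Pool.Agent.Lib.MP610fe3.HR

open Cf CH

universe u v w

/-- The rates of `A n` on the coarse bundle of `χ i` at the periodic points of `A n` are between
`s` and `b`. -/
def RtqAt {M : Type*} [MetricSpace M] {W : Type*} [NormedAddCommGroup W] [NormedSpace ℝ W]
    {k : ℕ} {J : Type*} (E : Emb M W) (A : (Fin k → ℤ) → M ≃ₜ M)
    (χ : J → Fin k → ℝ) (F : J → M → Submodule ℝ W) (i : J) (n : Fin k → ℤ) (s b : ℝ) : Prop :=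
  ∀ S : Split E (A n), S.Hyperbolic → ∀ p ∈ periodicPts (A n), ∀ e : ℝ, 0 < e →
    ∃ C : ℝ, ∀ (m : ℕ), ∀ w ∈ coarse χ F i p,
      ‖iterD S.D (A n) m p w‖ ≤ C * Real.exp ((-s + e) * m) * ‖w‖ ∧
      ‖iterD S.Di (A n).symm m p w‖ ≤ C * Real.exp ((b + e) * m) * ‖w‖

/-- RTPA. The proof of RTP (`F3RTP.lean`) for one regular element `n`: `-s` for `s * ev (χ i) n`, `b`
for `-(b * ev (χ i) n)`; the lemmas of `F3RTPAux` can be cited. -/
def SpecRtpa : Prop :=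
  ∀ (M : Type u) (W : Type v) [MetricSpace M] [CompactSpace M] [NormedAddCommGroup W]
    [InnerProductSpace ℝ W] [FiniteDimensional ℝ W] (E : Emb M W) (k : ℕ) (J : Type w) [Finite J]
    (A : (Fin k → ℤ) → M ≃ₜ M) (χ : J → Fin k → ℝ) (F : J → M → Submodule ℝ W), Act E A χ F →
    ∀ (n₀ n' : Fin k → ℤ) (i j : J), Wal χ n₀ n' i j → ∀ n, Regular χ n → ∀ s b : ℝ,
      RtqAt E A χ F i n s b → RtAt E A χ F i n s b

/-- CHR. As CHQ: at the wall `h : Wal χ n n' i j` the rates of `i` from RTL (and RTPA) with `h`, those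
of `j` with `Wal.symm h`; `Pinch` is homogeneous in `(s, b)` and in `(s', b')`. Then SATP. -/
def SpecChr : Prop :=
  ∀ (M : Type u) (W : Type v) [MetricSpace M] [CompactSpace M] [ConnectedSpace M]
    [NormedAddCommGroup W] [InnerProductSpace ℝ W] [FiniteDimensional ℝ W] (E : Emb M W) (k : ℕ)
    (J : Type w) [Finite J] (A : (Fin k → ℤ) → M ≃ₜ M) (χ : J → Fin k → ℝ)
    (F : J → M → Submodule ℝ W), Act1 E A χ F →
    (∀ i j, ∀ t : ℝ, 0 < t → χ i = -(t • χ j) →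
      (Act E A χ F ∧ ((∀ x, Module.finrank ℝ (coarse χ F i x) = 1) ∨
        (∀ x, Module.finrank ℝ (coarse χ F j x) = 1) ∨
        ∃ (n n' : Fin k → ℤ) (s b s' b' : ℝ), Regular χ n ∧ ev (χ i) n < 0 ∧ Regular χ n' ∧
          ev (χ j) n' < 0 ∧ Pinch s b s' b' ∧ RtqAt E A χ F i n s b ∧
          RtqAt E A χ F j n' s' b')) ∨
      ∃ (n n' : Fin k → ℤ) (s b s' b' : ℝ), Regular χ n ∧ ev (χ i) n < 0 ∧ Regular χ n' ∧
        ev (χ j) n' < 0 ∧ Pinch s b s' b' ∧ RtAt E A χ F i n s b ∧ RtAt E A χ F j n' s' b') →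
    ∀ n : Fin k → ℤ, Regular χ n → TopTransitive (A n)

section Mfd

variable {V : Type*} [NormedAddCommGroup V] [NormedSpace ℝ V]
  {M : Type*} [TopologicalSpace M] [ChartedSpace V M]
  [RiemannianBundle (fun x : M => TangentSpace 𝓘(ℝ, V) x)]

/-- The exponents of `f` on the bundle `G` are in `[-b, -s]`. -/
def ExpIn (f : M ≃ₘ^1⟮𝓘(ℝ, V), 𝓘(ℝ, V)⟯ M)
    (G : ∀ x : M, Submodule ℝ (TangentSpace 𝓘(ℝ, V) x)) (s b : ℝ) : Prop :=
  ExpLe f G (-s) ∧ ExpLe f.symm G b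

/-- The exponents of `f` on the bundle `G`, at the periodic points of `f`, are in `[-b, -s]`. -/
def PExpIn (f : M ≃ₘ^1⟮𝓘(ℝ, V), 𝓘(ℝ, V)⟯ M)
    (G : ∀ x : M, Submodule ℝ (TangentSpace 𝓘(ℝ, V) x)) (s b : ℝ) : Prop :=
  ∀ p ∈ periodicPts f, ExpLeAt f p (G p) (-s) ∧ ExpLeAt f.symm p (G p) b

end Mfd

/-- ACTR. As ACTQ (`F3ACTQ.lean`, `F3ACTPAux.bound_pt`) with these two clauses. -/
def SpecActr : Prop :=
  ∀ (V : Type v) [NormedAddCommGroup V] [NormedSpace ℝ V] [FiniteDimensional ℝ V] (N : ℕ)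
    (M : Type u) [MetricSpace M] [CompactSpace M] [ChartedSpace V M] [IsManifold 𝓘(ℝ, V) ∞ M]
    [RiemannianBundle (fun x : M => TangentSpace 𝓘(ℝ, V) x)]
    [IsContinuousRiemannianBundle V (fun x : M => TangentSpace 𝓘(ℝ, V) x)]
    (e : M → EuclideanSpace ℝ (Fin N)), Isometry e → ContMDiff 𝓘(ℝ, V) (𝓡 N) ∞ e →
    (∀ x, Injective (mfderiv 𝓘(ℝ, V) (𝓡 N) e x)) →
    ∀ (k : ℕ) (J : Type w) [Finite J] (A : (Fin k → ℤ) → M ≃ₘ^1⟮𝓘(ℝ, V), 𝓘(ℝ, V)⟯ M)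
      (χ : J → Fin k → ℝ) (F : J → ∀ x : M, Submodule ℝ (TangentSpace 𝓘(ℝ, V) x)),
    (∀ n n' x, A (n + n') x = A n (A n' x)) →
    (∀ n, Regular χ n → Gen.IsAnosovSplitting (A n) (fun x => ⨆ (j) (_ : ev (χ j) n < 0), F j x)
      (fun x => ⨆ (j) (_ : 0 < ev (χ j) n), F j x)) →
    ∃ (E : Emb M (EuclideanSpace ℝ (Fin N))) (F' : J → M → Submodule ℝ (EuclideanSpace ℝ (Fin N))),
      Act1 E (fun n => (A n).toHomeomorph) χ F' ∧
      ((∀ n, ContMDiff 𝓘(ℝ, V) 𝓘(ℝ, V) 2 (A n)) → Act E (fun n => (A n).toHomeomorph) χ F') ∧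
      (∀ i x, Module.finrank ℝ (coarse χ F' i x) =
        Module.finrank ℝ (⨆ (l) (_ : ∃ c : ℝ, 0 < c ∧ χ l = c • χ i), F l x :
          Submodule ℝ (TangentSpace 𝓘(ℝ, V) x))) ∧
      (∀ (i : J) (n : Fin k → ℤ) (s b : ℝ),
        ExpIn (A n) (fun x => ⨆ (l) (_ : ∃ c : ℝ, 0 < c ∧ χ l = c • χ i), F l x) s b →
        RtAt E (fun n => (A n).toHomeomorph) χ F' i n s b) ∧
      ∀ (i : J) (n : Fin k → ℤ) (s b : ℝ),
        PExpIn (A n) (fun x => ⨆ (l) (_ : ∃ c : ℝ, 0 < c ∧ χ l = c • χ i), F l x) s b →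
        RtqAt E (fun n => (A n).toHomeomorph) χ F' i n s b

end Pool.Agent.Lib.MP610fe3.HR
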