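import Pool.Agent.Lib.MP_610fe3_an.HR.F3Spec
import Pool.Agent.Lib.MP_610fe3_an.HR.F1RTC

/-!
# Contraction of the intersection of the stable bundles, actions of class `C^1` (module RTCP)
-/

set_option autoImplicit false

open Set Filter Function
open scoped Topology

namespace Pool.Agent.Lib.MP610fe3.HR

open Cf CH

universe u v w

open F1RTAux

theorem specRtcp : SpecRtcp.{u, v, w} := by
  intro M W _ _ _ _ _ E k J _ A χ F hAct n n' hn hn'
  obtain ⟨s₁, ⟨C, l₁, hC, hl₁, hl₁', hest₁⟩, hS₁, -⟩ := hAct.split n hn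
  obtain ⟨t₁, ⟨C', l₂, hC', hl₂, hl₂', hest₂⟩, hT₁, -⟩ := hAct.split n' hn'
  have hs₁ : s₁.Hyperbolic := ⟨C, l₁, hC, hl₁, hl₁', hest₁⟩
  have hl : 0 < max l₁ l₂ := lt_max_of_lt_left hl₁
  refine ⟨C * C', max l₁ l₂, hl, max_lt hl₁' hl₂', ?_⟩
  intro p q hreg hsign s t hsS htS hs ht m x w hw
  have hcomm : ∀ a b x, A a (A b x) = A b (A a x) := act_comm hAct.add
  have hP := P_fix_PP s t hw
  -- the vector is in both stable spaces
  have h1 : s₁.S x w = w := by
    apply SCAAux.S_fix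
    rw [hS₁]
    have h2 : w ∈ (s.S x).range := ⟨w, S_of_PP s t hw⟩
    rw [hsS] at h2
    have e : (⨆ (a) (_ : ev (χ a) ((p : ℤ) • n + (q : ℤ) • n') < 0), F a x)
        = ⨆ (a) (_ : ev (χ a) n < 0), F a x := by
      refine iSup_congr fun a => ?_
      rw [iSup_congr_Prop (hsign a) fun _ => rfl]
    rwa [e] at h2
  have h2 : t₁.S x w = w := by
    apply SCAAux.S_fix
    rw [hT₁]
    have h2 : w ∈ (t.S x).range := ⟨w, S_of_PP' s t hs ht (hcomm _ _) hw⟩
    rwa [htS] at h2
  -- the derivative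
  have heq : ∀ x, (A ((p : ℤ) • n + (q : ℤ) • n'))^[m] x
      = (A n)^[m * p] ((A n')^[m * q] x) := by
    intro x
    rw [act_iter hAct.add, act_iter hAct.add, act_iter hAct.add, ← hAct.add]
    congr 2
    push_cast
    rw [smul_add, smul_smul, smul_smul]
  rw [iterD_eq (A _).continuous (A n).continuous (A n').continuous s.hD s₁.hD t₁.hD heq x w hP]
  have h3 := congrArg (fun L : W →L[ℝ] W => L w)
    (iterDS_commutes t₁ s₁ hs₁ (hcomm n' n) (m * q) x)
  simp only [ContinuousLinearMap.comp_apply] at h3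
  rw [h1] at h3
  have h4 := (hest₁ (m * p) ((A n')^[m * q] x) (iterD t₁.D (A n') (m * q) x w)).1
  rw [← h3] at h4
  have h5 := (hest₂ (m * q) x w).1
  rw [h2] at h5
  calc _ ≤ C * l₁ ^ (m * p) * (C' * l₂ ^ (m * q) * ‖w‖) :=
        h4.trans (mul_le_mul_of_nonneg_left h5 (by positivity))
    _ ≤ C * (max l₁ l₂) ^ (m * p) * (C' * (max l₁ l₂) ^ (m * q) * ‖w‖) := by
        gcongr
        · exact le_max_left _ _
        · exact le_max_right _ _
    _ = C * C' * (max l₁ l₂ ^ (p + q)) ^ m * ‖w‖ := by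
        rw [← pow_mul, show (p + q) * m = m * p + m * q by ring, pow_add]
        ring

end Pool.Agent.Lib.MP610fe3.HR
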