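import Pool.Agent.Lib.MP_610fe3_an.HR.F2Spec

/-!
# Pinched pairs of coarse bundles: definitions and statements of the modules (hive F3)

Paper proof: `/team-store/MP_610fe3_an_F3_h60.md`. A module `XXX` proves
`theorem specXxx (h : SpecYyy) .. : SpecXxx` in its own file `HR/F3XXX.lean` (namespace
`Pool.Agent.Lib.MP610fe3.HR`, auxiliary lemmas in the sub-namespace `F3XXXAux`).

Conventions: `X` = leaves of `Dbl f g.symm`, `Y` = leaves of `Dbl f.symm g`, `C` = leaves of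
`Dbl f g`, `D` = leaves of `Dbl f.symm g.symm`, ALL OF ANY DIMENSION; `W^s(f) = C × X`,
`W^u(f) = D × Y`. All rates are exponential: `exp (-(s * m))`. The element `f` is close to the
wall, so it contracts `C` and expands `D` much faster than `X`, `Y`.
-/

set_option autoImplicit false

open Set Filter Function Bundle
open scoped Topology Manifold ContDiff

namespace Pool.Agent.Lib.MP610fe3.HR

open Cf CH

universe u v w

section Defs

/-- The bound `(b - s) (b' - s') < s s'`. -/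
def Pinch (s b s' b' : ℝ) : Prop :=
  0 < s ∧ s ≤ b ∧ 0 < s' ∧ s' ≤ b' ∧ (b - s) * (b' - s') < s * s'

variable {M : Type*} [MetricSpace M]

/-- The local stable sets of `f` are contracted with the rate `s`. -/
def Scn (f : M ≃ₜ M) (s : ℝ) : Prop := ∃ ε C : ℝ, Dec f ε C (Real.exp (-s))

/-- The leaves `C` are contracted by `f` with the rate `c`. -/
def Cdc (f g : M ≃ₜ M) (c : ℝ) : Prop :=
  ∃ δ C : ℝ, 0 < δ ∧ 0 < C ∧ ∀ x z, z ∈ Wl f δ x → z ∈ Wl g δ x → ∀ m : ℕ,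
    dist (f^[m] z) (f^[m] x) ≤ C * Real.exp (-(c * m)) * dist z x

/-- The leaves `X` are expanded by the inverse of `f` with a rate at most `b`. -/
def Xgr (f g : M ≃ₜ M) (b : ℝ) : Prop :=
  ∀ ε' : ℝ, 0 < ε' → ∃ e C : ℝ, 0 < e ∧ 1 ≤ C ∧ ∀ (m : ℕ) x, ∀ z ∈ Lf f g.symm e x,
    C * Real.exp (b * m) * dist z x ≤ e → f.symm^[m] z ∈ Wl f ε' (f.symm^[m] x) ∧
      dist (f.symm^[m] z) (f.symm^[m] x) ≤ C * Real.exp (b * m) * dist z x

variable {W : Type*} [NormedAddCommGroup W] [NormedSpace ℝ W]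

/-- An action of `ℤ^k` whose regular elements are hyperbolic of class `C^1`. -/
structure Act1 {k : ℕ} {J : Type*} (E : Emb M W) (A : (Fin k → ℤ) → M ≃ₜ M)
    (χ : J → Fin k → ℝ) (F : J → M → Submodule ℝ W) : Prop where
  add : ∀ n n' x, A (n + n') x = A n (A n' x)
  split : ∀ n, Regular χ n → ∃ s : Split E (A n), s.Hyperbolic ∧
    (∀ x, (s.S x).range = ⨆ (j) (_ : ev (χ j) n < 0), F j x) ∧
    (∀ x, (s.U x).range = ⨆ (j) (_ : 0 < ev (χ j) n), F j x)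

/-- The rates of the action on the coarse bundle of `χ i` are between `s |χ i|` and `b |χ i|`. -/
def Rt {k : ℕ} {J : Type*} (E : Emb M W) (A : (Fin k → ℤ) → M ≃ₜ M)
    (χ : J → Fin k → ℝ) (F : J → M → Submodule ℝ W) (i : J) (s b : ℝ) : Prop :=
  ∀ n, Regular χ n → ev (χ i) n < 0 → ∀ S : Split E (A n), S.Hyperbolic → ∀ e : ℝ, 0 < e →
    ∃ C : ℝ, ∀ (m : ℕ) (x : M), ∀ w ∈ coarse χ F i x,
      ‖iterD S.D (A n) m x w‖ ≤ C * Real.exp ((s * ev (χ i) n + e) * m) * ‖w‖ ∧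
      ‖iterD S.Di (A n).symm m x w‖ ≤ C * Real.exp ((-(b * ev (χ i) n) + e) * m) * ‖w‖

end Defs

/-! ### Topological modules -/

/-- XCH (20 to 30 lines longer than `F2YCH.lean`, which is the same construction for the pair
`(f.symm, g)`: copy it). Small leaves `X` are crossed by about `1 / ρ` short links. Let `φ` be the
parametrization `UPlaq f.symm` of the stable plaques of `f` (`H6.exists_uplaq s`, `exists_rank`),
`z = φ x a`, `N = ⌈1 / ρ⌉`, `w_l = φ x ((l / N) • a)`: `dist w_l w_(l+1) ≤ Λ₁ ρ`, all in a small stable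
plaque of `x`. L31 for `(f, g)` at `w_l`, `x`: `c_l` with `Dbl f g w_l c_l`, `Dbl f g.symm c_l x`,
`c_l ∈ Wl f η w_l`, `Wl g η w_l`, `Wl f η x` (unique, so `c_0 = x`, `c_N = z`). Put
`k = ⌈log (1 / ρ) / c⌉`, so `exp (-(c k)) ≤ ρ`, `exp (b k) ≤ exp b * ρ ^ (-b / c)`. By `Cdc`
`dist (f^k c_l) (f^k w_l) ≤ C ρ`, by `Dec` `dist (f^k w_l) (f^k w_(l+1)) ≤ C ρ`, so
`dist (f^k c_l) (f^k c_(l+1)) ≤ C' ρ`; `Xgr` (at `f^k c_l`, `f^k c_(l+1)`, `m = k`) brings this back: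
`dist c_l c_(l+1) ≤ C'' ρ ^ (1 - b / c)`. This for `ρ ≤ ρ₀`; for `ρ > ρ₀` take the chain of `ρ₀`. -/
def SpecXch : Prop :=
  ∀ (M : Type u) (W : Type v) [MetricSpace M] [CompactSpace M] [ConnectedSpace M]
    [NormedAddCommGroup W] [InnerProductSpace ℝ W] [FiniteDimensional ℝ W] (E : Emb M W)
    (f g : M ≃ₜ M) (s : Split E f) (ε C l c b : ℝ), s.Hyperbolic → Pair f g ε C l →
    Cdc f g c → Xgr f g b → 0 < b → b < c →
    ∀ ε' : ℝ, 0 < ε' → ∃ e Λ : ℝ, 0 < e ∧ 0 < Λ ∧ ∀ ρ ∈ Ioc (0 : ℝ) 1, ∀ x, ∀ z ∈ Lf f g.symm e x,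
      ∃ (K : ℕ) (q : ℕ → M), (K : ℝ) ≤ Λ / ρ ∧ q 0 = x ∧ q K = z ∧ ∀ i < K,
        q (i + 1) ∈ Lf f g.symm ε' (q i) ∧ dist (q (i + 1)) (q i) ≤ Λ * ρ ^ (1 - b / c)

/-- XCNT. From XCH (with `ε' = ε` of the pair: then a link with `C * dist ≤ r` is in
`Lf f g.symm r`, by `Dec`). Given `r`: `e₁`, `C₁` of `Xgr` with `ε' = r`; `ρ = ρ₁ exp (-(b c / (c - b)) T)`
gives `ρ ^ (1 - b / c) = ρ₁ ^ (1 - b / c) * exp (-(b T))`, so for `ρ₁` small (depending on `r`) all the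
links satisfy the hypothesis of `Xgr` for `m = T`; `1 / ρ ≤ exp (σ T) / ρ₁`. -/
def SpecXcnt : Prop :=
  ∀ (M : Type u) (W : Type v) [MetricSpace M] [CompactSpace M] [ConnectedSpace M]
    [NormedAddCommGroup W] [InnerProductSpace ℝ W] [FiniteDimensional ℝ W] (E : Emb M W)
    (f g : M ≃ₜ M) (s : Split E f) (ε C l c b σ : ℝ), s.Hyperbolic → Pair f g ε C l →
    Cdc f g c → Xgr f g b → 0 < b → b < c → b * c ≤ σ * (c - b) →
    ∃ e : ℝ, 0 < e ∧ ∀ r : ℝ, 0 < r → ∃ Λ : ℝ, ∀ (T : ℕ) x, ∀ z ∈ Lf f g.symm e x,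
      ∃ (K : ℕ) (q : ℕ → M), (K : ℝ) ≤ Λ * Real.exp (σ * T) ∧ q 0 = f.symm^[T] x ∧
        q K = f.symm^[T] z ∧ ∀ i < K, q (i + 1) ∈ Wl f r (q i)

/-- TRN. Transport of a chain of unstable links along a chain of stable links (compare
`N3/Chain.lean`, `N3/Main.lean`). `C_s`, `C_u` the constants of `Scn f s`, `Scn f.symm s'`. Fix a small
`ε'`, `δ` with brackets of size `ε'` for points at distance `< δ`, `r₁ > 0` with
`2 C_u r₁ + 2 C_s ε' + 2 ε' ≤ e₁`, `e₁` smaller than all scales, a radius `r₂ < δ / 2`. Let `n` be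
large, `τ = ⌈θ n⌉`. Unstable chain: `x_0 = f^n m`, .., `x_N = f^n q`, `N ≤ Λ exp (β n)`, links
`Wl f.symm r₁`; put `v_l = f^-(n+τ) x_l`. Stable chain: `y_0 = f^-τ m`, .., `y_S = f^-τ p`,
`S ≤ Λ exp (σ τ)`, links `Wl f r₂`. INVARIANT at the stage `i ≤ S` (points `v^i_l`, `l ≤ N`):
(a) `v^i_0 = y_i`; (b) `f^(n+τ) v^i_(l+1) ∈ Wl f.symm e₁ (f^(n+τ) v^i_l)`; (c) the distance of
`f^(n+τ) v^i_(l+1)`, `f^(n+τ) v^i_l` is at most `r₁ + 2 i ω`, `ω = C_s exp (-s (n + τ)) ε'`;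
(d) `f^(n+τ) v^i_N ∈ R`. By (b), (c): `dist (f^-k ..) (f^-k ..) ≤ C_u exp (-(s' k)) 2 r₁` (if
`2 S ω ≤ r₁`, true for large `n` as `σ θ < s (1 + θ)`), so
`dist v^i_l v^i_0 ≤ N 2 r₁ C_u exp (-(s' (n + τ))) ≤ δ / 2` (large `n`: `β < s' (1 + θ)`). STEP:
`v^(i+1)_l ∈ Wl f ε' (v^i_l) ∩ Wl f.symm ε' (y_(i+1))`, the bracket (`v^(i+1)_0 = y_(i+1)` by
uniqueness). `f^(n+τ) v^(i+1)_l` is `ω`-close to `f^(n+τ) v^i_l`, whence (c); for (b): at the times
`0 ≤ j ≤ n + τ` the distance of `f^j v^(i+1)_(l+1)`, `f^j v^(i+1)_l` is at most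
`2 C_u r₁ + 2 C_s ε' ≤ e₁`, and at negative times at most `2 ε'`, both points being in
`Wl f.symm ε' (y_(i+1))`. END: `f^(n+τ) v^S_0 = f^n p ∈ A`, the links (b) are backward asymptotic,
so `f^(n+τ) v^S_N ∈ A ∩ R`. -/
def SpecTrn : Prop :=
  ∀ (M : Type u) [MetricSpace M] [CompactSpace M] (f : M ≃ₜ M) (ε C l s s' θ σ β : ℝ)
    (A R : Set M) (p q m : M), Loc f ε C l → 0 < s → 0 < s' → Scn f s → Scn f.symm s' → 0 ≤ θ →
    0 ≤ σ → β < s' * (1 + θ) → σ * θ < s * (1 + θ) → Sat f.symm A → Sat f R → (∀ x ∈ A, x ∉ R) →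
    (∀ n : ℕ, f^[n] p ∈ A) → (∀ n : ℕ, f^[n] q ∈ R) →
    (∀ r : ℝ, 0 < r → ∃ Λ : ℝ, ∀ n : ℕ, ∃ (K : ℕ) (c : ℕ → M), (K : ℝ) ≤ Λ * Real.exp (β * n) ∧
      c 0 = f^[n] m ∧ c K = f^[n] q ∧ ∀ i < K, c (i + 1) ∈ Wl f.symm r (c i)) →
    (∀ r : ℝ, 0 < r → ∃ Λ : ℝ, ∀ T : ℕ, ∃ (K : ℕ) (c : ℕ → M), (K : ℝ) ≤ Λ * Real.exp (σ * T) ∧
      c 0 = f.symm^[T] m ∧ c K = f.symm^[T] p ∧ ∀ i < K, c (i + 1) ∈ Wl f r (c i)) →
    False

/-- WALP. The wall lemma. From XCNT (for `(f, g)` with `s`, and for `(f.symm, g.symm)` with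
`s.swap`), TRN, GAEX, PERX, PROD. Let `A'` be the set of GAEX (`GA f g A'`), `p ∈ A` periodic,
`Dbl f g.symm p m`, `m ∉ A`. Then `m ∉ A'` and by `s2` the leaf `C` of `m` does not meet `A'`; `s3`
gives `q` with `Dbl f.symm g m q`, `q ∈ R = {x | ∀ a ∈ A', ¬ FwdAsymp f x a}`, which is saturated by
stable sets, `f '' R = R` (`f '' A' = A'`), disjoint from `A'`. For a fixed large `k`:
`f^k m ∈ Lf f g.symm e (f^k p)`, `f^-k q ∈ Lf f.symm g e (f^-k m)`; XCNT with `T + k` gives the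
chains of TRN (constants multiplied by `exp (σ k)`, `exp (β k)`; reverse the stable chain). So the
leaves `X` of the periodic points of `A` are in `A`, and PERX applies. -/
def SpecWalp : Prop :=
  ∀ (M : Type u) (W : Type v) [MetricSpace M] [CompactSpace M] [ConnectedSpace M]
    [NormedAddCommGroup W] [InnerProductSpace ℝ W] [FiniteDimensional ℝ W] (E : Emb M W)
    (f g : M ≃ₜ M) (S : Split E f) (ε C l s s' c d b b' θ σ β : ℝ), S.Hyperbolic →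
    Pair f g ε C l → 0 < s → 0 < s' → Scn f s → Scn f.symm s' → Cdc f g c → Cdc f.symm g.symm d →
    Xgr f g b → Xgr f.symm g.symm b' → 0 < b → b < c → 0 < b' → b' < d → 0 ≤ θ →
    b * c ≤ σ * (c - b) → b' * d ≤ β * (d - b') → β < s' * (1 + θ) → σ * θ < s * (1 + θ) →
    ∀ A : Set M, Minimal (· ∈ Sset f.symm) A → Sat g.symm A

/-! ### Numbers -/

/-- NUM. `σ`, `β` for the rates near the wall: at `η = 0`, `K = ∞` the inequalities are
`θ b < s (1 + θ)`, `b' < s' (1 + θ)`. If `b = s` take `θ = b' / s'`, otherwise `θ` between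
`(b' - s') / s'` and `s / (b - s)`; then `K = 1 / η` and continuity at `η = 0`
(multiply by `η = 1 / K`). -/
def SpecNum : Prop :=
  ∀ s b s' b' : ℝ, Pinch s b s' b' → ∃ θ η K : ℝ, 0 ≤ θ ∧ 0 < η ∧ η < s ∧ η < s' ∧ b + η < K ∧
    b' + η < K ∧ (b + η) * K * θ < (s - η) * (1 + θ) * (K - (b + η)) ∧
    (b' + η) * K < (s' - η) * (1 + θ) * (K - (b' + η))

/-! ### From the derivatives to the metric, elements near the wall -/

/-- EXPX. As `F1CRT.lean`, in the past: blocks of `N` steps with `K² C exp (b N) ≤ exp (b₁ N) / 2`,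
`hasD_iter_approx s.swap N`, cone estimate `F1CRTAux.cone2 s t.swap` (it gives
`‖v - PP s t.swap x v‖ ≤ η ‖v‖` for `z ∈ Wl f ε₂ x`, `z ∈ Wl g.symm ε₂ x`, `v = z - x`; the second one
follows from `Dbl f g.symm x z` and `z ∈ Wl f δ x` by PROD, third part, for `(f, g.symm)`).
Induction on `q`: `dist (f^-(qN) z) (f^-(qN) x) ≤ exp (b₁ q N) dist z x`, and between the blocks the
Lipschitz constant of `f.symm` (`s.hDi.exists_lip`, `F1CRT`); all these distances are small if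
`C₂ exp (b₁ m) dist z x ≤ e`, so `f^-j z ∈ Wl f δ (f^-j x)` for `j ≤ m` (the distances at the times
`-j`, .., `0` and the future are small), and `Dbl` is invariant (DBL). -/
def SpecExpx : Prop :=
  ∀ (M : Type u) (W : Type v) [MetricSpace M] [CompactSpace M] [NormedAddCommGroup W]
    [InnerProductSpace ℝ W] [FiniteDimensional ℝ W] (E : Emb M W) (f g : M ≃ₜ M)
    (s : Split E f) (t : Split E g) (C b b₁ : ℝ), s.Hyperbolic → t.Hyperbolic →
    (∀ x, f (g x) = g (f x)) → 0 ≤ b → b < b₁ →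
    (∀ (m : ℕ) x w, PP s t.swap x w = w →
      ‖iterD s.Di f.symm m x w‖ ≤ C * Real.exp (b * m) * ‖w‖) → Xgr f g b₁

/-- ACTL. The lemmas of `CHN.lean` (`comm`, `zero`, `neg`, `sats_of_step`) for `Act1`: copy. -/
def SpecActl : Prop :=
  ∀ (M : Type u) (W : Type v) [MetricSpace M] [CompactSpace M] [NormedAddCommGroup W]
    [InnerProductSpace ℝ W] [FiniteDimensional ℝ W] (E : Emb M W) (k : ℕ) (J : Type w) [Finite J]
    (A : (Fin k → ℤ) → M ≃ₜ M) (χ : J → Fin k → ℝ) (F : J → M → Submodule ℝ W), Act1 E A χ F →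
    (∀ n n' x, A n (A n' x) = A n' (A n x)) ∧ (∀ x, A 0 x = x) ∧ (∀ n, A (-n) = (A n).symm) ∧
    ∀ n n', Step χ n n' → (∀ K, Minimal (· ∈ Sset (A n).symm) K → Sat (A n').symm K) ∧
      (∀ K, Minimal (· ∈ Sset (A n').symm) K → Sat (A n).symm K)

/-- RTCP. `SpecRtc` for `Act1` (copy `F1RTC.lean`, which uses only `add` and `split`), together with
the invariance of the ranges. -/
def SpecRtcp : Prop :=
  ∀ (M : Type u) (W : Type v) [MetricSpace M] [CompactSpace M] [NormedAddCommGroup W]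
    [InnerProductSpace ℝ W] [FiniteDimensional ℝ W] (E : Emb M W) (k : ℕ) (J : Type w) [Finite J]
    (A : (Fin k → ℤ) → M ≃ₜ M) (χ : J → Fin k → ℝ) (F : J → M → Submodule ℝ W), Act1 E A χ F →
    ∀ (n n' : Fin k → ℤ), Regular χ n → Regular χ n' → ∃ C₁ l : ℝ, 0 < l ∧ l < 1 ∧
      ∀ (p q : ℕ), Regular χ ((p : ℤ) • n + (q : ℤ) • n') →
        (∀ a, ev (χ a) ((p : ℤ) • n + (q : ℤ) • n') < 0 ↔ ev (χ a) n < 0) →
        ∀ (s : Split E (A ((p : ℤ) • n + (q : ℤ) • n'))) (t : Split E (A n')),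
        (∀ x, (s.S x).range = ⨆ (a) (_ : ev (χ a) ((p : ℤ) • n + (q : ℤ) • n') < 0), F a x) →
        (∀ x, (t.S x).range = ⨆ (a) (_ : ev (χ a) n' < 0), F a x) →
        s.Hyperbolic → t.Hyperbolic →
        ∀ (m : ℕ) x w, PP s t x w = w →
          ‖iterD s.D (A ((p : ℤ) • n + (q : ℤ) • n')) m x w‖ ≤ C₁ * (l ^ (p + q)) ^ m * ‖w‖

/-- RATX. The rates of `f = A n''` near the wall, one side. Let `κ = -ev (χ i) n''`, which is at most
`-2 ev (χ i) n` (last hypothesis). RTCP gives `C₁`, `l` before `p`, `q`; choose `q₀` with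
`l ^ q₀ < exp (-(K * (-2 ev (χ i) n)) - ..)`. `Cdc`: RTCP and CRT (`θ = l ^ (p + q)`,
`Q = exp (-(K κ))`). `Xgr`: `Rt` (second bound, `e = η κ / 2`), RNG and EXPX (`b₁ = (b + η) κ`). `Scn`:
for `w = S x w`: `w = PP s t x w + PP s t.swap x w`, the first part is contracted at least like
`exp (-(K κ) m)`, `K ≥ s`, the second one by `Rt` (`e = η κ / 2`); then `H6.exists_dec_rate`
(`m = exp (-((s - η / 2) κ))`, `l = exp (-((s - η) κ))`). -/
def SpecRatx : Prop :=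
  ∀ (M : Type u) (W : Type v) [MetricSpace M] [CompactSpace M] [NormedAddCommGroup W]
    [InnerProductSpace ℝ W] [FiniteDimensional ℝ W] (E : Emb M W) (k : ℕ) (J : Type w) [Finite J]
    (A : (Fin k → ℤ) → M ≃ₜ M) (χ : J → Fin k → ℝ) (F : J → M → Submodule ℝ W), Act1 E A χ F →
    ∀ (n n' : Fin k → ℤ) (i j : J), Wal χ n n' i j → ∀ s b η K : ℝ, Rt E A χ F i s b → 0 < η →
      η < s → s ≤ b → b + η < K → ∃ q₀ : ℕ, ∀ q : ℕ, q₀ ≤ q → ∀ p : ℕ, 1 ≤ p →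
        Wal χ ((p : ℤ) • n + (q : ℤ) • n') n' i j →
        (∀ l, ev (χ l) ((p : ℤ) • n + (q : ℤ) • n') < 0 ↔ ev (χ l) n < 0) →
        ev (χ i) ((2 : ℤ) • n - ((p : ℤ) • n + (q : ℤ) • n')) < 0 →
        Scn (A ((p : ℤ) • n + (q : ℤ) • n'))
          ((s - η) * -ev (χ i) ((p : ℤ) • n + (q : ℤ) • n')) ∧
        Cdc (A ((p : ℤ) • n + (q : ℤ) • n')) (A n')
          (K * -ev (χ i) ((p : ℤ) • n + (q : ℤ) • n')) ∧
        Xgr (A ((p : ℤ) • n + (q : ℤ) • n')) (A n')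
          ((b + η) * -ev (χ i) ((p : ℤ) • n + (q : ℤ) • n'))

/-- SATP. The wall with a pinched pair. From NARI, RATX (for `n`, `n'`, `i`, `j` and for `-n`, `-n'`,
`j`, `i`, with the same `p`, `q`: the hypotheses for `-n`, `-n'`, `j` follow, `χ j = -(t • χ i)`, and
`A (p (-n) + q (-n')) = (A n'')⁻¹`), NUM (`κ = -ev (χ i) n''`, `κ' = t κ = -ev (χ j) (-n'')`,
`s ↦ (s - η) κ`, `b ↦ (b + η) κ`, `c = K κ`, `σ = b c / (c - b)`, and the same with `κ'` for `β`; the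
inequalities are homogeneous), WALP, PAIR, ACTL (`minimal_of`, `Step χ n n''`). -/
def SpecSatp : Prop :=
  ∀ (M : Type u) (W : Type v) [MetricSpace M] [CompactSpace M] [ConnectedSpace M]
    [NormedAddCommGroup W] [InnerProductSpace ℝ W] [FiniteDimensional ℝ W] (E : Emb M W) (k : ℕ)
    (J : Type w) [Finite J] (A : (Fin k → ℤ) → M ≃ₜ M) (χ : J → Fin k → ℝ)
    (F : J → M → Submodule ℝ W), Act1 E A χ F → ∀ (n n' : Fin k → ℤ) (i j : J), Wal χ n n' i j →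
    ∀ s b s' b' : ℝ, Pinch s b s' b' → Rt E A χ F i s b → Rt E A χ F j s' b' →
    ∀ K, Minimal (· ∈ Sset (A n).symm) K → Sat (A n').symm K

/-- CHP. The abstract theorem. As `F2CHAIN.lean`, with `ACTL` instead of the lemmas of `CHN.lean`;
if `(χ i, χ j)` is pinched with `(s, b, s', b')` then `(χ j, χ i)` is with `(s', b', s, b)`. -/
def SpecChp : Prop :=
  ∀ (M : Type u) (W : Type v) [MetricSpace M] [CompactSpace M] [ConnectedSpace M]
    [NormedAddCommGroup W] [InnerProductSpace ℝ W] [FiniteDimensional ℝ W] (E : Emb M W) (k : ℕ)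
    (J : Type w) [Finite J] (A : (Fin k → ℤ) → M ≃ₜ M) (χ : J → Fin k → ℝ)
    (F : J → M → Submodule ℝ W), Act1 E A χ F →
    (∀ i j, ∀ t : ℝ, 0 < t → χ i = -(t • χ j) →
      (Act E A χ F ∧ ((∀ x, Module.finrank ℝ (coarse χ F i x) = 1) ∨
        ∀ x, Module.finrank ℝ (coarse χ F j x) = 1)) ∨
      ∃ s b s' b' : ℝ, Pinch s b s' b' ∧ Rt E A χ F i s b ∧ Rt E A χ F j s' b') →
    ∀ n : Fin k → ℤ, Regular χ n → TopTransitive (A n)

/-! ### The manifold -/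

section Mfd

variable {V : Type*} [NormedAddCommGroup V] [NormedSpace ℝ V]
  {M : Type*} [TopologicalSpace M] [ChartedSpace V M]
  [RiemannianBundle (fun x : M => TangentSpace 𝓘(ℝ, V) x)]

/-- The derivatives of the iterates of `f` are bounded by `C exp ((r + e) m)` on the field `F`, for
every `e > 0`: the exponents of `f` on `F` are at most `r`. -/
def ExpLe (f : M → M) (F : ∀ x : M, Submodule ℝ (TangentSpace 𝓘(ℝ, V) x)) (r : ℝ) : Prop :=
  ∀ e : ℝ, 0 < e → ∃ C : ℝ, ∀ (m : ℕ) (x : M), ∀ v ∈ F x,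
    ‖mfderiv 𝓘(ℝ, V) 𝓘(ℝ, V) (f^[m]) x v‖ ≤ C * Real.exp ((r + e) * m) * ‖v‖

/-- The rates of the action on the sum `G i` of the bundles `F l` whose functionals are positive
multiples of `χ i` are between `s |χ i|` and `b |χ i|`, at the regular elements. -/
def Rates {k : ℕ} {J : Type*} (A : (Fin k → ℤ) → M ≃ₘ^1⟮𝓘(ℝ, V), 𝓘(ℝ, V)⟯ M)
    (χ : J → Fin k → ℝ) (G : ∀ x : M, Submodule ℝ (TangentSpace 𝓘(ℝ, V) x)) (i : J)
    (s b : ℝ) : Prop :=
  ∀ n : Fin k → ℤ, (∀ j, ∑ a, χ j a * (n a : ℝ) ≠ 0) → ∑ a, χ i a * (n a : ℝ) < 0 →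
    ExpLe (A n) G (s * ∑ a, χ i a * (n a : ℝ)) ∧
    ExpLe (A n).symm G (-(b * ∑ a, χ i a * (n a : ℝ)))

end Mfd

/-- ACTP. As `ACT.lean` (without `Sq`, but with the second clause), and the rates: `iterD S.D f m x`
of the image of `v` under the derivative of `e` is the image of the derivative of `f^m`
(`Gen.iterD_dE`, for any hyperbolic `S`; the derivatives are unique), and the norms on the two sides
are comparable (`Gen/Split.lean`); the coarse bundle of `F'` is the image of `G i`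
(`ACT.map_iSup₂`). -/
def SpecActp : Prop :=
  ∀ (V : Type v) [NormedAddCommGroup V] [NormedSpace ℝ V] [FiniteDimensional ℝ V] (N : ℕ)
    (M : Type u) [MetricSpace M] [CompactSpace M] [ChartedSpace V M] [IsManifold 𝓘(ℝ, V) ∞ M]
    [RiemannianBundle (fun x : M => TangentSpace 𝓘(ℝ, V) x)]
    [IsContinuousRiemannianBundle V (fun x : M => TangentSpace 𝓘(ℝ, V) x)]
    (e : M → EuclideanSpace ℝ (Fin N)), Isometry e → ContMDiff 𝓘(ℝ, V) (𝓡 N) ∞ e →
    (∀ x, Injective (mfderiv 𝓘(ℝ, V) (𝓡 N) e x)) →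
    ∀ (k : ℕ) (J : Type w) [Finite J] (A : (Fin k → ℤ) → M ≃ₘ^1⟮𝓘(ℝ, V), 𝓘(ℝ, V)⟯ M)
      (χ : J → Fin k → ℝ) (F : J → ∀ x : M, Submodule ℝ (TangentSpace 𝓘(ℝ, V) x)),
    (∀ n n' x, A (n + n') x = A n (A n' x)) →
    (∀ n, Regular χ n → Gen.IsAnosovSplitting (A n) (fun x => ⨆ (j) (_ : ev (χ j) n < 0), F j x)
      (fun x => ⨆ (j) (_ : 0 < ev (χ j) n), F j x)) →
    ∃ (E : Emb M (EuclideanSpace ℝ (Fin N))) (F' : J → M → Submodule ℝ (EuclideanSpace ℝ (Fin N))),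
      Act1 E (fun n => (A n).toHomeomorph) χ F' ∧
      ((∀ n, ContMDiff 𝓘(ℝ, V) 𝓘(ℝ, V) 2 (A n)) → Act E (fun n => (A n).toHomeomorph) χ F') ∧
      (∀ i x, Module.finrank ℝ (coarse χ F' i x) =
        Module.finrank ℝ (⨆ (l) (_ : ∃ c : ℝ, 0 < c ∧ χ l = c • χ i), F l x :
          Submodule ℝ (TangentSpace 𝓘(ℝ, V) x))) ∧
      ∀ (i : J) (s b : ℝ),
        Rates A χ (fun x => ⨆ (l) (_ : ∃ c : ℝ, 0 < c ∧ χ l = c • χ i), F l x) i s b →
        Rt E (fun n => (A n).toHomeomorph) χ F' i s b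

end Pool.Agent.Lib.MP610fe3.HR
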