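import Pool.Agent.Lib.MP_610fe3_an.HR.F4SSpec
import Pool.Agent.Lib.MP_610fe3_an.PR.AD
import Pool.Agent.Lib.MP_610fe3_an.PR.CLO

/-!
# Module ADR: the distortion of the products on an invariant bundle

Edit of `PR/AD.lean`, with an invariant field of projections in place of the unstable one.
-/

set_option autoImplicit false

open Set Filter Function Bundle Metric
open scoped Topology Manifold ContDiff

namespace Pool.Agent.Lib.MP610fe3.HR

open Cf CH PR

universe u v w

namespace F4ADRAux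

open PR.ADM (cj cj_apply cj_norm_le cj_sub)

section

variable {M : Type u} [MetricSpace M] {W : Type v} [NormedAddCommGroup W]
    [NormedSpace ℝ W] {J : Emb M W} {f : M ≃ₜ M} (S : Split J f) (R : M → W →L[ℝ] W)

/-- an invariant field of projections -/
structure Pj : Prop where
  RR : ∀ x, R x ∘L R x = R x
  PR : ∀ x, J.P x ∘L R x = R x
  RP : ∀ x, R x ∘L J.P x = R x
  DR : ∀ x, S.D x ∘L R x = R (f x) ∘L S.D x

/-- the derivative on the bundle -/
def A (x : M) : W →L[ℝ] W := S.D x ∘L R x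

/-- its inverse -/
def B (x : M) : W →L[ℝ] W := R x ∘L S.Di (f x)

/-- products of the inverses -/
def Bn : ℕ → M → W →L[ℝ] W
  | 0, _ => ContinuousLinearMap.id ℝ W
  | (n + 1), x => B S R x ∘L Bn n (f x)

variable {S R} (hR : Pj S R)

include hR

theorem UU (x : M) (v : W) : R x (R x v) = R x v :=
  congrArg (fun T : W →L[ℝ] W => T v) (hR.RR x)

theorem DU (x : M) (v : W) : S.D x (R x v) = R (f x) (S.D x v) :=
  congrArg (fun T : W →L[ℝ] W => T v) (hR.DR x)

theorem A_U (x : M) (v : W) : A S R x (R x v) = A S R x v := by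
  show S.D x (R x (R x v)) = S.D x (R x v)
  rw [UU hR]

theorem A_eq (x : M) (v : W) : A S R x v = R (f x) (S.D x v) := DU hR x v

theorem U_B (x : M) (v : W) : R x (B S R x v) = B S R x v := UU hR x _

theorem B_A (x : M) (v : W) : B S R x (S.D x (R x v)) = R x v := by
  show R x (S.Di (f x) (S.D x (R x v))) = R x v
  have h1 : S.Di (f x) (S.D x (R x v)) = J.P x (R x v) :=
    congrArg (fun T : W →L[ℝ] W => T (R x v)) (S.inv1 x)
  have h2 : J.P x (R x v) = R x v := congrArg (fun T : W →L[ℝ] W => T v) (hR.PR x)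
  rw [h1, h2, UU hR]

theorem A_B (x : M) (z : W) : A S R x (B S R x z) = R (f x) z := by
  rw [A_eq hR]
  show R (f x) (S.D x (R x (S.Di (f x) z))) = _
  rw [DU hR, UU hR]
  have h1 : S.D x (S.Di (f x) z) = J.P (f x) z := by
    have := congrArg (fun T : W →L[ℝ] W => T z) (S.inv2 (f x))
    simpa using this
  have h2 : R (f x) (J.P (f x) z) = R (f x) z :=
    congrArg (fun T : W →L[ℝ] W => T z) (hR.RP (f x))
  rw [h1, h2]

theorem itA_U (n : ℕ) (x : M) (v : W) :
    iterD (A S R) f n x (R x v) = iterD S.D f n x (R x v) := by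
  induction n generalizing x v with
  | zero => rfl
  | succ n ih =>
    show iterD (A S R) f n (f x) (A S R x (R x v)) = iterD S.D f n (f x) (S.D x (R x v))
    rw [A_U hR, A_eq hR, ih, DU hR]

theorem Bn_itA (n : ℕ) (x : M) (v : W) :
    Bn S R n x (iterD (A S R) f n x (R x v)) = R x v := by
  induction n generalizing x v with
  | zero => rfl
  | succ n ih =>
    show B S R x (Bn S R n (f x) (iterD (A S R) f n (f x) (A S R x (R x v)))) = R x v
    rw [A_U hR, A_eq hR, ih, ← DU hR, B_A hR]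

theorem U_Bn (n : ℕ) (x : M) (z : W) : R x (Bn S R (n + 1) x z) = Bn S R (n + 1) x z :=
  U_B hR x _

theorem itA_succ_U (n : ℕ) (x : M) (v : W) :
    iterD (A S R) f (n + 1) x (R x v) = iterD (A S R) f (n + 1) x v := by
  show iterD (A S R) f n (f x) (A S R x (R x v)) = iterD (A S R) f n (f x) (A S R x v)
  rw [A_U hR]

theorem itA_Bn (n : ℕ) (x : M) (z : W) :
    iterD (A S R) f (n + 1) x (Bn S R (n + 1) x z) = R (f^[n + 1] x) z := by
  induction n generalizing x z with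
  | zero => exact A_B hR x z
  | succ n ih =>
    show iterD (A S R) f (n + 1) (f x) (A S R x (B S R x (Bn S R (n + 1) (f x) z))) = _
    rw [A_B hR, U_Bn hR, ih]
    rfl

omit hR in
theorem it_cj (n : ℕ) (x : M) :
    iterD (fun x => cj (A S R x) (B S R x)) f n x = cj (iterD (A S R) f n x) (Bn S R n x) := by
  induction n generalizing x with
  | zero => rfl
  | succ n ih =>
    ext T z
    show iterD (fun x => cj (A S R x) (B S R x)) f n (f x) (cj (A S R x) (B S R x) T) z = _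
    rw [ih]
    rfl

end

end F4ADRAux

open PR.ADM (cj cj_apply cj_norm_le cj_sub) in
open F4ADRAux in
/-- **Module ADR.** -/
theorem specAdr (hKal : PR.SpecKal.{u, v}) : SpecAdr.{u, v} := by
  intro M _ _ W _ _ _ J f S hS R Kr C β rRR rPR rRP rDR hRb hβ hβ1 hD hDi hU hf κ hper
  have hR : Pj S R := ⟨rRR, rPR, rRP, rDR⟩
  obtain ⟨K₁, hK₁1, hK₁⟩ := exists_norm_bound S.hD.cont
  obtain ⟨K₂, hK₂1, hK₂⟩ := exists_norm_bound S.hDi.cont
  -- one constant for everything
  obtain ⟨K, hK1, hKU, hKD, hKDi, hCK⟩ : ∃ K : ℝ, 1 ≤ K ∧ (∀ x, ‖R x‖ ≤ K) ∧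
      (∀ x, ‖S.D x‖ ≤ K) ∧ (∀ x, ‖S.Di x‖ ≤ K) ∧ C ≤ K := by
    refine ⟨max (max Kr C) (max K₁ K₂), ?_, fun x => ?_, fun x => ?_, fun x => ?_, ?_⟩
    · exact hK₁1.trans ((le_max_left _ _).trans (le_max_right _ _))
    · exact (hRb x).trans ((le_max_left _ _).trans (le_max_left _ _))
    · exact (hK₁ x).trans ((le_max_left _ _).trans (le_max_right _ _))
    · exact (hK₂ x).trans ((le_max_right _ _).trans (le_max_right _ _))
    · exact (le_max_right _ _).trans (le_max_left _ _)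
  have hK0 : 0 ≤ K := by linarith
  have hd0 : ∀ x y : M, 0 ≤ dist x y ^ β := fun x y => Real.rpow_nonneg dist_nonneg _
  have hD' : ∀ x y, ‖S.D x - S.D y‖ ≤ K * dist x y ^ β := fun x y =>
    (hD x y).trans (mul_le_mul_of_nonneg_right hCK (hd0 x y))
  have hU' : ∀ x y, ‖R x - R y‖ ≤ K * dist x y ^ β := fun x y =>
    (hU x y).trans (mul_le_mul_of_nonneg_right hCK (hd0 x y))
  have hDif : ∀ x y, ‖S.Di (f x) - S.Di (f y)‖ ≤ K * K * dist x y ^ β := by
    intro x y
    refine (hDi _ _).trans ((mul_le_mul_of_nonneg_right hCK (hd0 _ _)).trans ?_)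
    rw [mul_assoc]
    refine mul_le_mul_of_nonneg_left ?_ hK0
    have h1 : dist (f x) (f y) ≤ K * dist x y :=
      (hf x y).trans (mul_le_mul_of_nonneg_right hCK dist_nonneg)
    refine (Real.rpow_le_rpow dist_nonneg h1 hβ.le).trans ?_
    rw [Real.mul_rpow hK0 dist_nonneg]
    refine mul_le_mul_of_nonneg_right ?_ (hd0 x y)
    exact (Real.rpow_le_rpow_of_exponent_le hK1 hβ1).trans (le_of_eq (Real.rpow_one K))
  have hAn : ∀ x, ‖A S R x‖ ≤ K * K := fun x =>
    (ContinuousLinearMap.opNorm_comp_le _ _).trans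
      (mul_le_mul (hKD x) (hKU x) (norm_nonneg _) hK0)
  have hBn : ∀ x, ‖B S R x‖ ≤ K * K := fun x =>
    (ContinuousLinearMap.opNorm_comp_le _ _).trans
      (mul_le_mul (hKU x) (hKDi (f x)) (norm_nonneg _) hK0)
  have hA : ∀ x y, ‖A S R x - A S R y‖ ≤ 2 * (K * K * K) * dist x y ^ β := by
    intro x y
    have e : A S R x - A S R y = (S.D x - S.D y) ∘L R x + S.D y ∘L (R x - R y) := by
      ext v
      simp [F4ADRAux.A]
    rw [e]
    have h1 := ContinuousLinearMap.opNorm_comp_le (S.D x - S.D y) (R x)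
    have h2 := ContinuousLinearMap.opNorm_comp_le (S.D y) (R x - R y)
    have h3 : ‖S.D x - S.D y‖ * ‖R x‖ ≤ K * dist x y ^ β * K :=
      mul_le_mul (hD' x y) (hKU x) (norm_nonneg _) (mul_nonneg hK0 (hd0 x y))
    have h4 : ‖S.D y‖ * ‖R x - R y‖ ≤ K * (K * dist x y ^ β) :=
      mul_le_mul (hKD y) (hU' x y) (norm_nonneg _) hK0
    have h5 : K * K * dist x y ^ β ≤ K * K * K * dist x y ^ β := by
      refine mul_le_mul_of_nonneg_right ?_ (hd0 x y)
      nlinarith
    refine (norm_add_le _ _).trans ?_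
    nlinarith
  have hB : ∀ x y, ‖B S R x - B S R y‖ ≤ 2 * (K * K * K) * dist x y ^ β := by
    intro x y
    have e : B S R x - B S R y = (R x - R y) ∘L S.Di (f x) +
        R y ∘L (S.Di (f x) - S.Di (f y)) := by
      ext v
      simp [F4ADRAux.B]
    rw [e]
    have h1 := ContinuousLinearMap.opNorm_comp_le (R x - R y) (S.Di (f x))
    have h2 := ContinuousLinearMap.opNorm_comp_le (R y) (S.Di (f x) - S.Di (f y))
    have h3 : ‖R x - R y‖ * ‖S.Di (f x)‖ ≤ K * dist x y ^ β * K :=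
      mul_le_mul (hU' x y) (hKDi _) (norm_nonneg _) (mul_nonneg hK0 (hd0 x y))
    have h4 : ‖R y‖ * ‖S.Di (f x) - S.Di (f y)‖ ≤ K * (K * K * dist x y ^ β) :=
      mul_le_mul (hKU y) (hDif x y) (norm_nonneg _) hK0
    have h5 : K * K * dist x y ^ β ≤ K * K * K * dist x y ^ β := by
      refine mul_le_mul_of_nonneg_right ?_ (hd0 x y)
      nlinarith
    refine (norm_add_le _ _).trans ?_
    nlinarith
  set E : M → (W →L[ℝ] W) →L[ℝ] (W →L[ℝ] W) := fun x => cj (A S R x) (B S R x) with hE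
  have hEn : ∀ x, ‖E x‖ ≤ K * K * (K * K) := fun x =>
    (cj_norm_le _ _).trans (mul_le_mul (hAn x) (hBn x) (norm_nonneg _) (by positivity))
  have hEh : ∀ x y, ‖E x - E y‖ ≤ 4 * (K * K * K) * (K * K) * dist x y ^ β := by
    intro x y
    simp only [hE]
    rw [cj_sub]
    have h1 := cj_norm_le (A S R x - A S R y) (B S R x)
    have h2 := cj_norm_le (A S R y) (B S R x - B S R y)
    have h3 : ‖A S R x - A S R y‖ * ‖B S R x‖ ≤ 2 * (K * K * K) * dist x y ^ β * (K * K) :=
      mul_le_mul (hA x y) (hBn x) (norm_nonneg _)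
        (mul_nonneg (by positivity) (hd0 x y))
    have h4 : ‖A S R y‖ * ‖B S R x - B S R y‖ ≤ K * K * (2 * (K * K * K) * dist x y ^ β) :=
      mul_le_mul (hAn y) (hB x y) (norm_nonneg _) (by positivity)
    have h5 := norm_add_le (cj (A S R x - A S R y) (B S R x)) (cj (A S R y) (B S R x - B S R y))
    refine h5.trans ?_
    nlinarith
  obtain ⟨θ, hθ0, hθ1, hclos⟩ := specClo S hS E _ β hβ hβ1 hEh
  -- the growth at the periodic points
  have hgrow : ∀ (p : M) (q : ℕ), 0 < q → f^[q] p = p → ∀ ε : ℝ, 0 < ε → ∃ C' : ℝ, ∀ n : ℕ,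
      ‖iterD E f n p‖ ≤ C' * Real.exp ((κ + ε) * n) := by
    intro p q hq hp ε hε
    obtain ⟨C', hC'⟩ := hper p q hq hp ε hε
    refine ⟨1 + |C'| * (K * K), fun n => ?_⟩
    have hexp := Real.exp_pos ((κ + ε) * n)
    rcases n with _ | n
    · have h1 : ‖iterD E f 0 p‖ ≤ 1 := ContinuousLinearMap.norm_id_le (𝕜 := ℝ) (E := W →L[ℝ] W)
      have h2 : 0 ≤ |C'| * (K * K) := by positivity
      simp only [Nat.cast_zero, mul_zero, Real.exp_zero, mul_one]
      linarith
    refine ContinuousLinearMap.opNorm_le_bound _ (by positivity) fun T => ?_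
    refine ContinuousLinearMap.opNorm_le_bound _ (by positivity) fun z => ?_
    have e1 : iterD E f (n + 1) p T z = iterD (A S R) f (n + 1) p (T (Bn S R (n + 1) p z)) := by
      rw [hE, it_cj]
      rfl
    rw [e1]
    set w := Bn S R (n + 1) p z with hw
    have hUw : R p w = w := U_Bn hR n p z
    have h1 : iterD (A S R) f (n + 1) p (T w) = iterD S.D f (n + 1) p (R p (T w)) := by
      rw [← itA_succ_U hR, itA_U hR]
    have h2 : iterD S.D f (n + 1) p (R p w) = R (f^[n + 1] p) z := by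
      rw [← itA_U hR, itA_succ_U hR, hw, itA_Bn hR]
    have h3 := hC' (n + 1) (T w) w
    rw [h2, hUw] at h3
    rw [h1]
    rcases eq_or_ne w 0 with h0 | h0
    · rw [h0, map_zero, map_zero, map_zero, norm_zero]
      positivity
    have hwpos : 0 < ‖w‖ := norm_pos_iff.2 h0
    have h4 : ‖R (f^[n + 1] p) z‖ ≤ K * ‖z‖ :=
      (R (f^[n + 1] p)).le_of_opNorm_le (hKU (f^[n + 1] p)) z
    have h5 : ‖R p (T w)‖ ≤ K * (‖T‖ * ‖w‖) :=
      ((R p).le_of_opNorm_le (hKU p) _).trans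
        (mul_le_mul_of_nonneg_left (T.le_opNorm w) hK0)
    refine le_of_mul_le_mul_right ?_ hwpos
    calc ‖iterD S.D f (n + 1) p (R p (T w))‖ * ‖w‖
        ≤ C' * Real.exp ((κ + ε) * (n + 1 : ℕ)) * ‖R (f^[n + 1] p) z‖ * ‖R p (T w)‖ := h3
      _ ≤ |C'| * Real.exp ((κ + ε) * (n + 1 : ℕ)) * (K * ‖z‖) * (K * (‖T‖ * ‖w‖)) := by
          gcongr
          exact le_abs_self C'
      _ ≤ (1 + |C'| * (K * K)) * Real.exp ((κ + ε) * (n + 1 : ℕ)) * ‖T‖ * ‖z‖ * ‖w‖ := by
          have h6 : 0 ≤ Real.exp ((κ + ε) * (n + 1 : ℕ)) * ‖T‖ * ‖z‖ * ‖w‖ := by positivity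
          nlinarith
  intro ε hε
  obtain ⟨C', hC'⟩ := hKal f E _ θ κ hEn hθ0 hθ1 hclos hgrow ε hε
  refine ⟨C', fun n x v w => ?_⟩
  rcases eq_or_ne (R x w) 0 with h0 | h0
  · rw [h0, map_zero, norm_zero]
    simp
  have hpos : 0 < ‖R x w‖ := norm_pos_iff.2 h0
  -- the operator of rank one
  set φ : W →L[ℝ] ℝ := innerSL ℝ (R x w) with hφ
  set T : W →L[ℝ] W := φ.smulRight (R x v) with hT
  have hTn : ‖T‖ ≤ ‖R x w‖ * ‖R x v‖ := by
    rw [hT, ContinuousLinearMap.norm_smulRight_apply, hφ, innerSL_apply_norm]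
  have h1 : iterD E f n x T (iterD (A S R) f n x (R x w)) =
      ‖R x w‖ ^ 2 • iterD S.D f n x (R x v) := by
    rw [hE, it_cj]
    show iterD (A S R) f n x (T (Bn S R n x (iterD (A S R) f n x (R x w)))) = _
    rw [Bn_itA hR]
    have h2 : T (R x w) = ‖R x w‖ ^ 2 • R x v := by
      rw [hT, ContinuousLinearMap.smulRight_apply, hφ, innerSL_apply_apply,
        real_inner_self_eq_norm_sq]
    rw [h2, map_smul, itA_U hR]
  have h2 : ‖R x w‖ ^ 2 * ‖iterD S.D f n x (R x v)‖ ≤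
      C' * Real.exp ((κ + ε) * n) * (‖R x w‖ * ‖R x v‖) *
        ‖iterD S.D f n x (R x w)‖ := by
    have h3 : ‖iterD E f n x T (iterD (A S R) f n x (R x w))‖ ≤
        ‖iterD E f n x T‖ * ‖iterD (A S R) f n x (R x w)‖ := ContinuousLinearMap.le_opNorm _ _
    rw [h1, norm_smul, Real.norm_of_nonneg (by positivity), itA_U hR] at h3
    refine h3.trans (mul_le_mul_of_nonneg_right ?_ (norm_nonneg _))
    have hC0 : 0 ≤ C' * Real.exp ((κ + ε) * n) := (norm_nonneg _).trans (hC' n x)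
    calc ‖iterD E f n x T‖ ≤ ‖iterD E f n x‖ * ‖T‖ := ContinuousLinearMap.le_opNorm _ _
      _ ≤ C' * Real.exp ((κ + ε) * n) * (‖R x w‖ * ‖R x v‖) :=
          mul_le_mul (hC' n x) hTn (norm_nonneg _) hC0
  refine le_of_mul_le_mul_right ?_ hpos
  nlinarith [h2]

end Pool.Agent.Lib.MP610fe3.HR
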