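import Pool.Agent.Lib.MP_610fe3_an.HR.F4Spec

/-!
# Module BDL: maximal separated subsets of a small unstable set
-/

set_option autoImplicit false

open Set Filter Function Bundle Metric
open scoped Topology Manifold ContDiff

namespace Pool.Agent.Lib.MP610fe3.HR

open Cf CH
open T6 (Sys Sc Lad Dom HolMap)

universe u v w

namespace F4BDLAux

variable {L : Type*} [MetricSpace L] {f : L ≃ₜ L} {u : ℕ}
  {φ : L → EuclideanSpace ℝ (Fin u) → L} {C a b κ r r₁ e ρ : ℝ}

theorem one_le (hs : Sys f u φ C a b κ r r₁ e ρ) : 1 ≤ C := hs.fwd.one_le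

theorem lip_iter (hs : Sys f u φ C a b κ r r₁ e ρ) (x y : L) (n : ℕ) :
    dist (f^[n] x) (f^[n] y) ≤ C ^ n * dist x y := by
  have hC := one_le hs
  induction n with
  | zero => simp
  | succ n ih =>
    rw [iterate_succ_apply', iterate_succ_apply', pow_succ]
    calc dist (f (f^[n] x)) (f (f^[n] y)) ≤ C * dist (f^[n] x) (f^[n] y) := hs.lip _ _
      _ ≤ C * (C ^ n * dist x y) := mul_le_mul_of_nonneg_left ih (by linarith)
      _ = C ^ n * C * dist x y := by ring

theorem exists_bound (hs : Sys f u φ C a b κ r r₁ e ρ) (w : L) (n : ℕ) {η : ℝ}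
    (hη : 0 < η) : ∃ B : ℕ, ∀ S : Finset L, (∀ p ∈ S, p ∈ Wl f.symm (4 * e) w) →
      SepF f n η S → S.card ≤ B := by
  classical
  have hC := one_le hs
  have hC0 : (0 : ℝ) < C := by linarith
  have hCn : (0 : ℝ) < C ^ n := by positivity
  obtain ⟨t, -, htf, ht⟩ := finite_cover_balls_of_compact
    (isCompact_closedBall (0 : EuclideanSpace ℝ (Fin u)) (ρ / 2))
    (show (0 : ℝ) < η / (C ^ n * C) / 2 by positivity)
  have hc : ∀ x : EuclideanSpace ℝ (Fin u), ∃ y, x ∈ closedBall 0 (ρ / 2) →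
      y ∈ t ∧ dist x y < η / (C ^ n * C) / 2 := by
    intro x
    by_cases hx : x ∈ closedBall 0 (ρ / 2)
    · have := ht hx
      simp only [mem_iUnion, mem_ball, exists_prop] at this
      obtain ⟨y, hy, hy'⟩ := this
      exact ⟨y, fun _ => ⟨hy, hy'⟩⟩
    · exact ⟨x, fun h => absurd h hx⟩
  choose g hg using hc
  have hon : ∀ p : L, ∃ s : EuclideanSpace ℝ (Fin u), p ∈ Wl f.symm (4 * e) w →
      s ∈ closedBall 0 (ρ / 2) ∧ φ w s = p := by
    intro p
    by_cases hp : p ∈ Wl f.symm (4 * e) w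
    · obtain ⟨s, hs1, hs2⟩ := hs.onto w p hp
      exact ⟨s, fun _ => ⟨hs1, hs2⟩⟩
    · exact ⟨0, fun h => absurd h hp⟩
  choose σ hσ using hon
  refine ⟨htf.toFinset.card, fun S hSW hS => ?_⟩
  apply Finset.card_le_card_of_injOn fun p => g (σ p)
  · intro x hx
    have h1 := hσ x (hSW x hx)
    simpa using (hg _ h1.1).1
  · intro x hx y hy hxy
    by_contra hne
    obtain ⟨k, hk, hk'⟩ := hS x hx y hy hne
    have hx1 := hσ x (hSW x hx)
    have hy1 := hσ y (hSW y hy)
    have hxy' : g (σ x) = g (σ y) := hxy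
    have h1 : dist (σ x) (σ y) < η / (C ^ n * C) := by
      have h2 := (hg _ hx1.1).2
      have h3 := (hg _ hy1.1).2
      rw [← hxy', dist_comm] at h3
      linarith [dist_triangle (σ x) (g (σ x)) (σ y)]
    have hsub : closedBall (0 : EuclideanSpace ℝ (Fin u)) (ρ / 2) ⊆ closedBall 0 ρ :=
      closedBall_subset_closedBall (by linarith [hs.ρ_pos])
    have h4 : dist x y ≤ C * dist (σ x) (σ y) := by
      have := hs.upper w (σ x) (hsub hx1.1) (σ y) (hsub hy1.1)
      rwa [hx1.2, hy1.2] at this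
    have h2 := lip_iter hs x y k
    have h3 : C ^ k ≤ C ^ n := pow_le_pow_right₀ hC hk
    have h5 : C ^ k * dist x y ≤ C ^ n * (C * (η / (C ^ n * C))) :=
      mul_le_mul h3 (h4.trans (mul_le_mul_of_nonneg_left h1.le hC0.le)) dist_nonneg hCn.le
    have h6 : C ^ n * (C * (η / (C ^ n * C))) = η := by field_simp
    linarith

end F4BDLAux

open F4BDLAux

/-- Module BDL. -/
theorem specBdl : SpecBdl.{u} := by
  classical
  intro L _ f u φ C a b κ r r₁ e ρ hs w W hW n η hη
  obtain ⟨B, hB⟩ := exists_bound hs w n hη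
  set P : ℕ → Prop := fun m => ∃ S : Finset L, S.card = m ∧ (∀ p ∈ S, p ∈ W) ∧
    SepF f n η S with hP
  have hP0 : P 0 := ⟨∅, by simp, by simp, fun p hp => absurd hp (Finset.notMem_empty p)⟩
  obtain ⟨m, hm, hmax⟩ : ∃ m, P m ∧ ∀ k, P k → k ≤ m := by
    have hfin : {k | P k}.Finite := (Set.finite_Iic B).subset fun k hk => by
      obtain ⟨S, rfl, h1, h⟩ := hk
      exact hB S (fun p hp => hW (h1 p hp)) h
    obtain ⟨k₀, h1, h2⟩ := hfin.exists_maximal ⟨0, hP0⟩
    refine ⟨k₀, h1, fun k hk => ?_⟩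
    by_contra hlt
    push Not at hlt
    exact absurd (h2 hk hlt.le) (by omega)
  obtain ⟨S, hSm, hSW, hS⟩ := hm
  refine ⟨S, hSW, hS, fun g hg => ?_⟩
  by_contra hcon
  push Not at hcon
  have hgS : g ∉ S := by
    intro h
    obtain ⟨k, _, hk⟩ := hcon g h
    rw [dist_self] at hk
    linarith
  have h1 : P (S.card + 1) := by
    refine ⟨insert g S, Finset.card_insert_of_notMem hgS, ?_, ?_⟩
    · intro p hp
      rcases Finset.mem_insert.1 hp with rfl | hp
      · exact hg
      · exact hSW p hp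
    · intro p hp p' hp' hne
      rcases Finset.mem_insert.1 hp with h1 | h1
      · rcases Finset.mem_insert.1 hp' with h2 | h2
        · exact absurd (h1.trans h2.symm) hne
        · rw [h1]
          exact hcon p' h2
      · rcases Finset.mem_insert.1 hp' with h2 | h2
        · obtain ⟨k, hk, hk'⟩ := hcon p h1
          exact ⟨k, hk, by rw [h2, dist_comm]; exact hk'⟩
        · exact hS p h1 p' h2 hne
  have := hmax _ h1
  omega

end Pool.Agent.Lib.MP610fe3.HR
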