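import Pool.Agent.Lib.MP_610fe3_an.HR.F4RES
import Pool.Agent.Lib.MP_610fe3_an.HR.F1GAEX

/-!
# Module BREL: the other side of a wall, by a relative argument

Part B of `/team-store/MP_610fe3_an_F4_h60.md`. Suppose that in every closed set `N`, invariant under the
commuting homeomorphisms of `G` and saturated by the stable sets of `f` and of `g`, the minimal closed
sets saturated by the (relative) unstable sets of `f` are saturated by the (relative) unstable sets of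
`g`. Then the minimal closed sets saturated by the stable sets of `f` are saturated by the stable sets
of `g`.
-/

set_option autoImplicit false

open Set Filter Function
open scoped Topology

namespace Pool.Agent.Lib.MP610fe3.HR

open Cf CH

universe u

/-- The wall lemma relative to the closed invariant sets saturated by the stable sets of `f`, `g`. -/
def RelWall {M : Type u} [MetricSpace M] (f g : M ≃ₜ M) (G : Set (M ≃ₜ M)) : Prop :=
  ∀ (N : Set M) (hf : ∀ x, x ∈ N ↔ f x ∈ N) (hg : ∀ x, x ∈ N ↔ g x ∈ N), IsClosed N →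
    (∀ c ∈ G, ∀ x, x ∈ N ↔ c x ∈ N) → Sat f N → Sat g N →
    ∀ L : Set N, Minimal (· ∈ Sset (rsH f N hf).symm) L → Sat (rsH g N hg).symm L

namespace F4BRELAux

open F1GAEXAux MINAux

section Gen

variable {M : Type*} [MetricSpace M] {f : M ≃ₜ M}

theorem periodic_symm {p : M} (hp : p ∈ periodicPts f.symm) : p ∈ periodicPts f := by
  obtain ⟨k, hk, hkp⟩ := hp
  refine ⟨k, hk, ?_⟩
  have h1 : f.symm^[k] p = p := hkp
  have h2 : f^[k] (f.symm^[k] p) = p := iter_symm f k p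
  rw [h1] at h2
  exact h2

theorem periodic_symm' {p : M} (hp : p ∈ periodicPts f) : p ∈ periodicPts f.symm :=
  periodic_symm (f := f.symm) (by rwa [Homeomorph.symm_symm])

theorem periodic_rsH {N : Set M} (h : ∀ x, x ∈ N ↔ f x ∈ N) {p : N}
    (hp : (p : M) ∈ periodicPts f) : p ∈ periodicPts (rsH f N h) := by
  obtain ⟨k, hk, hkp⟩ := hp
  refine ⟨k, hk, ?_⟩
  show (rsH f N h)^[k] p = p
  apply Subtype.ext
  rw [rsH_iter]
  exact hkp

theorem sat_diff {a : M → M} {K B : Set M} (hK : Sat a K)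
    (hB : ∀ x ∈ B, ∀ y, FwdAsymp a x y → y ∈ B) : Sat a (K ∩ Bᶜ) := fun x hx y hxy =>
  ⟨hK x hx.1 y hxy, fun hy => hx.2 (hB y hy x (fa_symm hxy))⟩

end Gen

variable {M : Type u} [MetricSpace M] [CompactSpace M] {f g : M ≃ₜ M} {ε C l : ℝ}

/-- The union of the basins of the minimal unstable sets. -/
def PB (F : M ≃ₜ M) : Set M :=
  {x | ∃ L, Minimal (· ∈ Sset F.symm) L ∧ ∃ a ∈ L, FwdAsymp F x a}

theorem isOpen_PB (hBas : SpecBas.{u}) (P : Pair f g ε C l) : IsOpen (PB f) := by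
  have : PB f = ⋃ (L : Set M) (_ : Minimal (· ∈ Sset f.symm) L), {x | ∃ a ∈ L, FwdAsymp f x a} := by
    ext x
    simp only [PB, mem_setOf_eq, mem_iUnion, exists_prop]
  rw [this]
  refine isOpen_iUnion fun L => isOpen_iUnion fun hL => ?_
  obtain ⟨k, hk, hinv⟩ := inv_of_minimal P hL
  exact (hBas M f ε C l P.one L k hL.1.1 hL.1.2.2 hk hinv).1

omit [CompactSpace M] in
theorem PB_satf {x y : M} (hx : x ∈ PB f) (h : FwdAsymp f x y) : y ∈ PB f := by
  obtain ⟨L, hL, a, ha, hxa⟩ := hx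
  exact ⟨L, hL, a, ha, fa_trans (fa_symm h) hxa⟩

theorem PB_satg (hDbl : SpecDbl.{u}) (hProd : SpecProd.{u}) (P : Pair f g ε C l)
    (hrel : ∀ L : Set M, Minimal (· ∈ Sset f.symm) L → Sat g.symm L) {x y : M} (hx : x ∈ PB f)
    (h : FwdAsymp g x y) : y ∈ PB f := by
  obtain ⟨L, hL, a, ha, hxa⟩ := hx
  obtain ⟨z, hz1, hz2⟩ := (hProd M f g ε C l P).1 x a hxa
  have hD := hDbl M f g P.comm
  have hD' := hDbl M f g.symm P.symm_right.comm
  have h1 : FwdAsymp g.symm z a := hD'.2.2.2.2.2.1 z a hz2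
  have hzL : z ∈ L := hrel L hL a ha z (fa_symm h1)
  have h2 : FwdAsymp g x z := hD.2.2.2.2.2.1 x z hz1
  have h3 : FwdAsymp g z y := fa_trans (fa_symm h2) h
  have hcomm' : ∀ x, g (f.symm x) = f.symm (g x) := fun x => (P.symm_left.comm x).symm
  have hcomm : ∀ x, g (f x) = f (g x) := fun x => (P.comm x).symm
  obtain ⟨w, hw1, hw2⟩ := (hProd M g f.symm ε C l P.symm_left.swap).1 z y h3
  rw [Homeomorph.symm_symm] at hw2
  have h4 : FwdAsymp f.symm z w := (hDbl M g f.symm hcomm').2.2.2.2.2.1 z w hw1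
  have h5 : FwdAsymp f w y := (hDbl M g f hcomm).2.2.2.2.2.1 w y hw2
  exact ⟨L, hL, w, hL.1.2.2 z hzL w h4, fa_symm h5⟩

theorem PB_map {c : M ≃ₜ M} (hc : ∀ x, c (f x) = f (c x)) {x : M} (hx : x ∈ PB f) :
    c x ∈ PB f := by
  obtain ⟨L, hL, a, ha, hxa⟩ := hx
  refine ⟨c '' L, minimal_image hc hL, c a, ⟨a, ha, rfl⟩, ?_⟩
  have hc' : ∀ x, c (f.symm x) = f.symm (c x) := fun x => by
    apply f.injective
    rw [f.apply_symm_apply, ← hc, f.apply_symm_apply]
  have := fa_map (f := f.symm) hc' (x := x) (y := a) (by rwa [Homeomorph.symm_symm])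
  rwa [Homeomorph.symm_symm] at this

end F4BRELAux

open F4BRELAux F1GAEXAux MINAux

/-- **Module BREL.** -/
theorem brel (hDbl : SpecDbl.{u}) (hProd : SpecProd.{u}) (hBas : SpecBas.{u}) (hMin : SpecMin.{u})
    {M : Type u} [MetricSpace M] [CompactSpace M] {f g : M ≃ₜ M} {ε C l : ℝ}
    (P : Pair f g ε C l) (G : Set (M ≃ₜ M)) (hfG : f ∈ G) (hgG : g ∈ G)
    (hG : ∀ c ∈ G, ∀ x, c (f x) = f (c x)) (hrel : RelWall f g G) (A : Set M)
    (hA : Minimal (· ∈ Sset f) A) : Sat g A := by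
  -- the smallest closed invariant set `N` saturated by the stable sets
  set NN : Set (Set M) := {N | IsClosed N ∧ A ⊆ N ∧ (∀ c ∈ G, ∀ x, x ∈ N ↔ c x ∈ N) ∧ Sat f N ∧
    Sat g N} with hNN
  set N : Set M := ⋂₀ NN with hNdef
  have hNcl : IsClosed N := isClosed_sInter fun s hs => hs.1
  have hAN : A ⊆ N := subset_sInter fun s hs => hs.2.1
  have hNG : ∀ c ∈ G, ∀ x, x ∈ N ↔ c x ∈ N := fun c hc x =>
    forall₂_congr fun s hs => hs.2.2.1 c hc x
  have hNf : Sat f N := fun x hx y hxy s hs => hs.2.2.2.1 x (hx s hs) y hxy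
  have hNg : Sat g N := fun x hx y hxy s hs => hs.2.2.2.2 x (hx s hs) y hxy
  have hf := hNG f hfG
  have hg := hNG g hgG
  have : CompactSpace N := isCompact_iff_compactSpace.1 hNcl.isCompact
  have P' : Pair (rsH f N hf) (rsH g N hg) ε C l := pair_rsH P hNcl hf hg hNf hNg
  have hrelN := hrel N hf hg hNcl hNG hNf hNg
  set F := rsH f N hf with hF
  obtain ⟨a₀, ha₀⟩ := hA.1.2.1
  -- the union of the basins meets `A`
  have key : ∃ x, ∃ hx : x ∈ N, x ∈ A ∧ (⟨x, hx⟩ : N) ∈ PB F := by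
    by_contra hcon
    push Not at hcon
    have hcl : IsClosed (Subtype.val '' (PB F)ᶜ : Set M) :=
      hNcl.isClosedEmbedding_subtypeVal.isClosedMap _ (isOpen_PB hBas P').isClosed_compl
    have hmem : (Subtype.val '' (PB F)ᶜ : Set M) ∈ NN := by
      refine ⟨hcl, fun x hx => ⟨⟨x, hAN hx⟩, hcon x (hAN hx) hx, rfl⟩, fun c hc x => ?_, ?_, ?_⟩
      · have hcN := hNG c hc
        have hcf : ∀ x : N, rsH c N hcN (F x) = F (rsH c N hcN x) := fun x =>
          Subtype.ext (hG c hc x)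
        have hcf' : ∀ x : N, (rsH c N hcN).symm (F x) = F ((rsH c N hcN).symm x) := fun x => by
          apply (rsH c N hcN).injective
          rw [(rsH c N hcN).apply_symm_apply, hcf, (rsH c N hcN).apply_symm_apply]
        constructor
        · rintro ⟨x, hx, rfl⟩
          refine ⟨rsH c N hcN x, fun h => hx ?_, rfl⟩
          have := PB_map hcf' h
          rwa [Homeomorph.symm_apply_apply] at this
        · rintro ⟨y, hy, hyx⟩
          have hxN : x ∈ N := (hcN x).2 (hyx ▸ y.2)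
          refine ⟨⟨x, hxN⟩, fun h => hy ?_, rfl⟩
          have h1 : y = rsH c N hcN ⟨x, hxN⟩ := Subtype.ext hyx
          rw [h1]
          exact PB_map hcf h
      · rintro _ ⟨x, hx, rfl⟩ y hxy
        have hyN : y ∈ N := hNf x x.2 y hxy
        refine ⟨⟨y, hyN⟩, fun h => hx (PB_satf h ?_), rfl⟩
        exact (fwdAsymp_rsH hf).2 (fa_symm hxy)
      · rintro _ ⟨x, hx, rfl⟩ y hxy
        have hyN : y ∈ N := hNg x x.2 y hxy
        refine ⟨⟨y, hyN⟩, fun h => hx (PB_satg hDbl hProd P' hrelN h ?_), rfl⟩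
        exact (fwdAsymp_rsH hg).2 (fa_symm hxy)
    have hsub : N ⊆ Subtype.val '' (PB F)ᶜ := sInter_subset_of_mem hmem
    have huniv : (univ : Set N) ∈ Sset F.symm :=
      ⟨isClosed_univ, ⟨⟨a₀, hAN ha₀⟩, mem_univ _⟩, fun _ _ _ _ => mem_univ _⟩
    obtain ⟨L, -, hL⟩ := exists_minimal huniv
    obtain ⟨a, ha⟩ := hL.1.2.1
    obtain ⟨b, hb, hba⟩ := hsub a.2
    have : b = a := Subtype.ext hba
    rw [this] at hb
    exact hb ⟨L, hL, a, ha, fa_refl F a⟩
  obtain ⟨x₀, hx₀N, hx₀A, L, hL, p₀, hp₀L, hx₀p⟩ := key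
  have hp₀A : (p₀ : M) ∈ A := hA.1.2.2 x₀ hx₀A p₀ ((fwdAsymp_rsH hf).1 hx₀p)
  obtain ⟨k, hk, hinv⟩ := inv_of_minimal P' hL
  obtain ⟨hB1, hB2⟩ := hBas N F ε C l P'.one L k hL.1.1 hL.1.2.2 hk hinv
  set B : Set N := {x | ∃ a ∈ L, FwdAsymp F x a} with hBdef
  -- `A` is in the basin of `L`
  have hAB : ∀ x, ∀ hx : x ∈ A, (⟨x, hAN hx⟩ : N) ∈ B := by
    by_contra hcon
    push Not at hcon
    obtain ⟨x, hx, hxB⟩ := hcon
    have hcl : IsClosed (Subtype.val '' Bᶜ : Set M) :=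
      hNcl.isClosedEmbedding_subtypeVal.isClosedMap _ hB1.isClosed_compl
    have hmem : A ∩ Subtype.val '' Bᶜ ∈ Sset f := by
      refine ⟨hA.1.1.inter hcl, ⟨x, hx, ⟨x, hAN hx⟩, hxB, rfl⟩, ?_⟩
      rintro y ⟨hyA, z, hz, hzy⟩ w hyw
      have hwA := hA.1.2.2 y hyA w hyw
      refine ⟨hwA, ⟨w, hAN hwA⟩, ?_, rfl⟩
      rintro ⟨a, ha, haw⟩
      refine hz ⟨a, ha, fa_trans ((fwdAsymp_rsH hf).2 ?_) haw⟩
      show FwdAsymp f (z : M) w
      rw [hzy]; exact hyw
    obtain ⟨-, z, hz, hzp⟩ := hA.2 hmem inter_subset_left hp₀A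
    have : z = p₀ := Subtype.ext hzp
    rw [this] at hz
    exact hz ⟨p₀, hp₀L, fa_refl F p₀⟩
  -- `A ⊆ L`
  have hA' : Minimal (· ∈ Sset f.symm.symm) A := by rwa [Homeomorph.symm_symm]
  have hAL : ∀ x, ∀ hx : x ∈ A, (⟨x, hAN hx⟩ : N) ∈ L := by
    intro x hx
    rw [← hL.1.1.closure_eq, Metric.mem_closure_iff]
    intro r hr
    obtain ⟨p, hpA, hpp, hpx⟩ := (hMin M f.symm ε C l P.one.symm A hA').1 x hx r hr
    refine ⟨⟨p, hAN hpA⟩, hB2 ⟨subset_closure ?_, hAB p hpA⟩, ?_⟩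
    · exact periodic_rsH hf (periodic_symm hpp)
    · rw [Subtype.dist_eq, dist_comm]
      exact hpx
  -- `L ⊆ A`
  have hLA : ∀ x ∈ L, (x : M) ∈ A := by
    have hAc : IsClosed (Subtype.val ⁻¹' A : Set N) := hA.1.1.preimage continuous_subtype_val
    have hAs : Sat F (Subtype.val ⁻¹' A : Set N) := fun x hx y hxy =>
      hA.1.2.2 x hx y ((fwdAsymp_rsH hf).1 hxy)
    obtain ⟨j, hj, hjA⟩ := inv_of_minimal P.symm_left hA'
    have hjA' : F.symm^[j] '' (Subtype.val ⁻¹' A : Set N) = Subtype.val ⁻¹' A := by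
      ext y
      constructor
      · rintro ⟨x, hx, rfl⟩
        show ((F.symm^[j] x : N) : M) ∈ A
        rw [hF, rsH_symm_iter, ← hjA]
        exact ⟨x, hx, rfl⟩
      · intro hy
        have hy' : (y : M) ∈ A := hy
        rw [← hjA] at hy'
        obtain ⟨x, hx, hxy⟩ := hy'
        refine ⟨⟨x, hAN hx⟩, hx, Subtype.ext ?_⟩
        rw [hF, rsH_symm_iter]
        exact hxy
    obtain ⟨hb1, hb2⟩ := hBas N F.symm ε C l P'.one.symm (Subtype.val ⁻¹' A) j hAc
      (by rwa [Homeomorph.symm_symm]) hj hjA'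
    set B' : Set N := {x | ∃ a ∈ (Subtype.val ⁻¹' A : Set N), FwdAsymp F.symm x a} with hB'
    have hLB : ∀ x ∈ L, x ∈ B' := by
      by_contra hcon
      push Not at hcon
      obtain ⟨x, hx, hxB⟩ := hcon
      have hmem : L ∩ B'ᶜ ∈ Sset F.symm := by
        refine ⟨hL.1.1.inter hb1.isClosed_compl, ⟨x, hx, hxB⟩, sat_diff hL.1.2.2 ?_⟩
        rintro x ⟨a, ha, hxa⟩ y hxy
        exact ⟨a, ha, fa_trans (fa_symm hxy) hxa⟩
      exact (hL.2 hmem inter_subset_left hp₀L).2 ⟨p₀, hp₀A, fa_refl F.symm p₀⟩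
    intro x hx
    have hxc : x ∈ closure (Subtype.val ⁻¹' A : Set N) := by
      rw [Metric.mem_closure_iff]
      intro r hr
      obtain ⟨p, hpL, hpp, hpx⟩ := (hMin N F ε C l P'.one L hL).1 x hx r hr
      refine ⟨p, hb2 ⟨subset_closure (periodic_symm' hpp), hLB p hpL⟩, ?_⟩
      rwa [dist_comm]
    rw [hAc.closure_eq] at hxc
    exact hxc
  -- conclusion
  intro a ha y hay
  have hyN : y ∈ N := hNg a (hAN ha) y hay
  have hcomm : ∀ x, g (f x) = f (g x) := fun x => (P.comm x).symm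
  have hcomm' : ∀ x, g (f.symm x) = f.symm (g x) := fun x => (P.symm_left.comm x).symm
  obtain ⟨z, hz1, hz2⟩ := (hProd M g f ε C l P.swap).1 a y hay
  have h1 : FwdAsymp f a z := (hDbl M g f hcomm).2.2.2.2.2.1 a z hz1
  have h2 : FwdAsymp f.symm z y := (hDbl M g f.symm hcomm').2.2.2.2.2.1 z y hz2
  have hzA : z ∈ A := hA.1.2.2 a ha z h1
  have hyL : (⟨y, hyN⟩ : N) ∈ L := hL.1.2.2 ⟨z, hAN hzA⟩ (hAL z hzA) ⟨y, hyN⟩
    ((fwdAsymp_rsH_symm hf).2 h2)
  exact hLA _ hyL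

end Pool.Agent.Lib.MP610fe3.HR
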