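import Pool.Agent.Lib.MP_610fe3_an.HR.F4SSpec
import Pool.Agent.Lib.MP_610fe3_an.HR.F3RTL

/-!
# Module CFL: the defect of conformality at one regular element bounds it at all regular elements

Let the defect of conformality of `A n₁` on the coarse bundle of `i` be at most `κ`,
`ev (χ i) n₁ < 0`. Let `n` be regular, `r = ev (χ i) n / ev (χ i) n₁ > 0`. If `p / a < r` is close to
`r` then `h = a n - p n₁` is regular with `ev (χ i) h < 0`, and `A (a n) = A h ∘ A (p n₁)`, where the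
distortion of `A h` is bounded by the rates.
-/

set_option autoImplicit false

open Set Filter Function
open scoped Topology

namespace Pool.Agent.Lib.MP610fe3.HR

open Cf CH F1RTAux F1RTXAux F3RTLAux

universe u v w

namespace F4CFLAux

section Core

variable {M W : Type*} [MetricSpace M] [CompactSpace M] [NormedAddCommGroup W]
  [InnerProductSpace ℝ W] [FiniteDimensional ℝ W] {E : Emb M W}

omit [CompactSpace M] [FiniteDimensional ℝ W] in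
/-- The iterated derivative of the inverse. -/
theorem inv_iter {f : M ≃ₜ M} (S : Split E f) (m : ℕ) (x : M) (w : W) (hw : E.P x w = w) :
    iterD S.Di f.symm m (f^[m] x) (iterD S.D f m x w) = w := by
  cases m with
  | zero => simp [iterD]
  | succ m =>
    have h := congrArg (fun L : W →L[ℝ] W => L w) (S.iter_inv1 m x)
    simp only [ContinuousLinearMap.comp_apply] at h
    rw [h, hw]

/-- The distortion of `h` from the rates. -/
theorem dist_of_rates {f₀ g₀ h : M ≃ₜ M} (s₀ : Split E f₀) (t₀ : Split E g₀)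
    (hs : s₀.Hyperbolic) (ht : t₀.Hyperbolic) (h0 : ∀ x, f₀ (g₀ x) = g₀ (f₀ x))
    (r : Split E h) (h1 : ∀ x, h (f₀ x) = f₀ (h x)) (h2 : ∀ x, h (g₀ x) = g₀ (h x))
    {X : M → Submodule ℝ W} (hX : ∀ x, (PP s₀ t₀.swap x).range = X x) {C ρ ρ' : ℝ}
    (H : ∀ (m : ℕ) (x : M), ∀ w ∈ X x, ‖iterD r.D h m x w‖ ≤ C * Real.exp (ρ * m) * ‖w‖ ∧
      ‖iterD r.Di h.symm m x w‖ ≤ C * Real.exp (ρ' * m) * ‖w‖) :
    ∀ (m : ℕ) (x : M), ∀ v ∈ X x, ∀ w ∈ X x, ‖iterD r.D h m x v‖ * ‖w‖ ≤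
      |C| * |C| * Real.exp ((ρ + ρ') * m) * ‖iterD r.D h m x w‖ * ‖v‖ := by
  intro m x v hv w hw
  have hPw : E.P x w = w := by
    rw [← hX] at hw
    obtain ⟨u, rfl⟩ := hw
    exact congrArg (fun L : W →L[ℝ] W => L (t₀.swap.S x u)) (s₀.PS x)
  have e1 := (H m x v hv).1
  have hmem := iter_mem s₀ t₀ hs ht h0 r h1 h2 hX m hw
  have e2 := (H m (h^[m] x) _ hmem).2
  rw [inv_iter r m x w hPw] at e2
  have hC : C ≤ |C| := le_abs_self C
  have e3 : ‖iterD r.D h m x v‖ ≤ |C| * Real.exp (ρ * m) * ‖v‖ := by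
    refine e1.trans ?_
    gcongr
  have e4 : ‖w‖ ≤ |C| * Real.exp (ρ' * m) * ‖iterD r.D h m x w‖ := by
    refine e2.trans ?_
    gcongr
  calc _ ≤ (|C| * Real.exp (ρ * m) * ‖v‖) * (|C| * Real.exp (ρ' * m) * ‖iterD r.D h m x w‖) := by
        gcongr
    _ = |C| * |C| * (Real.exp (ρ * m) * Real.exp (ρ' * m)) * ‖iterD r.D h m x w‖ * ‖v‖ := by
        ring
    _ = _ := by
        rw [← Real.exp_add, add_mul]

/-- The distortion of `f` if `f^a = h g^p`. -/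
theorem coreC {f₀ g₀ f g h : M ≃ₜ M} (s₀ : Split E f₀) (t₀ : Split E g₀) (hs : s₀.Hyperbolic)
    (ht : t₀.Hyperbolic) (h0 : ∀ x, f₀ (g₀ x) = g₀ (f₀ x)) (σ : Split E g)
    (h1 : ∀ x, g (f₀ x) = f₀ (g x)) (h2 : ∀ x, g (g₀ x) = g₀ (g x)) {X : M → Submodule ℝ W}
    (hX : ∀ x, (PP s₀ t₀.swap x).range = X x) (r : Split E h) (S : Split E f) {a p : ℕ}
    (ha : 0 < a) (heq : ∀ (m : ℕ) x, f^[a * m] x = h^[m] (g^[p * m] x)) {C ρ C₂ ρ₂ : ℝ}
    (H : ∀ (m : ℕ) (x : M), ∀ v ∈ X x, ∀ w ∈ X x, ‖iterD σ.D g m x v‖ * ‖w‖ ≤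
      C * Real.exp (ρ * m) * ‖iterD σ.D g m x w‖ * ‖v‖)
    (H2 : ∀ (m : ℕ) (x : M), ∀ v ∈ X x, ∀ w ∈ X x, ‖iterD r.D h m x v‖ * ‖w‖ ≤
      C₂ * Real.exp (ρ₂ * m) * ‖iterD r.D h m x w‖ * ‖v‖) :
    ∃ C' : ℝ, ∀ (m : ℕ) (x : M), ∀ v ∈ X x, ∀ w ∈ X x, ‖iterD S.D f m x v‖ * ‖w‖ ≤
      C' * Real.exp ((ρ * (p / a) + ρ₂ / a) * m) * ‖iterD S.D f m x w‖ * ‖v‖ := by
  obtain ⟨K, hK1, hK⟩ := exists_norm_bound S.hD.cont
  obtain ⟨K', hK1', hK'⟩ := exists_norm_bound S.hDi.cont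
  have hK0 : 0 ≤ K := by linarith
  have hK0' : 0 ≤ K' := by linarith
  have haR : (0 : ℝ) < a := by exact_mod_cast ha
  have hPx : ∀ x, ∀ w ∈ X x, E.P x w = w := by
    intro x w hw
    rw [← hX] at hw
    obtain ⟨u, rfl⟩ := hw
    exact congrArg (fun L : W →L[ℝ] W => L (t₀.swap.S x u)) (s₀.PS x)
  have hblock : ∀ (q : ℕ) (x : M), ∀ v ∈ X x, ∀ w ∈ X x,
      ‖iterD S.D f (a * q) x v‖ * ‖w‖ ≤
        |C₂| * |C| * Real.exp ((ρ * p + ρ₂) * q) * ‖iterD S.D f (a * q) x w‖ * ‖v‖ := by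
    intro q x v hv w hw
    rw [iterD_eq f.continuous h.continuous g.continuous S.hD r.hD σ.hD (heq q) x w (hPx x w hw),
      iterD_eq f.continuous h.continuous g.continuous S.hD r.hD σ.hD (heq q) x v (hPx x v hv)]
    have hmv := iter_mem s₀ t₀ hs ht h0 σ h1 h2 hX (p * q) hv
    have hmw := iter_mem s₀ t₀ hs ht h0 σ h1 h2 hX (p * q) hw
    have e1 := H (p * q) x v hv w hw
    have e2 := H2 q (g^[p * q] x) _ hmv _ hmw
    have e0 := inv_iter σ (p * q) x w (hPx x w hw)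
    obtain ⟨v', hv'⟩ : ∃ v', v' = iterD σ.D g (p * q) x v := ⟨_, rfl⟩
    obtain ⟨w', hw'⟩ : ∃ w', w' = iterD σ.D g (p * q) x w := ⟨_, rfl⟩
    rw [← hv', ← hw'] at e1 e2
    rw [← hw'] at e0
    rw [← hv', ← hw']
    obtain ⟨V, hV⟩ : ∃ V, V = iterD r.D h q (g^[p * q] x) v' := ⟨_, rfl⟩
    obtain ⟨V', hV'⟩ : ∃ V', V' = iterD r.D h q (g^[p * q] x) w' := ⟨_, rfl⟩
    rw [← hV, ← hV'] at e2
    rw [← hV, ← hV']
    by_cases hz : w' = 0
    · rw [hz, map_zero] at e0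
      rw [← e0, norm_zero, mul_zero]
      positivity
    · have hz' : 0 < ‖w'‖ := norm_pos_iff.2 hz
      have e3 : ‖V‖ * ‖w'‖ ≤ |C₂| * Real.exp (ρ₂ * q) * ‖V'‖ * ‖v'‖ := by
        refine e2.trans ?_
        gcongr
        exact le_abs_self C₂
      have e4 : ‖v'‖ * ‖w‖ ≤ |C| * Real.exp (ρ * (p * q)) * ‖w'‖ * ‖v‖ := by
        refine e1.trans ?_
        push_cast
        gcongr
        exact le_abs_self C
      have e5 : Real.exp ((ρ * p + ρ₂) * q) = Real.exp (ρ₂ * q) * Real.exp (ρ * (p * q)) := by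
        rw [← Real.exp_add]
        congr 1
        ring
      rw [e5]
      refine le_of_mul_le_mul_right ?_ hz'
      calc ‖V‖ * ‖w‖ * ‖w'‖ = (‖V‖ * ‖w'‖) * ‖w‖ := by ring
        _ ≤ (|C₂| * Real.exp (ρ₂ * q) * ‖V'‖ * ‖v'‖) * ‖w‖ := by gcongr
        _ = |C₂| * Real.exp (ρ₂ * q) * ‖V'‖ * (‖v'‖ * ‖w‖) := by ring
        _ ≤ |C₂| * Real.exp (ρ₂ * q) * ‖V'‖ * (|C| * Real.exp (ρ * (p * q)) * ‖w'‖ * ‖v‖) := by
            gcongr
        _ = _ := by ring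
  refine ⟨K ^ a * K' ^ a * (|C₂| * |C|) * Real.exp |ρ * p + ρ₂|, fun m x v hv w hw => ?_⟩
  obtain ⟨q, t, hqt, ht'⟩ : ∃ q t : ℕ, m = t + a * q ∧ t < a :=
    ⟨m / a, m % a, by rw [Nat.mod_add_div], Nat.mod_lt _ ha⟩
  rw [hqt, iterD_add, ContinuousLinearMap.comp_apply, ContinuousLinearMap.comp_apply]
  have e1 := iterD_bound (f := (f : M → M)) hK0 hK t (f^[a * q] x) (iterD S.D f (a * q) x v)
  have e2 := hblock q x v hv w hw
  have hPw : E.P (f^[a * q] x) (iterD S.D f (a * q) x w) = iterD S.D f (a * q) x w := by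
    have h4 := congrArg (fun L : W →L[ℝ] W => L w) ((hasD_iter f.continuous S.hD (a * q)).left x)
    simp only [ContinuousLinearMap.comp_apply] at h4
    rwa [hPx x w hw] at h4
  have e6 := iterD_bound (f := (f.symm : M → M)) hK0' hK' t (f^[t] (f^[a * q] x))
    (iterD S.D f t (f^[a * q] x) (iterD S.D f (a * q) x w))
  rw [inv_iter S t (f^[a * q] x) _ hPw] at e6
  have e3 : K ^ t ≤ K ^ a := pow_le_pow_right₀ hK1 ht'.le
  have e3' : K' ^ t ≤ K' ^ a := pow_le_pow_right₀ hK1' ht'.le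
  have e4 : Real.exp ((ρ * p + ρ₂) * q) ≤
      Real.exp |ρ * p + ρ₂| * Real.exp ((ρ * (p / a) + ρ₂ / a) * (t + a * q : ℕ)) := by
    rw [← Real.exp_add]
    apply Real.exp_le_exp.2
    push_cast
    have e5 : (ρ * (p / a) + ρ₂ / a) * (t + a * q) =
        (ρ * p + ρ₂) * (t / a) + (ρ * p + ρ₂) * q := by
      field_simp
    rw [e5]
    have htR : (t : ℝ) / a ≤ 1 := by
      rw [div_le_one haR]
      exact_mod_cast ht'.le
    have ht0 : 0 ≤ (t : ℝ) / a := by positivity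
    have e6 : |(ρ * p + ρ₂) * (t / a)| ≤ |ρ * p + ρ₂| := by
      rw [abs_mul, abs_of_nonneg ht0]
      exact mul_le_of_le_one_right (abs_nonneg _) htR
    have := (abs_le.1 e6).1
    linarith
  obtain ⟨V, hV⟩ : ∃ V, V = iterD S.D f t (f^[a * q] x) (iterD S.D f (a * q) x v) := ⟨_, rfl⟩
  obtain ⟨V', hV'⟩ : ∃ V', V' = iterD S.D f t (f^[a * q] x) (iterD S.D f (a * q) x w) :=
    ⟨_, rfl⟩
  rw [← hV] at e1
  rw [← hV'] at e6
  rw [← hV, ← hV']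
  obtain ⟨G, hG⟩ : ∃ G, G = Real.exp ((ρ * (p / a) + ρ₂ / a) * (t + a * q : ℕ)) := ⟨_, rfl⟩
  have hG0 : 0 ≤ G := by rw [hG]; exact (Real.exp_pos _).le
  rw [← hG] at e4
  rw [← hG]
  calc ‖V‖ * ‖w‖ ≤ (K ^ t * ‖iterD S.D f (a * q) x v‖) * ‖w‖ := by gcongr
    _ = K ^ t * (‖iterD S.D f (a * q) x v‖ * ‖w‖) := by ring
    _ ≤ K ^ a * (|C₂| * |C| * Real.exp ((ρ * p + ρ₂) * q) * ‖iterD S.D f (a * q) x w‖ * ‖v‖) := by
        gcongr
    _ ≤ K ^ a * (|C₂| * |C| * (Real.exp |ρ * p + ρ₂| * G) * (K' ^ a * ‖V'‖) * ‖v‖) := by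
        have e7 : ‖iterD S.D f (a * q) x w‖ ≤ K' ^ a * ‖V'‖ := e6.trans (by gcongr)
        gcongr
    _ = _ := by ring

end Core

end F4CFLAux

open F4CFLAux

/-- **CFL.** -/
theorem specCfl (hRng : SpecRng.{u, v, w}) : SpecCfl.{u, v, w} := by
  intro M W _ _ _ _ _ E k J _ A χ F hAct n₀ n' i j hwal n₁ hn₁ hi₁ κ s b hκ hRt H n hn hi S hS e he
  obtain ⟨s₀, hs₀, hs₀S, hs₀U⟩ := hAct.split n₀ hwal.reg
  obtain ⟨t₀, ht₀, ht₀S, ht₀U⟩ := hAct.split n' hwal.reg'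
  obtain ⟨S₁, hS₁, -⟩ := hAct.split n₁ hn₁
  have hcomm : ∀ a b x, A a (A b x) = A b (A a x) := act_comm hAct.add
  have hX := (hRng M W E k J χ F (A n₀) (A n') s₀ t₀ n₀ n' hs₀ ht₀ (hcomm n₀ n') hwal.reg
    hwal.reg' hs₀S hs₀U ht₀S ht₀U i j hwal).1
  obtain ⟨y, hy⟩ : ∃ y, y = ev (χ i) n₁ := ⟨_, rfl⟩
  obtain ⟨z, hz⟩ : ∃ z, z = ev (χ i) n := ⟨_, rfl⟩
  rw [← hz] at hi
  rw [← hy] at hi₁
  rw [← hy, ← hz]
  obtain ⟨r, hr⟩ : ∃ r, r = z / y := ⟨_, rfl⟩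
  have hr0 : 0 < r := by rw [hr]; exact div_pos_of_neg_of_neg hi hi₁
  have hzr : z = r * y := by rw [hr, div_mul_cancel₀ _ hi₁.ne]
  have hy0 : y ≠ 0 := hi₁.ne
  have t1 : κ / -y * -z = κ * r := by
    rw [hzr]
    field_simp
  rw [t1]
  -- the constants
  obtain ⟨e₁, he₁⟩ : ∃ e₁, e₁ = e / (4 * (r + 1)) := ⟨_, rfl⟩
  have he₁0 : 0 < e₁ := by rw [he₁]; positivity
  have he₁r : e₁ * (r + 1) = e / 4 := by rw [he₁]; field_simp
  obtain ⟨c, hc⟩ : ∃ c, c = |b - s| * |y| := ⟨_, rfl⟩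
  have hc0 : 0 ≤ c := by rw [hc]; positivity
  obtain ⟨δ, hδ⟩ : ∃ δ, δ = min 1 (e / (4 * (c + 1))) := ⟨_, rfl⟩
  have hδ0 : 0 < δ := by rw [hδ]; positivity
  have hδ1 : δ ≤ 1 := by rw [hδ]; exact min_le_left _ _
  have hδ2 : (c + 1) * δ ≤ e / 4 := by
    have h1 : δ ≤ e / (4 * (c + 1)) := by rw [hδ]; exact min_le_right _ _
    have h2 : 0 < c + 1 := by positivity
    calc (c + 1) * δ ≤ (c + 1) * (e / (4 * (c + 1))) := by gcongr
      _ = e / 4 := by field_simp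
  obtain ⟨C, hC⟩ := H S₁ hS₁ e₁ he₁0
  obtain ⟨⟨a, p, ha, hap1, hap2, hap⟩, -⟩ :=
    exists_frac (fun l => ev (χ l) n) (fun l => ev (χ l) n₁) hn₁ r δ hr0 hδ0
  have haR : (0 : ℝ) < a := by exact_mod_cast ha
  have haR1 : (1 : ℝ) ≤ a := by exact_mod_cast ha
  have hreg : Regular χ ((a : ℤ) • n - (p : ℤ) • n₁) := fun l => by rw [ev_comb]; exact hap l
  have hevh : ev (χ i) ((a : ℤ) • n - (p : ℤ) • n₁) = a * (y * (r - p / a)) := by
    rw [ev_comb, ← hz, ← hy, hzr]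
    field_simp
  have hneg : ev (χ i) ((a : ℤ) • n - (p : ℤ) • n₁) < 0 := by
    rw [hevh]
    exact mul_neg_of_pos_of_neg haR (mul_neg_of_neg_of_pos hi₁ (by linarith))
  obtain ⟨R, hR, hRS, -⟩ := hAct.split _ hreg
  obtain ⟨C₂, hC₂⟩ := hRt _ hreg hneg R hR (e / 8) (by positivity)
  have hD := dist_of_rates s₀ t₀ hs₀ ht₀ (hcomm n₀ n') R (hcomm _ n₀) (hcomm _ n') hX hC₂
  obtain ⟨C', hC'⟩ := coreC s₀ t₀ hs₀ ht₀ (hcomm n₀ n') S₁ (hcomm n₁ n₀) (hcomm n₁ n') hX R S ha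
    (fun m x => by
      rw [act_iter hAct.add, act_iter hAct.add, act_iter hAct.add, ← hAct.add]
      congr 2
      push_cast
      rw [smul_sub, smul_smul, smul_smul, mul_comm (m : ℤ) a, mul_comm (m : ℤ) p]
      abel) hC hD
  refine ⟨|C'|, fun m x v hv w hw => (hC' m x v hv w hw).trans ?_⟩
  have h1 : (κ + e₁) * (p / a) +
      (s * ev (χ i) ((a : ℤ) • n - (p : ℤ) • n₁) + e / 8 +
        (-(b * ev (χ i) ((a : ℤ) • n - (p : ℤ) • n₁)) + e / 8)) / a ≤ κ * r + e := by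
    have g1 : (s * ev (χ i) ((a : ℤ) • n - (p : ℤ) • n₁) + e / 8 +
        (-(b * ev (χ i) ((a : ℤ) • n - (p : ℤ) • n₁)) + e / 8)) / a =
        -(b - s) * y * (r - p / a) + e / 4 / a := by
      rw [hevh]
      field_simp
      ring
    rw [g1]
    have g2 : -(b - s) * y * (r - p / a) ≤ c * δ := by
      have g3 : -(b - s) * y ≤ c := by
        rw [hc, ← abs_mul]
        have := neg_abs_le ((b - s) * y)
        linarith
      have g4 : 0 ≤ r - p / a := by linarith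
      calc -(b - s) * y * (r - p / a) ≤ c * (r - p / a) := mul_le_mul_of_nonneg_right g3 g4
        _ ≤ c * δ := mul_le_mul_of_nonneg_left (by linarith) hc0
    have g5 : e / 4 / a ≤ e / 4 := div_le_self (by positivity) haR1
    have g6 : κ * (p / a) ≤ κ * r := mul_le_mul_of_nonneg_left hap2.le hκ
    have g7 : e₁ * (p / a) ≤ e₁ * (r + 1) := mul_le_mul_of_nonneg_left (by linarith) he₁0.le
    nlinarith
  have h2 := Real.exp_le_exp.2 (mul_le_mul_of_nonneg_right h1 (Nat.cast_nonneg m))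
  have h3 : C' ≤ |C'| := le_abs_self C'
  gcongr

end Pool.Agent.Lib.MP610fe3.HR
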