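import Pool.Agent.Lib.MP_610fe3_an.HR.F4SSpec
import Pool.Agent.Lib.MP_610fe3_an.HR.F3RTP

/-!
# Module CFP (hive F4): conformality at the periodic points of one regular element
-/

set_option autoImplicit false

open Set Filter Function
open scoped Topology

namespace Pool.Agent.Lib.MP610fe3.HR

open Cf CH F3RTPAux

universe u v w

/-- **Module CFP.** -/
theorem specCfp (hAdr : SpecAdr.{u, v}) (hHol : PR.SpecHol.{u, v}) (hRng : SpecRng.{u, v, w}) :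
    SpecCfp.{u, v, w} := by
  intro M W _ _ _ _ _ E k J _ A χ F hAct n₀ n' i j hwal n hn κ hq S hS
  have hcomm : ∀ n n' x, A n (A n' x) = A n' (A n x) := fun n n' x => by
    rw [← hAct.add, ← hAct.add, add_comm]
  obtain ⟨s₁, hs₁, ⟨C₁, hq₁⟩, hs₁S, hs₁U⟩ := hAct.split n₀ hwal.reg
  obtain ⟨t₁, ht₁, ⟨C₂, hq₂⟩, ht₁S, ht₁U⟩ := hAct.split n' hwal.reg'
  obtain ⟨s₀, hs₀, ⟨C₀, hq₀⟩, -⟩ := hAct.split n hn
  have hc := hcomm n₀ n'
  have hrng := (hRng M W E k J χ F (A n₀) (A n') s₁ t₁ n₀ n' hs₁ ht₁ hc hwal.reg hwal.reg'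
    hs₁S hs₁U ht₁S ht₁U i j hwal).1
  -- the Hölder constants
  obtain ⟨D₁, β₁, hβ₁, hβ₁1, hD₁, H₁⟩ := exists_hol hHol s₁ hs₁ hq₁
  obtain ⟨D₂, β₂, hβ₂, hβ₂1, hD₂, H₂⟩ := exists_hol hHol t₁ ht₁ hq₂
  have hβ : 0 < min β₁ β₂ := lt_min hβ₁ hβ₂
  have hβ1 : min β₁ β₂ ≤ 1 := (min_le_left _ _).trans hβ₁1
  obtain ⟨D₁', hD₁', H₁'⟩ := holder_of_le hD₁ (fun x y => (H₁ x y).1) hβ (min_le_left _ _)
  obtain ⟨D₂', hD₂', H₂'⟩ := holder_of_le hD₂ (fun x y => (H₂ x y).2) hβ (min_le_right _ _)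
  have hd : ∀ x y : M, 0 ≤ dist x y ^ min β₁ β₂ := fun x y => by positivity
  obtain ⟨K, C₃, hK0, hC₃, hK, hR⟩ := PP_hol s₁ t₁.swap (C := max D₁' D₂')
    (hD₁'.trans (le_max_left _ _))
    (fun x y => (H₁' x y).trans (mul_le_mul_of_nonneg_right (le_max_left _ _) (hd x y)))
    (fun x y => (H₂' x y).trans (mul_le_mul_of_nonneg_right (le_max_right _ _) (hd x y)))
  obtain ⟨D₄, hD₄, H₄⟩ := holder_of_le (T := S.D) (C := |C₀|) (β := 1) (abs_nonneg C₀)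
    (fun x y => by
      rw [S.hD.unique s₀.hD x, S.hD.unique s₀.hD y, Real.rpow_one]
      exact (hq₀.lipD y x).trans (mul_le_mul_of_nonneg_right (le_abs_self _) dist_nonneg))
    hβ hβ1
  obtain ⟨D₅, hD₅, H₅⟩ := holder_of_le (T := S.Di) (C := |C₀|) (β := 1) (abs_nonneg C₀)
    (fun x y => by
      rw [S.hDi.unique s₀.hDi x, S.hDi.unique s₀.hDi y, Real.rpow_one]
      exact (hq₀.lipDi y x).trans (mul_le_mul_of_nonneg_right (le_abs_self _) dist_nonneg))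
    hβ hβ1
  obtain ⟨L, hL1, hL⟩ := exists_lip_all S.hD
  set C : ℝ := max (max C₃ L) (max D₄ D₅) with hC
  have c3 : C₃ ≤ C := (le_max_left _ _).trans (le_max_left _ _)
  have cL : L ≤ C := (le_max_right _ _).trans (le_max_left _ _)
  have c4 : D₄ ≤ C := (le_max_left _ _).trans (le_max_right _ _)
  have c5 : D₅ ≤ C := (le_max_right _ _).trans (le_max_right _ _)
  have hidem : ∀ x, PP s₁ t₁.swap x ∘L PP s₁ t₁.swap x = PP s₁ t₁.swap x :=
    PP_idem s₁ t₁.swap hs₁ ht₁.swap (fun x => (comm_symm (fun y => (hc y).symm) x).symm)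
  have hmem : ∀ x w, PP s₁ t₁.swap x w ∈ coarse χ F i x := fun x w => by
    rw [← hrng]
    exact ⟨w, rfl⟩
  have hfix : ∀ x, ∀ w ∈ coarse χ F i x, PP s₁ t₁.swap x w = w := fun x w hw => by
    rw [← hrng] at hw
    obtain ⟨v, rfl⟩ := hw
    exact congrArg (fun L : W →L[ℝ] W => L v) (hidem x)
  have hcs' : ∀ m x, A n ((A m).symm x) = (A m).symm (A n x) := fun m x =>
    (comm_symm (fun y => (hcomm n m y).symm) x).symm
  have hPR : ∀ x, E.P x ∘L PP s₁ t₁.swap x = PP s₁ t₁.swap x := fun x => by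
    unfold PP
    rw [← ContinuousLinearMap.comp_assoc, s₁.PS]
  have hRP : ∀ x, PP s₁ t₁.swap x ∘L E.P x = PP s₁ t₁.swap x := fun x => by
    unfold PP
    rw [ContinuousLinearMap.comp_assoc, t₁.swap.SP]
  have hfwd := hAdr S hS (PP s₁ t₁.swap) K C (min β₁ β₂) hidem hPR hRP
    (D_PP S s₁ t₁.swap hs₁ ht₁.swap (hcomm n n₀) (hcs' n')) hK hβ hβ1
    (fun x y => (H₄ x y).trans (mul_le_mul_of_nonneg_right c4 (hd x y)))
    (fun x y => (H₅ x y).trans (mul_le_mul_of_nonneg_right c5 (hd x y)))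
    (fun x y => (hR x y).trans (mul_le_mul_of_nonneg_right c3 (hd x y)))
    (fun x y => (hL x y).trans (mul_le_mul_of_nonneg_right cL dist_nonneg))
    κ (fun p q hq0 hp ε hε => by
      obtain ⟨C', hC'⟩ := hq S hS p ⟨q, hq0, hp⟩ ε hε
      exact ⟨C', fun m v w => hC' m _ (hmem p v) _ (hmem p w)⟩)
  intro e he
  obtain ⟨B, hB⟩ := hfwd e he
  refine ⟨B, fun m x v hv w hw => ?_⟩
  have h1 := hB m x v w
  rwa [hfix x v hv, hfix x w hw] at h1

end Pool.Agent.Lib.MP610fe3.HR
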