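import Pool.Agent.Lib.MP_610fe3_an.HR.F4SSpec
import Pool.Agent.Lib.MP_610fe3_an.HR.F3RTL
import Pool.Agent.Lib.MP_610fe3_an.HR.CHN
import Pool.Agent.Lib.MP_610fe3_an.HR.DIMC

/-!
# Module CFZ: conformality at one regular element, at a wall
-/

set_option autoImplicit false

open Set Filter Function
open scoped Topology

namespace Pool.Agent.Lib.MP610fe3.HR

open Cf CH F1RTAux F1RTXAux

universe u v w

namespace F4CFZAux

/-- `Cnum` is homogeneous. -/
theorem cnum_div {u : ℕ} {κ s b s' b' α β : ℝ} (h : Cnum u κ s b s' b') (hα : 0 < α) (hβ : 0 < β) :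
    Cnum u (κ / α) (s / α) (b / α) (s' / β) (b' / β) := by
  obtain ⟨h0, h1, h2, h3, h4, h5⟩ := h
  refine ⟨by positivity, by gcongr, by gcongr, by positivity, by gcongr, ?_⟩
  have e1 : (u : ℝ) * (κ / α) * (u * (b' / β) - s' / β) = (u * κ * (u * b' - s')) / (α * β) := by
    field_simp
  have e2 : s / α * (s' / β) = s * s' / (α * β) := by
    field_simp
  rw [e1, e2]
  gcongr

end F4CFZAux

open F4CFZAux

/-- **CFZ.** -/
theorem specCfz (hCfl : SpecCfl.{u, v, w}) (hRtl : SpecRtl.{u, v, w}) (hCrd : SpecCrd.{u, v, w})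
    (hRng : SpecRng.{u, v, w}) (hDimc : SpecDimc.{u, v}) : SpecCfz.{u, v, w} := by
  intro M W _ _ _ _ _ _ E k J _ A χ F hAct n n' i j hwal
  obtain ⟨s₀, hs₀, hs₀S, hs₀U⟩ := hAct.split n hwal.reg
  obtain ⟨t₀, ht₀, ht₀S, ht₀U⟩ := hAct.split n' hwal.reg'
  have hcomm : ∀ a b x, A a (A b x) = A b (A a x) := act_comm hAct.add
  have hX := (hRng M W E k J χ F (A n) (A n') s₀ t₀ n n' hs₀ ht₀ (hcomm n n') hwal.reg
    hwal.reg' hs₀S hs₀U ht₀S ht₀U i j hwal).1
  -- the rank is constant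
  have hc' : ∀ x, A n ((A n').symm x) = (A n').symm (A n x) := fun x =>
    EIGAux.comm_symm_right (hcomm n n') x
  have hrank : ∀ x y, Module.finrank ℝ (coarse χ F i x) = Module.finrank ℝ (coarse χ F i y) := by
    intro x y
    have key := hDimc M W E (A n) (A n').symm s₀ t₀.swap hs₀ ht₀.swap hc' x y
    have hr : ∀ x, coarse χ F i x = ((s₀.S x).range ⊓ (t₀.swap.S x).range : Submodule ℝ W) := by
      intro x
      rw [← hX x]
      have hcx := SS_commute s₀ t₀.swap hs₀ ht₀.swap hc' x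
      have h1 := DIMCAux.range_comp_idem (t₀.swap.S x) (s₀.S x) (t₀.swap.SS x) (s₀.SS x) hcx.symm
      rw [inf_comm]
      exact h1
    rw [hr x, hr y]
    exact key
  -- the second part
  have second : Cfa E A χ F i j → Cfw E A χ F i j := by
    rintro ⟨n₁, n₂, u, κ, s, b, s', b', hn₁, hi₁, hn₂, hj₂, hnum, hu, hcf, hr1, hr2⟩
    have hR := hRtl M W E k J A χ F hAct n n' i j hwal n₁ hn₁ hi₁ s b hr1
    have hR' := hRtl M W E k J A χ F hAct n' n j i (CHNAux.Wal.symm hwal) n₂ hn₂ hj₂ s' b' hr2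
    have hC := hCfl M W E k J A χ F hAct n n' i j hwal n₁ hn₁ hi₁ κ _ _ hnum.1 hR hcf
    exact ⟨u, κ / -ev (χ i) n₁, s / -ev (χ i) n₁, b / -ev (χ i) n₁, s' / -ev (χ j) n₂,
      b' / -ev (χ j) n₂, cnum_div hnum (by linarith) (by linarith), hu, hC, hR, hR'⟩
  refine ⟨?_, second⟩
  rintro ⟨n₁, hn₁, hi₁, hcf⟩
  have hj : ev (χ j) n' < 0 := (CHNAux.Wal.symm hwal).lt
  obtain ⟨s, b, hs, hsb, hr1⟩ := hCrd M W E k J A χ F hAct i n₁ hn₁ hi₁
  obtain ⟨s', b', hs', hsb', hr2⟩ := hCrd M W E k J A χ F hAct j n' hwal.reg' hj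
  obtain ⟨x₀⟩ : Nonempty M := inferInstance
  refine second ⟨n₁, n', Module.finrank ℝ (coarse χ F i x₀), 0, s, b, s', b', hn₁, hi₁, hwal.reg',
    hj, ⟨le_rfl, hs, hsb, hs', hsb', ?_⟩, fun x => hrank x x₀, hcf, hr1, hr2⟩
  have : 0 < s * s' := mul_pos hs hs'
  simpa using this

end Pool.Agent.Lib.MP610fe3.HR
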