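import Pool.Agent.Lib.MP_610fe3_an.HR.F4SSpec
import Pool.Agent.Lib.MP_610fe3_an.HR.F3CHR

/-!
# Module CHS (hive F4): the chain of chambers with pinched or nearly conformal pairs
-/

set_option autoImplicit false

open Set Filter Function
open scoped Topology

namespace Pool.Agent.Lib.MP610fe3.HR

open Cf CH CHNAux F3CHPAux

universe u v w

/-- **The abstract theorem.** -/
theorem specChs (hSatc : SpecSatc.{u, v, w}) (hCfz : SpecCfz.{u, v, w})
    (hSatp : SpecSatp.{u, v, w}) (hRtl : SpecRtl.{u, v, w}) (hRtpa : SpecRtpa.{u, v, w})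
    (hCfp : SpecCfp.{u, v, w}) (hLine : SpecLine.{u, v, w}) (hActl : SpecActl.{u, v, w})
    (hArith : SpecArithm.{w}) (hChn : SpecChn1.{u}) (hPair : SpecPair.{u, v}) :
    SpecChs.{u, v, w} := by
  intro M W _ _ _ _ _ _ E k J _ A χ F H hpart n hn
  refine top_of_walls hActl hArith hChn hPair H (fun n n' i j h => ?_) hn
  obtain ⟨t, ht, hχ⟩ := h.neg
  have h' : Wal χ n' n j i := Wal.symm h
  obtain ⟨ci, ai⟩ := hCfz M W E k J A χ F H n n' i j h
  obtain ⟨cj, aj⟩ := hCfz M W E k J A χ F H n' n j i h'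
  have satc : Cfw E A χ F j i ∨ Cfw E A χ F i j →
      ∀ K, Minimal (· ∈ Sset (A n).symm) K → Sat (A n').symm K :=
    hSatc M W E k J A χ F H n n' i j h
  have pra : Pra E A χ F j i →
      ∀ K, Minimal (· ∈ Sset (A n).symm) K → Sat (A n').symm K := by
    rintro ⟨n₁, n₂, s, b, s', b', r1, l1, r2, l2, hp, h1, h2⟩
    exact hSatp M W E k J A χ F H n n' i j h _ _ _ _
      (pinch_symm (F3CHRAux.pinch_scale hp (neg_pos.2 l1) (neg_pos.2 l2)))
      (hRtl M W E k J A χ F H n n' i j h n₂ r2 l2 s' b' h2)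
      (hRtl M W E k J A χ F H n' n j i h' n₁ r1 l1 s b h1)
  rcases hpart j i t ht hχ with (h1 | h1 | h1 | h1 | h1 | h1 | h1) |
    ⟨HA, h1 | h1 | h1 | h1 | h1⟩
  · exact pra h1
  · exact satc (Or.inl (cj h1))
  · exact satc (Or.inr (ci h1))
  · exact satc (Or.inl (aj h1))
  · exact satc (Or.inr (ai h1))
  · exact satc (Or.inl (cj ⟨n', h'.reg, h'.lt, hLine M W E k J A χ F j n' h1⟩))
  · exact satc (Or.inr (ci ⟨n, h.reg, h.lt, hLine M W E k J A χ F i n h1⟩))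
  · obtain ⟨n₁, n₂, s, b, s', b', r1, l1, r2, l2, hp, h1, h2⟩ := h1
    exact pra ⟨n₁, n₂, s, b, s', b', r1, l1, r2, l2, hp,
      hRtpa M W E k J A χ F HA n' n j i h' n₁ r1 s b h1,
      hRtpa M W E k J A χ F HA n n' i j h n₂ r2 s' b' h2⟩
  · obtain ⟨n₁, r1, l1, h1⟩ := h1
    exact satc (Or.inl (cj ⟨n₁, r1, l1, hCfp M W E k J A χ F HA n' n j i h' n₁ r1 0 h1⟩))
  · obtain ⟨n₁, r1, l1, h1⟩ := h1
    exact satc (Or.inr (ci ⟨n₁, r1, l1, hCfp M W E k J A χ F HA n n' i j h n₁ r1 0 h1⟩))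
  · obtain ⟨n₁, n₂, u, κ, s, b, s', b', r1, l1, r2, l2, hc, hu, h1, h2, h3⟩ := h1
    exact satc (Or.inl (aj ⟨n₁, n₂, u, κ, s, b, s', b', r1, l1, r2, l2, hc, hu,
      hCfp M W E k J A χ F HA n' n j i h' n₁ r1 κ h1,
      hRtpa M W E k J A χ F HA n' n j i h' n₁ r1 s b h2,
      hRtpa M W E k J A χ F HA n n' i j h n₂ r2 s' b' h3⟩))
  · obtain ⟨n₁, n₂, u, κ, s, b, s', b', r1, l1, r2, l2, hc, hu, h1, h2, h3⟩ := h1
    exact satc (Or.inr (ai ⟨n₁, n₂, u, κ, s, b, s', b', r1, l1, r2, l2, hc, hu,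
      hCfp M W E k J A χ F HA n n' i j h n₁ r1 κ h1,
      hRtpa M W E k J A χ F HA n n' i j h n₁ r1 s b h2,
      hRtpa M W E k J A χ F HA n' n j i h' n₂ r2 s' b' h3⟩))

end Pool.Agent.Lib.MP610fe3.HR
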