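import Pool.Agent.Lib.MP_610fe3_an.HR.F4SSpec
import Pool.Agent.Lib.MP_610fe3_an.HR.F1CRT

/-!
# F4, module CHX: charts of the leaves `X`
-/

set_option autoImplicit false

open Set Filter Function Bundle Metric
open scoped Topology Manifold ContDiff

namespace Pool.Agent.Lib.MP610fe3.HR

open Cf CH

universe u v w

namespace F4CHXAux

section

variable {M W : Type*} [MetricSpace M] [CompactSpace M] [NormedAddCommGroup W]
  [NormedSpace ℝ W] {E : Emb M W} {f g : M ≃ₜ M}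

/-- the projections are bounded -/
theorem bdd (s : Split E f) (t : Split E g) :
    ∃ B : ℝ, 1 ≤ B ∧ ∀ x w, ‖PP s t x w‖ ≤ B * ‖w‖ := by
  obtain ⟨K, hK1, hK⟩ := s.exists_bdd
  obtain ⟨K', hK1', hK'⟩ := t.exists_bdd
  have hK0 : 0 < K := by linarith
  refine ⟨K * K', by nlinarith, fun x w => ?_⟩
  calc ‖PP s t x w‖ ≤ ‖s.S x‖ * ‖t.S x w‖ := (s.S x).le_opNorm _
    _ ≤ K * (K' * ‖w‖) := by
        refine mul_le_mul (hK x).1 ?_ (norm_nonneg _) hK0.le
        exact ((t.S x).le_opNorm _).trans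
          (mul_le_mul_of_nonneg_right (hK' x).1 (norm_nonneg _))
    _ = K * K' * ‖w‖ := by ring

/-- the projections are uniformly continuous -/
theorem unif (s : Split E f) (t : Split E g) (hs : s.Hyperbolic) (ht : t.Hyperbolic) {η : ℝ}
    (hη : 0 < η) : ∃ r : ℝ, 0 < r ∧ ∀ x z, dist z x < r → ∀ w,
      ‖PP s t z w - PP s t x w‖ ≤ η * ‖w‖ := by
  obtain ⟨K, hK1, hK⟩ := s.exists_bdd
  obtain ⟨K', hK1', hK'⟩ := t.exists_bdd
  have hK0 : 0 < K := by linarith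
  have hK0' : 0 < K' := by linarith
  obtain ⟨r₁, hr₁, h₁⟩ := s.swap.exists_unifU hs.swap (η := η / 2 / K') (by positivity)
  obtain ⟨r₂, hr₂, h₂⟩ := t.swap.exists_unifU ht.swap (η := η / 2 / K) (by positivity)
  refine ⟨min r₁ r₂, lt_min hr₁ hr₂, fun x z hz w => ?_⟩
  have h3 := h₁ x z (lt_of_lt_of_le hz (min_le_left _ _)) (t.S z w)
  have h4 := h₂ x z (lt_of_lt_of_le hz (min_le_right _ _)) w
  simp only [Split.swap_U] at h3 h4
  have h5 : PP s t z w - PP s t x w =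
      (s.S z (t.S z w) - s.S x (t.S z w)) + s.S x (t.S z w - t.S x w) := by
    rw [map_sub (s.S x)]
    change s.S z (t.S z w) - s.S x (t.S x w) = _
    abel
  rw [h5]
  refine (norm_add_le _ _).trans ?_
  have h6 : ‖t.S z w‖ ≤ K' * ‖w‖ := ((t.S z).le_opNorm _).trans
    (mul_le_mul_of_nonneg_right (hK' z).1 (norm_nonneg _))
  have h7 : η / 2 / K' * ‖t.S z w‖ ≤ η / 2 * ‖w‖ := by
    calc η / 2 / K' * ‖t.S z w‖ ≤ η / 2 / K' * (K' * ‖w‖) :=
          mul_le_mul_of_nonneg_left h6 (by positivity)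
      _ = η / 2 * ‖w‖ := by field_simp
  have h8 : ‖s.S x (t.S z w - t.S x w)‖ ≤ η / 2 * ‖w‖ := by
    calc ‖s.S x (t.S z w - t.S x w)‖ ≤ ‖s.S x‖ * ‖t.S z w - t.S x w‖ := (s.S x).le_opNorm _
      _ ≤ K * (η / 2 / K * ‖w‖) := mul_le_mul (hK x).1 h4 (norm_nonneg _) hK0.le
      _ = η / 2 * ‖w‖ := by field_simp
  linarith

/-- the projections are idempotent -/
theorem idem (s : Split E f) (t : Split E g) (hs : s.Hyperbolic) (ht : t.Hyperbolic)
    (hfg : ∀ x, f (g x) = g (f x)) (x : M) (w : W) :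
    PP s t x (PP s t x w) = PP s t x w := by
  have hcomm : ∀ w, s.S x (t.S x w) = t.S x (s.S x w) := fun w =>
    congrArg (fun L => L w) (SS_commute s t hs ht hfg x)
  change s.S x (t.S x (s.S x (t.S x w))) = s.S x (t.S x w)
  rw [← hcomm (t.S x w)]
  have h1 : t.S x (t.S x w) = t.S x w := congrArg (fun L => L w) (t.SS x)
  have h2 : s.S x (s.S x (t.S x w)) = s.S x (t.S x w) :=
    congrArg (fun L => L (t.S x w)) (s.SS x)
  rw [h1, h2]

theorem dbl_refl (x : M) : Dbl f g x x := fun ε hε => ⟨0, fun n m _ => by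
  rw [dist_self]
  exact hε.le⟩

end

/-- the projection is bilipschitz on small leaves -/
theorem lower {M : Type u} {W : Type v} [MetricSpace M] [CompactSpace M] [NormedAddCommGroup W]
    [NormedSpace ℝ W] {E : Emb M W} {f g : M ≃ₜ M} (s : Split E f) (t : Split E g)
    (hs : s.Hyperbolic) (ht : t.Hyperbolic) {ε₀ C₀ l₀ : ℝ} (hP : Pair f g ε₀ C₀ l₀) :
    ∃ ε : ℝ, 0 < ε ∧ ∀ x, ∀ z ∈ Lf f g ε x, ∀ z' ∈ Lf f g ε x,
      dist z z' ≤ 2 * ‖PP s t x (E.e z - E.e z')‖ := by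
  obtain ⟨ε₁, hε₁, hcone⟩ := F1CRTAux.cone2 s t hs ht (η := 1 / 4) (by norm_num)
  obtain ⟨δ, hδ, H3⟩ := (specProd M f g ε₀ C₀ l₀ hP).2.2.1 ε₁ hε₁
  obtain ⟨r, hr, hunif⟩ := unif s t hs ht (η := 1 / 4) (by norm_num)
  refine ⟨min (min (ε₁ / 2) (δ / 2)) (r / 2), by positivity, fun x z hz z' hz' => ?_⟩
  set ε := min (min (ε₁ / 2) (δ / 2)) (r / 2) with hε
  have he1 : ε ≤ ε₁ / 2 := (min_le_left _ _).trans (min_le_left _ _)
  have he2 : ε ≤ δ / 2 := (min_le_left _ _).trans (min_le_right _ _)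
  have he3 : ε ≤ r / 2 := min_le_right _ _
  have hw : z ∈ Wl f (ε + ε) z' := Cf.Wl_trans (Cf.Wl_comm hz'.1) hz.1
  have hd : Dbl f g z' z := PRODAux.dbl_trans (PRODAux.dbl_symm hz'.2) hz.2
  have c1 := hcone z' z (Cf.Wl_mono (by linarith) hw) (H3 z' z hd (Cf.Wl_mono (by linarith) hw))
  have c2 := hunif x z' ((hz'.1 0).trans_lt (by linarith)) (E.e z - E.e z')
  rw [E.dist_eq z z'] at c1 ⊢
  set v := E.e z - E.e z' with hv
  have key : ‖v‖ ≤ ‖v - PP s t z' v‖ + ‖PP s t z' v - PP s t x v‖ + ‖PP s t x v‖ := by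
    calc ‖v‖ = ‖(v - PP s t z' v) + (PP s t z' v - PP s t x v) + PP s t x v‖ := by
          congr 1
          abel
      _ ≤ _ := norm_add₃_le
  linarith

end F4CHXAux

open F4CHXAux in
/-- CHX. -/
theorem specChx (hCSU : SpecCsu.{u, v}) : SpecChx.{u, v} := by
  intro M W _ _ _ _ _ _ E f g s t u hs ht hfg hrk
  obtain ⟨ε₀, C₀, l₀, hP⟩ := specPair M W E f g s t hs ht hfg
  obtain ⟨ε, hε, hlow⟩ := lower s t.swap hs ht.swap hP.symm_right
  obtain ⟨B, hB1, hB⟩ := bdd s t.swap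
  have hB0 : 0 < B := by linarith
  obtain ⟨ρ, hρ, hsurj⟩ := hCSU M W E f g s t hs ht hfg ε hε
  have hfg' : ∀ x, f (g.symm x) = g.symm (f x) := hP.symm_right.comm
  have hidem := idem s t.swap hs ht.swap hfg'
  -- linear isometries onto the ranges
  let ι : ∀ x, EuclideanSpace ℝ (Fin u) ≃ₗᵢ[ℝ] (PP s t.swap x).range := fun x =>
    ((stdOrthonormalBasis ℝ (PP s t.swap x).range).reindex (finCongr (hrk x))).repr.symm
  have hι : ∀ x a, PP s t.swap x (ι x a : W) = (ι x a : W) := by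
    intro x a
    obtain ⟨w, hw⟩ := (ι x a).2
    rw [← hw]
    exact hidem x w
  have hιn : ∀ x a, ‖(ι x a : W)‖ = ‖a‖ := by
    intro x a
    rw [Submodule.norm_coe, (ι x).norm_map]
  have hιs : ∀ x a b, ‖(ι x a : W) - ι x b‖ = dist a b := by
    intro x a b
    rw [← Submodule.coe_sub, ← map_sub, hιn, dist_eq_norm]
  -- uniqueness
  have hinj : ∀ x, ∀ z ∈ Lf f g.symm ε x, ∀ z' ∈ Lf f g.symm ε x,
      PP s t.swap x (E.e z - E.e x) = PP s t.swap x (E.e z' - E.e x) → z = z' := by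
    intro x z hz z' hz' h
    have h1 := hlow x z hz z' hz'
    have h2 : E.e z - E.e z' = (E.e z - E.e x) - (E.e z' - E.e x) := by abel
    rw [h2, map_sub, h, sub_self, norm_zero, mul_zero] at h1
    exact dist_le_zero.1 h1
  have hself : ∀ x, x ∈ Lf f g.symm ε x := fun x => ⟨Cf.mem_Wl_self hε.le, dbl_refl x⟩
  -- the charts
  have hex : ∀ (x : M) (a : EuclideanSpace ℝ (Fin u)), ∃ z : M, ‖a‖ ≤ ρ →
      z ∈ Lf f g.symm ε x ∧ PP s t.swap x (E.e z - E.e x) = ι x a := by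
    intro x a
    by_cases ha : ‖a‖ ≤ ρ
    · obtain ⟨z, hz, h⟩ := hsurj x (ι x a) (hι x a) (by rw [hιn]; exact ha)
      exact ⟨z, fun _ => ⟨hz, h⟩⟩
    · exact ⟨x, fun h => absurd h ha⟩
  choose φ hφ using hex
  refine ⟨φ, max 2 B, ρ, min ε (ρ / B), ?_⟩
  have hcoord : ∀ x, ∀ a ∈ closedBall (0 : EuclideanSpace ℝ (Fin u)) ρ,
      ∀ b ∈ closedBall (0 : EuclideanSpace ℝ (Fin u)) ρ,
      ‖PP s t.swap x (E.e (φ x a) - E.e (φ x b))‖ = dist a b := by
    intro x a ha b hb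
    have h2 : E.e (φ x a) - E.e (φ x b) = (E.e (φ x a) - E.e x) - (E.e (φ x b) - E.e x) := by abel
    rw [h2, map_sub, (hφ x a (mem_closedBall_zero_iff.1 ha)).2,
      (hφ x b (mem_closedBall_zero_iff.1 hb)).2, hιs]
  refine ⟨(by norm_num : (1 : ℝ) ≤ 2).trans (le_max_left _ _), hρ, by positivity, ?_, ?_, ?_, ?_, ?_⟩
  · intro x
    obtain ⟨h1, h2⟩ := hφ x 0 (by rw [norm_zero]; exact hρ.le)
    refine hinj x _ h1 _ (hself x) ?_
    rw [h2, map_zero, sub_self, map_zero]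
    rfl
  · intro x a ha b hb
    have h1 := hlow x _ (hφ x a (mem_closedBall_zero_iff.1 ha)).1 _
      (hφ x b (mem_closedBall_zero_iff.1 hb)).1
    rw [hcoord x a ha b hb] at h1
    exact h1.trans (mul_le_mul_of_nonneg_right (le_max_left _ _) dist_nonneg)
  · intro x a ha b hb
    rw [← hcoord x a ha b hb]
    refine (hB x _).trans ?_
    rw [← E.dist_eq]
    exact mul_le_mul_of_nonneg_right (le_max_right _ _) dist_nonneg
  · intro ε' hε'
    obtain ⟨ρ', hρ', hs'⟩ := hCSU M W E f g s t hs ht hfg (min ε ε') (lt_min hε hε')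
    refine ⟨min ρ ρ', lt_min hρ hρ', min_le_left _ _, fun x a ha => ?_⟩
    have ha' := mem_closedBall_zero_iff.1 ha
    obtain ⟨h1, h2⟩ := hφ x a (ha'.trans (min_le_left _ _))
    obtain ⟨z, hz, h3⟩ := hs' x (ι x a) (hι x a) (by
      rw [hιn]
      exact ha'.trans (min_le_right _ _))
    have h4 : z = φ x a := hinj x z ⟨Cf.Wl_mono (min_le_left _ _) hz.1, hz.2⟩ _ h1
      (by rw [h2, h3])
    rw [← h4]
    exact ⟨Cf.Wl_mono (min_le_right _ _) hz.1, hz.2⟩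
  · intro x z hz
    have hzε : z ∈ Lf f g.symm ε x := ⟨Cf.Wl_mono (min_le_left _ _) hz.1, hz.2⟩
    set a : EuclideanSpace ℝ (Fin u) :=
      (ι x).symm ⟨PP s t.swap x (E.e z - E.e x), ⟨E.e z - E.e x, rfl⟩⟩ with ha
    have hιa : (ι x a : W) = PP s t.swap x (E.e z - E.e x) := by
      rw [ha, LinearIsometryEquiv.apply_symm_apply]
    have han : ‖a‖ ≤ ρ := by
      rw [← hιn x a, hιa]
      refine (hB x _).trans ?_
      rw [← E.dist_eq]
      have h1 : dist z x ≤ ρ / B := (hz.1 0).trans (min_le_right _ _)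
      calc B * dist z x ≤ B * (ρ / B) := mul_le_mul_of_nonneg_left h1 hB0.le
        _ = ρ := by field_simp
    refine ⟨a, mem_closedBall_zero_iff.2 han, ?_⟩
    obtain ⟨h1, h2⟩ := hφ x a han
    exact hinj x _ h1 _ hzε (by rw [h2, hιa])

end Pool.Agent.Lib.MP610fe3.HR
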