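import Pool.Agent.Lib.MP_610fe3_an.HR.F4Spec
import Pool.Agent.Lib.MP_610fe3_an.HR.F1L31
import Pool.Agent.Lib.MP_610fe3_an.HR.PROD
import Pool.Agent.Lib.MP_610fe3_an.HR.DBL

/-!
# Module CMV (hive F4): the move along a leaf `C`
-/

set_option autoImplicit false

open Set Filter Function
open scoped Topology

namespace Pool.Agent.Lib.MP610fe3.HR

open Cf CH

universe u

namespace F4CMVAux

/-- The choice of the numbers. -/
theorem arith {a κ ϑ : ℝ} (ha : 0 < a) (hκ : 0 ≤ κ) (hϑ : 0 < ϑ) :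
    ∃ τ : ℝ, 0 < τ ∧ ∀ c b C₁ C₂ : ℝ, 0 < c → 0 < b → b ≤ τ * c → 0 ≤ C₂ →
      ∃ l₀ : ℝ, ∀ n : ℕ, ∃ N j : ℕ, (N : ℝ) ≤ l₀ + ϑ * n ∧ b * j + C₁ ≤ a * N ∧
        κ * (n + N) + C₂ ≤ c * j := by
  have hκ1 : 0 < 4 * (κ + 1) := by linarith
  obtain ⟨τ, hτ⟩ : ∃ τ, τ = a * min 1 ϑ / (4 * (κ + 1)) := ⟨_, rfl⟩
  have hm : 0 < min 1 ϑ := lt_min one_pos hϑ
  have hτ0 : 0 < τ := by rw [hτ]; positivity
  have hτ1 : τ * (4 * (κ + 1)) = a * min 1 ϑ := by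
    rw [hτ]
    exact div_mul_cancel₀ _ hκ1.ne'
  have h1 : a * min 1 ϑ ≤ a * 1 := mul_le_mul_of_nonneg_left (min_le_left _ _) ha.le
  have h2 : a * min 1 ϑ ≤ a * ϑ := mul_le_mul_of_nonneg_left (min_le_right _ _) ha.le
  have h3 : 4 * (τ * κ) ≤ a := by nlinarith
  have h4 : 4 * (τ * κ) ≤ a * ϑ := by nlinarith
  refine ⟨τ, hτ0, fun c b C₁ C₂ hc hb hbc hC₂ => ?_⟩
  obtain ⟨B, hB⟩ : ∃ B, B = τ * C₂ + b + C₁ := ⟨_, rfl⟩
  obtain ⟨N₀, hN₀⟩ := exists_nat_ge (2 * B / a)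
  have h5 : 2 * B ≤ a * N₀ := by
    have := (div_le_iff₀ ha).1 hN₀
    linarith
  refine ⟨N₀ + 1, fun n => ?_⟩
  have hϑn : 0 ≤ ϑ * n := by positivity
  have e1 : ϑ * n ≤ (⌈ϑ * n⌉₊ : ℝ) := Nat.le_ceil _
  have e2 : (⌈ϑ * n⌉₊ : ℝ) < ϑ * n + 1 := Nat.ceil_lt_add_one hϑn
  obtain ⟨N, hN⟩ : ∃ N : ℕ, N = ⌈ϑ * n⌉₊ + N₀ := ⟨_, rfl⟩
  have hN' : (N : ℝ) = (⌈ϑ * n⌉₊ : ℝ) + N₀ := by rw [hN]; push_cast; ring
  have hq : 0 ≤ (κ * (n + N) + C₂) / c := by positivity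
  refine ⟨N, ⌈(κ * (n + N) + C₂) / c⌉₊, by linarith, ?_, ?_⟩
  · have e3 : (⌈(κ * (n + N) + C₂) / c⌉₊ : ℝ) < (κ * (n + N) + C₂) / c + 1 :=
      Nat.ceil_lt_add_one hq
    have e4 : b * (⌈(κ * (n + N) + C₂) / c⌉₊ : ℝ) ≤ b * ((κ * (n + N) + C₂) / c + 1) :=
      mul_le_mul_of_nonneg_left e3.le hb.le
    have e5 : b * ((κ * (n + N) + C₂) / c) ≤ τ * c * ((κ * (n + N) + C₂) / c) :=
      mul_le_mul_of_nonneg_right hbc hq
    have e6 : τ * c * ((κ * (n + N) + C₂) / c) = τ * (κ * (n + N) + C₂) := by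
      field_simp
    have hN0 : (0 : ℝ) ≤ N := Nat.cast_nonneg N
    have hN00 : (0 : ℝ) ≤ N₀ := Nat.cast_nonneg N₀
    have hn0 : (0 : ℝ) ≤ n := Nat.cast_nonneg n
    have e7 : 4 * (τ * κ * n) ≤ a * N := by
      have t1 : 4 * (τ * κ) * n ≤ a * ϑ * n := mul_le_mul_of_nonneg_right h4 hn0
      have t2 : a * (ϑ * n) ≤ a * N := mul_le_mul_of_nonneg_left (by linarith) ha.le
      linarith
    have e8 : 4 * (τ * κ) * N ≤ a * N := mul_le_mul_of_nonneg_right h3 hN0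
    have e9 : a * N₀ ≤ a * N := mul_le_mul_of_nonneg_left (by linarith) ha.le
    have e10 : τ * (κ * (n + N) + C₂) = τ * κ * n + τ * κ * N + τ * C₂ := by ring
    nlinarith
  · have e3 : (κ * (n + N) + C₂) / c ≤ (⌈(κ * (n + N) + C₂) / c⌉₊ : ℝ) := Nat.le_ceil _
    have := (div_le_iff₀ hc).1 e3
    linarith

theorem num1 {a l b C ε c₁ : ℝ} {N j : ℕ} (hl : 0 < l) (ha : a = -Real.log l) (hC : 0 ≤ C)
    (hε : 0 ≤ ε) (hc₁ : 0 < c₁) (h : b * j + C * ε / c₁ ≤ a * N) :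
    C * l ^ N * ε ≤ c₁ * Real.exp (-(b * j)) := by
  have h1 : l ^ N = Real.exp (-(a * N)) := by
    rw [ha, ← Real.exp_log (pow_pos hl N), Real.log_pow]
    congr 1
    ring
  have h2 : Real.exp (-(a * N)) ≤ Real.exp (-(b * j)) * Real.exp (-(C * ε / c₁)) := by
    rw [← Real.exp_add]
    exact Real.exp_le_exp.2 (by linarith)
  have h3 : C * ε ≤ c₁ * Real.exp (C * ε / c₁) := by
    have := Real.add_one_le_exp (C * ε / c₁)
    have h4 : C * ε / c₁ ≤ Real.exp (C * ε / c₁) := by linarith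
    have := (div_le_iff₀ hc₁).1 h4
    linarith
  have h5 : C * ε * Real.exp (-(C * ε / c₁)) ≤ c₁ := by
    have := mul_le_mul_of_nonneg_right h3 (Real.exp_pos (-(C * ε / c₁))).le
    rw [mul_assoc c₁, ← Real.exp_add, add_neg_cancel, Real.exp_zero, mul_one] at this
    exact this
  have hCε : 0 ≤ C * ε := mul_nonneg hC hε
  calc C * l ^ N * ε = C * ε * Real.exp (-(a * N)) := by rw [h1]; ring
    _ ≤ C * ε * (Real.exp (-(b * j)) * Real.exp (-(C * ε / c₁))) :=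
        mul_le_mul_of_nonneg_left h2 hCε
    _ = C * ε * Real.exp (-(C * ε / c₁)) * Real.exp (-(b * j)) := by ring
    _ ≤ c₁ * Real.exp (-(b * j)) := mul_le_mul_of_nonneg_right h5 (Real.exp_pos _).le

theorem num2 {κ K c D ε : ℝ} {n N j : ℕ} (hK : 1 ≤ K) (hκ : κ = Real.log K) (hD : 0 ≤ D)
    (hε : 0 < ε) (h : κ * (n + N) + 4 * D / ε ≤ c * j) :
    K ^ (n + N) * (D * Real.exp (-(c * j))) ≤ ε / 4 := by
  have hK0 : 0 < K := by linarith
  have h1 : K ^ (n + N) = Real.exp (κ * (n + N)) := by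
    rw [hκ, ← Real.exp_log (pow_pos hK0 (n + N)), Real.log_pow]
    congr 1
    push_cast
    ring
  have h2 : K ^ (n + N) * Real.exp (-(c * j)) ≤ Real.exp (-(4 * D / ε)) := by
    rw [h1, ← Real.exp_add]
    exact Real.exp_le_exp.2 (by linarith)
  have h3 : 4 * D ≤ ε * Real.exp (4 * D / ε) := by
    have := Real.add_one_le_exp (4 * D / ε)
    have h4 : 4 * D / ε ≤ Real.exp (4 * D / ε) := by linarith
    have := (div_le_iff₀ hε).1 h4
    linarith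
  have h5 : 4 * D * Real.exp (-(4 * D / ε)) ≤ ε := by
    have := mul_le_mul_of_nonneg_right h3 (Real.exp_pos (-(4 * D / ε))).le
    rw [mul_assoc ε, ← Real.exp_add, add_neg_cancel, Real.exp_zero, mul_one] at this
    exact this
  calc K ^ (n + N) * (D * Real.exp (-(c * j))) = D * (K ^ (n + N) * Real.exp (-(c * j))) := by ring
    _ ≤ D * Real.exp (-(4 * D / ε)) := mul_le_mul_of_nonneg_left h2 hD
    _ ≤ ε / 4 := by linarith

variable {M : Type u} [MetricSpace M] {f g : M ≃ₜ M}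

/-- Points close in the future and during `k` steps in the past. -/
theorem wl_back {r : ℝ} {p q : M} (h : q ∈ Wl f r p) {k : ℕ}
    (hd : ∀ i ≤ k, dist (f.symm^[i] p) (f.symm^[i] q) ≤ r) :
    f.symm^[k] q ∈ Wl f r (f.symm^[k] p) :=
  H1.wl_back_iter (f := f.symm) h (fun i hi => by rw [dist_comm]; exact hd i hi)

/-- The first time of separation. -/
theorem first_sep {K η r : ℝ} (hK : 1 ≤ K)
    (hL : ∀ x y, dist (f.symm x) (f.symm y) ≤ K * dist x y)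
    (hr : r ≤ η) {n : ℕ} {p q : M} (h : q ∈ Wl f r p)
    (hs : ∃ k ≤ n, η < dist (f.symm^[k] p) (f.symm^[k] q)) :
    ∃ k ≤ n, η < dist (f.symm^[k] p) (f.symm^[k] q) ∧
      f.symm^[k] q ∈ Wl f (K * η) (f.symm^[k] p) := by
  classical
  have hex : ∃ k, η < dist (f.symm^[k] p) (f.symm^[k] q) := by
    obtain ⟨k, -, h⟩ := hs
    exact ⟨k, h⟩
  obtain ⟨k, hk, hmin⟩ : ∃ k, η < dist (f.symm^[k] p) (f.symm^[k] q) ∧
      ∀ i < k, dist (f.symm^[i] p) (f.symm^[i] q) ≤ η :=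
    ⟨Nat.find hex, Nat.find_spec hex, fun i hi => not_lt.1 (Nat.find_min hex hi)⟩
  have hkn : k ≤ n := by
    obtain ⟨i, hi, h1⟩ := hs
    by_contra hlt
    exact absurd (hmin i (by omega)) (not_le.2 h1)
  refine ⟨k, hkn, hk, ?_⟩
  have hη : 0 ≤ η := (dist_nonneg.trans (h 0)).trans hr
  have hKη : η ≤ K * η := le_mul_of_one_le_left hη hK
  obtain _ | k := k
  · have h0 : dist q p ≤ r := h 0
    rw [dist_comm] at h0
    exact absurd (h0.trans hr) (not_le.2 hk)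
  · have h1 : f.symm^[k] q ∈ Wl f η (f.symm^[k] p) :=
      wl_back (H1.wl_mono h hr) (fun i hi => hmin i (by omega))
    intro m
    obtain _ | m := m
    · have e1 : dist (f.symm^[k + 1] q) (f.symm^[k + 1] p) ≤
          K * dist (f.symm^[k] q) (f.symm^[k] p) := by
        rw [iterate_succ_apply', iterate_succ_apply']
        exact hL _ _
      exact e1.trans (mul_le_mul_of_nonneg_left (h1 0) (by linarith))
    · have e : ∀ w, f^[m + 1] (f.symm^[k + 1] w) = f^[m] (f.symm^[k] w) := by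
        intro w
        rw [iterate_succ_apply, iterate_succ_apply' f.symm, f.apply_symm_apply]
      rw [e, e]
      exact (h1 m).trans hKη

theorem lip_iter {K : ℝ} (hK : 0 ≤ K) (hL : ∀ x y, dist (f.symm x) (f.symm y) ≤ K * dist x y)
    (m : ℕ) (x y : M) : dist (f.symm^[m] x) (f.symm^[m] y) ≤ K ^ m * dist x y := by
  induction m with
  | zero => simp
  | succ m ih =>
    rw [iterate_succ_apply', iterate_succ_apply', pow_succ']
    calc _ ≤ K * dist (f.symm^[m] x) (f.symm^[m] y) := hL _ _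
      _ ≤ K * (K ^ m * dist x y) := mul_le_mul_of_nonneg_left ih hK
      _ = _ := by ring

/-- Expansion of small leaves by `f.symm`. -/
theorem expand {ε C l : ℝ} (hD : Dec f ε C l) {N : ℕ} {x y : M} (h : y ∈ Wl f ε x)
    (hc : C * l ^ N * ε < dist x y) : ∃ i ≤ N, ε < dist (f.symm^[i] x) (f.symm^[i] y) := by
  by_contra hcon
  push Not at hcon
  have h1 := wl_back h (k := N) hcon
  have h2 := hD.dec _ _ h1 N
  rw [H1.iter_symm_iter, H1.iter_symm_iter, dist_comm] at h2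
  have h3 : dist (f.symm^[N] y) (f.symm^[N] x) ≤ ε := h1 0
  have h4 : 0 ≤ C * l ^ N :=
    mul_nonneg (by linarith [hD.one_le]) (pow_nonneg hD.l_pos.le N)
  have h5 := mul_le_mul_of_nonneg_left h3 h4
  linarith

theorem dbl_iter_left {x y : M} (h : Dbl f g x y) (j : ℕ) (hc : ∀ x, f (g x) = g (f x)) :
    Dbl f g (f^[j] x) (f^[j] y) := fun ε hε => by
  obtain ⟨K, hK⟩ := h ε hε
  refine ⟨K, fun n m hnm => ?_⟩
  have e : ∀ w : M, f^[n] (g^[m] (f^[j] w)) = f^[n + j] (g^[m] w) := fun w => by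
    rw [← PRODAux.comm_iter hc j m w, ← iterate_add_apply]
  rw [e, e]
  exact hK (n + j) m (by omega)

/-- The lower bound for the images under `h`. -/
theorem low [CompactSpace M] {h : M ≃ₜ M} {ε C l c b : ℝ} (hp : Pair f g ε C l)
    (hh : Hc f g h c b) : ∃ δ : ℝ, 0 < δ ∧ ∀ η : ℝ, 0 < η → ∃ c₁ : ℝ, 0 < c₁ ∧ ∀ x y,
      y ∈ Wl f δ x → Dbl f g.symm x y → η < dist x y → ∀ j : ℕ,
      c₁ * Real.exp (-(b * j)) < dist (h^[j] x) (h^[j] y) := by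
  obtain ⟨ε₁, C₁, l₁, hp₁⟩ := hh.pair
  obtain ⟨-, -, -, ⟨δ₄, hδ₄, H4⟩, -⟩ := specProd M h g.symm ε₁ C₁ l₁ hp₁.symm_right
  obtain ⟨-, -, H3, -, -⟩ := specProd M f g.symm ε C l hp.symm_right
  obtain ⟨δ₃, hδ₃, H3⟩ := H3 δ₄ hδ₄
  obtain ⟨e, C₂, he, hC₂, HX⟩ := hh.xgr 1 one_pos
  obtain ⟨δ₁, hδ₁, HL⟩ := hh.loc (min e δ₄) (lt_min he hδ₄)
  refine ⟨min δ₁ δ₃, lt_min hδ₁ hδ₃, fun η hη => ?_⟩
  have hC₂0 : 0 < C₂ := by linarith
  have hm : 0 < min η e := lt_min hη he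
  refine ⟨min η e / C₂, div_pos hm hC₂0, fun x y hy hd hxy j => ?_⟩
  have k1 := HL x y (H1.wl_mono hy (min_le_left _ _))
  have k2 := H3 x y hd (H1.wl_mono hy (min_le_right _ _))
  have k3 := (H4 x y (H1.wl_mono k1 (min_le_right _ _)) k2).1
  have k4 := dbl_iter_left k3 j hp₁.symm_right.comm
  have k5 := H1.wl_iter (H1.wl_mono k1 (min_le_left _ _)) j
  by_contra hcon
  push Not at hcon
  have k6 : C₂ * Real.exp (b * j) * dist (h^[j] y) (h^[j] x) ≤ min η e := by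
    rw [dist_comm]
    calc C₂ * Real.exp (b * j) * dist (h^[j] x) (h^[j] y)
        ≤ C₂ * Real.exp (b * j) * (min η e / C₂ * Real.exp (-(b * j))) :=
          mul_le_mul_of_nonneg_left hcon (by positivity)
      _ = C₂ * (min η e / C₂) * (Real.exp (b * j) * Real.exp (-(b * j))) := by ring
      _ = min η e := by
          rw [← Real.exp_add, add_neg_cancel, Real.exp_zero, mul_one,
            mul_div_cancel₀ _ hC₂0.ne']
  obtain ⟨-, k7⟩ := HX j (h^[j] x) (h^[j] y) ⟨k5, k4⟩ (k6.trans (min_le_right _ _))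
  rw [H1.symm_iter_iter, H1.symm_iter_iter] at k7
  have k8 := (k7.trans k6).trans (min_le_left _ _)
  rw [dist_comm] at k8
  linarith

end F4CMVAux

open F4CMVAux in
theorem specCmv (hX : SpecExl.{u}) : SpecCmv.{u} := by
  intro M _ _ f g H ε C l K hp hL hH
  obtain ⟨η₀, hη₀, HE⟩ := hX M f g ε C l hp
  refine ⟨η₀, hη₀, fun ϑ η s hϑ hη hs => ?_⟩
  obtain ⟨K₁, hK₁⟩ : ∃ K₁, K₁ = max K 1 := ⟨_, rfl⟩
  have hK1 : 1 ≤ K₁ := by rw [hK₁]; exact le_max_right _ _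
  have hK0 : 0 < K₁ := by linarith
  have hKL : ∀ x y, dist (f.symm x) (f.symm y) ≤ K₁ * dist x y := fun x y =>
    (hL x y).2.trans (mul_le_mul_of_nonneg_right (by rw [hK₁]; exact le_max_left _ _)
      dist_nonneg)
  have hl := hp.one.decs.l_pos
  have hl1 := hp.one.decs.l_lt
  have hε := hp.one.br.ε_pos
  have hC0 : 0 < C := by linarith [hp.one.br.one_le]
  have ha : 0 < -Real.log l := by
    have := Real.log_neg hl hl1
    linarith
  obtain ⟨τ, hτ, HA⟩ := arith ha (Real.log_nonneg hK1) hϑ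
  obtain ⟨h, -, c, b, hh, hbc⟩ := hH τ hτ
  obtain ⟨δ₁, hδ₁, HLow⟩ := low hp hh
  obtain ⟨δ₅, hδ₅, HF⟩ := hh.loc ε hε
  obtain ⟨η₂, hη₂, HB⟩ := hh.loc (ε / 2) (half_pos hε)
  obtain ⟨η₁, hη₁⟩ : ∃ η₁, η₁ = min η (min δ₁ δ₅ / K₁) := ⟨_, rfl⟩
  have hη₁0 : 0 < η₁ := by
    rw [hη₁]
    exact lt_min hη (div_pos (lt_min hδ₁ hδ₅) hK0)
  have hη₁η : η₁ ≤ η := by rw [hη₁]; exact min_le_left _ _
  have hKη : K₁ * η₁ ≤ min δ₁ δ₅ := by
    have : η₁ ≤ min δ₁ δ₅ / K₁ := by rw [hη₁]; exact min_le_right _ _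
    have := (le_div_iff₀ hK0).1 this
    linarith
  have hKη1 : K₁ * η₁ ≤ δ₁ := hKη.trans (min_le_left _ _)
  have hKη5 : K₁ * η₁ ≤ δ₅ := hKη.trans (min_le_right _ _)
  obtain ⟨c₁, hc₁, HLow⟩ := HLow η₁ hη₁0
  obtain ⟨δ₄, C₃, hδ₄, hC₃, HC⟩ := hh.cdc
  obtain ⟨δ₆, hδ₆, HG⟩ := hh.loc δ₄ hδ₄
  obtain ⟨ε', hε'⟩ : ∃ ε', ε' = min (min s (min δ₆ δ₄)) (min η₂ η₀ / 2) := ⟨_, rfl⟩
  have hε'0 : 0 < ε' := by
    rw [hε']
    exact lt_min (lt_min hs (lt_min hδ₆ hδ₄)) (half_pos (lt_min hη₂ hη₀))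
  have hε's : ε' ≤ s := by
    rw [hε']; exact (min_le_left _ _).trans (min_le_left _ _)
  have hε'6 : ε' ≤ δ₆ := by
    rw [hε']; exact (min_le_left _ _).trans ((min_le_right _ _).trans (min_le_left _ _))
  have hε'4 : ε' ≤ δ₄ := by
    rw [hε']; exact (min_le_left _ _).trans ((min_le_right _ _).trans (min_le_right _ _))
  have hε'm : ε' ≤ min η₂ η₀ / 2 := by rw [hε']; exact min_le_right _ _
  have hε'2 : ε' + ε' ≤ η₂ := by
    have := min_le_left η₂ η₀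
    linarith
  have hε'0' : ε' + ε' ≤ η₀ := by
    have := min_le_right η₂ η₀
    linarith
  obtain ⟨δ₇, hδ₇, H31⟩ := specL31 M f g ε C l hp ε' hε'0
  obtain ⟨l₀, HN⟩ := HA c b (C * ε / c₁) (4 * (C₃ * ε') / ε) hh.c_pos hh.b_pos hbc
    (by positivity)
  obtain ⟨l₂, HE⟩ := HE η₂ hη₂
  have hmin : 0 < min δ₇ η₁ := lt_min hδ₇ hη₁0
  refine ⟨min δ₇ η₁ / 2, l₀ + l₂, half_pos hmin, fun n L hnL w w' S hw hS hsep => ?_⟩
  obtain ⟨N, j, hN, hj1, hj2⟩ := HN n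
  have hNL : N + l₂ ≤ L := by exact_mod_cast (by linarith : (N : ℝ) + l₂ ≤ L)
  have hpt : ∀ p ∈ S, ∃ p', Dbl f g p p' ∧ Dbl f g.symm p' w' ∧ p' ∈ Wl f ε' p ∧
      p' ∈ Wl f ε' w' ∧ p' ∈ Wl g ε' p ∧ p' ∈ Wl g.symm ε' w' := fun p hpS =>
    H31 p w' (H1.wl_mono (H1.wl_trans hw.1 (H1.wl_symm (hS p hpS).1)) (by
      have := min_le_left δ₇ η₁
      linarith))
  choose! π hπ using hpt
  have hcF : ∀ x, f.symm (h x) = h (f.symm x) := fun x =>
    comm_symm (fun x => (hh.comm x).symm) x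
  have hcf : ∀ x, f (h x) = h (f x) := fun x => (hh.comm x).symm
  have e4 : ∀ m ≤ n + N, ∀ p ∈ S,
      dist (f.symm^[m] (h^[j] (π p))) (f.symm^[m] (h^[j] p)) ≤ ε / 4 := by
    intro m hm p hpS
    obtain ⟨-, -, h1, -, h2, -⟩ := hπ p hpS
    have h3 := HC p (π p) (HG p (π p) (H1.wl_mono h1 hε'6)) (H1.wl_mono h2 hε'4) j
    have h4 : dist (π p) p ≤ ε' := h1 0
    have h5 : dist (h^[j] (π p)) (h^[j] p) ≤ C₃ * ε' * Real.exp (-(c * j)) := by
      refine h3.trans ?_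
      calc C₃ * Real.exp (-(c * j)) * dist (π p) p
          ≤ C₃ * Real.exp (-(c * j)) * ε' := mul_le_mul_of_nonneg_left h4 (by positivity)
        _ = C₃ * ε' * Real.exp (-(c * j)) := by ring
    refine (lip_iter hK0.le hKL m _ _).trans ?_
    calc K₁ ^ m * dist (h^[j] (π p)) (h^[j] p)
        ≤ K₁ ^ (n + N) * (C₃ * ε' * Real.exp (-(c * j))) :=
          mul_le_mul (pow_le_pow_right₀ hK1 hm) h5 dist_nonneg (by positivity)
      _ ≤ ε / 4 := num2 hK1 rfl (by positivity) hε hj2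
  have key : ∀ p ∈ S, ∀ q ∈ S, p ≠ q →
      ∃ k ≤ n + L, η₀ < dist (f.symm^[k] (π p)) (f.symm^[k] (π q)) := by
    intro p hpS q hqS hpq
    obtain ⟨k, hkn, hk⟩ := hsep p hpS q hqS hpq
    have e1 : q ∈ Wl f η₁ p :=
      H1.wl_mono (H1.wl_trans (hS q hqS).1 (H1.wl_symm (hS p hpS).1)) (by
        have := min_le_right δ₇ η₁
        linarith)
    obtain ⟨k, hkn, hk, hkw⟩ := first_sep hK1 hKL le_rfl e1
      ⟨k, hkn, lt_of_le_of_lt hη₁η hk⟩
    have d1 : Dbl f g.symm p q :=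
      PRODAux.dbl_trans (PRODAux.dbl_symm (hS p hpS).2) (hS q hqS).2
    have d2 : Dbl f g.symm (f.symm^[k] p) (f.symm^[k] q) :=
      PRODAux.dbl_of_image_iter hp.symm_right.comm k (by
        rwa [H1.iter_symm_iter, H1.iter_symm_iter])
    have e2 := HLow _ _ (H1.wl_mono hkw hKη1) d2 hk j
    have e3 : h^[j] (f.symm^[k] q) ∈ Wl f ε (h^[j] (f.symm^[k] p)) := by
      intro i
      rw [PRODAux.comm_iter hcf, PRODAux.comm_iter hcf]
      exact HF _ _ (H1.wl_iter (H1.wl_mono hkw hKη5) i) j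
    obtain ⟨i, hiN, hi⟩ := expand hp.one.decs e3
      (lt_of_le_of_lt (num1 hl rfl hC0.le hε.le hc₁ hj1) e2)
    have hmove : ∀ w, f.symm^[i] (h^[j] (f.symm^[k] w)) = f.symm^[i + k] (h^[j] w) := by
      intro w
      rw [← PRODAux.comm_iter hcF k j w, ← iterate_add_apply]
    rw [hmove, hmove] at hi
    by_contra hcon
    have e5 : ∀ m ≤ n + N, dist (f.symm^[m] (π p)) (f.symm^[m] (π q)) ≤ η₂ := by
      intro m hm
      by_contra hc
      push Not at hc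
      obtain ⟨m', hm1, hm2⟩ := HE (n + N) (π p) (π q)
        (H1.wl_mono (H1.wl_trans (hπ q hqS).2.2.2.1 (H1.wl_symm (hπ p hpS).2.2.2.1)) hε'0')
        ⟨m, hm, hc⟩
      exact hcon ⟨m', by omega, hm2⟩
    have e6 : f.symm^[i + k] (π q) ∈ Wl f η₂ (f.symm^[i + k] (π p)) :=
      wl_back (H1.wl_mono (H1.wl_trans (hπ q hqS).2.2.2.1 (H1.wl_symm (hπ p hpS).2.2.2.1)) hε'2)
        (fun m hm => e5 m (by omega))
    have e7 := HB _ _ e6 j
    rw [← PRODAux.comm_iter hcF, ← PRODAux.comm_iter hcF] at e7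
    have e8 := e4 (i + k) (by omega) p hpS
    have e9 := e4 (i + k) (by omega) q hqS
    have t1 := dist_triangle (f.symm^[i + k] (h^[j] p)) (f.symm^[i + k] (h^[j] (π p)))
      (f.symm^[i + k] (h^[j] q))
    have t2 := dist_triangle (f.symm^[i + k] (h^[j] (π p))) (f.symm^[i + k] (h^[j] (π q)))
      (f.symm^[i + k] (h^[j] q))
    rw [dist_comm] at e7 e8
    linarith
  classical
  refine ⟨S.image π, Finset.card_image_of_injOn fun p hpS q hqS hpq => ?_, fun x hx => ?_, ?_⟩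
  · by_contra hne
    obtain ⟨k, -, hk⟩ := key p hpS q hqS hne
    have hpq' : π p = π q := hpq
    rw [hpq', dist_self] at hk
    linarith
  · obtain ⟨p, hpS, rfl⟩ := Finset.mem_image.1 hx
    exact ⟨H1.wl_mono (hπ p hpS).2.2.2.1 hε's, PRODAux.dbl_symm (hπ p hpS).2.1⟩
  · intro x hx y hy hxy
    obtain ⟨p, hpS, rfl⟩ := Finset.mem_image.1 hx
    obtain ⟨q, hqS, rfl⟩ := Finset.mem_image.1 hy
    exact key p hpS q hqS fun h => hxy (by rw [h])

end Pool.Agent.Lib.MP610fe3.HR
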