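import Pool.Agent.Lib.MP_610fe3_an.HR.F4Spec
import Pool.Agent.Lib.MP_610fe3_an.HR.F1L31
import Pool.Agent.Lib.MP_610fe3_an.HR.DBL

/-!
# Module CNB (hive F4): from one leaf of the minimal set to another one
-/

set_option autoImplicit false

open Set Filter Function Metric
open scoped Topology

namespace Pool.Agent.Lib.MP610fe3.HR

open Cf CH

universe u

namespace F4CNBAux

variable {M : Type u} [MetricSpace M] {f g : M ≃ₜ M}

theorem wl_mono {x z : M} {a b : ℝ} (h : z ∈ Wl f a x) (hab : a ≤ b) : z ∈ Wl f b x :=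
  fun k => (h k).trans hab

theorem wl_iter {x z : M} {a : ℝ} (h : z ∈ Wl f a x) (m : ℕ) : f^[m] z ∈ Wl f a (f^[m] x) :=
  fun k => by
    rw [← iterate_add_apply, ← iterate_add_apply]
    exact h (k + m)

theorem wl_symm {x z : M} {a : ℝ} (h : z ∈ Wl f a x) : x ∈ Wl f a z := fun k => by
  rw [dist_comm]
  exact h k

theorem dbl_iter [CompactSpace M] (hc : ∀ x, f (g x) = g (f x)) (k : ℕ) {x y : M}
    (h : Dbl f g x y) : Dbl f g (f^[k] x) (f^[k] y) := by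
  induction k with
  | zero => exact h
  | succ k ih =>
    rw [iterate_succ_apply', iterate_succ_apply']
    exact (DblAux.of_c f.continuous (fun _ => rfl) hc) ih

end F4CNBAux

open F4CNBAux

/-- **CNB**. -/
theorem specCnb (hMix : SpecMix.{u}) (hSmv : SpecSmv.{u}) (hL31 : SpecL31.{u})
    (hCmv : SpecCmv.{u}) : SpecCnb.{u} := by
  intro M _ _ f g H ε C l K A A' P h hcup hK hH hA hP hinv hA'
  obtain ⟨η₀, hη₀, HC⟩ := hCmv M f g H ε C l K h hK hH
  refine ⟨η₀, hη₀, fun ϑ η s hϑ hη hs => ?_⟩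
  obtain ⟨δc, lc, hδc, HC⟩ := HC ϑ (η / 2) (s / 2) hϑ (by positivity) (by positivity)
  obtain ⟨δL, hδL, HL⟩ := hL31 M f g ε C l h (min δc (s / 2)) (lt_min hδc (by positivity))
  obtain ⟨δs, hδs, HS⟩ := hSmv M f g ε C l h hcup η δc hη hδc
  obtain ⟨m₁, HM⟩ := hMix M f ε C l h.one A P hA hP hinv (min δL δs) (lt_min hδL hδs)
  refine ⟨δs, m₁ + |lc| + ϑ * m₁, hδs, fun n l' hl a₀ ha₀ a₁ ha₁ S hS hsep => ?_⟩
  obtain ⟨m, hm, z, hz1, hz2⟩ := HM a₁ a₀ (hA' a₁ ha₁) (hA' a₀ ha₀)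
  obtain ⟨S₁, hc1, hS1, hsep1⟩ := HS n a₀ (f.symm^[m] z) S (wl_mono hz2 (min_le_right _ _)) hS hsep
  -- apply `f^m`
  have hinj : Injective (f^[m]) := f.injective.iterate m
  set S₂ : Finset M := S₁.map ⟨f^[m], hinj⟩ with hS₂
  have hS2 : ∀ x ∈ S₂, x ∈ Lf f g.symm δc z := by
    intro x hx
    obtain ⟨y, hy, rfl⟩ := Finset.mem_map.1 hx
    obtain ⟨h1, h2⟩ := hS1 y hy
    have h3 := wl_iter h1 m
    have h4 := dbl_iter h.symm_right.comm m h2
    rw [CH.iter_symm] at h3 h4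
    exact ⟨h3, h4⟩
  have hsep2 : SepF f.symm (n + m) (η / 2) S₂ := by
    intro p hp p' hp' hne
    obtain ⟨y, hy, rfl⟩ := Finset.mem_map.1 hp
    obtain ⟨y', hy', rfl⟩ := Finset.mem_map.1 hp'
    obtain ⟨k, hk, hd⟩ := hsep1 y hy y' hy' (fun hh => hne (by rw [hh]))
    refine ⟨k + m, by omega, ?_⟩
    simp only [Embedding.coeFn_mk]
    rw [iterate_add_apply, iterate_add_apply, CH.symm_iter, CH.symm_iter]
    exact hd
  -- the point `z'`
  obtain ⟨z', hz'1, hz'2, hz'3, hz'4, -, -⟩ := HL z a₁ (wl_symm (wl_mono hz1 (min_le_left _ _)))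
  -- the time
  have hmm : (m : ℝ) ≤ m₁ := by exact_mod_cast hm
  have hlc : lc ≤ |lc| := le_abs_self lc
  have hlc0 : 0 ≤ |lc| := abs_nonneg lc
  have hϑm : ϑ * m ≤ ϑ * m₁ := mul_le_mul_of_nonneg_left hmm hϑ.le
  have hn0 : 0 ≤ ϑ * n := by positivity
  have hm0 : 0 ≤ ϑ * m₁ := by positivity
  have hml : m ≤ l' := by
    have : (m : ℝ) ≤ l' := by linarith
    exact_mod_cast this
  obtain ⟨S₃, hc3, hS3, hsep3⟩ := HC (n + m) (l' - m) (by
    push_cast [Nat.cast_sub hml]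
    rw [mul_add]
    linarith) z z' S₂ ⟨wl_mono hz'3 (min_le_left _ _), hz'1⟩ hS2 hsep2
  refine ⟨S₃, ?_, fun x hx => ?_, ?_⟩
  · rw [hc3, hS₂, Finset.card_map, hc1]
  · obtain ⟨h1, h2⟩ := hS3 x hx
    obtain ⟨-, hsy, htr, -⟩ := specDbl M f g.symm h.symm_right.comm
    refine ⟨fun k => ?_, htr _ _ _ (hsy _ _ hz'2) h2⟩
    have h3 := h1 k
    have h4 := (hz'4 k).trans (min_le_right _ _)
    have := dist_triangle (f^[k] x) (f^[k] z') (f^[k] a₁)
    linarith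
  · have : n + m + (l' - m) = n + l' := by omega
    rwa [this] at hsep3

end Pool.Agent.Lib.MP610fe3.HR
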