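import Pool.Agent.Lib.MP_610fe3_an.HR.F4Spec

/-!
# F4, module CNL: counting, from `M` to `L`
-/

set_option autoImplicit false

open Set Filter Function Bundle Metric
open scoped Topology Manifold ContDiff

namespace Pool.Agent.Lib.MP610fe3.HR

open Cf CH
open T6 (Sys Sc Lad Dom HolMap)

universe u v w

namespace F4CNLAux

variable {M L : Type u} [MetricSpace M] [MetricSpace L]

theorem iota_iter {f g : M ≃ₜ M} {ι : L ≃ M} {F : L ≃ₜ L} {δ₀ C₀ : ℝ}
    (hL : Lfm f g ι F δ₀ C₀) (k : ℕ) (x : L) : ι (F^[k] x) = f.symm^[k] (ι x) := by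
  induction k with
  | zero => rfl
  | succ k ih => rw [iterate_succ_apply', iterate_succ_apply', hL.eqf, ih]

/-- separated points of `L` in a small set are separated in `M` -/
theorem sep_down {f g : M ≃ₜ M} {ι : L ≃ M} {F : L ≃ₜ L} {δ₀ C₀ : ℝ}
    (hL : Lfm f g ι F δ₀ C₀) {n : ℕ} {η : ℝ} (h1 : C₀ * η < δ₀) {a b : L}
    (h0 : dist a b < δ₀) (h : ∃ k ≤ n, η < dist (F^[k] a) (F^[k] b)) :
    ∃ k ≤ n, η < dist (f.symm^[k] (ι a)) (f.symm^[k] (ι b)) := by
  classical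
  obtain ⟨hk, hd⟩ := Nat.find_spec h
  have hmin := fun m => Nat.find_min h (m := m)
  set k := Nat.find h with hkdef
  refine ⟨k, hk, ?_⟩
  rw [← iota_iter hL, ← iota_iter hL]
  have hsm : dist (F^[k] a) (F^[k] b) < δ₀ := by
    rcases Nat.eq_zero_or_pos k with h2 | h2
    · rw [h2]
      exact h0
    · obtain ⟨j, hj⟩ : ∃ j, k = j + 1 := ⟨k - 1, by omega⟩
      have h3 : ¬ (j ≤ n ∧ η < dist (F^[j] a) (F^[j] b)) := hmin j (by omega)
      have h4 : dist (F^[j] a) (F^[j] b) ≤ η := by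
        by_contra h5
        exact h3 ⟨by omega, not_le.1 h5⟩
      rw [hj, iterate_succ_apply', iterate_succ_apply']
      refine lt_of_le_of_lt (hL.lip _ _) (lt_of_le_of_lt ?_ h1)
      exact mul_le_mul_of_nonneg_left h4 (zero_le_one.trans hL.one_le)
  rw [← hL.small _ _ hsm]
  exact hd

/-- separated points of `M` are separated in `L` -/
theorem sep_up {f g : M ≃ₜ M} {ι : L ≃ M} {F : L ≃ₜ L} {δ₀ C₀ : ℝ}
    (hL : Lfm f g ι F δ₀ C₀) {k : ℕ} {η : ℝ} (h1 : η < δ₀) {a b : L}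
    (h : η < dist (f.symm^[k] (ι a)) (f.symm^[k] (ι b))) : η < dist (F^[k] a) (F^[k] b) := by
  by_contra h2
  rw [not_lt] at h2
  rw [← iota_iter hL, ← iota_iter hL, ← hL.small _ _ (lt_of_le_of_lt h2 h1)] at h
  exact absurd h (not_lt.2 h2)

end F4CNLAux

open F4CNLAux in
/-- CNL. -/
theorem specCnl : SpecCnl.{u} := by
  intro M L _ _ _ f g ι F δ₀ C₀ hL
  have hδ := hL.pos
  have hC0 := hL.one_le
  have hC0p : 0 < C₀ := lt_of_lt_of_le one_pos hC0
  refine ⟨δ₀ / C₀, div_pos hδ hC0p, fun C η U hC hη hCη hcnt => ?_⟩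
  have hb : 16 * C * η * C₀ ≤ δ₀ := (le_div_iff₀ hC0p).1 hCη
  have hCC : C * η ≤ C * η * C₀ := le_mul_of_one_le_right (by positivity) hC0
  have hηC : η ≤ C * η := le_mul_of_one_le_left hη.le hC
  have hηC0 : C₀ * η ≤ C * η * C₀ := by
    have := mul_le_mul_of_nonneg_right hηC hC0p.le
    linarith
  have hpos : 0 < C * η * C₀ := by positivity
  have hb1 : C₀ * η < δ₀ := by linarith
  have hb2 : 2 * η ≤ δ₀ := by linarith
  have hb3 : η ≤ δ₀ := by linarith
  have hb4 : 4 * C * η < δ₀ := by linarith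
  have hb5 : 2 * η < δ₀ := by linarith
  intro ϑ hϑ
  obtain ⟨l₀, hl₀⟩ := hcnt ϑ hϑ
  refine ⟨l₀, fun n l hl w w' hw hw' S hS hsep => ?_⟩
  have hin : ∀ ρ ≤ δ₀, ∀ x : L, Wl F.symm ρ x ⊆ ι ⁻¹' U → Lf f g.symm ρ (ι x) ⊆ U := by
    intro ρ hρ x hx y hy
    have h1 : ι.symm y ∈ Wl F.symm ρ x := by
      rw [hL.un ρ hρ, Equiv.apply_symm_apply]
      exact hy
    have h2 := hx h1
    rw [mem_preimage, Equiv.apply_symm_apply] at h2
    exact h2
  obtain ⟨S', hc, hm, hs⟩ := hl₀ n l hl (ι w) (ι w') (hin _ hb2 w hw) (hin _ hb3 w' hw')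
    (S.map ι.toEmbedding) (by
      intro p hp
      obtain ⟨a, ha, rfl⟩ := Finset.mem_map.1 hp
      exact (hL.un η hb3 w a).1 (hS a ha)) (by
      intro p hp p' hp' hne
      obtain ⟨a, ha, rfl⟩ := Finset.mem_map.1 hp
      obtain ⟨b, hb', rfl⟩ := Finset.mem_map.1 hp'
      have hab : a ≠ b := fun h => hne (by rw [h])
      refine sep_down hL hb1 ?_ (hsep a ha b hb' hab)
      have h1 : dist a w ≤ η := hS a ha 0
      have h2 : dist b w ≤ η := hS b hb' 0
      have h3 := dist_triangle_right a b w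
      linarith)
  refine ⟨S'.map ι.symm.toEmbedding, ?_, ?_, ?_⟩
  · rw [Finset.card_map] at hc ⊢
    exact hc
  · intro p hp
    obtain ⟨a, ha, rfl⟩ := Finset.mem_map.1 hp
    rw [hL.un η hb3]
    have := hm a ha
    simpa using this
  · intro p hp p' hp' hne
    obtain ⟨a, ha, rfl⟩ := Finset.mem_map.1 hp
    obtain ⟨b, hb', rfl⟩ := Finset.mem_map.1 hp'
    have hab : a ≠ b := fun h => hne (by rw [h])
    obtain ⟨k, hk, hd⟩ := hs a ha b hb' hab
    refine ⟨k, hk, sep_up hL hb4 ?_⟩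
    simpa using hd

end Pool.Agent.Lib.MP610fe3.HR
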