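import Pool.Agent.Lib.MP_610fe3_an.HR.F4Spec
import Pool.Agent.Lib.MP_610fe3_an.HR.PROD

/-!
# Module CNT (hive F4): counting separated points in the leaves `X`
-/

set_option autoImplicit false

open Set Filter Function
open scoped Topology

namespace Pool.Agent.Lib.MP610fe3.HR

open Cf CH

universe u

namespace F4CNTAux

variable {M : Type u} [MetricSpace M] {f g : M ≃ₜ M}

/-- Points close in the future and during `k` steps in the past. -/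
theorem wl_back {r : ℝ} {p q : M} (h : q ∈ Wl f r p) {k : ℕ}
    (hd : ∀ i ≤ k, dist (f.symm^[i] p) (f.symm^[i] q) ≤ r) :
    f.symm^[k] q ∈ Wl f r (f.symm^[k] p) :=
  H1.wl_back_iter (f := f.symm) h (fun i hi => by rw [dist_comm]; exact hd i hi)

theorem dbl_iter_left {x y : M} (h : Dbl f g x y) (j : ℕ) (hc : ∀ x, f (g x) = g (f x)) :
    Dbl f g (f^[j] x) (f^[j] y) := fun ε hε => by
  obtain ⟨K, hK⟩ := h ε hε
  refine ⟨K, fun n m hnm => ?_⟩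
  have e : ∀ w : M, f^[n] (g^[m] (f^[j] w)) = f^[n + j] (g^[m] w) := fun w => by
    rw [← PRODAux.comm_iter hc j m w, ← iterate_add_apply]
  rw [e, e]
  exact hK (n + j) m (by omega)

theorem lf_iter {r : ℝ} {x y : M} (h : y ∈ Lf f g r x) (j : ℕ) (hc : ∀ x, f (g x) = g (f x)) :
    f^[j] y ∈ Lf f g r (f^[j] x) :=
  ⟨H1.wl_iter h.1 j, dbl_iter_left h.2 j hc⟩

theorem lf_mono {r r' : ℝ} {x y : M} (h : y ∈ Lf f g r x) (hr : r ≤ r') : y ∈ Lf f g r' x :=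
  ⟨H1.wl_mono h.1 hr, h.2⟩

theorem lf_trans {r r' : ℝ} {x y z : M} (h : z ∈ Lf f g r y) (h' : y ∈ Lf f g r' x) :
    z ∈ Lf f g (r + r') x :=
  ⟨H1.wl_trans h.1 h'.1, PRODAux.dbl_trans h'.2 h.2⟩

/-- The images under `f.symm^[T]` of points which are close up to the time `T`. -/
theorem sep_push {n T : ℕ} {η : ℝ} {G : Finset M} (h : SepF f.symm n η G)
    (hG : ∀ x ∈ G, ∀ y ∈ G, ∀ k ≤ T, dist (f.symm^[k] x) (f.symm^[k] y) ≤ η) :
    ∀ x ∈ G, ∀ y ∈ G, x ≠ y →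
      ∃ k ≤ n, η < dist (f.symm^[k] (f.symm^[T] x)) (f.symm^[k] (f.symm^[T] y)) := by
  intro x hx y hy hxy
  obtain ⟨k, hk, h1⟩ := h x hx y hy hxy
  have h2 : T ≤ k := by
    by_contra hlt
    exact absurd (hG x hx y hy k (by omega)) (not_le.2 h1)
  refine ⟨k - T, by omega, ?_⟩
  rw [← iterate_add_apply, ← iterate_add_apply, Nat.sub_add_cancel h2]
  exact h1

/-- The images under `f^[T]`. -/
theorem sep_pull {n T : ℕ} {η : ℝ} {x y : M}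
    (h : ∃ k ≤ n, η < dist (f.symm^[k] x) (f.symm^[k] y)) :
    ∃ k ≤ n + T, η < dist (f.symm^[k] (f^[T] x)) (f.symm^[k] (f^[T] y)) := by
  obtain ⟨k, hk, h1⟩ := h
  refine ⟨k + T, by omega, ?_⟩
  rw [iterate_add_apply, iterate_add_apply, H1.symm_iter_iter, H1.symm_iter_iter]
  exact h1

/-- The union of the groups. -/
theorem union {n k₁ N : ℕ} {ηB ηP s r : ℝ} {a : M} (hc : ∀ x, f (g x) = g (f x))
    (SP : Finset M) (G : M → Finset M) (hSP : ∀ x ∈ SP, x ∈ Lf f g r a)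
    (hsep : SepF f.symm k₁ ηP SP) (hGm : ∀ x ∈ SP, ∀ z ∈ G x, z ∈ Lf f g s (f.symm^[k₁] x))
    (hGc : ∀ x ∈ SP, (G x).card = N) (hGs : ∀ x ∈ SP, SepF f.symm n ηB (G x))
    (hs : 4 * s ≤ ηP) (hηP : 0 < ηP) :
    ∃ S' : Finset M, S'.card = SP.card * N ∧ (∀ z ∈ S', z ∈ Lf f g (s + r) a) ∧
      SepF f.symm (n + k₁) (min ηB (ηP / 2)) S' := by
  classical
  have hinj : Function.Injective (f^[k₁] : M → M) := f.injective.iterate k₁
  have hfar : ∀ x ∈ SP, ∀ x' ∈ SP, x ≠ x' → ∀ z ∈ G x, ∀ z' ∈ G x', ∃ k ≤ k₁,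
      ηP / 2 < dist (f.symm^[k] (f^[k₁] z)) (f.symm^[k] (f^[k₁] z')) := by
    intro x hx x' hx' hxx z hz z' hz'
    obtain ⟨k, hk, h1⟩ := hsep x hx x' hx' hxx
    refine ⟨k, hk, ?_⟩
    have e1 : ∀ w : M, f.symm^[k] (f^[k₁] w) = f^[k₁ - k] w := by
      intro w
      obtain ⟨i, hi⟩ : ∃ i, k₁ = k + i := ⟨k₁ - k, by omega⟩
      rw [hi, iterate_add_apply, H1.symm_iter_iter, Nat.add_sub_cancel_left]
    have e2 : ∀ w : M, f^[k₁ - k] (f.symm^[k₁] w) = f.symm^[k] w := by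
      intro w
      obtain ⟨i, hi⟩ : ∃ i, k₁ = i + k := ⟨k₁ - k, by omega⟩
      rw [hi, iterate_add_apply, Nat.add_sub_cancel, H1.iter_symm_iter]
    have h2 : dist (f^[k₁ - k] z) (f^[k₁ - k] (f.symm^[k₁] x)) ≤ s := (hGm x hx z hz).1 _
    have h3 : dist (f^[k₁ - k] z') (f^[k₁ - k] (f.symm^[k₁] x')) ≤ s := (hGm x' hx' z' hz').1 _
    rw [e2] at h2 h3
    rw [e1, e1]
    have t1 := dist_triangle (f.symm^[k] x) (f^[k₁ - k] z) (f.symm^[k] x')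
    have t2 := dist_triangle (f^[k₁ - k] z) (f^[k₁ - k] z') (f.symm^[k] x')
    rw [dist_comm] at h2
    linarith
  refine ⟨SP.biUnion fun x => (G x).image f^[k₁], ?_, ?_, ?_⟩
  · rw [Finset.card_biUnion]
    · rw [Finset.sum_congr rfl fun x hx => (Finset.card_image_of_injective _ hinj).trans (hGc x hx)]
      rw [Finset.sum_const, smul_eq_mul]
    · intro x hx x' hx' hxx
      refine Finset.disjoint_left.2 fun y hy hy' => ?_
      obtain ⟨z, hz, hzy⟩ := Finset.mem_image.1 hy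
      obtain ⟨z', hz', hzy'⟩ := Finset.mem_image.1 hy'
      obtain ⟨k, -, h1⟩ := hfar x hx x' hx' hxx z hz z' hz'
      rw [hzy, hzy', dist_self] at h1
      linarith
  · intro y hy
    obtain ⟨x, hx, hy⟩ := Finset.mem_biUnion.1 hy
    obtain ⟨z, hz, rfl⟩ := Finset.mem_image.1 hy
    have h1 := lf_iter (hGm x hx z hz) k₁ hc
    rw [H1.iter_symm_iter] at h1
    exact lf_trans h1 (hSP x hx)
  · intro y hy y' hy' hyy
    obtain ⟨x, hx, hy⟩ := Finset.mem_biUnion.1 hy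
    obtain ⟨z, hz, rfl⟩ := Finset.mem_image.1 hy
    obtain ⟨x', hx', hy'⟩ := Finset.mem_biUnion.1 hy'
    obtain ⟨z', hz', rfl⟩ := Finset.mem_image.1 hy'
    by_cases hxx : x = x'
    · subst hxx
      obtain ⟨k, hk, h1⟩ := sep_pull (T := k₁)
        (hGs x hx z hz z' hz' fun h => hyy (by rw [h]))
      exact ⟨k, hk, lt_of_le_of_lt (min_le_left _ _) h1⟩
    · obtain ⟨k, hk, h1⟩ := hfar x hx x' hx' hxx z hz z' hz'
      exact ⟨k, by omega, lt_of_le_of_lt (min_le_right _ _) h1⟩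

/-- Part (A). -/
theorem partA [CompactSpace M] {ε C l η ηg δ₁ δB : ℝ} {A' : Set M} {T P₀ n : ℕ}
    (hp : Pair f g ε C l) (hηε : 2 * η ≤ ε) (hηg : ηg ≤ η) (hηg0 : 0 ≤ ηg)
    (hCg : C * ηg ≤ δ₁)
    (HS : ∀ (n : ℕ) (p q : M) (S : Finset M), q ∈ Wl f.symm δ₁ p →
      (∀ x ∈ S, x ∈ Lf f g.symm δ₁ p) → SepF f.symm n η S → ∃ S' : Finset M,
        S'.card = S.card ∧ (∀ x ∈ S', x ∈ Lf f g.symm δB q) ∧ SepF f.symm n (η / 2) S')
    (HT : ∀ w : M, Lf f g.symm η w ⊆ UY f g A' → ∃ a ∈ A', a ∈ Lf f.symm g δ₁ (f.symm^[T] w))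
    (HG : ∀ S : Finset M, ∃ G ⊆ S, S.card ≤ P₀ * G.card ∧ ∀ x ∈ G, ∀ y ∈ G, ∀ k ≤ T,
      dist (f.symm^[k] x) (f.symm^[k] y) ≤ ηg) {w : M} (hw : Lf f g.symm (2 * η) w ⊆ UY f g A')
    {S : Finset M} (hne : S.Nonempty) (hS : ∀ p ∈ S, p ∈ Lf f g.symm η w)
    (hsep : SepF f.symm n η S) :
    ∃ a₀ ∈ A', ∃ G₂ : Finset M, 0 < G₂.card ∧ S.card ≤ P₀ * G₂.card ∧
      (∀ x ∈ G₂, x ∈ Lf f g.symm δB a₀) ∧ SepF f.symm n (η / 2) G₂ := by
  have hC1 := hp.one.br.one_le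
  have hC0 : 0 < C := by linarith
  obtain ⟨G, hGS, hcard, hG⟩ := HG S
  have hG0 : 0 < G.card := by
    have h1 : 0 < S.card := Finset.card_pos.2 hne
    by_contra h0
    have h2 : G.card = 0 := by omega
    rw [h2, mul_zero] at hcard
    omega
  obtain ⟨g₀, hg₀⟩ := Finset.card_pos.1 hG0
  obtain ⟨a₀, ha₀, ha₀w⟩ := HT g₀ fun z hz => hw (by
    have h1 := lf_trans hz (hS g₀ (hGS hg₀))
    exact lf_mono h1 (by linarith))
  have hinj : Function.Injective (f.symm^[T] : M → M) := f.symm.injective.iterate T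
  have hCη : ηg ≤ C * ηg := le_mul_of_one_le_left hηg0 hC1
  obtain ⟨G₂, hc, hm, hs⟩ := HS n (f.symm^[T] g₀) a₀ (G.map ⟨f.symm^[T], hinj⟩) ha₀w.1 (by
    intro x hx
    obtain ⟨y, hy, rfl⟩ := Finset.mem_map.1 hx
    have h1 : y ∈ Wl f ε g₀ :=
      H1.wl_mono (H1.wl_trans (hS y (hGS hy)).1 (H1.wl_symm (hS g₀ (hGS hg₀)).1)) (by linarith)
    have h2 : dist y g₀ ≤ ηg := hG y hy g₀ hg₀ 0 (Nat.zero_le _)
    have h3 : y ∈ Wl f (C * ηg) g₀ := fun k => by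
      refine (hp.one.decs.dec g₀ y h1 k).trans ?_
      have h4 : l ^ k ≤ 1 := pow_le_one₀ hp.one.decs.l_pos.le hp.one.decs.l_lt.le
      have h5 : C * l ^ k ≤ C := by
        calc C * l ^ k ≤ C * 1 := mul_le_mul_of_nonneg_left h4 hC0.le
          _ = C := mul_one C
      exact mul_le_mul h5 h2 dist_nonneg hC0.le
    refine ⟨H1.wl_mono (wl_back h3 fun i hi => (hG g₀ hg₀ y hy i hi).trans hCη) hCg, ?_⟩
    refine PRODAux.dbl_of_image_iter hp.symm_right.comm T ?_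
    have h6 : Dbl f g.symm g₀ y :=
      PRODAux.dbl_trans (PRODAux.dbl_symm (hS g₀ (hGS hg₀)).2) (hS y (hGS hy)).2
    have e : ∀ w : M, f^[T] ((⟨f.symm^[T], hinj⟩ : M ↪ M) w) = w := fun w =>
      H1.iter_symm_iter f T w
    rw [e, H1.iter_symm_iter]
    exact h6) (by
    intro x hx x' hx' hxx
    obtain ⟨y, hy, rfl⟩ := Finset.mem_map.1 hx
    obtain ⟨y', hy', rfl⟩ := Finset.mem_map.1 hx'
    exact sep_push (n := n) (T := T) (fun p hp q hq h => hsep p (hGS hp) q (hGS hq) h)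
      (fun p hp q hq k hk => (hG p hp q hq k hk).trans hηg) y hy y' hy'
      fun h => hxx (by rw [h]))
  rw [Finset.card_map] at hc
  exact ⟨a₀, ha₀, G₂, by omega, by rw [hc]; exact hcard, hm, hs⟩

end F4CNTAux

open F4CNTAux in
theorem specCnt (hEnt : SpecEnt.{u}) (hGrp : SpecGrp.{u}) (hSmv : SpecSmv.{u})
    (hCnb : SpecCnb.{u}) (hPts : SpecPts.{u}) (hExl : SpecExl.{u}) : SpecCnt.{u} := by
  intro M _ _ f g H ε C l K u φ C₁ ρ e₁ A A' P hp hcu hL hH hu hch hmin hP hPA hA' hGB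
  obtain ⟨ηB, hηB, HB⟩ := hCnb M f g H ε C l K A A' P hp hcu hL hH hmin hP hPA hA'
  obtain ⟨ηP, hηP, HP⟩ := hPts M f g ε C l u φ C₁ ρ e₁ hp hu hch
  obtain ⟨ηE, hηE, HE⟩ := hExl M f g ε C l hp
  have hε := hp.one.br.ε_pos
  have hC0 : 0 < C := by linarith [hp.one.br.one_le]
  refine ⟨min ηE ε, lt_min hηE hε, fun C' η hC' hη hηe ϑ hϑ => ?_⟩
  have hη1 : 16 * C' * η ≤ ηE := hηe.trans (min_le_left _ _)
  have hη2 : 16 * C' * η ≤ ε := hηe.trans (min_le_right _ _)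
  have hCη : η ≤ C' * η := le_mul_of_one_le_left hη.le hC'
  obtain ⟨η₄, hη₄⟩ : ∃ η₄, η₄ = min ηB (ηP / 2) := ⟨_, rfl⟩
  have hη₄0 : 0 < η₄ := by rw [hη₄]; exact lt_min hηB (half_pos hηP)
  obtain ⟨δ₂, hδ₂, HS2⟩ := hSmv M f g ε C l hp hcu η₄ η hη₄0 hη
  obtain ⟨sB, hsB⟩ : ∃ sB, sB = min (δ₂ / 2) (ηP / 4) := ⟨_, rfl⟩
  have hsB0 : 0 < sB := by rw [hsB]; exact lt_min (by linarith) (by linarith)
  have hsB1 : sB ≤ δ₂ / 2 := by rw [hsB]; exact min_le_left _ _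
  have hsB2 : 4 * sB ≤ ηP := by
    have : sB ≤ ηP / 4 := by rw [hsB]; exact min_le_right _ _
    linarith
  obtain ⟨δB, lB, hδB, HB⟩ := HB ϑ (η / 2) sB hϑ (half_pos hη) hsB0
  obtain ⟨δ₁, hδ₁, HS1⟩ := hSmv M f g ε C l hp hcu η δB hη hδB
  obtain ⟨T, HT⟩ := hEnt M f g ε C l hp A' hGB η (min δ₁ δ₂) hη (lt_min hδ₁ hδ₂)
  have hg0 : 0 < min η (δ₁ / C) := lt_min hη (div_pos hδ₁ hC0)
  obtain ⟨P₀, HG⟩ := hGrp M f.symm T (min η (δ₁ / C)) hg0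
  obtain ⟨k₁, HP⟩ := HP (P₀ + 1) (δ₂ / 2) (half_pos hδ₂)
  obtain ⟨l₂, HE⟩ := HE (η₄ / 2) (half_pos hη₄0)
  refine ⟨max lB 0 + (k₁ + T + l₂ : ℕ), fun n L hnL w w' hw hw' S hS hsep => ?_⟩
  rcases S.eq_empty_or_nonempty with rfl | hne
  · refine ⟨{w'}, by simp, fun p hpw => ?_, fun p hpw q hqw hpq => ?_⟩
    · rw [Finset.mem_singleton.1 hpw]
      exact ⟨H1.wl_self hη.le _, fun e he => ⟨0, fun _ _ _ => by rw [dist_self]; exact he.le⟩⟩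
    · exact absurd ((Finset.mem_singleton.1 hpw).trans (Finset.mem_singleton.1 hqw).symm) hpq
  have hϑn : 0 ≤ ϑ * n := by positivity
  have hle : k₁ + T + l₂ ≤ L := by
    have h1 : ((k₁ + T + l₂ : ℕ) : ℝ) ≤ (L : ℝ) := by
      have := le_max_right lB 0
      linarith
    exact_mod_cast h1
  obtain ⟨L', hL'⟩ : ∃ L', L = L' + (k₁ + T + l₂) := ⟨L - (k₁ + T + l₂), by omega⟩
  have hL'n : lB + ϑ * n ≤ L' := by
    have h1 : (L : ℝ) = L' + (k₁ + T + l₂ : ℕ) := by rw [hL']; push_cast; ring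
    have := le_max_left lB 0
    linarith
  have hCg : C * min η (δ₁ / C) ≤ δ₁ := by
    have h1 : min η (δ₁ / C) ≤ δ₁ / C := min_le_right _ _
    have := (le_div_iff₀ hC0).1 h1
    linarith
  obtain ⟨a₀, ha₀, G₂, hG₂0, hG₂c, hG₂m, hG₂s⟩ := partA hp (by linarith) (min_le_left _ _)
    hg0.le hCg HS1 (fun w hw => by
      obtain ⟨a, ha, h1⟩ := HT w hw T le_rfl
      exact ⟨a, ha, lf_mono h1 (min_le_left _ _)⟩) HG hw hne hS hsep
  obtain ⟨a₁, ha₁, ha₁w⟩ := HT w' hw' T le_rfl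
  obtain ⟨SP, hSPc, hSPm, hSPs⟩ := HP a₁
  have hmem : ∀ x ∈ SP, f.symm^[k₁] x ∈ A' := by
    intro x hx
    have h1 : x ∈ A' := hGB.sat a₁ ha₁ x (PRODAux.dbl_fwd (hSPm x hx).2)
    have h2 : ∀ k : ℕ, f.symm^[k] x ∈ A' := by
      intro k
      induction k with
      | zero => exact h1
      | succ k ih =>
        rw [iterate_succ_apply']
        rw [← hGB.inv] at ih
        obtain ⟨y, hy, hyx⟩ := ih
        rw [← hyx, f.symm_apply_apply]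
        exact hy
    exact h2 k₁
  have hall : ∀ x ∈ SP, ∃ S' : Finset M, S'.card = G₂.card ∧
      (∀ z ∈ S', z ∈ Lf f g.symm sB (f.symm^[k₁] x)) ∧ SepF f.symm (n + L') ηB S' := fun x hx =>
    HB n L' hL'n a₀ ha₀ (f.symm^[k₁] x) (hmem x hx) G₂ hG₂m hG₂s
  choose! G₃ hG₃c hG₃m hG₃s using hall
  obtain ⟨G₄, hG₄c, hG₄m, hG₄s⟩ := union hp.symm_right.comm SP G₃ hSPm hSPs hG₃m hG₃c hG₃s
    hsB2 hηP
  rw [← hη₄] at hG₄s
  obtain ⟨G₅, hG₅c, hG₅m, hG₅s⟩ := HS2 (n + L' + k₁) a₁ (f.symm^[T] w') G₄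
    (H1.wl_symm (H1.wl_mono ha₁w.1 (min_le_right _ _)))
    (fun x hx => lf_mono (hG₄m x hx) (by linarith)) hG₄s
  have hinj : Function.Injective (f^[T] : M → M) := f.injective.iterate T
  have hm6 : ∀ z ∈ G₅, f^[T] z ∈ Lf f g.symm η w' := fun z hz => by
    have h1 := lf_iter (hG₅m z hz) T hp.symm_right.comm
    rwa [H1.iter_symm_iter] at h1
  refine ⟨G₅.map ⟨f^[T], hinj⟩, ?_, ?_, ?_⟩
  · rw [Finset.card_map, hG₅c, hG₄c, hSPc]
    calc S.card ≤ P₀ * G₂.card := hG₂c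
      _ < P₀ * G₂.card + G₂.card := by omega
      _ = (P₀ + 1) * G₂.card := by ring
  · intro p hpm
    obtain ⟨z, hz, rfl⟩ := Finset.mem_map.1 hpm
    exact hm6 z hz
  · intro p hpm q hqm hpq
    obtain ⟨z, hz, rfl⟩ := Finset.mem_map.1 hpm
    obtain ⟨z', hz', rfl⟩ := Finset.mem_map.1 hqm
    have h1 := sep_pull (T := T) (hG₅s z hz z' hz' fun h => hpq (by rw [h]))
    obtain ⟨k, hk, h2⟩ := HE (n + L' + k₁ + T) (f^[T] z) (f^[T] z')
      (H1.wl_mono (H1.wl_trans (hm6 z' hz').1 (H1.wl_symm (hm6 z hz).1)) (by linarith)) h1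
    exact ⟨k, by omega, lt_of_le_of_lt (by linarith) h2⟩

end Pool.Agent.Lib.MP610fe3.HR
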