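import Pool.Agent.Lib.MP_610fe3_an.HR.F3Spec

/-!
# Restriction of a pair to a closed invariant set saturated by the stable sets

`rsH f N h` is the restriction of the homeomorphism `f` to the invariant set `N`. If `N` is closed,
invariant under `f`, `g` and saturated by the stable sets of `f` and of `g`, then `Pair f g` restricts
to `N` (brackets are in `N`, shadowing orbits of pseudo orbits of `N` are in `N`).
-/

set_option autoImplicit false

open Set Filter Function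
open scoped Topology

namespace Pool.Agent.Lib.MP610fe3.HR

open Cf CH

universe u

section Res

variable {M : Type u} [MetricSpace M]

/-- The restriction of `f` to the invariant set `N`. -/
def rsH (f : M ≃ₜ M) (N : Set M) (h : ∀ x, x ∈ N ↔ f x ∈ N) : N ≃ₜ N := f.subtype h

theorem inv_symm {f : M ≃ₜ M} {N : Set M} (h : ∀ x, x ∈ N ↔ f x ∈ N) :
    ∀ x, x ∈ N ↔ f.symm x ∈ N := fun x => by
  rw [h (f.symm x), f.apply_symm_apply]

theorem rsH_coe (f : M ≃ₜ M) (N : Set M) (h : ∀ x, x ∈ N ↔ f x ∈ N) (x : N) :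
    ((rsH f N h x : N) : M) = f x := rfl

theorem rsH_symm (f : M ≃ₜ M) (N : Set M) (h : ∀ x, x ∈ N ↔ f x ∈ N) :
    (rsH f N h).symm = rsH f.symm N (inv_symm h) := by
  ext x
  rfl

theorem rsH_iter (f : M ≃ₜ M) (N : Set M) (h : ∀ x, x ∈ N ↔ f x ∈ N) (n : ℕ) (x : N) :
    (((rsH f N h)^[n] x : N) : M) = f^[n] x := by
  induction n generalizing x with
  | zero => rfl
  | succ n ih =>
    rw [iterate_succ_apply, iterate_succ_apply, ih]
    rfl

theorem rsH_symm_iter (f : M ≃ₜ M) (N : Set M) (h : ∀ x, x ∈ N ↔ f x ∈ N) (n : ℕ) (x : N) :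
    (((rsH f N h).symm^[n] x : N) : M) = f.symm^[n] x := by
  rw [rsH_symm]
  exact rsH_iter f.symm N (inv_symm h) n x

theorem mem_iter {f : M ≃ₜ M} {N : Set M} (h : ∀ x, x ∈ N ↔ f x ∈ N) (n : ℕ) {x : M}
    (hx : x ∈ N) : f^[n] x ∈ N := by
  have := ((rsH f N h)^[n] ⟨x, hx⟩).2
  rwa [rsH_iter] at this

variable {f g : M ≃ₜ M} {N : Set M}

theorem mem_wl_rsH (h : ∀ x, x ∈ N ↔ f x ∈ N) {ε : ℝ} {x z : N} :
    z ∈ Wl (rsH f N h) ε x ↔ (z : M) ∈ Wl f ε (x : M) := by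
  refine forall_congr' fun k => ?_
  rw [Subtype.dist_eq, rsH_iter, rsH_iter]

theorem mem_wl_rsH_symm (h : ∀ x, x ∈ N ↔ f x ∈ N) {ε : ℝ} {x z : N} :
    z ∈ Wl (rsH f N h).symm ε x ↔ (z : M) ∈ Wl f.symm ε (x : M) := by
  rw [rsH_symm]
  exact mem_wl_rsH (inv_symm h)

theorem fwdAsymp_rsH (h : ∀ x, x ∈ N ↔ f x ∈ N) {x y : N} :
    FwdAsymp (rsH f N h) x y ↔ FwdAsymp f (x : M) (y : M) := by
  unfold FwdAsymp
  have : (fun k : ℕ => dist ((rsH f N h)^[k] x) ((rsH f N h)^[k] y)) =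
      fun k : ℕ => dist (f^[k] (x : M)) (f^[k] (y : M)) := by
    funext k
    rw [Subtype.dist_eq, rsH_iter, rsH_iter]
  rw [this]

theorem fwdAsymp_rsH_symm (h : ∀ x, x ∈ N ↔ f x ∈ N) {x y : N} :
    FwdAsymp (rsH f N h).symm x y ↔ FwdAsymp f.symm (x : M) (y : M) := by
  rw [rsH_symm]
  exact fwdAsymp_rsH (inv_symm h)

theorem dbl_rsH (hf : ∀ x, x ∈ N ↔ f x ∈ N) (hg : ∀ x, x ∈ N ↔ g x ∈ N) {x y : N} :
    Dbl (rsH f N hf) (rsH g N hg) x y ↔ Dbl f g (x : M) (y : M) := by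
  refine forall_congr' fun ε => imp_congr_right fun _ => exists_congr fun K =>
    forall_congr' fun n => forall_congr' fun m => imp_congr_right fun _ => ?_
  rw [Subtype.dist_eq, rsH_iter, rsH_iter, rsH_iter, rsH_iter]

theorem mem_lf_rsH (hf : ∀ x, x ∈ N ↔ f x ∈ N) (hg : ∀ x, x ∈ N ↔ g x ∈ N) {ε : ℝ} {x z : N} :
    z ∈ Lf (rsH f N hf) (rsH g N hg) ε x ↔ (z : M) ∈ Lf f g ε (x : M) :=
  and_congr (mem_wl_rsH hf) (dbl_rsH hf hg)

theorem mem_of_wl {ε C l : ℝ} (hd : Dec f ε C l) (hs : Sat f N) {x z : M} (hx : x ∈ N)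
    (hz : z ∈ Wl f ε x) : z ∈ N := by
  refine hs x hx z ?_
  have h0 : Tendsto (fun n : ℕ => C * l ^ n * dist z x) atTop (𝓝 0) := by
    have := (tendsto_pow_atTop_nhds_zero_of_lt_one hd.l_pos.le hd.l_lt).const_mul C
    rw [mul_zero] at this
    simpa using this.mul_const (dist z x)
  refine squeeze_zero (fun _ => dist_nonneg) (fun n => ?_) h0
  rw [dist_comm]
  exact hd.dec x z hz n

theorem dec_rsH (h : ∀ x, x ∈ N ↔ f x ∈ N) {ε C l : ℝ} (hd : Dec f ε C l) :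
    Dec (rsH f N h) ε C l where
  ε_pos := hd.ε_pos
  one_le := hd.one_le
  l_pos := hd.l_pos
  l_lt := hd.l_lt
  dec := fun x z hz n => by
    rw [Subtype.dist_eq, Subtype.dist_eq, rsH_iter, rsH_iter]
    exact hd.dec x z ((mem_wl_rsH h).1 hz) n

theorem br_rsH (h : ∀ x, x ∈ N ↔ f x ∈ N) {ε C l : ℝ} (hd : Dec f ε C l) (hb : Br f ε C)
    (hs : Sat f N) : Br (rsH f N h) ε C where
  ε_pos := hb.ε_pos
  one_le := hb.one_le
  exist := fun ε' hε' => by
    obtain ⟨δ, hδ, H⟩ := hb.exist (min ε' ε) (lt_min hε' hb.ε_pos)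
    refine ⟨δ, hδ, fun x y hxy => ?_⟩
    obtain ⟨z, h1, h2⟩ := H x y hxy
    have h1' : z ∈ Wl f ε' (x : M) := fun k => (h1 k).trans (min_le_left _ _)
    have h1'' : z ∈ Wl f ε (x : M) := fun k => (h1 k).trans (min_le_right _ _)
    have h2' : z ∈ Wl f.symm ε' (y : M) := fun k => (h2 k).trans (min_le_left _ _)
    have hz : z ∈ N := mem_of_wl hd hs x.2 h1''
    exact ⟨⟨z, hz⟩, (mem_wl_rsH h).2 h1', (mem_wl_rsH_symm h).2 h2'⟩
  unique := fun x y z z' h1 h2 h3 h4 => Subtype.ext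
    (hb.unique x y z z' ((mem_wl_rsH h).1 h1) ((mem_wl_rsH_symm h).1 h2) ((mem_wl_rsH h).1 h3)
      ((mem_wl_rsH_symm h).1 h4))
  left := fun x y z h1 h2 => hb.left x y z ((mem_wl_rsH h).1 h1) ((mem_wl_rsH_symm h).1 h2)
  right := fun x y z h1 h2 => hb.right x y z ((mem_wl_rsH h).1 h1) ((mem_wl_rsH_symm h).1 h2)

/-- The shadowing orbit of a pseudo orbit of `N` is in `N`. -/
theorem shadow_mem {ε C l : ℝ} (hl : Loc f ε C l) (hN : IsClosed N)
    (h : ∀ x, x ∈ N ↔ f x ∈ N) (hs : Sat f N) {δ : ℝ}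
    (hδ : ∀ x y : M, dist x y < δ → ∃ z, z ∈ Wl f ε x ∧ z ∈ Wl f.symm ε y) (x y : ℤ → M)
    (hx : ∀ k, x k ∈ N) (hy : ∀ k, f (y k) = y (k + 1)) (hxy : ∀ k, dist (y k) (x k) < δ)
    (k : ℤ) : y k ∈ N := by
  have hyn : ∀ (j : ℕ) (k : ℤ), f.symm^[j] (y (k + j)) = y k := by
    intro j
    induction j with
    | zero => intro k; simp
    | succ j ih =>
      intro k
      have e1 : y (k + ((j + 1 : ℕ) : ℤ)) = f (y (k + j)) := by
        rw [hy]; congr 1; push_cast; ring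
      rw [iterate_succ_apply, e1, f.symm_apply_apply]
      exact ih k
  choose z hz1 hz2 using fun k => hδ (x k) (y k) (by rw [dist_comm]; exact hxy k)
  have hzN : ∀ k, z k ∈ N := fun k => mem_of_wl hl.decs hs (hx k) (hz1 k)
  have hlim : Tendsto (fun j : ℕ => f.symm^[j] (z (k + j))) atTop (𝓝 (y k)) := by
    rw [tendsto_iff_dist_tendsto_zero]
    have h0 : Tendsto (fun n : ℕ => C * l ^ n * ε) atTop (𝓝 0) := by
      have := (tendsto_pow_atTop_nhds_zero_of_lt_one hl.decu.l_pos.le hl.decu.l_lt).const_mul C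
      rw [mul_zero] at this
      simpa using this.mul_const ε
    refine squeeze_zero (fun _ => dist_nonneg) (fun j => ?_) h0
    rw [← hyn j k]
    refine (hl.decu.dec _ _ (hz2 (k + j)) j).trans ?_
    have hC : 0 ≤ C * l ^ j :=
      mul_nonneg (zero_le_one.trans hl.decu.one_le) (pow_nonneg hl.decu.l_pos.le j)
    have : dist (z (k + j)) (y (k + j)) ≤ ε := by
      have := hz2 (k + j) 0
      simpa using this
    exact mul_le_mul_of_nonneg_left this hC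
  exact hN.mem_of_tendsto hlim (Eventually.of_forall fun j => mem_iter (inv_symm h) j (hzN _))

theorem shadowing_rsH {ε C l : ℝ} (hl : Loc f ε C l) (hN : IsClosed N)
    (h : ∀ x, x ∈ N ↔ f x ∈ N) (hs : Sat f N) : Shadowing (rsH f N h) := by
  intro ε₁ hε₁
  obtain ⟨δ₂, hδ₂, H₂⟩ := hl.br.exist ε hl.br.ε_pos
  obtain ⟨δ, hδ, H⟩ := hl.sh (min ε₁ δ₂) (lt_min hε₁ hδ₂)
  refine ⟨δ, hδ, fun x hx => ?_⟩
  obtain ⟨y, hy, hyx⟩ := H (fun k => (x k : M)) hx
  have hmem : ∀ k, y k ∈ N := fun k => shadow_mem hl hN h hs H₂ (fun k => (x k : M)) y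
    (fun k => (x k).2) hy (fun k => (hyx k).trans_le (min_le_right _ _)) k
  refine ⟨fun k => ⟨y k, hmem k⟩, fun k => Subtype.ext (hy k), fun k => ?_⟩
  exact (hyx k).trans_le (min_le_left _ _)

theorem shadowing_rsH_symm {ε C l : ℝ} (hl : Loc f ε C l) (hN : IsClosed N)
    (h : ∀ x, x ∈ N ↔ f x ∈ N) (hs : Sat f N) : Shadowing (rsH f N h).symm := by
  intro ε₁ hε₁
  obtain ⟨δ₂, hδ₂, H₂⟩ := hl.br.exist ε hl.br.ε_pos
  obtain ⟨δ, hδ, H⟩ := hl.shu (min ε₁ δ₂) (lt_min hε₁ hδ₂)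
  refine ⟨δ, hδ, fun x hx => ?_⟩
  obtain ⟨y, hy, hyx⟩ := H (fun k => (x k : M)) (fun k => by
    have := hx k
    rw [rsH_symm] at this
    exact this)
  have hmem : ∀ k, y k ∈ N := fun k => by
    have := shadow_mem hl hN h hs H₂ (fun k => (x (-k) : M)) (fun k => y (-k))
      (fun k => (x (-k)).2) (fun k => by
        have e := hy (-(k + 1))
        have e2 : -(k + 1) + 1 = -k := by ring
        rw [e2] at e
        change f (y (-k)) = y (-(k + 1))
        rw [← e, f.apply_symm_apply]) (fun k => (hyx (-k)).trans_le (min_le_right _ _)) (-k)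
    simpa using this
  refine ⟨fun k => ⟨y k, hmem k⟩, fun k => Subtype.ext ?_, fun k => ?_⟩
  · rw [rsH_symm]
    exact hy k
  · exact (hyx k).trans_le (min_le_left _ _)

theorem loc_rsH {ε C l : ℝ} (hl : Loc f ε C l) (hN : IsClosed N)
    (h : ∀ x, x ∈ N ↔ f x ∈ N) (hs : Sat f N) : Loc (rsH f N h) ε C l where
  decs := dec_rsH h hl.decs
  decu := by
    rw [rsH_symm]
    exact dec_rsH (inv_symm h) hl.decu
  br := br_rsH h hl.decs hl.br hs
  sh := shadowing_rsH hl hN h hs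
  shu := shadowing_rsH_symm hl hN h hs

/-- NRES. A pair restricts to a closed invariant set saturated by the stable sets of `f`, `g`. -/
theorem pair_rsH {ε C l : ℝ} (hp : Pair f g ε C l) (hN : IsClosed N)
    (hf : ∀ x, x ∈ N ↔ f x ∈ N) (hg : ∀ x, x ∈ N ↔ g x ∈ N) (hsf : Sat f N) (hsg : Sat g N) :
    Pair (rsH f N hf) (rsH g N hg) ε C l where
  comm := fun x => Subtype.ext (hp.comm x)
  one := loc_rsH hp.one hN hf hsf
  two := loc_rsH hp.two hN hg hsg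

theorem cUp_rsH (hf : ∀ x, x ∈ N ↔ f x ∈ N) (hg : ∀ x, x ∈ N ↔ g x ∈ N) (h : CUp f g) :
    CUp (rsH f N hf) (rsH g N hg) := by
  obtain ⟨ε, hε, H⟩ := h
  refine ⟨ε, hε, fun a z z' q h1 h2 h3 h4 => ?_⟩
  rw [rsH_symm] at h1 h2 h3 ⊢
  exact (dbl_rsH hf (inv_symm hg)).2 (H a z z' q ((mem_lf_rsH hf (inv_symm hg)).1 h1)
    ((mem_wl_rsH (inv_symm hf)).1 h2) ((mem_wl_rsH (inv_symm hf)).1 h3) ((mem_wl_rsH hf).1 h4))

end Res

end Pool.Agent.Lib.MP610fe3.HR
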