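import Pool.Agent.Lib.MP_610fe3_an.T6.Core
import Pool.Agent.Lib.MP_610fe3_an.HR.F3Spec
import Pool.Agent.Lib.MP_610fe3_an.HR.F4RES

/-!
# Nearly conformal coarse bundles: definitions and statements of the modules (hive F4, part 1)

Paper proof: `/team-store/MP_610fe3_an_F4_h60.md`. A module `XXX` proves
`theorem specXxx (h : SpecYyy) .. : SpecXxx` in its own file `HR/F4XXX.lean` (namespace
`Pool.Agent.Lib.MP610fe3.HR`, auxiliary lemmas in the sub-namespace `F4XXXAux`).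

Conventions: `X` = leaves of `Dbl f g.symm` (NEARLY CONFORMAL, of dimension `u`), `Y` = leaves of
`Dbl f.symm g`, `C` = leaves of `Dbl f g`, `D` = leaves of `Dbl f.symm g.symm`, all of any dimension;
`W^s(f) = C × X`, `W^u(f) = D × Y`, `W^s(g) = C × Y`, `W^u(g) = D × X`. The set `A` is saturated by the
STABLE sets of `f`, and we want that it is saturated by `Y` (so `Sat g A`). `F = f.symm` contracts `Y`
and expands `X`; the proof of hive T6 is carried out for `F` on `L`, which is `M` with a metric for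
which only points in a common small rectangle `X × Y` are close (NOT compact).
-/

set_option autoImplicit false

open Set Filter Function Bundle Metric
open scoped Topology Manifold ContDiff

namespace Pool.Agent.Lib.MP610fe3.HR

open Cf CH
open T6 (Sys Sc Lad Dom HolMap)

universe u v w

/-! ### Definitions -/

section Abstract

variable {L : Type*} [MetricSpace L]

/-- The points of `S` are separated by `F` up to the time `n`, at the scale `η`. -/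
def SepF (F : L ≃ₜ L) (n : ℕ) (η : ℝ) (S : Finset L) : Prop :=
  ∀ p ∈ S, ∀ p' ∈ S, p ≠ p' → ∃ k ≤ n, η < dist (F^[k] p) (F^[k] p')

/-- Every disc in `U` contains more separated points, with a delay `l₀ + ϑ n`, `ϑ` small. -/
def CntP (F : L ≃ₜ L) (C η : ℝ) (U : Set L) : Prop :=
  ∀ ϑ : ℝ, 0 < ϑ → ∃ l₀ : ℝ, ∀ n l : ℕ, l₀ + ϑ * n ≤ l → ∀ w w' : L,
    Wl F.symm (2 * η) w ⊆ U → Wl F.symm η w' ⊆ U → ∀ S : Finset L,
      (∀ p ∈ S, p ∈ Wl F.symm η w) → SepF F n η S →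
      ∃ S' : Finset L, S.card < S'.card ∧ (∀ p ∈ S', p ∈ Wl F.symm η w') ∧
        SepF F (n + l) (4 * C * η) S'

/-- The conclusion of INR, for the times `m ≤ N ≤ θ m + c₀`. -/
def InrP (f : L ≃ₜ L) {u : ℕ} (φ : L → EuclideanSpace ℝ (Fin u) → L) (C a b e ρ η ρ₁ θ c₀ : ℝ)
    (U : Set L) (C₁ : ℝ) : Prop :=
  ∀ (q : ℕ → L) (i m N : ℕ) (w : L) (h : EuclideanSpace ℝ (Fin u) → EuclideanSpace ℝ (Fin u)),
    m ≤ N → (N : ℝ) ≤ θ * m + c₀ → i * (C * Real.exp (-(b * N)) * (2 * e)) ≤ η →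
    Wl f.symm (2 * η) w ⊆ U → HolMap f φ e ρ ρ₁ q i m w h →
    ∀ p, ¬ closedBall p (C₁ * Real.exp (-(a * m))) ⊆ h '' closedBall 0 1

/-- The conclusion of EY, for the times `m ≤ N ≤ θ m + c₀`. -/
def EyP (f : L ≃ₜ L) {u : ℕ} (φ : L → EuclideanSpace ℝ (Fin u) → L) (C a b κ e η ρ₁ θ c₀ : ℝ)
    (U : Set L) (C₁ : ℝ) : Prop :=
  ∀ (q : ℕ → L) (i m N : ℕ) (w : L), m ≤ N → (N : ℝ) ≤ θ * m + c₀ →
    i * (C * Real.exp (-(b * N)) * (2 * e)) ≤ η / (4 * C) → Wl f.symm (2 * η) w ⊆ U →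
    Dom f φ e ρ₁ q i m w →
    ∀ s ∈ closedBall (0 : EuclideanSpace ℝ (Fin u)) (ρ₁ / 2), ∀ t ∈ closedBall 0 (ρ₁ / 2),
    ∀ z z', Lad f e q i (f.symm^[m] (φ w s)) z → Lad f e q i (f.symm^[m] (φ w t)) z' →
      dist z z' ≤ C₁ * (N + 1) ^ (u - 1) *
        Real.exp (u * κ * (N - m) + u * (u - 1 : ℕ) * κ * N - a * m)

end Abstract

section Pairs

variable {M : Type*} [MetricSpace M]

/-- `CntP` for `F = f.symm` and the leaves `X` of `M`. -/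
def CntM (f g : M ≃ₜ M) (C η : ℝ) (U : Set M) : Prop :=
  ∀ ϑ : ℝ, 0 < ϑ → ∃ l₀ : ℝ, ∀ n l : ℕ, l₀ + ϑ * n ≤ l → ∀ w w' : M,
    Lf f g.symm (2 * η) w ⊆ U → Lf f g.symm η w' ⊆ U → ∀ S : Finset M,
      (∀ p ∈ S, p ∈ Lf f g.symm η w) → SepF f.symm n η S →
      ∃ S' : Finset M, S.card < S'.card ∧ (∀ p ∈ S', p ∈ Lf f g.symm η w') ∧
        SepF f.symm (n + l) (4 * C * η) S'

/-- Parametrizations of small pieces of the leaves `X`. -/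
structure ChX (f g : M ≃ₜ M) (u : ℕ) (φ : M → EuclideanSpace ℝ (Fin u) → M)
    (C ρ e₁ : ℝ) : Prop where
  one_le : 1 ≤ C
  ρ_pos : 0 < ρ
  e_pos : 0 < e₁
  zero : ∀ x, φ x 0 = x
  upper : ∀ x, ∀ s ∈ closedBall (0 : EuclideanSpace ℝ (Fin u)) ρ, ∀ t ∈ closedBall 0 ρ,
    dist (φ x s) (φ x t) ≤ C * dist s t
  lower : ∀ x, ∀ s ∈ closedBall (0 : EuclideanSpace ℝ (Fin u)) ρ, ∀ t ∈ closedBall 0 ρ,
    dist s t ≤ C * dist (φ x s) (φ x t)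
  mem : ∀ ε' : ℝ, 0 < ε' → ∃ ρ' : ℝ, 0 < ρ' ∧ ρ' ≤ ρ ∧ ∀ x,
    ∀ s ∈ closedBall (0 : EuclideanSpace ℝ (Fin u)) ρ', φ x s ∈ Lf f g.symm ε' x
  onto : ∀ x, ∀ z ∈ Lf f g.symm e₁ x,
    ∃ s ∈ closedBall (0 : EuclideanSpace ℝ (Fin u)) ρ, φ x s = z

/-- Quasiconformality of the iterates of `f` on the leaves `X`. -/
def Qcl (f g : M ≃ₜ M) (r C κ : ℝ) : Prop :=
  ∀ (n : ℕ) (z : M), ∀ p ∈ Lf f g.symm r z, ∀ q ∈ Lf f g.symm r z, ∀ p' ∈ Lf f g.symm r z,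
    ∀ q' ∈ Lf f g.symm r z, dist (f^[n] p) (f^[n] q) * dist p' q' ≤
      C * Real.exp (κ * n) * dist (f^[n] p') (f^[n] q') * dist p q

/-- The images of small leaves `Y` are crossed by chains of short links. -/
def Chn (f g : M ≃ₜ M) (σ : ℝ) : Prop :=
  ∃ e : ℝ, 0 < e ∧ ∀ r : ℝ, 0 < r → ∃ Λ : ℝ, ∀ (T : ℕ) x, ∀ z ∈ Lf f.symm g e x,
    ∃ (K : ℕ) (q : ℕ → M), (K : ℝ) ≤ Λ * Real.exp (σ * T) ∧ q 0 = f^[T] x ∧
      q K = f^[T] z ∧ ∀ i < K, q (i + 1) ∈ Lf f.symm g r (q i)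

/-- The homeomorphism `h` is in the chamber of `f`; it contracts `C` with the rate `c`, and its
inverse expands `X` with a rate at most `b`. -/
structure Hc (f g h : M ≃ₜ M) (c b : ℝ) : Prop where
  comm : ∀ x, h (f x) = f (h x)
  pair : ∃ ε C l : ℝ, Pair h g ε C l
  loc : ∀ ε' : ℝ, 0 < ε' → ∃ δ : ℝ, 0 < δ ∧ ∀ x y, y ∈ Wl f δ x → y ∈ Wl h ε' x
  asu : ∀ x y, FwdAsymp h.symm x y → FwdAsymp f.symm x y
  c_pos : 0 < c
  b_pos : 0 < b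
  cdc : Cdc h g c
  xgr : Xgr h g b

/-- The elements of `H` which contract `C` much faster than they change `X`. -/
def Hh (f g : M ≃ₜ M) (H : Set (M ≃ₜ M)) : Prop :=
  ∀ ϑ : ℝ, 0 < ϑ → ∃ h ∈ H, ∃ c b : ℝ, Hc f g h c b ∧ b ≤ ϑ * c

/-- The data of the wall lemma: `a` is a lower rate of `f` on `X`, `b` a lower rate of `f.symm` on
`Y`, `σ` the rate of the chains in `Y`, `κ` the defect of conformality of `f` on `X`. -/
structure Wd (f g : M ≃ₜ M) (H : Set (M ≃ₜ M)) (u : ℕ) (φ : M → EuclideanSpace ℝ (Fin u) → M)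
    (κ a b σ : ℝ) : Prop where
  u_pos : 1 ≤ u
  pair : ∃ ε C l : ℝ, Pair f g ε C l
  cup : CUp f g
  cup' : CUp f.symm g.symm
  lip : ∃ K : ℝ, ∀ x y, dist (f x) (f y) ≤ K * dist x y ∧
    dist (f.symm x) (f.symm y) ≤ K * dist x y
  chart : ∃ C ρ e₁ : ℝ, ChX f g u φ C ρ e₁
  κ_nonneg : 0 ≤ κ
  κ_lt : κ < a
  b_pos : 0 < b
  b_le : b ≤ σ
  num : u * κ * (u * σ - b) < a * b
  xdc : Cdc f g.symm a
  ydc : Cdc f.symm g b
  qc : ∀ κ' : ℝ, κ < κ' → ∃ r C : ℝ, 0 < r ∧ Qcl f g r C κ'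
  chn : Chn f g σ
  comm : ∀ h ∈ H, ∀ x, h (f x) = f (h x)
  memf : f ∈ H
  memg : g ∈ H
  hh : Hh f g H

/-- `L` is `M` with another metric, `F` is `f.symm`: the stable sets of `F` are the leaves `Y`, its
unstable sets are the leaves `X`. -/
structure Lfm {L : Type*} [MetricSpace L] (f g : M ≃ₜ M) (ι : L ≃ M) (F : L ≃ₜ L)
    (δ₀ C₀ : ℝ) : Prop where
  pos : 0 < δ₀
  one_le : 1 ≤ C₀
  cont : Continuous ι
  eqf : ∀ x, ι (F x) = f.symm (ι x)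
  st : ∀ ρ ≤ δ₀, ∀ x z, z ∈ Wl F ρ x ↔ ι z ∈ Lf f.symm g ρ (ι x)
  un : ∀ ρ ≤ δ₀, ∀ x z, z ∈ Wl F.symm ρ x ↔ ι z ∈ Lf f g.symm ρ (ι x)
  small : ∀ x y, dist x y < δ₀ → dist x y = dist (ι x) (ι y)
  dst : ∀ x z, ι z ∈ Lf f.symm g δ₀ (ι x) → dist z x = dist (ι z) (ι x)
  dun : ∀ x z, ι z ∈ Lf f g.symm δ₀ (ι x) → dist z x = dist (ι z) (ι x)
  lip : ∀ x y, dist (F x) (F y) ≤ C₀ * dist x y
  br : Br F δ₀ C₀

end Pairs

/-! ### Part 1: the proof of T6 without compactness -/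

/-- HOLL. `T6/Hol.lean`, which does not use compactness. -/
def SpecHoll : Prop :=
  ∀ {L : Type u} [MetricSpace L] (f : L ≃ₜ L) (u : ℕ) (φ : L → EuclideanSpace ℝ (Fin u) → L)
    (C a b κ r r₁ e ρ η ρ₁ : ℝ), Sys f u φ C a b κ r r₁ e ρ → Sc C e ρ η ρ₁ →
    ∀ (q : ℕ → L) (i m : ℕ) (w : L), Dom f φ e ρ₁ q i m w → ∃ h, HolMap f φ e ρ ρ₁ q i m w h

/-- LEVL. `T6/Level.lean`, which does not use compactness. -/
def SpecLevl : Prop :=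
  ∀ {L : Type u} [MetricSpace L] (f : L ≃ₜ L) (u : ℕ) (φ : L → EuclideanSpace ℝ (Fin u) → L)
    (C a b κ r r₁ e ρ η ρ₁ : ℝ), Sys f u φ C a b κ r r₁ e ρ → Sc C e ρ η ρ₁ →
    ∃ c T : ℝ, 0 < c ∧ 0 < T ∧ ∀ (y : L) (d : ℝ), 0 < d → d ≤ ρ₁ →
      ∃ lev : EuclideanSpace ℝ (Fin u) → ℕ,
        (∀ s : ℝ, 0 < s → ∃ J : ℕ, ∀ x ∈ ball (0 : EuclideanSpace ℝ (Fin u)) d,
          s ≤ d - ‖x‖ → lev x ≤ J) ∧
        ∀ x ∈ ball (0 : EuclideanSpace ℝ (Fin u)) d,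
          (∀ z ∈ Wl f.symm (2 * η) (f^[lev x] (φ y x)),
            ∃ x' ∈ ball (0 : EuclideanSpace ℝ (Fin u)) d, φ y x' = f.symm^[lev x] z) ∧
          Real.log (d / (d - ‖x‖)) ≤ T * (lev x + 1) ∧
          ∀ x' ∈ ball (0 : EuclideanSpace ℝ (Fin u)) d,
            dist x' x ≤ c * Real.exp (-(κ * lev x)) * (d - ‖x‖) →
            ∃ s ∈ closedBall (0 : EuclideanSpace ℝ (Fin u)) (ρ₁ / 2),
              φ (f^[lev x] (φ y x)) s = f^[lev x] (φ y x')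

/-- BDL. Maximal separated subsets of subsets of a small unstable set (`InrM.exists_bound`,
`InrM.exists_max` of `T6/Inr.lean`). The bound of the cardinality: all points are `φ w s` with
`s ∈ closedBall 0 (ρ / 2)` (`Sys.onto`), which is compact; distinct points of a separated set have
`dist (f^k p) (f^k p') ≤ C ^ k * dist p p' ≤ C ^ k * (C * dist s s')`. -/
def SpecBdl : Prop :=
  ∀ {L : Type u} [MetricSpace L] (f : L ≃ₜ L) (u : ℕ) (φ : L → EuclideanSpace ℝ (Fin u) → L)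
    (C a b κ r r₁ e ρ : ℝ), Sys f u φ C a b κ r r₁ e ρ → ∀ (w : L) (W : Set L),
    W ⊆ Wl f.symm (4 * e) w → ∀ (n : ℕ) (η : ℝ), 0 < η →
    ∃ S : Finset L, (∀ p ∈ S, p ∈ W) ∧ SepF f n η S ∧
      ∀ g ∈ W, ∃ p ∈ S, ∀ k ≤ n, dist (f^[k] g) (f^[k] p) ≤ η

/-- INRL. `T6/Inr.lean` (`specInr`), with `U` instead of the basin (`hinv`, `hst` instead of
`BasM.inv`, `BasM.stab`; `InrM.lad_basin`), BDL instead of `InrM.exists_max`, `TrM.fwd` (or `SpecTr`)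
and the variable delay: put `ϑ = (a - a') / (a * θ + a)`, `l₀` from `CntP`,
`l = ⌈max l₀ 0 + ϑ * (N - m)⌉₊`; as `N - m ≤ θ m + |c₀|` we get
`a * l ≤ a * (max l₀ 0 + 1 + ϑ * |c₀|) + (a - a') * m`, so `t = C₁ exp (-(a' m))` is at least
`(C ^ 2 * η + ρ) exp (a l - a m)` for `C₁ = (C ^ 2 * η + ρ) exp (a * (max l₀ 0 + 1 + ϑ * |c₀|))`. The
rest of the proof is unchanged (`n = N - m` in `CntP`, `m' = m - l`). -/
def SpecInrl : Prop :=
  ∀ {L : Type u} [MetricSpace L] (f : L ≃ₜ L) (u : ℕ) (φ : L → EuclideanSpace ℝ (Fin u) → L)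
    (C a b κ r r₁ e ρ η ρ₁ : ℝ) (U : Set L), Sys f u φ C a b κ r r₁ e ρ → Sc C e ρ η ρ₁ →
    (∀ x, f x ∈ U ↔ x ∈ U) → (∀ x, ∀ y ∈ Wl f e x, x ∈ U → y ∈ U) → CntP f C η U →
    ∀ a' θ c₀ : ℝ, 0 < a' → a' < a → 0 ≤ θ →
      ∃ C₁ : ℝ, 0 < C₁ ∧ InrP f φ C a' b e ρ η ρ₁ θ c₀ U C₁

/-- EYL. `T6/Ey.lean` (`specEy`), with `InrP` as a hypothesis instead of `SpecInr` (the same `m`, `N`),
HOLL, BDL (`InrM.exists_max`), and `T6.specCells`, `T6.SpecPl`, `TrM`. (The `a` here will be the `a'` of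
INRL: `Sys` holds for smaller `a`.) -/
def SpecEyl : Prop :=
  ∀ {L : Type u} [MetricSpace L] (f : L ≃ₜ L) (u : ℕ) (φ : L → EuclideanSpace ℝ (Fin u) → L)
    (C a b κ r r₁ e ρ η ρ₁ θ c₀ C₁ : ℝ) (U : Set L), Sys f u φ C a b κ r r₁ e ρ →
    Sc C e ρ η ρ₁ → 0 < C₁ → InrP f φ C a b e ρ η ρ₁ θ c₀ U C₁ →
    ∃ C₂ : ℝ, 0 < C₂ ∧ EyP f φ C a b κ e η ρ₁ θ c₀ U C₂

/-- CORL. `T6/Core.lean` (`specCore`), from TR, INRL, EYL, LEVL, WALK. Changes: `U` instead of the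
basin; `a'` with `κ < a' < a`, `u * κ * (u * b₂ - b) < a' * b` (`Sys` for `a'` by monotonicity); START
and PATHS are hypotheses; `CoStage.exists_time` must give in addition `N ≤ θ * m + c₀` with
`θ = b₂ / b` and `c₀` depending only on `b` and `B` (it is `max (log B / b) 0 + 1`), so that the
constants of INRL and EYL for these `θ`, `c₀` can be chosen before `A`; in `stage_bound` use
`(N : ℝ) ≤ θ * m + c₀ ≤ θ * (m + j) + c₀`. At the end `q K ∈ A`, and the sets `CoStage.St f e A K`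
are closed by hypothesis. -/
def SpecCorl : Prop :=
  ∀ {L : Type u} [MetricSpace L] (f : L ≃ₜ L) (u : ℕ) (φ : L → EuclideanSpace ℝ (Fin u) → L)
    (C a b κ r r₁ e ρ b₂ : ℝ) (A U : Set L), Sys f u φ C a b κ r r₁ e ρ →
    (∀ K : ℕ, IsClosed (T6.CoStage.St f e A K)) → (∀ x ∈ A, ∀ z ∈ Wl f.symm e x, z ∈ A) →
    A ⊆ U → (∀ x, f x ∈ U ↔ x ∈ U) → (∀ x, ∀ y ∈ Wl f e x, x ∈ U → y ∈ U) →
    (∀ η : ℝ, 0 < η → 16 * C * η ≤ e → CntP f C η U) →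
    (∀ d₀ : ℝ, 0 < d₀ → ∃ (y : L) (d : ℝ) (x₀ : EuclideanSpace ℝ (Fin u)), 0 < d ∧ d ≤ d₀ ∧
      ‖x₀‖ = d ∧ φ y x₀ ∉ U ∧ ∀ x ∈ ball (0 : EuclideanSpace ℝ (Fin u)) d, φ y x ∈ U) →
    (∀ ε : ℝ, 0 < ε → ∀ y ∈ U, ∃ Λ : ℝ, ∀ m : ℕ, ∃ (K : ℕ) (q : ℕ → L),
      (K : ℝ) ≤ Λ * Real.exp (b₂ * m) ∧ q 0 = f.symm^[m] y ∧ q K ∈ A ∧
      ∀ l < K, q (l + 1) ∈ Wl f ε (q l)) →
    b ≤ b₂ → κ < a → u * κ * (u * b₂ - b) < a * b → False

/-! ### Part 2: the leaf metric -/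

/-- XYC2. Five lines: `CUp f g` gives `q` in the leaf `X` of `z'`, `CUp f.symm g.symm` at
`(z', z, a, q)` gives `q` in the leaf `Y` of `a`. -/
def SpecXycc : Prop :=
  ∀ (M : Type u) [MetricSpace M] [CompactSpace M] (f g : M ≃ₜ M) (ε C l : ℝ), Pair f g ε C l →
    CUp f g → CUp f.symm g.symm → XYc f g

/-- LEAF. Paper A.0. `Rel x y`: there is `z ∈ Lf f g.symm η x` with `y ∈ Lf f.symm g η z` (`η` small).
If `dist x y < δ` then `Rel x y → Rel y x` (the fourth corner is the bracket, by `XYc`) and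
`Rel x y → Rel y w → Rel x w`; by `Br.left`, `Br.right` and `Dec` the middle point is close (of the
order of `dist x y`), so `η` does not change. `L` is a copy of `M` (a structure with one field, or
`M` with a local instance), `dist x y = min (dist x y) δ` if `Rel x y` and `dist x y < δ`, otherwise
`δ` (and `0` if `x = y`, which is included). `δ₀ < δ` small. For `z ∈ Wl F ρ x` (`ρ ≤ δ₀`) let `w` be
the middle point, `w ∈ X(x)`, `z ∈ Y(w)`: then `w ∈ Wl f η x`, `w ∈ Wl f.symm η x` (since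
`z ∈ Wl f.symm ρ x`), so `w = x` by `Br.unique`. `F` maps related close points to related points. -/
def SpecLeaf : Prop :=
  ∀ (M : Type u) [MetricSpace M] [CompactSpace M] (f g : M ≃ₜ M) (ε C l K : ℝ), Pair f g ε C l →
    XYc f g → (∀ x y, dist (f x) (f y) ≤ K * dist x y ∧
      dist (f.symm x) (f.symm y) ≤ K * dist x y) →
    ∃ (L : Type u) (_ : MetricSpace L) (ι : L ≃ M) (F : L ≃ₜ L) (δ₀ C₀ : ℝ),
      Lfm f g ι F δ₀ C₀

/-- SYSL. The structure `T6.Sys` on `L`. First `δ'` of `Cdc f g.symm a`, `Cdc f.symm g b` and PROD,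
third part (small `Lf f g.symm` are in small `Wl g.symm`), then `r ≤ δ₀`, `r ≤ r₂`; `C` larger than all
constants; `step` from `Lfm.br.exist` (`r₁`), `ρ` from `ChX.mem` with `ε' = r / 4`, `e` small:
`z ∈ Wl F.symm (4 e) x` is `φ x s`, `‖s‖ ≤ C₁ * dist z x ≤ ρ / 2`. Distances in small leaves are the
same in `L` and in `M` (`Lfm.dun`, `Lfm.dst`). -/
def SpecSysl : Prop :=
  ∀ (M L : Type u) [MetricSpace M] [CompactSpace M] [MetricSpace L] (f g : M ≃ₜ M)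
    (ε C l : ℝ) (ι : L ≃ M) (F : L ≃ₜ L) (δ₀ C₀ : ℝ) (u : ℕ)
    (φ : M → EuclideanSpace ℝ (Fin u) → M) (C₁ ρ₀ e₁ a b κ r₂ C₂ : ℝ), Pair f g ε C l →
    Lfm f g ι F δ₀ C₀ → 1 ≤ u → ChX f g u φ C₁ ρ₀ e₁ → 0 < a → 0 < b → 0 ≤ κ →
    Cdc f g.symm a → Cdc f.symm g b → 0 < r₂ → Qcl f g r₂ C₂ κ → ∀ e₀ : ℝ, 0 < e₀ →
    ∃ C' r r₁ e ρ : ℝ, e ≤ e₀ ∧ ρ ≤ ρ₀ ∧
      Sys F u (fun x s => ι.symm (φ (ι x) s)) C' a b κ r r₁ e ρ

/-- STC. `T6.CoStage.St F e (ι ⁻¹' A) K` is the preimage of the set of the points of `M` joined to `A`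
by `K` links `Lf f.symm g e`, which is closed (`isClosed_St` with the closed relation of PROD, fifth
part, for `(f.symm, g)`). -/
def SpecStc : Prop :=
  ∀ (M L : Type u) [MetricSpace M] [CompactSpace M] [MetricSpace L] (f g : M ≃ₜ M)
    (ε C l : ℝ) (ι : L ≃ M) (F : L ≃ₜ L) (δ₀ C₀ : ℝ), Pair f g ε C l → Lfm f g ι F δ₀ C₀ →
    ∃ e₁ : ℝ, 0 < e₁ ∧ ∀ e ≤ e₁, ∀ A : Set M, IsClosed A → ∀ K : ℕ,
      IsClosed (T6.CoStage.St F e (ι ⁻¹' A) K)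

/-- CNL. From `M` to `L`. `S` separated in `L`: take the FIRST time `k` with
`η < dist (F^k p) (F^k p')`; at the time `k - 1` the distance is at most `η`, so at the time `k` it is
at most `C₀ η < δ₀`, and it is the distance in `M` (`Lfm.small`). Conversely, if the distance in `M` is
more than `4 C η` and `4 C η < δ₀` then the distance in `L` is more than `4 C η`. -/
def SpecCnl : Prop :=
  ∀ (M L : Type u) [MetricSpace M] [CompactSpace M] [MetricSpace L] (f g : M ≃ₜ M) (ι : L ≃ M)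
    (F : L ≃ₜ L) (δ₀ C₀ : ℝ), Lfm f g ι F δ₀ C₀ →
    ∃ e₁ : ℝ, 0 < e₁ ∧ ∀ (C η : ℝ) (U : Set M), 1 ≤ C → 0 < η → 16 * C * η ≤ e₁ →
      CntM f g C η U → CntP F C η (ι ⁻¹' U)

/-! ### Part 3: counting (paper A.5) -/

/-- EXL. `f.symm` expands small leaves `X` (only `y ∈ Wl f η₀ x` is used). Otherwise
`f^-(n+l₂) p' ∈ Wl f η₀ (f^-(n+l₂) p)`, and `Dec` gives distances at most `C l^l₂ η₀` at the times
`k ≤ n`. -/
def SpecExl : Prop :=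
  ∀ (M : Type u) [MetricSpace M] [CompactSpace M] (f g : M ≃ₜ M) (ε C l : ℝ), Pair f g ε C l →
    ∃ η₀ : ℝ, 0 < η₀ ∧ ∀ η : ℝ, 0 < η → ∃ l₂ : ℕ, ∀ (n : ℕ) (p p' : M), p' ∈ Wl f η₀ p →
      (∃ k ≤ n, η < dist (f.symm^[k] p) (f.symm^[k] p')) →
      ∃ k ≤ n + l₂, η₀ < dist (f.symm^[k] p) (f.symm^[k] p')

/-- SMV. The stable move (paper A.5): the brackets `q₁ ∈ Wl f.symm η' p₁ ∩ Wl f η' q`; `CUp f g` gives
`Dbl f g.symm q₁ q`; `f.symm` keeps `q₁` within `η' ≤ η / 4` of `p₁`. -/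
def SpecSmv : Prop :=
  ∀ (M : Type u) [MetricSpace M] [CompactSpace M] (f g : M ≃ₜ M) (ε C l : ℝ), Pair f g ε C l →
    CUp f g → ∀ η s : ℝ, 0 < η → 0 < s → ∃ δ : ℝ, 0 < δ ∧ ∀ (n : ℕ) (p q : M) (S : Finset M),
      q ∈ Wl f.symm δ p → (∀ x ∈ S, x ∈ Lf f g.symm δ p) → SepF f.symm n η S →
      ∃ S' : Finset M, S'.card = S.card ∧ (∀ x ∈ S', x ∈ Lf f g.symm s q) ∧
        SepF f.symm n (η / 2) S'

/-- CMV. The move along a leaf `C` (paper A.5). `F = f.symm`, `Lip` a Lipschitz constant of `F`, `η₀`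
small. Given `ϑ` take `h` of `Hh` for `ϑ' = ϑ a / (4 log Lip + 4)` or so, `a` the rate of `Pair` for `f`
(`l = exp (-a)`); `p ↦ p' ∈ C(p) ∩ X(w')` by L31 at `p`, `w'`. Let `p₁ ≠ p₂ ∈ S`, `k` the FIRST time
with `dist (F^k p₁) (F^k p₂) > η`. `x = F^k p₁`, `y = F^k p₂`: `y ∈ Wl f (small) x`, so
`dist (h^j x) (h^j y) ≥ c₁ exp (-(b j))` (`Xgr h g b` backwards from `h^j x`, `h^j y`; small pairs in a
leaf `X` for `(f, g)` are in small `Lf h g.symm`: `Hc.loc`, PROD third part for `(f, g.symm)`, PROD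
fourth part for `(h, g.symm)`); `F` expands small leaves `X` with the rate at least `a`: for some
`i ≤ (b j + C) / a` the distance of `F^(k+i) h^j p₁`, `F^(k+i) h^j p₂` is more than `η'`.
`dist (h^j p) (h^j p') ≤ C exp (-(c j))` (`Cdc h g c`), so for
`c j ≥ (n + (b j + C) / a) log Lip + C'` the same holds for `p₁'`, `p₂'` with `η' / 2`. Then some
`F^i p₁'`, `F^i p₂'` with `i ≤ n + (b j + C) / a` are at distance more than `η₂` (otherwise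
`F^(k+i) p₂' ∈ Wl f (small) (F^(k+i) p₁')`, and `h^j` keeps them `η' / 2`-close by `Hc.loc`); EXL. -/
def SpecCmv : Prop :=
  ∀ (M : Type u) [MetricSpace M] [CompactSpace M] (f g : M ≃ₜ M) (H : Set (M ≃ₜ M))
    (ε C l K : ℝ), Pair f g ε C l → (∀ x y, dist (f x) (f y) ≤ K * dist x y ∧
      dist (f.symm x) (f.symm y) ≤ K * dist x y) → Hh f g H →
    ∃ η₀ : ℝ, 0 < η₀ ∧ ∀ ϑ η s : ℝ, 0 < ϑ → 0 < η → 0 < s → ∃ δ l₀ : ℝ, 0 < δ ∧
      ∀ n l : ℕ, l₀ + ϑ * n ≤ l → ∀ (w w' : M) (S : Finset M), w' ∈ Lf f g δ w →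
        (∀ x ∈ S, x ∈ Lf f g.symm δ w) → SepF f.symm n η S →
        ∃ S' : Finset M, S'.card = S.card ∧ (∀ x ∈ S', x ∈ Lf f g.symm s w') ∧
          SepF f.symm (n + l) η₀ S'

/-- MIX. By compactness of `A × A`: for `y`, `a' ∈ A` there is `w` near `a'` with `FwdAsymp f w y`
(`A` is minimal), `f^N w` is very close to `f^N y` for some `N`; for `(y₁, a'₁)` near `(y, a')` take the
brackets at the time `N` and then at `a'₁`: a point `z' ∈ Wl f.symm δ a'₁` with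
`f^m z' ∈ Wl f δ (f^m y₁)` for all `m ≥ N`. Then choose `m` modulo `P`. -/
def SpecMix : Prop :=
  ∀ (M : Type u) [MetricSpace M] [CompactSpace M] (f : M ≃ₜ M) (ε C l : ℝ), Loc f ε C l →
    ∀ (A : Set M) (P : ℕ), Minimal (· ∈ Sset f) A → 0 < P → f^[P] '' A = A →
    ∀ δ : ℝ, 0 < δ → ∃ m₁ : ℕ, ∀ a a' : M, (∃ i : ℕ, a ∈ f^[i] '' A) →
      (∃ i : ℕ, a' ∈ f^[i] '' A) → ∃ m ≤ m₁, ∃ z ∈ Wl f δ a, f.symm^[m] z ∈ Wl f.symm δ a'

/-- CNB. Paper A.5 (B). From MIX, SMV, L31, CMV: `z ∈ Wl f δ₁ a₁`, `f^-m z ∈ Wl f.symm δ₁ a₀`; SMV from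
`a₀` to `f^-m z`; apply `f^m` (the points stay in small `Lf f g.symm` of `z`, separated up to the time
`n + m`); L31 at `z`, `a₁`: `z' ∈ C(z) ∩ X(a₁)`; CMV from `z` to `z'`. -/
def SpecCnb : Prop :=
  ∀ (M : Type u) [MetricSpace M] [CompactSpace M] (f g : M ≃ₜ M) (H : Set (M ≃ₜ M))
    (ε C l K : ℝ) (A A' : Set M) (P : ℕ), Pair f g ε C l → CUp f g →
    (∀ x y, dist (f x) (f y) ≤ K * dist x y ∧ dist (f.symm x) (f.symm y) ≤ K * dist x y) →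
    Hh f g H → Minimal (· ∈ Sset f) A → 0 < P → f^[P] '' A = A →
    (∀ a ∈ A', ∃ i : ℕ, a ∈ f^[i] '' A) →
    ∃ η₀ : ℝ, 0 < η₀ ∧ ∀ ϑ η s : ℝ, 0 < ϑ → 0 < η → 0 < s → ∃ δ l₀ : ℝ, 0 < δ ∧
      ∀ n l : ℕ, l₀ + ϑ * n ≤ l → ∀ a₀ ∈ A', ∀ a₁ ∈ A', ∀ S : Finset M,
        (∀ x ∈ S, x ∈ Lf f g.symm δ a₀) → SepF f.symm n η S →
        ∃ S' : Finset M, S'.card = S.card ∧ (∀ x ∈ S', x ∈ Lf f g.symm s a₁) ∧
          SepF f.symm (n + l) η₀ S'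

/-- PTS. `Q` points of a small leaf `X`, separated in bounded time: `φ a s_i`, `s_i` distinct points
of a small ball, and EXL. -/
def SpecPts : Prop :=
  ∀ (M : Type u) [MetricSpace M] [CompactSpace M] (f g : M ≃ₜ M) (ε C l : ℝ) (u : ℕ)
    (φ : M → EuclideanSpace ℝ (Fin u) → M) (C₁ ρ e₁ : ℝ), Pair f g ε C l → 1 ≤ u →
    ChX f g u φ C₁ ρ e₁ → ∃ η₀ : ℝ, 0 < η₀ ∧ ∀ (Q : ℕ) (s : ℝ), 0 < s → ∃ k₁ : ℕ, ∀ a : M,
      ∃ S : Finset M, S.card = Q ∧ (∀ x ∈ S, x ∈ Lf f g.symm s a) ∧ SepF f.symm k₁ η₀ S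

/-- GRP. Pigeonhole: cover `M` by finitely many sets of small diameter (see `T6/Count.lean`,
`group`). -/
def SpecGrp : Prop :=
  ∀ (M : Type u) [MetricSpace M] [CompactSpace M] (F : M ≃ₜ M) (T : ℕ) (η : ℝ), 0 < η →
    ∃ P₀ : ℕ, ∀ S : Finset M, ∃ G ⊆ S, S.card ≤ P₀ * G.card ∧ ∀ x ∈ G, ∀ y ∈ G, ∀ k ≤ T,
      dist (F^[k] x) (F^[k] y) ≤ η

/-- ENT. Paper A.2. By contradiction, `w_j → w`, `n_j → ∞`. If `w ∉ RB f A`: UC with `e = δ`, then apply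
`f.symm^[n_j - N]` (`Lf f.symm g δ` is mapped into itself, `f '' A = A`). If `w ∈ RB f A`: the bracket
`v_j ∈ Wl f.symm η' w ∩ Wl f η' w_j` is in `RB f A`, L31 at `v_j`, `w_j`: `y_j ∈ C(v_j) ∩ X(w_j)`, in
`Lf f g.symm η w_j`, so in `UY f g A`; UCS: `v_j ∈ UY f g A`, contradiction. -/
def SpecEnt : Prop :=
  ∀ (M : Type u) [MetricSpace M] [CompactSpace M] (f g : M ≃ₜ M) (ε C l : ℝ), Pair f g ε C l →
    ∀ A : Set M, GB f g A → ∀ η δ : ℝ, 0 < η → 0 < δ → ∃ T : ℕ, ∀ w : M,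
      Lf f g.symm η w ⊆ UY f g A → ∀ n : ℕ, T ≤ n → ∃ a ∈ A, a ∈ Lf f.symm g δ (f.symm^[n] w)

/-- CNT. Paper A.5 (A), (C). From ENT, GRP, SMV, CNB, PTS, EXL. Order of the choices: `η`, `ϑ`; the
size `s` of CNB small; `δ`, `l₀` of CNB for `ϑ`, `η / 4`, `s`; `δ₁` of SMV; `T₀` of ENT for `η` and `δ₁`;
`P₀` of GRP for the time `T₀`; `Q = P₀ + 1`, `k₁` of PTS; `l₂` of EXL. If `S` is empty take `{w'}`. The
largest group `G` of `S`: `|S| ≤ P₀ |G|`, for `g₀ ∈ G` (`Lf f g.symm η g₀ ⊆ Lf f g.symm (2 η) w ⊆ U`)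
there is `a₀ ∈ A'` in `Lf f.symm g δ₁ (F^T₀ g₀)`; `F^T₀ G` is in a small `Lf f g.symm` of `F^T₀ g₀`,
separated up to `n` (inside a group the points are separated only after `T₀`); SMV to `a₀`.
`a₁ ∈ A'` in `Lf f.symm g δ₁ (F^T₀ w')`; the points `x_i` of PTS in `X(a₁)`; CNB from `a₀` to
`F^k₁ x_i ∈ A'` gives `G_i`; the union of the `f^k₁ G_i` has `Q |G| > |S|` points; SMV from `a₁` to
`F^T₀ w'`; apply `f^T₀`; EXL. -/
def SpecCnt : Prop :=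
  ∀ (M : Type u) [MetricSpace M] [CompactSpace M] (f g : M ≃ₜ M) (H : Set (M ≃ₜ M))
    (ε C l K : ℝ) (u : ℕ) (φ : M → EuclideanSpace ℝ (Fin u) → M) (C₁ ρ e₁ : ℝ) (A A' : Set M)
    (P : ℕ), Pair f g ε C l → CUp f g →
    (∀ x y, dist (f x) (f y) ≤ K * dist x y ∧ dist (f.symm x) (f.symm y) ≤ K * dist x y) →
    Hh f g H → 1 ≤ u → ChX f g u φ C₁ ρ e₁ → Minimal (· ∈ Sset f) A → 0 < P →
    f^[P] '' A = A → (∀ a ∈ A', ∃ i : ℕ, a ∈ f^[i] '' A) → GB f g A' →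
    ∃ e₂ : ℝ, 0 < e₂ ∧ ∀ C' η : ℝ, 1 ≤ C' → 0 < η → 16 * C' * η ≤ e₂ →
      CntM f g C' η (UY f g A')

/-! ### Part 4: start, chains, assembly -/

/-- GBX. GBEX with the information on the set `A'` (the union of the `f^i A`). From the proof of
GAEX, F2GBEX. -/
def SpecGbx : Prop :=
  ∀ (M : Type u) [MetricSpace M] [CompactSpace M] (f g : M ≃ₜ M) (ε C l : ℝ), Pair f g ε C l →
    ∀ A : Set M, Minimal (· ∈ Sset f) A → ∃ (A' : Set M) (P : ℕ), 0 < P ∧ f^[P] '' A = A ∧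
      GB f g A' ∧ A ⊆ A' ∧ (∀ a ∈ A', ∃ i : ℕ, a ∈ f^[i] '' A) ∧
      ∀ p ∈ A, p ∈ periodicPts f → ∀ y, Dbl f.symm g p y → y ∈ A' → y ∈ A

/-- STX. Paper A.3. From UOP, UCL, BAS (`RB f A` is closed), PROD. `y ∈ UY`, by `s2`, `s3` there is
`r ∈ RB f A` with `Dbl f g.symm y r`; apply `f^N`: `r = φ y s*`. `t*` the supremum of the `t ∈ [0, 1]`
with `φ y ([0, t] s*) ⊆ UY`; `φ y (t* s*) ∈ RB`. `y₀ = φ y (t s*)`, `t < t*` close to `t*`. `x₀` a point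
of minimal norm of the compact set of the `s ∈ closedBall 0 d₀` with `φ y₀ s ∈ RB f A`. -/
def SpecStx : Prop :=
  ∀ (M : Type u) [MetricSpace M] [CompactSpace M] (f g : M ≃ₜ M) (ε C l : ℝ) (u : ℕ)
    (φ : M → EuclideanSpace ℝ (Fin u) → M) (C₁ ρ e₁ : ℝ) (A : Set M), Pair f g ε C l →
    XYc f g → ChX f g u φ C₁ ρ e₁ → GB f g A → ∀ p ∈ A, ∀ y, Dbl f.symm g p y → y ∉ A →
    ∀ d₀ : ℝ, 0 < d₀ → ∃ (y₀ : M) (d : ℝ) (x₀ : EuclideanSpace ℝ (Fin u)), 0 < d ∧ d ≤ d₀ ∧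
      ‖x₀‖ = d ∧ φ y₀ x₀ ∉ UY f g A ∧
      ∀ x ∈ ball (0 : EuclideanSpace ℝ (Fin u)) d, φ y₀ x ∈ UY f g A

/-- PTH. Paper A.4. `Dbl f.symm g y a`, `a ∈ A`; for some `N`, `f^-N a ∈ Lf f.symm g e (f^-N y)`; the
chain of `Chn` with `T = m + N`. -/
def SpecPth : Prop :=
  ∀ (M : Type u) [MetricSpace M] [CompactSpace M] (f g : M ≃ₜ M) (ε C l σ : ℝ) (A : Set M),
    Pair f g ε C l → Chn f g σ → 0 ≤ σ → f '' A = A → ∀ y ∈ UY f g A, ∀ r : ℝ, 0 < r →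
    ∃ Λ : ℝ, ∀ m : ℕ, ∃ (K : ℕ) (q : ℕ → M), (K : ℝ) ≤ Λ * Real.exp (σ * m) ∧
      q 0 = f^[m] y ∧ q K ∈ A ∧ ∀ i < K, q (i + 1) ∈ Lf f.symm g r (q i)

/-- WALQ. **Part A.** From XYC2, GBX, LEAF, SYSL, STC, CNT, CNL, STX, PTH, CORL, PERX (for
`(f.symm, g.symm)`). Let `A'` be the set of GBX, `p ∈ A` periodic, `Dbl f.symm g p y`, `y ∉ A`, so
`y ∉ A'`. Choose `κ' > κ` with the strict inequalities `κ_lt`, `num` for `κ'`; `U = UY f g A'`; CORL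
with `b₂ = σ`. -/
def SpecWalq : Prop :=
  ∀ (M : Type u) [MetricSpace M] [CompactSpace M] (f g : M ≃ₜ M) (H : Set (M ≃ₜ M)) (u : ℕ)
    (φ : M → EuclideanSpace ℝ (Fin u) → M) (κ a b σ : ℝ), Wd f g H u φ κ a b σ →
    ∀ A : Set M, Minimal (· ∈ Sset f) A → Sat g A

/-- TRV. The case of trivial leaves `X` (`u = 0`). First part: `A'` of GBEX; if `Dbl f.symm g p y`,
`y ∉ A'`, then by `s2`, `s3` there is `r` with `Dbl f g.symm y r`, so `r = y`, not backward asymptotic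
to `A'`: contradiction; PERX. Second part: PROD, first part, for `(g.symm, f.symm)`. -/
def SpecTrv : Prop :=
  ∀ (M : Type u) [MetricSpace M] [CompactSpace M] (f g : M ≃ₜ M) (ε C l : ℝ), Pair f g ε C l →
    (∀ x y, Dbl f g.symm x y → x = y) → (∀ A : Set M, Minimal (· ∈ Sset f) A → Sat g A) ∧
      ∀ A : Set M, Sat f.symm A → Sat g.symm A

/-! ### Part 5: the other side (paper, Part B) -/

/-- REL. Paper, Part B, on the space `N` itself. `P` = the points which are forward asymptotic under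
`f` to a point of a minimal `Λ`: open (BAS, `minimal_inv`), `Sat f`, `Sat g` (PROD), `h '' P = P`. If `A`
does not meet `P` then the complement of `P` is everything, but minimal `Λ` exist (`Zorn`, see `CH`). So
`A` meets some basin of `Λ`, then `A` meets `Λ`, and `A = Λ` (BAS, MIN, for `f` and `f.symm`); `A` is
`Sat f.symm`, so saturated by `Y`, and `Sat g A` by PROD, first part. -/
def SpecRel : Prop :=
  ∀ (M : Type u) [MetricSpace M] [CompactSpace M] (f g : M ≃ₜ M) (ε C l : ℝ)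
    (H : Set (M ≃ₜ M)) (A : Set M), Pair f g ε C l → (∀ h ∈ H, ∀ x, h (f x) = f (h x)) →
    (∀ Λ : Set M, Minimal (· ∈ Sset f.symm) Λ → Sat g.symm Λ) → Minimal (· ∈ Sset f) A →
    (∀ N : Set M, IsClosed N → A ⊆ N → Sat f N → Sat g N → (∀ h ∈ H, h '' N = N) →
      N = univ) → Sat g A

/-- RSW. The data restrict to closed invariant sets saturated by the unstable sets of `f` and `g`
(`F4RES.lean`): the charts, the chains and the points `h` stay in `N`. -/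
def SpecRsw : Prop :=
  ∀ (M : Type u) [MetricSpace M] [CompactSpace M] (f g : M ≃ₜ M) (H : Set (M ≃ₜ M)) (u : ℕ)
    (φ : M → EuclideanSpace ℝ (Fin u) → M) (κ a b σ : ℝ) (W : Wd f g H u φ κ a b σ)
    (N : Set M), IsClosed N → Sat f.symm N → Sat g.symm N →
    ∀ hN : ∀ h ∈ H, ∀ x, x ∈ N ↔ h x ∈ N, ∃ φ' : N → EuclideanSpace ℝ (Fin u) → N,
      Wd (rsH f N (hN f W.memf)) (rsH g N (hN g W.memg))
        {h' | ∃ (h : M ≃ₜ M) (hh : h ∈ H), h' = rsH h N (hN h hh)} u φ' κ a b σ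

/-- WALB. **Part B.** From WALQ, REL, RSW: `N` is the smallest closed set which contains `A`, is
saturated by the stable sets of `f` and of `g`, and is mapped onto itself by all `h ∈ H`; RSW for
`(f.symm, g.symm)` and WALQ on `N` give the hypothesis on `Λ` of REL. -/
def SpecWalb : Prop :=
  ∀ (M : Type u) [MetricSpace M] [CompactSpace M] (f g : M ≃ₜ M) (H : Set (M ≃ₜ M)) (u : ℕ)
    (φ : M → EuclideanSpace ℝ (Fin u) → M) (κ a b σ : ℝ),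
    Wd f.symm g.symm H u φ κ a b σ → ∀ A : Set M, Minimal (· ∈ Sset f) A → Sat g A

end Pool.Agent.Lib.MP610fe3.HR
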