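import Pool.Agent.Lib.MP_610fe3_an.T6.Tr
import Pool.Agent.Lib.MP_610fe3_an.T6.Walk
import Pool.Agent.Lib.MP_610fe3_an.HR.F4Spec

/-!
# Module CORL (hive F4): the abstract theorem without compactness

The proof of `T6/Core.lean` with a set `U` instead of the basin, with START and PATHS as hypotheses,
and with a rate `a'` a little smaller than `a`.
-/

set_option autoImplicit false

open Set Filter Function Metric
open scoped Topology

namespace Pool.Agent.Lib.MP610fe3.HR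

open Cf CH
open T6 (Sys Sc Lad Dom HolMap)

universe u v w

namespace F4CORLAux

section Time

/-- The bound of the displacement tends to zero. -/
theorem exists_time {u : ℕ} {a b b₂ κ : ℝ} (hu : 1 ≤ u) (hb : 0 < b) (hb₂ : b ≤ b₂)
    (hκ : 0 ≤ κ) (h : u * κ * (u * b₂ - b) < a * b) {A B δ : ℝ} (hA : 0 < A) (hB : 0 < B)
    (hδ : 0 < δ) : ∃ m₀ : ℕ, ∀ m ≥ m₀, ∃ N : ℕ, m ≤ N ∧
      (N : ℝ) ≤ b₂ / b * m + (max (Real.log B / b) 0 + 1) ∧
      B * Real.exp (b₂ * m) * Real.exp (-(b * N)) ≤ 1 ∧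
      A * ((N + 1) ^ (u - 1) *
        Real.exp (u * κ * (N - m) + u * (u - 1 : ℕ) * κ * N - a * m)) ≤ δ := by
  set θ : ℝ := b₂ / b with hθ
  have hθ1 : 1 ≤ θ := by rw [hθ, one_le_div hb]; exact hb₂
  set c₀ : ℝ := max (Real.log B / b) 0 with hc₀
  have hc₀0 : 0 ≤ c₀ := le_max_right _ _
  have hcast : ((u - 1 : ℕ) : ℝ) = (u : ℝ) - 1 := by
    rw [Nat.cast_sub hu, Nat.cast_one]
  have hu0 : (1 : ℝ) ≤ u := by exact_mod_cast hu
  -- the exponent
  set σ : ℝ := a - (u * κ * (θ - 1) + u * (u - 1) * κ * θ) with hσ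
  have hσ0 : 0 < σ := by
    have h1 : b * σ = a * b - u * κ * (u * b₂ - b) := by
      rw [hσ, hθ]
      field_simp
      ring
    have h2 : 0 < b * σ := by rw [h1]; linarith
    exact (pos_iff_pos_of_mul_pos h2).1 hb
  -- the constant
  set E₀ : ℝ := u * κ * (c₀ + 1) + u * (u - 1) * κ * (c₀ + 1) with hE₀
  have key : Tendsto (fun m : ℕ => A * ((θ * m + (c₀ + 2)) ^ (u - 1) * Real.exp (E₀ - σ * m)))
      atTop (𝓝 0) := by
    have h1 : Tendsto (fun x : ℝ => x ^ (u - 1) * Real.exp (-x)) atTop (𝓝 0) :=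
      Real.tendsto_pow_mul_exp_neg_atTop_nhds_zero (u - 1)
    -- compare with a polynomial times an exponential
    have h2 : Tendsto (fun m : ℕ => σ * (m : ℝ)) atTop atTop :=
      Tendsto.const_mul_atTop hσ0 tendsto_natCast_atTop_atTop
    have h3 := (h1.comp h2)
    have h4 : Tendsto (fun m : ℕ => Real.exp (-(σ * m))) atTop (𝓝 0) :=
      Real.tendsto_exp_neg_atTop_nhds_zero.comp h2
    -- bound
    set P : ℝ := θ / σ + (c₀ + 2) with hP
    have hP0 : 0 ≤ P := by positivity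
    have h5 : ∀ m : ℕ, A * ((θ * m + (c₀ + 2)) ^ (u - 1) * Real.exp (E₀ - σ * m)) ≤
        A * (P ^ (u - 1) * Real.exp E₀) *
          (((σ * m) ^ (u - 1) * Real.exp (-(σ * m)) + Real.exp (-(σ * m)))) := by
      intro m
      have hσm : 0 ≤ σ * m := by positivity
      have e1 : θ * m + (c₀ + 2) ≤ P * max (σ * m) 1 := by
        have i1 : θ * m = θ / σ * (σ * m) := by field_simp
        rw [i1, hP, add_mul]
        have i2 : θ / σ * (σ * m) ≤ θ / σ * max (σ * m) 1 := by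
          gcongr
          exact le_max_left _ _
        have i3 : c₀ + 2 ≤ (c₀ + 2) * max (σ * m) 1 :=
          le_mul_of_one_le_right (by positivity) (le_max_right _ _)
        linarith
      have e2 : (θ * m + (c₀ + 2)) ^ (u - 1) ≤ P ^ (u - 1) * max (σ * m) 1 ^ (u - 1) := by
        rw [← mul_pow]
        gcongr
      have e3 : max (σ * m) 1 ^ (u - 1) ≤ (σ * m) ^ (u - 1) + 1 := by
        rcases le_total (σ * m) 1 with h | h
        · rw [max_eq_right h, one_pow]
          have : 0 ≤ (σ * m) ^ (u - 1) := pow_nonneg hσm _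
          linarith
        · rw [max_eq_left h]
          linarith
      have e4 : Real.exp (E₀ - σ * m) = Real.exp E₀ * Real.exp (-(σ * m)) := by
        rw [← Real.exp_add]
        ring_nf
      rw [e4]
      have e5 : 0 < Real.exp E₀ := Real.exp_pos _
      have e6 : 0 < Real.exp (-(σ * m)) := Real.exp_pos _
      calc A * ((θ * m + (c₀ + 2)) ^ (u - 1) * (Real.exp E₀ * Real.exp (-(σ * m))))
          ≤ A * ((P ^ (u - 1) * ((σ * m) ^ (u - 1) + 1)) *
              (Real.exp E₀ * Real.exp (-(σ * m)))) := by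
            have : (θ * m + (c₀ + 2)) ^ (u - 1) ≤ P ^ (u - 1) * ((σ * m) ^ (u - 1) + 1) :=
              e2.trans (by gcongr)
            gcongr
        _ = _ := by ring
    refine squeeze_zero (fun m => by positivity) h5 ?_
    have h6 := (h3.add h4).const_mul (A * (P ^ (u - 1) * Real.exp E₀))
    simpa using h6
  obtain ⟨m₀, hm₀⟩ := eventually_atTop.1 (key.eventually (ge_mem_nhds hδ))
  refine ⟨m₀, fun m hm => ?_⟩
  set N : ℕ := ⌈θ * m + c₀⌉₊ with hN
  have hN1 : θ * m + c₀ ≤ N := Nat.le_ceil _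
  have hN2 : (N : ℝ) < θ * m + c₀ + 1 := Nat.ceil_lt_add_one (by positivity)
  have hmN : m ≤ N := by
    have : (m : ℝ) ≤ N := by
      have : (m : ℝ) ≤ θ * m := le_mul_of_one_le_left (by positivity) hθ1
      linarith
    exact_mod_cast this
  refine ⟨N, hmN, by linarith, ?_, ?_⟩
  · have h1 : B ≤ Real.exp (b * c₀) := by
      have : Real.log B ≤ b * c₀ := by
        have h2 : Real.log B / b ≤ c₀ := le_max_left _ _
        rw [div_le_iff₀ hb] at h2
        linarith
      calc B = Real.exp (Real.log B) := (Real.exp_log hB).symm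
        _ ≤ _ := Real.exp_le_exp.2 this
    calc B * Real.exp (b₂ * m) * Real.exp (-(b * N))
        ≤ Real.exp (b * c₀) * Real.exp (b₂ * m) * Real.exp (-(b * N)) := by gcongr
      _ = Real.exp (b * c₀ + b₂ * m - b * N) := by
          rw [← Real.exp_add, ← Real.exp_add]
          ring_nf
      _ ≤ 1 := by
          rw [Real.exp_le_one_iff]
          have h3 : b * (θ * m + c₀) ≤ b * N := by gcongr
          have h4 : b * θ = b₂ := by rw [hθ]; field_simp
          nlinarith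
  · refine le_trans ?_ (hm₀ m hm)
    have h1 : (N : ℝ) + 1 ≤ θ * m + (c₀ + 2) := by linarith
    have h2 : (u : ℝ) * κ * (N - m) + u * (u - 1 : ℕ) * κ * N - a * m ≤ E₀ - σ * m := by
      rw [hcast, hE₀, hσ]
      have i1 : (u : ℝ) * κ * (N - m) ≤ u * κ * ((θ * m + c₀ + 1) - m) := by
        have : 0 ≤ (u : ℝ) * κ := by positivity
        gcongr
      have i2 : (u : ℝ) * (u - 1) * κ * N ≤ u * (u - 1) * κ * (θ * m + c₀ + 1) := by
        have : 0 ≤ (u : ℝ) * (u - 1) * κ := by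
          have : (0 : ℝ) ≤ u - 1 := by linarith
          positivity
        gcongr
      nlinarith
    gcongr

end Time

section Stage

variable {M : Type v} [MetricSpace M] {f : M ≃ₜ M} {u : ℕ}
  {φ : M → EuclideanSpace ℝ (Fin u) → M} {C a b κ r r₁ e ρ η ρ₁ θ c₀ : ℝ} {U : Set M}

theorem symm_iter (hinv : ∀ x, f x ∈ U ↔ x ∈ U) (n : ℕ) : ∀ x, f.symm^[n] x ∈ U ↔ x ∈ U := by
  induction n with
  | zero => intro x; rfl
  | succ n ih =>
    intro x
    rw [iterate_succ_apply, ih, ← hinv, f.apply_symm_apply]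

/-- The rate `a` can be made smaller. -/
theorem sys_mono (S : Sys f u φ C a b κ r r₁ e ρ) {a' : ℝ} (h0 : 0 < a') (h : a' ≤ a) :
    Sys f u φ C a' b κ r r₁ e ρ :=
  { S with
    a_pos := h0
    bwd := S.bwd.mono S.r_pos le_rfl le_rfl (Real.exp_le_exp.2 (by linarith))
      (by rw [Real.exp_lt_one_iff]; linarith) }

/-- The displacement at one stage. -/
theorem stage_bound (hTr : T6.SpecTr.{v}) (S : Sys f u φ C a b κ r r₁ e ρ) (hc : Sc C e ρ η ρ₁)
    {C₁ Cw c T d : ℝ} {y : M} {lev : EuclideanSpace ℝ (Fin u) → ℕ} (hC₁ : 0 < C₁)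
    (hθ : 0 ≤ θ) (hey : EyP f φ C a b κ e η ρ₁ θ c₀ U C₁)
    (hw : ∀ (G : ℝ → M) (lev : ℝ → ℕ) (Y E : ℝ) (J : ℕ), 0 ≤ Y → 0 ≤ E →
      (∀ t ∈ Icc (0 : ℝ) Y, lev t ≤ J) → (∀ t ∈ Icc (0 : ℝ) Y, t ≤ T * (lev t + 1)) →
      (∀ t ∈ Icc (0 : ℝ) Y, ∀ t' ∈ Icc (0 : ℝ) Y, t ≤ t' → t' - t ≤ c * Real.exp (-(κ * lev t)) →
        dist (G t') (G t) ≤ E * Real.exp (-(a * lev t))) →
      dist (G Y) (G 0) ≤ Cw * E)
    (hd : 0 < d) (hbas : ∀ x ∈ ball (0 : EuclideanSpace ℝ (Fin u)) d, φ y x ∈ U)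
    (hinv : ∀ x, f x ∈ U ↔ x ∈ U)
    (hJ : ∀ s : ℝ, 0 < s → ∃ J : ℕ, ∀ x ∈ ball (0 : EuclideanSpace ℝ (Fin u)) d,
          s ≤ d - ‖x‖ → lev x ≤ J)
    (hlev : ∀ x ∈ ball (0 : EuclideanSpace ℝ (Fin u)) d,
          (∀ z ∈ Wl f.symm (2 * η) (f^[lev x] (φ y x)),
            ∃ x' ∈ ball (0 : EuclideanSpace ℝ (Fin u)) d, φ y x' = f.symm^[lev x] z) ∧
          Real.log (d / (d - ‖x‖)) ≤ T * (lev x + 1) ∧
          ∀ x' ∈ ball (0 : EuclideanSpace ℝ (Fin u)) d,
            dist x' x ≤ c * Real.exp (-(κ * lev x)) * (d - ‖x‖) →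
            ∃ s ∈ closedBall (0 : EuclideanSpace ℝ (Fin u)) (ρ₁ / 2),
              φ (f^[lev x] (φ y x)) s = f^[lev x] (φ y x'))
    {q : ℕ → M} {i m N : ℕ} (hmN : m ≤ N) (hNθ : (N : ℝ) ≤ θ * m + c₀)
    (hN : i * (C * Real.exp (-(b * N)) * (2 * e)) ≤ η / (4 * C))
    (hq0 : q 0 = f.symm^[m] y) (hq : ∀ k < i, q (k + 1) ∈ Wl f e (q k))
    (hdom : ∀ x ∈ ball (0 : EuclideanSpace ℝ (Fin u)) d, ∃ z', Lad f e q i (f.symm^[m] (φ y x)) z')
    {x : EuclideanSpace ℝ (Fin u)} (hx : x ∈ ball (0 : EuclideanSpace ℝ (Fin u)) d) {z' : M}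
    (hz' : Lad f e q i (f.symm^[m] (φ y x)) z') :
    dist z' (q i) ≤ Cw * (max C₁ (4 * C ^ 2 * η) * ((N + 1) ^ (u - 1) *
      Real.exp (u * κ * (N - m) + u * (u - 1 : ℕ) * κ * N - a * m))) := by
  classical
  have he := S.e_pos
  have hη := hc.η_pos
  have hC := S.C1
  have hC0 : 0 < C := by linarith
  obtain ⟨huniq, -, -⟩ := hTr f u φ C a b κ r r₁ e ρ S q i
  have huniq' : ∀ {z z' z''}, Lad f e q i z z' → Lad f e q i z z'' → z' = z'' :=
    fun h h' => huniq _ _ _ (h.mono (by linarith)) (h'.mono (by linarith))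
  have hη' : η / (4 * C) ≤ η := div_le_self hη.le (by linarith)
  set E : ℝ := max C₁ (4 * C ^ 2 * η) * ((N + 1) ^ (u - 1) *
      Real.exp (u * κ * (N - m) + u * (u - 1 : ℕ) * κ * N - a * m)) with hE
  have hmax : 0 < max C₁ (4 * C ^ 2 * η) := lt_max_of_lt_left hC₁
  have hE0 : 0 < E := by positivity
  have hκ := S.κ_nonneg
  -- the stage map
  have : Nonempty M := ⟨y⟩
  choose! H hH using hdom
  have hself : Lad f e q i (f.symm^[m] y) (q i) :=
    ⟨q, hq0, rfl, hq, fun k _ => mem_Wl_self he.le⟩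
  have h0 : (0 : EuclideanSpace ℝ (Fin u)) ∈ ball (0 : EuclideanSpace ℝ (Fin u)) d :=
    mem_ball_self hd
  have hH0 : H 0 = q i := by
    have h1 := hH 0 h0
    rw [S.zero] at h1
    exact huniq' h1 hself
  have hHx : H x = z' := huniq' (hH x hx) hz'
  rw [← hHx, ← hH0]
  -- the local displacement
  have hloc : ∀ x₁ ∈ ball (0 : EuclideanSpace ℝ (Fin u)) d,
      ∀ x₂ ∈ ball (0 : EuclideanSpace ℝ (Fin u)) d,
      dist x₂ x₁ ≤ c * Real.exp (-(κ * lev x₁)) * (d - ‖x₁‖) →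
      dist (H x₂) (H x₁) ≤ E * Real.exp (-(a * lev x₁)) := by
    intro x₁ hx₁ x₂ hx₂ h12
    obtain ⟨hl1, -, hl3⟩ := hlev x₁ hx₁
    obtain ⟨s, hs, hφs⟩ := hl3 x₂ hx₂ h12
    set j : ℕ := lev x₁ with hj
    set w : M := f^[j] (φ y x₁) with hwdef
    have hpull : ∀ z : M, f.symm^[m + j] z = f.symm^[m] (f.symm^[j] z) := fun z => by
      rw [iterate_add_apply]
    have e2 : f.symm^[m + j] (φ w s) = f.symm^[m] (φ y x₂) := by
      rw [hφs, hpull, Cf.symm_iterate_iterate]
    have e1 : f.symm^[m + j] (φ w 0) = f.symm^[m] (φ y x₁) := by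
      rw [S.zero, hwdef, hpull, Cf.symm_iterate_iterate]
    have hL1 : Lad f e q i (f.symm^[m + j] (φ w 0)) (H x₁) := by rw [e1]; exact hH x₁ hx₁
    have hL2 : Lad f e q i (f.symm^[m + j] (φ w s)) (H x₂) := by rw [e2]; exact hH x₂ hx₂
    have hexp : (0 : ℝ) < Real.exp (-(a * j)) := Real.exp_pos _
    have hone : (1 : ℝ) ≤ (N + 1) ^ (u - 1) := one_le_pow₀ (by
      have : (0 : ℝ) ≤ N := by positivity
      linarith)
    have hNm : (0 : ℝ) ≤ N - m := by
      have : (m : ℝ) ≤ N := by exact_mod_cast hmN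
      linarith
    rcases le_or_gt (m + j) N with hmj | hmj
    · -- the key estimate
      have hfree : Wl f.symm (2 * η) w ⊆ U := by
        intro z hz
        obtain ⟨x', hx', hzx⟩ := hl1 z hz
        have h1 := hbas x' hx'
        rw [hzx] at h1
        exact (symm_iter hinv j z).1 h1
      have hD : Dom f φ e ρ₁ q i (m + j) w := by
        intro s' hs'
        have h1 := hc.disc S w hs'
        obtain ⟨x', hx', hzx⟩ := hl1 (φ w s') (Wl_mono (by linarith) h1)
        refine ⟨H x', ?_⟩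
        rw [hpull, ← hzx]
        exact hH x' hx'
      have hρ₁ := hc.ρ₁_pos
      have hNθ' : (N : ℝ) ≤ θ * (m + j : ℕ) + c₀ := by
        push_cast
        have : 0 ≤ θ * (j : ℝ) := by positivity
        linarith
      have h1 := hey q i (m + j) N w hmj hNθ' hN hfree hD s hs 0 (mem_closedBall_self (by positivity))
        _ _ hL2 hL1
      refine h1.trans ?_
      have h2 : Real.exp (u * κ * (N - (m + j : ℕ)) + u * (u - 1 : ℕ) * κ * N - a * (m + j : ℕ)) ≤
          Real.exp (u * κ * (N - m) + u * (u - 1 : ℕ) * κ * N - a * m) *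
            Real.exp (-(a * j)) := by
        rw [← Real.exp_add, Real.exp_le_exp]
        push_cast
        have : 0 ≤ (u : ℝ) * κ * j := by positivity
        nlinarith
      rw [hE]
      calc C₁ * (N + 1) ^ (u - 1) *
            Real.exp (u * κ * (N - (m + j : ℕ)) + u * (u - 1 : ℕ) * κ * N - a * (m + j : ℕ))
          ≤ max C₁ (4 * C ^ 2 * η) * (N + 1) ^ (u - 1) *
            (Real.exp (u * κ * (N - m) + u * (u - 1 : ℕ) * κ * N - a * m) *
              Real.exp (-(a * j))) := by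
            have := le_max_left C₁ (4 * C ^ 2 * η)
            gcongr
        _ = _ := by ring
    · -- after the time `N`
      have hN' : i * (C * Real.exp (-(b * (m + j : ℕ))) * (2 * e)) ≤ η := by
        refine le_trans ?_ (hN.trans hη')
        have h1 : Real.exp (-(b * (m + j : ℕ))) ≤ Real.exp (-(b * N)) := by
          rw [Real.exp_le_exp]
          have h2 : (N : ℝ) ≤ (m + j : ℕ) := by exact_mod_cast hmj.le
          have := S.b_pos
          nlinarith
        gcongr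
      have hρ₁ := hc.ρ₁_pos
      have hs' : s ∈ closedBall (0 : EuclideanSpace ℝ (Fin u)) ρ₁ :=
        closedBall_subset_closedBall (by linarith) hs
      have h1 := T6.CoStage.far_bound hTr S hc hN' (w := φ w 0) (w' := φ w s)
        (by rw [S.zero]; exact hc.disc S w hs') hL1 hL2
      refine h1.trans ?_
      have h2 : Real.exp (-(a * (m + j : ℕ))) ≤
          Real.exp (u * κ * (N - m) + u * (u - 1 : ℕ) * κ * N - a * m) *
            Real.exp (-(a * j)) := by
        rw [← Real.exp_add, Real.exp_le_exp]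
        push_cast
        have i1 : 0 ≤ (u : ℝ) * κ * (N - m) := by positivity
        have i2 : 0 ≤ (u : ℝ) * (u - 1 : ℕ) * κ * N := by positivity
        nlinarith
      rw [hE]
      calc 4 * C ^ 2 * η * Real.exp (-(a * (m + j : ℕ)))
          ≤ max C₁ (4 * C ^ 2 * η) * (Real.exp (u * κ * (N - m) + u * (u - 1 : ℕ) * κ * N - a * m) *
              Real.exp (-(a * j))) := by
            have := le_max_right C₁ (4 * C ^ 2 * η)
            gcongr
        _ ≤ max C₁ (4 * C ^ 2 * η) * ((N + 1) ^ (u - 1) *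
              (Real.exp (u * κ * (N - m) + u * (u - 1 : ℕ) * κ * N - a * m) *
              Real.exp (-(a * j)))) := by
            have i1 : 0 ≤ Real.exp (u * κ * (N - m) + u * (u - 1 : ℕ) * κ * N - a * m) *
              Real.exp (-(a * j)) := by positivity
            have := le_mul_of_one_le_left i1 hone
            gcongr
        _ = _ := by ring
  -- the path
  rcases eq_or_ne x 0 with rfl | hx0
  · rw [dist_self]
    have h1 := hw (fun _ => q i) (fun _ => 0) 0 E 0 le_rfl hE0.le (fun _ _ => le_rfl)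
      (fun t ht => by
        have h2 := (hlev 0 h0).2.1
        have h3 : t = 0 := le_antisymm ht.2 ht.1
        rw [h3]
        rw [norm_zero, sub_zero, div_self hd.ne', Real.log_one] at h2
        have h4 : (0 : ℝ) < lev 0 + 1 := by positivity
        have h5 : 0 ≤ T := nonneg_of_mul_nonneg_left h2 h4
        positivity)
      (fun t _ t' _ _ _ => by
        rw [dist_self]
        positivity)
    rwa [dist_self] at h1
  have hxn : 0 < ‖x‖ := norm_pos_iff.2 hx0
  have hxd : ‖x‖ < d := by rwa [mem_ball_zero_iff] at hx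
  set v : EuclideanSpace ℝ (Fin u) := ‖x‖⁻¹ • x with hv
  have hv1 : ‖v‖ = 1 := by
    rw [hv, norm_smul, norm_inv, norm_norm, inv_mul_cancel₀ hxn.ne']
  set X : ℝ → EuclideanSpace ℝ (Fin u) := fun t => (d * (1 - Real.exp (-t))) • v with hX
  have hnorm : ∀ t, 0 ≤ t → ‖X t‖ = d * (1 - Real.exp (-t)) := fun t ht => T6.CoStage.norm_path hv1 hd ht
  have hdn : ∀ t, 0 ≤ t → d - ‖X t‖ = d * Real.exp (-t) := fun t ht => by
    rw [hnorm t ht]
    ring
  have hXb : ∀ t, 0 ≤ t → X t ∈ ball (0 : EuclideanSpace ℝ (Fin u)) d := fun t ht => by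
    rw [mem_ball_zero_iff]
    have h1 := hdn t ht
    have h2 : 0 < d * Real.exp (-t) := by positivity
    linarith
  set Y : ℝ := Real.log (d / (d - ‖x‖)) with hY
  have hdx : 0 < d - ‖x‖ := by linarith
  have hY0 : 0 ≤ Y := by
    apply Real.log_nonneg
    rw [one_le_div hdx]
    linarith
  have hexpY : Real.exp (-Y) = (d - ‖x‖) / d := by
    rw [hY, Real.exp_neg, Real.exp_log (by positivity), inv_div]
  have hXY : X Y = x := by
    simp only [hX, hexpY, hv, smul_smul]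
    have : d * (1 - (d - ‖x‖) / d) * ‖x‖⁻¹ = 1 := by
      field_simp
      ring
    rw [this, one_smul]
  have hX0 : X 0 = 0 := by
    simp [hX]
  obtain ⟨J, hJ'⟩ := hJ (d - ‖x‖) hdx
  have h1 := hw (fun t => H (X t)) (fun t => lev (X t)) Y E J hY0 hE0.le
    (fun t ht => hJ' _ (hXb t ht.1) (by
      rw [hdn t ht.1]
      have h2 : Real.exp (-Y) ≤ Real.exp (-t) := Real.exp_le_exp.2 (by linarith [ht.2])
      rw [hexpY, div_le_iff₀ hd] at h2
      linarith))
    (fun t ht => by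
      have h2 := (hlev (X t) (hXb t ht.1)).2.1
      rw [hdn t ht.1] at h2
      have h3 : d / (d * Real.exp (-t)) = Real.exp t := by
        rw [Real.exp_neg]
        field_simp
      rwa [h3, Real.log_exp] at h2)
    (fun t ht t' ht' htt h2 => by
      refine hloc (X t) (hXb t ht.1) (X t') (hXb t' ht'.1) ?_
      rw [hdn t ht.1]
      have h3 : dist (X t') (X t) = d * (Real.exp (-t) - Real.exp (-t')) := by
        rw [dist_eq_norm]
        simp only [hX]
        rw [← sub_smul, norm_smul, hv1, mul_one, Real.norm_eq_abs, abs_of_nonneg]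
        · ring
        · have h4 : Real.exp (-t') ≤ Real.exp (-t) := Real.exp_le_exp.2 (by linarith)
          nlinarith
      rw [h3]
      have h4 : Real.exp (-t) - Real.exp (-t') ≤ Real.exp (-t) * (t' - t) := by
        have h5 : Real.exp (-t') = Real.exp (-t) * Real.exp (-(t' - t)) := by
          rw [← Real.exp_add]
          ring_nf
        have h6 := Real.add_one_le_exp (-(t' - t))
        have h7 := Real.exp_pos (-t)
        rw [h5]
        nlinarith
      have h8 : 0 < Real.exp (-t) := Real.exp_pos _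
      calc d * (Real.exp (-t) - Real.exp (-t')) ≤ d * (Real.exp (-t) * (t' - t)) := by gcongr
        _ ≤ d * (Real.exp (-t) * (c * Real.exp (-(κ * lev (X t))))) := by gcongr
        _ = _ := by ring)
  simp only [hXY, hX0] at h1
  exact h1

end Stage

end F4CORLAux

/-- Module CORL. -/
theorem specCorl (hInrl : SpecInrl.{u}) (hEyl : SpecEyl.{u}) (hLevl : SpecLevl.{u}) :
    SpecCorl.{u} := by
  intro M _ f u φ C a₁ b κ r r₁ e ρ b₂ A U S₁ hcl hsat hAU hinv hst hcnt hstart hpaths hb₂ hκa₁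
    hineq₁
  have hTr : T6.SpecTr.{u} := T6.specTr
  have hWalk : T6.SpecWalk.{u} := T6.specWalk
  obtain ⟨η, ρ₁, hc⟩ := Sc.exists S₁
  have he := S₁.e_pos
  have hη := hc.η_pos
  have hC := S₁.C1
  have hC0 : 0 < C := by linarith
  have hρ₁ := hc.ρ₁_pos
  have hρ₁ρ := hc.ρ₁_le'
  have her := S₁.e_le_r
  have hb := S₁.b_pos
  -- the rate
  obtain ⟨a, hκa, haa, hineq⟩ : ∃ a : ℝ, κ < a ∧ a < a₁ ∧ u * κ * (u * b₂ - b) < a * b := by
    have h1 : max κ (u * κ * (u * b₂ - b) / b) < a₁ := by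
      refine max_lt hκa₁ ?_
      rw [div_lt_iff₀ hb]
      exact hineq₁
    obtain ⟨a, h2, h3⟩ := exists_between h1
    refine ⟨a, (le_max_left _ _).trans_lt h2, h3, ?_⟩
    have h4 := (le_max_right κ (u * κ * (u * b₂ - b) / b)).trans_lt h2
    rwa [div_lt_iff₀ hb] at h4
  have ha : 0 < a := S₁.κ_nonneg.trans_lt hκa
  have S : Sys f u φ C a b κ r r₁ e ρ := F4CORLAux.sys_mono S₁ ha haa.le
  -- the constants
  obtain ⟨c, T, hc0, hT0, hlevel⟩ := hLevl f u φ C a b κ r r₁ e ρ η ρ₁ S hc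
  obtain ⟨Cw, hCw, hwalk⟩ := hWalk a κ c T hκa S.κ_nonneg hc0 hT0
  obtain ⟨y, d, x₀, hd, hdρ, hx₀, hx₀B, hbas⟩ := hstart ρ₁ hρ₁
  obtain ⟨lev, hJ, hlev⟩ := hlevel y d hd hdρ
  obtain ⟨δe, hδe, hbr⟩ := S.br.exist e he
  set δ₂ : ℝ := min (δe / 4) e with hδ₂
  have hδ₂0 : 0 < δ₂ := lt_min (by positivity) he
  have hδ₂1 : δ₂ ≤ δe / 4 := min_le_left _ _
  have hδ₂2 : δ₂ ≤ e := min_le_right _ _
  have hyB : y ∈ U := by
    have := hbas 0 (mem_ball_self hd)
    rwa [S.zero] at this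
  obtain ⟨Λ', hΛ', hp⟩ : ∃ Λ : ℝ, 0 < Λ ∧ ∀ m : ℕ, ∃ (K : ℕ) (q : ℕ → M),
      (K : ℝ) ≤ Λ * Real.exp (b₂ * m) ∧ q 0 = f.symm^[m] y ∧ q K ∈ A ∧
      ∀ l < K, q (l + 1) ∈ Wl f δ₂ (q l) := by
    obtain ⟨Λ, hΛ⟩ := hpaths δ₂ hδ₂0 y hyB
    refine ⟨|Λ| + 1, by positivity, fun m => ?_⟩
    obtain ⟨K, q, h1, h2⟩ := hΛ m
    refine ⟨K, q, h1.trans ?_, h2⟩
    have h3 : Λ ≤ |Λ| + 1 := by linarith [le_abs_self Λ]
    gcongr
  set B : ℝ := Λ' * (C * (2 * e)) * (4 * C / η) with hBdef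
  have hBpos : 0 < B := by positivity
  have hθ0 : 0 ≤ b₂ / b := div_nonneg (hb.le.trans hb₂) hb.le
  obtain ⟨C₀, hC₀, hinr⟩ := hInrl f u φ C a₁ b κ r r₁ e ρ η ρ₁ U S₁ hc hinv hst
    (hcnt η hη hc.η_le) a (b₂ / b) (max (Real.log B / b) 0 + 1) ha haa hθ0
  obtain ⟨C₁, hC₁, hey⟩ := hEyl f u φ C a b κ r r₁ e ρ η ρ₁ (b₂ / b)
    (max (Real.log B / b) 0 + 1) C₀ U S hc hC₀ hinr
  obtain ⟨m₀, hm₀⟩ := F4CORLAux.exists_time (A := Cw * max C₁ (4 * C ^ 2 * η))
    (B := B) (δ := δ₂ / C) S.u_pos hb hb₂ S.κ_nonneg hineq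
    (by
      have : 0 < max C₁ (4 * C ^ 2 * η) := lt_max_of_lt_left hC₁
      positivity) hBpos (by positivity)
  obtain ⟨m₁, hm₁⟩ : ∃ m₁ : ℕ, ∀ m ≥ m₁, C * (C * Real.exp (-(a * m)) * (C * ρ₁)) ≤ δ₂ := by
    have h1 : Tendsto (fun m : ℕ => a * (m : ℝ)) atTop atTop :=
      Tendsto.const_mul_atTop ha tendsto_natCast_atTop_atTop
    have h2 := (((Real.tendsto_exp_neg_atTop_nhds_zero.comp h1).const_mul C).mul_const
      (C * ρ₁)).const_mul C
    simp only [mul_zero, zero_mul] at h2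
    exact eventually_atTop.1 (h2.eventually (ge_mem_nhds hδ₂0))
  set m : ℕ := max m₀ m₁ with hm
  obtain ⟨N, hmN, hNθ, hN1, hN2⟩ := hm₀ m (le_max_left _ _)
  obtain ⟨K, q, hK, hq0, hqK, hq⟩ := hp m
  have hNi : ∀ i ≤ K, (i : ℝ) * (C * Real.exp (-(b * N)) * (2 * e)) ≤ η / (4 * C) := by
    intro i hi
    have h1 : (i : ℝ) ≤ Λ' * Real.exp (b₂ * m) := by
      have : (i : ℝ) ≤ K := by exact_mod_cast hi
      exact this.trans hK
    calc (i : ℝ) * (C * Real.exp (-(b * N)) * (2 * e))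
        ≤ Λ' * Real.exp (b₂ * m) * (C * Real.exp (-(b * N)) * (2 * e)) := by gcongr
      _ = B * Real.exp (b₂ * m) * Real.exp (-(b * N)) * (η / (4 * C)) := by
          rw [hBdef]
          field_simp
      _ ≤ 1 * (η / (4 * C)) := by gcongr
      _ = η / (4 * C) := one_mul _
  have hqe : ∀ k < K, q (k + 1) ∈ Wl f e (q k) := fun k hk => Wl_mono hδ₂2 (hq k hk)
  -- the stages
  have hP : ∀ i ≤ K, ∀ x ∈ ball (0 : EuclideanSpace ℝ (Fin u)) d,
      ∃ z', Lad f e q i (f.symm^[m] (φ y x)) z' ∧ z' ∈ Wl f.symm δ₂ (q i) := by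
    intro i
    induction i with
    | zero =>
      intro _ x hx
      have hx' : ‖x‖ ≤ ρ₁ := by
        rw [mem_ball_zero_iff] at hx
        linarith
      have hxρ : x ∈ closedBall (0 : EuclideanSpace ℝ (Fin u)) ρ := by
        rw [mem_closedBall_zero_iff]
        linarith
      have h1 : φ y x ∈ Wl f.symm r y := Wl_mono (by linarith) (S.mem y x hxρ)
      have h2 : f.symm^[m] (φ y x) ∈ Wl f.symm δ₂ (f.symm^[m] y) := by
        refine S.wl_un (Wl_iter h1 m) (le_trans ?_ (hm₁ m (le_max_right _ _)))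
        have h3 := S.dec_un h1 m
        have h4 := S.upper y x hxρ 0 S.ρ_mem
        rw [S.zero, dist_zero_right] at h4
        have h5 : dist (φ y x) y ≤ C * ρ₁ :=
          h4.trans (mul_le_mul_of_nonneg_left hx' hC0.le)
        have h6 : 0 ≤ C * Real.exp (-(a * m)) := by positivity
        have h7 : dist (f.symm^[m] (φ y x)) (f.symm^[m] y) ≤
            C * Real.exp (-(a * m)) * (C * ρ₁) := h3.trans (mul_le_mul_of_nonneg_left h5 h6)
        exact mul_le_mul_of_nonneg_left h7 hC0.le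
      rw [← hq0] at h2
      exact ⟨_, T6.Lad.zero (Wl_mono hδ₂2 h2), h2⟩
    | succ i ih =>
      intro hi x hx
      have hex : ∀ x ∈ ball (0 : EuclideanSpace ℝ (Fin u)) d,
          ∃ z', Lad f e q (i + 1) (f.symm^[m] (φ y x)) z' := by
        intro x hx
        obtain ⟨z, hz1, hz2⟩ := ih (by omega) x hx
        have h1 : dist z (q (i + 1)) < δe := by
          have h2 := Wl_dist hz2
          have h3 := Wl_dist (hq i hi)
          have h4 := dist_triangle_right z (q (i + 1)) (q i)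
          linarith
        obtain ⟨z'', h5, h6⟩ := hbr _ _ h1
        exact ⟨z'', hz1.succ h5 h6⟩
      obtain ⟨z', hz'⟩ := hex x hx
      refine ⟨z', hz', S.wl_un (Wl_mono (by linarith) hz'.last) ?_⟩
      have h1 := F4CORLAux.stage_bound hTr S hc hC₁ hθ0 hey (hwalk M) hd hbas hinv hJ hlev hmN
        hNθ (hNi (i + 1) hi) hq0 (fun k hk => hqe k (by omega)) hex hx hz'
      have h2 : dist z' (q (i + 1)) ≤ δ₂ / C := h1.trans (by rw [← mul_assoc]; exact hN2)
      calc C * dist z' (q (i + 1)) ≤ C * (δ₂ / C) := by gcongr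
        _ = δ₂ := by field_simp
  -- the end
  have hsub : (fun x => f.symm^[m] (φ y x)) '' ball (0 : EuclideanSpace ℝ (Fin u)) d ⊆
      T6.CoStage.St f e A K := by
    rintro _ ⟨x, hx, rfl⟩
    obtain ⟨z', hz1, hz2⟩ := hP K le_rfl x hx
    exact T6.CoStage.St_of_lad hz1 (hsat _ hqK _ (Wl_mono hδ₂2 hz2))
  have hcont : ContinuousOn (fun x => f.symm^[m] (φ y x))
      (closure (ball (0 : EuclideanSpace ℝ (Fin u)) d)) := by
    rw [closure_ball _ hd.ne']
    refine (f.symm.continuous.iterate m).comp_continuousOn ?_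
    refine (LipschitzOnWith.of_dist_le_mul (K := ⟨C, hC0.le⟩) fun s hs t ht => ?_).continuousOn
    exact S.upper y s (closedBall_subset_closedBall (by linarith) hs) t
      (closedBall_subset_closedBall (by linarith) ht)
  have hx₀' : x₀ ∈ closure (ball (0 : EuclideanSpace ℝ (Fin u)) d) := by
    rw [closure_ball _ hd.ne', mem_closedBall_zero_iff]
    exact hx₀.le
  have h1 : f.symm^[m] (φ y x₀) ∈ T6.CoStage.St f e A K := by
    have h2 := hcont.image_closure (mem_image_of_mem _ hx₀')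
    exact closure_minimal hsub (hcl K) h2
  have h2 := T6.CoStage.St_sub hAU hst K h1
  exact hx₀B ((F4CORLAux.symm_iter hinv m (φ y x₀)).1 h2)

end Pool.Agent.Lib.MP610fe3.HR
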