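import Pool.Agent.Lib.MP_610fe3_an.HR.F4SSpec
import Pool.Agent.Lib.MP_610fe3_an.HR.F3RTL

/-!
# Module CRD: crude rates of one element
-/

set_option autoImplicit false

open Set Filter Function
open scoped Topology

namespace Pool.Agent.Lib.MP610fe3.HR

open Cf CH F1RTAux F1RTXAux

universe u v w

/-- **CRD.** -/
theorem specCrd : SpecCrd.{u, v, w} := by
  intro M W _ _ _ _ _ E k J _ A χ F hAct i n hn hi
  obtain ⟨s₀, hs₀, hs₀S, -⟩ := hAct.split n hn
  obtain ⟨C, l, hC, hl, hl1, hest⟩ := hs₀
  obtain ⟨K, hK1, hK⟩ := exists_norm_bound s₀.hDi.cont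
  have hK0 : 0 ≤ K := by linarith
  have hlog : 0 < -Real.log l := by
    have := Real.log_neg hl hl1
    linarith
  refine ⟨-Real.log l, max (-Real.log l) (Real.log K), hlog, le_max_left _ _, ?_⟩
  intro S hS e he
  have hD : S.D = s₀.D := funext fun x => S.hD.unique s₀.hD x
  have hDi : S.Di = s₀.Di := funext fun x => S.hDi.unique s₀.hDi x
  refine ⟨max C 1, fun m x w hw => ⟨?_, ?_⟩⟩
  · have hmem : w ∈ (s₀.S x).range := by
      rw [hs₀S]
      exact SCAAux.coarse_le_neg hi x hw
    have e1 : s₀.S x w = w := SCAAux.S_fix s₀ hmem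
    have e2 := (hest m x w).1
    rw [e1] at e2
    rw [hD]
    have e3 : l ^ m ≤ Real.exp ((- -Real.log l + e) * m) := by
      have h1 : l ^ m = Real.exp (Real.log l * m) := by
        rw [mul_comm, Real.exp_nat_mul, Real.exp_log hl]
      rw [h1]
      apply Real.exp_le_exp.2
      have hm : (0 : ℝ) ≤ m := Nat.cast_nonneg m
      have h2 : 0 ≤ e * m := mul_nonneg he.le hm
      rw [neg_neg, add_mul]
      linarith
    calc _ ≤ C * l ^ m * ‖w‖ := e2
      _ ≤ max C 1 * Real.exp ((- -Real.log l + e) * m) * ‖w‖ := by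
          have h4 : C ≤ max C 1 := le_max_left _ _
          have h5 : (0 : ℝ) ≤ l ^ m := by positivity
          gcongr
  · rw [hDi]
    have e2 := iterD_bound (f := ((A n).symm : M → M)) hK0 hK m x w
    have e3 : K ^ m ≤ Real.exp ((max (-Real.log l) (Real.log K) + e) * m) := by
      have h1 : K ^ m = Real.exp (Real.log K * m) := by
        rw [mul_comm, Real.exp_nat_mul, Real.exp_log (by linarith)]
      rw [h1]
      apply Real.exp_le_exp.2
      have hm : (0 : ℝ) ≤ m := Nat.cast_nonneg m
      have h3 : Real.log K ≤ max (-Real.log l) (Real.log K) := le_max_right _ _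
      refine mul_le_mul_of_nonneg_right ?_ hm
      linarith
    calc _ ≤ K ^ m * ‖w‖ := e2
      _ ≤ 1 * Real.exp ((max (-Real.log l) (Real.log K) + e) * m) * ‖w‖ := by
          rw [one_mul]
          gcongr
      _ ≤ max C 1 * Real.exp ((max (-Real.log l) (Real.log K) + e) * m) * ‖w‖ := by
          have h4 : (1 : ℝ) ≤ max C 1 := le_max_right _ _
          gcongr

end Pool.Agent.Lib.MP610fe3.HR
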