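import Pool.Agent.Lib.MP_610fe3_an.HR.F4SSpec
import Pool.Agent.Lib.MP_610fe3_an.HR.F1CRT
import Pool.Agent.Lib.MP_610fe3_an.HR.PAIR
import Pool.Agent.Lib.MP_610fe3_an.HR.PROD
import Pool.Agent.Lib.MP_610fe3_an.Cf.Crd

/-!
# Module CSU: the projection of a small leaf `X` to its tangent space is onto a ball
-/

set_option autoImplicit false

open Set Filter Function
open scoped Topology

namespace Pool.Agent.Lib.MP610fe3.HR

open Cf CH

universe u v w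

namespace F4CSUAux

theorem comm_symm {M : Type*} [MetricSpace M] {f g : M ≃ₜ M} (h : ∀ x, f (g x) = g (f x))
    (x : M) : f (g.symm x) = g.symm (f x) := by
  apply g.injective
  rw [← h, Homeomorph.apply_symm_apply, Homeomorph.apply_symm_apply]

section

variable {M : Type u} {W : Type v} [MetricSpace M] [CompactSpace M] [NormedAddCommGroup W]
  [InnerProductSpace ℝ W] [FiniteDimensional ℝ W] {E : Emb M W} {f g : M ≃ₜ M}

omit [FiniteDimensional ℝ W] in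
/-- a vector of the range of `PP s t.swap` is in the stable space of `s`, and its stable part for
`t` is zero -/
theorem of_PP (s : Split E f) (t : Split E g) (hs : s.Hyperbolic) (ht : t.Hyperbolic)
    (hfg : ∀ x, f (g x) = g (f x)) {x : M} {w : W} (h : PP s t.swap x w = w) :
    s.S x w = w ∧ t.S x w = 0 ∧ ∀ w', PP s t.swap x (PP s t.swap x w') = PP s t.swap x w' := by
  have hc : ∀ w, s.S x (t.U x w) = t.U x (s.S x w) := fun w =>
    congrArg (fun L => L w) (SS_commute s t.swap hs ht.swap (comm_symm hfg) x)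
  have h' : s.S x (t.U x w) = w := h
  refine ⟨?_, ?_, fun w' => ?_⟩
  · rw [← h', s.SS_apply]
  · rw [← h', hc, t.SU_apply]
  · change s.S x (t.U x (s.S x (t.U x w'))) = s.S x (t.U x w')
    rw [← hc, t.UU_apply, s.SS_apply]

/-- One step of the construction of points with prescribed coordinates. -/
theorem step (hL31 : SpecL31.{u}) (s : Split E f) (t : Split E g) (hs : s.Hyperbolic)
    (ht : t.Hyperbolic) (hfg : ∀ x, f (g x) = g (f x)) {θ ε' : ℝ} (hθ : 0 < θ) (hε' : 0 < ε') :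
    ∃ r : ℝ, 0 < r ∧ ∀ x w, PP s t.swap x w = w → ‖w‖ ≤ r →
      ∃ z ∈ Lf f g.symm ε' x, ‖E.e z - E.e x - w‖ ≤ θ * ‖w‖ := by
  obtain ⟨ε, C, l, hP⟩ := specPair M W E f g s t hs ht hfg
  obtain ⟨K, hK1, hK⟩ := t.exists_bdd
  have hK0 : 0 < K := by linarith
  set η : ℝ := min (1 / (6 * K)) (θ / (16 * K)) with hη
  have hηpos : 0 < η := lt_min (by positivity) (by positivity)
  have hη1 : η * (6 * K) ≤ 1 := by
    have : η ≤ 1 / (6 * K) := min_le_left _ _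
    rwa [le_div_iff₀ (by positivity)] at this
  have hη2 : η * (16 * K) ≤ θ := by
    have : η ≤ θ / (16 * K) := min_le_right _ _
    rwa [le_div_iff₀ (by positivity)] at this
  set θ' : ℝ := min 1 (θ / (4 * (2 * K + 1))) with hθ'
  have hθpos : 0 < θ' := lt_min one_pos (by positivity)
  have hθ1 : θ' ≤ 1 := min_le_left _ _
  have hθ2 : θ' * (4 * (2 * K + 1)) ≤ θ := by
    have : θ' ≤ θ / (4 * (2 * K + 1)) := min_le_right _ _
    rwa [le_div_iff₀ (by positivity)] at this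
  obtain ⟨ε₁, hε₁, h₁⟩ := br_cone t ht hηpos
  obtain ⟨ε₂, hε₂, h₂⟩ := br_cone t.swap ht.swap hηpos
  obtain ⟨r₃, hr₃, h₃⟩ := t.swap.exists_unifU ht.swap hηpos
  set ε₀ : ℝ := min ε' (min ε₁ ε₂) with hε₀
  have hε₀pos : 0 < ε₀ := lt_min hε' (lt_min hε₁ hε₂)
  have hε₀' : ε₀ ≤ ε' := min_le_left _ _
  have hε₀₁ : ε₀ ≤ ε₁ := (min_le_right _ _).trans (min_le_left _ _)
  have hε₀₂ : ε₀ ≤ ε₂ := (min_le_right _ _).trans (min_le_right _ _)
  obtain ⟨δ, hδ, h₅⟩ := hL31 M f g ε C l hP ε₀ hε₀pos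
  obtain ⟨r₀, hr₀, hst⟩ := crd_step s hs hθpos (show 0 < min δ (r₃ / 2) from
    lt_min hδ (by positivity))
  refine ⟨r₀, hr₀, fun x w hw hwr => ?_⟩
  obtain ⟨hSw, hTw, -⟩ := of_PP s t hs ht hfg hw
  obtain ⟨z₁, hz₁, hz₁w⟩ := hst x w hSw hwr
  have hz₁x : x ∈ Wl f δ z₁ := Wl_comm (Wl_mono (min_le_left _ _) hz₁)
  have hd₁ : dist z₁ x < r₃ := (hz₁ 0).trans_lt (by
    have := min_le_right δ (r₃ / 2)
    linarith)
  obtain ⟨z, hz1, hz2, hz3, hz4, hz5, hz6⟩ := h₅ z₁ x hz₁x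
  refine ⟨z, ⟨Wl_mono hε₀' hz4, PRODAux.dbl_symm hz2⟩, ?_⟩
  -- the estimates
  have c1 := h₁ z₁ z (Wl_mono hε₀₁ hz5)
  have c2 := h₂ x z (Wl_mono hε₀₂ hz6)
  simp only [Split.swap_S] at c2
  have c3 := h₃ x z₁ hd₁ (E.e z - E.e z₁)
  simp only [Split.swap_U] at c3
  rw [E.dist_eq z z₁] at c1
  rw [E.dist_eq z x] at c2
  set v := E.e z - E.e z₁ with hv
  set y := E.e z - E.e x with hy
  have hyv : E.e z₁ - E.e x = y - v := by rw [hy, hv]; abel
  rw [hyv] at hz₁w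
  have hn : 0 ≤ ‖w‖ := norm_nonneg _
  have hnv : 0 ≤ ‖v‖ := norm_nonneg _
  have d1 : ‖t.S x y‖ ≤ K * (η * ‖y‖) := by
    have e0 : t.S x (y - t.U x y) = t.S x y - t.S x (t.U x y) := map_sub _ _ _
    have e : t.S x y = t.S x (y - t.U x y) := by
      rw [e0, t.SU_apply, sub_zero]
    rw [e]
    exact ((t.S x).le_of_opNorm_le (hK x).1 _).trans (mul_le_mul_of_nonneg_left c2 hK0.le)
  have d2 : ‖t.S x (y - v - w)‖ ≤ K * (θ' * ‖w‖) :=
    ((t.S x).le_of_opNorm_le (hK x).1 _).trans (mul_le_mul_of_nonneg_left hz₁w hK0.le)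
  have d3 : ‖t.S x v‖ ≤ K * (η * ‖y‖) + K * (θ' * ‖w‖) := by
    have e0 : t.S x (y - v - w) = t.S x y - t.S x v - t.S x w := by
      rw [(t.S x).map_sub (y - v) w, (t.S x).map_sub y v]
    have e : t.S x v = t.S x y - t.S x (y - v - w) := by
      rw [e0, hTw]
      abel
    rw [e]
    exact (norm_sub_le _ _).trans (add_le_add d1 d2)
  have d4 : ‖v‖ ≤ η * ‖v‖ + η * ‖v‖ + ‖t.S x v‖ := by
    calc ‖v‖ = ‖(v - t.S z₁ v) + (t.S z₁ v - t.S x v) + t.S x v‖ := by congr 1; abel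
      _ ≤ ‖v - t.S z₁ v‖ + ‖t.S z₁ v - t.S x v‖ + ‖t.S x v‖ := norm_add₃_le
      _ ≤ _ := by gcongr
  have d5 : ‖y‖ ≤ ‖v‖ + 2 * ‖w‖ := by
    calc ‖y‖ = ‖v + w + (y - v - w)‖ := by congr 1; abel
      _ ≤ ‖v‖ + ‖w‖ + ‖y - v - w‖ := norm_add₃_le
      _ ≤ ‖v‖ + ‖w‖ + θ' * ‖w‖ := by gcongr
      _ ≤ _ := by nlinarith
  have d6 : ‖v‖ ≤ (4 * K * η + 2 * K * θ') * ‖w‖ := by
    have e1 : K * (η * ‖y‖) ≤ K * (η * (‖v‖ + 2 * ‖w‖)) := by gcongr
    have e2 : η ≤ η * K := by nlinarith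
    have e3 : η * ‖v‖ ≤ η * K * ‖v‖ := by gcongr
    have e4 : η * K * ‖v‖ ≤ 1 / 6 * ‖v‖ := by
      have : η * K ≤ 1 / 6 := by linarith
      gcongr
    nlinarith
  calc ‖y - w‖ = ‖v + (y - v - w)‖ := by congr 1; abel
    _ ≤ (4 * K * η + 2 * K * θ') * ‖w‖ + θ' * ‖w‖ := (norm_add_le _ _).trans (add_le_add d6 hz₁w)
    _ = (4 * K * η + (2 * K + 1) * θ') * ‖w‖ := by ring
    _ ≤ θ * ‖w‖ := by
      apply mul_le_mul_of_nonneg_right _ hn
      nlinarith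

/-- The coordinate is onto small balls. -/
theorem surj (hL31 : SpecL31.{u}) (hProd : SpecProd.{u}) (s : Split E f) (t : Split E g)
    (hs : s.Hyperbolic) (ht : t.Hyperbolic) (hfg : ∀ x, f (g x) = g (f x)) {ε' : ℝ}
    (hε' : 0 < ε') : ∃ r : ℝ, 0 < r ∧ ∀ x w, PP s t.swap x w = w → ‖w‖ ≤ r →
      ∃ z ∈ Lf f g.symm ε' x, PP s t.swap x (E.e z - E.e x) = w := by
  obtain ⟨ε, C₀, l₀, hP⟩ := specPair M W E f g.symm s t.swap hs ht.swap (comm_symm hfg)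
  obtain ⟨-, -, hP3, -, δc, hδc, hclosed⟩ := hProd M f g.symm ε C₀ l₀ hP
  obtain ⟨εD, C, l, hD⟩ := exists_dec s hs
  obtain ⟨K₁, hK₁1, hK₁⟩ := s.exists_bdd
  obtain ⟨K₂, hK₂1, hK₂⟩ := t.exists_bdd
  have hC1 := hD.one_le
  have hC0 : 0 < C := by linarith
  have hK₁0 : 0 < K₁ := by linarith
  have hK₂0 : 0 < K₂ := by linarith
  set K : ℝ := K₁ * K₂ with hKdef
  have hK0 : 0 < K := by positivity
  have hK1 : 1 ≤ K := by nlinarith
  have hQ : ∀ x w, ‖PP s t.swap x w‖ ≤ K * ‖w‖ := fun x w => by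
    calc ‖s.S x (t.U x w)‖ ≤ K₁ * ‖t.U x w‖ := (s.S x).le_of_opNorm_le (hK₁ x).1 _
      _ ≤ K₁ * (K₂ * ‖w‖) := mul_le_mul_of_nonneg_left
          ((t.U x).le_of_opNorm_le (hK₂ x).2 _) hK₁0.le
      _ = K * ‖w‖ := by rw [hKdef]; ring
  -- the scale
  obtain ⟨εc, hεc, hcone⟩ := F1CRTAux.cone2 s t.swap hs ht.swap (η := 1 / 2) (by norm_num)
  obtain ⟨δ₃, hδ₃, hδ₃'⟩ := hP3 εc hεc
  set ε₁ : ℝ := min (min ε' δc) (min (min εc δ₃) εD) with hε₁
  have hε₁pos : 0 < ε₁ := lt_min (lt_min hε' hδc) (lt_min (lt_min hεc hδ₃) hD.ε_pos)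
  have hε₁' : ε₁ ≤ ε' := (min_le_left _ _).trans (min_le_left _ _)
  have hε₁c : ε₁ ≤ δc := (min_le_left _ _).trans (min_le_right _ _)
  have hε₁k : ε₁ ≤ εc := (min_le_right _ _).trans ((min_le_left _ _).trans (min_le_left _ _))
  have hε₁3 : ε₁ ≤ δ₃ := (min_le_right _ _).trans ((min_le_left _ _).trans (min_le_right _ _))
  have hε₁D : ε₁ ≤ εD := (min_le_right _ _).trans (min_le_right _ _)
  have hlow : ∀ x, ∀ z ∈ Lf f g.symm ε₁ x, dist z x ≤ 2 * ‖PP s t.swap x (E.e z - E.e x)‖ := by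
    intro x z hz
    have h1 := hcone x z (Wl_mono hε₁k hz.1) (hδ₃' x z hz.2 (Wl_mono hε₁3 hz.1))
    rw [E.dist_eq z x] at h1 ⊢
    have h2 : ‖E.e z - E.e x‖ ≤ ‖E.e z - E.e x - PP s t.swap x (E.e z - E.e x)‖ +
        ‖PP s t.swap x (E.e z - E.e x)‖ := by
      calc ‖E.e z - E.e x‖ = ‖(E.e z - E.e x - PP s t.swap x (E.e z - E.e x)) +
            PP s t.swap x (E.e z - E.e x)‖ := by rw [sub_add_cancel]
        _ ≤ _ := norm_add_le _ _
    linarith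
  obtain ⟨r₀, hr₀, hstep⟩ := step hL31 s t hs ht hfg (θ := 1 / (4 * K ^ 2)) (ε' := ε₁ / 2)
    (by positivity) (by positivity)
  obtain ⟨r₂, hr₂, hunif⟩ := s.swap.exists_unifU hs.swap (η := 1 / (8 * K * K₂)) (by positivity)
  obtain ⟨r₃, hr₃, hunif'⟩ := t.exists_unifU ht (η := 1 / (8 * K * K₁)) (by positivity)
  set r : ℝ := min (min (r₀ / K) (min (r₂ / 8) (r₃ / 8))) (ε₁ / (8 * C)) with hr
  have hrpos : 0 < r := lt_min (lt_min (by positivity) (lt_min (by positivity) (by positivity)))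
    (by positivity)
  have hr1 : K * r ≤ r₀ := by
    have : r ≤ r₀ / K := (min_le_left _ _).trans (min_le_left _ _)
    rw [le_div_iff₀ hK0] at this
    linarith
  have hr3 : r ≤ r₂ / 8 := (min_le_left _ _).trans ((min_le_right _ _).trans (min_le_left _ _))
  have hr4 : r ≤ r₃ / 8 := (min_le_left _ _).trans ((min_le_right _ _).trans (min_le_right _ _))
  have hr2 : 4 * C * r ≤ ε₁ / 2 := by
    have : r ≤ ε₁ / (8 * C) := min_le_right _ _
    rw [le_div_iff₀ (by positivity)] at this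
    linarith
  refine ⟨r, hrpos, fun x w hQw hw => ?_⟩
  have hidem : ∀ w', PP s t.swap x (PP s t.swap x w') = PP s t.swap x w' :=
    (of_PP s t hs ht hfg hQw).2.2
  -- minimize
  have hcont : ContinuousOn (fun z => ‖PP s t.swap x (E.e z - E.e x) - w‖) (Lf f g.symm ε₁ x) := by
    refine Continuous.continuousOn ?_
    exact (((PP s t.swap x).continuous.comp (E.isom.continuous.sub continuous_const)).sub
      continuous_const).norm
  have hself : x ∈ Lf f g.symm ε₁ x := ⟨mem_Wl_self hε₁pos.le, fun e he => ⟨0, fun n m _ => by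
    rw [dist_self]; exact he.le⟩⟩
  have hcl : IsClosed (Lf f g.symm ε₁ x) :=
    (hclosed ε₁ hε₁c).preimage (f := fun z => (x, z)) (by fun_prop)
  obtain ⟨z, hz, hmin⟩ := hcl.isCompact.exists_isMinOn ⟨x, hself⟩ hcont
  have hmin' : ∀ z' ∈ Lf f g.symm ε₁ x,
      ‖PP s t.swap x (E.e z - E.e x) - w‖ ≤ ‖PP s t.swap x (E.e z' - E.e x) - w‖ :=
    fun z' hz' => hmin hz'
  refine ⟨z, ⟨Wl_mono hε₁' hz.1, hz.2⟩, ?_⟩
  by_contra hne
  have hm : 0 < ‖PP s t.swap x (E.e z - E.e x) - w‖ := norm_pos_iff.2 (sub_ne_zero.2 hne)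
  have hmw : ‖PP s t.swap x (E.e z - E.e x) - w‖ ≤ ‖w‖ := by
    have := hmin' x hself
    rwa [sub_self, map_zero, zero_sub, norm_neg] at this
  have hψ : ‖PP s t.swap x (E.e z - E.e x)‖ ≤ 2 * ‖w‖ := by
    calc ‖PP s t.swap x (E.e z - E.e x)‖ = ‖(PP s t.swap x (E.e z - E.e x) - w) + w‖ := by
          rw [sub_add_cancel]
      _ ≤ ‖w‖ + ‖w‖ := (norm_add_le _ _).trans (add_le_add hmw le_rfl)
      _ = _ := by ring
  have hdz : dist z x ≤ 4 * r := by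
    have := hlow x z hz
    linarith
  -- `z` is well inside
  have hz2 : z ∈ Wl f (ε₁ / 2) x := by
    intro n
    have h1 := hD.dec x z (Wl_mono hε₁D hz.1) n
    have h3 : l ^ n ≤ 1 := pow_le_one₀ hD.l_pos.le hD.l_lt.le
    have hd0 : 0 ≤ dist z x := dist_nonneg
    calc dist (f^[n] z) (f^[n] x) ≤ C * l ^ n * dist z x := h1
      _ ≤ C * 1 * (4 * r) := by gcongr
      _ = 4 * C * r := by ring
      _ ≤ ε₁ / 2 := hr2
  -- the new vector
  set w₁ : W := w - PP s t.swap x (E.e z - E.e x) with hw₁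
  have hQw₁ : PP s t.swap x w₁ = w₁ := by rw [hw₁, map_sub, hQw, hidem]
  have hnw₁ : ‖w₁‖ = ‖PP s t.swap x (E.e z - E.e x) - w‖ := norm_sub_rev _ _
  have hidz : PP s t.swap z (PP s t.swap z w₁) = PP s t.swap z w₁ := by
    have h0 : PP s t.swap z 0 = 0 := map_zero _
    exact (of_PP s t hs ht hfg h0).2.2 w₁
  have hnw'' : ‖PP s t.swap z w₁‖ ≤ K * ‖w₁‖ := hQ z w₁
  have hnw3 : ‖PP s t.swap z w₁‖ ≤ r₀ := by
    refine hnw''.trans ?_
    calc K * ‖w₁‖ ≤ K * r := by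
          rw [hnw₁]
          exact mul_le_mul_of_nonneg_left (hmw.trans hw) hK0.le
      _ ≤ r₀ := hr1
  obtain ⟨z', hz', hstep'⟩ := hstep z (PP s t.swap z w₁) hidz hnw3
  have hz'x : z' ∈ Lf f g.symm ε₁ x := by
    have := Wl_trans hz2 hz'.1
    rw [add_halves] at this
    exact ⟨this, PRODAux.dbl_trans hz.2 hz'.2⟩
  have hmin2 := hmin' z' hz'x
  have hu := hunif x z (by linarith) (t.U z w₁)
  simp only [Split.swap_U] at hu
  have hu' := hunif' x z (by linarith) w₁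
  have hid : PP s t.swap x (E.e z' - E.e x) - w
      = PP s t.swap x (E.e z' - E.e z - PP s t.swap z w₁) +
        PP s t.swap x (PP s t.swap z w₁ - PP s t.swap x w₁) := by
    have k1 : PP s t.swap x (PP s t.swap z w₁ - PP s t.swap x w₁) =
        PP s t.swap x (PP s t.swap z w₁) - w₁ := by
      rw [map_sub, hidem, hQw₁]
    have k2 : PP s t.swap x (E.e z' - E.e z - PP s t.swap z w₁)
        = PP s t.swap x (E.e z' - E.e x) - PP s t.swap x (E.e z - E.e x) -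
          PP s t.swap x (PP s t.swap z w₁) := by
      rw [← map_sub, ← map_sub]; congr 1; abel
    rw [k1, k2, hw₁]; abel
  have e1 : ‖PP s t.swap x (E.e z' - E.e z - PP s t.swap z w₁)‖ ≤
      K * (1 / (4 * K ^ 2) * (K * ‖w₁‖)) := by
    refine (hQ x _).trans (mul_le_mul_of_nonneg_left ?_ hK0.le)
    exact hstep'.trans (mul_le_mul_of_nonneg_left hnw'' (by positivity))
  have e0 : ‖PP s t.swap z w₁ - PP s t.swap x w₁‖ ≤ 1 / (4 * K) * ‖w₁‖ := by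
    have k : PP s t.swap z w₁ - PP s t.swap x w₁ =
        (s.S z (t.U z w₁) - s.S x (t.U z w₁)) + s.S x (t.U z w₁ - t.U x w₁) := by
      rw [(s.S x).map_sub (t.U z w₁) (t.U x w₁)]
      change s.S z (t.U z w₁) - s.S x (t.U x w₁) = _
      abel
    rw [k]
    have k1 : ‖t.U z w₁‖ ≤ K₂ * ‖w₁‖ := (t.U z).le_of_opNorm_le (hK₂ z).2 _
    have k2 : ‖s.S x (t.U z w₁ - t.U x w₁)‖ ≤ K₁ * (1 / (8 * K * K₁) * ‖w₁‖) :=
      ((s.S x).le_of_opNorm_le (hK₁ x).1 _).trans (mul_le_mul_of_nonneg_left hu' hK₁0.le)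
    have k3 : 1 / (8 * K * K₂) * ‖t.U z w₁‖ ≤ 1 / (8 * K * K₂) * (K₂ * ‖w₁‖) :=
      mul_le_mul_of_nonneg_left k1 (by positivity)
    calc _ ≤ 1 / (8 * K * K₂) * (K₂ * ‖w₁‖) + K₁ * (1 / (8 * K * K₁) * ‖w₁‖) :=
          (norm_add_le _ _).trans (add_le_add (hu.trans k3) k2)
      _ = 1 / (4 * K) * ‖w₁‖ := by field_simp; ring
  have e2 : ‖PP s t.swap x (PP s t.swap z w₁ - PP s t.swap x w₁)‖ ≤
      K * (1 / (4 * K) * ‖w₁‖) :=
    (hQ x _).trans (mul_le_mul_of_nonneg_left e0 hK0.le)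
  have e3 : K * (1 / (4 * K ^ 2) * (K * ‖w₁‖)) = ‖w₁‖ / 4 := by field_simp
  have e4 : K * (1 / (4 * K) * ‖w₁‖) = ‖w₁‖ / 4 := by field_simp
  have e5 : ‖PP s t.swap x (E.e z' - E.e x) - w‖ ≤ ‖w₁‖ / 2 := by
    rw [hid]
    refine (norm_add_le _ _).trans ?_
    linarith
  rw [← hnw₁] at hmin2 hm
  linarith

end

end F4CSUAux

/-- **CSU.** -/
theorem specCsu (hL31 : SpecL31.{u}) (hProd : SpecProd.{u}) : SpecCsu.{u, v} := by
  intro M W _ _ _ _ _ _ E f g s t hs ht hfg ε' hε'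
  obtain ⟨r, hr, h⟩ := F4CSUAux.surj hL31 hProd s t hs ht hfg hε'
  exact ⟨r, hr, h⟩

end Pool.Agent.Lib.MP610fe3.HR
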