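import Pool.Agent.Lib.MP_610fe3_an.HR.F4SSpec
import Pool.Agent.Lib.MP_610fe3_an.HR.F3XCH
import Pool.Agent.Lib.MP_610fe3_an.HR.F1HOLC
import Pool.Agent.Lib.MP_610fe3_an.HR.PROD

/-!
# Module CUX of hive F4: joint integrability near the wall, in all dimensions (helper68)
-/

set_option autoImplicit false

open Set Filter Function
open scoped Topology

namespace Pool.Agent.Lib.MP610fe3.HR

open Cf CH

universe u v

namespace F4CUXAux

open F3XCHAux in
/-- XCH with a chain which stays near the first point. -/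
theorem xch' (M : Type u) (W : Type v) [MetricSpace M] [CompactSpace M] [ConnectedSpace M]
    [NormedAddCommGroup W] [InnerProductSpace ℝ W] [FiniteDimensional ℝ W] (E : Emb M W)
    (f g : M ≃ₜ M) (s : Split E f) (ε C l c b : ℝ) (hs : s.Hyperbolic) (h : Pair f g ε C l)
    (hCd : Cdc f g c) (hX : Xgr f g b) (hb : 0 < b) (hbc : b < c) (ε' : ℝ) (hε' : 0 < ε') :
    ∃ e Λ : ℝ, 0 < e ∧ 0 < Λ ∧ ∀ ρ ∈ Ioc (0 : ℝ) 1, ∀ x, ∀ z ∈ Lf f g.symm e x,
      ∃ (K : ℕ) (q : ℕ → M), (K : ℝ) ≤ Λ / ρ ∧ q 0 = x ∧ q K = z ∧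
        (∀ i ≤ K, q i ∈ Wl f ε' x) ∧ ∀ i < K,
        q (i + 1) ∈ Lf f g.symm ε' (q i) ∧ dist (q (i + 1)) (q i) ≤ Λ * ρ ^ (1 - b / c) := by
  have hε := h.one.br.ε_pos
  have hC1 := h.one.br.one_le
  have hC0 : 0 < C := by linarith
  obtain ⟨du, hdu⟩ := Cf.exists_rank s hs
  obtain ⟨ρ₁, Λ₁, φ, hφ⟩ := H6.exists_uplaq s hs (u := du) hdu
  have hΛ := hφ.one_le
  have hρ := hφ.ρ_pos
  obtain ⟨δc, Cc, hδc, hCc, hcd⟩ := hCd
  obtain ⟨e₁, C₁, he₁, hC₁, hx⟩ := hX ε' hε'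
  obtain ⟨-, hu, -⟩ := specProd M f g ε C l h
  obtain ⟨-, s1, t1, -⟩ := specDbl M f g h.comm
  obtain ⟨-, s2, t2, -⟩ := specDbl M f g.symm h.symm_right.comm
  obtain ⟨η, hη'⟩ : ∃ η, η = min (min δc (e₁ / 2)) ε' := ⟨_, rfl⟩
  have hη : 0 < η := by rw [hη']; exact lt_min (lt_min hδc (by positivity)) hε'
  have hη1 : η ≤ δc := by rw [hη']; exact (min_le_left _ _).trans (min_le_left _ _)
  have hη2 : η ≤ e₁ / 2 := by rw [hη']; exact (min_le_left _ _).trans (min_le_right _ _)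
  have hη3 : η ≤ ε' := by rw [hη']; exact min_le_right _ _
  obtain ⟨δ, hδ, hL⟩ := specL31 M f g ε C l h η hη
  obtain ⟨r₀, hr₀, hr₀ρ, hmem⟩ := hφ.mem (min δ (ε / 2)) (lt_min hδ (by positivity))
  obtain ⟨e, he, honto⟩ := hφ.onto r₀ hr₀
  have hτ : 0 < 1 - b / c := by
    have : b / c < 1 := (div_lt_one (hb.trans hbc)).2 hbc
    linarith
  obtain ⟨C', hC'⟩ : ∃ C', C' = 2 * (Cc * η) + C * (Λ₁ * r₀) := ⟨_, rfl⟩
  have hC'0 : 0 < C' := by rw [hC']; positivity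
  obtain ⟨Λ', hΛ'⟩ : ∃ Λ', Λ' = C₁ * Real.exp b * C' := ⟨_, rfl⟩
  have hC₁0 : 0 < C₁ := by linarith
  have hΛ'0 : 0 < Λ' := by rw [hΛ']; positivity
  obtain ⟨ρ₀, hρ₀, hρ₀1, hsm⟩ := small hτ hΛ'0 he₁
  -- the chain for small `ρ`
  have key : ∀ ρ : ℝ, 0 < ρ → ρ ≤ ρ₀ → ∀ x, ∀ z ∈ Lf f g.symm e x,
      ∃ (K : ℕ) (q : ℕ → M), (K : ℝ) ≤ 2 / ρ ∧ q 0 = x ∧ q K = z ∧
        (∀ i ≤ K, q i ∈ Wl f ε' x) ∧ ∀ i < K,
        q (i + 1) ∈ Lf f g.symm ε' (q i) ∧
          dist (q (i + 1)) (q i) ≤ Λ' * ρ ^ (1 - b / c) := by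
    intro ρ hρ0 hρ1 x z hz
    have hρ11 : ρ ≤ 1 := hρ1.trans hρ₀1
    obtain ⟨k, hk1, hk2⟩ := num hb hbc hρ0 hρ11
    obtain ⟨a, ha, hz'⟩ := honto x z hz.1
    rw [mem_closedBall_zero_iff] at ha
    have hta : ∀ t ∈ Icc (0 : ℝ) 1, ‖t • a‖ ≤ r₀ := by
      intro t ht
      rw [norm_smul, Real.norm_eq_abs, abs_of_nonneg ht.1]
      have := norm_nonneg a
      nlinarith [ht.2]
    have hw : ∀ t ∈ Icc (0 : ℝ) 1, φ x (t • a) ∈ Wl f (min δ (ε / 2)) x := by
      intro t ht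
      exact hmem x (t • a) (by rw [mem_closedBall_zero_iff]; exact hta t ht)
    have hy : ∀ t : ℝ, ∃ y : M, t ∈ Icc (0 : ℝ) 1 → Dbl f g (φ x (t • a)) y ∧
        Dbl f g.symm y x ∧ y ∈ Wl f η (φ x (t • a)) ∧ y ∈ Wl f η x ∧
        y ∈ Wl g η (φ x (t • a)) := by
      intro t
      by_cases ht : t ∈ Icc (0 : ℝ) 1
      · obtain ⟨y, hy1, hy2, hy3, hy4, hy5, -⟩ := hL (φ x (t • a)) x
          (wl_symm (wl_mono (min_le_left _ _) (hw t ht)))
        exact ⟨y, fun _ => ⟨hy1, hy2, hy3, hy4, hy5⟩⟩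
      · exact ⟨x, fun h => absurd h ht⟩
    choose y hy using hy
    have h0 : (0 : ℝ) ∈ Icc (0 : ℝ) 1 := ⟨le_rfl, zero_le_one⟩
    have h1 : (1 : ℝ) ∈ Icc (0 : ℝ) 1 := ⟨zero_le_one, le_rfl⟩
    have hy0 : y 0 = x := by
      have h2 := (hy 0 h0).1
      rw [zero_smul, hφ.zero] at h2
      exact (hu x (y 0) h2 (s2 _ _ (hy 0 h0).2.1)).symm
    have hy1 : y 1 = z := by
      have h2 := (hy 1 h1).1
      rw [one_smul, hz'] at h2
      exact (hu z (y 1) h2 (t2 _ _ _ (s2 _ _ hz.2) (s2 _ _ (hy 1 h1).2.1))).symm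
    -- the number of points
    obtain ⟨N, hN⟩ : ∃ N : ℕ, N = ⌈1 / ρ⌉₊ := ⟨_, rfl⟩
    have hN1 : 1 / ρ ≤ N := by rw [hN]; exact Nat.le_ceil _
    have hN2 : (N : ℝ) < 1 / ρ + 1 := by rw [hN]; exact Nat.ceil_lt_add_one (by positivity)
    have hρinv : 1 ≤ 1 / ρ := by rw [le_div_iff₀ hρ0]; linarith
    have hNr : (0 : ℝ) < N := by linarith
    have hN3 : (N : ℝ) ≤ 2 / ρ := by
      have : (2 : ℝ) / ρ = 1 / ρ + 1 / ρ := by ring
      rw [this]
      linarith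
    have hNρ : 1 / (N : ℝ) ≤ ρ := by
      rw [div_le_iff₀ hNr]
      rw [div_le_iff₀ hρ0] at hN1
      linarith
    have hic : ∀ i ≤ N, ((i : ℝ) / N) ∈ Icc (0 : ℝ) 1 := fun i hi =>
      ⟨by positivity, by rw [div_le_one hNr]; exact_mod_cast hi⟩
    refine ⟨N, fun i => y ((i : ℝ) / N), hN3, ?_, ?_, fun i hi => ?_, fun i hi => ?_⟩
    · simp only [Nat.cast_zero, zero_div, hy0]
    · simp only [div_self hNr.ne', hy1]
    · exact wl_mono hη3 (hy _ (hic i hi)).2.2.2.1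
    · obtain ⟨a1, a2, a3, a4, a5⟩ := hy _ (hic i hi.le)
      obtain ⟨b1, b2, b3, b4, b5⟩ := hy _ (hic (i + 1) hi)
      have w1 := hw _ (hic i hi.le)
      have w2 := hw _ (hic (i + 1) hi)
      obtain ⟨p, hp⟩ : ∃ p, p = y ((i : ℝ) / N) := ⟨_, rfl⟩
      obtain ⟨p', hp'⟩ : ∃ p', p' = y (((i + 1 : ℕ) : ℝ) / N) := ⟨_, rfl⟩
      obtain ⟨w, hwd⟩ : ∃ w, w = φ x (((i : ℝ) / N) • a) := ⟨_, rfl⟩
      obtain ⟨w', hwd'⟩ : ∃ w', w' = φ x ((((i + 1 : ℕ) : ℝ) / N) • a) := ⟨_, rfl⟩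
      -- the plaque
      have hd1 : dist w' w ≤ Λ₁ * r₀ * ρ := by
        have m1 : (((i + 1 : ℕ) : ℝ) / N) • a ∈ Metric.closedBall
            (0 : EuclideanSpace ℝ (Fin du)) ρ₁ := by
          rw [mem_closedBall_zero_iff]
          exact (hta _ (hic (i + 1) hi)).trans hr₀ρ
        have m2 : ((i : ℝ) / N) • a ∈ Metric.closedBall (0 : EuclideanSpace ℝ (Fin du)) ρ₁ := by
          rw [mem_closedBall_zero_iff]
          exact (hta _ (hic i hi.le)).trans hr₀ρ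
        rw [hwd, hwd']
        refine (hφ.upper x _ m1 _ m2).trans ?_
        rw [dist_eq_norm, ← sub_smul, norm_smul]
        have e1 : (((i + 1 : ℕ) : ℝ) / N) - ((i : ℝ) / N) = 1 / N := by
          push_cast
          ring
        rw [e1, Real.norm_eq_abs, abs_of_pos (by positivity)]
        have e2 : 1 / (N : ℝ) * ‖a‖ ≤ ρ * r₀ :=
          mul_le_mul hNρ ha (norm_nonneg a) hρ0.le
        nlinarith
      rw [← hp, ← hwd] at a1 a3 a5
      rw [← hp] at a2 a4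
      rw [← hp', ← hwd'] at b1 b3 b5
      rw [← hp'] at b2 b4
      rw [← hwd] at w1
      rw [← hwd'] at w2
      have hfar : dist (f^[k] w') (f^[k] w) ≤ C * (Λ₁ * r₀) * ρ := by
        have w3 : w' ∈ Wl f ε w := by
          have := wl_trans (wl_mono (min_le_right _ _) w1) (wl_mono (min_le_right _ _) w2)
          rwa [add_halves] at this
        have h4 : l ^ k ≤ 1 := pow_le_one₀ h.one.decs.l_pos.le h.one.decs.l_lt.le
        have h6 : C * l ^ k ≤ C := by nlinarith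
        calc dist (f^[k] w') (f^[k] w) ≤ C * l ^ k * dist w' w := h.one.decs.dec _ _ w3 k
          _ ≤ C * (Λ₁ * r₀ * ρ) := mul_le_mul h6 hd1 dist_nonneg hC0.le
          _ = _ := by ring
      have hCl : ∀ v v' : M, v' ∈ Wl f η v → v' ∈ Wl g η v →
          dist (f^[k] v') (f^[k] v) ≤ Cc * η * ρ := by
        intro v v' hv1 hv2
        have hd : dist v' v ≤ η := hv1 0
        calc dist (f^[k] v') (f^[k] v) ≤ Cc * Real.exp (-(c * k)) * dist v' v :=
              hcd v v' (wl_mono hη1 hv1) (wl_mono hη1 hv2) k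
          _ ≤ Cc * ρ * η := by
              refine mul_le_mul ?_ hd dist_nonneg (by positivity)
              exact mul_le_mul_of_nonneg_left hk1 hCc.le
          _ = _ := by ring
      have hdk : dist (f^[k] p') (f^[k] p) ≤ C' * ρ := by
        have d1 := hCl _ _ a3 a5
        have d2 := hCl _ _ b3 b5
        have d3 := dist_triangle (f^[k] p') (f^[k] w') (f^[k] p)
        have d4 := dist_triangle (f^[k] w') (f^[k] w) (f^[k] p)
        rw [dist_comm (f^[k] w) (f^[k] p)] at d4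
        rw [hC']
        nlinarith
      have hDbl : Dbl f g.symm p p' := t2 _ _ _ a2 (s2 _ _ b2)
      have hLf : f^[k] p' ∈ Lf f g.symm e₁ (f^[k] p) := by
        refine ⟨wl_iter k ?_, dbl_iter h.symm_right.comm hDbl k⟩
        exact wl_mono (by linarith) (wl_trans a4 b4)
      have hbig : C₁ * Real.exp (b * k) * dist (f^[k] p') (f^[k] p) ≤
          Λ' * ρ ^ (1 - b / c) := by
        calc C₁ * Real.exp (b * k) * dist (f^[k] p') (f^[k] p)
            ≤ C₁ * Real.exp (b * k) * (C' * ρ) :=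
              mul_le_mul_of_nonneg_left hdk (by positivity)
          _ = C₁ * C' * (Real.exp (b * k) * ρ) := by ring
          _ ≤ C₁ * C' * (Real.exp b * ρ ^ (1 - b / c)) :=
              mul_le_mul_of_nonneg_left hk2 (by positivity)
          _ = _ := by rw [hΛ']; ring
      have hfin := hx k (f^[k] p) (f^[k] p') hLf (hbig.trans (hsm ρ hρ0 hρ1))
      rw [Cf.symm_iterate_iterate, Cf.symm_iterate_iterate] at hfin
      beta_reduce
      rw [← hp, ← hp']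
      exact ⟨⟨hfin.1, hDbl⟩, hfin.2.trans hbig⟩
  refine ⟨e, max (2 / ρ₀) Λ', he, lt_max_of_lt_right hΛ'0, fun ρ hρm x z hz => ?_⟩
  obtain ⟨K, q, hK, hq0, hqK, hqx, hq⟩ :=
    key (min ρ ρ₀) (lt_min hρm.1 hρ₀) (min_le_right _ _) x z hz
  refine ⟨K, q, hK.trans ?_, hq0, hqK, hqx, fun i hi => ⟨(hq i hi).1, (hq i hi).2.trans ?_⟩⟩
  · rcases le_total ρ ρ₀ with hle | hle
    · rw [min_eq_left hle]
      refine div_le_div_of_nonneg_right ?_ hρm.1.le
      refine le_trans ?_ (le_max_left _ _)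
      rw [le_div_iff₀ hρ₀]
      linarith
    · rw [min_eq_right hle]
      refine (le_max_left (2 / ρ₀) Λ').trans ?_
      rw [le_div_iff₀ hρm.1]
      have : 0 < max (2 / ρ₀) Λ' := lt_max_of_lt_right hΛ'0
      nlinarith [hρm.2]
  · have h1 : min ρ ρ₀ ^ (1 - b / c) ≤ ρ ^ (1 - b / c) :=
      Real.rpow_le_rpow (lt_min hρm.1 hρ₀).le (min_le_left _ _) hτ.le
    have h2 : 0 ≤ ρ ^ (1 - b / c) := Real.rpow_nonneg hρm.1.le _
    calc Λ' * min ρ ρ₀ ^ (1 - b / c) ≤ Λ' * ρ ^ (1 - b / c) :=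
          mul_le_mul_of_nonneg_left h1 hΛ'0.le
      _ ≤ _ := mul_le_mul_of_nonneg_right (le_max_right _ _) h2


/-- Sums along a chain. -/
theorem chain_dist {M : Type*} [MetricSpace M] (φ : ℕ → M) (K : ℕ) (D : ℝ)
    (h : ∀ i < K, dist (φ i) (φ (i + 1)) ≤ D) : dist (φ 0) (φ K) ≤ K * D := by
  induction K with
  | zero => simp
  | succ K ih =>
    have h1 := ih fun i hi => h i (by omega)
    have h2 := h K (by omega)
    have h3 := dist_triangle (φ 0) (φ K) (φ (K + 1))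
    push_cast
    linarith

/-- The scale of the chain. -/
theorem scale {b τ A e : ℝ} (hb : 0 < b) (hτ : 0 < τ) (hA : 0 < A) (he : 0 < e) :
    ∃ κ : ℝ, 0 < κ ∧ ∀ m : ℕ, ∃ ρ ∈ Ioc (0 : ℝ) 1, A * Real.exp (b * m) * ρ ^ τ ≤ e ∧
      1 / ρ ≤ κ * Real.exp (b / τ) ^ m := by
  obtain ⟨ρ₀, h0, h1, h2⟩ := F3XCHAux.small hτ hA he
  refine ⟨1 / ρ₀, by positivity, fun m => ?_⟩
  have hx : 0 < Real.exp (-(b / τ * m)) := Real.exp_pos _
  have hx1 : Real.exp (-(b / τ * m)) ≤ 1 := by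
    rw [Real.exp_le_one_iff]
    have : 0 ≤ b / τ * m := by positivity
    linarith
  refine ⟨ρ₀ * Real.exp (-(b / τ * m)), ⟨by positivity, ?_⟩, ?_, ?_⟩
  · calc ρ₀ * Real.exp (-(b / τ * m)) ≤ 1 * 1 := mul_le_mul h1 hx1 hx.le zero_le_one
      _ = 1 := one_mul 1
  · have e1 : (ρ₀ * Real.exp (-(b / τ * m))) ^ τ = ρ₀ ^ τ * Real.exp (-(b * m)) := by
      rw [Real.mul_rpow h0.le hx.le, ← Real.exp_mul]
      congr 2
      field_simp
    rw [e1]
    have e2 : Real.exp (b * m) * Real.exp (-(b * m)) = 1 := by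
      rw [← Real.exp_add, add_neg_cancel, Real.exp_zero]
    calc A * Real.exp (b * m) * (ρ₀ ^ τ * Real.exp (-(b * m)))
        = A * ρ₀ ^ τ * (Real.exp (b * m) * Real.exp (-(b * m))) := by ring
      _ = A * ρ₀ ^ τ := by rw [e2, mul_one]
      _ ≤ e := h2 ρ₀ h0 le_rfl
  · have e3 : Real.exp (b / τ) ^ m = (Real.exp (-(b / τ * m)))⁻¹ := by
      rw [← Real.exp_nat_mul, ← Real.exp_neg, neg_neg]
      congr 1
      ring
    rw [e3]
    apply le_of_eq
    field_simp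

/-- The limit. -/
theorem eq_of_tend {M : Type*} [MetricSpace M] {x y : M} {B R A : ℝ} {m₀ : ℕ} (hB : 0 ≤ B)
    (hR0 : 0 ≤ R) (hBR : B * R < 1) (h : ∀ m : ℕ, m₀ ≤ m → dist x y ≤ A * (B * R) ^ m) :
    x = y := by
  have t := (tendsto_pow_atTop_nhds_zero_of_lt_one (mul_nonneg hB hR0) hBR).const_mul A
  rw [mul_zero] at t
  exact dist_le_zero.1 (ge_of_tendsto t (eventually_atTop.2 ⟨m₀, h⟩))

end F4CUXAux

open F4CUXAux PRODAux in
theorem specCux (hDefx : SpecDefx.{u}) : SpecCux.{u, v} := by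
  intro M W _ _ _ _ _ _ E f g s ε C l c b L lg δ C₁ J hs hp hCd hX hb hbc hdec hdec' hL1 hlip
    hJ1 hJ2
  have hc0 : 0 < c := hb.trans hbc
  have hτ : 0 < 1 - b / c := by
    have : b / c < 1 := (div_lt_one hc0).2 hbc
    linarith
  obtain ⟨τ, hτe⟩ : ∃ τ, τ = 1 - b / c := ⟨_, rfl⟩
  rw [← hτe] at hτ hJ1
  have hlg0 : 0 < lg := hdec.l_pos
  obtain ⟨eD, CD, heD, hCD, HD⟩ := hDefx M f g ε C l c b hp hCd hX hb
  obtain ⟨eH, CH', heH, hCH, HH⟩ := specHolc M f g ε C l δ C₁ L lg hp hL1 hdec hdec' hlip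
  obtain ⟨δ₁, hδ₁, HP⟩ := specL31 M f g ε C l hp (eH / 2) (by positivity)
  have hε := hp.one.br.ε_pos
  -- the middle scale
  obtain ⟨η, hη⟩ : ∃ η : ℝ, η = min (min ε (eH / 2)) (min (δ₁ / 2) (eD / 2)) := ⟨_, rfl⟩
  have hη0 : 0 < η := by
    rw [hη]
    refine lt_min (lt_min hε (by positivity)) (lt_min (by positivity) (by positivity))
  have hη1 : η ≤ ε := by rw [hη]; exact (min_le_left _ _).trans (min_le_left _ _)
  have hη2 : η ≤ eH / 2 := by rw [hη]; exact (min_le_left _ _).trans (min_le_right _ _)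
  have hη3 : η ≤ δ₁ / 2 := by rw [hη]; exact (min_le_right _ _).trans (min_le_left _ _)
  have hη4 : η ≤ eD / 2 := by rw [hη]; exact (min_le_right _ _).trans (min_le_right _ _)
  obtain ⟨δb, hδb, Hb⟩ := hp.one.br.exist η hη0
  obtain ⟨δL, Λ, hδL, hΛ, HL⟩ := xch' M W E f g s ε C l c b hs hp hCd hX hb hbc
    (min eD (δb / 4)) (lt_min heD (by positivity))
  rw [← hτe] at HL
  refine ⟨min δL (min (δb / 4) η), lt_min hδL (lt_min (by positivity) hη0), ?_⟩
  intro a z z' q hz hz' hq hqz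
  have e1 : min δL (min (δb / 4) η) ≤ δL := min_le_left _ _
  have e2 : min δL (min (δb / 4) η) ≤ δb / 4 := (min_le_right _ _).trans (min_le_left _ _)
  have e3 : min δL (min (δb / 4) η) ≤ η := (min_le_right _ _).trans (min_le_right _ _)
  -- the numbers
  obtain ⟨R, hR⟩ : ∃ R, R = lg ^ J := ⟨_, rfl⟩
  have hR0 : 0 < R := by rw [hR]; exact pow_pos hlg0 J
  have hL0 : 0 < L := by linarith
  obtain ⟨m₀, hm₀⟩ : ∃ m₀ : ℕ, ∀ m, m₀ ≤ m → CD * (Real.exp (-c) * L ^ J) ^ m ≤ eH * R ^ m := by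
    have hr : Real.exp (-c) * L ^ J / R < 1 := by
      rw [div_lt_one hR0, hR, ← Real.exp_log (pow_pos hlg0 J), ← Real.exp_log (pow_pos hL0 J),
        ← Real.exp_add, Real.exp_lt_exp, Real.log_pow, Real.log_pow]
      linarith
    have t := (tendsto_pow_atTop_nhds_zero_of_lt_one (div_nonneg (by positivity) hR0.le)
      hr).const_mul CD
    rw [mul_zero] at t
    obtain ⟨m₀, hm₀⟩ := eventually_atTop.1 (t.eventually (gt_mem_nhds heH))
    refine ⟨m₀, fun m hm => ?_⟩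
    have h1 := (hm₀ m hm).le
    rw [div_pow, ← mul_div_assoc, div_le_iff₀ (by positivity)] at h1
    exact h1
  obtain ⟨κ, hκ, Hκ⟩ := scale (A := CD * Λ) hb hτ (by positivity) heD
  -- the projection of `q` to the leaf `C` of `z'`
  obtain ⟨w₀, w1, w2, -, -, -, -⟩ := HP z' q (H1.wl_mono hqz (by linarith))
  have hfin : w₀ = z' := by
    refine eq_of_tend (B := Real.exp (b / τ)) (R := R) (A := Λ * κ * CH') (m₀ := m₀)
      (Real.exp_pos _).le hR0.le ?_ (fun m hm => ?_)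
    · rw [hR, ← Real.exp_log (pow_pos hlg0 J), ← Real.exp_add, Real.exp_lt_one_iff, Real.log_pow]
      have : b / τ < J * -Real.log lg := by
        rw [div_lt_iff₀ hτ]
        linarith
      linarith
    obtain ⟨ρ, hρ, hρ1, hρ2⟩ := Hκ m
    obtain ⟨K, d, hK, hd0, hdK, hdx, hd⟩ := HL ρ hρ a z ⟨H1.wl_mono hz.1 e1, hz.2⟩
    have : Nonempty M := ⟨a⟩
    -- the brackets
    have hbr : ∀ i ≤ K, ∃ w, w ∈ Wl f η z' ∧ w ∈ Wl f.symm η (d i) := by
      intro i hi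
      refine Hb _ _ ?_
      have h1 : dist z' z ≤ δb / 4 := (H1.wl_dist hz').trans e2
      have h2 : dist (d i) a ≤ δb / 4 := (H1.wl_dist (hdx i hi)).trans (min_le_right _ _)
      have h2' : dist z a ≤ δb / 4 := (H1.wl_dist hz.1).trans e2
      have h3 := dist_triangle z' z (d i)
      have h4 := dist_triangle_right z (d i) a
      linarith
    choose! p hp1 hp2 using hbr
    have hpz : p K = z' := by
      refine hp.one.br.unique z' z _ _ (H1.wl_mono (hp1 K le_rfl) hη1) ?_ (H1.wl_self hε.le z')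
        (H1.wl_mono hz' (e3.trans hη1))
      have := hp2 K le_rfl
      rw [hdK] at this
      exact H1.wl_mono this hη1
    have hpq : p 0 = q := by
      refine hp.one.br.unique z' a _ _ (H1.wl_mono (hp1 0 (Nat.zero_le _)) hη1) ?_
        (H1.wl_mono hqz (e3.trans hη1)) (H1.wl_mono hq (e3.trans hη1))
      have := hp2 0 (Nat.zero_le _)
      rw [hd0] at this
      exact H1.wl_mono this hη1
    -- the projections to the leaf `C` of `z'`
    have hfi : ∀ i ≤ K, ∃ w, Dbl f g z' w ∧ Dbl f g.symm w (p i) ∧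
        w ∈ Wl f (eH / 2) z' ∧ w ∈ Wl f (eH / 2) (p i) := by
      intro i hi
      obtain ⟨w, h1, h2, h3, h4, -, -⟩ := HP z' (p i) (H1.wl_mono (hp1 i hi) (by linarith))
      exact ⟨w, h1, h2, h3, h4⟩
    choose! φ hφ1 hφ2 hφ3 hφ4 using hfi
    have hest : ∀ i < K, dist (φ i) (φ (i + 1)) ≤ CH' * R ^ m := by
      intro i hi
      obtain ⟨hc1', hc2'⟩ := hd i hi
      have hi' : i ≤ K := hi.le
      have hi1 : i + 1 ≤ K := hi
      have hpp : p (i + 1) ∈ Wl f (η + η) (p i) :=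
        H1.wl_trans (hp1 (i + 1) hi1) (H1.wl_symm (hp1 i hi'))
      obtain ⟨v, v1, v2, v3, -, -, -⟩ := HP (p i) (p (i + 1)) (H1.wl_mono hpp (by linarith))
      have hv : dist v (p i) ≤ CD * Real.exp (-(c * m)) := by
        refine HD m (d i) (d (i + 1)) (p i) (p (i + 1)) v
          ⟨H1.wl_mono hc1'.1 (min_le_left _ _), hc1'.2⟩ ?_
          (H1.wl_mono (hp2 i hi') (by linarith)) (H1.wl_mono (hp2 (i + 1) hi1) (by linarith))
          (H1.wl_mono hpp (by linarith)) v1 v2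
        have h1 : CD * Real.exp (b * m) * (Λ * ρ ^ τ) = CD * Λ * Real.exp (b * m) * ρ ^ τ := by
          ring
        exact (mul_le_mul_of_nonneg_left hc2' (by positivity)).trans (h1.le.trans hρ1)
      have h5 := HH (J * m) (p i) v (φ i) (φ (i + 1)) (H1.wl_mono v3 (by linarith))
        (H1.wl_mono (hφ4 i hi') (by linarith)) ?_ v1 (dbl_symm (hφ2 i hi'))
        (dbl_trans v2 (dbl_symm (hφ2 (i + 1) hi1)))
        (dbl_trans (dbl_symm (hφ1 i hi')) (hφ1 (i + 1) hi1)) ?_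
      · rw [pow_mul, ← hR] at h5
        exact h5
      · refine H1.wl_mono (H1.wl_trans (hφ3 (i + 1) hi1) (H1.wl_symm (hp1 i hi'))) (by linarith)
      · rw [pow_mul, pow_mul, ← hR, dist_comm]
        refine (mul_le_mul_of_nonneg_right hv (by positivity)).trans ?_
        have h6 := hm₀ m hm
        rw [mul_pow] at h6
        have h7 : Real.exp (-(c * m)) = Real.exp (-c) ^ m := by
          rw [← Real.exp_nat_mul]
          congr 1
          ring
        rw [h7]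
        calc CD * Real.exp (-c) ^ m * (L ^ J) ^ m = CD * (Real.exp (-c) ^ m * (L ^ J) ^ m) := by
              ring
          _ ≤ eH * R ^ m := h6
    have hsum := chain_dist φ K _ hest
    have h0 : φ 0 = w₀ := by
      have a1 := hφ1 0 (Nat.zero_le _)
      have a2 := hφ2 0 (Nat.zero_le _)
      rw [hpq] at a2
      exact prod2 hp (dbl_trans (dbl_symm a1) w1) (dbl_trans a2 (dbl_symm w2))
    have h1 : φ K = z' := by
      refine (prod2 hp (hφ1 K le_rfl) (dbl_symm ?_)).symm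
      have := hφ2 K le_rfl
      rwa [hpz] at this
    rw [h0, h1] at hsum
    refine hsum.trans ?_
    have h2 : (K : ℝ) ≤ Λ * (κ * Real.exp (b / τ) ^ m) := by
      refine hK.trans ?_
      rw [div_eq_mul_one_div]
      exact mul_le_mul_of_nonneg_left hρ2 hΛ.le
    calc (K : ℝ) * (CH' * R ^ m) ≤ Λ * (κ * Real.exp (b / τ) ^ m) * (CH' * R ^ m) :=
          mul_le_mul_of_nonneg_right h2 (by positivity)
      _ = Λ * κ * CH' * (Real.exp (b / τ) * R) ^ m := by rw [mul_pow]; ring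
  rw [hfin] at w2
  exact dbl_symm w2

end Pool.Agent.Lib.MP610fe3.HR
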