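import Pool.Agent.Lib.MP_610fe3_an.HR.F4SSpec
import Pool.Agent.Lib.MP_610fe3_an.HR.F1DEFC
import Pool.Agent.Lib.MP_610fe3_an.HR.F1L31

/-!
# Module DEFX (hive F4): the defect in the direction `C` of a thin rectangle, in all dimensions
-/

set_option autoImplicit false

open Set Filter Function Bundle
open scoped Topology Manifold ContDiff

namespace Pool.Agent.Lib.MP610fe3.HR

open Cf CH

universe u

open F1DEFCAux in
/-- **Module DEFX.** -/
theorem specDefx : SpecDefx.{u} := by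
  intro M _ _ f g ε C l c b hP hcdc hxgr hb
  obtain ⟨δ, C₁, hδ, hC₁, hcd⟩ := hcdc
  obtain ⟨δ₁, hδ₁, H1'⟩ := specL31 M f g ε C l hP δ hδ
  obtain ⟨e₁, C₂, he₁, hC₂, H2⟩ := hxgr (δ₁ / 3) (by positivity)
  have hC₂0 : 0 < C₂ := by linarith
  refine ⟨min e₁ (δ₁ / 3), max C₂ (C₁ * δ), lt_min he₁ (by positivity),
    lt_of_lt_of_le hC₂0 (le_max_left _ _), ?_⟩
  intro m x y x' y' v hy hd hx' hy' hxy hv hv'
  have m1 : min e₁ (δ₁ / 3) ≤ e₁ := min_le_left _ _
  have m2 : min e₁ (δ₁ / 3) ≤ δ₁ / 3 := min_le_right _ _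
  have hy1 : y ∈ Lf f g.symm e₁ x := ⟨H1.wl_mono hy.1 m1, hy.2⟩
  have hd1 : C₂ * Real.exp (b * m) * dist y x ≤ e₁ := by
    refine le_trans ?_ (hd.trans m1)
    exact mul_le_mul_of_nonneg_right
      (mul_le_mul_of_nonneg_right (le_max_left _ _) (by positivity)) dist_nonneg
  have a1 := (H2 m x y hy1 hd1).1
  have a2 : f.symm^[m] y' ∈ Wl f δ₁ (f.symm^[m] x') :=
    wl_past (by linarith) (by positivity) a1 (H1.wl_mono hx' m2) (H1.wl_mono hy' m2)
      (H1.wl_mono hxy m2)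
  obtain ⟨v', b1, b2, b3, -, b5, -⟩ := H1' _ _ a2
  have c1 := hcd _ _ b3 b5 m
  rw [H1.iter_symm_iter] at c1
  -- `f^m v' = v`
  have e1 : Dbl f g x' (f^[m] v') := by
    have := dbl_iter hP.comm m b1
    rwa [H1.iter_symm_iter] at this
  have e2 : Dbl f g.symm (f^[m] v') y' := by
    have := dbl_iter hP.symm_right.comm m b2
    rwa [H1.iter_symm_iter] at this
  have e3 : v = f^[m] v' := PRODAux.prod2 hP (PRODAux.dbl_trans (PRODAux.dbl_symm hv) e1)
    (PRODAux.dbl_trans hv' (PRODAux.dbl_symm e2))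
  rw [e3]
  have c2 : dist v' (f.symm^[m] x') ≤ δ := b3 0
  calc dist (f^[m] v') x' ≤ C₁ * Real.exp (-(c * m)) * dist v' (f.symm^[m] x') := c1
    _ ≤ C₁ * Real.exp (-(c * m)) * δ := mul_le_mul_of_nonneg_left c2 (by positivity)
    _ = C₁ * δ * Real.exp (-(c * m)) := by ring
    _ ≤ max C₂ (C₁ * δ) * Real.exp (-(c * m)) :=
      mul_le_mul_of_nonneg_right (le_max_right _ _) (by positivity)

end Pool.Agent.Lib.MP610fe3.HR
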