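import Pool.Agent.Lib.MP_610fe3_an.HR.F4Spec
import Pool.Agent.Lib.MP_610fe3_an.HR.PROD
import Pool.Agent.Lib.MP_610fe3_an.HR.DBL
import Pool.Agent.Lib.MP_610fe3_an.HR.F1L31
import Pool.Agent.Lib.MP_610fe3_an.HR.F2UC
import Pool.Agent.Lib.MP_610fe3_an.HR.F2UCS

/-!
# Module ENT (hive F4): the entrance time
-/

set_option autoImplicit false

open Set Filter Function
open scoped Topology

namespace Pool.Agent.Lib.MP610fe3.HR

open Cf CH

universe u

namespace F4ENTAux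

open F2UCAux F2UCSAux

/-- The local form of the statement. -/
theorem ent_local {M : Type u} [MetricSpace M] [CompactSpace M] {f g : M ≃ₜ M} {ε C l : ℝ}
    (hp : Pair f g ε C l) {A : Set M} (hA : GB f g A) {η δ : ℝ} (hη : 0 < η) (hδ : 0 < δ)
    (w : M) : ∃ r : ℝ, 0 < r ∧ ∃ T : ℕ, ∀ w', dist w' w < r → Lf f g.symm η w' ⊆ UY f g A →
      ∀ n : ℕ, T ≤ n → ∃ a ∈ A, a ∈ Lf f.symm g δ (f.symm^[n] w') := by
  obtain ⟨hr, hs, -⟩ := specDbl M f g.symm hp.symm_right.comm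
  by_cases hw : w ∈ RB f A
  · obtain ⟨δ₃, hδ₃, hL⟩ := specL31 M f g ε C l hp η hη
    obtain ⟨δ₂, hδ₂, hB⟩ := hp.one.br.exist (min ε δ₃) (lt_min hp.one.br.ε_pos hδ₃)
    refine ⟨δ₂, hδ₂, 0, fun w' hw' hsub => ?_⟩
    exfalso
    obtain ⟨v, hv1, hv2⟩ := hB w' w hw'
    obtain ⟨z, hz1, hz2, -, hz4, -, -⟩ := hL v w' (wl_mono (min_le_right _ _) (wl_symm hv1))
    obtain ⟨-, hs', -⟩ := specDbl M f g hp.comm
    have hzm : z ∈ UY f g A := hsub ⟨hz4, hs _ _ hz2⟩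
    have hv : v ∈ UY f g A :=
      specUcs specProd specDbl M f g ε C l hp A hA.sat z v hzm (hs' _ _ hz1)
    obtain ⟨a, ha, hva⟩ := hv
    obtain ⟨-, -, -, -, hfa, -⟩ := specDbl M f.symm g hp.symm_left.comm
    exact hw a ha (fw_trans (fw_symm (fa_of_wl hp.one.decu (wl_mono (min_le_left _ _) hv2)))
      (hfa _ _ hva))
  · obtain ⟨N, r, hr', H⟩ := specUc specL31 specDbl M f g ε C l hp A hA δ hδ w hw
    refine ⟨r, hr', N, fun w' hw' hsub n hn => ?_⟩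
    have hw'U : w' ∈ UY f g A :=
      hsub ⟨fun k => by rw [dist_self]; exact hη.le, hr _⟩
    obtain ⟨a, ha, haL⟩ := H w' hw'U hw'
    obtain ⟨j, rfl⟩ := Nat.exists_eq_add_of_le' hn
    refine ⟨f.symm^[j] a, F2UCAux.mem_iter hA.inv j ha, ?_⟩
    rw [iterate_add_apply]
    refine ⟨fun k => ?_, dbl_iter specDbl hp.comm j haL.2⟩
    rw [← iterate_add_apply, ← iterate_add_apply]
    exact haL.1 (k + j)

end F4ENTAux

/-- **Module ENT.** -/
theorem specEnt : SpecEnt.{u} := by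
  intro M _ _ f g ε C l hp A hA η δ hη hδ
  choose r hr T hT using F4ENTAux.ent_local hp hA hη hδ
  obtain ⟨t, ht⟩ := CompactSpace.elim_nhds_subcover (fun w => Metric.ball w (r w))
    fun w => Metric.ball_mem_nhds w (hr w)
  refine ⟨t.sup T, fun w hsub n hn => ?_⟩
  have hw : w ∈ ⋃ x ∈ t, Metric.ball x (r x) := by
    rw [ht]
    trivial
  obtain ⟨x, hx, hwx⟩ := mem_iUnion₂.1 hw
  exact hT x w hwx hsub n ((Finset.le_sup hx).trans hn)

end Pool.Agent.Lib.MP610fe3.HR
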