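import Pool.Agent.Lib.MP_610fe3_an.HR.F4Spec

/-!
# Module EXL: `f.symm` expands small leaves `X`
-/

set_option autoImplicit false

open Set Filter Function Bundle Metric
open scoped Topology Manifold ContDiff

namespace Pool.Agent.Lib.MP610fe3.HR

open Cf CH
open T6 (Sys Sc Lad Dom HolMap)

universe u v w

namespace F4EXLAux

variable {M : Type*}

theorem iis [TopologicalSpace M] (f : M ≃ₜ M) (n : ℕ) (x : M) : f^[n] (f.symm^[n] x) = x :=
  Function.LeftInverse.iterate f.apply_symm_apply n x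

/-- going forward from the past, at most to the time `0` -/
theorem iis_le [TopologicalSpace M] (f : M ≃ₜ M) {k n : ℕ} (h : k ≤ n) (x : M) :
    f^[k] (f.symm^[n] x) = f.symm^[n - k] x := by
  obtain ⟨j, rfl⟩ := Nat.exists_eq_add_of_le h
  rw [iterate_add_apply, iis, Nat.add_sub_cancel_left]

/-- going forward from the past, beyond the time `0` -/
theorem iis_ge [TopologicalSpace M] (f : M ≃ₜ M) {k n : ℕ} (h : n ≤ k) (x : M) :
    f^[k] (f.symm^[n] x) = f^[k - n] x := by
  obtain ⟨j, rfl⟩ := Nat.exists_eq_add_of_le h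
  rw [Nat.add_comm, iterate_add_apply, iis, Nat.add_sub_cancel]

end F4EXLAux

open F4EXLAux

/-- Module EXL. -/
theorem specExl : SpecExl.{u} := by
  intro M _ _ f g ε C l hp
  have hd := hp.one.decs
  refine ⟨ε, hd.ε_pos, fun η hη => ?_⟩
  have hC : 0 < C := lt_of_lt_of_le one_pos hd.one_le
  obtain ⟨l₂, hl₂⟩ := exists_pow_lt_of_lt_one
    (show (0 : ℝ) < η / (C * ε) by have := hd.ε_pos; positivity) hd.l_lt
  refine ⟨l₂, fun n p p' hpp h => ?_⟩
  by_contra hcon
  push Not at hcon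
  obtain ⟨k, hk, hk'⟩ := h
  have hw : f.symm^[n + l₂] p' ∈ Wl f ε (f.symm^[n + l₂] p) := by
    intro j
    rcases le_total j (n + l₂) with hj | hj
    · rw [iis_le f hj, iis_le f hj, dist_comm]
      exact hcon _ (Nat.sub_le _ _)
    · rw [iis_ge f hj, iis_ge f hj]
      exact hpp _
  have h2 : n + l₂ - k ≤ n + l₂ := Nat.sub_le _ _
  have h1 := hd.dec _ _ hw (n + l₂ - k)
  rw [iis_le f h2, iis_le f h2, show n + l₂ - (n + l₂ - k) = k by omega, dist_comm] at h1
  have h3 : dist (f.symm^[n + l₂] p') (f.symm^[n + l₂] p) ≤ ε := by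
    rw [dist_comm]
    exact hcon _ le_rfl
  have h4 : l ^ (n + l₂ - k) ≤ l ^ l₂ := pow_le_pow_of_le_one hd.l_pos.le hd.l_lt.le (by omega)
  have h5 : C * l ^ (n + l₂ - k) * dist (f.symm^[n + l₂] p') (f.symm^[n + l₂] p) ≤
      C * l ^ l₂ * ε := by
    have h6 : 0 ≤ C * l ^ (n + l₂ - k) := by
      have := hd.l_pos
      positivity
    have h7 : C * l ^ (n + l₂ - k) ≤ C * l ^ l₂ := mul_le_mul_of_nonneg_left h4 hC.le
    exact mul_le_mul h7 h3 dist_nonneg (h6.trans h7)
  have h8 : C * l ^ l₂ * ε < η := by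
    have h9 := (lt_div_iff₀ (mul_pos hC hd.ε_pos)).1 hl₂
    calc C * l ^ l₂ * ε = l ^ l₂ * (C * ε) := by ring
      _ < η := h9
  linarith

end Pool.Agent.Lib.MP610fe3.HR
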