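import Pool.Agent.Lib.MP_610fe3_an.HR.F4Spec
import Pool.Agent.Lib.MP_610fe3_an.HR.F1GAEX

/-!
# Module GBX: GBEX with the description of the set
-/

set_option autoImplicit false

open Set Filter Function
open scoped Topology

namespace Pool.Agent.Lib.MP610fe3.HR

open Cf CH

universe u v w

namespace F4GBXAux

open F1GAEXAux MINAux

theorem gaex (hDbl : SpecDbl.{u}) (hProd : SpecProd.{u}) (hBas : SpecBas.{u})
    (hMin : SpecMin.{u}) (M : Type u) [MetricSpace M] [CompactSpace M] (f g : M ≃ₜ M)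
    (ε C l : ℝ) (P : Pair f g ε C l) (A : Set M) (hA : Minimal (· ∈ Sset f.symm) A) :
    ∃ (A' : Set M) (N : ℕ), 0 < N ∧ f^[N] '' A = A ∧ GA f g A' ∧ A ⊆ A' ∧
      (∀ a ∈ A', ∃ i < N, a ∈ f^[i] '' A) ∧
      ∀ p ∈ A, ∀ y, Dbl f g.symm p y → y ∈ A' → y ∈ A := by
  obtain ⟨N, hN, hinv⟩ := inv_of_minimal P hA
  have hmin : ∀ i, Minimal (· ∈ Sset f.symm) (f^[i] '' A) := minimal_iter hA
  have hcomm := P.comm
  have hcomm' : ∀ x, f (g.symm x) = g.symm (f x) := P.symm_right.comm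
  have hD := hDbl M f g hcomm
  have hD' := hDbl M f g.symm hcomm'
  set A' : Set M := ⋃ i ∈ Finset.range N, f^[i] '' A with hA'
  have hmem : ∀ x, x ∈ A' ↔ ∃ i < N, x ∈ f^[i] '' A := by
    intro x
    simp only [hA', mem_iUnion, Finset.mem_range, exists_prop]
  have hcl : IsClosed A' := by
    refine (Finset.range N).finite_toSet.isClosed_biUnion fun i _ => (hmin i).1.1
  have hsat : Sat f.symm A' := by
    intro x hx y hxy
    obtain ⟨i, hi, hxi⟩ := (hmem x).1 hx
    exact (hmem y).2 ⟨i, hi, (hmin i).1.2.2 x hxi y hxy⟩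
  have hinv1 : f '' A' = A' := by
    apply Subset.antisymm
    · rintro _ ⟨x, hx, rfl⟩
      obtain ⟨i, hi, z, hz, rfl⟩ := (hmem x).1 hx
      rw [← iterate_succ_apply' (f : M → M)]
      by_cases h : i + 1 < N
      · exact (hmem _).2 ⟨i + 1, h, z, hz, rfl⟩
      · have h1 : i.succ = N := by omega
        refine (hmem _).2 ⟨0, hN, ?_⟩
        rw [iterate_zero, image_id, h1, ← hinv]
        exact ⟨z, hz, rfl⟩
    · intro x hx
      obtain ⟨i, hi, hxi⟩ := (hmem x).1 hx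
      rcases Nat.eq_zero_or_pos i with h0 | h0
      · rw [h0, iterate_zero, image_id, ← hinv] at hxi
        obtain ⟨z, hz, rfl⟩ := hxi
        refine ⟨f^[N - 1] z, (hmem _).2 ⟨N - 1, by omega, z, hz, rfl⟩, ?_⟩
        rw [← iterate_succ_apply' (f : M → M), Nat.succ_eq_add_one, Nat.sub_add_cancel hN]
      · obtain ⟨z, hz, rfl⟩ := hxi
        refine ⟨f^[i - 1] z, (hmem _).2 ⟨i - 1, by omega, z, hz, rfl⟩, ?_⟩
        rw [← iterate_succ_apply' (f : M → M), Nat.succ_eq_add_one, Nat.sub_add_cancel h0]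
  refine ⟨A', N, hN, hinv, ⟨hcl, hsat, hinv1, ?_, ?_⟩, ?_, fun a ha => (hmem a).1 ha, ?_⟩
  · -- (S2)
    intro a ha a' ha' y hy hya'
    obtain ⟨i, hi, hai⟩ := (hmem a).1 ha
    obtain ⟨j, hj, haj⟩ := (hmem a').1 ha'
    have h1 : FwdAsymp f a y := hD'.2.2.2.2.1 a y hy
    have h2 : FwdAsymp g.symm a y := hD'.2.2.2.2.2.1 a y hy
    have h3 : FwdAsymp f y a' := hD.2.2.2.2.1 y a' hya'
    have h4 : FwdAsymp g y a' := hD.2.2.2.2.2.1 y a' hya'
    have h5 := eq_of_asymp (hmin i) (hmin j) hN (iter_inv hinv i) (iter_inv hinv j) hai haj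
      (fa_trans h1 h3)
    rw [← h5] at haj
    exact (hmem y).2 ⟨i, hi, mem_of_asymp hBas hMin P (hmin i) hai haj (fa_symm h2) h4
      ⟨a', haj, h3⟩⟩
  · -- (S3)
    intro m hm
    exact exists_exit hDbl hProd hBas P hcl hsat one_pos (by rwa [iterate_one]) hm
  · intro x hx
    exact (hmem x).2 ⟨0, hN, by rwa [iterate_zero, image_id]⟩
  · rintro p hp y hy hyA'
    obtain ⟨j, hj, hyj⟩ := (hmem y).1 hyA'
    have h1 : FwdAsymp f p y := hD'.2.2.2.2.1 p y hy
    have h2 := eq_of_asymp hA (hmin j) hN hinv (iter_inv hinv j) hp hyj h1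
    rwa [← h2] at hyj

/-- images under the iterates of `f.symm` -/
theorem image_symm_iter {M : Type*} [TopologicalSpace M] (f : M ≃ₜ M) (n : ℕ) (A B : Set M)
    (h : f.symm^[n] '' A = B) : f^[n] '' B = A := by
  rw [← h, ← image_comp]
  have : (f^[n] : M → M) ∘ f.symm^[n] = id := funext fun x =>
    (Function.LeftInverse.iterate f.apply_symm_apply n) x
  rw [this, image_id]

end F4GBXAux

open F4GBXAux in
/-- **Module GBX.** -/
theorem specGbx (hDbl : SpecDbl.{u}) (hProd : SpecProd.{u}) (hBas : SpecBas.{u})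
    (hMin : SpecMin.{u}) : SpecGbx.{u} := by
  intro M _ _ f g ε C l P A hA
  obtain ⟨A', N, hN, hinv, hG, hsub, hdes, hper⟩ :=
    gaex hDbl hProd hBas hMin M f.symm g.symm ε C l P.symm_both A hA
  have hinv' : f^[N] '' A = A := image_symm_iter f N A A hinv
  refine ⟨A', N, hN, hinv', ⟨hG.closed, hG.sat, ?_, hG.s2, hG.s3⟩, hsub, fun a ha => ?_,
    fun p hp _ y hy hyA => hper p hp y hy hyA⟩
  · have h := hG.inv
    rw [← h, ← image_comp]
    have : (f : M → M) ∘ f.symm = id := funext fun x => f.apply_symm_apply x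
    rw [this, image_id, h]
  · obtain ⟨i, hi, hai⟩ := hdes a ha
    refine ⟨N - i, ?_⟩
    obtain ⟨z, hz, rfl⟩ := hai
    rw [← hinv'] at hz
    obtain ⟨x, hx, rfl⟩ := hz
    refine ⟨x, hx, ?_⟩
    have h1 : f^[N] x = f^[i] (f^[N - i] x) := by
      rw [← iterate_add_apply]
      congr 2
      omega
    rw [h1]
    exact ((Function.LeftInverse.iterate f.symm_apply_apply i) _).symm

end Pool.Agent.Lib.MP610fe3.HR
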