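import Pool.Agent.Lib.MP_610fe3_an.HR.F4Spec

/-!
# Module GRP: pigeonhole
-/

set_option autoImplicit false

open Set Filter Function Bundle Metric
open scoped Topology Manifold ContDiff

namespace Pool.Agent.Lib.MP610fe3.HR

open Cf CH

universe u v w

namespace F4GRPAux

theorem equi {M : Type u} [MetricSpace M] [CompactSpace M] (F : M ≃ₜ M) (T : ℕ) (η : ℝ)
    (hη : 0 < η) :
    ∃ δ : ℝ, 0 < δ ∧ ∀ x y : M, dist x y < δ → ∀ k ≤ T, dist (F^[k] x) (F^[k] y) ≤ η := by
  induction T with
  | zero =>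
    refine ⟨η, hη, fun x y h k hk => ?_⟩
    rw [Nat.le_zero.1 hk]
    exact h.le
  | succ T ih =>
    obtain ⟨δ₁, h1, H1⟩ := ih
    have hc : Continuous (F^[T + 1]) := F.continuous.iterate (T + 1)
    obtain ⟨δ₂, h2, H2⟩ := Metric.uniformContinuous_iff.1
      (CompactSpace.uniformContinuous_of_continuous hc) η hη
    refine ⟨min δ₁ δ₂, lt_min h1 h2, fun x y h k hk => ?_⟩
    rcases Nat.lt_or_ge k (T + 1) with h3 | h3
    · exact H1 x y (h.trans_le (min_le_left _ _)) k (by omega)
    · have h4 : k = T + 1 := by omega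
      rw [h4]
      exact (H2 (h.trans_le (min_le_right _ _))).le

end F4GRPAux

open F4GRPAux in
/-- **Module GRP.** -/
theorem specGrp : SpecGrp.{u} := by
  classical
  intro M _ _ F T η hη
  obtain ⟨δ, hδ, H⟩ := equi F T η hη
  obtain ⟨t, -, htf, htc⟩ := finite_cover_balls_of_compact (isCompact_univ (X := M))
    (e := δ / 2) (by positivity)
  have hex : ∀ x : M, ∃ c ∈ htf.toFinset, dist x c < δ / 2 := by
    intro x
    have h1 := htc (mem_univ x)
    simp only [mem_iUnion] at h1
    obtain ⟨c, hc, hx⟩ := h1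
    exact ⟨c, by simpa using hc, hx⟩
  choose g hg1 hg2 using hex
  refine ⟨htf.toFinset.card, fun X => ?_⟩
  rcases X.eq_empty_or_nonempty with rfl | hX
  · refine ⟨∅, Finset.Subset.refl _, by simp, fun x hx => absurd hx (Finset.notMem_empty x)⟩
  obtain ⟨c, hc, hmax⟩ := Finset.exists_max_image htf.toFinset
    (fun c => (X.filter fun x => g x = c).card) ⟨g hX.choose, hg1 _⟩
  have hcard := Finset.card_le_mul_card_image_of_maps_to (f := g) (s := X) (t := htf.toFinset)
    (fun x _ => hg1 x) ((X.filter fun x => g x = c).card) (fun b hb => hmax b hb)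
  refine ⟨X.filter fun x => g x = c, Finset.filter_subset _ _, by rw [mul_comm]; exact hcard, ?_⟩
  intro p hp p' hp' k hk
  have h1 := hg2 p
  have h2 := hg2 p'
  rw [(Finset.mem_filter.1 hp).2] at h1
  rw [(Finset.mem_filter.1 hp').2] at h2
  refine H p p' ?_ k hk
  have h4 := dist_triangle_right p p' c
  linarith

end Pool.Agent.Lib.MP610fe3.HR
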