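import Pool.Agent.Lib.MP_610fe3_an.HR.F4Spec
import Pool.Agent.Lib.MP_610fe3_an.T6.Hol

/-!
# Module HOLL (`T6/Hol.lean` without compactness)
-/

set_option autoImplicit false

open Set Filter Function Metric
open scoped Topology

namespace Pool.Agent.Lib.MP610fe3.HR

universe u

open Cf H6 T4 T6
open T6.TrM T6.HolM in
/-- **Module HOLL.** -/
theorem specHoll : SpecHoll.{u} := by
  intro M _ f u φ C a b κ r r₁ e ρ η ρ₁ hs hc q i m w hD
  have hC := TrM.one_le hs
  have her := TrM.e_le_r hs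
  have he := hs.e_pos
  have hρ := hs.ρ_pos
  have hρ₁ := hc.ρ₁_pos
  have hρρ := hc.ρ₁_le'
  have hηe : η ≤ e := by
    have h1 := hc.η_le
    have h2 := hc.η_pos
    nlinarith
  -- the map
  have hex : ∀ s : EuclideanSpace ℝ (Fin u), ∃ y : EuclideanSpace ℝ (Fin u),
      y ∈ closedBall (0 : EuclideanSpace ℝ (Fin u)) (ρ / 2) ∧
      (s ∈ closedBall (0 : EuclideanSpace ℝ (Fin u)) 1 →
        Lad f e q i (f.symm^[m] (φ w (ρ₁ • s))) (φ (q i) y)) := by
    intro s
    by_cases h : s ∈ closedBall (0 : EuclideanSpace ℝ (Fin u)) 1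
    · have h1 : ρ₁ • s ∈ closedBall (0 : EuclideanSpace ℝ (Fin u)) ρ₁ := by
        rw [mem_closedBall_zero_iff] at h ⊢
        rw [norm_smul, Real.norm_of_nonneg hρ₁.le]
        nlinarith
      obtain ⟨z', hz'⟩ := hD _ h1
      have h2 : z' ∈ Wl f.symm (4 * e) (q i) := by
        obtain ⟨c, -, hc1, -, hc3⟩ := hz'
        have := hc3 i le_rfl
        rw [hc1] at this
        exact Wl_mono (by linarith) this
      obtain ⟨y, hy, hy'⟩ := hs.onto _ _ h2
      exact ⟨y, hy, fun _ => by rw [hy']; exact hz'⟩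
    · exact ⟨0, mem_closedBall_self (by linarith), fun h' => absurd h' h⟩
  choose h hmem hlad using hex
  have hin : ∀ s ∈ closedBall (0 : EuclideanSpace ℝ (Fin u)) 1,
      ρ₁ • s ∈ closedBall (0 : EuclideanSpace ℝ (Fin u)) ρ := by
    intro s h
    rw [mem_closedBall_zero_iff] at h ⊢
    rw [norm_smul, Real.norm_of_nonneg hρ₁.le]
    nlinarith
  have hmem' : ∀ s, h s ∈ closedBall (0 : EuclideanSpace ℝ (Fin u)) ρ := fun s =>
    closedBall_subset_closedBall (by linarith) (hmem s)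
  refine ⟨h, ?_, ?_, fun s _ => hmem s, fun s hs1 => hlad s hs1⟩
  · -- continuity
    intro s hs1
    rw [Metric.continuousWithinAt_iff]
    intro ε hε
    set η₀ : ℝ := e / (16 * C) with hη₀
    have hη₀0 : 0 < η₀ := by positivity
    have h16 : 16 * C * η₀ ≤ e := by
      rw [hη₀]
      field_simp
      exact le_rfl
    obtain ⟨N₀, hN₀⟩ := TrM.exists_time hs i hη₀0
    obtain ⟨n, hn⟩ := HolM.exists_small (x := a) (A := C * C * e) hs.a_pos (half_pos hε)
    set N := max N₀ n with hN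
    have hN2 : C * C * e * Real.exp (-(a * N)) ≤ ε / 2 := by
      refine le_trans ?_ hn
      have h1 : (n : ℝ) ≤ N := by exact_mod_cast le_max_right _ _
      have h2 := hs.a_pos
      have h3 : Real.exp (-(a * N)) ≤ Real.exp (-(a * n)) := by
        apply Real.exp_le_exp.2
        nlinarith
      gcongr
    have hCN : (1 : ℝ) ≤ C ^ N := one_le_pow₀ hC
    refine ⟨η₀ / (C ^ N * C ^ 2 * ρ₁), by positivity, fun s' hs1' hd => ?_⟩
    -- the starting points
    have h1 : f.symm^[m] (φ w (ρ₁ • s')) ∈ Wl f.symm (C ^ 2 * dist (ρ₁ • s') (ρ₁ • s))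
        (f.symm^[m] (φ w (ρ₁ • s))) := Wl_iter (HolM.phi_wl hs w (hin s' hs1') (hin s hs1)) m
    have h2 : dist (ρ₁ • s') (ρ₁ • s) = ρ₁ * dist s' s := by
      rw [dist_smul₀, Real.norm_of_nonneg hρ₁.le]
    have h3 : ∀ k ≤ N, dist (f^[k] (f.symm^[m] (φ w (ρ₁ • s'))))
        (f^[k] (f.symm^[m] (φ w (ρ₁ • s)))) ≤ 2 * η₀ := by
      intro k hk
      refine (HolM.lip_iter hs k _ _).trans ?_
      have a1 : C ^ k ≤ C ^ N := pow_le_pow_right₀ hC hk
      have a2 := Wl_dist h1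
      rw [h2] at a2
      have a3 : C ^ N * (C ^ 2 * (ρ₁ * (η₀ / (C ^ N * C ^ 2 * ρ₁)))) = η₀ := by
        field_simp
      calc C ^ k * dist (f.symm^[m] (φ w (ρ₁ • s'))) (f.symm^[m] (φ w (ρ₁ • s)))
          ≤ C ^ N * (C ^ 2 * (ρ₁ * (η₀ / (C ^ N * C ^ 2 * ρ₁)))) := by
            refine mul_le_mul a1 (a2.trans ?_) dist_nonneg (by positivity)
            gcongr
        _ = η₀ := a3
        _ ≤ 2 * η₀ := by linarith
    have h4 := TrM.fwd hs q i N η₀ _ _ _ _ hη₀0 h16 (hN₀ N (le_max_left _ _))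
      (HolM.lad_mono (by linarith) (hlad s' hs1')) (HolM.lad_mono (by linarith) (hlad s hs1)) h3
    have h5 : φ (q i) (h s') ∈ Wl f.symm r (φ (q i) (h s)) :=
      Wl_mono (by linarith) (Wl_trans (Wl_comm (hs.mem _ _ (hmem' s))) (hs.mem _ _ (hmem' s')))
    have h6 := TrM.close hs h5 (fun j hj => (h4 j hj).trans (by nlinarith)) (h4 N le_rfl)
      (Nat.zero_le N)
    simp only [iterate_zero, id, Nat.sub_zero] at h6
    have h7 := hs.lower (q i) (h s') (hmem' s') (h s) (hmem' s)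
    calc dist (h s') (h s) ≤ C * dist (φ (q i) (h s')) (φ (q i) (h s)) := h7
      _ ≤ C * (C * Real.exp (-(a * N)) * (4 * C * η₀)) := by gcongr
      _ ≤ C * (C * Real.exp (-(a * N)) * e) := by
        have : 4 * C * η₀ ≤ e := by nlinarith
        gcongr
      _ = C * C * e * Real.exp (-(a * N)) := by ring
      _ ≤ ε / 2 := hN2
      _ < ε := by linarith
  · -- openness
    intro t ht
    rw [Metric.isOpen_iff]
    rintro y₀ ⟨s₀, hs0, rfl⟩
    have hs0' : ‖s₀‖ < t := by simpa using hs0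
    have hs1 : s₀ ∈ closedBall (0 : EuclideanSpace ℝ (Fin u)) 1 := by
      rw [mem_closedBall_zero_iff]
      linarith [ht.2]
    have hCm : (0 : ℝ) < C ^ m := by positivity
    set δ' : ℝ := min (e / C ^ m) (ρ₁ * (t - ‖s₀‖) / (2 * (C ^ m * C))) with hδ'
    have hδ'0 : 0 < δ' := lt_min (by positivity) (by
      have : 0 < t - ‖s₀‖ := by linarith
      positivity)
    have hδ'a : C ^ m * δ' ≤ e := by
      have h1 : δ' ≤ e / C ^ m := min_le_left _ _
      rw [le_div_iff₀ hCm] at h1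
      linarith
    have hδ'b : 2 * (C ^ m * C * δ') ≤ ρ₁ * (t - ‖s₀‖) := by
      have h1 : δ' ≤ ρ₁ * (t - ‖s₀‖) / (2 * (C ^ m * C)) := min_le_right _ _
      rw [le_div_iff₀ (by positivity)] at h1
      linarith
    obtain ⟨δ, hδ, hnear⟩ := HolM.near hs i hδ'0
    refine ⟨min (ρ / 2) (min (δ / C) (e / C ^ 2)), by positivity, fun y hy => ?_⟩
    rw [mem_ball, lt_min_iff, lt_min_iff] at hy
    obtain ⟨hy1, hy2, hy3⟩ := hy
    have hyρ : y ∈ closedBall (0 : EuclideanSpace ℝ (Fin u)) ρ := by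
      have a1 := hmem s₀
      rw [mem_closedBall] at a1 ⊢
      linarith [dist_triangle y (h s₀) 0]
    have hX : dist (φ (q i) y) (φ (q i) (h s₀)) ≤ δ := by
      refine (hs.upper _ _ hyρ _ (hmem' s₀)).trans ?_
      rw [lt_div_iff₀ (by positivity)] at hy2
      linarith
    have hXq : φ (q i) y ∈ Wl f.symm (2 * e) (q i) := by
      have a1 := HolM.phi_wl hs (q i) hyρ (hmem' s₀)
      have a2 : φ (q i) (h s₀) ∈ Wl f.symm e (q i) := by
        obtain ⟨c, -, hc1, -, hc3⟩ := hlad s₀ hs1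
        have := hc3 i le_rfl
        rwa [hc1] at this
      refine Wl_mono ?_ (Wl_trans a2 a1)
      rw [lt_div_iff₀ (by positivity)] at hy3
      linarith
    obtain ⟨z, hz1, hz2⟩ := hnear q _ _ _ (hlad s₀ hs1) hX hXq
    -- the point `f^m z` in the disc
    have h1 : f^[m] z ∈ Wl f.symm (C ^ m * δ') (φ w (ρ₁ • s₀)) := by
      have a0 : φ w (ρ₁ • s₀) = f^[m] (f.symm^[m] (φ w (ρ₁ • s₀))) := (TrM.iis f m _).symm
      rw [a0]
      intro j
      rcases le_or_gt j m with hj | hj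
      · rw [TrM.sii_le f hj, TrM.sii_le f hj]
        refine (HolM.lip_iter hs _ _ _).trans ?_
        have a1 : C ^ (m - j) ≤ C ^ m := pow_le_pow_right₀ hC (Nat.sub_le _ _)
        have a2 := Wl_dist hz1
        gcongr
      · obtain ⟨l, rfl⟩ := Nat.exists_eq_add_of_le hj.le
        rw [add_comm, iterate_add_apply, iterate_add_apply, TrM.sii, TrM.sii]
        have a1 := hz1 l
        have a2 : (1 : ℝ) ≤ C ^ m := one_le_pow₀ hC
        refine a1.trans ?_
        nlinarith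
    have hρ0 : (0 : EuclideanSpace ℝ (Fin u)) ∈ closedBall (0 : EuclideanSpace ℝ (Fin u)) ρ :=
      mem_closedBall_self hρ.le
    have h2 : f^[m] z ∈ Wl f.symm (4 * e) w := by
      have a1 := HolM.phi_wl hs w (hin s₀ hs1) hρ0
      rw [hs.zero, dist_zero_right, norm_smul, Real.norm_of_nonneg hρ₁.le] at a1
      have a2 : C ^ 2 * (ρ₁ * ‖s₀‖) ≤ e := by
        have a3 := hc.ρ₁_le
        have a4 : ‖s₀‖ ≤ 1 := by simpa using hs1
        have a5 : C ^ 2 * (ρ₁ * ‖s₀‖) ≤ C ^ 2 * (ρ₁ * 1) := by gcongr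
        linarith
      refine Wl_mono ?_ (Wl_trans a1 h1)
      linarith
    obtain ⟨x, hx, hxz⟩ := hs.onto w _ h2
    have hxρ : x ∈ closedBall (0 : EuclideanSpace ℝ (Fin u)) ρ :=
      closedBall_subset_closedBall (by linarith) hx
    have h3 : dist x (ρ₁ • s₀) ≤ C * (C ^ m * δ') := by
      refine (hs.lower w x hxρ _ (hin s₀ hs1)).trans ?_
      rw [hxz]
      have := Wl_dist h1
      gcongr
    set s : EuclideanSpace ℝ (Fin u) := ρ₁⁻¹ • x with hsdef
    have hsx : ρ₁ • s = x := by rw [hsdef, smul_smul, mul_inv_cancel₀ hρ₁.ne', one_smul]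
    have h4 : dist s s₀ < t - ‖s₀‖ := by
      have a1 : ρ₁ * dist s s₀ = dist x (ρ₁ • s₀) := by
        rw [← hsx, dist_smul₀, Real.norm_of_nonneg hρ₁.le]
      have a2 : ρ₁ * dist s s₀ < ρ₁ * (t - ‖s₀‖) := by
        rw [a1]
        have a3 : 0 < ρ₁ * (t - ‖s₀‖) := by
          have : 0 < t - ‖s₀‖ := by linarith
          positivity
        nlinarith
      exact lt_of_mul_lt_mul_left a2 hρ₁.le
    have h5 : s ∈ ball (0 : EuclideanSpace ℝ (Fin u)) t := by
      rw [mem_ball]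
      have := dist_triangle s s₀ 0
      rw [dist_zero_right s₀] at this
      linarith
    have h6 : s ∈ closedBall (0 : EuclideanSpace ℝ (Fin u)) 1 :=
      closedBall_subset_closedBall ht.2.le (ball_subset_closedBall h5)
    have h7 : f.symm^[m] (φ w (ρ₁ • s)) = z := by rw [hsx, hxz, TrM.sii]
    have h8 := hlad s h6
    rw [h7] at h8
    have h9 : φ (q i) (h s) = φ (q i) y :=
      TrM.unique hs q i z _ _ (HolM.lad_mono (by linarith) h8) hz2
    refine ⟨s, h5, ?_⟩
    have h10 := hs.lower (q i) (h s) (hmem' s) y hyρ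
    rw [h9, dist_self, mul_zero] at h10
    exact dist_le_zero.1 h10

end Pool.Agent.Lib.MP610fe3.HR
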