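import Pool.Agent.Lib.MP_610fe3_an.T6.Level
import Pool.Agent.Lib.MP_610fe3_an.T6.Tr
import Pool.Agent.Lib.MP_610fe3_an.HR.F4Spec

/-!
# Module INRL (hive F4): the inradius of the image of a disc, without compactness

The proof of `T6/Inr.lean` with a set `U` instead of the basin, with BDL instead of the maximal
separated sets of a compact space, and with a delay `l` which depends on `m` and `N`.
-/

set_option autoImplicit false

open Set Filter Function Metric
open scoped Topology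

namespace Pool.Agent.Lib.MP610fe3.HR

open Cf CH
open T6 (Sys Sc Lad Dom HolMap)

universe u v w

namespace F4INRLAux

variable {M : Type*} [MetricSpace M] {f : M ≃ₜ M}

theorem lad_mono {e e' : ℝ} (hee : e ≤ e') {q : ℕ → M} {l : ℕ} {z z' : M}
    (h : Lad f e q l z z') : Lad f e' q l z z' := by
  obtain ⟨c, h0, hl, hc1, hc2⟩ := h
  exact ⟨c, h0, hl, fun k hk => Wl_mono hee (hc1 k hk), fun k hk => Wl_mono hee (hc2 k hk)⟩

theorem lad_end {e : ℝ} {q : ℕ → M} {l : ℕ} {z z' : M} (h : Lad f e q l z z') :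
    z' ∈ Wl f.symm e (q l) := by
  obtain ⟨c, h0, hl, hc1, hc2⟩ := h
  rw [← hl]
  exact hc2 l le_rfl

/-- A set saturated by small stable sets is saturated by ladders. -/
theorem lad_U {e : ℝ} {U : Set M} (hst : ∀ x, ∀ y ∈ Wl f e x, x ∈ U → y ∈ U) {q : ℕ → M} {l : ℕ}
    {z z' : M} (h : Lad f e q l z z') (hz : z ∈ U) : z' ∈ U := by
  obtain ⟨c, h0, hl, hc1, hc2⟩ := h
  have : ∀ k ≤ l, c k ∈ U := by
    intro k
    induction k with
    | zero => intro _; rw [h0]; exact hz
    | succ k ih =>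
      intro hk
      exact hst (c k) (c (k + 1)) (hc1 k (by omega)) (ih (by omega))
  rw [← hl]
  exact this l le_rfl

theorem symm_iter {U : Set M} (hinv : ∀ x, f x ∈ U ↔ x ∈ U) (n : ℕ) :
    ∀ x, f.symm^[n] x ∈ U ↔ x ∈ U := by
  induction n with
  | zero => intro x; rfl
  | succ n ih =>
    intro x
    rw [iterate_succ_apply, ih, ← hinv, f.apply_symm_apply]

/-- The choice of the constants. -/
theorem consts {a a' θ c₀ l₀ : ℝ} (ha' : 0 < a') (haa : a' < a) (hθ : 0 ≤ θ) {m N l : ℕ}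
    (hmN : m ≤ N) (hN : (N : ℝ) ≤ θ * m + c₀)
    (hl : l = ⌈max l₀ 0 + (a - a') / (a * θ + a) * ((N - m : ℕ) : ℝ)⌉₊) :
    l₀ + (a - a') / (a * θ + a) * ((N - m : ℕ) : ℝ) ≤ l ∧
      a * l - a * m ≤ a * (max l₀ 0 + 1 + (a - a') / (a * θ + a) * |c₀|) - a' * m := by
  have ha : 0 < a := ha'.trans haa
  set ϑ : ℝ := (a - a') / (a * θ + a) with hϑ
  have hden : 0 < a * θ + a := by positivity
  have hϑpos : 0 < ϑ := div_pos (by linarith) hden
  have hn : (0 : ℝ) ≤ ((N - m : ℕ) : ℝ) := Nat.cast_nonneg _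
  have h1 := Nat.le_ceil (max l₀ 0 + ϑ * ((N - m : ℕ) : ℝ))
  have h2 := Nat.ceil_lt_add_one (show 0 ≤ max l₀ 0 + ϑ * ((N - m : ℕ) : ℝ) from
    add_nonneg (le_max_right _ _) (mul_nonneg hϑpos.le hn))
  rw [← hl] at h1 h2
  refine ⟨le_trans (by linarith [le_max_left l₀ 0]) h1, ?_⟩
  have h3 : ((N - m : ℕ) : ℝ) ≤ θ * m + |c₀| := by
    rw [Nat.cast_sub hmN]
    have := le_abs_self c₀
    have : (0 : ℝ) ≤ (m : ℝ) := Nat.cast_nonneg _
    linarith
  have h4 : ϑ * ((N - m : ℕ) : ℝ) ≤ ϑ * (θ * m) + ϑ * |c₀| := by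
    rw [← mul_add]
    exact mul_le_mul_of_nonneg_left h3 hϑpos.le
  have h5 : a * (ϑ * (θ * m)) ≤ (a - a') * m := by
    have h6 : a * (ϑ * θ) ≤ a - a' := by
      have h7 : ϑ * (a * θ + a) = a - a' := by
        rw [hϑ]
        field_simp
      nlinarith [mul_pos hϑpos ha]
    have h8 := mul_le_mul_of_nonneg_right h6 (show (0 : ℝ) ≤ (m : ℝ) from Nat.cast_nonneg _)
    calc a * (ϑ * (θ * m)) = a * (ϑ * θ) * m := by ring
      _ ≤ (a - a') * m := h8
  have h9 : a * (l : ℝ) ≤ a * (max l₀ 0 + 1 + (ϑ * (θ * m) + ϑ * |c₀|)) :=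
    mul_le_mul_of_nonneg_left (by linarith) ha.le
  have h10 : a * (max l₀ 0 + 1 + (ϑ * (θ * m) + ϑ * |c₀|)) =
      a * (max l₀ 0 + 1 + ϑ * |c₀|) + a * (ϑ * (θ * m)) := by ring
  linarith

end F4INRLAux

open T6.LevelM F4INRLAux in
/-- INRL. -/
theorem specInrl (hbdl : SpecBdl.{u}) : SpecInrl.{u} := by
  classical
  intro L _ f u φ C a b κ r r₁ e ρ η ρ₁ U hs hsc hinv hst hcnt a' θ c₀ ha' haa hθ
  have hC : 1 ≤ C := one_le hs
  have hC0 : 0 < C := by linarith
  have her := e_le_r hs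
  have he := hs.e_pos
  have hη := hsc.η_pos
  have hρ₁ := hsc.ρ₁_pos
  have hρ := hs.ρ_pos
  have hr := hs.fwd.ε_pos
  have hηe : 16 * η ≤ e := by nlinarith [hsc.η_le]
  have hCCρ : C * (C * ρ₁) ≤ η := by nlinarith [hsc.ρ₁_le]
  have hρ₁ρ : ρ₁ ≤ ρ := by linarith [hsc.ρ₁_le']
  have ha : 0 < a := hs.a_pos
  have hϑpos : 0 < (a - a') / (a * θ + a) := div_pos (by linarith) (by positivity)
  obtain ⟨l₀, hl₀⟩ := hcnt _ hϑpos
  set D : ℝ := a * (max l₀ 0 + 1 + (a - a') / (a * θ + a) * |c₀|) with hD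
  set C₁ : ℝ := (C ^ 2 * η + ρ) * Real.exp D with hC₁
  have hC₁pos : 0 < C₁ := by positivity
  refine ⟨C₁, hC₁pos, ?_⟩
  intro q i m N w h hmN hN hi hw hh p hball
  set l : ℕ := ⌈max l₀ 0 + (a - a') / (a * θ + a) * ((N - m : ℕ) : ℝ)⌉₊ with hldef
  obtain ⟨hl1, hl2⟩ := consts (l₀ := l₀) ha' haa hθ hmN hN hldef
  rw [← hD] at hl2
  set t : ℝ := C₁ * Real.exp (-(a' * m)) with ht
  have htpos : 0 < t := by positivity
  have himg : ∀ x ∈ closedBall p t, x ∈ closedBall (0 : EuclideanSpace ℝ (Fin u)) (ρ / 2) := by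
    intro x hx
    obtain ⟨s, hs1, hs2⟩ := hball hx
    rw [← hs2]
    exact hh.mem s hs1
  have hexp : (C ^ 2 * η + ρ) * Real.exp (a * l - a * m) ≤ t := by
    rw [ht, hC₁, mul_assoc, ← Real.exp_add]
    exact mul_le_mul_of_nonneg_left (Real.exp_le_exp.2 (by linarith)) (by positivity)
  rcases Nat.lt_or_ge m l with hml | hml
  · -- the time is short: the ball is too large
    have h1 : ρ ≤ t := by
      have h2 : (1 : ℝ) ≤ Real.exp (a * l - a * m) := by
        apply Real.one_le_exp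
        have h3 : (m : ℝ) ≤ (l : ℝ) := by exact_mod_cast hml.le
        nlinarith [hs.a_pos]
      have h4 : 0 ≤ C ^ 2 * η := by positivity
      nlinarith
    have : Nonempty (Fin u) := ⟨⟨0, hs.u_pos⟩⟩
    obtain ⟨v, hv⟩ := exists_norm_eq (EuclideanSpace ℝ (Fin u)) htpos.le
    have h2 : p + v ∈ closedBall p t := by
      rw [mem_closedBall, dist_eq_norm, add_sub_cancel_left, hv]
    have h3 : p - v ∈ closedBall p t := by
      rw [mem_closedBall, dist_eq_norm, sub_sub_cancel_left, norm_neg, hv]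
    have h4 := himg _ h2
    have h5 := himg _ h3
    rw [mem_closedBall_zero_iff] at h4 h5
    have h6 : (2 : ℝ) • v = (p + v) - (p - v) := by rw [two_smul]; abel
    have h7 : 2 * t ≤ ‖p + v‖ + ‖p - v‖ := by
      have h8 : ‖(2 : ℝ) • v‖ = 2 * t := by rw [norm_smul, hv]; norm_num
      rw [← h8, h6]
      exact norm_sub_le _ _
    linarith
  · -- the main case
    set m' : ℕ := m - l with hm'
    have hm'm : m' + l = m := by omega
    have hp : p ∈ closedBall p t := mem_closedBall_self htpos.le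
    have hpρ := himg p hp
    obtain ⟨s₀, hs₀, hs₀p⟩ := hball hp
    have hlad₀ := hh.lad s₀ hs₀
    rw [hs₀p] at hlad₀
    have hpq : φ (q i) p ∈ Wl f.symm e (q i) := lad_end hlad₀
    set e₀ : L := f^[m'] (φ (q i) p) with he₀
    have hpρ' : p ∈ closedBall (0 : EuclideanSpace ℝ (Fin u)) ρ :=
      closedBall_subset_closedBall (by linarith) hpρ
    -- the points near `e₀` come from ladders
    have hpt : ∀ z ∈ Wl f.symm η e₀, ∃ s ∈ closedBall (0 : EuclideanSpace ℝ (Fin u)) 1,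
        Lad f e q i (f.symm^[m] (φ w (ρ₁ • s))) (f.symm^[m'] z) := by
      intro z hz
      have h1 : f.symm^[m'] z ∈ Wl f.symm η (φ (q i) p) := by
        have := Wl_iter hz m'
        rwa [he₀, sii] at this
      have h2 : f.symm^[m'] z ∈ Wl f.symm (4 * e) (q i) :=
        Wl_mono (by linarith) (Wl_trans hpq h1)
      obtain ⟨x, hx, hxz⟩ := hs.onto _ _ h2
      have hxρ : x ∈ closedBall (0 : EuclideanSpace ℝ (Fin u)) ρ :=
        closedBall_subset_closedBall (by linarith) hx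
      have h3 := hs.lower (q i) x hxρ p hpρ'
      rw [hxz] at h3
      have h4 := dec_bwd hs (Wl_mono (by linarith : η ≤ r) hz) m'
      rw [he₀, sii] at h4
      have h5 : dist x p ≤ t := by
        calc dist x p ≤ C * dist (f.symm^[m'] z) (φ (q i) p) := h3
          _ ≤ C * (C * Real.exp (-(a * m')) * dist z (f^[m'] (φ (q i) p))) :=
              mul_le_mul_of_nonneg_left h4 hC0.le
          _ ≤ C * (C * Real.exp (-(a * m')) * η) := by
              have := Wl_dist hz
              rw [he₀] at this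
              gcongr
          _ = C ^ 2 * η * Real.exp (a * l - a * m) := by
              have : (m' : ℝ) = m - l := by rw [hm']; push_cast [hml]; ring
              rw [this, show -(a * ((m : ℝ) - l)) = a * l - a * m by ring]
              ring
          _ ≤ (C ^ 2 * η + ρ) * Real.exp (a * l - a * m) := by
              gcongr
              linarith
          _ ≤ t := hexp
      obtain ⟨s, hs1, hs2⟩ := hball (show x ∈ closedBall p t from h5)
      refine ⟨s, hs1, ?_⟩
      have h6 := hh.lad s hs1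
      rwa [hs2, hxz] at h6
    have hsm : ∀ s ∈ closedBall (0 : EuclideanSpace ℝ (Fin u)) 1,
        φ w (ρ₁ • s) ∈ Wl f.symm η w := by
      intro s hs1
      rw [mem_closedBall_zero_iff] at hs1
      refine Wl_mono hCCρ (phi_mem hs ?_ hρ₁ρ)
      rw [norm_smul, Real.norm_of_nonneg hρ₁.le]
      exact mul_le_of_le_one_right hρ₁.le hs1
    -- the unstable set of `e₀` is in `U`
    have hfree : Wl f.symm η e₀ ⊆ U := by
      intro z hz
      obtain ⟨s, hs1, hlad⟩ := hpt z hz
      have h1 : φ w (ρ₁ • s) ∈ U := hw (Wl_mono (by linarith) (hsm s hs1))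
      have h2 : f.symm^[m] (φ w (ρ₁ • s)) ∈ U := (symm_iter hinv m _).2 h1
      have h3 := lad_U hst hlad h2
      exact (symm_iter hinv m' _).1 h3
    -- counting
    obtain ⟨S, hSW, hSsep, hSmax⟩ := hbdl f u φ C a b κ r r₁ e ρ hs w (Wl f.symm η w)
      (Wl_mono (by linarith)) (N - m) η hη
    obtain ⟨S', hcard, hS'W, hS'sep⟩ := hl₀ (N - m) l hl1 w e₀ hw hfree S hSW hSsep
    have hsel : ∀ z : L, ∃ g : L, ∃ g' : L, z ∈ Wl f.symm η e₀ → (g ∈ Wl f.symm η w ∧
        Lad f e q i (f.symm^[m] g) (f.symm^[m'] z) ∧ g' ∈ S ∧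
        ∀ k ≤ N - m, dist (f^[k] g) (f^[k] g') ≤ η) := by
      intro z
      by_cases hz : z ∈ Wl f.symm η e₀
      · obtain ⟨s, hs1, hlad⟩ := hpt z hz
        obtain ⟨g', hg', hg''⟩ := hSmax _ (hsm s hs1)
        exact ⟨φ w (ρ₁ • s), g', fun _ => ⟨hsm s hs1, hlad, hg', hg''⟩⟩
      · exact ⟨z, z, fun h => absurd h hz⟩
    choose G G' hG using hsel
    obtain ⟨z, hz, z', hz', hne, hGG⟩ := Finset.exists_ne_map_eq_of_card_lt_of_maps_to hcard
      (f := G') (fun z hz => (hG z (hS'W z hz)).2.2.1)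
    obtain ⟨g1, g2, -, g4⟩ := hG z (hS'W z hz)
    obtain ⟨g1', g2', -, g4'⟩ := hG z' (hS'W z' hz')
    rw [← hGG] at g4'
    -- the starting points are close
    have hclose : ∀ k ≤ N, dist (f^[k] (f.symm^[m] (G z))) (f^[k] (f.symm^[m] (G z'))) ≤
        2 * η := by
      intro k hk
      rcases le_or_gt k m with hkm | hkm
      · rw [iis_le f hkm, iis_le f hkm]
        have h1 := g1 (m - k)
        have h2 := g1' (m - k)
        rw [dist_comm] at h2
        linarith [dist_triangle (f.symm^[m - k] (G z)) (f.symm^[m - k] w)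
          (f.symm^[m - k] (G z'))]
      · have h1 : k = (k - m) + m := by omega
        rw [h1, iterate_add_apply, iterate_add_apply, iis, iis]
        have h2 := g4 (k - m) (by omega)
        have h3 := g4' (k - m) (by omega)
        rw [dist_comm] at h3
        linarith [dist_triangle (f^[k - m] (G z)) (f^[k - m] (G' z)) (f^[k - m] (G z'))]
    have htr := T6.TrM.fwd hs q i N η _ _ _ _ hη hsc.η_le hi (lad_mono (by linarith) g2)
      (lad_mono (by linarith) g2') hclose
    obtain ⟨k, hk, hk'⟩ := hS'sep z hz z' hz' hne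
    have h1 := htr (k + m') (by omega)
    rw [iterate_add_apply, iterate_add_apply, iis, iis] at h1
    linarith

end Pool.Agent.Lib.MP610fe3.HR
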