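import Pool.Agent.Lib.MP_610fe3_an.HR.F4Spec
import Pool.Agent.Lib.MP_610fe3_an.HR.PROD
import Pool.Agent.Lib.MP_610fe3_an.HR.DBL

/-!
# Module LEAF of hive F4: the leaf metric (helper39)
-/

set_option autoImplicit false

open Set Filter Function Metric
open scoped Topology

namespace Pool.Agent.Lib.MP610fe3.HR

open Cf CH

universe u

namespace F4LEAFAux

/-! ### The metric of a relation -/

/-- A copy of `M`. -/
structure Cp (M : Type u) : Type u where
  v : M

section Met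

variable {M : Type u} [MetricSpace M]

open Classical in
/-- The distance, cut off at `δ`, and equal to `δ` for points which are not related. -/
noncomputable def ds (R : M → M → Prop) (δ : ℝ) (x y : M) : ℝ := if R x y then dist x y else δ

variable {R : M → M → Prop} {δ : ℝ}

theorem ds_of {x y : M} (h : R x y) : ds R δ x y = dist x y := by
  unfold ds
  rw [if_pos h]

theorem ds_not {x y : M} (h : ¬ R x y) : ds R δ x y = δ := by
  unfold ds
  rw [if_neg h]

theorem rel_of_ds {x y : M} (h : ds R δ x y < δ) : R x y := by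
  by_contra h1
  rw [ds_not h1] at h
  exact lt_irrefl _ h

theorem ds_le (hlt : ∀ x y, R x y → dist x y < δ) (x y : M) : ds R δ x y ≤ δ := by
  by_cases h : R x y
  · rw [ds_of h]
    exact (hlt x y h).le
  · rw [ds_not h]

theorem ds_nonneg (h0 : 0 < δ) (x y : M) : 0 ≤ ds R δ x y := by
  by_cases h : R x y
  · rw [ds_of h]
    exact dist_nonneg
  · rw [ds_not h]
    exact h0.le

theorem ds_comm (hsymm : ∀ x y, R x y → R y x) (x y : M) : ds R δ x y = ds R δ y x := by
  by_cases h : R x y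
  · rw [ds_of h, ds_of (hsymm x y h), dist_comm]
  · rw [ds_not h, ds_not fun h' => h (hsymm y x h')]

theorem ds_triangle (h0 : 0 < δ) (hlt : ∀ x y, R x y → dist x y < δ)
    (htr : ∀ x y z, R x y → R y z → dist x z < δ → R x z) (x y z : M) :
    ds R δ x z ≤ ds R δ x y + ds R δ y z := by
  by_cases h1 : R x y
  · by_cases h2 : R y z
    · rw [ds_of h1, ds_of h2]
      have h3 := dist_triangle x y z
      rcases lt_or_ge (dist x z) δ with h4 | h4
      · rw [ds_of (htr x y z h1 h2 h4)]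
        exact h3
      · exact (ds_le hlt x z).trans (h4.trans h3)
    · have h3 := ds_nonneg (R := R) h0 x y
      have h4 := ds_le hlt x z
      rw [ds_not h2]
      linarith
  · have h3 := ds_nonneg (R := R) h0 y z
    have h4 := ds_le hlt x z
    rw [ds_not h1]
    linarith

/-- The metric on the copy. -/
noncomputable def met (R : M → M → Prop) (δ : ℝ) (h0 : 0 < δ) (hlt : ∀ x y, R x y → dist x y < δ)
    (hrefl : ∀ x, R x x) (hsymm : ∀ x y, R x y → R y x)
    (htr : ∀ x y z, R x y → R y z → dist x z < δ → R x z) : MetricSpace (Cp M) where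
  dist x y := ds R δ x.v y.v
  dist_self x := by
    show ds R δ x.v x.v = 0
    rw [ds_of (hrefl _), dist_self]
  dist_comm x y := ds_comm hsymm x.v y.v
  dist_triangle x y z := ds_triangle h0 hlt htr x.v y.v z.v
  eq_of_dist_eq_zero {x y} h := by
    have h1 : ds R δ x.v y.v = 0 := h
    have h2 : R x.v y.v := rel_of_ds (by rw [h1]; exact h0)
    rw [ds_of h2] at h1
    cases x
    cases y
    have h3 := dist_eq_zero.1 h1
    simp only at h3
    rw [h3]

/-- Lipschitz maps. -/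
theorem ds_lip (h0 : 0 < δ) (hlt : ∀ x y, R x y → dist x y < δ) {c : M → M} {K δ₂ C₀ : ℝ}
    (hδ₂ : 0 < δ₂) (hδ₂δ : δ₂ ≤ δ) (hK : ∀ x y, dist (c x) (c y) ≤ K * dist x y)
    (hc : ∀ x y, R x y → dist x y ≤ δ₂ → R (c x) (c y)) (h1 : K ≤ C₀) (h2 : δ / δ₂ ≤ C₀)
    (x y : M) : ds R δ (c x) (c y) ≤ C₀ * ds R δ x y := by
  have hC₀ : 0 ≤ C₀ := le_trans (by positivity) h2
  by_cases h : R x y
  · rcases le_or_gt (dist x y) δ₂ with h3 | h3
    · rw [ds_of h, ds_of (hc x y h h3)]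
      exact (hK x y).trans (mul_le_mul_of_nonneg_right h1 dist_nonneg)
    · rw [ds_of h]
      refine (ds_le hlt _ _).trans ?_
      calc δ = δ / δ₂ * δ₂ := by field_simp
        _ ≤ C₀ * dist x y := mul_le_mul h2 h3.le hδ₂.le hC₀
  · rw [ds_not h]
    refine (ds_le hlt _ _).trans ?_
    calc δ = δ / δ₂ * δ₂ := by field_simp
      _ ≤ C₀ * δ := mul_le_mul h2 hδ₂δ hδ₂.le hC₀

end Met

/-! ### The relation -/

section Rel

variable {M : Type u} [MetricSpace M] {f g : M ≃ₜ M} {ε C l η δ : ℝ}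

theorem dbl_refl (f g : M ≃ₜ M) (x : M) : Dbl f g x x := fun ε hε =>
  ⟨0, fun n m _ => by rw [dist_self]; exact hε.le⟩

theorem lf_self (hη : 0 ≤ η) (x : M) : x ∈ Lf f g η x := ⟨mem_Wl_self hη, dbl_refl f g x⟩

theorem lf_mono {η' : ℝ} (h : η ≤ η') {x z : M} (hz : z ∈ Lf f g η x) : z ∈ Lf f g η' x :=
  ⟨Wl_mono h hz.1, hz.2⟩

theorem lf_comm {x z : M} (hz : z ∈ Lf f g η x) : x ∈ Lf f g η z :=
  ⟨Wl_comm hz.1, PRODAux.dbl_symm hz.2⟩

theorem wl_back {x z : M} (h : z ∈ Wl f η x) (h0 : dist (f.symm z) (f.symm x) ≤ η) :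
    f.symm z ∈ Wl f η (f.symm x) := fun k => by
  cases k with
  | zero => exact h0
  | succ k =>
    rw [iterate_succ_apply, iterate_succ_apply, f.apply_symm_apply, f.apply_symm_apply]
    exact h k

theorem wl_back' {x z : M} (h : z ∈ Wl f.symm η x) (h0 : dist (f z) (f x) ≤ η) :
    f z ∈ Wl f.symm η (f x) := fun k => by
  cases k with
  | zero => exact h0
  | succ k =>
    rw [iterate_succ_apply, iterate_succ_apply, f.symm_apply_apply, f.symm_apply_apply]
    exact h k

/-- `y` is reached from `x` by a small leaf `X` and then a small leaf `Y`. -/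
def Rl (f g : M ≃ₜ M) (η δ : ℝ) (x y : M) : Prop :=
  dist x y < δ ∧ ∃ z, z ∈ Lf f g.symm η x ∧ y ∈ Lf f.symm g η z

/-- The properties of the scales. -/
structure Scl (f g : M ≃ₜ M) (ε ε₁ ε₂ C δa η δ : ℝ) : Prop where
  br : Br f ε C
  xyc : ∀ a z z' q, z ∈ Lf f g.symm ε₁ a → z' ∈ Lf f.symm g ε₁ z → q ∈ Wl f.symm ε₁ a →
    q ∈ Wl f ε₁ z' → Dbl f g.symm q z' ∧ Dbl f.symm g a q
  ex1 : ∀ x y, dist x y < δa → ∃ z, z ∈ Wl f ε₂ x ∧ z ∈ Wl f.symm ε₂ y
  ex2 : ∀ x y, dist x y < δ → ∃ z, z ∈ Wl f η x ∧ z ∈ Wl f.symm η y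
  η_pos : 0 < η
  δ_pos : 0 < δ
  η_le : η ≤ ε₂
  η_le' : 2 * η < δa
  ε₂_le : 2 * ε₂ ≤ ε
  ε₂_le' : ε₂ ≤ ε₁

variable {ε₁ ε₂ δa : ℝ}

namespace Scl

theorem refl (S : Scl f g ε ε₁ ε₂ C δa η δ) (x : M) : Rl f g η δ x x :=
  ⟨by rw [dist_self]; exact S.δ_pos, x, lf_self S.η_pos.le x, lf_self S.η_pos.le x⟩

theorem symm (S : Scl f g ε ε₁ ε₂ C δa η δ) (x y : M) (h : Rl f g η δ x y) :
    Rl f g η δ y x := by
  obtain ⟨hd, z, hz, hy⟩ := h
  obtain ⟨w, hw1, hw2⟩ := S.ex2 y x (by rwa [dist_comm])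
  have hη : η ≤ ε₁ := S.η_le.trans S.ε₂_le'
  obtain ⟨h1, h2⟩ := S.xyc x z y w (lf_mono hη hz) (lf_mono hη hy) (Wl_mono hη hw2)
    (Wl_mono hη hw1)
  exact ⟨by rwa [dist_comm], w, ⟨hw1, PRODAux.dbl_symm h1⟩,
    ⟨Wl_comm hw2, PRODAux.dbl_symm h2⟩⟩

theorem trans (S : Scl f g ε ε₁ ε₂ C δa η δ) (x y v : M) (h : Rl f g η δ x y)
    (h' : Rl f g η δ y v) (hxv : dist x v < δ) : Rl f g η δ x v := by
  obtain ⟨hd, z, hz, hy⟩ := h
  obtain ⟨hd', z2, hz2, hv⟩ := h'
  have hη : η ≤ ε₁ := S.η_le.trans S.ε₂_le'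
  have hηε : η + ε₂ ≤ ε := by linarith [S.η_le, S.ε₂_le]
  have hηε' : η ≤ ε := by linarith [S.η_le, S.ε₂_le, S.η_pos]
  have h1 : dist z z2 < δa := by
    have e1 := Wl_dist hy.1
    have e2 := Wl_dist hz2.1
    have e3 := dist_triangle z y z2
    rw [dist_comm y z] at e1
    rw [dist_comm z2 y] at e2
    linarith [S.η_le']
  obtain ⟨w, hw1, hw2⟩ := S.ex1 z z2 h1
  obtain ⟨h2, h3⟩ := S.xyc z2 y z w (lf_mono hη (lf_comm hz2)) (lf_mono hη (lf_comm hy))
    (Wl_mono S.ε₂_le' hw2) (Wl_mono S.ε₂_le' hw1)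
  obtain ⟨p, hp1, hp2⟩ := S.ex2 x v hxv
  have h4 : w = p := S.br.unique x v w p (Wl_mono hηε (Wl_trans hz.1 hw1))
    (Wl_mono hηε (Wl_trans (Wl_comm hv.1) hw2)) (Wl_mono hηε' hp1) (Wl_mono hηε' hp2)
  rw [← h4] at hp1 hp2
  exact ⟨hxv, w, ⟨hp1, PRODAux.dbl_trans hz.2 (PRODAux.dbl_symm h2)⟩,
    ⟨Wl_comm hp2, PRODAux.dbl_trans (PRODAux.dbl_symm h3) hv.2⟩⟩

/-- The middle point is close. -/
theorem mid (S : Scl f g ε ε₁ ε₂ C δa η δ) {x y z : M} (hz : z ∈ Lf f g.symm η x)
    (hy : y ∈ Lf f.symm g η z) : dist z x ≤ C * dist x y ∧ dist z y ≤ C * dist x y := by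
  have hηε' : η ≤ ε := by linarith [S.η_le, S.ε₂_le, S.η_pos]
  exact ⟨S.br.left x y z (Wl_mono hηε' hz.1) (Wl_mono hηε' (Wl_comm hy.1)),
    S.br.right x y z (Wl_mono hηε' hz.1) (Wl_mono hηε' (Wl_comm hy.1))⟩

end Scl

end Rel

section Map

variable {M : Type u} [MetricSpace M] [CompactSpace M] {f g : M ≃ₜ M} {ε C l η δ ε₁ ε₂ δa K : ℝ}

theorem dbl_symm_map (hc : ∀ x, f (g x) = g (f x)) {x y : M} (h : Dbl f g.symm x y) :
    Dbl f g.symm (f.symm x) (f.symm y) :=
  DblAux.of_c f.symm.continuous (fun x => by rw [f.symm_apply_apply, f.apply_symm_apply])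
    (fun x => by
      apply g.injective
      rw [g.apply_symm_apply, ← comm_symm hc, g.apply_symm_apply]) h

theorem dbl_map (hc : ∀ x, f (g x) = g (f x)) {x y : M} (h : Dbl f g.symm x y) :
    Dbl f g.symm (f x) (f y) :=
  DblAux.of_c f.continuous (fun x => rfl)
    (fun x => by
      apply g.injective
      rw [g.apply_symm_apply, ← hc, g.apply_symm_apply]) h

theorem dbl_symm_map' (hc : ∀ x, f (g x) = g (f x)) {x y : M} (h : Dbl f.symm g x y) :
    Dbl f.symm g (f.symm x) (f.symm y) :=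
  DblAux.of_c f.symm.continuous (fun x => rfl) (fun x => comm_symm hc x) h

theorem dbl_map' (hc : ∀ x, f (g x) = g (f x)) {x y : M} (h : Dbl f.symm g x y) :
    Dbl f.symm g (f x) (f y) :=
  DblAux.of_c f.continuous (fun x => by rw [f.symm_apply_apply, f.apply_symm_apply])
    (fun x => hc x) h

theorem Scl.map_symm (S : Scl f g ε ε₁ ε₂ C δa η δ) (hc : ∀ x, f (g x) = g (f x))
    (hK0 : 0 ≤ K) (hK : ∀ x y, dist (f.symm x) (f.symm y) ≤ K * dist x y) {x y : M}
    (h : Rl f g η δ x y) (h1 : K * (C * dist x y) ≤ η) (h2 : K * dist x y < δ) :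
    Rl f g η δ (f.symm x) (f.symm y) := by
  obtain ⟨hd, z, hz, hy⟩ := h
  obtain ⟨m1, m2⟩ := S.mid hz hy
  refine ⟨(hK x y).trans_lt h2, f.symm z, ⟨wl_back hz.1 ?_, dbl_symm_map hc hz.2⟩,
    ⟨Wl_map hy.1, dbl_symm_map' hc hy.2⟩⟩
  exact (hK z x).trans ((mul_le_mul_of_nonneg_left m1 hK0).trans h1)

theorem Scl.map (S : Scl f g ε ε₁ ε₂ C δa η δ) (hc : ∀ x, f (g x) = g (f x))
    (hK0 : 0 ≤ K) (hK : ∀ x y, dist (f x) (f y) ≤ K * dist x y) {x y : M}
    (h : Rl f g η δ x y) (h1 : K * (C * dist x y) ≤ η) (h2 : K * dist x y < δ) :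
    Rl f g η δ (f x) (f y) := by
  obtain ⟨hd, z, hz, hy⟩ := h
  obtain ⟨m1, m2⟩ := S.mid hz hy
  refine ⟨(hK x y).trans_lt h2, f z, ⟨Wl_map hz.1, dbl_map hc hz.2⟩,
    ⟨wl_back' hy.1 ?_, dbl_map' hc hy.2⟩⟩
  rw [dist_comm] at m2
  exact (hK y z).trans ((mul_le_mul_of_nonneg_left m2 hK0).trans h1)

/-- Points of a small leaf `Y` stay related in the past. -/
theorem Scl.leafY (S : Scl f g ε ε₁ ε₂ C δa η δ) (hc : ∀ x, f (g x) = g (f x)) {ρ : ℝ}
    (hρ : ρ ≤ η) (hρ' : ρ < δ) {x z : M} (h : z ∈ Lf f.symm g ρ x) (k : ℕ) :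
    Rl f g η δ (f.symm^[k] z) (f.symm^[k] x) := by
  have h1 : f.symm^[k] z ∈ Lf f.symm g ρ (f.symm^[k] x) := by
    refine ⟨Wl_iter h.1 k, ?_⟩
    have h2 := h.2
    induction k with
    | zero => exact h2
    | succ k ih =>
      rw [iterate_succ_apply', iterate_succ_apply']
      exact dbl_symm_map' hc ih
  have h2 := Wl_dist h1.1
  refine S.symm _ _ ⟨?_, f.symm^[k] x, lf_self S.η_pos.le _, lf_mono hρ h1⟩
  rw [dist_comm]
  linarith

/-- Points of a small leaf `X` stay related in the future. -/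
theorem Scl.leafX (S : Scl f g ε ε₁ ε₂ C δa η δ) (hc : ∀ x, f (g x) = g (f x)) {ρ : ℝ}
    (hρ : ρ ≤ η) (hρ' : ρ < δ) {x z : M} (h : z ∈ Lf f g.symm ρ x) (k : ℕ) :
    Rl f g η δ (f^[k] z) (f^[k] x) := by
  have h1 : f^[k] z ∈ Lf f g.symm ρ (f^[k] x) := by
    refine ⟨Wl_iter h.1 k, ?_⟩
    have h2 := h.2
    induction k with
    | zero => exact h2
    | succ k ih =>
      rw [iterate_succ_apply', iterate_succ_apply']
      exact dbl_map hc ih
  have h2 := Wl_dist h1.1
  exact ⟨by linarith, f^[k] x, lf_comm (lf_mono hρ h1), lf_self S.η_pos.le _⟩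

omit [CompactSpace M] in
/-- Related points in a common stable set of `f.symm`. -/
theorem Scl.eqY (S : Scl f g ε ε₁ ε₂ C δa η δ) {ρ : ℝ} (hρ : ρ ≤ η) {x z : M}
    (h : Rl f g η δ x z) (hz : z ∈ Wl f.symm ρ x) : z ∈ Lf f.symm g ρ x := by
  obtain ⟨hd, w, hw, hz'⟩ := h
  have hηε : ρ + η ≤ ε := by linarith [S.η_le, S.ε₂_le]
  have hη : η ≤ ε := by linarith [S.η_le, S.ε₂_le, S.η_pos]
  have hε : 0 ≤ ε := S.br.ε_pos.le
  have h1 : w = x := S.br.unique x x w x (Wl_mono hη hw.1)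
    (Wl_mono hηε (Wl_trans hz (Wl_comm hz'.1))) (mem_Wl_self hε) (mem_Wl_self hε)
  rw [h1] at hz'
  exact ⟨hz, hz'.2⟩

omit [CompactSpace M] in
/-- Related points in a common stable set of `f`. -/
theorem Scl.eqX (S : Scl f g ε ε₁ ε₂ C δa η δ) {ρ : ℝ} (hρ : ρ ≤ η) {x z : M}
    (h : Rl f g η δ x z) (hz : z ∈ Wl f ρ x) : z ∈ Lf f g.symm ρ x := by
  obtain ⟨hd, w, hw, hz'⟩ := h
  have hηε : ρ + η ≤ ε := by linarith [S.η_le, S.ε₂_le]
  have hη : η ≤ ε := by linarith [S.η_le, S.ε₂_le, S.η_pos]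
  have hε : 0 ≤ ε := S.br.ε_pos.le
  have h1 : w = z := S.br.unique z z w z (Wl_mono hηε (Wl_trans (Wl_comm hz) hw.1))
    (Wl_mono hη (Wl_comm hz'.1)) (mem_Wl_self hε) (mem_Wl_self hε)
  rw [h1] at hw
  exact ⟨hz, hw.2⟩

end Map

end F4LEAFAux

open F4LEAFAux in
theorem specLeaf : SpecLeaf.{u} := by
  intro M _ _ f g ε C l K hP hXY hK
  obtain ⟨εx, hεx, hX⟩ := hXY
  have hc := hP.comm
  have hbr := hP.one.br
  have hC1 := hbr.one_le
  have hε := hbr.ε_pos
  have hdecs := hP.one.decs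
  have hdecu := hP.one.decu
  -- the Lipschitz constant
  set K' : ℝ := max K 1 with hK'
  have hK1 : 1 ≤ K' := le_max_right _ _
  have hK0 : 0 < K' := by linarith
  have hKf : ∀ x y, dist (f x) (f y) ≤ K' * dist x y := fun x y =>
    (hK x y).1.trans (mul_le_mul_of_nonneg_right (le_max_left _ _) dist_nonneg)
  have hKs : ∀ x y, dist (f.symm x) (f.symm y) ≤ K' * dist x y := fun x y =>
    (hK x y).2.trans (mul_le_mul_of_nonneg_right (le_max_left _ _) dist_nonneg)
  -- the scales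
  set ε₂ : ℝ := min ε εx / 2 with hε₂
  have hm : 0 < min ε εx := lt_min hε hεx
  have hε₂0 : 0 < ε₂ := by positivity
  have hm1 : min ε εx ≤ ε := min_le_left _ _
  have hm2 : min ε εx ≤ εx := min_le_right _ _
  obtain ⟨δa, hδa, hbr1⟩ := hbr.exist ε₂ hε₂0
  set η : ℝ := min ε₂ (δa / 4) with hη
  have hη0 : 0 < η := lt_min hε₂0 (by positivity)
  have hη1 : η ≤ ε₂ := min_le_left _ _
  have hη2 : η ≤ δa / 4 := min_le_right _ _
  obtain ⟨δ, hδ, hbr2⟩ := hbr.exist η hη0
  have S : Scl f g ε εx ε₂ C δa η δ :=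
    { br := hbr, xyc := hX, ex1 := hbr1, ex2 := hbr2, η_pos := hη0, δ_pos := hδ, η_le := hη1
      η_le' := by linarith
      ε₂_le := by linarith
      ε₂_le' := by linarith }
  have hlt : ∀ x y, Rl f g η δ x y → dist x y < δ := fun x y h => h.1
  letI inst : MetricSpace (Cp M) := met (Rl f g η δ) δ hδ hlt S.refl S.symm S.trans
  have hdist : ∀ x y : Cp M, dist x y = ds (Rl f g η δ) δ x.v y.v := fun _ _ => rfl
  -- the maps
  set δ₂ : ℝ := min (η / (K' * C)) (δ / (2 * K')) with hδ₂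
  have hKC : 0 < K' * C := by positivity
  have hδ₂0 : 0 < δ₂ := lt_min (by positivity) (by positivity)
  have hδ₂1 : K' * (C * δ₂) ≤ η := by
    have h1 : δ₂ ≤ η / (K' * C) := min_le_left _ _
    rw [le_div_iff₀ hKC] at h1
    linarith
  have hδ₂2 : K' * δ₂ ≤ δ / 2 := by
    have h1 : δ₂ ≤ δ / (2 * K') := min_le_right _ _
    rw [le_div_iff₀ (by positivity)] at h1
    linarith
  have hδ₂3 : δ₂ ≤ δ := by nlinarith
  set C₀ : ℝ := max C (max K' (δ / δ₂)) with hC₀
  have hC₀1 : C ≤ C₀ := le_max_left _ _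
  have hC₀2 : K' ≤ C₀ := (le_max_left _ _).trans (le_max_right _ _)
  have hC₀3 : δ / δ₂ ≤ C₀ := (le_max_right _ _).trans (le_max_right _ _)
  have hC₀0 : 0 ≤ C₀ := by linarith
  have hlip1 : ∀ x y : Cp M, dist (⟨f.symm x.v⟩ : Cp M) ⟨f.symm y.v⟩ ≤ C₀ * dist x y :=
    fun x y => ds_lip hδ hlt hδ₂0 hδ₂3 hKs (fun a b hab hd => S.map_symm hc hK0.le hKs hab
      (by
        have : K' * (C * dist a b) ≤ K' * (C * δ₂) := by gcongr
        linarith)
      (by
        have : K' * dist a b ≤ K' * δ₂ := by gcongr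
        linarith)) hC₀2 hC₀3 x.v y.v
  have hlip2 : ∀ x y : Cp M, dist (⟨f x.v⟩ : Cp M) ⟨f y.v⟩ ≤ C₀ * dist x y :=
    fun x y => ds_lip hδ hlt hδ₂0 hδ₂3 hKf (fun a b hab hd => S.map hc hK0.le hKf hab
      (by
        have : K' * (C * dist a b) ≤ K' * (C * δ₂) := by gcongr
        linarith)
      (by
        have : K' * dist a b ≤ K' * δ₂ := by gcongr
        linarith)) hC₀2 hC₀3 x.v y.v
  let F : Cp M ≃ₜ Cp M :=
    { toFun := fun x => ⟨f.symm x.v⟩
      invFun := fun x => ⟨f x.v⟩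
      left_inv := fun x => by
        cases x
        simp only [f.apply_symm_apply]
      right_inv := fun x => by
        cases x
        simp only [f.symm_apply_apply]
      continuous_toFun := (LipschitzWith.of_dist_le_mul (K := ⟨C₀, hC₀0⟩) hlip1).continuous
      continuous_invFun := (LipschitzWith.of_dist_le_mul (K := ⟨C₀, hC₀0⟩) hlip2).continuous }
  have hit : ∀ (k : ℕ) (x : Cp M), (F^[k] x).v = f.symm^[k] x.v := by
    intro k
    induction k with
    | zero => intro x; rfl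
    | succ k ih =>
      intro x
      rw [iterate_succ_apply, iterate_succ_apply, ih]
      rfl
  have hits : ∀ (k : ℕ) (x : Cp M), (F.symm^[k] x).v = f^[k] x.v := by
    intro k
    induction k with
    | zero => intro x; rfl
    | succ k ih =>
      intro x
      rw [iterate_succ_apply, iterate_succ_apply, ih]
      rfl
  -- the final scale
  set δ₀ : ℝ := min (δ / 2) η with hδ₀
  have hδ₀0 : 0 < δ₀ := lt_min (by positivity) hη0
  have hδ₀1 : δ₀ < δ := lt_of_le_of_lt (min_le_left _ _) (by linarith)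
  have hδ₀2 : δ₀ ≤ η := min_le_right _ _
  have hst : ∀ ρ ≤ δ₀, ∀ x z : Cp M, z ∈ Wl F ρ x ↔ z.v ∈ Lf f.symm g ρ x.v := by
    intro ρ hρ x z
    constructor
    · intro h
      have h1 : ∀ k, Rl f g η δ (f.symm^[k] z.v) (f.symm^[k] x.v) ∧
          dist (f.symm^[k] z.v) (f.symm^[k] x.v) ≤ ρ := by
        intro k
        have h2 := h k
        rw [hdist, hit, hit] at h2
        have h3 : Rl f g η δ (f.symm^[k] z.v) (f.symm^[k] x.v) :=
          rel_of_ds (lt_of_le_of_lt h2 (by linarith))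
        rw [ds_of h3] at h2
        exact ⟨h3, h2⟩
      exact S.eqY (hρ.trans hδ₀2) (S.symm _ _ (h1 0).1) fun k => (h1 k).2
    · intro h k
      rw [hdist, hit, hit, ds_of (S.leafY hc (hρ.trans hδ₀2) (by linarith) h k)]
      exact h.1 k
  have hun : ∀ ρ ≤ δ₀, ∀ x z : Cp M, z ∈ Wl F.symm ρ x ↔ z.v ∈ Lf f g.symm ρ x.v := by
    intro ρ hρ x z
    constructor
    · intro h
      have h1 : ∀ k, Rl f g η δ (f^[k] z.v) (f^[k] x.v) ∧ dist (f^[k] z.v) (f^[k] x.v) ≤ ρ := by
        intro k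
        have h2 := h k
        rw [hdist, hits, hits] at h2
        have h3 : Rl f g η δ (f^[k] z.v) (f^[k] x.v) :=
          rel_of_ds (lt_of_le_of_lt h2 (by linarith))
        rw [ds_of h3] at h2
        exact ⟨h3, h2⟩
      exact S.eqX (hρ.trans hδ₀2) (S.symm _ _ (h1 0).1) fun k => (h1 k).2
    · intro h k
      rw [hdist, hits, hits, ds_of (S.leafX hc (hρ.trans hδ₀2) (by linarith) h k)]
      exact h.1 k
  have hsmall : ∀ x y : Cp M, dist x y < δ₀ → dist x y = dist x.v y.v := by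
    intro x y h
    have h' : ds (Rl f g η δ) δ x.v y.v < δ₀ := h
    have h3 : Rl f g η δ x.v y.v := rel_of_ds (h'.trans hδ₀1)
    show ds (Rl f g η δ) δ x.v y.v = dist x.v y.v
    exact ds_of h3
  have hdst : ∀ x z : Cp M, z.v ∈ Lf f.symm g δ₀ x.v → dist z x = dist z.v x.v := fun x z h => by
    rw [hdist]
    exact ds_of (S.leafY hc hδ₀2 hδ₀1 h 0)
  have hdun : ∀ x z : Cp M, z.v ∈ Lf f g.symm δ₀ x.v → dist z x = dist z.v x.v := fun x z h => by
    rw [hdist]
    exact ds_of (S.leafX hc hδ₀2 hδ₀1 h 0)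
  have hηε : η ≤ ε := by linarith
  -- comparison of the distances
  have hcomp : ∀ (x y z : Cp M) (w : Cp M), dist z w ≤ C * dist x.v y.v →
      dist z w ≤ C₀ * dist x y := by
    intro x y z w h
    by_cases hR : Rl f g η δ x.v y.v
    · rw [hdist x y, ds_of hR]
      exact h.trans (mul_le_mul_of_nonneg_right hC₀1 dist_nonneg)
    · rw [hdist x y, ds_not hR]
      have h1 : dist z w ≤ δ := ds_le hlt z.v w.v
      have h2 : 1 * δ ≤ C₀ * δ := mul_le_mul_of_nonneg_right (by linarith) hδ.le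
      linarith
  refine ⟨Cp M, inst, ⟨Cp.v, Cp.mk, fun _ => rfl, fun _ => rfl⟩, F, δ₀, C₀, ?_⟩
  exact
    { pos := hδ₀0
      one_le := by linarith
      cont := by
        refine Metric.continuous_iff.2 fun x e he => ⟨min e δ₀, lt_min he hδ₀0, fun y hy => ?_⟩
        have h1 := hsmall y x (hy.trans_le (min_le_right _ _))
        show dist y.v x.v < e
        rw [← h1]
        exact hy.trans_le (min_le_left _ _)
      eqf := fun x => rfl
      st := hst
      un := hun
      small := hsmall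
      dst := hdst
      dun := hdun
      lip := hlip1
      br :=
        { ε_pos := hδ₀0
          one_le := by linarith
          exist := fun ε' hε' => by
            set s : ℝ := min ε' δ₀ with hs
            have hs0 : 0 < s := lt_min hε' hδ₀0
            have hs1 : s ≤ δ₀ := min_le_right _ _
            have hs2 : s ≤ ε' := min_le_left _ _
            refine ⟨min δ₀ (s / (C * C)), lt_min hδ₀0 (by positivity), fun x y hxy => ?_⟩
            have h1 := hsmall x y (hxy.trans_le (min_le_left _ _))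
            have h2 : Rl f g η δ x.v y.v := rel_of_ds (by
              rw [← hdist]
              exact (hxy.trans_le (min_le_left _ _)).trans hδ₀1)
            have h3 : C * (C * dist x.v y.v) ≤ s := by
              have h4 := (hxy.trans_le (min_le_right _ _)).le
              rw [h1, le_div_iff₀ (by positivity)] at h4
              linarith
            obtain ⟨hd, w, hw, hx⟩ := S.symm _ _ h2
            obtain ⟨m1, m2⟩ := S.mid hw hx
            rw [dist_comm y.v x.v] at m1 m2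
            have hln : ∀ n : ℕ, l ^ n ≤ 1 := fun n =>
              pow_le_one₀ hdecs.l_pos.le hdecs.l_lt.le
            have w1 : w ∈ Wl f s y.v := fun n => by
              have h5 := hdecs.dec y.v w (Wl_mono hηε hw.1) n
              refine h5.trans (le_trans ?_ h3)
              calc C * l ^ n * dist w y.v ≤ C * 1 * (C * dist x.v y.v) := by
                    have := hln n
                    gcongr
                _ = C * (C * dist x.v y.v) := by ring
            have w2 : w ∈ Wl f.symm s x.v := fun n => by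
              have h5 := hdecu.dec x.v w (Wl_mono hηε (Wl_comm hx.1)) n
              refine h5.trans (le_trans ?_ h3)
              calc C * l ^ n * dist w x.v ≤ C * 1 * (C * dist x.v y.v) := by
                    have := hln n
                    gcongr
                _ = C * (C * dist x.v y.v) := by ring
            refine ⟨⟨w⟩, Wl_mono hs2 ((hst s hs1 x ⟨w⟩).2 ⟨w2, PRODAux.dbl_symm hx.2⟩),
              Wl_mono hs2 ((hun s hs1 y ⟨w⟩).2 ⟨w1, hw.2⟩)⟩
          unique := fun x y z z' h1 h2 h3 h4 => by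
            have e1 := (hst δ₀ le_rfl x z).1 h1
            have e2 := (hun δ₀ le_rfl y z).1 h2
            have e3 := (hst δ₀ le_rfl x z').1 h3
            have e4 := (hun δ₀ le_rfl y z').1 h4
            have hle : δ₀ ≤ ε := hδ₀2.trans hηε
            have e5 := hbr.unique y.v x.v z.v z'.v (Wl_mono hle e2.1) (Wl_mono hle e1.1)
              (Wl_mono hle e4.1) (Wl_mono hle e3.1)
            cases z
            cases z'
            simp only at e5
            rw [e5]
          left := fun x y z h1 h2 => by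
            have e1 := (hst δ₀ le_rfl x z).1 h1
            have e2 := (hun δ₀ le_rfl y z).1 h2
            have hle : δ₀ ≤ ε := hδ₀2.trans hηε
            refine hcomp x y z x ?_
            rw [hdst x z e1, dist_comm x.v y.v]
            exact hbr.right y.v x.v z.v (Wl_mono hle e2.1) (Wl_mono hle e1.1)
          right := fun x y z h1 h2 => by
            have e1 := (hst δ₀ le_rfl x z).1 h1
            have e2 := (hun δ₀ le_rfl y z).1 h2
            have hle : δ₀ ≤ ε := hδ₀2.trans hηε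
            refine hcomp x y z y ?_
            rw [hdun y z e2, dist_comm x.v y.v]
            exact hbr.left y.v x.v z.v (Wl_mono hle e2.1) (Wl_mono hle e1.1) } }

end Pool.Agent.Lib.MP610fe3.HR
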