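import Pool.Agent.Lib.MP_610fe3_an.HR.F4Spec
import Pool.Agent.Lib.MP_610fe3_an.T6.Level

/-!
# Module LEVL (`T6/Level.lean` without compactness)
-/

set_option autoImplicit false

open Set Filter Function Metric
open scoped Topology

namespace Pool.Agent.Lib.MP610fe3.HR

universe u

open Cf H6 T4 T6
open T6.LevelM in
/-- **Module LEVL.** -/
theorem specLevl : SpecLevl.{u} := by
  classical
  intro M _ f u φ C a b κ r r₁ e ρ η ρ₁ hs hsc
  have hC : 1 ≤ C := one_le hs
  have hC0 : 0 < C := by linarith
  have her := e_le_r hs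
  have he := hs.e_pos
  have hη := hsc.η_pos
  have hρ₁ := hsc.ρ₁_pos
  have hr := hs.fwd.ε_pos
  have hηe : 16 * η ≤ e := by nlinarith [hsc.η_le]
  have hη2r : 2 * η ≤ r := by linarith
  have hCCρ : C * (C * ρ₁) ≤ η := by nlinarith [hsc.ρ₁_le]
  have hC5 : (1 : ℝ) ≤ C ^ 5 := one_le_pow₀ hC
  set c : ℝ := ρ₁ / (8 * C ^ 5 * η) with hc
  have hcpos : 0 < c := by positivity
  set T : ℝ := Real.log C + 1 with hT
  have hlogC : 0 ≤ Real.log C := Real.log_nonneg hC
  have hTpos : 0 < T := by linarith
  refine ⟨c, T, hcpos, hTpos, ?_⟩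
  intro y d hd hdρ
  -- existence of a level
  have hex : ∀ s : ℝ, 0 < s → ∃ J : ℕ, C * Real.exp (-(a * J)) * (2 * η) ≤ s := by
    intro s hs0
    have h2 : Tendsto (fun N : ℕ => Real.exp (-(a * N))) atTop (𝓝 0) := by
      apply Real.tendsto_exp_neg_atTop_nhds_zero.comp
      exact Tendsto.const_mul_atTop hs.a_pos tendsto_natCast_atTop_atTop
    have h3 : Tendsto (fun N : ℕ => C * Real.exp (-(a * N)) * (2 * η)) atTop (𝓝 0) := by
      simpa using (h2.const_mul C).mul_const (2 * η)
    obtain ⟨N₀, hN₀⟩ := eventually_atTop.1 (h3.eventually (gt_mem_nhds hs0))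
    exact ⟨N₀, (hN₀ N₀ le_rfl).le⟩
  have hlv : ∀ x ∈ ball (0 : EuclideanSpace ℝ (Fin u)) d,
      ∃ j, Lv f η ((d - ‖x‖) / (2 * C)) (φ y x) j := by
    intro x hx
    rw [mem_ball_zero_iff] at hx
    obtain ⟨J, hJ⟩ := hex ((d - ‖x‖) / (2 * C)) (div_pos (by linarith) (by positivity))
    exact ⟨J, lv_of_le hs hη2r hJ _⟩
  refine ⟨fun x => if h : ∃ j, Lv f η ((d - ‖x‖) / (2 * C)) (φ y x) j then Nat.find h else 0,
    ?_, ?_⟩
  · -- the levels are bounded away from the sphere
    intro s hs0
    obtain ⟨J, hJ⟩ := hex (s / (2 * C)) (by positivity)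
    refine ⟨J, fun x hx hsx => ?_⟩
    simp only [dif_pos (hlv x hx)]
    apply Nat.find_min'
    apply lv_of_le hs hη2r
    refine hJ.trans ?_
    gcongr
  · intro x hx
    have hxd : ‖x‖ < d := by rwa [mem_ball_zero_iff] at hx
    simp only [dif_pos (hlv x hx)]
    set j : ℕ := Nat.find (hlv x hx) with hj
    have hjL : Lv f η ((d - ‖x‖) / (2 * C)) (φ y x) j := Nat.find_spec (hlv x hx)
    have hjmin : ∀ i < j, ¬ Lv f η ((d - ‖x‖) / (2 * C)) (φ y x) i :=
      fun i hi => Nat.find_min (hlv x hx) hi
    set p : M := φ y x with hp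
    have hdx : 0 < d - ‖x‖ := by linarith
    have hxρ : x ∈ closedBall (0 : EuclideanSpace ℝ (Fin u)) ρ := by
      rw [mem_closedBall_zero_iff]; linarith [hsc.ρ₁_le', norm_nonneg x]
    have hρ₁ρ : ρ₁ ≤ ρ := by linarith [hsc.ρ₁_le']
    have hpy : p ∈ Wl f.symm η y :=
      Wl_mono hCCρ (phi_mem hs (by linarith : ‖x‖ ≤ ρ₁) hρ₁ρ)
    refine ⟨?_, ?_, ?_⟩
    · -- (i)
      intro z hz
      have h1 : f.symm^[j] z ∈ Wl f.symm (2 * η) p := by
        have := Wl_iter hz j
        rwa [sii] at this
      have h2 : f.symm^[j] z ∈ Wl f.symm (4 * e) y :=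
        Wl_mono (by linarith) (Wl_trans hpy h1)
      obtain ⟨x', hx', hx'z⟩ := hs.onto y _ h2
      have hx'ρ : x' ∈ closedBall (0 : EuclideanSpace ℝ (Fin u)) ρ :=
        closedBall_subset_closedBall (by linarith [hs.ρ_pos]) hx'
      have h3 := hs.lower y x' hx'ρ x hxρ
      rw [hx'z] at h3
      have h4 := hjL z hz
      have h5 : dist x' x ≤ (d - ‖x‖) / 2 := by
        calc dist x' x ≤ C * dist (f.symm^[j] z) p := h3
          _ ≤ C * ((d - ‖x‖) / (2 * C)) := mul_le_mul_of_nonneg_left h4 hC0.le
          _ = (d - ‖x‖) / 2 := by field_simp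
      refine ⟨x', ?_, hx'z⟩
      rw [mem_ball_zero_iff]
      have h6 : ‖x'‖ ≤ ‖x' - x‖ + ‖x‖ := by
        have := norm_add_le (x' - x) x
        rwa [sub_add_cancel] at this
      rw [← dist_eq_norm] at h6
      linarith
    · -- (ii)
      have : Nonempty (Fin u) := ⟨⟨0, hs.u_pos⟩⟩
      obtain ⟨t, ht⟩ := exists_norm_eq (EuclideanSpace ℝ (Fin u)) hρ₁.le
      have htρ : t ∈ closedBall (0 : EuclideanSpace ℝ (Fin u)) ρ := by
        rw [mem_closedBall_zero_iff, ht]; exact hρ₁ρ
      have h0ρ : (0 : EuclideanSpace ℝ (Fin u)) ∈ closedBall (0 : EuclideanSpace ℝ (Fin u)) ρ :=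
        mem_closedBall_self hs.ρ_pos.le
      set z : M := φ (f^[j] p) t with hz
      have h1 : z ∈ Wl f.symm (2 * η) (f^[j] p) :=
        Wl_mono (by linarith) (phi_mem hs ht.le hρ₁ρ)
      have h2 := hjL z h1
      have h3 := hs.lower (f^[j] p) t htρ 0 h0ρ
      rw [hs.zero, dist_zero_right, ht] at h3
      have h4 := lip_iter hs (f.symm^[j] z) p j
      rw [iis] at h4
      have h5 : ρ₁ ≤ C * (C ^ j * ((d - ‖x‖) / (2 * C))) := by
        refine h3.trans (mul_le_mul_of_nonneg_left (h4.trans ?_) hC0.le)
        exact mul_le_mul_of_nonneg_left h2 (by positivity)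
      have h6 : C * (C ^ j * ((d - ‖x‖) / (2 * C))) = C ^ j * (d - ‖x‖) / 2 := by
        field_simp
      rw [h6] at h5
      have h7 : d / (d - ‖x‖) ≤ C ^ j := by
        rw [div_le_iff₀ hdx]
        have : 0 ≤ C ^ j * (d - ‖x‖) := by positivity
        linarith
      have h8 : Real.log (d / (d - ‖x‖)) ≤ Real.log (C ^ j) :=
        Real.log_le_log (by positivity) h7
      rw [Real.log_pow] at h8
      refine h8.trans ?_
      have h9 : (0 : ℝ) ≤ (j : ℝ) := Nat.cast_nonneg _
      nlinarith
    · -- (iii)
      intro x' hx' hxx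
      have hx'd : ‖x'‖ < d := by rwa [mem_ball_zero_iff] at hx'
      have hx'ρ : x' ∈ closedBall (0 : EuclideanSpace ℝ (Fin u)) ρ := by
        rw [mem_closedBall_zero_iff]; linarith
      set p' : M := φ y x' with hp'
      have hp'y : p' ∈ Wl f.symm η y :=
        Wl_mono hCCρ (phi_mem hs (by linarith : ‖x'‖ ≤ ρ₁) hρ₁ρ)
      have hp'p : p' ∈ Wl f.symm (2 * η) p := by
        have := Wl_trans (Wl_comm hpy) hp'y
        rwa [← two_mul] at this
      have hup : dist p' p ≤ C * dist x' x := hs.upper y x' hx'ρ x hxρ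
      have hκ := hs.κ_nonneg
      -- the final distance
      have key : dist (f^[j] p') (f^[j] p) ≤ ρ₁ / (2 * C) ∧ f^[j] p' ∈ Wl f.symm (4 * e)
          (f^[j] p) := by
        have hρ4e : ρ₁ / (2 * C) ≤ 4 * e := by
          have h1 : ρ₁ / (2 * C) ≤ ρ₁ := div_le_self hρ₁.le (by linarith)
          have h2 : ρ₁ ≤ C * (C * ρ₁) := by nlinarith [mul_pos hC0 hρ₁]
          linarith
        rcases Nat.eq_zero_or_pos j with hj0 | hj0
        · have h1 : dist (f^[j] p') (f^[j] p) ≤ ρ₁ / (2 * C) := by
            rw [hj0]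
            simp only [iterate_zero, id_eq]
            have h2 : dist x' x ≤ c * d := by
              refine hxx.trans ?_
              rw [hj0]
              simp only [Nat.cast_zero, mul_zero, neg_zero, Real.exp_zero, mul_one]
              exact mul_le_mul_of_nonneg_left (by linarith [norm_nonneg x]) hcpos.le
            have h3 : c * d ≤ c * ρ₁ := mul_le_mul_of_nonneg_left hdρ hcpos.le
            have h4 : C * (c * ρ₁) ≤ ρ₁ / (2 * C) := by
              rw [le_div_iff₀ (by positivity), hc]
              have h5 : C * (ρ₁ / (8 * C ^ 5 * η) * ρ₁) * (2 * C) = ρ₁ * (ρ₁ / (4 * C ^ 3 * η)) := by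
                field_simp
                ring
              rw [h5]
              apply mul_le_of_le_one_right hρ₁.le
              rw [div_le_one (by positivity)]
              have h6 : ρ₁ ≤ η := by nlinarith [mul_pos hC0 hρ₁]
              have h7 : (1 : ℝ) ≤ C ^ 3 := one_le_pow₀ hC
              nlinarith
            calc dist p' p ≤ C * dist x' x := hup
              _ ≤ C * (c * ρ₁) := mul_le_mul_of_nonneg_left (h2.trans h3) hC0.le
              _ ≤ _ := h4
          refine ⟨h1, ?_⟩
          rw [hj0]
          simp only [iterate_zero, id_eq]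
          exact Wl_mono (by linarith) hp'p
        · -- failure at the level `j - 1`
          have hfail := hjmin (j - 1) (by omega)
          unfold Lv at hfail
          push Not at hfail
          obtain ⟨z, hz, hzd⟩ := hfail
          set P : M := f.symm^[j - 1] z with hP
          have hPp : P ∈ Wl f.symm (2 * η) p := by
            have := Wl_iter hz (j - 1)
            rwa [sii] at this
          have hPk : ∀ k ≤ j - 1, f^[k] P ∈ Wl f.symm (2 * η) (f^[k] p) := by
            intro k hk
            have h1 := Wl_iter hz (j - 1 - k)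
            rw [sii_le f (by omega : j - 1 - k ≤ j - 1),
              show j - 1 - (j - 1 - k) = k by omega] at h1
            rw [hP, iis_le f hk]
            exact h1
          have hPpos : 0 < dist P p := lt_of_le_of_lt (by positivity) hzd
          -- the estimate at one time
          have est : ∀ k ≤ j - 1, f^[k] p' ∈ Wl f.symm r (f^[k] p) →
              dist (f^[k] p') (f^[k] p) ≤ 4 * C ^ 3 * c * η := by
            intro k hk hmem
            have h1 := hs.qc k (f^[k] p) (f^[k] P) (Wl_mono hη2r (hPk k hk)) (f^[k] p)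
              (mem_Wl_self hr.le) (f^[k] p') hmem (f^[k] p) (mem_Wl_self hr.le)
            rw [sii, sii, sii] at h1
            have h2 : dist p' p ≤ C * (c * Real.exp (-(κ * j)) * (d - ‖x‖)) :=
              hup.trans (mul_le_mul_of_nonneg_left hxx hC0.le)
            have h3 : dist (f^[k] P) (f^[k] p) ≤ 2 * η := Wl_dist (hPk k hk)
            have h4 : dist P p * dist (f^[k] p') (f^[k] p) ≤
                C * Real.exp (κ * k) * (C * (c * Real.exp (-(κ * j)) * (d - ‖x‖))) *
                  (2 * η) := by
              refine h1.trans ?_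
              gcongr
            have h5 : Real.exp (κ * k) * Real.exp (-(κ * j)) ≤ 1 := by
              rw [← Real.exp_add]
              apply Real.exp_le_one_iff.2
              have h6 : (k : ℝ) ≤ (j : ℝ) := by exact_mod_cast (by omega : k ≤ j)
              nlinarith
            have h6 : C * Real.exp (κ * k) * (C * (c * Real.exp (-(κ * j)) * (d - ‖x‖))) *
                (2 * η) ≤ 2 * C ^ 2 * c * η * (d - ‖x‖) := by
              have h7 : C * Real.exp (κ * k) * (C * (c * Real.exp (-(κ * j)) * (d - ‖x‖))) *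
                (2 * η) = (Real.exp (κ * k) * Real.exp (-(κ * j))) *
                  (2 * C ^ 2 * c * η * (d - ‖x‖)) := by ring
              rw [h7]
              exact mul_le_of_le_one_left (by positivity) h5
            have h8 : (d - ‖x‖) / (2 * C) * dist (f^[k] p') (f^[k] p) ≤
                2 * C ^ 2 * c * η * (d - ‖x‖) :=
              (mul_le_mul_of_nonneg_right hzd.le dist_nonneg).trans (h4.trans h6)
            have h9 : (d - ‖x‖) / (2 * C) * dist (f^[k] p') (f^[k] p) =
                (d - ‖x‖) * (dist (f^[k] p') (f^[k] p) / (2 * C)) := by ring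
            have h10 : 2 * C ^ 2 * c * η * (d - ‖x‖) = (d - ‖x‖) * (2 * C ^ 2 * c * η) := by
              ring
            rw [h9, h10] at h8
            have h11 := le_of_mul_le_mul_left h8 hdx
            rw [div_le_iff₀ (by positivity)] at h11
            calc dist (f^[k] p') (f^[k] p) ≤ 2 * C ^ 2 * c * η * (2 * C) := h11
              _ = 4 * C ^ 3 * c * η := by ring
          have hsmall : C * (4 * C ^ 3 * c * η) ≤ ρ₁ / (2 * C) := by
            rw [hc]
            apply le_of_eq
            field_simp
            ring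
          have hsmall4 : 4 * C ^ 3 * c * η ≤ 4 * e := by
            have h1 : 4 * C ^ 3 * c * η ≤ C * (4 * C ^ 3 * c * η) :=
              le_mul_of_one_le_left (by positivity) hC
            linarith
          -- induction
          have ind : ∀ k ≤ j, f^[k] p' ∈ Wl f.symm (4 * e) (f^[k] p) ∧
              (1 ≤ k → dist (f^[k] p') (f^[k] p) ≤ ρ₁ / (2 * C)) := by
            intro k
            induction k with
            | zero =>
              intro _
              refine ⟨?_, fun h => by omega⟩
              simp only [iterate_zero, id_eq]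
              exact Wl_mono (by linarith) hp'p
            | succ k ih =>
              intro hk
              obtain ⟨ih1, -⟩ := ih (by omega)
              have h1 := est k (by omega) (Wl_mono (by linarith) ih1)
              have h2 : dist (f^[k + 1] p') (f^[k + 1] p) ≤ ρ₁ / (2 * C) := by
                rw [iterate_succ_apply', iterate_succ_apply']
                refine (hs.lip _ _).trans (le_trans ?_ hsmall)
                exact mul_le_mul_of_nonneg_left h1 hC0.le
              refine ⟨?_, fun _ => h2⟩
              refine Wl_of_map ?_ (h2.trans hρ4e)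
              rw [iterate_succ_apply', iterate_succ_apply', Homeomorph.symm_apply_apply,
                Homeomorph.symm_apply_apply]
              exact ih1
          exact ⟨(ind j le_rfl).2 hj0, (ind j le_rfl).1⟩
      obtain ⟨s, hs1, hs2⟩ := hs.onto (f^[j] p) _ key.2
      refine ⟨s, ?_, hs2⟩
      have hsρ : s ∈ closedBall (0 : EuclideanSpace ℝ (Fin u)) ρ :=
        closedBall_subset_closedBall (by linarith [hs.ρ_pos]) hs1
      have h1 := hs.lower (f^[j] p) s hsρ 0 (mem_closedBall_self hs.ρ_pos.le)
      rw [hs2, hs.zero] at h1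
      rw [mem_closedBall]
      calc dist s 0 ≤ C * dist (f^[j] p') (f^[j] p) := h1
        _ ≤ C * (ρ₁ / (2 * C)) := mul_le_mul_of_nonneg_left key.1 hC0.le
        _ = ρ₁ / 2 := by field_simp

end Pool.Agent.Lib.MP610fe3.HR
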