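import Pool.Agent.Lib.MP_610fe3_an.HR.F4SSpec

/-!
# Module LINE: lines are conformal
-/

set_option autoImplicit false

open Set Filter Function Bundle Metric
open scoped Topology Manifold ContDiff

namespace Pool.Agent.Lib.MP610fe3.HR

open Cf CH

universe u v w

theorem specLine : SpecLine.{u, v, w} := by
  intro M W _ _ _ _ _ E k J _ A χ F i n h1 S _ e he
  refine ⟨1, fun m x v hv w hw => ?_⟩
  have hexp : (1 : ℝ) ≤ Real.exp ((0 + e) * m) := by
    rw [Real.one_le_exp_iff]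
    positivity
  by_cases hw0 : w = 0
  · subst hw0
    simp
  · obtain ⟨c, hc⟩ : ∃ c : ℝ, c • w = v := by
      have h2 := (finrank_eq_one_iff_of_nonzero' (⟨w, hw⟩ : coarse χ F i x)
        (by simpa [Subtype.ext_iff] using hw0)).1 (h1 x) ⟨v, hv⟩
      obtain ⟨c, hc⟩ := h2
      exact ⟨c, by simpa [Subtype.ext_iff] using hc⟩
    subst hc
    rw [map_smul, norm_smul, norm_smul, one_mul]
    have h3 : 0 ≤ ‖c‖ * ‖iterD S.D (A n) m x w‖ * ‖w‖ := by positivity
    calc ‖c‖ * ‖iterD S.D (A n) m x w‖ * ‖w‖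
        ≤ Real.exp ((0 + e) * m) * (‖c‖ * ‖iterD S.D (A n) m x w‖ * ‖w‖) :=
          le_mul_of_one_le_left h3 hexp
      _ = Real.exp ((0 + e) * m) * ‖iterD S.D (A n) m x w‖ * (‖c‖ * ‖w‖) := by ring

end Pool.Agent.Lib.MP610fe3.HR
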