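import Pool.Agent.Lib.MP_610fe3_an.HR.F4SSpec
import Pool.Agent.Lib.MP_610fe3_an.HR.F3DIMR

/-!
# Module MAINS: the theorem on the manifold, pinched or nearly conformal pairs
-/

set_option autoImplicit false

open Set Filter Function Bundle
open scoped Topology Manifold ContDiff

namespace Pool.Agent.Lib.MP610fe3.HR

open Cf CH

universe u v w

section Defs

variable {V : Type*} [NormedAddCommGroup V] [NormedSpace ℝ V]
  {M : Type*} [TopologicalSpace M] [ChartedSpace V M]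
  [RiemannianBundle (fun x : M => TangentSpace 𝓘(ℝ, V) x)]
  {k : ℕ} {J : Type*}

/-- The pair `i`, `j` is pinched, or `i` is nearly conformal: the condition on the bundles `G`. -/
def MCond (A : (Fin k → ℤ) → M ≃ₘ^1⟮𝓘(ℝ, V), 𝓘(ℝ, V)⟯ M) (χ : J → Fin k → ℝ)
    (G : J → ∀ x : M, Submodule ℝ (TangentSpace 𝓘(ℝ, V) x)) (i j : J) : Prop :=
  (∃ (n n' : Fin k → ℤ) (s b s' b' : ℝ), Regular χ n ∧ ev (χ i) n < 0 ∧ Regular χ n' ∧
    ev (χ j) n' < 0 ∧ Pinch s b s' b' ∧ ExpIn (A n) (G i) s b ∧ ExpIn (A n') (G j) s' b') ∨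
  (∃ n : Fin k → ℤ, Regular χ n ∧ ev (χ i) n < 0 ∧ Dst (A n) (G i) 0) ∨
  ∃ (n n' : Fin k → ℤ) (u : ℕ) (κ s b s' b' : ℝ), Regular χ n ∧ ev (χ i) n < 0 ∧
    Regular χ n' ∧ ev (χ j) n' < 0 ∧ Cnum u κ s b s' b' ∧
    (∀ x, Module.finrank ℝ (G i x) = u) ∧ Dst (A n) (G i) κ ∧ ExpIn (A n) (G i) s b ∧
    ExpIn (A n') (G j) s' b'

/-- The same at the periodic points. -/
def MCondP (A : (Fin k → ℤ) → M ≃ₘ^1⟮𝓘(ℝ, V), 𝓘(ℝ, V)⟯ M) (χ : J → Fin k → ℝ)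
    (G : J → ∀ x : M, Submodule ℝ (TangentSpace 𝓘(ℝ, V) x)) (i j : J) : Prop :=
  (∃ (n n' : Fin k → ℤ) (s b s' b' : ℝ), Regular χ n ∧ ev (χ i) n < 0 ∧ Regular χ n' ∧
    ev (χ j) n' < 0 ∧ Pinch s b s' b' ∧ PExpIn (A n) (G i) s b ∧ PExpIn (A n') (G j) s' b') ∨
  (∃ n : Fin k → ℤ, Regular χ n ∧ ev (χ i) n < 0 ∧ PDst (A n) (G i) 0) ∨
  ∃ (n n' : Fin k → ℤ) (u : ℕ) (κ s b s' b' : ℝ), Regular χ n ∧ ev (χ i) n < 0 ∧
    Regular χ n' ∧ ev (χ j) n' < 0 ∧ Cnum u κ s b s' b' ∧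
    (∀ x, Module.finrank ℝ (G i x) = u) ∧ PDst (A n) (G i) κ ∧ PExpIn (A n) (G i) s b ∧
    PExpIn (A n') (G j) s' b'

end Defs

/-- **The theorem on the manifold.** -/
theorem main_s (hChain : SpecChs.{u, 0, w}) (hAct : SpecActs.{u, v, w}) (hDim : SpecDimr.{u, v, w})
    {V : Type v} [NormedAddCommGroup V] [NormedSpace ℝ V] [FiniteDimensional ℝ V]
    {M : Type u} [TopologicalSpace M] [CompactSpace M] [T2Space M] [ConnectedSpace M]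
    [ChartedSpace V M] [IsManifold 𝓘(ℝ, V) ∞ M]
    [RiemannianBundle (fun x : M => TangentSpace 𝓘(ℝ, V) x)]
    [IsContinuousRiemannianBundle V (fun x : M => TangentSpace 𝓘(ℝ, V) x)]
    {k : ℕ} (A : (Fin k → ℤ) → M ≃ₘ^1⟮𝓘(ℝ, V), 𝓘(ℝ, V)⟯ M)
    (hadd : ∀ n n' x, A (n + n') x = A n (A n' x)) {J : Type w} [Finite J] (χ : J → Fin k → ℝ)
    (F : J → ∀ x : M, Submodule ℝ (TangentSpace 𝓘(ℝ, V) x))
    (hA : ∀ n : Fin k → ℤ, (∀ j, ∑ i, χ j i * (n i : ℝ) ≠ 0) → Gen.IsAnosovSplitting (A n)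
      (fun x => ⨆ (j) (_ : ∑ i, χ j i * (n i : ℝ) < 0), F j x)
      (fun x => ⨆ (j) (_ : 0 < ∑ i, χ j i * (n i : ℝ)), F j x))
    (G : J → ∀ x : M, Submodule ℝ (TangentSpace 𝓘(ℝ, V) x))
    (hG : ∀ i, G i = fun x => ⨆ (l) (_ : ∃ c : ℝ, 0 < c ∧ χ l = c • χ i), F l x)
    (hpair : ∀ i j, ∀ t : ℝ, 0 < t → χ i = -(t • χ j) →
      (MCond A χ G i j ∨ MCond A χ G j i) ∨ (∀ x, Module.finrank ℝ (G i x) = 1) ∨
      (∀ x, Module.finrank ℝ (G j x) = 1) ∨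
      ((∀ n, ContMDiff 𝓘(ℝ, V) 𝓘(ℝ, V) 2 (A n)) ∧ (MCondP A χ G i j ∨ MCondP A χ G j i ∨
        ((∀ l x, F l x ≠ ⊥) ∧ 2 ≤ Module.finrank ℝ (Submodule.span ℝ (range χ)) ∧
        Module.finrank ℝ V ≤ Module.finrank ℝ (Submodule.span ℝ (range χ)) + 3))))
    (n : Fin k → ℤ) (hn : ∀ j, ∑ i, χ j i * (n i : ℝ) ≠ 0) : TopTransitive (A n) := by
  classical
  obtain rfl : G = fun i x => ⨆ (l) (_ : ∃ c : ℝ, 0 < c ∧ χ l = c • χ i), F l x := funext hG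
  have hχ : ∀ j, χ j ≠ 0 := by
    intro j h0
    apply hn j
    simp [h0]
  -- the dimension lemma, before the metric is introduced
  have hpair' : ∀ i j, ∀ t : ℝ, 0 < t → χ i = -(t • χ j) →
      (MCond A χ (fun i x => ⨆ (l) (_ : ∃ c : ℝ, 0 < c ∧ χ l = c • χ i), F l x) i j ∨
        MCond A χ (fun i x => ⨆ (l) (_ : ∃ c : ℝ, 0 < c ∧ χ l = c • χ i), F l x) j i) ∨
      (∀ x, Module.finrank ℝ (⨆ (l) (_ : ∃ c : ℝ, 0 < c ∧ χ l = c • χ i), F l x :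
        Submodule ℝ (TangentSpace 𝓘(ℝ, V) x)) = 1) ∨
      (∀ x, Module.finrank ℝ (⨆ (l) (_ : ∃ c : ℝ, 0 < c ∧ χ l = c • χ j), F l x :
        Submodule ℝ (TangentSpace 𝓘(ℝ, V) x)) = 1) ∨
      ((∀ n, ContMDiff 𝓘(ℝ, V) 𝓘(ℝ, V) 2 (A n)) ∧
        (MCondP A χ (fun i x => ⨆ (l) (_ : ∃ c : ℝ, 0 < c ∧ χ l = c • χ i), F l x) i j ∨
        MCondP A χ (fun i x => ⨆ (l) (_ : ∃ c : ℝ, 0 < c ∧ χ l = c • χ i), F l x) j i)) := by
    intro i j t ht hij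
    rcases hpair i j t ht hij with h | h | h | ⟨hC2, h | h | ⟨hF, hr, hd⟩⟩
    · exact Or.inl h
    · exact Or.inr (Or.inl h)
    · exact Or.inr (Or.inr (Or.inl h))
    · exact Or.inr (Or.inr (Or.inr ⟨hC2, Or.inl h⟩))
    · exact Or.inr (Or.inr (Or.inr ⟨hC2, Or.inr h⟩))
    · rcases line_of_rank hDim A χ F hadd hC2 hA hχ hF hr hd i j t ht hij with h | h
      · exact Or.inr (Or.inl h)
      · exact Or.inr (Or.inr (Or.inl h))
  obtain ⟨N, e, he, hemb, hinj⟩ := exists_embedding_euclidean_of_compact (I := 𝓘(ℝ, V)) (M := M)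
  let _ : MetricSpace M := hemb.isEmbedding.comapMetricSpace e
  have hiso : Isometry e := hemb.isEmbedding.to_isometry
  obtain ⟨E, F', hAct1, hAct2, hrank, hRt, hRtq, hCf, hCfq⟩ :=
    hAct V N M e hiso he hinj k J A χ F hadd hA
  have key : ∀ i j, MCond A χ (fun i x => ⨆ (l) (_ : ∃ c : ℝ, 0 < c ∧ χ l = c • χ i), F l x) i j →
      Pra E (fun n => (A n).toHomeomorph) χ F' i j ∨
      Cfz E (fun n => (A n).toHomeomorph) χ F' i ∨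
      Cfa E (fun n => (A n).toHomeomorph) χ F' i j := by
    rintro i j (⟨p, q, s, b, s', b', g1, g2, g3, g4, h1, h2, h3⟩ | ⟨p, g1, g2, h1⟩ |
      ⟨p, q, u, κ, s, b, s', b', g1, g2, g3, g4, h1, h2, h3, h4, h5⟩)
    · exact Or.inl ⟨p, q, s, b, s', b', g1, g2, g3, g4, h1, hRt i p s b h2, hRt j q s' b' h3⟩
    · exact Or.inr (Or.inl ⟨p, g1, g2, hCf i p 0 h1⟩)
    · exact Or.inr (Or.inr ⟨p, q, u, κ, s, b, s', b', g1, g2, g3, g4, h1,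
        fun x => (hrank i x).trans (h2 x), hCf i p κ h3, hRt i p s b h4, hRt j q s' b' h5⟩)
  have keyP : ∀ i j, MCondP A χ (fun i x => ⨆ (l) (_ : ∃ c : ℝ, 0 < c ∧ χ l = c • χ i), F l x) i j →
      Praq E (fun n => (A n).toHomeomorph) χ F' i j ∨
      Cfzq E (fun n => (A n).toHomeomorph) χ F' i ∨
      Cfaq E (fun n => (A n).toHomeomorph) χ F' i j := by
    rintro i j (⟨p, q, s, b, s', b', g1, g2, g3, g4, h1, h2, h3⟩ | ⟨p, g1, g2, h1⟩ |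
      ⟨p, q, u, κ, s, b, s', b', g1, g2, g3, g4, h1, h2, h3, h4, h5⟩)
    · exact Or.inl ⟨p, q, s, b, s', b', g1, g2, g3, g4, h1, hRtq i p s b h2, hRtq j q s' b' h3⟩
    · exact Or.inr (Or.inl ⟨p, g1, g2, hCfq i p 0 h1⟩)
    · exact Or.inr (Or.inr ⟨p, q, u, κ, s, b, s', b', g1, g2, g3, g4, h1,
        fun x => (hrank i x).trans (h2 x), hCfq i p κ h3, hRtq i p s b h4, hRtq j q s' b' h5⟩)
  have swp : ∀ {s b s' b' : ℝ}, Pinch s b s' b' → Pinch s' b' s b := by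
    rintro s b s' b' ⟨h1, h2, h3, h4, h5⟩
    exact ⟨h3, h4, h1, h2, by rw [mul_comm (b' - s'), mul_comm s']; exact h5⟩
  have pra : ∀ i j, Pra E (fun n => (A n).toHomeomorph) χ F' j i →
      Pra E (fun n => (A n).toHomeomorph) χ F' i j := by
    rintro i j ⟨p, q, s, b, s', b', g1, g2, g3, g4, h1, h2, h3⟩
    exact ⟨q, p, s', b', s, b, g3, g4, g1, g2, swp h1, h3, h2⟩
  have praq : ∀ i j, Praq E (fun n => (A n).toHomeomorph) χ F' j i →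
      Praq E (fun n => (A n).toHomeomorph) χ F' i j := by
    rintro i j ⟨p, q, s, b, s', b', g1, g2, g3, g4, h1, h2, h3⟩
    exact ⟨q, p, s', b', s, b, g3, g4, g1, g2, swp h1, h3, h2⟩
  refine hChain M (EuclideanSpace ℝ (Fin N)) E k J (fun n => (A n).toHomeomorph) χ F' hAct1
    (fun i j t ht hij => ?_) n hn
  rcases hpair' i j t ht hij with (h | h) | h | h | ⟨hC2, h | h⟩
  · rcases key i j h with h | h | h
    · exact Or.inl (Or.inl h)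
    · exact Or.inl (Or.inr (Or.inl h))
    · exact Or.inl (Or.inr (Or.inr (Or.inr (Or.inl h))))
  · rcases key j i h with h | h | h
    · exact Or.inl (Or.inl (pra i j h))
    · exact Or.inl (Or.inr (Or.inr (Or.inl h)))
    · exact Or.inl (Or.inr (Or.inr (Or.inr (Or.inr (Or.inl h)))))
  · exact Or.inl (Or.inr (Or.inr (Or.inr (Or.inr (Or.inr (Or.inl fun x => by
      rw [hrank]; exact h x))))))
  · exact Or.inl (Or.inr (Or.inr (Or.inr (Or.inr (Or.inr (Or.inr fun x => by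
      rw [hrank]; exact h x))))))
  · rcases keyP i j h with h | h | h
    · exact Or.inr ⟨hAct2 hC2, Or.inl h⟩
    · exact Or.inr ⟨hAct2 hC2, Or.inr (Or.inl h)⟩
    · exact Or.inr ⟨hAct2 hC2, Or.inr (Or.inr (Or.inr (Or.inl h)))⟩
  · rcases keyP j i h with h | h | h
    · exact Or.inr ⟨hAct2 hC2, Or.inl (praq i j h)⟩
    · exact Or.inr ⟨hAct2 hC2, Or.inr (Or.inr (Or.inl h))⟩
    · exact Or.inr ⟨hAct2 hC2, Or.inr (Or.inr (Or.inr (Or.inr h)))⟩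

end Pool.Agent.Lib.MP610fe3.HR
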