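import Pool.Agent.Lib.MP_610fe3_an.HR.F4Spec
import Pool.Agent.Lib.MP_610fe3_an.HR.CHN1

/-!
# Module MIX (hive F4): uniform density of the stable leaves in a minimal set
-/

set_option autoImplicit false

open Set Filter Function Metric
open scoped Topology

namespace Pool.Agent.Lib.MP610fe3.HR

open Cf CH

universe u

namespace F4MIXAux

open MINAux

section

variable {M : Type*} [MetricSpace M]

theorem symm_iter_of_le (f : M ≃ₜ M) {k m : ℕ} (h : k ≤ m) (z : M) :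
    f.symm^[k] (f^[m] z) = f^[m - k] z := by
  obtain ⟨j, rfl⟩ := Nat.exists_eq_add_of_le h
  rw [Nat.add_sub_cancel_left, iterate_add_apply, CH.symm_iter]

theorem symm_iter_of_ge (f : M ≃ₜ M) {k m : ℕ} (h : m ≤ k) (z : M) :
    f.symm^[k] (f^[m] z) = f.symm^[k - m] z := by
  obtain ⟨j, rfl⟩ := Nat.exists_eq_add_of_le h
  rw [Nat.add_sub_cancel_left, add_comm, iterate_add_apply, CH.symm_iter]

end

variable {M : Type*} [MetricSpace M] [CompactSpace M] {f : M ≃ₜ M} {ε C l : ℝ}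

theorem unif (f : M ≃ₜ M) (P : ℕ) {δ : ℝ} (hδ : 0 < δ) : ∃ δ' : ℝ, 0 < δ' ∧ δ' ≤ δ ∧
    ∀ x y, dist x y ≤ δ' → ∀ j ≤ P, dist (f^[j] x) (f^[j] y) ≤ δ := by
  induction P with
  | zero =>
    refine ⟨δ, hδ, le_rfl, fun x y h j hj => ?_⟩
    obtain rfl : j = 0 := by omega
    exact h
  | succ P ih =>
    obtain ⟨δ₁, h1, h2, h3⟩ := ih
    obtain ⟨δ₂, h4, h5⟩ := Metric.uniformContinuous_iff.1
      (CompactSpace.uniformContinuous_of_continuous (f.continuous.iterate (P + 1))) δ hδ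
    refine ⟨min δ₁ (δ₂ / 2), lt_min h1 (by positivity), (min_le_left _ _).trans h2,
      fun x y h j hj => ?_⟩
    rcases Nat.lt_or_ge P j with hj' | hj'
    · obtain rfl : j = P + 1 := by omega
      have : dist x y < δ₂ := by
        have := h.trans (min_le_right _ _)
        linarith
      exact (h5 this).le
    · exact h3 x y (h.trans (min_le_left _ _)) j hj'

theorem dense_ws (h : Loc f ε C l) {A : Set M} (hA : Minimal (· ∈ Sset f) A) {q : M} (hq : q ∈ A) :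
    A ⊆ closure {w | FwdAsymp f w q} := by
  have hA' : Minimal (· ∈ Sset f.symm.symm) A := by rwa [Homeomorph.symm_symm]
  have := subset_closure_wu h.symm hA' hq
  rwa [Homeomorph.symm_symm] at this

theorem local_step (h : Loc f ε C l) {A : Set M} (hA : Minimal (· ∈ Sset f) A) {δ : ℝ}
    (hδ : 0 < δ) {y a' : M} (hy : y ∈ A) (ha' : a' ∈ A) :
    ∃ (r : ℝ) (N : ℕ), 0 < r ∧ ∀ y₁ a₁ : M, dist y₁ y < r → dist a₁ a' < r → ∀ m, N ≤ m →
      ∃ z ∈ Wl f.symm δ a₁, f^[m] z ∈ Wl f δ (f^[m] y₁) := by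
  obtain ⟨δ₁, hδ₁, hbr₁⟩ := h.br.exist (δ / 2) (by positivity)
  obtain ⟨δ₂, hδ₂, hbr₂⟩ := h.br.exist (min (δ / 2) (δ₁ / 3)) (lt_min (by positivity) (by positivity))
  obtain ⟨w, hw, hwa⟩ := Metric.mem_closure_iff.1 (dense_ws h hA hy ha') (δ₁ / 3) (by positivity)
  obtain ⟨N, hN⟩ := (Metric.tendsto_atTop.1 (show Tendsto (fun k : ℕ => dist (f^[k] w) (f^[k] y))
    atTop (𝓝 0) from hw)) (δ₂ / 2) (by positivity)
  have hN' := hN N le_rfl
  rw [Real.dist_0_eq_abs, abs_of_nonneg dist_nonneg] at hN'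
  obtain ⟨r, hr, hc⟩ := Metric.continuous_iff.1 (f.continuous.iterate N) y (δ₂ / 2) (by positivity)
  refine ⟨min r (δ₁ / 3), N, lt_min hr (by positivity), fun y₁ a₁ hy₁ ha₁ m hm => ?_⟩
  have h1 : dist (f^[N] y₁) (f^[N] w) < δ₂ := by
    have h11 := hc y₁ (hy₁.trans_le (min_le_left _ _))
    have h12 := dist_triangle_right (f^[N] y₁) (f^[N] w) (f^[N] y)
    linarith
  obtain ⟨v, hv1, hv2⟩ := hbr₂ _ _ h1
  set w₁ := f.symm^[N] v with hw₁
  have hw₁w : dist w₁ w ≤ δ₁ / 3 := by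
    have h13 := hv2 N
    rw [CH.symm_iter] at h13
    exact h13.trans (min_le_right _ _)
  have h2 : dist w₁ a₁ < δ₁ := by
    have h21 := dist_triangle w₁ w a₁
    have h22 := dist_triangle w a' a₁
    have h23 := ha₁.trans_le (min_le_right _ _)
    rw [dist_comm a' w] at hwa
    rw [dist_comm a' a₁] at h22
    linarith
  obtain ⟨z, hz1, hz2⟩ := hbr₁ _ _ h2
  refine ⟨z, fun k => (hz2 k).trans (by linarith), fun k => ?_⟩
  have h3 := hz1 (k + m)
  have h4 := (hv1 (k + (m - N))).trans (min_le_left _ _)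
  have h5 : f^[k + m] w₁ = f^[k + (m - N)] v := by
    have : k + m = k + (m - N) + N := by omega
    rw [this, iterate_add_apply, hw₁, CH.iter_symm]
  have h6 : f^[k + (m - N)] (f^[N] y₁) = f^[k + m] y₁ := by
    rw [← iterate_add_apply]
    congr 1
    omega
  rw [h5] at h3
  rw [h6] at h4
  rw [← iterate_add_apply, ← iterate_add_apply]
  have := dist_triangle (f^[k + m] z) (f^[k + (m - N)] v) (f^[k + m] y₁)
  linarith

theorem uniform (h : Loc f ε C l) {A : Set M} (hA : Minimal (· ∈ Sset f) A) {δ : ℝ}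
    (hδ : 0 < δ) : ∃ N : ℕ, ∀ y ∈ A, ∀ a ∈ A, ∀ m, N ≤ m →
      ∃ z ∈ Wl f.symm δ a, f^[m] z ∈ Wl f δ (f^[m] y) := by
  have hcpt : IsCompact (A ×ˢ A) := hA.1.1.isCompact.prod hA.1.1.isCompact
  have key := hcpt.induction_on (p := fun S => ∃ N : ℕ, ∀ x ∈ S, ∀ m, N ≤ m →
    ∃ z ∈ Wl f.symm δ x.2, f^[m] z ∈ Wl f δ (f^[m] x.1)) ⟨0, fun x hx => absurd hx (notMem_empty x)⟩
    (fun s t hst ⟨N, hN⟩ => ⟨N, fun x hx => hN x (hst hx)⟩)
    (fun s t ⟨N, hN⟩ ⟨N', hN'⟩ => ⟨max N N', fun x hx m hm => by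
      rcases hx with hx | hx
      · exact hN x hx m ((le_max_left _ _).trans hm)
      · exact hN' x hx m ((le_max_right _ _).trans hm)⟩)
    (fun x hx => by
      obtain ⟨r, N, hr, H⟩ := local_step h hA hδ hx.1 hx.2
      refine ⟨ball x.1 r ×ˢ ball x.2 r, mem_nhdsWithin_of_mem_nhds
        (prod_mem_nhds (ball_mem_nhds _ hr) (ball_mem_nhds _ hr)), N, fun x' hx' m hm => ?_⟩
      exact H x'.1 x'.2 hx'.1 hx'.2 m hm)
  obtain ⟨N, hN⟩ := key
  exact ⟨N, fun y hy a ha m hm => hN (y, a) ⟨hy, ha⟩ m hm⟩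

omit [CompactSpace M] in
theorem reduce {A : Set M} {P : ℕ} (hP : 0 < P) (hinv : f^[P] '' A = A) {a : M}
    (h : ∃ i : ℕ, a ∈ f^[i] '' A) : ∃ i < P, ∃ a₀ ∈ A, f^[i] a₀ = a := by
  obtain ⟨i, a₀, ha₀, rfl⟩ := h
  refine ⟨i % P, Nat.mod_lt _ hP, f^[P * (i / P)] a₀, iterate_maps hinv ha₀ _, ?_⟩
  rw [← iterate_add_apply, Nat.mod_add_div]

end F4MIXAux

open F4MIXAux

/-- **MIX**. -/
theorem specMix : SpecMix.{u} := by
  intro M _ _ f ε C l h A P hA hP hinv δ hδ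
  obtain ⟨δ', hδ', hle, hun⟩ := unif f P hδ
  obtain ⟨N, hN⟩ := uniform h hA hδ'
  refine ⟨P * (N + 1) + P, fun a a' ha ha' => ?_⟩
  obtain ⟨i, hi, a₀, ha₀, rfl⟩ := reduce hP hinv ha
  obtain ⟨i', hi', a₀', ha₀', rfl⟩ := reduce hP hinv ha'
  have hP1 : N + 1 ≤ P * (N + 1) := Nat.le_mul_of_pos_left _ hP
  have hPi : P ≤ P * (N + 1) := Nat.le_mul_of_pos_right _ (by omega)
  have hy : f.symm^[P * (N + 1)] a₀ ∈ A := symm_iter_mem hinv ha₀ (N + 1)
  obtain ⟨z, hz1, hz2⟩ := hN _ hy a₀' ha₀' (i + P * (N + 1)) (by omega)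
  rw [iterate_add_apply f i _ (f.symm^[P * (N + 1)] a₀), CH.iter_symm] at hz2
  refine ⟨P * (N + 1) + i - i', by omega, f^[i + P * (N + 1)] z, fun k => (hz2 k).trans hle, ?_⟩
  have h1 : f.symm^[P * (N + 1) + i - i'] (f^[i + P * (N + 1)] z) = f^[i'] z := by
    rw [symm_iter_of_le f (by omega)]
    congr 1
    omega
  rw [h1]
  intro k
  rcases Nat.lt_or_ge k i' with hk | hk
  · rw [symm_iter_of_le f hk.le, symm_iter_of_le f hk.le]
    exact hun _ _ (hz1 0) _ (by omega)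
  · rw [symm_iter_of_ge f hk, symm_iter_of_ge f hk]
    exact (hz1 _).trans hle

end Pool.Agent.Lib.MP610fe3.HR
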