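import Pool.Agent.Lib.MP_610fe3_an.HR.F4SSpec

/-!
# Module NUMS: the numbers of a nearly conformal bundle
-/

set_option autoImplicit false

open Set Filter Function
open scoped Topology

namespace Pool.Agent.Lib.MP610fe3.HR

theorem specNums : SpecNums := by
  rintro u k s b s' b' ⟨hk, hks, hsb, hs', hsb', h⟩
  have c1 : ContinuousAt (fun η : ℝ => (u : ℝ) * k * (u * ((b' + η) / (1 - η * (b' + η))) - (s' - η)) -
      (s - η) * (s' - η)) 0 := by
    have : (1 : ℝ) - 0 * (b' + 0) ≠ 0 := by norm_num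
    fun_prop (disch := assumption)
  have c3 : ContinuousAt (fun η : ℝ => 1 - η * (b + η)) 0 := by fun_prop
  have c4 : ContinuousAt (fun η : ℝ => 1 - η * (b' + η)) 0 := by fun_prop
  have e1 := c1.eventually (gt_mem_nhds (show (u : ℝ) * k * (u * ((b' + 0) / (1 - 0 * (b' + 0))) -
      (s' - 0)) - (s - 0) * (s' - 0) < 0 by
    simp only [add_zero, zero_mul, sub_zero, div_one]; linarith))
  have e3 := c3.eventually (lt_mem_nhds (show (0 : ℝ) < 1 - 0 * (b + 0) by norm_num))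
  have e4 := c4.eventually (lt_mem_nhds (show (0 : ℝ) < 1 - 0 * (b' + 0) by norm_num))
  have e5 : ∀ᶠ η : ℝ in 𝓝 0, η < s - k := gt_mem_nhds (by linarith)
  have e6 : ∀ᶠ η : ℝ in 𝓝 0, η < s' := gt_mem_nhds hs'
  have e7 : ∀ᶠ η : ℝ in 𝓝[>] 0, 0 < η := self_mem_nhdsWithin
  obtain ⟨η, ⟨⟨⟨⟨a1, a3⟩, a4⟩, a5⟩, a6⟩, a7⟩ :=
    ((((((e1.and e3).and e4).and e5).and e6).filter_mono nhdsWithin_le_nhds).and e7).exists
  refine ⟨η, 1 / η, a7, a6, by linarith, ?_, ?_, ?_⟩
  · rw [lt_div_iff₀ a7]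
    linarith
  · rw [lt_div_iff₀ a7]
    linarith
  · have hne : (1 : ℝ) - η * (b' + η) ≠ 0 := a4.ne'
    have hq : (b' + η) * (1 / η) / (1 / η - (b' + η)) = (b' + η) / (1 - η * (b' + η)) := by
      have h1 : 1 / η - (b' + η) = (1 - η * (b' + η)) / η := by field_simp
      rw [h1, mul_one_div, div_div_div_cancel_right₀ a7.ne']
    rw [hq]
    linarith

end Pool.Agent.Lib.MP610fe3.HR
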