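import Pool.Agent.Lib.MP_610fe3_an.HR.F4Spec

/-!
# Module PTH: chains of short links from a point of `UY` to the set `A`
-/

set_option autoImplicit false

open Set Filter Function Metric
open scoped Topology

namespace Pool.Agent.Lib.MP610fe3.HR

open Cf CH

universe u

namespace F4PTHAux

variable {M : Type u} [MetricSpace M]

theorem comm_iter {F G : M ≃ₜ M} (hc : ∀ x, F (G x) = G (F x)) (m : ℕ) (x : M) :
    F (G^[m] x) = G^[m] (F x) := by
  induction m generalizing x with
  | zero => rfl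
  | succ m ih => rw [iterate_succ_apply, ih, hc, iterate_succ_apply]

theorem comm_iter' {F G : M ≃ₜ M} (hc : ∀ x, F (G x) = G (F x)) (N m : ℕ) (x : M) :
    F^[N] (G^[m] x) = G^[m] (F^[N] x) := by
  induction N generalizing x with
  | zero => rfl
  | succ N ih => rw [iterate_succ_apply, comm_iter hc, ih, iterate_succ_apply]

theorem dbl_map_iter {F G : M ≃ₜ M} (hc : ∀ x, F (G x) = G (F x)) {x y : M} (h : Dbl F G x y)
    (N : ℕ) : Dbl F G (F^[N] x) (F^[N] y) := by
  intro ε hε
  obtain ⟨K, hK⟩ := h ε hε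
  refine ⟨K, fun n m hnm => ?_⟩
  rw [← comm_iter' hc, ← comm_iter' hc, ← iterate_add_apply, ← iterate_add_apply]
  exact hK (n + N) m (by omega)

/-- far in the direction of `F`, the points of a double leaf are in a small local leaf -/
theorem exists_lf {F G : M ≃ₜ M} (hc : ∀ x, F (G x) = G (F x)) {x y : M} (h : Dbl F G x y)
    {e : ℝ} (he : 0 < e) : ∃ N : ℕ, F^[N] y ∈ Lf F G e (F^[N] x) := by
  obtain ⟨K, hK⟩ := h e he
  refine ⟨K, fun k => ?_, dbl_map_iter hc h K⟩
  have := hK (k + K) 0 (by omega)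
  rw [dist_comm, ← iterate_add_apply, ← iterate_add_apply]
  exact this

theorem iter_add_symm (f : M ≃ₜ M) (m N : ℕ) (x : M) : f^[m + N] (f.symm^[N] x) = f^[m] x := by
  rw [iterate_add_apply]
  congr 1
  have h : LeftInverse f f.symm := f.apply_symm_apply
  exact (h.iterate N) x

theorem iter_mem {f : M ≃ₜ M} {A : Set M} (h : f '' A = A) (m : ℕ) {a : M} (ha : a ∈ A) :
    f^[m] a ∈ A := by
  induction m generalizing a with
  | zero => exact ha
  | succ m ih =>
    rw [iterate_succ_apply]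
    exact ih (h ▸ mem_image_of_mem f ha)

end F4PTHAux

open F4PTHAux in
/-- **Module PTH.** -/
theorem specPth : SpecPth.{u} := by
  intro M _ _ f g ε C l σ A P hC hσ hA y hy r hr
  obtain ⟨a, ha, hya⟩ := hy
  obtain ⟨e, he, H⟩ := hC
  obtain ⟨Λ, hΛ⟩ := H r hr
  have hc : ∀ x, f.symm (g x) = g (f.symm x) := fun x => by
    apply f.injective
    rw [f.apply_symm_apply, P.comm, f.apply_symm_apply]
  obtain ⟨N, hN⟩ := exists_lf hc hya he
  refine ⟨Λ * Real.exp (σ * N), fun m => ?_⟩
  obtain ⟨K, q, hK, hq0, hqK, hq⟩ := hΛ (m + N) _ _ hN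
  refine ⟨K, q, ?_, ?_, ?_, hq⟩
  · refine hK.trans (le_of_eq ?_)
    rw [mul_assoc, ← Real.exp_add]
    congr 2
    push_cast
    ring
  · rw [hq0, iter_add_symm]
  · rw [hqK, iter_add_symm]
    exact iter_mem hA m ha

end Pool.Agent.Lib.MP610fe3.HR
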