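import Pool.Agent.Lib.MP_610fe3_an.HR.F4Spec

/-!
# PTS: separated points of small leaves
-/

set_option autoImplicit false

open Set Filter Function Bundle Metric
open scoped Topology Manifold ContDiff

namespace Pool.Agent.Lib.MP610fe3.HR

open Cf CH

universe u

namespace F4PTSAux

variable {M : Type*} [MetricSpace M]

theorem wl_tri {f : M ≃ₜ M} {δ : ℝ} {a x y : M} (hx : x ∈ Wl f δ a) (hy : y ∈ Wl f δ a) :
    y ∈ Wl f (2 * δ) x := by
  intro n
  have h1 := hx n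
  have h2 := hy n
  have h3 := dist_triangle_right (f^[n] y) (f^[n] x) (f^[n] a)
  linarith

/-- the points of the ball -/
noncomputable def pt {u : ℕ} (hu : 1 ≤ u) (ρ : ℝ) (Q i : ℕ) : EuclideanSpace ℝ (Fin u) :=
  EuclideanSpace.single (⟨0, hu⟩ : Fin u) (ρ * (i / (Q + 1 : ℝ)))

theorem pt_mem {u : ℕ} (hu : 1 ≤ u) {ρ : ℝ} (hρ : 0 < ρ) {Q i : ℕ} (hi : i < Q) :
    pt hu ρ Q i ∈ closedBall (0 : EuclideanSpace ℝ (Fin u)) ρ := by
  have hQ : (0 : ℝ) < Q + 1 := by positivity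
  have h1 : (i : ℝ) / (Q + 1 : ℝ) ≤ 1 := by
    rw [div_le_one hQ]
    have : (i : ℝ) ≤ Q := by exact_mod_cast hi.le
    linarith
  have h2 : 0 ≤ (i : ℝ) / (Q + 1 : ℝ) := by positivity
  rw [mem_closedBall_zero_iff, pt, EuclideanSpace.norm_single, Real.norm_eq_abs,
    abs_of_nonneg (by positivity)]
  nlinarith

theorem pt_dist {u : ℕ} (hu : 1 ≤ u) {ρ : ℝ} (hρ : 0 < ρ) {Q i j : ℕ} (hij : i ≠ j) :
    ρ / (Q + 1 : ℝ) ≤ dist (pt hu ρ Q i) (pt hu ρ Q j) := by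
  have hQ : (0 : ℝ) < Q + 1 := by positivity
  rw [pt, pt, EuclideanSpace.dist_single_same, Real.dist_eq]
  have h1 : ρ * ((i : ℝ) / (Q + 1 : ℝ)) - ρ * ((j : ℝ) / (Q + 1 : ℝ)) =
      ρ / (Q + 1 : ℝ) * ((i : ℝ) - j) := by
    field_simp
  rw [h1, abs_mul, abs_of_pos (by positivity)]
  have h2 : (1 : ℝ) ≤ |(i : ℝ) - j| := by
    have h3 : (1 : ℤ) ≤ |(i : ℤ) - j| := by
      apply Int.one_le_abs
      intro h4
      apply hij
      omega
    exact_mod_cast h3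
  have h4 : 0 < ρ / (Q + 1 : ℝ) := by positivity
  nlinarith

end F4PTSAux

open F4PTSAux in
/-- **PTS.** -/
theorem specPts (hExl : SpecExl.{u}) : SpecPts.{u} := by
  intro M _ _ f g ε C l u φ C₁ ρ e₁ hP hu hφ
  classical
  obtain ⟨η₀, hη₀, hE⟩ := hExl M f g ε C l hP
  refine ⟨η₀, hη₀, ?_⟩
  intro Q s hs
  obtain ⟨ρ', hρ', hρ'ρ, hmem⟩ := hφ.mem (min s (η₀ / 2)) (lt_min hs (by linarith))
  have hC1 : 0 < C₁ := lt_of_lt_of_le one_pos hφ.one_le
  have hQ : (0 : ℝ) < Q + 1 := by positivity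
  set η : ℝ := ρ' / (Q + 1 : ℝ) / (2 * C₁) with hη
  have hηpos : 0 < η := by positivity
  obtain ⟨l₂, hl₂⟩ := hE η hηpos
  refine ⟨0 + l₂, ?_⟩
  intro a
  have hsep : ∀ i, i < Q → ∀ j, j < Q → i ≠ j →
      η < dist (φ a (pt hu ρ' Q i)) (φ a (pt hu ρ' Q j)) := by
    intro i hi j hj hij
    have m1 := closedBall_subset_closedBall hρ'ρ (pt_mem hu hρ' hi)
    have m2 := closedBall_subset_closedBall hρ'ρ (pt_mem hu hρ' hj)
    have h1 := hφ.lower a _ m1 _ m2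
    have h2 := pt_dist hu hρ' (Q := Q) hij
    have h3 : η * (2 * C₁) = ρ' / (Q + 1 : ℝ) := by
      rw [hη]
      field_simp
    have h4 : η * (2 * C₁) ≤ C₁ * dist (φ a (pt hu ρ' Q i)) (φ a (pt hu ρ' Q j)) := by
      rw [h3]
      exact h2.trans h1
    have h5 : 2 * η ≤ dist (φ a (pt hu ρ' Q i)) (φ a (pt hu ρ' Q j)) := by
      have h6 : C₁ * (2 * η) ≤ C₁ * dist (φ a (pt hu ρ' Q i)) (φ a (pt hu ρ' Q j)) := by
        linarith
      exact le_of_mul_le_mul_left h6 hC1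
    linarith
  have hLf : ∀ i, i < Q → φ a (pt hu ρ' Q i) ∈ Lf f g.symm (min s (η₀ / 2)) a :=
    fun i hi => hmem a _ (pt_mem hu hρ' hi)
  refine ⟨(Finset.range Q).image fun i => φ a (pt hu ρ' Q i), ?_, ?_, ?_⟩
  · rw [Finset.card_image_of_injOn, Finset.card_range]
    intro i hi j hj hij
    by_contra hne
    have hi' := Finset.mem_range.1 (Finset.mem_coe.1 hi)
    have hj' := Finset.mem_range.1 (Finset.mem_coe.1 hj)
    have h1 := hsep i hi' j hj' hne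
    have h2 : φ a (pt hu ρ' Q i) = φ a (pt hu ρ' Q j) := hij
    rw [h2, dist_self] at h1
    linarith
  · intro x hx
    obtain ⟨i, hi, rfl⟩ := Finset.mem_image.1 hx
    obtain ⟨h1, h2⟩ := hLf i (Finset.mem_range.1 hi)
    exact ⟨fun n => (h1 n).trans (min_le_left _ _), h2⟩
  · intro x hx y hy hxy
    obtain ⟨i, hi, rfl⟩ := Finset.mem_image.1 hx
    obtain ⟨j, hj, rfl⟩ := Finset.mem_image.1 hy
    have hi' := Finset.mem_range.1 hi
    have hj' := Finset.mem_range.1 hj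
    have hij : i ≠ j := by
      rintro rfl
      exact hxy rfl
    have w1 : φ a (pt hu ρ' Q i) ∈ Wl f (η₀ / 2) a := fun n =>
      ((hLf i hi').1 n).trans (min_le_right _ _)
    have w2 : φ a (pt hu ρ' Q j) ∈ Wl f (η₀ / 2) a := fun n =>
      ((hLf j hj').1 n).trans (min_le_right _ _)
    have w3 := wl_tri w1 w2
    rw [show 2 * (η₀ / 2) = η₀ by ring] at w3
    exact hl₂ 0 _ _ w3 ⟨0, le_rfl, hsep i hi' j hj' hij⟩

end Pool.Agent.Lib.MP610fe3.HR
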