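import Pool.Agent.Lib.MP_610fe3_an.HR.F4SSpec
import Pool.Agent.Lib.MP_610fe3_an.HR.F1CRT
import Pool.Agent.Lib.MP_610fe3_an.HR.F3RATX
import Pool.Agent.Lib.MP_610fe3_an.HR.PAIR
import Pool.Agent.Lib.MP_610fe3_an.HR.PROD
import Pool.Agent.Lib.MP_610fe3_an.HR.DBL
import Pool.Agent.Lib.MP_610fe3_an.T6.Qc

/-!
# Module QCX of hive F4: quasiconformality on the leaves `X` (helper68)
-/

set_option autoImplicit false

open Set Filter Function Metric
open scoped Topology

namespace Pool.Agent.Lib.MP610fe3.HR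

open Cf CH

universe u v

namespace F4QCXAux

variable {M : Type u} {W : Type v} [MetricSpace M] [CompactSpace M] [NormedAddCommGroup W]
  [InnerProductSpace ℝ W] [FiniteDimensional ℝ W] {E : Emb M W} {f g : M ≃ₜ M}

theorem dbl_iter (h : ∀ x, f (g x) = g (f x)) {x y : M} (hxy : Dbl f g x y) (n : ℕ) :
    Dbl f g (f^[n] x) (f^[n] y) := by
  obtain ⟨-, -, -, -, -, -, hinv, -⟩ := specDbl M f g h
  induction n with
  | zero => exact hxy
  | succ n ih =>
    rw [iterate_succ_apply', iterate_succ_apply']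
    exact (hinv f (fun x => rfl) (fun x => h x) _ _).2 ih

theorem lf_iter (h : ∀ x, f (g x) = g (f x)) {r : ℝ} {z p : M} (hp : p ∈ Lf f g r z) (n : ℕ) :
    f^[n] p ∈ Lf f g r (f^[n] z) :=
  ⟨Cf.Wl_iter hp.1 n, dbl_iter h hp.2 n⟩

/-- everything about one block -/
theorem block (s : Split E f) (t : Split E g) (hs : s.Hyperbolic) (ht : t.Hyperbolic)
    (hc : ∀ x, f (g x) = g (f x)) (n : ℕ) {ω : ℝ} (hω : 0 < ω) :
    ∃ r : ℝ, 0 < r ∧ ∀ z : M, ∀ p ∈ Lf f g r z, ∀ q ∈ Lf f g r z,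
      |dist (f^[n] p) (f^[n] q) -
        ‖iterD s.D f n z (PP s t z (E.e p - E.e q))‖| ≤ ω * dist p q ∧
      |dist p q - ‖PP s t z (E.e p - E.e q)‖| ≤ ω * dist p q := by
  obtain ⟨ε₀, C₀, l₀, hP⟩ := specPair M W E f g s t hs ht hc
  obtain ⟨-, hsym, htr, -⟩ := specDbl M f g hc
  obtain ⟨B, hB1, hB⟩ := exists_norm_bound
    (continuous_iterD (D := s.D) (f := f) s.hD.cont f.continuous n)
  have hB0 : 0 < B := by linarith
  obtain ⟨η, hη⟩ : ∃ η : ℝ, η = ω / (4 * B) := ⟨_, rfl⟩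
  have hη0 : 0 < η := by rw [hη]; positivity
  have hηω : 4 * B * η = ω := by rw [hη]; field_simp
  have hηω' : 4 * η ≤ ω := by nlinarith
  obtain ⟨r₁, hr₁, h1⟩ := T6.QcM.approx s n η hη0
  obtain ⟨r₂, hr₂, h2⟩ := exists_unif
    (continuous_iterD (D := s.D) (f := f) s.hD.cont f.continuous n) hη0
  have hPPc : Continuous (PP s t) := (s.contS hs).clm_comp (t.contS ht)
  obtain ⟨r₃, hr₃, h3⟩ := exists_unif hPPc hη0
  obtain ⟨r₄, hr₄, h4⟩ := F1CRTAux.cone2 s t hs ht hη0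
  obtain ⟨δ, hδ, h5⟩ := (specProd M f g ε₀ C₀ l₀ hP).2.2.1 r₄ hr₄
  obtain ⟨r, hr⟩ : ∃ r : ℝ, r = min (min (min (r₁ / 4) (r₂ / 4)) (min (r₃ / 4) (r₄ / 4))) (δ / 2) :=
    ⟨_, rfl⟩
  have hr0 : 0 < r := by rw [hr]; positivity
  have hra : r ≤ r₁ / 4 := by
    rw [hr]; exact (min_le_left _ _).trans ((min_le_left _ _).trans (min_le_left _ _))
  have hrb : r ≤ r₂ / 4 := by
    rw [hr]; exact (min_le_left _ _).trans ((min_le_left _ _).trans (min_le_right _ _))
  have hrc : r ≤ r₃ / 4 := by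
    rw [hr]; exact (min_le_left _ _).trans ((min_le_right _ _).trans (min_le_left _ _))
  have hrd : r ≤ r₄ / 4 := by
    rw [hr]; exact (min_le_left _ _).trans ((min_le_right _ _).trans (min_le_right _ _))
  have hre : r ≤ δ / 2 := by rw [hr]; exact min_le_right _ _
  refine ⟨r, hr0, fun z p hp q hq => ?_⟩
  have hpq : p ∈ Wl f (r + r) q := Cf.Wl_trans (Cf.Wl_comm hq.1) hp.1
  have hpq' : Dbl f g q p := htr _ _ _ (hsym _ _ hq.2) hp.2
  have hpg : p ∈ Wl g r₄ q := h5 q p hpq' (Cf.Wl_mono (by linarith) hpq)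
  have d0 : 0 ≤ dist p q := dist_nonneg
  have d1 : dist p q ≤ r + r := Cf.Wl_dist hpq
  have d2 : dist q z ≤ r := Cf.Wl_dist hq.1
  have a1 := h1 q p (by linarith)
  have a2 := h2 z q (by linarith)
  have a3 := h3 z q (by linarith)
  have a4 := h4 q p (Cf.Wl_mono (by linarith) hpq) hpg
  obtain ⟨x, hx⟩ : ∃ x : W, x = E.e p - E.e q := ⟨_, rfl⟩
  rw [← hx] at a1 a4 ⊢
  have hxn : ‖x‖ = dist p q := by rw [hx]; exact (E.dist_eq p q).symm
  have a3' : ‖PP s t q x - PP s t z x‖ ≤ η * dist p q := by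
    rw [← sub_apply, ← hxn]
    exact (PP s t q - PP s t z).le_of_opNorm_le a3 _
  have a5 : ‖x - PP s t z x‖ ≤ 2 * η * dist p q := by
    have e1 : x - PP s t z x = (x - PP s t q x) + (PP s t q x - PP s t z x) := by abel
    rw [e1]
    refine (norm_add_le _ _).trans ?_
    linarith
  have a2' : ‖iterD s.D f n q x - iterD s.D f n z x‖ ≤ η * dist p q := by
    rw [← sub_apply, ← hxn]
    exact (iterD s.D f n q - iterD s.D f n z).le_of_opNorm_le a2 _
  have a6 : ‖iterD s.D f n z x - iterD s.D f n z (PP s t z x)‖ ≤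
      B * (2 * η * dist p q) := by
    rw [← map_sub]
    refine ((iterD s.D f n z).le_of_opNorm_le (hB z) _).trans ?_
    exact mul_le_mul_of_nonneg_left a5 hB0.le
  constructor
  · rw [E.dist_eq (f^[n] p) (f^[n] q)]
    refine (abs_norm_sub_norm_le _ _).trans ?_
    have e1 : E.e (f^[n] p) - E.e (f^[n] q) - iterD s.D f n z (PP s t z x) =
        (E.e (f^[n] p) - E.e (f^[n] q) - iterD s.D f n q x) +
        (iterD s.D f n q x - iterD s.D f n z x) +
        (iterD s.D f n z x - iterD s.D f n z (PP s t z x)) := by abel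
    rw [e1]
    refine (norm_add₃_le).trans ?_
    have e2 : 2 * η + 2 * (B * η) ≤ ω := by nlinarith
    calc _ ≤ η * dist p q + η * dist p q + B * (2 * η * dist p q) := by linarith
      _ = (2 * η + 2 * (B * η)) * dist p q := by ring
      _ ≤ ω * dist p q := mul_le_mul_of_nonneg_right e2 d0
  · rw [← hxn]
    refine (abs_norm_sub_norm_le _ _).trans (a5.trans ?_)
    rw [hxn]
    exact mul_le_mul_of_nonneg_right (by linarith) d0

theorem main (s : Split E f) (t : Split E g) (hs : s.Hyperbolic) (ht : t.Hyperbolic)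
    (hc : ∀ x, f (g x) = g (f x)) (C₀ k k' : ℝ) (hk : 1 ≤ k) (hkk : k < k')
    (H : ∀ (n : ℕ) (x : M) (v w : W), PP s t x v = v → PP s t x w = w →
      ‖iterD s.D f n x v‖ * ‖w‖ ≤ C₀ * k ^ n * ‖iterD s.D f n x w‖ * ‖v‖) :
    ∃ r C : ℝ, 0 < r ∧ ∀ (n : ℕ) (z : M), ∀ p ∈ Lf f g r z, ∀ q ∈ Lf f g r z,
      ∀ p' ∈ Lf f g r z, ∀ q' ∈ Lf f g r z, dist (f^[n] p) (f^[n] q) * dist p' q' ≤
        C * k' ^ n * dist (f^[n] p') (f^[n] q') * dist p q := by
  obtain ⟨C₁, hC₁⟩ : ∃ C₁ : ℝ, C₁ = max C₀ 0 := ⟨_, rfl⟩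
  have hC₁0 : 0 ≤ C₁ := by rw [hC₁]; exact le_max_right _ _
  have hC₁1 : C₀ ≤ C₁ := by rw [hC₁]; exact le_max_left _ _
  have hk0 : 0 < k := by linarith
  have hk'0 : 0 < k' := by linarith
  have hk'1 : 1 ≤ k' := by linarith
  -- the block length
  obtain ⟨N, hN1, hNpos⟩ : ∃ N : ℕ, (4 * C₁ + 2) * (k / k') ^ N ≤ 1 ∧ 1 ≤ N := by
    have h := (tendsto_pow_atTop_nhds_zero_of_lt_one (r := k / k') (by positivity)
      ((div_lt_one hk'0).2 hkk)).const_mul (4 * C₁ + 2)
    rw [mul_zero] at h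
    obtain ⟨N, h1, h2⟩ := ((h.eventually (gt_mem_nhds (show (0 : ℝ) < 1 by norm_num))).and
      (eventually_ge_atTop 1)).exists
    exact ⟨N, h1.le, h2⟩
  have hN : 4 * (C₁ * k ^ N) + 2 ≤ k' ^ N := by
    have h1 : (4 * C₁ + 2) * k ^ N ≤ k' ^ N := by
      rw [div_pow, ← mul_div_assoc, div_le_one (by positivity)] at hN1
      exact hN1
    have h2 : (1 : ℝ) ≤ k ^ N := one_le_pow₀ hk
    nlinarith
  -- the lower bound of the derivative
  obtain ⟨B, hB1, hB⟩ := exists_norm_bound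
    (continuous_iterD (D := s.Di) (f := f.symm) s.hDi.cont f.symm.continuous N)
  have hB0 : 0 < B := by linarith
  have hlow : ∀ (z : M) (x : W), ‖PP s t z x‖ ≤ B * ‖iterD s.D f N z (PP s t z x)‖ := by
    intro z x
    have h1 : iterD s.Di f.symm N (f^[N] z) (iterD s.D f N z (PP s t z x)) = PP s t z x :=
      s.iter_back N z (t.S z x)
    calc ‖PP s t z x‖ = ‖iterD s.Di f.symm N (f^[N] z) (iterD s.D f N z (PP s t z x))‖ := by
          rw [h1]
      _ ≤ B * ‖iterD s.D f N z (PP s t z x)‖ :=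
          (iterD s.Di f.symm N _).le_of_opNorm_le (hB _) _
  have hinv : ∀ (z : M) (x y : W), ‖iterD s.D f N z (PP s t z x)‖ * ‖PP s t z y‖ ≤
      C₁ * k ^ N * ‖iterD s.D f N z (PP s t z y)‖ * ‖PP s t z x‖ := by
    intro z x y
    have h1 := H N z (PP s t z x) (PP s t z y) (F3RATXAux.PP_PP s t hs ht hc z x)
      (F3RATXAux.PP_PP s t hs ht hc z y)
    refine h1.trans ?_
    gcongr
  -- the block
  obtain ⟨r₁, hr₁, hblock⟩ := block s t hs ht hc N (ω := 1 / (4 * B)) (by positivity)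
  obtain ⟨L, r₂, hL1, hr₂, hlip⟩ := s.hD.exists_lip
  obtain ⟨L', r₃, hL'1, hr₃, hlip'⟩ := s.hDi.exists_lip
  obtain ⟨r, hr⟩ : ∃ r : ℝ, r = min r₁ (min (r₂ / 4) (r₃ / 4)) := ⟨_, rfl⟩
  have hr0 : 0 < r := by rw [hr]; positivity
  have hra : r ≤ r₁ := by rw [hr]; exact min_le_left _ _
  have hrb : r ≤ r₂ / 4 := by rw [hr]; exact (min_le_right _ _).trans (min_le_left _ _)
  have hrc : r ≤ r₃ / 4 := by rw [hr]; exact (min_le_right _ _).trans (min_le_right _ _)
  have hmono : ∀ {z p : M}, p ∈ Lf f g r z → p ∈ Lf f g r₁ z := fun h =>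
    ⟨Cf.Wl_mono hra h.1, h.2⟩
  have hstep : ∀ z : M, ∀ p ∈ Lf f g r z, ∀ q ∈ Lf f g r z, ∀ p' ∈ Lf f g r z,
      ∀ q' ∈ Lf f g r z, dist (f^[N] p) (f^[N] q) * dist p' q' ≤
        k' ^ N * dist (f^[N] p') (f^[N] q') * dist p q := by
    intro z p hp q hq p' hp' q' hq'
    obtain ⟨a1, a2⟩ := hblock z p (hmono hp) q (hmono hq)
    obtain ⟨b1, b2⟩ := hblock z p' (hmono hp') q' (hmono hq')
    have c1 := hinv z (E.e p - E.e q) (E.e p' - E.e q')
    have c2 := hlow z (E.e p' - E.e q')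
    set X := ‖iterD s.D f N z (PP s t z (E.e p - E.e q))‖ with hX
    set Y := ‖iterD s.D f N z (PP s t z (E.e p' - E.e q'))‖ with hY
    set x := ‖PP s t z (E.e p - E.e q)‖ with hx
    set y := ‖PP s t z (E.e p' - E.e q')‖ with hy
    set D := dist (f^[N] p) (f^[N] q) with hD
    set D' := dist (f^[N] p') (f^[N] q') with hD'
    have X0 : 0 ≤ X := norm_nonneg _
    have Y0 : 0 ≤ Y := norm_nonneg _
    have x0 : 0 ≤ x := norm_nonneg _
    have y0 : 0 ≤ y := norm_nonneg _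
    have D0 : 0 ≤ D := dist_nonneg
    have D'0 : 0 ≤ D' := dist_nonneg
    have p0 : 0 ≤ dist p q := dist_nonneg
    have p'0 : 0 ≤ dist p' q' := dist_nonneg
    have hω : 1 / (4 * B) ≤ 1 / 4 := by
      apply one_div_le_one_div_of_le <;> linarith
    have hωB : 1 / (4 * B) * B = 1 / 4 := by field_simp
    set ω : ℝ := 1 / (4 * B) with hωd
    have hω0 : 0 < ω := by positivity
    obtain ⟨-, a1u⟩ := abs_le.1 a1
    obtain ⟨a2l, a2u⟩ := abs_le.1 a2
    obtain ⟨b1l, -⟩ := abs_le.1 b1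
    obtain ⟨-, b2u⟩ := abs_le.1 b2
    have m1 : ω * dist p q ≤ 1 / 4 * dist p q := mul_le_mul_of_nonneg_right hω p0
    have m2 : ω * dist p' q' ≤ 1 / 4 * dist p' q' := mul_le_mul_of_nonneg_right hω p'0
    -- |p', q'| ≤ (4/3) y, x ≤ (5/4) |p, q|
    have n1 : dist p' q' ≤ 4 / 3 * y := by linarith
    have n2 : x ≤ 5 / 4 * dist p q := by linarith
    have n3 : ω * dist p' q' ≤ 1 / 3 * Y := by
      calc ω * dist p' q' ≤ ω * (4 / 3 * y) := by gcongr
        _ ≤ ω * (4 / 3 * (B * Y)) := by gcongr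
        _ = 4 / 3 * (ω * B) * Y := by ring
        _ = 1 / 3 * Y := by rw [hωB]; ring
    have n4 : Y ≤ 3 / 2 * D' := by linarith
    have n5 : X * dist p' q' ≤ 5 / 3 * (C₁ * k ^ N) * Y * dist p q := by
      have t1 : 0 ≤ C₁ * k ^ N * Y := by positivity
      calc X * dist p' q' ≤ X * (4 / 3 * y) := by gcongr
        _ = 4 / 3 * (X * y) := by ring
        _ ≤ 4 / 3 * (C₁ * k ^ N * Y * x) := by gcongr
        _ ≤ 4 / 3 * (C₁ * k ^ N * Y * (5 / 4 * dist p q)) := by gcongr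
        _ = 5 / 3 * (C₁ * k ^ N) * Y * dist p q := by ring
    have n6 : ω * dist p q * dist p' q' ≤ 1 / 3 * Y * dist p q := by
      calc ω * dist p q * dist p' q' = ω * dist p' q' * dist p q := by ring
        _ ≤ 1 / 3 * Y * dist p q := by gcongr
    have t2 : 0 ≤ C₁ * k ^ N := by positivity
    calc D * dist p' q' ≤ (X + ω * dist p q) * dist p' q' := by gcongr; linarith
      _ = X * dist p' q' + ω * dist p q * dist p' q' := by ring
      _ ≤ 5 / 3 * (C₁ * k ^ N) * Y * dist p q + 1 / 3 * Y * dist p q := by linarith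
      _ = (5 / 3 * (C₁ * k ^ N) + 1 / 3) * Y * dist p q := by ring
      _ ≤ (5 / 3 * (C₁ * k ^ N) + 1 / 3) * (3 / 2 * D') * dist p q := by gcongr
      _ = (5 / 2 * (C₁ * k ^ N) + 1 / 2) * D' * dist p q := by ring
      _ ≤ (4 * (C₁ * k ^ N) + 2) * D' * dist p q := by gcongr <;> linarith
      _ ≤ k' ^ N * D' * dist p q := by gcongr
  have hblocks : ∀ (j : ℕ) (z : M), ∀ p ∈ Lf f g r z, ∀ q ∈ Lf f g r z,
      ∀ p' ∈ Lf f g r z, ∀ q' ∈ Lf f g r z,
      dist (f^[N * j] p) (f^[N * j] q) * dist p' q' ≤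
        k' ^ (N * j) * dist (f^[N * j] p') (f^[N * j] q') * dist p q := by
    intro j z p hp q hq p' hp' q' hq'
    induction j with
    | zero =>
      simp only [Nat.mul_zero, iterate_zero, id_eq, pow_zero, one_mul]
      rw [mul_comm]
    | succ j ih =>
      have h1 := hstep (f^[N * j] z) _ (lf_iter hc hp _) _ (lf_iter hc hq _) _ (lf_iter hc hp' _) _
        (lf_iter hc hq' _)
      rw [← iterate_add_apply, ← iterate_add_apply, ← iterate_add_apply, ← iterate_add_apply] at h1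
      have h2 : N + N * j = N * (j + 1) := by ring
      rw [h2] at h1
      set A := dist (f^[N * (j + 1)] p) (f^[N * (j + 1)] q)
      set A' := dist (f^[N * (j + 1)] p') (f^[N * (j + 1)] q')
      have A0 : 0 ≤ A := dist_nonneg
      have A'0 : 0 ≤ A' := dist_nonneg
      rcases (dist_nonneg (x := f^[N * j] p') (y := f^[N * j] q')).eq_or_lt with h3 | h3
      · have h4 : f^[N * j] p' = f^[N * j] q' := dist_eq_zero.1 h3.symm
        have h5 : p' = q' := (f.injective.iterate (N * j)) h4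
        rw [h5, dist_self, mul_zero]
        positivity
      · refine le_of_mul_le_mul_right ?_ h3
        have e1 : k' ^ (N * (j + 1)) = k' ^ N * k' ^ (N * j) := by rw [← pow_add, h2]
        calc A * dist p' q' * dist (f^[N * j] p') (f^[N * j] q')
            = (A * dist (f^[N * j] p') (f^[N * j] q')) * dist p' q' := by ring
          _ ≤ (k' ^ N * A' * dist (f^[N * j] p) (f^[N * j] q)) * dist p' q' := by gcongr
          _ = k' ^ N * A' * (dist (f^[N * j] p) (f^[N * j] q) * dist p' q') := by ring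
          _ ≤ k' ^ N * A' * (k' ^ (N * j) * dist (f^[N * j] p') (f^[N * j] q') *
              dist p q) := by gcongr
          _ = k' ^ (N * (j + 1)) * A' * dist p q *
              dist (f^[N * j] p') (f^[N * j] q') := by rw [e1]; ring
  -- Lipschitz bounds
  have hup : ∀ (i : ℕ) (a b : M), a ∈ Wl f (r + r) b →
      dist (f^[i] a) (f^[i] b) ≤ L ^ i * dist a b := by
    intro i a b hab
    induction i with
    | zero => simp
    | succ i ih =>
      have h2 := hlip (f^[i] a) (f^[i] b) ((hab i).trans_lt (by linarith))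
      rw [iterate_succ_apply', iterate_succ_apply']
      calc _ ≤ L * dist (f^[i] a) (f^[i] b) := h2
        _ ≤ L * (L ^ i * dist a b) := by gcongr
        _ = L ^ (i + 1) * dist a b := by ring
  have hlo : ∀ (i : ℕ) (a b : M), a ∈ Wl f (r + r) b →
      dist a b ≤ L' ^ i * dist (f^[i] a) (f^[i] b) := by
    intro i a b hab
    induction i with
    | zero => simp
    | succ i ih =>
      have h2 := hlip' (f^[i + 1] a) (f^[i + 1] b) ((hab (i + 1)).trans_lt (by linarith))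
      rw [iterate_succ_apply' f i a, iterate_succ_apply' f i b, f.symm_apply_apply,
        f.symm_apply_apply] at h2
      rw [iterate_succ_apply' f i a, iterate_succ_apply' f i b]
      calc dist a b ≤ L' ^ i * dist (f^[i] a) (f^[i] b) := ih
        _ ≤ L' ^ i * (L' * dist (f (f^[i] a)) (f (f^[i] b))) := by gcongr
        _ = L' ^ (i + 1) * dist (f (f^[i] a)) (f (f^[i] b)) := by ring
  refine ⟨r, L ^ N * L' ^ N, hr0, fun n z p hp q hq p' hp' q' hq' => ?_⟩
  set j := n / N with hj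
  set i := n % N with hi
  have hij : N * j + i = n := Nat.div_add_mod n N
  have hiN : i < N := Nat.mod_lt _ hNpos
  have h1 := hblocks j z p hp q hq p' hp' q' hq'
  have h2 := hup i _ _ (Cf.Wl_iter (Cf.Wl_trans (Cf.Wl_comm hq.1) hp.1) (N * j))
  have h3 := hlo i _ _ (Cf.Wl_iter (Cf.Wl_trans (Cf.Wl_comm hq'.1) hp'.1) (N * j))
  rw [← iterate_add_apply, ← iterate_add_apply, add_comm i, hij] at h2 h3
  have h5 : L ^ i ≤ L ^ N := pow_le_pow_right₀ hL1 hiN.le
  have h6 : L' ^ i ≤ L' ^ N := pow_le_pow_right₀ hL'1 hiN.le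
  have h7 : k' ^ (N * j) ≤ k' ^ n := pow_le_pow_right₀ hk'1 (by omega)
  calc dist (f^[n] p) (f^[n] q) * dist p' q'
      ≤ (L ^ i * dist (f^[N * j] p) (f^[N * j] q)) * dist p' q' := by gcongr
    _ = L ^ i * (dist (f^[N * j] p) (f^[N * j] q) * dist p' q') := by ring
    _ ≤ L ^ i * (k' ^ (N * j) * dist (f^[N * j] p') (f^[N * j] q') * dist p q) := by
        gcongr
    _ ≤ L ^ i * (k' ^ (N * j) * (L' ^ i * dist (f^[n] p') (f^[n] q')) * dist p q) := by
        gcongr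
    _ ≤ L ^ N * (k' ^ n * (L' ^ N * dist (f^[n] p') (f^[n] q')) * dist p q) := by
        gcongr
    _ = L ^ N * L' ^ N * k' ^ n * dist (f^[n] p') (f^[n] q') * dist p q := by ring

end F4QCXAux

theorem specQcx : SpecQcx.{u, v} := by
  intro M W _ _ _ _ _ E f g s t C₀ κ κ' hs ht hc hκ hκκ H
  have hc' : ∀ x, f (g.symm x) = g.symm (f x) := fun x => by
    rw [eq_comm, g.symm_apply_eq, ← hc, g.apply_symm_apply]
  have hexp : ∀ (a : ℝ) (n : ℕ), Real.exp (a * n) = Real.exp a ^ n := fun a n => by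
    rw [← Real.exp_nat_mul, mul_comm]
  obtain ⟨r, C, hr, h⟩ := F4QCXAux.main s t.swap hs ht.swap hc' C₀ (Real.exp κ) (Real.exp κ')
    (Real.one_le_exp hκ) (Real.exp_lt_exp.2 hκκ) (fun n x v w hv hw => by
      rw [← hexp]
      exact H n x v w hv hw)
  refine ⟨r, C, hr, fun n z p hp q hq p' hp' q' hq' => ?_⟩
  rw [hexp]
  exact h n z p hp q hq p' hp' q' hq'

end Pool.Agent.Lib.MP610fe3.HR
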