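import Pool.Agent.Lib.MP_610fe3_an.HR.F4SSpec
import Pool.Agent.Lib.MP_610fe3_an.HR.F3RATX

/-!
# Module RATY: the rates of an element near the wall (hive F4)
-/

set_option autoImplicit false

open Set Filter Function
open scoped Topology

namespace Pool.Agent.Lib.MP610fe3.HR

open Cf CH H6 F1RTAux

universe u v w

open F3RATXAux

/-- **RATY**: the rates of an element near the wall. -/
theorem specRaty (h1 : SpecRtcp.{u, v, w}) (h2 : SpecCrt.{u, v}) (h3 : SpecExpx.{u, v}) :
    SpecRaty.{u, v, w} := by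
  intro M W _ _ _ _ _ E k J _ A χ F hAct n n' i j hwal s b η c₀ hRt hη hηs hsb
  obtain ⟨C₁, l, hl, hl1, hR⟩ := h1 M W E k J A χ F hAct n n' hwal.reg hwal.reg'
  have hlt := hwal.lt
  have hs0 : 0 < s := hη.trans hηs
  obtain ⟨q₀, hq₀⟩ : ∃ q : ℕ, l ^ q < Real.exp (-(max c₀ 0)) :=
    ((tendsto_pow_atTop_nhds_zero_of_lt_one hl.le hl1).eventually
      (gt_mem_nhds (Real.exp_pos _))).exists
  refine ⟨q₀, fun q hq p hp1 hW' hsign hneg => ?_⟩
  obtain ⟨n'', hn''⟩ : ∃ n'', n'' = (p : ℤ) • n + (q : ℤ) • n' := ⟨_, rfl⟩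
  have hR' := hR p q
  rw [← hn''] at hW' hsign hneg hR' ⊢
  obtain ⟨κ, hκ⟩ : ∃ κ, κ = -ev (χ i) n'' := ⟨_, rfl⟩
  have hκ0 : 0 < κ := by
    have := hW'.lt
    rw [hκ]; linarith
  have hev : ev (χ i) n'' = -κ := by rw [hκ]; ring
  rw [← hκ]
  have hcomm : ∀ a b x, A a (A b x) = A b (A a x) := act_comm hAct.add
  obtain ⟨S, hS, hSS, hSU⟩ := hAct.split n'' hW'.reg
  obtain ⟨t, ht, htS, htU⟩ := hAct.split n' hwal.reg'
  have hc : ∀ x, A n'' (A n' x) = A n' (A n'' x) := hcomm _ _
  have hc' : ∀ x, A n'' ((A n').symm x) = (A n').symm (A n'' x) := by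
    intro x
    rw [act_symm hAct.add, act_symm hAct.add]
    exact hcomm _ _ x
  have hrng := (specRng M W E k J χ F (A n'') (A n') S t n'' n' hS ht hc hW'.reg hwal.reg'
    hSS hSU htS htU i j hW').1
  -- the rate of the intersection of the stable bundles
  have hθ0 : 0 < l ^ (p + q) := by positivity
  have hθ : l ^ (p + q) < Real.exp (-(max c₀ 0)) := by
    have e1 : l ^ (p + q) ≤ l ^ q₀ := pow_le_pow_of_le_one hl.le hl1.le (by omega)
    linarith
  have hcon : ∀ (m : ℕ) x w, PP S t x w = w →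
      ‖iterD S.D (A n'') m x w‖ ≤ C₁ * (l ^ (p + q)) ^ m * ‖w‖ :=
    fun m x w hw => hR' hW'.reg hsign S t hSS htS hS ht m x w hw
  obtain ⟨C₂, hC₂⟩ := hRt n'' hW'.reg hW'.lt S hS (η / 2 * κ) (by positivity)
  have hcoa : ∀ x w, PP S t.swap x w = w → w ∈ coarse χ F i x := by
    intro x w hw
    rw [← hrng x]
    exact ⟨w, hw⟩
  refine ⟨?_, ?_, ?_⟩
  · -- Cdc on the leaves of the stable foliations
    obtain ⟨δ, C, hδ, hC, h⟩ := h2 M W E (A n'') (A n') S t C₁ (l ^ (p + q))
      (Real.exp (-(max c₀ 0))) hS ht hc hθ0 hθ (by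
        rw [Real.exp_le_one_iff]
        linarith [le_max_right c₀ 0]) hcon
    refine ⟨δ, C, hδ, by linarith, fun x z hz hz' m => (h x z hz hz' m).trans ?_⟩
    have e : Real.exp (-(max c₀ 0)) ^ m ≤ Real.exp (-(c₀ * m)) := by
      rw [← Real.exp_nat_mul]
      apply Real.exp_le_exp.2
      have := mul_le_mul_of_nonneg_right (le_max_left c₀ 0) (Nat.cast_nonneg (α := ℝ) m)
      linarith
    exact mul_le_mul_of_nonneg_right (mul_le_mul_of_nonneg_left e (by linarith)) dist_nonneg
  · -- Cdc on the leaves X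
    have hθ2 : Real.exp (-((s - η / 2) * κ)) < Real.exp (-((s - η) * κ)) := by
      apply Real.exp_lt_exp.2
      have : (s - η) * κ < (s - η / 2) * κ := mul_lt_mul_of_pos_right (by linarith) hκ0
      linarith
    obtain ⟨δ, C, hδ, hC, h⟩ := h2 M W E (A n'') (A n').symm S t.swap C₂
      (Real.exp (-((s - η / 2) * κ))) (Real.exp (-((s - η) * κ))) hS ht.swap hc' (Real.exp_pos _)
      hθ2 (by
        rw [Real.exp_le_one_iff]
        have := mul_pos (show (0 : ℝ) < s - η by linarith) hκ0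
        linarith) (by
        intro m x w hw
        have h6 := (hC₂ m x w (hcoa x w hw)).1
        have hE : Real.exp ((s * ev (χ i) n'' + η / 2 * κ) * m) =
            Real.exp (-((s - η / 2) * κ)) ^ m := by
          rw [hev, ← Real.exp_nat_mul]
          congr 1
          ring
        rw [hE] at h6
        exact h6)
    refine ⟨δ, C, hδ, by linarith, fun x z hz hz' m => ?_⟩
    have e : Real.exp (-((s - η) * κ * m)) = Real.exp (-((s - η) * κ)) ^ m := by
      rw [← Real.exp_nat_mul]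
      congr 1
      ring
    rw [e]
    exact h x z hz hz' m
  · -- Xgr
    refine h3 M W E (A n'') (A n') S t C₂ (b * κ + η / 2 * κ) ((b + η) * κ) hS ht hc ?_ ?_ ?_
    · have := mul_nonneg (hs0.le.trans hsb) hκ0.le
      positivity
    · have : 0 < η * κ := mul_pos hη hκ0
      nlinarith
    · intro m x w hw
      have h5 := (hC₂ m x w (hcoa x w hw)).2
      have e : -(b * ev (χ i) n'') + η / 2 * κ = b * κ + η / 2 * κ := by rw [hev]; ring
      rw [e] at h5
      exact h5

end Pool.Agent.Lib.MP610fe3.HR
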