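import Pool.Agent.Lib.MP_610fe3_an.HR.F4Spec
import Pool.Agent.Lib.MP_610fe3_an.HR.F4BREL

/-!
# Module REL: the relative argument on the space itself
-/

set_option autoImplicit false

open Set Filter Function
open scoped Topology

namespace Pool.Agent.Lib.MP610fe3.HR

open Cf CH
open F4BRELAux F1GAEXAux MINAux

universe u

/-- **Module REL.** -/
theorem specRel (hDbl : SpecDbl.{u}) (hProd : SpecProd.{u}) (hBas : SpecBas.{u})
    (hMin : SpecMin.{u}) : SpecRel.{u} := by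
  intro M _ _ f g ε C l H A P hH hrel hA hN
  -- the union of the basins meets `A`
  have key : ∃ x ∈ A, x ∈ PB f := by
    by_contra hcon
    push Not at hcon
    have hH' : ∀ c ∈ H, ∀ x, c.symm (f x) = f (c.symm x) := fun c hc x => by
      apply c.injective
      rw [c.apply_symm_apply, hH c hc, c.apply_symm_apply]
    have huniv := hN (PB f)ᶜ (isOpen_PB hBas P).isClosed_compl (fun x hx => hcon x hx)
      (fun x hx y hxy h => hx (PB_satf h (fa_symm hxy)))
      (fun x hx y hxy h => hx (PB_satg hDbl hProd P hrel h (fa_symm hxy)))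
      (fun c hc => by
        ext y
        constructor
        · rintro ⟨x, hx, rfl⟩ h
          have := PB_map (hH' c hc) h
          rw [Homeomorph.symm_apply_apply] at this
          exact hx this
        · intro hy
          refine ⟨c.symm y, fun h => hy ?_, c.apply_symm_apply y⟩
          have := PB_map (hH c hc) h
          rwa [Homeomorph.apply_symm_apply] at this)
    obtain ⟨a₀, ha₀⟩ := hA.1.2.1
    have hu : (univ : Set M) ∈ Sset f.symm :=
      ⟨isClosed_univ, ⟨a₀, mem_univ _⟩, fun _ _ _ _ => mem_univ _⟩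
    obtain ⟨L, -, hL⟩ := exists_minimal hu
    obtain ⟨a, ha⟩ := hL.1.2.1
    have hb : a ∈ (PB f)ᶜ := by rw [huniv]; exact mem_univ a
    exact hb ⟨L, hL, a, ha, fa_refl f a⟩
  obtain ⟨x₀, hx₀A, L, hL, p₀, hp₀L, hx₀p⟩ := key
  have hp₀A : p₀ ∈ A := hA.1.2.2 x₀ hx₀A p₀ hx₀p
  obtain ⟨k, hk, hinv⟩ := inv_of_minimal P hL
  obtain ⟨hB1, hB2⟩ := hBas M f ε C l P.one L k hL.1.1 hL.1.2.2 hk hinv
  set B : Set M := {x | ∃ a ∈ L, FwdAsymp f x a} with hBdef
  -- `A` is in the basin of `L`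
  have hAB : ∀ x ∈ A, x ∈ B := by
    by_contra hcon
    push Not at hcon
    obtain ⟨x, hx, hxB⟩ := hcon
    have hmem : A ∩ Bᶜ ∈ Sset f := by
      refine ⟨hA.1.1.inter hB1.isClosed_compl, ⟨x, hx, hxB⟩, sat_diff hA.1.2.2 ?_⟩
      rintro x ⟨a, ha, hxa⟩ y hxy
      exact ⟨a, ha, fa_trans (fa_symm hxy) hxa⟩
    exact (hA.2 hmem inter_subset_left hp₀A).2 ⟨p₀, hp₀L, fa_refl f p₀⟩
  -- `A ⊆ L`
  have hA' : Minimal (· ∈ Sset f.symm.symm) A := by rwa [Homeomorph.symm_symm]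
  have hAL : ∀ x ∈ A, x ∈ L := by
    intro x hx
    rw [← hL.1.1.closure_eq, Metric.mem_closure_iff]
    intro r hr
    obtain ⟨p, hpA, hpp, hpx⟩ := (hMin M f.symm ε C l P.one.symm A hA').1 x hx r hr
    refine ⟨p, hB2 ⟨subset_closure (periodic_symm hpp), hAB p hpA⟩, ?_⟩
    rw [dist_comm]
    exact hpx
  -- `L ⊆ A`
  have hLA : ∀ x ∈ L, x ∈ A := by
    obtain ⟨j, hj, hjA⟩ := inv_of_minimal P.symm_left hA'
    obtain ⟨hb1, hb2⟩ := hBas M f.symm ε C l P.one.symm A j hA.1.1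
      (by rw [Homeomorph.symm_symm]; exact hA.1.2.2) hj hjA
    set B' : Set M := {x | ∃ a ∈ A, FwdAsymp f.symm x a} with hB'
    have hLB : ∀ x ∈ L, x ∈ B' := by
      by_contra hcon
      push Not at hcon
      obtain ⟨x, hx, hxB⟩ := hcon
      have hmem : L ∩ B'ᶜ ∈ Sset f.symm := by
        refine ⟨hL.1.1.inter hb1.isClosed_compl, ⟨x, hx, hxB⟩, sat_diff hL.1.2.2 ?_⟩
        rintro x ⟨a, ha, hxa⟩ y hxy
        exact ⟨a, ha, fa_trans (fa_symm hxy) hxa⟩
      exact (hL.2 hmem inter_subset_left hp₀L).2 ⟨p₀, hp₀A, fa_refl f.symm p₀⟩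
    intro x hx
    rw [← hA.1.1.closure_eq, Metric.mem_closure_iff]
    intro r hr
    obtain ⟨p, hpL, hpp, hpx⟩ := (hMin M f ε C l P.one L hL).1 x hx r hr
    refine ⟨p, hb2 ⟨subset_closure (periodic_symm' hpp), hLB p hpL⟩, ?_⟩
    rwa [dist_comm]
  -- conclusion
  intro a ha y hay
  have hcomm : ∀ x, g (f x) = f (g x) := fun x => (P.comm x).symm
  have hcomm' : ∀ x, g (f.symm x) = f.symm (g x) := fun x => (P.symm_left.comm x).symm
  obtain ⟨z, hz1, hz2⟩ := (hProd M g f ε C l P.swap).1 a y hay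
  have h1 : FwdAsymp f a z := (hDbl M g f hcomm).2.2.2.2.2.1 a z hz1
  have h2 : FwdAsymp f.symm z y := (hDbl M g f.symm hcomm').2.2.2.2.2.1 z y hz2
  have hzA : z ∈ A := hA.1.2.2 a ha z h1
  exact hLA _ (hL.1.2.2 z (hAL z hzA) y h2)

end Pool.Agent.Lib.MP610fe3.HR
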