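import Pool.Agent.Lib.MP_610fe3_an.HR.F4Spec

/-!
# Module RSW: the data of the wall lemma restrict to closed saturated invariant sets
-/

set_option autoImplicit false

open Set Filter Function Metric
open scoped Topology

namespace Pool.Agent.Lib.MP610fe3.HR

open Cf CH

universe u

namespace F4RSWAux

variable {M : Type u} [MetricSpace M] {f g h : M ≃ₜ M} {N : Set M}

theorem rsH_symm_eq (hf : ∀ x, x ∈ N ↔ f x ∈ N) (hf' : ∀ x, x ∈ N ↔ f.symm x ∈ N) :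
    rsH f.symm N hf' = (rsH f N hf).symm := by
  rw [rsH_symm]

theorem iff_symm (hf : ∀ x, x ∈ N ↔ f x ∈ N) : ∀ x, x ∈ N ↔ f.symm x ∈ N := inv_symm hf

/-- A pair restricts to a closed invariant set saturated by the unstable sets. -/
theorem pair_rsH' {ε C l : ℝ} (hp : Pair f g ε C l) (hN : IsClosed N)
    (hf : ∀ x, x ∈ N ↔ f x ∈ N) (hg : ∀ x, x ∈ N ↔ g x ∈ N) (hsf : Sat f.symm N)
    (hsg : Sat g.symm N) : Pair (rsH f N hf) (rsH g N hg) ε C l := by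
  have h1 := pair_rsH hp.symm_both hN (inv_symm hf) (inv_symm hg) hsf hsg
  rw [← rsH_symm f N hf, ← rsH_symm g N hg] at h1
  have h2 := h1.symm_both
  rwa [Homeomorph.symm_symm, Homeomorph.symm_symm] at h2

theorem lip_rsH (hf : ∀ x, x ∈ N ↔ f x ∈ N) {K : ℝ}
    (h : ∀ x y, dist (f x) (f y) ≤ K * dist x y ∧ dist (f.symm x) (f.symm y) ≤ K * dist x y) :
    ∀ x y, dist (rsH f N hf x) (rsH f N hf y) ≤ K * dist x y ∧
      dist ((rsH f N hf).symm x) ((rsH f N hf).symm y) ≤ K * dist x y := fun x y =>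
  h x y

theorem cdc_rsH (hf : ∀ x, x ∈ N ↔ f x ∈ N) (hg : ∀ x, x ∈ N ↔ g x ∈ N) {c : ℝ}
    (h : Cdc f g c) : Cdc (rsH f N hf) (rsH g N hg) c := by
  obtain ⟨δ, C, hδ, hC, H⟩ := h
  refine ⟨δ, C, hδ, hC, fun x z h1 h2 m => ?_⟩
  rw [Subtype.dist_eq, Subtype.dist_eq, rsH_iter, rsH_iter]
  exact H x z ((mem_wl_rsH hf).1 h1) ((mem_wl_rsH hg).1 h2) m

theorem xgr_rsH (hf : ∀ x, x ∈ N ↔ f x ∈ N) (hg : ∀ x, x ∈ N ↔ g x ∈ N) {b : ℝ}
    (h : Xgr f g b) : Xgr (rsH f N hf) (rsH g N hg) b := by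
  intro ε' hε'
  obtain ⟨e, C, he, hC, H⟩ := h ε' hε'
  refine ⟨e, C, he, hC, fun m x z hz hm => ?_⟩
  rw [rsH_symm g N hg] at hz
  obtain ⟨h1, h2⟩ := H m x z ((mem_lf_rsH hf (inv_symm hg)).1 hz) hm
  refine ⟨?_, ?_⟩
  · rw [mem_wl_rsH hf, rsH_symm_iter, rsH_symm_iter]
    exact h1
  · rw [Subtype.dist_eq, Subtype.dist_eq, rsH_symm_iter, rsH_symm_iter]
    exact h2

theorem qcl_rsH (hf : ∀ x, x ∈ N ↔ f x ∈ N) (hg : ∀ x, x ∈ N ↔ g x ∈ N) {r C κ : ℝ}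
    (h : Qcl f g r C κ) : Qcl (rsH f N hf) (rsH g N hg) r C κ := by
  intro n z p hp q hq p' hp' q' hq'
  rw [rsH_symm g N hg] at hp hq hp' hq'
  rw [Subtype.dist_eq, Subtype.dist_eq, Subtype.dist_eq, Subtype.dist_eq, rsH_iter, rsH_iter,
    rsH_iter, rsH_iter]
  exact h n z p ((mem_lf_rsH hf (inv_symm hg)).1 hp) q ((mem_lf_rsH hf (inv_symm hg)).1 hq) p'
    ((mem_lf_rsH hf (inv_symm hg)).1 hp') q' ((mem_lf_rsH hf (inv_symm hg)).1 hq')

theorem cup_rsH' (hf : ∀ x, x ∈ N ↔ f x ∈ N) (hg : ∀ x, x ∈ N ↔ g x ∈ N)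
    (h : CUp f.symm g.symm) : CUp (rsH f N hf).symm (rsH g N hg).symm := by
  rw [rsH_symm f N hf, rsH_symm g N hg]
  exact cUp_rsH (inv_symm hf) (inv_symm hg) h

variable [CompactSpace M]

/-- The leaves `X = Dbl f g.symm` stay in `N`. -/
theorem dblX_mem (hDbl : SpecDbl.{u}) (hc : ∀ x, f (g x) = g (f x)) (hsg : Sat g.symm N) {x y : M}
    (hx : x ∈ N) (h : Dbl f g.symm x y) : y ∈ N := by
  have hc' : ∀ x, f (g.symm x) = g.symm (f x) := fun x => by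
    apply g.injective
    rw [g.apply_symm_apply, ← hc, g.apply_symm_apply]
  exact hsg x hx y ((hDbl M f g.symm hc').2.2.2.2.2.1 x y h)

/-- The leaves `Y = Dbl f.symm g` stay in `N`. -/
theorem dblY_mem (hDbl : SpecDbl.{u}) (hc : ∀ x, f (g x) = g (f x)) (hsf : Sat f.symm N) {x y : M}
    (hx : x ∈ N) (h : Dbl f.symm g x y) : y ∈ N := by
  have hc' : ∀ x, f.symm (g x) = g (f.symm x) := fun x => by
    apply f.injective
    rw [f.apply_symm_apply, hc, f.apply_symm_apply]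
  exact hsf x hx y ((hDbl M f.symm g hc').2.2.2.2.1 x y h)

theorem chn_rsH (hDbl : SpecDbl.{u}) (hc : ∀ x, f (g x) = g (f x)) (hsf : Sat f.symm N)
    (hf : ∀ x, x ∈ N ↔ f x ∈ N) (hg : ∀ x, x ∈ N ↔ g x ∈ N) {σ : ℝ} (h : Chn f g σ) :
    Chn (rsH f N hf) (rsH g N hg) σ := by
  obtain ⟨e, he, H⟩ := h
  refine ⟨e, he, fun r hr => ?_⟩
  obtain ⟨Λ, HΛ⟩ := H r hr
  refine ⟨Λ, fun T x z hz => ?_⟩
  rw [rsH_symm f N hf] at hz
  obtain ⟨K, q, hK, hq0, hqK, hq⟩ := HΛ T x z ((mem_lf_rsH (inv_symm hf) hg).1 hz)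
  have hmem : ∀ i ≤ K, q i ∈ N := by
    intro i
    induction i with
    | zero =>
      intro _
      rw [hq0]
      exact mem_iter hf T x.2
    | succ i ih =>
      intro hi
      exact dblY_mem hDbl hc hsf (ih (Nat.le_of_succ_le hi)) (hq i (Nat.lt_of_succ_le hi)).2
  refine ⟨K, fun i => ⟨q (min i K), hmem _ (min_le_right _ _)⟩, hK, Subtype.ext ?_,
    Subtype.ext ?_, fun i hi => ?_⟩
  · show q (min 0 K) = _
    rw [rsH_iter, Nat.zero_min, hq0]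
  · show q (min K K) = _
    rw [rsH_iter, min_self, hqK]
  · rw [rsH_symm f N hf, mem_lf_rsH (inv_symm hf) hg]
    show q (min (i + 1) K) ∈ Lf f.symm g r (q (min i K))
    rw [min_eq_left (Nat.succ_le_of_lt hi), min_eq_left hi.le]
    exact hq i hi

end F4RSWAux

open F4RSWAux

/-- **Module RSW.** -/
theorem specRsw (hDbl : SpecDbl.{u}) : SpecRsw.{u} := by
  intro M _ _ f g H u φ κ a b σ W N hN hsf hsg hNH
  have hf := hNH f W.memf
  have hg := hNH g W.memg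
  obtain ⟨ε₀, C₀, l₀, P⟩ := W.pair
  obtain ⟨C₁, ρ, e₁, hφ⟩ := W.chart
  obtain ⟨ρ', hρ', hρρ, hmem⟩ := hφ.mem 1 one_pos
  have hφN : ∀ x ∈ N, ∀ s ∈ closedBall (0 : EuclideanSpace ℝ (Fin u)) ρ', φ x s ∈ N :=
    fun x hx s hs => dblX_mem hDbl P.comm hsg hx (hmem x s hs).2
  classical
  set φ' : N → EuclideanSpace ℝ (Fin u) → N := fun x s =>
    if hs : φ x s ∈ N then ⟨φ x s, hs⟩ else x with hφ'
  have hφe : ∀ (x : N), ∀ s ∈ closedBall (0 : EuclideanSpace ℝ (Fin u)) ρ',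
      ((φ' x s : N) : M) = φ x s := fun x s hs => by
    simp only [hφ', dif_pos (hφN x x.2 s hs)]
  have hCpos : 0 < C₁ := zero_lt_one.trans_le hφ.one_le
  refine ⟨φ', ?_⟩
  constructor
  · exact W.u_pos
  · exact ⟨ε₀, C₀, l₀, pair_rsH' P hN hf hg hsf hsg⟩
  · exact cUp_rsH hf hg W.cup
  · exact cup_rsH' hf hg W.cup'
  · obtain ⟨K, hK⟩ := W.lip
    exact ⟨K, lip_rsH hf hK⟩
  · refine ⟨C₁, ρ', min e₁ (ρ' / C₁), ?_⟩
    constructor
    · exact hφ.one_le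
    · exact hρ'
    · exact lt_min hφ.e_pos (by positivity)
    · intro x
      apply Subtype.ext
      rw [hφe x 0 (mem_closedBall_self hρ'.le)]
      exact hφ.zero x
    · intro x s hs t ht
      rw [Subtype.dist_eq, hφe x s hs, hφe x t ht]
      exact hφ.upper x s (closedBall_subset_closedBall hρρ hs) t
        (closedBall_subset_closedBall hρρ ht)
    · intro x s hs t ht
      rw [Subtype.dist_eq, hφe x s hs, hφe x t ht]
      exact hφ.lower x s (closedBall_subset_closedBall hρρ hs) t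
        (closedBall_subset_closedBall hρρ ht)
    · intro ε' hε'
      obtain ⟨ρ'', h1, h2, h3⟩ := hφ.mem ε' hε'
      refine ⟨min ρ'' ρ', lt_min h1 hρ', min_le_right _ _, fun x s hs => ?_⟩
      rw [rsH_symm g N hg, mem_lf_rsH hf (inv_symm hg),
        hφe x s (closedBall_subset_closedBall (min_le_right _ _) hs)]
      exact h3 x s (closedBall_subset_closedBall (min_le_left _ _) hs)
    · intro x z hz
      rw [rsH_symm g N hg, mem_lf_rsH hf (inv_symm hg)] at hz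
      have hz1 : (z : M) ∈ Lf f g.symm e₁ (x : M) :=
        ⟨fun k => (hz.1 k).trans (min_le_left _ _), hz.2⟩
      obtain ⟨s, hs, hsz⟩ := hφ.onto x z hz1
      have h0 : (0 : EuclideanSpace ℝ (Fin u)) ∈ closedBall (0 : EuclideanSpace ℝ (Fin u)) ρ :=
        mem_closedBall_self hφ.ρ_pos.le
      have h1 := hφ.lower x s hs 0 h0
      rw [hsz, hφ.zero] at h1
      have h2 : dist (z : M) x ≤ ρ' / C₁ := by
        have := (hz.1 0).trans (min_le_right _ _)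
        simpa using this
      have hs' : s ∈ closedBall (0 : EuclideanSpace ℝ (Fin u)) ρ' := by
        rw [mem_closedBall]
        refine h1.trans ((mul_le_mul_of_nonneg_left h2 hCpos.le).trans ?_)
        rw [mul_div_cancel₀ _ hCpos.ne']
      exact ⟨s, hs', Subtype.ext (by rw [hφe x s hs', hsz])⟩
  · exact W.κ_nonneg
  · exact W.κ_lt
  · exact W.b_pos
  · exact W.b_le
  · exact W.num
  · rw [rsH_symm g N hg]
    exact cdc_rsH hf (inv_symm hg) W.xdc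
  · rw [rsH_symm f N hf]
    exact cdc_rsH (inv_symm hf) hg W.ydc
  · intro κ' hκ'
    obtain ⟨r, C, hr, hq⟩ := W.qc κ' hκ'
    exact ⟨r, C, hr, qcl_rsH hf hg hq⟩
  · exact chn_rsH hDbl P.comm hsf hf hg W.chn
  · rintro h' ⟨h, hh, rfl⟩ x
    exact Subtype.ext (W.comm h hh x)
  · exact ⟨f, W.memf, rfl⟩
  · exact ⟨g, W.memg, rfl⟩
  · intro ϑ hϑ
    obtain ⟨h, hh, c, b', hc, hbc⟩ := W.hh ϑ hϑ
    refine ⟨rsH h N (hNH h hh), ⟨h, hh, rfl⟩, c, b', ?_, hbc⟩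
    have hhN := hNH h hh
    have hsh : Sat h.symm N := fun x hx y hxy => hsf x hx y (hc.asu x y hxy)
    obtain ⟨ε, C, l, Ph⟩ := hc.pair
    constructor
    · exact fun x => Subtype.ext (hc.comm x)
    · exact ⟨ε, C, l, pair_rsH' Ph hN hhN hg hsh hsg⟩
    · intro ε' hε'
      obtain ⟨δ, hδ, hl⟩ := hc.loc ε' hε'
      exact ⟨δ, hδ, fun x y hy => (mem_wl_rsH hhN).2 (hl x y ((mem_wl_rsH hf).1 hy))⟩
    · exact fun x y hxy => (fwdAsymp_rsH_symm hf).2 (hc.asu x y ((fwdAsymp_rsH_symm hhN).1 hxy))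
    · exact hc.c_pos
    · exact hc.b_pos
    · exact cdc_rsH hhN hg hc.cdc
    · exact xgr_rsH hhN hg hc.xgr

end Pool.Agent.Lib.MP610fe3.HR
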