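import Pool.Agent.Lib.MP_610fe3_an.HR.F4SSpec
import Pool.Agent.Lib.MP_610fe3_an.HR.F2SAMD

/-!
# Module SAMO (hive F4): elements of the same chamber have the same stable sets
-/

set_option autoImplicit false

open Set Filter Function
open scoped Topology

namespace Pool.Agent.Lib.MP610fe3.HR

open Cf CH

universe u v w

namespace F4SAMOAux

variable {M : Type u} [MetricSpace M] [CompactSpace M] {f h : M ≃ₜ M}

/-- Forward asymptotic points of `f` are forward asymptotic points of `h`, if small stable plaques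
of `f` are stable plaques of `h`. -/
theorem fwd {ε C l : ℝ} (hD : Dec h ε C l) (hc : ∀ x, f (h x) = h (f x)) {δ : ℝ} (hδ : 0 < δ)
    (H : ∀ x y, y ∈ Wl f δ x → y ∈ Wl h ε x) {x y : M} (hxy : FwdAsymp f x y) :
    FwdAsymp h x y := by
  unfold FwdAsymp at hxy ⊢
  obtain ⟨N, hN⟩ := Metric.tendsto_atTop.1 hxy δ hδ
  have h1 : f^[N] y ∈ Wl f δ (f^[N] x) := fun m => by
    rw [← iterate_add_apply, ← iterate_add_apply, dist_comm]
    have h2 := hN (m + N) (by omega)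
    rw [Real.dist_eq, sub_zero, abs_of_nonneg dist_nonneg] at h2
    exact h2.le
  have h3 := hD.dec _ _ (H _ _ h1)
  have h4 : Tendsto (fun n : ℕ => C * l ^ n * dist (f^[N] y) (f^[N] x)) atTop (𝓝 0) := by
    have h5 := (tendsto_pow_atTop_nhds_zero_of_lt_one hD.l_pos.le hD.l_lt).const_mul C
    have h6 := h5.mul_const (dist (f^[N] y) (f^[N] x))
    simpa using h6
  have hcont : Continuous (f.symm^[N]) := f.symm.continuous.iterate N
  have huc := CompactSpace.uniformContinuous_of_continuous hcont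
  rw [Metric.tendsto_atTop]
  intro e he
  obtain ⟨d, hd, hdd⟩ := Metric.uniformContinuous_iff.1 huc e he
  obtain ⟨n₀, hn₀⟩ := Metric.tendsto_atTop.1 h4 d hd
  refine ⟨n₀, fun n hn => ?_⟩
  have h7 := hn₀ n hn
  rw [Real.dist_eq, sub_zero] at h7
  have h8 : dist (h^[n] (f^[N] y)) (h^[n] (f^[N] x)) < d :=
    (h3 n).trans_lt ((le_abs_self _).trans_lt h7)
  rw [← PRODAux.comm_iter hc, ← PRODAux.comm_iter hc] at h8
  have h9 := hdd h8
  have h10 : LeftInverse (f.symm^[N]) (f^[N]) :=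
    LeftInverse.iterate (fun z => f.symm_apply_apply z) N
  rw [h10, h10] at h9
  rw [Real.dist_eq, sub_zero, abs_of_nonneg dist_nonneg, dist_comm]
  exact h9

end F4SAMOAux

open F4SAMOAux F2SAMDAux in
/-- **SAMO.** -/
theorem specSamo (h31 : SpecL31.{u}) : SpecSamo.{u, v, w} := by
  intro M W _ _ _ _ _ E k J _ A χ F hA n₁ n₂ hn₁ hn₂ hsgn
  obtain ⟨s₁, hs₁, hr₁, -⟩ := hA.split n₁ hn₁
  obtain ⟨s₂, hs₂, hr₂, -⟩ := hA.split n₂ hn₂
  have hcomm : ∀ a b : Fin k → ℤ, ∀ z, A a (A b z) = A b (A a z) := fun a b z => by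
    rw [← hA.add, add_comm, hA.add]
  have hr : ∀ z, (s₁.S z).range = (s₂.S z).range := fun z => by
    rw [hr₁ z, hr₂ z]
    exact iSup_congr fun j => by simp only [hsgn j]
  have key : ∀ ε' : ℝ, 0 < ε' → ∃ δ : ℝ, 0 < δ ∧ ∀ x y, y ∈ Wl (A n₁) δ x →
      y ∈ Wl (A n₂) ε' x := by
    intro ε' hε'
    obtain ⟨δ, hδ, H⟩ := wl_of_wl h31 s₁ s₂ hs₁ hs₂ (hcomm n₁ n₂) hr hε'
    exact ⟨δ, hδ, fun x y hy => H x y hy⟩
  refine ⟨key, fun x y hxy => ?_⟩
  obtain ⟨ε, C, l, hP⟩ := specPair M W E (A n₁) (A n₂) s₁ s₂ hs₁ hs₂ (hcomm n₁ n₂)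
  obtain ⟨δ, hδ, H⟩ := key ε hP.two.decs.ε_pos
  exact fwd hP.two.decs (hcomm n₁ n₂) hδ H hxy

end Pool.Agent.Lib.MP610fe3.HR
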