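import Pool.Agent.Lib.MP_610fe3_an.HR.F4Spec

/-!
# Module SMV: the stable move of separated sets
-/

set_option autoImplicit false

open Set Filter Function Bundle Metric
open scoped Topology Manifold ContDiff

namespace Pool.Agent.Lib.MP610fe3.HR

open Cf CH

universe u

theorem specSmv : SpecSmv.{u} := by
  intro M _ _ f g ε C l hP hC η s hη hs
  classical
  obtain ⟨ε₁, hε₁, hcup⟩ := hC
  obtain ⟨η', hη'0, hη's, hη'η, hη'ε⟩ : ∃ η' : ℝ, 0 < η' ∧ η' ≤ s ∧ η' ≤ η / 4 ∧ η' ≤ ε₁ :=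
    ⟨min (min s (η / 4)) ε₁, lt_min (lt_min hs (by linarith)) hε₁,
      (min_le_left _ _).trans (min_le_left _ _), (min_le_left _ _).trans (min_le_right _ _),
      min_le_right _ _⟩
  obtain ⟨δ₁, hδ₁, hbr⟩ := hP.one.br.exist η' hη'0
  obtain ⟨δ, hδ, hδδ, hδε⟩ : ∃ δ : ℝ, 0 < δ ∧ δ ≤ δ₁ / 3 ∧ δ ≤ ε₁ :=
    ⟨min (δ₁ / 3) ε₁, lt_min (by linarith) hε₁, min_le_left _ _, min_le_right _ _⟩
  refine ⟨δ, hδ, ?_⟩
  intro n p q S hq hS hsep
  have key : ∀ x ∈ S, ∃ z, z ∈ Wl f η' q ∧ z ∈ Wl f.symm η' x := by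
    intro x hx
    apply hbr
    have h1 : dist q p ≤ δ := hq 0
    have h2 : dist x p ≤ δ := (hS x hx).1 0
    have h3 := dist_triangle_right q x p
    linarith
  choose! ψ h1 h2 using key
  have hsep' : ∀ x ∈ S, ∀ y ∈ S, x ≠ y →
      ∃ k ≤ n, η / 2 < dist (f.symm^[k] (ψ x)) (f.symm^[k] (ψ y)) := by
    intro x hx y hy hxy
    obtain ⟨k, hk, hd⟩ := hsep x hx y hy hxy
    refine ⟨k, hk, ?_⟩
    have e1 : dist (f.symm^[k] (ψ x)) (f.symm^[k] x) ≤ η' := h2 x hx k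
    have e2 : dist (f.symm^[k] (ψ y)) (f.symm^[k] y) ≤ η' := h2 y hy k
    have e3 := dist_triangle4 (f.symm^[k] x) (f.symm^[k] (ψ x)) (f.symm^[k] (ψ y))
      (f.symm^[k] y)
    rw [dist_comm (f.symm^[k] x) (f.symm^[k] (ψ x))] at e3
    linarith
  have hinj : Set.InjOn ψ (S : Set M) := by
    intro x hx y hy hxy
    by_contra hne
    obtain ⟨k, -, hd⟩ := hsep' x hx y hy hne
    rw [hxy, dist_self] at hd
    linarith
  refine ⟨S.image ψ, Finset.card_image_of_injOn hinj, ?_, ?_⟩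
  · intro z hz
    obtain ⟨x, hx, rfl⟩ := Finset.mem_image.1 hz
    refine ⟨fun k => (h1 x hx k).trans hη's, ?_⟩
    refine hcup p x (ψ x) q ⟨fun k => ((hS x hx).1 k).trans hδε, (hS x hx).2⟩
      (fun k => (h2 x hx k).trans hη'ε) (fun k => (hq k).trans hδε) (fun k => ?_)
    rw [dist_comm]
    exact (h1 x hx k).trans hη'ε
  · intro z hz z' hz' hne
    obtain ⟨x, hx, rfl⟩ := Finset.mem_image.1 hz
    obtain ⟨y, hy, rfl⟩ := Finset.mem_image.1 hz'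
    exact hsep' x hx y hy fun h => hne (by rw [h])

end Pool.Agent.Lib.MP610fe3.HR
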