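import Pool.Agent.Lib.MP_610fe3_an.HR.F4Spec

/-!
# Module STC (hive F4): the points joined to a closed set by `K` stable links
-/

set_option autoImplicit false

open Set Filter Function
open scoped Topology

namespace Pool.Agent.Lib.MP610fe3.HR

open Cf CH

universe u

namespace F4STCAux

variable {M : Type u} [MetricSpace M]

/-- The points of `M` joined to `A` by `k` links. -/
def stM (F G : M ≃ₜ M) (e : ℝ) (A : Set M) : ℕ → Set M
  | 0 => A
  | k + 1 => {z | ∃ w ∈ stM F G e A k, w ∈ Lf F G e z}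

theorem isClosed_stM [CompactSpace M] {F G : M ≃ₜ M} {e : ℝ} {A : Set M}
    (h : IsClosed {p : M × M | p.2 ∈ Lf F G e p.1}) (hA : IsClosed A) (k : ℕ) :
    IsClosed (stM F G e A k) := by
  induction k with
  | zero => exact hA
  | succ k ih =>
    have h1 : IsClosed {p : M × M | p.2 ∈ Lf F G e p.1 ∧ p.2 ∈ stM F G e A k} :=
      h.inter (ih.preimage continuous_snd)
    have h2 : stM F G e A (k + 1) =
        Prod.fst '' {p : M × M | p.2 ∈ Lf F G e p.1 ∧ p.2 ∈ stM F G e A k} := by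
      ext z
      constructor
      · rintro ⟨w, hw, hwz⟩
        exact ⟨(z, w), ⟨hwz, hw⟩, rfl⟩
      · rintro ⟨⟨z', w⟩, ⟨h3, h4⟩, rfl⟩
        exact ⟨w, h4, h3⟩
    rw [h2]
    exact (h1.isCompact.image continuous_fst).isClosed

theorem st_eq {L : Type u} [MetricSpace L] {f g : M ≃ₜ M} {ι : L ≃ M} {F : L ≃ₜ L} {δ₀ C₀ e : ℝ}
    (h : Lfm f g ι F δ₀ C₀) (he : e ≤ δ₀) (A : Set M) (k : ℕ) :
    T6.CoStage.St F e (ι ⁻¹' A) k = ι ⁻¹' (stM f.symm g e A k) := by
  induction k with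
  | zero => rfl
  | succ k ih =>
    ext z
    constructor
    · rintro ⟨w, hw, hwz⟩
      rw [ih] at hw
      exact ⟨ι w, hw, (h.st e he z w).1 hwz⟩
    · rintro ⟨w, hw, hwz⟩
      refine ⟨ι.symm w, ?_, ?_⟩
      · rw [ih, mem_preimage, Equiv.apply_symm_apply]
        exact hw
      · rw [h.st e he, Equiv.apply_symm_apply]
        exact hwz

end F4STCAux

open F4STCAux in
theorem specStc (hProd : SpecProd.{u}) : SpecStc.{u} := by
  intro M L _ _ _ f g ε C l ι F δ₀ C₀ hP h
  obtain ⟨-, -, -, -, δ, hδ, hcl⟩ := hProd M f.symm g ε C l hP.symm_left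
  refine ⟨min δ δ₀, lt_min hδ h.pos, fun e he A hA K => ?_⟩
  rw [st_eq h (he.trans (min_le_right _ _))]
  exact (isClosed_stM (hcl e (he.trans (min_le_left _ _))) hA K).preimage h.cont

end Pool.Agent.Lib.MP610fe3.HR
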