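import Pool.Agent.Lib.MP_610fe3_an.HR.F4Spec
import Pool.Agent.Lib.MP_610fe3_an.HR.PROD

/-!
# Module STX of hive F4: a disc in `UY` whose boundary meets `RB` (helper85)
-/

set_option autoImplicit false

open Set Filter Function Metric
open scoped Topology

namespace Pool.Agent.Lib.MP610fe3.HR

open Cf CH

universe u

namespace F4STXAux

section Inv

variable {M : Type*} [MetricSpace M] {f g : M ≃ₜ M} {A : Set M}

theorem symm_mem (hA : f '' A = A) {a : M} (ha : a ∈ A) : f.symm a ∈ A := by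
  rw [← hA] at ha
  obtain ⟨b, hb, rfl⟩ := ha
  rwa [f.symm_apply_apply]

theorem rb_fwd (hA : f '' A = A) {r : M} (h : r ∈ RB f A) : f r ∈ RB f A := by
  intro a ha hcon
  refine h _ (symm_mem hA ha) ?_
  have h1 := (tendsto_add_atTop_iff_nat
    (f := fun k : ℕ => dist (f.symm^[k] (f r)) (f.symm^[k] a)) 1).2 hcon
  have h2 : (fun k : ℕ => dist (f.symm^[k + 1] (f r)) (f.symm^[k + 1] a)) =
      fun k : ℕ => dist (f.symm^[k] r) (f.symm^[k] (f.symm a)) := by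
    funext k
    rw [iterate_succ_apply, iterate_succ_apply, f.symm_apply_apply]
  rw [h2] at h1
  exact h1

theorem rb_iter (hA : f '' A = A) (n : ℕ) {r : M} (h : r ∈ RB f A) : f^[n] r ∈ RB f A := by
  induction n with
  | zero => exact h
  | succ n ih =>
    rw [iterate_succ_apply']
    exact rb_fwd hA ih

theorem uy_iter (hA : f '' A = A)
    (hD : ∀ x y, Dbl f.symm g (f x) (f y) ↔ Dbl f.symm g x y) (n : ℕ) {m : M}
    (h : m ∈ UY f g A) : f^[n] m ∈ UY f g A := by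
  induction n with
  | zero => exact h
  | succ n ih =>
    rw [iterate_succ_apply']
    obtain ⟨a, ha, hma⟩ := ih
    refine ⟨f a, ?_, (hD _ _).2 hma⟩
    rw [← hA]
    exact mem_image_of_mem _ ha

theorem dbl_iter {F G c : M ≃ₜ M} (h : ∀ x y, Dbl F G (c x) (c y) ↔ Dbl F G x y) (n : ℕ) :
    ∀ x y, Dbl F G (c^[n] x) (c^[n] y) ↔ Dbl F G x y := by
  induction n with
  | zero => exact fun x y => Iff.rfl
  | succ n ih =>
    intro x y
    rw [iterate_succ_apply, iterate_succ_apply, ih, h]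

end Inv

section Chart

variable {M : Type*} [MetricSpace M] {f g : M ≃ₜ M} {u : ℕ}
  {φ : M → EuclideanSpace ℝ (Fin u) → M} {C₁ ρ e₁ : ℝ}

theorem phi_cont (hφ : ChX f g u φ C₁ ρ e₁) (x : M) :
    ContinuousOn (φ x) (closedBall (0 : EuclideanSpace ℝ (Fin u)) ρ) := by
  have h0 : 0 ≤ C₁ := by linarith [hφ.one_le]
  have h1 : LipschitzOnWith ⟨C₁, h0⟩ (φ x) (closedBall (0 : EuclideanSpace ℝ (Fin u)) ρ) :=
    LipschitzOnWith.of_dist_le_mul fun s hs t ht => hφ.upper x s hs t ht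
  exact h1.continuousOn

/-- points with close parameters are in a small leaf -/
theorem close {ε C l ρ' : ℝ} (hdec : Dec f ε C l)
    (hsym : ∀ x y, Dbl f g.symm x y → Dbl f g.symm y x)
    (htr : ∀ x y z, Dbl f g.symm x y → Dbl f g.symm y z → Dbl f g.symm x z)
    (hφ : ChX f g u φ C₁ ρ e₁) (hρρ : ρ' ≤ ρ)
    (hmem : ∀ x, ∀ s ∈ closedBall (0 : EuclideanSpace ℝ (Fin u)) ρ',
      φ x s ∈ Lf f g.symm (ε / 2) x) {δ : ℝ} (x : M) {s t : EuclideanSpace ℝ (Fin u)}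
    (hs : s ∈ closedBall (0 : EuclideanSpace ℝ (Fin u)) ρ')
    (ht : t ∈ closedBall (0 : EuclideanSpace ℝ (Fin u)) ρ')
    (h : C * (C₁ * dist s t) ≤ δ) : φ x s ∈ Lf f g.symm δ (φ x t) := by
  obtain ⟨h1, h2⟩ := hmem x s hs
  obtain ⟨h3, h4⟩ := hmem x t ht
  refine ⟨fun k => ?_, htr _ _ _ (hsym _ _ h4) h2⟩
  have hw : φ x s ∈ Wl f ε (φ x t) := by
    intro k
    have e1 := h1 k
    have e2 := h3 k
    rw [dist_comm] at e2
    linarith [dist_triangle (f^[k] (φ x s)) (f^[k] x) (f^[k] (φ x t))]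
  have e1 := hdec.dec _ _ hw k
  have hC : 0 ≤ C := by linarith [hdec.one_le]
  have hl : l ^ k ≤ 1 := pow_le_one₀ hdec.l_pos.le hdec.l_lt.le
  have e2 := hφ.upper x s (closedBall_subset_closedBall hρρ hs) t
    (closedBall_subset_closedBall hρρ ht)
  calc dist (f^[k] (φ x s)) (f^[k] (φ x t)) ≤ C * l ^ k * dist (φ x s) (φ x t) := e1
    _ ≤ C * 1 * (C₁ * dist s t) := by
        have : 0 ≤ l ^ k := pow_nonneg hdec.l_pos.le k
        gcongr
    _ ≤ δ := by linarith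

theorem smul_mem {ρ' : ℝ} {s : EuclideanSpace ℝ (Fin u)}
    (hs : s ∈ closedBall (0 : EuclideanSpace ℝ (Fin u)) ρ') {t : ℝ} (h0 : 0 ≤ t) (h1 : t ≤ 1) :
    t • s ∈ closedBall (0 : EuclideanSpace ℝ (Fin u)) ρ' := by
  rw [mem_closedBall_zero_iff] at hs ⊢
  rw [norm_smul, Real.norm_of_nonneg h0]
  nlinarith [norm_nonneg s]

/-- The first exit from an open set `U` along a segment of a chart. -/
theorem exit {U R : Set M} {ρ' : ℝ} (hφ : ChX f g u φ C₁ ρ e₁) (hρρ : ρ' ≤ ρ)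
    (hU : ∀ m ∈ U, ∃ δ : ℝ, 0 < δ ∧ ∀ m' ∈ Lf f g.symm δ m, m' ∈ U)
    (hcl : ∀ x, x ∈ closure U → x ∉ R → x ∈ U)
    {K : ℝ} (hclose : ∀ (δ : ℝ) (x : M), ∀ s ∈ closedBall (0 : EuclideanSpace ℝ (Fin u)) ρ',
      ∀ t ∈ closedBall (0 : EuclideanSpace ℝ (Fin u)) ρ', K * dist s t ≤ δ →
      φ x s ∈ Lf f g.symm δ (φ x t)) (x : M) (hx : x ∈ U) {s : EuclideanSpace ℝ (Fin u)}
    (hs : s ∈ closedBall (0 : EuclideanSpace ℝ (Fin u)) ρ') (hxs : φ x s ∉ U) :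
    ∃ t : ℝ, 0 < t ∧ t ≤ 1 ∧ φ x (t • s) ∈ R ∧ ∀ t', 0 ≤ t' → t' < t → φ x (t' • s) ∈ U := by
  set pr : ℝ → ℝ := fun t => max 0 (min 1 t) with hpr
  have hprc : Continuous pr := by fun_prop
  have hpr0 : ∀ t, 0 ≤ pr t := fun t => le_max_left _ _
  have hpr1 : ∀ t, pr t ≤ 1 := fun t => max_le zero_le_one (min_le_left _ _)
  have hprid : ∀ t, 0 ≤ t → t ≤ 1 → pr t = t := fun t h0 h1 => by
    simp only [hpr]
    rw [min_eq_right h1, max_eq_right h0]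
  have hball : ∀ t, pr t • s ∈ closedBall (0 : EuclideanSpace ℝ (Fin u)) ρ' := fun t =>
    smul_mem hs (hpr0 t) (hpr1 t)
  have hcc : Continuous fun t : ℝ => φ x (pr t • s) :=
    (phi_cont hφ x).comp_continuous (by fun_prop)
      (fun t => closedBall_subset_closedBall hρρ (hball t))
  have hop : IsOpen {t : ℝ | φ x (pr t • s) ∈ U} := by
    rw [isOpen_iff_mem_nhds]
    intro t₀ ht₀
    obtain ⟨δ, hδ, H⟩ := hU _ ht₀
    have hc : Continuous fun t : ℝ => K * dist (pr t • s) (pr t₀ • s) := by fun_prop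
    have hlt : K * dist (pr t₀ • s) (pr t₀ • s) < δ := by
      rw [dist_self, mul_zero]
      exact hδ
    filter_upwards [hc.continuousAt.eventually (gt_mem_nhds hlt)] with t ht
    exact H _ (hclose δ x _ (hball t) _ (hball t₀) ht.le)
  have hSc : IsCompact (Icc (0 : ℝ) 1 ∩ {t : ℝ | φ x (pr t • s) ∈ U}ᶜ) :=
    isCompact_Icc.inter_right hop.isClosed_compl
  have hS1 : (1 : ℝ) ∈ Icc (0 : ℝ) 1 ∩ {t : ℝ | φ x (pr t • s) ∈ U}ᶜ := by
    refine ⟨⟨zero_le_one, le_rfl⟩, fun h => ?_⟩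
    have h' : φ x (pr 1 • s) ∈ U := h
    rw [hprid 1 zero_le_one le_rfl, one_smul] at h'
    exact hxs h'
  obtain ⟨t₀, ⟨⟨h00, h01⟩, hρU⟩, hmin⟩ := hSc.exists_isLeast ⟨1, hS1⟩
  have hρU' : φ x (pr t₀ • s) ∉ U := hρU
  have hne : t₀ ≠ 0 := by
    rintro rfl
    rw [hprid 0 le_rfl zero_le_one, zero_smul, hφ.zero] at hρU'
    exact hρU' hx
  have hpos : 0 < t₀ := lt_of_le_of_ne h00 (Ne.symm hne)
  have hbefore : ∀ t', 0 ≤ t' → t' < t₀ → φ x (pr t' • s) ∈ U := by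
    intro t' h1 h2
    by_contra h3
    have := hmin ⟨⟨h1, h2.le.trans h01⟩, h3⟩
    linarith
  refine ⟨t₀, hpos, h01, ?_, fun t' h1 h2 => ?_⟩
  · by_contra hcon
    rw [← hprid t₀ h00 h01] at hcon
    refine hρU' (hcl _ ?_ hcon)
    have h1 : t₀ ∈ closure (Ico 0 t₀) := by
      rw [closure_Ico hpos.ne]
      exact ⟨h00, le_rfl⟩
    exact map_mem_closure (f := fun t : ℝ => φ x (pr t • s)) hcc h1
      fun t ht => hbefore t ht.1 ht.2
  · have h3 := hbefore t' h1 h2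
    rwa [hprid t' h1 (by linarith)] at h3

end Chart

end F4STXAux

open F4STXAux

/-- **STX**: a small disc in `UY` whose boundary meets the complement. -/
theorem specStx (hUop : SpecUop.{u}) (hUcl : SpecUcl.{u}) (hBas : SpecBas.{u})
    (hD : SpecDbl.{u}) : SpecStx.{u} := by
  intro M _ _ f g ε C l u φ C₁ ρ e₁ A hP hXY hφ hA p hp y hy hyA d₀ hd₀
  have hdec := hP.one.decs
  have hC : 1 ≤ C := hdec.one_le
  have hC₁ : 1 ≤ C₁ := hφ.one_le
  obtain ⟨-, hsymX, htrX, -, hfwX, -, hinvX, -⟩ := hD M f g.symm hP.symm_right.comm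
  obtain ⟨-, hsymY, -, -, hfwY, -, hinvY, -⟩ := hD M f.symm g hP.symm_left.comm
  have hiX := dbl_iter (hinvX f (fun _ => rfl) hP.symm_right.comm)
  have hiY : ∀ x y, Dbl f.symm g (f x) (f y) ↔ Dbl f.symm g x y :=
    hinvY f (fun x => by rw [f.symm_apply_apply, f.apply_symm_apply]) hP.comm
  -- the charts
  obtain ⟨ρ', hρ', hρρ, hmem⟩ := hφ.mem (ε / 2) (half_pos hdec.ε_pos)
  have hclose : ∀ (δ : ℝ) (x : M), ∀ s ∈ closedBall (0 : EuclideanSpace ℝ (Fin u)) ρ',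
      ∀ t ∈ closedBall (0 : EuclideanSpace ℝ (Fin u)) ρ', (C * C₁) * dist s t ≤ δ →
      φ x s ∈ Lf f g.symm δ (φ x t) := fun δ x s hs t ht h =>
    close hdec hsymX htrX hφ hρρ hmem x hs ht (by rw [← mul_assoc]; exact h)
  have h0ρ : (0 : EuclideanSpace ℝ (Fin u)) ∈ closedBall (0 : EuclideanSpace ℝ (Fin u)) ρ :=
    mem_closedBall_self (by linarith)
  have hlow : ∀ x, ∀ s ∈ closedBall (0 : EuclideanSpace ℝ (Fin u)) ρ,
      ‖s‖ ≤ C₁ * dist (φ x s) x := fun x s hs => by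
    have := hφ.lower x s hs 0 h0ρ
    rwa [hφ.zero, dist_zero_right] at this
  -- the sets
  have hdisj : ∀ m, m ∈ UY f g A → m ∉ RB f A := fun m hm hR => by
    obtain ⟨a, ha, hma⟩ := hm
    exact hR a ha (hfwY _ _ hma)
  have hRcl : IsClosed (RB f A) := by
    have h1 := (hBas M f.symm ε C l hP.one.symm A 1 hA.closed hA.sat Nat.one_pos (by
      have h2 : ∀ B : Set M, f.symm '' (f '' B) = B := fun B => by
        rw [← image_comp]
        have : (f.symm : M → M) ∘ f = id := funext f.symm_apply_apply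
        rw [this, image_id]
      have h3 := h2 A
      rw [hA.inv] at h3
      exact h3)).1
    have h2 : RB f A = {x | ∃ a ∈ A, FwdAsymp f.symm x a}ᶜ := by
      ext x
      simp only [RB, mem_setOf_eq, mem_compl_iff]
      push Not
      rfl
    rw [h2]
    exact h1.isClosed_compl
  have hUo : ∀ m ∈ UY f g A, ∃ δ : ℝ, 0 < δ ∧ ∀ m' ∈ Lf f g.symm δ m, m' ∈ UY f g A :=
    fun m hm => hUop M f g ε C l hP hXY A hA m hm
  have hUc : ∀ x, x ∈ closure (UY f g A) → x ∉ RB f A → x ∈ UY f g A :=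
    fun x hx hxR => hUcl M f g ε C l hP A hA x hx hxR
  have hexit : ∀ x : M, x ∈ UY f g A → ∀ s : EuclideanSpace ℝ (Fin u),
      s ∈ closedBall (0 : EuclideanSpace ℝ (Fin u)) ρ' → φ x s ∉ UY f g A →
      ∃ t : ℝ, 0 < t ∧ t ≤ 1 ∧ φ x (t • s) ∈ RB f A ∧
        ∀ t', 0 ≤ t' → t' < t → φ x (t' • s) ∈ UY f g A := fun x hx s hs hxs =>
    exit (R := RB f A) hφ hρρ hUo hUc hclose x hx hs hxs
  -- the start
  have hyU : y ∈ UY f g A := ⟨p, hp, hsymY _ _ hy⟩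
  obtain ⟨r, hyr, hrB⟩ := hA.s3 y fun a ha hya => hyA (hA.s2 p hp a ha y hy hya)
  have hrB' : r ∈ RB f A := hrB
  have hη : 0 < min e₁ (ρ' / C₁) := lt_min hφ.e_pos (by positivity)
  obtain ⟨N, hN⟩ := eventually_atTop.1 ((show Tendsto (fun k : ℕ => dist (f^[k] y) (f^[k] r))
    atTop (𝓝 0) from hfwX _ _ hyr).eventually (gt_mem_nhds hη))
  have hmU : f^[N] y ∈ UY f g A := uy_iter hA.inv hiY N hyU
  have hrR : f^[N] r ∈ RB f A := rb_iter hA.inv N hrB'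
  have hrL : f^[N] r ∈ Lf f g.symm e₁ (f^[N] y) := by
    refine ⟨fun k => ?_, (hiX N y r).2 hyr⟩
    rw [← iterate_add_apply, ← iterate_add_apply, dist_comm]
    exact (hN (k + N) (by omega)).le.trans (min_le_left _ _)
  obtain ⟨s₀, hs₀, hs₀r⟩ := hφ.onto _ _ hrL
  have hs₀' : s₀ ∈ closedBall (0 : EuclideanSpace ℝ (Fin u)) ρ' := by
    rw [mem_closedBall_zero_iff]
    have h1 := hlow (f^[N] y) s₀ hs₀
    rw [hs₀r, dist_comm] at h1
    have h2 := (hN N le_rfl).le.trans (min_le_right _ _)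
    have h3 : C₁ * dist (f^[N] y) (f^[N] r) ≤ C₁ * (ρ' / C₁) := by gcongr
    rw [mul_div_cancel₀ _ (by positivity : C₁ ≠ 0)] at h3
    linarith
  obtain ⟨t₁, ht₁, ht₁1, hR₁, hU₁⟩ := hexit _ hmU s₀ hs₀' (fun h => by
    rw [hs₀r] at h
    exact hdisj _ h hrR)
  -- the centre of the disc
  set d₁ : ℝ := min d₀ ρ' with hd₁
  have hd₁0 : 0 < d₁ := lt_min hd₀ hρ'
  set η' : ℝ := min e₁ d₁ with hη'
  have hη'0 : 0 < η' := lt_min hφ.e_pos hd₁0
  set K : ℝ := (C + C₁) * C₁ * ‖s₀‖ + 1 with hK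
  have hn0 := norm_nonneg s₀
  have hK0 : 0 < K := by positivity
  set τ : ℝ := min t₁ (η' / K) with hτ
  have hτ0 : 0 < τ := lt_min ht₁ (by positivity)
  have hτt : τ ≤ t₁ := min_le_left _ _
  have hτK : K * τ ≤ η' := by
    have : τ ≤ η' / K := min_le_right _ _
    calc K * τ ≤ K * (η' / K) := by gcongr
      _ = η' := by field_simp
  have hτK' : (C + C₁) * C₁ * ‖s₀‖ * τ ≤ η' := by nlinarith
  have hdist : dist (t₁ • s₀) ((t₁ - τ) • s₀) = τ * ‖s₀‖ := by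
    rw [dist_eq_norm, ← sub_smul, norm_smul, sub_sub_cancel, Real.norm_of_nonneg hτ0.le]
  have hb1 : t₁ • s₀ ∈ closedBall (0 : EuclideanSpace ℝ (Fin u)) ρ' :=
    smul_mem hs₀' ht₁.le ht₁1
  have hb2 : (t₁ - τ) • s₀ ∈ closedBall (0 : EuclideanSpace ℝ (Fin u)) ρ' :=
    smul_mem hs₀' (by linarith) (by linarith)
  set y₀ : M := φ (f^[N] y) ((t₁ - τ) • s₀) with hy₀
  have hy₀U : y₀ ∈ UY f g A := hU₁ _ (by linarith) (by linarith)
  have hrL' : φ (f^[N] y) (t₁ • s₀) ∈ Lf f g.symm e₁ y₀ := by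
    refine hclose e₁ _ _ hb1 _ hb2 ?_
    rw [hdist]
    have h1 : 0 ≤ C₁ * C₁ * (τ * ‖s₀‖) := by positivity
    have h2 : η' ≤ e₁ := min_le_left _ _
    nlinarith
  obtain ⟨s₁, hs₁, hs₁r⟩ := hφ.onto _ _ hrL'
  have hs₁n : ‖s₁‖ ≤ d₁ := by
    have h1 := hlow y₀ s₁ hs₁
    rw [hs₁r] at h1
    have h2 := hφ.upper (f^[N] y) _ (closedBall_subset_closedBall hρρ hb1) _
      (closedBall_subset_closedBall hρρ hb2)
    rw [hdist] at h2
    have h3 : C₁ * dist (φ (f^[N] y) (t₁ • s₀)) y₀ ≤ C₁ * (C₁ * (τ * ‖s₀‖)) := by gcongr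
    have h4 : 0 ≤ C * C₁ * (τ * ‖s₀‖) := by positivity
    have h5 : η' ≤ d₁ := min_le_right _ _
    nlinarith
  -- the nearest point
  have hd₁ρ : closedBall (0 : EuclideanSpace ℝ (Fin u)) d₁ ⊆
      closedBall (0 : EuclideanSpace ℝ (Fin u)) ρ :=
    closedBall_subset_closedBall ((min_le_right _ _).trans hρρ)
  have hKc : IsCompact (closedBall (0 : EuclideanSpace ℝ (Fin u)) d₁ ∩ φ y₀ ⁻¹' RB f A) := by
    have h1 : IsClosed (closedBall (0 : EuclideanSpace ℝ (Fin u)) d₁ ∩ φ y₀ ⁻¹' RB f A) :=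
      ((phi_cont hφ y₀).mono hd₁ρ).preimage_isClosed_of_isClosed isClosed_closedBall hRcl
    exact (isCompact_closedBall _ _).of_isClosed_subset h1 inter_subset_left
  have hKne : (closedBall (0 : EuclideanSpace ℝ (Fin u)) d₁ ∩ φ y₀ ⁻¹' RB f A).Nonempty :=
    ⟨s₁, mem_closedBall_zero_iff.2 hs₁n, by
      rw [mem_preimage, hs₁r]
      exact hR₁⟩
  obtain ⟨x₀, ⟨hx₀1, hx₀2⟩, hx₀m⟩ := hKc.exists_isMinOn hKne continuous_norm.continuousOn
  have hx₀R : φ y₀ x₀ ∈ RB f A := hx₀2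
  have hx₀n : ‖x₀‖ ≤ d₁ := mem_closedBall_zero_iff.1 hx₀1
  refine ⟨y₀, ‖x₀‖, x₀, ?_, hx₀n.trans (min_le_left _ _), rfl, fun h => hdisj _ h hx₀R,
    fun x hx => ?_⟩
  · rw [norm_pos_iff]
    rintro rfl
    rw [hφ.zero] at hx₀R
    exact hdisj _ hy₀U hx₀R
  · by_contra hcon
    have hxn : ‖x‖ < ‖x₀‖ := mem_ball_zero_iff.1 hx
    obtain ⟨t₂, ht₂, ht₂1, hR₂, -⟩ := hexit y₀ hy₀U x
      (mem_closedBall_zero_iff.2 (hxn.le.trans (hx₀n.trans (min_le_right _ _)))) hcon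
    have h1 : ‖t₂ • x‖ ≤ ‖x‖ := by
      rw [norm_smul, Real.norm_of_nonneg ht₂.le]
      nlinarith [norm_nonneg x]
    have h2 : t₂ • x ∈ closedBall (0 : EuclideanSpace ℝ (Fin u)) d₁ ∩ φ y₀ ⁻¹' RB f A :=
      ⟨mem_closedBall_zero_iff.2 (by linarith), hR₂⟩
    have h3 := hx₀m h2
    simp only [mem_setOf_eq] at h3
    linarith

end Pool.Agent.Lib.MP610fe3.HR
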