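import Pool.Agent.Lib.MP_610fe3_an.HR.F4Spec

/-!
# Module SYSL (hive F4): the structure `T6.Sys` on the space `L` with the leaf metric
-/

set_option autoImplicit false

open Set Filter Function Metric
open scoped Topology

namespace Pool.Agent.Lib.MP610fe3.HR

open Cf CH
open T6 (Sys Sc Lad Dom HolMap)

universe u v w

namespace F4SYSLAux

variable {M L : Type*} [MetricSpace M] [MetricSpace L] {f g : M ≃ₜ M} {ι : L ≃ M} {F : L ≃ₜ L}
  {δ₀ C₀ : ℝ}

theorem eqf_iter (h : Lfm f g ι F δ₀ C₀) (n : ℕ) (x : L) : ι (F^[n] x) = f.symm^[n] (ι x) := by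
  induction n with
  | zero => rfl
  | succ n ih => rw [iterate_succ_apply', iterate_succ_apply', h.eqf, ih]

theorem eqb (h : Lfm f g ι F δ₀ C₀) (x : L) : ι (F.symm x) = f (ι x) := by
  have h1 := h.eqf (F.symm x)
  rw [F.apply_symm_apply] at h1
  rw [h1, f.apply_symm_apply]

theorem eqb_iter (h : Lfm f g ι F δ₀ C₀) (n : ℕ) (x : L) : ι (F.symm^[n] x) = f^[n] (ι x) := by
  induction n with
  | zero => rfl
  | succ n ih => rw [iterate_succ_apply', iterate_succ_apply', eqb h, ih]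

/-- Distances in small unstable sets of `F` are the same in `M`. -/
theorem dist_un (h : Lfm f g ι F δ₀ C₀) {r : ℝ} (hr : r ≤ δ₀) {x z : L}
    (hz : z ∈ Wl F.symm r x) : dist z x = dist (ι z) (ι x) :=
  h.dun x z ((h.un δ₀ le_rfl x z).1 (Wl_mono hr hz))

/-- Distances in small stable sets of `F` are the same in `M`. -/
theorem dist_st (h : Lfm f g ι F δ₀ C₀) {r : ℝ} (hr : r ≤ δ₀) {x z : L}
    (hz : z ∈ Wl F r x) : dist z x = dist (ι z) (ι x) :=
  h.dst x z ((h.st δ₀ le_rfl x z).1 (Wl_mono hr hz))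

theorem exp_pow (c : ℝ) (n : ℕ) : Real.exp (-c) ^ n = Real.exp (-(c * n)) := by
  rw [← Real.exp_nat_mul]
  ring_nf

theorem br_mono {r C : ℝ} (h : Br F δ₀ C₀) (hr0 : 0 < r) (hr : r ≤ δ₀) (hC : C₀ ≤ C) :
    Br F r C where
  ε_pos := hr0
  one_le := h.one_le.trans hC
  exist := h.exist
  unique := fun x y z z' h1 h2 h3 h4 =>
    h.unique x y z z' (Wl_mono hr h1) (Wl_mono hr h2) (Wl_mono hr h3) (Wl_mono hr h4)
  left := fun x y z h1 h2 => (h.left x y z (Wl_mono hr h1) (Wl_mono hr h2)).trans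
    (mul_le_mul_of_nonneg_right hC dist_nonneg)
  right := fun x y z h1 h2 => (h.right x y z (Wl_mono hr h1) (Wl_mono hr h2)).trans
    (mul_le_mul_of_nonneg_right hC dist_nonneg)

end F4SYSLAux

open F4SYSLAux in
/-- SYSL. -/
theorem specSysl (hprod : SpecProd.{u}) : SpecSysl.{u} := by
  intro M L _ _ _ f g ε C l ι F δ₀ C₀ u φ C₁ ρ₀ e₁ a b κ r₂ C₂ hP hL hu hX ha hb hκ hca hcb hr₂
    hq e₀ he₀
  obtain ⟨δa, Ca, hδa, hCa, hA⟩ := hca
  obtain ⟨δb, Cb, hδb, hCb, hB⟩ := hcb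
  obtain ⟨-, -, h3, -, -⟩ := hprod M f g.symm ε C l hP.symm_right
  obtain ⟨δ₁, hδ₁, hA'⟩ := h3 δa hδa
  obtain ⟨-, -, h3', -, -⟩ := hprod M f.symm g ε C l hP.symm_left
  obtain ⟨δ₂, hδ₂, hB'⟩ := h3' δb hδb
  have hδ₀ := hL.pos
  have hC₀ := hL.one_le
  have hC₁ := hX.one_le
  -- the scale
  obtain ⟨r, hr0, hr1, hr2, hr3, hr4, hr5, hr6⟩ : ∃ r : ℝ, 0 < r ∧ 2 * r ≤ δ₀ ∧ r ≤ r₂ ∧ r ≤ δa ∧
      r ≤ δb ∧ r ≤ δ₁ ∧ r ≤ δ₂ := by
    refine ⟨min (δ₀ / 2) (min r₂ (min (min δa δb) (min δ₁ δ₂))), by positivity, ?_, ?_, ?_, ?_, ?_,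
      ?_⟩
    · have : min (δ₀ / 2) (min r₂ (min (min δa δb) (min δ₁ δ₂))) ≤ δ₀ / 2 := min_le_left _ _
      linarith
    · exact (min_le_right _ _).trans (min_le_left _ _)
    · exact (min_le_right _ _).trans ((min_le_right _ _).trans ((min_le_left _ _).trans
        (min_le_left _ _)))
    · exact (min_le_right _ _).trans ((min_le_right _ _).trans ((min_le_left _ _).trans
        (min_le_right _ _)))
    · exact (min_le_right _ _).trans ((min_le_right _ _).trans ((min_le_right _ _).trans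
        (min_le_left _ _)))
    · exact (min_le_right _ _).trans ((min_le_right _ _).trans ((min_le_right _ _).trans
        (min_le_right _ _)))
  have hrδ : r ≤ δ₀ := by linarith
  -- the constant
  obtain ⟨C', hC'1, hC'0, hC'a, hC'b, hC'2, hC'p⟩ : ∃ C' : ℝ, C₁ ≤ C' ∧ C₀ ≤ C' ∧ Ca ≤ C' ∧
      Cb ≤ C' ∧ C₂ ≤ C' ∧ 1 ≤ C' := by
    have h1 := le_abs_self C₂
    have h2 := abs_nonneg C₂
    exact ⟨C₁ + C₀ + Ca + Cb + |C₂|, by linarith, by linarith, by linarith, by linarith,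
      by linarith, by linarith⟩
  obtain ⟨ρ, hρ0, hρ1, hρ2⟩ := hX.mem (r / 4) (by linarith)
  obtain ⟨δ₃, hδ₃, hbr⟩ := hL.br.exist (r / 16) (by linarith)
  obtain ⟨e, he0, he1, he2, he3, he4, he5⟩ : ∃ e : ℝ, 0 < e ∧ e ≤ e₀ ∧ 64 * C' * e ≤ r ∧
      4 * e ≤ δ₃ / 2 ∧ 4 * e ≤ e₁ ∧ C₁ * (4 * e) ≤ ρ / 2 := by
    have he₁ := hX.e_pos
    have hC'pos : 0 < C' := by linarith
    have hC₁pos : 0 < C₁ := by linarith
    refine ⟨min e₀ (min (r / (64 * C')) (min (δ₃ / 8) (min (e₁ / 4) (ρ / (8 * C₁))))),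
      by positivity, min_le_left _ _, ?_, ?_, ?_, ?_⟩
    · have h1 : min e₀ (min (r / (64 * C')) (min (δ₃ / 8) (min (e₁ / 4) (ρ / (8 * C₁))))) ≤
          r / (64 * C') := (min_le_right _ _).trans (min_le_left _ _)
      calc 64 * C' * min e₀ (min (r / (64 * C')) (min (δ₃ / 8) (min (e₁ / 4) (ρ / (8 * C₁)))))
          ≤ 64 * C' * (r / (64 * C')) := mul_le_mul_of_nonneg_left h1 (by positivity)
        _ = r := by field_simp
    · have h1 : min e₀ (min (r / (64 * C')) (min (δ₃ / 8) (min (e₁ / 4) (ρ / (8 * C₁))))) ≤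
          δ₃ / 8 := (min_le_right _ _).trans ((min_le_right _ _).trans (min_le_left _ _))
      linarith
    · have h1 : min e₀ (min (r / (64 * C')) (min (δ₃ / 8) (min (e₁ / 4) (ρ / (8 * C₁))))) ≤
          e₁ / 4 := (min_le_right _ _).trans ((min_le_right _ _).trans ((min_le_right _ _).trans
            (min_le_left _ _)))
      linarith
    · have h1 : min e₀ (min (r / (64 * C')) (min (δ₃ / 8) (min (e₁ / 4) (ρ / (8 * C₁))))) ≤
          ρ / (8 * C₁) := (min_le_right _ _).trans ((min_le_right _ _).trans ((min_le_right _ _).trans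
            (min_le_right _ _)))
      calc C₁ * (4 * min e₀ (min (r / (64 * C')) (min (δ₃ / 8) (min (e₁ / 4) (ρ / (8 * C₁))))))
          ≤ C₁ * (4 * (ρ / (8 * C₁))) := by gcongr
        _ = ρ / 2 := by field_simp; ring
  -- the points of the charts
  have hmem : ∀ x : L, ∀ s ∈ closedBall (0 : EuclideanSpace ℝ (Fin u)) ρ,
      ι.symm (φ (ι x) s) ∈ Wl F.symm (r / 4) x := by
    intro x s hs
    have h1 := hρ2 (ι x) s hs
    refine (hL.un (r / 4) (by linarith) x _).2 ?_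
    rw [ι.apply_symm_apply]
    exact h1
  have hdist : ∀ x : L, ∀ s ∈ closedBall (0 : EuclideanSpace ℝ (Fin u)) ρ,
      ∀ t ∈ closedBall (0 : EuclideanSpace ℝ (Fin u)) ρ,
      dist (ι.symm (φ (ι x) s)) (ι.symm (φ (ι x) t)) = dist (φ (ι x) s) (φ (ι x) t) := by
    intro x s hs t ht
    have h1 : ι.symm (φ (ι x) s) ∈ Wl F.symm (r / 4 + r / 4) (ι.symm (φ (ι x) t)) :=
      Wl_trans (Wl_comm (hmem x t ht)) (hmem x s hs)
    rw [dist_un hL (by linarith) h1, ι.apply_symm_apply, ι.apply_symm_apply]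
  have hsub : closedBall (0 : EuclideanSpace ℝ (Fin u)) ρ ⊆ closedBall 0 ρ₀ :=
    closedBall_subset_closedBall hρ1
  refine ⟨C', r, δ₃ / 2, e, ρ, he1, hρ1, ?_⟩
  exact {
    u_pos := hu
    a_pos := ha
    b_pos := hb
    κ_nonneg := hκ
    fwd := by
      refine ⟨hr0, hC'p, Real.exp_pos _, by rw [Real.exp_lt_one_iff]; linarith, fun x z hz n => ?_⟩
      rw [dist_st hL hrδ (Wl_iter hz n), dist_st hL hrδ hz, eqf_iter hL, eqf_iter hL, exp_pow]
      obtain ⟨h1, h2⟩ := (hL.st r hrδ x z).1 hz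
      have h4 := hB (ι x) (ι z) (Wl_mono hr4 h1) (hB' _ _ h2 (Wl_mono hr6 h1)) n
      refine h4.trans ?_
      gcongr
    bwd := by
      refine ⟨hr0, hC'p, Real.exp_pos _, by rw [Real.exp_lt_one_iff]; linarith, fun x z hz n => ?_⟩
      rw [dist_un hL hrδ (Wl_iter hz n), dist_un hL hrδ hz, eqb_iter hL, eqb_iter hL, exp_pow]
      obtain ⟨h1, h2⟩ := (hL.un r hrδ x z).1 hz
      have h4 := hA (ι x) (ι z) (Wl_mono hr3 h1) (hA' _ _ h2 (Wl_mono hr5 h1)) n
      refine h4.trans ?_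
      gcongr
    br := br_mono hL.br hr0 hrδ hC'0
    lip := fun x y => (hL.lip x y).trans (mul_le_mul_of_nonneg_right hC'0 dist_nonneg)
    qc := by
      intro n z p hp q hq' p' hp' q' hq''
      have hm : ∀ p ∈ Wl F.symm r z, ι p ∈ Lf f g.symm r₂ (ι z) := by
        intro p hp
        obtain ⟨h1, h2⟩ := (hL.un r hrδ z p).1 hp
        exact ⟨Wl_mono hr2 h1, h2⟩
      have hd : ∀ p ∈ Wl F.symm r z, ∀ q ∈ Wl F.symm r z,
          dist (F.symm^[n] p) (F.symm^[n] q) = dist (f^[n] (ι p)) (f^[n] (ι q)) ∧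
          dist p q = dist (ι p) (ι q) := by
        intro p hp q hq
        have h1 : p ∈ Wl F.symm (r + r) q := Wl_trans (Wl_comm hq) hp
        rw [dist_un hL (by linarith) (Wl_iter h1 n), dist_un hL (by linarith) h1, eqb_iter hL,
          eqb_iter hL]
        exact ⟨rfl, rfl⟩
      rw [(hd p hp q hq').1, (hd p hp q hq').2, (hd p' hp' q' hq'').1, (hd p' hp' q' hq'').2]
      refine (hq n (ι z) _ (hm p hp) _ (hm q hq') _ (hm p' hp') _ (hm q' hq'')).trans ?_
      gcongr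
    e_pos := he0
    e_le := he2
    r₁_pos := by linarith
    e_le' := he3
    step := by
      intro p q hpq
      obtain ⟨z, h1, h2⟩ := hbr q p (by rw [dist_comm]; linarith)
      exact ⟨z, h2, h1⟩
    ρ_pos := hρ0
    zero := fun x => by
      show ι.symm (φ (ι x) 0) = x
      rw [hX.zero, ι.symm_apply_apply]
    upper := fun x s hs t ht => by
      show dist (ι.symm (φ (ι x) s)) (ι.symm (φ (ι x) t)) ≤ C' * dist s t
      rw [hdist x s hs t ht]
      exact (hX.upper (ι x) s (hsub hs) t (hsub ht)).trans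
        (mul_le_mul_of_nonneg_right hC'1 dist_nonneg)
    lower := fun x s hs t ht => by
      show dist s t ≤ C' * dist (ι.symm (φ (ι x) s)) (ι.symm (φ (ι x) t))
      rw [hdist x s hs t ht]
      exact (hX.lower (ι x) s (hsub hs) t (hsub ht)).trans
        (mul_le_mul_of_nonneg_right hC'1 dist_nonneg)
    mem := hmem
    onto := by
      intro x z hz
      have h4e : 4 * e ≤ δ₀ := by nlinarith
      obtain ⟨h1, h2⟩ := (hL.un (4 * e) h4e x z).1 hz
      obtain ⟨s, hs, hsz⟩ := hX.onto (ι x) (ι z) ⟨Wl_mono he4 h1, h2⟩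
      refine ⟨s, ?_, ?_⟩
      · rw [mem_closedBall]
        have h0 : (0 : EuclideanSpace ℝ (Fin u)) ∈ closedBall (0 : EuclideanSpace ℝ (Fin u)) ρ₀ :=
          mem_closedBall_self hX.ρ_pos.le
        have h3 := hX.lower (ι x) s hs 0 h0
        rw [hX.zero, hsz] at h3
        refine h3.trans (le_trans ?_ he5)
        exact mul_le_mul_of_nonneg_left (Wl_dist h1) (by linarith)
      · show ι.symm (φ (ι x) s) = z
        rw [hsz, ι.symm_apply_apply] }

end Pool.Agent.Lib.MP610fe3.HR
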