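import Pool.Agent.Lib.MP_610fe3_an.HR.F4Spec

/-!
# Module TRV: trivial leaves `X`
-/

set_option autoImplicit false

open Set Filter Function
open scoped Topology

namespace Pool.Agent.Lib.MP610fe3.HR

open Cf CH

universe u

namespace F4TRVAux

theorem periodic_of_symm {M : Type*} [TopologicalSpace M] {f : M ≃ₜ M} {p : M}
    (h : p ∈ periodicPts f.symm) : p ∈ periodicPts f := by
  obtain ⟨n, hn, hp⟩ := h
  refine ⟨n, hn, ?_⟩
  have h1 : f^[n] (f.symm^[n] p) = p := (Function.LeftInverse.iterate f.apply_symm_apply n) p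
  have h2 : f.symm^[n] p = p := hp
  rw [h2] at h1
  exact h1

end F4TRVAux

/-- **Module TRV.** -/
theorem specTrv (hGbex : SpecGbex.{u}) (hProd : SpecProd.{u}) (hPerx : SpecPerx.{u})
    (hDbl : SpecDbl.{u}) : SpecTrv.{u} := by
  intro M _ _ f g ε C l P hX
  have D := hDbl M f.symm g P.symm_left.comm
  refine ⟨fun A hA => ?_, fun A hA => ?_⟩
  · obtain ⟨A', hGB, hsub, hper⟩ := hGbex M f g ε C l P A hA
    refine hPerx M f.symm g.symm ε C l P.symm_both A hA fun p hp hpp y hy => ?_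
    refine hper p hp (F4TRVAux.periodic_of_symm hpp) y hy ?_
    by_contra hyA
    have hy' : Dbl f.symm g p y := hy
    obtain ⟨r, hr, hr'⟩ := hGB.s3 y fun a ha h => hyA (hGB.s2 p (hsub hp) a ha y hy' h)
    have h1 : y = r := hX y r hr
    subst h1
    exact hr' p (hsub hp) (D.2.2.2.2.1 y p (D.2.1 p y hy'))
  · have Q : Pair g.symm f.symm ε C l := P.symm_both.swap
    have D' := hDbl M g.symm f.symm Q.comm
    have D'' := hDbl M g.symm f Q.symm_right.comm
    intro x hx y hxy
    obtain ⟨z, hz, hz'⟩ := (hProd M g.symm f.symm ε C l Q).1 x y hxy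
    have hzA : z ∈ A := hA x hx z (D'.2.2.2.2.2.1 x z hz)
    have h1 : Dbl f g.symm z y := D''.2.2.2.1 z y hz'
    rwa [← hX z y h1]

end Pool.Agent.Lib.MP610fe3.HR
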