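import Pool.Agent.Lib.MP_610fe3_an.HR.F4SSpec
import Pool.Agent.Lib.MP_610fe3_an.HR.F1CRT

/-!
# TRX: trivial bundle, trivial leaves
-/

set_option autoImplicit false

open Set Filter Function
open scoped Topology

namespace Pool.Agent.Lib.MP610fe3.HR

open Cf CH

universe u v

/-- **TRX.** -/
theorem specTrx : SpecTrx.{u, v} := by
  intro M W _ _ _ _ _ E f g s t hs ht hfg hz x y hxy
  obtain ⟨ε, hε, hcone⟩ := F1CRTAux.cone2 s t.swap hs ht.swap (η := 1 / 2) (by norm_num)
  obtain ⟨K, hK⟩ := hxy ε hε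
  have hc : ∀ z, f (g.symm z) = g.symm (f z) := fun z =>
    (comm_symm (fun z => (hfg z).symm) z).symm
  have hcom : ∀ (m : ℕ) (z : M), f^[K] (g.symm^[m] z) = g.symm^[m] (f^[K] z) :=
    fun m z => PRODAux.comm_iter hc K m z
  have h1 : f^[K] y ∈ Wl f ε (f^[K] x) := by
    intro n
    rw [← iterate_add_apply, ← iterate_add_apply, dist_comm]
    have := hK (n + K) 0 (by omega)
    simpa using this
  have h2 : f^[K] y ∈ Wl g.symm ε (f^[K] x) := by
    intro m
    rw [← hcom, ← hcom, dist_comm]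
    exact hK K m (by omega)
  have h3 := hcone _ _ h1 h2
  rw [hz (f^[K] x)] at h3
  have h4 : ‖E.e (f^[K] y) - E.e (f^[K] x)‖ = dist (f^[K] y) (f^[K] x) := by
    rw [← dist_eq_norm, E.isom.dist_eq]
  have h5 : E.e (f^[K] y) - E.e (f^[K] x) -
      (0 : W →L[ℝ] W) (E.e (f^[K] y) - E.e (f^[K] x)) = E.e (f^[K] y) - E.e (f^[K] x) := by
    simp
  rw [h5, h4] at h3
  have h6 : dist (f^[K] y) (f^[K] x) = 0 := by
    have := dist_nonneg (x := f^[K] y) (y := f^[K] x)
    linarith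
  have h7 := dist_eq_zero.1 h6
  exact (f.injective.iterate K h7).symm

end Pool.Agent.Lib.MP610fe3.HR
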