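import Pool.Agent.Lib.MP_610fe3_an.HR.F4Spec

/-!
# Module WALB (hive F4): the other side of the wall
-/

set_option autoImplicit false

open Set Filter Function
open scoped Topology

namespace Pool.Agent.Lib.MP610fe3.HR

open Cf CH

universe u

namespace F4WALBAux

variable {M : Type u} [MetricSpace M]

/-- The closed sets which contain `A`, are saturated by the stable sets of `f` and of `g` and
invariant under `H`. -/
def Fam (f g : M ≃ₜ M) (H : Set (M ≃ₜ M)) (A : Set M) : Set (Set M) :=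
  {N | IsClosed N ∧ A ⊆ N ∧ Sat f N ∧ Sat g N ∧ ∀ h ∈ H, ∀ x, x ∈ N ↔ h x ∈ N}

theorem sInter_mem (f g : M ≃ₜ M) (H : Set (M ≃ₜ M)) (A : Set M) :
    ⋂₀ Fam f g H A ∈ Fam f g H A := by
  refine ⟨isClosed_sInter fun N hN => hN.1, fun x hx N hN => hN.2.1 hx,
    fun x hx y hxy N hN => hN.2.2.1 x (hx N hN) y hxy,
    fun x hx y hxy N hN => hN.2.2.2.1 x (hx N hN) y hxy, fun h hh x => ⟨fun hx N hN => ?_,
    fun hx N hN => ?_⟩⟩
  · exact (hN.2.2.2.2 h hh x).1 (hx N hN)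
  · exact (hN.2.2.2.2 h hh x).2 (hx N hN)

theorem mem_iff_of_image {h : M ≃ₜ M} {N : Set M} (hN : h '' N = N) (x : M) :
    x ∈ N ↔ h x ∈ N := by
  refine ⟨fun hx => hN ▸ mem_image_of_mem h hx, fun hx => ?_⟩
  rw [← hN] at hx
  obtain ⟨y, hy, hyx⟩ := hx
  rwa [← h.injective hyx]

/-- Saturated subsets of `N` are saturated. -/
theorem sat_val {f : M ≃ₜ M} {N : Set M} (h : ∀ x, x ∈ N ↔ f x ∈ N) (hN : Sat f N) {K : Set N}
    (hK : Sat (rsH f N h) K) : Sat f (Subtype.val '' K) := by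
  rintro _ ⟨x, hx, rfl⟩ y hxy
  have hy : y ∈ N := hN x x.2 y hxy
  exact ⟨⟨y, hy⟩, hK x hx ⟨y, hy⟩ ((fwdAsymp_rsH h).2 hxy), rfl⟩

theorem sat_preimage {f : M ≃ₜ M} {N : Set M} (h : ∀ x, x ∈ N ↔ f x ∈ N) {A : Set M}
    (hA : Sat f A) : Sat (rsH f N h) (Subtype.val ⁻¹' A) := fun x hx y hxy =>
  hA x hx y ((fwdAsymp_rsH h).1 hxy)

theorem minimal_preimage {f : M ≃ₜ M} {N : Set M} (h : ∀ x, x ∈ N ↔ f x ∈ N) (hNc : IsClosed N)
    (hN : Sat f N) {A : Set M} (hAN : A ⊆ N) (hA : Minimal (· ∈ Sset f) A) :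
    Minimal (· ∈ Sset (rsH f N h)) (Subtype.val ⁻¹' A) := by
  obtain ⟨⟨hAc, ⟨a, ha⟩, hAs⟩, hmin⟩ := hA
  refine ⟨⟨hAc.preimage continuous_subtype_val, ⟨⟨a, hAN ha⟩, ha⟩, sat_preimage h hAs⟩, ?_⟩
  intro K hK hKA x hx
  have h1 : Subtype.val '' K ∈ Sset f :=
    ⟨hNc.isClosedEmbedding_subtypeVal.isClosedMap _ hK.1, hK.2.1.image _, sat_val h hN hK.2.2⟩
  have h2 : Subtype.val '' K ⊆ A := by
    rintro _ ⟨y, hy, rfl⟩
    exact hKA hy
  obtain ⟨y, hy, hyx⟩ := hmin h1 h2 hx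
  rwa [← Subtype.ext hyx]

end F4WALBAux

open F4WALBAux

/-- **Module WALB.** -/
theorem specWalb (hWQ : SpecWalq.{u}) (hR : SpecRel.{u}) (hRS : SpecRsw.{u}) : SpecWalb.{u} := by
  intro M _ _ f g H u φ κ a b σ W A hA
  obtain ⟨hNc, hAN, hNf, hNg, hNH⟩ := sInter_mem f g H A
  set N : Set M := ⋂₀ Fam f g H A with hNdef
  obtain ⟨ε, C, l, hp'⟩ := W.pair
  have hp : Pair f g ε C l := hp'.symm_both
  have hf' : ∀ x, x ∈ N ↔ f.symm x ∈ N := hNH f.symm W.memf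
  have hg' : ∀ x, x ∈ N ↔ g.symm x ∈ N := hNH g.symm W.memg
  have hf : ∀ x, x ∈ N ↔ f x ∈ N := inv_symm hf'
  have hg : ∀ x, x ∈ N ↔ g x ∈ N := inv_symm hg'
  have : CompactSpace N := isCompact_iff_compactSpace.1 hNc.isCompact
  obtain ⟨φ', W'⟩ := hRS M f.symm g.symm H u φ κ a b σ W N hNc hNf hNg hNH
  have hQ := hWQ N _ _ _ u φ' κ a b σ W'
  have hpN : Pair (rsH f N hf) (rsH g N hg) ε C l := pair_rsH hp hNc hf hg hNf hNg
  have key := hR N (rsH f N hf) (rsH g N hg) ε C l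
    {h' | ∃ (h : M ≃ₜ M) (hh : h ∈ H), h' = rsH h N (hNH h hh)} (Subtype.val ⁻¹' A) hpN
    (by
      rintro _ ⟨h, hh, rfl⟩ x
      apply Subtype.ext
      have h1 : ∀ y, h (f y) = f (h y) := fun y => by
        have h2 := W.comm h hh (f y)
        rw [f.symm_apply_apply] at h2
        rw [h2, f.apply_symm_apply]
      exact h1 x)
    (by
      intro Λ hΛ
      exact hQ Λ hΛ)
    (minimal_preimage hf hNc hNf hAN hA)
    (by
      intro N' hN'c hAN' hN'f hN'g hN'H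
      have h1 : Subtype.val '' N' ∈ Fam f g H A := by
        refine ⟨hNc.isClosedEmbedding_subtypeVal.isClosedMap _ hN'c, fun x hx =>
          ⟨⟨x, hAN hx⟩, hAN' hx, rfl⟩, sat_val hf hNf hN'f, sat_val hg hNg hN'g,
          fun h hh => mem_iff_of_image ?_⟩
        have h2 := hN'H _ ⟨h, hh, rfl⟩
        conv_rhs => rw [← h2]
        rw [image_image, image_image]
        rfl
      refine eq_univ_of_forall fun x => ?_
      obtain ⟨y, hy, hyx⟩ := mem_sInter.1 x.2 _ h1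
      rwa [← Subtype.ext hyx])
  intro x hx y hxy
  have hy : y ∈ N := hNg x (hAN hx) y hxy
  exact key ⟨x, hAN hx⟩ hx ⟨y, hy⟩ ((fwdAsymp_rsH hg).2 hxy)

end Pool.Agent.Lib.MP610fe3.HR
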