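import Pool.Agent.Lib.MP_610fe3_an.HR.F4Spec

/-!
# Module WALQ: the wall lemma for a nearly conformal bundle, Part A
-/

set_option autoImplicit false

open Set Filter Function Metric
open scoped Topology

namespace Pool.Agent.Lib.MP610fe3.HR

open Cf CH

universe u

namespace F4WALQAux

theorem periodic_of_symm {M : Type*} [TopologicalSpace M] {f : M ≃ₜ M} {p : M}
    (h : p ∈ periodicPts f.symm) : p ∈ periodicPts f := by
  obtain ⟨n, hn, hp⟩ := h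
  refine ⟨n, hn, ?_⟩
  have h1 : f^[n] (f.symm^[n] p) = p := (Function.LeftInverse.iterate f.apply_symm_apply n) p
  have h2 : f.symm^[n] p = p := hp
  rw [h2] at h1
  exact h1

theorem wl_mono {M : Type*} [MetricSpace M] (a : M ≃ₜ M) {x y : M} {r s : ℝ} (hrs : r ≤ s)
    (h : y ∈ Wl a r x) : y ∈ Wl a s x := fun k => (h k).trans hrs

/-- A slightly larger defect. -/
theorem exists_defect {κ a b σ u : ℝ} (h1 : κ < a) (h2 : u * κ * (u * σ - b) < a * b) :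
    ∃ κ' : ℝ, κ < κ' ∧ κ' < a ∧ u * κ' * (u * σ - b) < a * b := by
  have hc : Continuous fun t : ℝ => u * t * (u * σ - b) := by fun_prop
  have h3 : ∀ᶠ t in 𝓝 κ, u * t * (u * σ - b) < a * b := hc.tendsto κ |>.eventually_lt_const h2
  have h4 : ∀ᶠ t in 𝓝 κ, t < a := eventually_lt_nhds h1
  have h5 : ∀ᶠ t in 𝓝[>] κ, u * t * (u * σ - b) < a * b ∧ t < a :=
    (h3.and h4).filter_mono nhdsWithin_le_nhds
  obtain ⟨t, ht, h6⟩ := (h5.and self_mem_nhdsWithin).exists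
  exact ⟨t, h6, ht.2, ht.1⟩

section Leaf

variable {M : Type u} [MetricSpace M] {L : Type u} [MetricSpace L] {f g : M ≃ₜ M} {ι : L ≃ M}
  {F : L ≃ₜ L} {δ₀ C₀ : ℝ}

theorem iota_symm (hL : Lfm f g ι F δ₀ C₀) (x : L) : ι (F.symm x) = f (ι x) := by
  have h := hL.eqf (F.symm x)
  rw [F.apply_symm_apply] at h
  rw [h, f.apply_symm_apply]

theorem iota_iter (hL : Lfm f g ι F δ₀ C₀) (m : ℕ) (x : L) : ι (F.symm^[m] x) = f^[m] (ι x) := by
  induction m generalizing x with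
  | zero => rfl
  | succ m ih => rw [iterate_succ_apply, iterate_succ_apply, ih, iota_symm hL]

end Leaf

end F4WALQAux

open F4WALQAux

/-- **Module WALQ.** -/
theorem specWalq (hXy : SpecXycc.{u}) (hGbx : SpecGbx.{u}) (hLeaf : SpecLeaf.{u})
    (hSysl : SpecSysl.{u}) (hStc : SpecStc.{u}) (hCnt : SpecCnt.{u}) (hCnl : SpecCnl.{u})
    (hStx : SpecStx.{u}) (hPth : SpecPth.{u}) (hCorl : SpecCorl.{u}) (hPerx : SpecPerx.{u})
    (hDbl : SpecDbl.{u}) : SpecWalq.{u} := by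
  intro M _ _ f g H u φ κ a b σ W A hA
  obtain ⟨ε, C, l, P⟩ := W.pair
  have hXYc : XYc f g := hXy M f g ε C l P W.cup W.cup'
  obtain ⟨A', n₀, hn₀, hAn, hGB, hAA', hdes, hper⟩ := hGbx M f g ε C l P A hA
  obtain ⟨K, hK⟩ := W.lip
  obtain ⟨C₁, ρ₀, e₁, hch⟩ := W.chart
  obtain ⟨κ', hκ, hκ'a, hnum⟩ := exists_defect W.κ_lt W.num
  obtain ⟨r₂, C₂, hr₂, hqc⟩ := W.qc κ' hκ
  have D := hDbl M f.symm g P.symm_left.comm
  have D' := hDbl M f g.symm P.symm_right.comm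
  have ha : 0 < a := W.κ_nonneg.trans_lt W.κ_lt
  -- the leaf metric
  obtain ⟨L, iL, ι, F, δ₀, C₀, hL⟩ := hLeaf M f g ε C l K P hXYc hK
  obtain ⟨e₃, he₃, hst⟩ := hStc M L f g ε C l ι F δ₀ C₀ P hL
  obtain ⟨e₂, he₂, hcnt⟩ := hCnt M f g H ε C l K u φ C₁ ρ₀ e₁ A A' n₀ P W.cup hK W.hh W.u_pos hch
    hA hn₀ hAn hdes hGB
  obtain ⟨e₄, he₄, hcnl⟩ := hCnl M L f g ι F δ₀ C₀ hL
  have hδ₀ := hL.pos
  obtain ⟨C', r, r₁, e, ρ, hee, hρρ, S⟩ := hSysl M L f g ε C l ι F δ₀ C₀ u φ C₁ ρ₀ e₁ a b κ' r₂ C₂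
    P hL W.u_pos hch ha W.b_pos (W.κ_nonneg.trans hκ.le) W.xdc W.ydc hr₂ hqc
    (min (min e₃ e₂) (min e₄ δ₀)) (lt_min (lt_min he₃ he₂) (lt_min he₄ hδ₀))
  have h3 : e ≤ e₃ := hee.trans ((min_le_left _ _).trans (min_le_left _ _))
  have h2 : e ≤ e₂ := hee.trans ((min_le_left _ _).trans (min_le_right _ _))
  have h4 : e ≤ e₄ := hee.trans ((min_le_right _ _).trans (min_le_left _ _))
  have h0 : e ≤ δ₀ := hee.trans ((min_le_right _ _).trans (min_le_right _ _))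
  have hC' : 1 ≤ C' := S.br.one_le
  -- the end: `Y`-leaves of periodic points
  refine hPerx M f.symm g.symm ε C l P.symm_both A hA fun p hp hpp y hy => ?_
  have hy' : Dbl f.symm g p y := hy
  refine hper p hp (periodic_of_symm hpp) y hy' ?_
  by_contra hyA
  -- invariance
  have hA'inv : ∀ x, x ∈ A' → f.symm x ∈ A' := by
    intro x hx
    rw [← hGB.inv] at hx
    obtain ⟨z, hz, rfl⟩ := hx
    rwa [f.symm_apply_apply]
  have hA'inv' : ∀ x, x ∈ A' → f x ∈ A' := fun x hx => hGB.inv ▸ mem_image_of_mem f hx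
  have hcf : ∀ x y, Dbl f.symm g (f x) (f y) ↔ Dbl f.symm g x y :=
    D.2.2.2.2.2.2.1 f (fun x => by rw [f.apply_symm_apply, f.symm_apply_apply])
      (fun x => P.comm x)
  have hUinv : ∀ x, f.symm x ∈ UY f g A' ↔ x ∈ UY f g A' := by
    intro x
    constructor
    · rintro ⟨z, hz, hxz⟩
      refine ⟨f z, hA'inv' z hz, ?_⟩
      have := (hcf (f.symm x) z).2 hxz
      rwa [f.apply_symm_apply] at this
    · rintro ⟨z, hz, hxz⟩
      refine ⟨f.symm z, hA'inv z hz, ?_⟩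
      refine (hcf (f.symm x) (f.symm z)).1 ?_
      rwa [f.apply_symm_apply, f.apply_symm_apply]
  refine hCorl F u (fun x s => ι.symm (φ (ι x) s)) C' a b κ' r r₁ e ρ σ (ι ⁻¹' A')
    (ι ⁻¹' UY f g A') S (hst e h3 A' hGB.closed) ?_ ?_ ?_ ?_ ?_ ?_ ?_ W.b_le hκ'a hnum
  · intro x hx z hz
    have h5 : Dbl f g.symm (ι x) (ι z) := ((hL.un e h0 x z).1 hz).2
    exact hGB.sat (ι x) hx (ι z) (D'.2.2.2.2.1 _ _ h5)
  · intro x hx
    exact ⟨ι x, hx, D.1 _⟩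
  · intro x
    show ι (F x) ∈ UY f g A' ↔ ι x ∈ UY f g A'
    rw [hL.eqf]
    exact hUinv (ι x)
  · rintro x z hz ⟨w, hw, hxw⟩
    have h5 : Dbl f.symm g (ι x) (ι z) := ((hL.st e h0 x z).1 hz).2
    exact ⟨w, hw, D.2.2.1 _ _ _ (D.2.1 _ _ h5) hxw⟩
  · intro η hη h16
    exact hcnl C' η (UY f g A') hC' hη (h16.trans h4) (hcnt C' η hC' hη (h16.trans h2))
  · intro d₀ hd₀
    obtain ⟨y₀, d, x₀, hd, hdd, hx₀, hnot, hball⟩ := hStx M f g ε C l u φ C₁ ρ₀ e₁ A' P hXYc hch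
      hGB p (hAA' hp) y hy' hyA d₀ hd₀
    refine ⟨ι.symm y₀, d, x₀, hd, hdd, hx₀, ?_, ?_⟩
    · show ¬ ι (ι.symm (φ (ι (ι.symm y₀)) x₀)) ∈ UY f g A'
      rw [ι.apply_symm_apply, ι.apply_symm_apply]
      exact hnot
    · intro x hx
      show ι (ι.symm (φ (ι (ι.symm y₀)) x)) ∈ UY f g A'
      rw [ι.apply_symm_apply, ι.apply_symm_apply]
      exact hball x hx
  · intro ε' hε' z hz
    obtain ⟨Λ, hΛ⟩ := hPth M f g ε C l σ A' P W.chn (W.b_pos.le.trans W.b_le) hGB.inv (ι z) hz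
      (min ε' δ₀) (lt_min hε' hδ₀)
    refine ⟨Λ, fun m => ?_⟩
    obtain ⟨N, q, hN, hq0, hqN, hq⟩ := hΛ m
    refine ⟨N, fun i => ι.symm (q i), hN, ?_, ?_, ?_⟩
    · show ι.symm (q 0) = F.symm^[m] z
      rw [hq0, ← iota_iter hL, ι.symm_apply_apply]
    · show ι (ι.symm (q N)) ∈ A'
      rwa [ι.apply_symm_apply]
    · intro i hi
      show ι.symm (q (i + 1)) ∈ Wl F ε' (ι.symm (q i))
      refine wl_mono F (min_le_left ε' δ₀) ((hL.st _ (min_le_right ε' δ₀) _ _).2 ?_)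
      rw [ι.apply_symm_apply, ι.apply_symm_apply]
      exact hq i hi

end Pool.Agent.Lib.MP610fe3.HR
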