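import Pool.Agent.Lib.MP_610fe3_an.HR.F4SSpec
import Pool.Agent.Lib.MP_610fe3_an.HR.F3SATP
import Pool.Agent.Lib.MP_610fe3_an.HR.F1NEAR

/-!
# Module WDX: the data of the wall lemma
-/

set_option autoImplicit false

open Set Filter Function
open scoped Topology

namespace Pool.Agent.Lib.MP610fe3.HR

open Cf CH CHNAux

universe u v w

namespace F4WDXAux

open F3SATPAux F1NEARAux

theorem cdc_mono {M : Type*} [MetricSpace M] {f g : M ≃ₜ M} {c c' : ℝ} (h : Cdc f g c)
    (hc : c' ≤ c) : Cdc f g c' := by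
  obtain ⟨δ, C, hδ, hC, H⟩ := h
  refine ⟨δ, C, hδ, hC, fun x z hz hz' m => (H x z hz hz' m).trans ?_⟩
  have h1 : -(c * m) ≤ -(c' * m) := by
    have : c' * (m : ℝ) ≤ c * m := mul_le_mul_of_nonneg_right hc (Nat.cast_nonneg m)
    linarith
  have h2 : Real.exp (-(c * m)) ≤ Real.exp (-(c' * m)) := Real.exp_le_exp.2 h1
  gcongr

/-- The rates near the wall, for any rate `c` on the leaves `C`. -/
theorem near (hNari : SpecNari.{w}) (hRaty : SpecRaty.{u, v, w})
    {M : Type u} {W : Type v} [MetricSpace M] [CompactSpace M]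
    [NormedAddCommGroup W] [InnerProductSpace ℝ W] [FiniteDimensional ℝ W] {E : Emb M W} {k : ℕ}
    {J : Type w} [Finite J] {A : (Fin k → ℤ) → M ≃ₜ M} {χ : J → Fin k → ℝ}
    {F : J → M → Submodule ℝ W} (H : Act1 E A χ F) {n n' : Fin k → ℤ} {i j : J}
    (h : Wal χ n n' i j) (hneg : ∀ n, A (-n) = (A n).symm) {s b s' b' η : ℝ}
    (hRi : Rt E A χ F i s b) (hRj : Rt E A χ F j s' b') (hη : 0 < η) (hηs : η < s)
    (hηs' : η < s') (hsb : s ≤ b) (hsb' : s' ≤ b') (c : ℝ) :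
    ∃ m : Fin k → ℤ, Wal χ m n' i j ∧ (∀ l, ev (χ l) m < 0 ↔ ev (χ l) n < 0) ∧
      -ev (χ i) m < -2 * ev (χ i) n ∧ -ev (χ j) (-m) < -2 * ev (χ j) (-n) ∧
      0 < -ev (χ i) m ∧ 0 < -ev (χ j) (-m) ∧
      Cdc (A m) (A n') c ∧ Cdc (A m) (A n').symm ((s - η) * -ev (χ i) m) ∧
      Xgr (A m) (A n') ((b + η) * -ev (χ i) m) ∧
      Cdc (A m).symm (A n').symm c ∧ Cdc (A m).symm (A n') ((s' - η) * -ev (χ j) (-m)) ∧
      Xgr (A m).symm (A n').symm ((b' + η) * -ev (χ j) (-m)) := by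
  have h1 : Wal χ (-n) (-n') j i := wal_neg h
  obtain ⟨q₀, hq₀⟩ := hNari k J χ n n' i j h
  obtain ⟨q₁, hq₁⟩ := hRaty M W E k J A χ F H n n' i j h s b η c hRi hη hηs hsb
  obtain ⟨q₂, hq₂⟩ := hRaty M W E k J A χ F H (-n) (-n') j i h1 s' b' η c hRj hη hηs' hsb'
  set q : ℕ := max q₀ (max q₁ q₂) with hq
  have hqa : q₀ ≤ q := le_max_left _ _
  have hqb : q₁ ≤ q := (le_max_left _ _).trans (le_max_right _ _)
  have hqc : q₂ ≤ q := (le_max_right _ _).trans (le_max_right _ _)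
  obtain ⟨p, hp1, hW, hsg, hreg, hlt⟩ := hq₀ q hqa
  obtain ⟨a1, a2, a3⟩ := hq₁ q hqb p hp1 hW hsg hlt
  have hnn : (p : ℤ) • (-n) + (q : ℤ) • (-n') = -((p : ℤ) • n + (q : ℤ) • n') := by
    rw [smul_neg, smul_neg, neg_add]
  have hB := hq₂ q hqc p hp1
  rw [hnn] at hB
  set m : Fin k → ℤ := (p : ℤ) • n + (q : ℤ) • n' with hm
  have hWm := wal_neg hW
  obtain ⟨t, ht, hχ⟩ := h.neg
  have hevj : ∀ x, ev (χ j) x = -(t * ev (χ i) x) := fun x => by rw [hχ, ev_neg_smul]
  have hnev : ∀ (l : J) (x : Fin k → ℤ), ev (χ l) (-x) = -ev (χ l) x := fun l x => ev_neg _ _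
  obtain ⟨b1, b2, b3⟩ := hB hWm (fun l => by
      rw [hnev, hnev]
      have e1 := h.reg l
      have e2 := hW.reg l
      constructor
      · intro a
        by_contra c
        have c1 : ev (χ l) n < 0 := lt_of_le_of_ne (by linarith) e1
        have := (hsg l).2 c1
        linarith
      · intro a
        by_contra c
        have c1 : ev (χ l) m < 0 := lt_of_le_of_ne (by linarith) e2
        have := (hsg l).1 c1
        linarith) (by
      have e : (2 : ℤ) • (-n) - -m = -((2 : ℤ) • n - m) := by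
        rw [smul_neg]
        abel
      rw [e, hnev, hevj]
      have := mul_neg_of_pos_of_neg ht hlt
      linarith)
  rw [hneg] at b1 b2 b3
  rw [hneg] at b1 b2 b3
  have hlt' : -ev (χ i) m < -2 * ev (χ i) n := by
    have e : ev (χ i) ((2 : ℤ) • n - m) = 2 * ev (χ i) n - ev (χ i) m := by
      simp only [ev, Pi.sub_apply, Pi.smul_apply, smul_eq_mul, Int.cast_sub, Int.cast_mul,
        Int.cast_ofNat, mul_sub, Finset.sum_sub_distrib, Finset.mul_sum]
      congr 1
      refine Finset.sum_congr rfl fun x _ => ?_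
      ring
    rw [e] at hlt
    linarith
  have hκ0 : 0 < -ev (χ i) m := by
    have := hW.lt
    linarith
  refine ⟨m, hW, hsg, hlt', ?_, hκ0, ?_, a1, a2, a3, b1, b2, b3⟩
  · rw [hnev, hnev, hevj, hevj]
    nlinarith [mul_lt_mul_of_pos_left hlt' ht]
  · rw [hnev, hevj]
    have := mul_pos ht hκ0
    linarith

end F4WDXAux

open F3SATPAux F1NEARAux F4WDXAux in
/-- **WDX.** -/
theorem specWdx (hNari : SpecNari.{w}) (hRaty : SpecRaty.{u, v, w}) (hNums : SpecNums)
    (hPair : SpecPair.{u, v}) (hActl : SpecActl.{u, v, w}) (hCux : SpecCux.{u, v})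
    (hXclf : SpecXclf.{u, v}) (hChx : SpecChx.{u, v}) (hQcx : SpecQcx.{u, v})
    (hSamo : SpecSamo.{u, v, w}) : SpecWdx.{u, v, w} := by
  intro M W _ _ _ _ _ _ E k J _ A χ F H n n' i j h u κ s b s' b' hu hP hrk hCf hRi hRj
  obtain ⟨hcomm, hzero, hneg, -⟩ := hActl M W E k J A χ F H
  obtain ⟨η, K, hη, hηs', hκη, hbK, hbK', hnum⟩ := hNums u κ s b s' b' hP
  obtain ⟨hκ0, hκs, hsb, hs0', hsb', -⟩ := hP
  have hηs : η < s := by linarith
  have hK0 : 0 < K := by linarith
  obtain ⟨T, hT, hTS, hTU⟩ := H.split n' h.reg'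
  obtain ⟨ε₁, C₁, l₁, hd₁⟩ := exists_dec T hT
  obtain ⟨ε₂, C₂, l₂, hd₂⟩ := exists_dec T.swap hT.swap
  set lg : ℝ := max l₁ l₂ with hlg
  have hlg0 : 0 < lg := lt_max_of_lt_left hd₁.l_pos
  have hlg1 : lg < 1 := max_lt hd₁.l_lt hd₂.l_lt
  have hδ : 0 < min ε₁ ε₂ := lt_min hd₁.ε_pos hd₂.ε_pos
  have decg : Dec (A n') (min ε₁ ε₂) (max C₁ C₂) lg :=
    hd₁.mono hδ (min_le_left _ _) (le_max_left _ _) (le_max_left _ _) hlg1
  have decg' : Dec (A n').symm (min ε₁ ε₂) (max C₁ C₂) lg :=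
    hd₂.mono hδ (min_le_right _ _) (le_max_right _ _) (le_max_right _ _) hlg1
  obtain ⟨L₁, hL₁1, hL₁⟩ := exists_lip_all T.hDi
  obtain ⟨L₂, hL₂1, hL₂⟩ := exists_lip_all T.hD
  set L : ℝ := max L₁ L₂ with hL
  have hL1 : 1 ≤ L := hL₁1.trans (le_max_left _ _)
  have hLg : ∀ x y, dist ((A n').symm x) ((A n').symm y) ≤ L * dist x y := fun x y =>
    (hL₁ x y).trans (mul_le_mul_of_nonneg_right (le_max_left _ _) dist_nonneg)
  have hLg' : ∀ x y, dist ((A n').symm.symm x) ((A n').symm.symm y) ≤ L * dist x y := fun x y =>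
    (hL₂ x y).trans (mul_le_mul_of_nonneg_right (le_max_right _ _) dist_nonneg)
  set B : ℝ := (b + η) * (-2 * ev (χ i) n) with hBd
  set B' : ℝ := (b' + η) * (-2 * ev (χ j) (-n)) with hBd'
  obtain ⟨t, ht, hχ⟩ := h.neg
  have hevj : ∀ x, ev (χ j) x = -(t * ev (χ i) x) := fun x => by rw [hχ, ev_neg_smul]
  have hnev : ∀ (l : J) (x : Fin k → ℤ), ev (χ l) (-x) = -ev (χ l) x := fun l x => ev_neg _ _
  have hi0 : 0 < -2 * ev (χ i) n := by
    have := h.lt
    linarith
  have hj0 : 0 < -2 * ev (χ j) (-n) := by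
    rw [hnev, hevj]
    have := mul_pos ht hi0
    linarith
  have hB0 : 0 < B := mul_pos (by linarith) hi0
  have hB0' : 0 < B' := mul_pos (by linarith) hj0
  have hlog : 0 < -Real.log lg := by
    have := Real.log_neg hlg0 hlg1
    linarith
  obtain ⟨Jn, hJn⟩ : ∃ Jn : ℕ, 2 * (B + B') < Jn * -Real.log lg := by
    obtain ⟨Jn, hJn⟩ := exists_nat_gt (2 * (B + B') / -Real.log lg)
    exact ⟨Jn, (div_lt_iff₀ hlog).1 hJn⟩
  set c₀ : ℝ := max (2 * (B + B') + 1) (max (Jn * (Real.log L - Real.log lg) + 1)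
    (max (K * (-2 * ev (χ i) n)) (K * (-2 * ev (χ j) (-n))))) with hc₀
  have hc1 : 2 * (B + B') < c₀ := lt_of_lt_of_le (by linarith) (le_max_left _ _)
  have hc2 : Jn * (Real.log L - Real.log lg) < c₀ := lt_of_lt_of_le (by linarith)
    ((le_max_left _ _).trans (le_max_right _ _))
  have hc4 : K * (-2 * ev (χ j) (-n)) ≤ c₀ :=
    (le_max_right _ _).trans ((le_max_right _ _).trans (le_max_right _ _))
  have hc0 : 0 < c₀ := by linarith
  obtain ⟨m, hW, hsg, hmi, hmj, hκi, hκj, a1, a2, a3, b1, b2, b3⟩ :=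
    near hNari hRaty H h hneg hRi hRj hη hηs hηs' hsb hsb' c₀
  set κi : ℝ := -ev (χ i) m with hκid
  set κj : ℝ := -ev (χ j) (-m) with hκjd
  obtain ⟨S, hS, hSS, hSU⟩ := H.split m hW.reg
  have hcm : ∀ x, A m (A n' x) = A n' (A m x) := hcomm m n'
  obtain ⟨ε, C, l, hPr⟩ := hPair M W E (A m) (A n') S T hS hT hcm
  obtain ⟨ε', C', l', hPr'⟩ := hPair M W E (A m).symm (A n').symm S.swap T.swap hS.swap hT.swap
    (fun x => by
      apply (A m).injective
      apply (A n').injective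
      rw [Homeomorph.apply_symm_apply, Homeomorph.apply_symm_apply, ← hcm,
        Homeomorph.apply_symm_apply, Homeomorph.apply_symm_apply])
  have hrng := (specRng M W E k J χ F (A m) (A n') S T m n' hS hT hcm hW.reg hW.reg'
    hSS hSU hTS hTU i j hW).1
  have hbi : (b + η) * κi ≤ B := mul_le_mul_of_nonneg_left hmi.le (by linarith)
  have hbj : (b' + η) * κj ≤ B' := mul_le_mul_of_nonneg_left hmj.le (by linarith)
  have hbi0 : 0 < (b + η) * κi := mul_pos (by linarith) hκi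
  have hbj0 : 0 < (b' + η) * κj := mul_pos (by linarith) hκj
  have hhalf : ∀ y : ℝ, 0 < y → y ≤ B + B' → y < (1 - y / c₀) * (Jn * -Real.log lg) := by
    intro y hy hyB
    have e1 : y / c₀ ≤ 1 / 2 := by
      rw [div_le_iff₀ hc0]
      linarith
    have e2 : (1 / 2 : ℝ) * (2 * (B + B')) < (1 - y / c₀) * (Jn * -Real.log lg) := by
      refine lt_of_lt_of_le (mul_lt_mul_of_pos_left hJn (by norm_num)) ?_
      refine mul_le_mul_of_nonneg_right (by linarith) ?_
      positivity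
    linarith
  have hdK : 0 < K - (b' + η) := by linarith
  have hσ1 : b' + η ≤ (b' + η) * K / (K - (b' + η)) := by
    rw [le_div_iff₀ hdK]
    have : 0 ≤ (b' + η) * (b' + η) := mul_self_nonneg _
    nlinarith
  have hCfm := hCf m hW.reg hW.lt
  have hcup : CUp (A m) (A n') := hCux M W E (A m) (A n') S ε C l c₀ ((b + η) * κi) L lg
    (min ε₁ ε₂) (max C₁ C₂) Jn hS hPr a1 a3 hbi0 (by linarith) decg decg' hL1 hLg
    (hhalf _ hbi0 (by linarith)) hc2
  have hcup' : CUp (A m).symm (A n').symm := hCux M W E (A m).symm (A n').symm S.swap ε' C' l' c₀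
    ((b' + η) * κj) L lg (min ε₁ ε₂) (max C₁ C₂) Jn hS.swap hPr' b1 b3 hbj0 (by linarith) decg'
    decg hL1 hLg' (hhalf _ hbj0 (by linarith)) hc2
  have hchn : Chn (A m) (A n') ((b' + η) * K / (K - (b' + η)) * κj) :=
    hXclf M W E (A m).symm (A n').symm S.swap ε' C' l' (K * κj) ((b' + η) * κj)
      ((b' + η) * K / (K - (b' + η)) * κj) hS.swap hPr'
      (cdc_mono b1 ((mul_le_mul_of_nonneg_left hmj.le hK0.le).trans hc4)) b3 hbj0
      (mul_lt_mul_of_pos_right hbK' hκj) (sigma_eq hbK')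
  obtain ⟨φ, Cc, ρ, e₁, hchart⟩ := hChx M W E (A m) (A n') S T u hS hT hcm
    (fun x => by rw [hrng x]; exact hrk x)
  obtain ⟨Lf₁, -, hLf₁⟩ := exists_lip_all S.hD
  obtain ⟨Lf₂, -, hLf₂⟩ := exists_lip_all S.hDi
  refine ⟨m, φ, κ * κi, (s - η) * κi, (s' - η) * κj, (b' + η) * K / (K - (b' + η)) * κj,
    hW.reg, hsg, ?_⟩
  exact {
    u_pos := hu
    pair := ⟨ε, C, l, hPr⟩
    cup := hcup
    cup' := hcup'
    lip := ⟨max Lf₁ Lf₂, fun x y =>
      ⟨(hLf₁ x y).trans (mul_le_mul_of_nonneg_right (le_max_left _ _) dist_nonneg),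
        (hLf₂ x y).trans (mul_le_mul_of_nonneg_right (le_max_right _ _) dist_nonneg)⟩⟩
    chart := ⟨Cc, ρ, e₁, hchart⟩
    κ_nonneg := mul_nonneg hκ0 hκi.le
    κ_lt := mul_lt_mul_of_pos_right hκη hκi
    b_pos := mul_pos (by linarith) hκj
    b_le := mul_le_mul_of_nonneg_right (by linarith) hκj.le
    num := by
      have e := mul_lt_mul_of_pos_right hnum (mul_pos hκi hκj)
      calc (u : ℝ) * (κ * κi) * (u * ((b' + η) * K / (K - (b' + η)) * κj) - (s' - η) * κj)
          = u * κ * (u * ((b' + η) * K / (K - (b' + η))) - (s' - η)) * (κi * κj) := by ring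
        _ < (s - η) * (s' - η) * (κi * κj) := e
        _ = (s - η) * κi * ((s' - η) * κj) := by ring
    xdc := a2
    ydc := b2
    qc := fun κ' hκ' => by
      obtain ⟨C₀, hC₀⟩ := hCfm S hS ((κ' - κ * κi) / 2) (by linarith)
      refine hQcx M W E (A m) (A n') S T C₀ (κ * κi + (κ' - κ * κi) / 2) κ' hS hT hcm
        (add_nonneg (mul_nonneg hκ0 hκi.le) (by linarith)) (by linarith) ?_
      intro r x v w hv hw
      refine hC₀ r x v ?_ w ?_
      · rw [← hrng x]
        exact ⟨v, hv⟩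
      · rw [← hrng x]
        exact ⟨w, hw⟩
    chn := hchn
    comm := by
      rintro _ ⟨r, rfl⟩ x
      exact hcomm r m x
    memf := ⟨m, rfl⟩
    memg := ⟨n', rfl⟩
    hh := by
      intro ϑ hϑ
      obtain ⟨r, hWr, hsgr, hri, -, hκr, -, d1, -, d3, -, -, -⟩ :=
        near hNari hRaty H h hneg hRi hRj hη hηs hηs' hsb hsb' (max 1 (B / ϑ))
      obtain ⟨R, hR, -, -⟩ := H.split r hWr.reg
      obtain ⟨εr, Cr, lr, hPrr⟩ := hPair M W E (A r) (A n') R T hR hT (hcomm r n')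
      have hsame : ∀ l, ev (χ l) m < 0 ↔ ev (χ l) r < 0 := fun l =>
        (hsg l).trans (hsgr l).symm
      have hregn : ∀ {x : Fin k → ℤ}, Regular χ x → Regular χ (-x) := fun {x} hx l => by
        rw [hnev]
        exact neg_ne_zero.2 (hx l)
      have hsame' : ∀ l, ev (χ l) (-r) < 0 ↔ ev (χ l) (-m) < 0 := by
        intro l
        rw [hnev, hnev]
        have e1 := hW.reg l
        have e2 := hWr.reg l
        constructor
        · intro a
          by_contra c
          have c1 : ev (χ l) m < 0 := lt_of_le_of_ne (by linarith) e1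
          have := (hsame l).1 c1
          linarith
        · intro a
          by_contra c
          have c1 : ev (χ l) r < 0 := lt_of_le_of_ne (by linarith) e2
          have := (hsame l).2 c1
          linarith
      have hs1 := (hSamo M W E k J A χ F H m r hW.reg hWr.reg hsame).1
      have hs2 := (hSamo M W E k J A χ F H (-r) (-m) (hregn hWr.reg) (hregn hW.reg) hsame').2
      rw [hneg, hneg] at hs2
      refine ⟨A r, ⟨r, rfl⟩, max 1 (B / ϑ), (b + η) * -ev (χ i) r, ?_, ?_⟩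
      · exact {
          comm := hcomm r m
          pair := ⟨εr, Cr, lr, hPrr⟩
          loc := hs1
          asu := hs2
          c_pos := lt_of_lt_of_le one_pos (le_max_left _ _)
          b_pos := mul_pos (by linarith) hκr
          cdc := d1
          xgr := d3 }
      · have e1 : (b + η) * -ev (χ i) r ≤ B := mul_le_mul_of_nonneg_left hri.le (by linarith)
        have e2 : ϑ * (B / ϑ) ≤ ϑ * max 1 (B / ϑ) :=
          mul_le_mul_of_nonneg_left (le_max_right _ _) hϑ.le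
        have e3 : ϑ * (B / ϑ) = B := by field_simp
        linarith }

end Pool.Agent.Lib.MP610fe3.HR
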