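import Pool.Agent.Lib.MP_610fe3_an.HR.F3Main
import Pool.Agent.Lib.MP_610fe3_an.T6.Cone
import Pool.Agent.Lib.MP_610fe3_an.T6.Path
import Pool.Agent.Lib.MP_610fe3_an.T6.PackS
import Pool.Agent.Lib.MP_610fe3_an.T6.PackT
import Pool.Agent.Lib.MP_610fe3_an.T6.Cut
import Pool.Agent.Lib.MP_610fe3_an.T6.Pl
import Pool.Agent.Lib.MP_610fe3_an.HR.F4ACTS
import Pool.Agent.Lib.MP_610fe3_an.HR.F4ADR
import Pool.Agent.Lib.MP_610fe3_an.HR.F4BDL
import Pool.Agent.Lib.MP_610fe3_an.HR.F4CFL
import Pool.Agent.Lib.MP_610fe3_an.HR.F4CFP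
import Pool.Agent.Lib.MP_610fe3_an.HR.F4CFZ
import Pool.Agent.Lib.MP_610fe3_an.HR.F4CHS
import Pool.Agent.Lib.MP_610fe3_an.HR.F4CHX
import Pool.Agent.Lib.MP_610fe3_an.HR.F4CMV
import Pool.Agent.Lib.MP_610fe3_an.HR.F4CNB
import Pool.Agent.Lib.MP_610fe3_an.HR.F4CNL
import Pool.Agent.Lib.MP_610fe3_an.HR.F4CNT
import Pool.Agent.Lib.MP_610fe3_an.HR.F4CORL
import Pool.Agent.Lib.MP_610fe3_an.HR.F4CRD
import Pool.Agent.Lib.MP_610fe3_an.HR.F4CSU
import Pool.Agent.Lib.MP_610fe3_an.HR.F4CUX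
import Pool.Agent.Lib.MP_610fe3_an.HR.F4DEFX
import Pool.Agent.Lib.MP_610fe3_an.HR.F4ENT
import Pool.Agent.Lib.MP_610fe3_an.HR.F4EXL
import Pool.Agent.Lib.MP_610fe3_an.HR.F4EYL
import Pool.Agent.Lib.MP_610fe3_an.HR.F4GBX
import Pool.Agent.Lib.MP_610fe3_an.HR.F4GRP
import Pool.Agent.Lib.MP_610fe3_an.HR.F4HOLL
import Pool.Agent.Lib.MP_610fe3_an.HR.F4INRL
import Pool.Agent.Lib.MP_610fe3_an.HR.F4LEAF
import Pool.Agent.Lib.MP_610fe3_an.HR.F4LEVL
import Pool.Agent.Lib.MP_610fe3_an.HR.F4LINE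
import Pool.Agent.Lib.MP_610fe3_an.HR.F4MAINS
import Pool.Agent.Lib.MP_610fe3_an.HR.F4MIX
import Pool.Agent.Lib.MP_610fe3_an.HR.F4NUMS
import Pool.Agent.Lib.MP_610fe3_an.HR.F4PTH
import Pool.Agent.Lib.MP_610fe3_an.HR.F4PTS
import Pool.Agent.Lib.MP_610fe3_an.HR.F4QCX
import Pool.Agent.Lib.MP_610fe3_an.HR.F4RATY
import Pool.Agent.Lib.MP_610fe3_an.HR.F4REL
import Pool.Agent.Lib.MP_610fe3_an.HR.F4RSW
import Pool.Agent.Lib.MP_610fe3_an.HR.F4SAMO
import Pool.Agent.Lib.MP_610fe3_an.HR.F4SATC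
import Pool.Agent.Lib.MP_610fe3_an.HR.F4SMV
import Pool.Agent.Lib.MP_610fe3_an.HR.F4STC
import Pool.Agent.Lib.MP_610fe3_an.HR.F4STX
import Pool.Agent.Lib.MP_610fe3_an.HR.F4SYSL
import Pool.Agent.Lib.MP_610fe3_an.HR.F4TRV
import Pool.Agent.Lib.MP_610fe3_an.HR.F4TRX
import Pool.Agent.Lib.MP_610fe3_an.HR.F4WALB
import Pool.Agent.Lib.MP_610fe3_an.HR.F4WALQ
import Pool.Agent.Lib.MP_610fe3_an.HR.F4WDX
import Pool.Agent.Lib.MP_610fe3_an.HR.F4XCLF
import Pool.Agent.Lib.MP_610fe3_an.HR.F4XYCC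

/-!
# Actions of `ℤ^k`: pairs with a conformal side; assembly of the modules
-/

set_option autoImplicit false

open Set Filter Function Bundle
open scoped Topology Manifold ContDiff

namespace Pool.Agent.Lib.MP610fe3.HR

open CH

universe u v w

theorem corl : SpecCorl.{u} :=
  specCorl (specInrl specBdl)
    (specEyl (T6.specPl (T6.specPath T6.specCone) T6.specPackS T6.specPackT T6.specCut) specHoll
      specBdl) specLevl

theorem cnt : SpecCnt.{u} :=
  specCnt specEnt specGrp specSmv (specCnb specMix specSmv specL31 (specCmv specExl))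
    (specPts specExl) specExl

theorem perx : SpecPerx.{u} := specPerx specDbl specProd specMin'

/-- The wall lemma, first half. -/
theorem walq : SpecWalq.{u} :=
  specWalq specXycc (specGbx specDbl specProd specBas specMin') specLeaf (specSysl specProd)
    (specStc specProd) cnt specCnl
    (specStx (specUop specDbl) (specUcl uc specProd) specBas specDbl) specPth corl perx specDbl

/-- The wall lemma, second half. -/
theorem walb : SpecWalb.{u} :=
  specWalb walq (specRel specDbl specProd specBas specMin') (specRsw specDbl)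

theorem wdx : SpecWdx.{u, v, w} :=
  specWdx (hNari := specNari) (hRaty := specRaty specRtcp specCrt specExpx) (hNums := specNums)
    (hPair := specPair) (hActl := specActl) (hCux := specCux specDefx)
    (hXclf := specXclf specXch) (hChx := specChx (specCsu specL31 specProd)) (hQcx := specQcx)
    (hSamo := specSamo specL31)

/-- The step at a wall for a pair with a conformal side. -/
theorem satc : SpecSatc.{u, v, w} :=
  specSatc wdx walq walb specTrx (specTrv gbex specProd perx specDbl) (specSamo specL31) specRng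

theorem cfp : SpecCfp.{u, 0, w} := by
  have kal : PR.SpecKal.{u, 0} :=
    PR.specKal PR.specForms PR.specRank PR.specChoice
      (PR.specScale (PR.specSimple_of PR.specGood PR.specDom PR.specPert PR.specCone))
  exact specCfp (specAdr kal) @PR.specHol specRng

theorem chs : SpecChs.{u, 0, w} :=
  specChs satc (specCfz (specCfl specRng) (specRtl specRng) specCrd specRng specDimc) satp
    (specRtl specRng) rtpa cfp specLine specActl specArithm (specChn1 specMin') specPair

end Pool.Agent.Lib.MP610fe3.HR
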