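import Pool.Agent.Lib.MP_610fe3_an.HR.F4SSpec
import Pool.Agent.Lib.MP_610fe3_an.HR.F3SATP
import Pool.Agent.Lib.MP_610fe3_an.HR.F3ACTL
import Pool.Agent.Lib.MP_610fe3_an.HR.PAIR

/-!
# Module SATC: the wall with a nearly conformal bundle, both sides
-/

set_option autoImplicit false

open Set Filter Function
open scoped Topology

namespace Pool.Agent.Lib.MP610fe3.HR

open Cf CH CHNAux F3SATPAux

universe u v w

namespace F4SATCAux

/-- A continuous linear map whose range has rank `0` is zero. -/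
theorem eq_zero_of_finrank {W : Type*} [NormedAddCommGroup W] [NormedSpace ℝ W]
    [FiniteDimensional ℝ W] (T : W →L[ℝ] W) (h : Module.finrank ℝ T.range = 0) : T = 0 := by
  have h1 : T.range = ⊥ := Submodule.finrank_eq_zero.1 h
  ext x
  have h2 : T x ∈ T.range := ⟨x, rfl⟩
  rw [h1] at h2
  simpa using h2

end F4SATCAux

open F4SATCAux in
/-- **SATC.** -/
theorem specSatc (hWdx : SpecWdx.{u, v, w}) (hWalq : SpecWalq.{u}) (hWalb : SpecWalb.{u})
    (hTrx : SpecTrx.{u, v}) (hTrv : SpecTrv.{u}) (_hSamo : SpecSamo.{u, v, w})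
    (hRng : SpecRng.{u, v, w}) : SpecSatc.{u, v, w} := by
  intro M W _ _ _ _ _ _ E k J _ A χ F H n n' i j h hc Z hZ
  obtain ⟨hcomm, hzero, hneg, hstep⟩ := specActl M W E k J A χ F H
  have hneg' : ∀ n, A (-n) = (A n).symm := hneg
  have h1 : Wal χ (-n) (-n') j i := wal_neg h
  rcases hc with ⟨u, κ, s, b, s', b', hnum, hrk, hcf, hr1, hr2⟩ |
    ⟨u, κ, s, b, s', b', hnum, hrk, hcf, hr1, hr2⟩
  · -- the bundle `j` is nearly conformal
    rcases Nat.eq_zero_or_pos u with hu | hu
    · subst hu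
      obtain ⟨S, hS, hSS, hSU⟩ := H.split (-n) h1.reg
      obtain ⟨T, hT, hTS, hTU⟩ := H.split (-n') h1.reg'
      have hR := (hRng M W E k J χ F (A (-n)) (A (-n')) S T (-n) (-n') hS hT (hcomm _ _) h1.reg
        h1.reg' hSS hSU hTS hTU j i h1).1
      have hz : ∀ x, PP S T.swap x = 0 := fun x => eq_zero_of_finrank _ (by
        rw [hR x]; exact hrk x)
      have htr := hTrx M W E (A (-n)) (A (-n')) S T hS hT (hcomm _ _) hz
      obtain ⟨ε, C, l, hP⟩ := specPair M W E (A (-n)) (A (-n')) S T hS hT (hcomm _ _)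
      have hfin := (hTrv M (A (-n)) (A (-n')) ε C l hP htr).1
      rw [hneg, hneg] at hfin
      exact hfin Z hZ
    · obtain ⟨n'', φ, κ', a, b₁, σ, hreg, hsg, hW⟩ :=
        hWdx M W E k J A χ F H (-n) (-n') j i h1 u κ s b s' b' hu hnum hrk hcf hr1 hr2
      have hfin := hWalq M (A n'') (A (-n')) (range A) u φ κ' a b₁ σ hW
      have hregm : Regular χ (-n'') := fun l => by
        rw [ev_neg]
        exact neg_ne_zero.2 (hreg l)
      have hst : Step χ n (-n'') := ⟨h.reg, hregm, Or.inl fun l hl => by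
        rw [ev_neg]
        have e1 : ¬ ev (χ l) (-n) < 0 := by
          rw [ev_neg]
          linarith
        have e2 : ¬ ev (χ l) n'' < 0 := fun hh => e1 ((hsg l).1 hh)
        have e3 := hreg l
        have e4 : 0 < ev (χ l) n'' := lt_of_le_of_ne (not_lt.1 e2) (Ne.symm e3)
        linarith⟩
      have hss := hstep n (-n'') hst
      have hmin := minimal_of hss.1 hss.2 hZ
      have e : (A (-n'')).symm = A n'' := by rw [← hneg, neg_neg]
      rw [e] at hmin
      have := hfin Z hmin
      rwa [hneg] at this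
  · -- the bundle `i` is nearly conformal
    rcases Nat.eq_zero_or_pos u with hu | hu
    · subst hu
      obtain ⟨S, hS, hSS, hSU⟩ := H.split n h.reg
      obtain ⟨T, hT, hTS, hTU⟩ := H.split n' h.reg'
      have hR := (hRng M W E k J χ F (A n) (A n') S T n n' hS hT (hcomm _ _) h.reg
        h.reg' hSS hSU hTS hTU i j h).1
      have hz : ∀ x, PP S T.swap x = 0 := fun x => eq_zero_of_finrank _ (by
        rw [hR x]; exact hrk x)
      have htr := hTrx M W E (A n) (A n') S T hS hT (hcomm _ _) hz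
      obtain ⟨ε, C, l, hP⟩ := specPair M W E (A n) (A n') S T hS hT (hcomm _ _)
      exact (hTrv M (A n) (A n') ε C l hP htr).2 Z hZ.1.2.2
    · obtain ⟨n'', φ, κ', a, b₁, σ, hreg, hsg, hW⟩ :=
        hWdx M W E k J A χ F H n n' i j h u κ s b s' b' hu hnum hrk hcf hr1 hr2
      have hfin := hWalb M (A n'').symm (A n').symm (range A) u φ κ' a b₁ σ (by
        rw [Homeomorph.symm_symm, Homeomorph.symm_symm]
        exact hW)
      have hst : Step χ n n'' := ⟨h.reg, hreg, Or.inl fun l hl => (hsg l).2 hl⟩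
      have hss := hstep n n'' hst
      exact hfin Z (minimal_of hss.1 hss.2 hZ)

end Pool.Agent.Lib.MP610fe3.HR
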