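import Pool.Agent.Lib.MP_610fe3_an.HR.F4Spec
import Pool.Agent.Lib.MP_610fe3_an.HR.F3RSpec

/-!
# Nearly conformal coarse bundles: statements of the modules (hive F4, part 2: the smooth part)

Paper proof: `/team-store/MP_610fe3_an_F4_h60.md`, Part C. A module `XXX` proves
`theorem specXxx (h : SpecYyy) .. : SpecXxx` in its own file `HR/F4XXX.lean` (namespace
`Pool.Agent.Lib.MP610fe3.HR`, auxiliary lemmas in the sub-namespace `F4XXXAux`).

Conventions as in `F4Spec`: `X` = leaves of `Dbl f g.symm`, tangent to the range of `PP s t.swap`.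
-/

set_option autoImplicit false

open Set Filter Function Bundle Metric
open scoped Topology Manifold ContDiff

namespace Pool.Agent.Lib.MP610fe3.HR

open Cf CH

universe u v w

/-! ### Definitions -/

/-- The numbers of a nearly conformal bundle of dimension `u`: `k` the defect of conformality,
`[s, b]` its rates, `[s', b']` the rates of the opposite bundle. -/
def Cnum (u : ℕ) (k s b s' b' : ℝ) : Prop :=
  0 ≤ k ∧ k < s ∧ s ≤ b ∧ 0 < s' ∧ s' ≤ b' ∧ u * k * (u * b' - s') < s * s'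

section Actions

variable {M : Type*} [MetricSpace M] {W : Type*} [NormedAddCommGroup W] [NormedSpace ℝ W]
  {k : ℕ} {J : Type*} (E : Emb M W) (A : (Fin k → ℤ) → M ≃ₜ M) (χ : J → Fin k → ℝ)
  (F : J → M → Submodule ℝ W)

/-- The defect of conformality of `A n` on the coarse bundle of `χ i` is at most `κ`. -/
def CfAt (i : J) (n : Fin k → ℤ) (κ : ℝ) : Prop :=
  ∀ S : Split E (A n), S.Hyperbolic → ∀ e : ℝ, 0 < e → ∃ C : ℝ, ∀ (m : ℕ) (x : M),
    ∀ v ∈ coarse χ F i x, ∀ w ∈ coarse χ F i x,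
    ‖iterD S.D (A n) m x v‖ * ‖w‖ ≤
      C * Real.exp ((κ + e) * m) * ‖iterD S.D (A n) m x w‖ * ‖v‖

/-- The same at the periodic points of `A n`. -/
def CfqAt (i : J) (n : Fin k → ℤ) (κ : ℝ) : Prop :=
  ∀ S : Split E (A n), S.Hyperbolic → ∀ p ∈ periodicPts (A n), ∀ e : ℝ, 0 < e → ∃ C : ℝ,
    ∀ (m : ℕ), ∀ v ∈ coarse χ F i p, ∀ w ∈ coarse χ F i p,
    ‖iterD S.D (A n) m p v‖ * ‖w‖ ≤
      C * Real.exp ((κ + e) * m) * ‖iterD S.D (A n) m p w‖ * ‖v‖

/-- The defect of conformality on the coarse bundle of `χ i` is at most `κ |χ i|`, at all regular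
elements. -/
def Cfr (i : J) (κ : ℝ) : Prop :=
  ∀ n, Regular χ n → ev (χ i) n < 0 → CfAt E A χ F i n (κ * -ev (χ i) n)

/-- The coarse bundle of `χ i` is nearly conformal (with respect to that of `χ j`), at all regular
elements. -/
def Cfw (i j : J) : Prop :=
  ∃ (u : ℕ) (κ s b s' b' : ℝ), Cnum u κ s b s' b' ∧
    (∀ x, Module.finrank ℝ (coarse χ F i x) = u) ∧ Cfr E A χ F i κ ∧ Rt E A χ F i s b ∧
    Rt E A χ F j s' b'

/-- The same at one regular element for `χ i` and at one regular element for `χ j`. -/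
def Cfa (i j : J) : Prop :=
  ∃ (n n' : Fin k → ℤ) (u : ℕ) (κ s b s' b' : ℝ), Regular χ n ∧ ev (χ i) n < 0 ∧
    Regular χ n' ∧ ev (χ j) n' < 0 ∧ Cnum u κ s b s' b' ∧
    (∀ x, Module.finrank ℝ (coarse χ F i x) = u) ∧ CfAt E A χ F i n κ ∧
    RtAt E A χ F i n s b ∧ RtAt E A χ F j n' s' b'

/-- The same at the periodic points. -/
def Cfaq (i j : J) : Prop :=
  ∃ (n n' : Fin k → ℤ) (u : ℕ) (κ s b s' b' : ℝ), Regular χ n ∧ ev (χ i) n < 0 ∧
    Regular χ n' ∧ ev (χ j) n' < 0 ∧ Cnum u κ s b s' b' ∧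
    (∀ x, Module.finrank ℝ (coarse χ F i x) = u) ∧ CfqAt E A χ F i n κ ∧
    RtqAt E A χ F i n s b ∧ RtqAt E A χ F j n' s' b'

/-- The coarse bundle of `χ i` is asymptotically conformal at one regular element. -/
def Cfz (i : J) : Prop := ∃ n : Fin k → ℤ, Regular χ n ∧ ev (χ i) n < 0 ∧ CfAt E A χ F i n 0

/-- The same at the periodic points. -/
def Cfzq (i : J) : Prop := ∃ n : Fin k → ℤ, Regular χ n ∧ ev (χ i) n < 0 ∧ CfqAt E A χ F i n 0

/-- The pair `i`, `j` is pinched, at one regular element for each. -/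
def Pra (i j : J) : Prop :=
  ∃ (n n' : Fin k → ℤ) (s b s' b' : ℝ), Regular χ n ∧ ev (χ i) n < 0 ∧ Regular χ n' ∧
    ev (χ j) n' < 0 ∧ Pinch s b s' b' ∧ RtAt E A χ F i n s b ∧ RtAt E A χ F j n' s' b'

/-- The same at the periodic points. -/
def Praq (i j : J) : Prop :=
  ∃ (n n' : Fin k → ℤ) (s b s' b' : ℝ), Regular χ n ∧ ev (χ i) n < 0 ∧ Regular χ n' ∧
    ev (χ j) n' < 0 ∧ Pinch s b s' b' ∧ RtqAt E A χ F i n s b ∧ RtqAt E A χ F j n' s' b'

end Actions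

/-! ### Numbers -/

/-- NUMS. Continuity at `η = 0`, `K = 1 / η`. -/
def SpecNums : Prop :=
  ∀ (u : ℕ) (k s b s' b' : ℝ), Cnum u k s b s' b' → ∃ η K : ℝ, 0 < η ∧ η < s' ∧ k < s - η ∧
    b + η < K ∧ b' + η < K ∧
    u * k * (u * ((b' + η) * K / (K - (b' + η))) - (s' - η)) < (s - η) * (s' - η)

/-! ### Joint integrability near the wall, in all dimensions (paper C.1) -/

/-- DEFX. `F1DEFC.lean` with `Xgr` instead of GRX and `Cdc` instead of `cdec`. At the time `-m`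
(`Xgr`; the unstable sides are contracted) `f^-m y' ∈ Wl f η (f^-m x')`, L31 gives `v'` with
`Dbl f g (f^-m x') v'`, `Dbl f g.symm v' (f^-m y')`, so `v' = f^-m v` (PROD, second part, DBL), and
`Cdc` gives the estimate. -/
def SpecDefx : Prop :=
  ∀ (M : Type u) [MetricSpace M] [CompactSpace M] (f g : M ≃ₜ M) (ε C l c b : ℝ),
    Pair f g ε C l → Cdc f g c → Xgr f g b → 0 < b → ∃ e C₂ : ℝ, 0 < e ∧ 0 < C₂ ∧
      ∀ (m : ℕ) x y x' y' v, y ∈ Lf f g.symm e x → C₂ * Real.exp (b * m) * dist y x ≤ e →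
        x' ∈ Wl f.symm e x → y' ∈ Wl f.symm e y → y' ∈ Wl f e x' → Dbl f g x' v →
        Dbl f g.symm v y' → dist v x' ≤ C₂ * Real.exp (-(c * m))

/-- CUX. As `F1CU.lean`, with the chains of XCH instead of the curve of LIP. From L31, XCH, DEFX, HOLC,
PROD, DBL. Let `q_0 = a`, .., `q_K = z` be the chain of XCH for a small `ρ` (`K ≤ Λ / ρ`, steps at most
`Λ ρ ^ (1 - b / c)`), `m` the largest with `C₂ exp (b m) Λ ρ ^ (1 - b / c) ≤ e`, `z'_i` the brackets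
`Wl f.symm η (q_i) ∩ Wl f η z'` (`z'_K = z'`, `z'_0 = q`), `φ_i` the point with `Dbl f g z' φ_i`,
`Dbl f g.symm φ_i z'_i` (L31). DEFX: the point `v` with `Dbl f g z'_i v`, `Dbl f g.symm v z'_(i+1)` has
`dist v z'_i ≤ C₂ exp (-(c m))`; HOLC with `n = J * m`: `dist φ_i φ_(i+1) ≤ C lg ^ (J m)`. The sum is at
most `C ρ⁻¹ ρ ^ ((1 - b / c) J (-log lg) / b)`, which tends to `0`. -/
def SpecCux : Prop :=
  ∀ (M : Type u) (W : Type v) [MetricSpace M] [CompactSpace M] [ConnectedSpace M]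
    [NormedAddCommGroup W] [InnerProductSpace ℝ W] [FiniteDimensional ℝ W] (E : Emb M W)
    (f g : M ≃ₜ M) (s : Split E f) (ε C l c b L lg δ C₁ : ℝ) (J : ℕ), s.Hyperbolic →
    Pair f g ε C l → Cdc f g c → Xgr f g b → 0 < b → b < c → Dec g δ C₁ lg →
    Dec g.symm δ C₁ lg → 1 ≤ L → (∀ x y, dist (g.symm x) (g.symm y) ≤ L * dist x y) →
    b < (1 - b / c) * (J * -Real.log lg) → J * (Real.log L - Real.log lg) < c → CUp f g

/-- XCLF. `F3XCNT.lean` with the links in the leaves (the links of XCH are in `Lf f g.symm`, and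
`Dbl` is invariant). -/
def SpecXclf : Prop :=
  ∀ (M : Type u) (W : Type v) [MetricSpace M] [CompactSpace M] [ConnectedSpace M]
    [NormedAddCommGroup W] [InnerProductSpace ℝ W] [FiniteDimensional ℝ W] (E : Emb M W)
    (f g : M ≃ₜ M) (s : Split E f) (ε C l c b σ : ℝ), s.Hyperbolic → Pair f g ε C l →
    Cdc f g c → Xgr f g b → 0 < b → b < c → b * c ≤ σ * (c - b) → Chn f.symm g.symm σ

/-! ### Charts, quasiconformality (paper C.3, C.4) -/

/-- CSU. The projection of a small leaf `X` to its tangent space is onto a ball. Use `Cf.specCrd`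
(`Cf/Crd.lean`): for `a` in the range of `PP s t.swap x`, `‖a‖ ≤ ρ` (then `s.S x a = a`), let
`w_a ∈ Wl f ε₁ x` be the point with `s.S x (w_a - x) = a` (`Crd.surj`, continuous in `a` by `Crd.lower`),
`c a` the point with `Dbl f g w_a (c a)`, `Dbl f g.symm (c a) x`, close to both (L31); `c` is continuous
(uniqueness, PROD second part, and closed graph, PROD fifth part; or: it is the bracket for `g` of
`w_a` and `x`). Let `Q = PP s t.swap`: `Q x (w_a - x) = a`, and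
`‖Q x (c a - w_a)‖ ≤ η ‖c a - w_a‖ ≤ C η ‖a‖` (cone estimate `F1CRTAux.cone2` for `PP s t` at `w_a`,
continuity, `PP s t.swap ∘ PP s t = 0`; `dist (c a) w_a ≤ C * dist w_a x` by `Br.left`). So
`‖Q x (c a - x) - a‖ ≤ ‖a‖ / 2` for small `ρ`, and Brouwer
(`Pool/Agent/Lib/MP_43832e_gt/Brouwer.lean`) for `a ↦ a - Q x (c a - x) + v` on the ball of radius `ρ` of
the range gives all `v` with `‖v‖ ≤ ρ / 2`. -/
def SpecCsu : Prop :=
  ∀ (M : Type u) (W : Type v) [MetricSpace M] [CompactSpace M] [ConnectedSpace M]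
    [NormedAddCommGroup W] [InnerProductSpace ℝ W] [FiniteDimensional ℝ W] (E : Emb M W)
    (f g : M ≃ₜ M) (s : Split E f) (t : Split E g), s.Hyperbolic → t.Hyperbolic →
    (∀ x, f (g x) = g (f x)) → ∀ ε' : ℝ, 0 < ε' → ∃ ρ : ℝ, 0 < ρ ∧ ∀ x v,
      PP s t.swap x v = v → ‖v‖ ≤ ρ →
      ∃ z ∈ Lf f g.symm ε' x, PP s t.swap x (E.e z - E.e x) = v

/-- CHX. The charts. From CSU and the cone estimate (`F1CRTAux.cone2`): on a small leaf
`Lf f g.symm e x` the map `z ↦ PP s t.swap x (z - x)` is biLipschitz (at `z'`, `z` in the leaf: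
`z - z'` is tangent to `PP s t.swap z'` up to `η`, and `PP s t.swap` is uniformly continuous). Compose
with linear isometries of `EuclideanSpace ℝ (Fin u)` onto the ranges. -/
def SpecChx : Prop :=
  ∀ (M : Type u) (W : Type v) [MetricSpace M] [CompactSpace M] [ConnectedSpace M]
    [NormedAddCommGroup W] [InnerProductSpace ℝ W] [FiniteDimensional ℝ W] (E : Emb M W)
    (f g : M ≃ₜ M) (s : Split E f) (t : Split E g) (u : ℕ), s.Hyperbolic → t.Hyperbolic →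
    (∀ x, f (g x) = g (f x)) → (∀ x, Module.finrank ℝ (PP s t.swap x).range = u) →
    ∃ (φ : M → EuclideanSpace ℝ (Fin u) → M) (C ρ e₁ : ℝ), ChX f g u φ C ρ e₁

/-- QCX. `T6/Qc.lean` for `s.swap` there, with `PP s t.swap` instead of `s.U` (`block`: cone estimate
`F1CRTAux.cone2`, continuity of `PP s t.swap`, commutation with the derivatives). -/
def SpecQcx : Prop :=
  ∀ (M : Type u) (W : Type v) [MetricSpace M] [CompactSpace M] [NormedAddCommGroup W]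
    [InnerProductSpace ℝ W] [FiniteDimensional ℝ W] (E : Emb M W) (f g : M ≃ₜ M)
    (s : Split E f) (t : Split E g) (C₀ κ κ' : ℝ), s.Hyperbolic → t.Hyperbolic →
    (∀ x, f (g x) = g (f x)) → 0 ≤ κ → κ < κ' →
    (∀ (n : ℕ) (x : M) (v w : W), PP s t.swap x v = v → PP s t.swap x w = w →
      ‖iterD s.D f n x v‖ * ‖w‖ ≤ C₀ * Real.exp (κ * n) * ‖iterD s.D f n x w‖ * ‖v‖) →
    ∃ r C : ℝ, 0 < r ∧ Qcl f g r C κ'

/-- TRX. If the bundle is zero then the leaves `X` are points: for large `n` the points `f^n x`, `f^n y`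
are in a small `Lf f g.symm` of each other, and the cone estimate gives that they are equal. -/
def SpecTrx : Prop :=
  ∀ (M : Type u) (W : Type v) [MetricSpace M] [CompactSpace M] [NormedAddCommGroup W]
    [InnerProductSpace ℝ W] [FiniteDimensional ℝ W] (E : Emb M W) (f g : M ≃ₜ M)
    (s : Split E f) (t : Split E g), s.Hyperbolic → t.Hyperbolic → (∀ x, f (g x) = g (f x)) →
    (∀ x, PP s t.swap x = 0) → ∀ x y, Dbl f g.symm x y → x = y

/-! ### Actions (paper C.2, C.4, C.5) -/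

/-- SAMO. Elements of the same chamber. From `F2SAMDAux.wl_of_wl` (splittings of class `C^1`); for the
second part: `f^N y ∈ Wl f δ (f^N x)` for large `N`, so `f^N y ∈ Wl h ε' (f^N x)`, `Dec` for `h`, and
apply `f^-N`. -/
def SpecSamo : Prop :=
  ∀ (M : Type u) (W : Type v) [MetricSpace M] [CompactSpace M] [NormedAddCommGroup W]
    [InnerProductSpace ℝ W] [FiniteDimensional ℝ W] (E : Emb M W) (k : ℕ) (J : Type w) [Finite J]
    (A : (Fin k → ℤ) → M ≃ₜ M) (χ : J → Fin k → ℝ) (F : J → M → Submodule ℝ W), Act1 E A χ F →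
    ∀ n₁ n₂ : Fin k → ℤ, Regular χ n₁ → Regular χ n₂ →
      (∀ l, ev (χ l) n₁ < 0 ↔ ev (χ l) n₂ < 0) →
      (∀ ε' : ℝ, 0 < ε' → ∃ δ : ℝ, 0 < δ ∧ ∀ x y, y ∈ Wl (A n₁) δ x → y ∈ Wl (A n₂) ε' x) ∧
      ∀ x y, FwdAsymp (A n₁) x y → FwdAsymp (A n₂) x y

/-- RATY. As RATX (`F3RATX.lean`), with an arbitrary rate `c₀` on the leaves `C` (RTCP gives
`l ^ (p + q)`), and the contraction of the leaves `X`: CRT for `(A n'', (A n').symm)`, `S`, `t.swap`,
with the first bound of `Rt` (`e = η κ / 2`); `Dbl` is not needed, `Cdc f g.symm` speaks of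
`Wl f δ ∩ Wl g.symm δ`. -/
def SpecRaty : Prop :=
  ∀ (M : Type u) (W : Type v) [MetricSpace M] [CompactSpace M] [NormedAddCommGroup W]
    [InnerProductSpace ℝ W] [FiniteDimensional ℝ W] (E : Emb M W) (k : ℕ) (J : Type w) [Finite J]
    (A : (Fin k → ℤ) → M ≃ₜ M) (χ : J → Fin k → ℝ) (F : J → M → Submodule ℝ W), Act1 E A χ F →
    ∀ (n n' : Fin k → ℤ) (i j : J), Wal χ n n' i j → ∀ s b η c₀ : ℝ, Rt E A χ F i s b → 0 < η →
      η < s → s ≤ b → ∃ q₀ : ℕ, ∀ q : ℕ, q₀ ≤ q → ∀ p : ℕ, 1 ≤ p →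
        Wal χ ((p : ℤ) • n + (q : ℤ) • n') n' i j →
        (∀ l, ev (χ l) ((p : ℤ) • n + (q : ℤ) • n') < 0 ↔ ev (χ l) n < 0) →
        ev (χ i) ((2 : ℤ) • n - ((p : ℤ) • n + (q : ℤ) • n')) < 0 →
        Cdc (A ((p : ℤ) • n + (q : ℤ) • n')) (A n') c₀ ∧
        Cdc (A ((p : ℤ) • n + (q : ℤ) • n')) (A n').symm
          ((s - η) * -ev (χ i) ((p : ℤ) • n + (q : ℤ) • n')) ∧
        Xgr (A ((p : ℤ) • n + (q : ℤ) • n')) (A n')
          ((b + η) * -ev (χ i) ((p : ℤ) • n + (q : ℤ) • n'))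

/-- CRD. Crude rates of one element: `s = -log l` from the hyperbolicity (the coarse bundle is in the
stable bundle), `b` from the norm of the derivative of the inverse. -/
def SpecCrd : Prop :=
  ∀ (M : Type u) (W : Type v) [MetricSpace M] [CompactSpace M] [NormedAddCommGroup W]
    [InnerProductSpace ℝ W] [FiniteDimensional ℝ W] (E : Emb M W) (k : ℕ) (J : Type w) [Finite J]
    (A : (Fin k → ℤ) → M ≃ₜ M) (χ : J → Fin k → ℝ) (F : J → M → Submodule ℝ W), Act1 E A χ F →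
    ∀ (i : J) (n : Fin k → ℤ), Regular χ n → ev (χ i) n < 0 →
      ∃ s b : ℝ, 0 < s ∧ s ≤ b ∧ RtAt E A χ F i n s b

/-- CFL. As RTL (`F3RTL.lean`): `A (a n) = A h ∘ A (p n₁)`, `h = a n - p n₁` regular with
`ev (χ i) h < 0`, `p / a < r = ev (χ i) n / ev (χ i) n₁` close to `r`; the distortion of `A h` on the
coarse bundle is at most `exp ((b - s) |ev (χ i) h| m + ..)`, by `Rt`, and `|ev (χ i) h| / a` is small. -/
def SpecCfl : Prop :=
  ∀ (M : Type u) (W : Type v) [MetricSpace M] [CompactSpace M] [NormedAddCommGroup W]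
    [InnerProductSpace ℝ W] [FiniteDimensional ℝ W] (E : Emb M W) (k : ℕ) (J : Type w) [Finite J]
    (A : (Fin k → ℤ) → M ≃ₜ M) (χ : J → Fin k → ℝ) (F : J → M → Submodule ℝ W), Act1 E A χ F →
    ∀ (n₀ n' : Fin k → ℤ) (i j : J), Wal χ n₀ n' i j → ∀ n₁, Regular χ n₁ → ev (χ i) n₁ < 0 →
      ∀ κ s b : ℝ, 0 ≤ κ → Rt E A χ F i s b → CfAt E A χ F i n₁ κ →
        Cfr E A χ F i (κ / -ev (χ i) n₁)

/-- CFZ. At a wall. Second part: CFL, RTL (for `i` with the wall, for `j` with `Wal.symm`), `Cnum` is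
homogeneous in `(κ, s, b)` and in `(s', b')`. First part: CRD for `i` and for `j` (a regular element
with `ev (χ j) < 0` is `n'`), `κ = 0`, and the rank of the coarse bundle is constant (RNG, DIMC). -/
def SpecCfz : Prop :=
  ∀ (M : Type u) (W : Type v) [MetricSpace M] [CompactSpace M] [ConnectedSpace M]
    [NormedAddCommGroup W] [InnerProductSpace ℝ W] [FiniteDimensional ℝ W] (E : Emb M W) (k : ℕ)
    (J : Type w) [Finite J] (A : (Fin k → ℤ) → M ≃ₜ M) (χ : J → Fin k → ℝ)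
    (F : J → M → Submodule ℝ W), Act1 E A χ F → ∀ (n n' : Fin k → ℤ) (i j : J),
    Wal χ n n' i j → (Cfz E A χ F i → Cfw E A χ F i j) ∧ (Cfa E A χ F i j → Cfw E A χ F i j)

/-- ADR. `PR.SpecAd` (`PR/AD.lean`) for an invariant field `R` of projections instead of `S.U`. -/
def SpecAdr : Prop :=
  ∀ {M : Type u} [MetricSpace M] [CompactSpace M] {W : Type v} [NormedAddCommGroup W]
    [InnerProductSpace ℝ W] [FiniteDimensional ℝ W] {J : Emb M W} {f : M ≃ₜ M} (S : Split J f),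
    S.Hyperbolic → ∀ (R : M → W →L[ℝ] W) (K C β : ℝ), (∀ x, R x ∘L R x = R x) →
      (∀ x, J.P x ∘L R x = R x) → (∀ x, R x ∘L J.P x = R x) →
      (∀ x, S.D x ∘L R x = R (f x) ∘L S.D x) → (∀ x, ‖R x‖ ≤ K) → 0 < β → β ≤ 1 → (∀ x y, ‖S.D x - S.D y‖ ≤ C * dist x y ^ β) →
      (∀ x y, ‖S.Di x - S.Di y‖ ≤ C * dist x y ^ β) →
      (∀ x y, ‖R x - R y‖ ≤ C * dist x y ^ β) → (∀ x y, dist (f x) (f y) ≤ C * dist x y) →
      ∀ κ : ℝ, (∀ (p : M) (q : ℕ), 0 < q → f^[q] p = p → ∀ ε : ℝ, 0 < ε → ∃ C' : ℝ,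
        ∀ (n : ℕ) (v w : W), ‖iterD S.D f n p (R p v)‖ * ‖R p w‖ ≤
          C' * Real.exp ((κ + ε) * n) * ‖iterD S.D f n p (R p w)‖ * ‖R p v‖) →
      ∀ ε : ℝ, 0 < ε → ∃ C' : ℝ, ∀ (n : ℕ) (x : M) (v w : W),
        ‖iterD S.D f n x (R x v)‖ * ‖R x w‖ ≤
          C' * Real.exp ((κ + ε) * n) * ‖iterD S.D f n x (R x w)‖ * ‖R x v‖

/-- CFP. From the periodic points to all points: as RTPA (`F3RTPA.lean`, `F3RTP.lean`) with ADR instead
of RAT. -/
def SpecCfp : Prop :=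
  ∀ (M : Type u) (W : Type v) [MetricSpace M] [CompactSpace M] [NormedAddCommGroup W]
    [InnerProductSpace ℝ W] [FiniteDimensional ℝ W] (E : Emb M W) (k : ℕ) (J : Type w) [Finite J]
    (A : (Fin k → ℤ) → M ≃ₜ M) (χ : J → Fin k → ℝ) (F : J → M → Submodule ℝ W), Act E A χ F →
    ∀ (n₀ n' : Fin k → ℤ) (i j : J), Wal χ n₀ n' i j → ∀ n, Regular χ n → ∀ κ : ℝ,
      CfqAt E A χ F i n κ → CfAt E A χ F i n κ

/-- LINE. Lines are conformal. -/
def SpecLine : Prop :=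
  ∀ (M : Type u) (W : Type v) [MetricSpace M] [CompactSpace M] [NormedAddCommGroup W]
    [InnerProductSpace ℝ W] [FiniteDimensional ℝ W] (E : Emb M W) (k : ℕ) (J : Type w) [Finite J]
    (A : (Fin k → ℤ) → M ≃ₜ M) (χ : J → Fin k → ℝ) (F : J → M → Submodule ℝ W) (i : J)
    (n : Fin k → ℤ), (∀ x, Module.finrank ℝ (coarse χ F i x) = 1) → CfAt E A χ F i n 0

/-- WDX. The data of the wall lemma at a wall whose bundle `i` is nearly conformal. From NARI, RATY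
(for `n`, `n'`, `i`, `j` and for `-n`, `-n'`, `j`, `i`, with the same `p`, `q`, as in SATP), NUMS, PAIR,
RNG, CUX (twice), XCLF (for `(A n'').symm`, `(A n').symm`), CHX, QCX, SAMO. With `η`, `K` from NUMS,
`B = (b + η) (-2 ev (χ i) n)` and `B'` (for `j`), `g = A n'` (`Dec` from `Cf.exists_dec`, Lipschitz
constant `L` from `HasD.exists_lip`, fixed before `q`): `J` with `J (-log lg) > 2 (B + B')`,
`c₀ > 2 (B + B')`, `c₀ > J (log L - log lg)` and the same for `g.symm`,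
`c₀ ≥ K (-2 ev (χ i) n)`, `c₀ ≥ K (-2 ev (χ j) (-n))`. Then with `κᵢ = -ev (χ i) n''`,
`κⱼ = -ev (χ j) (-n'')`: `κ = k κᵢ`, `a = (s - η) κᵢ`, `b = (s' - η) κⱼ`,
`σ = (b' + η) K / (K - (b' + η)) * κⱼ` (homogeneous inequality). `Hh`: for `ϑ` another `q` with a larger
`c₀` (NARI, RATY again), and `b ≤ B ≤ ϑ c₀`. -/
def SpecWdx : Prop :=
  ∀ (M : Type u) (W : Type v) [MetricSpace M] [CompactSpace M] [ConnectedSpace M]
    [NormedAddCommGroup W] [InnerProductSpace ℝ W] [FiniteDimensional ℝ W] (E : Emb M W) (k : ℕ)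
    (J : Type w) [Finite J] (A : (Fin k → ℤ) → M ≃ₜ M) (χ : J → Fin k → ℝ)
    (F : J → M → Submodule ℝ W), Act1 E A χ F → ∀ (n n' : Fin k → ℤ) (i j : J),
    Wal χ n n' i j → ∀ (u : ℕ) (κ s b s' b' : ℝ), 1 ≤ u → Cnum u κ s b s' b' →
    (∀ x, Module.finrank ℝ (coarse χ F i x) = u) → Cfr E A χ F i κ → Rt E A χ F i s b →
    Rt E A χ F j s' b' → ∃ (n'' : Fin k → ℤ) (φ : M → EuclideanSpace ℝ (Fin u) → M)
      (κ' a b₁ σ : ℝ), Regular χ n'' ∧ (∀ l, ev (χ l) n'' < 0 ↔ ev (χ l) n < 0) ∧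
      Wd (A n'') (A n') (range A) u φ κ' a b₁ σ

/-- SATC. The wall, both cases. First part (`j` nearly conformal): WDX for `Wal χ (-n) (-n') j i` and
WALQ (`F3SATPAux.wal_neg`; `Sset` and `Sat` are the same for elements of one chamber, SAMO). Second part
(`i` nearly conformal): WDX for `Wal χ n n' i j` and WALB for `(A n'').symm`, `(A n').symm`. If `u = 0`:
TRX, TRV, RNG. -/
def SpecSatc : Prop :=
  ∀ (M : Type u) (W : Type v) [MetricSpace M] [CompactSpace M] [ConnectedSpace M]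
    [NormedAddCommGroup W] [InnerProductSpace ℝ W] [FiniteDimensional ℝ W] (E : Emb M W) (k : ℕ)
    (J : Type w) [Finite J] (A : (Fin k → ℤ) → M ≃ₜ M) (χ : J → Fin k → ℝ)
    (F : J → M → Submodule ℝ W), Act1 E A χ F → ∀ (n n' : Fin k → ℤ) (i j : J),
    Wal χ n n' i j → Cfw E A χ F j i ∨ Cfw E A χ F i j →
    ∀ K, Minimal (· ∈ Sset (A n).symm) K → Sat (A n').symm K

/-- CHS. The abstract theorem, as CHR (`F3CHR.lean`, `top_of_walls`): at the wall `Wal χ n n' i j` the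
hypothesis for `j`, `i`, then RTL and SATP, or CFZ (with the wall for `i`, with `Wal.symm` for `j`) and
SATC; RTPA, CFP for the periodic data; LINE for the lines (the wall gives the regular element). -/
def SpecChs : Prop :=
  ∀ (M : Type u) (W : Type v) [MetricSpace M] [CompactSpace M] [ConnectedSpace M]
    [NormedAddCommGroup W] [InnerProductSpace ℝ W] [FiniteDimensional ℝ W] (E : Emb M W) (k : ℕ)
    (J : Type w) [Finite J] (A : (Fin k → ℤ) → M ≃ₜ M) (χ : J → Fin k → ℝ)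
    (F : J → M → Submodule ℝ W), Act1 E A χ F →
    (∀ i j, ∀ t : ℝ, 0 < t → χ i = -(t • χ j) →
      (Pra E A χ F i j ∨ Cfz E A χ F i ∨ Cfz E A χ F j ∨ Cfa E A χ F i j ∨ Cfa E A χ F j i ∨
        (∀ x, Module.finrank ℝ (coarse χ F i x) = 1) ∨
        (∀ x, Module.finrank ℝ (coarse χ F j x) = 1)) ∨
      (Act E A χ F ∧ (Praq E A χ F i j ∨ Cfzq E A χ F i ∨ Cfzq E A χ F j ∨
        Cfaq E A χ F i j ∨ Cfaq E A χ F j i))) →
    ∀ n : Fin k → ℤ, Regular χ n → TopTransitive (A n)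

/-! ### The manifold -/

section Mfd

variable {V : Type*} [NormedAddCommGroup V] [NormedSpace ℝ V]
  {M : Type*} [TopologicalSpace M] [ChartedSpace V M]
  [RiemannianBundle (fun x : M => TangentSpace 𝓘(ℝ, V) x)]

/-- The defect of conformality of `f` on the bundle `G` is at most `κ`. -/
def Dst (f : M → M) (G : ∀ x : M, Submodule ℝ (TangentSpace 𝓘(ℝ, V) x)) (κ : ℝ) : Prop :=
  ∀ e : ℝ, 0 < e → ∃ C : ℝ, ∀ (m : ℕ) (x : M), ∀ v ∈ G x, ∀ w ∈ G x,
    ‖mfderiv 𝓘(ℝ, V) 𝓘(ℝ, V) (f^[m]) x v‖ * ‖w‖ ≤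
      C * Real.exp ((κ + e) * m) * ‖mfderiv 𝓘(ℝ, V) 𝓘(ℝ, V) (f^[m]) x w‖ * ‖v‖

/-- The same at the periodic points of `f`. -/
def PDst (f : M → M) (G : ∀ x : M, Submodule ℝ (TangentSpace 𝓘(ℝ, V) x)) (κ : ℝ) : Prop :=
  ∀ p ∈ periodicPts f, ∀ e : ℝ, 0 < e → ∃ C : ℝ, ∀ (m : ℕ), ∀ v ∈ G p, ∀ w ∈ G p,
    ‖mfderiv 𝓘(ℝ, V) 𝓘(ℝ, V) (f^[m]) p v‖ * ‖w‖ ≤
      C * Real.exp ((κ + e) * m) * ‖mfderiv 𝓘(ℝ, V) 𝓘(ℝ, V) (f^[m]) p w‖ * ‖v‖

end Mfd

/-- ACTS. As ACTR (`F3ACTR.lean`), with two more clauses. -/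
def SpecActs : Prop :=
  ∀ (V : Type v) [NormedAddCommGroup V] [NormedSpace ℝ V] [FiniteDimensional ℝ V] (N : ℕ)
    (M : Type u) [MetricSpace M] [CompactSpace M] [ChartedSpace V M] [IsManifold 𝓘(ℝ, V) ∞ M]
    [RiemannianBundle (fun x : M => TangentSpace 𝓘(ℝ, V) x)]
    [IsContinuousRiemannianBundle V (fun x : M => TangentSpace 𝓘(ℝ, V) x)]
    (e : M → EuclideanSpace ℝ (Fin N)), Isometry e → ContMDiff 𝓘(ℝ, V) (𝓡 N) ∞ e →
    (∀ x, Injective (mfderiv 𝓘(ℝ, V) (𝓡 N) e x)) →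
    ∀ (k : ℕ) (J : Type w) [Finite J] (A : (Fin k → ℤ) → M ≃ₘ^1⟮𝓘(ℝ, V), 𝓘(ℝ, V)⟯ M)
      (χ : J → Fin k → ℝ) (F : J → ∀ x : M, Submodule ℝ (TangentSpace 𝓘(ℝ, V) x)),
    (∀ n n' x, A (n + n') x = A n (A n' x)) →
    (∀ n, Regular χ n → Gen.IsAnosovSplitting (A n) (fun x => ⨆ (j) (_ : ev (χ j) n < 0), F j x)
      (fun x => ⨆ (j) (_ : 0 < ev (χ j) n), F j x)) →
    ∃ (E : Emb M (EuclideanSpace ℝ (Fin N))) (F' : J → M → Submodule ℝ (EuclideanSpace ℝ (Fin N))),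
      Act1 E (fun n => (A n).toHomeomorph) χ F' ∧
      ((∀ n, ContMDiff 𝓘(ℝ, V) 𝓘(ℝ, V) 2 (A n)) → Act E (fun n => (A n).toHomeomorph) χ F') ∧
      (∀ i x, Module.finrank ℝ (coarse χ F' i x) =
        Module.finrank ℝ (⨆ (l) (_ : ∃ c : ℝ, 0 < c ∧ χ l = c • χ i), F l x :
          Submodule ℝ (TangentSpace 𝓘(ℝ, V) x))) ∧
      (∀ (i : J) (n : Fin k → ℤ) (s b : ℝ),
        ExpIn (A n) (fun x => ⨆ (l) (_ : ∃ c : ℝ, 0 < c ∧ χ l = c • χ i), F l x) s b →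
        RtAt E (fun n => (A n).toHomeomorph) χ F' i n s b) ∧
      (∀ (i : J) (n : Fin k → ℤ) (s b : ℝ),
        PExpIn (A n) (fun x => ⨆ (l) (_ : ∃ c : ℝ, 0 < c ∧ χ l = c • χ i), F l x) s b →
        RtqAt E (fun n => (A n).toHomeomorph) χ F' i n s b) ∧
      (∀ (i : J) (n : Fin k → ℤ) (κ : ℝ),
        Dst (A n) (fun x => ⨆ (l) (_ : ∃ c : ℝ, 0 < c ∧ χ l = c • χ i), F l x) κ →
        CfAt E (fun n => (A n).toHomeomorph) χ F' i n κ) ∧
      ∀ (i : J) (n : Fin k → ℤ) (κ : ℝ),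
        PDst (A n) (fun x => ⨆ (l) (_ : ∃ c : ℝ, 0 < c ∧ χ l = c • χ i), F l x) κ →
        CfqAt E (fun n => (A n).toHomeomorph) χ F' i n κ

end Pool.Agent.Lib.MP610fe3.HR
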