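import Pool.Agent.Lib.MP_610fe3_an.HR.F4Spec

/-!
# Module XYCC: small rectangles with sides in leaves `X` and `Y` close up
-/

set_option autoImplicit false

open Set Filter Function
open scoped Topology

namespace Pool.Agent.Lib.MP610fe3.HR

open Cf CH

universe u

/-- **Module XYCC.** -/
theorem specXycc : SpecXycc.{u} := by
  intro M _ _ f g ε C l P h1 h2
  obtain ⟨ε₁, hε₁, H₁⟩ := h1
  obtain ⟨ε₂, hε₂, H₂⟩ := h2
  have hsym : ∀ (a : M ≃ₜ M) {x y : M} {r : ℝ}, y ∈ Wl a r x → x ∈ Wl a r y :=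
    fun a x y r h k => by rw [dist_comm]; exact h k
  have hmono : ∀ (a : M ≃ₜ M) {x y : M} {r s : ℝ}, r ≤ s → y ∈ Wl a r x → y ∈ Wl a s x :=
    fun a x y r s hrs h k => (h k).trans hrs
  have hD : ∀ (a b : M ≃ₜ M) {x y : M}, Dbl a b x y → Dbl a b y x := fun a b x y h ε hε => by
    obtain ⟨K, hK⟩ := h ε hε
    exact ⟨K, fun n m hnm => by rw [dist_comm]; exact hK n m hnm⟩
  refine ⟨min ε₁ ε₂, lt_min hε₁ hε₂, fun a z z' q hz hz' hq hq' => ⟨?_, ?_⟩⟩
  · exact H₁ a z z' q ⟨hmono f (min_le_left _ _) hz.1, hz.2⟩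
      (hmono f.symm (min_le_left _ _) hz'.1) (hmono f.symm (min_le_left _ _) hq)
      (hmono f (min_le_left _ _) hq')
  · have h3 : Dbl f.symm g q a := H₂ z' z a q
      ⟨hmono f.symm (min_le_right _ _) (hsym f.symm hz'.1), hD f.symm g hz'.2⟩
      (hmono f (min_le_right _ _) (hsym f hz.1)) (hmono f (min_le_right _ _) hq')
      (hmono f.symm (min_le_right _ _) hq)
    exact hD f.symm g h3

end Pool.Agent.Lib.MP610fe3.HR
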