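import Pool.Agent.Lib.MP_610fe3_an.HR.Spec2
import Pool.Agent.Lib.MP_610fe3_an.HR.PLANE

/-!
# Module FAN: the leaves `X` through one half of the leaf `Y` of a common fixed point

As in PLANE, with a given parametrization of the second bundle, applied to the inverses.
-/

set_option autoImplicit false

open Set Filter Function
open scoped Topology

namespace Pool.Agent.Lib.MP610fe3.HR

open Cf CH

universe u v

namespace FANAux

open PLANEAux

theorem PP_PP {M : Type u} {W : Type v} [MetricSpace M] [CompactSpace M] [NormedAddCommGroup W]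
    [InnerProductSpace ℝ W] [FiniteDimensional ℝ W] {E : Emb M W} {f g : M ≃ₜ M} {s : Split E f}
    {t : Split E g} {C₀ : ℝ} (hB : Bun s t C₀) (x : M) (w : W) :
    PP s t x (PP s t x w) = PP s t x w := by
  have hcomm : ∀ w, s.S x (t.S x w) = t.S x (s.S x w) := fun w =>
    congrArg (fun L => L w) (SS_commute s t hB.hs hB.ht hB.comm x)
  change s.S x (t.S x (s.S x (t.S x w))) = s.S x (t.S x w)
  rw [← hcomm (t.S x w)]
  have h1 : t.S x (t.S x w) = t.S x w := congrArg (fun L => L w) (t.SS x)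
  have h2 : s.S x (s.S x (t.S x w)) = s.S x (t.S x w) :=
    congrArg (fun L => L (t.S x w)) (s.SS x)
  rw [h1, h2]

/-- The plane through a common fixed point, for a given parametrization of the leaves. -/
theorem core (hG : SpecGam.{u, v}) (hV : SpecVec.{u, v}) {M : Type u} {W : Type v}
    [MetricSpace M] [CompactSpace M] [NormedAddCommGroup W] [InnerProductSpace ℝ W]
    [FiniteDimensional ℝ W] (E : Emb M W) (f g : M ≃ₜ M) (s : Split E f) (t : Split E g)
    (C₀ θ : ℝ) (p : M) (hX : Bun s t.swap C₀) (hY : Bun s.swap t C₀) (hfp : f p = p)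
    (hgp : g p = p) (hEig : Eig s t θ p) (γY : M → W → M) (GY : Gam s.swap t γY) :
    ∃ (x : ℝ → M) (v : ℝ → W), Continuous v ∧ (∀ τ, PP s.swap t (x τ) (v τ) = v τ) ∧
      (∀ τ, v τ ≠ 0) ∧ (∀ τ, x τ ≠ p) ∧ Plane f g θ p (fun τ r => γY (x τ) (r • v τ)) := by
  obtain ⟨a, b, ha, hb, hsX, htX, hsY, htY⟩ := hEig
  obtain ⟨γX, GX⟩ := hG M W E f g.symm s t.swap C₀ hX
  obtain ⟨u, hu, hu0⟩ : ∃ u : W, PP s t.swap p u = u ∧ u ≠ 0 := by
    obtain ⟨v, hv, -⟩ := finrank_eq_one_iff'.1 (hX.rank p)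
    obtain ⟨w, hw⟩ := v.2
    refine ⟨v.1, ?_, fun h => hv (Subtype.ext h)⟩
    have hw' : PP s t.swap p w = (v : W) := hw
    rw [← hw']
    exact PP_PP hX p w
  have hgp' : g.symm p = p := by
    conv_lhs => rw [← hgp]
    exact g.symm_apply_apply p
  have hPu : ∀ c : ℝ, PP s t.swap p (c • u) = c • u := fun c => by rw [map_smul, hu]
  have hsu : s.D p u = Real.exp (-a) • u := by
    have := hsX u
    rwa [hu] at this
  have htu : t.D p u = Real.exp (a * θ) • u := by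
    have := htX u
    rwa [hu] at this
  have hPPu : E.P p u = u := by
    rw [← hu]
    exact congrArg (fun L : W →L[ℝ] W => L (t.swap.S p u)) (s.PS p)
  have hti : t.Di p u = Real.exp (-(a * θ)) • u := by
    have h1 : t.Di (g p) (t.D p u) = E.P p u :=
      congrArg (fun L : W →L[ℝ] W => L u) (t.inv1 p)
    rw [hgp, htu, map_smul, hPPu] at h1
    rw [Real.exp_neg]
    rw [← h1, smul_smul, inv_mul_cancel₀ (Real.exp_pos _).ne', one_smul]
    rw [h1]
  -- the points `x τ`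
  set x : ℝ → M := fun τ => γX p (Real.exp (-(a * τ)) • u) with hx
  have hxc : Continuous x := by
    have h1 : x = fun τ => (fun q : M × W => γX q.1 (PP s t.swap q.1 q.2))
        (p, Real.exp (-(a * τ)) • u) := by
      funext τ
      simp only [hx, hPu]
    rw [h1]
    exact GX.cont.comp (by fun_prop)
  have hfx : ∀ τ, f (x τ) = x (τ + 1) := fun τ => by
    simp only [hx]
    rw [GX.eqf p _ (hPu _), hfp, map_smul, hsu, smul_smul, ← Real.exp_add]
    congr 3
    ring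
  have hgsx : ∀ τ, g.symm (x τ) = x (τ + θ) := fun τ => by
    simp only [hx]
    rw [GX.eqg p _ (hPu _), hgp', map_smul, Split.swap_D, hti, smul_smul, ← Real.exp_add]
    congr 3
    ring
  have hgx : ∀ τ, g (x τ) = x (τ - θ) := fun τ => by
    have := hgsx (τ - θ)
    rw [sub_add_cancel] at this
    rw [← this, g.apply_symm_apply]
  have hxlim : Tendsto x atTop (𝓝 p) := by
    have h1 : x = fun τ => (fun q : M × W => γX q.1 (PP s t.swap q.1 q.2))
        (p, Real.exp (-(a * τ)) • u) := by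
      funext τ
      simp only [hx, hPu]
    have h2 : Tendsto (fun τ : ℝ => Real.exp (-(a * τ))) atTop (𝓝 0) :=
      Real.tendsto_exp_neg_atTop_nhds_zero.comp (tendsto_id.const_mul_atTop ha)
    have h3 : Tendsto (fun τ : ℝ => (p, Real.exp (-(a * τ)) • u)) atTop (𝓝 (p, (0 : ℝ) • u)) :=
      tendsto_const_nhds.prodMk_nhds (h2.smul_const u)
    have h4 := (GX.cont.tendsto (p, (0 : ℝ) • u)).comp h3
    rw [h1]
    have h5 : γX p (PP s t.swap p ((0 : ℝ) • u)) = p := by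
      rw [zero_smul, map_zero, GX.zero]
    have h6 : Tendsto ((fun q : M × W => γX q.1 (PP s t.swap q.1 q.2)) ∘
        fun τ : ℝ => (p, Real.exp (-(a * τ)) • u)) atTop (𝓝 (γX p (PP s t.swap p ((0 : ℝ) • u)))) :=
      h4
    rw [h5] at h6
    exact h6
  have hxp : ∀ τ, x τ ≠ p := fun τ h => by
    have h1 : γX p (Real.exp (-(a * τ)) • u) = γX p 0 := by
      rw [GX.zero]
      exact h
    have h2 := GX.inj p _ _ (hPu _) (map_zero _) h1
    rcases smul_eq_zero.1 h2 with h3 | h3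
    · exact (Real.exp_pos _).ne' h3
    · exact hu0 h3
  -- the vectors
  obtain ⟨v, hvc, hPv, hv0, hsv, htv⟩ := hV M W E f g s t C₀ θ b p x hY hfp hgp hxc hfx hgx hxlim
    hsY htY
  have hPrv : ∀ τ (r : ℝ), PP s.swap t (x τ) (r • v τ) = r • v τ := fun τ r => by
    rw [map_smul, hPv]
  have hEv : ∀ τ, E.P (x τ) (v τ) = v τ := fun τ => by
    conv_lhs => rw [← hPv τ]
    conv_rhs => rw [← hPv τ]
    exact congrArg (fun L : W →L[ℝ] W => L (t.S (x τ) (v τ))) (s.swap.PS (x τ))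
  have hUv : ∀ τ, s.U (x τ) (v τ) = v τ := fun τ => by
    conv_lhs => rw [← hPv τ]
    conv_rhs => rw [← hPv τ]
    exact congrArg (fun L : W →L[ℝ] W => L (t.S (x τ) (v τ))) (s.UU (x τ))
  have hDiv : ∀ τ, s.Di (x (τ + 1)) (v (τ + 1)) = v τ := fun τ => by
    rw [← hsv τ, ← hfx τ]
    have h1 : s.Di (f (x τ)) (s.D (x τ) (v τ)) = E.P (x τ) (v τ) :=
      congrArg (fun L : W →L[ℝ] W => L (v τ)) (s.inv1 (x τ))
    rw [h1, hEv]
  have hit := iter_back s hfx hDiv
  obtain ⟨C, l, hC, hl, hl1, hhyp⟩ := hX.hs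
  have hdec : ∀ (n : ℕ) (τ : ℝ), ‖v (τ - n)‖ ≤ C * l ^ n * ‖v τ‖ := fun n τ => by
    have h1 := (hhyp n (x τ) (v τ)).2
    rwa [hUv, hit n τ] at h1
  refine ⟨x, v, hvc, hPv, hv0, hxp, ?_, ?_, ?_, ?_, ?_, ?_, ?_, ?_, ?_, ?_⟩
  · -- continuity
    have h1 : (fun q : ℝ × ℝ => γY (x q.1) (q.2 • v q.1)) = fun q : ℝ × ℝ =>
        (fun q : M × W => γY q.1 (PP s.swap t q.1 q.2)) (x q.1, q.2 • v q.1) := by
      funext q
      simp only [hPrv]
    show Continuous (fun q : ℝ × ℝ => γY (x q.1) (q.2 • v q.1))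
    rw [h1]
    exact GY.cont.comp ((hxc.comp continuous_fst).prodMk
      (continuous_snd.smul (hvc.comp continuous_fst)))
  · -- the map `f`
    intro τ r
    have h1 := GY.eqf (x (τ + 1)) (r • v (τ + 1)) (hPrv _ _)
    have h2 : f.symm (x (τ + 1)) = x τ := by rw [← hfx τ, f.symm_apply_apply]
    rw [map_smul, Split.swap_D, hDiv, h2] at h1
    show f (γY (x τ) (r • v τ)) = γY (x (τ + 1)) (r • v (τ + 1))
    rw [← h1, f.apply_symm_apply]
  · -- the map `g`
    intro τ r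
    show g (γY (x τ) (r • v τ)) = γY (x (τ - θ)) (r • v (τ - θ))
    rw [GY.eqg (x τ) _ (hPrv _ _), hgx, map_smul, htv]
  · intro τ
    show Dbl f g.symm p (γY (x τ) ((0 : ℝ) • v τ))
    rw [zero_smul, GY.zero]
    exact GX.dbl p _ (hPu _)
  · show Tendsto (fun τ => γY (x τ) ((0 : ℝ) • v τ)) atTop (𝓝 p)
    simp only [zero_smul, GY.zero]
    exact hxlim
  · intro τ r
    show Dbl f.symm g (γY (x τ) ((0 : ℝ) • v τ)) (γY (x τ) (r • v τ))
    rw [zero_smul, GY.zero]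
    exact GY.dbl (x τ) _ (hPrv _ _)
  · intro τ z hz
    have hz' : Dbl f.symm g (x τ) z := by
      have h1 : Dbl f.symm g (γY (x τ) ((0 : ℝ) • v τ)) z := hz
      rwa [zero_smul, GY.zero] at h1
    obtain ⟨w, hw, hwz⟩ := GY.surj (x τ) z hz'
    obtain ⟨r, hr⟩ := exists_smul (PP s.swap t (x τ)) (hY.rank (x τ)) (hPv τ) (hv0 τ) hw
    exact ⟨r, by show γY (x τ) (r • v τ) = z; rw [hr, hwz]⟩
  · intro τ r r' h
    have h1 := GY.inj (x τ) _ _ (hPrv τ r) (hPrv τ r') h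
    exact smul_left_injective ℝ (hv0 τ) h1
  · intro ε r₀ hε
    obtain ⟨δ, hδ, hs⟩ := GY.small ε hε
    obtain ⟨T, hT⟩ := norm_small hvc hC hl hl1 hdec (δ := δ / (|r₀| + 1)) (by positivity)
    refine ⟨T, fun τ hτ r hr => ?_⟩
    show γY (x τ) (r • v τ) ∈ Wl f.symm ε (γY (x τ) ((0 : ℝ) • v τ))
    rw [zero_smul, GY.zero]
    refine hs (x τ) _ (hPrv _ _) ?_
    rw [norm_smul, Real.norm_eq_abs]
    have h1 := hT τ hτ
    have h2 : 0 < |r₀| + 1 := by positivity
    rw [le_div_iff₀ h2] at h1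
    have h3 : |r| ≤ |r₀| + 1 := by
      have := le_abs_self r₀
      linarith
    calc |r| * ‖v τ‖ ≤ (|r₀| + 1) * ‖v τ‖ := by gcongr
      _ = ‖v τ‖ * (|r₀| + 1) := mul_comm _ _
      _ ≤ δ := h1
  · obtain ⟨ε, hε, hp⟩ := GY.proper
    refine ⟨ε, hε, fun τ₁ τ₂ => ?_⟩
    rcases (Icc τ₁ τ₂).eq_empty_or_nonempty with he | hne
    · exact ⟨0, fun τ hτ => by rw [he] at hτ; exact hτ.elim⟩
    obtain ⟨τ₀, _, hτ₀⟩ := isCompact_Icc.exists_isMinOn hne
      (f := fun τ => ‖v τ‖) hvc.norm.continuousOn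
    have hc : 0 < ‖v τ₀‖ := norm_pos_iff.2 (hv0 τ₀)
    refine ⟨‖v τ₀‖⁻¹, fun τ hτ r hr => ?_⟩
    have h1 : γY (x τ) (r • v τ) ∈ Wl f.symm ε (γY (x τ) ((0 : ℝ) • v τ)) := hr
    rw [zero_smul, GY.zero] at h1
    have h2 := hp (x τ) _ (hPrv _ _) h1
    rw [norm_smul, Real.norm_eq_abs] at h2
    have h3 : ‖v τ₀‖ ≤ ‖v τ‖ := hτ₀ hτ
    rw [← one_div, le_div_iff₀ hc]
    calc |r| * ‖v τ₀‖ ≤ |r| * ‖v τ‖ := by gcongr
      _ ≤ 1 := h2

/-- an inverse derivative on an eigenvector -/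
theorem inv_eig {M : Type u} {W : Type v} [MetricSpace M] [CompactSpace M] [NormedAddCommGroup W]
    [InnerProductSpace ℝ W] [FiniteDimensional ℝ W] {E : Emb M W} {f : M ≃ₜ M} (s : Split E f)
    {p : M} (hfp : f p = p) {c : ℝ} {u : W} (hu : E.P p u = u)
    (h : s.D p u = Real.exp c • u) : s.Di p u = Real.exp (-c) • u := by
  have h1 : s.Di (f p) (s.D p u) = E.P p u := congrArg (fun L : W →L[ℝ] W => L u) (s.inv1 p)
  rw [hfp, h, map_smul, hu] at h1
  rw [Real.exp_neg]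
  calc s.Di p u = (Real.exp c)⁻¹ • Real.exp c • s.Di p u := by
        rw [smul_smul, inv_mul_cancel₀ (Real.exp_pos _).ne', one_smul]
    _ = (Real.exp c)⁻¹ • u := by rw [h1]

end FANAux

open FANAux

/-- `FAN`. -/
theorem specFan (hG : SpecGam.{u, v}) (hV : SpecVec.{u, v}) : SpecFan.{u, v} := by
  intro M W _ _ _ _ _ E f g s t C₀ θ γ p hX hY hG' hfp hgp hEig
  obtain ⟨a, b, ha, hb, hsX, htX, hsY, htY⟩ := hEig
  have hfp' : f.symm p = p := by
    conv_lhs => rw [← hfp]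
    exact f.symm_apply_apply p
  have hgp' : g.symm p = p := by
    conv_lhs => rw [← hgp]
    exact g.symm_apply_apply p
  have hEX : ∀ w, E.P p (PP s t.swap p w) = PP s t.swap p w := fun w =>
    congrArg (fun L : W →L[ℝ] W => L (t.swap.S p w)) (s.PS p)
  have hEY : ∀ w, E.P p (PP s.swap t p w) = PP s.swap t p w := fun w =>
    congrArg (fun L : W →L[ℝ] W => L (t.S p w)) (s.swap.PS p)
  have hE' : Eig s.swap t.swap θ p := by
    refine ⟨b, a, hb, ha, fun w => ?_, fun w => ?_, fun w => ?_, fun w => ?_⟩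
    · exact inv_eig s hfp (hEY w) (hsY w)
    · have h1 := inv_eig t hgp (hEY w) (htY w)
      rw [neg_neg] at h1
      exact h1
    · have h1 := inv_eig s hfp (hEX w) (hsX w)
      rw [neg_neg] at h1
      exact h1
    · exact inv_eig t hgp (hEX w) (htX w)
  obtain ⟨y, v, h1, h2, h3, h4, h5⟩ := core hG hV E f.symm g.symm s.swap t.swap C₀ θ p hY hX hfp'
    hgp' hE' γ hG'
  exact ⟨y, v, ⟨h1, h2, h3, h4, h5⟩⟩

end Pool.Agent.Lib.MP610fe3.HR
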