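import Pool.Agent.Lib.MP_610fe3_an.HR.Spec

/-!
# Higher rank actions with one dimensional symplectic pairs: the final contradiction (FIN)
-/

set_option autoImplicit false

open Set Filter Function
open scoped Topology

namespace Pool.Agent.Lib.MP610fe3.HR

open Cf CH

universe u

namespace FINAux

/-- The two notions of local stable sets agree. -/
theorem sp_eq_wl {M : Type*} [MetricSpace M] (f : M ≃ₜ M) (ε : ℝ) (x : M) :
    TM.Sp f ε x = Wl f ε x := by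
  ext y
  simp only [TM.Sp, Wl, mem_ofPred_eq, TM.ev_nat]

theorem wl_comm {M : Type*} [MetricSpace M] {f : M ≃ₜ M} {ε : ℝ} {x y : M}
    (h : y ∈ Wl f ε x) : x ∈ Wl f ε y := fun k => by
  rw [dist_comm]; exact h k

theorem rates {M : Type*} [MetricSpace M] {f : M ≃ₜ M} {ε C l : ℝ} (h : Loc f ε C l)
    (U : Set M) : N3.Rates f U ε C (-Real.log l) (-Real.log l) (-Real.log l) := by
  have hl0 := h.decs.l_pos
  have hl1 := h.decs.l_lt
  have hlog : 0 < -Real.log l := by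
    have := Real.log_neg hl0 hl1
    linarith
  have hexp : ∀ j : ℕ, Real.exp (-(-Real.log l * j)) = l ^ j := fun j => by
    rw [show -(-Real.log l * (j : ℝ)) = (j : ℝ) * Real.log l by ring, Real.exp_nat_mul,
      Real.exp_log hl0]
  have hu : ∀ p q, q ∈ TM.Sp f.symm ε p → ∀ j : ℕ,
      dist (TM.ev f (-j) q) (TM.ev f (-j) p) ≤ C * Real.exp (-(-Real.log l * j)) * dist q p := by
    intro p q hq j
    rw [sp_eq_wl] at hq
    rw [hexp, TM.ev_neg_nat, TM.ev_neg_nat]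
    exact h.decu.dec p q hq j
  refine ⟨h.decs.ε_pos, h.decs.one_le, hlog, hlog, hu, fun p q hq i _ => hu p q hq i, ?_, ?_⟩
  · intro p q hq j
    rw [sp_eq_wl] at hq
    rw [hexp, TM.ev_nat, TM.ev_nat]
    exact h.decs.dec p q hq j
  · intro e' he'
    obtain ⟨δ, hδ, H⟩ := h.br.exist e' he'
    refine ⟨δ, hδ, fun x y hxy => ?_⟩
    obtain ⟨z, h1, h2⟩ := H x y hxy
    exact ⟨z, by rwa [sp_eq_wl], by rwa [sp_eq_wl]⟩

/-- Backwards choice of a sequence. -/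
theorem back (P : ℕ → ℝ → Prop) (T : ℕ → ℝ → ℝ → Prop) : ∀ m : ℕ,
    (∀ i < m, ∀ r', P (i + 1) r' → ∃ r, P i r ∧ T i r r') → ∀ r, P m r →
      ∃ q : ℕ → ℝ, q m = r ∧ (∀ i ≤ m, P i (q i)) ∧ ∀ i < m, T i (q i) (q (i + 1)) := by
  intro m
  induction m with
  | zero =>
    intro _ r hr
    refine ⟨fun _ => r, rfl, fun i hi => ?_, fun i hi => absurd hi (Nat.not_lt_zero i)⟩
    obtain rfl : i = 0 := Nat.le_zero.1 hi
    exact hr
  | succ m ih =>
    intro h r hr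
    obtain ⟨r₁, h1, h2⟩ := h m (Nat.lt_succ_self m) r hr
    obtain ⟨q, hq, hP, hT⟩ := ih (fun i hi => h i (hi.trans (Nat.lt_succ_self m))) r₁ h1
    refine ⟨fun i => if i ≤ m then q i else r, ?_, fun i hi => ?_, fun i hi => ?_⟩
    · simp
    · rcases Nat.lt_or_ge m i with h3 | h3
      · obtain rfl : i = m + 1 := by omega
        simpa using hr
      · simpa [h3] using hP i h3
    · rcases Nat.lt_or_ge i m with h3 | h3
      · have h4 : i + 1 ≤ m := h3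
        simpa [h3.le, h4] using hT i h3
      · obtain rfl : i = m := by omega
        simpa [hq] using h2

/-- The core of FIN: a family of arcs which is transported by stable holonomies from `τ₀` to `τ₀ + 1`
and mapped by `f` from `τ₀` to `τ₀ + 1` cannot exist. -/
theorem finCore {M : Type u} [MetricSpace M] [CompactSpace M] {f : M ≃ₜ M} {ε C l : ℝ}
    (hL : Loc f ε C l) {H : ℝ → ℝ → M} {τ₀ δ η : ℝ} (hη : 0 < η) (hη' : 8 * η ≤ ε) (hδ : 0 < δ)
    (hcont : ContinuousOn (H (τ₀ + 1)) (Icc 0 1))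
    (heq : ∀ r ∈ Icc (0 : ℝ) 1, f (H τ₀ r) = H (τ₀ + 1) r)
    (hne : H (τ₀ + 1) 0 ≠ H (τ₀ + 1) 1)
    (h1 : ∀ τ ∈ Icc τ₀ (τ₀ + 1), ∀ r ∈ Icc (0 : ℝ) 1, H τ r ∈ Wl f.symm η (H τ 0))
    (h2 : ∀ τ ∈ Icc τ₀ (τ₀ + 1), ∀ τ' ∈ Icc τ₀ (τ₀ + 1), |τ - τ'| ≤ δ → ∀ r' ∈ Icc (0 : ℝ) 1,
        ∃ r ∈ Icc (0 : ℝ) 1, H τ r ∈ Wl f η (H τ' r')) : False := by
  have hτ : τ₀ + 1 ∈ Icc τ₀ (τ₀ + 1) := ⟨by linarith, le_rfl⟩
  obtain ⟨m, hm⟩ := exists_nat_gt (1 / δ)
  have hm0 : (0 : ℝ) < m := lt_trans (by positivity) hm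
  refine TC.specChn M f univ univ ε C (-Real.log l) (dist (H (τ₀ + 1) 0) (H (τ₀ + 1) 1))
    (2 * η) η η 1 m (fun _ => (fun r => H (τ₀ + 1) r) '' Icc (0 : ℝ) 1)
    (rates hL univ) (dist_pos.2 hne) le_rfl (by linarith) (by linarith) (by linarith)
    hη hη (fun _ => ?_) (fun _ => ?_)
  · refine ⟨isCompact_Icc.image_of_continuousOn hcont, ?_, subset_univ _, ?_, ?_⟩
    · exact ⟨⟨_, mem_image_of_mem _ (left_mem_Icc.2 zero_le_one)⟩,
        isPreconnected_Icc.image _ hcont⟩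
    · rintro _ ⟨r, hr, rfl⟩ _ ⟨r', hr', rfl⟩
      have h3 := h1 _ hτ r hr
      have h4 := h1 _ hτ r' hr'
      rw [← sp_eq_wl] at h3 h4
      have := TM.Sp_trans (TM.Sp_comm h3) h4
      exact TM.Sp_mono (by linarith) this
    · exact ⟨_, mem_image_of_mem _ (left_mem_Icc.2 zero_le_one), _,
        mem_image_of_mem _ (right_mem_Icc.2 zero_le_one), le_rfl⟩
  · refine ⟨m, le_rfl, fun i => H (τ₀ + i / m) 0, ?_⟩
    rintro _ ⟨r, hr, rfl⟩
    have hmem : ∀ i : ℕ, i ≤ m → τ₀ + (i : ℝ) / m ∈ Icc τ₀ (τ₀ + 1) := fun i hi => by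
      have h3 : (i : ℝ) / m ≤ 1 := by
        rw [div_le_one hm0]
        exact_mod_cast hi
      have h4 : 0 ≤ (i : ℝ) / m := by positivity
      exact ⟨by linarith, by linarith⟩
    have hmm : τ₀ + (m : ℝ) / m = τ₀ + 1 := by rw [div_self hm0.ne']
    obtain ⟨q, hq, hPq, hTq⟩ := back (fun _ r => r ∈ Icc (0 : ℝ) 1)
      (fun i r r' => H (τ₀ + i / m) r ∈ Wl f η (H (τ₀ + (i + 1 : ℕ) / m) r')) m
      (fun i hi r' hr' => by
        obtain ⟨r, hr, h3⟩ := h2 _ (hmem i hi.le) _ (hmem (i + 1) hi) (by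
          have h5 : τ₀ + (i : ℝ) / m - (τ₀ + ((i + 1 : ℕ) : ℝ) / m) = -(1 / m) := by
            push_cast
            field_simp
            ring
          rw [h5, abs_neg, abs_of_pos (by positivity)]
          rw [div_lt_iff₀ hδ] at hm
          rw [div_le_iff₀ hm0]
          linarith) r' hr'
        exact ⟨r, hr, h3⟩) r hr
    refine ⟨fun i => H (τ₀ + i / m) (q i), ?_, ⟨fun i hi => ?_, fun i hi => ?_⟩, ?_⟩
    · refine ⟨q 0, hPq 0 (Nat.zero_le _), ?_⟩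
      show H (τ₀ + 1) (q 0) = TM.ev f ((1 : ℕ) : ℤ) (H (τ₀ + ((0 : ℕ) : ℝ) / m) (q 0))
      rw [Nat.cast_one, TM.ev_one, Nat.cast_zero, zero_div, add_zero, heq _ (hPq 0 (Nat.zero_le _))]
    · rw [sp_eq_wl]
      exact h1 _ (hmem i hi) _ (hPq i hi)
    · rw [sp_eq_wl]
      exact wl_comm (hTq i hi)
    · show H (τ₀ + (m : ℝ) / m) (q m) = H (τ₀ + 1) r
      rw [hmm, hq]

end FINAux

open FINAux

theorem specFin (hT : SpecTrans.{u}) : SpecFin.{u} := by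
  intro M _ _ f g ε C l θ p H R hP hθ hθ0 hC
  have hε : 0 < ε := hP.one.decs.ε_pos
  obtain ⟨τ₀, δ, hδ, h1, h2⟩ := hT M f g ε C l θ p H R hP hθ hθ0 hC (ε / 8) (by positivity)
  exact finCore hP.one (by positivity : 0 < ε / 8) (by linarith) hδ
    (hC.plane.cont.comp (continuous_const.prodMk continuous_id)).continuousOn
    (fun r _ => hC.plane.eqf τ₀ r) (fun h => zero_ne_one (hC.plane.inj _ _ _ h)) h1 h2

end Pool.Agent.Lib.MP610fe3.HR
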