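import Pool.Agent.Lib.MP_610fe3_an.HR.SpecZ

/-!
# Walls with a rational ratio: definitions and statements of the modules

A module `XXX` proves `theorem specXxx : SpecXxx.{u, v}` in its own file `HR/XXX.lean`.
The proof is `/team-store/MP_610fe3_an_HRPLUS_h30.md`.
-/

set_option autoImplicit false

open Set Filter Function
open scoped Topology

namespace Pool.Agent.Lib.MP610fe3.HR

open Cf CH

universe u v w

/-- The element `f^m g^n`. -/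
def cc {M : Type*} [MetricSpace M] (f g : M ≃ₜ M) (m n : ℕ) (z : M) : M := f^[m] (g^[n] z)

/-- The transport stays in the leaf. -/
def CommP {M : Type*} [MetricSpace M] (f g : M ≃ₜ M) (H : ℝ → ℝ → M) : Prop :=
  ∃ η : ℝ, 0 < η ∧ ∀ (τ τ' : ℝ) (q : ℝ → M), ContinuousOn q (Icc 0 1) →
    (∀ r ∈ Icc (0 : ℝ) 1, q r ∈ Wl f η (H τ' r) ∧ q r ∈ Wl f.symm η (H τ 0)) →
    q 0 = H τ 0 → ∀ r ∈ Icc (0 : ℝ) 1, Dbl f.symm g (H τ 0) (q r)

/-- Like `Cut`, with nothing assumed at the heights `r ≤ 0`. -/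
structure Cut2 {M : Type*} [MetricSpace M] (f g : M ≃ₜ M) (θ : ℝ) (p : M) (H : ℝ → ℝ → M)
    (R : Set M) : Prop where
  plane : Plane f g θ p H
  closed : IsClosed R
  sat : Sat f R
  top : ∀ τ, H τ 1 ∈ R
  below : ∀ τ, ∀ r ∈ Ioo (0 : ℝ) 1, H τ r ∉ R

/-- The leaves `X` through one half of the leaf `Y` of the common fixed point `p`; `γ` parametrizes
the leaves `X`. -/
structure Fan {M W : Type*} [MetricSpace M] [NormedAddCommGroup W] [NormedSpace ℝ W]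
    {E : Emb M W} {f g : M ≃ₜ M} (s : Split E f) (t : Split E g) (θ : ℝ) (p : M)
    (γ : M → W → M) (y : ℝ → M) (v : ℝ → W) : Prop where
  cont : Continuous v
  range : ∀ τ, PP s t.swap (y τ) (v τ) = v τ
  ne : ∀ τ, v τ ≠ 0
  y_ne : ∀ τ, y τ ≠ p
  plane : Plane f.symm g.symm θ p (fun τ r => γ (y τ) (r • v τ))

/-- Small arcs of the leaf `X` of `p` which meet `A` at most in `p`. -/
def Arcs {M : Type*} [MetricSpace M] (f g : M ≃ₜ M) (A : Set M) (p : M) : Prop :=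
  ∀ δ : ℝ, 0 < δ → ∃ ℓ : ℝ → M, ContinuousOn ℓ (Icc 0 1) ∧ InjOn ℓ (Icc 0 1) ∧ ℓ 0 = p ∧
    (∀ r ∈ Icc (0 : ℝ) 1, ℓ r ∈ Wl f δ p ∧ Dbl f g.symm p (ℓ r)) ∧
    ∀ r ∈ Ioc (0 : ℝ) 1, ℓ r ∉ A

/-- FIX. (R1): points fixed by `c = cc f g m n`. From PROD (3.1), (3.2); `η` depends on `c`
(uniform continuity of `c`), unique bracket. The last one: `c^j`. -/
def SpecFix : Prop :=
  ∀ (M : Type u) [MetricSpace M] [CompactSpace M] (f g : M ≃ₜ M) (ε C l : ℝ), Pair f g ε C l →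
    ∀ m n : ℕ, 0 < m → 0 < n →
    (∀ z z', cc f g m n z = z → cc f g m n z' = z' → FwdAsymp f z z' → Dbl f g.symm z z') ∧
    (∀ z z', cc f g m n z = z → cc f g m n z' = z' → FwdAsymp f.symm z z' → Dbl f.symm g z z') ∧
    (∃ η : ℝ, 0 < η ∧ ∀ z z' q, cc f g m n z = z → cc f g m n z' = z' → q ∈ Wl f η z →
      q ∈ Wl f.symm η z' → cc f g m n q = q) ∧
    (∀ z, cc f g m n z = z → ∀ j : ℕ, cc f g (j * m) (j * n) z = z)

/-- POW. The relations at the powers. -/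
def SpecPow : Prop :=
  ∀ (M : Type u) [MetricSpace M] [CompactSpace M] (f g F G : M ≃ₜ M) (k : ℕ),
    (∀ x, f (g x) = g (f x)) → 0 < k → (∀ z, F z = f^[k] z) → (∀ z, G z = g^[k] z) →
    (∀ x y, Dbl F G x y → Dbl f g x y) ∧
    (∀ δ : ℝ, 0 < δ → ∃ δ' : ℝ, 0 < δ' ∧ ∀ x y, y ∈ Wl F δ' x → y ∈ Wl f δ x)

/-- REP. Change of the base point in a leaf. Boundedness of `τ` on bounded sets: apply `f^N`, use
`small` and `proper`; then the limit by `inj`. -/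
def SpecRep : Prop :=
  ∀ (M : Type u) (W : Type v) [MetricSpace M] [CompactSpace M] [NormedAddCommGroup W]
    [InnerProductSpace ℝ W] [FiniteDimensional ℝ W] (E : Emb M W) (f g : M ≃ₜ M)
    (s : Split E f) (t : Split E g) (C₀ : ℝ) (γ : M → W → M), Bun s t C₀ → Gam s t γ →
    ∀ (x z : M) (u e : W), Dbl f g x z → PP s t x u = u → u ≠ 0 → PP s t z e = e →
    ∃ τ : ℝ → ℝ, Continuous τ ∧ (e ≠ 0 → Injective τ) ∧ ∀ ρ : ℝ, γ z (ρ • e) = γ x (τ ρ • u)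

/-- FIXX. At a rational wall `f^a g^b` fixes all the points of the leaf `X` of `p`. -/
def SpecFixx : Prop :=
  ∀ (M : Type u) (W : Type v) [MetricSpace M] [CompactSpace M] [NormedAddCommGroup W]
    [InnerProductSpace ℝ W] [FiniteDimensional ℝ W] (E : Emb M W) (f g : M ≃ₜ M)
    (s : Split E f) (t : Split E g) (θ : ℝ) (γ : M → W → M) (p : M) (a b : ℕ),
    Gam s t.swap γ → f p = p → g p = p → Eig s t θ p → θ * b = a →
    ∀ y, Dbl f g.symm p y → cc f g a b y = y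

/-- PIG. (R3), from FIX. -/
def SpecPig : Prop :=
  ∀ (M : Type u) (W : Type v) [MetricSpace M] [CompactSpace M] [NormedAddCommGroup W]
    [InnerProductSpace ℝ W] [FiniteDimensional ℝ W] (E : Emb M W) (f g : M ≃ₜ M)
    (s : Split E f) (t : Split E g) (C₀ ε C l : ℝ) (γ : M → W → M), Pair f g ε C l →
    Bun s t.swap C₀ → Gam s t.swap γ → ∀ m n : ℕ, 0 < m → 0 < n →
    ∃ κ₀ : ℝ, 0 < κ₀ ∧ ∀ κ : ℝ, 0 < κ → κ ≤ κ₀ → ∀ A : Set M, IsClosed A → Sat f.symm A →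
      ∀ (z : ℕ → M) (e : ℕ → W), (∀ i, z i ∈ A) → (∀ i, PP s t.swap (z i) (e i) = e i) →
      (∀ i, ‖e i‖ = κ) → (∀ i, ∀ ρ ∈ Ioc (0 : ℝ) 1, γ (z i) (ρ • e i) ∉ A) →
      (∀ i, ∀ ρ ∈ Icc (-1 : ℝ) 1, cc f g m n (γ (z i) (ρ • e i)) = γ (z i) (ρ • e i)) →
      ∀ ε' : ℝ, 0 < ε' → ∀ N : ℕ, ∃ i j : ℕ, N ≤ i ∧ i < j ∧ z i ∈ Wl f.symm ε' (z j)

/-- BDRA. (R4), the first half, from FIX, REP, PIG. -/
def SpecBdra : Prop :=
  ∀ (M : Type u) (W : Type v) [MetricSpace M] [CompactSpace M] [NormedAddCommGroup W]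
    [InnerProductSpace ℝ W] [FiniteDimensional ℝ W] (E : Emb M W) (f g : M ≃ₜ M)
    (s : Split E f) (t : Split E g) (C₀ ε C l : ℝ) (γ : M → W → M) (p y : M) (A : Set M)
    (a b : ℕ), Pair f g ε C l → Bun s t.swap C₀ → Gam s t.swap γ → 0 < a → 0 < b →
    (∀ y', Dbl f g.symm p y' → cc f g a b y' = y') → f p = p → IsClosed A → Sat f.symm A →
    f '' A = A → p ∈ A → Dbl f g.symm p y → y ∉ A →
    ∃ (z₀ : M) (e₀ : W) (p₁ : M) (k : ℕ), z₀ ∈ A ∧ Dbl f g.symm p z₀ ∧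
      PP s t.swap z₀ e₀ = e₀ ∧ e₀ ≠ 0 ∧ (∀ ρ ∈ Ioc (0 : ℝ) 1, γ z₀ (ρ • e₀) ∉ A) ∧ 0 < k ∧
      f^[k] p₁ = p₁ ∧ Tendsto (fun n : ℕ => f.symm^[k * n] z₀) atTop (𝓝 p₁)

/-- BDRB. (R4), the second half, from FIX. -/
def SpecBdrb : Prop :=
  ∀ (M : Type u) (W : Type v) [MetricSpace M] [CompactSpace M] [NormedAddCommGroup W]
    [InnerProductSpace ℝ W] [FiniteDimensional ℝ W] (E : Emb M W) (f g : M ≃ₜ M)
    (s : Split E f) (t : Split E g) (C₀ ε C l : ℝ) (γ : M → W → M) (p : M) (A : Set M)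
    (a b : ℕ) (z₀ : M) (e₀ : W) (p₁ : M) (k : ℕ), Pair f g ε C l → Bun s t.swap C₀ →
    Gam s t.swap γ → 0 < a → 0 < b →
    (∀ y', Dbl f g.symm p y' → cc f g a b y' = y') → f p = p → IsClosed A → Sat f.symm A →
    f '' A = A → z₀ ∈ A → Dbl f g.symm p z₀ → PP s t.swap z₀ e₀ = e₀ → e₀ ≠ 0 →
    (∀ ρ ∈ Ioc (0 : ℝ) 1, γ z₀ (ρ • e₀) ∉ A) → 0 < k → f^[k] p₁ = p₁ →
    Tendsto (fun n : ℕ => f.symm^[k * n] z₀) atTop (𝓝 p₁) →
    p₁ ∈ A ∧ ∀ m : ℕ, 0 < m → (∀ y', Dbl f g.symm p₁ y' → cc f g (m * a) (m * b) y' = y') →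
      Arcs f g A p₁

/-- FAN. As in PLANE, with the roles of `f`, `g` and `f.symm`, `g.symm` exchanged. -/
def SpecFan : Prop :=
  ∀ (M : Type u) (W : Type v) [MetricSpace M] [CompactSpace M] [NormedAddCommGroup W]
    [InnerProductSpace ℝ W] [FiniteDimensional ℝ W] (E : Emb M W) (f g : M ≃ₜ M)
    (s : Split E f) (t : Split E g) (C₀ θ : ℝ) (γ : M → W → M) (p : M), Bun s t.swap C₀ →
    Bun s.swap t C₀ → Gam s t.swap γ → f p = p → g p = p → Eig s t θ p →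
    ∃ (y : ℝ → M) (v : ℝ → W), Fan s t θ p γ y v

/-- HALF. (R5): one half of the leaf `X` of `p` does not meet `A`. -/
def SpecHalf : Prop :=
  ∀ (M : Type u) (W : Type v) [MetricSpace M] [CompactSpace M] [NormedAddCommGroup W]
    [InnerProductSpace ℝ W] [FiniteDimensional ℝ W] (E : Emb M W) (f g : M ≃ₜ M)
    (s : Split E f) (t : Split E g) (C₀ θ : ℝ) (γ : M → W → M) (p : M) (A : Set M),
    Bun s t.swap C₀ → Gam s t.swap γ → f p = p → g p = p → Eig s t θ p → f '' A = A →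
    Arcs f g A p →
    ∃ u : W, PP s t.swap p u = u ∧ u ≠ 0 ∧ ∀ ω : ℝ, 0 < ω → γ p (ω • u) ∉ A

/-- SIDE. (R6), from FIX, FIXX: the sign of `v'` is the side of `u`. -/
def SpecSide : Prop :=
  ∀ (M : Type u) (W : Type v) [MetricSpace M] [CompactSpace M] [NormedAddCommGroup W]
    [InnerProductSpace ℝ W] [FiniteDimensional ℝ W] (E : Emb M W) (f g : M ≃ₜ M)
    (s : Split E f) (t : Split E g) (C₀ ε C l θ : ℝ) (γ : M → W → M) (p : M) (A : Set M)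
    (a b : ℕ) (y : ℝ → M) (v : ℝ → W) (u : W), Pair f g ε C l → Bun s t.swap C₀ →
    Gam s t.swap γ → 0 < a → 0 < b → θ * b = a →
    (∀ y', Dbl f g.symm p y' → cc f g a b y' = y') → f p = p → Fan s t θ p γ y v →
    IsClosed A → Sat f.symm A → f '' A = A → PP s t.swap p u = u → u ≠ 0 →
    (∀ ω : ℝ, 0 < ω → γ p (ω • u) ∉ A) →
    ∃ v' : ℝ → W, Fan s t θ p γ y v' ∧ ∃ ρ₀ : ℝ, 0 < ρ₀ ∧ ∀ τ, ∀ ρ ∈ Ioo 0 ρ₀,
      γ (y τ) (ρ • v' τ) ∉ A

/-- GAP. (R7), from PIG. -/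
def SpecGap : Prop :=
  ∀ (M : Type u) (W : Type v) [MetricSpace M] [CompactSpace M] [NormedAddCommGroup W]
    [InnerProductSpace ℝ W] [FiniteDimensional ℝ W] (E : Emb M W) (f g : M ≃ₜ M)
    (s : Split E f) (t : Split E g) (C₀ ε C l θ : ℝ) (γ : M → W → M) (p : M) (A : Set M)
    (a b : ℕ) (y : ℝ → M) (v : ℝ → W), Pair f g ε C l → Bun s t.swap C₀ →
    Gam s t.swap γ → 0 < a → 0 < b → θ * b = a → f p = p → Fan s t θ p γ y v →
    IsClosed A → Sat f.symm A → f '' A = A → p ∈ A →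
    ∀ τ, ∃ ρ : ℝ, 0 < ρ ∧ γ (y τ) (ρ • v τ) ∈ A

/-- CUTQ. (R8), from FIX: `α τ` is the least `ρ > 0` with `γ (y τ) (ρ • v τ) ∈ A`,
`H τ r = γ (y τ) ((α τ * r) • v τ)`. -/
def SpecCutq : Prop :=
  ∀ (M : Type u) (W : Type v) [MetricSpace M] [CompactSpace M] [NormedAddCommGroup W]
    [InnerProductSpace ℝ W] [FiniteDimensional ℝ W] (E : Emb M W) (f g : M ≃ₜ M)
    (s : Split E f) (t : Split E g) (C₀ ε C l θ : ℝ) (γ : M → W → M) (p : M) (A : Set M)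
    (a b : ℕ) (y : ℝ → M) (v : ℝ → W) (ρ₀ : ℝ), Pair f g ε C l → Bun s t.swap C₀ →
    Gam s t.swap γ → 0 < a → 0 < b → θ * b = a → Fan s t θ p γ y v →
    IsClosed A → Sat f.symm A → f '' A = A → g '' A = A → 0 < ρ₀ →
    (∀ τ, ∀ ρ ∈ Ioo 0 ρ₀, γ (y τ) (ρ • v τ) ∉ A) →
    (∀ τ, ∃ ρ : ℝ, 0 < ρ ∧ γ (y τ) (ρ • v τ) ∈ A) →
    ∃ H : ℝ → ℝ → M, Cut2 f.symm g.symm θ p H A

/-- COMMR. From FIX: `cc f g a b` fixes all `H τ r`. -/
def SpecCommr : Prop :=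
  ∀ (M : Type u) [MetricSpace M] [CompactSpace M] (f g : M ≃ₜ M) (ε C l θ : ℝ) (p : M)
    (H : ℝ → ℝ → M) (a b : ℕ), Pair f g ε C l → 0 < a → 0 < b → θ * b = a → Plane f g θ p H →
    CommP f g H

/-- FINR. TRANS and FIN, with `CommP` in place of COMM and `Cut2` in place of `Cut`. -/
def SpecFinr : Prop :=
  ∀ (M : Type u) [MetricSpace M] [CompactSpace M] (f g : M ≃ₜ M) (ε C l θ : ℝ) (p : M)
    (H : ℝ → ℝ → M) (R : Set M), Pair f g ε C l → CommP f g H → ¬ Cut2 f g θ p H R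

/-- WALLQ. The wall lemma at a rational wall. -/
def SpecWallq : Prop :=
  ∀ (M : Type u) (W : Type v) [MetricSpace M] [CompactSpace M] [NormedAddCommGroup W]
    [InnerProductSpace ℝ W] [FiniteDimensional ℝ W] (E : Emb M W) (f g : M ≃ₜ M)
    (ε C l θ : ℝ) (a b : ℕ), Pair f g ε C l → 0 < a → 0 < b → θ * b = a →
    (∀ p ∈ periodicPts f, Good E f g θ p) →
    ∀ A : Set M, Minimal (· ∈ Sset f.symm) A → Sat g.symm A

/-- WALLP. The wall lemma at every wall. -/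
def SpecWallp : Prop :=
  ∀ (M : Type u) (W : Type v) [MetricSpace M] [CompactSpace M] [NormedAddCommGroup W]
    [InnerProductSpace ℝ W] [FiniteDimensional ℝ W] (E : Emb M W) (f g : M ≃ₜ M)
    (ε C l θ : ℝ), Pair f g ε C l → 0 < θ → (∀ p ∈ periodicPts f, Good E f g θ p) →
    ∀ A : Set M, Minimal (· ∈ Sset f.symm) A → Sat g.symm A

/-! ### The side of `ℤ^k` -/

/-- The step from `n` to `n'` crosses the wall of `χ i`, with the partner `χ j`; the ratio may be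
rational. -/
structure Crossr {k : ℕ} {J : Type*} (χ : J → Fin k → ℝ) (n n' : Fin k → ℤ) (i j : J) : Prop where
  reg : Regular χ n
  reg' : Regular χ n'
  neg : ∃ t : ℝ, 0 < t ∧ χ j = -(t • χ i)
  lt : ev (χ i) n < 0
  gt : 0 < ev (χ i) n'
  only : ∀ l, ¬ (ev (χ l) n < 0 ↔ ev (χ l) n' < 0) → ∃ c : ℝ, χ l = c • χ i

/-- ARITHR. -/
def SpecArithr : Prop :=
  ∀ (k : ℕ) (J : Type w) [Finite J] (χ : J → Fin k → ℝ), ∀ n : Fin k → ℤ, Regular χ n →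
    ∃ (m : ℕ) (c : ℕ → Fin k → ℤ), c 0 = n ∧ c m = -n ∧
      ∀ i < m, Step χ (c i) (c (i + 1)) ∨ ∃ l l', Crossr χ (c i) (c (i + 1)) l l'

/-- EIGR. -/
def SpecEigr : Prop :=
  ∀ (M : Type u) (W : Type v) [MetricSpace M] [CompactSpace M] [NormedAddCommGroup W]
    [InnerProductSpace ℝ W] [FiniteDimensional ℝ W] (E : Emb M W) (k : ℕ) (J : Type w) [Finite J]
    (A : (Fin k → ℤ) → M ≃ₜ M) (χ : J → Fin k → ℝ) (F : J → M → Submodule ℝ W), Act E A χ F →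
    ∀ (n n' : Fin k → ℤ) (i j : J), Crossr χ n n' i j →
      (∀ x, Module.finrank ℝ (coarse χ F i x) = 1) → (∀ x, Module.finrank ℝ (coarse χ F j x) = 1) →
      ∀ p ∈ periodicPts (A n), Good E (A n) (A n') (-(ev (χ i) n' / ev (χ i) n)) p

/-- CHNR. The abstract theorem, from ARITHR, EIGR, WALLP, PAIR. -/
def SpecChainr : Prop :=
  ∀ (M : Type u) (W : Type v) [MetricSpace M] [CompactSpace M] [ConnectedSpace M]
    [NormedAddCommGroup W] [InnerProductSpace ℝ W] [FiniteDimensional ℝ W] (E : Emb M W) (k : ℕ)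
    (J : Type w) [Finite J] (A : (Fin k → ℤ) → M ≃ₜ M) (χ : J → Fin k → ℝ)
    (F : J → M → Submodule ℝ W), Act E A χ F →
    (∀ i j, ∀ t : ℝ, 0 < t → χ i = -(t • χ j) →
      ∀ x, Module.finrank ℝ (coarse χ F i x) = 1) →
    ∀ n : Fin k → ℤ, Regular χ n → TopTransitive (A n)

end Pool.Agent.Lib.MP610fe3.HR
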