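import Pool.Agent.Lib.MP_610fe3_an.HR.TRANS
import Pool.Agent.Lib.MP_610fe3_an.HR.FIN
import Pool.Agent.Lib.MP_610fe3_an.HR.Spec2

/-!
# Module FINR: (6.7) and (6.8) with `CommP` in place of COMM and `Cut2` in place of `Cut`

The proofs are those of TRANS and FIN: the only place where the position of the closed set `R` is
used is the height `r` with `ρ r = 1`, and there `r` is positive since `ρ 0 = 0`.
-/

set_option autoImplicit false

open Set Filter Function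
open scoped Topology

namespace Pool.Agent.Lib.MP610fe3.HR

open Cf CH TRANSAux FINAux

universe u

namespace FINRAux

/-- The transport between nearby leaves and the Lebesgue number, (6.7), from `CommP`. -/
theorem trans {M : Type u} [MetricSpace M] [CompactSpace M] {f g : M ≃ₜ M} {ε C l θ : ℝ} {p : M}
    {H : ℝ → ℝ → M} {R : Set M} (hP : Pair f g ε C l) (hC : CommP f g H)
    (hcut : Cut2 f g θ p H R) (η : ℝ) (hη : 0 < η) :
    ∃ τ₀ δ : ℝ, 0 < δ ∧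
      (∀ τ ∈ Icc τ₀ (τ₀ + 1), ∀ r ∈ Icc (0 : ℝ) 1, H τ r ∈ Wl f.symm η (H τ 0)) ∧
      ∀ τ ∈ Icc τ₀ (τ₀ + 1), ∀ τ' ∈ Icc τ₀ (τ₀ + 1), |τ - τ'| ≤ δ → ∀ r' ∈ Icc (0 : ℝ) 1,
        ∃ r ∈ Icc (0 : ℝ) 1, H τ r ∈ Wl f η (H τ' r') := by
  have pl := hcut.plane
  have hb := hP.one.br
  have hε := hb.ε_pos
  obtain ⟨ηc, hηc, hcomm⟩ := hC
  obtain ⟨εp, hεp, hprop⟩ := pl.proper
  obtain ⟨σ, hσ, s1, s2, s3, s4⟩ : ∃ σ : ℝ, 0 < σ ∧ σ ≤ η ∧ σ ≤ ηc ∧ σ ≤ εp ∧ 2 * σ ≤ ε := by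
    refine ⟨min (min η ηc) (min εp (ε / 2)), by positivity, ?_, ?_, ?_, ?_⟩
    · exact (min_le_left _ _).trans (min_le_left _ _)
    · exact (min_le_left _ _).trans (min_le_right _ _)
    · exact (min_le_right _ _).trans (min_le_left _ _)
    · have : min (min η ηc) (min εp (ε / 2)) ≤ ε / 2 := (min_le_right _ _).trans (min_le_right _ _)
      linarith
  have s5 : σ ≤ ε := by linarith
  obtain ⟨δb, hδb, hbr⟩ := hb.exist σ hσ
  obtain ⟨T, hT⟩ := pl.small (min σ (δb / 4)) 1 (by positivity)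
  set τ₀ : ℝ := T - 1 with hτ₀
  have hsm : ∀ τ ∈ Icc τ₀ (τ₀ + 1), ∀ r ∈ Icc (0 : ℝ) 1,
      H τ r ∈ Wl f.symm σ (H τ 0) ∧ dist (H τ r) (H τ 0) ≤ δb / 4 := by
    intro τ hτ r hr
    have h1 := hT τ (by have := hτ.2; rw [hτ₀] at this; linarith) r
      (by rw [abs_of_nonneg hr.1]; exact hr.2)
    exact ⟨Wl_mono (min_le_left _ _) h1, (Wl_dist h1).trans (min_le_right _ _)⟩
  obtain ⟨δ₁, hδ₁, hw⟩ := base_wl pl τ₀ (min σ (δb / 4)) (by positivity)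
  obtain ⟨r₀, hr₀⟩ := hprop τ₀ (τ₀ + 1)
  obtain ⟨δ₂, hδ₂, htop⟩ := top_near hb pl σ τ₀ (τ₀ + 1) r₀ s5
    (fun τ hτ => (hsm τ hτ 1 ⟨zero_le_one, le_rfl⟩).1)
  refine ⟨τ₀, min δ₁ δ₂, lt_min hδ₁ hδ₂, fun τ hτ r hr => Wl_mono s1 (hsm τ hτ r hr).1, ?_⟩
  intro τ hτ τ' hτ' hd
  have hd1 : |τ - τ'| ≤ δ₁ := hd.trans (min_le_left _ _)
  have hd2 : |τ - τ'| ≤ δ₂ := hd.trans (min_le_right _ _)
  have hbase : H τ 0 ∈ Wl f (min σ (δb / 4)) (H τ' 0) := hw τ hτ.1 τ' hτ'.1 hd1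
  -- the brackets
  have hex : ∀ r : ℝ, ∃ z, r ∈ Icc (0 : ℝ) 1 → z ∈ Wl f σ (H τ' r) ∧ z ∈ Wl f.symm σ (H τ 0) := by
    intro r
    by_cases hr : r ∈ Icc (0 : ℝ) 1
    · obtain ⟨z, hz⟩ := hbr (H τ' r) (H τ 0) (by
        have h1 := (hsm τ' hτ' r hr).2
        have h2 : dist (H τ' 0) (H τ 0) ≤ δb / 4 := by
          rw [dist_comm]
          exact (Wl_dist hbase).trans (min_le_right _ _)
        have h3 := dist_triangle (H τ' r) (H τ' 0) (H τ 0)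
        linarith)
      exact ⟨z, fun _ => hz⟩
    · exact ⟨H τ 0, fun h => absurd h hr⟩
  choose q hq using hex
  have hqu : ∀ r ∈ Icc (0 : ℝ) 1, ∀ z, z ∈ Wl f σ (H τ' r) → z ∈ Wl f.symm σ (H τ 0) → z = q r :=
    fun r hr z h1 h2 => hb.unique (H τ' r) (H τ 0) z (q r) (Wl_mono s5 h1) (Wl_mono s5 h2)
      (Wl_mono s5 (hq r hr).1) (Wl_mono s5 (hq r hr).2)
  have hqc : ContinuousOn q (Icc 0 1) := by
    refine contOn_of_graph isCompact_univ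
      (G := {t : ℝ × M | t.2 ∈ Wl f σ (H τ' t.1)} ∩ {t : ℝ × M | t.2 ∈ Wl f.symm σ (H τ 0)})
      ((closed_wl f σ continuous_snd ((cont_right pl τ').comp continuous_fst)).inter
        (closed_wl f.symm σ continuous_snd continuous_const))
      (fun r hr => ⟨mem_univ _, (hq r hr).1, (hq r hr).2⟩)
      (fun r hr z _ hz => hqu r hr z hz.1 hz.2)
  have h01 : (0 : ℝ) ∈ Icc (0 : ℝ) 1 := ⟨le_rfl, zero_le_one⟩
  have h11 : (1 : ℝ) ∈ Icc (0 : ℝ) 1 := ⟨zero_le_one, le_rfl⟩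
  have hq0 : q 0 = H τ 0 :=
    (hqu 0 h01 (H τ 0) (Wl_mono (min_le_left _ _) hbase) (mem_Wl_self hσ.le)).symm
  have hleaf := hcomm τ τ' q hqc (fun r hr => ⟨Wl_mono s2 (hq r hr).1, Wl_mono s2 (hq r hr).2⟩) hq0
  -- the heights
  have hex2 : ∀ r : ℝ, ∃ s, r ∈ Icc (0 : ℝ) 1 → H τ s = q r := by
    intro r
    by_cases hr : r ∈ Icc (0 : ℝ) 1
    · obtain ⟨s, hs⟩ := pl.surj τ (q r) (hleaf r hr)
      exact ⟨s, fun _ => hs⟩
    · exact ⟨0, fun h => absurd h hr⟩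
  choose ρ hρ using hex2
  have hρb : ∀ r ∈ Icc (0 : ℝ) 1, ρ r ∈ Icc (-r₀) r₀ := by
    intro r hr
    have h1 := hr₀ τ hτ (ρ r) (by rw [hρ r hr]; exact Wl_mono s3 (hq r hr).2)
    exact abs_le.1 h1
  have hρc : ContinuousOn ρ (Icc 0 1) := by
    refine contOn_of_graph (isCompact_Icc (a := -r₀) (b := r₀))
      (G := {t : ℝ × ℝ | H τ t.2 ∈ Wl f σ (H τ' t.1)} ∩ {t : ℝ × ℝ | H τ t.2 ∈ Wl f.symm σ (H τ 0)})
      ((closed_wl f σ ((cont_right pl τ).comp continuous_snd)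
        ((cont_right pl τ').comp continuous_fst)).inter
        (closed_wl f.symm σ ((cont_right pl τ).comp continuous_snd) continuous_const))
      (fun r hr => ⟨hρb r hr, by
        change H τ (ρ r) ∈ Wl f σ (H τ' r)
        rw [hρ r hr]; exact (hq r hr).1, by
        change H τ (ρ r) ∈ Wl f.symm σ (H τ 0)
        rw [hρ r hr]; exact (hq r hr).2⟩)
      (fun r hr s _ hs => pl.inj τ _ _ ((hqu r hr (H τ s) hs.1 hs.2).trans (hρ r hr).symm))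
  have hρ0 : ρ 0 = 0 := pl.inj τ _ _ ((hρ 0 h01).trans hq0)
  have hzero : ∀ r ∈ Icc (0 : ℝ) 1, ρ r = 0 → r = 0 := by
    intro r hr h
    have e1 : q r = H τ 0 := by rw [← hρ r hr, h]
    have h1 : H τ' r ∈ Wl f (σ + σ) (H τ' 0) := by
      refine Wl_trans ?_ (Wl_comm (e1 ▸ (hq r hr).1))
      exact Wl_mono (min_le_left _ _) hbase
    have h2 := hb.unique (H τ' 0) (H τ' 0) (H τ' r) (H τ' 0) (Wl_mono (by linarith) h1)
      (Wl_mono s5 (hsm τ' hτ' r hr).1) (mem_Wl_self hε.le) (mem_Wl_self hε.le)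
    exact pl.inj τ' _ _ h2
  have hpos1 : 0 < ρ 1 := by
    by_contra hn
    refine htop τ hτ τ' hτ' hd2 (ρ 1) ⟨(hρb 1 h11).1, not_lt.1 hn⟩ ?_ ?_
    · rw [hρ 1 h11]; exact (hq 1 h11).1
    · rw [hρ 1 h11]; exact (hq 1 h11).2
  have hlow : ∀ r ∈ Icc (0 : ℝ) 1, 0 ≤ ρ r := by
    intro r hr
    by_contra hn
    push Not at hn
    obtain ⟨s, hs, hs0⟩ := intermediate_value_Icc hr.2
      (hρc.mono (Icc_subset_Icc_left hr.1)) ⟨hn.le, hpos1.le⟩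
    have h1 := hzero s ⟨hr.1.trans hs.1, hs.2⟩ hs0
    have h2 : r = 0 := le_antisymm (h1 ▸ hs.1) hr.1
    rw [h2, hρ0] at hn
    exact lt_irrefl _ hn
  have hR : ∀ r ∈ Icc (0 : ℝ) 1, ρ r = 1 → r = 1 := by
    intro r hr h
    by_contra hne
    have hlt : r < 1 := lt_of_le_of_ne hr.2 hne
    have hr0 : 0 < r := by
      refine lt_of_le_of_ne hr.1 fun h0 => ?_
      rw [← h0, hρ0] at h
      exact zero_ne_one h
    refine hcut.below τ' r ⟨hr0, hlt⟩ ?_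
    refine hcut.sat (H τ 1) (hcut.top τ) _ ?_
    have e1 : q r = H τ 1 := by rw [← hρ r hr, h]
    have h1 : H τ 1 ∈ Wl f ε (H τ' r) := Wl_mono s5 (e1 ▸ (hq r hr).1)
    exact asymp_of_wl hP.one.decs h1
  have hup : ∀ r ∈ Icc (0 : ℝ) 1, ρ r ≤ 1 := by
    intro r hr
    by_contra hn
    push Not at hn
    obtain ⟨s, hs, hs1⟩ := intermediate_value_Icc hr.1
      (hρc.mono (Icc_subset_Icc_right hr.2)) ⟨by rw [hρ0]; exact zero_le_one, hn.le⟩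
    have h1 := hR s ⟨hs.1, hs.2.trans hr.2⟩ hs1
    have h2 : s = r := le_antisymm hs.2 (by rw [h1]; exact hr.2)
    rw [h2] at hs1
    rw [hs1] at hn
    exact lt_irrefl _ hn
  intro r hr
  refine ⟨ρ r, ⟨hlow r hr, hup r hr⟩, ?_⟩
  rw [hρ r hr]
  exact Wl_mono s1 (hq r hr).1

end FINRAux

/-- **FINR.** -/
theorem specFinr : SpecFinr.{u} := by
  intro M _ _ f g ε C l θ p H R hP hcm hC
  have hε : 0 < ε := hP.one.decs.ε_pos
  have hη : 0 < ε / 8 := by positivity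
  obtain ⟨τ₀, δ, hδ, h1, h2⟩ := FINRAux.trans hP hcm hC (ε / 8) hη
  have hcont : Continuous (fun r : ℝ => H (τ₀ + 1) r) :=
    hC.plane.cont.comp (continuous_const.prodMk continuous_id)
  have hne : H (τ₀ + 1) 0 ≠ H (τ₀ + 1) 1 := fun h => zero_ne_one (hC.plane.inj _ _ _ h)
  have hτ : τ₀ + 1 ∈ Icc τ₀ (τ₀ + 1) := ⟨by linarith, le_rfl⟩
  obtain ⟨m, hm⟩ := exists_nat_gt (1 / δ)
  have hm0 : (0 : ℝ) < m := lt_trans (by positivity) hm
  refine TC.specChn M f univ univ ε C (-Real.log l) (dist (H (τ₀ + 1) 0) (H (τ₀ + 1) 1))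
    (ε / 4) (ε / 8) (ε / 8) 1 m (fun _ => (fun r => H (τ₀ + 1) r) '' Icc (0 : ℝ) 1)
    (rates hP.one univ) (dist_pos.2 hne) le_rfl (by linarith) (by linarith) (by linarith)
    hη hη (fun _ => ?_) (fun _ => ?_)
  · refine ⟨isCompact_Icc.image hcont, ?_, subset_univ _, ?_, ?_⟩
    · exact ⟨⟨_, mem_image_of_mem _ (left_mem_Icc.2 zero_le_one)⟩,
        isPreconnected_Icc.image _ hcont.continuousOn⟩
    · rintro _ ⟨r, hr, rfl⟩ _ ⟨r', hr', rfl⟩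
      have h3 := h1 _ hτ r hr
      have h4 := h1 _ hτ r' hr'
      rw [← sp_eq_wl] at h3 h4
      have := TM.Sp_trans (TM.Sp_comm h3) h4
      exact TM.Sp_mono (by linarith) this
    · exact ⟨_, mem_image_of_mem _ (left_mem_Icc.2 zero_le_one), _,
        mem_image_of_mem _ (right_mem_Icc.2 zero_le_one), le_rfl⟩
  · refine ⟨m, le_rfl, fun i => H (τ₀ + i / m) 0, ?_⟩
    rintro _ ⟨r, hr, rfl⟩
    have hmem : ∀ i : ℕ, i ≤ m → τ₀ + (i : ℝ) / m ∈ Icc τ₀ (τ₀ + 1) := fun i hi => by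
      have h3 : (i : ℝ) / m ≤ 1 := by
        rw [div_le_one hm0]
        exact_mod_cast hi
      have h4 : 0 ≤ (i : ℝ) / m := by positivity
      exact ⟨by linarith, by linarith⟩
    have hmm : τ₀ + (m : ℝ) / m = τ₀ + 1 := by rw [div_self hm0.ne']
    obtain ⟨q, hq, hPq, hTq⟩ := back (fun _ r => r ∈ Icc (0 : ℝ) 1)
      (fun i r r' => H (τ₀ + i / m) r ∈ Wl f (ε / 8) (H (τ₀ + (i + 1 : ℕ) / m) r')) m
      (fun i hi r' hr' => by
        obtain ⟨r, hr, h3⟩ := h2 _ (hmem i hi.le) _ (hmem (i + 1) hi) (by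
          have h5 : τ₀ + (i : ℝ) / m - (τ₀ + ((i + 1 : ℕ) : ℝ) / m) = -(1 / m) := by
            push_cast
            field_simp
            ring
          rw [h5, abs_neg, abs_of_pos (by positivity)]
          rw [div_lt_iff₀ hδ] at hm
          rw [div_le_iff₀ hm0]
          linarith) r' hr'
        exact ⟨r, hr, h3⟩) r hr
    refine ⟨fun i => H (τ₀ + i / m) (q i), ?_, ⟨fun i hi => ?_, fun i hi => ?_⟩, ?_⟩
    · refine ⟨q 0, hPq 0 (Nat.zero_le _), ?_⟩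
      show H (τ₀ + 1) (q 0) = TM.ev f ((1 : ℕ) : ℤ) (H (τ₀ + ((0 : ℕ) : ℝ) / m) (q 0))
      rw [Nat.cast_one, TM.ev_one, hC.plane.eqf]
      simp
    · rw [sp_eq_wl]
      exact h1 _ (hmem i hi) _ (hPq i hi)
    · rw [sp_eq_wl]
      exact wl_comm (hTq i hi)
    · show H (τ₀ + (m : ℝ) / m) (q m) = H (τ₀ + 1) r
      rw [hmm, hq]

end Pool.Agent.Lib.MP610fe3.HR
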