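import Pool.Agent.Lib.MP_610fe3_an.HR.Spec2
import Pool.Agent.Lib.MP_610fe3_an.HR.DBL
import Pool.Agent.Lib.MP_610fe3_an.HR.PROD

/-!
# Module FIX: points fixed by `f^m g^n`

(R1): two points fixed by `c = f^m g^n`, `m, n > 0`, and positively asymptotic under `f` are in the
same leaf `X`; brackets of fixed points of `c` are fixed.
-/

set_option autoImplicit false

open Set Filter Function
open scoped Topology

namespace Pool.Agent.Lib.MP610fe3.HR

open Cf CH

universe u

namespace FIXAux

variable {M : Type u} [MetricSpace M] {f g : M ≃ₜ M} {ε C l : ℝ} {m n : ℕ}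

theorem cc_f (hc : ∀ x, f (g x) = g (f x)) (m n : ℕ) (x : M) :
    cc f g m n (f x) = f (cc f g m n x) := by
  unfold cc
  have e1 : g^[n] (f x) = f (g^[n] x) := (PRODAux.comm_iter hc 1 n x).symm
  rw [e1, ← iterate_succ_apply, iterate_succ_apply']

theorem cc_g (hc : ∀ x, f (g x) = g (f x)) (m n : ℕ) (x : M) :
    cc f g m n (g x) = g (cc f g m n x) := by
  unfold cc
  have e1 : ∀ w : M, f^[m] (g w) = g (f^[m] w) := fun w => PRODAux.comm_iter hc m 1 w
  rw [← iterate_succ_apply, iterate_succ_apply', e1]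

theorem cc_continuous (m n : ℕ) : Continuous (cc f g m n) :=
  (f.continuous.iterate m).comp (g.continuous.iterate n)

theorem cc_fsymm (hc : ∀ x, f (g x) = g (f x)) (m n : ℕ) (x : M) :
    cc f g m n (f.symm x) = f.symm (cc f g m n x) := by
  apply f.injective
  rw [f.apply_symm_apply, ← cc_f hc, f.apply_symm_apply]

theorem cc_gsymm (hc : ∀ x, f (g x) = g (f x)) (m n : ℕ) (x : M) :
    cc f g m n (g.symm x) = g.symm (cc f g m n x) := by
  apply g.injective
  rw [g.apply_symm_apply, ← cc_g hc, g.apply_symm_apply]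

theorem cc_fiter (hc : ∀ x, f (g x) = g (f x)) (m n k : ℕ) (x : M) :
    cc f g m n (f^[k] x) = f^[k] (cc f g m n x) := by
  induction k generalizing x with
  | zero => rfl
  | succ k ih => rw [iterate_succ_apply, ih, cc_f hc, ← iterate_succ_apply]

theorem cc_fsymm_iter (hc : ∀ x, f (g x) = g (f x)) (m n k : ℕ) (x : M) :
    cc f g m n (f.symm^[k] x) = f.symm^[k] (cc f g m n x) := by
  induction k generalizing x with
  | zero => rfl
  | succ k ih => rw [iterate_succ_apply, ih, cc_fsymm hc, ← iterate_succ_apply]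

/-- `c^j`. -/
theorem cc_mul (hc : ∀ x, f (g x) = g (f x)) {z : M} (h : cc f g m n z = z) (j : ℕ) :
    cc f g (j * m) (j * n) z = z := by
  induction j with
  | zero => simp [cc]
  | succ j ih =>
    have e : cc f g ((j + 1) * m) ((j + 1) * n) z = cc f g m n (cc f g (j * m) (j * n) z) := by
      unfold cc
      have e1 : (j + 1) * m = m + j * m := by ring
      have e2 : (j + 1) * n = n + j * n := by ring
      rw [e1, e2, iterate_add_apply, iterate_add_apply, PRODAux.comm_iter hc (j * m) n]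
    rw [e, ih, h]

theorem cc_symm (hc : ∀ x, f (g x) = g (f x)) {z : M} (h : cc f g m n z = z) :
    cc f.symm g.symm m n z = z := by
  have hc' : ∀ x, f (g.symm x) = g.symm (f x) := fun x => (comm_symm (fun x => (hc x).symm) x).symm
  have hcs : ∀ x, f.symm (g.symm x) = g.symm (f.symm x) := fun x => comm_symm hc' x
  have e : ∀ w : M, cc f.symm g.symm m n (cc f g m n w) = w := by
    intro w
    unfold cc
    rw [PRODAux.comm_iter hcs m n]
    have e1 : f.symm^[m] (f^[m] (g^[n] w)) = g^[n] w :=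
      (Function.LeftInverse.iterate f.symm_apply_apply m) _
    rw [e1]
    exact (Function.LeftInverse.iterate g.symm_apply_apply n) _
  rw [← h, e, h]

/-- (R1), 1. -/
theorem fix1 [CompactSpace M] (h : Pair f g ε C l) (hm : 0 < m) {z z' : M}
    (hz : cc f g m n z = z) (hz' : cc f g m n z' = z') (hf : FwdAsymp f z z') :
    Dbl f g.symm z z' := by
  obtain ⟨v, h1, h2⟩ := PRODAux.prod1 h hf
  have hcf : ∀ x, cc f g m n (f x) = f (cc f g m n x) := fun x => cc_f h.comm m n x
  have hcg : ∀ x, cc f g m n (g x) = g (cc f g m n x) := fun x => cc_g h.comm m n x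
  have hcg' : ∀ x, cc f g m n (g.symm x) = g.symm (cc f g m n x) := fun x => cc_gsymm h.comm m n x
  have h1' := DblAux.of_c (cc_continuous m n) hcf hcg h1
  have h2' := DblAux.of_c (cc_continuous m n) hcf hcg' h2
  rw [hz] at h1'
  rw [hz'] at h2'
  have e : v = cc f g m n v :=
    PRODAux.prod2 h (PRODAux.dbl_trans (PRODAux.dbl_symm h1) h1')
      (PRODAux.dbl_trans h2 (PRODAux.dbl_symm h2'))
  have e2 : z = v := by
    refine eq_of_forall_dist_le fun η hη => ?_
    obtain ⟨K, hK⟩ := h1 η hη
    have h3 := hK (K * m) (K * n) (le_trans (Nat.le_mul_of_pos_right K hm) (Nat.le_add_right _ _))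
    have e3 : f^[K * m] (g^[K * n] z) = z := cc_mul h.comm hz K
    have e4 : f^[K * m] (g^[K * n] v) = v := cc_mul h.comm e.symm K
    rwa [e3, e4] at h3
  rw [e2]
  exact h2

/-- (R1), 3. -/
theorem fix3 [CompactSpace M] (h : Pair f g ε C l) (m n : ℕ) :
    ∃ η : ℝ, 0 < η ∧ ∀ z z' q, cc f g m n z = z → cc f g m n z' = z' → q ∈ Wl f η z →
      q ∈ Wl f.symm η z' → cc f g m n q = q := by
  have hε := h.one.br.ε_pos
  obtain ⟨δ, hδ, hu⟩ := Metric.uniformContinuous_iff.1
    (CompactSpace.uniformContinuous_of_continuous (cc_continuous (f := f) (g := g) m n)) ε hε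
  refine ⟨min (δ / 2) ε, lt_min (by positivity) hε, fun z z' q hz hz' h1 h2 => ?_⟩
  have hη : min (δ / 2) ε ≤ δ / 2 := min_le_left _ _
  refine h.one.br.unique z z' _ _ ?_ ?_ (H1.wl_mono h1 (min_le_right _ _))
    (H1.wl_mono h2 (min_le_right _ _))
  · intro k
    have e1 : f^[k] (cc f g m n q) = cc f g m n (f^[k] q) := (cc_fiter h.comm m n k q).symm
    have e2 : f^[k] z = cc f g m n (f^[k] z) := by rw [cc_fiter h.comm, hz]
    rw [e1, e2]
    refine (hu ?_).le
    have := h1 k
    linarith
  · intro k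
    have e1 : f.symm^[k] (cc f g m n q) = cc f g m n (f.symm^[k] q) :=
      (cc_fsymm_iter h.comm m n k q).symm
    have e2 : f.symm^[k] z' = cc f g m n (f.symm^[k] z') := by rw [cc_fsymm_iter h.comm, hz']
    rw [e1, e2]
    refine (hu ?_).le
    have := h2 k
    linarith

end FIXAux

theorem specFix : SpecFix.{u} := by
  intro M _ _ f g ε C l h m n hm hn
  refine ⟨fun z z' hz hz' hf => FIXAux.fix1 h hm hz hz' hf, fun z z' hz hz' hf => ?_,
    FIXAux.fix3 h m n, fun z hz j => FIXAux.cc_mul h.comm hz j⟩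
  exact FIXAux.fix1 h.symm_both hm (FIXAux.cc_symm h.comm hz) (FIXAux.cc_symm h.comm hz') hf

end Pool.Agent.Lib.MP610fe3.HR
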