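import Pool.Agent.Lib.MP_610fe3_an.HR.Spec2

/-!
# (R2): at a rational wall `f^a g^b` fixes the leaf of the common fixed point
-/

set_option autoImplicit false

open Set Filter Function
open scoped Topology

namespace Pool.Agent.Lib.MP610fe3.HR

open Cf CH

universe u v

theorem specFixx : SpecFixx.{u, v} := by
  intro M W _ _ _ _ _ E f g s t θ γ p a b G hfp hgp hEig hθ y hy
  obtain ⟨α, β, -, -, hsX, htX, -, -⟩ := hEig
  obtain ⟨w, hw, rfl⟩ := G.surj p y hy
  have hPw : ∀ c : ℝ, PP s t.swap p (c • w) = c • w := fun c => by rw [map_smul, hw]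
  have hsw : ∀ c : ℝ, s.D p (c • w) = Real.exp (-α) • (c • w) := fun c => by
    have := hsX (c • w)
    rwa [hPw] at this
  have htw : ∀ c : ℝ, t.D p (c • w) = Real.exp (α * θ) • (c • w) := fun c => by
    have := htX (c • w)
    rwa [hPw] at this
  have hEw : E.P p w = w := by
    rw [← hw]
    exact congrArg (fun L : W →L[ℝ] W => L (t.swap.S p w)) (s.PS p)
  have hgp' : g.symm p = p := by
    conv_lhs => rw [← hgp]
    exact g.symm_apply_apply p
  have hti : ∀ c : ℝ, t.Di p ((Real.exp (α * θ) * c) • w) = c • w := fun c => by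
    have h1 : t.Di (g p) (t.D p (c • w)) = E.P p (c • w) :=
      congrArg (fun L : W →L[ℝ] W => L (c • w)) (t.inv1 p)
    rw [hgp, htw, map_smul, map_smul (E.P p), hEw] at h1
    rwa [mul_smul, map_smul]
  have hF : ∀ c : ℝ, f (γ p (c • w)) = γ p ((Real.exp (-α) * c) • w) := fun c => by
    rw [G.eqf p _ (hPw c), hfp, hsw, smul_smul]
  have hG : ∀ c : ℝ, g (γ p (c • w)) = γ p ((Real.exp (α * θ) * c) • w) := fun c => by
    have h1 := G.eqg p ((Real.exp (α * θ) * c) • w) (hPw _)
    have h2 : t.swap.D p ((Real.exp (α * θ) * c) • w) = c • w := hti c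
    rw [h2, hgp'] at h1
    rw [← h1, g.apply_symm_apply]
  have hFn : ∀ (n : ℕ) (c : ℝ), f^[n] (γ p (c • w)) = γ p ((Real.exp (-(α * n)) * c) • w) := by
    intro n
    induction n with
    | zero => intro c; simp
    | succ n ih =>
        intro c
        rw [iterate_succ_apply, hF, ih, ← mul_assoc, ← Real.exp_add]
        congr 4
        push_cast
        ring
  have hGn : ∀ (n : ℕ) (c : ℝ), g^[n] (γ p (c • w)) = γ p ((Real.exp (α * θ * n) * c) • w) := by
    intro n
    induction n with
    | zero => intro c; simp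
    | succ n ih =>
        intro c
        rw [iterate_succ_apply, hG, ih, ← mul_assoc, ← Real.exp_add]
        congr 4
        push_cast
        ring
  have h1 : γ p w = γ p ((1 : ℝ) • w) := by rw [one_smul]
  show f^[a] (g^[b] (γ p w)) = γ p w
  rw [h1, hGn, hFn, mul_one, ← Real.exp_add]
  have h2 : -(α * a) + α * θ * b = 0 := by
    rw [mul_assoc, hθ]
    ring
  rw [h2, Real.exp_zero]

end Pool.Agent.Lib.MP610fe3.HR
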