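import Pool.Agent.Lib.MP_610fe3_an.HR.Spec
import Pool.Agent.Lib.MP_610fe3_an.Cf.CocLim
import Pool.Agent.Lib.MP_610fe3_an.Commute

/-!
# Higher rank actions: global parametrization of the double leaves (module GAM)

The parametrization `γ x w` is `f^{-n}` of the point of the local leaf of `f^n x` whose
coordinate is `D f^n w`, `n` large.
-/

set_option autoImplicit false

open Set Filter Function
open scoped Topology

namespace Pool.Agent.Lib.MP610fe3.HR

open Cf CH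

universe u v

namespace GamAux

variable {M : Type u} {W : Type v} [MetricSpace M] [NormedAddCommGroup W] [NormedSpace ℝ W]

/-- The local data at the scale `e`. -/
structure Dat (f g : M ≃ₜ M) (k : Coc W f) (e C l : ℝ) (ψ : M → M → W) : Prop where
  e_pos : 0 < e
  l_pos : 0 < l
  l_lt : l < 1
  an_le : ∀ n x, k.an n x ≤ C * l ^ n
  mem : ∀ x, ∀ z ∈ Lf f g e x, k.S x (ψ x z) = ψ x z
  upper : ∀ x, ∀ z ∈ Lf f g e x, ‖ψ x z‖ ≤ 2 * dist z x
  equiv : ∀ x, ∀ z ∈ Lf f g e x, ψ (f x) (f z) = k.D x (ψ x z)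
  inj : ∀ x, ∀ z ∈ Lf f g e x, ∀ z' ∈ Lf f g e x, ψ x z = ψ x z' → z = z'
  cont : ContinuousOn (fun p : M × M => ψ p.1 p.2) {p | p.2 ∈ Lf f g e p.1}
  closed : IsClosed {p : M × M | p.2 ∈ Lf f g e p.1}
  surj : ∀ ε' : ℝ, 0 < ε' → ∃ r : ℝ, 0 < r ∧ ∀ x w, k.S x w = w → ‖w‖ ≤ r →
    ∃ z ∈ Lf f g ε' x, ψ x z = w
  refl : ∀ x, Dbl f g x x
  inv : ∀ x y, Dbl f g (f x) (f y) ↔ Dbl f g x y

/-- `y` is the point with the parameter `w` on the double leaf of `x`. -/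
def Rel (f g : M ≃ₜ M) (k : Coc W f) (e : ℝ) (ψ : M → M → W) (x : M) (w : W) (y : M) : Prop :=
  k.S x w = w ∧ Dbl f g x y ∧
    ∃ n : ℕ, f^[n] y ∈ Wl f e (f^[n] x) ∧ ψ (f^[n] x) (f^[n] y) = k.A n x w

variable {f g : M ≃ₜ M} {k : Coc W f} {e C l : ℝ} {ψ : M → M → W}

namespace Dat

variable (h : Dat f g k e C l ψ)
include h

theorem iter_dbl (n : ℕ) {x y : M} : Dbl f g (f^[n] x) (f^[n] y) ↔ Dbl f g x y := by
  induction n generalizing x y with
  | zero => exact Iff.rfl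
  | succ n ih => rw [iterate_succ_apply, iterate_succ_apply, ih, h.inv]

theorem at_succ {x y : M} {w : W} {n : ℕ} (hd : Dbl f g x y) (hw : f^[n] y ∈ Wl f e (f^[n] x))
    (he : ψ (f^[n] x) (f^[n] y) = k.A n x w) :
    f^[n + 1] y ∈ Wl f e (f^[n + 1] x) ∧ ψ (f^[n + 1] x) (f^[n + 1] y) = k.A (n + 1) x w := by
  have h1 : f^[n] y ∈ Lf f g e (f^[n] x) := ⟨hw, (h.iter_dbl n).2 hd⟩
  rw [iterate_succ_apply', iterate_succ_apply', k.A_succ, ← he]
  exact ⟨Coc.Wl_map hw, h.equiv _ _ h1⟩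

theorem at_pred {x y : M} {w : W} {n : ℕ} (hS : k.S x w = w) (hd : Dbl f g x y)
    (hw : f^[n] y ∈ Wl f e (f^[n] x))
    (he : ψ (f^[n + 1] x) (f^[n + 1] y) = k.A (n + 1) x w) :
    ψ (f^[n] x) (f^[n] y) = k.A n x w := by
  have h1 : f^[n] y ∈ Lf f g e (f^[n] x) := ⟨hw, (h.iter_dbl n).2 hd⟩
  rw [iterate_succ_apply', iterate_succ_apply', k.A_succ, h.equiv _ _ h1] at he
  have h2 : k.S (f^[n] x) (k.A n x w) = k.A n x w := by
    rw [← k.S_A, hS]
  have h3 := congrArg (k.Di (f (f^[n] x))) he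
  rw [← h.mem _ _ h1, ← h2, k.inv1, k.inv1, h.mem _ _ h1, h2] at h3
  exact h3

theorem at_add {x y : M} {w : W} {n : ℕ} (hd : Dbl f g x y) (hw : f^[n] y ∈ Wl f e (f^[n] x))
    (he : ψ (f^[n] x) (f^[n] y) = k.A n x w) (m : ℕ) :
    f^[n + m] y ∈ Wl f e (f^[n + m] x) ∧ ψ (f^[n + m] x) (f^[n + m] y) = k.A (n + m) x w := by
  induction m with
  | zero => exact ⟨hw, he⟩
  | succ m ih => exact h.at_succ hd ih.1 ih.2

omit h in
theorem wl_add {x y : M} {n : ℕ} (hw : f^[n] y ∈ Wl f e (f^[n] x)) (m : ℕ) :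
    f^[n + m] y ∈ Wl f e (f^[n + m] x) := by
  rw [add_comm, iterate_add_apply, iterate_add_apply]
  exact Coc.Wl_iter hw m

theorem at_sub {x y : M} {w : W} {n : ℕ} (hS : k.S x w = w) (hd : Dbl f g x y)
    (hw : f^[n] y ∈ Wl f e (f^[n] x)) (m : ℕ)
    (he : ψ (f^[n + m] x) (f^[n + m] y) = k.A (n + m) x w) :
    ψ (f^[n] x) (f^[n] y) = k.A n x w := by
  induction m with
  | zero => exact he
  | succ m ih => exact ih (h.at_pred hS hd (wl_add hw m) he)

/-- the relation at every time at which the points are close -/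
theorem at_all {x y : M} {w : W} (H : Rel f g k e ψ x w y) {n : ℕ}
    (hw : f^[n] y ∈ Wl f e (f^[n] x)) : ψ (f^[n] x) (f^[n] y) = k.A n x w := by
  obtain ⟨hS, hd, m, hm, he⟩ := H
  rcases le_total m n with hle | hle
  · obtain ⟨j, rfl⟩ := Nat.exists_eq_add_of_le hle
    exact (h.at_add hd hm he j).2
  · obtain ⟨j, rfl⟩ := Nat.exists_eq_add_of_le hle
    exact h.at_sub hS hd hw j he

omit h in
theorem exists_wl (he : 0 < e) {x y : M} (hd : Dbl f g x y) :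
    ∃ K : ℕ, ∀ n, K ≤ n → f^[n] y ∈ Wl f e (f^[n] x) := by
  obtain ⟨K, hK⟩ := hd e he
  refine ⟨K, fun n hn j => ?_⟩
  have h1 := hK (j + n) 0 (by omega)
  simp only [iterate_zero, id_eq] at h1
  rwa [dist_comm, iterate_add_apply, iterate_add_apply] at h1

theorem uniq_y {x y y' : M} {w : W} (H : Rel f g k e ψ x w y) (H' : Rel f g k e ψ x w y') :
    y = y' := by
  obtain ⟨K, hK⟩ := exists_wl h.e_pos H.2.1
  obtain ⟨K', hK'⟩ := exists_wl h.e_pos H'.2.1
  have h1 := hK (max K K') (le_max_left _ _)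
  have h2 := hK' (max K K') (le_max_right _ _)
  have e1 := h.at_all H h1
  have e2 := h.at_all H' h2
  have h3 := h.inj _ _ ⟨h1, (h.iter_dbl _).2 H.2.1⟩ _ ⟨h2, (h.iter_dbl _).2 H'.2.1⟩
    (e1.trans e2.symm)
  exact f.injective.iterate _ h3

theorem uniq_w {x y : M} {w w' : W} (H : Rel f g k e ψ x w y) (H' : Rel f g k e ψ x w' y) :
    w = w' := by
  obtain ⟨K, hK⟩ := exists_wl h.e_pos H.2.1
  have h1 := hK K le_rfl
  have e1 := h.at_all H h1
  have e2 := h.at_all H' h1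
  have e3 := k.I_A K x w
  have e4 := k.I_A K x w'
  rw [H.1] at e3
  rw [H'.1] at e4
  rw [← e3, ← e1, e2, e4]

theorem exists_w {x y : M} (hd : Dbl f g x y) : ∃ w, Rel f g k e ψ x w y := by
  obtain ⟨K, hK⟩ := exists_wl h.e_pos hd
  have h1 := hK K le_rfl
  have h2 : f^[K] y ∈ Lf f g e (f^[K] x) := ⟨h1, (h.iter_dbl _).2 hd⟩
  have h3 := h.mem _ _ h2
  refine ⟨k.I K x (ψ (f^[K] x) (f^[K] y)), ?_, hd, K, h1, ?_⟩
  · rw [← h3]
    exact k.S_I K x _
  · rw [← h3]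
    exact (k.A_I K x _).symm

theorem A_small (x : M) (w : W) (hS : k.S x w = w) {r : ℝ} (hr : 0 < r) :
    ∃ n : ℕ, ‖k.A n x w‖ < r := by
  have h1 : ∀ n : ℕ, ‖k.A n x w‖ ≤ (k.K ^ 2 * C * ‖w‖) * l ^ n := fun n => by
    have h2 := k.A_upper n x w
    rw [hS] at h2
    calc ‖k.A n x w‖ ≤ k.K ^ 2 * k.an n x * ‖w‖ := h2
      _ ≤ k.K ^ 2 * (C * l ^ n) * ‖w‖ := by
          have := h.an_le n x
          have hK := k.K_pos
          gcongr
      _ = _ := by ring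
  have h2 : Tendsto (fun n : ℕ => (k.K ^ 2 * C * ‖w‖) * l ^ n) atTop (𝓝 0) := by
    have := (tendsto_pow_atTop_nhds_zero_of_lt_one h.l_pos.le h.l_lt).const_mul
      (k.K ^ 2 * C * ‖w‖)
    rwa [mul_zero] at this
  obtain ⟨n, hn⟩ := (h2.eventually_lt_const hr).exists
  exact ⟨n, (h1 n).trans_lt hn⟩

theorem exists_y {x : M} {w : W} (hS : k.S x w = w) : ∃ y, Rel f g k e ψ x w y := by
  obtain ⟨r, hr, H⟩ := h.surj e h.e_pos
  obtain ⟨n, hn⟩ := h.A_small x w hS hr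
  have h1 : k.S (f^[n] x) (k.A n x w) = k.A n x w := by rw [← k.S_A, hS]
  obtain ⟨z, hz, hψ⟩ := H _ _ h1 hn.le
  have h2 : f^[n] (f.symm^[n] z) = z :=
    (show LeftInverse f f.symm from f.apply_symm_apply).iterate n z
  refine ⟨f.symm^[n] z, hS, ?_, n, ?_, ?_⟩
  · rw [← h.iter_dbl n, h2]
    exact hz.2
  · rw [h2]
    exact hz.1
  · rw [h2]
    exact hψ

end Dat

open Classical in
/-- The global parametrization. -/
noncomputable def gam (f g : M ≃ₜ M) (k : Coc W f) (e : ℝ) (ψ : M → M → W) (x : M) (w : W) : M :=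
  if H : ∃ y, Rel f g k e ψ x w y then H.choose else x

namespace Dat

variable (h : Dat f g k e C l ψ)
include h

theorem rel {x : M} {w : W} (hS : k.S x w = w) : Rel f g k e ψ x w (gam f g k e ψ x w) := by
  have H := h.exists_y hS
  unfold gam
  rw [dif_pos H]
  exact H.choose_spec

theorem gam_eq {x y : M} {w : W} (H : Rel f g k e ψ x w y) : gam f g k e ψ x w = y :=
  h.uniq_y (h.rel H.1) H

theorem gam_local {x z : M} {w : W} (hz : z ∈ Lf f g e x) (hψ : ψ x z = w) :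
    gam f g k e ψ x w = z := by
  refine h.gam_eq ⟨?_, hz.2, 0, hz.1, hψ⟩
  rw [← hψ]
  exact h.mem x z hz

theorem rel_map {x y : M} {w : W} (H : Rel f g k e ψ x w y) :
    Rel f g k e ψ (f x) (k.D x w) (f y) := by
  refine ⟨?_, (h.inv x y).2 H.2.1, ?_⟩
  · rw [← k.DS, H.1]
  · obtain ⟨hS, hd, n, hn, he⟩ := H
    obtain ⟨h1, h2⟩ := h.at_succ hd hn he
    refine ⟨n, ?_, ?_⟩
    · rwa [← iterate_succ_apply, ← iterate_succ_apply]
    · rw [← iterate_succ_apply, ← iterate_succ_apply, h2]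
      rfl

theorem gam_map {x : M} {w : W} (hS : k.S x w = w) :
    f (gam f g k e ψ x w) = gam f g k e ψ (f x) (k.D x w) :=
  (h.gam_eq (h.rel_map (h.rel hS))).symm

theorem gam_iter {x : M} {w : W} (hS : k.S x w = w) (n : ℕ) :
    f^[n] (gam f g k e ψ x w) = gam f g k e ψ (f^[n] x) (k.A n x w) := by
  induction n with
  | zero => rfl
  | succ n ih =>
    rw [iterate_succ_apply', ih, iterate_succ_apply', k.A_succ]
    refine h.gam_map ?_
    rw [← k.S_A, hS]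

theorem gam_small {ε : ℝ} (hε : 0 < ε) : ∃ r : ℝ, 0 < r ∧ ∀ x w, k.S x w = w → ‖w‖ ≤ r →
    gam f g k e ψ x w ∈ Lf f g e x ∧ gam f g k e ψ x w ∈ Wl f ε x ∧
      ψ x (gam f g k e ψ x w) = w := by
  obtain ⟨r, hr, H⟩ := h.surj (min ε e) (lt_min hε h.e_pos)
  refine ⟨r, hr, fun x w hS hw => ?_⟩
  obtain ⟨z, hz, hψ⟩ := H x w hS hw
  have h1 : z ∈ Lf f g e x := ⟨Coc.Wl_mono (min_le_right _ _) x hz.1, hz.2⟩
  rw [h.gam_local h1 hψ]
  exact ⟨h1, Coc.Wl_mono (min_le_left _ _) x hz.1, hψ⟩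

theorem gam_proper {x : M} {w : W} (hS : k.S x w = w)
    (hw : gam f g k e ψ x w ∈ Wl f e x) : ‖w‖ ≤ 2 * dist (gam f g k e ψ x w) x := by
  have h1 := h.rel hS
  have h2 := h.at_all h1 (n := 0) hw
  simp only [iterate_zero, id_eq, Coc.A_zero] at h2
  have h3 := h.upper x _ ⟨hw, h1.2.1⟩
  rwa [h2] at h3

/-- continuity for small parameters -/
theorem gam_cont_local [CompactSpace M] {r : ℝ}
    (hr : ∀ x w, k.S x w = w → ‖w‖ ≤ r →
      gam f g k e ψ x w ∈ Lf f g e x ∧ ψ x (gam f g k e ψ x w) = w) :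
    ContinuousOn (fun p : M × W => gam f g k e ψ p.1 p.2)
      {p : M × W | k.S p.1 p.2 = p.2 ∧ ‖p.2‖ ≤ r} := by
  intro a ha
  rw [ContinuousWithinAt, tendsto_iff_ultrafilter]
  intro u hu
  set F : M × W → M := fun p => gam f g k e ψ p.1 p.2 with hF
  have hK : ∀ᶠ p in (u : Filter (M × W)), k.S p.1 p.2 = p.2 ∧ ‖p.2‖ ≤ r :=
    hu self_mem_nhdsWithin
  have hua : (u : Filter (M × W)) ≤ 𝓝 a := hu.trans nhdsWithin_le_nhds
  have h1 : Tendsto (fun p : M × W => p.1) u (𝓝 a.1) := (continuous_fst.tendsto a).comp hua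
  have h2 : Tendsto (fun p : M × W => p.2) u (𝓝 a.2) := (continuous_snd.tendsto a).comp hua
  obtain ⟨z, hz⟩ : ∃ z, Tendsto F u (𝓝 z) := ⟨(u.map F).lim, (u.map F).le_nhds_lim⟩
  have h3 : Tendsto (fun p : M × W => (p.1, F p)) u (𝓝 (a.1, z)) := h1.prodMk_nhds hz
  have h4 : ∀ᶠ p in (u : Filter (M × W)), (p.1, F p) ∈ {p : M × M | p.2 ∈ Lf f g e p.1} :=
    hK.mono fun p hp => (hr p.1 p.2 hp.1 hp.2).1
  have h5 : (a.1, z) ∈ {p : M × M | p.2 ∈ Lf f g e p.1} := h.closed.mem_of_tendsto h3 h4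
  have h6 : Tendsto (fun p : M × W => ψ p.1 (F p)) u (𝓝 (ψ a.1 z)) :=
    (h.cont (a.1, z) h5).tendsto.comp (tendsto_nhdsWithin_iff.2 ⟨h3, h4⟩)
  have h7 : (fun p : M × W => ψ p.1 (F p)) =ᶠ[u] fun p => p.2 :=
    hK.mono fun p hp => (hr p.1 p.2 hp.1 hp.2).2
  have h8 : ψ a.1 z = a.2 := tendsto_nhds_unique h6 (h2.congr' h7.symm)
  have h9 : gam f g k e ψ a.1 a.2 = z := h.gam_local h5 h8
  change Tendsto F u (𝓝 (gam f g k e ψ a.1 a.2))
  rw [h9]
  exact hz

theorem gam_cont [CompactSpace M] :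
    Continuous (fun p : M × W => gam f g k e ψ p.1 (k.S p.1 p.2)) := by
  obtain ⟨r, hr, H⟩ := h.gam_small h.e_pos
  have hloc := h.gam_cont_local (r := r) fun x w h1 h2 => ⟨(H x w h1 h2).1, (H x w h1 h2).2.2⟩
  rw [continuous_iff_continuousAt]
  intro a
  obtain ⟨n, hn⟩ := h.A_small a.1 (k.S a.1 a.2) (k.SS _ _) hr
  set Φ : M × W → M × W := fun p => (f^[n] p.1, k.A n p.1 (k.S p.1 p.2)) with hΦ
  have hΦc : Continuous Φ := by
    refine ((f.continuous.iterate n).comp continuous_fst).prodMk ?_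
    refine ((k.A_cont n).comp continuous_fst).clm_apply ?_
    exact (k.S_cont.comp continuous_fst).clm_apply continuous_snd
  have hmem : ∀ᶠ p in 𝓝 a, Φ p ∈ {p : M × W | k.S p.1 p.2 = p.2 ∧ ‖p.2‖ ≤ r} := by
    have h1 : ∀ᶠ p in 𝓝 a, ‖(Φ p).2‖ < r :=
      (hΦc.snd.norm.tendsto a).eventually_lt_const hn
    refine h1.mono fun p hp => ⟨?_, hp.le⟩
    change k.S (f^[n] p.1) (k.A n p.1 (k.S p.1 p.2)) = k.A n p.1 (k.S p.1 p.2)
    rw [← k.S_A, k.SS]
  have h2 : Tendsto (fun p : M × W => gam f g k e ψ (Φ p).1 (Φ p).2) (𝓝 a)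
      (𝓝 (gam f g k e ψ (Φ a).1 (Φ a).2)) :=
    (hloc (Φ a) hmem.self_of_nhds).tendsto.comp
      (tendsto_nhdsWithin_iff.2 ⟨hΦc.tendsto a, hmem⟩)
  have h3 : Continuous (f.symm^[n]) := f.symm.continuous.iterate n
  have h4 := (h3.tendsto _).comp h2
  have h5 : ∀ p : M × W, f.symm^[n] (gam f g k e ψ (Φ p).1 (Φ p).2)
      = gam f g k e ψ p.1 (k.S p.1 p.2) := fun p => by
    have h6 := h.gam_iter (x := p.1) (w := k.S p.1 p.2) (k.SS _ _) n
    change f.symm^[n] (gam f g k e ψ (f^[n] p.1) (k.A n p.1 (k.S p.1 p.2))) = _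
    rw [← h6]
    exact (show LeftInverse f.symm f from f.symm_apply_apply).iterate n _
  change Tendsto (fun p : M × W => gam f g k e ψ p.1 (k.S p.1 p.2)) (𝓝 a)
    (𝓝 (gam f g k e ψ a.1 (k.S a.1 a.2)))
  rw [← h5 a]
  refine h4.congr fun p => ?_
  exact h5 p

end Dat

end GamAux

open GamAux

/-- **GAM**: the global parametrization of the double leaves. -/
theorem specGam (hDbl : SpecDbl.{u}) (hProd : SpecProd.{u}) (hPair : SpecPair.{u, v})
    (hCoc : SpecCoc.{u, v}) (hGrw : SpecGrw.{u, v}) (hFlt : SpecFlt.{u, v})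
    (hSrj : SpecSrj.{u, v}) : SpecGam.{u, v} := by
  intro M W _ _ _ _ _ E f g s t C₀ hB
  obtain ⟨k, hk⟩ := hCoc M W E f g s t C₀ hB
  obtain ⟨ε, C, l, hG⟩ := hGrw M W E f g s t C₀ k hB hk
  obtain ⟨ε₂, C₂, ψ, Q, q, hF, hFg⟩ := hFlt M W E f g s t C₀ k ε C l hB hk hG
  have hS := hSrj M W E f g s t C₀ k ε C l ε₂ C₂ ψ Q q hB hk hG hF
  obtain ⟨ε₃, C₃, l₃, hP⟩ := hPair M W E f g s t hB.hs hB.ht hB.comm
  obtain ⟨-, -, -, -, δ, hδ, hcl⟩ := hProd M f g ε₃ C₃ l₃ hP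
  obtain ⟨hrefl, -, -, -, -, -, hinv, -, -⟩ := hDbl M f g hB.comm
  set e : ℝ := min ε₂ δ with he
  have he0 : 0 < e := lt_min hF.ε_pos hδ
  have hmono : ∀ x, ∀ z ∈ Lf f g e x, z ∈ Lf f g ε₂ x := fun x z hz =>
    ⟨Coc.Wl_mono (min_le_left _ _) x hz.1, hz.2⟩
  have hkS : ∀ x w, k.S x w = PP s t x w := fun x w => by rw [hk.S]
  have hd : Dat f g k e C l ψ :=
    { e_pos := he0
      l_pos := hG.l_pos
      l_lt := hG.l_lt
      an_le := hG.an_le
      mem := fun x z hz => hF.mem x z (hmono x z hz)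
      upper := fun x z hz => hF.upper x z (hmono x z hz)
      equiv := fun x z hz => hF.equiv x z (hmono x z hz)
      inj := fun x z hz z' hz' => hF.inj x z (hmono x z hz) z' (hmono x z' hz')
      cont := hF.cont.mono fun p hp => hmono p.1 p.2 hp
      closed := hcl e (min_le_right _ _)
      surj := fun ε' hε' => by
        obtain ⟨r, hr, H⟩ := hS ε' hε'
        exact ⟨r, hr, fun x w h1 h2 => H x w (by rw [← hkS]; exact h1) h2⟩
      refl := hrefl
      inv := fun x y => hinv f (fun _ => rfl) (fun x => hB.comm x) x y }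
  -- equivariance of the relation under `g`
  have hcomm' : ∀ x, g (f x) = f (g x) := fun x => (hB.comm x).symm
  have hrelg : ∀ x w y, Rel f g k e ψ x w y → Rel f g k e ψ (g x) (t.D x w) (g y) := by
    intro x w y H
    have hSw : k.S (g x) (t.D x w) = t.D x w := by
      have e1 := congrArg (fun L => L w) (t.DS x)
      have e2 := congrArg (fun L => L (t.S x w)) (DS_commutes t s hB.hs hcomm' x).1
      have e3 := H.1
      simp only [ContinuousLinearMap.comp_apply] at e1 e2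
      rw [hkS] at e3 ⊢
      simp only [PP, ContinuousLinearMap.comp_apply] at e3 ⊢
      rw [← e1, ← e2, e3]
    obtain ⟨K, hK⟩ := Dat.exists_wl (e := e) he0 H.2.1
    obtain ⟨K', hK'⟩ := H.2.1 e he0
    set n := max K K' with hn
    have h1 : f^[n] y ∈ Wl f e (f^[n] x) := hK n (le_max_left _ _)
    have hc : ∀ z, f^[n] (g z) = g (f^[n] z) := fun z =>
      (show Function.Commute f g from hB.comm).iterate_left n z
    have h2 : g (f^[n] y) ∈ Wl f e (g (f^[n] x)) := by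
      intro j
      have h3 := hK' (j + n) 1 (by omega)
      rw [iterate_one, dist_comm, iterate_add_apply, iterate_add_apply, hc, hc] at h3
      exact h3
    have h4 : Dbl f g (g x) (g y) :=
      (hinv g (fun x => (hB.comm x).symm) (fun _ => rfl) x y).2 H.2.1
    have h5 : f^[n] y ∈ Lf f g ε₂ (f^[n] x) :=
      hmono _ _ ⟨h1, (hd.iter_dbl n).2 H.2.1⟩
    have h6 : g (f^[n] y) ∈ Lf f g ε₂ (g (f^[n] x)) := by
      refine hmono _ _ ⟨h2, ?_⟩
      rw [← hc, ← hc]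
      exact (hd.iter_dbl n).2 h4
    refine ⟨hSw, h4, n, ?_, ?_⟩
    · rw [hc, hc]
      exact h2
    · rw [hc, hc, hFg _ _ h5 h6, hd.at_all H h1]
      have e4 := congrArg (fun L => L w) (comm_iterD f.continuous g.continuous s.hD t.hD
        hB.comm n x)
      simp only [ContinuousLinearMap.comp_apply] at e4
      change t.D (f^[n] x) (iterD k.D f n x w) = iterD k.D f n (g x) (t.D x w)
      rw [hk.D]
      exact e4.symm
  refine ⟨gam f g k e ψ, ?_, ?_, ?_, ?_, ?_, ?_, ?_, ?_, ?_⟩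
  · have h1 := hd.gam_cont
    rw [hk.S] at h1
    exact h1
  · intro x w hw
    exact (hd.rel (by rw [hkS]; exact hw)).2.1
  · intro x y hxy
    obtain ⟨w, hw⟩ := hd.exists_w hxy
    exact ⟨w, by rw [← hkS]; exact hw.1, hd.gam_eq hw⟩
  · intro x w w' hw hw' h1
    have r1 := hd.rel (x := x) (w := w) (by rw [hkS]; exact hw)
    have r2 := hd.rel (x := x) (w := w') (by rw [hkS]; exact hw')
    rw [h1] at r1
    exact hd.uniq_w r1 r2
  · intro x
    refine hd.gam_eq ⟨map_zero _, hrefl x, 0, Coc.Wl_self he0.le x, ?_⟩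
    have h1 := hd.upper x x ⟨Coc.Wl_self he0.le x, hrefl x⟩
    rw [dist_self, mul_zero] at h1
    exact norm_le_zero_iff.1 h1
  · intro x w hw
    have h1 := hd.gam_map (x := x) (w := w) (by rw [hkS]; exact hw)
    rw [hk.D] at h1
    exact h1
  · intro x w hw
    exact (hd.gam_eq (hrelg x w _ (hd.rel (by rw [hkS]; exact hw)))).symm
  · intro ε' hε'
    obtain ⟨r, hr, H⟩ := hd.gam_small hε'
    exact ⟨r, hr, fun x w hw h1 => (H x w (by rw [hkS]; exact hw) h1).2.1⟩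
  · refine ⟨min e (1 / 2), lt_min he0 (by norm_num), fun x w hw h1 => ?_⟩
    have h2 : gam f g k e ψ x w ∈ Wl f e x := Coc.Wl_mono (min_le_left _ _) x h1
    have h3 := hd.gam_proper (x := x) (w := w) (by rw [hkS]; exact hw) h2
    have h4 := h1 0
    simp only [iterate_zero, id_eq] at h4
    have h5 := h4.trans (min_le_right _ _)
    linarith

end Pool.Agent.Lib.MP610fe3.HR
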