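import Pool.Agent.Lib.MP_610fe3_an.HR.Spec2
import Pool.Agent.Lib.MP_610fe3_an.HR.TRANS
import Pool.Agent.Lib.MP_610fe3_an.HR.PROD

/-!
# Walls with a rational ratio: GAP, (R7)

Every leaf `X` through the half of `Y(p)` meets `A` again, on the chosen side.
-/

set_option autoImplicit false

open Set Filter Function
open scoped Topology

namespace Pool.Agent.Lib.MP610fe3.HR

open Cf CH

universe u v

namespace GAPAux

/-- A positive sequence with a positive limit is bounded below. -/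
theorem exists_lower {u : ℕ → ℝ} {d : ℝ} (h0 : ∀ m, 0 < u m) (hd : 0 < d)
    (h : Tendsto u atTop (𝓝 d)) : ∃ δ : ℝ, 0 < δ ∧ ∀ m, δ ≤ u m := by
  have h1 : Tendsto (fun m => (u m)⁻¹) atTop (𝓝 d⁻¹) := h.inv₀ hd.ne'
  obtain ⟨B, hB⟩ := h1.bddAbove_range
  have hB' : ∀ m, (u m)⁻¹ ≤ B := fun m => hB (mem_range_self m)
  have hBp : 0 < B := (inv_pos.2 (h0 0)).trans_le (hB' 0)
  refine ⟨B⁻¹, inv_pos.2 hBp, fun m => ?_⟩
  rw [← inv_inv (u m)]
  exact inv_anti₀ (inv_pos.2 (h0 m)) (hB' m)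

variable {M : Type u} [MetricSpace M] {f g : M ≃ₜ M} {θ : ℝ} {p : M} {H : ℝ → ℝ → M}

theorem iter_fwd (pl : Plane f.symm g.symm θ p H) (k : ℕ) (τ r : ℝ) :
    f^[k] (H τ r) = H (τ - k) r := by
  have h := TRANSAux.iter_H pl k (τ - k) r
  rw [sub_add_cancel] at h
  rw [← h, iter_symm]

theorem iter_g (pl : Plane f.symm g.symm θ p H) (k : ℕ) (τ r : ℝ) :
    g^[k] (H τ r) = H (τ + k * θ) r := by
  induction k generalizing τ with
  | zero => simp
  | succ k ih =>
    have h1 : g (H τ r) = H (τ + θ) r := by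
      have h := pl.eqg (τ + θ) r
      rw [add_sub_cancel_right] at h
      rw [← h, Homeomorph.apply_symm_apply]
    rw [iterate_succ_apply, h1, ih]
    congr 1
    push_cast
    ring

/-- `f^a g^b` fixes the plane. -/
theorem cc_fix (pl : Plane f.symm g.symm θ p H) {a b : ℕ} (h : θ * b = a) (τ r : ℝ) :
    cc f g a b (H τ r) = H τ r := by
  unfold cc
  rw [iter_g pl, iter_fwd pl, ← h]
  congr 1
  ring

end GAPAux

open GAPAux

theorem specGap (hPig : SpecPig.{u, v}) : SpecGap.{u, v} := by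
  intro M W _ _ _ _ _ E f g s t C₀ ε C l θ γ p A a b y v hP hB hG ha hb hθ hfp hF hcl hS hinv hpA τ
  by_contra hne
  push Not at hne
  set H : ℝ → ℝ → M := fun τ r => γ (y τ) (r • v τ) with hH
  have pl : Plane f.symm g.symm θ p H := hF.plane
  have hH0 : ∀ τ, H τ 0 = y τ := fun τ => by
    simp only [hH, zero_smul, hG.zero]
  have hε : 0 < ε := hP.one.br.ε_pos
  -- the base is in `A`
  have hyA : ∀ τ, y τ ∈ A := by
    intro τ
    have h1 := pl.base τ
    rw [hH0] at h1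
    refine hS p hpA _ ?_
    have h2 : Dbl f.symm g p (y τ) := h1
    refine PRODAux.dbl_fwd h2
  have hsymm : ∀ n : ℕ, ∀ x ∈ A, f.symm^[n] x ∈ A := by
    intro n
    induction n with
    | zero => intro x hx; simpa using hx
    | succ n ih =>
      intro x hx
      rw [iterate_succ_apply]
      apply ih
      obtain ⟨w, hw, hwx⟩ := hinv.symm ▸ hx
      rw [← hwx, Homeomorph.symm_apply_apply]
      exact hw
  -- the base is not periodic
  have hnp : ∀ m : ℕ, y (τ + ((m + 1 : ℕ) : ℝ)) ≠ y τ := by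
    intro m hm
    apply hF.y_ne τ
    have h1 : ∀ k : ℕ, y (τ + ((k * (m + 1) : ℕ) : ℝ)) = y τ := by
      intro k
      induction k with
      | zero => simp
      | succ k ih =>
        have e1 := TRANSAux.iter_H pl (k * (m + 1)) (τ + ((m + 1 : ℕ) : ℝ)) 0
        have e2 := TRANSAux.iter_H pl (k * (m + 1)) τ 0
        rw [hH0, hH0] at e1 e2
        rw [hm, e2, ih] at e1
        rw [e1]
        congr 1
        push_cast
        ring
    have h2 : Tendsto (fun k : ℕ => y (τ + ((k * (m + 1) : ℕ) : ℝ))) atTop (𝓝 p) := by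
      have h3 : Tendsto y atTop (𝓝 p) := by
        have := pl.lim
        simp only [hH0] at this
        exact this
      refine h3.comp (tendsto_atTop_add_const_left _ _ ?_)
      refine tendsto_natCast_atTop_atTop.comp ?_
      exact tendsto_id.atTop_mul_const' (Nat.succ_pos m)
    simp only [h1] at h2
    exact tendsto_nhds_unique tendsto_const_nhds h2
  obtain ⟨δ, hδ, hδm⟩ := exists_lower (u := fun m : ℕ => dist (y (τ + ((m + 1 : ℕ) : ℝ))) (y τ))
    (d := dist p (y τ)) (fun m => dist_pos.2 (hnp m)) (dist_pos.2 (hF.y_ne τ).symm) (by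
      have h3 : Tendsto y atTop (𝓝 p) := by
        have := pl.lim
        simp only [hH0] at this
        exact this
      refine Tendsto.dist (h3.comp (tendsto_atTop_add_const_left _ _ ?_)) tendsto_const_nhds
      exact tendsto_natCast_atTop_atTop.comp (tendsto_add_atTop_nat 1))
  have hdec := hP.one.decu
  obtain ⟨N, hN⟩ : ∃ N : ℕ, C * l ^ N * ε < δ := by
    have h1 : Tendsto (fun n : ℕ => C * l ^ n * ε) atTop (𝓝 (C * 0 * ε)) :=
      ((tendsto_pow_atTop_nhds_zero_of_lt_one hdec.l_pos.le hdec.l_lt).const_mul C).mul_const _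
    rw [mul_zero, zero_mul] at h1
    exact (h1.eventually (gt_mem_nhds hδ)).exists
  obtain ⟨κ, hκ, hpig⟩ := hPig M W E f g s t C₀ ε C l γ hP hB hG a b ha hb
  have hvn : ∀ τ, 0 < ‖v τ‖ := fun τ => norm_pos_iff.2 (hF.ne τ)
  obtain ⟨i, j, hNi, hij, hW⟩ := hpig κ hκ le_rfl A hcl hS (fun i => y (τ - i))
    (fun i => (κ / ‖v (τ - i)‖) • v (τ - i)) (fun i => hyA _)
    (fun i => by rw [map_smul, hF.range]) (fun i => by
      rw [norm_smul, Real.norm_eq_abs, abs_of_pos (div_pos hκ (hvn _)), div_mul_cancel₀]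
      exact (hvn _).ne') (fun i ρ hρ hmem => by
      rw [smul_smul] at hmem
      have h1 := hsymm i _ hmem
      have h2 := TRANSAux.iter_H pl i (τ - i) (ρ * (κ / ‖v (τ - i)‖))
      rw [sub_add_cancel] at h2
      simp only [hH] at h2
      rw [h2] at h1
      exact hne _ (mul_pos hρ.1 (div_pos hκ (hvn _))) h1) (fun i ρ hρ => by
      rw [smul_smul]
      exact cc_fix pl hθ (τ - i) (ρ * (κ / ‖v (τ - i)‖))) ε hε N
  obtain ⟨m, rfl⟩ : ∃ m : ℕ, j = i + (m + 1) := ⟨j - i - 1, by omega⟩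
  have h1 := hdec.dec _ _ hW (i + (m + 1))
  have e1 := TRANSAux.iter_H pl (i + (m + 1)) (τ - i) 0
  have e2 := TRANSAux.iter_H pl (i + (m + 1)) (τ - ((i + (m + 1) : ℕ) : ℝ)) 0
  rw [hH0, hH0] at e1 e2
  rw [sub_add_cancel] at e2
  rw [e1, e2] at h1
  have e3 : τ - (i : ℝ) + ((i + (m + 1) : ℕ) : ℝ) = τ + ((m + 1 : ℕ) : ℝ) := by
    push_cast
    ring
  rw [e3] at h1
  have h2 := hδm m
  have h3 : dist (y (τ - (i : ℝ))) (y (τ - ((i + (m + 1) : ℕ) : ℝ))) ≤ ε := hW 0
  have hC : 0 < C := lt_of_lt_of_le one_pos hdec.one_le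
  have h4 : C * l ^ (i + (m + 1)) ≤ C * l ^ N :=
    mul_le_mul_of_nonneg_left (pow_le_pow_of_le_one hdec.l_pos.le hdec.l_lt.le (by omega)) hC.le
  have h5 : C * l ^ (i + (m + 1)) * dist (y (τ - (i : ℝ))) (y (τ - ((i + (m + 1) : ℕ) : ℝ))) ≤
      C * l ^ N * ε :=
    mul_le_mul h4 h3 dist_nonneg (mul_nonneg hC.le (pow_nonneg hdec.l_pos.le _))
  linarith

end Pool.Agent.Lib.MP610fe3.HR
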