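import Pool.Agent.Lib.MP_610fe3_an.HR.Spec2
import Pool.Agent.Lib.MP_610fe3_an.HR.PLANE

/-!
# Module HALF: one half of the leaf of the fixed point does not meet `A`

The arc is `γ p (σ r • u)` with a continuous `σ` (a continuous injection of a compact interval is an
embedding), `σ 0 = 0`, `σ 1 = 1`; then the backward iterates of `f` expand the leaf.
-/

set_option autoImplicit false

open Set Filter Function
open scoped Topology

namespace Pool.Agent.Lib.MP610fe3.HR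

open Cf CH

universe u v

open PLANEAux

theorem specHalf : SpecHalf.{u, v} := by
  intro M W _ _ _ _ _ E f g s t C₀ θ γ p A hB hG hfp hgp hEig hA hArcs
  obtain ⟨a, b, ha, hb, hsX, -, -, -⟩ := hEig
  obtain ⟨ε, hε, hpr⟩ := hG.proper
  obtain ⟨l, hlc, hli, hl0, hlm, hlA⟩ := hArcs ε hε
  have h0 : (0 : ℝ) ∈ Icc (0 : ℝ) 1 := ⟨le_rfl, zero_le_one⟩
  have h1 : (1 : ℝ) ∈ Icc (0 : ℝ) 1 := ⟨zero_le_one, le_rfl⟩
  obtain ⟨u, hu, hu1⟩ := hG.surj p (l 1) (hlm 1 h1).2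
  have hu0 : u ≠ 0 := by
    rintro rfl
    rw [hG.zero] at hu1
    have h2 := hli h0 h1 (by rw [hl0, ← hu1])
    norm_num at h2
  have hPu : ∀ c : ℝ, PP s t.swap p (c • u) = c • u := fun c => by rw [map_smul, hu]
  have hinj : ∀ c c' : ℝ, γ p (c • u) = γ p (c' • u) → c = c' := fun c c' h =>
    smul_left_injective ℝ hu0 (hG.inj p _ _ (hPu c) (hPu c') h)
  have hex : ∀ r : Icc (0 : ℝ) 1, ∃ c : ℝ, γ p (c • u) = l r.1 := by
    intro r
    obtain ⟨w, hw, hwr⟩ := hG.surj p (l r.1) (hlm r.1 r.2).2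
    obtain ⟨c, hc⟩ := exists_smul (PP s t.swap p) (hB.rank p) hu hu0 hw
    exact ⟨c, by rw [hc]; exact hwr⟩
  choose σ hσ using hex
  have hunorm : 0 < ‖u‖ := norm_pos_iff.2 hu0
  have hσR : ∀ r, σ r ∈ Icc (-‖u‖⁻¹) (‖u‖⁻¹) := by
    intro r
    have h2 := hpr p (σ r • u) (hPu _) (by rw [hσ]; exact (hlm r.1 r.2).1)
    rw [norm_smul, Real.norm_eq_abs] at h2
    have h3 : |σ r| ≤ ‖u‖⁻¹ := by
      rw [← one_div, le_div_iff₀ hunorm]
      exact h2
    exact abs_le.1 h3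
  let Φ : Icc (-‖u‖⁻¹) (‖u‖⁻¹) → M := fun ρ => γ p (ρ.1 • u)
  have hΦc : Continuous Φ := by
    have h2 : Φ = fun ρ => (fun q : M × W => γ q.1 (PP s t.swap q.1 q.2)) (p, ρ.1 • u) := by
      funext ρ
      simp only [Φ, hPu]
    rw [h2]
    exact hG.cont.comp (by fun_prop)
  have hΦi : Injective Φ := fun ρ ρ' h => Subtype.ext (hinj _ _ h)
  have hcl : Topology.IsClosedEmbedding Φ := hΦc.isClosedEmbedding hΦi
  let σ' : Icc (0 : ℝ) 1 → Icc (-‖u‖⁻¹) (‖u‖⁻¹) := fun r => ⟨σ r, hσR r⟩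
  have hσ'c : Continuous σ' := by
    rw [hcl.isEmbedding.continuous_iff]
    have h2 : Φ ∘ σ' = (Icc (0 : ℝ) 1).domRestrict l := by
      funext r
      exact hσ r
    rw [h2]
    exact continuousOn_iff_continuous_domRestrict.1 hlc
  have hσc : Continuous σ := continuous_subtype_val.comp hσ'c
  have hσ0 : σ ⟨0, h0⟩ = 0 := by
    apply hinj
    rw [hσ, zero_smul, hG.zero]
    exact hl0
  have hσ1 : σ ⟨1, h1⟩ = 1 := by
    apply hinj
    rw [hσ, one_smul]
    exact hu1.symm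
  have : PreconnectedSpace (Icc (0 : ℝ) 1) := Subtype.preconnectedSpace isPreconnected_Icc
  have hsmall : ∀ ω : ℝ, 0 < ω → ω ≤ 1 → γ p (ω • u) ∉ A := by
    intro ω hω hω1
    obtain ⟨r, hr⟩ : ω ∈ range σ := mem_range_of_exists_le_of_exists_ge hσc
      ⟨⟨0, h0⟩, by rw [hσ0]; exact hω.le⟩ ⟨⟨1, h1⟩, by rw [hσ1]; exact hω1⟩
    have hr0 : 0 < r.1 := by
      refine lt_of_le_of_ne r.2.1 fun h => ?_
      have h2 : r = ⟨0, h0⟩ := Subtype.ext h.symm
      rw [h2, hσ0] at hr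
      exact hω.ne hr
    rw [← hr, hσ]
    exact hlA r.1 ⟨hr0, r.2.2⟩
  have hsu : s.D p u = Real.exp (-a) • u := by
    have h2 := hsX u
    rwa [hu] at h2
  have hit : ∀ (n : ℕ) (ω : ℝ), f^[n] (γ p (ω • u)) = γ p ((Real.exp (-a) ^ n * ω) • u) := by
    intro n ω
    induction n with
    | zero => rw [pow_zero, one_mul]; rfl
    | succ n ih =>
      rw [iterate_succ_apply', ih, hG.eqf p _ (hPu _), hfp, map_smul, hsu, smul_smul]
      congr 2
      ring
  have hfA : ∀ (n : ℕ) (x : M), x ∈ A → f^[n] x ∈ A := by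
    intro n x hx
    induction n with
    | zero => exact hx
    | succ n ih =>
      rw [iterate_succ_apply', ← hA]
      exact mem_image_of_mem f ih
  refine ⟨u, hu, hu0, fun ω hω hmem => ?_⟩
  obtain ⟨n, hn⟩ := exists_pow_lt_of_lt_one (one_div_pos.2 hω) (by
    rw [← Real.exp_zero]
    exact Real.exp_lt_exp.2 (neg_lt_zero.2 ha))
  refine hsmall (Real.exp (-a) ^ n * ω) (mul_pos (pow_pos (Real.exp_pos _) n) hω) ?_ ?_
  · rw [lt_div_iff₀ hω] at hn
    exact hn.le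
  · rw [← hit n ω]
    exact hfA n _ hmem

end Pool.Agent.Lib.MP610fe3.HR
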