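import Pool.Agent.Lib.MP_610fe3_an.HR.SpecZ

/-!
# Module LIN: two linear forms with the same signs are proportional
-/

set_option autoImplicit false

open Set Filter Function

namespace Pool.Agent.Lib.MP610fe3.HR

universe w

namespace LINAux

/-- Natural vectors with a slope in a given interval, outside finitely many lines. -/
theorem exists_vec {J : Type w} [Finite J] (p q : J → ℝ) (hp : ∀ j, p j ≠ 0) {lo hi : ℝ}
    (hlo : 0 < lo) (hlt : lo < hi) :
    ∃ m n : ℕ, 0 < n ∧ (∀ j, (m : ℝ) * p j + n * q j ≠ 0) ∧ lo * n < m ∧ (m : ℝ) < hi * n := by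
  obtain ⟨r₁, h1, h1'⟩ := exists_rat_btwn hlt
  obtain ⟨r₂, h2, h2'⟩ := exists_rat_btwn h1'
  have hr : r₁ < r₂ := by exact_mod_cast h2
  have hfin : (⋃ j : J, {r : ℚ | (r : ℝ) * p j + q j = 0}).Finite := by
    refine Set.finite_iUnion fun j => Set.Subsingleton.finite fun r hr r' hr' => ?_
    have h : (r : ℝ) * p j = r' * p j := by
      have e1 : (r : ℝ) * p j + q j = 0 := hr
      have e2 : (r' : ℝ) * p j + q j = 0 := hr'
      linarith
    have h' : (r : ℝ) = r' := mul_right_cancel₀ (hp j) h
    exact_mod_cast h'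
  obtain ⟨r, hr1, hr2⟩ := (Set.Ioo_infinite hr).exists_notMem_finite hfin
  have hr1' : (r₁ : ℝ) < r := by exact_mod_cast hr1.1
  have hr1'' : (r : ℝ) < r₂ := by exact_mod_cast hr1.2
  have hlor : lo < r := h1.trans hr1'
  have hrhi : (r : ℝ) < hi := hr1''.trans h2'
  have hr0 : 0 < r := by
    have : (0 : ℝ) < r := hlo.trans hlor
    exact_mod_cast this
  have hnum : 0 < r.num := Rat.num_pos.2 hr0
  obtain ⟨m, hm⟩ := Int.eq_ofNat_of_zero_le hnum.le
  have hden : (0 : ℝ) < r.den := by exact_mod_cast r.den_pos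
  have hrr : (r : ℝ) * r.den = m := by
    have h := Rat.mul_den_eq_num r
    rw [hm] at h
    exact_mod_cast congrArg (fun x : ℚ => (x : ℝ)) h
  refine ⟨m, r.den, r.den_pos, fun j h => ?_, ?_, ?_⟩
  · apply hr2
    refine mem_iUnion.2 ⟨j, ?_⟩
    have e : ((r : ℝ) * p j + q j) * r.den = 0 := by
      rw [← h, ← hrr]; ring
    exact (mul_eq_zero.1 e).resolve_right hden.ne'
  · rw [← hrr]; exact mul_lt_mul_of_pos_right hlor hden
  · rw [← hrr]; exact mul_lt_mul_of_pos_right hrhi hden

end LINAux

theorem specLin : SpecLin.{w} := by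
  intro J _ p q a b α β ha hb hp hq h1 h2
  have hα : α < 0 := by
    have h := h1 1 0 (fun j => by simpa using hp j) (by simpa using ha)
    simpa using h
  have hβ : 0 < β := by
    have h := h2 0 1 (fun j => by simpa using hq j) (by simpa using hb)
    simpa using h
  have key : b * α = β * a := by
    have ht : b / -a = β / -α := by
      rcases lt_trichotomy (b / -a) (β / -α) with h | h | h
      · exfalso
        obtain ⟨m, n, hn, hj, hlo, hhi⟩ :=
          LINAux.exists_vec p q hp (div_pos hb (neg_pos.2 ha)) h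
        have e1 : (m : ℝ) * a + n * b < 0 := by
          rw [div_mul_eq_mul_div, div_lt_iff₀ (neg_pos.2 ha)] at hlo
          linarith
        have e2 := h1 m n hj e1
        rw [div_mul_eq_mul_div, lt_div_iff₀ (neg_pos.2 hα)] at hhi
        linarith
      · exact h
      · exfalso
        obtain ⟨m, n, hn, hj, hlo, hhi⟩ :=
          LINAux.exists_vec p q hp (div_pos hβ (neg_pos.2 hα)) h
        have e1 : 0 < (m : ℝ) * a + n * b := by
          rw [div_mul_eq_mul_div, lt_div_iff₀ (neg_pos.2 ha)] at hhi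
          linarith
        have e2 := h2 m n hj e1
        rw [div_mul_eq_mul_div, div_lt_iff₀ (neg_pos.2 hα)] at hlo
        linarith
    rw [div_eq_div_iff (neg_pos.2 ha).ne' (neg_pos.2 hα).ne'] at ht
    linarith
  refine ⟨α / a, div_pos_of_neg_of_neg hα ha, ?_, ?_⟩
  · exact (div_mul_cancel₀ α ha.ne).symm
  · rw [div_mul_eq_mul_div, eq_div_iff ha.ne]
    linarith

end Pool.Agent.Lib.MP610fe3.HR
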