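import Pool.Agent.Lib.MP_610fe3_an.HR.SpecZ
import Pool.Agent.Lib.MP_610fe3_an.CH.Cor

/-!
# Module MFD: the theorem on the manifold, from ACT and CHN
-/

set_option autoImplicit false

open Set Filter Function Bundle
open scoped Topology Manifold ContDiff

namespace Pool.Agent.Lib.MP610fe3.HR

open CH

universe u v w

/-- **The theorem on the manifold.** -/
theorem main_hr (hChain : SpecChain.{u, 0, w}) (hAct : SpecAct.{u, v, w})
    {V : Type v} [NormedAddCommGroup V] [NormedSpace ℝ V] [FiniteDimensional ℝ V]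
    {M : Type u} [TopologicalSpace M] [CompactSpace M] [T2Space M] [ConnectedSpace M]
    [ChartedSpace V M] [IsManifold 𝓘(ℝ, V) ∞ M]
    [RiemannianBundle (fun x : M => TangentSpace 𝓘(ℝ, V) x)]
    [IsContinuousRiemannianBundle V (fun x : M => TangentSpace 𝓘(ℝ, V) x)]
    {k : ℕ} (A : (Fin k → ℤ) → M ≃ₘ^1⟮𝓘(ℝ, V), 𝓘(ℝ, V)⟯ M)
    (hadd : ∀ n n' x, A (n + n') x = A n (A n' x)) {J : Type w} [Finite J] (χ : J → Fin k → ℝ)
    (F : J → ∀ x : M, Submodule ℝ (TangentSpace 𝓘(ℝ, V) x))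
    (hA : ∀ n : Fin k → ℤ, (∀ j, ∑ i, χ j i * (n i : ℝ) ≠ 0) → Gen.IsAnosovSplitting (A n)
      (fun x => ⨆ (j) (_ : ∑ i, χ j i * (n i : ℝ) < 0), F j x)
      (fun x => ⨆ (j) (_ : 0 < ∑ i, χ j i * (n i : ℝ)), F j x))
    (hpair : ∀ i j, ∀ t : ℝ, 0 < t → χ i = -(t • χ j) →
      (∀ n, ContMDiff 𝓘(ℝ, V) 𝓘(ℝ, V) 2 (A n)) ∧
      (∀ x, Module.finrank ℝ (⨆ (l) (_ : ∃ c : ℝ, 0 < c ∧ χ l = c • χ i), F l x :
        Submodule ℝ (TangentSpace 𝓘(ℝ, V) x)) = 1) ∧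
      ∃ a b : Fin k → ℤ, Irrational ((∑ l, χ i l * (a l : ℝ)) / ∑ l, χ i l * (b l : ℝ)))
    (n : Fin k → ℤ) (hn : ∀ j, ∑ i, χ j i * (n i : ℝ) ≠ 0) : TopTransitive (A n) := by
  classical
  by_cases htns : ∀ i j, ∀ t : ℝ, 0 < t → χ i ≠ -(t • χ j)
  · exact main_weyl A hadd χ F hA htns n hn
  push Not at htns
  obtain ⟨i₀, j₀, t₀, ht₀, hij₀⟩ := htns
  have hC2 := (hpair i₀ j₀ t₀ ht₀ hij₀).1
  obtain ⟨N, e, he, hemb, hinj⟩ := exists_embedding_euclidean_of_compact (I := 𝓘(ℝ, V)) (M := M)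
  let _ : MetricSpace M := hemb.isEmbedding.comapMetricSpace e
  have hiso : Isometry e := hemb.isEmbedding.to_isometry
  obtain ⟨E, F', hAct', hrank⟩ := hAct V N M e hiso he hinj k J A χ F hadd hC2 hA
  refine hChain M (EuclideanSpace ℝ (Fin N)) E k J (fun n => (A n).toHomeomorph) χ F' hAct'
    (fun i j t ht hij => ⟨fun x => ?_, (hpair i j t ht hij).2.2⟩) n hn
  rw [hrank]
  exact (hpair i j t ht hij).2.1 x

end Pool.Agent.Lib.MP610fe3.HR
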