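import Pool.Agent.Lib.MP_610fe3_an.HR.Spec3
import Pool.Agent.Lib.MP_610fe3_an.HR.CHN
import Pool.Agent.Lib.MP_610fe3_an.CH.Cor

/-!
# Module MFDG: chains of commuting Anosov diffeomorphisms, the theorem on the manifold
-/

set_option autoImplicit false

open Set Filter Function Bundle
open scoped Topology Manifold ContDiff

namespace Pool.Agent.Lib.MP610fe3.HR

open Cf CH CHNAux

universe u v

/-- `f` is a diffeomorphism of class `C^2`. -/
def C2 {V : Type*} [NormedAddCommGroup V] [NormedSpace ℝ V] {M : Type*} [TopologicalSpace M]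
    [ChartedSpace V M] (f : M ≃ₘ^1⟮𝓘(ℝ, V), 𝓘(ℝ, V)⟯ M) : Prop :=
  ContMDiff 𝓘(ℝ, V) 𝓘(ℝ, V) 2 f ∧ ContMDiff 𝓘(ℝ, V) 𝓘(ℝ, V) 2 f.symm

namespace MFDGAux

variable {X : Type*} [TopologicalSpace X] {a b : X ≃ₜ X}

theorem comm_right (h : ∀ x, a (b x) = b (a x)) (x : X) : a (b.symm x) = b.symm (a x) := by
  apply b.injective
  rw [← h, b.apply_symm_apply, b.apply_symm_apply]

theorem comm_left (h : ∀ x, a (b x) = b (a x)) (x : X) : a.symm (b x) = b (a.symm x) :=
  (comm_right (a := b) (b := a) (fun x => (h x).symm) x).symm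

theorem comm_both (h : ∀ x, a (b x) = b (a x)) (x : X) :
    a.symm (b.symm x) = b.symm (a.symm x) := comm_left (b := b.symm) (comm_right h) x

end MFDGAux

open MFDGAux

/-- **Chains of commuting Anosov diffeomorphisms.** -/
theorem main_hrc (hWall : SpecWallg.{u, 0}) (hGood : SpecGood4.{u, 0}) (hDim : SpecDimc.{u, 0})
    (hChn : SpecChng.{u, 0}) (hPow : SpecPowm.{u, v}) (hPair : SpecPair.{u, 0})
    {V : Type v} [NormedAddCommGroup V] [NormedSpace ℝ V] [FiniteDimensional ℝ V]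
    {M : Type u} [TopologicalSpace M] [CompactSpace M] [T2Space M] [ConnectedSpace M]
    [ChartedSpace V M] [IsManifold 𝓘(ℝ, V) ∞ M]
    [RiemannianBundle (fun x : M => TangentSpace 𝓘(ℝ, V) x)]
    [IsContinuousRiemannianBundle V (fun x : M => TangentSpace 𝓘(ℝ, V) x)]
    (m : ℕ) (g : ℕ → M ≃ₘ^1⟮𝓘(ℝ, V), 𝓘(ℝ, V)⟯ M)
    (Es Eu : ℕ → ∀ x : M, Submodule ℝ (TangentSpace 𝓘(ℝ, V) x))
    (hA : ∀ i ≤ m, Gen.IsAnosovSplitting (g i) (Es i) (Eu i))
    (hcomm : ∀ i < m, ∀ x, g i (g (i + 1) x) = g (i + 1) (g i x))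
    (hend : ∀ x, g m (g 0 x) = x)
    (hpair : ∀ i < m, ∃ x, Module.finrank ℝ ↥(Es i x ⊓ Eu (i + 1) x) *
        Module.finrank ℝ ↥(Eu i x ⊓ Es (i + 1) x) = 0 ∨
      (Module.finrank ℝ ↥(Es i x ⊓ Eu (i + 1) x) * Module.finrank ℝ ↥(Eu i x ⊓ Es (i + 1) x) = 1 ∧
        C2 (g i) ∧ C2 (g (i + 1)))) :
    ∀ i ≤ m, TopTransitive (g i) := by
  classical
  obtain ⟨N, e, he, hemb, hinj⟩ := exists_embedding_euclidean_of_compact (I := 𝓘(ℝ, V)) (M := M)
  let _ : MetricSpace M := hemb.isEmbedding.comapMetricSpace e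
  have hiso : Isometry e := hemb.isEmbedding.to_isometry
  obtain ⟨E, hE⟩ := hPow V N M e hiso he hinj
  have hι : ∀ x, Injective (Gen.dE V e x) := hinj
  refine hChn M (EuclideanSpace ℝ (Fin N)) E m (fun i => (g i).toHomeomorph) (fun i hi => ?_)
    (fun x => hend x) fun i hi => ?_
  · obtain ⟨⟨s, hs, -⟩, -⟩ := hE (g i) (Es i) (Eu i) (hA i hi)
    exact ⟨s, hs⟩
  · have hAi := hA i hi.le
    have hAj := hA (i + 1) hi
    obtain ⟨⟨s, hs, hsS, hsU⟩, hPi⟩ := hE (g i) (Es i) (Eu i) hAi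
    obtain ⟨⟨t, ht, htS, htU⟩, hPj⟩ := hE (g (i + 1)) (Es (i + 1)) (Eu (i + 1)) hAj
    have hc : ∀ x, (g i).toHomeomorph ((g (i + 1)).toHomeomorph x) =
        (g (i + 1)).toHomeomorph ((g i).toHomeomorph x) := hcomm i hi
    have hcs : ∀ x, (g i).symm ((g (i + 1)).symm x) = (g (i + 1)).symm ((g i).symm x) :=
      comm_both (a := (g i).toHomeomorph) (b := (g (i + 1)).toHomeomorph) hc
    have hfin : ∀ x : M, FiniteDimensional ℝ (TangentSpace 𝓘(ℝ, V) x) := fun _ =>
      ‹FiniteDimensional ℝ V›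
    obtain ⟨x, h0 | ⟨h1, ⟨hi2, hi2'⟩, ⟨hj2, hj2'⟩⟩⟩ := hpair i hi
    · rcases mul_eq_zero.1 h0 with h | h
      · have hd : Disjoint (Eu (i + 1) x) (Es i x) := by
          rw [disjoint_comm, disjoint_iff]
          exact Submodule.finrank_eq_zero.1 h
        have hL := link_of_disjoint e hiso he hinj (g (i + 1)).symm (g i).symm _ _ _ _
          (Cf.IsAnosovSplitting.symm hAj) (Cf.IsAnosovSplitting.symm hAi)
          (fun x => (hcs x).symm) hd
        obtain ⟨c, hc0, hc1⟩ := t.swap.expansive ht.swap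
        exact (sats_of_link hc0 hc1 (t.swap.shadowing ht.swap) hL).symm
      · have hd : Disjoint (Eu i x) (Es (i + 1) x) := by
          rw [disjoint_iff]
          exact Submodule.finrank_eq_zero.1 h
        have hL := link_of_disjoint e hiso he hinj (g i).symm (g (i + 1)).symm _ _ _ _
          (Cf.IsAnosovSplitting.symm hAi) (Cf.IsAnosovSplitting.symm hAj) hcs hd
        obtain ⟨c, hc0, hc1⟩ := s.swap.expansive hs.swap
        exact sats_of_link hc0 hc1 (s.swap.shadowing hs.swap) hL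
    · obtain ⟨hX, hY⟩ := mul_eq_one.1 h1
      have hX' : ∀ y, Module.finrank ℝ ((Es i y).map (Gen.dE V e y) ⊓
          (Eu (i + 1) y).map (Gen.dE V e y) : Submodule ℝ (EuclideanSpace ℝ (Fin N))) = 1 := by
        intro y
        have h2 := hDim M (EuclideanSpace ℝ (Fin N)) E (g i).toHomeomorph
          (g (i + 1)).toHomeomorph.symm s t.swap hs ht.swap
          (comm_right hc) y x
        rw [Split.swap_S] at h2
        have h3 : ∀ z, ((s.S z).range ⊓ (t.U z).range : Submodule ℝ (EuclideanSpace ℝ (Fin N))) =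
            (Es i z).map (Gen.dE V e z) ⊓ (Eu (i + 1) z).map (Gen.dE V e z) := fun z => by
          rw [hsS z, htU z]
        rw [h3 y, h3 x] at h2
        rw [h2, ← Submodule.map_inf _ (hι x)]
        exact (LinearEquiv.finrank_eq (Submodule.equivMapOfInjective (Gen.dE V e x) (hι x) _)).symm.trans
          hX
      have hY' : ∀ y, Module.finrank ℝ ((Eu i y).map (Gen.dE V e y) ⊓
          (Es (i + 1) y).map (Gen.dE V e y) : Submodule ℝ (EuclideanSpace ℝ (Fin N))) = 1 := by
        intro y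
        have h2 := hDim M (EuclideanSpace ℝ (Fin N)) E (g i).toHomeomorph.symm
          (g (i + 1)).toHomeomorph s.swap t hs.swap ht
          (comm_left hc) y x
        rw [Split.swap_S] at h2
        have h3 : ∀ z, ((s.U z).range ⊓ (t.S z).range : Submodule ℝ (EuclideanSpace ℝ (Fin N))) =
            (Eu i z).map (Gen.dE V e z) ⊓ (Es (i + 1) z).map (Gen.dE V e z) := fun z => by
          rw [hsU z, htS z]
        rw [h3 y, h3 x] at h2
        rw [h2, ← Submodule.map_inf _ (hι x)]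
        exact (LinearEquiv.finrank_eq (Submodule.equivMapOfInjective (Gen.dE V e x) (hι x) _)).symm.trans
          hY
      obtain ⟨ε, C, l, hP⟩ := hPair M (EuclideanSpace ℝ (Fin N)) E (g i).toHomeomorph
        (g (i + 1)).toHomeomorph s t hs ht hc
      have hPi' := hPi hi2 hi2'
      have hPj' := hPj hj2 hj2'
      constructor
      · exact hWall M (EuclideanSpace ℝ (Fin N)) E (g i).toHomeomorph (g (i + 1)).toHomeomorph ε C l
          hP (hGood M (EuclideanSpace ℝ (Fin N)) E _ _ _ _ _ _ hc hPi' hPj' hX' hY')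
      · refine hWall M (EuclideanSpace ℝ (Fin N)) E (g (i + 1)).toHomeomorph (g i).toHomeomorph ε C l
          hP.swap (hGood M (EuclideanSpace ℝ (Fin N)) E _ _ _ _ _ _ (fun x => (hc x).symm) hPj' hPi'
            (fun y => ?_) (fun y => ?_))
        · rw [inf_comm]
          exact hY' y
        · rw [inf_comm]
          exact hX' y

end Pool.Agent.Lib.MP610fe3.HR
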