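import Pool.Agent.Lib.MP_610fe3_an.HR.Spec

/-!
# Higher rank actions with one dimensional symplectic pairs: (6.2)

If the double leaves `X(p)` of the periodic points `p` of a minimal closed set `A`, saturated by
unstable sets of `f`, lie in `A` then `A` is saturated by unstable sets of `g`.
-/

set_option autoImplicit false

open Set Filter Function
open scoped Topology

namespace Pool.Agent.Lib.MP610fe3.HR

open Cf CH

universe u

namespace PERXAux

/-- Points of local stable sets are forward asymptotic. -/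
theorem fwd_of_wl {M : Type*} [MetricSpace M] {a : M ≃ₜ M} {ε C l : ℝ} (h : Dec a ε C l)
    {x z : M} (hz : z ∈ Wl a ε x) : FwdAsymp a x z := by
  have h1 : Tendsto (fun n : ℕ => C * l ^ n * dist z x) atTop (𝓝 (C * 0 * dist z x)) :=
    ((tendsto_pow_atTop_nhds_zero_of_lt_one h.l_pos.le h.l_lt).const_mul C).mul_const _
  rw [mul_zero, zero_mul] at h1
  refine squeeze_zero (fun _ => dist_nonneg) (fun n => ?_) h1
  rw [dist_comm]
  exact h.dec x z hz n

/-- The local sets are closed, jointly. -/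
theorem wl_lim {M : Type*} [MetricSpace M] {a : M ≃ₜ M} {ε : ℝ} {x z : ℕ → M} {x₀ z₀ : M}
    (hx : Tendsto x atTop (𝓝 x₀)) (hz : Tendsto z atTop (𝓝 z₀)) (h : ∀ n, z n ∈ Wl a ε (x n)) :
    z₀ ∈ Wl a ε x₀ := by
  intro k
  have h1 := (((a.continuous.iterate k).tendsto z₀).comp hz).dist
    (((a.continuous.iterate k).tendsto x₀).comp hx)
  exact le_of_tendsto' h1 fun n => h n k

theorem wl_mono {M : Type*} [MetricSpace M] {a : M ≃ₜ M} {ε ε' : ℝ} (h : ε ≤ ε') {x z : M}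
    (hz : z ∈ Wl a ε x) : z ∈ Wl a ε' x := fun k => (hz k).trans h

variable {M : Type u} [MetricSpace M] [CompactSpace M] {f g : M ≃ₜ M} {ε C l : ℝ}

/-- The local step. -/
theorem local_step (hD : SpecDbl.{u}) (hP : SpecProd.{u}) (h : Pair f g ε C l) {A : Set M}
    (hA : IsClosed A) (hS : Sat f.symm A)
    (hd : ∀ y ∈ A, ∀ r : ℝ, 0 < r → ∃ p ∈ A, p ∈ periodicPts f ∧ dist p y < r)
    (hX : ∀ p ∈ A, p ∈ periodicPts f → ∀ y, Dbl f g.symm p y → y ∈ A) :
    ∃ δ : ℝ, 0 < δ ∧ ∀ z ∈ A, ∀ y ∈ Wl g.symm δ z, y ∈ A := by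
  have hε : 0 < ε := h.one.br.ε_pos
  obtain ⟨δ, hδ, hb⟩ := h.two.br.exist ε hε
  refine ⟨min (δ / 2) ε, lt_min (half_pos hδ) hε, fun z hz y hy => ?_⟩
  have hyz : dist y z ≤ δ / 2 := (hy 0).trans (min_le_left _ _)
  have hp : ∀ n : ℕ, ∃ p ∈ A, p ∈ periodicPts f ∧ dist p z < min (δ / 2) (1 / ((n : ℝ) + 1)) :=
    fun n => hd z hz _ (lt_min (half_pos hδ) (by positivity))
  choose p hpA hpp hpd using hp
  have hpz : Tendsto p atTop (𝓝 z) := by
    rw [tendsto_iff_dist_tendsto_zero]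
    refine squeeze_zero (fun _ => dist_nonneg) (fun n => ?_) tendsto_one_div_add_atTop_nhds_zero_nat
    exact ((hpd n).trans_le (min_le_right _ _)).le
  have hbr : ∀ n, ∃ b, b ∈ Wl g ε y ∧ b ∈ Wl g.symm ε (p n) := by
    intro n
    apply hb
    have h1 := dist_triangle_right y (p n) z
    have h2 := (hpd n).trans_le (min_le_left _ _)
    linarith
  choose b hb1 hb2 using hbr
  have hbA : ∀ n, b n ∈ A := by
    intro n
    have h1 : FwdAsymp g.symm (p n) (b n) := fwd_of_wl h.two.decu (hb2 n)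
    obtain ⟨w, hw1, hw2⟩ := (hP M g.symm f ε C l h.symm_right.swap).1 _ _ h1
    have hc1 : ∀ x, g.symm (f x) = f (g.symm x) := h.symm_right.swap.comm
    have hc2 : ∀ x, g.symm (f.symm x) = f.symm (g.symm x) := h.symm_both.swap.comm
    obtain ⟨-, -, -, hsw, -, -, -, -, -⟩ := hD M g.symm f hc1
    obtain ⟨-, -, -, -, -, hfa, -, -, -⟩ := hD M g.symm f.symm hc2
    have hwA : w ∈ A := hX _ (hpA n) (hpp n) _ (hsw _ _ hw1)
    exact hS _ hwA _ (hfa _ _ hw2)
  obtain ⟨b₀, -, φ, hφ, hlim⟩ := (isCompact_univ (X := M)).tendsto_subseq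
    (x := b) (fun _ => mem_univ _)
  have e1 : b₀ ∈ Wl g ε y := wl_lim tendsto_const_nhds hlim (fun n => hb1 (φ n))
  have e2 : b₀ ∈ Wl g.symm ε z :=
    wl_lim (hpz.comp hφ.tendsto_atTop) hlim (fun n => hb2 (φ n))
  have e3 : y ∈ Wl g ε y := fun k => by rw [dist_self]; exact hε.le
  have e4 : y ∈ Wl g.symm ε z := wl_mono (min_le_right _ _) hy
  have e5 : b₀ = y := h.two.br.unique _ _ _ _ e1 e2 e3 e4
  rw [← e5]
  exact hA.mem_of_tendsto hlim (Eventually.of_forall fun n => hbA (φ n))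

end PERXAux

open PERXAux

/-- (6.2) -/
theorem specPerx (hD : SpecDbl.{u}) (hP : SpecProd.{u}) (hM : SpecMin.{u}) : SpecPerx.{u} := by
  intro M _ _ f g ε C l h A hA hX x hx y hxy
  have hcl : IsClosed A := hA.1.1
  have hS : Sat f.symm A := hA.1.2.2
  have hd := (hM M f ε C l h.one A hA).1
  obtain ⟨δ, hδ, hloc⟩ := local_step hD hP h hcl hS hd hX
  have hc1 : ∀ x, g.symm (f x) = f (g.symm x) := h.symm_right.swap.comm
  have hc2 : ∀ x, g.symm (f.symm x) = f.symm (g.symm x) := h.symm_both.swap.comm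
  obtain ⟨-, -, -, -, -, hfa, -, -, -⟩ := hD M g.symm f.symm hc2
  obtain ⟨-, -, -, hsw, -, -, -, -, -⟩ := hD M g.symm f hc1
  obtain ⟨z, hz1, hz2⟩ := (hP M g.symm f.symm ε C l h.symm_both.swap).1 _ _ hxy
  have hzA : z ∈ A := hS _ hx _ (hfa _ _ hz1)
  have hz3 : Dbl f g.symm z y := hsw _ _ hz2
  obtain ⟨K, hK⟩ := hz3 δ hδ
  obtain ⟨N, hN, hinv⟩ := minimal_inv (a := f.symm) h.one.br.ε_pos h.one.expConst.symm
    h.one.shu hA
  have hinv' : f^[N] '' A = A := symm_image (f := f.symm) hinv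
  have hz' : f^[N * K] z ∈ A := iterate_maps hinv' hzA K
  have hcomm : Function.Commute (f : M → M) (g.symm : M → M) := fun x => (hc1 x).symm
  have hy' : f^[N * K] y ∈ Wl g.symm δ (f^[N * K] z) := by
    intro m
    have h1 : ∀ w, g.symm^[m] (f^[N * K] w) = f^[N * K] (g.symm^[m] w) := fun w =>
      (((hcomm.iterate_left (N * K)).iterate_right m) w).symm
    rw [h1, h1, dist_comm]
    apply hK
    have h2 : K ≤ N * K := Nat.le_mul_of_pos_left K hN
    omega
  have hyA : f^[N * K] y ∈ A := hloc _ hz' _ hy'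
  have h3 : f.symm^[N * K] (f^[N * K] y) ∈ A := iterate_maps hinv hyA K
  rwa [symm_iter] at h3

end Pool.Agent.Lib.MP610fe3.HR
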