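import Pool.Agent.Lib.MP_610fe3_an.HR.Spec
import Pool.Agent.Lib.MP_610fe3_an.Cf.CocMk
import Pool.Agent.Lib.MP_610fe3_an.Cf.Dec

/-!
# Module VEC: the equivariant vectors `v_τ` along the curve `x_τ`
-/

set_option autoImplicit false

open Set Filter Function
open scoped Topology

namespace Pool.Agent.Lib.MP610fe3.HR

open Cf CH

universe u v

namespace VecAux

section Mk

variable {M : Type u} {W : Type v} [MetricSpace M] [CompactSpace M] [NormedAddCommGroup W]
  [InnerProductSpace ℝ W] {E : Emb M W} {f : M ≃ₜ M}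

/-- the bilinear form `⟪P v, P w⟫` -/
noncomputable def bil (P : W →L[ℝ] W) : W →L[ℝ] W →L[ℝ] ℝ :=
  ((ContinuousLinearMap.compL ℝ W W ℝ).flip P) ∘L (innerSL ℝ) ∘L P

omit [CompactSpace M] in
theorem bil_apply (P : W →L[ℝ] W) (v w : W) : bil P v w = inner ℝ (P v) (P w) := rfl

omit [CompactSpace M] in
theorem bil_cont {P : M → W →L[ℝ] W} (hP : Continuous P) : Continuous (fun x => bil (P x)) := by
  unfold bil
  exact ((((ContinuousLinearMap.compL ℝ W W ℝ).flip).continuous.comp hP)).clm_comp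
    (continuous_const.clm_comp hP)

/-- A rank one bundle which is invariant under the derivative gives a conformal cocycle. -/
theorem exists_coc (s : Split E f) {P : M → W →L[ℝ] W} (hPc : Continuous P)
    (hPP : ∀ x w, P x (P x w) = P x w) (hDS : ∀ x w, s.D x (P x w) = P (f x) (s.D x w))
    (hEP : ∀ x w, E.P x (P x w) = P x w) (hrank : ∀ x, Module.finrank ℝ (P x).range = 1)
    {C₀ : ℝ} (hlip : ∀ x z, ‖s.D z - s.D x‖ ≤ C₀ * dist z x) :
    ∃ k : Coc W f, k.S = P ∧ k.D = s.D ∧ k.Di = s.Di := by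
  have hgen : ∀ x, ∃ e : W, e ≠ 0 ∧ P x e = e ∧ ∀ w, ∃ c : ℝ, P x w = c • e := by
    intro x
    obtain ⟨v, hv, H⟩ := finrank_eq_one_iff'.1 (hrank x)
    obtain ⟨y, hy⟩ := v.2
    refine ⟨v.1, fun h => hv (Subtype.ext h), ?_, fun w => ?_⟩
    · have : P x (v : W) = v := by
        rw [← hy]
        exact hPP x y
      exact this
    · obtain ⟨c, hc⟩ := H ⟨P x w, ⟨w, rfl⟩⟩
      exact ⟨c, (congrArg Subtype.val hc).symm⟩
  choose e he heP hew using hgen
  obtain ⟨K₁, hK₁, H₁⟩ := exists_norm_bound hPc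
  obtain ⟨K₂, hK₂, H₂⟩ := exists_norm_bound s.hDi.cont
  set K := max K₁ (max K₂ C₀) with hK
  have h1 : K₁ ≤ K := le_max_left _ _
  have h2 : K₂ ≤ K := (le_max_left _ _).trans (le_max_right _ _)
  have h3 : C₀ ≤ K := (le_max_right _ _).trans (le_max_right _ _)
  have hK1 : 1 ≤ K := hK₁.trans h1
  have hinv1 : ∀ x w, s.Di (f x) (s.D x (P x w)) = P x w := by
    intro x w
    have h1 := congrArg (fun L => L (P x w)) (s.inv1 x)
    exact h1.trans (hEP x w)
  have hinv2 : ∀ x w, s.D (f.symm x) (s.Di x (P x w)) = P x w := by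
    intro x w
    have h1 := congrArg (fun L => L (P x w)) (s.inv2 x)
    exact h1.trans (hEP x w)
  have hDe : ∀ x, s.D x (e x) ≠ 0 := by
    intro x h
    have := hinv1 x (e x)
    rw [heP, h, map_zero] at this
    exact he x this.symm
  let k : Coc W f :=
    { D := s.D
      Di := s.Di
      S := P
      B := fun x => bil (P x)
      a := fun x => ‖s.D x (e x)‖ / ‖e x‖
      K := K
      one_le := hK1
      D_cont := s.hD.cont
      Di_cont := s.hDi.cont
      S_cont := hPc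
      B_cont := bil_cont hPc
      SS := hPP
      DS := hDS
      inv1 := hinv1
      inv2 := hinv2
      S_ne := fun x => ⟨e x, by rw [heP]; exact he x⟩
      symm := fun x v w => by rw [bil_apply, bil_apply, real_inner_comm]
      proj := fun x v w => by rw [bil_apply, bil_apply, hPP]
      lower := fun x w => by
        rw [bil_apply, real_inner_self_eq_norm_sq]
        have : 1 ≤ K ^ 2 := one_le_pow₀ hK1
        nlinarith [sq_nonneg ‖P x w‖]
      upper := fun x w => by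
        rw [bil_apply, real_inner_self_eq_norm_sq]
        have h4 : ‖P x w‖ ≤ K * ‖w‖ := (P x).le_of_opNorm_le ((H₁ x).trans h1) w
        calc ‖P x w‖ ^ 2 ≤ (K * ‖w‖) ^ 2 := by gcongr
          _ = _ := by ring
      S_le := fun x w => (P x).le_of_opNorm_le ((H₁ x).trans h1) w
      Di_le := fun x w => (s.Di x).le_of_opNorm_le ((H₂ x).trans h2) w
      lip := fun x z w => (s.D z - s.D x).le_of_opNorm_le ((hlip x z).trans (by gcongr)) w
      a_pos := fun x => div_pos (norm_pos_iff.2 (hDe x)) (norm_pos_iff.2 (he x))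
      conf := fun x v w => by
        obtain ⟨α, hα⟩ := hew x v
        obtain ⟨β, hβ⟩ := hew x w
        have hn : ‖e x‖ ≠ 0 := norm_ne_zero_iff.2 (he x)
        rw [bil_apply, bil_apply, ← hDS, ← hDS, hα, hβ, map_smul, map_smul, inner_smul_left,
          inner_smul_right, inner_smul_left, inner_smul_right, real_inner_self_eq_norm_sq,
          real_inner_self_eq_norm_sq]
        field_simp }
  exact ⟨k, rfl, rfl, rfl⟩

end Mk

section Comm

variable {M : Type u} {W : Type v} [MetricSpace M] [CompactSpace M] [NormedAddCommGroup W]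
  [NormedSpace ℝ W] {E : Emb M W} {f g : M ≃ₜ M}

omit [CompactSpace M] in
/-- The derivative of the commuting map `g` commutes with the inverse cocycle. -/
theorem D_I (c : Coc W f) {H : M → W →L[ℝ] W} (hfg : ∀ x, f (g x) = g (f x))
    (hHS : ∀ x w, H x (c.S x w) = c.S (g x) (H x w))
    (hHA : ∀ n x w, c.A n (g x) (H x w) = H (f^[n] x) (c.A n x w)) (n : ℕ) (z : M) (u : W) :
    H z (c.I n z (c.S (f^[n] z) u)) = c.I n (g z) (c.S (f^[n] (g z)) (H (f^[n] z) u)) := by
  have hcomm : f^[n] (g z) = g (f^[n] z) := by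
    have : Function.Semiconj g f f := fun x => (hfg x).symm
    exact ((this.iterate_right n) z).symm
  set y := c.I n z (c.S (f^[n] z) u) with hy
  have h1 : c.A n (g z) (H z y) = H (f^[n] z) (c.S (f^[n] z) u) := by
    rw [hHA, hy, c.A_I]
  have h2 : c.S (g z) (H z y) = H z y := by
    rw [← hHS, hy, c.S_I]
  have h3 := c.I_A n (g z) (H z y)
  rw [h2, h1, hHS, ← hcomm] at h3
  exact h3.symm

/-- The limit commutes with the derivative of `g` at the common fixed point `p`. -/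
theorem Q_comm [CompleteSpace W] (c : Coc W f) {ε C l : ℝ} (hd : Dec f ε C l) (hS : c.Small ε)
    {H : M → W →L[ℝ] W} (hHc : Continuous H) (hfg : ∀ x, f (g x) = g (f x))
    (hHS : ∀ x w, H x (c.S x w) = c.S (g x) (H x w))
    (hHA : ∀ n x w, c.A n (g x) (H x w) = H (f^[n] x) (c.A n x w)) {p z : M} (hp : g p = p)
    (hz : z ∈ Wl f ε p) (hgz : g z ∈ Wl f ε p) (w : W) :
    H z (c.Q p z w) = c.Q p (g z) (H p w) := by
  have hK := c.K_pos
  have hR := c.R_one_le hd
  have h1 := ((H z).continuous.tendsto _).comp (c.Q_tendsto_apply hd hS hz w)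
  have h2 := c.Q_tendsto_apply hd hS hgz (H p w)
  refine tendsto_nhds_unique h1 ?_
  have h5 : Tendsto (fun n => H z (c.T n p z w) - c.T n p (g z) (H p w)) atTop (𝓝 0) := by
    have h6 := Coc.unif_tendsto hHc (Coc.dist_iter_tendsto hd hz)
    have h7 : Tendsto (fun n => (c.K ^ 6 * c.R ε C l * ‖w‖) * ‖H (f^[n] z) - H (f^[n] p)‖)
        atTop (𝓝 0) := by
      have := h6.const_mul (c.K ^ 6 * c.R ε C l * ‖w‖)
      simpa using this
    refine squeeze_zero_norm (fun n => ?_) h7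
    set a := c.A n p (c.S p w) with ha
    have e1 : H z (c.T n p z w) = c.I n (g z) (c.S (f^[n] (g z)) (H (f^[n] z) a)) := by
      rw [Coc.T_apply, D_I c hfg hHS hHA]
    have e2 : c.T n p (g z) (H p w) = c.I n (g z) (c.S (f^[n] (g z)) (H (f^[n] p) a)) := by
      have h8 : c.S p (H p w) = H p (c.S p w) := by
        have := hHS p w
        rw [hp] at this
        exact this.symm
      have h9 := hHA n p (c.S p w)
      rw [hp] at h9
      rw [Coc.T_apply, h8, h9]
    have e3 : H z (c.T n p z w) - c.T n p (g z) (H p w)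
        = c.I n (g z) (c.S (f^[n] (g z)) ((H (f^[n] z) - H (f^[n] p)) a)) := by
      rw [e1, e2, ← map_sub, ← map_sub]; rfl
    rw [e3]
    have h8 := c.I_upper n (g z) ((H (f^[n] z) - H (f^[n] p)) a)
    have h9 := c.S_le (f^[n] (g z)) ((H (f^[n] z) - H (f^[n] p)) a)
    have h10 := (H (f^[n] z) - H (f^[n] p)).le_opNorm a
    have h11 := c.A_upper n p w
    have h12 := c.S_le p w
    have h13 := c.ratio hd hS hgz n
    have ha1 := c.an_pos n (g z)
    have ha2 := c.an_pos n p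
    have h14 : c.an n (g z) * ‖c.I n (g z) (c.S (f^[n] (g z)) ((H (f^[n] z) - H (f^[n] p)) a))‖
        ≤ c.an n (g z) * ((c.K ^ 6 * c.R ε C l * ‖w‖) * ‖H (f^[n] z) - H (f^[n] p)‖) := by
      calc _ ≤ c.K ^ 2 * ‖c.S (f^[n] (g z)) ((H (f^[n] z) - H (f^[n] p)) a)‖ := h8
        _ ≤ c.K ^ 2 * (c.K * (‖H (f^[n] z) - H (f^[n] p)‖
            * (c.K ^ 2 * (c.R ε C l * c.an n (g z)) * (c.K * ‖w‖)))) := by
            refine mul_le_mul_of_nonneg_left (h9.trans ?_) (by positivity)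
            refine mul_le_mul_of_nonneg_left (h10.trans ?_) (by positivity)
            refine mul_le_mul_of_nonneg_left (h11.trans ?_) (norm_nonneg _)
            gcongr
        _ = _ := by ring
    exact le_of_mul_le_mul_left h14 ha1
  have h15 := h5.add h2
  rw [zero_add] at h15
  exact h15.congr fun n => by simp only [Function.comp_apply]; abel

end Comm

section Ext

variable {M : Type u} {W : Type v} [MetricSpace M] [CompactSpace M] [NormedAddCommGroup W]
  [NormedSpace ℝ W] {f g : M ≃ₜ M}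

omit [CompactSpace M] in
theorem iter_x {x : ℝ → M} (hx : ∀ τ, f (x τ) = x (τ + 1)) (n : ℕ) (τ : ℝ) :
    f^[n] (x τ) = x (τ + n) := by
  induction n with
  | zero => simp
  | succ n ih =>
    rw [iterate_succ_apply', ih, hx]
    congr 1
    push_cast
    ring

omit [CompactSpace M] in
/-- The vectors for large `τ` extend to all `τ`. -/
theorem extend (c : Coc W f) {x : ℝ → M} (hxc : Continuous x) (hx : ∀ τ, f (x τ) = x (τ + 1))
    {H : M → W →L[ℝ] W} {θ T₀ : ℝ} (hxg : ∀ τ, g (x τ) = x (τ - θ))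
    (hHS : ∀ x w, H x (c.S x w) = c.S (g x) (H x w))
    (hHA : ∀ n x w, c.A n (g x) (H x w) = H (f^[n] x) (c.A n x w)) {V : ℝ → W}
    (hVc : ContinuousOn V (Ici T₀)) (hVS : ∀ τ, T₀ ≤ τ → c.S (x τ) (V τ) = V τ)
    (hV0 : ∀ τ, T₀ ≤ τ → V τ ≠ 0) (hVD : ∀ τ, T₀ ≤ τ → c.D (x τ) (V τ) = V (τ + 1))
    (hVH : ∀ τ, T₀ ≤ τ → T₀ ≤ τ - θ → H (x τ) (V τ) = V (τ - θ)) :
    ∃ v : ℝ → W, Continuous v ∧ (∀ τ, c.S (x τ) (v τ) = v τ) ∧ (∀ τ, v τ ≠ 0) ∧
      (∀ τ, c.D (x τ) (v τ) = v (τ + 1)) ∧ (∀ τ, H (x τ) (v τ) = v (τ - θ)) := by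
  -- consistency
  have hstep : ∀ (k : ℕ) (τ : ℝ), T₀ ≤ τ + k →
      c.I (k + 1) (x τ) (V (τ + (k + 1 : ℕ))) = c.I k (x τ) (V (τ + k)) := by
    intro k τ hk
    have e1 : c.Di (f^[k + 1] (x τ)) (V (τ + (k + 1 : ℕ))) = V (τ + k) := by
      have h1 := c.inv1 (x (τ + k)) (V (τ + k))
      rw [hVS _ hk, hVD _ hk] at h1
      have h2 : f^[k + 1] (x τ) = f (x (τ + k)) := by
        rw [iterate_succ_apply', iter_x hx]
      have h3 : τ + (k + 1 : ℕ) = τ + k + 1 := by push_cast; ring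
      rw [h2, h3]
      exact h1
    rw [c.I_succ, e1]
  have hcons : ∀ (τ : ℝ) (k : ℕ), T₀ ≤ τ + k → ∀ j : ℕ,
      c.I (k + j) (x τ) (V (τ + (k + j : ℕ))) = c.I k (x τ) (V (τ + k)) := by
    intro τ k hk j
    induction j with
    | zero => simp
    | succ j ih =>
      rw [← ih, ← add_assoc]
      exact hstep (k + j) τ (by push_cast; linarith [(Nat.cast_nonneg j : (0 : ℝ) ≤ j)])
  have hcons2 : ∀ (τ : ℝ) (k k' : ℕ), T₀ ≤ τ + k → T₀ ≤ τ + k' →
      c.I k (x τ) (V (τ + k)) = c.I k' (x τ) (V (τ + k')) := by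
    intro τ k k' hk hk'
    rcases le_total k k' with h | h
    · obtain ⟨j, rfl⟩ := Nat.exists_eq_add_of_le h
      exact (hcons τ k hk j).symm
    · obtain ⟨j, rfl⟩ := Nat.exists_eq_add_of_le h
      exact hcons τ k' hk' j
  have hceil : ∀ τ : ℝ, T₀ ≤ τ + ⌈T₀ - τ⌉₊ := fun τ => by
    have := Nat.le_ceil (T₀ - τ)
    linarith
  set v : ℝ → W := fun τ => c.I ⌈T₀ - τ⌉₊ (x τ) (V (τ + ⌈T₀ - τ⌉₊)) with hv
  have hvk : ∀ (τ : ℝ) (k : ℕ), T₀ ≤ τ + k → v τ = c.I k (x τ) (V (τ + k)) := fun τ k hk =>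
    hcons2 τ _ k (hceil τ) hk
  have hvV : ∀ τ, T₀ ≤ τ → v τ = V τ := by
    intro τ hτ
    have := hvk τ 0 (by simpa using hτ)
    simpa using this
  have hSk : ∀ (τ : ℝ) (k : ℕ), T₀ ≤ τ + k →
      c.S (f^[k] (x τ)) (V (τ + k)) = V (τ + k) := by
    intro τ k hk
    rw [iter_x hx]
    exact hVS _ hk
  have hvS : ∀ τ, c.S (x τ) (v τ) = v τ := by
    intro τ
    have h1 := c.S_I ⌈T₀ - τ⌉₊ (x τ) (V (τ + ⌈T₀ - τ⌉₊))
    rw [hSk _ _ (hceil τ)] at h1
    exact h1
  have hvA : ∀ (τ : ℝ) (k : ℕ), T₀ ≤ τ + k → c.A k (x τ) (v τ) = V (τ + k) := by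
    intro τ k hk
    have h1 := c.A_I k (x τ) (V (τ + k))
    rw [hSk _ _ hk, ← hvk τ k hk] at h1
    exact h1
  have hvD : ∀ τ, c.D (x τ) (v τ) = v (τ + 1) := by
    intro τ
    set k := ⌈T₀ - τ⌉₊ with hk
    have hk1 := hceil τ
    rw [← hk] at hk1
    have h1 : v τ = c.I (k + 1) (x τ) (V (τ + (k + 1 : ℕ))) :=
      hvk τ (k + 1) (by push_cast; linarith)
    have h2 : v (τ + 1) = c.I k (x (τ + 1)) (V (τ + 1 + k)) := hvk (τ + 1) k (by linarith)
    have h3 : τ + (k + 1 : ℕ) = τ + 1 + k := by push_cast; ring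
    have h4 : v τ = c.Di (f (x τ)) (v (τ + 1)) := by
      rw [h1, h2, h3, c.I_succ', hx]
    have h5 := c.inv2 (f (x τ)) (v (τ + 1))
    rw [hx, hvS (τ + 1), ← hx, f.symm_apply_apply] at h5
    rw [h4, h5]
  refine ⟨v, ?_, hvS, ?_, hvD, ?_⟩
  · rw [continuous_iff_continuousAt]
    intro τ₀
    set k := ⌈T₀ - (τ₀ - 1)⌉₊ with hk
    have hk1 := hceil (τ₀ - 1)
    rw [← hk] at hk1
    have h1 : ContinuousOn (fun τ => c.I k (x τ) (V (τ + k))) (Ici (τ₀ - 1)) := by
      refine ((c.I_cont k).comp hxc).continuousOn.clm_apply ?_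
      refine hVc.comp ((continuous_id.add continuous_const).continuousOn) ?_
      intro τ hτ
      have : τ₀ - 1 ≤ τ := hτ
      show T₀ ≤ τ + k
      linarith
    have h2 : ContinuousAt (fun τ => c.I k (x τ) (V (τ + k))) τ₀ :=
      h1.continuousAt (Ici_mem_nhds (by linarith))
    refine h2.congr ?_
    filter_upwards [Ici_mem_nhds (show τ₀ - 1 < τ₀ by linarith)] with τ hτ
    have : τ₀ - 1 ≤ τ := hτ
    exact (hvk τ k (by linarith)).symm
  · intro τ h
    have h1 := hvA τ _ (hceil τ)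
    rw [h, map_zero] at h1
    exact hV0 _ (hceil τ) h1.symm
  · intro τ
    set k := max ⌈T₀ - τ⌉₊ ⌈T₀ - (τ - θ)⌉₊ with hk
    have hk1 : T₀ ≤ τ + k := by
      have h1 := hceil τ
      have h2 : ((⌈T₀ - τ⌉₊ : ℕ) : ℝ) ≤ k := by exact_mod_cast le_max_left _ _
      linarith
    have hk2 : T₀ ≤ τ - θ + k := by
      have h1 := hceil (τ - θ)
      have h2 : ((⌈T₀ - (τ - θ)⌉₊ : ℕ) : ℝ) ≤ k := by exact_mod_cast le_max_right _ _
      linarith
    have e1 : c.A k (x (τ - θ)) (H (x τ) (v τ)) = c.A k (x (τ - θ)) (v (τ - θ)) := by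
      rw [hvA _ _ hk2, ← hxg, hHA, hvA _ _ hk1, iter_x hx, hVH _ hk1 (by linarith)]
      congr 1
      ring
    have e2 : c.S (x (τ - θ)) (H (x τ) (v τ)) = H (x τ) (v τ) := by
      rw [← hxg, ← hHS, hvS]
    have h1 := c.I_A k (x (τ - θ)) (H (x τ) (v τ))
    have h2 := c.I_A k (x (τ - θ)) (v (τ - θ))
    rw [e2, e1] at h1
    rw [hvS] at h2
    rw [← h1, h2]

end Ext

end VecAux

open VecAux in
theorem specVec : SpecVec.{u, v} := by
  intro M W _ _ _ _ _ E f g s t C₀ θ b p x hB hfp hgp hxc hx hxg hlim hDp hDg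
  have hfg' : ∀ x, f.symm (g x) = g (f.symm x) := hB.comm
  have hfg : ∀ x, f (g x) = g (f x) := comm_symm hB.comm
  have hs : s.Hyperbolic := by
    obtain ⟨C, l, hC, hl, hl1, H⟩ := hB.hs
    exact ⟨C, l, hC, hl, hl1, fun k x w => ⟨(H k x w).2, (H k x w).1⟩⟩
  have ht := hB.ht
  set P : M → W →L[ℝ] W := PP s.swap t with hP
  have hPdef : ∀ x w, P x w = s.U x (t.S x w) := fun x w => rfl
  have hcm : ∀ x w, s.U x (t.S x w) = t.S x (s.U x w) := fun x w =>
    congrArg (fun L => L w) (SS_commute s.swap t hB.hs ht hfg' x)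
  have hUU : ∀ x w, s.U x (s.U x w) = s.U x w := fun x w => congrArg (fun L => L w) (s.UU x)
  have hSS : ∀ x w, t.S x (t.S x w) = t.S x w := fun x w => congrArg (fun L => L w) (t.SS x)
  have hPP : ∀ x w, P x (P x w) = P x w := fun x w => by
    rw [hPdef, hPdef, ← hcm, hSS, hUU]
  have hDS : ∀ x w, s.D x (P x w) = P (f x) (s.D x w) := fun x w => by
    have h1 := congrArg (fun L => L (t.S x w)) (s.DU x)
    have h2 := congrArg (fun L => L w) (DS_commutes s t ht hfg x).1
    simp only [ContinuousLinearMap.comp_apply] at h1 h2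
    rw [hPdef, hPdef, h1, h2]
  have hEP : ∀ x w, E.P x (P x w) = P x w := fun x w =>
    congrArg (fun L => L (t.S x w)) (s.PU x)
  have hPc : Continuous P := by
    have h1 : Continuous s.U := s.continuous_U hs
    have h2 : Continuous t.S := split_continuous_S t ht
    exact h1.clm_comp h2
  obtain ⟨c, hcS, hcD, hcDi⟩ := exists_coc s hPc hPP hDS hEP hB.rank
    (fun x z => hB.sqs.lipDi x z)
  obtain ⟨ε₀, C, l, hd₀⟩ := exists_dec s hs
  obtain ⟨ε₁, hε₁, hsm⟩ := c.exists_small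
  set ε := min ε₀ ε₁ with hε
  have hεpos : 0 < ε := lt_min hd₀.ε_pos hε₁
  have hd : Dec f ε C l := Coc.dec_mono hd₀ hεpos (min_le_left _ _)
  have hS : c.Small ε := hsm ε (min_le_right _ _)
  -- the derivative of `g`
  have hHS : ∀ x w, t.D x (c.S x w) = c.S (g x) (t.D x w) := fun x w => by
    rw [hcS]
    have h1 := congrArg (fun L => L w) (t.DS x)
    have h2 := congrArg (fun L => L (t.S x w)) (DS_commutes t s.swap hB.hs
      (fun x => (hfg' x).symm) x).1
    simp only [ContinuousLinearMap.comp_apply, Split.swap_S] at h1 h2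
    rw [hPdef, hPdef, h2, h1]
  have hHA : ∀ n x w, c.A n (g x) (t.D x w) = t.D (f^[n] x) (c.A n x w) := fun n x w => by
    have h1 := congrArg (fun L => L w) (comm_iterD f.continuous g.continuous s.hD t.hD hfg n x)
    have h2 : ∀ n x, c.A n x = iterD s.D f n x := fun n x => by
      unfold Coc.A; rw [hcD]
    rw [h2, h2]
    exact h1
  -- the vector at `p`
  obtain ⟨e, he, hPe⟩ : ∃ e : W, e ≠ 0 ∧ P p e = e := by
    obtain ⟨w, hw⟩ := c.S_ne p
    rw [hcS] at hw
    exact ⟨P p w, hw, hPP p w⟩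
  have hDe : c.D p e = Real.exp b • e := by
    have := hDp e
    rw [hPe] at this
    rw [hcD]
    exact this
  have hGe : t.D p e = Real.exp (-(b * θ)) • e := by
    have := hDg e
    rw [hPe] at this
    exact this
  -- large `τ`
  obtain ⟨T₀, hT₀⟩ : ∃ T₀ : ℝ, ∀ τ, T₀ ≤ τ → dist (x τ) p ≤ ε := by
    have h1 := (Metric.tendsto_nhds.1 hlim ε hεpos)
    obtain ⟨T₀, hT₀⟩ := eventually_atTop.1 h1
    exact ⟨T₀, fun τ hτ => (hT₀ τ hτ).le⟩
  have hfixp : ∀ n : ℕ, f^[n] p = p := fun n => iterate_fixed hfp n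
  have hWl : ∀ τ, T₀ ≤ τ → x τ ∈ Wl f ε p := fun τ hτ k => by
    rw [iter_x hx, hfixp]
    exact hT₀ _ (by linarith [(Nat.cast_nonneg k : (0 : ℝ) ≤ k)])
  have hQc : ContinuousOn (fun τ : ℝ => c.Q p (x τ)) (Ici T₀) := by
    have h1 : ContinuousOn (fun τ : ℝ => ((p, x τ) : M × M)) (Ici T₀) :=
      (continuous_const.prodMk hxc).continuousOn
    have h2 : MapsTo (fun τ : ℝ => ((p, x τ) : M × M)) (Ici T₀) {q | q.2 ∈ Wl f ε q.1} :=
      fun τ hτ => hWl τ hτ
    have h3 := c.Q_cont hd hS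
    have h4 := ContinuousOn.comp h3 h1 h2
    exact h4
  set V : ℝ → W := fun τ => Real.exp (b * τ) • c.Q p (x τ) e with hV
  obtain ⟨v, h1, h2, h3, h4, h5⟩ := extend c hxc hx hxg hHS hHA (T₀ := T₀) (V := V)
    (by
      have h1 : ContinuousOn (fun τ : ℝ => Real.exp (b * τ)) (Ici T₀) :=
        (Real.continuous_exp.comp (continuous_const.mul continuous_id)).continuousOn
      have h2 : ContinuousOn (fun τ : ℝ => c.Q p (x τ) e) (Ici T₀) :=
        hQc.clm_apply continuousOn_const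
      exact ContinuousOn.smul h1 h2)
    (fun τ hτ => by
      simp only [hV, map_smul]
      rw [c.S_Q_apply hd hS (hWl τ hτ)])
    (fun τ hτ h => by
      have h1 : c.Q p (x τ) e = 0 := by
        rcases smul_eq_zero.1 h with h | h
        · exact absurd h (Real.exp_pos _).ne'
        · exact h
      have h2 := c.Q_conf hd hS (hWl τ hτ) e e
      rw [h1] at h2
      simp only [map_zero] at h2
      have h3 := c.q_pos hd hS (hWl τ hτ)
      have h4 := c.lower p e
      rw [hcS, hPe] at h4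
      have h5 : c.B p e e = 0 := by
        rcases mul_eq_zero.1 h2.symm with h | h
        · exact absurd h (pow_pos h3 2).ne'
        · exact h
      rw [h5, mul_zero] at h4
      have h6 : 0 < ‖e‖ := norm_pos_iff.2 he
      nlinarith)
    (fun τ hτ => by
      have h1 := c.Q_equiv_apply hd hS (hWl τ hτ) e
      rw [hfp, hx, hDe, map_smul] at h1
      simp only [hV, map_smul]
      rw [← h1, smul_smul, ← Real.exp_add]
      congr 2
      ring)
    (fun τ hτ hτ' => by
      have h1 := Q_comm c hd hS t.hD.cont hfg hHS hHA hgp (hWl τ hτ)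
        (by rw [hxg]; exact hWl _ hτ') e
      rw [hxg, hGe, map_smul] at h1
      simp only [hV, map_smul]
      rw [h1, smul_smul, ← Real.exp_add]
      congr 2
      ring)
  refine ⟨v, h1, fun τ => ?_, h3, fun τ => ?_, h5⟩
  · have := h2 τ
    rw [hcS] at this
    exact this
  · have := h4 τ
    rw [hcD] at this
    exact this

end Pool.Agent.Lib.MP610fe3.HR
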