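import Pool.Agent.Lib.MP_610fe3_an.HR.WALL
import Pool.Agent.Lib.MP_610fe3_an.HR.DBL
import Pool.Agent.Lib.MP_610fe3_an.HR.PROD
import Pool.Agent.Lib.MP_610fe3_an.HR.BAS
import Pool.Agent.Lib.MP_610fe3_an.HR.MIN
import Pool.Agent.Lib.MP_610fe3_an.HR.PERX
import Pool.Agent.Lib.MP_610fe3_an.HR.EXIT
import Pool.Agent.Lib.MP_610fe3_an.HR.COMM
import Pool.Agent.Lib.MP_610fe3_an.HR.TRANS
import Pool.Agent.Lib.MP_610fe3_an.HR.FIN
import Pool.Agent.Lib.MP_610fe3_an.HR.PAIR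
import Pool.Agent.Lib.MP_610fe3_an.HR.COC
import Pool.Agent.Lib.MP_610fe3_an.HR.GRW
import Pool.Agent.Lib.MP_610fe3_an.HR.FLT
import Pool.Agent.Lib.MP_610fe3_an.HR.SRJ
import Pool.Agent.Lib.MP_610fe3_an.HR.GAM
import Pool.Agent.Lib.MP_610fe3_an.HR.VEC
import Pool.Agent.Lib.MP_610fe3_an.HR.PLANE
import Pool.Agent.Lib.MP_610fe3_an.HR.ARITH
import Pool.Agent.Lib.MP_610fe3_an.HR.LIN
import Pool.Agent.Lib.MP_610fe3_an.HR.RNG
import Pool.Agent.Lib.MP_610fe3_an.HR.SCA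
import Pool.Agent.Lib.MP_610fe3_an.HR.EIG
import Pool.Agent.Lib.MP_610fe3_an.HR.CHN
import Pool.Agent.Lib.MP_610fe3_an.HR.ACT
import Pool.Agent.Lib.MP_610fe3_an.HR.MFD

/-!
# Higher rank actions: assembly of the modules
-/

set_option autoImplicit false

open Set Filter Function Bundle
open scoped Topology Manifold ContDiff

namespace Pool.Agent.Lib.MP610fe3.HR

universe u v w

theorem specMin' : SpecMin.{u} := specMin specBas

theorem specGrw' : SpecGrw.{u, v} := specGrw specProd specPair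

theorem specSrj' : SpecSrj.{u, v} := specSrj specDbl specProd specPair

theorem specGam' : SpecGam.{u, v} :=
  specGam specDbl specProd specPair specCoc specGrw' specFlt specSrj'

/-- The wall lemma. -/
theorem wall : SpecWall.{u, v} :=
  specWall specDbl specMin' (specPerx specDbl specProd specMin')
    (specExit specDbl specProd specBas) (specFin (specTrans (specComm specProd))) specPair
    (specPlane specGam' specVec)

theorem eig : SpecEig.{u, v, w} := specEig specLin specRng specSca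

theorem chain : SpecChain.{u, v, w} := specChain specArith eig wall specPair

variable {V : Type v} [NormedAddCommGroup V] [NormedSpace ℝ V] [FiniteDimensional ℝ V]
  {M : Type u} [TopologicalSpace M] [CompactSpace M] [T2Space M] [ConnectedSpace M]
  [ChartedSpace V M] [IsManifold 𝓘(ℝ, V) ∞ M]
  [RiemannianBundle (fun x : M => TangentSpace 𝓘(ℝ, V) x)]
  [IsContinuousRiemannianBundle V (fun x : M => TangentSpace 𝓘(ℝ, V) x)]

/-- **The theorem.** -/
theorem main {k : ℕ} (A : (Fin k → ℤ) → M ≃ₘ^1⟮𝓘(ℝ, V), 𝓘(ℝ, V)⟯ M)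
    (hadd : ∀ n n' x, A (n + n') x = A n (A n' x)) {J : Type w} [Finite J] (χ : J → Fin k → ℝ)
    (F : J → ∀ x : M, Submodule ℝ (TangentSpace 𝓘(ℝ, V) x))
    (hA : ∀ n : Fin k → ℤ, (∀ j, ∑ i, χ j i * (n i : ℝ) ≠ 0) → Gen.IsAnosovSplitting (A n)
      (fun x => ⨆ (j) (_ : ∑ i, χ j i * (n i : ℝ) < 0), F j x)
      (fun x => ⨆ (j) (_ : 0 < ∑ i, χ j i * (n i : ℝ)), F j x))
    (hpair : ∀ i j, ∀ t : ℝ, 0 < t → χ i = -(t • χ j) →
      (∀ n, ContMDiff 𝓘(ℝ, V) 𝓘(ℝ, V) 2 (A n)) ∧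
      (∀ x, Module.finrank ℝ (⨆ (l) (_ : ∃ c : ℝ, 0 < c ∧ χ l = c • χ i), F l x :
        Submodule ℝ (TangentSpace 𝓘(ℝ, V) x)) = 1) ∧
      ∃ a b : Fin k → ℤ, Irrational ((∑ l, χ i l * (a l : ℝ)) / ∑ l, χ i l * (b l : ℝ)))
    (n : Fin k → ℤ) (hn : ∀ j, ∑ i, χ j i * (n i : ℝ) ≠ 0) : TopTransitive (A n) :=
  main_hr chain specAct A hadd χ F hA hpair n hn

end Pool.Agent.Lib.MP610fe3.HR
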