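import Pool.Agent.Lib.MP_610fe3_an.HR.Spec

/-!
# Module WALL: the wall lemma from the other modules
-/

set_option autoImplicit false

open Set Filter Function
open scoped Topology

namespace Pool.Agent.Lib.MP610fe3.HR

open Cf CH

universe u v

namespace WALLAux

variable {M : Type*} [MetricSpace M] {f F : M ≃ₜ M} {k : ℕ}

theorem symm_pow (hF : ∀ z, F z = f^[k] z) (z : M) : F.symm z = f.symm^[k] z := by
  apply F.injective
  rw [F.apply_symm_apply, hF, iter_symm]

theorem iter_pow (hF : ∀ z, F z = f^[k] z) (n : ℕ) (z : M) : F^[n] z = f^[k * n] z := by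
  have : (F : M → M) = f^[k] := funext hF
  rw [this, iterate_mul]

theorem fa_pow [CompactSpace M] (hk : 0 < k) (hF : ∀ z, F z = f^[k] z) {x y : M}
    (h : FwdAsymp F x y) : FwdAsymp f x y := by
  refine fwdAsymp_of_mul f.continuous hk ?_
  refine (show Tendsto (fun j : ℕ => dist (F^[j] x) (F^[j] y)) atTop (𝓝 0) from h).congr fun j => ?_
  rw [iter_pow hF, iter_pow hF]

end WALLAux

open WALLAux

/-- **The wall lemma.** -/
theorem specWall (hDbl : SpecDbl.{u}) (hMin : SpecMin.{u}) (hPerx : SpecPerx.{u})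
    (hExit : SpecExit.{u}) (hFin : SpecFin.{u}) (hPair : SpecPair.{u, v})
    (hPlane : SpecPlane.{u, v}) : SpecWall.{u, v} := by
  intro M W _ _ _ _ _ E f g ε C l θ P hθ hθ0 hgood A hA
  refine hPerx M f g ε C l P A hA fun p hpA hp y hy => ?_
  by_contra hyA
  obtain ⟨k, F, G, S, T, C₀, hk, hF, hG, hFp, hGp, hB1, hB2, hE⟩ := hgood p hp
  have hne : y ≠ p := fun h => hyA (h ▸ hpA)
  have hG' : ∀ z, G.symm z = g.symm^[k] z := symm_pow hG
  have hF' : ∀ z, F.symm z = f.symm^[k] z := symm_pow hF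
  have hFG : ∀ x, F (G x) = G (F x) := hB2.comm |> fun h x => by
    have h1 := h (F (G x))
    rw [F.symm_apply_apply] at h1
    have h2 : F (G x) = F (G (F.symm (F x))) := by rw [F.symm_apply_apply]
    have h3 := h (F x)
    rw [F.symm_apply_apply] at h3
    have h4 := congrArg F h3
    rw [F.apply_symm_apply] at h4
    exact h4.symm
  obtain ⟨ε', C', l', P'⟩ := hPair M W E F G S T hB2.hs.swap (by
    have := hB2.ht
    exact this) hFG
  -- the plane
  have hcg : ∀ x, f (g.symm x) = g.symm (f x) := P.symm_right.comm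
  have hy' : Dbl F G.symm p y :=
    (hDbl M f g.symm hcg).2.2.2.2.2.2.2.2 F G.symm k hk hF hG' p y hy
  obtain ⟨H, hH, hH0⟩ := hPlane M W E F G S T C₀ θ p y hB1 hB2 hFp hGp hE hy' hne
  -- invariance
  have hcF : ∀ x, F (f x) = f (F x) := fun x => by
    rw [hF, hF, ← iterate_succ_apply, ← iterate_succ_apply' (⇑f)]
  have hcG : ∀ x, G (f x) = f (G x) := fun x => by
    rw [hG, hG]
    have h1 : Function.Commute (f : M → M) g := P.comm
    exact ((h1.iterate_right k) x).symm
  have hM := hMin M f ε C l P.one A hA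
  have hFA := hM.2 F hcF p hpA hFp
  have hGA := hM.2 G hcG p hpA hGp
  have hsat : Sat F.symm A := fun x hx z hxz => hA.1.2.2 x hx z (fa_pow hk hF' hxz)
  obtain ⟨H', R, hcut⟩ := hExit M F G ε' C' l' θ p H A P' hθ hθ0 hA.1.1 hsat hFA hGA hpA hH
    (by rw [hH0]; exact hyA)
  exact hFin M F G ε' C' l' θ p H' R P' hθ hθ0 hcut

end Pool.Agent.Lib.MP610fe3.HR
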