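import Pool.Agent.Lib.MP_610fe3_an.HR.Spec2
import Pool.Agent.Lib.MP_610fe3_an.HR.WALL

/-!
# Module WALLQ: the wall lemma at a rational wall, from the other modules
-/

set_option autoImplicit false

open Set Filter Function
open scoped Topology

namespace Pool.Agent.Lib.MP610fe3.HR

open Cf CH

universe u v

namespace WALLQAux

variable {M : Type*} [MetricSpace M] {f g F G : M ≃ₜ M} {k : ℕ}

theorem comm_of (h : ∀ x, F.symm (G x) = G (F.symm x)) : ∀ x, F (G x) = G (F x) := fun x => by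
  have h1 := h (F x)
  rw [F.symm_apply_apply] at h1
  rw [← h1, F.apply_symm_apply]

theorem comm_left (hF : ∀ z, F z = f^[k] z) (x : M) : F (f x) = f (F x) := by
  rw [hF, hF, ← iterate_succ_apply, ← iterate_succ_apply' (⇑f)]

theorem comm_right (hc : ∀ x, f (g x) = g (f x)) (hG : ∀ z, G z = g^[k] z) (x : M) :
    G (f x) = f (G x) := by
  rw [hG, hG]
  have h1 : Function.Commute (f : M → M) g := hc
  exact ((h1.iterate_right k) x).symm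

theorem wl_pow (hF : ∀ z, F z = f^[k] z) {δ : ℝ} {x y : M} (h : y ∈ Wl f δ x) :
    y ∈ Wl F δ x := fun n => by
  rw [WALLAux.iter_pow hF, WALLAux.iter_pow hF]
  exact h (k * n)

theorem cc_pow (hF : ∀ z, F z = f^[k] z) (hG : ∀ z, G z = g^[k] z) (m n : ℕ) (z : M) :
    cc F G m n z = cc f g (k * m) (k * n) z := by
  simp only [cc]
  rw [WALLAux.iter_pow hF, WALLAux.iter_pow hG]

end WALLQAux

open WALLAux WALLQAux

/-- **The wall lemma at a rational wall.** -/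
theorem specWallq (hDbl : SpecDbl.{u}) (hMin : SpecMin.{u}) (hPerx : SpecPerx.{u})
    (hPair : SpecPair.{u, v}) (hGam : SpecGam.{u, v}) (hFix : SpecFix.{u}) (hPow : SpecPow.{u})
    (hFixx : SpecFixx.{u, v}) (hBdra : SpecBdra.{u, v}) (hBdrb : SpecBdrb.{u, v})
    (hFan : SpecFan.{u, v}) (hHalf : SpecHalf.{u, v}) (hSide : SpecSide.{u, v})
    (hGap : SpecGap.{u, v}) (hCutq : SpecCutq.{u, v}) (hCommr : SpecCommr.{u})
    (hFinr : SpecFinr.{u}) : SpecWallq.{u, v} := by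
  intro M W _ _ _ _ _ E f g ε C l θ a b P ha hb hab hgood A hA
  refine hPerx M f g ε C l P A hA fun p hpA hp y hy => ?_
  by_contra hyA
  have hcg : ∀ x, f (g.symm x) = g.symm (f x) := P.symm_right.comm
  have hM := hMin M f ε C l P.one A hA
  -- the point `p`
  obtain ⟨k, F, G, S, T, C₀, hk, hF, hG, hFp, hGp, hB1, hB2, hE⟩ := hgood p hp
  have hG' : ∀ z, G.symm z = g.symm^[k] z := symm_pow hG
  have hF' : ∀ z, F.symm z = f.symm^[k] z := symm_pow hF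
  have hFG : ∀ x, F (G x) = G (F x) := comm_of hB2.comm
  obtain ⟨ε', C', l', P'⟩ := hPair M W E F G S T hB1.hs hB2.ht hFG
  obtain ⟨γ, hγ⟩ := hGam M W E F G.symm S T.swap C₀ hB1
  have hc := hFixx M W E F G S T θ γ p a b hγ hFp hGp hE hab
  have hFA := hM.2 F (fun x => comm_left hF x) p hpA hFp
  have hsat : Sat F.symm A := fun x hx z hxz => hA.1.2.2 x hx z (fa_pow hk hF' hxz)
  have hy' : Dbl F G.symm p y :=
    (hDbl M f g.symm hcg).2.2.2.2.2.2.2.2 F G.symm k hk hF hG' p y hy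
  obtain ⟨z₀, e₀, p₁, k', h1, h2, h3, h4, h5, h6, h7, h8⟩ :=
    hBdra M W E F G S T C₀ ε' C' l' γ p y A a b P' hB1 hγ ha hb hc hFp hA.1.1 hsat hFA hpA hy' hyA
  obtain ⟨hp₁A, harc⟩ := hBdrb M W E F G S T C₀ ε' C' l' γ p A a b z₀ e₀ p₁ k' P' hB1 hγ ha hb hc
    hFp hA.1.1 hsat hFA h1 h2 h3 h4 h5 h6 h7 h8
  -- the point `p₁`
  have hp₁ : p₁ ∈ periodicPts f := by
    refine ⟨k * k', Nat.mul_pos hk h6, ?_⟩
    show f^[k * k'] p₁ = p₁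
    rw [← iter_pow hF]
    exact h7
  obtain ⟨k₁, F₁, G₁, S₁, T₁, C₁, hk₁, hF₁, hG₁, hFp₁, hGp₁, hB1', hB2', hE₁⟩ := hgood p₁ hp₁
  have hG₁' : ∀ z, G₁.symm z = g.symm^[k₁] z := symm_pow hG₁
  have hF₁' : ∀ z, F₁.symm z = f.symm^[k₁] z := symm_pow hF₁
  have hFG₁ : ∀ x, F₁ (G₁ x) = G₁ (F₁ x) := comm_of hB2'.comm
  obtain ⟨ε₁, C₁', l₁, P₁⟩ := hPair M W E F₁ G₁ S₁ T₁ hB1'.hs hB2'.ht hFG₁
  obtain ⟨γ₁, hγ₁⟩ := hGam M W E F₁ G₁.symm S₁ T₁.swap C₁ hB1'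
  have hc₁ := hFixx M W E F₁ G₁ S₁ T₁ θ γ₁ p₁ a b hγ₁ hFp₁ hGp₁ hE₁ hab
  have hFA₁ := hM.2 F₁ (fun x => comm_left hF₁ x) p₁ hp₁A hFp₁
  have hGA₁ := hM.2 G₁ (fun x => comm_right P.comm hG₁ x) p₁ hp₁A hGp₁
  have hsat₁ : Sat F₁.symm A := fun x hx z hxz => hA.1.2.2 x hx z (fa_pow hk₁ hF₁' hxz)
  have hpow := hPow M f g.symm F G.symm k hcg hk hF hG'
  have hto : ∀ z, Dbl F G.symm p₁ z → Dbl F₁ G₁.symm p₁ z := fun z hz =>
    (hDbl M f g.symm hcg).2.2.2.2.2.2.2.2 F₁ G₁.symm k₁ hk₁ hF₁ hG₁' p₁ z (hpow.1 _ _ hz)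
  have harcs := harc k₁ hk₁ fun y' hy' => by
    have e1 := hc₁ y' (hto y' hy')
    have e2 := (hFix M F₁ G₁ ε₁ C₁' l₁ P₁ a b ha hb).2.2.2 y' e1 k
    rw [cc_pow hF₁ hG₁] at e2
    rw [cc_pow hF hG]
    rw [show k * (k₁ * a) = k₁ * (k * a) by ring, show k * (k₁ * b) = k₁ * (k * b) by ring]
    exact e2
  have harcs₁ : Arcs F₁ G₁ A p₁ := by
    intro δ hδ
    obtain ⟨δ', hδ', hwl⟩ := hpow.2 δ hδ
    obtain ⟨ℓ, l1, l2, l3, l4, l5⟩ := harcs δ' hδ'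
    exact ⟨ℓ, l1, l2, l3, fun r hr => ⟨wl_pow hF₁ (hwl _ _ (l4 r hr).1), hto _ (l4 r hr).2⟩, l5⟩
  obtain ⟨u, u1, u2, u3⟩ := hHalf M W E F₁ G₁ S₁ T₁ C₁ θ γ₁ p₁ A hB1' hγ₁ hFp₁ hGp₁ hE₁ hFA₁ harcs₁
  obtain ⟨x, v, hfan⟩ := hFan M W E F₁ G₁ S₁ T₁ C₁ θ γ₁ p₁ hB1' hB2' hγ₁ hFp₁ hGp₁ hE₁
  obtain ⟨v', hfan', ρ₀, hρ₀, hfree⟩ := hSide M W E F₁ G₁ S₁ T₁ C₁ ε₁ C₁' l₁ θ γ₁ p₁ A a b x v u
    P₁ hB1' hγ₁ ha hb hab hc₁ hFp₁ hfan hA.1.1 hsat₁ hFA₁ u1 u2 u3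
  have hgap := hGap M W E F₁ G₁ S₁ T₁ C₁ ε₁ C₁' l₁ θ γ₁ p₁ A a b x v' P₁ hB1' hγ₁ ha hb hab hFp₁
    hfan' hA.1.1 hsat₁ hFA₁ hp₁A
  obtain ⟨H, hcut⟩ := hCutq M W E F₁ G₁ S₁ T₁ C₁ ε₁ C₁' l₁ θ γ₁ p₁ A a b x v' ρ₀ P₁ hB1' hγ₁ ha hb
    hab hfan' hA.1.1 hsat₁ hFA₁ hGA₁ hρ₀ hfree hgap
  exact hFinr M F₁.symm G₁.symm ε₁ C₁' l₁ θ p₁ H A P₁.symm_both
    (hCommr M F₁.symm G₁.symm ε₁ C₁' l₁ θ p₁ H a b P₁.symm_both ha hb hab hcut.plane) hcut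

/-- **The wall lemma at every wall.** -/
theorem specWallp (hWall : SpecWall.{u, v}) (hWallq : SpecWallq.{u, v}) : SpecWallp.{u, v} := by
  intro M W _ _ _ _ _ E f g ε C l θ P hθ hgood A hA
  by_cases hirr : Irrational θ
  · exact hWall M W E f g ε C l θ P hirr hθ hgood A hA
  · rw [Irrational, not_not] at hirr
    obtain ⟨q, rfl⟩ := hirr
    have hq : 0 < q := by exact_mod_cast hθ
    have hnum : 0 < q.num := Rat.num_pos.2 hq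
    refine hWallq M W E f g ε C l (q : ℝ) q.num.toNat q.den P (by omega) q.den_pos ?_ hgood A hA
    have h1 : ((q.num.toNat : ℕ) : ℝ) = ((q.num : ℤ) : ℝ) := by
      have h2 : ((q.num.toNat : ℕ) : ℤ) = q.num := Int.toNat_of_nonneg hnum.le
      exact_mod_cast h2
    rw [h1]
    exact_mod_cast Rat.mul_den_eq_num q

end Pool.Agent.Lib.MP610fe3.HR
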