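import Pool.Agent.Lib.MP_610fe3_an.HR.Main
import Pool.Agent.Lib.MP_610fe3_an.HR.WALLQ
import Pool.Agent.Lib.MP_610fe3_an.HR.FIX
import Pool.Agent.Lib.MP_610fe3_an.HR.REP
import Pool.Agent.Lib.MP_610fe3_an.HR.FIXX
import Pool.Agent.Lib.MP_610fe3_an.HR.PIG
import Pool.Agent.Lib.MP_610fe3_an.HR.BDRA
import Pool.Agent.Lib.MP_610fe3_an.HR.BDRB
import Pool.Agent.Lib.MP_610fe3_an.HR.FAN
import Pool.Agent.Lib.MP_610fe3_an.HR.HALF
import Pool.Agent.Lib.MP_610fe3_an.HR.SIDE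
import Pool.Agent.Lib.MP_610fe3_an.HR.GAP
import Pool.Agent.Lib.MP_610fe3_an.HR.CUTQ
import Pool.Agent.Lib.MP_610fe3_an.HR.COMMR
import Pool.Agent.Lib.MP_610fe3_an.HR.FINR
import Pool.Agent.Lib.MP_610fe3_an.HR.ARITH2
import Pool.Agent.Lib.MP_610fe3_an.HR.CHN2
import Pool.Agent.Lib.MP_610fe3_an.HR.MFD2

/-!
# Higher rank actions, all walls: assembly of the modules
-/

set_option autoImplicit false

open Set Filter Function Bundle
open scoped Topology Manifold ContDiff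

namespace Pool.Agent.Lib.MP610fe3.HR

open CH

universe u v w

theorem specPig' : SpecPig.{u, v} := specPig specDbl specFix

/-- The wall lemma for rational ratios. -/
theorem wallq : SpecWallq.{u, v} :=
  specWallq specDbl specMin' (specPerx specDbl specProd specMin') specPair specGam' specFix
    specPow specFixx (specBdra (specRep specDbl specCoc) specPig') (specBdrb specDbl specFix)
    (specFan specGam' specVec) specHalf (specSide specFix) (specGap specPig')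
    (specCutq specDbl specFix) (specCommr specFix) specFinr

/-- The wall lemma for the ratio `-1`. -/
theorem wall1 : SpecWall1.{u, v} := by
  intro M W _ _ _ _ _ E f g ε C l P hG A hA
  exact wallq M W E f g ε C l 1 1 1 P one_pos one_pos (by norm_num) hG A hA

theorem chain2 : SpecChain2.{u, v, w} := specChain2 specArith2 eig wall wall1 specPair

variable {V : Type v} [NormedAddCommGroup V] [NormedSpace ℝ V] [FiniteDimensional ℝ V]
  {M : Type u} [TopologicalSpace M] [CompactSpace M] [T2Space M] [ConnectedSpace M]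
  [ChartedSpace V M] [IsManifold 𝓘(ℝ, V) ∞ M]
  [RiemannianBundle (fun x : M => TangentSpace 𝓘(ℝ, V) x)]
  [IsContinuousRiemannianBundle V (fun x : M => TangentSpace 𝓘(ℝ, V) x)]

/-- **The theorem.** -/
theorem main2 {k : ℕ} (A : (Fin k → ℤ) → M ≃ₘ^1⟮𝓘(ℝ, V), 𝓘(ℝ, V)⟯ M)
    (hadd : ∀ n n' x, A (n + n') x = A n (A n' x)) {J : Type w} [Finite J] (χ : J → Fin k → ℝ)
    (F : J → ∀ x : M, Submodule ℝ (TangentSpace 𝓘(ℝ, V) x))
    (hA : ∀ n : Fin k → ℤ, (∀ j, ∑ i, χ j i * (n i : ℝ) ≠ 0) → Gen.IsAnosovSplitting (A n)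
      (fun x => ⨆ (j) (_ : ∑ i, χ j i * (n i : ℝ) < 0), F j x)
      (fun x => ⨆ (j) (_ : 0 < ∑ i, χ j i * (n i : ℝ)), F j x))
    (hpair : ∀ i j, ∀ t : ℝ, 0 < t → χ i = -(t • χ j) →
      (∀ n, ContMDiff 𝓘(ℝ, V) 𝓘(ℝ, V) 2 (A n)) ∧
      ∀ x, Module.finrank ℝ (⨆ (l) (_ : ∃ c : ℝ, 0 < c ∧ χ l = c • χ i), F l x :
        Submodule ℝ (TangentSpace 𝓘(ℝ, V) x)) = 1)
    (n : Fin k → ℤ) (hn : ∀ j, ∑ i, χ j i * (n i : ℝ) ≠ 0) : TopTransitive (A n) :=
  main_hr2 chain2 specAct A hadd χ F hA hpair n hn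

end Pool.Agent.Lib.MP610fe3.HR
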