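import Pool.Agent.Lib.MP_610fe3_an.HR.Spec2
import Pool.Agent.Lib.MP_610fe3_an.HR.TRANS
import Pool.Agent.Lib.MP_610fe3_an.HR.PLANE

/-!
# SIDE: the leaves `X` near a leaf with an empty half, (R6)
-/

set_option autoImplicit false

open Set Filter Function
open scoped Topology

namespace Pool.Agent.Lib.MP610fe3.HR

open Cf CH

universe u v

namespace SIDEAux

section Top

variable {M : Type*} [MetricSpace M] {f g : M ≃ₜ M} {θ : ℝ} {p : M} {H : ℝ → ℝ → M}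

/-- The plane with the heights reversed. -/
theorem plane_neg (h : Plane f g θ p H) : Plane f g θ p (fun τ r => H τ (-r)) where
  cont := h.cont.comp (by fun_prop : Continuous fun q : ℝ × ℝ => (q.1, -q.2))
  eqf := fun τ r => h.eqf τ (-r)
  eqg := fun τ r => h.eqg τ (-r)
  base := fun τ => by simpa using h.base τ
  lim := by simpa using h.lim
  leaf := fun τ r => by simpa using h.leaf τ (-r)
  surj := fun τ y hy => by
    obtain ⟨r, hr⟩ := h.surj τ y (by simpa using hy)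
    exact ⟨-r, by simpa using hr⟩
  inj := fun τ r r' hr => neg_injective (h.inj τ _ _ hr)
  small := fun ε r₀ hε => by
    obtain ⟨T, hT⟩ := h.small ε r₀ hε
    exact ⟨T, fun τ hτ r hr => by simpa using hT τ hτ (-r) (by simpa using hr)⟩
  proper := by
    obtain ⟨ε, hε, hp⟩ := h.proper
    refine ⟨ε, hε, fun τ₁ τ₂ => ?_⟩
    obtain ⟨r₀, hr⟩ := hp τ₁ τ₂
    exact ⟨r₀, fun τ hτ r hr' => by simpa using hr τ hτ (-r) (by simpa using hr')⟩

/-- `f^a g^b` fixes all points of the plane of `f.symm`, `g.symm`. -/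
theorem cc_plane {a b : ℕ} (h : Plane f.symm g.symm θ p H) (hθ : θ * b = a) (τ r : ℝ) :
    cc f g a b (H τ r) = H τ r := by
  have h1 : ∀ n : ℕ, ∀ τ : ℝ, f^[n] (H τ r) = H (τ - n) r := by
    intro n
    induction n with
    | zero => intro τ; simp
    | succ n ih =>
      intro τ
      have h2 : f (H τ r) = H (τ - 1) r := by
        have h3 := h.eqf (τ - 1) r
        rw [sub_add_cancel] at h3
        rw [← h3, f.apply_symm_apply]
      rw [iterate_succ_apply, h2, ih]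
      congr 1
      push_cast
      ring
  have h2 : ∀ n : ℕ, ∀ τ : ℝ, g^[n] (H τ r) = H (τ + n * θ) r := by
    intro n
    induction n with
    | zero => intro τ; simp
    | succ n ih =>
      intro τ
      have h2 : g (H τ r) = H (τ + θ) r := by
        have h3 := h.eqg (τ + θ) r
        rw [add_sub_cancel_right] at h3
        rw [← h3, g.apply_symm_apply]
      rw [iterate_succ_apply, h2, ih]
      congr 1
      push_cast
      ring
  unfold cc
  rw [h2, h1]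
  congr 1
  rw [← hθ]
  ring

theorem wl_mono {a b : ℝ} (hab : a ≤ b) {x z : M} (h : z ∈ Wl f a x) : z ∈ Wl f b x :=
  fun k => (h k).trans hab

theorem wl_symm {a : ℝ} {x z : M} (h : z ∈ Wl f a x) : x ∈ Wl f a z := fun k => by
  rw [dist_comm]
  exact h k

theorem fa_symm {x z : M} (h : FwdAsymp f x z) : FwdAsymp f z x := by
  refine (show Tendsto (fun k : ℕ => dist (f^[k] x) (f^[k] z)) atTop (𝓝 0) from h).congr
    fun k => ?_
  rw [dist_comm]

theorem dbl_self (x : M) : Dbl f g x x := fun ε hε => ⟨0, fun n m _ => by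
  rw [dist_self]
  exact hε.le⟩

end Top

section Dir

variable {M W : Type*} [MetricSpace M] [NormedAddCommGroup W] [InnerProductSpace ℝ W]

/-- The directions of the vectors `v τ` of a line bundle converge. -/
theorem dir_lim {P : M → W →L[ℝ] W} (hP : Continuous P) {p : M} {y : ℝ → M} {v : ℝ → W} {u : W}
    (hy : Tendsto y atTop (𝓝 p)) (hv : Continuous v) (hv0 : ∀ τ, v τ ≠ 0)
    (hPv : ∀ τ, P (y τ) (v τ) = v τ) (hr : Module.finrank ℝ (P p).range = 1) (hu : P p u = u)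
    (hu0 : u ≠ 0) :
    Tendsto (fun τ => ‖v τ‖⁻¹ • v τ) atTop (𝓝 (‖u‖⁻¹ • u)) ∨
      Tendsto (fun τ => ‖-v τ‖⁻¹ • (-v τ)) atTop (𝓝 (‖u‖⁻¹ • u)) := by
  obtain ⟨w, hw⟩ : ∃ w : ℝ → W, w = fun τ => ‖v τ‖⁻¹ • v τ := ⟨_, rfl⟩
  obtain ⟨e, he⟩ : ∃ e : W, e = ‖u‖⁻¹ • u := ⟨_, rfl⟩
  have he1 : ‖e‖ = 1 := by
    rw [he, norm_smul, norm_inv, norm_norm, inv_mul_cancel₀ (norm_ne_zero_iff.2 hu0)]
  have hw1 : ∀ τ, ‖w τ‖ = 1 := fun τ => by
    rw [hw]
    show ‖‖v τ‖⁻¹ • v τ‖ = 1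
    rw [norm_smul, norm_inv, norm_norm, inv_mul_cancel₀ (norm_ne_zero_iff.2 (hv0 τ))]
  have hwc : Continuous w := by
    rw [hw]
    exact (hv.norm.inv₀ fun τ => norm_ne_zero_iff.2 (hv0 τ)).smul hv
  have hPw : ∀ τ, P (y τ) (w τ) = w τ := fun τ => by
    rw [hw]
    show P (y τ) (‖v τ‖⁻¹ • v τ) = ‖v τ‖⁻¹ • v τ
    rw [map_smul, hPv]
  obtain ⟨r, hrd⟩ : ∃ r : ℝ → ℝ, r = fun τ => inner ℝ e (P p (w τ)) := ⟨_, rfl⟩
  have hrc : Continuous r := by
    rw [hrd]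
    exact continuous_const.inner ((P p).continuous.comp hwc)
  have hPr : ∀ τ, P p (w τ) = r τ • e := fun τ => by
    have h := (finrank_eq_one_iff_of_nonzero' (⟨u, u, hu⟩ : (P p).range)
      (fun h => hu0 (congrArg Subtype.val h))).1 hr ⟨P p (w τ), w τ, rfl⟩
    obtain ⟨c, hc⟩ := h
    have hc' : c • u = P p (w τ) := congrArg Subtype.val hc
    have h1 : P p (w τ) = (c * ‖u‖) • e := by
      rw [← hc', he, smul_smul, mul_assoc, mul_inv_cancel₀ (norm_ne_zero_iff.2 hu0), mul_one]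
    have h2 : r τ = c * ‖u‖ := by
      rw [hrd]
      show inner ℝ e (P p (w τ)) = _
      rw [h1, inner_smul_right, real_inner_self_eq_norm_sq, he1, one_pow, mul_one]
    rw [h2, ← h1]
  have hdiff : Tendsto (fun τ => w τ - P p (w τ)) atTop (𝓝 0) := by
    have h1 : Tendsto (fun τ => ‖P (y τ) - P p‖) atTop (𝓝 0) := by
      have h2 := ((hP.tendsto p).comp hy).sub_const (P p)
      rw [sub_self] at h2
      have h3 := h2.norm
      rwa [norm_zero] at h3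
    refine squeeze_zero_norm (fun τ => ?_) h1
    have h4 : w τ - P p (w τ) = (P (y τ) - P p) (w τ) := by
      rw [sub_apply, hPw]
    rw [h4]
    calc ‖(P (y τ) - P p) (w τ)‖ ≤ ‖P (y τ) - P p‖ * ‖w τ‖ := ContinuousLinearMap.le_opNorm _ _
      _ = ‖P (y τ) - P p‖ := by rw [hw1, mul_one]
  have habs : Tendsto (fun τ => |r τ|) atTop (𝓝 1) := by
    have h1 : ∀ τ, |r τ| = ‖P p (w τ)‖ := fun τ => by
      rw [hPr, norm_smul, he1, mul_one, Real.norm_eq_abs]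
    have h2 : Tendsto (fun τ => ‖P p (w τ)‖ - 1) atTop (𝓝 0) := by
      refine squeeze_zero_norm (fun τ => ?_) (tendsto_zero_iff_norm_tendsto_zero.1 hdiff)
      have h3 := abs_norm_sub_norm_le (P p (w τ)) (w τ)
      rw [hw1, norm_sub_rev] at h3
      rw [Real.norm_eq_abs]
      exact h3
    have h3 := h2.add_const 1
    simp only [sub_add_cancel, zero_add] at h3
    simpa only [h1] using h3
  obtain ⟨T, hT⟩ := eventually_atTop.1 (habs.eventually (lt_mem_nhds (show (0 : ℝ) < 1 by norm_num)))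
  have hne : ∀ τ, T ≤ τ → r τ ≠ 0 := fun τ hτ => abs_pos.1 (hT τ hτ)
  rcases lt_or_gt_of_ne (hne T le_rfl) with h0 | h0
  · right
    have hneg : ∀ τ, T ≤ τ → r τ < 0 := by
      intro τ hτ
      by_contra hcon
      obtain ⟨c, hc, hc0⟩ := intermediate_value_Icc hτ hrc.continuousOn
        (show (0 : ℝ) ∈ Icc (r T) (r τ) from ⟨h0.le, not_lt.1 hcon⟩)
      exact hne c hc.1 hc0
    have h1 : Tendsto (fun τ => -r τ) atTop (𝓝 1) := by
      refine habs.congr' ?_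
      filter_upwards [eventually_ge_atTop T] with τ hτ
      exact abs_of_neg (hneg τ hτ)
    have h2 := (h1.smul_const e).sub hdiff
    rw [one_smul, sub_zero] at h2
    rw [← he]
    refine h2.congr fun τ => ?_
    have h3 : w τ = ‖v τ‖⁻¹ • v τ := by rw [hw]
    rw [hPr, norm_neg, smul_neg, neg_smul, ← h3]
    abel
  · left
    have hpos : ∀ τ, T ≤ τ → 0 < r τ := by
      intro τ hτ
      by_contra hcon
      obtain ⟨c, hc, hc0⟩ := intermediate_value_Icc' hτ hrc.continuousOn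
        (show (0 : ℝ) ∈ Icc (r τ) (r T) from ⟨not_lt.1 hcon, h0.le⟩)
      exact hne c hc.1 hc0
    have h1 : Tendsto (fun τ => r τ) atTop (𝓝 1) := by
      refine habs.congr' ?_
      filter_upwards [eventually_ge_atTop T] with τ hτ
      exact abs_of_pos (hpos τ hτ)
    have h2 := (h1.smul_const e).add hdiff
    rw [one_smul, add_zero] at h2
    rw [← he]
    refine h2.congr fun τ => ?_
    have h3 : w τ = ‖v τ‖⁻¹ • v τ := by rw [hw]
    rw [hPr, ← h3]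
    abel

end Dir

variable {M : Type u} {W : Type v} [MetricSpace M] [CompactSpace M] [NormedAddCommGroup W]
    [InnerProductSpace ℝ W] [FiniteDimensional ℝ W] {E : Emb M W} {f g : M ≃ₜ M}
    {s : Split E f} {t : Split E g} {C₀ ε C l θ : ℝ} {γ : M → W → M} {p : M} {A : Set M}
    {a b : ℕ} {y : ℝ → M} {v : ℝ → W} {u : W}

omit [CompactSpace M] [FiniteDimensional ℝ W] in
theorem fan_neg (F : Fan s t θ p γ y v) : Fan s t θ p γ y (fun τ => -v τ) where
  cont := F.cont.neg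
  range := fun τ => by rw [map_neg, F.range]
  ne := fun τ => neg_ne_zero.2 (F.ne τ)
  y_ne := F.y_ne
  plane := by
    have h := plane_neg F.plane
    have h1 : (fun (τ r : ℝ) => γ (y τ) (r • -v τ)) = fun τ r => γ (y τ) (-r • v τ) := by
      funext τ r
      rw [smul_neg, neg_smul]
    rw [h1]
    exact h

omit [CompactSpace M] [FiniteDimensional ℝ W] in
theorem fan_y (G : Gam s t.swap γ) (F : Fan s t θ p γ y v) : Tendsto y atTop (𝓝 p) := by
  have h := F.plane.lim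
  refine h.congr fun τ => ?_
  rw [zero_smul, G.zero]

omit [FiniteDimensional ℝ W] in
theorem side_aux (hF : SpecFix.{u}) (hP : Pair f g ε C l) (hX : Bun s t.swap C₀)
    (G : Gam s t.swap γ) (ha : 0 < a) (hb : 0 < b) (hθ : θ * b = a)
    (hc : ∀ y', Dbl f g.symm p y' → cc f g a b y' = y') (hfp : f p = p) (F : Fan s t θ p γ y v)
    (hsat : Sat f.symm A) (hinv : f '' A = A) (hu : PP s t.swap p u = u) (hu0 : u ≠ 0)
    (hu1 : ∀ ω : ℝ, 0 < ω → γ p (ω • u) ∉ A)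
    (hlim : Tendsto (fun τ => ‖v τ‖⁻¹ • v τ) atTop (𝓝 (‖u‖⁻¹ • u))) :
    ∃ ρ₀ : ℝ, 0 < ρ₀ ∧ ∀ τ, ∀ ρ ∈ Ioo 0 ρ₀, γ (y τ) (ρ • v τ) ∉ A := by
  obtain ⟨hF1, -, ⟨η₁, hη₁, hF3⟩, -⟩ := hF M f g ε C l hP a b ha hb
  obtain ⟨εp, hεp, hprop⟩ := G.proper
  have hε := hP.one.br.ε_pos
  obtain ⟨η, hη0, hηp, hηF, hηε⟩ : ∃ η : ℝ, 0 < η ∧ η ≤ εp ∧ η ≤ η₁ ∧ η ≤ ε / 2 :=
    ⟨min (min εp η₁) (ε / 2), by positivity, (min_le_left _ _).trans (min_le_left _ _),
      (min_le_left _ _).trans (min_le_right _ _), min_le_right _ _⟩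
  obtain ⟨δ, hδ, hbr⟩ := hP.one.br.exist η hη0
  obtain ⟨κ, hκ, hsm⟩ := G.small (min η (δ / 2)) (by positivity)
  have hu0' : 0 < ‖u‖ := norm_pos_iff.2 hu0
  have hPu : ∀ c : ℝ, PP s t.swap p (c • u) = c • u := fun c => by rw [map_smul, hu]
  have hcu : Continuous fun ζ : ℝ => γ p (ζ • u) := by
    have h1 : (fun ζ : ℝ => γ p (ζ • u)) = fun ζ : ℝ =>
        (fun q : M × W => γ q.1 (PP s t.swap q.1 q.2)) (p, ζ • u) := by
      funext ζ
      simp only [hPu]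
    rw [h1]
    exact G.cont.comp (by fun_prop)
  obtain ⟨w, hw⟩ : ∃ w : ℝ → W, w = fun τ => ‖v τ‖⁻¹ • v τ := ⟨_, rfl⟩
  have hw' : ∀ τ, w τ = ‖v τ‖⁻¹ • v τ := fun τ => by rw [hw]
  have hv0 : ∀ τ, 0 < ‖v τ‖ := fun τ => norm_pos_iff.2 (F.ne τ)
  have hw1 : ∀ τ, ‖w τ‖ = 1 := fun τ => by
    rw [hw', norm_smul, norm_inv, norm_norm, inv_mul_cancel₀ (hv0 τ).ne']
  have hPw : ∀ (c : ℝ) τ, PP s t.swap (y τ) (c • w τ) = c • w τ := fun c τ => by
    rw [hw', map_smul, map_smul, F.range]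
  have hy0 : ∀ τ, γ (y τ) ((0 : ℝ) • v τ) = y τ := fun τ => by rw [zero_smul, G.zero]
  have hyn : ∀ (n : ℕ) (τ : ℝ), f.symm^[n] (y τ) = y (τ + n) := fun n τ => by
    have h1 := TRANSAux.iter_H F.plane n τ 0
    simpa only [hy0] using h1
  have hcw : ∀ τ (ρ : ℝ), cc f g a b (γ (y τ) (ρ • w τ)) = γ (y τ) (ρ • w τ) := fun τ ρ => by
    have h1 := cc_plane F.plane hθ τ (ρ * ‖v τ‖⁻¹)
    rw [hw', smul_smul]
    exact h1
  have hcp : cc f g a b p = p := hc p (dbl_self p)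
  have hfsp : ∀ k : ℕ, f.symm^[k] p = p := fun k => by
    have h1 : f.symm p = p := by
      conv_lhs => rw [← hfp]
      exact f.symm_apply_apply p
    exact iterate_fixed h1 k
  -- the relation
  obtain ⟨Rel, hRel⟩ : ∃ Rel : ℝ → ℝ → ℝ → Prop, Rel = fun τ ρ ζ =>
    γ p (ζ • u) ∈ Wl f η p ∧ γ p (ζ • u) ∈ Wl f.symm η (γ (y τ) (ρ • w τ)) := ⟨_, rfl⟩
  have hRel' : ∀ τ ρ ζ, Rel τ ρ ζ ↔
      γ p (ζ • u) ∈ Wl f η p ∧ γ p (ζ • u) ∈ Wl f.symm η (γ (y τ) (ρ • w τ)) := fun τ ρ ζ => by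
    rw [hRel]
  have hex : ∀ τ ρ, dist p (γ (y τ) (ρ • w τ)) < δ → ∃ ζ, Rel τ ρ ζ := by
    intro τ ρ hd
    obtain ⟨q, hq1, hq2⟩ := hbr _ _ hd
    have h1 : cc f g a b q = q :=
      hF3 p _ q hcp (hcw τ ρ) (wl_mono hηF hq1) (wl_mono hηF hq2)
    have h2 : FwdAsymp f q p :=
      TRANSAux.asymp_of_wl hP.one.decs (wl_mono (hηε.trans (by linarith)) hq1)
    have h3 : Dbl f g.symm p q := hF1 p q hcp h1 (fa_symm h2)
    obtain ⟨e, he, heq⟩ := G.surj p q h3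
    obtain ⟨ζ, hζ⟩ := PLANEAux.exists_smul (PP s t.swap p) (hX.rank p) hu hu0 he
    refine ⟨ζ, (hRel' _ _ _).2 ?_⟩
    rw [hζ, heq]
    exact ⟨hq1, hq2⟩
  have hbd : ∀ τ ρ ζ, Rel τ ρ ζ → ζ ∈ Icc (-‖u‖⁻¹) ‖u‖⁻¹ := by
    intro τ ρ ζ h
    have h1 := hprop p (ζ • u) (hPu ζ) (wl_mono hηp ((hRel' _ _ _).1 h).1)
    rw [norm_smul, Real.norm_eq_abs] at h1
    refine abs_le.1 ?_
    rw [← one_div, le_div_iff₀ hu0']
    exact h1
  have huniq : ∀ τ ρ ζ ζ', Rel τ ρ ζ → Rel τ ρ ζ' → ζ = ζ' := by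
    intro τ ρ ζ ζ' h h'
    have hle : η ≤ ε := hηε.trans (by linarith)
    have h1 := hP.one.br.unique _ _ _ _ (wl_mono hle ((hRel' _ _ _).1 h).1)
      (wl_mono hle ((hRel' _ _ _).1 h).2) (wl_mono hle ((hRel' _ _ _).1 h').1)
      (wl_mono hle ((hRel' _ _ _).1 h').2)
    exact smul_left_injective ℝ hu0 (G.inj p _ _ (hPu _) (hPu _) h1)
  -- the end of the arcs
  have hpos : ∃ T, ∀ τ, T ≤ τ → ∀ ζ, Rel τ κ ζ → 0 < ζ := by
    by_contra hcon
    push Not at hcon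
    choose τs hτs ζs hζs hζs0 using fun n : ℕ => hcon n
    have hτ : Tendsto τs atTop atTop :=
      tendsto_atTop_mono hτs tendsto_natCast_atTop_atTop
    obtain ⟨ζ, hζ, φ, hφ, hφl⟩ := (isCompact_Icc (a := -‖u‖⁻¹) (b := (0 : ℝ))).tendsto_subseq
      (fun n => (⟨(hbd _ _ _ (hζs n)).1, hζs0 n⟩ : ζs n ∈ Icc (-‖u‖⁻¹) (0 : ℝ)))
    have hτφ : Tendsto (τs ∘ φ) atTop atTop := hτ.comp hφ.tendsto_atTop
    have hPq : PP s t.swap p (κ • ‖u‖⁻¹ • u) = κ • ‖u‖⁻¹ • u := by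
      rw [map_smul, map_smul, hu]
    have hql : Tendsto (fun n => γ (y (τs (φ n))) (κ • w (τs (φ n)))) atTop
        (𝓝 (γ p (κ • ‖u‖⁻¹ • u))) := by
      have h1 : Tendsto (fun n => (y (τs (φ n)), κ • w (τs (φ n)))) atTop
          (𝓝 (p, κ • ‖u‖⁻¹ • u)) := by
        refine ((fan_y G F).comp hτφ).prodMk_nhds ?_
        rw [hw]
        exact (hlim.comp hτφ).const_smul κ
      have h2 := (G.cont.tendsto (p, κ • ‖u‖⁻¹ • u)).comp h1
      simp only [hPq] at h2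
      refine h2.congr fun n => ?_
      simp only [comp_apply, hPw]
    have hpl : Tendsto (fun n => γ p (ζs (φ n) • u)) atTop (𝓝 (γ p (ζ • u))) :=
      (hcu.tendsto ζ).comp hφl
    have hm1 : γ p (ζ • u) ∈ Wl f η p := by
      intro k
      have h1 : Tendsto (fun n => dist (f^[k] (γ p (ζs (φ n) • u))) (f^[k] p)) atTop
          (𝓝 (dist (f^[k] (γ p (ζ • u))) (f^[k] p))) :=
        (((f.continuous.iterate k).tendsto _).comp hpl).dist tendsto_const_nhds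
      exact le_of_tendsto' h1 fun n => ((hRel' _ _ _).1 (hζs (φ n))).1 k
    have hm2 : γ p (ζ • u) ∈ Wl f.symm η (γ p (κ • ‖u‖⁻¹ • u)) := by
      intro k
      have h1 : Tendsto (fun n => dist (f.symm^[k] (γ p (ζs (φ n) • u)))
          (f.symm^[k] (γ (y (τs (φ n))) (κ • w (τs (φ n)))))) atTop
          (𝓝 (dist (f.symm^[k] (γ p (ζ • u))) (f.symm^[k] (γ p (κ • ‖u‖⁻¹ • u))))) :=
        (((f.symm.continuous.iterate k).tendsto _).comp hpl).dist
          (((f.symm.continuous.iterate k).tendsto _).comp hql)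
      exact le_of_tendsto' h1 fun n => ((hRel' _ _ _).1 (hζs (φ n))).2 k
    have hm3 : γ p (κ • ‖u‖⁻¹ • u) ∈ Wl f η p := by
      refine wl_mono (min_le_left _ _) (hsm p _ hPq ?_)
      rw [norm_smul, norm_smul, norm_inv, norm_norm, inv_mul_cancel₀ hu0'.ne', mul_one,
        Real.norm_eq_abs, abs_of_pos hκ]
    have hm4 : γ p (κ • ‖u‖⁻¹ • u) ∈ Wl f.symm η (γ p (κ • ‖u‖⁻¹ • u)) := fun k => by
      rw [dist_self]
      exact hη0.le
    have hle : η ≤ ε := hηε.trans (by linarith)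
    have h1 := hP.one.br.unique _ _ _ _ (wl_mono hle hm1) (wl_mono hle hm2) (wl_mono hle hm3)
      (wl_mono hle hm4)
    have h2 := G.inj p _ _ (hPu _) hPq h1
    rw [smul_smul] at h2
    have h3 := smul_left_injective ℝ hu0 h2
    have h4 : 0 < κ * ‖u‖⁻¹ := by positivity
    have h5 : ζ = κ * ‖u‖⁻¹ := h3
    have h6 := hζ.2
    linarith
  obtain ⟨T₁, hT₁⟩ := hpos
  have hyl := fan_y G F
  obtain ⟨T₂, hT₂⟩ := eventually_atTop.1
    (Metric.tendsto_nhds.1 hyl (min η (δ / 4)) (by positivity))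
  -- far away the arcs of length `κ` do not meet `A`
  have hfar : ∀ τ, max T₁ T₂ ≤ τ → ∀ ρ ∈ Ioc 0 κ, γ (y τ) (ρ • w τ) ∉ A := by
    intro τ hτ
    have hτ1 : T₁ ≤ τ := (le_max_left _ _).trans hτ
    have hτ2 : T₂ ≤ τ := (le_max_right _ _).trans hτ
    have hdist : ∀ ρ ∈ Icc 0 κ, dist p (γ (y τ) (ρ • w τ)) < δ := by
      intro ρ hρ
      have h1 : dist (γ (y τ) (ρ • w τ)) (y τ) ≤ δ / 2 := by
        have h2 := hsm (y τ) (ρ • w τ) (hPw ρ τ) (by
          rw [norm_smul, hw1, mul_one, Real.norm_eq_abs, abs_of_nonneg hρ.1]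
          exact hρ.2) 0
        exact (show dist (γ (y τ) (ρ • w τ)) (y τ) ≤ _ from h2).trans (min_le_right _ _)
      have h3 : dist (y τ) p < δ / 4 := (hT₂ τ hτ2).trans_le (min_le_right _ _)
      have h4 := dist_triangle p (y τ) (γ (y τ) (ρ • w τ))
      have h5 := dist_comm p (y τ)
      have h6 := dist_comm (y τ) (γ (y τ) (ρ • w τ))
      linarith
    choose! ζ hζ using fun ρ (hρ : ρ ∈ Icc 0 κ) => hex τ ρ (hdist ρ hρ)
    have hcq : Continuous fun ρ : ℝ => γ (y τ) (ρ • w τ) := by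
      have h1 : (fun ρ : ℝ => γ (y τ) (ρ • w τ)) = fun ρ : ℝ =>
          (fun q : M × W => γ q.1 (PP s t.swap q.1 q.2)) (y τ, ρ • w τ) := by
        funext ρ
        simp only [hPw]
      rw [h1]
      exact G.cont.comp (by fun_prop)
    have hclosed : IsClosed {q : ℝ × ℝ | Rel τ q.1 q.2} := by
      simp only [hRel']
      have h1 : {q : ℝ × ℝ | γ p (q.2 • u) ∈ Wl f η p ∧
          γ p (q.2 • u) ∈ Wl f.symm η (γ (y τ) (q.1 • w τ))} =
          (⋂ k : ℕ, {q : ℝ × ℝ | dist (f^[k] (γ p (q.2 • u))) (f^[k] p) ≤ η}) ∩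
          ⋂ k : ℕ, {q : ℝ × ℝ | dist (f.symm^[k] (γ p (q.2 • u)))
            (f.symm^[k] (γ (y τ) (q.1 • w τ))) ≤ η} := by
        ext q
        simp only [Wl, mem_inter_iff, mem_iInter]
        rfl
      rw [h1]
      refine IsClosed.inter (isClosed_iInter fun k => isClosed_le ?_ continuous_const)
        (isClosed_iInter fun k => isClosed_le ?_ continuous_const)
      · exact ((f.continuous.iterate k).comp (hcu.comp continuous_snd)).dist continuous_const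
      · exact ((f.symm.continuous.iterate k).comp (hcu.comp continuous_snd)).dist
          ((f.symm.continuous.iterate k).comp (hcq.comp continuous_fst))
    have hζc : ContinuousOn ζ (Icc 0 κ) :=
      TRANSAux.contOn_of_graph (isCompact_Icc (a := -‖u‖⁻¹) (b := ‖u‖⁻¹)) hclosed
        (fun ρ hρ => ⟨hbd _ _ _ (hζ ρ hρ), hζ ρ hρ⟩)
        (fun ρ hρ z _ hz => huniq _ _ _ _ hz (hζ ρ hρ))
    have hζne : ∀ ρ ∈ Ioc 0 κ, ζ ρ ≠ 0 := by
      intro ρ hρ h0
      have h1 := hζ ρ ⟨hρ.1.le, hρ.2⟩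
      rw [h0, hRel', zero_smul, G.zero] at h1
      have h2 : γ (y τ) (ρ • w τ) = y τ := by
        refine hP.one.expConst _ _ (fun k => ?_) fun k => ?_
        · have h2 := hsm (y τ) (ρ • w τ) (hPw ρ τ) (by
            rw [norm_smul, hw1, mul_one, Real.norm_eq_abs, abs_of_nonneg hρ.1.le]
            exact hρ.2) k
          have h3 := min_le_left η (δ / 2)
          linarith
        · have h3 := h1.2 k
          have h4 : dist (f.symm^[k] p) (f.symm^[k] (y τ)) ≤ η := by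
            rw [hfsp, hyn, dist_comm]
            have h5 := hT₂ (τ + k) (by
              have : (0 : ℝ) ≤ k := k.cast_nonneg
              linarith)
            exact h5.le.trans (min_le_left _ _)
          have h5 := dist_triangle_left (f.symm^[k] (γ (y τ) (ρ • w τ))) (f.symm^[k] (y τ))
            (f.symm^[k] p)
          linarith
      have h3 : γ (y τ) (ρ • w τ) = γ (y τ) ((0 : ℝ) • w τ) := by
        rw [h2, zero_smul, G.zero]
      have h4 := G.inj _ _ _ (hPw ρ τ) (hPw 0 τ) h3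
      have h5 : w τ ≠ 0 := norm_ne_zero_iff.1 (by rw [hw1]; exact one_ne_zero)
      exact hρ.1.ne' (smul_left_injective ℝ h5 h4)
    have hζκ : 0 < ζ κ := hT₁ τ hτ1 _ (hζ κ ⟨hκ.le, le_rfl⟩)
    intro ρ hρ hmem
    have hζρ : 0 < ζ ρ := by
      by_contra hcon
      obtain ⟨c, hc', hc0⟩ := intermediate_value_Icc hρ.2
        (hζc.mono (Icc_subset_Icc_left hρ.1.le))
        (show (0 : ℝ) ∈ Icc (ζ ρ) (ζ κ) from ⟨not_lt.1 hcon, hζκ.le⟩)
      exact hζne c ⟨hρ.1.trans_le hc'.1, hc'.2⟩ hc0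
    refine hu1 _ hζρ (hsat _ hmem _ ?_)
    exact fa_symm (f := f.symm) (TRANSAux.asymp_of_wl hP.one.decu
      (wl_mono (hηε.trans (by linarith)) ((hRel' _ _ _).1 (hζ ρ ⟨hρ.1.le, hρ.2⟩)).2))
  -- all `τ`
  obtain ⟨T, hT⟩ : ∃ T, T = max T₁ T₂ := ⟨_, rfl⟩
  rw [← hT] at hfar
  obtain ⟨B, hB⟩ := (isCompact_Icc (a := T) (b := T + 1)).exists_bound_of_continuousOn
    F.cont.continuousOn
  have hper : ∀ (n : ℕ) (τ r : ℝ), γ (y (τ + n)) (r • v (τ + n)) ∈ A ↔
      γ (y τ) (r • v τ) ∈ A := by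
    intro n τ r
    have h1 : f.symm^[n] (γ (y τ) (r • v τ)) = γ (y (τ + n)) (r • v (τ + n)) :=
      TRANSAux.iter_H F.plane n τ r
    have h2 : ∀ z, f.symm z ∈ A ↔ z ∈ A := by
      intro z
      constructor
      · intro h
        rw [← hinv]
        exact ⟨_, h, f.apply_symm_apply z⟩
      · intro h
        rw [← hinv] at h
        obtain ⟨x, hx, rfl⟩ := h
        rwa [f.symm_apply_apply]
    have h3 : ∀ (n : ℕ) z, f.symm^[n] z ∈ A ↔ z ∈ A := by
      intro n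
      induction n with
      | zero => intro z; rfl
      | succ n ih =>
        intro z
        rw [iterate_succ_apply, ih, h2]
    rw [← h1, h3]
  have hB0 : 0 < |B| + 1 := by positivity
  refine ⟨κ / (|B| + 1), by positivity, fun τ ρ hρ hmem => ?_⟩
  -- a point `τ' ∈ [T, T + 1]`
  obtain ⟨τ', hτ', hmem'⟩ : ∃ τ' ∈ Icc T (T + 1), γ (y τ') (ρ • v τ') ∈ A := by
    rcases le_total τ T with h | h
    · have h1 : T - τ ≤ (⌈T - τ⌉₊ : ℝ) := Nat.le_ceil _
      have h2 : (⌈T - τ⌉₊ : ℝ) < T - τ + 1 := Nat.ceil_lt_add_one (by linarith)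
      exact ⟨τ + ⌈T - τ⌉₊, ⟨by linarith, by linarith⟩, (hper _ _ _).2 hmem⟩
    · have h1 : (⌊τ - T⌋₊ : ℝ) ≤ τ - T := Nat.floor_le (by linarith)
      have h2 : τ - T < (⌊τ - T⌋₊ : ℝ) + 1 := Nat.lt_floor_add_one _
      refine ⟨τ - ⌊τ - T⌋₊, ⟨by linarith, by linarith⟩, ?_⟩
      rw [← hper ⌊τ - T⌋₊, sub_add_cancel]
      exact hmem
  have hvb : ‖v τ'‖ ≤ |B| + 1 := by
    have h1 := hB τ' hτ'
    have h2 := le_abs_self B
    linarith
  have h1 : ρ • v τ' = (ρ * ‖v τ'‖) • w τ' := by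
    rw [hw', smul_smul, mul_assoc, mul_inv_cancel₀ (hv0 τ').ne', mul_one]
  rw [h1] at hmem'
  refine hfar τ' hτ'.1 _ ⟨mul_pos hρ.1 (hv0 τ'), ?_⟩ hmem'
  have h2 := hρ.2.le
  rw [le_div_iff₀ hB0] at h2
  calc ρ * ‖v τ'‖ ≤ ρ * (|B| + 1) := mul_le_mul_of_nonneg_left hvb hρ.1.le
    _ ≤ κ := h2

end SIDEAux

open SIDEAux

theorem specSide (hF : SpecFix.{u}) : SpecSide.{u, v} := by
  intro M W _ _ _ _ _ E f g s t C₀ ε C l θ γ p A a b y v u hP hX G ha hb hθ hc hfp F hA hsat hinv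
    hu hu0 hu1
  have hPc : Continuous (PP s t.swap) :=
    (s.continuous_S hX.hs).clm_comp (t.swap.continuous_S hX.ht)
  rcases dir_lim hPc (fan_y G F) F.cont F.ne F.range (hX.rank p) hu hu0 with h | h
  · exact ⟨v, F, side_aux hF hP hX G ha hb hθ hc hfp F hsat hinv hu hu0 hu1 h⟩
  · exact ⟨fun τ => -v τ, fan_neg F,
      side_aux hF hP hX G ha hb hθ hc hfp (fan_neg F) hsat hinv hu hu0 hu1 h⟩

end Pool.Agent.Lib.MP610fe3.HR

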