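import Pool.Agent.Lib.MP_610fe3_an.HR.Defs

/-!
# Higher rank actions with one dimensional symplectic pairs: statements of the modules

A module `XXX` proves `theorem specXxx : SpecXxx.{u, v}` in its own file `HR/XXX.lean`.
The proof is `/team-store/MP_610fe3_an_HR_PROOF_h30.md`; the numbers (3.1) etc. refer to it.
-/

set_option autoImplicit false

open Set Filter Function
open scoped Topology

namespace Pool.Agent.Lib.MP610fe3.HR

open Cf CH

universe u v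

/-! ### Topological modules -/

/-- DBL. Elementary properties of the double leaves. `f^[n] (g^[m] x) = g^[m] (f^[n] x)`; for the
invariance use that `c` is uniformly continuous; the last one: `Dbl` at the powers. -/
def SpecDbl : Prop :=
  ∀ (M : Type u) [MetricSpace M] [CompactSpace M] (f g : M ≃ₜ M), (∀ x, f (g x) = g (f x)) →
    (∀ x, Dbl f g x x) ∧ (∀ x y, Dbl f g x y → Dbl f g y x) ∧
    (∀ x y z, Dbl f g x y → Dbl f g y z → Dbl f g x z) ∧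
    (∀ x y, Dbl f g x y → Dbl g f x y) ∧
    (∀ x y, Dbl f g x y → FwdAsymp f x y) ∧ (∀ x y, Dbl f g x y → FwdAsymp g x y) ∧
    (∀ c : M ≃ₜ M, (∀ x, c (f x) = f (c x)) → (∀ x, c (g x) = g (c x)) → ∀ x y,
      Dbl f g (c x) (c y) ↔ Dbl f g x y) ∧
    (∀ (a b : ℕ → ℕ) (x y : M), Tendsto a atTop atTop → Dbl f g x y →
      Tendsto (fun m => dist (f^[a m] (g^[b m] x)) (f^[a m] (g^[b m] y))) atTop (𝓝 0)) ∧
    (∀ (F G : M ≃ₜ M) (k : ℕ), 0 < k → (∀ z, F z = f^[k] z) → (∀ z, G z = g^[k] z) → ∀ x y,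
      Dbl f g x y → Dbl F G x y)

/-- PROD. Product structure: (3.1), (3.2), (3.3) and its converse. -/
def SpecProd : Prop :=
  ∀ (M : Type u) [MetricSpace M] [CompactSpace M] (f g : M ≃ₜ M) (ε C l : ℝ), Pair f g ε C l →
    (∀ x y, FwdAsymp f x y → ∃ z, Dbl f g x z ∧ Dbl f g.symm z y) ∧
    (∀ x y, Dbl f g x y → Dbl f g.symm x y → x = y) ∧
    (∀ ε' : ℝ, 0 < ε' → ∃ δ : ℝ, 0 < δ ∧ ∀ x y, Dbl f g x y → y ∈ Wl f δ x → y ∈ Wl g ε' x) ∧
    (∃ δ : ℝ, 0 < δ ∧ ∀ x y, y ∈ Wl f δ x → y ∈ Wl g δ x →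
      Dbl f g x y ∧ ∀ n m : ℕ, dist (f^[n] (g^[m] y)) (f^[n] (g^[m] x)) ≤
        C ^ 2 * l ^ (n + m) * dist y x) ∧
    (∃ δ : ℝ, 0 < δ ∧ ∀ ε' ≤ δ, IsClosed {p : M × M | p.2 ∈ Lf f g ε' p.1})

/-- BAS. The basin of a closed set saturated by unstable sets and invariant under a power is open,
and all points of `Om f` in it are in the set. Proof: bracket with a point of `A` near `f^n x`
(`CH.bracket'`); for `q ∈ Om f ∩ B` take periodic points `q_j → q`, `q_j ∈ B`, and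
`mem_of_fwdAsymp_periodic`. -/
def SpecBas : Prop :=
  ∀ (M : Type u) [MetricSpace M] [CompactSpace M] (f : M ≃ₜ M) (ε C l : ℝ), Loc f ε C l →
    ∀ (A : Set M) (N : ℕ), IsClosed A → Sat f.symm A → 0 < N → f^[N] '' A = A →
      IsOpen {x | ∃ a ∈ A, FwdAsymp f x a} ∧ Om f ∩ {x | ∃ a ∈ A, FwdAsymp f x a} ⊆ A

/-- MIN. Periodic points are dense in a minimal closed set saturated by unstable sets. (6.1).
Proof: the closure of a saturated set is saturated (use the contraction of stable plaques), so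
`{w | FwdAsymp f.symm w q}` is dense in `A` for every `q ∈ A`. For `y ∈ A` there is `q ∈ Om f` with
`FwdAsymp f y q` (`exists_fwdAsymp`), `q ∈ A` by BAS; `Reach f y q` (`reach_of_fwdAsymp`),
`Reach f q w` for `w` in the unstable set of `q` (`reach_of_bwdAsymp`), so `Reach f q y`
(`reach_of_approx`) and `Reach f y y`, `y ∈ Om f` (`mem_closure_of_reach`); periodic points near `y`
are in `A` by BAS. The second part: `A ∩ c ⁻¹' A` is closed, nonempty, saturated. -/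
def SpecMin : Prop :=
  ∀ (M : Type u) [MetricSpace M] [CompactSpace M] (f : M ≃ₜ M) (ε C l : ℝ), Loc f ε C l →
    ∀ A : Set M, Minimal (· ∈ Sset f.symm) A →
      (∀ y ∈ A, ∀ r : ℝ, 0 < r → ∃ p ∈ A, p ∈ periodicPts f ∧ dist p y < r) ∧
      (∀ c : M ≃ₜ M, (∀ x, c (f x) = f (c x)) → ∀ p ∈ A, c p = p → c '' A = A)

/-- PERX. (6.2) -/
def SpecPerx : Prop :=
  ∀ (M : Type u) [MetricSpace M] [CompactSpace M] (f g : M ≃ₜ M) (ε C l : ℝ), Pair f g ε C l →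
    ∀ A : Set M, Minimal (· ∈ Sset f.symm) A →
      (∀ p ∈ A, p ∈ periodicPts f → ∀ y, Dbl f g.symm p y → y ∈ A) → Sat g.symm A

/-- EXIT. (6.3), (6.4), (6.5). `R` is the complement of `{x | ∃ a ∈ A, FwdAsymp f x a}` and
`H' τ r = H τ (r₁ * r)`. -/
def SpecExit : Prop :=
  ∀ (M : Type u) [MetricSpace M] [CompactSpace M] (f g : M ≃ₜ M) (ε C l θ : ℝ) (p : M)
    (H : ℝ → ℝ → M) (A : Set M), Pair f g ε C l → Irrational θ → 0 < θ → IsClosed A →
    Sat f.symm A → f '' A = A → g '' A = A → p ∈ A → Plane f g θ p H → H 0 0 ∉ A →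
    ∃ (H' : ℝ → ℝ → M) (R : Set M), Cut f g θ p H' R

/-- COMM. (6.6). Choose `η` such that points at distance at most `3 η` have a bracket of size
`ε / 8` and `8 η ≤ ε`. -/
def SpecComm : Prop :=
  ∀ (M : Type u) [MetricSpace M] [CompactSpace M] (f g : M ≃ₜ M) (ε C l θ : ℝ) (p : M)
    (H : ℝ → ℝ → M), Pair f g ε C l → Irrational θ → 0 < θ → Plane f g θ p H →
    ∃ η : ℝ, 0 < η ∧ ∀ (τ τ' : ℝ) (q : ℝ → M), ContinuousOn q (Icc 0 1) →
      (∀ r ∈ Icc (0 : ℝ) 1, q r ∈ Wl f η (H τ' r) ∧ q r ∈ Wl f.symm η (H τ 0)) →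
      q 0 = H τ 0 → ∀ r ∈ Icc (0 : ℝ) 1, Dbl f.symm g (H τ 0) (q r)

/-- TRANS. (6.7) and the Lebesgue number of (6.8). Uses COMM. -/
def SpecTrans : Prop :=
  ∀ (M : Type u) [MetricSpace M] [CompactSpace M] (f g : M ≃ₜ M) (ε C l θ : ℝ) (p : M)
    (H : ℝ → ℝ → M) (R : Set M), Pair f g ε C l → Irrational θ → 0 < θ → Cut f g θ p H R →
    ∀ η : ℝ, 0 < η → ∃ τ₀ δ : ℝ, 0 < δ ∧
      (∀ τ ∈ Icc τ₀ (τ₀ + 1), ∀ r ∈ Icc (0 : ℝ) 1, H τ r ∈ Wl f.symm η (H τ 0)) ∧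
      ∀ τ ∈ Icc τ₀ (τ₀ + 1), ∀ τ' ∈ Icc τ₀ (τ₀ + 1), |τ - τ'| ≤ δ → ∀ r' ∈ Icc (0 : ℝ) 1,
        ∃ r ∈ Icc (0 : ℝ) 1, H τ r ∈ Wl f η (H τ' r')

/-- FIN. (6.8): contradiction, by `TC.specChn` with `b n = H (τ₀ + 1) '' Icc 0 1`, `k = 1`,
`S = univ`. `Rates` comes from `Loc`. Uses TRANS. -/
def SpecFin : Prop :=
  ∀ (M : Type u) [MetricSpace M] [CompactSpace M] (f g : M ≃ₜ M) (ε C l θ : ℝ) (p : M)
    (H : ℝ → ℝ → M) (R : Set M), Pair f g ε C l → Irrational θ → 0 < θ → ¬ Cut f g θ p H R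

/-! ### Analytic modules -/

/-- PAIR. From `exists_dec`, `br`, `Split.shadowing`, at a common scale. -/
def SpecPair : Prop :=
  ∀ (M : Type u) (W : Type v) [MetricSpace M] [CompactSpace M] [NormedAddCommGroup W]
    [InnerProductSpace ℝ W] [FiniteDimensional ℝ W] (E : Emb M W) (f g : M ≃ₜ M)
    (s : Split E f) (t : Split E g), s.Hyperbolic → t.Hyperbolic → (∀ x, f (g x) = g (f x)) →
    ∃ ε C l : ℝ, Pair f g ε C l

/-- COC. The cocycle of `f` on the line bundle: `B x v w = ⟪P x v, P x w⟫`,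
`a x = ‖D x ∘ P x‖ / ‖P x‖`, `P = PP s t`. -/
def SpecCoc : Prop :=
  ∀ (M : Type u) (W : Type v) [MetricSpace M] [CompactSpace M] [NormedAddCommGroup W]
    [InnerProductSpace ℝ W] [FiniteDimensional ℝ W] (E : Emb M W) (f g : M ≃ₜ M)
    (s : Split E f) (t : Split E g) (C₀ : ℝ), Bun s t C₀ →
    ∃ k : Coc W f, IsCoc s t k

/-- GRW. Like `Cf/Grow.lean`; the cone estimate from `exists_cone_sq` for `s` and for `t` (with
(3.3)). -/
def SpecGrw : Prop :=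
  ∀ (M : Type u) (W : Type v) [MetricSpace M] [CompactSpace M] [NormedAddCommGroup W]
    [InnerProductSpace ℝ W] [FiniteDimensional ℝ W] (E : Emb M W) (f g : M ≃ₜ M)
    (s : Split E f) (t : Split E g) (C₀ : ℝ) (k : Coc W f), Bun s t C₀ → IsCoc s t k →
    ∃ ε C l : ℝ, Grw E g k ε C l

/-- FLT. Like `Cf/Flat.lean`, with `Cf/CocLim.lean`; the last clause: equivariance under `g`. -/
def SpecFlt : Prop :=
  ∀ (M : Type u) (W : Type v) [MetricSpace M] [CompactSpace M] [NormedAddCommGroup W]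
    [InnerProductSpace ℝ W] [FiniteDimensional ℝ W] (E : Emb M W) (f g : M ≃ₜ M)
    (s : Split E f) (t : Split E g) (C₀ : ℝ) (k : Coc W f) (ε C l : ℝ), Bun s t C₀ →
    IsCoc s t k → Grw E g k ε C l →
    ∃ (ε' C' : ℝ) (ψ : M → M → W) (Q : M → M → W →L[ℝ] W) (q : M → M → ℝ),
      Flt E g k ε' C' ψ Q q ∧ ∀ x, ∀ z ∈ Lf f g ε' x, g z ∈ Lf f g ε' (g x) →
        ψ (g x) (g z) = t.D x (ψ x z)

/-- SRJ. Like `Cf/Surj.lean`, with a bracket of `f` and then one of `g`. -/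
def SpecSrj : Prop :=
  ∀ (M : Type u) (W : Type v) [MetricSpace M] [CompactSpace M] [NormedAddCommGroup W]
    [InnerProductSpace ℝ W] [FiniteDimensional ℝ W] (E : Emb M W) (f g : M ≃ₜ M)
    (s : Split E f) (t : Split E g) (C₀ : ℝ) (k : Coc W f) (ε C l ε₂ C₂ : ℝ) (ψ : M → M → W)
    (Q : M → M → W →L[ℝ] W) (q : M → M → ℝ), Bun s t C₀ →
    IsCoc s t k → Grw E g k ε C l → Flt E g k ε₂ C₂ ψ Q q →
    ∀ ε' : ℝ, 0 < ε' → ∃ r : ℝ, 0 < r ∧ ∀ x w, PP s t x w = w → ‖w‖ ≤ r →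
      ∃ z ∈ Lf f g ε' x, ψ x z = w

/-- GAM. The global parametrization, from COC, GRW, FLT, SRJ, PROD. -/
def SpecGam : Prop :=
  ∀ (M : Type u) (W : Type v) [MetricSpace M] [CompactSpace M] [NormedAddCommGroup W]
    [InnerProductSpace ℝ W] [FiniteDimensional ℝ W] (E : Emb M W) (f g : M ≃ₜ M)
    (s : Split E f) (t : Split E g) (C₀ : ℝ), Bun s t C₀ → ∃ γ : M → W → M, Gam s t γ

/-- VEC. (5.1), for the bundle `Y`: `P = PP s.swap t`. Use `Coc` for `f` on `Y` (the cocycle with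
`D = s.D`, `S = PP s.swap t`; it is not the one of COC, which is over `f.symm`), `Coc.Q p x` for
`x ∈ Wl f ε p`. -/
def SpecVec : Prop :=
  ∀ (M : Type u) (W : Type v) [MetricSpace M] [CompactSpace M] [NormedAddCommGroup W]
    [InnerProductSpace ℝ W] [FiniteDimensional ℝ W] (E : Emb M W) (f g : M ≃ₜ M)
    (s : Split E f) (t : Split E g) (C₀ θ b : ℝ) (p : M) (x : ℝ → M), Bun s.swap t C₀ →
    f p = p → g p = p → Continuous x → (∀ τ, f (x τ) = x (τ + 1)) →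
    (∀ τ, g (x τ) = x (τ - θ)) → Tendsto x atTop (𝓝 p) →
    (∀ w, s.D p (PP s.swap t p w) = Real.exp b • PP s.swap t p w) →
    (∀ w, t.D p (PP s.swap t p w) = Real.exp (-(b * θ)) • PP s.swap t p w) →
    ∃ v : ℝ → W, Continuous v ∧ (∀ τ, PP s.swap t (x τ) (v τ) = v τ) ∧ (∀ τ, v τ ≠ 0) ∧
      (∀ τ, s.D (x τ) (v τ) = v (τ + 1)) ∧ (∀ τ, t.D (x τ) (v τ) = v (τ - θ))

/-- PLANE. (5.2), from GAM (twice) and VEC: `x τ = γX p (exp (-a τ) • u)` with `γX p u = y`,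
`H τ r = γY (x τ) (r • v τ)`. -/
def SpecPlane : Prop :=
  ∀ (M : Type u) (W : Type v) [MetricSpace M] [CompactSpace M] [NormedAddCommGroup W]
    [InnerProductSpace ℝ W] [FiniteDimensional ℝ W] (E : Emb M W) (f g : M ≃ₜ M)
    (s : Split E f) (t : Split E g) (C₀ θ : ℝ) (p y : M), Bun s t.swap C₀ → Bun s.swap t C₀ →
    f p = p → g p = p → Eig s t θ p → Dbl f g.symm p y → y ≠ p →
    ∃ H : ℝ → ℝ → M, Plane f g θ p H ∧ H 0 0 = y

/-- WALL. **The wall lemma**: from all the other modules. -/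
def SpecWall : Prop :=
  ∀ (M : Type u) (W : Type v) [MetricSpace M] [CompactSpace M] [NormedAddCommGroup W]
    [InnerProductSpace ℝ W] [FiniteDimensional ℝ W] (E : Emb M W) (f g : M ≃ₜ M)
    (ε C l θ : ℝ), Pair f g ε C l → Irrational θ → 0 < θ →
    (∀ p ∈ periodicPts f, Good E f g θ p) →
    ∀ A : Set M, Minimal (· ∈ Sset f.symm) A → Sat g.symm A

end Pool.Agent.Lib.MP610fe3.HR
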