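import Pool.Agent.Lib.MP_610fe3_an.HR.Spec2

/-!
# Chains of commuting Anosov diffeomorphisms: definitions and statements of the modules

No functionals here: at every periodic point there are four exponents. A module `XXX` proves
`theorem specXxx : SpecXxx.{u, v}` in its own file `HR/XXX.lean`. The proof is
`/team-store/MP_610fe3_an_HRC_h30.md`; the numbers (N1) etc. refer to it.
-/

set_option autoImplicit false

open Set Filter Function Bundle
open scoped Topology Manifold ContDiff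

namespace Pool.Agent.Lib.MP610fe3.HR

open Cf CH

universe u v w

section Defs

variable {M W : Type*} [MetricSpace M] [NormedAddCommGroup W] [NormedSpace ℝ W]
  {E : Emb M W} {f g : M ≃ₜ M}

/-- The derivatives of `f` and `g` at the common fixed point `p` on the two line bundles. -/
def Eig4 (s : Split E f) (t : Split E g) (a a' b b' : ℝ) (p : M) : Prop :=
  (∀ w, s.D p (PP s t.swap p w) = Real.exp (-a) • PP s t.swap p w) ∧
  (∀ w, t.D p (PP s t.swap p w) = Real.exp a' • PP s t.swap p w) ∧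
  (∀ w, s.D p (PP s.swap t p w) = Real.exp b • PP s.swap t p w) ∧
  (∀ w, t.D p (PP s.swap t p w) = Real.exp (-b') • PP s.swap t p w)

/-- The periodic point `p` is fixed by `f^k` and `g^k`, with four positive exponents. -/
def Good4 (E : Emb M W) (f g : M ≃ₜ M) (p : M) : Prop :=
  ∃ (k : ℕ) (F G : M ≃ₜ M) (S : Split E F) (T : Split E G) (C₀ a a' b b' : ℝ), 0 < k ∧
    0 < a ∧ 0 < a' ∧ 0 < b ∧ 0 < b' ∧
    (∀ z, F z = f^[k] z) ∧ (∀ z, G z = g^[k] z) ∧ F p = p ∧ G p = p ∧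
    Bun S T.swap C₀ ∧ Bun S.swap T C₀ ∧ Eig4 S T a a' b b' p

/-- All the powers of `f` are hyperbolic of class `C^2` with the bundles `Fs`, `Fu`. -/
def Pows (E : Emb M W) (f : M ≃ₜ M) (Fs Fu : M → Submodule ℝ W) : Prop :=
  ∀ k : ℕ, 0 < k → ∀ F : M ≃ₜ M, (∀ z, F z = f^[k] z) → ∃ S : Split E F, S.Hyperbolic ∧
    (∃ C : ℝ, Sq S C) ∧ (∀ x, (S.S x).range = Fs x) ∧ (∀ x, (S.U x).range = Fu x)

end Defs

/-- The leaves `Y` through one half of the leaf `X` of the common fixed point `p`, with a drift. -/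
structure PlaneD {M : Type*} [MetricSpace M] (f g : M ≃ₜ M) (θ δ : ℝ) (p : M) (H : ℝ → ℝ → M) :
    Prop where
  cont : Continuous (fun q : ℝ × ℝ => H q.1 q.2)
  eqf : ∀ τ r, f (H τ r) = H (τ + 1) r
  eqg : ∀ τ r, g (H τ r) = H (τ - θ) (Real.exp δ * r)
  zero : ∀ τ, Dbl f g.symm p (H τ 0)
  surj : ∀ τ y, Dbl f.symm g (H τ 0) y → ∃ r, H τ r = y

/-- VECD. As VEC, with an exponent `b'` of `g`; `δ = b * θ - b'`. Reuse `VECAux.extend`. -/
def SpecVecd : Prop :=
  ∀ (M : Type u) (W : Type v) [MetricSpace M] [CompactSpace M] [NormedAddCommGroup W]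
    [InnerProductSpace ℝ W] [FiniteDimensional ℝ W] (E : Emb M W) (f g : M ≃ₜ M)
    (s : Split E f) (t : Split E g) (C₀ θ b b' : ℝ) (p : M) (x : ℝ → M), Bun s.swap t C₀ →
    f p = p → g p = p → Continuous x → (∀ τ, f (x τ) = x (τ + 1)) →
    (∀ τ, g (x τ) = x (τ - θ)) → Tendsto x atTop (𝓝 p) →
    (∀ w, s.D p (PP s.swap t p w) = Real.exp b • PP s.swap t p w) →
    (∀ w, t.D p (PP s.swap t p w) = Real.exp (-b') • PP s.swap t p w) →
    ∃ v : ℝ → W, Continuous v ∧ (∀ τ, PP s.swap t (x τ) (v τ) = v τ) ∧ (∀ τ, v τ ≠ 0) ∧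
      (∀ τ, s.D (x τ) (v τ) = v (τ + 1)) ∧
      (∀ τ, t.D (x τ) (v τ) = Real.exp (b * θ - b') • v (τ - θ))

/-- PLAND. As PLANE, from GAM (twice) and VECD. -/
def SpecPland : Prop :=
  ∀ (M : Type u) (W : Type v) [MetricSpace M] [CompactSpace M] [NormedAddCommGroup W]
    [InnerProductSpace ℝ W] [FiniteDimensional ℝ W] (E : Emb M W) (f g : M ≃ₜ M)
    (s : Split E f) (t : Split E g) (C₀ a a' b b' : ℝ) (p y : M), Bun s t.swap C₀ →
    Bun s.swap t C₀ → f p = p → g p = p → 0 < a → 0 < a' → 0 < b → 0 < b' →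
    Eig4 s t a a' b b' p → Dbl f g.symm p y → y ≠ p →
    ∃ H : ℝ → ℝ → M, PlaneD f g (a' / a) (b * (a' / a) - b') p H ∧ H 0 0 = y

/-- EASY. (N1): like (6.3) in EXIT. `c_k = f^(n_k) g^(m_k)` with `n_k - m_k θ → 0`
(`EXITAux.exists_uv`). -/
def SpecEasy : Prop :=
  ∀ (M : Type u) [MetricSpace M] [CompactSpace M] (f g : M ≃ₜ M) (ε C l θ δ : ℝ) (p : M)
    (H : ℝ → ℝ → M) (A : Set M), Pair f g ε C l → 0 < θ → δ ≠ 0 → IsClosed A →
    Sat f.symm A → f '' A = A → g '' A = A → p ∈ A → PlaneD f g θ δ p H → H 0 0 ∈ A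

/-- CLOS. (N3): `f^a g^b` fixes the leaves `X` and `Y` of all the points of the closure of the leaf
`X` of `p`. From PLANE (the leaves `Y` of the points `z n ≠ p`), `γY` at `p`, FIXX, and the
continuity of `γX`, `γY`. -/
def SpecClos : Prop :=
  ∀ (M : Type u) (W : Type v) [MetricSpace M] [CompactSpace M] [NormedAddCommGroup W]
    [InnerProductSpace ℝ W] [FiniteDimensional ℝ W] (E : Emb M W) (f g : M ≃ₜ M)
    (s : Split E f) (t : Split E g) (C₀ θ : ℝ) (γX γY : M → W → M) (p p₁ : M) (a b : ℕ)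
    (z : ℕ → M), Bun s t.swap C₀ → Bun s.swap t C₀ → Gam s t.swap γX → Gam s.swap t γY →
    f p = p → g p = p → Eig s t θ p → θ * b = a → (∀ n, Dbl f g.symm p (z n)) →
    Tendsto z atTop (𝓝 p₁) →
    (∀ y, Dbl f g.symm p₁ y → cc f g a b y = y) ∧ ∀ y, Dbl f.symm g p₁ y → cc f g a b y = y

/-- RATE. The exponents at a point whose leaves `X` and `Y` are fixed by `f^m g^n`. -/
def SpecRate : Prop :=
  ∀ (M : Type u) (W : Type v) [MetricSpace M] [CompactSpace M] [NormedAddCommGroup W]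
    [InnerProductSpace ℝ W] [FiniteDimensional ℝ W] (E : Emb M W) (f g : M ≃ₜ M)
    (s : Split E f) (t : Split E g) (C₀ θ a a' b b' : ℝ) (γX γY : M → W → M) (p : M)
    (m n : ℕ), Bun s t.swap C₀ → Bun s.swap t C₀ → Gam s t.swap γX → Gam s.swap t γY →
    f p = p → g p = p → 0 < a → 0 < b → 0 < n → θ * n = m → Eig4 s t a a' b b' p →
    (∀ y, Dbl f g.symm p y → cc f g m n y = y) → (∀ y, Dbl f.symm g p y → cc f g m n y = y) →
    Eig s t θ p

/-- WALLG. **The wall lemma without functionals** (helper30). -/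
def SpecWallg : Prop :=
  ∀ (M : Type u) (W : Type v) [MetricSpace M] [CompactSpace M] [NormedAddCommGroup W]
    [InnerProductSpace ℝ W] [FiniteDimensional ℝ W] (E : Emb M W) (f g : M ≃ₜ M)
    (ε C l : ℝ), Pair f g ε C l → (∀ p ∈ periodicPts f, Good4 E f g p) →
    ∀ A : Set M, Minimal (· ∈ Sset f.symm) A → Sat g.symm A

/-- GOOD4. The point `p` is periodic for `g` (see EIG). Take `k = 2 * k'` with
`f^k' p = p = g^k' p`; the range of `PP S T.swap x` is `Fs x ⊓ Gu x` (the projections commute, see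
RNG, `US_idem`); the derivative of `f^k'` acts on the line by a scalar `μ ≠ 0`, the one of `f^k`
by `μ ^ 2`, which is `< 1` by hyperbolicity (see SCA). -/
def SpecGood4 : Prop :=
  ∀ (M : Type u) (W : Type v) [MetricSpace M] [CompactSpace M] [NormedAddCommGroup W]
    [InnerProductSpace ℝ W] [FiniteDimensional ℝ W] (E : Emb M W) (f g : M ≃ₜ M)
    (Fs Fu Gs Gu : M → Submodule ℝ W), (∀ x, f (g x) = g (f x)) → Pows E f Fs Fu →
    Pows E g Gs Gu → (∀ x, Module.finrank ℝ (Fs x ⊓ Gu x : Submodule ℝ W) = 1) →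
    (∀ x, Module.finrank ℝ (Fu x ⊓ Gs x : Submodule ℝ W) = 1) →
    ∀ p ∈ periodicPts f, Good4 E f g p

/-- DIMC. The dimension of the intersection of the bundles is constant: it is the trace of the
continuous idempotent `t.S x ∘L s.S x` (`s.S x` and `t.S x` commute, see RNG, `US_idem`). -/
def SpecDimc : Prop :=
  ∀ (M : Type u) (W : Type v) [MetricSpace M] [CompactSpace M] [ConnectedSpace M]
    [NormedAddCommGroup W] [InnerProductSpace ℝ W] [FiniteDimensional ℝ W] (E : Emb M W)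
    (f g : M ≃ₜ M) (s : Split E f) (t : Split E g), s.Hyperbolic → t.Hyperbolic →
    (∀ x, f (g x) = g (f x)) → ∀ x y,
    Module.finrank ℝ ((s.S x).range ⊓ (t.S x).range : Submodule ℝ W) =
      Module.finrank ℝ ((s.S y).range ⊓ (t.S y).range : Submodule ℝ W)

/-- CHNG. The abstract chain; see the second half of the proof of `specChain2` in CHN2. -/
def SpecChng : Prop :=
  ∀ (M : Type u) (W : Type v) [MetricSpace M] [CompactSpace M] [ConnectedSpace M]
    [NormedAddCommGroup W] [InnerProductSpace ℝ W] [FiniteDimensional ℝ W] (E : Emb M W) (m : ℕ)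
    (g : ℕ → M ≃ₜ M), (∀ i ≤ m, ∃ s : Split E (g i), s.Hyperbolic) →
    (∀ x, g m (g 0 x) = x) →
    (∀ i < m, (∀ K, Minimal (· ∈ Sset (g i).symm) K → Sat (g (i + 1)).symm K) ∧
      (∀ K, Minimal (· ∈ Sset (g (i + 1)).symm) K → Sat (g i).symm K)) →
    ∀ i ≤ m, TopTransitive (g i)

/-- POWM. From the manifold to `Pows` (`Cf.specSq`, `Gen.exists_split`; `S.swap` is covered by
`Pows E f.symm Fu Fs`, not needed). The powers of an Anosov diffeomorphism have the same
splitting. -/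
def SpecPowm : Prop :=
  ∀ (V : Type v) [NormedAddCommGroup V] [NormedSpace ℝ V] [FiniteDimensional ℝ V] (N : ℕ)
    (M : Type u) [MetricSpace M] [CompactSpace M] [ChartedSpace V M] [IsManifold 𝓘(ℝ, V) ∞ M]
    [RiemannianBundle (fun x : M => TangentSpace 𝓘(ℝ, V) x)]
    [IsContinuousRiemannianBundle V (fun x : M => TangentSpace 𝓘(ℝ, V) x)]
    (e : M → EuclideanSpace ℝ (Fin N)), Isometry e → ContMDiff 𝓘(ℝ, V) (𝓡 N) ∞ e →
    (∀ x, Injective (mfderiv 𝓘(ℝ, V) (𝓡 N) e x)) →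
    ∃ E : Emb M (EuclideanSpace ℝ (Fin N)),
      ∀ (g : M ≃ₘ^1⟮𝓘(ℝ, V), 𝓘(ℝ, V)⟯ M) (Es Eu : ∀ x : M, Submodule ℝ (TangentSpace 𝓘(ℝ, V) x)),
      Gen.IsAnosovSplitting g Es Eu →
      (∃ s : Split E g.toHomeomorph, s.Hyperbolic ∧
        (∀ x, (s.S x).range = (Es x).map (Gen.dE V e x)) ∧
        (∀ x, (s.U x).range = (Eu x).map (Gen.dE V e x))) ∧
      (ContMDiff 𝓘(ℝ, V) 𝓘(ℝ, V) 2 g → ContMDiff 𝓘(ℝ, V) 𝓘(ℝ, V) 2 g.symm →
        Pows E g.toHomeomorph (fun x => (Es x).map (Gen.dE V e x))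
          (fun x => (Eu x).map (Gen.dE V e x)))

end Pool.Agent.Lib.MP610fe3.HR
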