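import Pool.Agent.Lib.MP_610fe3_an.HR.MFDG

/-!
# Dimension four: statements of the modules

A module `XXX` proves `theorem specXxx : SpecXxx.{u, v}` in its own file `HR/XXX.lean`.
-/

set_option autoImplicit false

open Set Filter Function Bundle
open scoped Topology Manifold ContDiff

namespace Pool.Agent.Lib.MP610fe3.HR

open Cf CH

universe u v

/-- FNW. Franks and Newhouse, in class `C^1`; from `HYP.transitive` with `Ew = ⊥`, `a = b` (import
`Pool.Agent.Lib.MP_610fe3_an.HYP.All`), or from `CD.transitive_of` with `d = 1`, `κ = 0` (import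
`Pool.Agent.Lib.MP_610fe3_an.CD.Final`); for the stable dimension one apply it to `f.symm`. -/
def SpecFnw : Prop :=
  ∀ (V : Type v) [NormedAddCommGroup V] [NormedSpace ℝ V] [FiniteDimensional ℝ V]
    (M : Type u) [TopologicalSpace M] [CompactSpace M] [T2Space M] [ConnectedSpace M]
    [ChartedSpace V M] [IsManifold 𝓘(ℝ, V) ∞ M]
    [RiemannianBundle (fun x : M => TangentSpace 𝓘(ℝ, V) x)]
    [IsContinuousRiemannianBundle V (fun x : M => TangentSpace 𝓘(ℝ, V) x)]
    (f : M ≃ₘ^1⟮𝓘(ℝ, V), 𝓘(ℝ, V)⟯ M) (Es Eu : ∀ x : M, Submodule ℝ (TangentSpace 𝓘(ℝ, V) x)),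
    Gen.IsAnosovSplitting f Es Eu →
    ∀ x, Module.finrank ℝ (Es x) = 1 ∨ Module.finrank ℝ (Eu x) = 1 → TopTransitive f

/-- TRC. Transitivity passes to a commuting Anosov diffeomorphism. Periodic points of `f` are dense
(shadowing), they are periodic for `g` (finitely many of each period), so `Om g = univ`; a minimal
closed `W^u(g)`-saturated set `K` is invariant under a power of `g`, `Om g` meets its basin in `K`
(BAS), so `K` is open and closed; conclude as in `specChain2`. -/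
def SpecTrc : Prop :=
  ∀ (V : Type v) [NormedAddCommGroup V] [NormedSpace ℝ V] [FiniteDimensional ℝ V]
    (M : Type u) [TopologicalSpace M] [CompactSpace M] [T2Space M] [ConnectedSpace M]
    [ChartedSpace V M] [IsManifold 𝓘(ℝ, V) ∞ M]
    [RiemannianBundle (fun x : M => TangentSpace 𝓘(ℝ, V) x)]
    [IsContinuousRiemannianBundle V (fun x : M => TangentSpace 𝓘(ℝ, V) x)]
    (f g : M ≃ₘ^1⟮𝓘(ℝ, V), 𝓘(ℝ, V)⟯ M)
    (Es Eu Es' Eu' : ∀ x : M, Submodule ℝ (TangentSpace 𝓘(ℝ, V) x)),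
    Gen.IsAnosovSplitting f Es Eu → Gen.IsAnosovSplitting g Es' Eu' →
    (∀ x, f (g x) = g (f x)) → TopTransitive f → TopTransitive g

/-- DEC. The stable bundle of `f` is the sum of its intersections with the bundles of `g` (the
projections commute, `US_idem`). -/
def SpecDec : Prop :=
  ∀ (V : Type v) [NormedAddCommGroup V] [NormedSpace ℝ V] [FiniteDimensional ℝ V]
    (M : Type u) [TopologicalSpace M] [CompactSpace M] [T2Space M] [ConnectedSpace M]
    [ChartedSpace V M] [IsManifold 𝓘(ℝ, V) ∞ M]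
    [RiemannianBundle (fun x : M => TangentSpace 𝓘(ℝ, V) x)]
    [IsContinuousRiemannianBundle V (fun x : M => TangentSpace 𝓘(ℝ, V) x)]
    (f g : M ≃ₘ^1⟮𝓘(ℝ, V), 𝓘(ℝ, V)⟯ M)
    (Es Eu Es' Eu' : ∀ x : M, Submodule ℝ (TangentSpace 𝓘(ℝ, V) x)),
    Gen.IsAnosovSplitting f Es Eu → Gen.IsAnosovSplitting g Es' Eu' →
    (∀ x, f (g x) = g (f x)) → ∀ x,
    Module.finrank ℝ (Es x) =
      Module.finrank ℝ ↥(Es x ⊓ Es' x) + Module.finrank ℝ ↥(Es x ⊓ Eu' x)

/-- FOUR. Dimension four (helper30). -/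
def SpecFour : Prop :=
  ∀ (V : Type v) [NormedAddCommGroup V] [NormedSpace ℝ V] [FiniteDimensional ℝ V]
    (M : Type u) [TopologicalSpace M] [CompactSpace M] [T2Space M] [ConnectedSpace M]
    [ChartedSpace V M] [IsManifold 𝓘(ℝ, V) ∞ M]
    [RiemannianBundle (fun x : M => TangentSpace 𝓘(ℝ, V) x)]
    [IsContinuousRiemannianBundle V (fun x : M => TangentSpace 𝓘(ℝ, V) x)]
    (f g : M ≃ₘ^1⟮𝓘(ℝ, V), 𝓘(ℝ, V)⟯ M)
    (Es Eu Es' Eu' : ∀ x : M, Submodule ℝ (TangentSpace 𝓘(ℝ, V) x)),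
    Gen.IsAnosovSplitting f Es Eu → Gen.IsAnosovSplitting g Es' Eu' → C2 f → C2 g →
    (∀ x, f (g x) = g (f x)) → Module.finrank ℝ V = 4 →
    ∀ x, Es' x ≠ Es x → Es' x ≠ Eu x → TopTransitive f ∧ TopTransitive g

end Pool.Agent.Lib.MP610fe3.HR
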