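import Pool.Agent.Lib.MP_610fe3_an.HR.Spec
import Pool.Agent.Lib.MP_610fe3_an.CH.Mfd

/-!
# Higher rank actions with one dimensional symplectic pairs: the modules on the side of `ℤ^k`

As in `Spec.lean`, a module `XXX` proves `theorem specXxx : SpecXxx` in its own file `HR/XXX.lean`.
-/

set_option autoImplicit false

open Set Filter Function Bundle
open scoped Topology Manifold ContDiff

namespace Pool.Agent.Lib.MP610fe3.HR

open Cf CH

universe u v w

/-- The step from `n` to `n'` crosses the wall of `χ i`, with the partner `χ j`. -/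
structure Wal {k : ℕ} {J : Type*} (χ : J → Fin k → ℝ) (n n' : Fin k → ℤ) (i j : J) : Prop where
  reg : Regular χ n
  reg' : Regular χ n'
  neg : ∃ t : ℝ, 0 < t ∧ χ j = -(t • χ i)
  lt : ev (χ i) n < 0
  gt : 0 < ev (χ i) n'
  only : ∀ l, ¬ (ev (χ l) n < 0 ↔ ev (χ l) n' < 0) → ∃ c : ℝ, χ l = c • χ i

/-- The same with an irrational ratio. -/
structure Cross {k : ℕ} {J : Type*} (χ : J → Fin k → ℝ) (n n' : Fin k → ℤ) (i j : J) : Prop
    extends Wal χ n n' i j where
  irr : Irrational (ev (χ i) n' / ev (χ i) n)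

/-- The coarse bundle of the functional `χ i`. -/
def coarse {W : Type*} [NormedAddCommGroup W] [NormedSpace ℝ W] {M : Type*} {k : ℕ} {J : Type*}
    (χ : J → Fin k → ℝ) (F : J → M → Submodule ℝ W) (i : J) (x : M) : Submodule ℝ W :=
  ⨆ (l) (_ : ∃ c : ℝ, 0 < c ∧ χ l = c • χ i), F l x

/-- An action of `ℤ^k`; the regular elements are hyperbolic of class `C^2` and their stable and
unstable bundles are the sums of the bundles `F j`. -/
structure Act {M W : Type*} [MetricSpace M] [NormedAddCommGroup W] [NormedSpace ℝ W] {k : ℕ}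
    {J : Type*} (E : Emb M W) (A : (Fin k → ℤ) → M ≃ₜ M) (χ : J → Fin k → ℝ)
    (F : J → M → Submodule ℝ W) : Prop where
  add : ∀ n n' x, A (n + n') x = A n (A n' x)
  split : ∀ n, Regular χ n → ∃ s : Split E (A n), s.Hyperbolic ∧ (∃ C : ℝ, Sq s C) ∧
    (∀ x, (s.S x).range = ⨆ (j) (_ : ev (χ j) n < 0), F j x) ∧
    (∀ x, (s.U x).range = ⨆ (j) (_ : 0 < ev (χ j) n), F j x)

/-- ARITH. The chain of chambers, with irrational ratios at the walls with a partner. -/
def SpecArith : Prop :=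
  ∀ (k : ℕ) (J : Type w) [Finite J] (χ : J → Fin k → ℝ),
    (∀ i j, ∀ t : ℝ, 0 < t → χ i = -(t • χ j) → ∃ a b : Fin k → ℤ,
      Irrational (ev (χ i) a / ev (χ i) b)) →
    ∀ n : Fin k → ℤ, Regular χ n → ∃ (m : ℕ) (c : ℕ → Fin k → ℤ), c 0 = n ∧ c m = -n ∧
      ∀ i < m, Step χ (c i) (c (i + 1)) ∨ ∃ l l', Cross χ (c i) (c (i + 1)) l l'

/-- LIN. Two linear forms with the same signs at the natural vectors outside finitely many lines
are proportional. -/
def SpecLin : Prop :=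
  ∀ (J : Type w) [Finite J] (p q : J → ℝ) (a b α β : ℝ), a < 0 → 0 < b → (∀ j, p j ≠ 0) →
    (∀ j, q j ≠ 0) →
    (∀ m n : ℕ, (∀ j, m * p j + n * q j ≠ 0) → m * a + n * b < 0 → m * α + n * β < 0) →
    (∀ m n : ℕ, (∀ j, m * p j + n * q j ≠ 0) → 0 < m * a + n * b → 0 < m * α + n * β) →
    ∃ c : ℝ, 0 < c ∧ α = c * a ∧ β = c * b

/-- RNG. The range of the product of commuting projections of two regular elements: for all `n`, `n'`
the range of `PP s t.swap x` is the sum of the `F l x` with `ev (χ l) n < 0 < ev (χ l) n'`. -/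
def SpecRng : Prop :=
  ∀ (M : Type u) (W : Type v) [MetricSpace M] [CompactSpace M] [NormedAddCommGroup W]
    [InnerProductSpace ℝ W] [FiniteDimensional ℝ W] (E : Emb M W) (k : ℕ) (J : Type w) [Finite J]
    (χ : J → Fin k → ℝ) (F : J → M → Submodule ℝ W) (f g : M ≃ₜ M) (s : Split E f) (t : Split E g)
    (n n' : Fin k → ℤ), s.Hyperbolic → t.Hyperbolic → (∀ x, f (g x) = g (f x)) →
    Regular χ n → Regular χ n' →
    (∀ x, (s.S x).range = ⨆ (j) (_ : ev (χ j) n < 0), F j x) →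
    (∀ x, (s.U x).range = ⨆ (j) (_ : 0 < ev (χ j) n), F j x) →
    (∀ x, (t.S x).range = ⨆ (j) (_ : ev (χ j) n' < 0), F j x) →
    (∀ x, (t.U x).range = ⨆ (j) (_ : 0 < ev (χ j) n'), F j x) →
    ∀ i j, Wal χ n n' i j →
      (∀ x, (PP s t.swap x).range = coarse χ F i x) ∧ (∀ x, (PP s.swap t x).range = coarse χ F j x)

/-- SCA. The scalars by which the derivatives at a common fixed point `p` act on an invariant coarse
line bundle: `m * α + m' * β` is the logarithm of the scalar of `A (2 • (m • n + m' • n'))`. The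
derivatives are unique (`HasD.unique`), the derivative of a composition is `HasD.comp`. -/
def SpecSca : Prop :=
  ∀ (M : Type u) (W : Type v) [MetricSpace M] [CompactSpace M] [NormedAddCommGroup W]
    [InnerProductSpace ℝ W] [FiniteDimensional ℝ W] (E : Emb M W) (k : ℕ) (J : Type w) [Finite J]
    (A : (Fin k → ℤ) → M ≃ₜ M) (χ : J → Fin k → ℝ) (F : J → M → Submodule ℝ W), Act E A χ F →
    ∀ (n n' : Fin k → ℤ) (i : J) (p : M), Regular χ n → Regular χ n' →
      Module.finrank ℝ (coarse χ F i p) = 1 → A n p = p → A n' p = p →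
      (∀ N, A N p = p → ∀ s : Split E (A N), ∀ w ∈ coarse χ F i p, s.D p w ∈ coarse χ F i p) →
      ∃ α β : ℝ,
        (∀ s : Split E (A ((2 : ℤ) • n)), ∀ w ∈ coarse χ F i p, s.D p w = Real.exp α • w) ∧
        (∀ s : Split E (A ((2 : ℤ) • n')), ∀ w ∈ coarse χ F i p, s.D p w = Real.exp β • w) ∧
        ∀ m m' : ℕ, Regular χ ((m : ℤ) • n + (m' : ℤ) • n') →
          (ev (χ i) ((m : ℤ) • n + (m' : ℤ) • n') < 0 → m * α + m' * β < 0) ∧
          (0 < ev (χ i) ((m : ℤ) • n + (m' : ℤ) • n') → 0 < m * α + m' * β)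

/-- EIG. From LIN, RNG, SCA. The point `p` is periodic for `A n'` too, since `A n` has finitely many
points of a given period (it is expansive). Take `k = 2 * k'` with `(A n)^k' p = p = (A n')^k' p`;
the coarse bundles of `i`, `j` are the ranges of `PP s t.swap`, `PP s.swap t` by RNG, hence invariant
under the derivatives (`D_commutes`). -/
def SpecEig : Prop :=
  ∀ (M : Type u) (W : Type v) [MetricSpace M] [CompactSpace M] [NormedAddCommGroup W]
    [InnerProductSpace ℝ W] [FiniteDimensional ℝ W] (E : Emb M W) (k : ℕ) (J : Type w) [Finite J]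
    (A : (Fin k → ℤ) → M ≃ₜ M) (χ : J → Fin k → ℝ) (F : J → M → Submodule ℝ W), Act E A χ F →
    ∀ (n n' : Fin k → ℤ) (i j : J), Wal χ n n' i j →
      (∀ x, Module.finrank ℝ (coarse χ F i x) = 1) → (∀ x, Module.finrank ℝ (coarse χ F j x) = 1) →
      ∀ p ∈ periodicPts (A n), Good E (A n) (A n') (-(ev (χ i) n' / ev (χ i) n)) p

/-- CHN. The abstract theorem, from ARITH, EIG, WALL, PAIR. -/
def SpecChain : Prop :=
  ∀ (M : Type u) (W : Type v) [MetricSpace M] [CompactSpace M] [ConnectedSpace M]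
    [NormedAddCommGroup W] [InnerProductSpace ℝ W] [FiniteDimensional ℝ W] (E : Emb M W) (k : ℕ)
    (J : Type w) [Finite J] (A : (Fin k → ℤ) → M ≃ₜ M) (χ : J → Fin k → ℝ)
    (F : J → M → Submodule ℝ W), Act E A χ F →
    (∀ i j, ∀ t : ℝ, 0 < t → χ i = -(t • χ j) → (∀ x, Module.finrank ℝ (coarse χ F i x) = 1) ∧
      ∃ a b : Fin k → ℤ, Irrational (ev (χ i) a / ev (χ i) b)) →
    ∀ n : Fin k → ℤ, Regular χ n → TopTransitive (A n)

/-- ACT. From the manifold to `Act`. -/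
def SpecAct : Prop :=
  ∀ (V : Type v) [NormedAddCommGroup V] [NormedSpace ℝ V] [FiniteDimensional ℝ V] (N : ℕ)
    (M : Type u) [MetricSpace M] [CompactSpace M] [ChartedSpace V M] [IsManifold 𝓘(ℝ, V) ∞ M]
    [RiemannianBundle (fun x : M => TangentSpace 𝓘(ℝ, V) x)]
    [IsContinuousRiemannianBundle V (fun x : M => TangentSpace 𝓘(ℝ, V) x)]
    (e : M → EuclideanSpace ℝ (Fin N)), Isometry e → ContMDiff 𝓘(ℝ, V) (𝓡 N) ∞ e →
    (∀ x, Injective (mfderiv 𝓘(ℝ, V) (𝓡 N) e x)) →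
    ∀ (k : ℕ) (J : Type w) [Finite J] (A : (Fin k → ℤ) → M ≃ₘ^1⟮𝓘(ℝ, V), 𝓘(ℝ, V)⟯ M)
      (χ : J → Fin k → ℝ) (F : J → ∀ x : M, Submodule ℝ (TangentSpace 𝓘(ℝ, V) x)),
    (∀ n n' x, A (n + n') x = A n (A n' x)) →
    (∀ n, ContMDiff 𝓘(ℝ, V) 𝓘(ℝ, V) 2 (A n)) →
    (∀ n, Regular χ n → Gen.IsAnosovSplitting (A n) (fun x => ⨆ (j) (_ : ev (χ j) n < 0), F j x)
      (fun x => ⨆ (j) (_ : 0 < ev (χ j) n), F j x)) →
    ∃ (E : Emb M (EuclideanSpace ℝ (Fin N))) (F' : J → M → Submodule ℝ (EuclideanSpace ℝ (Fin N))),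
      Act E (fun n => (A n).toHomeomorph) χ F' ∧
      ∀ i x, Module.finrank ℝ (coarse χ F' i x) =
        Module.finrank ℝ (⨆ (l) (_ : ∃ c : ℝ, 0 < c ∧ χ l = c • χ i), F l x :
          Submodule ℝ (TangentSpace 𝓘(ℝ, V) x))

end Pool.Agent.Lib.MP610fe3.HR
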