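import Pool.Agent.Lib.MP_610fe3_an.HR.SpecZ

/-!
# All walls: the modules on the side of `ℤ^k`

At a wall with a partner the ratio `χ i n' / χ i n` is irrational or `-1`; the wall lemma for the
ratio `-1` is `SpecWall1`.
-/

set_option autoImplicit false

open Set Filter Function Bundle
open scoped Topology Manifold ContDiff

namespace Pool.Agent.Lib.MP610fe3.HR

open Cf CH

universe u v w

/-- The step from `n` to `n'` crosses the wall of `χ i`, with the ratio `-1`. -/
structure Cross1 {k : ℕ} {J : Type*} (χ : J → Fin k → ℝ) (n n' : Fin k → ℤ) (i j : J) : Prop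
    extends Wal χ n n' i j where
  opp : ev (χ i) n' = -ev (χ i) n

/-- ARITH2. The chain of chambers, with ratios irrational or `-1` at the walls with a partner. -/
def SpecArith2 : Prop :=
  ∀ (k : ℕ) (J : Type w) [Finite J] (χ : J → Fin k → ℝ) (n : Fin k → ℤ), Regular χ n →
    ∃ (m : ℕ) (c : ℕ → Fin k → ℤ), c 0 = n ∧ c m = -n ∧
      ∀ i < m, Step χ (c i) (c (i + 1)) ∨ ∃ l l', Cross χ (c i) (c (i + 1)) l l' ∨
        Cross1 χ (c i) (c (i + 1)) l l'

/-- WALL1. **The wall lemma for the ratio `-1`**: `θ = 1`. -/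
def SpecWall1 : Prop :=
  ∀ (M : Type u) (W : Type v) [MetricSpace M] [CompactSpace M] [NormedAddCommGroup W]
    [InnerProductSpace ℝ W] [FiniteDimensional ℝ W] (E : Emb M W) (f g : M ≃ₜ M)
    (ε C l : ℝ), Pair f g ε C l → (∀ p ∈ periodicPts f, Good E f g 1 p) →
    ∀ A : Set M, Minimal (· ∈ Sset f.symm) A → Sat g.symm A

/-- CHN2. The abstract theorem, from ARITH2, EIG, WALL, WALL1, PAIR. -/
def SpecChain2 : Prop :=
  ∀ (M : Type u) (W : Type v) [MetricSpace M] [CompactSpace M] [ConnectedSpace M]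
    [NormedAddCommGroup W] [InnerProductSpace ℝ W] [FiniteDimensional ℝ W] (E : Emb M W) (k : ℕ)
    (J : Type w) [Finite J] (A : (Fin k → ℤ) → M ≃ₜ M) (χ : J → Fin k → ℝ)
    (F : J → M → Submodule ℝ W), Act E A χ F →
    (∀ i j, ∀ t : ℝ, 0 < t → χ i = -(t • χ j) → ∀ x, Module.finrank ℝ (coarse χ F i x) = 1) →
    ∀ n : Fin k → ℤ, Regular χ n → TopTransitive (A n)

end Pool.Agent.Lib.MP610fe3.HR
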