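import Pool.Agent.Lib.MP_610fe3_an.HR.VSpec

/-!
# Module BOX: counting balls
-/

set_option autoImplicit false

open Set Filter Function
open scoped Topology

namespace Pool.Agent.Lib.MP610fe3.HR

universe u

namespace VBOXAux

theorem step {M : Type u} [MetricSpace M] (h : M ≃ₜ M) {K : ℕ} {θ r : ℝ}
    (hcov : ∀ x, ∃ c : Fin K → M, ∀ z, dist z x ≤ r → ∃ i, dist (h z) (c i) ≤ θ * r)
    {s : Finset M} (hs : ∀ z : M, ∃ x ∈ s, dist z x ≤ r) :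
    ∃ s' : Finset M, s'.card ≤ s.card * K ∧ ∀ z : M, ∃ x ∈ s', dist z x ≤ θ * r := by
  classical
  choose c hc using hcov
  refine ⟨s.biUnion fun x => Finset.univ.image (c x), ?_, ?_⟩
  · refine Finset.card_biUnion_le_card_mul _ _ _ fun x _ => ?_
    exact Finset.card_image_le.trans (by simp)
  · intro z
    obtain ⟨x, hx, hzx⟩ := hs (h.symm z)
    obtain ⟨i, hi⟩ := hc x _ hzx
    rw [h.apply_symm_apply] at hi
    exact ⟨c x i, Finset.mem_biUnion.2 ⟨x, hx, Finset.mem_image.2 ⟨i, Finset.mem_univ _, rfl⟩⟩, hi⟩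

end VBOXAux

theorem specBox : SpecBox.{u} := by
  intro M _ _ _ h K d θ hθ0 hθ1 hCov hLow
  obtain ⟨r₀, hr₀, hcov⟩ := hCov
  obtain ⟨c, hc, hlow⟩ := hLow
  obtain ⟨r1, hr1, hr10, hr11⟩ : ∃ r1 : ℝ, 0 < r1 ∧ r1 ≤ r₀ ∧ r1 ≤ 1 :=
    ⟨min r₀ 1, lt_min hr₀ one_pos, min_le_left _ _, min_le_right _ _⟩
  obtain ⟨s₀, hs₀⟩ : ∃ s : Finset M, ∀ z : M, ∃ x ∈ s, dist z x ≤ r1 := by
    obtain ⟨t, -, ht⟩ := isCompact_univ.elim_nhds_subcover (fun x : M => Metric.ball x r1)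
      (fun x _ => Metric.ball_mem_nhds x hr1)
    refine ⟨t, fun z => ?_⟩
    have h1 := ht (mem_univ z)
    simp only [mem_iUnion, Metric.mem_ball] at h1
    obtain ⟨x, hx, h2⟩ := h1
    exact ⟨x, hx, h2.le⟩
  have hind : ∀ p : ℕ, ∃ s : Finset M, s.card ≤ s₀.card * K ^ p ∧
      ∀ z : M, ∃ x ∈ s, dist z x ≤ θ ^ p * r1 := by
    intro p
    induction p with
    | zero => exact ⟨s₀, by simp, by simpa using hs₀⟩
    | succ p ih =>
      obtain ⟨s, hs1, hs2⟩ := ih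
      have hp1 : θ ^ p ≤ 1 := pow_le_one₀ hθ0.le hθ1.le
      have hpos : 0 < θ ^ p * r1 := by positivity
      have hle : θ ^ p * r1 ≤ r₀ := by nlinarith
      obtain ⟨s', hs'1, hs'2⟩ := VBOXAux.step h (hcov _ hpos hle) hs2
      refine ⟨s', hs'1.trans ?_, fun z => ?_⟩
      · rw [pow_succ, ← mul_assoc]
        exact Nat.mul_le_mul_right K hs1
      · obtain ⟨x, hx, h1⟩ := hs'2 z
        refine ⟨x, hx, h1.trans (le_of_eq ?_)⟩
        rw [pow_succ]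
        ring
  by_contra hcon
  have hlt : (K : ℝ) * θ ^ d < 1 := not_le.1 hcon
  have h0 : 0 ≤ (K : ℝ) * θ ^ d := by positivity
  have ht : Tendsto (fun p : ℕ => (s₀.card : ℝ) * r1 ^ d * ((K : ℝ) * θ ^ d) ^ p) atTop
      (𝓝 ((s₀.card : ℝ) * r1 ^ d * 0)) :=
    (tendsto_pow_atTop_nhds_zero_of_lt_one h0 hlt).const_mul _
  rw [mul_zero] at ht
  obtain ⟨p, hp⟩ := (ht.eventually (gt_mem_nhds hc)).exists
  obtain ⟨s, hs1, hs2⟩ := hind p
  have hp1 : θ ^ p ≤ 1 := pow_le_one₀ hθ0.le hθ1.le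
  have hpos : 0 < θ ^ p * r1 := by positivity
  have hle : θ ^ p * r1 ≤ 1 := by nlinarith
  have h1 := hlow _ hpos hle s hs2
  have h2 : (s.card : ℝ) ≤ (s₀.card : ℝ) * (K : ℝ) ^ p := by exact_mod_cast hs1
  have h3 : (s.card : ℝ) * (θ ^ p * r1) ^ d ≤
      (s₀.card : ℝ) * (K : ℝ) ^ p * (θ ^ p * r1) ^ d :=
    mul_le_mul_of_nonneg_right h2 (by positivity)
  have h4 : (s₀.card : ℝ) * (K : ℝ) ^ p * (θ ^ p * r1) ^ d =
      (s₀.card : ℝ) * r1 ^ d * ((K : ℝ) * θ ^ d) ^ p := by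
    rw [mul_pow, mul_pow, ← pow_mul, ← pow_mul, mul_comm p d]
    ring
  linarith

end Pool.Agent.Lib.MP610fe3.HR
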