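import Pool.Agent.Lib.MP_610fe3_an.HR.VSpec

/-!
# COV: covers of the image of a small ball
-/

set_option autoImplicit false

open Set Filter Function Bundle MeasureTheory Metric Module
open scoped Topology Manifold ContDiff ENNReal

namespace Pool.Agent.Lib.MP610fe3.HR

open Cf CH

universe u v w

namespace VCOVAux

/-- A separated subset of a ball has boundedly many points (volume). -/
theorem sep_card {L : Type*} [NormedAddCommGroup L] [NormedSpace ℝ L] [FiniteDimensional ℝ L]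
    {A δ : ℝ} (hδ : 0 < δ) (hA : δ ≤ A) (s : Finset L) (hs : ∀ c ∈ s, ‖c‖ ≤ A)
    (h : ∀ c ∈ s, ∀ d ∈ s, c ≠ d → δ ≤ ‖c - d‖) : (s.card : ℝ) ≤ (3 * A / δ) ^ finrank ℝ L := by
  borelize L
  let μ : Measure L := Measure.addHaar
  have h2 : 0 < δ / 2 := half_pos hδ
  have hρ : 0 < A + δ / 2 := by linarith
  set B := ⋃ c ∈ s, ball (c : L) (δ / 2) with hB
  have D : Set.Pairwise (s : Set L) (Disjoint on fun c => ball (c : L) (δ / 2)) := by
    rintro c hc d hd hcd
    apply ball_disjoint_ball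
    rw [dist_eq_norm, add_halves]
    exact h c hc d hd hcd
  have hsub : B ⊆ ball (0 : L) (A + δ / 2) := by
    refine iUnion₂_subset fun x hx => ?_
    apply ball_subset_ball'
    rw [dist_zero_right]
    linarith [hs x hx]
  have I : (s.card : ℝ≥0∞) * ENNReal.ofReal ((δ / 2) ^ finrank ℝ L) * μ (ball 0 1) ≤
      ENNReal.ofReal ((A + δ / 2) ^ finrank ℝ L) * μ (ball 0 1) :=
    calc
      (s.card : ℝ≥0∞) * ENNReal.ofReal ((δ / 2) ^ finrank ℝ L) * μ (ball 0 1) = μ B := by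
        rw [hB, measure_biUnion_finset D fun c _ => measurableSet_ball]
        simp only [μ.addHaar_ball_of_pos _ h2]
        simp only [Finset.sum_const, nsmul_eq_mul, mul_assoc]
      _ ≤ μ (ball (0 : L) (A + δ / 2)) := measure_mono hsub
      _ = ENNReal.ofReal ((A + δ / 2) ^ finrank ℝ L) * μ (ball 0 1) := by
        simp only [μ.addHaar_ball_of_pos _ hρ]
  have J : (s.card : ℝ≥0∞) * ENNReal.ofReal ((δ / 2) ^ finrank ℝ L) ≤
      ENNReal.ofReal ((A + δ / 2) ^ finrank ℝ L) :=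
    (ENNReal.mul_le_mul_iff_left (measure_ball_pos _ _ zero_lt_one).ne' measure_ball_lt_top.ne).1 I
  have K : (s.card : ℝ) * (δ / 2) ^ finrank ℝ L ≤ (A + δ / 2) ^ finrank ℝ L := by
    have h3 := ENNReal.toReal_le_of_le_ofReal (pow_nonneg hρ.le _) J
    rwa [ENNReal.toReal_mul, ENNReal.toReal_natCast,
      ENNReal.toReal_ofReal (pow_nonneg h2.le _)] at h3
  have h4 : (s.card : ℝ) ≤ (A + δ / 2) ^ finrank ℝ L / (δ / 2) ^ finrank ℝ L := by
    rw [le_div_iff₀ (pow_pos h2 _)]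
    exact K
  refine h4.trans ?_
  rw [← div_pow]
  refine pow_le_pow_left₀ (by positivity) ?_ _
  rw [div_le_div_iff₀ h2 hδ]
  nlinarith

/-- A finite net of a ball. -/
theorem net {L : Type*} [NormedAddCommGroup L] [NormedSpace ℝ L] [FiniteDimensional ℝ L]
    {A δ : ℝ} (hδ : 0 < δ) (hA : δ ≤ A) : ∃ s : Finset L,
      (s.card : ℝ) ≤ (3 * A / δ) ^ finrank ℝ L ∧ ∀ y : L, ‖y‖ ≤ A → ∃ c ∈ s, ‖y - c‖ < δ := by
  classical
  set T : Set ℕ := {n | ∃ s : Finset L, (∀ c ∈ s, ‖c‖ ≤ A) ∧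
    (∀ c ∈ s, ∀ d ∈ s, c ≠ d → δ ≤ ‖c - d‖) ∧ s.card = n} with hT
  have hne : T.Nonempty := ⟨0, ∅, by simp, by simp, rfl⟩
  have hbd : BddAbove T := by
    refine ⟨⌊(3 * A / δ) ^ finrank ℝ L⌋₊, ?_⟩
    rintro n ⟨s, h1, h2, rfl⟩
    exact Nat.le_floor (sep_card hδ hA s h1 h2)
  obtain ⟨s, h1, h2, h3⟩ := Nat.sSup_mem hne hbd
  refine ⟨s, sep_card hδ hA s h1 h2, fun y hy => ?_⟩
  by_contra hcon
  push Not at hcon
  have hys : y ∉ s := fun hmem => by
    have h4 := hcon y hmem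
    rw [sub_self, norm_zero] at h4
    linarith
  have h5 : (insert y s).card ∈ T := by
    refine ⟨insert y s, ?_, ?_, rfl⟩
    · intro c hc
      rcases Finset.mem_insert.1 hc with rfl | hc
      · exact hy
      · exact h1 c hc
    · intro c hc d hd hcd
      rcases Finset.mem_insert.1 hc with hc' | hc'
      · rcases Finset.mem_insert.1 hd with hd' | hd'
        · exact absurd (hc'.trans hd'.symm) hcd
        · rw [hc']
          exact hcon d hd'
      · rcases Finset.mem_insert.1 hd with hd' | hd'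
        · rw [norm_sub_rev, hd']
          exact hcon c hc'
        · exact h2 c hc' d hd' hcd
  have h6 := le_csSup hbd h5
  rw [Finset.card_insert_of_notMem hys, ← h3] at h6
  omega

end VCOVAux

open VCOVAux

/-- **COV**: covers of the image of a small ball. -/
theorem specCov : SpecCov.{u, v} := by
  intro M W _ _ _ _ _ E h D Q Q' R ρ d hD hρ hρR hadd hQ hQ' hrk K hK
  classical
  obtain ⟨r₁, hr₁, H⟩ := hD.approx ρ hρ
  refine ⟨r₁ / 2, half_pos hr₁, fun r hr hr₀ x => ?_⟩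
  -- the space which contains the images of the large part
  set L : Submodule ℝ W := (Q' x).range.map (D x).toLinearMap with hL
  have hLd : finrank ℝ L ≤ d := (Submodule.finrank_map_le _ _).trans (hrk x)
  have hR : 0 < R := hρ.trans_le hρR
  obtain ⟨s, hs1, hs2⟩ := net (L := L) (A := R * r) (δ := ρ * r) (mul_pos hρ hr)
    (mul_le_mul_of_nonneg_right hρR hr.le)
  have hcard : s.card ≤ K := by
    have h1 : (3 * (R * r) / (ρ * r)) = 3 * R / ρ := by
      field_simp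
    rw [h1] at hs1
    have h2 : (1 : ℝ) ≤ 3 * R / ρ := by
      rw [le_div_iff₀ hρ]
      linarith
    have h3 : (s.card : ℝ) ≤ K := (hs1.trans (pow_le_pow_right₀ h2 hLd)).trans hK
    exact_mod_cast h3
  obtain ⟨c', hc'⟩ : ∃ c' : Fin K → L, ∀ y ∈ s, ∃ i, c' i = y := by
    refine ⟨fun i => if hi : (i : ℕ) < s.card then (s.equivFin.symm ⟨i, hi⟩ : L) else 0,
      fun y hy => ?_⟩
    have hj := (s.equivFin ⟨y, hy⟩).2
    refine ⟨⟨(s.equivFin ⟨y, hy⟩ : ℕ), hj.trans_le hcard⟩, ?_⟩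
    show (if hi : ((s.equivFin ⟨y, hy⟩ : ℕ)) < s.card then
      ((s.equivFin.symm ⟨(s.equivFin ⟨y, hy⟩ : ℕ), hi⟩ : s) : L) else 0) = y
    rw [dif_pos hj]
    simp
  refine ⟨fun i => if hz : ∃ z, ‖E.e (h z) - E.e (h x) - (c' i : W)‖ ≤ 3 * (ρ * r) then
    h hz.choose else x, fun z hz => ?_⟩
  -- the image of `z`
  have hzr : dist z x < r₁ := by linarith
  have hv : ‖E.e z - E.e x‖ = dist z x := by rw [← dist_eq_norm, E.isom.dist_eq]
  have h1 : ‖E.e (h z) - E.e (h x) - D x (E.e z - E.e x)‖ ≤ ρ * r :=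
    (H x z hzr).trans (mul_le_mul_of_nonneg_left hz hρ.le)
  have h2 : D x (E.e z - E.e x) =
      D x (Q x (E.e z - E.e x)) + D x (Q' x (E.e z - E.e x)) := by
    have h3 : D x (E.e z - E.e x) = D x (E.P x (E.e z - E.e x)) := by
      conv_lhs => rw [← hD.right x]
      rfl
    rw [h3, ← hadd x, add_apply, map_add]
  have h3 : ‖D x (Q x (E.e z - E.e x))‖ ≤ ρ * r :=
    (hQ x _).trans (by rw [hv]; exact mul_le_mul_of_nonneg_left hz hρ.le)
  have h4 : ‖D x (Q' x (E.e z - E.e x))‖ ≤ R * r :=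
    (hQ' x _).trans (by rw [hv]; exact mul_le_mul_of_nonneg_left hz hR.le)
  have h5 : D x (Q' x (E.e z - E.e x)) ∈ L :=
    Submodule.mem_map_of_mem (LinearMap.mem_range_self _ _)
  obtain ⟨y, hys, hy⟩ := hs2 ⟨_, h5⟩ h4
  obtain ⟨i, rfl⟩ := hc' y hys
  have hy' : ‖D x (Q' x (E.e z - E.e x)) - (c' i : W)‖ ≤ ρ * r := hy.le
  have h6 : ‖E.e (h z) - E.e (h x) - (c' i : W)‖ ≤ 3 * (ρ * r) := by
    have e1 : E.e (h z) - E.e (h x) - (c' i : W) =
        (E.e (h z) - E.e (h x) - D x (E.e z - E.e x)) + D x (Q x (E.e z - E.e x)) +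
        (D x (Q' x (E.e z - E.e x)) - (c' i : W)) := by
      rw [h2]
      abel
    rw [e1]
    calc _ ≤ ‖(E.e (h z) - E.e (h x) - D x (E.e z - E.e x)) + D x (Q x (E.e z - E.e x))‖ +
          ‖D x (Q' x (E.e z - E.e x)) - (c' i : W)‖ := norm_add_le _ _
      _ ≤ (ρ * r + ρ * r) + ρ * r :=
          add_le_add ((norm_add_le _ _).trans (add_le_add h1 h3)) hy'
      _ = 3 * (ρ * r) := by ring
  refine ⟨i, ?_⟩
  have hex : ∃ z, ‖E.e (h z) - E.e (h x) - (c' i : W)‖ ≤ 3 * (ρ * r) := ⟨z, h6⟩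
  show dist (h z) (if hz : ∃ z, ‖E.e (h z) - E.e (h x) - (c' i : W)‖ ≤ 3 * (ρ * r) then
    h hz.choose else x) ≤ 8 * ρ * r
  rw [dif_pos hex, ← E.isom.dist_eq, dist_eq_norm]
  have h7 := hex.choose_spec
  have e2 : E.e (h z) - E.e (h hex.choose) = (E.e (h z) - E.e (h x) - (c' i : W)) -
      (E.e (h hex.choose) - E.e (h x) - (c' i : W)) := by abel
  rw [e2]
  have h8 := norm_sub_le (E.e (h z) - E.e (h x) - (c' i : W))
    (E.e (h hex.choose) - E.e (h x) - (c' i : W))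
  have h9 : 0 < ρ * r := mul_pos hρ hr
  linarith

end Pool.Agent.Lib.MP610fe3.HR
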