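import Pool.Agent.Lib.MP_610fe3_an.HR.VSpec
import Pool.Agent.Lib.MP_610fe3_an.HR.RNG

/-!
# CRK: the dimension of a coarse bundle is constant
-/

set_option autoImplicit false

open Set Filter Function Bundle
open scoped Topology Manifold ContDiff

namespace Pool.Agent.Lib.MP610fe3.HR

open Cf CH

universe u v w

namespace VCRKAux

/-- A field of commuting projections: identity or zero on each `F m x`. -/
theorem field {M : Type u} {W : Type v} [MetricSpace M] [CompactSpace M]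
    [NormedAddCommGroup W] [InnerProductSpace ℝ W] [FiniteDimensional ℝ W] {E : Emb M W} {k : ℕ}
    {J : Type w} [Finite J] {A : (Fin k → ℤ) → M ≃ₜ M} {χ : J → Fin k → ℝ}
    {F : J → M → Submodule ℝ W} (hR : SpecRegv.{w}) (hA : Act E A χ F) (hχ : ∀ j, χ j ≠ 0) (i : J)
    (t : Finset J) : ∃ Q : M → W →L[ℝ] W, Continuous Q ∧ (∀ x w, Q x w ∈ ⨆ j, F j x) ∧
      (∀ m, (∀ x, ∀ w ∈ F m x, Q x w = w) ∨ (∀ x, ∀ w ∈ F m x, Q x w = 0)) ∧
      (∀ m, (∃ c : ℝ, 0 < c ∧ χ m = c • χ i) → ∀ x, ∀ w ∈ F m x, Q x w = w) ∧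
      (∀ m ∈ t, (¬ ∃ c : ℝ, 0 < c ∧ χ m = c • χ i) → ∀ x, ∀ w ∈ F m x, Q x w = 0) := by
  classical
  -- one element
  have key : ∀ b : Fin k → ℝ, b ≠ 0 → (¬ ∃ c : ℝ, 0 < c ∧ b = c • χ i) →
      ∃ (n : Fin k → ℤ) (S : M → W →L[ℝ] W), Regular χ n ∧ ev (χ i) n < 0 ∧ 0 < ev b n ∧
        Continuous S ∧ (∀ x w, S x w ∈ ⨆ j, F j x) ∧
        (∀ m, ev (χ m) n < 0 → ∀ x, ∀ w ∈ F m x, S x w = w) ∧
        (∀ m, 0 < ev (χ m) n → ∀ x, ∀ w ∈ F m x, S x w = 0) := by
    intro b hb hbc
    obtain ⟨n, hn, h1, h2⟩ := hR k J χ (χ i) b hχ (hχ i) hb hbc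
    obtain ⟨s, hs, -, hS, hU⟩ := hA.split n hn
    refine ⟨n, s.S, hn, h1, h2, s.contS hs, fun x w => ?_, fun m hm x w hw => ?_,
      fun m hm x w hw => ?_⟩
    · have h3 : s.S x w ∈ (s.S x).range := ⟨w, rfl⟩
      rw [hS x] at h3
      exact (iSup_mono fun j => iSup_le fun _ => le_rfl : _ ≤ ⨆ j, F j x) h3
    · have h3 : w ∈ (s.S x).range := by
        rw [hS x]
        exact (le_iSup₂ (f := fun (j : J) (_ : ev (χ j) n < 0) => F j x) m hm) hw
      obtain ⟨w', rfl⟩ := h3
      exact s.SS_apply x w'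
    · have h3 : w ∈ (s.U x).range := by
        rw [hU x]
        exact (le_iSup₂ (f := fun (j : J) (_ : 0 < ev (χ j) n) => F j x) m hm) hw
      obtain ⟨w', rfl⟩ := h3
      exact congrArg (fun L : W →L[ℝ] W => L w') (s.SU x)
  have hpos : ∀ (n : Fin k → ℤ), ev (χ i) n < 0 → ∀ m, (∃ c : ℝ, 0 < c ∧ χ m = c • χ i) →
      ev (χ m) n < 0 := by
    rintro n hn m ⟨c, hc, h⟩
    rw [h, RNGAux.ev_smul_left]
    exact mul_neg_of_pos_of_neg hc hn
  induction t using Finset.induction_on with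
  | empty =>
    obtain ⟨n, S, hn, h1, h2, h3, h4, h5, h6⟩ := key (-χ i) (neg_ne_zero.2 (hχ i)) (by
      rintro ⟨c, hc, h⟩
      have h7 : (c + 1) • χ i = 0 := by
        rw [add_smul, one_smul, ← h, neg_add_cancel]
      rcases smul_eq_zero.1 h7 with h8 | h8
      · linarith
      · exact hχ i h8)
    refine ⟨S, h3, h4, fun m => ?_, fun m hm => h5 m (hpos n h1 m hm), by simp⟩
    rcases lt_or_gt_of_ne (hn m) with h7 | h7
    · exact Or.inl (h5 m h7)
    · exact Or.inr (h6 m h7)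
  | insert l t hl ih =>
    obtain ⟨Q, g1, g2, g3, g4, g5⟩ := ih
    by_cases hli : ∃ c : ℝ, 0 < c ∧ χ l = c • χ i
    · refine ⟨Q, g1, g2, g3, g4, fun m hm hmi => ?_⟩
      rcases Finset.mem_insert.1 hm with h | h
      · rw [h] at hmi
        exact absurd hli hmi
      · exact g5 m h hmi
    · obtain ⟨n, S, hn, h1, h2, h3, h4, h5, h6⟩ := key (χ l) (hχ l) hli
      refine ⟨fun x => S x ∘L Q x, h3.clm_comp g1, fun x w => h4 x _, fun m => ?_,
        fun m hm x w hw => ?_, fun m hm hmi x w hw => ?_⟩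
      · rcases g3 m with h7 | h7
        · rcases lt_or_gt_of_ne (hn m) with h8 | h8
          · refine Or.inl fun x w hw => ?_
            show S x (Q x w) = w
            rw [h7 x w hw, h5 m h8 x w hw]
          · refine Or.inr fun x w hw => ?_
            show S x (Q x w) = 0
            rw [h7 x w hw, h6 m h8 x w hw]
        · refine Or.inr fun x w hw => ?_
          show S x (Q x w) = 0
          rw [h7 x w hw, map_zero]
      · show S x (Q x w) = w
        rw [g4 m hm x w hw, h5 m (hpos n h1 m hm) x w hw]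
      · show S x (Q x w) = 0
        rcases Finset.mem_insert.1 hm with h | h
        · rw [h] at hw
          rcases g3 l with h7 | h7
          · rw [h7 x w hw, h6 l h2 x w hw]
          · rw [h7 x w hw, map_zero]
        · rw [g5 m h hmi x w hw, map_zero]

end VCRKAux

open VCRKAux

/-- **CRK**: the dimension of a coarse bundle is constant. -/
theorem specCrk (hR : SpecRegv.{w}) : SpecCrk.{u, v, w} := by
  intro M W _ _ _ _ _ _ E k J _ A χ F hA hχ i
  cases nonempty_fintype J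
  obtain ⟨Q, g1, g2, -, g4, g5⟩ := field hR hA hχ i Finset.univ
  have hco : ∀ x, ∀ v ∈ ⨆ j, F j x, Q x v ∈ coarse χ F i x := by
    intro x v hv
    have h1 : (⨆ j, F j x) ≤ (coarse χ F i x).comap (Q x).toLinearMap := by
      refine iSup_le fun m w hw => ?_
      show Q x w ∈ coarse χ F i x
      by_cases hm : ∃ c : ℝ, 0 < c ∧ χ m = c • χ i
      · rw [g4 m hm x w hw]
        exact (le_iSup₂ (f := fun (j : J) (_ : ∃ c : ℝ, 0 < c ∧ χ j = c • χ i) => F j x) m hm) hw
      · rw [g5 m (Finset.mem_univ m) hm x w hw]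
        exact zero_mem _
    exact h1 hv
  have hid : ∀ x, ∀ v ∈ coarse χ F i x, Q x v = v := by
    intro x v hv
    have h1 : coarse χ F i x ≤ LinearMap.eqLocus (Q x).toLinearMap LinearMap.id := by
      refine iSup₂_le fun m hm w hw => ?_
      show Q x w = w
      exact g4 m hm x w hw
    exact h1 hv
  have hp : ∀ x, LinearMap.IsProj (coarse χ F i x) (Q x ∘L Q x).toLinearMap := fun x => by
    refine ⟨fun w => hco x _ (g2 x w), fun w hw => ?_⟩
    show Q x (Q x w) = w
    rw [hid x w hw, hid x w hw]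
  have htr : ∀ x, LinearMap.trace ℝ W (Q x ∘L Q x).toLinearMap =
      (Module.finrank ℝ (coarse χ F i x) : ℝ) := fun x => (hp x).trace
  have hc : Continuous fun x => LinearMap.trace ℝ W (Q x ∘L Q x).toLinearMap := by
    have h1 : Continuous ((LinearMap.trace ℝ W) ∘ₗ
        (ContinuousLinearMap.coeLM ℝ : (W →L[ℝ] W) →ₗ[ℝ] W →ₗ[ℝ] W)) :=
      LinearMap.continuous_of_finiteDimensional _
    exact h1.comp (g1.clm_comp g1)
  simp only [htr] at hc
  have hc' : Continuous fun x => Module.finrank ℝ (coarse χ F i x) :=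
    (Nat.isClosedEmbedding_coe_real.isInducing.continuous_iff).2 hc
  obtain ⟨x₀⟩ : Nonempty M := inferInstance
  exact ⟨Module.finrank ℝ (coarse χ F i x₀), fun x =>
    PreconnectedSpace.constant inferInstance hc'⟩

end Pool.Agent.Lib.MP610fe3.HR
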