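import Pool.Agent.Lib.MP_610fe3_an.HR.VSpec

/-!
# Module IND: different coarse spaces are independent (hive VOL)
-/

set_option autoImplicit false

open Set Filter Function
open scoped Topology

namespace Pool.Agent.Lib.MP610fe3.HR

open Cf CH

universe u v w

namespace VINDAux

variable {k : ℕ} {J : Type*} {T : Type*} [AddCommGroup T] [Module ℝ T]

theorem ev_smul_left (t : ℝ) (c : Fin k → ℝ) (v : Fin k → ℤ) : ev (t • c) v = t * ev c v := by
  simp only [ev, Finset.mul_sum, Pi.smul_apply, smul_eq_mul, mul_assoc]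

theorem co_le_neg (χ : J → Fin k → ℝ) (F : J → Submodule ℝ T) {i : J} {n : Fin k → ℤ}
    (h : ev (χ i) n < 0) : co χ F i ≤ ⨆ (j) (_ : ev (χ j) n < 0), F j := by
  refine iSup₂_le fun l hl => ?_
  obtain ⟨c, hc, hl⟩ := hl
  refine le_iSup₂_of_le l ?_ le_rfl
  rw [hl, ev_smul_left]
  exact mul_neg_of_pos_of_neg hc h

theorem co_le_pos (χ : J → Fin k → ℝ) (F : J → Submodule ℝ T) {i : J} {n : Fin k → ℤ}
    (h : 0 < ev (χ i) n) : co χ F i ≤ ⨆ (j) (_ : 0 < ev (χ j) n), F j := by
  refine iSup₂_le fun l hl => ?_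
  obtain ⟨c, hc, hl⟩ := hl
  refine le_iSup₂_of_le l ?_ le_rfl
  rw [hl, ev_smul_left]
  exact mul_pos hc h

theorem key [Finite J] {χ : J → Fin k → ℝ} {F : J → Submodule ℝ T}
    (hR : ∀ a b : J, (¬ ∃ c : ℝ, 0 < c ∧ χ b = c • χ a) →
      ∃ n : Fin k → ℤ, Regular χ n ∧ ev (χ a) n < 0 ∧ 0 < ev (χ b) n)
    (hC : ∀ n : Fin k → ℤ, Regular χ n →
      IsCompl (⨆ (j) (_ : ev (χ j) n < 0), F j) (⨆ (j) (_ : 0 < ev (χ j) n), F j)) (i : J)
    (s : Finset J) : (∀ a ∈ s, ¬ ∃ c : ℝ, 0 < c ∧ χ a = c • χ i) →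
      ∀ v ∈ co χ F i, v ∈ (⨆ a ∈ s, co χ F a) → v = 0 := by
  classical
  induction s using Finset.induction_on with
  | empty =>
    intro _ v _ hv
    simpa using hv
  | insert a s ha ih =>
    intro hs v hv hv'
    rw [Finset.iSup_insert, Submodule.mem_sup] at hv'
    obtain ⟨y, hy, z, hz, rfl⟩ := hv'
    obtain ⟨n, hn, hn1, hn2⟩ := hR i a (hs a (Finset.mem_insert_self _ _))
    have hc := hC n hn
    set p := Submodule.projection _ _ hc with hp
    have h1 : p (y + z) = y + z :=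
      Submodule.projection_apply_of_mem_left hc (co_le_neg χ F hn1 hv)
    have h2 : p y = 0 := (Submodule.projection_apply_eq_zero_iff hc).2 (co_le_pos χ F hn2 hy)
    have h3 : ∀ l, (co χ F l).map p ≤ co χ F l := by
      intro l
      rintro _ ⟨w, hw, rfl⟩
      rcases lt_or_gt_of_ne (hn l) with h | h
      · have := Submodule.projection_apply_of_mem_left hc (co_le_neg χ F h hw)
        change p w ∈ _
        rw [this]
        exact hw
      · have := (Submodule.projection_apply_eq_zero_iff hc).2 (co_le_pos χ F h hw)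
        change p w ∈ _
        rw [this]
        exact zero_mem _
    have h4 : p z ∈ ⨆ a ∈ s, co χ F a := by
      have h5 : (⨆ a ∈ s, co χ F a).map p ≤ ⨆ a ∈ s, co χ F a := by
        simp only [Submodule.map_iSup]
        exact iSup₂_mono fun l _ => h3 l
      exact h5 ⟨z, hz, rfl⟩
    rw [map_add, h2, zero_add] at h1
    rw [← h1] at hv ⊢
    exact ih (fun b hb => hs b (Finset.mem_insert_of_mem hb)) _ hv h4

end VINDAux

open VINDAux

theorem specInd (hRegv : SpecRegv.{w}) : SpecInd.{v, w} := by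
  intro k J _ T _ _ _ χ F hχ hC s
  classical
  have hR : ∀ a b : J, (¬ ∃ c : ℝ, 0 < c ∧ χ b = c • χ a) →
      ∃ n : Fin k → ℤ, Regular χ n ∧ ev (χ a) n < 0 ∧ 0 < ev (χ b) n := fun a b h =>
    hRegv k J χ (χ a) (χ b) hχ (hχ a) (hχ b) h
  suffices H : ∀ s : Finset J, (∀ i ∈ s, ∀ l ∈ s, i ≠ l → ¬ ∃ c : ℝ, 0 < c ∧ χ l = c • χ i) →
      ∑ i ∈ s, Module.finrank ℝ (co χ F i) ≤
        Module.finrank ℝ (⨆ a ∈ s, co χ F a : Submodule ℝ T) by
    intro hs
    exact (H s hs).trans (Submodule.finrank_le _)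
  intro s
  induction s using Finset.induction_on with
  | empty => intro _; simp
  | insert a s ha ih =>
    intro hs
    have h1 := ih fun i hi l hl => hs i (Finset.mem_insert_of_mem hi) l
      (Finset.mem_insert_of_mem hl)
    have h2 : Disjoint (co χ F a) (⨆ b ∈ s, co χ F b) := by
      rw [Submodule.disjoint_def]
      exact key hR hC a s fun b hb => hs a (Finset.mem_insert_self _ _) b
        (Finset.mem_insert_of_mem hb) fun h => ha (h ▸ hb)
    rw [Finset.sum_insert ha, Finset.iSup_insert]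
    have h3 := Submodule.finrank_sup_add_finrank_inf_eq (co χ F a) (⨆ b ∈ s, co χ F b)
    rw [disjoint_iff.1 h2, finrank_bot] at h3
    omega

end Pool.Agent.Lib.MP610fe3.HR
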