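import Pool.Agent.Lib.MP_610fe3_an.HR.VSpec
import Pool.Agent.Lib.MP_610fe3_an.Gen.Chart

/-!
# Module LOW (hive VOL): a lower bound for the number of balls which cover a manifold
-/

set_option autoImplicit false

open Set Filter Function Bundle MeasureTheory
open scoped Topology Manifold ContDiff ENNReal

namespace Pool.Agent.Lib.MP610fe3.HR

open Cf CH

universe u v

namespace VLOWAux

/-- The inverse of a chart is antilipschitz on a ball. -/
theorem exists_anti {V : Type v} [NormedAddCommGroup V] [NormedSpace ℝ V]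
    [FiniteDimensional ℝ V] {N : ℕ} {M : Type u} [MetricSpace M] [ChartedSpace V M]
    [IsManifold 𝓘(ℝ, V) ∞ M] {e : M → EuclideanSpace ℝ (Fin N)} (hi : Isometry e)
    (he : ContMDiff 𝓘(ℝ, V) (𝓡 N) ∞ e)
    (hinj : ∀ x, Injective (mfderiv 𝓘(ℝ, V) (𝓡 N) e x)) (x0 : M) :
    ∃ (g : V → M) (y0 : V) (ρ C : ℝ), 0 < ρ ∧ 0 < C ∧
      ∀ y ∈ Metric.closedBall y0 ρ, ∀ z ∈ Metric.closedBall y0 ρ,
        dist y z ≤ C * dist (g y) (g z) := by
  have he1 : ContMDiff 𝓘(ℝ, V) (𝓡 N) 1 e := he.of_le (by exact_mod_cast le_top)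
  have hx : x0 ∈ (extChartAt 𝓘(ℝ, V) x0).source := mem_extChartAt_source x0
  have hc := Gen.contDiffAt_loc he1 x0 x0 hx
  have hL := Gen.fderiv_loc_inj he1 hinj x0 x0 hx
  have hs := hc.hasStrictFDerivAt (by norm_num)
  obtain ⟨L, hLe⟩ : ∃ L : V →L[ℝ] EuclideanSpace ℝ (Fin N),
      L = fderiv ℝ (Gen.loc e x0) (extChartAt 𝓘(ℝ, V) x0 x0) := ⟨_, rfl⟩
  rw [← hLe] at hL hs
  obtain ⟨K, hK, hLK⟩ := LinearMap.exists_antilipschitzWith
    (L : V →ₗ[ℝ] EuclideanSpace ℝ (Fin N)) (LinearMap.ker_eq_bot.2 hL)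
  have hK' : (0 : ℝ) < K := hK
  have hlow : ∀ v : V, ‖v‖ ≤ K * ‖L v‖ := fun v => by
    have := hLK.le_mul_dist v 0
    simpa [dist_eq_norm] using this
  have hη : (0 : ℝ) < 1 / (2 * K) := by positivity
  obtain ⟨U, hU, hUa⟩ := hs.approximates_deriv_on_nhds (c := ⟨1 / (2 * K), hη.le⟩)
    (Or.inr (by exact_mod_cast hη))
  obtain ⟨ρ, hρ, hρU⟩ := Metric.nhds_basis_closedBall.mem_iff.1 hU
  refine ⟨(extChartAt 𝓘(ℝ, V) x0).symm, extChartAt 𝓘(ℝ, V) x0 x0, ρ, 2 * K, hρ, by positivity,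
    fun y hy z hz => ?_⟩
  have h1 := hUa y (hρU hy) z (hρU hz)
  have h2 : ‖L (y - z)‖ ≤ ‖Gen.loc e x0 y - Gen.loc e x0 z‖ + 1 / (2 * K) * ‖y - z‖ := by
    have h3 : L (y - z) = (Gen.loc e x0 y - Gen.loc e x0 z) -
        (Gen.loc e x0 y - Gen.loc e x0 z - L (y - z)) := by abel
    rw [h3]
    refine (norm_sub_le _ _).trans ?_
    gcongr
    exact h1
  have h3 := hlow (y - z)
  have h4 : K * (1 / (2 * K) * ‖y - z‖) = ‖y - z‖ / 2 := by
    field_simp
  have h5 : (K : ℝ) * ‖L (y - z)‖ ≤ K * ‖Gen.loc e x0 y - Gen.loc e x0 z‖ + ‖y - z‖ / 2 := by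
    rw [← h4, ← mul_add]
    exact mul_le_mul_of_nonneg_left h2 hK'.le
  have h6 : ‖Gen.loc e x0 y - Gen.loc e x0 z‖ =
      dist ((extChartAt 𝓘(ℝ, V) x0).symm y) ((extChartAt 𝓘(ℝ, V) x0).symm z) := by
    rw [← dist_eq_norm]
    exact hi.dist_eq _ _
  rw [dist_eq_norm, ← h6]
  linarith

end VLOWAux

open VLOWAux

theorem specLow : SpecLow.{u, v} := by
  intro V _ _ _ N M _ _ _ _ _ e hi he hinj
  obtain ⟨x0⟩ := ‹Nonempty M›
  obtain ⟨g, y0, ρ, C, hρ, hC, hg⟩ := exists_anti hi he hinj x0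
  letI : MeasurableSpace V := borel V
  haveI : BorelSpace V := ⟨rfl⟩
  obtain ⟨μ, hμ⟩ : ∃ μ : Measure V, μ = Measure.addHaar := ⟨_, rfl⟩
  haveI : μ.IsAddHaarMeasure := by rw [hμ]; infer_instance
  obtain ⟨d, hd⟩ : ∃ d : ℕ, d = Module.finrank ℝ V := ⟨_, rfl⟩
  rw [← hd]
  have hb : 0 < (μ (Metric.ball (0 : V) 1)).toReal :=
    ENNReal.toReal_pos (Metric.measure_ball_pos μ 0 one_pos).ne' measure_ball_lt_top.ne
  refine ⟨ρ ^ d / (2 * C) ^ d, by positivity, fun r hr hr1 s hs => ?_⟩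
  classical
  -- one ball of `V` for each point of `s`
  have hcov : ∀ x : M, ∃ w : V, ∀ y ∈ Metric.closedBall y0 ρ, dist (g y) x ≤ r →
      y ∈ Metric.closedBall w (2 * C * r) := by
    intro x
    by_cases h : ∃ w ∈ Metric.closedBall y0 ρ, dist (g w) x ≤ r
    · obtain ⟨w, hw, hwx⟩ := h
      refine ⟨w, fun y hy hyx => ?_⟩
      rw [Metric.mem_closedBall]
      refine (hg y hy w hw).trans ?_
      have h1 : dist (g y) (g w) ≤ 2 * r := by
        have := dist_triangle_right (g y) (g w) x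
        linarith
      calc C * dist (g y) (g w) ≤ C * (2 * r) := mul_le_mul_of_nonneg_left h1 hC.le
        _ = 2 * C * r := by ring
    · refine ⟨0, fun y hy hyx => ?_⟩
      exact absurd ⟨y, hy, hyx⟩ h
  choose w hw using hcov
  have hsub : Metric.closedBall y0 ρ ⊆ ⋃ x ∈ s, Metric.closedBall (w x) (2 * C * r) := by
    intro y hy
    obtain ⟨x, hx, hxr⟩ := hs (g y)
    exact mem_iUnion₂.2 ⟨x, hx, hw x y hy hxr⟩
  have h1 : μ (Metric.closedBall y0 ρ) ≤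
      ∑ x ∈ s, μ (Metric.closedBall (w x) (2 * C * r)) :=
    (measure_mono hsub).trans (measure_biUnion_finset_le s _)
  have h2 : ∀ (y : V) (t : ℝ), 0 ≤ t → μ (Metric.closedBall y t) =
      ENNReal.ofReal (t ^ d * (μ (Metric.ball (0 : V) 1)).toReal) := by
    intro y t ht
    rw [Measure.addHaar_closedBall μ y ht, ← hd, ENNReal.ofReal_mul (by positivity),
      ENNReal.ofReal_toReal measure_ball_lt_top.ne]
  rw [h2 y0 ρ hρ.le] at h1
  have h3 : ∑ x ∈ s, μ (Metric.closedBall (w x) (2 * C * r)) =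
      ENNReal.ofReal (s.card * ((2 * C * r) ^ d * (μ (Metric.ball (0 : V) 1)).toReal)) := by
    rw [Finset.sum_congr rfl (fun x _ => h2 (w x) (2 * C * r) (by positivity)),
      Finset.sum_const, nsmul_eq_mul, ENNReal.ofReal_mul (Nat.cast_nonneg s.card),
      ENNReal.ofReal_natCast]
  rw [h3, ENNReal.ofReal_le_ofReal_iff (by positivity), ← mul_assoc] at h1
  have h4 := le_of_mul_le_mul_right h1 hb
  rw [div_le_iff₀ (by positivity)]
  calc ρ ^ d ≤ s.card * (2 * C * r) ^ d := h4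
    _ = s.card * r ^ d * (2 * C) ^ d := by rw [mul_pow (2 * C) r d]; ring

end Pool.Agent.Lib.MP610fe3.HR
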