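import Pool.Agent.Lib.MP_610fe3_an.HR.VSpec
import Pool.Agent.Lib.MP_610fe3_an.HR.RNG

/-!
# Module NOV: volume excludes a wall on which all other functionals are negative
-/

set_option autoImplicit false

open Set Filter Function
open scoped Topology

namespace Pool.Agent.Lib.MP610fe3.HR

open Cf CH

universe u v w

namespace VNOVAux

variable {M : Type u} {W : Type v} [MetricSpace M] [CompactSpace M] [NormedAddCommGroup W]
  [InnerProductSpace ℝ W] [FiniteDimensional ℝ W] {E : Emb M W} {f g : M ≃ₜ M}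

theorem pp_pp (s : Split E f) (t : Split E g) (hs : s.Hyperbolic) (ht : t.Hyperbolic)
    (hc : ∀ x, f (g x) = g (f x)) (x : M) (w : W) :
    PP s t x (PP s t x w) = PP s t x w := by
  have hcomm : ∀ w, s.S x (t.S x w) = t.S x (s.S x w) := fun w =>
    congrArg (fun L : W →L[ℝ] W => L w) (SS_commute s t hs ht hc x)
  change s.S x (t.S x (s.S x (t.S x w))) = s.S x (t.S x w)
  rw [← hcomm (t.S x w)]
  have h1 : t.S x (t.S x w) = t.S x w := congrArg (fun L : W →L[ℝ] W => L w) (t.SS x)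
  have h2 : s.S x (s.S x (t.S x w)) = s.S x (t.S x w) :=
    congrArg (fun L : W →L[ℝ] W => L (t.S x w)) (s.SS x)
  rw [h1, h2]

theorem pp_norm (s : Split E f) (t : Split E g) {K K' : ℝ} (hK0 : 0 ≤ K)
    (hK : ∀ x, ‖s.S x‖ ≤ K) (hK' : ∀ x, ‖t.S x‖ ≤ K') (x : M) (w : W) :
    ‖PP s t x w‖ ≤ K * K' * ‖w‖ := by
  change ‖s.S x (t.S x w)‖ ≤ K * K' * ‖w‖
  calc ‖s.S x (t.S x w)‖ ≤ ‖s.S x‖ * ‖t.S x w‖ := (s.S x).le_opNorm _
    _ ≤ K * (K' * ‖w‖) := by
        refine mul_le_mul (hK x) ?_ (norm_nonneg _) hK0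
        exact ((t.S x).le_opNorm w).trans
          (mul_le_mul_of_nonneg_right (hK' x) (norm_nonneg _))
    _ = K * K' * ‖w‖ := by ring

end VNOVAux

open VNOVAux

theorem specNov (hV : SpecVrt.{u, v, w}) (hC : SpecCov.{u, v}) (hB : SpecBox.{u})
    (hR : SpecRng.{u, v, w}) : SpecNov.{u, v, w} := by
  intro M W _ _ _ _ _ _ E k J _ A χ F d hA hLow n n' i j hW hneg hdim
  obtain ⟨s, hs, -, hsS, hsU⟩ := hA.split n hW.reg
  obtain ⟨t, ht, -, htS, htU⟩ := hA.split n' hW.reg'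
  have hcomm : ∀ x, A n (A n' x) = A n' (A n x) := by
    intro x
    rw [← hA.add, ← hA.add, add_comm]
  have hcomm1 : ∀ x, A n ((A n').symm x) = (A n').symm (A n x) := by
    intro x
    rw [Homeomorph.eq_symm_apply, ← hcomm, Homeomorph.apply_symm_apply]
  have hcomm2 : ∀ x, (A n).symm (A n' x) = A n' ((A n).symm x) := by
    intro x
    rw [Homeomorph.symm_apply_eq, hcomm, Homeomorph.apply_symm_apply]
  have hrng := hR M W E k J χ F (A n) (A n') s t n n' hs ht hcomm hW.reg hW.reg'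
    hsS hsU htS htU i j hW
  obtain ⟨K, hK1, hK⟩ := s.exists_bdd
  obtain ⟨K', hK1', hK'⟩ := t.exists_bdd
  have hK0 : 0 ≤ K := by linarith
  obtain ⟨C, hCe⟩ : ∃ C, C = K * K' := ⟨_, rfl⟩
  have hC1 : 1 ≤ C := by rw [hCe]; nlinarith
  have hC0 : 0 < C := by linarith
  have hpw1 : (1 : ℝ) ≤ (48 * C) ^ d := one_le_pow₀ (by linarith)
  have hκ : (0 : ℝ) < 1 / (32 * (48 * C) ^ d * C) := by positivity
  obtain ⟨N, D, R, ρ, hD, hR1, hρ0, hρ1, hRρ, h1, h2, h3⟩ :=
    hV M W E k J A χ F hA n n' i j hW s t hs ht hsS hsU htS htU d _ hκ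
  have hR0 : 0 < R := by linarith
  -- the products of the unstable projections vanish
  have hUU : ∀ x w, s.U x (t.U x w) = 0 := by
    intro x w
    have hr : (s.U x ∘L t.U x).range = ⨆ (l) (_ : False), F l x := by
      refine RNGAux.range_comp_eq (s.U x) (s.S x) (t.U x) (s.UU x) (s.US x) (fun l => F l x)
        (fun l => 0 < ev (χ l) n) (fun l => ev (χ l) n < 0) (fun l => 0 < ev (χ l) n')
        (fun _ => False) (fun l => (lt_or_gt_of_ne (hW.reg l)).symm) ?_ ?_ (htU x) ?_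
      · intro l hl
        rw [hsU x]
        exact le_iSup₂_of_le l hl le_rfl
      · intro l hl
        rw [hsS x]
        exact le_iSup₂_of_le l hl le_rfl
      · intro l
        constructor
        · exact fun h => h.elim
        · rintro ⟨ha, hb⟩
          rcases hneg l with h | h
          · exact lt_asymm ha h
          · exact lt_asymm hb h
    have hb : (⨆ (l) (_ : False), F l x : Submodule ℝ W) = ⊥ := by simp
    rw [hb] at hr
    have hm : s.U x (t.U x w) ∈ (s.U x ∘L t.U x).range := ⟨w, rfl⟩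
    rw [hr] at hm
    exact (Submodule.mem_bot ℝ).1 hm
  have hadd : ∀ x, PP s t x + (PP s t.swap x + PP s.swap t x) = E.P x := by
    intro x
    ext w
    change s.S x (t.S x w) + (s.S x (t.U x w) + s.U x (t.S x w)) = E.P x w
    have e1 : t.S x w + t.U x w = E.P x w := congrArg (fun L : W →L[ℝ] W => L w) (t.add x)
    have e2 : s.S x (E.P x w) = s.S x w := congrArg (fun L : W →L[ℝ] W => L w) (s.SP x)
    have e3 : s.U x (E.P x w) = s.U x w := congrArg (fun L : W →L[ℝ] W => L w) (s.UP x)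
    have e4 : s.S x w + s.U x w = E.P x w := congrArg (fun L : W →L[ℝ] W => L w) (s.add x)
    have e5 : s.S x (t.S x w) + s.S x (t.U x w) = s.S x w := by
      rw [← map_add, e1, e2]
    have e6 : s.U x (t.S x w) = s.U x w := by
      have h4 : s.U x (t.S x w) + s.U x (t.U x w) = s.U x w := by
        rw [← map_add, e1, e3]
      rw [hUU, add_zero] at h4
      exact h4
    rw [e6, ← add_assoc, e5, e4]
  have hQ : ∀ x w, ‖D x (PP s t x w)‖ ≤ C * ρ * ‖w‖ := by
    intro x w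
    have h4 := h1 x _ (pp_pp s t hs ht hcomm x w)
    have h5 := pp_norm s t hK0 (fun x => (hK x).1) (fun x => (hK' x).1) x w
    rw [← hCe] at h5
    calc _ ≤ ρ * ‖PP s t x w‖ := h4
      _ ≤ ρ * (C * ‖w‖) := mul_le_mul_of_nonneg_left h5 hρ0.le
      _ = _ := by ring
  have hQ' : ∀ x w, ‖D x ((PP s t.swap x + PP s.swap t x) w)‖ ≤ 2 * C * R * ‖w‖ := by
    intro x w
    have h4 := h2 x _ (pp_pp s t.swap hs ht.swap hcomm1 x w)
    have h5 := pp_norm s t.swap hK0 (fun x => (hK x).1) (fun x => (hK' x).2) x w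
    have h6 := h3 x _ (pp_pp s.swap t hs.swap ht hcomm2 x w)
    have h7 := pp_norm s.swap t hK0 (fun x => (hK x).2) (fun x => (hK' x).1) x w
    rw [← hCe] at h5 h7
    have h8 : D x ((PP s t.swap x + PP s.swap t x) w) =
        D x (PP s t.swap x w) + D x (PP s.swap t x w) := by
      rw [ContinuousLinearMap.add_apply, map_add]
    rw [h8]
    have h9 : R * ‖PP s t.swap x w‖ ≤ R * (C * ‖w‖) := mul_le_mul_of_nonneg_left h5 hR0.le
    have h10 : R * ‖PP s.swap t x w‖ ≤ R * (C * ‖w‖) := mul_le_mul_of_nonneg_left h7 hR0.le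
    calc _ ≤ ‖D x (PP s t.swap x w)‖ + ‖D x (PP s.swap t x w)‖ := norm_add_le _ _
      _ ≤ R * (C * ‖w‖) + R * (C * ‖w‖) := add_le_add (h4.trans h9) (h6.trans h10)
      _ = _ := by ring
  have hrank : ∀ x, Module.finrank ℝ (PP s t.swap x + PP s.swap t x).range ≤ d := by
    intro x
    have hle : (PP s t.swap x + PP s.swap t x).range ≤
        (PP s t.swap x).range ⊔ (PP s.swap t x).range := by
      rintro _ ⟨w, rfl⟩
      exact Submodule.add_mem_sup ⟨w, rfl⟩ ⟨w, rfl⟩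
    refine (Submodule.finrank_mono hle).trans
      ((Submodule.finrank_add_le_finrank_add_finrank _ _).trans ?_)
    rw [hrng.1 x, hrng.2 x]
    exact hdim x
  have hρR : C * ρ ≤ 2 * C * R := by
    have : C * ρ ≤ C * R := mul_le_mul_of_nonneg_left (by linarith) hC0.le
    nlinarith
  have hcov := hC M W E (A N) D (PP s t) (fun x => PP s t.swap x + PP s.swap t x) (2 * C * R)
    (C * ρ) d hD (by positivity) hρR hadd hQ hQ' hrank
    ⌈(3 * (2 * C * R) / (C * ρ)) ^ d⌉₊ (Nat.le_ceil _)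
  have hRd : 1 ≤ R ^ d := one_le_pow₀ hR1
  have hρκ : ρ ≤ 1 / (32 * (48 * C) ^ d * C) := by
    refine le_trans ?_ hRρ
    nlinarith
  have hθ : 8 * (C * ρ) < 1 := by
    have h4 : C * ρ ≤ C * (1 / (32 * (48 * C) ^ d * C)) := mul_le_mul_of_nonneg_left hρκ hC0.le
    have h5 : C * (1 / (32 * (48 * C) ^ d * C)) = 1 / (32 * (48 * C) ^ d) := by
      field_simp
    have h6 : 1 / (32 * (48 * C) ^ d) ≤ 1 / 32 := by
      apply one_div_le_one_div_of_le (by norm_num)
      linarith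
    linarith
  have hbox := hB M (A N) _ (d + 1) _ (by positivity) hθ hcov hLow
  have hx1 : 1 ≤ 3 * (2 * C * R) / (C * ρ) := by
    rw [le_div_iff₀ (by positivity)]
    nlinarith
  have hx : (1 : ℝ) ≤ (3 * (2 * C * R) / (C * ρ)) ^ d := one_le_pow₀ hx1
  have hceil : ((⌈(3 * (2 * C * R) / (C * ρ)) ^ d⌉₊ : ℕ) : ℝ) ≤
      2 * (3 * (2 * C * R) / (C * ρ)) ^ d := by
    have := Nat.ceil_lt_add_one (show (0 : ℝ) ≤ (3 * (2 * C * R) / (C * ρ)) ^ d by positivity)
    linarith
  have hfin : ((⌈(3 * (2 * C * R) / (C * ρ)) ^ d⌉₊ : ℕ) : ℝ) * (8 * (C * ρ)) ^ (d + 1) ≤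
      2 * (3 * (2 * C * R) / (C * ρ)) ^ d * (8 * (C * ρ)) ^ (d + 1) :=
    mul_le_mul_of_nonneg_right hceil (by positivity)
  have he : 2 * (3 * (2 * C * R) / (C * ρ)) ^ d * (8 * (C * ρ)) ^ (d + 1) =
      16 * C * (48 * C) ^ d * (R ^ d * ρ) := by
    have h4 : (3 * (2 * C * R) / (C * ρ)) ^ d * (8 * (C * ρ)) ^ d = (48 * C * R) ^ d := by
      rw [← mul_pow]
      congr 1
      field_simp
      ring
    calc _ = 2 * ((3 * (2 * C * R) / (C * ρ)) ^ d * (8 * (C * ρ)) ^ d) * (8 * (C * ρ)) := by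
          rw [pow_succ]; ring
      _ = _ := by rw [h4, mul_pow]; ring
  have hlast : 16 * C * (48 * C) ^ d * (R ^ d * ρ) ≤ 1 / 2 := by
    calc _ ≤ 16 * C * (48 * C) ^ d * (1 / (32 * (48 * C) ^ d * C)) :=
          mul_le_mul_of_nonneg_left hRρ (by positivity)
      _ = 1 / 2 := by
          field_simp
          norm_num
  linarith

end Pool.Agent.Lib.MP610fe3.HR
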