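import Pool.Agent.Lib.MP_610fe3_an.HR.F2Main
import Pool.Agent.Lib.MP_610fe3_an.HR.VBOX
import Pool.Agent.Lib.MP_610fe3_an.HR.VCOV
import Pool.Agent.Lib.MP_610fe3_an.HR.VCRK
import Pool.Agent.Lib.MP_610fe3_an.HR.VDIM
import Pool.Agent.Lib.MP_610fe3_an.HR.VIND
import Pool.Agent.Lib.MP_610fe3_an.HR.VLOW
import Pool.Agent.Lib.MP_610fe3_an.HR.VNOV
import Pool.Agent.Lib.MP_610fe3_an.HR.VREGV
import Pool.Agent.Lib.MP_610fe3_an.HR.VVRT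

/-!
# Actions of `ℤ^k`: pairs which contain a line bundle, or dimension at most five
-/

set_option autoImplicit false

open Set Filter Function Bundle
open scoped Topology Manifold ContDiff

namespace Pool.Agent.Lib.MP610fe3.HR

open CH

universe u v w

theorem dimSpec : SpecDim.{u, v, w} :=
  specDim specRegv (specInd specRegv) (specCrk specRegv)
    (specNov specVrt specCov specBox specRng) specLow specAct

variable {V : Type v} [NormedAddCommGroup V] [NormedSpace ℝ V] [FiniteDimensional ℝ V]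
  {M : Type u} [TopologicalSpace M] [CompactSpace M] [T2Space M] [ConnectedSpace M]
  [ChartedSpace V M] [IsManifold 𝓘(ℝ, V) ∞ M]
  [RiemannianBundle (fun x : M => TangentSpace 𝓘(ℝ, V) x)]
  [IsContinuousRiemannianBundle V (fun x : M => TangentSpace 𝓘(ℝ, V) x)]

/-- **Main theorem.** -/
theorem mainv {k : ℕ} (A : (Fin k → ℤ) → M ≃ₘ^1⟮𝓘(ℝ, V), 𝓘(ℝ, V)⟯ M)
    (hadd : ∀ n n' x, A (n + n') x = A n (A n' x)) {J : Type w} [Finite J] (χ : J → Fin k → ℝ)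
    (F : J → ∀ x : M, Submodule ℝ (TangentSpace 𝓘(ℝ, V) x))
    (hA : ∀ n : Fin k → ℤ, (∀ j, ∑ i, χ j i * (n i : ℝ) ≠ 0) → Gen.IsAnosovSplitting (A n)
      (fun x => ⨆ (j) (_ : ∑ i, χ j i * (n i : ℝ) < 0), F j x)
      (fun x => ⨆ (j) (_ : 0 < ∑ i, χ j i * (n i : ℝ)), F j x))
    (hpair : ∀ i j, ∀ t : ℝ, 0 < t → χ i = -(t • χ j) →
      (∀ n, ContMDiff 𝓘(ℝ, V) 𝓘(ℝ, V) 2 (A n)) ∧
      ((∀ x, Module.finrank ℝ (⨆ (l) (_ : ∃ c : ℝ, 0 < c ∧ χ l = c • χ i), F l x :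
        Submodule ℝ (TangentSpace 𝓘(ℝ, V) x)) = 1) ∨
      (∀ x, Module.finrank ℝ (⨆ (l) (_ : ∃ c : ℝ, 0 < c ∧ χ l = c • χ j), F l x :
        Submodule ℝ (TangentSpace 𝓘(ℝ, V) x)) = 1) ∨
      (Module.finrank ℝ V ≤ 5 ∧ (∀ l x, F l x ≠ ⊥) ∧ ∃ l, ∀ c : ℝ, χ l ≠ c • χ i)))
    (n : Fin k → ℤ) (hn : ∀ j, ∑ i, χ j i * (n i : ℝ) ≠ 0) : TopTransitive (A n) := by
  have hχ : ∀ j, χ j ≠ 0 := by
    intro j h0
    apply hn j
    simp [h0]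
  refine maing A hadd χ F hA (fun i j t ht hij => ?_) n hn
  obtain ⟨hC2, h | h | ⟨hd, hF, l, hl⟩⟩ := hpair i j t ht hij
  · exact ⟨hC2, Or.inl h⟩
  · exact ⟨hC2, Or.inr h⟩
  · exact ⟨hC2, dimSpec V M k A J χ F hadd hC2 hA hχ hF hd i j l t ht hij hl⟩

end Pool.Agent.Lib.MP610fe3.HR
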