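import Pool.Agent.Lib.MP_610fe3_an.HR.F1Spec

/-!
# Volume and dimension: statements of the modules (hive VOL)

GOAL (`HR/VDIM.lean`): in dimension at most `5` the condition of Theorem F2 holds automatically at every
pair, if not all functionals are multiples of one functional. Only coarse dimensions `(2, 2)` and one
further line bundle are to be excluded; then an element near the wall, on the side where the further
line bundle is contracted, contracts the volume of `M` (which is impossible): we count balls.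

A module `XXX` proves `theorem specXxx (h : SpecYyy) .. : SpecXxx` in its own file `HR/VXXX.lean`
(namespace `Pool.Agent.Lib.MP610fe3.HR`, auxiliary lemmas in the sub-namespace `VXXXAux`).
-/

set_option autoImplicit false

open Set Filter Function Bundle
open scoped Topology Manifold ContDiff

namespace Pool.Agent.Lib.MP610fe3.HR

open Cf CH

universe u v w

/-- The sum of the `F l` such that `χ l` is a positive multiple of `χ i` (any vector space). -/
def co {k : ℕ} {J : Type*} {T : Type*} [AddCommGroup T] [Module ℝ T] (χ : J → Fin k → ℝ)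
    (F : J → Submodule ℝ T) (i : J) : Submodule ℝ T :=
  ⨆ (l) (_ : ∃ c : ℝ, 0 < c ∧ χ l = c • χ i), F l

/-- A small ball of radius `r` is mapped into the union of `K` balls of radius `θ r`. -/
def Cov {M : Type*} [MetricSpace M] (h : M → M) (K : ℕ) (θ : ℝ) : Prop :=
  ∃ r₀ : ℝ, 0 < r₀ ∧ ∀ r : ℝ, 0 < r → r ≤ r₀ → ∀ x, ∃ c : Fin K → M, ∀ z, dist z x ≤ r →
    ∃ i, dist (h z) (c i) ≤ θ * r

/-- At least `c r^-d` balls of radius `r` are necessary to cover `M`. -/
def Low (M : Type*) [MetricSpace M] (d : ℕ) : Prop :=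
  ∃ c : ℝ, 0 < c ∧ ∀ r : ℝ, 0 < r → r ≤ 1 → ∀ s : Finset M, (∀ z : M, ∃ x ∈ s, dist z x ≤ r) →
    c ≤ s.card * r ^ d

/-- REGV. Regular integer vectors. There is `v₀ : Fin k → ℝ` with `a · v₀ < 0 < b · v₀` (`a`, `b` not
zero, `b` not a positive multiple of `a`: if `b = -t a`, `v₀ = -a`; else `a`, `b` are linearly
independent; e.g. `v₀ = b / |b| - a / |a|` in the Euclidean norm, strict Cauchy-Schwarz). The set of
`v` with `a · v < 0 < b · v` is open; choose `v` in it with all `χ l · v ≠ 0` (finitely many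
hyperplanes have dense complement: e.g. `v₀ + ε (1, ε, ε², ..)`), then a rational one, multiply by the
denominator. -/
def SpecRegv : Prop :=
  ∀ (k : ℕ) (J : Type w) [Finite J] (χ : J → Fin k → ℝ) (a b : Fin k → ℝ), (∀ j, χ j ≠ 0) → a ≠ 0 →
    b ≠ 0 → (¬ ∃ c : ℝ, 0 < c ∧ b = c • a) → ∃ n : Fin k → ℤ, Regular χ n ∧ ev a n < 0 ∧ 0 < ev b n

/-- IND. From REGV. Different coarse spaces are independent. By induction on `s`: if
`v ∈ co i ∩ ⨆ (l ∈ insert a s), co l`, take `n` with `ev (χ i) n < 0 < ev (χ a) n` and the projection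
`S` onto the first space of `hc n` along the second: `v = S v ∈ ⨆ (l ∈ s), co l`, since `S` kills `co a`
and maps every `co l` into itself. -/
def SpecInd : Prop :=
  ∀ (k : ℕ) (J : Type w) [Finite J] (T : Type v) [AddCommGroup T] [Module ℝ T]
    [FiniteDimensional ℝ T] (χ : J → Fin k → ℝ) (F : J → Submodule ℝ T), (∀ j, χ j ≠ 0) →
    (∀ n : Fin k → ℤ, Regular χ n →
      IsCompl (⨆ (j) (_ : ev (χ j) n < 0), F j) (⨆ (j) (_ : 0 < ev (χ j) n), F j)) →
    ∀ s : Finset J, (∀ i ∈ s, ∀ l ∈ s, i ≠ l → ¬ ∃ c : ℝ, 0 < c ∧ χ l = c • χ i) →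
      ∑ i ∈ s, Module.finrank ℝ (co χ F i) ≤ Module.finrank ℝ T

/-- CRK. From REGV. The dimension of a coarse bundle is constant. For a finite set `s` of indices `l`
such that `χ l` is not a positive multiple of `χ i` there is a continuous `Q : M → W →L[ℝ] W` (a product
of projections `S` of regular elements `n` with `ev (χ i) n < 0`, one of them with `0 < ev (χ l) n` for
each `l ∈ s`), with range in `⨆ j, F j x`, and which is the identity or zero on each `F m x`:
the identity if `χ m` is a positive multiple of `χ i`, zero if `m ∈ s`. For the set `s` of all such `l` it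
is a projection onto the coarse space; its trace is continuous (see `Cf.exists_rank`). Continuity of
`S`: `s.contS hs`. -/
def SpecCrk : Prop :=
  ∀ (M : Type u) (W : Type v) [MetricSpace M] [CompactSpace M] [ConnectedSpace M]
    [NormedAddCommGroup W] [InnerProductSpace ℝ W] [FiniteDimensional ℝ W] (E : Emb M W) (k : ℕ)
    (J : Type w) [Finite J] (A : (Fin k → ℤ) → M ≃ₜ M) (χ : J → Fin k → ℝ)
    (F : J → M → Submodule ℝ W), Act E A χ F → (∀ j, χ j ≠ 0) →
    ∀ i, ∃ d : ℕ, ∀ x, Module.finrank ℝ (coarse χ F i x) = d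

/-- VRT. Rates near the wall. As in `F1RTC.lean`, `F1RTX.lean`, with NARI: for large `q` let
`n'' = p n + q n'`, `s''` its splitting (the same signs as `n`, so the same ranges).
On the range of `PP s t` the derivative of `A (m n'')` is at most `C l^((p+q) m)`, `l < 1`
independent of `q` (it is the product of iterates of `A n` and of `A n'`, as in RTC); on the range of
`PP s t.swap` it is at most `C` (contracted by `A n''`); on the range of `PP s.swap t`, with `h = 2 n - n''`,
`A (m n'') = A (2 m n) ∘ A (-(m h))`, so it is at most `C B^(2m)`, `B` a bound for the derivative of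
`A n` (the range of `PP s.swap t` is in the UNSTABLE space of `h`; ranges as in RNG). Choose `q` with
`B^(2d) l^(p+q) < 1/2`, then `m` large, and `N = m n''`, `R = C B^(2m)`. -/
def SpecVrt : Prop :=
  ∀ (M : Type u) (W : Type v) [MetricSpace M] [CompactSpace M] [NormedAddCommGroup W]
    [InnerProductSpace ℝ W] [FiniteDimensional ℝ W] (E : Emb M W) (k : ℕ) (J : Type w) [Finite J]
    (A : (Fin k → ℤ) → M ≃ₜ M) (χ : J → Fin k → ℝ) (F : J → M → Submodule ℝ W), Act E A χ F →
    ∀ (n n' : Fin k → ℤ) (i j : J), Wal χ n n' i j →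
    ∀ (s : Split E (A n)) (t : Split E (A n')), s.Hyperbolic → t.Hyperbolic →
      (∀ x, (s.S x).range = ⨆ (a) (_ : ev (χ a) n < 0), F a x) →
      (∀ x, (s.U x).range = ⨆ (a) (_ : 0 < ev (χ a) n), F a x) →
      (∀ x, (t.S x).range = ⨆ (a) (_ : ev (χ a) n' < 0), F a x) →
      (∀ x, (t.U x).range = ⨆ (a) (_ : 0 < ev (χ a) n'), F a x) →
      ∀ (d : ℕ) (κ : ℝ), 0 < κ → ∃ (N : Fin k → ℤ) (D : M → W →L[ℝ] W) (R ρ : ℝ),
        HasD E (A N) D ∧ 1 ≤ R ∧ 0 < ρ ∧ ρ ≤ 1 ∧ R ^ d * ρ ≤ κ ∧
        (∀ x w, PP s t x w = w → ‖D x w‖ ≤ ρ * ‖w‖) ∧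
        (∀ x w, PP s t.swap x w = w → ‖D x w‖ ≤ R * ‖w‖) ∧
        (∀ x w, PP s.swap t x w = w → ‖D x w‖ ≤ R * ‖w‖)

/-- COV. Covers of the image of a small ball. `e (h z) - e (h x) = D x (e z - e x)` up to `ρ r`
(`HasD.approx` with `η = ρ`, `D x ∘L P x = D x`), `D x (Q x v)` has norm at most `ρ r`, and `D x (Q' x v)` is
in a ball of radius `R r` of a space of dimension at most `d`, which is covered by at most
`(1 + 2 R / ρ)^d` balls of radius `ρ r` (a maximal `ρ r`-separated subset; volumes of balls,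
`Measure.addHaar_closedBall`). Centers in `M`: choose a point `h z` for each ball which contains
one. (If `K` is larger than the number of balls repeat centers.) -/
def SpecCov : Prop :=
  ∀ (M : Type u) (W : Type v) [MetricSpace M] [CompactSpace M] [NormedAddCommGroup W]
    [InnerProductSpace ℝ W] [FiniteDimensional ℝ W] (E : Emb M W) (h : M → M)
    (D Q Q' : M → W →L[ℝ] W) (R ρ : ℝ) (d : ℕ), HasD E h D → 0 < ρ → ρ ≤ R →
    (∀ x, Q x + Q' x = E.P x) → (∀ x w, ‖D x (Q x w)‖ ≤ ρ * ‖w‖) →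
    (∀ x w, ‖D x (Q' x w)‖ ≤ R * ‖w‖) → (∀ x, Module.finrank ℝ (Q' x).range ≤ d) →
    ∀ K : ℕ, (3 * R / ρ) ^ d ≤ K → Cov h K (8 * ρ)

/-- BOX. `M` is covered by `N₀` balls of radius `r₀`, so by `N₀ K^p` balls of radius `θ^p r₀`. -/
def SpecBox : Prop :=
  ∀ (M : Type u) [MetricSpace M] [CompactSpace M] [Nonempty M] (h : M ≃ₜ M) (K d : ℕ) (θ : ℝ),
    0 < θ → θ < 1 → Cov h K θ → Low M d → 1 ≤ K * θ ^ d

/-- LOW. A lower bound for the number of balls. In the chart `φ` at a point the map `e ∘ φ.symm` is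
antilipschitz on a ball `B` (its derivative is injective: `HasStrictFDerivAt`,
`ApproximatesLinearOn.antilipschitz`): the preimage in `B` of a ball of radius `r` is in a ball of
radius `2 K r` of `V`. Compare the Haar measures. -/
def SpecLow : Prop :=
  ∀ (V : Type v) [NormedAddCommGroup V] [NormedSpace ℝ V] [FiniteDimensional ℝ V] (N : ℕ)
    (M : Type u) [MetricSpace M] [CompactSpace M] [Nonempty M] [ChartedSpace V M]
    [IsManifold 𝓘(ℝ, V) ∞ M] (e : M → EuclideanSpace ℝ (Fin N)), Isometry e →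
    ContMDiff 𝓘(ℝ, V) (𝓡 N) ∞ e → (∀ x, Injective (mfderiv 𝓘(ℝ, V) (𝓡 N) e x)) →
    Low M (Module.finrank ℝ V)

/-- NOV. From VRT, COV, BOX, RNG: volume excludes a wall on which all other functionals are
negative. `Q = PP s t`, `Q' = PP s t.swap + PP s.swap t` (`s.U x ∘L t.U x = 0`: the ranges of
`s.U x`, `t.U x` are sums of different `F l x`, and they commute, `Cf`/`F1RTC`), the range of `Q' x` is in
`coarse χ F i x ⊔ coarse χ F j x` (RNG). If `d ≥ 1` is the dimension: `K θ^d ≤ C R^(d-1) ρ < 1`. -/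
def SpecNov : Prop :=
  ∀ (M : Type u) (W : Type v) [MetricSpace M] [CompactSpace M] [Nonempty M] [NormedAddCommGroup W]
    [InnerProductSpace ℝ W] [FiniteDimensional ℝ W] (E : Emb M W) (k : ℕ) (J : Type w) [Finite J]
    (A : (Fin k → ℤ) → M ≃ₜ M) (χ : J → Fin k → ℝ) (F : J → M → Submodule ℝ W) (d : ℕ),
    Act E A χ F → Low M (d + 1) → ∀ (n n' : Fin k → ℤ) (i j : J), Wal χ n n' i j →
    (∀ l, ev (χ l) n < 0 ∨ ev (χ l) n' < 0) →
    (∀ x, Module.finrank ℝ (coarse χ F i x) + Module.finrank ℝ (coarse χ F j x) ≤ d) → False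

/-- DIM. The dimension lemma, from REGV, IND, CRK, NOV, LOW, ACT. Suppose that the coarse bundles of
`i`, `j` are not line bundles. By CRK (and the last clause of ACT) they have constant dimensions, at
least `2` (`F i x ≠ ⊥`). IND for `{i, j, l}`: the dimensions are `2`, `2`, `1` and `finrank V = 5`;
IND for `{i, j, l, m}`: every `χ m` is a multiple of `χ i` or a positive multiple of `χ l`. REGV gives
`n` with `ev (χ i) n < 0 < ev (-χ l) n` and `n'` with `ev (χ l) n' < 0 < ev (χ i) n'`; this is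
`Wal χ n n' i j`, NOV with `d = 4`. The metric on `M`: as in `main_hr2` (`CHAIN2.lean`). -/
def SpecDim : Prop :=
  ∀ (V : Type v) [NormedAddCommGroup V] [NormedSpace ℝ V] [FiniteDimensional ℝ V] (M : Type u)
    [TopologicalSpace M] [CompactSpace M] [T2Space M] [ConnectedSpace M]
    [ChartedSpace V M] [IsManifold 𝓘(ℝ, V) ∞ M]
    [RiemannianBundle (fun x : M => TangentSpace 𝓘(ℝ, V) x)]
    [IsContinuousRiemannianBundle V (fun x : M => TangentSpace 𝓘(ℝ, V) x)]
    (k : ℕ) (A : (Fin k → ℤ) → M ≃ₘ^1⟮𝓘(ℝ, V), 𝓘(ℝ, V)⟯ M) (J : Type w) [Finite J]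
    (χ : J → Fin k → ℝ) (F : J → ∀ x : M, Submodule ℝ (TangentSpace 𝓘(ℝ, V) x)),
    (∀ n n' x, A (n + n') x = A n (A n' x)) → (∀ n, ContMDiff 𝓘(ℝ, V) 𝓘(ℝ, V) 2 (A n)) →
    (∀ n, Regular χ n → Gen.IsAnosovSplitting (A n) (fun x => ⨆ (j) (_ : ev (χ j) n < 0), F j x)
      (fun x => ⨆ (j) (_ : 0 < ev (χ j) n), F j x)) →
    (∀ j, χ j ≠ 0) → (∀ j x, F j x ≠ ⊥) → Module.finrank ℝ V ≤ 5 →
    ∀ (i j l : J) (t : ℝ), 0 < t → χ i = -(t • χ j) → (∀ c : ℝ, χ l ≠ c • χ i) →
      (∀ x, Module.finrank ℝ (co χ (fun a => F a x) i) = 1) ∨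
      (∀ x, Module.finrank ℝ (co χ (fun a => F a x) j) = 1)

end Pool.Agent.Lib.MP610fe3.HR
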