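import Pool.Agent.Lib.MP_610fe3_an.HR.VSpec
import Pool.Agent.Lib.MP_610fe3_an.HR.RNG
import Pool.Agent.Lib.MP_610fe3_an.HR.F1NARI
import Pool.Agent.Lib.MP_610fe3_an.HR.F1RTC
import Pool.Agent.Lib.MP_610fe3_an.HR.F1RTX

/-!
# Module VRT: rates near the wall (hive VOL)
-/

set_option autoImplicit false

open Set Filter Function
open scoped Topology

namespace Pool.Agent.Lib.MP610fe3.HR

open Cf CH F1RTAux F1RTXAux

universe u v w

namespace VVRTAux

variable {M W : Type*} [MetricSpace M] [NormedAddCommGroup W] [NormedSpace ℝ W] {E : Emb M W}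

theorem U_of_PP {f g : M ≃ₜ M} (s : Split E f) (t : Split E g) {x : M} {w : W}
    (h : PP s.swap t x w = w) : s.U x w = w := S_of_PP s.swap t h

/-- The choice of the exponent `m`. -/
theorem exists_exponent {a b κ : ℝ} (ha : 0 < a) (hb0 : 0 ≤ b) (hb : b < 1) (hκ : 0 < κ) :
    ∃ m : ℕ, a * b ^ (m + 1) ≤ κ := by
  have h := (tendsto_pow_atTop_nhds_zero_of_lt_one hb0 hb).const_mul a
  rw [mul_zero] at h
  obtain ⟨m, hm⟩ := (h.eventually (gt_mem_nhds hκ)).exists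
  refine ⟨m, ?_⟩
  have h1 : b ^ (m + 1) ≤ b ^ m := pow_le_pow_of_le_one hb0 hb.le (Nat.le_succ m)
  exact (mul_le_mul_of_nonneg_left h1 ha.le).trans hm.le

end VVRTAux

open VVRTAux

/-- **VRT.** -/
theorem specVrt : SpecVrt.{u, v, w} := by
  intro M W _ _ _ _ _ E k J _ A χ F hAct n n' i j hwal s t hs ht hsS hsU htS htU d κ hκ
  obtain ⟨q₀, hq₀⟩ := specNari k J χ n n' i j hwal
  obtain ⟨C₁, l, hl, hl1, hR⟩ := specRtc M W E k J A χ F hAct n n' hwal.reg hwal.reg'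
  obtain ⟨B, hB1, hB⟩ := exists_norm_bound s.hD.cont
  have hB0 : 0 < B := by linarith
  -- the choice of `q`
  obtain ⟨q, hq1, hq2⟩ : ∃ q : ℕ, q₀ ≤ q ∧ B ^ (2 * d) * l ^ q < 1 := by
    have h := (tendsto_pow_atTop_nhds_zero_of_lt_one hl.le hl1).const_mul (B ^ (2 * d))
    rw [mul_zero] at h
    exact ((eventually_ge_atTop q₀).and (h.eventually (gt_mem_nhds one_pos))).exists
  obtain ⟨p, hp1, hW', hsign, hreg, hneg⟩ := hq₀ q hq1
  set n'' : Fin k → ℤ := (p : ℤ) • n + (q : ℤ) • n' with hn''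
  have hcomm : ∀ a b x, A a (A b x) = A b (A a x) := act_comm hAct.add
  obtain ⟨s₂, ⟨C₂, l₂, hC₂, hl₂, hl₂', hest₂⟩, -, hS₂, hU₂⟩ := hAct.split n'' hW'.reg
  have hs₂ : s₂.Hyperbolic := ⟨C₂, l₂, hC₂, hl₂, hl₂', hest₂⟩
  obtain ⟨r, ⟨C₃, l₃, hC₃, hl₃, hl₃', hest₃⟩, -, hRS, hRU⟩ :=
    hAct.split ((2 : ℤ) • n - n'') hreg
  -- the ranges of `s₂` are those of `s`
  have hsame : ∀ x w, s.S x w = w → s₂.S x w = w := by
    intro x w hw
    apply SCAAux.S_fix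
    rw [hS₂]
    have h2 : w ∈ (s.S x).range := ⟨w, hw⟩
    rw [hsS] at h2
    have e : (⨆ (a) (_ : ev (χ a) n'' < 0), F a x) = ⨆ (a) (_ : ev (χ a) n < 0), F a x := by
      refine iSup_congr fun a => ?_
      rw [iSup_congr_Prop (hsign a) fun _ => rfl]
    rwa [e]
  -- constants
  set C₄ : ℝ := max C₁ 1 with hC₄
  set C₅ : ℝ := max (max C₂ C₃) 1 with hC₅
  have hC₄1 : 1 ≤ C₄ := le_max_right _ _
  have hC₅1 : 1 ≤ C₅ := le_max_right _ _
  set b : ℝ := B ^ (2 * d) * l ^ (p + q) with hb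
  have hb0 : 0 ≤ b := by positivity
  have hb1 : b < 1 := by
    refine lt_of_le_of_lt ?_ hq2
    exact mul_le_mul_of_nonneg_left (pow_le_pow_of_le_one hl.le hl1.le (by omega)) (by positivity)
  have hlp : l ^ (p + q) < 1 := pow_lt_one₀ hl.le hl1 (by omega)
  obtain ⟨m₁, hm₁⟩ := exists_exponent (a := C₅ ^ d * C₄) (by positivity) hb0 hb1 hκ
  obtain ⟨m₂, hm₂⟩ := exists_exponent (a := C₄) (by positivity) (by positivity) hlp one_pos
  set m : ℕ := max m₁ m₂ with hm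
  have hm₁' : C₅ ^ d * C₄ * b ^ (m + 1) ≤ κ := by
    refine le_trans ?_ hm₁
    have h1 : b ^ (m + 1) ≤ b ^ (m₁ + 1) :=
      pow_le_pow_of_le_one hb0 hb1.le (Nat.succ_le_succ (le_max_left _ _))
    exact mul_le_mul_of_nonneg_left h1 (by positivity)
  have hm₂' : C₄ * (l ^ (p + q)) ^ (m + 1) ≤ 1 := by
    refine le_trans ?_ hm₂
    have h1 : (l ^ (p + q)) ^ (m + 1) ≤ (l ^ (p + q)) ^ (m₂ + 1) :=
      pow_le_pow_of_le_one (by positivity) hlp.le (Nat.succ_le_succ (le_max_right _ _))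
    exact mul_le_mul_of_nonneg_left h1 (by positivity)
  have hBm : 1 ≤ B ^ (2 * (m + 1)) := one_le_pow₀ hB1
  refine ⟨((m + 1 : ℕ) : ℤ) • n'', iterD s₂.D (A n'') (m + 1), C₅ * B ^ (2 * (m + 1)),
    C₄ * (l ^ (p + q)) ^ (m + 1), ?_, ?_, by positivity, hm₂', ?_, ?_, ?_, ?_⟩
  · have h1 := HasD.iter (A n'').continuous s₂.hD m
    have h2 : ((A n'')^[m + 1] : M → M) = A (((m + 1 : ℕ) : ℤ) • n'') :=
      funext fun x => act_iter hAct.add n'' (m + 1) x
    rwa [h2] at h1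
  · nlinarith
  · calc (C₅ * B ^ (2 * (m + 1))) ^ d * (C₄ * (l ^ (p + q)) ^ (m + 1))
        = C₅ ^ d * C₄ * (B ^ (2 * d) * l ^ (p + q)) ^ (m + 1) := by
          rw [mul_pow, mul_pow, ← pow_mul, ← pow_mul, ← pow_mul,
            show 2 * (m + 1) * d = 2 * d * (m + 1) by ring]
          ring
      _ ≤ κ := hm₁'
  · intro x w hw
    have h1 : PP s₂ t x w = w := by
      show s₂.S x (t.S x w) = w
      rw [S_of_PP' s t hs ht (hcomm _ _) hw]
      exact hsame x w (S_of_PP s t hw)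
    refine (hR p q hW'.reg hsign s₂ t hS₂ htS hs₂ ht (m + 1) x w h1).trans ?_
    have h2 : C₁ ≤ C₄ := le_max_left _ _
    gcongr
  · intro x w hw
    have h1 : s₂.S x w = w := hsame x w (S_of_PP s t.swap hw)
    have h2 := (hest₂ (m + 1) x w).1
    rw [h1] at h2
    have h3 : C₂ * l₂ ^ (m + 1) ≤ C₅ * B ^ (2 * (m + 1)) := by
      have h4 : l₂ ^ (m + 1) ≤ 1 := pow_le_one₀ hl₂.le hl₂'.le
      have h5 : C₂ ≤ C₅ := (le_max_left _ _).trans (le_max_left _ _)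
      calc C₂ * l₂ ^ (m + 1) ≤ C₅ * 1 := by gcongr
        _ ≤ C₅ * B ^ (2 * (m + 1)) := by gcongr
    exact h2.trans (mul_le_mul_of_nonneg_right h3 (norm_nonneg _))
  · intro x w hw
    have hcs : ∀ x, (A n) ((A n') x) = (A n') ((A n) x) := hcomm n n'
    have hrng := (specRng M W E k J χ F (A n) (A n') s t n n' hs ht hcs hwal.reg hwal.reg'
      hsS hsU htS htU i j hwal).2
    have hP : E.P x w = w := P_fix_PP s.swap t hw
    have hpos : 0 < ev (χ j) ((2 : ℤ) • n - n'') := by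
      obtain ⟨c, hc, hcj⟩ := hwal.neg
      have h1 : ev (χ j) ((2 : ℤ) • n - n'') = -(c * ev (χ i) ((2 : ℤ) • n - n'')) := by
        rw [hcj, ← neg_smul, SCAAux.ev_smul_left]
        ring
      rw [h1]
      have := mul_neg_of_pos_of_neg hc hneg
      linarith
    have hrU : r.U x w = w := by
      apply SCAAux.U_fix
      rw [hRU]
      apply SCAAux.coarse_le_pos hpos x
      rw [← hrng x]
      exact ⟨w, hw⟩
    have heq : ∀ x, (A n'')^[m + 1] x
        = (A n)^[2 * (m + 1)] ((A ((2 : ℤ) • n - n'')).symm^[m + 1] x) := by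
      intro x
      rw [act_iter_symm hAct.add, act_iter hAct.add, act_iter hAct.add, ← hAct.add]
      congr 2
      push_cast
      rw [smul_sub, smul_smul, mul_comm ((m : ℤ) + 1) 2]
      abel
    rw [iterD_eq (A n'').continuous (A n).continuous (A _).symm.continuous s₂.hD s.hD
      r.hDi heq x w hP]
    have h2 := (hest₃ (m + 1) x w).2
    rw [hrU] at h2
    refine (iterD_bound hB0.le hB (2 * (m + 1)) _ _).trans ?_
    have h3 : C₃ * l₃ ^ (m + 1) ≤ C₅ := by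
      have h4 : l₃ ^ (m + 1) ≤ 1 := pow_le_one₀ hl₃.le hl₃'.le
      have h5 : C₃ ≤ C₅ := (le_max_right _ _).trans (le_max_left _ _)
      calc C₃ * l₃ ^ (m + 1) ≤ C₅ * 1 := by gcongr
        _ = C₅ := mul_one _
    calc B ^ (2 * (m + 1)) * ‖iterD r.Di (A ((2 : ℤ) • n - n'')).symm (m + 1) x w‖
        ≤ B ^ (2 * (m + 1)) * (C₃ * l₃ ^ (m + 1) * ‖w‖) := by gcongr
      _ ≤ B ^ (2 * (m + 1)) * (C₅ * ‖w‖) := by gcongr
      _ = C₅ * B ^ (2 * (m + 1)) * ‖w‖ := by ring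

end Pool.Agent.Lib.MP610fe3.HR
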